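import Mathlib

set_option autoImplicit false

namespace Pool.Agent.Helper746.Car

open Filter Topology

noncomputable section

def Mid (n : ℕ) (t : ℝ) : Prop :=
  ∃ i : ℤ, 3 * (i : ℝ) + 1 < 3 ^ (n + 1) * t ∧ 3 ^ (n + 1) * t < 3 * (i : ℝ) + 2

def K : Set ℝ := {t | ∀ n, ¬ Mid n t}

def X : Set (ℝ × ℝ) := {p | ∀ n, ¬ (Mid n p.1 ∧ Mid n p.2)}

def n1 (p : ℝ × ℝ) : ℝ := |p.1| + |p.2|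

def Sq : Set (ℝ × ℝ) := {p | p ∈ X ∧ 0 ≤ p.1 ∧ p.1 ≤ 1 ∧ 0 ≤ p.2 ∧ p.2 ≤ 1}

def Rw : Set (ℝ × ℝ) := {p | p ∈ X ∧ 0 ≤ p.2 ∧ p.2 ≤ 1}

def RwI (a b : ℝ) : Set (ℝ × ℝ) := {p | p ∈ X ∧ a ≤ p.1 ∧ p.1 ≤ b ∧ 0 ≤ p.2 ∧ p.2 ≤ 1}

def Dm : Set (ℝ × ℝ) := {p | p ∈ X ∧ 0 ≤ p.1 ∧ p.1 ≤ 1 ∧ -1 ≤ p.2 ∧ p.2 ≤ 1}

structure Good (L lam : ℝ) (D : Set (ℝ × ℝ)) (g : ℝ × ℝ → ℝ × ℝ) : Prop where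
  mapsX : ∀ p ∈ D, g p ∈ X
  lower : ∀ p ∈ D, ∀ q ∈ D, dist p q ≤ L * dist (g p) (g q)
  upper : ∀ p ∈ D, ∀ q ∈ D, dist (g p) (g q) ≤ L * dist p q
  speedH : ∀ x x' y : ℝ, x ≤ x' → (∀ t, x ≤ t → t ≤ x' → ((t, y) : ℝ × ℝ) ∈ D) →
    n1 (g (x', y) - g (x, y)) ≤ lam * (x' - x)
  speedV : ∀ y y' x : ℝ, y ≤ y' → (∀ t, y ≤ t → t ≤ y' → ((x, t) : ℝ × ℝ) ∈ D) →
    n1 (g (x, y') - g (x, y)) ≤ lam * (y' - y)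

def IsSym (A : ℝ × ℝ → ℝ × ℝ) : Prop :=
  ∃ e₁ e₂ : ℝ, (e₁ = 1 ∨ e₁ = -1) ∧ (e₂ = 1 ∨ e₂ = -1) ∧
    ((∀ p, A p = (e₁ * p.1, e₂ * p.2)) ∨ (∀ p, A p = (e₁ * p.2, e₂ * p.1)))

def cp (n : ℕ) (i j : ℤ) (q : ℝ × ℝ) : ℝ × ℝ := (((i : ℝ) + q.1) / 3 ^ n, ((j : ℝ) + q.2) / 3 ^ n)

def Exact (lam : ℝ) (g : ℝ × ℝ → ℝ × ℝ) (n : ℕ) (i j : ℤ) : Prop :=
  ∃ m : ℕ, lam = (1 / 3) ^ m ∧ ∃ A : ℝ × ℝ → ℝ × ℝ, IsSym A ∧ ∃ z w : ℤ, ∀ q ∈ Sq,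
    g (cp n i j q) = (lam / 3 ^ n) • (A q + ((z : ℝ), (w : ℝ)))

def NE (lam : ℝ) (D : Set (ℝ × ℝ)) (g : ℝ × ℝ → ℝ × ℝ) : Prop :=
  ∀ (n : ℕ) (i j : ℤ), (∀ q ∈ Sq, cp n i j q ∈ D) → ¬ Exact lam g n i j

/-- straight class -/
structure St (L lam : ℝ) (g : ℝ × ℝ → ℝ × ℝ) : Prop where
  good : Good L lam Rw g
  str : ∀ c ∈ K, 0 ≤ c → c ≤ 1 → ∀ x : ℝ, g (x, c) = ((g (0, c)).1 + lam * x, (g (0, c)).2)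
  ori : (g (0, 0)).2 ≤ (g (0, 1)).2

/-- closed properties -/
structure Cl (L lam : ℝ) (P : (ℝ × ℝ → ℝ × ℝ) → Prop) : Prop where
  int : ∀ g, St L lam g → P g → ∀ z w : ℤ, P (fun q => g q - ((z : ℝ), (w : ℝ)))
  sub0 : ∀ g, St L lam g → P g → P (fun q => (3 : ℝ) • g (q.1 / 3, q.2 / 3))
  sub2 : ∀ g, St L lam g → P g → P (fun q => (3 : ℝ) • g (q.1 / 3, (q.2 + 2) / 3))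
  lim : ∀ (g : ℕ → ℝ × ℝ → ℝ × ℝ) (G : ℝ × ℝ → ℝ × ℝ), (∀ k, St L lam (g k)) → (∀ k, P (g k)) →
    Good L lam Rw G →
    (∀ p ∈ Rw, Tendsto (fun k => g k p) (hyperfilter ℕ : Filter ℕ) (𝓝 (G p))) → P G

/-- Cantor function properties -/
structure IsF (F : ℝ → ℝ) : Prop where
  cont : Continuous F
  mono : Monotone F
  per : ∀ y, F (y + 1) = F y + 1
  zero : F 0 = 0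
  tri : ∀ y, -(1 / 3) ≤ y → y ≤ 1 / 3 → F (3 * y) = 2 * F y
  half : ∀ y, 1 / 3 ≤ y → y ≤ 2 / 3 → F y = 1 / 2

/-- Cantor row at level n -/
def RowK (n : ℕ) (j : ℤ) : Prop := ∀ m < n, ∀ s : ℝ, 0 ≤ s → s ≤ 1 → ¬ Mid m (((j : ℝ) + s) / 3 ^ n)

def NN (t : ℝ) (u : ℝ × ℝ) : ℝ := n1 u + t * Real.sqrt (u.1 ^ 2 + u.2 ^ 2)

end

end Pool.Agent.Helper746.Car
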