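import Mathlib
import Pool.Agent.Helper746.CarDefs

set_option autoImplicit false

namespace Pool.Agent.Helper746.Car

open Filter Topology

noncomputable section

theorem mid_add_int (n : ℕ) (t : ℝ) (z : ℤ) : Mid n (t + z) ↔ Mid n t := by
  constructor
  · rintro ⟨i, h1, h2⟩
    refine ⟨i - 3 ^ n * z, ?_, ?_⟩ <;> push_cast <;> rw [pow_succ] at * <;> nlinarith
  · rintro ⟨i, h1, h2⟩
    refine ⟨i + 3 ^ n * z, ?_, ?_⟩ <;> push_cast <;> rw [pow_succ] at * <;> nlinarith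

theorem mid_neg (n : ℕ) (t : ℝ) : Mid n (-t) ↔ Mid n t := by
  constructor
  · rintro ⟨i, h1, h2⟩
    refine ⟨-i - 1, ?_, ?_⟩ <;> push_cast <;> linarith
  · rintro ⟨i, h1, h2⟩
    refine ⟨-i - 1, ?_, ?_⟩ <;> push_cast <;> linarith

theorem mid_pow (n k : ℕ) (t : ℝ) : Mid n (3 ^ k * t) ↔ Mid (n + k) t := by
  have h : (3 : ℝ) ^ (n + 1) * (3 ^ k * t) = 3 ^ (n + k + 1) * t := by
    rw [← mul_assoc, ← pow_add]; congr 2; ring
  unfold Mid
  rw [h]

theorem mid_div (n k : ℕ) (t : ℝ) : Mid (n + k) (t / 3 ^ k) ↔ Mid n t := by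
  rw [← mid_pow]
  have : (3 : ℝ) ^ k * (t / 3 ^ k) = t := by field_simp
  rw [this]

theorem not_mid_tri (n k : ℕ) (hk : k ≤ n + 1) (z : ℤ) : ¬ Mid n ((z : ℝ) / 3 ^ k) := by
  rintro ⟨i, h1, h2⟩
  obtain ⟨m, hm⟩ := Nat.exists_eq_add_of_le hk
  have h : (3 : ℝ) ^ (n + 1) * ((z : ℝ) / 3 ^ k) = ((3 ^ m * z : ℤ) : ℝ) := by
    rw [hm, pow_add]
    push_cast
    field_simp
  rw [h] at h1 h2
  have h1' : (3 * i + 1 : ℤ) < 3 ^ m * z := by exact_mod_cast h1
  have h2' : (3 ^ m * z : ℤ) < 3 * i + 2 := by exact_mod_cast h2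
  omega

theorem mid_zero_iff (t : ℝ) : Mid 0 t ↔ ∃ i : ℤ, (i : ℝ) + 1 / 3 < t ∧ t < (i : ℝ) + 2 / 3 := by
  unfold Mid
  constructor
  · rintro ⟨i, h1, h2⟩
    refine ⟨i, ?_, ?_⟩ <;> norm_num at h1 h2 ⊢ <;> linarith
  · rintro ⟨i, h1, h2⟩
    refine ⟨i, ?_, ?_⟩ <;> norm_num at h1 h2 ⊢ <;> linarith

theorem not_mid_zero {t : ℝ} (j : ℤ) (h0 : (j : ℝ) - 1 / 3 ≤ t) (h1 : t ≤ (j : ℝ) + 1 / 3) :
    ¬ Mid 0 t := by
  rw [mid_zero_iff]
  rintro ⟨i, h2, h3⟩
  have h4 : (i : ℝ) < j := by linarith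
  have h5 : (j : ℝ) < i + 1 := by linarith
  have h4' : i < j := by exact_mod_cast h4
  have h5' : j < i + 1 := by exact_mod_cast h5
  omega

theorem K_int (z : ℤ) : (z : ℝ) ∈ K := by
  intro n
  have := not_mid_tri n 0 (by omega) z
  simpa using this

theorem K_zero : (0 : ℝ) ∈ K := by simpa using K_int 0

theorem K_one : (1 : ℝ) ∈ K := by simpa using K_int 1

theorem K_third : (1 / 3 : ℝ) ∈ K := by
  intro n
  have := not_mid_tri n 1 (by omega) 1
  simpa using this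

theorem K_two_third : (2 / 3 : ℝ) ∈ K := by
  intro n
  have := not_mid_tri n 1 (by omega) 2
  simpa using this

theorem K_add_int {c : ℝ} (h : c ∈ K) (z : ℤ) : c + z ∈ K := by
  intro n
  rw [mid_add_int]
  exact h n

theorem K_neg {c : ℝ} (h : c ∈ K) : -c ∈ K := by
  intro n
  rw [mid_neg]
  exact h n

theorem K_div {c : ℝ} (h : c ∈ K) (h0 : -1 ≤ c) (h1 : c ≤ 1) : c / 3 ∈ K := by
  intro n
  cases n with
  | zero => exact not_mid_zero 0 (by push_cast; linarith) (by push_cast; linarith)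
  | succ m =>
    have := mid_div m 1 c
    rw [pow_one] at this
    rw [this]
    exact h m

theorem K_ninth : (1 / 9 : ℝ) ∈ K := by
  have := K_div K_third (by norm_num) (by norm_num)
  norm_num at this
  simpa using this

theorem K_div2 {c : ℝ} (h : c ∈ K) (h0 : 0 ≤ c) (h1 : c ≤ 1) : (c + 2) / 3 ∈ K := by
  intro n
  cases n with
  | zero => exact not_mid_zero 1 (by push_cast; linarith) (by push_cast; linarith)
  | succ m =>
    have := mid_div m 1 (c + 2)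
    rw [pow_one] at this
    rw [this]
    have h2 := mid_add_int m c 2
    push_cast at h2
    rw [h2]
    exact h m

theorem K_scale {c : ℝ} (h : c ∈ K) (k : ℕ) : 3 ^ k * c ∈ K := by
  intro n
  rw [mid_pow]
  exact h _

theorem K_block {c : ℝ} (h : c ∈ K) : ∃ j : ℤ, (j : ℝ) - 1 / 3 ≤ c ∧ c ≤ (j : ℝ) + 1 / 3 := by
  by_contra hcon
  push Not at hcon
  apply h 0
  rw [mid_zero_iff]
  refine ⟨⌊c⌋, ?_, ?_⟩
  · have h1 := Int.floor_le c
    have h2 := hcon ⌊c⌋ (by linarith)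
    exact h2
  · have h1 := Int.lt_floor_add_one c
    by_contra h3
    push Not at h3
    have h2 := hcon (⌊c⌋ + 1) (by push_cast; linarith)
    push_cast at h2
    linarith

theorem K_closed : IsClosed K := by
  have : K = ⋂ n : ℕ, {t | ¬ Mid n t} := by
    ext t; simp [K]
  rw [this]
  apply isClosed_iInter
  intro n
  rw [← isOpen_compl_iff]
  have h2 : {t : ℝ | ¬ Mid n t}ᶜ = ⋃ i : ℤ, ({t : ℝ | 3 * (i : ℝ) + 1 < 3 ^ (n + 1) * t} ∩
      {t : ℝ | 3 ^ (n + 1) * t < 3 * (i : ℝ) + 2}) := by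
    ext t
    simp [Mid]
  rw [h2]
  apply isOpen_iUnion
  intro i
  exact (isOpen_lt (by fun_prop) (by fun_prop)).inter (isOpen_lt (by fun_prop) (by fun_prop))

end

end Pool.Agent.Helper746.Car
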