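import Mathlib
import Pool.Agent.Helper746.CarDefs
import Pool.Agent.Helper746.CarBasA

set_option autoImplicit false

namespace Pool.Agent.Helper746.Car

open Filter Topology

noncomputable section

theorem mid_open (n : ℕ) : IsOpen {t : ℝ | Mid n t} := by
  have e : {t : ℝ | Mid n t} = ⋃ i : ℤ, {t : ℝ | 3 * (i : ℝ) + 1 < 3 ^ (n + 1) * t ∧ 3 ^ (n + 1) * t < 3 * (i : ℝ) + 2} := by
    ext t; simp [Mid]
  rw [e]
  apply isOpen_iUnion
  intro i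
  have hc : Continuous (fun t : ℝ => 3 ^ (n + 1) * t) := by fun_prop
  exact (isOpen_lt continuous_const hc).inter (isOpen_lt hc continuous_const)

theorem mid_third (m : ℕ) (t : ℝ) : Mid (m + 1) (t / 3) ↔ Mid m t := by
  have := mid_div m 1 t
  rwa [pow_one] at this

theorem mid_sign (n : ℕ) (e t : ℝ) (he : e = 1 ∨ e = -1) : Mid n (e * t) ↔ Mid n t := by
  rcases he with h | h
  · rw [h, one_mul]
  · rw [h, neg_one_mul, mid_neg]

theorem X_closed : IsClosed X := by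
  have e : X = ⋂ n : ℕ, {p : ℝ × ℝ | ¬ (Mid n p.1 ∧ Mid n p.2)} := by
    ext p; simp [X]
  rw [e]
  apply isClosed_iInter
  intro n
  have h1 : IsOpen {p : ℝ × ℝ | Mid n p.1 ∧ Mid n p.2} :=
    ((mid_open n).preimage continuous_fst).inter ((mid_open n).preimage continuous_snd)
  exact h1.isClosed_compl

theorem X_add_int (p : ℝ × ℝ) (z w : ℤ) : p + ((z : ℝ), (w : ℝ)) ∈ X ↔ p ∈ X := by
  show (∀ n, ¬ (Mid n (p.1 + z) ∧ Mid n (p.2 + w))) ↔ (∀ n, ¬ (Mid n p.1 ∧ Mid n p.2))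
  simp only [mid_add_int]

theorem X_sub_int (p : ℝ × ℝ) (z w : ℤ) : p - ((z : ℝ), (w : ℝ)) ∈ X ↔ p ∈ X := by
  have h := X_add_int p (-z) (-w)
  have e : p + (((-z : ℤ) : ℝ), ((-w : ℤ) : ℝ)) = p - ((z : ℝ), (w : ℝ)) := by
    ext
    · show p.1 + ((-z : ℤ) : ℝ) = p.1 - z
      push_cast; ring
    · show p.2 + ((-w : ℤ) : ℝ) = p.2 - w
      push_cast; ring
  rw [e] at h
  exact h

theorem X_sym {A : ℝ × ℝ → ℝ × ℝ} (hA : IsSym A) (p : ℝ × ℝ) : A p ∈ X ↔ p ∈ X := by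
  obtain ⟨e₁, e₂, h1, h2, h | h⟩ := hA
  · rw [h p]
    show (∀ n, ¬ (Mid n (e₁ * p.1) ∧ Mid n (e₂ * p.2))) ↔ (∀ n, ¬ (Mid n p.1 ∧ Mid n p.2))
    simp only [mid_sign _ _ _ h1, mid_sign _ _ _ h2]
  · rw [h p]
    show (∀ n, ¬ (Mid n (e₁ * p.2) ∧ Mid n (e₂ * p.1))) ↔ (∀ n, ¬ (Mid n p.1 ∧ Mid n p.2))
    simp only [mid_sign _ _ _ h1, mid_sign _ _ _ h2, and_comm]

theorem X_scale {p : ℝ × ℝ} (h : p ∈ X) (k : ℕ) : ((3 : ℝ) ^ k) • p ∈ X := by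
  intro n hn
  have h1 : Mid n (3 ^ k * p.1) := hn.1
  have h2 : Mid n (3 ^ k * p.2) := hn.2
  rw [mid_pow] at h1 h2
  exact h (n + k) ⟨h1, h2⟩

theorem X_of_lam {m : ℕ} {p : ℝ × ℝ} (h : ((1 / 3 : ℝ) ^ m) • p ∈ X) : p ∈ X := by
  have := X_scale h m
  rw [smul_smul, ← mul_pow] at this
  norm_num at this
  exact this

theorem X_of_K1 {c : ℝ} (y : ℝ) (h : c ∈ K) : ((c, y) : ℝ × ℝ) ∈ X := fun n hn => h n hn.1
theorem X_of_K2 {c : ℝ} (x : ℝ) (h : c ∈ K) : ((x, c) : ℝ × ℝ) ∈ X := fun n hn => h n hn.2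

theorem K_of_line {y : ℝ} (h : ∀ x : ℝ, ((x, y) : ℝ × ℝ) ∈ X) : y ∈ K := by
  intro n hn
  refine h ((3 / 2) / 3 ^ (n + 1)) n ⟨⟨0, ?_⟩, hn⟩
  have e : (3 : ℝ) ^ (n + 1) * ((3 / 2) / 3 ^ (n + 1)) = 3 / 2 := by field_simp
  simp only
  rw [e]
  norm_num

theorem Sq_sub {q : ℝ × ℝ} (h : q ∈ Sq) {a b : ℤ} (ha : 0 ≤ a ∧ a ≤ 2) (hb : 0 ≤ b ∧ b ≤ 2)
    (hab : ¬ (a = 1 ∧ b = 1)) : cp 1 a b q ∈ Sq := by
  obtain ⟨hX, h1, h2, h3, h4⟩ := h
  have key : ∀ (a : ℤ) (t : ℝ), 0 ≤ a ∧ a ≤ 2 → a ≠ 1 → 0 ≤ t → t ≤ 1 → ¬ Mid 0 (((a : ℝ) + t) / 3) := by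
    intro a t ha ha1 ht0 ht1
    rcases (show a = 0 ∨ a = 2 by omega) with h | h
    · apply not_mid_zero 0
      · rw [h]; push_cast; linarith
      · rw [h]; push_cast; linarith
    · apply not_mid_zero 1
      · rw [h]; push_cast; linarith
      · rw [h]; push_cast; linarith
  have ha0 : (0 : ℝ) ≤ a := by exact_mod_cast ha.1
  have ha2 : (a : ℝ) ≤ 2 := by exact_mod_cast ha.2
  have hb0 : (0 : ℝ) ≤ b := by exact_mod_cast hb.1
  have hb2 : (b : ℝ) ≤ 2 := by exact_mod_cast hb.2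
  have e : cp 1 a b q = (((a : ℝ) + q.1) / 3, ((b : ℝ) + q.2) / 3) := by
    unfold cp; rw [pow_one]
  rw [e]
  refine ⟨?_, ?_, ?_, ?_, ?_⟩
  · intro n hn
    obtain ⟨hn1, hn2⟩ := hn
    simp only at hn1 hn2
    cases n with
    | zero =>
      by_cases h : a = 1
      · have hb1 : b ≠ 1 := fun hb1 => hab ⟨h, hb1⟩
        exact key b q.2 hb hb1 h3 h4 hn2
      · exact key a q.1 ha h h1 h2 hn1
    | succ m =>
      rw [mid_third, add_comm, mid_add_int] at hn1 hn2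
      exact hX m ⟨hn1, hn2⟩
  · simp only; linarith
  · simp only; linarith
  · simp only; linarith
  · simp only; linarith

theorem cover_one {t : ℝ} (h0 : 0 ≤ t) (h1 : t ≤ 1) : ∃ a : ℤ, (0 ≤ a ∧ a ≤ 2) ∧ (0 ≤ 3 * t - a) ∧ (3 * t - a ≤ 1) ∧
    (a = 1 → Mid 0 t) := by
  rcases le_or_gt t (1 / 3) with h | h
  · exact ⟨0, by norm_num, by push_cast; linarith, by push_cast; linarith, by norm_num⟩
  rcases lt_or_ge t (2 / 3) with h' | h'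
  · refine ⟨1, by norm_num, by push_cast; linarith, by push_cast; linarith, fun _ => ?_⟩
    rw [mid_zero_iff]
    exact ⟨0, by push_cast; linarith, by push_cast; linarith⟩
  · exact ⟨2, by norm_num, by push_cast; linarith, by push_cast; linarith, by norm_num⟩

theorem Sq_cover {p : ℝ × ℝ} (h : p ∈ Sq) : ∃ a b : ℤ, (0 ≤ a ∧ a ≤ 2) ∧ (0 ≤ b ∧ b ≤ 2) ∧
    ¬ (a = 1 ∧ b = 1) ∧ ∃ q ∈ Sq, p = cp 1 a b q := by
  obtain ⟨hX, h1, h2, h3, h4⟩ := h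
  obtain ⟨a, ha, ha1, ha2, ha3⟩ := cover_one h1 h2
  obtain ⟨b, hb, hb1, hb2, hb3⟩ := cover_one h3 h4
  refine ⟨a, b, ha, hb, fun hab => hX 0 ⟨ha3 hab.1, hb3 hab.2⟩, (3 * p.1 - a, 3 * p.2 - b), ⟨?_, ha1, ha2, hb1, hb2⟩, ?_⟩
  · have h5 : ((3 : ℝ) ^ 1) • p ∈ X := X_scale hX 1
    have h6 := (X_sub_int (((3 : ℝ) ^ 1) • p) a b).mpr h5
    have e : ((3 : ℝ) ^ 1) • p - ((a : ℝ), (b : ℝ)) = (3 * p.1 - a, 3 * p.2 - b) := by
      rw [pow_one]; rfl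
    rw [e] at h6
    exact h6
  · unfold cp
    ext
    · simp only; ring
    · simp only; ring

theorem Rw_sub0 {q : ℝ × ℝ} (h : q ∈ Rw) : ((q.1 / 3, q.2 / 3) : ℝ × ℝ) ∈ Rw := by
  obtain ⟨hX, h1, h2⟩ := h
  refine ⟨?_, by simp only; linarith, by simp only; linarith⟩
  intro n hn
  obtain ⟨hn1, hn2⟩ := hn
  simp only at hn1 hn2
  cases n with
  | zero => exact not_mid_zero 0 (by push_cast; linarith) (by push_cast; linarith) hn2
  | succ m =>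
    rw [mid_third] at hn1 hn2
    exact hX m ⟨hn1, hn2⟩

theorem Rw_sub2 {q : ℝ × ℝ} (h : q ∈ Rw) : ((q.1 / 3, (q.2 + 2) / 3) : ℝ × ℝ) ∈ Rw := by
  obtain ⟨hX, h1, h2⟩ := h
  refine ⟨?_, by simp only; linarith, by simp only; linarith⟩
  intro n hn
  obtain ⟨hn1, hn2⟩ := hn
  simp only at hn1 hn2
  cases n with
  | zero => exact not_mid_zero 1 (by push_cast; linarith) (by push_cast; linarith) hn2
  | succ m =>
    rw [mid_third] at hn1 hn2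
    have h3 := mid_add_int m q.2 2
    push_cast at h3
    rw [h3] at hn2
    exact hX m ⟨hn1, hn2⟩

theorem cp_cp (n k : ℕ) (i j a b : ℤ) (q : ℝ × ℝ) :
    cp n i j (cp k a b q) = cp (n + k) (3 ^ k * i + a) (3 ^ k * j + b) q := by
  unfold cp
  ext
  · simp only
    push_cast
    rw [pow_add]
    field_simp
    ring
  · simp only
    push_cast
    rw [pow_add]
    field_simp
    ring

end

end Pool.Agent.Helper746.Car
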