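import Mathlib
import Pool.Agent.Helper746.CarDefs
import Pool.Agent.Helper746.CarBasA
import Pool.Agent.Helper746.CarBasB

set_option autoImplicit false

namespace Pool.Agent.Helper746.Car

open Filter Topology

noncomputable section

theorem RowK_zero (j : ℤ) : RowK 0 j := by
  intro m hm
  exact absurd hm (Nat.not_lt_zero _)

theorem RowK_succ {n : ℕ} {j : ℤ} (h : RowK n j) {d : ℤ} (hd : d = 0 ∨ d = 2) : RowK (n + 1) (3 * j + d) := by
  intro m hm s hs0 hs1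
  have h3 : (3 : ℝ) ^ n ≠ 0 := by positivity
  have hd' : (d : ℝ) = 0 ∨ (d : ℝ) = 2 := by
    rcases hd with hd | hd
    · left; rw [hd]; norm_num
    · right; rw [hd]; norm_num
  have e : (((3 * j + d : ℤ) : ℝ) + s) / 3 ^ (n + 1) = ((j : ℝ) + ((d : ℝ) + s) / 3) / 3 ^ n := by
    push_cast
    rw [pow_succ]
    field_simp
    try ring
  rw [e]
  rcases Nat.lt_or_ge m n with hmn | hmn
  · apply h m hmn
    · rcases hd' with h' | h' <;> rw [h'] <;> linarith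
    · rcases hd' with h' | h' <;> rw [h'] <;> linarith
  · have hmn' : m = n := by omega
    rw [hmn']
    have h1 := mid_div 0 n ((j : ℝ) + ((d : ℝ) + s) / 3)
    rw [Nat.zero_add] at h1
    rw [h1]
    rcases hd' with h' | h'
    · apply not_mid_zero j
      · rw [h']; linarith
      · rw [h']; linarith
    · apply not_mid_zero (j + 1)
      · push_cast; rw [h']; linarith
      · push_cast; rw [h']; linarith

theorem RowK_K {n : ℕ} {j : ℤ} (h : RowK n j) {c : ℝ} (hc : c ∈ K) (h0 : 0 ≤ c) (h1 : c ≤ 1) :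
    ((j : ℝ) + c) / 3 ^ n ∈ K := by
  intro m
  rcases Nat.lt_or_ge m n with hmn | hmn
  · exact h m hmn c h0 h1
  · obtain ⟨k, rfl⟩ : ∃ k, m = k + n := ⟨m - n, by omega⟩
    rw [mid_div, add_comm, mid_add_int]
    exact hc k

theorem RowK_X {n : ℕ} {j : ℤ} (h : RowK n j) (i : ℤ) {q : ℝ × ℝ} (hq : q ∈ X) (h0 : 0 ≤ q.2) (h1 : q.2 ≤ 1) :
    cp n i j q ∈ X := by
  rintro m ⟨a1, a2⟩
  rcases Nat.lt_or_ge m n with hmn | hmn
  · exact h m hmn q.2 h0 h1 a2
  · obtain ⟨k, rfl⟩ : ∃ k, m = k + n := ⟨m - n, by omega⟩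
    simp only [cp] at a1 a2
    rw [mid_div, add_comm, mid_add_int] at a1 a2
    exact hq k ⟨a1, a2⟩

theorem RowK_exists {c : ℝ} (hc : c ∈ K) (h0 : 0 ≤ c) (h1 : c ≤ 1) (n : ℕ) :
    ∃ j : ℤ, 0 ≤ j ∧ j < 3 ^ n ∧ (j : ℝ) ≤ 3 ^ n * c ∧ 3 ^ n * c ≤ (j : ℝ) + 1 ∧ RowK n j := by
  induction n with
  | zero =>
    refine ⟨0, le_refl _, by norm_num, by norm_num; exact h0, by norm_num; exact h1, RowK_zero 0⟩
  | succ n ih =>
    obtain ⟨j, hj0, hj1, hj2, hj3, hj4⟩ := ih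
    have ht : 3 ^ n * c + (((-j : ℤ)) : ℝ) ∈ K := K_add_int (K_scale hc n) (-j)
    have ht0 := ht 0
    rw [mid_zero_iff] at ht0
    have hor : 3 ^ n * c - j ≤ 1 / 3 ∨ 2 / 3 ≤ 3 ^ n * c - j := by
      by_contra hcon
      push Not at hcon
      apply ht0
      refine ⟨0, ?_, ?_⟩
      · push_cast; linarith [hcon.1]
      · push_cast; linarith [hcon.2]
    have hp : (3 : ℝ) ^ (n + 1) * c = 3 * (3 ^ n * c) := by rw [pow_succ]; ring
    have hpz : (3 : ℤ) ^ (n + 1) = 3 * 3 ^ n := by rw [pow_succ]; ring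
    rcases hor with h' | h'
    · refine ⟨3 * j + 0, by omega, by rw [hpz]; omega, ?_, ?_, RowK_succ hj4 (Or.inl rfl)⟩
      · rw [hp]; push_cast; linarith
      · rw [hp]; push_cast; linarith
    · refine ⟨3 * j + 2, by omega, by rw [hpz]; omega, ?_, ?_, RowK_succ hj4 (Or.inr rfl)⟩
      · rw [hp]; push_cast; linarith
      · rw [hp]; push_cast; linarith

theorem X_of_RowK {n : ℕ} {j : ℤ} (h : RowK n j) {x y : ℝ} (hy0 : (j : ℝ) ≤ 3 ^ n * y) (hy1 : 3 ^ n * y ≤ (j : ℝ) + 1)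
    (hx : ∀ m, n ≤ m → ¬ Mid m x) : ((x, y) : ℝ × ℝ) ∈ X := by
  rintro m ⟨a1, a2⟩
  rcases Nat.lt_or_ge m n with hmn | hmn
  · have := h m hmn (3 ^ n * y - j) (by linarith) (by linarith)
    apply this
    have e : ((j : ℝ) + (3 ^ n * y - j)) / 3 ^ n = y := by
      have h3 : (3 : ℝ) ^ n ≠ 0 := by positivity
      field_simp
      try ring
    rw [e]
    exact a2
  · exact hx m hmn a1

end

end Pool.Agent.Helper746.Car
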