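import Mathlib
import Pool.Agent.Helper746.CarDefs
import Pool.Agent.Helper746.CarBasA
import Pool.Agent.Helper746.CarBasB

set_option autoImplicit false

namespace Pool.Agent.Helper746.Car

open Filter Topology

noncomputable section

theorem aux_single {σ τ : ℝ} (h0 : 0 < σ)
    (H1 : ∀ x : ℝ, ((x, σ * x + τ) : ℝ × ℝ) ∈ X) (i : ℝ) (hi : ∃ z : ℤ, (z : ℝ) = i) :
    ∃ j : ℤ, 3 * (j : ℝ) - 1 ≤ σ * (3 * i + 1) + 3 * τ ∧
      σ * (3 * i + 1) + 3 * τ + σ ≤ 3 * (j : ℝ) + 1 := by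
  obtain ⟨z, rfl⟩ := hi
  set y := σ * (3 * (z : ℝ) + 1) + 3 * τ with hy
  refine ⟨⌊(y + 1) / 3⌋, ?_, ?_⟩
  · have := Int.floor_le ((y + 1) / 3)
    linarith
  · by_contra hc
    push Not at hc
    have h2 := Int.lt_floor_add_one ((y + 1) / 3)
    set j : ℝ := ((⌊(y + 1) / 3⌋ : ℤ) : ℝ) with hj
    have ha : max y (3 * j + 1) < min (y + σ) (3 * j + 2) := by
      rw [max_lt_iff, lt_min_iff, lt_min_iff]
      refine ⟨⟨by linarith, by linarith⟩, ⟨by linarith, by linarith⟩⟩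
    set v := (max y (3 * j + 1) + min (y + σ) (3 * j + 2)) / 2 with hv
    have hv1 : max y (3 * j + 1) < v := by rw [hv]; linarith
    have hv2 : v < min (y + σ) (3 * j + 2) := by rw [hv]; linarith
    have a1 : y < v := lt_of_le_of_lt (le_max_left _ _) hv1
    have a2 : 3 * j + 1 < v := lt_of_le_of_lt (le_max_right _ _) hv1
    have a3 : v < y + σ := lt_of_lt_of_le hv2 (min_le_left _ _)
    have a4 : v < 3 * j + 2 := lt_of_lt_of_le hv2 (min_le_right _ _)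
    -- X0 = (v - 3 τ) / σ
    have hX0a : 3 * (z : ℝ) + 1 < (v - 3 * τ) / σ := by
      rw [lt_div_iff₀ h0]
      linarith
    have hX0b : (v - 3 * τ) / σ < 3 * (z : ℝ) + 2 := by
      rw [div_lt_iff₀ h0]
      linarith
    refine H1 ((v - 3 * τ) / σ / 3) 0 ⟨⟨z, ?_, ?_⟩, ⟨⌊(y + 1) / 3⌋, ?_, ?_⟩⟩
    · simp only [zero_add, pow_one]
      linarith
    · simp only [zero_add, pow_one]
      linarith
    · have hh : (3 : ℝ) ^ (0 + 1) * (σ * ((v - 3 * τ) / σ / 3) + τ) = v := by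
        field_simp
        ring
      show 3 * j + 1 < (3 : ℝ) ^ (0 + 1) * (σ * ((v - 3 * τ) / σ / 3) + τ)
      rw [hh]
      exact a2
    · have hh : (3 : ℝ) ^ (0 + 1) * (σ * ((v - 3 * τ) / σ / 3) + τ) = v := by
        field_simp
        ring
      show (3 : ℝ) ^ (0 + 1) * (σ * ((v - 3 * τ) / σ / 3) + τ) < 3 * j + 2
      rw [hh]
      exact a4

theorem aux_one {t : ℝ} (H1 : ∀ x : ℝ, ((x, x + t) : ℝ × ℝ) ∈ X) :
    ∃ j : ℤ, (j : ℝ) - 2 / 3 ≤ t ∧ t ≤ (j : ℝ) - 1 / 3 := by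
  obtain ⟨j, h1, h2⟩ := aux_single (σ := 1) (τ := t) one_pos
    (fun x => by rw [one_mul]; exact H1 x) 0 ⟨0, by simp⟩
  exact ⟨j, by linarith, by linarith⟩

theorem aux_scale {τ : ℝ} (H1 : ∀ x : ℝ, ((x, x + τ) : ℝ × ℝ) ∈ X) (n : ℕ) (x : ℝ) :
    ((x, x + 3 ^ n * τ) : ℝ × ℝ) ∈ X := by
  have h := X_scale (H1 (x / 3 ^ n)) n
  have h3 : (3 : ℝ) ^ n ≠ 0 := by positivity
  have : ((3 : ℝ) ^ n) • ((x / 3 ^ n, x / 3 ^ n + τ) : ℝ × ℝ) = (x, x + 3 ^ n * τ) := by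
    ext
    · simp only [Prod.smul_mk, smul_eq_mul]
      field_simp
    · simp only [Prod.smul_mk, smul_eq_mul]
      field_simp
  rw [this] at h
  exact h

theorem aux_one_false {τ₁ τ₂ : ℝ} (h : τ₁ < τ₂) (hd : τ₂ - τ₁ < 1 / 9)
    (H1 : ∀ x : ℝ, ((x, x + τ₁) : ℝ × ℝ) ∈ X) (H2 : ∀ x : ℝ, ((x, x + τ₂) : ℝ × ℝ) ∈ X) :
    False := by
  have hex : ∃ n : ℕ, 1 / 3 < 3 ^ n * (τ₂ - τ₁) := by
    obtain ⟨n, hn⟩ := pow_unbounded_of_one_lt (1 / (τ₂ - τ₁)) (by norm_num : (1 : ℝ) < 3)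
    refine ⟨n, ?_⟩
    rw [div_lt_iff₀ (by linarith)] at hn
    linarith
  classical
  obtain ⟨n, hn, hmin⟩ : ∃ n : ℕ, 1 / 3 < 3 ^ n * (τ₂ - τ₁) ∧
      ∀ m < n, ¬ 1 / 3 < 3 ^ m * (τ₂ - τ₁) :=
    ⟨Nat.find hex, Nat.find_spec hex, fun m hm => Nat.find_min hex hm⟩
  rcases n with _ | n
  · rw [pow_zero, one_mul] at hn
    linarith
  have hle := hmin n (Nat.lt_succ_self n)
  push Not at hle
  have hn2 : 1 / 3 < 3 * (3 ^ n * (τ₂ - τ₁)) := by
    rw [pow_succ] at hn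
    linarith
  obtain ⟨j, hj1, hj2⟩ := aux_one (aux_scale H1 n)
  obtain ⟨j', hj1', hj2'⟩ := aux_one (aux_scale H2 n)
  obtain ⟨i, hi1, hi2⟩ := aux_one (aux_scale H1 (n + 1))
  obtain ⟨i', hi1', hi2'⟩ := aux_one (aux_scale H2 (n + 1))
  have e1 : (3 : ℝ) ^ (n + 1) * τ₁ = 3 * (3 ^ n * τ₁) := by rw [pow_succ]; ring
  have e2 : (3 : ℝ) ^ (n + 1) * τ₂ = 3 * (3 ^ n * τ₂) := by rw [pow_succ]; ring
  rw [e1] at hi1 hi2
  rw [e2] at hi1' hi2'
  rw [mul_sub] at hn2 hle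
  set t := (3 : ℝ) ^ n * τ₁
  set s := (3 : ℝ) ^ n * τ₂
  have hjj : j' = j := by
    have b1 : (j' : ℝ) < j + 1 := by linarith
    have b2 : (j : ℝ) < j' + 1 := by linarith
    have c1 : j' < j + 1 := by exact_mod_cast b1
    have c2 : j < j' + 1 := by exact_mod_cast b2
    omega
  subst hjj
  have hii : i = 3 * j' - 1 := by
    have b1 : (i : ℝ) < 3 * j' := by linarith
    have b2 : (3 * j' : ℝ) < i + 2 := by linarith
    have c1 : i < 3 * j' := by exact_mod_cast b1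
    have c2 : 3 * j' < i + 2 := by exact_mod_cast b2
    omega
  have hii' : i' = 3 * j' - 1 := by
    have b1 : (i' : ℝ) < 3 * j' := by linarith
    have b2 : (3 * j' : ℝ) < i' + 2 := by linarith
    have c1 : i' < 3 * j' := by exact_mod_cast b1
    have c2 : 3 * j' < i' + 2 := by exact_mod_cast b2
    omega
  have : (i' : ℝ) = i := by rw [hii, hii']
  linarith

theorem no_slant {σ τ₁ τ₂ : ℝ} (h0 : 0 < σ) (h1 : σ ≤ 1) (h : τ₁ < τ₂) (hd : τ₂ - τ₁ < 1 / 9)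
    (H1 : ∀ x : ℝ, ((x, σ * x + τ₁) : ℝ × ℝ) ∈ X) (H2 : ∀ x : ℝ, ((x, σ * x + τ₂) : ℝ × ℝ) ∈ X) : False := by
  have hσ1 : σ = 1 := by
    have hj : ∀ i : ℕ, ∃ j : ℤ, 3 * (j : ℝ) - 1 ≤ σ * (3 * (i : ℝ) + 1) + 3 * τ₁ ∧
        σ * (3 * (i : ℝ) + 1) + 3 * τ₁ + σ + 3 * (τ₂ - τ₁) ≤ 3 * (j : ℝ) + 1 := by
      intro i
      obtain ⟨j, ha, hb⟩ := aux_single h0 H1 (i : ℝ) ⟨(i : ℤ), by simp⟩
      obtain ⟨j', ha', hb'⟩ := aux_single h0 H2 (i : ℝ) ⟨(i : ℤ), by simp⟩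
      have hjj : j' = j := by
        have b1 : (j' : ℝ) < j + 1 := by linarith
        have b2 : (j : ℝ) < j' + 1 := by linarith
        have c1 : j' < j + 1 := by exact_mod_cast b1
        have c2 : j < j' + 1 := by exact_mod_cast b2
        omega
      subst hjj
      exact ⟨j', ha, by linarith⟩
    choose j hja hjb using hj
    by_cases hs : σ ≤ 1 / 2
    · exfalso
      have hk : ∀ i, j (i + 1) = j i := by
        intro i
        have a1 := hja i
        have a2 := hjb i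
        have a3 := hja (i + 1)
        have a4 := hjb (i + 1)
        push_cast at a3 a4
        have b1 : (j (i + 1) : ℝ) < j i + 1 := by linarith
        have b2 : (j i : ℝ) < j (i + 1) + 1 := by linarith
        have c1 : j (i + 1) < j i + 1 := by exact_mod_cast b1
        have c2 : j i < j (i + 1) + 1 := by exact_mod_cast b2
        omega
      have hk0 : ∀ i, j i = j 0 := by
        intro i
        induction i with
        | zero => rfl
        | succ i ih => rw [hk i, ih]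
      obtain ⟨N, hN⟩ := exists_nat_gt (3 * (j 0 : ℝ) + 1 - 3 * τ₁) 
      obtain ⟨M, hM⟩ := exists_nat_gt ((3 * (j 0 : ℝ) + 1 - 3 * τ₁) / σ)
      rw [div_lt_iff₀ h0] at hM
      have a2 := hjb M
      rw [hk0 M] at a2
      have : 0 ≤ σ * (M : ℝ) := by positivity
      nlinarith
    · push Not at hs
      by_contra hne
      have hlt : σ < 1 := lt_of_le_of_ne h1 hne
      have hk : ∀ i, j (i + 1) = j i + 1 := by
        intro i
        have a1 := hja i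
        have a2 := hjb i
        have a3 := hja (i + 1)
        have a4 := hjb (i + 1)
        push_cast at a3 a4
        have b1 : (j (i + 1) : ℝ) < j i + 2 := by linarith
        have b2 : (j i : ℝ) < j (i + 1) := by linarith
        have c1 : j (i + 1) < j i + 2 := by exact_mod_cast b1
        have c2 : j i < j (i + 1) := by exact_mod_cast b2
        omega
      have hk0 : ∀ i : ℕ, (j i : ℝ) = j 0 + i := by
        intro i
        induction i with
        | zero => simp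
        | succ i ih =>
          rw [hk i]
          push_cast
          rw [ih]
          ring
      obtain ⟨M, hM⟩ := exists_nat_gt ((σ + 3 * τ₁ - 3 * (j 0 : ℝ) + 1) / (3 * (1 - σ)))
      rw [div_lt_iff₀ (by linarith)] at hM
      have a2 := hja M
      rw [hk0 M] at a2
      linarith
  subst hσ1
  exact aux_one_false h hd (fun x => by have := H1 x; rwa [one_mul] at this)
    (fun x => by have := H2 x; rwa [one_mul] at this)

theorem aux_flat {v p p' : ℝ × ℝ} (hv1 : v.1 ≠ 0) (hv2 : v.2 ≠ 0) (hle : |v.2| ≤ |v.1|)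
    (hd : n1 (p' - p) < 1 / 9)
    (H1 : ∀ x : ℝ, p + x • v ∈ X) (H2 : ∀ x : ℝ, p' + x • v ∈ X) : ∃ s : ℝ, p' = p + s • v := by
  obtain ⟨e, he, hep⟩ : ∃ e : ℝ, (e = 1 ∨ e = -1) ∧ 0 < e * (v.2 / v.1) := by
    rcases lt_or_gt_of_ne (div_ne_zero hv2 hv1) with hlt | hgt
    · exact ⟨-1, Or.inr rfl, by linarith⟩
    · exact ⟨1, Or.inl rfl, by linarith⟩
  have he2 : e * e = 1 := by rcases he with rfl | rfl <;> norm_num
  have heabs : |e| = 1 := by rcases he with rfl | rfl <;> norm_num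
  set σ := e * (v.2 / v.1) with hσ
  have hσ1 : σ ≤ 1 := by
    have : σ = |σ| := (abs_of_pos hep).symm
    rw [this, hσ, abs_mul, heabs, one_mul, abs_div, div_le_one (abs_pos.2 hv1)]
    exact hle
  have hA : IsSym (fun q : ℝ × ℝ => (1 * q.1, e * q.2)) :=
    ⟨1, e, Or.inl rfl, he, Or.inl (fun _ => rfl)⟩
  have key : ∀ q : ℝ × ℝ, (∀ x : ℝ, q + x • v ∈ X) →
      ∀ u : ℝ, ((u, σ * u + (e * q.2 - σ * q.1)) : ℝ × ℝ) ∈ X := by
    intro q hq u
    have h1 := (X_sym hA (q + ((u - q.1) / v.1) • v)).2 (hq _)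
    have h2 : (1 * (q + ((u - q.1) / v.1) • v).1, e * (q + ((u - q.1) / v.1) • v).2) =
        ((u, σ * u + (e * q.2 - σ * q.1)) : ℝ × ℝ) := by
      rw [Prod.fst_add, Prod.snd_add, Prod.smul_fst, Prod.smul_snd, smul_eq_mul, smul_eq_mul, hσ]
      ext
      · show 1 * (q.1 + (u - q.1) / v.1 * v.1) = u
        field_simp
        ring
      · show e * (q.2 + (u - q.1) / v.1 * v.2) =
          e * (v.2 / v.1) * u + (e * q.2 - e * (v.2 / v.1) * q.1)
        field_simp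
        ring
    rw [h2] at h1
    exact h1
  have k1 := key p H1
  have k2 := key p' H2
  have hn : |(e * p'.2 - σ * p'.1) - (e * p.2 - σ * p.1)| < 1 / 9 := by
    have h3 : (e * p'.2 - σ * p'.1) - (e * p.2 - σ * p.1) =
        e * (p'.2 - p.2) - σ * (p'.1 - p.1) := by ring
    rw [h3]
    refine lt_of_le_of_lt (abs_sub _ _) ?_
    rw [abs_mul, abs_mul, heabs, one_mul, abs_of_pos hep]
    unfold n1 at hd
    rw [Prod.fst_sub, Prod.snd_sub] at hd
    have h4 : σ * |p'.1 - p.1| ≤ 1 * |p'.1 - p.1| := mul_le_mul_of_nonneg_right hσ1 (abs_nonneg _)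
    linarith
  rw [abs_lt] at hn
  rcases lt_trichotomy (e * p.2 - σ * p.1) (e * p'.2 - σ * p'.1) with hlt | heq | hgt
  · exact (no_slant hep hσ1 hlt (by linarith [hn.2]) k1 k2).elim
  · refine ⟨(p'.1 - p.1) / v.1, ?_⟩
    have h5 : p'.2 - p.2 = v.2 / v.1 * (p'.1 - p.1) := by
      have h6 : e * (p'.2 - p.2) = e * (v.2 / v.1 * (p'.1 - p.1)) := by
        rw [hσ] at heq
        linarith
      have h7 := congrArg (fun t => e * t) h6
      rw [← mul_assoc, ← mul_assoc, he2, one_mul, one_mul] at h7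
      exact h7
    ext
    · rw [Prod.fst_add, Prod.smul_fst, smul_eq_mul]
      field_simp
      ring
    · rw [Prod.snd_add, Prod.smul_snd, smul_eq_mul]
      have h8 : (p'.1 - p.1) / v.1 * v.2 = v.2 / v.1 * (p'.1 - p.1) := by ring
      rw [h8, ← h5]
      ring
  · exact (no_slant hep hσ1 hgt (by linarith [hn.1]) k2 k1).elim

theorem slant_unique {v p p' : ℝ × ℝ} (hv1 : v.1 ≠ 0) (hv2 : v.2 ≠ 0) (hd : n1 (p' - p) < 1 / 9)
    (H1 : ∀ x : ℝ, p + x • v ∈ X) (H2 : ∀ x : ℝ, p' + x • v ∈ X) : ∃ s : ℝ, p' = p + s • v := by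
  rcases le_or_gt |v.2| |v.1| with hle | hgt
  · exact aux_flat hv1 hv2 hle hd H1 H2
  · have hA : IsSym (fun q : ℝ × ℝ => (1 * q.2, 1 * q.1)) :=
      ⟨1, 1, Or.inl rfl, Or.inl rfl, Or.inr (fun _ => rfl)⟩
    have key : ∀ q : ℝ × ℝ, (∀ x : ℝ, q + x • v ∈ X) →
        ∀ x : ℝ, ((q.2, q.1) : ℝ × ℝ) + x • ((v.2, v.1) : ℝ × ℝ) ∈ X := by
      intro q hq x
      have h1 := (X_sym hA (q + x • v)).2 (hq x)
      have h2 : (1 * (q + x • v).2, 1 * (q + x • v).1) =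
          ((q.2, q.1) : ℝ × ℝ) + x • ((v.2, v.1) : ℝ × ℝ) := by
        ext
        · simp
        · simp
      rw [h2] at h1
      exact h1
    have hd' : n1 (((p'.2, p'.1) : ℝ × ℝ) - (p.2, p.1)) < 1 / 9 := by
      unfold n1 at hd ⊢
      rw [Prod.fst_sub, Prod.snd_sub] at hd ⊢
      simp only
      linarith
    obtain ⟨s, hs⟩ := aux_flat (v := (v.2, v.1)) (p := (p.2, p.1)) (p' := (p'.2, p'.1))
      hv2 hv1 hgt.le hd' (key p H1) (key p' H2)
    refine ⟨s, ?_⟩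
    rw [Prod.ext_iff] at hs ⊢
    simp only [Prod.fst_add, Prod.snd_add, Prod.smul_fst, Prod.smul_snd] at hs ⊢
    exact ⟨hs.2, hs.1⟩

end

end Pool.Agent.Helper746.Car
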