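import Mathlib
import Pool.Agent.Helper746.CarDefs

set_option autoImplicit false

namespace Pool.Agent.Helper746.Car

open Filter Topology

noncomputable section

theorem q154_core {p q r : ℝ × ℝ} {a c : ℝ} (h1 : n1 (p - q) ≤ a) (h2 : n1 (r - p) ≤ c)
    (h3 : a + c ≤ r.1 - q.1) : p = (q.1 + a, q.2) := by
  unfold n1 at h1 h2
  simp only [Prod.fst_sub, Prod.snd_sub] at h1 h2
  have e1 := le_abs_self (p.1 - q.1)
  have e2 := le_abs_self (r.1 - p.1)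
  have e3 := abs_nonneg (p.2 - q.2)
  have e4 := abs_nonneg (r.2 - p.2)
  have h5 : |p.2 - q.2| = 0 := by linarith
  have h6 : p.2 = q.2 := by
    have := abs_eq_zero.1 h5
    linarith
  have h7 : p.1 = q.1 + a := by linarith
  exact Prod.ext h7 h6

theorem q154_core' {p q r : ℝ × ℝ} {a c : ℝ} (h1 : n1 (p - q) ≤ a) (h2 : n1 (r - p) ≤ c)
    (h3 : a + c ≤ r.2 - q.2) : p = (q.1, q.2 + a) := by
  unfold n1 at h1 h2
  simp only [Prod.fst_sub, Prod.snd_sub] at h1 h2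
  have e1 := le_abs_self (p.2 - q.2)
  have e2 := le_abs_self (r.2 - p.2)
  have e3 := abs_nonneg (p.1 - q.1)
  have e4 := abs_nonneg (r.1 - p.1)
  have h5 : |p.1 - q.1| = 0 := by linarith
  have h6 : p.1 = q.1 := by
    have := abs_eq_zero.1 h5
    linarith
  have h7 : p.2 = q.2 + a := by linarith
  exact Prod.ext h6 h7

theorem q154_sat_h {L lam : ℝ} {D : Set (ℝ × ℝ)} {g : ℝ × ℝ → ℝ × ℝ} (hg : Good L lam D g)
    {x x' y : ℝ} (hseg : ∀ t, x ≤ t → t ≤ x' → ((t, y) : ℝ × ℝ) ∈ D)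
    (h : lam * (x' - x) ≤ (g (x', y)).1 - (g (x, y)).1) :
    ∀ t, x ≤ t → t ≤ x' → g (t, y) = ((g (x, y)).1 + lam * (t - x), (g (x, y)).2) := by
  intro t h1 h2
  refine q154_core (hg.speedH x t y h1 fun s a b => hseg s a (b.trans h2))
    (hg.speedH t x' y h2 fun s a b => hseg s (h1.trans a) b) ?_
  linarith

theorem q154_sat_v {L lam : ℝ} {D : Set (ℝ × ℝ)} {g : ℝ × ℝ → ℝ × ℝ} (hg : Good L lam D g)
    {y y' x : ℝ} (hseg : ∀ t, y ≤ t → t ≤ y' → ((x, t) : ℝ × ℝ) ∈ D)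
    (h : lam * (y' - y) ≤ (g (x, y')).2 - (g (x, y)).2) :
    ∀ t, y ≤ t → t ≤ y' → g (x, t) = ((g (x, y)).1, (g (x, y)).2 + lam * (t - y)) := by
  intro t h1 h2
  refine q154_core' (hg.speedV y t x h1 fun s a b => hseg s a (b.trans h2))
    (hg.speedV t y' x h2 fun s a b => hseg s (h1.trans a) b) ?_
  linarith

theorem sq_h {L lam : ℝ} {D : Set (ℝ × ℝ)} {g : ℝ × ℝ → ℝ × ℝ} (hg : Good L lam D g) {x x' y : ℝ}
    (hseg : ∀ t, x ≤ t → t ≤ x' → ((t, y) : ℝ × ℝ) ∈ D) {b : ℝ × ℝ}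
    (h1 : g (x, y) = lam • ((x, y) : ℝ × ℝ) + b) (h2 : g (x', y) = lam • ((x', y) : ℝ × ℝ) + b) :
    ∀ t, x ≤ t → t ≤ x' → g (t, y) = lam • ((t, y) : ℝ × ℝ) + b := by
  intro t ht1 ht2
  rw [q154_sat_h hg hseg (by rw [h1, h2]; simp; linarith) t ht1 ht2, h1]
  refine Prod.ext ?_ ?_
  · simp; ring
  · simp
theorem sq_v {L lam : ℝ} {D : Set (ℝ × ℝ)} {g : ℝ × ℝ → ℝ × ℝ} (hg : Good L lam D g) {y y' x : ℝ}
    (hseg : ∀ t, y ≤ t → t ≤ y' → ((x, t) : ℝ × ℝ) ∈ D) {b : ℝ × ℝ}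
    (h1 : g (x, y) = lam • ((x, y) : ℝ × ℝ) + b) (h2 : g (x, y') = lam • ((x, y') : ℝ × ℝ) + b) :
    ∀ t, y ≤ t → t ≤ y' → g (x, t) = lam • ((x, t) : ℝ × ℝ) + b := by
  intro t ht1 ht2
  rw [q154_sat_v hg hseg (by rw [h1, h2]; simp; linarith) t ht1 ht2, h1]
  refine Prod.ext ?_ ?_
  · simp
  · simp; ring
/-- saturated horizontal displacement -/
theorem sat_h {L lam : ℝ} {D : Set (ℝ × ℝ)} {g : ℝ × ℝ → ℝ × ℝ} (hg : Good L lam D g) {x x' y : ℝ}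
    (hseg : ∀ t, x ≤ t → t ≤ x' → ((t, y) : ℝ × ℝ) ∈ D)
    (h : lam * (x' - x) ≤ |(g (x', y)).1 - (g (x, y)).1|) (hxx : x ≤ x')
    (hdir : (g (x, y)).1 ≤ (g (x', y)).1) :
    ∀ t, x ≤ t → t ≤ x' → g (t, y) = ((g (x, y)).1 + lam * (t - x), (g (x, y)).2) :=
  q154_sat_h hg hseg (by rwa [abs_of_nonneg (by linarith)] at h)
/-- saturated vertical displacement -/
theorem sat_v {L lam : ℝ} {D : Set (ℝ × ℝ)} {g : ℝ × ℝ → ℝ × ℝ} (hg : Good L lam D g) {y y' x : ℝ}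
    (hseg : ∀ t, y ≤ t → t ≤ y' → ((x, t) : ℝ × ℝ) ∈ D)
    (h : lam * (y' - y) ≤ (g (x, y')).2 - (g (x, y)).2) (hyy : y ≤ y') :
    ∀ t, y ≤ t → t ≤ y' → g (x, t) = ((g (x, y)).1, (g (x, y)).2 + lam * (t - y)) :=
  q154_sat_v hg hseg h

end

end Pool.Agent.Helper746.Car
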