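import Mathlib
import Pool.Agent.Helper746.CarDefs
import Pool.Agent.Helper746.CarBasB

set_option autoImplicit false

namespace Pool.Agent.Helper746.Car

open Filter Topology

noncomputable section

theorem Good.restrict {L lam : ℝ} {D D' : Set (ℝ × ℝ)} {g : ℝ × ℝ → ℝ × ℝ} (hg : Good L lam D g)
    (h : D' ⊆ D) : Good L lam D' g where
  mapsX := fun p hp => hg.mapsX p (h hp)
  lower := fun p hp q hq => hg.lower p (h hp) q (h hq)
  upper := fun p hp q hq => hg.upper p (h hp) q (h hq)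
  speedH := fun x x' y hxx ht => hg.speedH x x' y hxx (fun t h1 h2 => h (ht t h1 h2))
  speedV := fun y y' x hyy ht => hg.speedV y y' x hyy (fun t h1 h2 => h (ht t h1 h2))

theorem sym_dist {B : ℝ × ℝ → ℝ × ℝ} (hB : IsSym B) (u v : ℝ × ℝ) :
    dist (B u) (B v) = dist u v := by
  obtain ⟨e₁, e₂, h1, h2, h | h⟩ := hB
  · rw [h, h, Prod.dist_eq, Prod.dist_eq]
    simp only [Real.dist_eq]
    rcases h1 with rfl | rfl <;> rcases h2 with rfl | rfl <;>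
      · congr 1
        all_goals (first | (congr 1; ring1) | (rw [← abs_neg]; congr 1; ring1))
  · rw [h, h, Prod.dist_eq, Prod.dist_eq]
    simp only [Real.dist_eq]
    rw [max_comm]
    rcases h1 with rfl | rfl <;> rcases h2 with rfl | rfl <;>
      · congr 1
        all_goals (first | (congr 1; ring1) | (rw [← abs_neg]; congr 1; ring1))

theorem sym_n1 {B : ℝ × ℝ → ℝ × ℝ} (hB : IsSym B) (u v : ℝ × ℝ) :
    n1 (B u - B v) = n1 (u - v) := by
  obtain ⟨e₁, e₂, h1, h2, h | h⟩ := hB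
  · rw [h, h]
    unfold n1
    simp only [Prod.fst_sub, Prod.snd_sub]
    rcases h1 with rfl | rfl <;> rcases h2 with rfl | rfl <;>
      · congr 1
        all_goals (first | (congr 1; ring1) | (rw [← abs_neg]; congr 1; ring1))
  · rw [h, h]
    unfold n1
    simp only [Prod.fst_sub, Prod.snd_sub]
    rw [add_comm]
    rcases h1 with rfl | rfl <;> rcases h2 with rfl | rfl <;>
      · congr 1
        all_goals (first | (congr 1; ring1) | (rw [← abs_neg]; congr 1; ring1))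

theorem n1_neg (u v : ℝ × ℝ) : n1 (u - v) = n1 (v - u) := by
  unfold n1
  simp only [Prod.fst_sub, Prod.snd_sub]
  rw [abs_sub_comm, abs_sub_comm u.2]

theorem n1_smul {c : ℝ} (hc : 0 ≤ c) (u : ℝ × ℝ) : n1 (c • u) = c * n1 u := by
  unfold n1
  simp only [Prod.smul_fst, Prod.smul_snd, smul_eq_mul]
  rw [abs_mul, abs_mul, abs_of_nonneg hc]
  ring

theorem Good.spH {L lam : ℝ} {D : Set (ℝ × ℝ)} {g : ℝ × ℝ → ℝ × ℝ} (hg : Good L lam D g)
    (a b y : ℝ) (h : ∀ t, min a b ≤ t → t ≤ max a b → ((t, y) : ℝ × ℝ) ∈ D) :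
    n1 (g (b, y) - g (a, y)) ≤ lam * |b - a| := by
  rcases le_total a b with hab | hab
  · rw [min_eq_left hab, max_eq_right hab] at h
    rw [abs_of_nonneg (by linarith)]
    exact hg.speedH a b y hab h
  · rw [min_eq_right hab, max_eq_left hab] at h
    rw [n1_neg, abs_sub_comm, abs_of_nonneg (by linarith)]
    exact hg.speedH b a y hab h

theorem Good.spV {L lam : ℝ} {D : Set (ℝ × ℝ)} {g : ℝ × ℝ → ℝ × ℝ} (hg : Good L lam D g)
    (a b x : ℝ) (h : ∀ t, min a b ≤ t → t ≤ max a b → ((x, t) : ℝ × ℝ) ∈ D) :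
    n1 (g (x, b) - g (x, a)) ≤ lam * |b - a| := by
  rcases le_total a b with hab | hab
  · rw [min_eq_left hab, max_eq_right hab] at h
    rw [abs_of_nonneg (by linarith)]
    exact hg.speedV a b x hab h
  · rw [min_eq_right hab, max_eq_left hab] at h
    rw [n1_neg, abs_sub_comm, abs_of_nonneg (by linarith)]
    exact hg.speedV b a x hab h

/-- parameter of a point between the images of two parameters -/
theorem between {e c z x x' t' : ℝ} (he : e = 1 ∨ e = -1) (hc : 0 < c)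
    (h1 : min (c⁻¹ * (e * x + z)) (c⁻¹ * (e * x' + z)) ≤ t')
    (h2 : t' ≤ max (c⁻¹ * (e * x + z)) (c⁻¹ * (e * x' + z))) (hxx : x ≤ x') :
    ∃ t, x ≤ t ∧ t ≤ x' ∧ t' = c⁻¹ * (e * t + z) := by
  have hc' : 0 < c⁻¹ := by positivity
  have hcc : c⁻¹ * c = 1 := inv_mul_cancel₀ hc.ne'
  refine ⟨e * (c * t' - z), ?_, ?_, ?_⟩
  · rcases he with rfl | rfl
    · have h3 : c⁻¹ * (1 * x + z) ≤ c⁻¹ * (1 * x' + z) :=
        mul_le_mul_of_nonneg_left (by linarith) hc'.le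
      rw [min_eq_left h3] at h1
      have := mul_le_mul_of_nonneg_left h1 hc.le
      rw [← mul_assoc, mul_comm c c⁻¹, hcc] at this
      linarith
    · have h3 : c⁻¹ * (-1 * x' + z) ≤ c⁻¹ * (-1 * x + z) :=
        mul_le_mul_of_nonneg_left (by linarith) hc'.le
      rw [max_eq_left h3] at h2
      have := mul_le_mul_of_nonneg_left h2 hc.le
      rw [← mul_assoc, mul_comm c c⁻¹, hcc] at this
      linarith
  · rcases he with rfl | rfl
    · have h3 : c⁻¹ * (1 * x + z) ≤ c⁻¹ * (1 * x' + z) :=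
        mul_le_mul_of_nonneg_left (by linarith) hc'.le
      rw [max_eq_right h3] at h2
      have := mul_le_mul_of_nonneg_left h2 hc.le
      rw [← mul_assoc, mul_comm c c⁻¹, hcc] at this
      linarith
    · have h3 : c⁻¹ * (-1 * x' + z) ≤ c⁻¹ * (-1 * x + z) :=
        mul_le_mul_of_nonneg_left (by linarith) hc'.le
      rw [min_eq_right h3] at h1
      have := mul_le_mul_of_nonneg_left h1 hc.le
      rw [← mul_assoc, mul_comm c c⁻¹, hcc] at this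
      linarith
  · have hee : e * e = 1 := by rcases he with rfl | rfl <;> norm_num
    have h3 : e * (e * (c * t' - z)) + z = c * t' := by
      rw [← mul_assoc, hee]; ring
    rw [h3, ← mul_assoc, hcc, one_mul]

theorem abs_diff {e c z x x' : ℝ} (he : e = 1 ∨ e = -1) (hc : 0 < c) (hxx : x ≤ x') :
    |c⁻¹ * (e * x' + z) - c⁻¹ * (e * x + z)| = c⁻¹ * (x' - x) := by
  have h1 : c⁻¹ * (e * x' + z) - c⁻¹ * (e * x + z) = e * (c⁻¹ * (x' - x)) := by ring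
  have h2 : 0 ≤ c⁻¹ * (x' - x) := mul_nonneg (by positivity) (by linarith)
  rw [h1, abs_mul, abs_of_nonneg h2]
  rcases he with rfl | rfl <;> simp

theorem Good.trans {L lam : ℝ} {D D' : Set (ℝ × ℝ)} {g g' : ℝ × ℝ → ℝ × ℝ} (hg : Good L lam D g)
    (n : ℕ) {A B : ℝ × ℝ → ℝ × ℝ} (hA : IsSym A) (hB : IsSym B) (z : ℝ × ℝ) (v w : ℤ)
    (hD : ∀ q ∈ D', ((3 : ℝ) ^ n)⁻¹ • (A q + z) ∈ D)
    (hg' : ∀ q ∈ D', g' q = (3 : ℝ) ^ n • B (g (((3 : ℝ) ^ n)⁻¹ • (A q + z))) - ((v : ℝ), (w : ℝ))) :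
    Good L lam D' g' := by
  have hc : (0 : ℝ) < 3 ^ n := by positivity
  obtain ⟨c, hce⟩ : ∃ c : ℝ, c = 3 ^ n := ⟨_, rfl⟩
  have hdist : ∀ p ∈ D', ∀ q ∈ D', dist (g' p) (g' q) =
      3 ^ n * dist (g (((3 : ℝ) ^ n)⁻¹ • (A p + z))) (g (((3 : ℝ) ^ n)⁻¹ • (A q + z))) := by
    intro p hp q hq
    rw [hg' p hp, hg' q hq, dist_sub_right, dist_smul₀, sym_dist hB, Real.norm_of_nonneg hc.le]
  have hdist2 : ∀ p q : ℝ × ℝ, dist (((3 : ℝ) ^ n)⁻¹ • (A p + z)) (((3 : ℝ) ^ n)⁻¹ • (A q + z)) =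
      ((3 : ℝ) ^ n)⁻¹ * dist p q := by
    intro p q
    rw [dist_smul₀, dist_add_right, sym_dist hA, Real.norm_of_nonneg (by positivity)]
  have hn1 : ∀ p ∈ D', ∀ q ∈ D', n1 (g' p - g' q) =
      3 ^ n * n1 (g (((3 : ℝ) ^ n)⁻¹ • (A p + z)) - g (((3 : ℝ) ^ n)⁻¹ • (A q + z))) := by
    intro p hp q hq
    rw [hg' p hp, hg' q hq, sub_sub_sub_cancel_right, ← smul_sub, n1_smul hc.le, sym_n1 hB]
  have hcc : (3 : ℝ) ^ n * ((3 : ℝ) ^ n)⁻¹ = 1 := mul_inv_cancel₀ hc.ne'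
  refine ⟨?_, ?_, ?_, ?_, ?_⟩
  · intro p hp
    rw [hg' p hp, X_sub_int]
    exact X_scale ((X_sym hB _).2 (hg.mapsX _ (hD p hp))) n
  · intro p hp q hq
    have h1 := hg.lower _ (hD p hp) _ (hD q hq)
    rw [hdist2] at h1
    rw [hdist p hp q hq]
    have h2 := mul_le_mul_of_nonneg_left h1 hc.le
    rw [← mul_assoc, hcc, one_mul] at h2
    linarith
  · intro p hp q hq
    have h1 := hg.upper _ (hD p hp) _ (hD q hq)
    rw [hdist2] at h1
    rw [hdist p hp q hq]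
    have h2 := mul_le_mul_of_nonneg_left h1 hc.le
    have h3 : (3 : ℝ) ^ n * (L * (((3 : ℝ) ^ n)⁻¹ * dist p q)) = L * dist p q := by
      calc _ = ((3 : ℝ) ^ n * ((3 : ℝ) ^ n)⁻¹) * (L * dist p q) := by ring
        _ = _ := by rw [hcc, one_mul]
    rw [h3] at h2
    exact h2
  · intro x x' y hxx ht
    have hp' : ((x', y) : ℝ × ℝ) ∈ D' := ht x' hxx le_rfl
    have hp : ((x, y) : ℝ × ℝ) ∈ D' := ht x le_rfl hxx
    rw [hn1 _ hp' _ hp]
    have key : n1 (g (((3 : ℝ) ^ n)⁻¹ • (A (x', y) + z)) - g (((3 : ℝ) ^ n)⁻¹ • (A (x, y) + z))) ≤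
        lam * (((3 : ℝ) ^ n)⁻¹ * (x' - x)) := by
      obtain ⟨e₁, e₂, h1, h2, h | h⟩ := hA
      · have hτ : ∀ t : ℝ, ((3 : ℝ) ^ n)⁻¹ • (A (t, y) + z) =
            (((3 : ℝ) ^ n)⁻¹ * (e₁ * t + z.1), ((3 : ℝ) ^ n)⁻¹ * (e₂ * y + z.2)) := by
          intro t
          rw [h]
          rfl
        rw [hτ, hτ, ← abs_diff h1 hc hxx (z := z.1)]
        apply hg.spH
        intro t' k1 k2
        obtain ⟨t, ht1, ht2, ht3⟩ := between h1 hc k1 k2 hxx
        rw [ht3, ← hτ]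
        exact hD _ (ht t ht1 ht2)
      · have hτ : ∀ t : ℝ, ((3 : ℝ) ^ n)⁻¹ • (A (t, y) + z) =
            (((3 : ℝ) ^ n)⁻¹ * (e₁ * y + z.1), ((3 : ℝ) ^ n)⁻¹ * (e₂ * t + z.2)) := by
          intro t
          rw [h]
          rfl
        rw [hτ, hτ, ← abs_diff h2 hc hxx (z := z.2)]
        apply hg.spV
        intro t' k1 k2
        obtain ⟨t, ht1, ht2, ht3⟩ := between h2 hc k1 k2 hxx
        rw [ht3, ← hτ]
        exact hD _ (ht t ht1 ht2)
    have h2 := mul_le_mul_of_nonneg_left key hc.le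
    have h3 : (3 : ℝ) ^ n * (lam * (((3 : ℝ) ^ n)⁻¹ * (x' - x))) = lam * (x' - x) := by
      calc _ = ((3 : ℝ) ^ n * ((3 : ℝ) ^ n)⁻¹) * (lam * (x' - x)) := by ring
        _ = _ := by rw [hcc, one_mul]
    rw [h3] at h2
    exact h2
  · intro x x' y hxx ht
    have hp' : ((y, x') : ℝ × ℝ) ∈ D' := ht x' hxx le_rfl
    have hp : ((y, x) : ℝ × ℝ) ∈ D' := ht x le_rfl hxx
    rw [hn1 _ hp' _ hp]
    have key : n1 (g (((3 : ℝ) ^ n)⁻¹ • (A (y, x') + z)) - g (((3 : ℝ) ^ n)⁻¹ • (A (y, x) + z))) ≤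
        lam * (((3 : ℝ) ^ n)⁻¹ * (x' - x)) := by
      obtain ⟨e₁, e₂, h1, h2, h | h⟩ := hA
      · have hτ : ∀ t : ℝ, ((3 : ℝ) ^ n)⁻¹ • (A (y, t) + z) =
            (((3 : ℝ) ^ n)⁻¹ * (e₁ * y + z.1), ((3 : ℝ) ^ n)⁻¹ * (e₂ * t + z.2)) := by
          intro t
          rw [h]
          rfl
        rw [hτ, hτ, ← abs_diff h2 hc hxx (z := z.2)]
        apply hg.spV
        intro t' k1 k2
        obtain ⟨t, ht1, ht2, ht3⟩ := between h2 hc k1 k2 hxx
        rw [ht3, ← hτ]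
        exact hD _ (ht t ht1 ht2)
      · have hτ : ∀ t : ℝ, ((3 : ℝ) ^ n)⁻¹ • (A (y, t) + z) =
            (((3 : ℝ) ^ n)⁻¹ * (e₁ * t + z.1), ((3 : ℝ) ^ n)⁻¹ * (e₂ * y + z.2)) := by
          intro t
          rw [h]
          rfl
        rw [hτ, hτ, ← abs_diff h1 hc hxx (z := z.1)]
        apply hg.spH
        intro t' k1 k2
        obtain ⟨t, ht1, ht2, ht3⟩ := between h1 hc k1 k2 hxx
        rw [ht3, ← hτ]
        exact hD _ (ht t ht1 ht2)
    have h2 := mul_le_mul_of_nonneg_left key hc.le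
    have h3 : (3 : ℝ) ^ n * (lam * (((3 : ℝ) ^ n)⁻¹ * (x' - x))) = lam * (x' - x) := by
      calc _ = ((3 : ℝ) ^ n * ((3 : ℝ) ^ n)⁻¹) * (lam * (x' - x)) := by ring
        _ = _ := by rw [hcc, one_mul]
    rw [h3] at h2
    exact h2

theorem sym_id : IsSym (fun p : ℝ × ℝ => p) :=
  ⟨1, 1, Or.inl rfl, Or.inl rfl, Or.inl (fun p => by simp)⟩

/-- the case without symmetries -/
theorem Good.scale {L lam : ℝ} {D D' : Set (ℝ × ℝ)} {g g' : ℝ × ℝ → ℝ × ℝ} (hg : Good L lam D g)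
    (n : ℕ) (a b : ℝ) (v w : ℤ)
    (hD : ∀ q ∈ D', (((a + q.1) / 3 ^ n, (b + q.2) / 3 ^ n) : ℝ × ℝ) ∈ D)
    (hg' : ∀ q ∈ D', g' q = (3 : ℝ) ^ n • g ((a + q.1) / 3 ^ n, (b + q.2) / 3 ^ n) - ((v : ℝ), (w : ℝ))) :
    Good L lam D' g' := by
  have hτ : ∀ q : ℝ × ℝ, ((3 : ℝ) ^ n)⁻¹ • ((fun p : ℝ × ℝ => p) q + (a, b)) =
      ((a + q.1) / 3 ^ n, (b + q.2) / 3 ^ n) := by
    intro q
    apply Prod.ext
    · change ((3 : ℝ) ^ n)⁻¹ * (q.1 + a) = (a + q.1) / 3 ^ n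
      rw [div_eq_inv_mul, add_comm]
    · change ((3 : ℝ) ^ n)⁻¹ * (q.2 + b) = (b + q.2) / 3 ^ n
      rw [div_eq_inv_mul, add_comm]
  refine hg.trans n sym_id sym_id (a, b) v w ?_ ?_
  · intro q hq
    rw [hτ]
    exact hD q hq
  · intro q hq
    rw [hτ]
    exact hg' q hq

theorem Good.inj {L lam : ℝ} {D : Set (ℝ × ℝ)} {g : ℝ × ℝ → ℝ × ℝ} (hg : Good L lam D g) {p q : ℝ × ℝ}
    (hp : p ∈ D) (hq : q ∈ D) (h : g p = g q) : p = q := by
  have h1 := hg.lower p hp q hq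
  rw [h, dist_self, mul_zero] at h1
  exact dist_le_zero.1 h1

theorem Good.cont {L lam : ℝ} {D : Set (ℝ × ℝ)} {g : ℝ × ℝ → ℝ × ℝ} (hg : Good L lam D g) :
    ContinuousOn g D := by
  have h : LipschitzOnWith (Real.toNNReal |L|) g D := by
    apply LipschitzOnWith.of_dist_le_mul
    intro x hx y hy
    rw [Real.coe_toNNReal _ (abs_nonneg L)]
    refine (hg.upper x hx y hy).trans ?_
    exact mul_le_mul_of_nonneg_right (le_abs_self L) dist_nonneg
  exact h.continuousOn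

end

end Pool.Agent.Helper746.Car
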