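import Mathlib
import Pool.Agent.Helper746.CarDefs
import Pool.Agent.Helper746.CarBasA
import Pool.Agent.Helper746.CarBasB
import Pool.Agent.Helper746.CarSq
import Pool.Agent.Helper746.CarTrans

set_option autoImplicit false

namespace Pool.Agent.Helper746.Car

open Filter Topology

noncomputable section

theorem St.hK {L lam : ℝ} (hlam : 0 < lam) {g : ℝ × ℝ → ℝ × ℝ} (hg : St L lam g) {c : ℝ} (hc : c ∈ K)
    (h0 : 0 ≤ c) (h1 : c ≤ 1) : (g (0, c)).2 ∈ K := by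
  apply K_of_line
  intro x
  have hx := hg.str c hc h0 h1 ((x - (g (0, c)).1) / lam)
  have hm := hg.good.mapsX ((x - (g (0, c)).1) / lam, c) ⟨X_of_K2 _ hc, h0, h1⟩
  rw [hx] at hm
  have : (g (0, c)).1 + lam * ((x - (g (0, c)).1) / lam) = x := by
    field_simp
    ring
  rw [this] at hm
  exact hm

theorem St.key_aux {L lam : ℝ} (hlam : 0 < lam) {g : ℝ × ℝ → ℝ × ℝ} (hg : St L lam g) {a b e : ℝ}
    (ha0 : 0 ≤ a) (hab : a ≤ b) (hb1 : b ≤ 1) (he : e ∈ K) (he0 : 0 ≤ e) (he1 : e ≤ 1)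
    (hne : ¬ (a ≤ e ∧ e ≤ b)) : (g (0, e)).2 ∉ Set.uIcc (g (0, a)).2 (g (0, b)).2 := by
  intro hmem
  have hcont : ContinuousOn (fun t : ℝ => (g (0, t)).2) (Set.uIcc a b) := by
    have h1 : ContinuousOn g Rw := hg.good.cont
    have h2 : ContinuousOn (fun t : ℝ => g (0, t)) (Set.uIcc a b) := by
      apply h1.comp
      · fun_prop
      · intro t ht
        rw [Set.uIcc_of_le hab] at ht
        exact ⟨X_of_K1 t K_zero, by show (0:ℝ) ≤ t; linarith [ht.1], by show t ≤ 1; linarith [ht.2]⟩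
    exact continuous_snd.comp_continuousOn h2
  obtain ⟨s, hs, hse⟩ := intermediate_value_uIcc hcont hmem
  rw [Set.uIcc_of_le hab] at hs
  have hx := hg.str e he he0 he1 (((g (0, s)).1 - (g (0, e)).1) / lam)
  have h1 : (g (0, e)).1 + lam * (((g (0, s)).1 - (g (0, e)).1) / lam) = (g (0, s)).1 := by
    field_simp
    ring
  rw [h1] at hx
  have h2 : g (0, s) = g (((g (0, s)).1 - (g (0, e)).1) / lam, e) := by
    rw [hx]
    apply Prod.ext
    · rfl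
    · exact hse
  have h3 := hg.good.inj (p := (0, s)) (q := (((g (0, s)).1 - (g (0, e)).1) / lam, e))
    ⟨X_of_K1 s K_zero, by show (0:ℝ) ≤ s; linarith [hs.1], by show s ≤ 1; linarith [hs.2]⟩
    ⟨X_of_K2 _ he, he0, he1⟩ h2
  have h4 : s = e := congrArg Prod.snd h3
  apply hne
  rw [← h4]
  exact hs

theorem St.h01 {L lam : ℝ} (hlam : 0 < lam) {g : ℝ × ℝ → ℝ × ℝ} (hg : St L lam g) :
    (g (0, 0)).2 < (g (0, 1)).2 := by
  have h := hg.key_aux hlam (a := 0) (b := 0) (e := 1) le_rfl le_rfl zero_le_one K_one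
    zero_le_one le_rfl (by rintro ⟨_, h⟩; linarith)
  rw [Set.uIcc_self, Set.mem_singleton_iff] at h
  exact lt_of_le_of_ne hg.ori (fun he => h he.symm)

theorem St.hc1 {L lam : ℝ} (hlam : 0 < lam) {g : ℝ × ℝ → ℝ × ℝ} (hg : St L lam g) {c : ℝ} (hc : c ∈ K)
    (h0 : 0 ≤ c) (h1 : c < 1) : (g (0, c)).2 < (g (0, 1)).2 := by
  have h01 := hg.h01 hlam
  by_contra hcon
  push Not at hcon
  have h := hg.key_aux hlam (a := 0) (b := c) (e := 1) le_rfl h0 h1.le K_one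
    zero_le_one le_rfl (by rintro ⟨_, h⟩; linarith)
  apply h
  rw [Set.uIcc_of_le (h01.le.trans hcon)]
  exact ⟨h01.le, hcon⟩

theorem St.hlt {L lam : ℝ} (hlam : 0 < lam) {g : ℝ × ℝ → ℝ × ℝ} (hg : St L lam g) {c c' : ℝ} (hc : c ∈ K)
    (hc' : c' ∈ K) (h0 : 0 ≤ c) (hcc : c < c') (h1 : c' ≤ 1) : (g (0, c)).2 < (g (0, c')).2 := by
  have hlt1 := hg.hc1 hlam hc h0 (lt_of_lt_of_le hcc h1)
  by_contra hcon
  push Not at hcon
  have h := hg.key_aux hlam (a := c') (b := 1) (e := c) (h0.trans hcc.le) h1 le_rfl hc h0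
    (hcc.le.trans h1) (by rintro ⟨h, _⟩; linarith)
  apply h
  rw [Set.uIcc_of_le (hcon.trans hlt1.le)]
  exact ⟨hcon, hlt1.le⟩

theorem St.hle {L lam : ℝ} {g : ℝ × ℝ → ℝ × ℝ} (hg : St L lam g) {c c' : ℝ}
    (h0 : 0 ≤ c) (hcc : c ≤ c') (h1 : c' ≤ 1) :
    |(g (0, c')).1 - (g (0, c)).1| + |(g (0, c')).2 - (g (0, c)).2| ≤ lam * (c' - c) := by
  have h := hg.good.speedV c c' 0 hcc (fun t ht1 ht2 =>
    ⟨X_of_K1 t K_zero, by show (0:ℝ) ≤ t; linarith, by show t ≤ 1; linarith⟩)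
  exact h

end

end Pool.Agent.Helper746.Car
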