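import Mathlib
import Pool.Agent.Helper746.CarDefs
import Pool.Agent.Helper746.CarBasA
import Pool.Agent.Helper746.CarBasB
import Pool.Agent.Helper746.CarSq
import Pool.Agent.Helper746.CarTrans
import Pool.Agent.Helper746.CarHmono

set_option autoImplicit false

namespace Pool.Agent.Helper746.Car

open Filter Topology

noncomputable section

/-- a continuous function avoiding the gaps stays in its channel -/
theorem chan_step_chan {f : ℝ → ℝ} {a b : ℝ} (hf : ContinuousOn f (Set.uIcc a b))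
    (hav : ∀ t ∈ Set.uIcc a b, t ≠ a → ∀ i : ℤ, ¬ (3 * (i : ℝ) + 1 < f t ∧ f t < 3 * (i : ℝ) + 2))
    {z : ℤ} (hb : 3 * (z : ℝ) - 1 ≤ f b ∧ f b ≤ 3 * (z : ℝ) + 1) :
    3 * (z : ℝ) - 1 ≤ f a ∧ f a ≤ 3 * (z : ℝ) + 1 := by
  have hivt := intermediate_value_uIcc hf
  constructor
  · by_contra hcon
    push Not at hcon
    set v : ℝ := (3 * (z : ℝ) - 1 + max (f a) (3 * (z : ℝ) - 2)) / 2 with hv
    have hm1 : f a ≤ max (f a) (3 * (z : ℝ) - 2) := le_max_left _ _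
    have hm2 : 3 * (z : ℝ) - 2 ≤ max (f a) (3 * (z : ℝ) - 2) := le_max_right _ _
    have hm3 : max (f a) (3 * (z : ℝ) - 2) < 3 * (z : ℝ) - 1 := max_lt hcon (by linarith)
    have hmem : v ∈ Set.uIcc (f a) (f b) := by
      rw [Set.uIcc_of_le (by linarith)]
      constructor <;> linarith
    obtain ⟨t, ht, htv⟩ := hivt hmem
    have hta : t ≠ a := by
      intro h
      rw [h] at htv
      linarith
    apply hav t ht hta (z - 1)
    push_cast
    rw [htv]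
    constructor <;> linarith
  · by_contra hcon
    push Not at hcon
    set v : ℝ := (3 * (z : ℝ) + 1 + min (f a) (3 * (z : ℝ) + 2)) / 2 with hv
    have hm1 : min (f a) (3 * (z : ℝ) + 2) ≤ f a := min_le_left _ _
    have hm2 : min (f a) (3 * (z : ℝ) + 2) ≤ 3 * (z : ℝ) + 2 := min_le_right _ _
    have hm3 : 3 * (z : ℝ) + 1 < min (f a) (3 * (z : ℝ) + 2) := lt_min hcon (by linarith)
    have hmem : v ∈ Set.uIcc (f a) (f b) := by
      rw [Set.uIcc_of_ge (by linarith)]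
      constructor <;> linarith
    obtain ⟨t, ht, htv⟩ := hivt hmem
    have hta : t ≠ a := by
      intro h
      rw [h] at htv
      linarith
    apply hav t ht hta z
    rw [htv]
    constructor <;> linarith

theorem chan_start_chan {u : ℝ} (h : ∀ i : ℤ, ¬ (3 * (i : ℝ) + 1 < u ∧ u < 3 * (i : ℝ) + 2)) :
    ∃ z : ℤ, 3 * (z : ℝ) - 1 ≤ u ∧ u ≤ 3 * (z : ℝ) + 1 := by
  have h1 := Int.floor_le (u / 3)
  have h2 := Int.lt_floor_add_one (u / 3)
  set i := ⌊u / 3⌋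
  have h3 := h i
  by_cases h4 : u ≤ 3 * (i : ℝ) + 1
  · exact ⟨i, by linarith, h4⟩
  · refine ⟨i + 1, ?_, ?_⟩
    · push_cast
      by_contra h5
      exact h3 ⟨not_le.mp h4, by linarith⟩
    · push_cast
      linarith

theorem chan_row_chan {x y : ℝ} (hx : -(1 / 3) ≤ x) (hx' : x ≤ 1 / 3) (hy : y = 4 / 9) :
    ((x, y) : ℝ × ℝ) ∈ Rw := by
  refine ⟨?_, by simp only [hy]; norm_num, by simp only [hy]; norm_num⟩
  rintro n ⟨h1, h2⟩
  simp only at h1 h2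
  rcases n with _ | m
  · exact not_mid_zero 0 (by push_cast; linarith) (by push_cast; linarith) h1
  · have h3 : (4 / 3 : ℝ) ∈ K := by
      have := K_add_int K_third 1
      norm_num at this
      exact this
    apply h3 m
    have h4 := (mid_pow m 1 y).2 h2
    rw [hy] at h4
    norm_num at h4
    exact h4

theorem chan_col_chan {c y : ℝ} (hc : c ∈ K) (h0 : 0 ≤ y) (h1 : y ≤ 1) : ((c, y) : ℝ × ℝ) ∈ Rw :=
  ⟨X_of_K1 y hc, h0, h1⟩

theorem chan_ne_chan {L lam : ℝ} (hlam : 0 < lam) {g : ℝ × ℝ → ℝ × ℝ} (hg : St L lam g) {c : ℝ}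
    (hc : c ∈ K) (h0 : 0 ≤ c) (h1 : c ≤ 1) {p : ℝ × ℝ} (hp : p ∈ Rw) (hpc : p.2 ≠ c) :
    (g p).2 ≠ (g (0, c)).2 := by
  intro h
  have h2 := hg.str c hc h0 h1 (((g p).1 - (g (0, c)).1) / lam)
  have h3 : g (((g p).1 - (g (0, c)).1) / lam, c) = g p := by
    rw [h2]
    apply Prod.ext
    · simp only
      field_simp
      ring
    · exact h.symm
  have h4 := hg.good.inj (show (((g p).1 - (g (0, c)).1) / lam, c) ∈ Rw from
    ⟨X_of_K2 _ hc, h0, h1⟩) hp h3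
  apply hpc
  rw [← h4]

theorem chan_vert_chan {L lam : ℝ} (hlam : 0 < lam) {g : ℝ × ℝ → ℝ × ℝ} (hg : St L lam g)
    (hab : (g (0, 1 / 3)).2 < (g (0, 2 / 3)).2) {c : ℝ} (hc : c ∈ K) {t : ℝ} (ht : 1 / 3 < t)
    (ht' : t < 2 / 3) : (g (0, 1 / 3)).2 < (g (c, t)).2 ∧ (g (c, t)).2 < (g (0, 2 / 3)).2 := by
  set α := (g (0, 1 / 3)).2 with hα
  set β := (g (0, 2 / 3)).2 with hβ
  have hfa : (g (c, 1 / 3)).2 = α := by
    rw [hg.str (1 / 3) K_third (by norm_num) (by norm_num) c]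
  have hfb : (g (c, 2 / 3)).2 = β := by
    rw [hg.str (2 / 3) K_two_third (by norm_num) (by norm_num) c]
  have hcont : ContinuousOn (fun s : ℝ => (g (c, s)).2) (Set.Icc 0 1) := by
    apply continuous_snd.comp_continuousOn
    apply hg.good.cont.comp (by fun_prop)
    intro s hs
    exact chan_col_chan hc hs.1 hs.2
  have hne1 : ∀ s : ℝ, 1 / 3 < s → s < 2 / 3 → (g (c, s)).2 ≠ α := fun s h1 h2 =>
    chan_ne_chan hlam hg K_third (by norm_num) (by norm_num)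
      (chan_col_chan hc (by linarith) (by linarith)) h1.ne'
  have hne2 : ∀ s : ℝ, 1 / 3 < s → s < 2 / 3 → (g (c, s)).2 ≠ β := fun s h1 h2 =>
    chan_ne_chan hlam hg K_two_third (by norm_num) (by norm_num)
      (chan_col_chan hc (by linarith) (by linarith)) h2.ne
  constructor
  · by_contra hcon
    push Not at hcon
    have hivt := intermediate_value_Icc ht'.le (hcont.mono (Set.Icc_subset_Icc (by linarith)
      (by norm_num)))
    obtain ⟨s, hs, hsv⟩ := hivt (show α ∈ Set.Icc _ _ from ⟨hcon, by rw [hfb]; exact hab.le⟩)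
    simp only at hsv
    refine hne1 s (ht.trans_le hs.1) (lt_of_le_of_ne hs.2 ?_) hsv
    intro h
    rw [h, hfb] at hsv
    exact hab.ne' hsv
  · by_contra hcon
    push Not at hcon
    have hivt := intermediate_value_Icc ht.le (hcont.mono (Set.Icc_subset_Icc (by norm_num)
      (by linarith)))
    obtain ⟨s, hs, hsv⟩ := hivt (show β ∈ Set.Icc _ _ from ⟨by rw [hfa]; exact hab.le, hcon⟩)
    simp only at hsv
    refine hne2 s (lt_of_le_of_ne hs.1 ?_) (hs.2.trans_lt ht') hsv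
    intro h
    rw [← h, hfa] at hsv
    exact hab.ne hsv

theorem chan_hor_chan {L lam : ℝ} (hlam : 0 < lam) {g : ℝ × ℝ → ℝ × ℝ} (hg : St L lam g)
    (hab : (g (0, 1 / 3)).2 < (g (0, 2 / 3)).2) {x : ℝ} (hx : -(1 / 3) ≤ x) (hx' : x ≤ 1 / 3) :
    (g (0, 1 / 3)).2 < (g (x, 4 / 9)).2 ∧ (g (x, 4 / 9)).2 < (g (0, 2 / 3)).2 := by
  set α := (g (0, 1 / 3)).2 with hα
  set β := (g (0, 2 / 3)).2 with hβ
  have hstart := chan_vert_chan hlam hg hab (K_neg K_third) (t := 4 / 9) (by norm_num) (by norm_num)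
  rw [← hα, ← hβ] at hstart
  have hcont : ContinuousOn (fun s : ℝ => (g (s, 4 / 9)).2) (Set.Icc (-(1 / 3)) (1 / 3)) := by
    apply continuous_snd.comp_continuousOn
    apply hg.good.cont.comp (by fun_prop)
    intro s hs
    exact chan_row_chan hs.1 hs.2 rfl
  have hne1 : ∀ s : ℝ, -(1 / 3) ≤ s → s ≤ 1 / 3 → (g (s, 4 / 9)).2 ≠ α := fun s h1 h2 =>
    chan_ne_chan hlam hg K_third (by norm_num) (by norm_num) (chan_row_chan h1 h2 rfl)
      (show (4 / 9 : ℝ) ≠ 1 / 3 by norm_num)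
  have hne2 : ∀ s : ℝ, -(1 / 3) ≤ s → s ≤ 1 / 3 → (g (s, 4 / 9)).2 ≠ β := fun s h1 h2 =>
    chan_ne_chan hlam hg K_two_third (by norm_num) (by norm_num) (chan_row_chan h1 h2 rfl)
      (show (4 / 9 : ℝ) ≠ 2 / 3 by norm_num)
  constructor
  · by_contra hcon
    push Not at hcon
    have hivt := intermediate_value_Icc' hx (hcont.mono (Set.Icc_subset_Icc le_rfl hx'))
    obtain ⟨s, hs, hsv⟩ := hivt (show α ∈ Set.Icc _ _ from ⟨hcon, hstart.1.le⟩)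
    exact hne1 s hs.1 (hs.2.trans hx') hsv
  · by_contra hcon
    push Not at hcon
    have hivt := intermediate_value_Icc hx (hcont.mono (Set.Icc_subset_Icc le_rfl hx'))
    obtain ⟨s, hs, hsv⟩ := hivt (show β ∈ Set.Icc _ _ from ⟨hstart.2.le, hcon⟩)
    exact hne2 s hs.1 (hs.2.trans hx') hsv

theorem chan_avoid_chan {L lam : ℝ} {g : ℝ × ℝ → ℝ × ℝ} (hg : St L lam g) {κ : ℕ} {j : ℤ}
    {p : ℝ × ℝ} (hp : p ∈ Rw)
    (h1 : (3 * (j : ℝ) + 1) / 3 ^ (κ + 1) < (g p).2)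
    (h2 : (g p).2 < (3 * (j : ℝ) + 2) / 3 ^ (κ + 1)) (i : ℤ) :
    ¬ (3 * (i : ℝ) + 1 < 3 ^ (κ + 1) * (g p).1 ∧ 3 ^ (κ + 1) * (g p).1 < 3 * (i : ℝ) + 2) := by
  rintro ⟨h3, h4⟩
  have h5 := hg.good.mapsX p hp κ
  apply h5
  refine ⟨⟨i, h3, h4⟩, ⟨j, ?_, ?_⟩⟩
  · rw [div_lt_iff₀ (by positivity)] at h1
    linarith
  · rw [lt_div_iff₀ (by positivity)] at h2
    linarith

theorem chan_main_chan {L lam : ℝ} (hlam : 0 < lam) {g : ℝ × ℝ → ℝ × ℝ} (hg : St L lam g)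
    {κ : ℕ} {j : ℤ} (h1 : (g (0, 1 / 3)).2 = (3 * (j : ℝ) + 1) / 3 ^ (κ + 1))
    (h2 : (g (0, 2 / 3)).2 = (3 * (j : ℝ) + 2) / 3 ^ (κ + 1)) :
    ∃ z : ℤ, (3 * (z : ℝ) - 1 ≤ 3 ^ (κ + 1) * (g (-(1 / 3), 1 / 3)).1 ∧
        3 ^ (κ + 1) * (g (-(1 / 3), 1 / 3)).1 ≤ 3 * (z : ℝ) + 1) ∧
      (3 * (z : ℝ) - 1 ≤ 3 ^ (κ + 1) * (g (1 / 3, 1 / 3)).1 ∧
        3 ^ (κ + 1) * (g (1 / 3, 1 / 3)).1 ≤ 3 * (z : ℝ) + 1) := by
  have hab : (g (0, 1 / 3)).2 < (g (0, 2 / 3)).2 := by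
    rw [h1, h2]
    apply div_lt_div_of_pos_right _ (by positivity)
    linarith
  have hvert : ∀ c ∈ K, ∀ t : ℝ, 1 / 3 < t → t ≤ 4 / 9 → ∀ i : ℤ,
      ¬ (3 * (i : ℝ) + 1 < 3 ^ (κ + 1) * (g (c, t)).1 ∧
        3 ^ (κ + 1) * (g (c, t)).1 < 3 * (i : ℝ) + 2) := by
    intro c hc t ht ht' i
    have h3 := chan_vert_chan hlam hg hab hc ht (by linarith)
    rw [h1, h2] at h3
    exact chan_avoid_chan hg (chan_col_chan hc (by linarith) (by linarith)) h3.1 h3.2 i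
  have hhor : ∀ x : ℝ, -(1 / 3) ≤ x → x ≤ 1 / 3 → ∀ i : ℤ,
      ¬ (3 * (i : ℝ) + 1 < 3 ^ (κ + 1) * (g (x, 4 / 9)).1 ∧
        3 ^ (κ + 1) * (g (x, 4 / 9)).1 < 3 * (i : ℝ) + 2) := by
    intro x hx hx' i
    have h3 := chan_hor_chan hlam hg hab hx hx'
    rw [h1, h2] at h3
    exact chan_avoid_chan hg (chan_row_chan hx hx' rfl) h3.1 h3.2 i
  have hcontV : ∀ c ∈ K, ContinuousOn (fun s : ℝ => 3 ^ (κ + 1) * (g (c, s)).1)
      (Set.uIcc (1 / 3) (4 / 9)) := by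
    intro c hc
    apply ContinuousOn.mul continuousOn_const
    apply continuous_fst.comp_continuousOn
    apply hg.good.cont.comp (by fun_prop)
    intro s hs
    rw [Set.uIcc_of_le (by norm_num)] at hs
    exact chan_col_chan hc (by linarith [hs.1]) (by linarith [hs.2])
  have hcontH : ContinuousOn (fun s : ℝ => 3 ^ (κ + 1) * (g (s, 4 / 9)).1)
      (Set.uIcc (1 / 3) (-(1 / 3))) := by
    apply ContinuousOn.mul continuousOn_const
    apply continuous_fst.comp_continuousOn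
    apply hg.good.cont.comp (by fun_prop)
    intro s hs
    rw [Set.uIcc_of_ge (by norm_num)] at hs
    exact chan_row_chan hs.1 hs.2 rfl
  obtain ⟨z, hz⟩ := chan_start_chan (hhor (-(1 / 3)) le_rfl (by norm_num))
  refine ⟨z, ?_, ?_⟩
  · refine chan_step_chan (f := fun s : ℝ => 3 ^ (κ + 1) * (g (-(1 / 3), s)).1) (b := 4 / 9)
      (hcontV _ (K_neg K_third)) ?_ hz
    intro t ht hta i
    rw [Set.uIcc_of_le (by norm_num)] at ht
    exact hvert _ (K_neg K_third) t (lt_of_le_of_ne ht.1 hta.symm) ht.2 i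
  · have hB := chan_step_chan (f := fun s : ℝ => 3 ^ (κ + 1) * (g (s, 4 / 9)).1) (a := 1 / 3)
      (b := -(1 / 3)) hcontH (by
        intro t ht _ i
        rw [Set.uIcc_of_ge (by norm_num)] at ht
        exact hhor t ht.1 ht.2 i) hz
    refine chan_step_chan (f := fun s : ℝ => 3 ^ (κ + 1) * (g (1 / 3, s)).1) (b := 4 / 9)
      (hcontV _ K_third) ?_ hB
    intro t ht hta i
    rw [Set.uIcc_of_le (by norm_num)] at ht
    exact hvert _ K_third t (lt_of_le_of_ne ht.1 hta.symm) ht.2 i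

theorem channel {L lam : ℝ} (hlam : 0 < lam) (hlam1 : lam ≤ 1 / 3) {g : ℝ × ℝ → ℝ × ℝ} (hg : St L lam g)
    {k : ℕ} (hk : 1 ≤ k) {j : ℤ} (h1 : (g (0, 1 / 3)).2 = (3 * (j : ℝ) + 1) / 3 ^ k)
    (h2 : (g (0, 2 / 3)).2 = (3 * (j : ℝ) + 2) / 3 ^ k) :
    2 ≤ k ∧ lam = (1 / 3) ^ (k - 1) ∧ ∃ z : ℤ, (g (0, 1 / 3)).1 = lam * z := by
  obtain ⟨κ, rfl⟩ : ∃ κ, k = κ + 1 := ⟨k - 1, by omega⟩
  obtain ⟨z, hA, hC⟩ := chan_main_chan hlam hg h1 h2
  have hpow : (0:ℝ) < 3 ^ (κ + 1) := by positivity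
  have e1 := hg.str (1 / 3) K_third (by norm_num) (by norm_num) (-(1 / 3))
  have e2 := hg.str (1 / 3) K_third (by norm_num) (by norm_num) (1 / 3)
  rw [e1] at hA
  rw [e2] at hC
  simp only at hA hC
  have hle := St.hle hg (c := 1 / 3) (c' := 2 / 3) (by norm_num) (by norm_num) (by norm_num)
  have h3 : (g (0, 2 / 3)).2 - (g (0, 1 / 3)).2 = 1 / 3 ^ (κ + 1) := by
    rw [h1, h2]; ring
  rw [h3] at hle
  have h4 := abs_nonneg ((g (0, 2 / 3)).1 - (g (0, 1 / 3)).1)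
  have h5 := le_abs_self ((1:ℝ) / 3 ^ (κ + 1))
  have h6 : (1:ℝ) / 3 ^ (κ + 1) ≤ lam * (2 / 3 - 1 / 3) := by linarith
  rw [div_le_iff₀ hpow] at h6
  -- `3^(κ+1) * lam = 3`
  have h7 : 3 ^ (κ + 1) * lam = 3 := by
    apply le_antisymm
    · nlinarith [hA.1, hC.2]
    · nlinarith
  have h8 : lam = (1 / 3) ^ κ := by
    have : (3:ℝ) ^ κ * (1 / 3) ^ κ = 1 := by
      rw [← mul_pow]; norm_num
    have h9 : (3:ℝ) ^ κ * lam = 1 := by
      rw [pow_succ] at h7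
      linarith
    have h10 : (3:ℝ) ^ κ * lam = 3 ^ κ * (1 / 3) ^ κ := by rw [h9, this]
    exact mul_left_cancel₀ (by positivity) h10
  refine ⟨?_, ?_, z, ?_⟩
  · have hκ : κ ≠ 0 := by
      rintro rfl
      norm_num at h8
      linarith
    omega
  · simpa using h8
  · have h9 : 3 ^ (κ + 1) * ((g (0, 1 / 3)).1 + lam * -(1 / 3)) =
        3 ^ (κ + 1) * (g (0, 1 / 3)).1 - 1 := by
      have : 3 ^ (κ + 1) * ((g (0, 1 / 3)).1 + lam * -(1 / 3)) =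
        3 ^ (κ + 1) * (g (0, 1 / 3)).1 - (3 ^ (κ + 1) * lam) / 3 := by ring
      rw [this, h7]; norm_num
    have h10 : 3 ^ (κ + 1) * ((g (0, 1 / 3)).1 + lam * (1 / 3)) =
        3 ^ (κ + 1) * (g (0, 1 / 3)).1 + 1 := by
      have : 3 ^ (κ + 1) * ((g (0, 1 / 3)).1 + lam * (1 / 3)) =
        3 ^ (κ + 1) * (g (0, 1 / 3)).1 + (3 ^ (κ + 1) * lam) / 3 := by ring
      rw [this, h7]; norm_num
    rw [h9] at hA
    rw [h10] at hC
    have h11 : 3 ^ (κ + 1) * (g (0, 1 / 3)).1 = 3 * (z : ℝ) := by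
      apply le_antisymm <;> linarith [hA.1, hC.2]
    have h12 : 3 ^ (κ + 1) * (g (0, 1 / 3)).1 = 3 ^ (κ + 1) * (lam * z) := by
      rw [h11, ← mul_assoc, h7]
    exact mul_left_cancel₀ hpow.ne' h12

end

end Pool.Agent.Helper746.Car
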