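import Mathlib
import Pool.Agent.Helper746.CarDefs
import Pool.Agent.Helper746.CarBasA
import Pool.Agent.Helper746.CarBasB
import Pool.Agent.Helper746.CarSq
import Pool.Agent.Helper746.CarTrans

set_option autoImplicit false

namespace Pool.Agent.Helper746.Car

open Filter Topology

noncomputable section

theorem corner_memH_cornerA {c : ℝ} (hc : c ∈ K) (hc0 : 0 ≤ c) (hc1 : c ≤ 1) {t : ℝ} (h0 : 0 ≤ t) (h1 : t ≤ 1) :
    ((t, c) : ℝ × ℝ) ∈ Sq := ⟨X_of_K2 t hc, h0, h1, hc0, hc1⟩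

theorem corner_memV_cornerA {c : ℝ} (hc : c ∈ K) (hc0 : 0 ≤ c) (hc1 : c ≤ 1) {t : ℝ} (h0 : 0 ≤ t) (h1 : t ≤ 1) :
    ((c, t) : ℝ × ℝ) ∈ Sq := ⟨X_of_K1 t hc, hc0, hc1, h0, h1⟩

theorem corner_left_cornerA {lam : ℝ} {g : ℝ × ℝ → ℝ × ℝ} {b : ℝ × ℝ}
    (hleft : ∀ y : ℝ, 0 ≤ y → y ≤ 1 → g (0, y) = lam • ((0, y) : ℝ × ℝ) + b)
    {c : ℝ} (hc0 : 0 ≤ c) (hc1 : c ≤ 1) : (g (0, c)).1 = b.1 ∧ (g (0, c)).2 = lam * c + b.2 := by
  rw [hleft c hc0 hc1]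
  simp

theorem corner_seg_cornerA {L lam : ℝ} {g : ℝ × ℝ → ℝ × ℝ} (hg : Good L lam Sq g) {b : ℝ × ℝ}
    (hbot : ∀ x : ℝ, 0 ≤ x → x ≤ 1 → g (x, 0) = lam • ((x, 0) : ℝ × ℝ) + b)
    (hleft : ∀ y : ℝ, 0 ≤ y → y ≤ 1 → g (0, y) = lam • ((0, y) : ℝ × ℝ) + b)
    {c : ℝ} (hc : c ∈ K) (hc0 : 0 ≤ c) (hc1 : c ≤ 1) {x x' : ℝ} (hx0 : 0 ≤ x) (hxx : x ≤ x') (hx1 : x' ≤ 1) :
    (g (x', c)).1 - (g (x, c)).1 - ((g (x', c)).2 - (g (x, c)).2) = lam * (x' - x) ∧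
    (g (x', c)).2 - (g (x, c)).2 ≤ 0 ∧ 0 ≤ (g (x', c)).1 - (g (x, c)).1 := by
  have hH : ∀ u v : ℝ, 0 ≤ u → u ≤ v → v ≤ 1 →
      |(g (v, c)).1 - (g (u, c)).1| + |(g (v, c)).2 - (g (u, c)).2| ≤ lam * (v - u) := by
    intro u v hu huv hv
    have := hg.speedH u v c huv (fun t h1 h2 => corner_memH_cornerA hc hc0 hc1 (by linarith) (by linarith))
    simpa [n1] using this
  have hV : |(g (1, c)).1 - (g (1, 0)).1| + |(g (1, c)).2 - (g (1, 0)).2| ≤ lam * (c - 0) := by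
    have := hg.speedV 0 c 1 hc0 (fun t h1 h2 => corner_memV_cornerA K_one zero_le_one le_rfl h1 (by linarith))
    simpa [n1] using this
  obtain ⟨hl1, hl2⟩ := corner_left_cornerA hleft hc0 hc1
  have hb : (g (1, 0)).1 = lam + b.1 ∧ (g (1, 0)).2 = b.2 := by
    rw [hbot 1 zero_le_one le_rfl]
    simp
  obtain ⟨hb1, hb2⟩ := hb
  rw [hb1, hb2] at hV
  have hA := hH 0 1 le_rfl zero_le_one le_rfl
  rw [hl1, hl2] at hA
  have p1 := hH 0 x le_rfl hx0 (by linarith)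
  have p2 := hH x x' hx0 hxx hx1
  have p3 := hH x' 1 (by linarith) hx1 le_rfl
  -- total
  have htot : (g (1, c)).1 - (g (0, c)).1 - ((g (1, c)).2 - (g (0, c)).2) = lam := by
    rw [hl1, hl2]
    have a1 := le_abs_self ((g (1, c)).1 - b.1)
    have a2 := neg_abs_le ((g (1, c)).1 - (lam + b.1))
    have a3 := le_abs_self ((g (1, c)).2 - b.2)
    have a4 := neg_abs_le ((g (1, c)).2 - (lam * c + b.2))
    have a5 := le_abs_self ((g (1, c)).2 - (lam * c + b.2))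
    have a6 := neg_abs_le ((g (1, c)).2 - b.2)
    apply le_antisymm
    · nlinarith
    · nlinarith
  have q1 := le_abs_self ((g (x, c)).1 - (g (0, c)).1)
  have q2 := neg_abs_le ((g (x, c)).2 - (g (0, c)).2)
  have q3 := le_abs_self ((g (x', c)).1 - (g (x, c)).1)
  have q4 := neg_abs_le ((g (x', c)).2 - (g (x, c)).2)
  have q5 := le_abs_self ((g (1, c)).1 - (g (x', c)).1)
  have q6 := neg_abs_le ((g (1, c)).2 - (g (x', c)).2)
  have q7 := abs_nonneg ((g (x', c)).1 - (g (x, c)).1)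
  have q8 := le_abs_self ((g (x', c)).2 - (g (x, c)).2)
  have q9 := abs_nonneg ((g (x', c)).2 - (g (x, c)).2)
  refine ⟨?_, ?_, ?_⟩
  · apply le_antisymm
    · linarith
    · linarith
  · linarith
  · linarith

theorem corner_diag {L lam : ℝ} (h0 : 0 < lam) {g : ℝ × ℝ → ℝ × ℝ} (hg : Good L lam Sq g) {b : ℝ × ℝ}
    (hbot : ∀ x : ℝ, 0 ≤ x → x ≤ 1 → g (x, 0) = lam • ((x, 0) : ℝ × ℝ) + b)
    (hleft : ∀ y : ℝ, 0 ≤ y → y ≤ 1 → g (0, y) = lam • ((0, y) : ℝ × ℝ) + b)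
    {c : ℝ} (hc : c ∈ K) (hc0 : 0 ≤ c) (hc1 : c ≤ 1) {x : ℝ} (hx0 : 0 ≤ x) (hx1 : x ≤ 1) :
    (g (x, c)).1 - (g (x, c)).2 = b.1 - b.2 + lam * (x - c) ∧ (g (x, c)).2 ≤ b.2 + lam * c := by
  obtain ⟨h1, h2, h3⟩ := corner_seg_cornerA hg hbot hleft hc hc0 hc1 le_rfl hx0 hx1
  obtain ⟨hl1, hl2⟩ := corner_left_cornerA hleft hc0 hc1
  constructor <;> linarith

theorem corner_mono {L lam : ℝ} (h0 : 0 < lam) {g : ℝ × ℝ → ℝ × ℝ} (hg : Good L lam Sq g) {b : ℝ × ℝ}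
    (hbot : ∀ x : ℝ, 0 ≤ x → x ≤ 1 → g (x, 0) = lam • ((x, 0) : ℝ × ℝ) + b)
    (hleft : ∀ y : ℝ, 0 ≤ y → y ≤ 1 → g (0, y) = lam • ((0, y) : ℝ × ℝ) + b)
    {c : ℝ} (hc : c ∈ K) (hc0 : 0 ≤ c) (hc1 : c ≤ 1) {x x' : ℝ} (hx0 : 0 ≤ x) (hxx : x ≤ x') (hx1 : x' ≤ 1) :
    (g (x', c)).2 ≤ (g (x, c)).2 ∧ (g (x, c)).2 - (g (x', c)).2 ≤ lam * (x' - x) := by
  obtain ⟨h1, h2, h3⟩ := corner_seg_cornerA hg hbot hleft hc hc0 hc1 hx0 hxx hx1
  constructor <;> linarith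

theorem corner_order {L lam : ℝ} (h0 : 0 < lam) {g : ℝ × ℝ → ℝ × ℝ} (hg : Good L lam Sq g) {b : ℝ × ℝ}
    (hbot : ∀ x : ℝ, 0 ≤ x → x ≤ 1 → g (x, 0) = lam • ((x, 0) : ℝ × ℝ) + b)
    (hleft : ∀ y : ℝ, 0 ≤ y → y ≤ 1 → g (0, y) = lam • ((0, y) : ℝ × ℝ) + b)
    {c c' : ℝ} (hc : c ∈ K) (hc' : c' ∈ K) (hc0 : 0 ≤ c) (hcc : c < c') (hc1 : c' ≤ 1)
    {x x' : ℝ} (hx0 : 0 ≤ x) (hx1 : x' ≤ 1) (hxx : x' - x = c' - c) :
    (g (x, c)).2 < (g (x', c')).2 := by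
  have hne : ∀ s : ℝ, -c ≤ s → s ≤ 1 - c' → (g (s + c', c')).2 - (g (s + c, c)).2 ≠ 0 := by
    intro s hs0 hs1 h
    have e1 := (corner_diag h0 hg hbot hleft hc' (by linarith) hc1 (x := s + c') (by linarith) (by linarith)).1
    have e2 := (corner_diag h0 hg hbot hleft hc hc0 (by linarith) (x := s + c) (by linarith) (by linarith)).1
    have e3 : g (s + c', c') = g (s + c, c) := by
      apply Prod.ext
      · have : lam * (s + c' - c') = lam * (s + c - c) := by ring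
        linarith
      · linarith
    have e4 := hg.inj (corner_memH_cornerA hc' (by linarith) hc1 (by linarith) (by linarith))
      (corner_memH_cornerA hc hc0 (by linarith) (by linarith) (by linarith)) e3
    have e5 := congrArg Prod.snd e4
    simp only at e5
    linarith
  have hcont : ContinuousOn (fun s : ℝ => (g (s + c', c')).2 - (g (s + c, c)).2) (Set.Icc (-c) (1 - c')) := by
    apply ContinuousOn.sub
    · apply ContinuousOn.snd
      apply ContinuousOn.comp (t := Sq) hg.cont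
      · fun_prop
      · intro s hs
        exact corner_memH_cornerA hc' (by linarith) hc1 (by linarith [hs.1]) (by linarith [hs.2])
    · apply ContinuousOn.snd
      apply ContinuousOn.comp (t := Sq) hg.cont
      · fun_prop
      · intro s hs
        exact corner_memH_cornerA hc hc0 (by linarith) (by linarith [hs.1]) (by linarith [hs.2])
  have hstart : 0 ≤ (g (-c + c', c')).2 - (g (-c + c, c)).2 := by
    have e1 := (corner_mono h0 hg hbot hleft hc' (by linarith) hc1 (x := 0) (x' := -c + c') le_rfl (by linarith) (by linarith)).2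
    obtain ⟨_, hl2⟩ := corner_left_cornerA hleft (c := c') (by linarith) hc1
    obtain ⟨_, hl3⟩ := corner_left_cornerA hleft (c := c) hc0 (by linarith)
    rw [neg_add_cancel, hl3]
    rw [hl2] at e1
    nlinarith
  have key : ∀ s : ℝ, -c ≤ s → s ≤ 1 - c' → 0 < (g (s + c', c')).2 - (g (s + c, c)).2 := by
    intro s hs0 hs1
    by_contra hcon
    rw [not_lt] at hcon
    have hiv := intermediate_value_Icc' hs0 (hcont.mono (Set.Icc_subset_Icc le_rfl hs1))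
    obtain ⟨r, hr, hr2⟩ := hiv ⟨hcon, hstart⟩
    exact hne r hr.1 (by linarith [hr.2]) hr2
  have := key (x - c) (by linarith) (by linarith)
  have e1 : x - c + c' = x' := by linarith
  have e2 : x - c + c = x := by ring
  rw [e1, e2] at this
  linarith

end

end Pool.Agent.Helper746.Car
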