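import Mathlib
import Pool.Agent.Helper746.CarDefs
import Pool.Agent.Helper746.CarBasA
import Pool.Agent.Helper746.CarBasB
import Pool.Agent.Helper746.CarTrans

set_option autoImplicit false

namespace Pool.Agent.Helper746.Car

open Filter Topology

noncomputable section

theorem ultra_ev {p : ℝ × ℝ} (hp : p ∈ Rw) :
    ∀ᶠ k : ℕ in (hyperfilter ℕ : Filter ℕ), p ∈ RwI (-(k : ℝ)) k := by
  have h : ∀ᶠ k : ℕ in atTop, p ∈ RwI (-(k : ℝ)) k := by
    obtain ⟨N, hN⟩ := exists_nat_gt |p.1|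
    filter_upwards [eventually_ge_atTop N] with k hk
    have hk' : (N : ℝ) ≤ k := by exact_mod_cast hk
    have h1 := abs_le.1 (hN.le.trans hk')
    exact ⟨hp.1, h1.1, h1.2, hp.2⟩
  exact h.filter_mono Nat.hyperfilter_le_atTop

theorem ultra_lim {L lam : ℝ} (g : ℕ → ℝ × ℝ → ℝ × ℝ)
    (hg : ∀ k : ℕ, Good L lam (RwI (-(k : ℝ)) k) (g k))
    {C : ℝ} (hb : ∀ k, ‖g k (0, 0)‖ ≤ C) {p : ℝ × ℝ} (hp : p ∈ Rw) :
    ∃ x : ℝ × ℝ, Tendsto (fun k => g k p) (hyperfilter ℕ : Filter ℕ) (𝓝 x) := by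
  have h00 : ((0, 0) : ℝ × ℝ) ∈ Rw := ⟨X_of_K1 0 K_zero, by norm_num, by norm_num⟩
  have hev : ∀ᶠ k : ℕ in (hyperfilter ℕ : Filter ℕ),
      g k p ∈ Metric.closedBall (0 : ℝ × ℝ) (L * dist p (0, 0) + C) := by
    filter_upwards [ultra_ev hp, ultra_ev h00] with k h1 h2
    rw [mem_closedBall_zero_iff]
    have h3 := (hg k).upper p h1 (0, 0) h2
    have h4 := hb k
    calc ‖g k p‖ = ‖(g k p - g k (0, 0)) + g k (0, 0)‖ := by rw [sub_add_cancel]
      _ ≤ ‖g k p - g k (0, 0)‖ + ‖g k (0, 0)‖ := norm_add_le _ _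
      _ ≤ L * dist p (0, 0) + C := by
          rw [← dist_eq_norm]
          linarith
  obtain ⟨x, _, hx⟩ := (isCompact_closedBall (0 : ℝ × ℝ) (L * dist p (0, 0) + C)).ultrafilter_le_nhds
    ((hyperfilter ℕ).map (fun k => g k p)) (by
      rw [le_principal_iff]
      exact hev)
  exact ⟨x, hx⟩

theorem ultra {L lam : ℝ} (g : ℕ → ℝ × ℝ → ℝ × ℝ) (hg : ∀ k : ℕ, Good L lam (RwI (-(k : ℝ)) k) (g k))
    {C : ℝ} (hb : ∀ k, ‖g k (0, 0)‖ ≤ C) :
    ∃ G : ℝ × ℝ → ℝ × ℝ, Good L lam Rw G ∧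
      ∀ p ∈ Rw, Tendsto (fun k => g k p) (hyperfilter ℕ : Filter ℕ) (𝓝 (G p)) := by
  classical
  have hex : ∀ p : ℝ × ℝ, ∃ x : ℝ × ℝ, p ∈ Rw →
      Tendsto (fun k => g k p) (hyperfilter ℕ : Filter ℕ) (𝓝 x) := by
    intro p
    by_cases hp : p ∈ Rw
    · obtain ⟨x, hx⟩ := ultra_lim g hg hb hp
      exact ⟨x, fun _ => hx⟩
    · exact ⟨0, fun h => absurd h hp⟩
  choose G hG using hex
  refine ⟨G, ⟨?_, ?_, ?_, ?_, ?_⟩, hG⟩
  · intro p hp
    refine X_closed.mem_of_tendsto (hG p hp) ?_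
    filter_upwards [ultra_ev hp] with k hk
    exact (hg k).mapsX p hk
  · intro p hp q hq
    have h1 : Tendsto (fun k => L * dist (g k p) (g k q)) (hyperfilter ℕ : Filter ℕ)
        (𝓝 (L * dist (G p) (G q))) := ((hG p hp).dist (hG q hq)).const_mul L
    refine ge_of_tendsto h1 ?_
    filter_upwards [ultra_ev hp, ultra_ev hq] with k h2 h3
    exact (hg k).lower p h2 q h3
  · intro p hp q hq
    refine le_of_tendsto ((hG p hp).dist (hG q hq)) ?_
    filter_upwards [ultra_ev hp, ultra_ev hq] with k h2 h3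
    exact (hg k).upper p h2 q h3
  · intro x x' y hx hD
    have ha : ((x, y) : ℝ × ℝ) ∈ Rw := hD x le_rfl hx
    have hb' : ((x', y) : ℝ × ℝ) ∈ Rw := hD x' hx le_rfl
    have hc : Continuous n1 := by unfold n1; fun_prop
    have h1 : Tendsto (fun k => n1 (g k (x', y) - g k (x, y))) (hyperfilter ℕ : Filter ℕ)
        (𝓝 (n1 (G (x', y) - G (x, y)))) :=
      (hc.tendsto _).comp ((hG _ hb').sub (hG _ ha))
    refine le_of_tendsto h1 ?_
    filter_upwards [ultra_ev ha, ultra_ev hb'] with k h2 h3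
    refine (hg k).speedH x x' y hx fun t ht ht' => ?_
    have h4 := hD t ht ht'
    exact ⟨h4.1, h2.2.1.trans ht, ht'.trans h3.2.2.1, h4.2⟩
  · intro y y' x hy hD
    have ha : ((x, y) : ℝ × ℝ) ∈ Rw := hD y le_rfl hy
    have hb' : ((x, y') : ℝ × ℝ) ∈ Rw := hD y' hy le_rfl
    have hc : Continuous n1 := by unfold n1; fun_prop
    have h1 : Tendsto (fun k => n1 (g k (x, y') - g k (x, y))) (hyperfilter ℕ : Filter ℕ)
        (𝓝 (n1 (G (x, y') - G (x, y)))) :=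
      (hc.tendsto _).comp ((hG _ hb').sub (hG _ ha))
    refine le_of_tendsto h1 ?_
    filter_upwards [ultra_ev ha, ultra_ev hb'] with k h2 h3
    refine (hg k).speedV y y' x hy fun t ht ht' => ?_
    have h4 := hD t ht ht'
    exact ⟨h4.1, h2.2.1, h2.2.2.1, h4.2⟩

end

end Pool.Agent.Helper746.Car
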