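import Mathlib
import Pool.Agent.Helper746.CarDefs
import Pool.Agent.Helper746.CarBasA
import Pool.Agent.Helper746.CarBasB
import Pool.Agent.Helper746.CarSq
import Pool.Agent.Helper746.CarTrans
import Pool.Agent.Helper746.CarUltra

set_option autoImplicit false

namespace Pool.Agent.Helper746.Car

open Filter Topology

noncomputable section

theorem n1_zero_straighten : n1 (0 : ℝ × ℝ) = 0 := by simp [n1]

theorem n1_nonneg_straighten (u : ℝ × ℝ) : 0 ≤ n1 u := by unfold n1; positivity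

theorem n1_neg_straighten (u : ℝ × ℝ) : n1 (-u) = n1 u := by simp [n1]

theorem n1_add_le_straighten (u v : ℝ × ℝ) : n1 (u + v) ≤ n1 u + n1 v := by
  have h1 := abs_add_le u.1 v.1
  have h2 := abs_add_le u.2 v.2
  simp only [n1, Prod.fst_add, Prod.snd_add]
  linarith

theorem n1_continuous_straighten : Continuous n1 := by
  unfold n1; fun_prop

section Phi

variable {C0 : ℝ} {Φ : ℝ × ℝ → ℝ}

theorem phi_zero_straighten (hPhi : ∀ u, |Φ u| ≤ C0 * n1 u) : Φ 0 = 0 := by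
  have h := hPhi 0
  rw [n1_zero_straighten, mul_zero] at h
  exact abs_nonpos_iff.1 h

theorem phi_lip_straighten (hsub : ∀ u v, Φ (u + v) ≤ Φ u + Φ v) (hPhi : ∀ u, |Φ u| ≤ C0 * n1 u) (u v : ℝ × ℝ) :
    Φ u - Φ v ≤ C0 * n1 (u - v) := by
  have h1 := hsub v (u - v)
  have h2 := (abs_le.1 (hPhi (u - v))).2
  rw [add_sub_cancel] at h1
  linarith

theorem phi_lip_abs_straighten (hsub : ∀ u v, Φ (u + v) ≤ Φ u + Φ v) (hPhi : ∀ u, |Φ u| ≤ C0 * n1 u)
    (u v : ℝ × ℝ) : |Φ u - Φ v| ≤ C0 * n1 (u - v) := by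
  rw [abs_le]
  constructor
  · have h := phi_lip_straighten hsub hPhi v u
    rw [← n1_neg_straighten, neg_sub] at h
    linarith
  · exact phi_lip_straighten hsub hPhi u v

theorem phi_cont_straighten (hsub : ∀ u v, Φ (u + v) ≤ Φ u + Φ v) (hPhi : ∀ u, |Φ u| ≤ C0 * n1 u) :
    Continuous Φ := by
  rw [continuous_iff_continuousAt]
  intro v
  rw [ContinuousAt, tendsto_iff_dist_tendsto_zero]
  have h0 : Tendsto (fun u => C0 * n1 (u - v)) (𝓝 v) (𝓝 0) := by
    have hc : Continuous (fun u => C0 * n1 (u - v)) :=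
      continuous_const.mul (n1_continuous_straighten.comp (continuous_id.sub continuous_const))
    have := hc.tendsto v
    simpa [n1_zero_straighten] using this
  refine squeeze_zero (fun u => dist_nonneg) (fun u => ?_) h0
  rw [Real.dist_eq]
  exact phi_lip_abs_straighten hsub hPhi u v

/-- superadditivity of the defect -/
theorem defect_super_straighten (hsub : ∀ u v, Φ (u + v) ≤ Φ u + Φ v) (κ x y z : ℝ) (p q r : ℝ × ℝ) :
    (κ * (y - x) - Φ (q - p)) + (κ * (z - y) - Φ (r - q)) ≤ κ * (z - x) - Φ (r - p) := by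
  have h := hsub (q - p) (r - q)
  have e : (q - p) + (r - q) = r - p := by abel
  rw [e] at h
  linarith

end Phi

theorem straighten_window_straighten {L lam κ B C0 : ℝ} (hlam : 0 ≤ lam) (Φ : ℝ × ℝ → ℝ)
    (hsub : ∀ u v, Φ (u + v) ≤ Φ u + Φ v)
    (hC0 : 0 ≤ C0) (hPhi : ∀ u, |Φ u| ≤ C0 * n1 u)
    (g : ℕ → ℝ × ℝ → ℝ × ℝ) (hg : ∀ k : ℕ, Good L lam (RwI 0 k) (g k))
    (hline : ∀ k : ℕ, ∀ c ∈ K, 0 ≤ c → c ≤ 1 → ∀ x x' : ℝ, 0 ≤ x → x ≤ x' → x' ≤ k →
      Φ (g k (x', c) - g k (x, c)) ≤ κ * (x' - x))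
    (hext : ∀ k : ℕ, κ * k - B ≤ Φ (g k ((k : ℝ), 0) - g k (0, 0)))
    (M : ℕ) (c : ℕ → ℝ) (hc : ∀ r, c r ∈ K ∧ 0 ≤ c r ∧ c r ≤ 1) :
    ∃ k : ℕ, ∃ a : ℤ, (M : ℤ) ≤ a ∧ a + M ≤ k ∧ ∀ r ≤ M,
      κ * (((a : ℝ) + M) - ((a : ℝ) - M)) -
        Φ (g k ((a : ℝ) + M, c r) - g k ((a : ℝ) - M, c r)) ≤ 1 / ((M : ℝ) + 1) := by
  set B' : ℝ := B + 2 * C0 * lam with hB'
  obtain ⟨q, hq⟩ := exists_nat_ge (max 1 (((M : ℝ) + 1) ^ 2 * B'))
  have hq1 : (1 : ℝ) ≤ q := le_trans (le_max_left _ _) hq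
  have hq2 : ((M : ℝ) + 1) ^ 2 * B' ≤ q := le_trans (le_max_right _ _) hq
  have hM0 : (0 : ℝ) < (M : ℝ) + 1 := by positivity
  set k : ℕ := 2 * M * q with hk
  have hkR : (k : ℝ) = 2 * M * q := by rw [hk]; push_cast; ring
  -- defect bound on the whole line
  have hwhole : ∀ r, κ * ((k : ℝ) - 0) - Φ (g k ((k : ℝ), c r) - g k (0, c r)) ≤ B' := by
    intro r
    obtain ⟨hcK, hc0, hc1⟩ := hc r
    have hsegk : n1 (g k ((k : ℝ), c r) - g k ((k : ℝ), 0)) ≤ lam * (c r - 0) := by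
      apply (hg k).speedV 0 (c r) (k : ℝ) hc0
      intro t ht0 ht1
      refine ⟨?_, by positivity, le_rfl, ht0, le_trans ht1 hc1⟩
      have := X_of_K1 (c := (k : ℝ)) t (by simpa using K_int (k : ℤ))
      exact this
    have hseg0 : n1 (g k (0, c r) - g k (0, 0)) ≤ lam * (c r - 0) := by
      apply (hg k).speedV 0 (c r) 0 hc0
      intro t ht0 ht1
      refine ⟨?_, le_rfl, by positivity, ht0, le_trans ht1 hc1⟩
      exact X_of_K1 t K_zero
    have h1 := phi_lip_straighten hsub hPhi (g k ((k : ℝ), 0) - g k (0, 0)) (g k ((k : ℝ), c r) - g k (0, c r))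
    have h2 : n1 ((g k ((k : ℝ), 0) - g k (0, 0)) - (g k ((k : ℝ), c r) - g k (0, c r))) ≤
        2 * lam := by
      have e : (g k ((k : ℝ), 0) - g k (0, 0)) - (g k ((k : ℝ), c r) - g k (0, c r)) =
          -(g k ((k : ℝ), c r) - g k ((k : ℝ), 0)) + (g k (0, c r) - g k (0, 0)) := by abel
      rw [e]
      refine le_trans (n1_add_le_straighten _ _) ?_
      rw [n1_neg_straighten]
      have : lam * (c r - 0) ≤ lam * 1 := by
        apply mul_le_mul_of_nonneg_left _ hlam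
        linarith
      linarith
    have h3 : C0 * n1 ((g k ((k : ℝ), 0) - g k (0, 0)) - (g k ((k : ℝ), c r) - g k (0, c r))) ≤
        C0 * (2 * lam) := mul_le_mul_of_nonneg_left h2 hC0
    have h4 := hext k
    rw [hB']
    linarith
  -- block sums
  have hblocks : ∀ r, ∀ n : ℕ,
      ∑ i ∈ Finset.range n, (κ * ((2 * M * ((i : ℝ) + 1)) - (2 * M * (i : ℝ))) -
        Φ (g k (2 * M * ((i : ℝ) + 1), c r) - g k (2 * M * (i : ℝ), c r))) ≤
      κ * (2 * M * (n : ℝ) - 0) - Φ (g k (2 * M * (n : ℝ), c r) - g k (0, c r)) := by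
    intro r n
    induction n with
    | zero => simp [phi_zero_straighten hPhi]
    | succ n ih =>
      rw [Finset.sum_range_succ]
      have := defect_super_straighten hsub κ 0 (2 * M * (n : ℝ)) (2 * M * ((n : ℝ) + 1)) (g k (0, c r))
        (g k (2 * M * (n : ℝ), c r)) (g k (2 * M * ((n : ℝ) + 1), c r))
      push_cast
      linarith
  have htotal : ∑ i ∈ Finset.range q, ∑ r ∈ Finset.range (M + 1),
      (κ * ((2 * M * ((i : ℝ) + 1)) - (2 * M * (i : ℝ))) -
        Φ (g k (2 * M * ((i : ℝ) + 1), c r) - g k (2 * M * (i : ℝ), c r))) ≤ (M + 1) * B' := by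
    rw [Finset.sum_comm]
    calc _ ≤ ∑ r ∈ Finset.range (M + 1), B' := by
          apply Finset.sum_le_sum
          intro r _
          refine le_trans (hblocks r q) ?_
          have := hwhole r
          rw [hkR] at this
          exact this
      _ = (M + 1) * B' := by simp
  -- some block is small
  have hex : ∃ i < q, ∑ r ∈ Finset.range (M + 1),
      (κ * ((2 * M * ((i : ℝ) + 1)) - (2 * M * (i : ℝ))) -
        Φ (g k (2 * M * ((i : ℝ) + 1), c r) - g k (2 * M * (i : ℝ), c r))) ≤ 1 / ((M : ℝ) + 1) := by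
    by_contra hcon
    push Not at hcon
    have hqpos : 0 < q := by
      have : (0 : ℝ) < q := by linarith
      exact_mod_cast this
    have hlt : ∑ i ∈ Finset.range q, (1 / ((M : ℝ) + 1)) < ∑ i ∈ Finset.range q,
        ∑ r ∈ Finset.range (M + 1),
      (κ * ((2 * M * ((i : ℝ) + 1)) - (2 * M * (i : ℝ))) -
        Φ (g k (2 * M * ((i : ℝ) + 1), c r) - g k (2 * M * (i : ℝ), c r))) := by
      apply Finset.sum_lt_sum_of_nonempty
      · exact Finset.nonempty_range_iff.2 hqpos.ne'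
      · intro i hi
        exact hcon i (Finset.mem_range.1 hi)
    have h2 : ∑ i ∈ Finset.range q, (1 / ((M : ℝ) + 1)) = q / ((M : ℝ) + 1) := by
      simp [div_eq_mul_inv]
    rw [h2] at hlt
    have h3 : (q : ℝ) / ((M : ℝ) + 1) < (M + 1) * B' := lt_of_lt_of_le hlt htotal
    rw [div_lt_iff₀ hM0] at h3
    nlinarith
  obtain ⟨i, hiq, hi⟩ := hex
  refine ⟨k, 2 * M * i + M, ?_, ?_, ?_⟩
  · have : (0 : ℤ) ≤ 2 * M * i := by positivity
    linarith
  · have h1 : (i : ℤ) + 1 ≤ q := by exact_mod_cast hiq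
    have h2 : (2 * (M : ℤ)) * ((i : ℤ) + 1) ≤ (2 * (M : ℤ)) * q :=
      mul_le_mul_of_nonneg_left h1 (by positivity)
    rw [hk]
    push_cast
    linarith
  · intro r hr
    have hkq : (2 * M * ((i : ℝ) + 1) : ℝ) ≤ k := by
      rw [hkR]
      have h1 : (i : ℝ) + 1 ≤ q := by exact_mod_cast hiq
      exact mul_le_mul_of_nonneg_left h1 (by positivity)
    have hnn : ∀ s ∈ Finset.range (M + 1), 0 ≤ (κ * ((2 * M * ((i : ℝ) + 1)) - (2 * M * (i : ℝ))) -
        Φ (g k (2 * M * ((i : ℝ) + 1), c s) - g k (2 * M * (i : ℝ), c s))) := by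
      intro s _
      obtain ⟨hcK, hc0, hc1⟩ := hc s
      have := hline k (c s) hcK hc0 hc1 (2 * M * (i : ℝ)) (2 * M * ((i : ℝ) + 1)) (by positivity)
        (by
          have : (0 : ℝ) ≤ 2 * M := by positivity
          nlinarith) hkq
      linarith
    have h1 := Finset.single_le_sum hnn (Finset.mem_range.2 (Nat.lt_succ_of_le hr))
    have h2 := le_trans h1 hi
    have e1 : (((2 * M * i + M : ℤ) : ℝ) + M) = 2 * M * ((i : ℝ) + 1) := by push_cast; ring
    have e2 : (((2 * M * i + M : ℤ) : ℝ) - M) = 2 * M * (i : ℝ) := by push_cast; ring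
    rw [e1, e2]
    exact h2

theorem straighten {L lam κ B C0 : ℝ} (hlam : 0 ≤ lam) (Φ : ℝ × ℝ → ℝ) (hsub : ∀ u v, Φ (u + v) ≤ Φ u + Φ v)
    (hC0 : 0 ≤ C0) (hPhi : ∀ u, |Φ u| ≤ C0 * n1 u)
    (g : ℕ → ℝ × ℝ → ℝ × ℝ) (hg : ∀ k : ℕ, Good L lam (RwI 0 k) (g k))
    (hline : ∀ k : ℕ, ∀ c ∈ K, 0 ≤ c → c ≤ 1 → ∀ x x' : ℝ, 0 ≤ x → x ≤ x' → x' ≤ k →
      Φ (g k (x', c) - g k (x, c)) ≤ κ * (x' - x))
    (hext : ∀ k : ℕ, κ * k - B ≤ Φ (g k ((k : ℝ), 0) - g k (0, 0))) :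
    ∃ (G : ℝ × ℝ → ℝ × ℝ) (idx : ℕ → ℕ) (a : ℕ → ℤ) (w : ℕ → ℤ × ℤ), Good L lam Rw G ∧
      (∀ M : ℕ, (M : ℤ) ≤ a M ∧ a M + M ≤ idx M) ∧
      (∀ p ∈ Rw, Tendsto (fun M => g (idx M) (p + ((a M : ℝ), 0)) - (((w M).1 : ℝ), ((w M).2 : ℝ)))
        (hyperfilter ℕ : Filter ℕ) (𝓝 (G p))) ∧
      ∀ c ∈ K, 0 ≤ c → c ≤ 1 → ∀ x x' : ℝ, x ≤ x' → Φ (G (x', c) - G (x, c)) = κ * (x' - x) := by
  -- the dense sequence
  have hne : Nonempty {c : ℝ // c ∈ K ∧ 0 ≤ c ∧ c ≤ 1} := ⟨⟨0, K_zero, le_rfl, zero_le_one⟩⟩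
  set cs : ℕ → {c : ℝ // c ∈ K ∧ 0 ≤ c ∧ c ≤ 1} :=
    TopologicalSpace.denseSeq {c : ℝ // c ∈ K ∧ 0 ≤ c ∧ c ≤ 1} with hcs
  have hdense : DenseRange cs := TopologicalSpace.denseRange_denseSeq _
  have hwin := fun M : ℕ => straighten_window_straighten hlam Φ hsub hC0 hPhi g hg hline hext M
    (fun r => (cs r : ℝ)) (fun r => (cs r).2)
  choose idx a ha1 ha2 hdef using hwin
  set w : ℕ → ℤ × ℤ := fun M => (⌊(g (idx M) ((a M : ℝ), 0)).1⌋, ⌊(g (idx M) ((a M : ℝ), 0)).2⌋)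
    with hw
  set GM : ℕ → ℝ × ℝ → ℝ × ℝ := fun M p =>
    g (idx M) (p + ((a M : ℝ), 0)) - (((w M).1 : ℝ), ((w M).2 : ℝ)) with hGM
  have ha1R : ∀ M : ℕ, (M : ℝ) ≤ a M := fun M => by exact_mod_cast ha1 M
  have ha2R : ∀ M : ℕ, (a M : ℝ) + M ≤ idx M := fun M => by exact_mod_cast ha2 M
  have hgood : ∀ M : ℕ, Good L lam (RwI (-(M : ℝ)) M) (GM M) := by
    intro M
    refine Good.scale (hg (idx M)) 0 (a M : ℝ) 0 (w M).1 (w M).2 ?_ ?_
    · intro q hq
      obtain ⟨hqX, h1, h2, h3, h4⟩ := hq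
      have h5 := ha1R M
      have h6 := ha2R M
      refine ⟨?_, ?_, ?_, ?_, ?_⟩
      · have := (X_add_int q (a M) 0).2 hqX
        have e : (((a M : ℝ) + q.1) / 3 ^ 0, (0 + q.2) / 3 ^ 0) = q + ((a M : ℝ), ((0 : ℤ) : ℝ)) := by
          ext
          · simp [add_comm]
          · simp
        rw [e]
        exact this
      · simp only [pow_zero, div_one]; linarith
      · simp only [pow_zero, div_one]; linarith
      · simp only [pow_zero, div_one]; linarith
      · simp only [pow_zero, div_one]; linarith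
    · intro q _
      have e : (((a M : ℝ) + q.1) / 3 ^ 0, (0 + q.2) / 3 ^ 0) = q + ((a M : ℝ), (0 : ℝ)) := by
        ext
        · simp [add_comm]
        · simp
      rw [e]
      simp [hGM]
  have hbound : ∀ M, ‖GM M (0, 0)‖ ≤ 1 := by
    intro M
    have e : ((0, 0) : ℝ × ℝ) + ((a M : ℝ), 0) = ((a M : ℝ), 0) := by simp
    have hv : GM M (0, 0) = (Int.fract (g (idx M) ((a M : ℝ), 0)).1,
        Int.fract (g (idx M) ((a M : ℝ), 0)).2) := by
      simp only [hGM, hw]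
      rw [e]
      ext
      · simp
      · simp
    rw [hv, Prod.norm_mk]
    apply max_le
    · rw [Real.norm_eq_abs, abs_of_nonneg (Int.fract_nonneg _)]
      exact (Int.fract_lt_one _).le
    · rw [Real.norm_eq_abs, abs_of_nonneg (Int.fract_nonneg _)]
      exact (Int.fract_lt_one _).le
  obtain ⟨G, hG, hlim⟩ := ultra GM hgood hbound
  have hΦc : Continuous Φ := phi_cont_straighten hsub hPhi
  refine ⟨G, idx, a, w, hG, fun M => ⟨ha1 M, ha2 M⟩, hlim, ?_⟩
  have hmemRw : ∀ c ∈ K, 0 ≤ c → c ≤ 1 → ∀ x : ℝ, ((x, c) : ℝ × ℝ) ∈ Rw := by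
    intro c hc h0 h1 x
    exact ⟨X_of_K2 x hc, h0, h1⟩
  -- the dense lines
  have hdl : ∀ r : ℕ, ∀ x x' : ℝ, x ≤ x' →
      Φ (G (x', (cs r : ℝ)) - G (x, (cs r : ℝ))) = κ * (x' - x) := by
    intro r x x' hxx
    obtain ⟨hcK, hc0, hc1⟩ := (cs r).2
    set c : ℝ := (cs r : ℝ) with hcdef
    have hT : Tendsto (fun M => Φ (GM M (x', c) - GM M (x, c))) (hyperfilter ℕ : Filter ℕ)
        (𝓝 (Φ (G (x', c) - G (x, c)))) := by
      apply (hΦc.tendsto _).comp
      exact (hlim _ (hmemRw c hcK hc0 hc1 x')).sub (hlim _ (hmemRw c hcK hc0 hc1 x))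
    have hdiff : ∀ M (y y' : ℝ), GM M (y', c) - GM M (y, c) =
        g (idx M) (y' + a M, c) - g (idx M) (y + a M, c) := by
      intro M y y'
      simp only [hGM, Prod.mk_add_mk, add_zero]
      abel
    obtain ⟨M0, hM0⟩ := exists_nat_ge (max (r : ℝ) (max |x| |x'|))
    have hev : ∀ M ≥ M0, κ * (x' - x) - 1 / ((M : ℝ) + 1) ≤ Φ (GM M (x', c) - GM M (x, c)) ∧
        Φ (GM M (x', c) - GM M (x, c)) ≤ κ * (x' - x) := by
      intro M hM
      have hMM : (M0 : ℝ) ≤ M := by exact_mod_cast hM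
      have hr : (r : ℝ) ≤ M := le_trans (le_trans (le_max_left _ _) hM0) hMM
      have hx : |x| ≤ M := le_trans (le_trans (le_trans (le_max_left _ _) (le_max_right _ _)) hM0) hMM
      have hx' : |x'| ≤ M := le_trans (le_trans (le_trans (le_max_right _ _) (le_max_right _ _)) hM0) hMM
      have hrn : r ≤ M := by exact_mod_cast hr
      have hxa := abs_le.1 hx
      have hxa' := abs_le.1 hx'
      have h5 := ha1R M
      have h6 := ha2R M
      have hl := hline (idx M) c hcK hc0 hc1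
      have l1 := hl (-(M : ℝ) + a M) (x + a M) (by linarith) (by linarith) (by linarith)
      have l2 := hl (x + a M) (x' + a M) (by linarith) (by linarith) (by linarith)
      have l3 := hl (x' + a M) (M + a M) (by linarith) (by linarith) (by linarith)
      have hd := hdef M r hrn
      have e1 : (a M : ℝ) + M = M + a M := by ring
      have e2 : (a M : ℝ) - M = -M + a M := by ring
      rw [e1, e2] at hd
      have s1 := defect_super_straighten hsub κ (-(M : ℝ) + a M) (x + a M) (x' + a M)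
        (g (idx M) (-(M : ℝ) + a M, c)) (g (idx M) (x + a M, c)) (g (idx M) (x' + a M, c))
      have s2 := defect_super_straighten hsub κ (-(M : ℝ) + a M) (x' + a M) (M + a M)
        (g (idx M) (-(M : ℝ) + a M, c)) (g (idx M) (x' + a M, c)) (g (idx M) (M + a M, c))
      rw [hdiff]
      constructor
      · have hd' : κ * (M + a M - (-M + a M)) -
            Φ (g (idx M) (M + a M, c) - g (idx M) (-M + a M, c)) ≤ 1 / ((M : ℝ) + 1) := hd
        have e3 : κ * (x' + a M - (x + a M)) = κ * (x' - x) := by ring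
        rw [e3] at s1 l2
        linarith
      · have e3 : κ * (x' + a M - (x + a M)) = κ * (x' - x) := by ring
        rw [e3] at l2
        exact l2
    have hyp : (hyperfilter ℕ : Filter ℕ) ≤ atTop := Nat.hyperfilter_le_atTop
    have hev' : ∀ᶠ M in (hyperfilter ℕ : Filter ℕ), M0 ≤ M := hyp (eventually_ge_atTop M0)
    apply le_antisymm
    · apply le_of_tendsto hT
      filter_upwards [hev'] with M hM
      exact (hev M hM).2
    · have hT2 : Tendsto (fun M : ℕ => κ * (x' - x) - 1 / ((M : ℝ) + 1)) (hyperfilter ℕ : Filter ℕ)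
          (𝓝 (κ * (x' - x) - 0)) := by
        apply Tendsto.sub tendsto_const_nhds
        exact tendsto_one_div_add_atTop_nhds_zero_nat.mono_left hyp
      rw [sub_zero] at hT2
      apply le_of_tendsto_of_tendsto hT2 hT
      filter_upwards [hev'] with M hM
      exact (hev M hM).1
  intro c hcK hc0 hc1 x x' hxx
  have hGcont : ∀ y : ℝ, Continuous (fun s : {c : ℝ // c ∈ K ∧ 0 ≤ c ∧ c ≤ 1} => G (y, (s : ℝ))) := by
    intro y
    apply (Good.cont hG).comp_continuous (by fun_prop)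
    intro s
    exact hmemRw _ s.2.1 s.2.2.1 s.2.2.2 y
  have heq := hdense.equalizer
    (g := fun s : {c : ℝ // c ∈ K ∧ 0 ≤ c ∧ c ≤ 1} => Φ (G (x', (s : ℝ)) - G (x, (s : ℝ))))
    (h := fun _ => κ * (x' - x)) (hΦc.comp ((hGcont x').sub (hGcont x))) continuous_const
    (by
      funext r
      exact hdl r x x' hxx)
  exact congrFun heq ⟨c, hcK, hc0, hc1⟩

end

end Pool.Agent.Helper746.Car
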