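import Mathlib
import Pool.Agent.Helper746.CarDefs
import Pool.Agent.Helper746.CarBasA
import Pool.Agent.Helper746.CarBasB
import Pool.Agent.Helper746.CarBasR
import Pool.Agent.Helper746.CarSq
import Pool.Agent.Helper746.CarTrans
import Pool.Agent.Helper746.CarC1
import Pool.Agent.Helper746.CarStraighten

set_option autoImplicit false

namespace Pool.Agent.Helper746.Car

open Filter Topology

noncomputable section

theorem cb_block_cornerB (f : ℝ → ℝ) (κ x x' : ℝ) (n k : ℕ) (hk : 1 ≤ k)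
    (h0 : 0 ≤ x) (hx : x < x') (h1 : x' ≤ 1)
    (hlip : ∀ s t, 0 ≤ s → s ≤ t → t ≤ 1 → f s - f t ≤ κ * (t - s))
    (hl : 4 * ((k : ℝ) + 1) ≤ 3 ^ n * (x' - x))
    (hd : (κ - 1 / (2 * (k : ℝ) + 2)) * (x' - x) ≤ f x - f x') :
    ∃ i : ℤ, 0 ≤ i ∧ (i : ℝ) + k ≤ 3 ^ n ∧
      κ * k - 1 ≤ 3 ^ n * (f ((i : ℝ) / 3 ^ n) - f (((i : ℝ) + k) / 3 ^ n)) := by
  by_contra hcon
  push Not at hcon
  obtain ⟨N, hN⟩ : ∃ N : ℝ, N = 3 ^ n := ⟨_, rfl⟩
  rw [← hN] at hcon hl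
  have hNpos : 0 < N := by rw [hN]; positivity
  have hkR : (1 : ℝ) ≤ k := by exact_mod_cast hk
  obtain ⟨i0, hi0⟩ : ∃ i0 : ℤ, i0 = ⌈N * x⌉ := ⟨_, rfl⟩
  have hi0a : N * x ≤ i0 := by rw [hi0]; exact Int.le_ceil _
  have hi0b : (i0 : ℝ) < N * x + 1 := by rw [hi0]; exact Int.ceil_lt_add_one _
  have hi0c : 0 ≤ i0 := by rw [hi0]; exact Int.ceil_nonneg (by positivity)
  have hi0R : (0 : ℝ) ≤ i0 := by exact_mod_cast hi0c
  have hstep : ∀ m : ℕ, (i0 : ℝ) + m * k ≤ N * x' →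
      N * (f ((i0 : ℝ) / N) - f (((i0 : ℝ) + m * k) / N)) ≤ m * (κ * k - 1) := by
    intro m
    induction m with
    | zero => intro _; simp
    | succ m ih =>
      intro hm
      push_cast at hm ⊢
      have hm' : (i0 : ℝ) + m * k ≤ N * x' := by nlinarith
      have e1 := ih hm'
      have hmk : (0 : ℝ) ≤ m * k := by positivity
      have e2 := hcon (i0 + m * k) (by positivity) (by push_cast; nlinarith)
      push_cast at e2
      have e3 : (i0 : ℝ) + m * k + k = i0 + (m + 1) * k := by ring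
      rw [e3] at e2
      nlinarith
  obtain ⟨q, hq⟩ : ∃ q : ℕ, q = ⌊(N * x' - i0) / k⌋₊ := ⟨_, rfl⟩
  have hnn : 0 ≤ (N * x' - i0) / k := by
    apply div_nonneg _ (by positivity)
    nlinarith
  have hq1 : (q : ℝ) * k ≤ N * x' - i0 := by
    have := Nat.floor_le hnn
    rw [← hq, le_div_iff₀ (by positivity)] at this
    exact this
  have hq2 : N * x' - i0 < (q + 1) * k := by
    have := Nat.lt_floor_add_one ((N * x' - i0) / k)
    rw [← hq, div_lt_iff₀ (by positivity)] at this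
    exact this
  have s1 := hstep q (by linarith)
  have s0 : f x - f ((i0 : ℝ) / N) ≤ κ * ((i0 : ℝ) / N - x) := by
    apply hlip x _ h0
    · rw [le_div_iff₀ hNpos]; linarith
    · rw [div_le_one hNpos]; nlinarith [mul_nonneg (Nat.cast_nonneg (α := ℝ) q) (by positivity : (0:ℝ) ≤ k)]
  have s2 : f (((i0 : ℝ) + q * k) / N) - f x' ≤ κ * (x' - ((i0 : ℝ) + q * k) / N) := by
    apply hlip _ _ (by positivity) _ h1
    rw [div_le_iff₀ hNpos]; linarith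
  have s0' : N * (f x - f ((i0 : ℝ) / N)) ≤ κ * (i0 - N * x) := by
    have := mul_le_mul_of_nonneg_left s0 hNpos.le
    have e : N * (κ * ((i0 : ℝ) / N - x)) = κ * (i0 - N * x) := by field_simp
    linarith
  have s2' : N * (f (((i0 : ℝ) + q * k) / N) - f x') ≤ κ * (N * x' - (i0 + q * k)) := by
    have := mul_le_mul_of_nonneg_left s2 hNpos.le
    have e : N * (κ * (x' - ((i0 : ℝ) + q * k) / N)) = κ * (N * x' - (i0 + q * k)) := by field_simp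
    linarith
  have tot : N * (f x - f x') ≤ κ * (N * (x' - x)) - q := by
    have : N * (f x - f x') = N * (f x - f ((i0 : ℝ) / N)) +
      N * (f ((i0 : ℝ) / N) - f (((i0 : ℝ) + q * k) / N)) + N * (f (((i0 : ℝ) + q * k) / N) - f x') := by
      ring
    rw [this]
    nlinarith
  have low := mul_le_mul_of_nonneg_left hd hNpos.le
  have hqe : (q : ℝ) ≤ 1 / (2 * (k : ℝ) + 2) * (N * (x' - x)) := by nlinarith
  have hqe2 : (q : ℝ) * (2 * k + 2) ≤ N * (x' - x) := by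
    have hp : (0 : ℝ) < 2 * k + 2 := by positivity
    have := mul_le_mul_of_nonneg_right hqe hp.le
    have e : 1 / (2 * (k : ℝ) + 2) * (N * (x' - x)) * (2 * k + 2) = N * (x' - x) := by field_simp
    linarith
  have hq0 : (0 : ℝ) ≤ q := Nat.cast_nonneg q
  nlinarith


structure CW (L lam κ : ℝ) (k : ℕ) (h : ℝ × ℝ → ℝ × ℝ) : Prop where
  good : Good L lam (RwI 0 k) h
  line : ∀ c ∈ K, 0 ≤ c → c ≤ 1 → ∀ x x' : ℝ, 0 ≤ x → x ≤ x' → x' ≤ k →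
    (h (x, c)).2 - (h (x', c)).2 ≤ κ * (x' - x)
  ext : κ * k - 2 ≤ (h (0, 0)).2 - (h ((k : ℝ), 0)).2
  diag : ∀ c ∈ K, 0 ≤ c → c ≤ 1 → ∀ x x' : ℝ, 0 ≤ x → x ≤ x' → x' ≤ k →
    ((h (x', c)).1 - (h (x', c)).2) - ((h (x, c)).1 - (h (x, c)).2) = lam * (x' - x)
  ord : ∀ c ∈ K, ∀ c' ∈ K, 0 ≤ c → c < c' → c' ≤ 1 → ∀ x x' : ℝ, 0 ≤ x → x' ≤ k →
    x' - x = c' - c → (h (x, c)).2 ≤ (h (x', c')).2

theorem cb_window_cornerB {L lam κ : ℝ} (h0 : 0 < lam) (h1 : lam ≤ 1 / 3) {g : ℝ × ℝ → ℝ × ℝ}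
    (hg : Good L lam Sq g)
    (hdiag : ∀ c ∈ K, 0 ≤ c → c ≤ 1 → ∀ x x' : ℝ, 0 ≤ x → x ≤ x' → x' ≤ 1 →
      ((g (x', c)).1 - (g (x', c)).2) - ((g (x, c)).1 - (g (x, c)).2) = lam * (x' - x))
    (hline : ∀ c ∈ K, 0 ≤ c → c ≤ 1 → ∀ x x' : ℝ, 0 ≤ x → x ≤ x' → x' ≤ 1 →
      (g (x, c)).2 - (g (x', c)).2 ≤ κ * (x' - x))
    (hord : ∀ c ∈ K, ∀ c' ∈ K, 0 ≤ c → c < c' → c' ≤ 1 → ∀ x x' : ℝ, 0 ≤ x → x' ≤ 1 → x' - x = c' - c →
      (g (x, c)).2 < (g (x', c')).2)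
    (hsup : ∀ e > 0, ∃ c ∈ K, 0 ≤ c ∧ c ≤ 1 ∧ ∃ x x' : ℝ, 0 ≤ x ∧ x < x' ∧ x' ≤ 1 ∧
      (κ - e) * (x' - x) ≤ (g (x, c)).2 - (g (x', c)).2) (k : ℕ) :
    ∃ h, CW L lam κ k h := by
  rcases Nat.eq_zero_or_pos k with rfl | hk
  · refine ⟨g, ?_, ?_, ?_, ?_, ?_⟩
    · apply hg.restrict
      rintro p ⟨p1, p2, p3, p4, p5⟩
      push_cast at p3
      exact ⟨p1, p2, by linarith, p4, p5⟩
    · intro c _ _ _ x x' a1 a2 a3
      push_cast at a3
      have e1 : x = 0 := by linarith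
      have e2 : x' = 0 := by linarith
      rw [e1, e2]; simp
    · simp
    · intro c _ _ _ x x' a1 a2 a3
      push_cast at a3
      have e1 : x = 0 := by linarith
      have e2 : x' = 0 := by linarith
      rw [e1, e2]; simp
    · intro c _ c' _ _ _ _ x x' a1 a2 a3
      push_cast at a2
      exfalso; linarith
  have hkR : (1 : ℝ) ≤ k := by exact_mod_cast hk
  obtain ⟨c, hcK, hc0, hc1, x, x', hx0, hxx, hx1, hd⟩ := hsup (1 / (2 * (k : ℝ) + 2)) (by positivity)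
  obtain ⟨n, hn⟩ : ∃ n : ℕ, 4 * ((k : ℝ) + 1) ≤ 3 ^ n * (x' - x) := by
    obtain ⟨n, hn⟩ := pow_unbounded_of_one_lt (4 * ((k : ℝ) + 1) / (x' - x)) (by norm_num : (1 : ℝ) < 3)
    refine ⟨n, ?_⟩
    rw [div_lt_iff₀ (by linarith)] at hn
    exact hn.le
  obtain ⟨i, hi0, hi1, hi2⟩ := cb_block_cornerB (fun t => (g (t, c)).2) κ x x' n k hk hx0 hxx hx1
    (fun s t a1 a2 a3 => hline c hcK hc0 hc1 s t a1 a2 a3) hn hd
  obtain ⟨j, hj0, hj1, hj2, hj3, hrow⟩ := RowK_exists hcK hc0 hc1 n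
  have hN : (0 : ℝ) < 3 ^ n := by positivity
  have hi0R : (0 : ℝ) ≤ i := by exact_mod_cast hi0
  have hj0R : (0 : ℝ) ≤ j := by exact_mod_cast hj0
  have hj1R : (j : ℝ) + 1 ≤ 3 ^ n := by exact_mod_cast hj1
  have hmem : ∀ q ∈ RwI 0 k, cp n i j q ∈ Sq := by
    rintro q ⟨q1, q2, q3, q4, q5⟩
    refine ⟨RowK_X hrow i q1 q4 q5, ?_, ?_, ?_, ?_⟩
    · show 0 ≤ ((i : ℝ) + q.1) / 3 ^ n
      positivity
    · show ((i : ℝ) + q.1) / 3 ^ n ≤ 1
      rw [div_le_one hN]; linarith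
    · show 0 ≤ ((j : ℝ) + q.2) / 3 ^ n
      positivity
    · show ((j : ℝ) + q.2) / 3 ^ n ≤ 1
      rw [div_le_one hN]; linarith
  have hK' : ∀ d ∈ K, 0 ≤ d → d ≤ 1 → ((j : ℝ) + d) / 3 ^ n ∈ K ∧ 0 ≤ ((j : ℝ) + d) / 3 ^ n ∧
      ((j : ℝ) + d) / 3 ^ n ≤ 1 := by
    intro d hd d0 d1
    refine ⟨RowK_K hrow hd d0 d1, by positivity, ?_⟩
    rw [div_le_one hN]; linarith
  have hX' : ∀ t : ℝ, 0 ≤ t → t ≤ k → 0 ≤ ((i : ℝ) + t) / 3 ^ n ∧ ((i : ℝ) + t) / 3 ^ n ≤ 1 := by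
    intro t t0 t1
    refine ⟨by positivity, ?_⟩
    rw [div_le_one hN]; linarith
  have hgood : Good L lam (RwI 0 k) (fun q => (3 : ℝ) ^ n • g (cp n i j q)) := by
    apply hg.scale n i j 0 0 (fun q hq => hmem q hq)
    intro q _
    ext <;> simp [cp]
  have heval : ∀ t d : ℝ, cp n i j (t, d) = (((i : ℝ) + t) / 3 ^ n, ((j : ℝ) + d) / 3 ^ n) :=
    fun t d => rfl
  refine ⟨fun q => (3 : ℝ) ^ n • g (cp n i j q), hgood, ?_, ?_, ?_, ?_⟩
  · intro d hd d0 d1 t t' t0 tt t1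
    obtain ⟨b1, b2, b3⟩ := hK' d hd d0 d1
    obtain ⟨b4, b5⟩ := hX' t t0 (by linarith)
    obtain ⟨b6, b7⟩ := hX' t' (by linarith) t1
    have := hline _ b1 b2 b3 _ _ b4 (by gcongr : ((i : ℝ) + t) / 3 ^ n ≤ ((i : ℝ) + t') / 3 ^ n) b7
    have := mul_le_mul_of_nonneg_left this hN.le
    have e : 3 ^ n * (κ * (((i : ℝ) + t') / 3 ^ n - ((i : ℝ) + t) / 3 ^ n)) = κ * (t' - t) := by
      field_simp; ring
    simp only [heval, Prod.smul_snd, smul_eq_mul]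
    linarith
  · -- bottom line
    obtain ⟨y0, hy0⟩ : ∃ y0 : ℝ, y0 = 3 ^ n * c - j := ⟨_, rfl⟩
    have y0a : 0 ≤ y0 := by linarith
    have y0b : y0 ≤ 1 := by linarith
    have ey : ((j : ℝ) + y0) / 3 ^ n = c := by rw [hy0]; field_simp; ring
    have v1 := hgood.speedV 0 y0 0 y0a (by
      intro t t0 t1
      exact ⟨X_of_K1 _ K_zero, le_rfl, by show (0 : ℝ) ≤ k; positivity, t0, by show t ≤ 1; linarith⟩)
    have v2 := hgood.speedV 0 y0 (k : ℝ) y0a (by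
      intro t t0 t1
      exact ⟨X_of_K1 _ (by exact_mod_cast K_int (k : ℤ)), by show (0 : ℝ) ≤ k; positivity, le_rfl, t0,
        by show t ≤ 1; linarith⟩)
    simp only [heval, ey, n1, Prod.smul_snd, Prod.smul_fst, Prod.fst_sub, Prod.snd_sub, smul_eq_mul] at v1 v2 ⊢
    simp only [add_zero] at v1 v2 ⊢
    have w1 := abs_nonneg (3 ^ n * (g ((i : ℝ) / 3 ^ n, c)).1 - 3 ^ n * (g ((i : ℝ) / 3 ^ n, (j : ℝ) / 3 ^ n)).1)
    have w2 := abs_nonneg (3 ^ n * (g (((i : ℝ) + k) / 3 ^ n, c)).1 - 3 ^ n * (g (((i : ℝ) + k) / 3 ^ n, (j : ℝ) / 3 ^ n)).1)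
    have w3 := le_abs_self (3 ^ n * (g ((i : ℝ) / 3 ^ n, c)).2 - 3 ^ n * (g ((i : ℝ) / 3 ^ n, (j : ℝ) / 3 ^ n)).2)
    have w4 := neg_abs_le (3 ^ n * (g (((i : ℝ) + k) / 3 ^ n, c)).2 - 3 ^ n * (g (((i : ℝ) + k) / 3 ^ n, (j : ℝ) / 3 ^ n)).2)
    have w5 : lam * (y0 - 0) ≤ 1 / 3 := by nlinarith
    rw [mul_sub] at hi2
    linarith
  · intro d hd d0 d1 t t' t0 tt t1
    obtain ⟨b1, b2, b3⟩ := hK' d hd d0 d1
    obtain ⟨b4, b5⟩ := hX' t t0 (by linarith)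
    obtain ⟨b6, b7⟩ := hX' t' (by linarith) t1
    have := hdiag _ b1 b2 b3 _ _ b4 (by gcongr : ((i : ℝ) + t) / 3 ^ n ≤ ((i : ℝ) + t') / 3 ^ n) b7
    have e : 3 ^ n * (lam * (((i : ℝ) + t') / 3 ^ n - ((i : ℝ) + t) / 3 ^ n)) = lam * (t' - t) := by
      field_simp; ring
    rw [← this] at e
    simp only [heval, Prod.smul_snd, Prod.smul_fst, smul_eq_mul]
    linarith
  · intro d hd d' hd' d0 dd d1 t t' t0 t1 ht
    obtain ⟨b1, b2, b3⟩ := hK' d hd d0 (by linarith)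
    obtain ⟨c1, c2, c3⟩ := hK' d' hd' (by linarith) d1
    obtain ⟨b4, b5⟩ := hX' t t0 (by linarith)
    obtain ⟨b6, b7⟩ := hX' t' (by linarith) t1
    have := hord _ b1 _ c1 b2 (by gcongr : ((j : ℝ) + d) / 3 ^ n < ((j : ℝ) + d') / 3 ^ n) c3
      _ _ b4 b7 (by rw [← sub_div, ← sub_div]; congr 1; linarith)
    simp only [heval, Prod.smul_snd, smul_eq_mul]
    exact mul_le_mul_of_nonneg_left this.le hN.le


/-- no downward slope: the windows argument -/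
theorem corner_flat {L lam : ℝ} (h0 : 0 < lam) (h1 : lam ≤ 1 / 3) {g : ℝ × ℝ → ℝ × ℝ} (hg : Good L lam Sq g)
    (hdiag : ∀ c ∈ K, 0 ≤ c → c ≤ 1 → ∀ x x' : ℝ, 0 ≤ x → x ≤ x' → x' ≤ 1 →
      ((g (x', c)).1 - (g (x', c)).2) - ((g (x, c)).1 - (g (x, c)).2) = lam * (x' - x))
    (hmono : ∀ c ∈ K, 0 ≤ c → c ≤ 1 → ∀ x x' : ℝ, 0 ≤ x → x ≤ x' → x' ≤ 1 →
      (g (x', c)).2 ≤ (g (x, c)).2 ∧ (g (x, c)).2 - (g (x', c)).2 ≤ lam * (x' - x))
    (hord : ∀ c ∈ K, ∀ c' ∈ K, 0 ≤ c → c < c' → c' ≤ 1 → ∀ x x' : ℝ, 0 ≤ x → x' ≤ 1 → x' - x = c' - c →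
      (g (x, c)).2 < (g (x', c')).2) :
    ∀ c ∈ K, 0 ≤ c → c ≤ 1 → ∀ x : ℝ, 0 ≤ x → x ≤ 1 → (g (x, c)).2 = (g (0, c)).2 := by
  obtain ⟨S, hS⟩ : ∃ S : Set ℝ, S = {r | ∃ c ∈ K, 0 ≤ c ∧ c ≤ 1 ∧ ∃ x x' : ℝ, 0 ≤ x ∧ x < x' ∧ x' ≤ 1 ∧
    r = ((g (x, c)).2 - (g (x', c)).2) / (x' - x)} := ⟨_, rfl⟩
  have hSne : S.Nonempty := by
    rw [hS]
    exact ⟨_, 0, K_zero, le_rfl, zero_le_one, 0, 1, le_rfl, one_pos, le_rfl, rfl⟩
  have hSle : ∀ r ∈ S, r ≤ lam := by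
    intro r hr
    rw [hS] at hr
    obtain ⟨c, hc, c0, c1, x, x', x0, xx, x1, rfl⟩ := hr
    rw [div_le_iff₀ (by linarith)]
    exact (hmono c hc c0 c1 x x' x0 xx.le x1).2
  have hSbdd : BddAbove S := ⟨lam, hSle⟩
  obtain ⟨κ, hκ⟩ : ∃ κ : ℝ, κ = sSup S := ⟨_, rfl⟩
  have hκlam : κ ≤ lam := by rw [hκ]; exact csSup_le hSne hSle
  have hκ0 : 0 ≤ κ := by
    obtain ⟨r, hr⟩ := hSne
    rw [hκ]
    refine le_csSup_of_le hSbdd hr ?_
    rw [hS] at hr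
    obtain ⟨c, hc, c0, c1, x, x', x0, xx, x1, rfl⟩ := hr
    exact div_nonneg (by linarith [(hmono c hc c0 c1 x x' x0 xx.le x1).1]) (by linarith)
  have hline : ∀ c ∈ K, 0 ≤ c → c ≤ 1 → ∀ x x' : ℝ, 0 ≤ x → x ≤ x' → x' ≤ 1 →
      (g (x, c)).2 - (g (x', c)).2 ≤ κ * (x' - x) := by
    intro c hc c0 c1 x x' x0 xx x1
    rcases xx.eq_or_lt with rfl | xx
    · simp
    · rw [← div_le_iff₀ (by linarith), hκ]
      apply le_csSup hSbdd
      rw [hS]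
      exact ⟨c, hc, c0, c1, x, x', x0, xx, x1, rfl⟩
  have hsup : ∀ e > 0, ∃ c ∈ K, 0 ≤ c ∧ c ≤ 1 ∧ ∃ x x' : ℝ, 0 ≤ x ∧ x < x' ∧ x' ≤ 1 ∧
      (κ - e) * (x' - x) ≤ (g (x, c)).2 - (g (x', c)).2 := by
    intro e he
    obtain ⟨r, hr, hlt⟩ := exists_lt_of_lt_csSup hSne (show κ - e < sSup S by rw [← hκ]; linarith)
    rw [hS] at hr
    obtain ⟨c, hc, c0, c1, x, x', x0, xx, x1, rfl⟩ := hr
    refine ⟨c, hc, c0, c1, x, x', x0, xx, x1, ?_⟩
    rw [lt_div_iff₀ (by linarith)] at hlt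
    exact hlt.le
  rcases hκ0.eq_or_lt with hk0 | hkpos
  · intro c hc c0 c1 x x0 x1
    have a1 := hline c hc c0 c1 0 x le_rfl x0 x1
    have a2 := (hmono c hc c0 c1 0 x le_rfl x0 x1).1
    rw [← hk0] at a1
    linarith
  exfalso
  choose h hh using cb_window_cornerB h0 h1 hg hdiag hline hord hsup
  obtain ⟨G, idx, a, w, hG, hidx, hlim, hGl⟩ := straighten (L := L) (lam := lam) (κ := κ) (B := 2)
    (C0 := 1) h0.le (fun u => -u.2) (fun u v => by simp [add_comm]) zero_le_one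
    (fun u => by
      simp only [abs_neg, n1, one_mul]
      linarith [abs_nonneg u.1]) h (fun k => (hh k).good)
    (fun k c hc c0 c1 x x' x0 xx x1 => by
      have := (hh k).line c hc c0 c1 x x' x0 xx x1
      simp only [Prod.snd_sub]
      linarith)
    (fun k => by
      have := (hh k).ext
      simp only [Prod.snd_sub]
      linarith)
  have hRw : ∀ c ∈ K, 0 ≤ c → c ≤ 1 → ∀ x : ℝ, ((x, c) : ℝ × ℝ) ∈ Rw := by
    intro c hc c0 c1 x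
    exact ⟨X_of_K2 x hc, c0, c1⟩
  have hev : ∀ x : ℝ, ∀ᶠ M in (hyperfilter ℕ : Filter ℕ), 0 ≤ x + (a M : ℝ) ∧ x + (a M : ℝ) ≤ idx M := by
    intro x
    apply Nat.hyperfilter_le_atTop
    obtain ⟨M0, hM0⟩ := exists_nat_ge |x|
    filter_upwards [Filter.eventually_ge_atTop M0] with M hM
    obtain ⟨i1, i2⟩ := hidx M
    have i1' : (M : ℝ) ≤ a M := by exact_mod_cast i1
    have i2' : (a M : ℝ) + M ≤ idx M := by exact_mod_cast i2
    have hM' : (M0 : ℝ) ≤ M := by exact_mod_cast hM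
    have j1 := le_abs_self x
    have j2 := neg_abs_le x
    constructor <;> linarith
  have hlim1 : ∀ c ∈ K, 0 ≤ c → c ≤ 1 → ∀ x : ℝ, Tendsto (fun M => (h (idx M) (x + (a M : ℝ), c)).1
      - ((w M).1 : ℝ)) (hyperfilter ℕ : Filter ℕ) (𝓝 (G (x, c)).1) := by
    intro c hc c0 c1 x
    have := (continuous_fst.tendsto _).comp (hlim (x, c) (hRw c hc c0 c1 x))
    refine this.congr (fun M => ?_)
    simp
  have hlim2 : ∀ c ∈ K, 0 ≤ c → c ≤ 1 → ∀ x : ℝ, Tendsto (fun M => (h (idx M) (x + (a M : ℝ), c)).2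
      - ((w M).2 : ℝ)) (hyperfilter ℕ : Filter ℕ) (𝓝 (G (x, c)).2) := by
    intro c hc c0 c1 x
    have := (continuous_snd.tendsto _).comp (hlim (x, c) (hRw c hc c0 c1 x))
    refine this.congr (fun M => ?_)
    simp
  have hGd : ∀ c ∈ K, 0 ≤ c → c ≤ 1 → ∀ x x' : ℝ, x ≤ x' →
      ((G (x', c)).1 - (G (x', c)).2) - ((G (x, c)).1 - (G (x, c)).2) = lam * (x' - x) := by
    intro c hc c0 c1 x x' xx
    have T := ((hlim1 c hc c0 c1 x').sub (hlim2 c hc c0 c1 x')).sub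
      ((hlim1 c hc c0 c1 x).sub (hlim2 c hc c0 c1 x))
    refine tendsto_nhds_unique T (tendsto_const_nhds.congr' ?_)
    filter_upwards [hev x, hev x'] with M m1 m2
    have := (hh (idx M)).diag c hc c0 c1 (x + a M) (x' + a M) m1.1 (by linarith) m2.2
    linarith
  have hGf : ∀ c ∈ K, 0 ≤ c → c ≤ 1 → ∀ x : ℝ,
      G (x, c) = G (0, c) + x • ((lam - κ, -κ) : ℝ × ℝ) := by
    intro c hc c0 c1 x
    have e2 : (G (x, c)).2 = (G (0, c)).2 - κ * x := by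
      rcases le_total 0 x with hx | hx
      · have := hGl c hc c0 c1 0 x hx
        simp only [Prod.snd_sub] at this
        linarith
      · have := hGl c hc c0 c1 x 0 hx
        simp only [Prod.snd_sub] at this
        linarith
    have e1 : (G (x, c)).1 = (G (0, c)).1 + (lam - κ) * x := by
      rcases le_total 0 x with hx | hx
      · have := hGd c hc c0 c1 0 x hx
        linarith
      · have := hGd c hc c0 c1 x 0 hx
        linarith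
    ext
    · simp only [Prod.fst_add, Prod.smul_fst, smul_eq_mul]; linarith
    · simp only [Prod.snd_add, Prod.smul_snd, smul_eq_mul]; linarith
  have hX : ∀ c ∈ K, 0 ≤ c → c ≤ 1 → ∀ x : ℝ, G (0, c) + x • ((lam - κ, -κ) : ℝ × ℝ) ∈ X := by
    intro c hc c0 c1 x
    rw [← hGf c hc c0 c1 x]
    exact hG.mapsX _ (hRw c hc c0 c1 x)
  rcases hκlam.eq_or_lt with he | hlt
  · -- κ = lam
    have T1 := hlim2 0 K_zero le_rfl zero_le_one 0
    have T2 := hlim2 1 K_one zero_le_one le_rfl 1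
    have hle : (G (0, 0)).2 ≤ (G (1, 1)).2 := by
      refine le_of_tendsto_of_tendsto T1 T2 ?_
      filter_upwards [hev 0, hev 1] with M m1 m2
      have := (hh (idx M)).ord 0 K_zero 1 K_one le_rfl one_pos le_rfl (0 + a M) (1 + a M) m1.1 m2.2
        (by ring)
      linarith
    have e1 := hGf 1 K_one zero_le_one le_rfl 1
    have e1' : (G (1, 1)).2 = (G (0, 1)).2 - κ := by
      rw [e1]; simp only [Prod.snd_add, Prod.smul_snd, smul_eq_mul]; ring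
    have sv := hG.speedV 0 1 0 zero_le_one (fun t t0 t1 => ⟨X_of_K1 t K_zero, t0, t1⟩)
    simp only [n1, Prod.fst_sub, Prod.snd_sub] at sv
    have s1 := le_abs_self ((G (0, 1)).2 - (G (0, 0)).2)
    have s2 := abs_nonneg ((G (0, 1)).1 - (G (0, 0)).1)
    have s3 : |(G (0, 1)).1 - (G (0, 0)).1| = 0 := by linarith
    have s4 : (G (0, 1)).2 - (G (0, 0)).2 = lam := by linarith
    have s5 : (G (0, 1)).1 = (G (0, 0)).1 := by
      have := abs_eq_zero.1 s3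
      linarith
    have e2 := hGf 0 K_zero le_rfl zero_le_one (-1)
    have e3 : G (0, 1) = G (-1, 0) := by
      rw [e2]
      ext
      · simp only [Prod.fst_add, Prod.smul_fst, smul_eq_mul]; rw [he]; linarith
      · simp only [Prod.snd_add, Prod.smul_snd, smul_eq_mul]; linarith
    have := hG.inj (hRw 1 K_one zero_le_one le_rfl 0) (hRw 0 K_zero le_rfl zero_le_one (-1)) e3
    rw [Prod.mk.injEq] at this
    linarith [this.1]
  · have c0 : (0 : ℝ) ≤ 1 / 9 := by norm_num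
    have c1 : (1 / 9 : ℝ) ≤ 1 := by norm_num
    have sv := hG.speedV 0 (1 / 9) 0 c0 (fun t t0 t1 => ⟨X_of_K1 t K_zero, t0, by
      show t ≤ 1
      linarith⟩)
    have hd : n1 (G (0, 1 / 9) - G (0, 0)) < 1 / 9 := by nlinarith
    obtain ⟨s, hs⟩ := slant_unique (v := ((lam - κ, -κ) : ℝ × ℝ)) (p := G (0, 0)) (p' := G (0, 1 / 9))
      (by show lam - κ ≠ 0; linarith) (by show -κ ≠ 0; linarith) hd
      (hX 0 K_zero le_rfl zero_le_one) (hX (1 / 9) K_ninth c0 c1)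
    rw [← hGf 0 K_zero le_rfl zero_le_one s] at hs
    have := hG.inj (hRw (1 / 9) K_ninth c0 c1 0) (hRw 0 K_zero le_rfl zero_le_one s) hs
    rw [Prod.mk.injEq] at this
    linarith [this.2]

end

end Pool.Agent.Helper746.Car
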