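import Mathlib
import Pool.Agent.Helper746.CarDefs
import Pool.Agent.Helper746.CarBasA
import Pool.Agent.Helper746.CarBasB
import Pool.Agent.Helper746.CarSq
import Pool.Agent.Helper746.CarTrans

set_option autoImplicit false

namespace Pool.Agent.Helper746.Car

open Filter Topology

noncomputable section

theorem h746_scale_point (lam : ℝ) (n : ℕ) (i j : ℤ) (b q : ℝ × ℝ) :
    (3 : ℝ) ^ n • (lam • cp n i j q + b) = lam • q + ((3 : ℝ) ^ n • b + lam • (((i : ℝ), (j : ℝ)) : ℝ × ℝ)) := by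
  have h3 : (3 : ℝ) ^ n ≠ 0 := by positivity
  unfold cp
  ext
  · simp only [Prod.smul_fst, Prod.fst_add, smul_eq_mul]
    field_simp
    ring
  · simp only [Prod.smul_snd, Prod.snd_add, smul_eq_mul]
    field_simp
    ring

theorem h746_good_cell {L lam : ℝ} {D : Set (ℝ × ℝ)} {g : ℝ × ℝ → ℝ × ℝ} (hg : Good L lam D g)
    (n : ℕ) (i j : ℤ) (hD : ∀ q ∈ Sq, cp n i j q ∈ D) :
    Good L lam Sq (fun q => (3 : ℝ) ^ n • g (cp n i j q)) := by
  refine Good.scale hg n i j 0 0 (fun q hq => hD q hq) (fun q _ => ?_)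
  simp only [Int.cast_zero, Prod.mk_zero_zero, sub_zero]
  rfl

theorem h746_line {L lam : ℝ} {g : ℝ × ℝ → ℝ × ℝ} (hg : Good L lam Sq g) {b : ℝ × ℝ}
    (h00 : g (0, 0) = lam • ((0, 0) : ℝ × ℝ) + b) (h10 : g (1, 0) = lam • ((1, 0) : ℝ × ℝ) + b)
    (h01 : g (0, 1) = lam • ((0, 1) : ℝ × ℝ) + b) (h11 : g (1, 1) = lam • ((1, 1) : ℝ × ℝ) + b)
    {c : ℝ} (hc : c ∈ K) (hc0 : 0 ≤ c) (hc1 : c ≤ 1) {t : ℝ} (ht0 : 0 ≤ t) (ht1 : t ≤ 1) :
    g (t, c) = lam • ((t, c) : ℝ × ℝ) + b := by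
  have hl : g (0, c) = lam • ((0, c) : ℝ × ℝ) + b :=
    sq_v hg (fun s hs0 hs1 => ⟨X_of_K1 s K_zero, le_refl _, zero_le_one, hs0, hs1⟩) h00 h01 c hc0 hc1
  have hr : g (1, c) = lam • ((1, c) : ℝ × ℝ) + b :=
    sq_v hg (fun s hs0 hs1 => ⟨X_of_K1 s K_one, zero_le_one, le_refl _, hs0, hs1⟩) h10 h11 c hc0 hc1
  exact sq_h hg (fun s hs0 hs1 => ⟨X_of_K2 s hc, hs0, hs1, hc0, hc1⟩) hl hr t ht0 ht1

theorem h746_third {b : ℤ} (hb : 0 ≤ b ∧ b ≤ 3) : ((b : ℝ) / 3) ∈ K ∧ 0 ≤ (b : ℝ) / 3 ∧ (b : ℝ) / 3 ≤ 1 := by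
  have h0 : (0 : ℝ) ≤ b := by exact_mod_cast hb.1
  have h3 : (b : ℝ) ≤ 3 := by exact_mod_cast hb.2
  refine ⟨?_, by positivity, by linarith⟩
  have : b = 0 ∨ b = 1 ∨ b = 2 ∨ b = 3 := by omega
  rcases this with h | h | h | h
  · subst h; simpa using K_zero
  · subst h; simpa using K_third
  · subst h; simpa using K_two_third
  · subst h
    have : ((3 : ℤ) : ℝ) / 3 = 1 := by norm_num
    rw [this]; exact K_one

theorem h746_dist_smul (b q : ℝ × ℝ) (lam : ℝ) (hlam : 0 ≤ lam) (hq : q ∈ Sq) :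
    dist (lam • ((0, 0) : ℝ × ℝ) + b) (lam • q + b) ≤ lam := by
  obtain ⟨_, h1, h2, h3, h4⟩ := hq
  rw [dist_add_right, Prod.dist_eq]
  simp only [Prod.smul_fst, Prod.smul_snd, smul_eq_mul, mul_zero, Real.dist_eq, zero_sub, abs_neg]
  apply max_le
  · rw [abs_of_nonneg (mul_nonneg hlam h1)]
    nlinarith
  · rw [abs_of_nonneg (mul_nonneg hlam h3)]
    nlinarith

theorem h746_approx {L lam : ℝ} (hlam : 0 ≤ lam) (k : ℕ) : ∀ {g : ℝ × ℝ → ℝ × ℝ} (_ : Good L lam Sq g) {b : ℝ × ℝ}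
    (_ : g (0, 0) = lam • ((0, 0) : ℝ × ℝ) + b) (_ : g (1, 0) = lam • ((1, 0) : ℝ × ℝ) + b)
    (_ : g (0, 1) = lam • ((0, 1) : ℝ × ℝ) + b) (_ : g (1, 1) = lam • ((1, 1) : ℝ × ℝ) + b),
    ∀ q ∈ Sq, dist (g q) (lam • q + b) ≤ (L + lam) / 3 ^ k := by
  induction k with
  | zero =>
    intro g hg b h00 h10 h01 h11 q hq
    have hz : ((0, 0) : ℝ × ℝ) ∈ Sq := ⟨X_of_K1 0 K_zero, le_refl _, zero_le_one, le_refl _, zero_le_one⟩
    have ho : ((1, 0) : ℝ × ℝ) ∈ Sq := ⟨X_of_K1 0 K_one, zero_le_one, le_refl _, le_refl _, zero_le_one⟩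
    have hL : 0 ≤ L := by
      have h1 := hg.upper (0, 0) hz (1, 0) ho
      have h2 : dist ((0, 0) : ℝ × ℝ) (1, 0) = 1 := by
        rw [Prod.dist_eq]; simp
      rw [h2, mul_one] at h1
      exact dist_nonneg.trans h1
    have h1 := hg.upper q hq (0, 0) hz
    have h2 : dist q ((0, 0) : ℝ × ℝ) ≤ 1 := by
      obtain ⟨_, a1, a2, a3, a4⟩ := hq
      rw [Prod.dist_eq]
      simp only [Real.dist_eq, sub_zero]
      apply max_le
      · rw [abs_of_nonneg a1]; exact a2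
      · rw [abs_of_nonneg a3]; exact a4
    have h3 := h746_dist_smul b q lam hlam hq
    rw [← h00] at h3
    have h4 : L * dist q ((0, 0) : ℝ × ℝ) ≤ L * 1 := mul_le_mul_of_nonneg_left h2 hL
    rw [pow_zero, div_one]
    calc dist (g q) (lam • q + b) ≤ dist (g q) (g (0, 0)) + dist (g (0, 0)) (lam • q + b) :=
          dist_triangle _ _ _
      _ ≤ L + lam := by linarith
  | succ k ih =>
    intro g hg b h00 h10 h01 h11 p hp
    obtain ⟨a, b', ha, hb', hab, q, hq, rfl⟩ := Sq_cover hp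
    have hg1 := h746_good_cell hg 1 a b' (fun q hq => Sq_sub hq ha hb' hab)
    have hex : ∀ s t : ℤ, (0 ≤ s ∧ s ≤ 1) → (0 ≤ t ∧ t ≤ 1) →
        (3 : ℝ) ^ 1 • g (cp 1 a b' ((s : ℝ), (t : ℝ))) = lam • (((s : ℝ), (t : ℝ)) : ℝ × ℝ) +
          ((3 : ℝ) ^ 1 • b + lam • (((a : ℝ), (b' : ℝ)) : ℝ × ℝ)) := by
      intro s t hs ht
      rw [← h746_scale_point]
      congr 1
      have e : cp 1 a b' ((s : ℝ), (t : ℝ)) = (((a + s : ℤ) : ℝ) / 3, ((b' + t : ℤ) : ℝ) / 3) := by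
        unfold cp; push_cast; simp
      rw [e]
      obtain ⟨_, k2, k3⟩ := h746_third (b := a + s) (by omega)
      obtain ⟨k4, k5, k6⟩ := h746_third (b := b' + t) (by omega)
      exact h746_line hg h00 h10 h01 h11 k4 k5 k6 k2 k3
    have hih := ih hg1 (b := (3 : ℝ) ^ 1 • b + lam • (((a : ℝ), (b' : ℝ)) : ℝ × ℝ))
      (by have := hex 0 0 (by omega) (by omega); simpa using this)
      (by have := hex 1 0 (by omega) (by omega); simpa using this)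
      (by have := hex 0 1 (by omega) (by omega); simpa using this)
      (by have := hex 1 1 (by omega) (by omega); simpa using this) q hq
    rw [← h746_scale_point, dist_smul₀] at hih
    simp only [pow_one, Real.norm_ofNat] at hih
    rw [pow_succ, ← div_div, le_div_iff₀ (by norm_num)]
    linarith

theorem Sq_exact {L lam : ℝ} (hlam : 0 ≤ lam) {g : ℝ × ℝ → ℝ × ℝ} (hg : Good L lam Sq g) {b : ℝ × ℝ}
    (h00 : g (0, 0) = lam • ((0, 0) : ℝ × ℝ) + b) (h10 : g (1, 0) = lam • ((1, 0) : ℝ × ℝ) + b)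
    (h01 : g (0, 1) = lam • ((0, 1) : ℝ × ℝ) + b) (h11 : g (1, 1) = lam • ((1, 1) : ℝ × ℝ) + b) :
    ∀ q ∈ Sq, g q = lam • q + b := by
  intro q hq
  have h := fun k => h746_approx hlam k hg h00 h10 h01 h11 q hq
  have hlim : Tendsto (fun k : ℕ => (L + lam) / 3 ^ k) atTop (𝓝 0) := by
    have h1 : Tendsto (fun k : ℕ => (L + lam) * (1 / 3 : ℝ) ^ k) atTop (𝓝 ((L + lam) * 0)) :=
      (tendsto_pow_atTop_nhds_zero_of_lt_one (by norm_num) (by norm_num)).const_mul _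
    rw [mul_zero] at h1
    refine h1.congr fun k => ?_
    rw [div_pow, one_pow, mul_one_div]
  have h0 : dist (g q) (lam • q + b) ≤ 0 := ge_of_tendsto' hlim h
  exact dist_le_zero.1 h0

theorem cell_exact {L lam : ℝ} (hlam : 0 ≤ lam) {D : Set (ℝ × ℝ)} {g : ℝ × ℝ → ℝ × ℝ} (hg : Good L lam D g)
    (n : ℕ) (i j : ℤ) (hD : ∀ q ∈ Sq, cp n i j q ∈ D) {b : ℝ × ℝ}
    (h00 : g (cp n i j (0, 0)) = lam • cp n i j (0, 0) + b)
    (h10 : g (cp n i j (1, 0)) = lam • cp n i j (1, 0) + b)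
    (h01 : g (cp n i j (0, 1)) = lam • cp n i j (0, 1) + b)
    (h11 : g (cp n i j (1, 1)) = lam • cp n i j (1, 1) + b) :
    ∀ q ∈ Sq, g (cp n i j q) = lam • cp n i j q + b := by
  intro q hq
  have hg1 := h746_good_cell hg n i j hD
  have h := Sq_exact hlam hg1 (b := (3 : ℝ) ^ n • b + lam • (((i : ℝ), (j : ℝ)) : ℝ × ℝ))
    (by rw [← h746_scale_point, h00]) (by rw [← h746_scale_point, h10])
    (by rw [← h746_scale_point, h01]) (by rw [← h746_scale_point, h11]) q hq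
  rw [← h746_scale_point] at h
  exact smul_right_injective _ (by positivity : (3 : ℝ) ^ n ≠ 0) h

end

end Pool.Agent.Helper746.Car
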