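import Mathlib
import Pool.Agent.Helper746.CarDefs
import Pool.Agent.Helper746.CarBasA
import Pool.Agent.Helper746.CarBasB
import Pool.Agent.Helper746.CarSq
import Pool.Agent.Helper746.CarTrans
import Pool.Agent.Helper746.CarSqex
import Pool.Agent.Helper746.CarCornerA
import Pool.Agent.Helper746.CarCornerB

set_option autoImplicit false

namespace Pool.Agent.Helper746.Car

open Filter Topology

noncomputable section

theorem corner {L lam : ℝ} (h0 : 0 < lam) (h1 : lam ≤ 1 / 3) {g : ℝ × ℝ → ℝ × ℝ} (hg : Good L lam Sq g) {b : ℝ × ℝ}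
    (hbot : ∀ x : ℝ, 0 ≤ x → x ≤ 1 → g (x, 0) = lam • ((x, 0) : ℝ × ℝ) + b)
    (hleft : ∀ y : ℝ, 0 ≤ y → y ≤ 1 → g (0, y) = lam • ((0, y) : ℝ × ℝ) + b) :
    ∀ q ∈ Sq, g q = lam • q + b := by
  have hflat := corner_flat h0 h1 hg
    (by
      intro c hc hc0 hc1 x x' hx hxx hx1
      have e1 := (corner_diag h0 hg hbot hleft hc hc0 hc1 (x := x) hx (le_trans hxx hx1)).1
      have e2 := (corner_diag h0 hg hbot hleft hc hc0 hc1 (x := x') (le_trans hx hxx) hx1).1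
      linarith)
    (by
      intro c hc hc0 hc1 x x' hx hxx hx1
      exact corner_mono h0 hg hbot hleft hc hc0 hc1 hx hxx hx1)
    (by
      intro c hc c' hc' hc0 hcc hc1 x x' hx hx1 hxx
      exact corner_order h0 hg hbot hleft hc hc' hc0 hcc hc1 hx hx1 hxx)
  have h11 : g (1, 1) = lam • ((1, 1) : ℝ × ℝ) + b := by
    have e1 := hflat 1 K_one zero_le_one le_rfl 1 zero_le_one le_rfl
    have e2 := (corner_diag h0 hg hbot hleft K_one zero_le_one le_rfl (x := 1) zero_le_one le_rfl).1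
    have e3 := hleft 1 zero_le_one le_rfl
    have e4 : (g (0, 1)).2 = lam + b.2 := by rw [e3]; simp
    apply Prod.ext
    · simp only [Prod.smul_mk, smul_eq_mul, Prod.fst_add, mul_one]
      linarith
    · simp only [Prod.smul_mk, smul_eq_mul, Prod.snd_add, mul_one]
      linarith
  exact Sq_exact h0.le hg (hbot 0 le_rfl zero_le_one) (hbot 1 zero_le_one le_rfl)
    (hleft 1 zero_le_one le_rfl) h11

theorem corner' {L lam : ℝ} (h0 : 0 < lam) (h1 : lam ≤ 1 / 3) {g : ℝ × ℝ → ℝ × ℝ} (hg : Good L lam Sq g) {b : ℝ × ℝ}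
    (hbot : ∀ x : ℝ, 0 ≤ x → x ≤ 1 → g (x, 0) = lam • ((x, 0) : ℝ × ℝ) + b)
    (hright : ∀ y : ℝ, 0 ≤ y → y ≤ 1 → g (1, y) = lam • ((1, y) : ℝ × ℝ) + b) :
    ∀ q ∈ Sq, g q = lam • q + b := by
  set R : ℝ × ℝ → ℝ × ℝ := fun p => (-p.1, p.2) with hR
  have hRs : IsSym R := by
    refine ⟨-1, 1, Or.inr rfl, Or.inl rfl, Or.inl ?_⟩
    intro p
    simp [hR]
  set g1 : ℝ × ℝ → ℝ × ℝ := fun q => R (g (1 - q.1, q.2)) with hg1
  have hSq : ∀ q : ℝ × ℝ, q ∈ Sq → ((1 - q.1, q.2) : ℝ × ℝ) ∈ Sq := by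
    intro q hq
    obtain ⟨hX, ha, hb, hc, hd⟩ := hq
    refine ⟨?_, by simpa using hb, by simpa using ha, hc, hd⟩
    have e1 : R q ∈ X := (X_sym hRs q).2 hX
    have e2 := (X_add_int (R q) 1 0).2 e1
    have e3 : R q + (((1 : ℤ) : ℝ), ((0 : ℤ) : ℝ)) = ((1 - q.1, q.2) : ℝ × ℝ) := by
      apply Prod.ext
      · simp [hR]; ring
      · simp [hR]
    rwa [e3] at e2
  have hgood : Good L lam Sq g1 := by
    apply Good.trans (D := Sq) (g := g) hg 0 hRs hRs ((1, 0) : ℝ × ℝ) 0 0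
    · intro q hq
      have e : ((3 : ℝ) ^ 0)⁻¹ • (R q + ((1, 0) : ℝ × ℝ)) = ((1 - q.1, q.2) : ℝ × ℝ) := by
        apply Prod.ext
        · simp [hR]; ring
        · simp [hR]
      rw [e]
      exact hSq q hq
    · intro q hq
      have e : ((3 : ℝ) ^ 0)⁻¹ • (R q + ((1, 0) : ℝ × ℝ)) = ((1 - q.1, q.2) : ℝ × ℝ) := by
        apply Prod.ext
        · simp [hR]; ring
        · simp [hR]
      rw [e]
      apply Prod.ext
      · simp [hg1]
      · simp [hg1]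
  have key := corner h0 h1 hgood (b := ((-lam - b.1, b.2) : ℝ × ℝ))
    (by
      intro x hx0 hx1
      have e := hbot (1 - x) (by linarith) (by linarith)
      simp only [hg1, hR]
      rw [e]
      apply Prod.ext
      · simp only [Prod.smul_mk, smul_eq_mul, Prod.fst_add]
        ring
      · simp only [Prod.smul_mk, smul_eq_mul, Prod.snd_add])
    (by
      intro y hy0 hy1
      have e := hright y hy0 hy1
      simp only [hg1, hR]
      rw [show ((1 : ℝ) - 0) = 1 by norm_num, e]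
      apply Prod.ext
      · simp only [Prod.smul_mk, smul_eq_mul, Prod.fst_add]
        ring
      · simp only [Prod.smul_mk, smul_eq_mul, Prod.snd_add])
  intro q hq
  have k := key _ (hSq q hq)
  simp only [hg1, hR, sub_sub_cancel, Prod.smul_mk, smul_eq_mul, Prod.mk_add_mk, Prod.mk.eta] at k
  have k1 := congrArg Prod.fst k
  have k2 := congrArg Prod.snd k
  simp only at k1 k2
  apply Prod.ext
  · simp only [Prod.fst_add, Prod.smul_fst, smul_eq_mul]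
    linarith
  · simp only [Prod.snd_add, Prod.smul_snd, smul_eq_mul]
    linarith

theorem corner_cell_good_cornerC {L lam : ℝ} {D : Set (ℝ × ℝ)} {g : ℝ × ℝ → ℝ × ℝ}
    (hg : Good L lam D g) (n : ℕ) (i j : ℤ) (hD : ∀ q ∈ Sq, cp n i j q ∈ D) :
    Good L lam Sq (fun q => (3 : ℝ) ^ n • g (cp n i j q)) := by
  apply Good.scale hg n (i : ℝ) (j : ℝ) 0 0
  · intro q hq
    exact hD q hq
  · intro q hq
    have e : (((((0 : ℤ) : ℝ), ((0 : ℤ) : ℝ)) : ℝ × ℝ)) = 0 := by simp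
    rw [e, sub_zero]
    rfl

theorem cell_val_cornerC {lam : ℝ} {g : ℝ × ℝ → ℝ × ℝ} (n : ℕ) (i j : ℤ) {b : ℝ × ℝ} {q : ℝ × ℝ}
    (h : g (cp n i j q) = lam • cp n i j q + b) :
    (3 : ℝ) ^ n • g (cp n i j q) = lam • q + ((3 : ℝ) ^ n • b + lam • (((i : ℝ), (j : ℝ)) : ℝ × ℝ)) := by
  have h3 : (3 : ℝ) ^ n ≠ 0 := by positivity
  rw [h]
  apply Prod.ext
  · simp only [cp, smul_add, Prod.fst_add, Prod.smul_fst, smul_eq_mul]
    field_simp
    ring
  · simp only [cp, smul_add, Prod.snd_add, Prod.smul_snd, smul_eq_mul]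
    field_simp
    ring

theorem cell_val'_cornerC {lam : ℝ} {g : ℝ × ℝ → ℝ × ℝ} (n : ℕ) (i j : ℤ) {b : ℝ × ℝ} {q : ℝ × ℝ}
    (h : (3 : ℝ) ^ n • g (cp n i j q) = lam • q + ((3 : ℝ) ^ n • b + lam • (((i : ℝ), (j : ℝ)) : ℝ × ℝ))) :
    g (cp n i j q) = lam • cp n i j q + b := by
  have h3 : (3 : ℝ) ^ n ≠ 0 := by positivity
  have k1 := congrArg Prod.fst h
  have k2 := congrArg Prod.snd h
  simp only [Prod.fst_add, Prod.smul_fst, smul_eq_mul] at k1
  simp only [Prod.snd_add, Prod.smul_snd, smul_eq_mul] at k2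
  apply Prod.ext
  · simp only [cp, Prod.fst_add, Prod.smul_fst, smul_eq_mul] at k1 ⊢
    have : (3 : ℝ) ^ n * (g (((i : ℝ) + q.1) / 3 ^ n, ((j : ℝ) + q.2) / 3 ^ n)).1 =
        (3 : ℝ) ^ n * (lam * (((i : ℝ) + q.1) / 3 ^ n) + b.1) := by
      rw [k1]
      field_simp
      ring
    exact mul_left_cancel₀ h3 this
  · simp only [cp, Prod.snd_add, Prod.smul_snd, smul_eq_mul] at k2 ⊢
    have : (3 : ℝ) ^ n * (g (((i : ℝ) + q.1) / 3 ^ n, ((j : ℝ) + q.2) / 3 ^ n)).2 =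
        (3 : ℝ) ^ n * (lam * (((j : ℝ) + q.2) / 3 ^ n) + b.2) := by
      rw [k2]
      field_simp
      ring
    exact mul_left_cancel₀ h3 this

theorem corner_cell {L lam : ℝ} (h0 : 0 < lam) (h1 : lam ≤ 1 / 3) {D : Set (ℝ × ℝ)} {g : ℝ × ℝ → ℝ × ℝ}
    (hg : Good L lam D g) (n : ℕ) (i j : ℤ) (hD : ∀ q ∈ Sq, cp n i j q ∈ D) {b : ℝ × ℝ}
    (hbot : ∀ s : ℝ, 0 ≤ s → s ≤ 1 → g (cp n i j (s, 0)) = lam • cp n i j (s, 0) + b)
    (hleft : ∀ s : ℝ, 0 ≤ s → s ≤ 1 → g (cp n i j (0, s)) = lam • cp n i j (0, s) + b) :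
    ∀ q ∈ Sq, g (cp n i j q) = lam • cp n i j q + b := by
  intro q hq
  apply cell_val'_cornerC
  exact corner h0 h1 (corner_cell_good_cornerC hg n i j hD)
    (fun x hx0 hx1 => cell_val_cornerC n i j (hbot x hx0 hx1))
    (fun y hy0 hy1 => cell_val_cornerC n i j (hleft y hy0 hy1)) q hq

theorem corner_cell' {L lam : ℝ} (h0 : 0 < lam) (h1 : lam ≤ 1 / 3) {D : Set (ℝ × ℝ)} {g : ℝ × ℝ → ℝ × ℝ}
    (hg : Good L lam D g) (n : ℕ) (i j : ℤ) (hD : ∀ q ∈ Sq, cp n i j q ∈ D) {b : ℝ × ℝ}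
    (hbot : ∀ s : ℝ, 0 ≤ s → s ≤ 1 → g (cp n i j (s, 0)) = lam • cp n i j (s, 0) + b)
    (hright : ∀ s : ℝ, 0 ≤ s → s ≤ 1 → g (cp n i j (1, s)) = lam • cp n i j (1, s) + b) :
    ∀ q ∈ Sq, g (cp n i j q) = lam • cp n i j q + b := by
  intro q hq
  apply cell_val'_cornerC
  exact corner' h0 h1 (corner_cell_good_cornerC hg n i j hD)
    (fun x hx0 hx1 => cell_val_cornerC n i j (hbot x hx0 hx1))
    (fun y hy0 hy1 => cell_val_cornerC n i j (hright y hy0 hy1)) q hq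

end

end Pool.Agent.Helper746.Car
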