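import Mathlib
import Pool.Agent.Helper746.CarDefs

set_option autoImplicit false

namespace Pool.Agent.Helper746.Car

open Filter Topology

noncomputable section

def theta_fex (y : ℝ) : ℝ := 2 * (⌊y + 1/3⌋ : ℝ) + min (3 * (y - ⌊y + 1/3⌋)) 1

theorem theta_t_fex (y : ℝ) : -(1/3) ≤ y - ⌊y + 1/3⌋ ∧ y - ⌊y + 1/3⌋ < 2/3 := by
  have h1 := Int.floor_le (y + 1/3)
  have h2 := Int.lt_floor_add_one (y + 1/3)
  constructor <;> linarith

theorem theta_diff_fex (y y' : ℝ) (h : y ≤ y') : 0 ≤ theta_fex y' - theta_fex y ∧ theta_fex y' - theta_fex y ≤ 3 * (y' - y) := by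
  obtain ⟨h1, h2⟩ := theta_t_fex y
  obtain ⟨h1', h2'⟩ := theta_t_fex y'
  have hn : ⌊y + 1/3⌋ ≤ ⌊y' + 1/3⌋ := Int.floor_mono (by linarith)
  unfold theta_fex
  rcases hn.eq_or_lt with he | hl
  · rw [← he] at h1' h2' ⊢
    rcases min_cases (3 * (y - (⌊y + 1/3⌋ : ℝ))) 1 with ⟨e1, e2⟩ | ⟨e1, e2⟩ <;>
    rcases min_cases (3 * (y' - (⌊y + 1/3⌋ : ℝ))) 1 with ⟨e3, e4⟩ | ⟨e3, e4⟩ <;>
    rw [e1, e3] <;> constructor <;> linarith
  · have hl' : (⌊y + 1/3⌋ : ℝ) + 1 ≤ (⌊y' + 1/3⌋ : ℝ) := by exact_mod_cast hl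
    rcases min_cases (3 * (y - (⌊y + 1/3⌋ : ℝ))) 1 with ⟨e1, e2⟩ | ⟨e1, e2⟩ <;>
    rcases min_cases (3 * (y' - (⌊y' + 1/3⌋ : ℝ))) 1 with ⟨e3, e4⟩ | ⟨e3, e4⟩ <;>
    rw [e1, e3] <;> constructor <;> linarith

theorem theta_close_fex (y : ℝ) : |theta_fex y - 2 * y| ≤ 1/3 := by
  obtain ⟨h1, h2⟩ := theta_t_fex y
  unfold theta_fex
  rw [abs_le]
  rcases min_cases (3 * (y - (⌊y + 1/3⌋ : ℝ))) 1 with ⟨e1, e2⟩ | ⟨e1, e2⟩ <;>
    rw [e1] <;> constructor <;> linarith

theorem theta_mono_fex : Monotone theta_fex := fun y y' h => by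
  have := (theta_diff_fex y y' h).1
  linarith

theorem theta_cont_fex : Continuous theta_fex := by
  have h : LipschitzWith 3 theta_fex := by
    apply LipschitzWith.of_dist_le_mul
    intro x y
    rw [Real.dist_eq, Real.dist_eq]
    have h3 : ((3 : NNReal) : ℝ) = 3 := rfl
    rw [h3]
    rcases le_total x y with hxy | hxy
    · obtain ⟨h1, h2⟩ := theta_diff_fex x y hxy
      rw [abs_sub_comm, abs_sub_comm x y, abs_of_nonneg h1, abs_of_nonneg (by linarith : (0:ℝ) ≤ y - x)]
      exact h2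
    · obtain ⟨h1, h2⟩ := theta_diff_fex y x hxy
      rw [abs_of_nonneg h1, abs_of_nonneg (by linarith : (0:ℝ) ≤ x - y)]
      exact h2
  exact h.continuous

theorem theta_add_fex (y : ℝ) (z : ℤ) : theta_fex (y + z) = theta_fex y + 2 * z := by
  unfold theta_fex
  have h : ⌊y + z + 1/3⌋ = ⌊y + 1/3⌋ + z := by
    rw [show y + (z : ℝ) + 1/3 = (y + 1/3) + z by ring, Int.floor_add_intCast]
  rw [h]
  push_cast
  rw [show y + (z : ℝ) - ((⌊y + 1/3⌋ : ℝ) + z) = y - ⌊y + 1/3⌋ by ring]
  ring

theorem theta_iter_add_fex (k : ℕ) : ∀ y : ℝ, theta_fex^[k] (y + 1) = theta_fex^[k] y + 2 ^ k := by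
  suffices h : ∀ (k : ℕ) (y : ℝ) (z : ℤ), theta_fex^[k] (y + z) = theta_fex^[k] y + 2 ^ k * z by
    intro y
    have := h k y 1
    simpa using this
  intro k
  induction k with
  | zero => intro y z; simp
  | succ k ih =>
    intro y z
    rw [Function.iterate_succ_apply, Function.iterate_succ_apply, theta_add_fex]
    have := ih (theta_fex y) (2 * z)
    push_cast at this
    rw [this, pow_succ]
    ring

theorem theta_tri_fex (y : ℝ) (h1 : -(1 / 3) ≤ y) (h2 : y ≤ 1 / 3) : theta_fex y = 3 * y := by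
  have hf : ⌊y + 1/3⌋ = 0 := by
    rw [Int.floor_eq_zero_iff]
    constructor <;> linarith
  unfold theta_fex
  rw [hf]
  simp only [Int.cast_zero, mul_zero, sub_zero, zero_add]
  exact min_eq_left (by linarith)

theorem theta_half_fex (y : ℝ) (h1 : 1 / 3 ≤ y) (h2 : y ≤ 2 / 3) : theta_fex y = 1 := by
  rcases h2.lt_or_eq with h | h
  · have hf : ⌊y + 1/3⌋ = 0 := by
      rw [Int.floor_eq_zero_iff]
      constructor <;> linarith
    unfold theta_fex
    rw [hf]
    simp only [Int.cast_zero, mul_zero, sub_zero, zero_add]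
    exact min_eq_right (by linarith)
  · have hy : y = -(1/3) + ((1 : ℤ) : ℝ) := by rw [h]; norm_num
    rw [hy, theta_add_fex, theta_tri_fex _ (le_refl _) (by norm_num)]
    norm_num

theorem exists_F : ∃ F : ℝ → ℝ, IsF F := by
  set a : ℕ → ℝ → ℝ := fun k y => theta_fex^[k] y / 2 ^ k with ha
  have hacont : ∀ k, Continuous (a k) := fun k => (theta_cont_fex.iterate k).div_const _
  have hamono : ∀ k, Monotone (a k) := fun k y y' h =>
    div_le_div_of_nonneg_right (theta_mono_fex.iterate k h) (by positivity)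
  have had : ∀ k y, ‖a (k + 1) y - a k y‖ ≤ (1/3) * (1/2) ^ (k + 1) := by
    intro k y
    have h1 := theta_close_fex (theta_fex^[k] y)
    have h2 : a (k + 1) y - a k y = (theta_fex (theta_fex^[k] y) - 2 * theta_fex^[k] y) * (1/2) ^ (k + 1) := by
      simp only [ha]
      rw [Function.iterate_succ_apply']
      rw [one_div, inv_pow, pow_succ]
      field_simp
    rw [h2, norm_mul, Real.norm_eq_abs, Real.norm_eq_abs, abs_of_nonneg (by positivity : (0:ℝ) ≤ (1/2) ^ (k + 1))]
    exact mul_le_mul_of_nonneg_right h1 (by positivity)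
  have hsum : Summable (fun k : ℕ => (1/3 : ℝ) * (1/2) ^ (k + 1)) := by
    apply Summable.mul_left
    exact (summable_nat_add_iff 1).mpr (summable_geometric_of_lt_one (by norm_num) (by norm_num))
  set F : ℝ → ℝ := fun y => y + ∑' k, (a (k + 1) y - a k y) with hF
  have hFcont : Continuous F :=
    continuous_id.add (continuous_tsum (fun k => (hacont (k + 1)).sub (hacont k)) hsum had)
  have hlim : ∀ y, Tendsto (fun n => a n y) atTop (𝓝 (F y)) := by
    intro y
    have hs : Summable (fun k => a (k + 1) y - a k y) :=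
      Summable.of_norm_bounded hsum (fun k => had k y)
    have h1 := hs.hasSum.tendsto_sum_nat
    have h2 : ∀ n, ∑ k ∈ Finset.range n, (a (k + 1) y - a k y) = a n y - y := by
      intro n
      rw [Finset.sum_range_sub (fun k => a k y)]
      simp [ha]
    simp only [h2] at h1
    have h3 := h1.const_add y
    simpa [hF] using h3
  have hFtheta : ∀ y, F (theta_fex y) = 2 * F y := by
    intro y
    have h1 := hlim (theta_fex y)
    have h2 := ((tendsto_add_atTop_iff_nat 1).mpr (hlim y)).const_mul 2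
    have h3 : (fun n => a n (theta_fex y)) = fun n => 2 * a (n + 1) y := by
      funext n
      simp only [ha]
      rw [Function.iterate_succ_apply, pow_succ]
      field_simp
    rw [h3] at h1
    exact tendsto_nhds_unique h1 h2
  have hzero : F 0 = 0 := by
    have h0 : theta_fex 0 = 0 := by
      rw [theta_tri_fex 0 (by norm_num) (by norm_num)]; norm_num
    have h1 := hFtheta 0
    rw [h0] at h1
    linarith
  have hper : ∀ y, F (y + 1) = F y + 1 := by
    intro y
    have h1 := hlim (y + 1)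
    have h2 := (hlim y).add_const 1
    have h3 : (fun n => a n (y + 1)) = fun n => a n y + 1 := by
      funext n
      simp only [ha]
      rw [theta_iter_add_fex]
      field_simp
    rw [h3] at h1
    exact tendsto_nhds_unique h1 h2
  refine ⟨F, hFcont, ?_, hper, hzero, ?_, ?_⟩
  · intro y y' h
    exact le_of_tendsto_of_tendsto' (hlim y) (hlim y') (fun n => hamono n h)
  · intro y h1 h2
    rw [← theta_tri_fex y h1 h2]
    exact hFtheta y
  · intro y h1 h2
    have h3 := hFtheta y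
    rw [theta_half_fex y h1 h2] at h3
    have h4 := hper 0
    rw [zero_add, hzero, zero_add] at h4
    linarith

end

end Pool.Agent.Helper746.Car
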