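import Mathlib
import Pool.Agent.Helper746.CarDefs
import Pool.Agent.Helper746.CarBasA
import Pool.Agent.Helper746.CarBasB

set_option autoImplicit false

namespace Pool.Agent.Helper746.Car

open Filter Topology

noncomputable section

theorem aux_sgn_netrans {e : ℝ} (h : e = 1 ∨ e = -1) : e * e = 1 ∧ ∃ ε : ℤ, (ε : ℝ) = e := by
  rcases h with h | h
  · exact ⟨by rw [h]; norm_num, 1, by rw [h]; norm_num⟩
  · exact ⟨by rw [h]; norm_num, -1, by rw [h]; norm_num⟩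

theorem aux_mul_netrans {e f : ℝ} (h : e = 1 ∨ e = -1) (h' : f = 1 ∨ f = -1) : e * f = 1 ∨ e * f = -1 := by
  rcases h with h | h <;> rcases h' with h' | h' <;> rw [h, h'] <;> norm_num

theorem NE_restrict {lam : ℝ} {D D' : Set (ℝ × ℝ)} {g : ℝ × ℝ → ℝ × ℝ} (h : NE lam D g) (hD : D' ⊆ D) :
    NE lam D' g := by
  intro n i j hsub hex
  exact h n i j (fun q hq => hD (hsub q hq)) hex
theorem NE_scale {lam : ℝ} {D D' : Set (ℝ × ℝ)} {g g' : ℝ × ℝ → ℝ × ℝ} (h : NE lam D g) (n : ℕ) (a b v w : ℤ)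
    (hD : ∀ q ∈ D', ((((a : ℝ) + q.1) / 3 ^ n, ((b : ℝ) + q.2) / 3 ^ n) : ℝ × ℝ) ∈ D)
    (hg' : ∀ q ∈ D', g' q = (3 : ℝ) ^ n • g (((a : ℝ) + q.1) / 3 ^ n, ((b : ℝ) + q.2) / 3 ^ n) - ((v : ℝ), (w : ℝ))) :
    NE lam D' g' := by
  intro k i j hsub hex
  obtain ⟨m, hlam, A, hA, z, w', hq⟩ := hex
  apply h (n + k) (3 ^ k * a + i) (3 ^ k * b + j)
  · intro q hqs
    rw [← cp_cp n k a b i j q]
    exact hD _ (hsub q hqs)
  · refine ⟨m, hlam, A, hA, z + 3 ^ k * 3 ^ m * v, w' + 3 ^ k * 3 ^ m * w, ?_⟩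
    intro q hqs
    rw [← cp_cp n k a b i j q]
    have h1 := hg' _ (hsub q hqs)
    have h2 := hq q hqs
    rw [h1] at h2
    have h3n : (3 : ℝ) ^ n ≠ 0 := by positivity
    have h3k : (3 : ℝ) ^ k ≠ 0 := by positivity
    have h3m : (3 : ℝ) ^ m ≠ 0 := by positivity
    have hlm : lam * 3 ^ m = 1 := by
      rw [hlam, ← mul_pow]; norm_num
    have h4 : (cp n a b (cp k i j q)) =
        (((a : ℝ) + (cp k i j q).1) / 3 ^ n, ((b : ℝ) + (cp k i j q).2) / 3 ^ n) := rfl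
    rw [h4]
    generalize g (((a : ℝ) + (cp k i j q).1) / 3 ^ n, ((b : ℝ) + (cp k i j q).2) / 3 ^ n) = G at h2 ⊢
    generalize A q = Q at h2 ⊢
    obtain ⟨G1, G2⟩ := G
    obtain ⟨Q1, Q2⟩ := Q
    have h5 := congrArg Prod.fst h2
    have h6 := congrArg Prod.snd h2
    simp only [Prod.smul_mk, Prod.mk_sub_mk, Prod.mk_add_mk, smul_eq_mul] at h5 h6
    apply Prod.ext
    · simp only [Prod.smul_mk, Prod.mk_add_mk, smul_eq_mul]
      push_cast
      have : G1 = (lam / 3 ^ k * (Q1 + z) + v) / 3 ^ n := by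
        rw [eq_div_iff h3n]; linarith
      rw [this, pow_add]
      field_simp
      have e1 : (3 : ℝ) ^ k * v = 3 ^ k * v * (lam * 3 ^ m) := by rw [hlm]; ring
      rw [mul_add, mul_add]
      linarith
    · simp only [Prod.smul_mk, Prod.mk_add_mk, smul_eq_mul]
      push_cast
      have : G2 = (lam / 3 ^ k * (Q2 + w') + w) / 3 ^ n := by
        rw [eq_div_iff h3n]; linarith
      rw [this, pow_add]
      field_simp
      have e1 : (3 : ℝ) ^ k * w = 3 ^ k * w * (lam * 3 ^ m) := by rw [hlm]; ring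
      rw [mul_add, mul_add]
      linarith
theorem NE_target {lam : ℝ} {D : Set (ℝ × ℝ)} {g g' : ℝ × ℝ → ℝ × ℝ} (h : NE lam D g)
    {B : ℝ × ℝ → ℝ × ℝ} (hB : IsSym B) (hg' : ∀ q ∈ D, g' q = B (g q)) : NE lam D g' := by
  intro n i j hsub hex
  obtain ⟨m, hlam, A, hA, z, w, hq⟩ := hex
  apply h n i j hsub
  obtain ⟨e₁, e₂, he₁, he₂, hBc⟩ := hB
  obtain ⟨f₁, f₂, hf₁, hf₂, hAc⟩ := hA
  obtain ⟨h11, ε₁, hε₁⟩ := aux_sgn_netrans he₁
  obtain ⟨h22, ε₂, hε₂⟩ := aux_sgn_netrans he₂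
  rcases hBc with hBc | hBc
  · refine ⟨m, hlam, fun q => (e₁ * (A q).1, e₂ * (A q).2), ?_, ε₁ * z, ε₂ * w, ?_⟩
    · refine ⟨e₁ * f₁, e₂ * f₂, aux_mul_netrans he₁ hf₁, aux_mul_netrans he₂ hf₂, ?_⟩
      rcases hAc with hAc | hAc
      · left; intro p; simp only [hAc]; apply Prod.ext <;> simp only <;> ring
      · right; intro p; simp only [hAc]; apply Prod.ext <;> simp only <;> ring
    · intro q hqs
      have h1 := hg' _ (hsub q hqs)
      have h2 := hq q hqs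
      rw [h1, hBc] at h2
      beta_reduce
      generalize g (cp n i j q) = G at h2 ⊢
      generalize A q = Q at h2 ⊢
      obtain ⟨G1, G2⟩ := G
      obtain ⟨Q1, Q2⟩ := Q
      have h5 := congrArg Prod.fst h2
      have h6 := congrArg Prod.snd h2
      simp only [Prod.smul_mk, Prod.mk_add_mk, smul_eq_mul] at h5 h6
      apply Prod.ext
      · simp only [Prod.smul_mk, Prod.mk_add_mk, smul_eq_mul]
        push_cast
        rw [hε₁]
        calc G1 = e₁ * (e₁ * G1) := by rw [← mul_assoc, h11, one_mul]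
          _ = _ := by rw [h5]; ring
      · simp only [Prod.smul_mk, Prod.mk_add_mk, smul_eq_mul]
        push_cast
        rw [hε₂]
        calc G2 = e₂ * (e₂ * G2) := by rw [← mul_assoc, h22, one_mul]
          _ = _ := by rw [h6]; ring
  · refine ⟨m, hlam, fun q => (e₂ * (A q).2, e₁ * (A q).1), ?_, ε₂ * w, ε₁ * z, ?_⟩
    · refine ⟨e₂ * f₂, e₁ * f₁, aux_mul_netrans he₂ hf₂, aux_mul_netrans he₁ hf₁, ?_⟩
      rcases hAc with hAc | hAc
      · right; intro p; simp only [hAc]; apply Prod.ext <;> simp only <;> ring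
      · left; intro p; simp only [hAc]; apply Prod.ext <;> simp only <;> ring
    · intro q hqs
      have h1 := hg' _ (hsub q hqs)
      have h2 := hq q hqs
      rw [h1, hBc] at h2
      beta_reduce
      generalize g (cp n i j q) = G at h2 ⊢
      generalize A q = Q at h2 ⊢
      obtain ⟨G1, G2⟩ := G
      obtain ⟨Q1, Q2⟩ := Q
      have h5 := congrArg Prod.fst h2
      have h6 := congrArg Prod.snd h2
      simp only [Prod.smul_mk, Prod.mk_add_mk, smul_eq_mul] at h5 h6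
      apply Prod.ext
      · simp only [Prod.smul_mk, Prod.mk_add_mk, smul_eq_mul]
        push_cast
        rw [hε₂]
        calc G1 = e₂ * (e₂ * G1) := by rw [← mul_assoc, h22, one_mul]
          _ = _ := by rw [h6]; ring
      · simp only [Prod.smul_mk, Prod.mk_add_mk, smul_eq_mul]
        push_cast
        rw [hε₁]
        calc G2 = e₁ * (e₁ * G2) := by rw [← mul_assoc, h11, one_mul]
          _ = _ := by rw [h5]; ring
theorem NE_swap {lam : ℝ} {D D' : Set (ℝ × ℝ)} {g g' : ℝ × ℝ → ℝ × ℝ} (h : NE lam D g)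
    (hD : ∀ q ∈ D', ((q.2, q.1) : ℝ × ℝ) ∈ D) (hg' : ∀ q ∈ D', g' q = g (q.2, q.1)) : NE lam D' g' := by
  intro n i j hsub hex
  obtain ⟨m, hlam, A, hA, z, w, hq⟩ := hex
  have hsw : ∀ q ∈ Sq, ((q.2, q.1) : ℝ × ℝ) ∈ Sq := by
    rintro q ⟨hX, h1, h2, h3, h4⟩
    refine ⟨?_, h3, h4, h1, h2⟩
    intro k hk
    exact hX k ⟨hk.2, hk.1⟩
  apply h n j i
  · intro q hqs
    exact hD _ (hsub _ (hsw q hqs))
  · refine ⟨m, hlam, fun q => A (q.2, q.1), ?_, z, w, ?_⟩
    · obtain ⟨f₁, f₂, hf₁, hf₂, hAc⟩ := hA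
      refine ⟨f₁, f₂, hf₁, hf₂, ?_⟩
      rcases hAc with hAc | hAc
      · right; intro p; simp only [hAc]
      · left; intro p; simp only [hAc]
    · intro q hqs
      have h1 := hq _ (hsw q hqs)
      rw [hg' _ (hsub _ (hsw q hqs))] at h1
      exact h1

end

end Pool.Agent.Helper746.Car
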