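import Mathlib
import Pool.Agent.Helper746.CarDefs

set_option autoImplicit false

namespace Pool.Agent.Helper746.Car

open Filter Topology

noncomputable section

theorem nl_E (u : ℝ × ℝ) : Real.sqrt (u.1 ^ 2 + u.2 ^ 2) = ‖(⟨u.1, u.2⟩ : ℂ)‖ := by
  rw [Complex.norm_eq_sqrt_sq_add_sq]

theorem nl_E_add (u v : ℝ × ℝ) : Real.sqrt ((u + v).1 ^ 2 + (u + v).2 ^ 2) ≤
    Real.sqrt (u.1 ^ 2 + u.2 ^ 2) + Real.sqrt (v.1 ^ 2 + v.2 ^ 2) := by
  rw [nl_E, nl_E, nl_E]
  have h : (⟨(u + v).1, (u + v).2⟩ : ℂ) = ⟨u.1, u.2⟩ + ⟨v.1, v.2⟩ := by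
    apply Complex.ext <;> simp
  rw [h]
  exact norm_add_le _ _

theorem nl_n1_add (u v : ℝ × ℝ) : n1 (u + v) ≤ n1 u + n1 v := by
  unfold n1
  have h1 := abs_add_le u.1 v.1
  have h2 := abs_add_le u.2 v.2
  simp only [Prod.fst_add, Prod.snd_add]
  linarith

theorem NN_sub {t : ℝ} (ht : 0 ≤ t) (u v : ℝ × ℝ) : NN t (u + v) ≤ NN t u + NN t v := by
  unfold NN
  have h1 := nl_n1_add u v
  have h2 := mul_le_mul_of_nonneg_left (nl_E_add u v) ht
  linarith

theorem nl_n1_nonneg (u : ℝ × ℝ) : 0 ≤ n1 u := by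
  unfold n1; positivity

theorem n1_le_NN {t : ℝ} (ht : 0 ≤ t) (u : ℝ × ℝ) : n1 u ≤ NN t u := by
  unfold NN
  have : 0 ≤ t * Real.sqrt (u.1 ^ 2 + u.2 ^ 2) := by positivity
  linarith

theorem NN_bound {t : ℝ} (ht : 0 ≤ t) (u : ℝ × ℝ) : |NN t u| ≤ (1 + t) * n1 u := by
  rw [abs_of_nonneg ((nl_n1_nonneg u).trans (n1_le_NN ht u))]
  have h1 : Real.sqrt (u.1 ^ 2 + u.2 ^ 2) ≤ n1 u := by
    rw [nl_E]
    exact Complex.norm_le_abs_re_add_abs_im _
  unfold NN
  have h2 := mul_le_mul_of_nonneg_left h1 ht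
  linarith

theorem NN_axis {t : ℝ} {u : ℝ × ℝ} (h : u.1 = 0 ∨ u.2 = 0) : NN t u = (1 + t) * n1 u := by
  unfold NN n1
  rcases h with h | h
  · rw [h]
    simp only [ne_eq, OfNat.ofNat_ne_zero, not_false_eq_true, zero_pow, zero_add, abs_zero,
      Real.sqrt_sq_eq_abs]
    ring
  · rw [h]
    simp only [ne_eq, OfNat.ofNat_ne_zero, not_false_eq_true, zero_pow, add_zero, abs_zero,
      Real.sqrt_sq_eq_abs]
    ring

theorem nl_NN_smul {t : ℝ} {c : ℝ} (hc : 0 ≤ c) (u : ℝ × ℝ) : NN t (c • u) = c * NN t u := by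
  unfold NN n1
  have h1 : (c • u).1 ^ 2 + (c • u).2 ^ 2 = c ^ 2 * (u.1 ^ 2 + u.2 ^ 2) := by
    simp only [Prod.smul_fst, Prod.smul_snd, smul_eq_mul]
    ring
  rw [h1, Real.sqrt_mul (by positivity), Real.sqrt_sq hc]
  simp only [Prod.smul_fst, Prod.smul_snd, smul_eq_mul, abs_mul, abs_of_nonneg hc]
  ring

theorem nl_eq_zero {u : ℝ × ℝ} (h : n1 u ≤ 0) : u = 0 := by
  unfold n1 at h
  have h1 := abs_nonneg u.1
  have h2 := abs_nonneg u.2
  have h3 : |u.1| = 0 := by linarith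
  have h4 : |u.2| = 0 := by linarith
  exact Prod.ext (abs_eq_zero.1 h3) (abs_eq_zero.1 h4)

theorem nl_key {t κ : ℝ} (ht : 0 < t) {γ : ℝ → ℝ × ℝ}
    (h : ∀ x x', x ≤ x' → NN t (γ x' - γ x) = κ * (x' - x)) {x x' x'' : ℝ} (h1 : x ≤ x')
    (h2 : x' ≤ x'') : (x'' - x') • (γ x' - γ x) = (x' - x) • (γ x'' - γ x') := by
  set u := γ x' - γ x with hu
  set v := γ x'' - γ x' with hv
  have huv : u + v = γ x'' - γ x := by rw [hu, hv]; abel
  have e1 : NN t u = κ * (x' - x) := h x x' h1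
  have e2 : NN t v = κ * (x'' - x') := h x' x'' h2
  have e3 : NN t (u + v) = NN t u + NN t v := by
    rw [huv, e1, e2, h x x'' (h1.trans h2)]; ring
  have hκ : 0 ≤ κ := by
    have h3 := h 0 1 zero_le_one
    have h4 := (nl_n1_nonneg (γ 1 - γ 0)).trans (n1_le_NN ht.le (γ 1 - γ 0))
    rw [h3] at h4
    linarith
  rcases hκ.eq_or_lt with hκ0 | hκ0
  · have a1 : u = 0 := nl_eq_zero ((n1_le_NN ht.le u).trans (by rw [e1, ← hκ0]; simp))
    have a2 : v = 0 := nl_eq_zero ((n1_le_NN ht.le v).trans (by rw [e2, ← hκ0]; simp))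
    rw [a1, a2, smul_zero, smul_zero]
  · have hE : Real.sqrt ((u + v).1 ^ 2 + (u + v).2 ^ 2) =
        Real.sqrt (u.1 ^ 2 + u.2 ^ 2) + Real.sqrt (v.1 ^ 2 + v.2 ^ 2) := by
      refine le_antisymm (nl_E_add u v) ?_
      have h3 := nl_n1_add u v
      unfold NN at e3
      by_contra hc
      push Not at hc
      have h4 := mul_lt_mul_of_pos_left hc ht
      linarith
    rw [nl_E, nl_E, nl_E] at hE
    have h3 : (⟨(u + v).1, (u + v).2⟩ : ℂ) = ⟨u.1, u.2⟩ + ⟨v.1, v.2⟩ := by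
      apply Complex.ext <;> simp
    rw [h3] at hE
    have hray : SameRay ℝ (⟨u.1, u.2⟩ : ℂ) ⟨v.1, v.2⟩ := sameRay_iff_norm_add.2 hE
    have h4 := sameRay_iff_norm_smul_eq.1 hray
    set a := ‖(⟨u.1, u.2⟩ : ℂ)‖ with ha
    set b := ‖(⟨v.1, v.2⟩ : ℂ)‖ with hb
    have h5 : a • v = b • u := by
      have h6 := congrArg Complex.re h4
      have h7 := congrArg Complex.im h4
      simp at h6 h7
      apply Prod.ext
      · simpa using h6
      · simpa using h7
    have ha0 : 0 ≤ a := norm_nonneg _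
    have hb0 : 0 ≤ b := norm_nonneg _
    have h6 : a * (κ * (x'' - x')) = b * (κ * (x' - x)) := by
      rw [← e1, ← e2, ← nl_NN_smul ha0, ← nl_NN_smul hb0, h5]
    have h7 : a * (x'' - x') = b * (x' - x) := by
      have : κ * (a * (x'' - x')) = κ * (b * (x' - x)) := by linarith
      exact mul_left_cancel₀ hκ0.ne' this
    by_cases haz : a = 0
    · have h8 : u = 0 := by
        rw [ha, norm_eq_zero] at haz
        have h9 := congrArg Complex.re haz
        have h10 := congrArg Complex.im haz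
        exact Prod.ext h9 h10
      have h9 : x' - x = 0 := by
        rw [h8] at e1
        have : NN t (0 : ℝ × ℝ) = 0 := by simp [NN, n1]
        rw [this] at e1
        rcases mul_eq_zero.1 e1.symm with h10 | h10
        · exact absurd h10 hκ0.ne'
        · exact h10
      rw [h8, h9, smul_zero, zero_smul]
    · have h8 : a • ((x'' - x') • u) = a • ((x' - x) • v) := by
        rw [smul_smul, h7, smul_comm a (x' - x) v, h5, smul_smul, mul_comm]
      exact smul_right_injective _ haz h8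

theorem norm_line {t κ : ℝ} (ht : 0 < t) {γ : ℝ → ℝ × ℝ}
    (h : ∀ x x', x ≤ x' → NN t (γ x' - γ x) = κ * (x' - x)) :
    ∃ v : ℝ × ℝ, NN t v = κ ∧ ∀ x, γ x = γ 0 + x • v := by
  refine ⟨γ 1 - γ 0, ?_, ?_⟩
  · rw [h 0 1 zero_le_one]; ring
  · intro x
    rcases le_total x 0 with hx | hx
    · have h1 := nl_key ht h hx zero_le_one
      have h2 := congrArg Prod.fst h1
      have h3 := congrArg Prod.snd h1
      simp at h2 h3
      apply Prod.ext
      · simp; linarith
      · simp; linarith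
    · rcases le_total x 1 with hx1 | hx1
      · have h1 := nl_key ht h hx hx1
        have h2 := congrArg Prod.fst h1
        have h3 := congrArg Prod.snd h1
        simp at h2 h3
        apply Prod.ext
        · simp; linarith
        · simp; linarith
      · have h1 := nl_key ht h zero_le_one hx1
        have h2 := congrArg Prod.fst h1
        have h3 := congrArg Prod.snd h1
        simp at h2 h3
        apply Prod.ext
        · simp; linarith
        · simp; linarith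

end

end Pool.Agent.Helper746.Car
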