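import Mathlib
import Pool.Agent.Helper746.CarDefs
import Pool.Agent.Helper746.CarBasA
import Pool.Agent.Helper746.CarBasB
import Pool.Agent.Helper746.CarSq
import Pool.Agent.Helper746.CarTrans
import Pool.Agent.Helper746.CarC1
import Pool.Agent.Helper746.CarNstraight

set_option autoImplicit false

namespace Pool.Agent.Helper746.Car

open Filter Topology

noncomputable section

theorem line_axis_par_lineaxis {L lam : ℝ} {G : ℝ × ℝ → ℝ × ℝ} (hG : Good L lam Rw G) {c c' : ℝ}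
    (hc : c ∈ K) (hc0 : 0 ≤ c) (hc1 : c ≤ 1) (hc' : c' ∈ K) (hc0' : 0 ≤ c') (hc1' : c' ≤ 1)
    {v v' : ℝ × ℝ} (h : ∀ x : ℝ, G (x, c) = G (0, c) + x • v)
    (h' : ∀ x : ℝ, G (x, c') = G (0, c') + x • v') : v = v' := by
  have hb : ∀ x : ℝ, ‖G (x, c) - G (x, c')‖ ≤ L * |c - c'| := by
    intro x
    have h1 := hG.upper (x, c) ⟨X_of_K2 x hc, hc0, hc1⟩ (x, c') ⟨X_of_K2 x hc', hc0', hc1'⟩
    rw [dist_eq_norm] at h1
    have h2 : dist ((x, c) : ℝ × ℝ) (x, c') = |c - c'| := by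
      rw [Prod.dist_eq]
      simp [Real.dist_eq]
    rw [h2] at h1
    exact h1
  set B := L * |c - c'| with hB
  have hx : ∀ x : ℝ, 0 ≤ x → x * ‖v - v'‖ ≤ 2 * B := by
    intro x hx
    have e : x • (v - v') = (G (x, c) - G (x, c')) - (G (0, c) - G (0, c')) := by
      rw [h x, h' x, smul_sub]
      abel
    have h3 : ‖x • (v - v')‖ ≤ B + B := by
      rw [e]
      exact (norm_sub_le _ _).trans (add_le_add (hb x) (hb 0))
    rw [norm_smul, Real.norm_eq_abs, abs_of_nonneg hx] at h3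
    linarith
  have hn : ‖v - v'‖ = 0 := by
    by_contra hne
    have hpos : 0 < ‖v - v'‖ := lt_of_le_of_ne (norm_nonneg _) (Ne.symm hne)
    have hB0 : 0 ≤ B := le_trans (norm_nonneg _) (hb 0)
    have := hx ((2 * B + 1) / ‖v - v'‖) (by positivity)
    rw [div_mul_cancel₀ _ (ne_of_gt hpos)] at this
    linarith
  exact sub_eq_zero.mp (norm_eq_zero.mp hn)

theorem line_axis {L lam κ t : ℝ} (hlam : 0 < lam) (hlam1 : lam ≤ 1 / 3) (ht : 0 < t) (hκ : lam ≤ κ)
    {G : ℝ × ℝ → ℝ × ℝ} (hG : Good L lam Rw G)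
    (hline : ∀ c ∈ K, 0 ≤ c → c ≤ 1 → ∀ x x' : ℝ, x ≤ x' → NN t (G (x', c) - G (x, c)) = κ * (x' - x)) :
    ∃ v : ℝ × ℝ, (v.1 = 0 ∨ v.2 = 0) ∧ lam / (1 + t) ≤ n1 v ∧ n1 v ≤ lam ∧
      ∀ c ∈ K, 0 ≤ c → c ≤ 1 → ∀ x : ℝ, G (x, c) = G (0, c) + x • v := by
  obtain ⟨v, hv, hvl⟩ := norm_line (γ := fun x => G (x, 0)) ht (hline 0 K_zero le_rfl zero_le_one)
  have hall : ∀ c ∈ K, 0 ≤ c → c ≤ 1 → ∀ x : ℝ, G (x, c) = G (0, c) + x • v := by
    intro c hc hc0 hc1
    obtain ⟨w, hw, hwl⟩ := norm_line (γ := fun x => G (x, c)) ht (hline c hc hc0 hc1)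
    have : v = w := line_axis_par_lineaxis hG K_zero le_rfl zero_le_one hc hc0 hc1 hvl hwl
    rw [this]
    exact hwl
  have hmem : ∀ c ∈ K, 0 ≤ c → c ≤ 1 → ∀ x : ℝ, ((x, c) : ℝ × ℝ) ∈ Rw := by
    intro c hc hc0 hc1 x
    exact ⟨X_of_K2 x hc, hc0, hc1⟩
  have hax : v.1 = 0 ∨ v.2 = 0 := by
    by_contra hcon
    push Not at hcon
    obtain ⟨hv1, hv2⟩ := hcon
    have hd : n1 (G (0, 1 / 9) - G (0, 0)) < 1 / 9 := by
      have h1 := hG.speedV 0 (1 / 9) 0 (by norm_num) (by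
        intro s hs0 hs1
        refine ⟨X_of_K1 s K_zero, hs0, ?_⟩
        show s ≤ 1
        linarith)
      have : lam * (1 / 9 - 0) < 1 / 9 := by nlinarith
      exact lt_of_le_of_lt h1 this
    obtain ⟨s, hs⟩ := slant_unique hv1 hv2 hd
      (fun x => by
        have := hG.mapsX (x, 0) (hmem 0 K_zero le_rfl zero_le_one x)
        rw [hall 0 K_zero le_rfl zero_le_one x] at this
        exact this)
      (fun x => by
        have := hG.mapsX (x, 1 / 9) (hmem (1 / 9) K_ninth (by norm_num) (by norm_num) x)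
        rw [hall (1 / 9) K_ninth (by norm_num) (by norm_num) x] at this
        exact this)
    rw [← hall 0 K_zero le_rfl zero_le_one s] at hs
    have := hG.inj (hmem (1 / 9) K_ninth (by norm_num) (by norm_num) 0)
      (hmem 0 K_zero le_rfl zero_le_one s) hs
    have h2 := congrArg Prod.snd this
    norm_num at h2
  refine ⟨v, hax, ?_, ?_, hall⟩
  · have h1 := NN_axis (t := t) hax
    rw [hv] at h1
    rw [div_le_iff₀ (by linarith)]
    linarith
  · have h1 := hG.speedH 0 1 0 zero_le_one (by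
      intro s _ _
      exact hmem 0 K_zero le_rfl zero_le_one s)
    have h2 := hall 0 K_zero le_rfl zero_le_one 1
    rw [one_smul] at h2
    rw [h2, add_sub_cancel_left] at h1
    linarith

end

end Pool.Agent.Helper746.Car
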