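import Mathlib
import Pool.Agent.Helper746.CarDefs
import Pool.Agent.Helper746.CarBasA
import Pool.Agent.Helper746.CarBasB
import Pool.Agent.Helper746.CarSq

set_option autoImplicit false

namespace Pool.Agent.Helper746.Car

open Filter Topology

noncomputable section

theorem th_abs4 {a b c : ℝ} (h : |a| + |b| ≤ c) :
    a + b ≤ c ∧ a - b ≤ c ∧ -a + b ≤ c ∧ -a - b ≤ c := by
  have h1 := le_abs_self a
  have h2 := neg_abs_le a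
  have h3 := le_abs_self b
  have h4 := neg_abs_le b
  refine ⟨?_, ?_, ?_, ?_⟩ <;> linarith

theorem th_sixteen (I a1 a2 b1 b2 c1 c2 d1 d2 p1 p2 q1 q2 r1 r2 s1 s2 : ℝ)
    (ha : a1 ≤ I + 1 / 3) (hb : I + 2 / 3 ≤ b1) (hc : c2 ≤ 1 / 3) (hd : 2 / 3 ≤ d2)
    (hap : |a1 - p1| + |a2 - p2| ≤ 1 / 6) (hpc : |c1 - p1| + |c2 - p2| ≤ 1 / 6)
    (hcq : |q1 - c1| + |q2 - c2| ≤ 1 / 6) (hqb : |b1 - q1| + |b2 - q2| ≤ 1 / 6)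
    (har : |r1 - a1| + |r2 - a2| ≤ 1 / 6) (hrd : |d1 - r1| + |d2 - r2| ≤ 1 / 6)
    (hds : |s1 - d1| + |s2 - d2| ≤ 1 / 6) (hsb : |s1 - b1| + |s2 - b2| ≤ 1 / 6) :
    (I + 1 / 3 ≤ p1 ∧ I + 1 / 3 ≤ r1 ∧ q1 ≤ I + 2 / 3 ∧ s1 ≤ I + 2 / 3) ∧
    (1 / 3 ≤ p2 ∧ 1 / 3 ≤ q2 ∧ r2 ≤ 2 / 3 ∧ s2 ≤ 2 / 3) ∧
    (c1 - p1 + (p2 - 1 / 3) = 1 / 6 ∧ q1 - c1 + (q2 - 1 / 3) = 1 / 6 ∧
      d1 - r1 + (2 / 3 - r2) = 1 / 6 ∧ s1 - d1 + (2 / 3 - s2) = 1 / 6) := by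
  obtain ⟨ap1, ap2, ap3, ap4⟩ := th_abs4 hap
  obtain ⟨pc1, pc2, pc3, pc4⟩ := th_abs4 hpc
  obtain ⟨cq1, cq2, cq3, cq4⟩ := th_abs4 hcq
  obtain ⟨qb1, qb2, qb3, qb4⟩ := th_abs4 hqb
  obtain ⟨ar1, ar2, ar3, ar4⟩ := th_abs4 har
  obtain ⟨rd1, rd2, rd3, rd4⟩ := th_abs4 hrd
  obtain ⟨ds1, ds2, ds3, ds4⟩ := th_abs4 hds
  obtain ⟨sb1, sb2, sb3, sb4⟩ := th_abs4 hsb
  clear hap hpc hcq hqb har hrd hds hsb
  have e1 : a1 = I + 1 / 3 := by linarith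
  have e2 : b1 = I + 2 / 3 := by linarith
  have e3 : c2 = 1 / 3 := by linarith
  have e4 : d2 = 2 / 3 := by linarith
  refine ⟨⟨?_, ?_, ?_, ?_⟩, ⟨?_, ?_, ?_, ?_⟩, ?_, ?_, ?_, ?_⟩ <;> linarith

set_option maxHeartbeats 1000000 in
theorem th_hole (U : ℝ × ℝ → ℝ × ℝ)
    (hH : ∀ x x' y : ℝ, x ≤ x' → (y = 1 / 3 ∨ y = 2 / 3) → -1 ≤ x → x' ≤ 2 →
      |(U (x', y)).1 - (U (x, y)).1| + |(U (x', y)).2 - (U (x, y)).2| ≤ x' - x)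
    (hV : ∀ y y' x : ℝ, y ≤ y' → 0 ≤ y → y' ≤ 1 → x ∈ K → -1 ≤ x → x ≤ 2 →
      |(U (x, y')).1 - (U (x, y)).1| + |(U (x, y')).2 - (U (x, y)).2| ≤ y' - y)
    (hX : ∀ p ∈ RwI (-1) 2, U p ∈ X)
    (i : ℤ) (hi1 : -1 ≤ (i : ℝ)) (hi2 : (i : ℝ) ≤ 1)
    (hC : ∀ p : ℝ × ℝ,
      (p = ((i : ℝ) + 1 / 3, 1 / 2) ∨ p = ((i : ℝ) + 2 / 3, 1 / 2) ∨ p = ((i : ℝ) + 1 / 2, 1 / 3) ∨
        p = ((i : ℝ) + 1 / 2, 2 / 3)) → |(U p).1 - p.1| < 1 / 12 ∧ |(U p).2 - p.2| < 1 / 12) :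
    ∃ c1 d1 : ℝ,
    ((i : ℝ) + 1 / 3 ≤ (U ((i : ℝ) + 1 / 3, 1 / 3)).1 ∧ (i : ℝ) + 1 / 3 ≤ (U ((i : ℝ) + 1 / 3, 2 / 3)).1 ∧
      (U ((i : ℝ) + 2 / 3, 1 / 3)).1 ≤ (i : ℝ) + 2 / 3 ∧ (U ((i : ℝ) + 2 / 3, 2 / 3)).1 ≤ (i : ℝ) + 2 / 3) ∧
    (1 / 3 ≤ (U ((i : ℝ) + 1 / 3, 1 / 3)).2 ∧ 1 / 3 ≤ (U ((i : ℝ) + 2 / 3, 1 / 3)).2 ∧
      (U ((i : ℝ) + 1 / 3, 2 / 3)).2 ≤ 2 / 3 ∧ (U ((i : ℝ) + 2 / 3, 2 / 3)).2 ≤ 2 / 3) ∧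
    (c1 - (U ((i : ℝ) + 1 / 3, 1 / 3)).1 + ((U ((i : ℝ) + 1 / 3, 1 / 3)).2 - 1 / 3) = 1 / 6 ∧
      (U ((i : ℝ) + 2 / 3, 1 / 3)).1 - c1 + ((U ((i : ℝ) + 2 / 3, 1 / 3)).2 - 1 / 3) = 1 / 6 ∧
      d1 - (U ((i : ℝ) + 1 / 3, 2 / 3)).1 + (2 / 3 - (U ((i : ℝ) + 1 / 3, 2 / 3)).2) = 1 / 6 ∧
      (U ((i : ℝ) + 2 / 3, 2 / 3)).1 - d1 + (2 / 3 - (U ((i : ℝ) + 2 / 3, 2 / 3)).2) = 1 / 6) := by
  have hK1 : (i : ℝ) + 1 / 3 ∈ K := by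
    have := K_add_int K_third i
    rwa [add_comm] at this
  have hK2 : (i : ℝ) + 2 / 3 ∈ K := by
    have := K_add_int K_two_third i
    rwa [add_comm] at this
  have hA := hC ((i : ℝ) + 1 / 3, 1 / 2) (Or.inl rfl)
  have hB := hC ((i : ℝ) + 2 / 3, 1 / 2) (Or.inr (Or.inl rfl))
  have hCm := hC ((i : ℝ) + 1 / 2, 1 / 3) (Or.inr (Or.inr (Or.inl rfl)))
  have hD := hC ((i : ℝ) + 1 / 2, 2 / 3) (Or.inr (Or.inr (Or.inr rfl)))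
  simp only [abs_lt] at hA hB hCm hD
  have hXA := hX ((i : ℝ) + 1 / 3, 1 / 2) ⟨X_of_K1 _ hK1, by linarith, by linarith, by norm_num, by norm_num⟩
  have hXB := hX ((i : ℝ) + 2 / 3, 1 / 2) ⟨X_of_K1 _ hK2, by linarith, by linarith, by norm_num, by norm_num⟩
  have hXC := hX ((i : ℝ) + 1 / 2, 1 / 3) ⟨X_of_K2 _ K_third, by linarith, by linarith, by norm_num, by norm_num⟩
  have hXD := hX ((i : ℝ) + 1 / 2, 2 / 3) ⟨X_of_K2 _ K_two_third, by linarith, by linarith, by norm_num, by norm_num⟩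
  have ha : (U ((i : ℝ) + 1 / 3, 1 / 2)).1 ≤ (i : ℝ) + 1 / 3 := by
    by_contra hcon
    push Not at hcon
    refine hXA 0 ⟨(mid_zero_iff _).2 ⟨i, hcon, by linarith [hA.1.2]⟩, (mid_zero_iff _).2 ⟨0, ?_, ?_⟩⟩
    · push_cast; linarith [hA.2.1]
    · push_cast; linarith [hA.2.2]
  have hb : (i : ℝ) + 2 / 3 ≤ (U ((i : ℝ) + 2 / 3, 1 / 2)).1 := by
    by_contra hcon
    push Not at hcon
    refine hXB 0 ⟨(mid_zero_iff _).2 ⟨i, by linarith [hB.1.1], hcon⟩, (mid_zero_iff _).2 ⟨0, ?_, ?_⟩⟩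
    · push_cast; linarith [hB.2.1]
    · push_cast; linarith [hB.2.2]
  have hc : (U ((i : ℝ) + 1 / 2, 1 / 3)).2 ≤ 1 / 3 := by
    by_contra hcon
    push Not at hcon
    refine hXC 0 ⟨(mid_zero_iff _).2 ⟨i, by linarith [hCm.1.1], by linarith [hCm.1.2]⟩, (mid_zero_iff _).2 ⟨0, ?_, ?_⟩⟩
    · push_cast; linarith
    · push_cast; linarith [hCm.2.2]
  have hd : 2 / 3 ≤ (U ((i : ℝ) + 1 / 2, 2 / 3)).2 := by
    by_contra hcon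
    push Not at hcon
    refine hXD 0 ⟨(mid_zero_iff _).2 ⟨i, by linarith [hD.1.1], by linarith [hD.1.2]⟩, (mid_zero_iff _).2 ⟨0, ?_, ?_⟩⟩
    · push_cast; linarith [hD.2.1]
    · push_cast; linarith
  have hap := hV (1 / 3) (1 / 2) ((i : ℝ) + 1 / 3) (by norm_num) (by norm_num) (by norm_num) hK1 (by linarith) (by linarith)
  have har := hV (1 / 2) (2 / 3) ((i : ℝ) + 1 / 3) (by norm_num) (by norm_num) (by norm_num) hK1 (by linarith) (by linarith)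
  have hqb := hV (1 / 3) (1 / 2) ((i : ℝ) + 2 / 3) (by norm_num) (by norm_num) (by norm_num) hK2 (by linarith) (by linarith)
  have hsb := hV (1 / 2) (2 / 3) ((i : ℝ) + 2 / 3) (by norm_num) (by norm_num) (by norm_num) hK2 (by linarith) (by linarith)
  have hpc := hH ((i : ℝ) + 1 / 3) ((i : ℝ) + 1 / 2) (1 / 3) (by linarith) (Or.inl rfl) (by linarith) (by linarith)
  have hcq := hH ((i : ℝ) + 1 / 2) ((i : ℝ) + 2 / 3) (1 / 3) (by linarith) (Or.inl rfl) (by linarith) (by linarith)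
  have hrd := hH ((i : ℝ) + 1 / 3) ((i : ℝ) + 1 / 2) (2 / 3) (by linarith) (Or.inr rfl) (by linarith) (by linarith)
  have hds := hH ((i : ℝ) + 1 / 2) ((i : ℝ) + 2 / 3) (2 / 3) (by linarith) (Or.inr rfl) (by linarith) (by linarith)
  refine ⟨(U ((i : ℝ) + 1 / 2, 1 / 3)).1, (U ((i : ℝ) + 1 / 2, 2 / 3)).1, ?_⟩
  refine th_sixteen (i : ℝ) _ _ _ _ _ _ _ _ _ _ _ _ _ _ _ _ ha hb hc hd
    (hap.trans (by norm_num)) (hpc.trans (by linarith)) (hcq.trans (by linarith)) (hqb.trans (by norm_num))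
    (har.trans (by norm_num)) (hrd.trans (by linarith)) (hds.trans (by linarith)) (hsb.trans (by norm_num))

/-- pure linear algebra for the corners: `p q r s` corners of the middle hole, `m n` right corners of
the left hole, `k l` left corners of the right hole -/
theorem th_final (p1 p2 q1 q2 r1 r2 s1 s2 k1 k2 l1 l2 m1 m2 n1 n2 c d km1 km2 kq1 kq2 : ℝ)
    (hm : -(2 / 3) ≤ km1 ∧ -(2 / 3) ≤ km2 ∧ m1 ≤ -(1 / 3) ∧ n1 ≤ -(1 / 3))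
    (h0 : 1 / 3 ≤ p1 ∧ 1 / 3 ≤ r1 ∧ q1 ≤ 2 / 3 ∧ s1 ≤ 2 / 3)
    (h2 : 1 / 3 ≤ p2 ∧ 1 / 3 ≤ q2 ∧ r2 ≤ 2 / 3 ∧ s2 ≤ 2 / 3)
    (h3 : c - p1 + (p2 - 1 / 3) = 1 / 6 ∧ q1 - c + (q2 - 1 / 3) = 1 / 6 ∧
      d - r1 + (2 / 3 - r2) = 1 / 6 ∧ s1 - d + (2 / 3 - s2) = 1 / 6)
    (h4 : 4 / 3 ≤ k1 ∧ 4 / 3 ≤ l1 ∧ kq1 ≤ 5 / 3 ∧ kq2 ≤ 5 / 3)
    (t1 : |k1 - q1| + |k2 - q2| ≤ 2 / 3) (t2 : |l1 - s1| + |l2 - s2| ≤ 2 / 3)
    (t3 : |p1 - m1| + |p2 - m2| ≤ 2 / 3) (t4 : |r1 - n1| + |r2 - n2| ≤ 2 / 3) :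
    (p1 = 1 / 3 ∧ p2 = 1 / 3) ∧ (q1 = 2 / 3 ∧ q2 = 1 / 3) ∧ (r1 = 1 / 3 ∧ r2 = 2 / 3) ∧
    (s1 = 2 / 3 ∧ s2 = 2 / 3) ∧ (k1 = 4 / 3 ∧ k2 = 1 / 3) ∧ (l1 = 4 / 3 ∧ l2 = 2 / 3) := by
  obtain ⟨-, -, m13, m14⟩ := hm
  obtain ⟨a11, a12, a13, a14⟩ := h0
  obtain ⟨a21, a22, a23, a24⟩ := h2
  obtain ⟨a31, a32, a33, a34⟩ := h3
  obtain ⟨b11, b12, -, -⟩ := h4
  obtain ⟨s11, s12, s13, s14⟩ := th_abs4 t1
  obtain ⟨s21, s22, s23, s24⟩ := th_abs4 t2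
  obtain ⟨s31, s32, s33, s34⟩ := th_abs4 t3
  obtain ⟨s41, s42, s43, s44⟩ := th_abs4 t4
  clear t1 t2 t3 t4
  have f1 : p1 = 1 / 3 := by linarith
  have f2 : q1 = 2 / 3 := by linarith
  have f3 : r1 = 1 / 3 := by linarith
  have f4 : s1 = 2 / 3 := by linarith
  have f5 : k1 = 4 / 3 := by linarith
  have f6 : l1 = 4 / 3 := by linarith
  have g1 : p2 = 1 / 3 := by linarith
  have g2 : q2 = 1 / 3 := by linarith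
  have g3 : r2 = 2 / 3 := by linarith
  have g4 : s2 = 2 / 3 := by linarith
  have g5 : k2 = 1 / 3 := by linarith
  have g6 : l2 = 2 / 3 := by linarith
  exact ⟨⟨f1, g1⟩, ⟨f2, g2⟩, ⟨f3, g3⟩, ⟨f4, g4⟩, ⟨f5, g5⟩, ⟨f6, g6⟩⟩

set_option maxHeartbeats 1000000 in
theorem th_main (U : ℝ × ℝ → ℝ × ℝ)
    (hH : ∀ x x' y : ℝ, x ≤ x' → (y = 1 / 3 ∨ y = 2 / 3) → -1 ≤ x → x' ≤ 2 →
      |(U (x', y)).1 - (U (x, y)).1| + |(U (x', y)).2 - (U (x, y)).2| ≤ x' - x)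
    (hV : ∀ y y' x : ℝ, y ≤ y' → 0 ≤ y → y' ≤ 1 → x ∈ K → -1 ≤ x → x ≤ 2 →
      |(U (x, y')).1 - (U (x, y)).1| + |(U (x, y')).2 - (U (x, y)).2| ≤ y' - y)
    (hX : ∀ p ∈ RwI (-1) 2, U p ∈ X)
    (hC : ∀ i : ℤ, (i = -1 ∨ i = 0 ∨ i = 1) → ∀ p : ℝ × ℝ,
      (p = ((i : ℝ) + 1 / 3, 1 / 2) ∨ p = ((i : ℝ) + 2 / 3, 1 / 2) ∨ p = ((i : ℝ) + 1 / 2, 1 / 3) ∨
        p = ((i : ℝ) + 1 / 2, 2 / 3)) → |(U p).1 - p.1| < 1 / 12 ∧ |(U p).2 - p.2| < 1 / 12) :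
    ((U (1 / 3, 1 / 3)).1 = 1 / 3 ∧ (U (1 / 3, 1 / 3)).2 = 1 / 3) ∧
    ((U (2 / 3, 1 / 3)).1 = 2 / 3 ∧ (U (2 / 3, 1 / 3)).2 = 1 / 3) ∧
    ((U (1 / 3, 2 / 3)).1 = 1 / 3 ∧ (U (1 / 3, 2 / 3)).2 = 2 / 3) ∧
    ((U (2 / 3, 2 / 3)).1 = 2 / 3 ∧ (U (2 / 3, 2 / 3)).2 = 2 / 3) ∧
    ((U (4 / 3, 1 / 3)).1 = 4 / 3 ∧ (U (4 / 3, 1 / 3)).2 = 1 / 3) ∧
    ((U (4 / 3, 2 / 3)).1 = 4 / 3 ∧ (U (4 / 3, 2 / 3)).2 = 2 / 3) := by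
  obtain ⟨cm, dm, hm1, hm2, hm3⟩ := th_hole U hH hV hX (-1) (by norm_num) (by norm_num) (hC (-1) (by simp))
  obtain ⟨c0, d0, h01, h02, h03⟩ := th_hole U hH hV hX 0 (by norm_num) (by norm_num) (hC 0 (by simp))
  obtain ⟨c1, d1, h11, h12, h13⟩ := th_hole U hH hV hX 1 (by norm_num) (by norm_num) (hC 1 (by simp))
  have e1 : ((-1 : ℤ) : ℝ) + 1 / 3 = -(2 / 3) := by norm_num
  have e2 : ((-1 : ℤ) : ℝ) + 2 / 3 = -(1 / 3) := by norm_num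
  have e3 : ((0 : ℤ) : ℝ) + 1 / 3 = 1 / 3 := by norm_num
  have e4 : ((0 : ℤ) : ℝ) + 2 / 3 = 2 / 3 := by norm_num
  have e5 : ((1 : ℤ) : ℝ) + 1 / 3 = 4 / 3 := by norm_num
  have e6 : ((1 : ℤ) : ℝ) + 2 / 3 = 5 / 3 := by norm_num
  rw [e1, e2] at hm1 hm2 hm3
  rw [e3, e4] at h01 h02 h03
  rw [e5, e6] at h11 h12 h13
  exact th_final _ _ _ _ _ _ _ _ _ _ _ _ _ _ _ _ _ _ _ _ _ _
    hm1 h01 h02 h03 h11
    ((hH (2 / 3) (4 / 3) (1 / 3) (by norm_num) (Or.inl rfl) (by norm_num) (by norm_num)).trans (by norm_num))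
    ((hH (2 / 3) (4 / 3) (2 / 3) (by norm_num) (Or.inr rfl) (by norm_num) (by norm_num)).trans (by norm_num))
    ((hH (-(1 / 3)) (1 / 3) (1 / 3) (by norm_num) (Or.inl rfl) (by norm_num) (by norm_num)).trans (by norm_num))
    ((hH (-(1 / 3)) (1 / 3) (2 / 3) (by norm_num) (Or.inr rfl) (by norm_num) (by norm_num)).trans (by norm_num))

theorem three_holes {L lam : ℝ} {m : ℕ} (hlam : lam = (1 / 3) ^ m) {g : ℝ × ℝ → ℝ × ℝ}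
    (hg : Good L lam (RwI (-1) 2) g) (z w : ℤ)
    (hclose : ∀ i : ℤ, (i = -1 ∨ i = 0 ∨ i = 1) → ∀ p : ℝ × ℝ,
      (p = ((i : ℝ) + 1 / 3, 1 / 2) ∨ p = ((i : ℝ) + 2 / 3, 1 / 2) ∨ p = ((i : ℝ) + 1 / 2, 1 / 3) ∨
        p = ((i : ℝ) + 1 / 2, 2 / 3)) → dist (g p) (lam • (p + ((z : ℝ), (w : ℝ)))) < lam / 12) :
    ∀ p : ℝ × ℝ, (p = (1 / 3, 1 / 3) ∨ p = (2 / 3, 1 / 3) ∨ p = (1 / 3, 2 / 3) ∨ p = (2 / 3, 2 / 3) ∨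
      p = (4 / 3, 1 / 3) ∨ p = (4 / 3, 2 / 3)) → g p = lam • (p + ((z : ℝ), (w : ℝ))) := by
  have hl : 0 < lam := by rw [hlam]; positivity
  set U : ℝ × ℝ → ℝ × ℝ := fun p => ((g p).1 / lam - z, (g p).2 / lam - w) with hU
  have hH : ∀ x x' y : ℝ, x ≤ x' → (y = 1 / 3 ∨ y = 2 / 3) → -1 ≤ x → x' ≤ 2 →
      |(U (x', y)).1 - (U (x, y)).1| + |(U (x', y)).2 - (U (x, y)).2| ≤ x' - x := by
    intro x x' y hx hy h1 h2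
    have hyK : y ∈ K := by
      rcases hy with rfl | rfl
      · exact K_third
      · exact K_two_third
    have hy0 : 0 ≤ y ∧ y ≤ 1 := by rcases hy with rfl | rfl <;> norm_num
    have h3 := hg.speedH x x' y hx (fun t ht1 ht2 =>
      ⟨X_of_K2 t hyK, by show (-1:ℝ) ≤ t; linarith, by show t ≤ 2; linarith, hy0.1, hy0.2⟩)
    simp only [n1, Prod.fst_sub, Prod.snd_sub] at h3
    have e1 : (U (x', y)).1 - (U (x, y)).1 = ((g (x', y)).1 - (g (x, y)).1) / lam := by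
      simp only [hU]; ring
    have e2 : (U (x', y)).2 - (U (x, y)).2 = ((g (x', y)).2 - (g (x, y)).2) / lam := by
      simp only [hU]; ring
    rw [e1, e2, abs_div, abs_div, abs_of_pos hl, ← add_div, div_le_iff₀ hl]
    linarith
  have hV : ∀ y y' x : ℝ, y ≤ y' → 0 ≤ y → y' ≤ 1 → x ∈ K → -1 ≤ x → x ≤ 2 →
      |(U (x, y')).1 - (U (x, y)).1| + |(U (x, y')).2 - (U (x, y)).2| ≤ y' - y := by
    intro y y' x hy h0 h1 hx h2 h3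
    have h4 := hg.speedV y y' x hy (fun t ht1 ht2 =>
      ⟨X_of_K1 t hx, h2, h3, by show (0:ℝ) ≤ t; linarith, by show t ≤ 1; linarith⟩)
    simp only [n1, Prod.fst_sub, Prod.snd_sub] at h4
    have e1 : (U (x, y')).1 - (U (x, y)).1 = ((g (x, y')).1 - (g (x, y)).1) / lam := by
      simp only [hU]; ring
    have e2 : (U (x, y')).2 - (U (x, y)).2 = ((g (x, y')).2 - (g (x, y)).2) / lam := by
      simp only [hU]; ring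
    rw [e1, e2, abs_div, abs_div, abs_of_pos hl, ← add_div, div_le_iff₀ hl]
    linarith
  have hX : ∀ p ∈ RwI (-1) 2, U p ∈ X := by
    intro p hp
    have h1 := hg.mapsX p hp
    have h2 : (((g p).1 / lam, (g p).2 / lam) : ℝ × ℝ) ∈ X := by
      apply X_of_lam (m := m)
      rw [← hlam]
      have : lam • (((g p).1 / lam, (g p).2 / lam) : ℝ × ℝ) = g p := by
        ext
        · simp only [Prod.smul_fst, smul_eq_mul]; field_simp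
        · simp only [Prod.smul_snd, smul_eq_mul]; field_simp
      rw [this]
      exact h1
    exact (X_sub_int (((g p).1 / lam, (g p).2 / lam) : ℝ × ℝ) z w).2 h2
  have hC : ∀ i : ℤ, (i = -1 ∨ i = 0 ∨ i = 1) → ∀ p : ℝ × ℝ,
      (p = ((i : ℝ) + 1 / 3, 1 / 2) ∨ p = ((i : ℝ) + 2 / 3, 1 / 2) ∨ p = ((i : ℝ) + 1 / 2, 1 / 3) ∨
        p = ((i : ℝ) + 1 / 2, 2 / 3)) → |(U p).1 - p.1| < 1 / 12 ∧ |(U p).2 - p.2| < 1 / 12 := by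
    intro i hi p hp
    have h1 := hclose i hi p hp
    rw [Prod.dist_eq, max_lt_iff] at h1
    obtain ⟨h2, h3⟩ := h1
    rw [Real.dist_eq] at h2 h3
    simp only [Prod.smul_fst, Prod.smul_snd, Prod.fst_add, Prod.snd_add, smul_eq_mul] at h2 h3
    have e1 : (U p).1 - p.1 = ((g p).1 - lam * (p.1 + z)) / lam := by
      simp only [hU]; field_simp; ring
    have e2 : (U p).2 - p.2 = ((g p).2 - lam * (p.2 + w)) / lam := by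
      simp only [hU]; field_simp; ring
    rw [e1, e2, abs_div, abs_div, abs_of_pos hl, div_lt_iff₀ hl, div_lt_iff₀ hl]
    constructor
    · linarith
    · linarith
  obtain ⟨m1, m2, m3, m4, m5, m6⟩ := th_main U hH hV hX hC
  have key : ∀ p : ℝ × ℝ, (U p).1 = p.1 ∧ (U p).2 = p.2 → g p = lam • (p + ((z : ℝ), (w : ℝ))) := by
    rintro p ⟨h1, h2⟩
    simp only [hU] at h1 h2
    ext
    · simp only [Prod.smul_fst, Prod.fst_add, smul_eq_mul]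
      rw [← h1]; field_simp; ring
    · simp only [Prod.smul_snd, Prod.snd_add, smul_eq_mul]
      rw [← h2]; field_simp; ring
  intro p hp
  rcases hp with rfl | rfl | rfl | rfl | rfl | rfl
  · exact key _ m1
  · exact key _ m2
  · exact key _ m3
  · exact key _ m4
  · exact key _ m5
  · exact key _ m6

end

end Pool.Agent.Helper746.Car
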