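import Mathlib
import Pool.Agent.Helper746.CarDefs
import Pool.Agent.Helper746.CarBasA
import Pool.Agent.Helper746.CarBasB
import Pool.Agent.Helper746.CarSq
import Pool.Agent.Helper746.CarTrans
import Pool.Agent.Helper746.CarSqex
import Pool.Agent.Helper746.CarTh

set_option autoImplicit false

namespace Pool.Agent.Helper746.Car

open Filter Topology

noncomputable section

theorem aux833_sym_nelim {A : ℝ × ℝ → ℝ × ℝ} (hA : IsSym A) :
    (∀ p q, A (p + q) = A p + A q) ∧ (∀ (c : ℝ) p, A (c • p) = c • A p) ∧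
    (∀ z w : ℤ, ∃ z' w' : ℤ, A ((z : ℝ), (w : ℝ)) = ((z' : ℝ), (w' : ℝ))) ∧ Continuous A := by
  obtain ⟨e1, e2, h1, h2, h⟩ := hA
  have hint : ∀ e : ℝ, (e = 1 ∨ e = -1) → ∀ z : ℤ, ∃ z' : ℤ, e * (z : ℝ) = z' := by
    intro e he z
    rcases he with he | he
    · exact ⟨z, by rw [he, one_mul]⟩
    · exact ⟨-z, by rw [he]; push_cast; ring⟩
  rcases h with h | h
  · refine ⟨fun p q => ?_, fun c p => ?_, fun z w => ?_, ?_⟩
    · rw [h, h, h]
      ext <;> simp only [Prod.fst_add, Prod.snd_add] <;> ring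
    · rw [h, h]
      ext <;> simp only [Prod.smul_fst, Prod.smul_snd, smul_eq_mul] <;> ring
    · obtain ⟨z', hz⟩ := hint e1 h1 z
      obtain ⟨w', hw⟩ := hint e2 h2 w
      exact ⟨z', w', by rw [h]; simp only [hz, hw]⟩
    · have : A = fun p => (e1 * p.1, e2 * p.2) := funext h
      rw [this]
      fun_prop
  · refine ⟨fun p q => ?_, fun c p => ?_, fun z w => ?_, ?_⟩
    · rw [h, h, h]
      ext <;> simp only [Prod.fst_add, Prod.snd_add] <;> ring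
    · rw [h, h]
      ext <;> simp only [Prod.smul_fst, Prod.smul_snd, smul_eq_mul] <;> ring
    · obtain ⟨z', hz⟩ := hint e1 h1 w
      obtain ⟨w', hw⟩ := hint e2 h2 z
      exact ⟨z', w', by rw [h]; simp only [hz, hw]⟩
    · have : A = fun p => (e1 * p.2, e2 * p.1) := funext h
      rw [this]
      fun_prop

theorem aux833_inv_nelim {A : ℝ × ℝ → ℝ × ℝ} (hA : IsSym A) :
    ∃ B : ℝ × ℝ → ℝ × ℝ, IsSym B ∧ (∀ p, B (A p) = p) ∧ (∀ p, A (B p) = p) := by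
  obtain ⟨e1, e2, h1, h2, h⟩ := hA
  have s1 : e1 * e1 = 1 := by rcases h1 with h | h <;> rw [h] <;> norm_num
  have s2 : e2 * e2 = 1 := by rcases h2 with h | h <;> rw [h] <;> norm_num
  rcases h with h | h
  · refine ⟨fun p => (e1 * p.1, e2 * p.2), ⟨e1, e2, h1, h2, Or.inl (fun p => rfl)⟩, fun p => ?_,
      fun p => ?_⟩
    · rw [h]
      ext
      · simp only [← mul_assoc, s1, one_mul]
      · simp only [← mul_assoc, s2, one_mul]
    · rw [h]
      ext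
      · simp only [← mul_assoc, s1, one_mul]
      · simp only [← mul_assoc, s2, one_mul]
  · refine ⟨fun p => (e2 * p.2, e1 * p.1), ⟨e2, e1, h2, h1, Or.inr (fun p => rfl)⟩, fun p => ?_,
      fun p => ?_⟩
    · rw [h]
      ext
      · simp only [← mul_assoc, s2, one_mul]
      · simp only [← mul_assoc, s1, one_mul]
    · rw [h]
      ext
      · simp only [← mul_assoc, s1, one_mul]
      · simp only [← mul_assoc, s2, one_mul]

theorem aux833_sq_nelim {q : ℝ × ℝ} (hq : q ∈ RwI (-1) 2) : cp 1 1 0 q ∈ Sq := by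
  obtain ⟨hX, h1, h2, h3, h4⟩ := hq
  have e1 : (cp 1 1 0 q).1 = (q.1 + ((1 : ℤ) : ℝ)) / 3 ^ 1 := by
    simp only [cp]; push_cast; ring
  have e2 : (cp 1 1 0 q).2 = q.2 / 3 ^ 1 := by
    simp only [cp]; push_cast; ring
  refine ⟨?_, ?_, ?_, ?_, ?_⟩
  · intro n
    rintro ⟨m1, m2⟩
    rw [e1] at m1
    rw [e2] at m2
    cases n with
    | zero =>
      refine not_mid_zero (t := q.2 / 3 ^ 1) 0 ?_ ?_ m2
      · push_cast; rw [pow_one]; linarith
      · push_cast; rw [pow_one]; linarith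
    | succ n =>
      rw [mid_div n 1, mid_add_int] at m1
      rw [mid_div n 1] at m2
      exact hX n ⟨m1, m2⟩
  · rw [e1, pow_one]; push_cast; linarith
  · rw [e1, pow_one]; push_cast; linarith
  · rw [e2, pow_one]; linarith
  · rw [e2, pow_one]; linarith

theorem NE_lim {L lam : ℝ} (g : ℕ → ℝ × ℝ → ℝ × ℝ) (hg : ∀ k : ℕ, Good L lam (RwI (-(k : ℝ)) k) (g k))
    (hNE : ∀ k : ℕ, NE lam (RwI (-(k : ℝ)) k) (g k)) (G : ℝ × ℝ → ℝ × ℝ)
    (hlim : ∀ p ∈ Rw, Tendsto (fun k => g k p) (hyperfilter ℕ : Filter ℕ) (𝓝 (G p))) : NE lam Rw G := by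
  intro n i j hcell hEx
  obtain ⟨m, hlam, A, hA, z, w, hG⟩ := hEx
  obtain ⟨B, hB, hBA, hAB⟩ := aux833_inv_nelim hA
  obtain ⟨hAadd, hAsmul, hAint, hAc⟩ := aux833_sym_nelim hA
  obtain ⟨hBadd, hBsmul, hBint, hBc⟩ := aux833_sym_nelim hB
  obtain ⟨z'', w'', hzw⟩ := hBint z w
  have hlam0 : 0 < lam := by rw [hlam]; positivity
  obtain ⟨z', hz'⟩ : ∃ z' : ℤ, z' = 1 + 3 * z'' := ⟨_, rfl⟩
  obtain ⟨w', hw'⟩ : ∃ w' : ℤ, w' = 3 * w'' := ⟨_, rfl⟩
  -- membership of the cells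
  have hmem : ∀ k : ℕ, (|(i : ℝ)| + 1 ≤ k) → ∀ q ∈ Sq, cp n i j q ∈ RwI (-(k : ℝ)) k := by
    intro k hk q hq
    have h1 := hcell q hq
    have h2 : |(cp n i j q).1| ≤ k := by
      have h3 : (1 : ℝ) ≤ 3 ^ n := one_le_pow₀ (by norm_num)
      have h4 : |(cp n i j q).1| = |(i : ℝ) + q.1| / 3 ^ n := by
        simp only [cp]
        rw [abs_div, abs_of_pos (show (0 : ℝ) < 3 ^ n by positivity)]
      rw [h4]
      refine (div_le_self (abs_nonneg _) h3).trans ((abs_add_le _ _).trans ?_)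
      have h5 : |q.1| ≤ 1 := by
        rw [abs_le]
        exact ⟨by linarith [hq.2.1], hq.2.2.1⟩
      linarith
    rw [abs_le] at h2
    exact ⟨h1.1, h2.1, h2.2, h1.2.1, h1.2.2⟩
  -- the rescaled maps
  obtain ⟨g', hg'⟩ : ∃ g' : ℕ → ℝ × ℝ → ℝ × ℝ, g' = fun k q =>
    (3 : ℝ) ^ (n + 1) • B (g k (cp n i j (cp 1 1 0 q))) := ⟨_, rfl⟩
  have hcp : ∀ q : ℝ × ℝ, ((3 : ℝ) ^ (n + 1))⁻¹ • (q + ((3 * (i : ℝ) + 1), (3 * (j : ℝ)))) =
      cp n i j (cp 1 1 0 q) := by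
    intro q
    have h3 : (3 : ℝ) ^ n ≠ 0 := by positivity
    ext
    · simp only [cp, Prod.smul_fst, Prod.fst_add, smul_eq_mul]
      push_cast
      field_simp
      ring
    · simp only [cp, Prod.smul_snd, Prod.snd_add, smul_eq_mul]
      push_cast
      field_simp
      ring
  have hgood : ∀ k : ℕ, (|(i : ℝ)| + 1 ≤ k) → Good L lam (RwI (-1) 2) (g' k) := by
    intro k hk
    refine Good.trans (hg k) (n + 1) (A := fun p => p) (B := B)
      ⟨1, 1, Or.inl rfl, Or.inl rfl, Or.inl (fun p => by simp)⟩ hB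
      ((3 * (i : ℝ) + 1), (3 * (j : ℝ))) 0 0 ?_ ?_
    · intro q hq
      rw [hcp]
      exact hmem k hk _ (aux833_sq_nelim hq)
    · intro q hq
      rw [hcp, hg']
      have h0 : (((0 : ℤ) : ℝ), ((0 : ℤ) : ℝ)) = (0 : ℝ × ℝ) := by
        ext <;> simp
      rw [h0, sub_zero]
  have hconv : ∀ p ∈ RwI (-1) 2, Tendsto (fun k => g' k p) (hyperfilter ℕ : Filter ℕ)
      (𝓝 (lam • (p + ((z' : ℝ), (w' : ℝ))))) := by
    intro p hp
    have h1 := aux833_sq_nelim hp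
    have h2 := hlim _ (hcell _ h1)
    have h3 : Tendsto (fun k => (3 : ℝ) ^ (n + 1) • B (g k (cp n i j (cp 1 1 0 p))))
        (hyperfilter ℕ : Filter ℕ) (𝓝 ((3 : ℝ) ^ (n + 1) • B (G (cp n i j (cp 1 1 0 p))))) :=
      ((hBc.tendsto _).comp h2).const_smul _
    have h4 : (3 : ℝ) ^ (n + 1) • B (G (cp n i j (cp 1 1 0 p))) =
        lam • (p + ((z' : ℝ), (w' : ℝ))) := by
      rw [hG _ h1, hBsmul, hBadd, hBA, hzw, hz', hw']
      have h3 : (3 : ℝ) ^ n ≠ 0 := by positivity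
      ext
      · simp only [cp, Prod.smul_fst, Prod.fst_add, smul_eq_mul]
        push_cast
        field_simp
        ring
      · simp only [cp, Prod.smul_snd, Prod.snd_add, smul_eq_mul]
        push_cast
        field_simp
        ring
    rw [hg', ← h4]
    exact h3
  have hclose1 : ∀ p ∈ RwI (-1) 2, ∀ᶠ k in (hyperfilter ℕ : Filter ℕ),
      dist (g' k p) (lam • (p + ((z' : ℝ), (w' : ℝ)))) < lam / 12 := by
    intro p hp
    exact (Metric.tendsto_nhds.1 (hconv p hp)) (lam / 12) (by positivity)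
  have hclose2 : ∀ i' : ℤ, (i' = -1 ∨ i' = 0 ∨ i' = 1) → ∀ᶠ k in (hyperfilter ℕ : Filter ℕ),
      ∀ p : ℝ × ℝ, (p = ((i' : ℝ) + 1 / 3, 1 / 2) ∨ p = ((i' : ℝ) + 2 / 3, 1 / 2) ∨
        p = ((i' : ℝ) + 1 / 2, 1 / 3) ∨ p = ((i' : ℝ) + 1 / 2, 2 / 3)) →
        dist (g' k p) (lam • (p + ((z' : ℝ), (w' : ℝ)))) < lam / 12 := by
    intro i' hi'
    have hi1 : (-1 : ℝ) ≤ i' := by
      rcases hi' with h | h | h <;> rw [h] <;> norm_num
    have hi2 : (i' : ℝ) ≤ 1 := by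
      rcases hi' with h | h | h <;> rw [h] <;> norm_num
    have hX1 : (((i' : ℝ) + 1 / 3, 1 / 2) : ℝ × ℝ) ∈ X := by
      rw [add_comm]; exact X_of_K1 _ (K_add_int K_third i')
    have hX2 : (((i' : ℝ) + 2 / 3, 1 / 2) : ℝ × ℝ) ∈ X := by
      rw [add_comm]; exact X_of_K1 _ (K_add_int K_two_third i')
    have hX3 : (((i' : ℝ) + 1 / 2, 1 / 3) : ℝ × ℝ) ∈ X := X_of_K2 _ K_third
    have hX4 : (((i' : ℝ) + 1 / 2, 2 / 3) : ℝ × ℝ) ∈ X := X_of_K2 _ K_two_third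
    have m1 : (((i' : ℝ) + 1 / 3, 1 / 2) : ℝ × ℝ) ∈ RwI (-1) 2 :=
      ⟨hX1, by dsimp only; linarith, by dsimp only; linarith, by norm_num, by norm_num⟩
    have m2 : (((i' : ℝ) + 2 / 3, 1 / 2) : ℝ × ℝ) ∈ RwI (-1) 2 :=
      ⟨hX2, by dsimp only; linarith, by dsimp only; linarith, by norm_num, by norm_num⟩
    have m3 : (((i' : ℝ) + 1 / 2, 1 / 3) : ℝ × ℝ) ∈ RwI (-1) 2 :=
      ⟨hX3, by dsimp only; linarith, by dsimp only; linarith, by norm_num, by norm_num⟩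
    have m4 : (((i' : ℝ) + 1 / 2, 2 / 3) : ℝ × ℝ) ∈ RwI (-1) 2 :=
      ⟨hX4, by dsimp only; linarith, by dsimp only; linarith, by norm_num, by norm_num⟩
    filter_upwards [hclose1 _ m1, hclose1 _ m2, hclose1 _ m3, hclose1 _ m4] with k k1 k2 k3 k4
    intro p hp
    rcases hp with h | h | h | h
    · rw [h]; exact k1
    · rw [h]; exact k2
    · rw [h]; exact k3
    · rw [h]; exact k4
  have hlarge : ∀ᶠ k : ℕ in (hyperfilter ℕ : Filter ℕ), |(i : ℝ)| + 1 ≤ (k : ℝ) := by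
    have h1 : ∀ᶠ k : ℕ in atTop, |(i : ℝ)| + 1 ≤ (k : ℝ) :=
      tendsto_natCast_atTop_atTop.eventually_ge_atTop _
    exact Nat.hyperfilter_le_atTop h1
  obtain ⟨k, hk, hm1, h0, h1⟩ := (hlarge.and ((hclose2 (-1) (Or.inl rfl)).and
    ((hclose2 0 (Or.inr (Or.inl rfl))).and (hclose2 1 (Or.inr (Or.inr rfl)))))).exists
  have hgk := hgood k hk
  have hex := three_holes hlam hgk z' w' (by
    intro i' hi'
    rcases hi' with h | h | h
    · rw [h]; exact hm1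
    · rw [h]; exact h0
    · rw [h]; exact h1)
  obtain ⟨b, hb⟩ : ∃ b : ℝ × ℝ, b = lam • ((z' : ℝ), (w' : ℝ)) := ⟨_, rfl⟩
  simp only [smul_add] at hex
  rw [← hb] at hex
  have hseg : ∀ c ∈ K, 0 ≤ c → c ≤ 1 → ∀ t : ℝ, 2 / 3 ≤ t → t ≤ 4 / 3 →
      ((t, c) : ℝ × ℝ) ∈ RwI (-1) 2 := by
    intro c hc hc0 hc1 t ht1 ht2
    exact ⟨X_of_K2 _ hc, by dsimp only; linarith, by dsimp only; linarith, hc0, hc1⟩
  have hA1 := sq_h hgk (x := 2 / 3) (x' := 4 / 3) (y := 1 / 3)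
    (hseg _ K_third (by norm_num) (by norm_num))
    (hex _ (Or.inr (Or.inl rfl))) (hex _ (Or.inr (Or.inr (Or.inr (Or.inr (Or.inl rfl))))))
    1 (by norm_num) (by norm_num)
  have hA2 := sq_h hgk (x := 2 / 3) (x' := 4 / 3) (y := 2 / 3)
    (hseg _ K_two_third (by norm_num) (by norm_num))
    (hex _ (Or.inr (Or.inr (Or.inr (Or.inl rfl)))))
    (hex _ (Or.inr (Or.inr (Or.inr (Or.inr (Or.inr rfl))))))
    1 (by norm_num) (by norm_num)
  have hsub : ∀ q ∈ Sq, cp 1 2 1 q ∈ RwI (-1) 2 := by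
    intro q hq
    have h := Sq_sub hq (a := 2) (b := 1) (by norm_num) (by norm_num) (by norm_num)
    exact ⟨h.1, by linarith [h.2.1], by linarith [h.2.2.1], h.2.2.2.1, h.2.2.2.2⟩
  have c00 : cp 1 2 1 (0, 0) = (2 / 3, 1 / 3) := by
    simp only [cp]; push_cast; ext <;> norm_num
  have c10 : cp 1 2 1 (1, 0) = (1, 1 / 3) := by
    simp only [cp]; push_cast; ext <;> norm_num
  have c01 : cp 1 2 1 (0, 1) = (2 / 3, 2 / 3) := by
    simp only [cp]; push_cast; ext <;> norm_num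
  have c11 : cp 1 2 1 (1, 1) = (1, 2 / 3) := by
    simp only [cp]; push_cast; ext <;> norm_num
  have hce := cell_exact hlam0.le hgk 1 2 1 hsub (b := b)
    (by rw [c00]; exact hex _ (Or.inr (Or.inl rfl)))
    (by rw [c10]; exact hA1)
    (by rw [c01]; exact hex _ (Or.inr (Or.inr (Or.inr (Or.inl rfl)))))
    (by rw [c11]; exact hA2)
  -- contradiction
  refine hNE k (n + 1 + 1) (3 ^ 1 * (3 ^ 1 * i + 1) + 2) (3 ^ 1 * (3 ^ 1 * j + 0) + 1) ?_ ?_
  · intro q hq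
    rw [← cp_cp, ← cp_cp]
    exact hmem k hk _ (aux833_sq_nelim (hsub q hq))
  · obtain ⟨z1, w1, h1⟩ := hAint 2 1
    obtain ⟨z2, w2, h2⟩ := hAint z' w'
    refine ⟨m, hlam, A, hA, z1 + 3 * z2, w1 + 3 * w2, ?_⟩
    intro q hq
    rw [← cp_cp, ← cp_cp]
    have h3 := hce q hq
    rw [hg'] at h3
    simp only at h3
    have h4 : B (g k (cp n i j (cp 1 1 0 (cp 1 2 1 q)))) =
        ((3 : ℝ) ^ (n + 1))⁻¹ • (lam • cp 1 2 1 q + b) := by
      rw [← h3, smul_smul, inv_mul_cancel₀ (by positivity), one_smul]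
    have h5 : g k (cp n i j (cp 1 1 0 (cp 1 2 1 q))) =
        A (((3 : ℝ) ^ (n + 1))⁻¹ • (lam • cp 1 2 1 q + b)) := by
      rw [← h4, hAB]
    have h6 : cp 1 2 1 q = (3 : ℝ)⁻¹ • (q + (((2 : ℤ) : ℝ), ((1 : ℤ) : ℝ))) := by
      ext
      · simp only [cp, Prod.smul_fst, Prod.fst_add, smul_eq_mul]
        ring
      · simp only [cp, Prod.smul_snd, Prod.snd_add, smul_eq_mul]
        ring
    rw [h5, h6, hb, hAsmul, hAadd, hAsmul, hAsmul, hAadd, hAsmul, h1, h2]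
    ext
    · simp only [Prod.smul_fst, Prod.fst_add, smul_eq_mul]
      push_cast
      field_simp
      ring
    · simp only [Prod.smul_snd, Prod.snd_add, smul_eq_mul]
      push_cast
      field_simp
      ring

end

end Pool.Agent.Helper746.Car
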