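import Mathlib
import Pool.Agent.Helper746.CarDefs
import Pool.Agent.Helper746.CarBasA
import Pool.Agent.Helper746.CarBasB

set_option autoImplicit false

namespace Pool.Agent.Helper746.Car

open Filter Topology

noncomputable section

/-- the cell column (or row) `i` of level `n` lies in a middle third of level `m` -/
def Blk_presence (m n : ℕ) (i : ℤ) : Prop :=
  ∃ a : ℤ, 3 ^ (n - m - 1) * (3 * a + 1) ≤ i ∧ i + 1 ≤ 3 ^ (n - m - 1) * (3 * a + 2)

theorem pow_split'_presence {m n : ℕ} (h : m < n) : (3 : ℝ) ^ n = 3 ^ (m + 1) * 3 ^ (n - m - 1) := by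
  rw [← pow_add]; congr 1; omega

theorem scale_eq_presence {m n : ℕ} (h : m < n) (u : ℝ) : (3 : ℝ) ^ (m + 1) * (u / 3 ^ n) = u / 3 ^ (n - m - 1) := by
  rw [pow_split'_presence h]
  field_simp

theorem blk_of_mid_presence {m n : ℕ} (h : m < n) {i : ℤ} {s : ℝ} (h0 : 0 ≤ s) (h1 : s ≤ 1)
    (hm : Mid m (((i : ℝ) + s) / 3 ^ n)) : Blk_presence m n i := by
  obtain ⟨a, ha1, ha2⟩ := hm
  rw [scale_eq_presence h] at ha1 ha2
  have hD : (0 : ℝ) < 3 ^ (n - m - 1) := by positivity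
  rw [lt_div_iff₀ hD] at ha1
  rw [div_lt_iff₀ hD] at ha2
  refine ⟨a, ?_, ?_⟩
  · apply Int.lt_add_one_iff.mp
    have : (3 : ℝ) ^ (n - m - 1) * (3 * (a : ℝ) + 1) < (i : ℝ) + 1 := by linarith
    exact_mod_cast this
  · apply Int.add_one_le_iff.mpr
    have : (i : ℝ) < (3 : ℝ) ^ (n - m - 1) * (3 * (a : ℝ) + 2) := by linarith
    exact_mod_cast this

theorem mid_of_blk_presence {m n : ℕ} (h : m < n) {i : ℤ} {s : ℝ} (h0 : 0 < s) (h1 : s < 1)
    (hb : Blk_presence m n i) : Mid m (((i : ℝ) + s) / 3 ^ n) := by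
  obtain ⟨a, ha1, ha2⟩ := hb
  have ha1' : (3 : ℝ) ^ (n - m - 1) * (3 * (a : ℝ) + 1) ≤ (i : ℝ) := by exact_mod_cast ha1
  have ha2' : (i : ℝ) + 1 ≤ (3 : ℝ) ^ (n - m - 1) * (3 * (a : ℝ) + 2) := by exact_mod_cast ha2
  have hD : (0 : ℝ) < 3 ^ (n - m - 1) := by positivity
  refine ⟨a, ?_, ?_⟩
  · rw [scale_eq_presence h, lt_div_iff₀ hD]; linarith
  · rw [scale_eq_presence h, div_lt_iff₀ hD]; linarith

theorem blk_above_presence {m n : ℕ} (h : m < n) {J : ℤ} {y : ℝ} (hy : 3 ^ n * y = (J : ℝ)) (hb : Blk_presence m n J)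
    (hm : ¬ Mid m y) : ∃ a : ℤ, J = 3 ^ (n - m - 1) * (3 * a + 1) := by
  obtain ⟨a, ha1, ha2⟩ := hb
  have h3 : (0 : ℝ) < 3 ^ n := by positivity
  have hy' : y = (J : ℝ) / 3 ^ n := by rw [eq_div_iff h3.ne']; linarith
  have hD : (0 : ℝ) < 3 ^ (n - m - 1) := by positivity
  refine ⟨a, ?_⟩
  apply le_antisymm _ ha1
  by_contra hcon
  push Not at hcon
  apply hm
  have hcon' : (3 : ℝ) ^ (n - m - 1) * (3 * (a : ℝ) + 1) < (J : ℝ) := by exact_mod_cast hcon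
  have ha2' : (J : ℝ) + 1 ≤ (3 : ℝ) ^ (n - m - 1) * (3 * (a : ℝ) + 2) := by exact_mod_cast ha2
  refine ⟨a, ?_, ?_⟩
  · rw [hy', scale_eq_presence h, lt_div_iff₀ hD]; linarith
  · rw [hy', scale_eq_presence h, div_lt_iff₀ hD]; linarith

theorem blk_below_presence {m n : ℕ} (h : m < n) {J : ℤ} {y : ℝ} (hy : 3 ^ n * y = (J : ℝ)) (hb : Blk_presence m n (J - 1))
    (hm : ¬ Mid m y) : ∃ a : ℤ, J = 3 ^ (n - m - 1) * (3 * a + 2) := by
  obtain ⟨a, ha1, ha2⟩ := hb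
  have h3 : (0 : ℝ) < 3 ^ n := by positivity
  have hy' : y = (J : ℝ) / 3 ^ n := by rw [eq_div_iff h3.ne']; linarith
  have hD : (0 : ℝ) < 3 ^ (n - m - 1) := by positivity
  refine ⟨a, ?_⟩
  apply le_antisymm (by linarith)
  by_contra hcon
  push Not at hcon
  apply hm
  have hcon' : (J : ℝ) < (3 : ℝ) ^ (n - m - 1) * (3 * (a : ℝ) + 2) := by exact_mod_cast hcon
  have ha1' : (3 : ℝ) ^ (n - m - 1) * (3 * (a : ℝ) + 1) ≤ (J : ℝ) - 1 := by exact_mod_cast ha1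
  refine ⟨a, ?_, ?_⟩
  · rw [hy', scale_eq_presence h, lt_div_iff₀ hD]; linarith
  · rw [hy', scale_eq_presence h, div_lt_iff₀ hD]; linarith

theorem three_pow_ne_presence {u v : ℕ} {a b : ℤ} (h : (3 : ℤ) ^ u * (3 * a + 1) = 3 ^ v * (3 * b + 2)) : False := by
  rcases le_total u v with huv | huv
  · obtain ⟨w, rfl⟩ := Nat.exists_eq_add_of_le huv
    rw [pow_add, mul_assoc] at h
    have h2 := mul_left_cancel₀ (pow_ne_zero u (by norm_num : (3 : ℤ) ≠ 0)) h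
    rcases Nat.eq_zero_or_pos w with h0 | h0
    · subst h0; rw [pow_zero, one_mul] at h2; omega
    · obtain ⟨w', rfl⟩ := Nat.exists_eq_succ_of_ne_zero h0.ne'
      rw [pow_succ, mul_comm ((3:ℤ)^w') 3, mul_assoc] at h2
      omega
  · obtain ⟨w, rfl⟩ := Nat.exists_eq_add_of_le huv
    rw [pow_add, mul_assoc] at h
    have h2 := mul_left_cancel₀ (pow_ne_zero v (by norm_num : (3 : ℤ) ≠ 0)) h
    rcases Nat.eq_zero_or_pos w with h0 | h0
    · subst h0; rw [pow_zero, one_mul] at h2; omega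
    · obtain ⟨w', rfl⟩ := Nat.exists_eq_succ_of_ne_zero h0.ne'
      rw [pow_succ, mul_comm ((3:ℤ)^w') 3, mul_assoc] at h2
      omega

theorem cell_ok_presence {n : ℕ} {i j : ℤ} (hi0 : 0 ≤ i) (hi1 : i + 1 ≤ 3 ^ n) (hj0 : 0 ≤ j) (hj1 : j + 1 ≤ 3 ^ n)
    (hb : ∀ m < n, Blk_presence m n i → ¬ Blk_presence m n j) {q : ℝ × ℝ} (hq : q ∈ Sq) : cp n i j q ∈ Sq := by
  obtain ⟨hX, h1, h2, h3, h4⟩ := hq
  have hn : (0 : ℝ) < 3 ^ n := by positivity
  have hi0' : (0 : ℝ) ≤ i := by exact_mod_cast hi0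
  have hj0' : (0 : ℝ) ≤ j := by exact_mod_cast hj0
  have hi1' : (i : ℝ) + 1 ≤ 3 ^ n := by exact_mod_cast hi1
  have hj1' : (j : ℝ) + 1 ≤ 3 ^ n := by exact_mod_cast hj1
  refine ⟨?_, ?_, ?_, ?_, ?_⟩
  · intro m
    rintro ⟨hm1, hm2⟩
    have hm1' : Mid m (((i : ℝ) + q.1) / 3 ^ n) := hm1
    have hm2' : Mid m (((j : ℝ) + q.2) / 3 ^ n) := hm2
    by_cases hmn : m < n
    · exact hb m hmn (blk_of_mid_presence hmn h1 h2 hm1') (blk_of_mid_presence hmn h3 h4 hm2')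
    · obtain ⟨m', rfl⟩ := Nat.exists_eq_add_of_le (Nat.le_of_not_lt hmn)
      rw [add_comm n m', mid_div, add_comm, mid_add_int] at hm1' hm2'
      exact hX m' ⟨hm1', hm2'⟩
  · show 0 ≤ ((i : ℝ) + q.1) / 3 ^ n
    positivity
  · show ((i : ℝ) + q.1) / 3 ^ n ≤ 1
    rw [div_le_one hn]; linarith
  · show 0 ≤ ((j : ℝ) + q.2) / 3 ^ n
    positivity
  · show ((j : ℝ) + q.2) / 3 ^ n ≤ 1
    rw [div_le_one hn]; linarith

theorem presence {x x' y : ℝ} (hxx : x < x') (hseg : ∀ t, x ≤ t → t ≤ x' → ((t, y) : ℝ × ℝ) ∈ Sq) (n : ℕ) :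
    ∃ j : ℤ, 0 ≤ j ∧ j < 3 ^ n ∧ (j : ℝ) ≤ 3 ^ n * y ∧ 3 ^ n * y ≤ (j : ℝ) + 1 ∧
      ∀ i : ℤ, 3 ^ n * x ≤ (i : ℝ) → (i : ℝ) + 1 ≤ 3 ^ n * x' → ∀ q ∈ Sq, cp n i j q ∈ Sq := by
  have hn : (0 : ℝ) < 3 ^ n := by positivity
  obtain ⟨_, hx0, _, hy0, hy1⟩ := hseg x le_rfl hxx.le
  obtain ⟨_, _, hx1, _, _⟩ := hseg x' hxx.le le_rfl
  have hx0' : 0 ≤ x := hx0
  have hx1' : x' ≤ 1 := hx1
  have hy0' : 0 ≤ y := hy0
  have hy1' : y ≤ 1 := hy1
  -- blocked columns make `y` not middle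
  have hkey : ∀ i : ℤ, 3 ^ n * x ≤ (i : ℝ) → (i : ℝ) + 1 ≤ 3 ^ n * x' → ∀ m < n, Blk_presence m n i → ¬ Mid m y := by
    intro i hi1 hi2 m hm hb hy
    have h1 : Mid m (((i : ℝ) + 1 / 2) / 3 ^ n) := mid_of_blk_presence hm (by norm_num) (by norm_num) hb
    have h2 : x ≤ ((i : ℝ) + 1 / 2) / 3 ^ n := by rw [le_div_iff₀ hn]; linarith
    have h3 : ((i : ℝ) + 1 / 2) / 3 ^ n ≤ x' := by rw [div_le_iff₀ hn]; linarith
    exact (hseg _ h2 h3).1 m ⟨h1, hy⟩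
  have hrange : ∀ i : ℤ, 3 ^ n * x ≤ (i : ℝ) → (i : ℝ) + 1 ≤ 3 ^ n * x' → 0 ≤ i ∧ i + 1 ≤ 3 ^ n := by
    intro i hi1 hi2
    constructor
    · have : (0 : ℝ) ≤ i := le_trans (by positivity) hi1
      exact_mod_cast this
    · have : (i : ℝ) + 1 ≤ 3 ^ n := hi2.trans (by nlinarith)
      exact_mod_cast this
  by_cases hint : ∃ J : ℤ, 3 ^ n * y = (J : ℝ)
  · obtain ⟨J, hJ⟩ := hint
    have hJ0 : 0 ≤ J := by
      have : (0 : ℝ) ≤ J := by rw [← hJ]; positivity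
      exact_mod_cast this
    have hJ1 : J ≤ 3 ^ n := by
      have : (J : ℝ) ≤ 3 ^ n := by rw [← hJ]; nlinarith
      exact_mod_cast this
    by_cases habove : ∃ i : ℤ, 3 ^ n * x ≤ (i : ℝ) ∧ (i : ℝ) + 1 ≤ 3 ^ n * x' ∧ ∃ m < n, Blk_presence m n i ∧ Blk_presence m n J
    · obtain ⟨i0, hi1, hi2, m0, hm0, hb1, hb2⟩ := habove
      obtain ⟨a, ha⟩ := blk_above_presence hm0 hJ hb2 (hkey i0 hi1 hi2 m0 hm0 hb1)
      have hJpos : 0 < J := by
        rcases lt_or_eq_of_le hJ0 with h | h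
        · exact h
        · exfalso
          rw [ha] at h
          have := mul_eq_zero.mp h.symm
          rcases this with h | h
          · exact absurd h (by positivity)
          · omega
      refine ⟨J - 1, by omega, by omega, ?_, ?_, ?_⟩
      · rw [hJ]; push_cast; linarith
      · rw [hJ]; push_cast; linarith
      · intro i hi1' hi2' q hq
        obtain ⟨hr1, hr2⟩ := hrange i hi1' hi2'
        apply cell_ok_presence hr1 hr2 (by omega) (by omega) _ hq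
        intro m hm hb3 hb4
        obtain ⟨b, hb⟩ := blk_below_presence hm hJ hb4 (hkey i hi1' hi2' m hm hb3)
        rw [ha] at hb
        exact three_pow_ne_presence hb
    · push Not at habove
      by_cases hJn : J < 3 ^ n
      · refine ⟨J, hJ0, hJn, ?_, ?_, ?_⟩
        · rw [hJ]
        · rw [hJ]; linarith
        · intro i hi1' hi2' q hq
          obtain ⟨hr1, hr2⟩ := hrange i hi1' hi2'
          apply cell_ok_presence hr1 hr2 hJ0 (by omega) _ hq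
          intro m hm hb3 hb4
          exact habove i hi1' hi2' m hm hb3 hb4
      · have hJeq : J = 3 ^ n := le_antisymm hJ1 (not_lt.mp hJn)
        have h3n : (0 : ℤ) < 3 ^ n := by positivity
        refine ⟨J - 1, by omega, by omega, ?_, ?_, ?_⟩
        · rw [hJ]; push_cast; linarith
        · rw [hJ]; push_cast; linarith
        · intro i hi1' hi2' q hq
          obtain ⟨hr1, hr2⟩ := hrange i hi1' hi2'
          apply cell_ok_presence hr1 hr2 (by omega) (by omega) _ hq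
          intro m hm hb3 hb4
          obtain ⟨b, hb⟩ := blk_below_presence hm hJ hb4 (hkey i hi1' hi2' m hm hb3)
          rw [hJeq] at hb
          apply three_pow_ne_presence (u := n) (v := n - m - 1) (a := 0) (b := b)
          rw [← hb]; ring
  · -- not an integer
    have hfl := Int.floor_le (3 ^ n * y)
    have hfl2 := Int.lt_floor_add_one (3 ^ n * y)
    set j : ℤ := ⌊3 ^ n * y⌋ with hj
    have hne : (j : ℝ) ≠ 3 ^ n * y := fun h => hint ⟨j, h.symm⟩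
    have hlt : (j : ℝ) < 3 ^ n * y := lt_of_le_of_ne hfl hne
    have hj0 : 0 ≤ j := by
      rw [hj]; exact Int.floor_nonneg.mpr (by positivity)
    have hj1 : j < 3 ^ n := by
      have : (j : ℝ) < 3 ^ n := lt_of_lt_of_le hlt (by nlinarith)
      exact_mod_cast this
    refine ⟨j, hj0, hj1, hfl, hfl2.le, ?_⟩
    intro i hi1' hi2' q hq
    obtain ⟨hr1, hr2⟩ := hrange i hi1' hi2'
    apply cell_ok_presence hr1 hr2 hj0 (by omega) _ hq
    intro m hm hb3 hb4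
    apply hkey i hi1' hi2' m hm hb3
    have h1 := mid_of_blk_presence hm (s := 3 ^ n * y - j) (by linarith) (by linarith) hb4
    have h2 : ((j : ℝ) + (3 ^ n * y - j)) / 3 ^ n = y := by
      field_simp; ring
    rwa [h2] at h1

end

end Pool.Agent.Helper746.Car
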