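import Mathlib
import Pool.Agent.Helper746.CarDefs
import Pool.Agent.Helper746.CarBasA
import Pool.Agent.Helper746.CarBasB
import Pool.Agent.Helper746.CarSq
import Pool.Agent.Helper746.CarTrans
import Pool.Agent.Helper746.CarNstraight
import Pool.Agent.Helper746.CarNetrans
import Pool.Agent.Helper746.CarPresence

set_option autoImplicit false

namespace Pool.Agent.Helper746.Car

open Filter Topology

noncomputable section

theorem NN_zero'_windows (t : ℝ) : NN t 0 = 0 := by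
  unfold NN n1
  simp

theorem NN_smul_windows {c : ℝ} (hc : 0 ≤ c) (t : ℝ) (u : ℝ × ℝ) : NN t (c • u) = c * NN t u := by
  unfold NN n1
  simp only [Prod.smul_fst, Prod.smul_snd, smul_eq_mul]
  rw [abs_mul, abs_mul, abs_of_nonneg hc]
  have h : (c * u.1) ^ 2 + (c * u.2) ^ 2 = c ^ 2 * (u.1 ^ 2 + u.2 ^ 2) := by ring
  rw [h, Real.sqrt_mul (sq_nonneg c), Real.sqrt_sq hc]
  ring

theorem NN_le_windows {t : ℝ} (ht : 0 ≤ t) (u : ℝ × ℝ) : NN t u ≤ (1 + t) * n1 u :=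
  (le_abs_self _).trans (NN_bound ht u)

theorem NN_tri_windows {t : ℝ} (ht : 0 ≤ t) (a b c : ℝ × ℝ) :
    NN t (c - a) ≤ NN t (c - b) + NN t (b - a) := by
  have h : c - a = (c - b) + (b - a) := by abel
  rw [h]
  exact NN_sub ht _ _

theorem n1_comm_windows (u v : ℝ × ℝ) : n1 (u - v) = n1 (v - u) := by
  unfold n1
  simp only [Prod.fst_sub, Prod.snd_sub]
  rw [abs_sub_comm, abs_sub_comm u.2]

theorem sym_swap_windows : IsSym (fun p : ℝ × ℝ => (p.2, p.1)) :=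
  ⟨1, 1, Or.inl rfl, Or.inl rfl, Or.inr (fun p => by simp)⟩

theorem sym_id'_windows : IsSym (fun p : ℝ × ℝ => p) :=
  ⟨1, 1, Or.inl rfl, Or.inl rfl, Or.inl (fun p => by simp)⟩

theorem Sq_swap_windows {p : ℝ × ℝ} (h : p ∈ Sq) : ((p.2, p.1) : ℝ × ℝ) ∈ Sq :=
  ⟨(X_sym sym_swap_windows p).2 h.1, h.2.2.2.1, h.2.2.2.2, h.2.1, h.2.2.1⟩

/-- the cells below a row of blocks -/
theorem cells_sub_windows {n k : ℕ} (hk : 1 ≤ k) {i1 j : ℤ}
    (hcell : ∀ c : ℤ, 0 ≤ c → c + 1 ≤ k → ∀ q ∈ Sq, cp n (i1 + c) j q ∈ Sq) :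
    ∀ p ∈ RwI 0 k, ((((i1 : ℝ) + p.1) / 3 ^ n, ((j : ℝ) + p.2) / 3 ^ n) : ℝ × ℝ) ∈ Sq := by
  intro p hp
  obtain ⟨hX, h0, hk', h2, h3⟩ := hp
  have main : ∀ c : ℤ, 0 ≤ c → c + 1 ≤ k → (c : ℝ) ≤ p.1 → p.1 ≤ c + 1 →
      ((((i1 : ℝ) + p.1) / 3 ^ n, ((j : ℝ) + p.2) / 3 ^ n) : ℝ × ℝ) ∈ Sq := by
    intro c hc0 hck hc1 hc2
    have hq : p - ((c : ℝ), ((0 : ℤ) : ℝ)) ∈ Sq := by
      refine ⟨(X_sub_int p c 0).2 hX, ?_, ?_, ?_, ?_⟩
      · change 0 ≤ p.1 - c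
        linarith
      · change p.1 - c ≤ 1
        linarith
      · change 0 ≤ p.2 - ((0 : ℤ) : ℝ)
        push_cast
        linarith
      · change p.2 - ((0 : ℤ) : ℝ) ≤ 1
        push_cast
        linarith
    have h4 := hcell c hc0 hck _ hq
    have e : cp n (i1 + c) j (p - ((c : ℝ), ((0 : ℤ) : ℝ))) =
        (((i1 : ℝ) + p.1) / 3 ^ n, ((j : ℝ) + p.2) / 3 ^ n) := by
      unfold cp
      apply Prod.ext
      · change (((i1 + c : ℤ) : ℝ) + (p.1 - c)) / 3 ^ n = ((i1 : ℝ) + p.1) / 3 ^ n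
        push_cast
        congr 1
        ring
      · change ((j : ℝ) + (p.2 - ((0 : ℤ) : ℝ))) / 3 ^ n = ((j : ℝ) + p.2) / 3 ^ n
        push_cast
        congr 1
        ring
    rw [← e]
    exact h4
  rcases lt_or_ge p.1 k with hlt | hge
  · have hf1 := Int.floor_le p.1
    have hf2 := Int.lt_floor_add_one p.1
    have hf0 : 0 ≤ ⌊p.1⌋ := Int.floor_nonneg.2 h0
    have hf3 : ⌊p.1⌋ + 1 ≤ k := by
      have h5 : ⌊p.1⌋ < (k : ℤ) := by
        rw [Int.floor_lt]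
        exact_mod_cast hlt
      omega
    exact main ⌊p.1⌋ hf0 hf3 hf1 hf2.le
  · have h5 : p.1 = k := le_antisymm hk' hge
    refine main ((k : ℤ) - 1) (by omega) (by omega) ?_ ?_
    · push_cast
      linarith
    · push_cast
      linarith

/-- summation over the blocks -/
theorem blocks_sum_windows {t : ℝ} (ht : 0 ≤ t) (F : ℝ → ℝ × ℝ) (P : ℕ → ℝ) (c β : ℝ) (hc : 0 ≤ c)
    (q : ℕ) (h : ∀ r < q, c * NN t (F (P (r + 1)) - F (P r)) ≤ β) :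
    c * NN t (F (P q) - F (P 0)) ≤ q * β := by
  induction q with
  | zero => rw [sub_self, NN_zero'_windows]; simp
  | succ q ih =>
    have h1 := ih (fun r hr => h r (by omega))
    have h2 := h q (by omega)
    have h3 := mul_le_mul_of_nonneg_left (NN_tri_windows ht (F (P 0)) (F (P q)) (F (P (q + 1)))) hc
    push_cast
    rw [mul_add] at h3
    linarith

/-- a block with almost extremal displacement -/
theorem good_block_windows {t κ : ℝ} (ht : 0 ≤ t) (hκ : 0 ≤ κ) (F : ℝ → ℝ × ℝ) (n k : ℕ) (hk : 1 ≤ k)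
    {x x' : ℝ} (hl : 4 * ((k : ℝ) + 1) ≤ 3 ^ n * (x' - x))
    (hH : ∀ a b, x ≤ a → a ≤ b → b ≤ x' → NN t (F b - F a) ≤ κ * (b - a))
    (hex : (κ - 1 / (2 * (k : ℝ) + 2)) * (x' - x) ≤ NN t (F x' - F x)) :
    ∃ i1 : ℤ, 3 ^ n * x ≤ i1 ∧ (i1 : ℝ) + k ≤ 3 ^ n * x' ∧
      κ * k - 1 ≤ 3 ^ n * NN t (F (((i1 : ℝ) + k) / 3 ^ n) - F ((i1 : ℝ) / 3 ^ n)) := by
  have hN : (0 : ℝ) < 3 ^ n := by positivity
  have hk0 : (1 : ℝ) ≤ k := by exact_mod_cast hk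
  obtain ⟨A, hA⟩ : ∃ A, A = 3 ^ n * x := ⟨_, rfl⟩
  obtain ⟨B, hB⟩ : ∃ B, B = 3 ^ n * x' := ⟨_, rfl⟩
  have hAB : 4 * ((k : ℝ) + 1) ≤ B - A := by rw [hA, hB]; linarith
  have hi1 := Int.le_ceil A
  have hi2 := Int.ceil_lt_add_one A
  obtain ⟨i0, hi0⟩ : ∃ i0 : ℤ, i0 = ⌈A⌉ := ⟨_, rfl⟩
  rw [← hi0] at hi1 hi2
  obtain ⟨q, hq⟩ : ∃ q : ℕ, q = ⌊(B - i0) / k⌋₊ := ⟨_, rfl⟩
  have hq1 : (q : ℝ) * k ≤ B - i0 := by
    have : (q : ℝ) ≤ (B - i0) / k := by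
      rw [hq]
      exact Nat.floor_le (div_nonneg (by linarith) (by linarith))
    rwa [le_div_iff₀ (by linarith)] at this
  have hq2 : B - i0 < ((q : ℝ) + 1) * k := by
    have : (B - i0) / k < (q : ℝ) + 1 := by
      rw [hq]
      exact Nat.lt_floor_add_one _
    rwa [div_lt_iff₀ (by linarith)] at this
  obtain ⟨P, hP⟩ : ∃ P : ℕ → ℝ, P = fun r : ℕ => ((i0 : ℝ) + k * (r : ℝ)) / 3 ^ n := ⟨_, rfl⟩
  have hP0 : P 0 = (i0 : ℝ) / 3 ^ n := by rw [hP]; simp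
  have hxA : x = A / 3 ^ n := by rw [hA]; field_simp
  have hxB : x' = B / 3 ^ n := by rw [hB]; field_simp
  by_contra hcon
  push Not at hcon
  have hb : ∀ r < q, 3 ^ n * NN t (F (P (r + 1)) - F (P r)) ≤ κ * k - 1 := by
    intro r hr
    have h1 := hcon (i0 + k * r) ?_ ?_
    · have e1 : P (r + 1) = (((i0 + k * r : ℤ) : ℝ) + k) / 3 ^ n := by
        rw [hP]; push_cast; congr 1; ring
      have e2 : P r = ((i0 + k * r : ℤ) : ℝ) / 3 ^ n := by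
        rw [hP]; push_cast; rfl
      rw [e1, e2]
      exact h1.le
    · rw [← hA]
      push_cast
      have : (0 : ℝ) ≤ (k : ℝ) * r := by positivity
      linarith
    · rw [← hB]
      push_cast
      have h2 : (r : ℝ) + 1 ≤ q := by exact_mod_cast hr
      have h3 : ((r : ℝ) + 1) * k ≤ q * k := mul_le_mul_of_nonneg_right h2 (by linarith)
      linarith
  have hsum := blocks_sum_windows ht F P (3 ^ n) (κ * k - 1) hN.le q hb
  have hx0 : x ≤ P 0 := by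
    rw [hP0, hxA]
    exact div_le_div_of_nonneg_right hi1 hN.le
  have hPq : P q = ((i0 : ℝ) + k * q) / 3 ^ n := by rw [hP]
  have hqx : P q ≤ x' := by
    rw [hPq, hxB]
    apply div_le_div_of_nonneg_right _ hN.le
    linarith
  have h0q : P 0 ≤ P q := by
    rw [hP0, hPq]
    apply div_le_div_of_nonneg_right _ hN.le
    have : (0 : ℝ) ≤ (k : ℝ) * q := by positivity
    linarith
  have g1 := hH x (P 0) le_rfl hx0 (h0q.trans hqx)
  have g2 := hH (P q) x' (hx0.trans h0q) hqx le_rfl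
  have g3 := NN_tri_windows ht (F x) (F (P 0)) (F x')
  have g4 := NN_tri_windows ht (F (P 0)) (F (P q)) (F x')
  have g5 : NN t (F x' - F x) ≤ κ * (x' - P q) + NN t (F (P q) - F (P 0)) + κ * (P 0 - x) := by
    linarith
  have g6 := mul_le_mul_of_nonneg_left (hex.trans g5) hN.le
  have e3 : 3 ^ n * (κ * (x' - P q) + NN t (F (P q) - F (P 0)) + κ * (P 0 - x)) =
      κ * (B - (i0 + k * q)) + 3 ^ n * NN t (F (P q) - F (P 0)) + κ * (i0 - A) := by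
    rw [hPq, hP0, hxA, hxB]
    field_simp
  have e4 : 3 ^ n * ((κ - 1 / (2 * (k : ℝ) + 2)) * (x' - x)) =
      (κ - 1 / (2 * (k : ℝ) + 2)) * (B - A) := by
    rw [hA, hB]; ring
  rw [e3, e4] at g6
  have g7 : (q : ℝ) ≤ 1 / (2 * (k : ℝ) + 2) * (B - A) := by nlinarith
  rw [one_div, inv_mul_eq_div, le_div_iff₀ (by linarith)] at g7
  nlinarith

/-- windows from a horizontal segment -/
theorem win_core_windows {L lam t κ : ℝ} (hlam : 0 < lam) (hlam1 : lam ≤ 1 / 3) (ht : 0 < t) (ht1 : t ≤ 1)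
    {f : ℝ × ℝ → ℝ × ℝ} (hf : Good L lam Sq f) (hNE : NE lam Sq f) (hκ : 0 ≤ κ)
    (hH : ∀ x x' y : ℝ, x ≤ x' → (∀ s, x ≤ s → s ≤ x' → ((s, y) : ℝ × ℝ) ∈ Sq) →
      NN t (f (x', y) - f (x, y)) ≤ κ * (x' - x))
    (k : ℕ) (hk : 1 ≤ k) {x x' y : ℝ} (hxx : x < x')
    (hseg : ∀ s, x ≤ s → s ≤ x' → ((s, y) : ℝ × ℝ) ∈ Sq)
    (hex : (κ - 1 / (2 * (k : ℝ) + 2)) * (x' - x) ≤ NN t (f (x', y) - f (x, y))) :
    ∃ g : ℝ × ℝ → ℝ × ℝ, Good L lam (RwI 0 k) g ∧ NE lam (RwI 0 k) g ∧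
      (∀ c ∈ K, 0 ≤ c → c ≤ 1 → ∀ x x' : ℝ, 0 ≤ x → x ≤ x' → x' ≤ k →
        NN t (g (x', c) - g (x, c)) ≤ κ * (x' - x)) ∧
      κ * k - 5 ≤ NN t (g ((k : ℝ), 0) - g (0, 0)) := by
  have hd : 0 < x' - x := by linarith
  obtain ⟨n, hn⟩ := pow_unbounded_of_one_lt (4 * ((k : ℝ) + 1) / (x' - x))
    (by norm_num : (1 : ℝ) < 3)
  rw [div_lt_iff₀ hd] at hn
  have hN : (0 : ℝ) < 3 ^ n := by positivity
  have hk0 : (1 : ℝ) ≤ k := by exact_mod_cast hk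
  obtain ⟨j, hj0, hj1, hj2, hj3, hcell⟩ := presence hxx hseg n
  obtain ⟨i1, ha, hb, hgood⟩ := good_block_windows ht.le hκ (fun s => f (s, y)) n k hk hn.le
    (fun a b h1 h2 h3 => hH a b y h2 (fun s hs1 hs2 => hseg s (h1.trans hs1) (hs2.trans h3))) hex
  have hD : ∀ p ∈ RwI 0 k, ((((i1 : ℝ) + p.1) / 3 ^ n, ((j : ℝ) + p.2) / 3 ^ n) : ℝ × ℝ) ∈ Sq := by
    apply cells_sub_windows hk
    intro c hc0 hck
    apply hcell
    · push_cast
      have : (0 : ℝ) ≤ c := by exact_mod_cast hc0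
      linarith
    · push_cast
      have : (c : ℝ) + 1 ≤ k := by exact_mod_cast hck
      linarith
  obtain ⟨g, hg⟩ : ∃ g : ℝ × ℝ → ℝ × ℝ, ∀ q, g q =
      (3 : ℝ) ^ n • f (((i1 : ℝ) + q.1) / 3 ^ n, ((j : ℝ) + q.2) / 3 ^ n) := ⟨_, fun q => rfl⟩
  have hg' : ∀ q ∈ RwI 0 k, g q =
      (3 : ℝ) ^ n • f (((i1 : ℝ) + q.1) / 3 ^ n, ((j : ℝ) + q.2) / 3 ^ n) -
        (((0 : ℤ) : ℝ), ((0 : ℤ) : ℝ)) := by
    intro q _
    rw [hg]
    have : ((((0 : ℤ) : ℝ), ((0 : ℤ) : ℝ)) : ℝ × ℝ) = 0 := by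
      push_cast
      rfl
    rw [this, sub_zero]
  have hgG : Good L lam (RwI 0 k) g := hf.scale n i1 j 0 0 hD hg'
  have hgN : NE lam (RwI 0 k) g := NE_scale hNE n i1 j 0 0 hD hg'
  refine ⟨g, hgG, hgN, ?_, ?_⟩
  · intro c hc hc0 hc1 x1 x2 h0 h12 h2
    rw [hg, hg, ← smul_sub, NN_smul_windows hN.le]
    have h3 := hH (((i1 : ℝ) + x1) / 3 ^ n) (((i1 : ℝ) + x2) / 3 ^ n) (((j : ℝ) + c) / 3 ^ n)
      (div_le_div_of_nonneg_right (by linarith) hN.le) (by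
        intro s hs1 hs2
        rw [div_le_iff₀ hN] at hs1
        rw [le_div_iff₀ hN] at hs2
        have h4 := hD (s * 3 ^ n - i1, c)
          ⟨X_of_K2 _ hc, by dsimp only; linarith, by dsimp only; linarith, hc0, hc1⟩
        have e : ((i1 : ℝ) + (s * 3 ^ n - i1)) / 3 ^ n = s := by
          field_simp
          ring
        dsimp only at h4
        rw [e] at h4
        exact h4)
    have h4 := mul_le_mul_of_nonneg_left h3 hN.le
    have e : 3 ^ n * (κ * (((i1 : ℝ) + x2) / 3 ^ n - ((i1 : ℝ) + x1) / 3 ^ n)) = κ * (x2 - x1) := by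
      field_simp
      ring
    rw [e] at h4
    exact h4
  · obtain ⟨y0, hy0⟩ : ∃ y0, y0 = 3 ^ n * y - j := ⟨_, rfl⟩
    have hy00 : 0 ≤ y0 := by rw [hy0]; linarith
    have hy01 : y0 ≤ 1 := by rw [hy0]; linarith
    have hyy : ((j : ℝ) + y0) / 3 ^ n = y := by
      rw [hy0]
      field_simp
      ring
    have e1 : 3 ^ n * NN t (f (((i1 : ℝ) + k) / 3 ^ n, y) - f ((i1 : ℝ) / 3 ^ n, y)) =
        NN t (g ((k : ℝ), y0) - g (0, y0)) := by
      rw [hg, hg, ← smul_sub, NN_smul_windows hN.le]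
      dsimp only
      rw [hyy, add_zero]
    rw [e1] at hgood
    have v0 := hgG.speedV 0 y0 0 hy00 (fun s h1 h2 =>
      ⟨X_of_K1 s K_zero, le_rfl, by positivity, h1, h2.trans hy01⟩)
    have vk := hgG.speedV 0 y0 k hy00 (fun s h1 h2 =>
      ⟨X_of_K1 s (by exact_mod_cast K_int (k : ℤ)), by positivity, le_rfl, h1, h2.trans hy01⟩)
    have t1 := NN_tri_windows ht.le (g (0, y0)) (g (0, 0)) (g ((k : ℝ), y0))
    have t2 := NN_tri_windows ht.le (g (0, 0)) (g ((k : ℝ), 0)) (g ((k : ℝ), y0))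
    have u1 := NN_le_windows ht.le (g (0, 0) - g (0, y0))
    have u2 := NN_le_windows ht.le (g ((k : ℝ), y0) - g ((k : ℝ), 0))
    rw [n1_comm_windows] at u1
    have b1 : (1 + t) * n1 (g (0, y0) - g (0, 0)) ≤ 2 * (1 / 3) := by
      apply mul_le_mul (by linarith) _ _ (by norm_num)
      · nlinarith
      · unfold n1; positivity
    have b2 : (1 + t) * n1 (g ((k : ℝ), y0) - g ((k : ℝ), 0)) ≤ 2 * (1 / 3) := by
      apply mul_le_mul (by linarith) _ _ (by norm_num)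
      · nlinarith
      · unfold n1; positivity
    linarith

theorem windows {L lam t : ℝ} (hlam : 0 < lam) (hlam1 : lam ≤ 1 / 3) (ht : 0 < t) (ht1 : t ≤ 1)
    {f : ℝ × ℝ → ℝ × ℝ} (hf : Good L lam Sq f) (hNE : NE lam Sq f)
    (hext : ∀ ε : ℝ, 0 < ε →
      (∃ x x' y : ℝ, x < x' ∧ (∀ s, x ≤ s → s ≤ x' → ((s, y) : ℝ × ℝ) ∈ Sq) ∧
        (lam - ε) * (x' - x) ≤ n1 (f (x', y) - f (x, y))) ∨
      (∃ y y' x : ℝ, y < y' ∧ (∀ s, y ≤ s → s ≤ y' → ((x, s) : ℝ × ℝ) ∈ Sq) ∧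
        (lam - ε) * (y' - y) ≤ n1 (f (x, y') - f (x, y)))) :
    ∃ κ : ℝ, lam ≤ κ ∧ ∀ k : ℕ, ∃ g : ℝ × ℝ → ℝ × ℝ, Good L lam (RwI 0 k) g ∧ NE lam (RwI 0 k) g ∧
      (∀ c ∈ K, 0 ≤ c → c ≤ 1 → ∀ x x' : ℝ, 0 ≤ x → x ≤ x' → x' ≤ k →
        NN t (g (x', c) - g (x, c)) ≤ κ * (x' - x)) ∧
      κ * k - 5 ≤ NN t (g ((k : ℝ), 0) - g (0, 0)) := by
  obtain ⟨S, hS⟩ : ∃ S : Set ℝ, S = {r : ℝ |
      (∃ x x' y : ℝ, x < x' ∧ (∀ s, x ≤ s → s ≤ x' → ((s, y) : ℝ × ℝ) ∈ Sq) ∧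
        r = NN t (f (x', y) - f (x, y)) / (x' - x)) ∨
      (∃ y y' x : ℝ, y < y' ∧ (∀ s, y ≤ s → s ≤ y' → ((x, s) : ℝ × ℝ) ∈ Sq) ∧
        r = NN t (f (x, y') - f (x, y)) / (y' - y))} := ⟨_, rfl⟩
  have hbdd : BddAbove S := by
    refine ⟨(1 + t) * lam, ?_⟩
    intro r hr
    rw [hS] at hr
    rcases hr with ⟨x, x', y, hxx, hseg, rfl⟩ | ⟨y, y', x, hyy, hseg, rfl⟩
    · rw [div_le_iff₀ (by linarith)]
      have h1 := hf.speedH x x' y hxx.le hseg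
      have h2 := NN_le_windows ht.le (f (x', y) - f (x, y))
      have h3 := mul_le_mul_of_nonneg_left h1 (by linarith : 0 ≤ 1 + t)
      linarith
    · rw [div_le_iff₀ (by linarith)]
      have h1 := hf.speedV y y' x hyy.le hseg
      have h2 := NN_le_windows ht.le (f (x, y') - f (x, y))
      have h3 := mul_le_mul_of_nonneg_left h1 (by linarith : 0 ≤ 1 + t)
      linarith
  obtain ⟨κ, hκ⟩ : ∃ κ, κ = sSup S := ⟨_, rfl⟩
  have hle : ∀ r ∈ S, r ≤ κ := fun r hr => by rw [hκ]; exact le_csSup hbdd hr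
  have hnear : ∀ ε : ℝ, 0 < ε → ∃ r ∈ S, lam - ε ≤ r := by
    intro ε hε
    rcases hext ε hε with ⟨x, x', y, hxx, hseg, h⟩ | ⟨y, y', x, hyy, hseg, h⟩
    · refine ⟨_, by rw [hS]; exact Or.inl ⟨x, x', y, hxx, hseg, rfl⟩, ?_⟩
      rw [le_div_iff₀ (by linarith)]
      exact h.trans (n1_le_NN ht.le _)
    · refine ⟨_, by rw [hS]; exact Or.inr ⟨y, y', x, hyy, hseg, rfl⟩, ?_⟩
      rw [le_div_iff₀ (by linarith)]
      exact h.trans (n1_le_NN ht.le _)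
  have hlamκ : lam ≤ κ := by
    apply le_of_forall_pos_le_add
    intro ε hε
    obtain ⟨r, hr, h⟩ := hnear ε hε
    have := hle r hr
    linarith
  have hne : S.Nonempty := by
    obtain ⟨r, hr, -⟩ := hnear 1 one_pos
    exact ⟨r, hr⟩
  have hκ0 : 0 ≤ κ := by linarith
  have hH : ∀ x x' y : ℝ, x ≤ x' → (∀ s, x ≤ s → s ≤ x' → ((s, y) : ℝ × ℝ) ∈ Sq) →
      NN t (f (x', y) - f (x, y)) ≤ κ * (x' - x) := by
    intro x x' y hxx hseg
    rcases hxx.eq_or_lt with rfl | hlt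
    · rw [sub_self, NN_zero'_windows, sub_self, mul_zero]
    · have := hle _ (by rw [hS]; exact Or.inl ⟨x, x', y, hlt, hseg, rfl⟩)
      rwa [div_le_iff₀ (by linarith)] at this
  have hV : ∀ y y' x : ℝ, y ≤ y' → (∀ s, y ≤ s → s ≤ y' → ((x, s) : ℝ × ℝ) ∈ Sq) →
      NN t (f (x, y') - f (x, y)) ≤ κ * (y' - y) := by
    intro y y' x hyy hseg
    rcases hyy.eq_or_lt with rfl | hlt
    · rw [sub_self, NN_zero'_windows, sub_self, mul_zero]
    · have := hle _ (by rw [hS]; exact Or.inr ⟨y, y', x, hlt, hseg, rfl⟩)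
      rwa [div_le_iff₀ (by linarith)] at this
  refine ⟨κ, hlamκ, ?_⟩
  intro k
  rcases Nat.eq_zero_or_pos k with rfl | hk
  · have hsub : RwI 0 ((0 : ℕ) : ℝ) ⊆ Sq := by
      rintro p ⟨h1, h2, h3, h4, h5⟩
      refine ⟨h1, h2, ?_, h4, h5⟩
      rw [Nat.cast_zero] at h3
      linarith
    refine ⟨f, hf.restrict hsub, NE_restrict hNE hsub, ?_, ?_⟩
    · intro c _ _ _ x x' h0 h1 h2
      rw [Nat.cast_zero] at h2
      have e1 : x = 0 := by linarith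
      have e2 : x' = 0 := by linarith
      rw [e1, e2, sub_self, NN_zero'_windows, sub_self, mul_zero]
    · rw [Nat.cast_zero, sub_self, NN_zero'_windows]
      norm_num
  · have hε : (0 : ℝ) < 1 / (2 * (k : ℝ) + 2) := by positivity
    obtain ⟨r, hr, hrκ⟩ := exists_lt_of_lt_csSup hne (show κ - 1 / (2 * (k : ℝ) + 2) < sSup S by
      rw [← hκ]; linarith)
    rw [hS] at hr
    rcases hr with ⟨x, x', y, hxx, hseg, rfl⟩ | ⟨y, y', x, hyy, hseg, rfl⟩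
    · rw [lt_div_iff₀ (by linarith)] at hrκ
      exact win_core_windows hlam hlam1 ht ht1 hf hNE hκ0 hH k hk hxx hseg hrκ.le
    · rw [lt_div_iff₀ (by linarith)] at hrκ
      have hf1 : Good L lam Sq (fun q => f (q.2, q.1)) := by
        refine hf.trans 0 sym_swap_windows sym_id'_windows 0 0 0 ?_ ?_
        · intro q hq
          have := Sq_swap_windows hq
          simpa using this
        · intro q _
          have e0 : ((((0 : ℤ) : ℝ), ((0 : ℤ) : ℝ)) : ℝ × ℝ) = 0 := by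
            push_cast
            rfl
          rw [e0]
          simp
      have hNE1 : NE lam Sq (fun q => f (q.2, q.1)) :=
        NE_swap hNE (fun q hq => Sq_swap_windows hq) (fun q _ => rfl)
      exact win_core_windows hlam hlam1 ht ht1 hf1 hNE1 hκ0
        (fun a b c hab hs => hV a b c hab (fun s h1 h2 => Sq_swap_windows (hs s h1 h2))) k hk hyy
        (fun s h1 h2 => Sq_swap_windows (hseg s h1 h2)) hrκ.le

end

end Pool.Agent.Helper746.Car
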