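import Mathlib
import Pool.Agent.Helper746.CarDefs
import Pool.Agent.Helper746.CarBasA
import Pool.Agent.Helper746.CarBasB
import Pool.Agent.Helper746.CarSq
import Pool.Agent.Helper746.CarTrans
import Pool.Agent.Helper746.CarStraighten
import Pool.Agent.Helper746.CarNstraight
import Pool.Agent.Helper746.CarNetrans
import Pool.Agent.Helper746.CarNelim
import Pool.Agent.Helper746.CarWindows
import Pool.Agent.Helper746.CarLineaxis

set_option autoImplicit false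

namespace Pool.Agent.Helper746.Car

open Filter Topology

noncomputable section

private lemma norml_sym_norml {v p q : ℝ × ℝ} (hv : v.1 = 0 ∨ v.2 = 0) :
    ∃ B : ℝ × ℝ → ℝ × ℝ, IsSym B ∧ (∀ p q, B (p + q) = B p + B q) ∧
      (∀ (x : ℝ) p, B (x • p) = x • B p) ∧ B v = (n1 v, 0) ∧ (B p).2 ≤ (B q).2 := by
  have hs : ∀ x : ℝ, ∃ e : ℝ, (e = 1 ∨ e = -1) ∧ e * x = |x| := by
    intro x
    rcases le_total 0 x with h | h
    · exact ⟨1, Or.inl rfl, by rw [abs_of_nonneg h, one_mul]⟩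
    · exact ⟨-1, Or.inr rfl, by rw [abs_of_nonpos h]; ring⟩
  have ho : ∀ x y : ℝ, ∃ e : ℝ, (e = 1 ∨ e = -1) ∧ e * x ≤ e * y := by
    intro x y
    rcases le_total x y with h | h
    · exact ⟨1, Or.inl rfl, by linarith⟩
    · exact ⟨-1, Or.inr rfl, by linarith⟩
  rcases hv with hv | hv
  · obtain ⟨e₁, h1, h1'⟩ := hs v.2
    obtain ⟨e₂, h2, h2'⟩ := ho p.1 q.1
    refine ⟨fun r => (e₁ * r.2, e₂ * r.1), ⟨e₁, e₂, h1, h2, Or.inr fun _ => rfl⟩, ?_, ?_, ?_, h2'⟩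
    · intro a b
      ext <;> simp <;> ring
    · intro x a
      ext <;> simp <;> ring
    · ext
      · simp [n1, hv, h1']
      · simp [hv]
  · obtain ⟨e₁, h1, h1'⟩ := hs v.1
    obtain ⟨e₂, h2, h2'⟩ := ho p.2 q.2
    refine ⟨fun r => (e₁ * r.1, e₂ * r.2), ⟨e₁, e₂, h1, h2, Or.inl fun _ => rfl⟩, ?_, ?_, ?_, h2'⟩
    · intro a b
      ext <;> simp <;> ring
    · intro x a
      ext <;> simp <;> ring
    · ext
      · simp [n1, hv, h1']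
      · simp [hv]

/-- for each small t a normalised straight limit map -/
theorem near_straight {L lam t : ℝ} (hlam : 0 < lam) (hlam1 : lam ≤ 1 / 3) (ht : 0 < t) (ht1 : t ≤ 1)
    {f : ℝ × ℝ → ℝ × ℝ} (hf : Good L lam Sq f) (hNE : NE lam Sq f)
    (hext : ∀ ε : ℝ, 0 < ε →
      (∃ x x' y : ℝ, x < x' ∧ (∀ s, x ≤ s → s ≤ x' → ((s, y) : ℝ × ℝ) ∈ Sq) ∧
        (lam - ε) * (x' - x) ≤ n1 (f (x', y) - f (x, y))) ∨
      (∃ y y' x : ℝ, y < y' ∧ (∀ s, y ≤ s → s ≤ y' → ((x, s) : ℝ × ℝ) ∈ Sq) ∧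
        (lam - ε) * (y' - y) ≤ n1 (f (x, y') - f (x, y)))) :
    ∃ (G : ℝ × ℝ → ℝ × ℝ) (v : ℝ), Good L lam Rw G ∧ NE lam Rw G ∧ lam / (1 + t) ≤ v ∧ v ≤ lam ∧
      ‖G (0, 0)‖ ≤ 1 ∧ (G (0, 0)).2 ≤ (G (0, 1)).2 ∧
      ∀ c ∈ K, 0 ≤ c → c ≤ 1 → ∀ x : ℝ, G (x, c) = ((G (0, c)).1 + v * x, (G (0, c)).2) := by
  obtain ⟨κ, hκ, hw⟩ := windows hlam hlam1 ht ht1 hf hNE hext
  choose g hgG hgNE hgl hge using hw
  obtain ⟨G0, idx, a, w, hG0, ha, hlim, hline⟩ :=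
    straighten (L := L) (lam := lam) (κ := κ) (B := 5) (C0 := 1 + t) hlam.le (NN t)
      (NN_sub ht.le) (by positivity) (NN_bound ht.le) g hgG hgl hge
  -- the translated windows
  set g' : ℕ → ℝ × ℝ → ℝ × ℝ := fun M p =>
    g (idx M) (p + ((a M : ℝ), 0)) - (((w M).1 : ℝ), ((w M).2 : ℝ)) with hg'def
  have hmem : ∀ (M : ℕ) (q : ℝ × ℝ), q ∈ RwI (-(M : ℝ)) M →
      ((((a M : ℝ) + q.1) / 3 ^ 0, (((0 : ℤ) : ℝ) + q.2) / 3 ^ 0) : ℝ × ℝ) ∈ RwI 0 (idx M) := by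
    intro M q hq
    obtain ⟨hX, h1, h2, h3, h4⟩ := hq
    have hM1 : (M : ℝ) ≤ (a M : ℝ) := by exact_mod_cast (ha M).1
    have hM2 : (a M : ℝ) + (M : ℝ) ≤ (idx M : ℝ) := by exact_mod_cast (ha M).2
    refine ⟨?_, ?_, ?_, ?_, ?_⟩
    · have := (X_add_int q (a M) 0).2 hX
      have he : ((((a M : ℝ) + q.1) / 3 ^ 0, (((0 : ℤ) : ℝ) + q.2) / 3 ^ 0) : ℝ × ℝ)
          = q + (((a M : ℤ) : ℝ), ((0 : ℤ) : ℝ)) := by
        ext <;> simp [add_comm]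
      rw [he]; exact this
    · simp only [pow_zero, div_one]; linarith
    · simp only [pow_zero, div_one]; linarith
    · simp only [pow_zero, div_one, Int.cast_zero, zero_add]; exact h3
    · simp only [pow_zero, div_one, Int.cast_zero, zero_add]; exact h4
  have heq : ∀ (M : ℕ) (q : ℝ × ℝ), g' M q = (3 : ℝ) ^ 0 •
      g (idx M) (((a M : ℝ) + q.1) / 3 ^ 0, (((0 : ℤ) : ℝ) + q.2) / 3 ^ 0)
        - (((w M).1 : ℝ), ((w M).2 : ℝ)) := by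
    intro M q
    have he : ((((a M : ℝ) + q.1) / 3 ^ 0, (((0 : ℤ) : ℝ) + q.2) / 3 ^ 0) : ℝ × ℝ)
        = q + ((a M : ℝ), 0) := by
      ext <;> simp [add_comm]
    rw [he, pow_zero, one_smul]
  have hgood' : ∀ M : ℕ, Good L lam (RwI (-(M : ℝ)) M) (g' M) := by
    intro M
    exact (hgG (idx M)).scale 0 (a M : ℝ) ((0 : ℤ) : ℝ) (w M).1 (w M).2 (hmem M)
      (fun q _ => heq M q)
  have hNE' : ∀ M : ℕ, NE lam (RwI (-(M : ℝ)) M) (g' M) := by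
    intro M
    exact NE_scale (hgNE (idx M)) 0 (a M) 0 (w M).1 (w M).2 (hmem M) (fun q _ => heq M q)
  have hNE0 : NE lam Rw G0 := NE_lim g' hgood' hNE' G0 hlim
  obtain ⟨v, hvax, hv1, hv2, hGl⟩ := line_axis hlam hlam1 ht hκ hG0 hline
  obtain ⟨B, hB, hBadd, hBsmul, hBv, hBo⟩ := norml_sym_norml (p := G0 (0, 0)) (q := G0 (0, 1)) hvax
  set z : ℤ := ⌊(B (G0 (0, 0))).1⌋ with hz
  set u : ℤ := ⌊(B (G0 (0, 0))).2⌋ with hu
  set G : ℝ × ℝ → ℝ × ℝ := fun p => B (G0 p) - ((z : ℝ), (u : ℝ)) with hG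
  have hid : IsSym (fun p : ℝ × ℝ => p) :=
    ⟨1, 1, Or.inl rfl, Or.inl rfl, Or.inl fun p => by simp⟩
  have hGG : Good L lam Rw G := by
    refine hG0.trans 0 hid hB 0 z u ?_ ?_
    · intro q hq
      simpa using hq
    · intro q hq
      simp [hG]
  have hNEG : NE lam Rw G := by
    have h1 : NE lam Rw (fun p => B (G0 p)) := NE_target hNE0 hB (fun q _ => rfl)
    refine NE_scale h1 0 0 0 z u ?_ ?_
    · intro q hq
      simpa using hq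
    · intro q hq
      simp [hG]
  refine ⟨G, n1 v, hGG, hNEG, hv1, hv2, ?_, ?_, ?_⟩
  · have h1 : |(G (0, 0)).1| ≤ 1 := by
      have e : (G (0, 0)).1 = Int.fract (B (G0 (0, 0))).1 := rfl
      rw [e, abs_of_nonneg (Int.fract_nonneg _)]
      exact (Int.fract_lt_one _).le
    have h2 : |(G (0, 0)).2| ≤ 1 := by
      have e : (G (0, 0)).2 = Int.fract (B (G0 (0, 0))).2 := rfl
      rw [e, abs_of_nonneg (Int.fract_nonneg _)]
      exact (Int.fract_lt_one _).le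
    rw [Prod.norm_def]
    exact max_le h1 h2
  · show (B (G0 (0, 0))).2 - (u : ℝ) ≤ (B (G0 (0, 1))).2 - (u : ℝ)
    linarith
  · intro c hc h0 h1 x
    have h := hGl c hc h0 h1 x
    have h' : B (G0 (x, c)) = B (G0 (0, c)) + x • (n1 v, (0 : ℝ)) := by
      rw [h, hBadd, hBsmul, hBv]
    show B (G0 (x, c)) - ((z : ℝ), (u : ℝ)) = _
    rw [h']
    ext
    · show (B (G0 (0, c))).1 + x * n1 v - (z : ℝ) = (B (G0 (0, c))).1 - (z : ℝ) + n1 v * x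
      ring
    · show (B (G0 (0, c))).2 + x * 0 - (u : ℝ) = (B (G0 (0, c))).2 - (u : ℝ)
      ring

end

end Pool.Agent.Helper746.Car
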