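import Mathlib
import Pool.Agent.Helper746.CarDefs
import Pool.Agent.Helper746.CarBasA
import Pool.Agent.Helper746.CarBasB
import Pool.Agent.Helper746.CarSq
import Pool.Agent.Helper746.CarTrans
import Pool.Agent.Helper746.CarHmono

set_option autoImplicit false

namespace Pool.Agent.Helper746.Car

open Filter Topology

noncomputable section

theorem St.sub_int {L lam : ℝ} {g : ℝ × ℝ → ℝ × ℝ} (hg : St L lam g) (z w : ℤ) :
    St L lam (fun q => g q - ((z : ℝ), (w : ℝ))) := by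
  refine ⟨?_, ?_, ?_⟩
  · refine Good.scale hg.good 0 0 0 z w ?_ ?_
    · intro q hq
      have : (((0 + q.1) / 3 ^ 0, (0 + q.2) / 3 ^ 0) : ℝ × ℝ) = q := by
        ext <;> simp
      rw [this]; exact hq
    · intro q hq
      have : (((0 + q.1) / 3 ^ 0, (0 + q.2) / 3 ^ 0) : ℝ × ℝ) = q := by
        ext <;> simp
      rw [this]; simp
  · intro c hc h0 h1 x
    have := hg.str c hc h0 h1 x
    simp only [this]
    ext
    · simp; ring
    · simp
  · have := hg.ori
    simp only [Prod.snd_sub]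
    linarith

theorem St.sub0 {L lam : ℝ} (hlam : 0 < lam) {g : ℝ × ℝ → ℝ × ℝ} (hg : St L lam g) :
    St L lam (fun q => (3 : ℝ) • g (q.1 / 3, q.2 / 3)) := by
  refine ⟨?_, ?_, ?_⟩
  · refine Good.scale hg.good 1 0 0 0 0 ?_ ?_
    · intro q hq
      have : (((0 + q.1) / 3 ^ 1, (0 + q.2) / 3 ^ 1) : ℝ × ℝ) = (q.1 / 3, q.2 / 3) := by
        ext <;> simp
      rw [this]; exact Rw_sub0 hq
    · intro q hq
      have : (((0 + q.1) / 3 ^ 1, (0 + q.2) / 3 ^ 1) : ℝ × ℝ) = (q.1 / 3, q.2 / 3) := by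
        ext <;> simp
      rw [this]
      ext <;> simp
  · intro c hc h0 h1 x
    have h3 : c / 3 ∈ K := K_div hc (by linarith) h1
    have e1 := hg.str (c / 3) h3 (by linarith) (by linarith) (x / 3)
    simp only [e1]
    ext
    · simp; ring
    · simp
  · have h := St.hlt hlam hg K_zero K_third (le_refl _) (by norm_num) (by norm_num)
    simp only [Prod.smul_snd, smul_eq_mul]
    have : ((0 : ℝ) / 3) = 0 := by norm_num
    rw [this]
    linarith

theorem St.sub2 {L lam : ℝ} (hlam : 0 < lam) {g : ℝ × ℝ → ℝ × ℝ} (hg : St L lam g) :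
    St L lam (fun q => (3 : ℝ) • g (q.1 / 3, (q.2 + 2) / 3)) := by
  refine ⟨?_, ?_, ?_⟩
  · refine Good.scale hg.good 1 0 2 0 0 ?_ ?_
    · intro q hq
      have : (((0 + q.1) / 3 ^ 1, (2 + q.2) / 3 ^ 1) : ℝ × ℝ) = (q.1 / 3, (q.2 + 2) / 3) := by
        ext <;> simp [add_comm]
      rw [this]; exact Rw_sub2 hq
    · intro q hq
      have : (((0 + q.1) / 3 ^ 1, (2 + q.2) / 3 ^ 1) : ℝ × ℝ) = (q.1 / 3, (q.2 + 2) / 3) := by
        ext <;> simp [add_comm]
      rw [this]
      ext <;> simp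
  · intro c hc h0 h1 x
    have h3 : (c + 2) / 3 ∈ K := K_div2 hc h0 h1
    have e1 := hg.str ((c + 2) / 3) h3 (by linarith) (by linarith) (x / 3)
    simp only [e1]
    ext
    · simp; ring
    · simp
  · have h := St.hlt hlam hg K_two_third K_one (by norm_num) (by norm_num) (le_refl _)
    simp only [Prod.smul_snd, smul_eq_mul]
    have a0 : ((0 : ℝ) / 3) = 0 := by norm_num
    have a1 : ((0 : ℝ) + 2) / 3 = 2 / 3 := by norm_num
    have a2 : ((1 : ℝ) + 2) / 3 = 1 := by norm_num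
    rw [a0, a1, a2]
    linarith

theorem St.lim {L lam : ℝ} (g : ℕ → ℝ × ℝ → ℝ × ℝ) (G : ℝ × ℝ → ℝ × ℝ) (h : ∀ k, St L lam (g k))
    (hG : Good L lam Rw G)
    (hlim : ∀ p ∈ Rw, Tendsto (fun k => g k p) (hyperfilter ℕ : Filter ℕ) (𝓝 (G p))) : St L lam G := by
  have hRw : ∀ c ∈ K, 0 ≤ c → c ≤ 1 → ∀ x : ℝ, ((x, c) : ℝ × ℝ) ∈ Rw := by
    intro c hc h0 h1 x
    exact ⟨X_of_K2 x hc, h0, h1⟩
  refine ⟨hG, ?_, ?_⟩
  · intro c hc h0 h1 x
    have l1 := hlim (x, c) (hRw c hc h0 h1 x)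
    have l0 := hlim (0, c) (hRw c hc h0 h1 0)
    have l2 : Tendsto (fun k => (((g k (0, c)).1 + lam * x, (g k (0, c)).2) : ℝ × ℝ))
        (hyperfilter ℕ : Filter ℕ) (𝓝 ((G (0, c)).1 + lam * x, (G (0, c)).2)) := by
      apply Tendsto.prodMk_nhds
      · exact ((continuous_fst.tendsto _).comp l0).add_const _
      · exact (continuous_snd.tendsto _).comp l0
    have heq : (fun k => g k (x, c)) = (fun k => (((g k (0, c)).1 + lam * x, (g k (0, c)).2) : ℝ × ℝ)) := by
      funext k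
      exact (h k).str c hc h0 h1 x
    rw [heq] at l1
    exact tendsto_nhds_unique l1 l2
  · have l0 := (continuous_snd.tendsto _).comp (hlim (0, 0) (hRw 0 K_zero (le_refl _) (by norm_num) 0))
    have l1 := (continuous_snd.tendsto _).comp (hlim (0, 1) (hRw 1 K_one (by norm_num) (le_refl _) 0))
    exact le_of_tendsto_of_tendsto' l0 l1 (fun k => (h k).ori)

end

end Pool.Agent.Helper746.Car
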