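import Mathlib
import Pool.Agent.Helper746.CarDefs
import Pool.Agent.Helper746.CarBasA

set_option autoImplicit false

namespace Pool.Agent.Helper746.Car

open Filter Topology

noncomputable section

theorem F_add_int {F : ℝ → ℝ} (hF : IsF F) (y : ℝ) (z : ℤ) : F (y + z) = F y + z := by
  induction z using Int.induction_on with
  | zero => simp
  | succ i ih =>
    have h := hF.per (y + (i : ℤ))
    push_cast at h ih ⊢
    rw [← add_assoc, h, ih]
    ring
  | pred i ih =>
    have h := hF.per (y + ((-(i : ℤ) - 1 : ℤ) : ℝ))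
    push_cast at h ih ⊢
    have e : y + (-(i : ℝ) - 1) + 1 = y + -(i : ℝ) := by ring
    rw [e, ih] at h
    linarith

theorem F_int {F : ℝ → ℝ} (hF : IsF F) (z : ℤ) : F z = z := by
  have h := F_add_int hF 0 z
  rwa [zero_add, hF.zero, zero_add] at h

theorem F_neg_third_flem {F : ℝ → ℝ} (hF : IsF F) : F (-(1 / 3)) = -(1 / 2) := by
  have h := hF.tri (-(1 / 3)) le_rfl (by norm_num)
  have e : 3 * (-(1 / 3 : ℝ)) = ((-1 : ℤ) : ℝ) := by push_cast; ring
  rw [e, F_int hF] at h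
  push_cast at h
  linarith

theorem F_neg_flem {F : ℝ → ℝ} (hF : IsF F) (k : ℕ) : ∀ y : ℝ, y < 0 → 3 ^ k * y ≤ -(1 / 3) → F y < 0 := by
  induction k with
  | zero =>
    intro y _ h
    rw [pow_zero, one_mul] at h
    have := hF.mono h
    rw [F_neg_third_flem hF] at this
    linarith
  | succ k ih =>
    intro y hy h
    by_cases hc : y ≤ -(1 / 3)
    · have := hF.mono hc
      rw [F_neg_third_flem hF] at this
      linarith
    · rw [not_le] at hc
      have h1 := ih (3 * y) (by linarith) (by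
        rw [pow_succ] at h
        linarith)
      rw [hF.tri y hc.le (by linarith)] at h1
      linarith

theorem F_pos_flem {F : ℝ → ℝ} (hF : IsF F) (k : ℕ) : ∀ y : ℝ, 0 < y → 1 / 3 ≤ 3 ^ k * y → 0 < F y := by
  have h13 : F (1 / 3) = 1 / 2 := hF.half _ le_rfl (by norm_num)
  induction k with
  | zero =>
    intro y _ h
    rw [pow_zero, one_mul] at h
    have := hF.mono h
    rw [h13] at this
    linarith
  | succ k ih =>
    intro y hy h
    by_cases hc : 1 / 3 ≤ y
    · have := hF.mono hc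
      rw [h13] at this
      linarith
    · rw [not_le] at hc
      have h1 := ih (3 * y) (by linarith) (by
        rw [pow_succ] at h
        linarith)
      rw [hF.tri y (by linarith) hc.le] at h1
      linarith

theorem F_lt_int {F : ℝ → ℝ} (hF : IsF F) {y : ℝ} {z : ℤ} (h : y < z) : F y < z := by
  have h0 : 0 < (z : ℝ) - y := by linarith
  obtain ⟨k, hk⟩ := pow_unbounded_of_one_lt (1 / ((z : ℝ) - y)) (show (1:ℝ) < 3 by norm_num)
  have h1 : 1 < 3 ^ k * ((z : ℝ) - y) := (div_lt_iff₀ h0).1 hk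
  have h2 := F_neg_flem hF k (y + ((-z : ℤ) : ℝ)) (by push_cast; linarith) (by push_cast; linarith)
  rw [F_add_int hF] at h2
  push_cast at h2
  linarith

theorem F_gt_int {F : ℝ → ℝ} (hF : IsF F) {y : ℝ} {z : ℤ} (h : (z : ℝ) < y) : (z : ℝ) < F y := by
  have h0 : 0 < y - (z : ℝ) := by linarith
  obtain ⟨k, hk⟩ := pow_unbounded_of_one_lt (1 / (y - (z : ℝ))) (show (1:ℝ) < 3 by norm_num)
  have h1 : 1 < 3 ^ k * (y - (z : ℝ)) := (div_lt_iff₀ h0).1 hk
  have h2 := F_pos_flem hF k (y + ((-z : ℤ) : ℝ)) (by push_cast; linarith) (by push_cast; linarith)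
  rw [F_add_int hF] at h2
  push_cast at h2
  linarith

theorem F_blk_flem {F : ℝ → ℝ} (hF : IsF F) {j : ℤ} {y : ℝ} (h1 : (j : ℝ) - 1 / 3 ≤ y)
    (h2 : y ≤ (j : ℝ) + 1 / 3) : F (3 * y) = 2 * F y + j := by
  have h3 := hF.tri (y + ((-j : ℤ) : ℝ)) (by push_cast; linarith) (by push_cast; linarith)
  have e : 3 * (y + ((-j : ℤ) : ℝ)) = 3 * y + ((-3 * j : ℤ) : ℝ) := by push_cast; ring
  rw [e, F_add_int hF, F_add_int hF] at h3
  push_cast at h3
  linarith

theorem F_mid_flem {F : ℝ → ℝ} (hF : IsF F) {j : ℤ} {y : ℝ} (h1 : (j : ℝ) + 1 / 3 ≤ y)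
    (h2 : y ≤ (j : ℝ) + 2 / 3) : F y = j + 1 / 2 := by
  have h3 := hF.half (y + ((-j : ℤ) : ℝ)) (by push_cast; linarith) (by push_cast; linarith)
  rw [F_add_int hF] at h3
  push_cast at h3
  linarith

theorem F_block {F : ℝ → ℝ} (hF : IsF F) {j : ℤ} {y y' : ℝ} (h1 : (j : ℝ) - 1 / 3 ≤ y) (h2 : y ≤ (j : ℝ) + 1 / 3)
    (h3 : (j : ℝ) - 1 / 3 ≤ y') (h4 : y' ≤ (j : ℝ) + 1 / 3) : F (3 * y') - F (3 * y) = 2 * (F y' - F y) := by
  rw [F_blk_flem hF h1 h2, F_blk_flem hF h3 h4]
  ring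

theorem F_gap_aux_flem {F : ℝ → ℝ} (hF : IsF F) (k : ℕ) : ∀ α β : ℝ, α ∈ K → β ∈ K → α < β → F α = F β →
    1 ≤ 3 ^ k * (β - α) →
    ∃ k : ℕ, 1 ≤ k ∧ ∃ j : ℤ, α = (3 * (j : ℝ) + 1) / 3 ^ k ∧ β = (3 * (j : ℝ) + 2) / 3 ^ k := by
  induction k with
  | zero =>
    intro α β _ _ _ h h1
    exfalso
    rw [pow_zero, one_mul] at h1
    have h2 := hF.mono (show α + 1 ≤ β by linarith)
    rw [hF.per] at h2
    linarith
  | succ k ih =>
    intro α β hα hβ hlt h h1
    obtain ⟨i, hi1, hi2⟩ := K_block hα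
    obtain ⟨i', hi'1, hi'2⟩ := K_block hβ
    have hii : i ≤ i' := by
      by_contra hc
      have h2 : i' + 1 ≤ i := by omega
      have h3 : (i' : ℝ) + 1 ≤ i := by exact_mod_cast h2
      linarith
    rcases Int.lt_or_eq_of_le hii with hlt' | heq
    · -- different integers
      have h3 : (i : ℝ) + 1 ≤ i' := by
        have : i + 1 ≤ i' := by omega
        exact_mod_cast this
      have a1 : F α ≤ i + 1 / 2 := by
        have h4 := hF.mono hi2
        rwa [F_mid_flem hF (y := (i : ℝ) + 1 / 3) le_rfl (by linarith)] at h4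
      have a2 : (i' : ℝ) - 1 / 2 ≤ F β := by
        have h4 := hF.mono hi'1
        have e : F ((i' : ℝ) - 1 / 3) = i' - 1 / 2 := by
          have h5 := F_mid_flem hF (j := i' - 1) (y := (i' : ℝ) - 1 / 3) (by push_cast; linarith)
            (by push_cast; linarith)
          rw [h5]
          push_cast
          ring
        rwa [e] at h4
      have hi'' : (i' : ℝ) = i + 1 := by linarith
      have hα' : α = i + 1 / 3 := by
        by_contra hc
        have h4 : 3 * α < ((3 * i + 1 : ℤ) : ℝ) := by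
          push_cast
          have : α < i + 1 / 3 := lt_of_le_of_ne hi2 hc
          linarith
        have h5 := F_lt_int hF h4
        rw [F_blk_flem hF hi1 hi2] at h5
        push_cast at h5
        linarith
      have hβ' : β = i' - 1 / 3 := by
        by_contra hc
        have h4 : ((3 * i' - 1 : ℤ) : ℝ) < 3 * β := by
          push_cast
          have : (i' : ℝ) - 1 / 3 < β := lt_of_le_of_ne hi'1 (Ne.symm hc)
          linarith
        have h5 := F_gt_int hF h4
        rw [F_blk_flem hF hi'1 hi'2] at h5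
        push_cast at h5
        linarith
      refine ⟨1, le_rfl, i, ?_, ?_⟩
      · rw [hα']; ring
      · rw [hβ', hi'']; ring
    · subst heq
      have k1 : 3 * (α - i) ∈ K := by
        have h4 := K_scale (K_add_int hα (-i)) 1
        rw [pow_one] at h4
        push_cast at h4
        rwa [← sub_eq_add_neg] at h4
      have k2 : 3 * (β - i) ∈ K := by
        have h4 := K_scale (K_add_int hβ (-i)) 1
        rw [pow_one] at h4
        push_cast at h4
        rwa [← sub_eq_add_neg] at h4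
      have f1 : F (3 * (α - i)) = 2 * F α - 2 * i := by
        have e : 3 * (α - i) = 3 * α + ((-3 * i : ℤ) : ℝ) := by push_cast; ring
        rw [e, F_add_int hF, F_blk_flem hF hi1 hi2]
        push_cast
        ring
      have f2 : F (3 * (β - i)) = 2 * F β - 2 * i := by
        have e : 3 * (β - i) = 3 * β + ((-3 * i : ℤ) : ℝ) := by push_cast; ring
        rw [e, F_add_int hF, F_blk_flem hF hi'1 hi'2]
        push_cast
        ring
      obtain ⟨k', hk', j, e1, e2⟩ := ih (3 * (α - i)) (3 * (β - i)) k1 k2 (by linarith)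
        (by rw [f1, f2, h]) (by
          rw [pow_succ] at h1
          linarith)
      refine ⟨k' + 1, by omega, j + 3 ^ k' * i, ?_, ?_⟩
      · have e3 : α = i + (3 * (j : ℝ) + 1) / 3 ^ k' / 3 := by rw [← e1]; ring
        rw [e3, pow_succ]
        push_cast
        field_simp
        ring
      · have e3 : β = i + (3 * (j : ℝ) + 2) / 3 ^ k' / 3 := by rw [← e2]; ring
        rw [e3, pow_succ]
        push_cast
        field_simp
        ring

theorem F_gap {F : ℝ → ℝ} (hF : IsF F) {α β : ℝ} (hα : α ∈ K) (hβ : β ∈ K) (hlt : α < β) (h : F α = F β) :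
    ∃ k : ℕ, 1 ≤ k ∧ ∃ j : ℤ, α = (3 * (j : ℝ) + 1) / 3 ^ k ∧ β = (3 * (j : ℝ) + 2) / 3 ^ k := by
  have h0 : 0 < β - α := by linarith
  obtain ⟨k, hk⟩ := pow_unbounded_of_one_lt (1 / (β - α)) (show (1:ℝ) < 3 by norm_num)
  exact F_gap_aux_flem hF k α β hα hβ hlt h ((div_lt_iff₀ h0).1 hk).le

theorem F_loc_flem (m : ℕ) (j : ℤ) :
    (∃ i : ℤ, (i : ℝ) - 1 / 3 ≤ (j : ℝ) / 3 ^ (m + 1) ∧ ((j : ℝ) + 1) / 3 ^ (m + 1) ≤ (i : ℝ) + 1 / 3) ∨
    (∃ i : ℤ, (i : ℝ) + 1 / 3 ≤ (j : ℝ) / 3 ^ (m + 1) ∧ ((j : ℝ) + 1) / 3 ^ (m + 1) ≤ (i : ℝ) + 2 / 3) := by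
  have hM : (0 : ℤ) < 3 ^ m := by positivity
  have hMr : (0 : ℝ) < 3 ^ m := by positivity
  have h1 : 3 ^ m * (j / 3 ^ m) ≤ j := Int.mul_ediv_self_le hM.ne'
  have h2 : j + 1 ≤ 3 ^ m * (j / 3 ^ m) + 3 ^ m := by
    have := Int.lt_mul_ediv_self_add (x := j) hM
    omega
  generalize j / 3 ^ m = q at h1 h2
  have h1' : (3 : ℝ) ^ m * q ≤ j := by exact_mod_cast h1
  have h2' : (j : ℝ) + 1 ≤ 3 ^ m * q + 3 ^ m := by exact_mod_cast h2
  have b1 : (q : ℝ) / 3 ≤ (j : ℝ) / 3 ^ (m + 1) := by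
    rw [le_div_iff₀ (by positivity), pow_succ]
    linarith
  have b2 : ((j : ℝ) + 1) / 3 ^ (m + 1) ≤ ((q : ℝ) + 1) / 3 := by
    rw [div_le_iff₀ (by positivity), pow_succ]
    linarith
  have hq : q % 3 = 0 ∨ q % 3 = 1 ∨ q % 3 = 2 := by omega
  have hq3 : q = 3 * (q / 3) + q % 3 := by omega
  rcases hq with h | h | h
  · left
    refine ⟨q / 3, ?_, ?_⟩
    · have : (q : ℝ) = 3 * ((q / 3 : ℤ) : ℝ) := by
        rw [h, add_zero] at hq3
        exact_mod_cast hq3
      linarith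
    · have : (q : ℝ) = 3 * ((q / 3 : ℤ) : ℝ) := by
        rw [h, add_zero] at hq3
        exact_mod_cast hq3
      linarith
  · right
    have : (q : ℝ) = 3 * ((q / 3 : ℤ) : ℝ) + 1 := by
      rw [h] at hq3
      exact_mod_cast hq3
    exact ⟨q / 3, by linarith, by linarith⟩
  · left
    have : (q : ℝ) = 3 * ((q / 3 : ℤ) : ℝ) + 2 := by
      rw [h] at hq3
      exact_mod_cast hq3
    refine ⟨q / 3 + 1, ?_, ?_⟩
    · push_cast
      linarith
    · push_cast
      linarith

theorem F_three_flem (m : ℕ) (x : ℝ) : 3 * (x / 3 ^ (m + 1)) = x / 3 ^ m := by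
  rw [pow_succ]
  field_simp

theorem F_step {F : ℝ → ℝ} (hF : IsF F) (m : ℕ) (j : ℤ) :
    F (((j : ℝ) + 1) / 3 ^ m) - F ((j : ℝ) / 3 ^ m) = 0 ∨
    F (((j : ℝ) + 1) / 3 ^ m) - F ((j : ℝ) / 3 ^ m) = (1 / 2) ^ m := by
  induction m with
  | zero =>
    right
    simp only [pow_zero, div_one]
    rw [hF.per]
    ring
  | succ m ih =>
    have hle : (j : ℝ) / 3 ^ (m + 1) ≤ ((j : ℝ) + 1) / 3 ^ (m + 1) :=
      div_le_div_of_nonneg_right (by linarith) (by positivity)
    rcases F_loc_flem m j with ⟨i, h1, h2⟩ | ⟨i, h1, h2⟩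
    · have h3 := F_block hF h1 (hle.trans h2) (h1.trans hle) h2
      rw [F_three_flem, F_three_flem] at h3
      rcases ih with h | h
      · left
        linarith
      · right
        have e : ((1 : ℝ) / 2) ^ (m + 1) = (1 / 2) ^ m * (1 / 2) := pow_succ _ _
        rw [e]
        linarith
    · left
      rw [F_mid_flem hF h1 (hle.trans h2), F_mid_flem hF (h1.trans hle) h2, sub_self]

theorem F_full {F : ℝ → ℝ} (hF : IsF F) (m : ℕ) (j : ℤ) {β : ℝ} (h0 : (j : ℝ) / 3 ^ m ≤ β)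
    (h1 : β ≤ ((j : ℝ) + 1) / 3 ^ m) (h : (1 / 2) ^ m ≤ F β - F ((j : ℝ) / 3 ^ m)) :
    β = ((j : ℝ) + 1) / 3 ^ m := by
  induction m generalizing β with
  | zero =>
    simp only [pow_zero, div_one] at h0 h1 h ⊢
    rw [F_int hF] at h
    by_contra hc
    have h2 : β < ((j + 1 : ℤ) : ℝ) := by
      push_cast
      exact lt_of_le_of_ne h1 hc
    have h3 := F_lt_int hF h2
    push_cast at h3
    linarith
  | succ m ih =>
    rcases F_loc_flem m j with ⟨i, g1, g2⟩ | ⟨i, g1, g2⟩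
    · have h3 := F_block hF g1 (h0.trans (h1.trans g2)) (g1.trans h0) (h1.trans g2)
      rw [F_three_flem] at h3
      have h4 := ih (β := 3 * β) (by
          rw [← F_three_flem]
          linarith) (by
          rw [← F_three_flem]
          linarith) (by
          rw [pow_succ] at h
          linarith)
      rw [← F_three_flem] at h4
      linarith
    · exfalso
      rw [F_mid_flem hF (g1.trans h0) (h1.trans g2), F_mid_flem hF g1 (h0.trans (h1.trans g2)), sub_self] at h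
      have : (0:ℝ) < (1 / 2) ^ (m + 1) := by positivity
      linarith

end

end Pool.Agent.Helper746.Car
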