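import Mathlib
import Pool.Agent.Helper746.CarDefs
import Pool.Agent.Helper746.CarBasA
import Pool.Agent.Helper746.CarBasB
import Pool.Agent.Helper746.CarSq
import Pool.Agent.Helper746.CarTrans
import Pool.Agent.Helper746.CarUltra
import Pool.Agent.Helper746.CarFlem
import Pool.Agent.Helper746.CarHmono
import Pool.Agent.Helper746.CarStcl
import Pool.Agent.Helper746.CarChan

set_option autoImplicit false

namespace Pool.Agent.Helper746.Car

open Filter Topology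

noncomputable section

theorem tD_mem_thmD {c : ℝ} (h0 : 0 ≤ c) (h1 : c ≤ 1) : ((0, c) : ℝ × ℝ) ∈ Rw :=
  ⟨X_of_K1 c K_zero, h0, h1⟩

/-- the class attains the least mass -/
theorem tD_attain_thmD {F : ℝ → ℝ} (hF : IsF F) {L lam : ℝ}
    {P : (ℝ × ℝ → ℝ × ℝ) → Prop} (hP : Cl L lam P) (hne : ∃ g, St L lam g ∧ P g) :
    ∃ g, (St L lam g ∧ P g) ∧ ∀ g', St L lam g' → P g' →
      F (g (0, 1)).2 - F (g (0, 0)).2 ≤ F (g' (0, 1)).2 - F (g' (0, 0)).2 := by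
  classical
  set S : Set ℝ := {t | ∃ g, (St L lam g ∧ P g) ∧ t = F (g (0, 1)).2 - F (g (0, 0)).2} with hS
  have hbdd : BddBelow S := by
    refine ⟨0, ?_⟩
    rintro t ⟨g, ⟨hg, _⟩, rfl⟩
    have := hF.mono hg.ori
    linarith
  have hSne : S.Nonempty := by
    obtain ⟨g, hg⟩ := hne
    exact ⟨_, g, hg, rfl⟩
  have hex : ∀ k : ℕ, ∃ g, (St L lam g ∧ P g) ∧
      F (g (0, 1)).2 - F (g (0, 0)).2 < sInf S + 1 / ((k : ℝ) + 1) := by
    intro k
    have hpos : (0 : ℝ) < 1 / ((k : ℝ) + 1) := by positivity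
    obtain ⟨t, ⟨g, hg, rfl⟩, ht⟩ := exists_lt_of_csInf_lt hSne
      (show sInf S < sInf S + 1 / ((k : ℝ) + 1) by linarith)
    exact ⟨g, hg, ht⟩
  choose g hg hM using hex
  set g' : ℕ → ℝ × ℝ → ℝ × ℝ := fun k q =>
    g k q - (((⌊(g k (0, 0)).1⌋ : ℤ) : ℝ), ((⌊(g k (0, 0)).2⌋ : ℤ) : ℝ)) with hg'
  have hSt : ∀ k, St L lam (g' k) := fun k => St.sub_int (hg k).1 _ _
  have hPk : ∀ k, P (g' k) := fun k => hP.int _ (hg k).1 (hg k).2 _ _
  have hMk : ∀ k, F (g' k (0, 1)).2 - F (g' k (0, 0)).2 ≤ sInf S + 1 / ((k : ℝ) + 1) := by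
    intro k
    have e1 : (g' k (0, 1)).2 = (g k (0, 1)).2 + ((-⌊(g k (0, 0)).2⌋ : ℤ) : ℝ) := by
      simp [hg', sub_eq_add_neg]
    have e0 : (g' k (0, 0)).2 = (g k (0, 0)).2 + ((-⌊(g k (0, 0)).2⌋ : ℤ) : ℝ) := by
      simp [hg', sub_eq_add_neg]
    rw [e1, e0, F_add_int hF, F_add_int hF]
    have := hM k
    linarith
  have hb : ∀ k, ‖g' k (0, 0)‖ ≤ 1 := by
    intro k
    rw [Prod.norm_def]
    refine max_le ?_ ?_
    · have : (g' k (0, 0)).1 = Int.fract (g k (0, 0)).1 := by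
        simp [hg']
      rw [this, Real.norm_eq_abs, abs_of_nonneg (Int.fract_nonneg _)]
      exact (Int.fract_lt_one _).le
    · have : (g' k (0, 0)).2 = Int.fract (g k (0, 0)).2 := by
        simp [hg']
      rw [this, Real.norm_eq_abs, abs_of_nonneg (Int.fract_nonneg _)]
      exact (Int.fract_lt_one _).le
  obtain ⟨G, hG, hlim⟩ := ultra g' (fun k => (hSt k).good.restrict
    (fun p hp => ⟨hp.1, hp.2.2.2.1, hp.2.2.2.2⟩)) hb
  have hGSt : St L lam G := St.lim g' G hSt hG hlim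
  have hGP : P G := hP.lim g' G hSt hPk hG hlim
  refine ⟨G, ⟨hGSt, hGP⟩, ?_⟩
  have hnb : (hyperfilter ℕ : Filter ℕ).NeBot := inferInstance
  have t1 : Tendsto (fun k => F (g' k (0, 1)).2 - F (g' k (0, 0)).2) (hyperfilter ℕ : Filter ℕ)
      (𝓝 (F (G (0, 1)).2 - F (G (0, 0)).2)) := by
    refine Tendsto.sub ?_ ?_
    · exact (hF.cont.tendsto _).comp
        ((continuous_snd.tendsto _).comp (hlim (0, 1) (tD_mem_thmD zero_le_one le_rfl)))
    · exact (hF.cont.tendsto _).comp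
        ((continuous_snd.tendsto _).comp (hlim (0, 0) (tD_mem_thmD le_rfl zero_le_one)))
  have t2 : Tendsto (fun k : ℕ => sInf S + 1 / ((k : ℝ) + 1)) (hyperfilter ℕ : Filter ℕ)
      (𝓝 (sInf S + 0)) := by
    refine Tendsto.add tendsto_const_nhds ?_
    refine tendsto_one_div_add_atTop_nhds_zero_nat.mono_left ?_
    rw [← Nat.cofinite_eq_atTop]
    exact hyperfilter_le_cofinite
  have hle : F (G (0, 1)).2 - F (G (0, 0)).2 ≤ sInf S + 0 :=
    le_of_tendsto_of_tendsto' t1 t2 hMk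
  intro g₁ h₁ h₂
  have := csInf_le hbdd (show F (g₁ (0, 1)).2 - F (g₁ (0, 0)).2 ∈ S from ⟨g₁, ⟨h₁, h₂⟩, rfl⟩)
  linarith

/-- doubling of F on a short step inside K -/
theorem tD_double_thmD {F : ℝ → ℝ} (hF : IsF F) {α β : ℝ} (hα : α ∈ K) (hβ : β ∈ K) (h1 : α ≤ β)
    (h2 : β - α ≤ 1 / 9) : F (3 * β) - F (3 * α) = 2 * (F β - F α) := by
  obtain ⟨j, a1, a2⟩ := K_block hα
  obtain ⟨j', b1, b2⟩ := K_block hβ
  have hj : j = j' := by
    rcases lt_trichotomy j j' with h | h | h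
    · exfalso
      have : (j : ℝ) + 1 ≤ j' := by exact_mod_cast h
      linarith
    · exact h
    · exfalso
      have : (j' : ℝ) + 1 ≤ j := by exact_mod_cast h
      linarith
  subst hj
  exact F_block hF a1 a2 b1 b2

theorem theoremD {F : ℝ → ℝ} (hF : IsF F) {L lam : ℝ} (hlam : 0 < lam) (hlam1 : lam ≤ 1 / 3)
    {P : (ℝ × ℝ → ℝ × ℝ) → Prop} (hP : Cl L lam P) (hne : ∃ g, St L lam g ∧ P g) :
    ∃ m : ℕ, 1 ≤ m ∧ lam = (1 / 3) ^ m ∧
      (∀ g, St L lam g → P g → (1 / 2) ^ m ≤ F (g (0, 1)).2 - F (g (0, 0)).2) ∧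
      ∃ g, St L lam g ∧ P g ∧ ∃ z j : ℤ, ∀ c ∈ K, 0 ≤ c → c ≤ 1 → ∀ x : ℝ,
        g (x, c) = (lam * (x + z), lam * (c + j)) := by
  obtain ⟨g₀, hg₀, hmin₀⟩ := tD_attain_thmD hF hP hne
  set μ : ℝ := F (g₀ (0, 1)).2 - F (g₀ (0, 0)).2 with hμ
  -- properties of minimisers
  have key : ∀ g, St L lam g → P g → F (g (0, 1)).2 - F (g (0, 0)).2 = μ →
      (∃ s0, (St L lam s0 ∧ P s0 ∧ F (s0 (0, 1)).2 - F (s0 (0, 0)).2 = μ) ∧
        ∃ s2, (St L lam s2 ∧ P s2 ∧ F (s2 (0, 1)).2 - F (s2 (0, 0)).2 = μ) ∧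
        (s0 (0, 1)).2 - (s0 (0, 0)).2 = 3 * ((g (0, 1 / 3)).2 - (g (0, 0)).2) ∧
        (s2 (0, 1)).2 - (s2 (0, 0)).2 = 3 * ((g (0, 1)).2 - (g (0, 2 / 3)).2)) ∧
      ∃ m : ℕ, 1 ≤ m ∧ lam = (1 / 3) ^ m ∧ ∃ z j : ℤ, (g (0, 1 / 3)).1 = lam * z ∧
        (g (0, 1 / 3)).2 = lam * (j + 1 / 3) ∧ (g (0, 2 / 3)).2 = lam * (j + 2 / 3) := by
    intro g hg hPg hgm
    have hs0 := St.sub0 hlam hg
    have hs2 := St.sub2 hlam hg
    have hp0 := hP.sub0 g hg hPg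
    have hp2 := hP.sub2 g hg hPg
    set s0 : ℝ × ℝ → ℝ × ℝ := fun q => (3 : ℝ) • g (q.1 / 3, q.2 / 3) with hs0d
    set s2 : ℝ × ℝ → ℝ × ℝ := fun q => (3 : ℝ) • g (q.1 / 3, (q.2 + 2) / 3) with hs2d
    have e00 : (s0 (0, 0)).2 = 3 * (g (0, 0)).2 := by
      simp [hs0d]
    have e01 : (s0 (0, 1)).2 = 3 * (g (0, 1 / 3)).2 := by
      simp [hs0d]
    have e20 : (s2 (0, 0)).2 = 3 * (g (0, 2 / 3)).2 := by
      simp [hs2d]
    have e21 : (s2 (0, 1)).2 = 3 * (g (0, 1)).2 := by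
      have : ((1 : ℝ) + 2) / 3 = 1 := by norm_num
      simp [hs2d, this]
    have k0 : (g (0, 0)).2 ∈ K := hg.hK hlam K_zero le_rfl zero_le_one
    have k1 : (g (0, 1 / 3)).2 ∈ K := hg.hK hlam K_third (by norm_num) (by norm_num)
    have k2 : (g (0, 2 / 3)).2 ∈ K := hg.hK hlam K_two_third (by norm_num) (by norm_num)
    have k3 : (g (0, 1)).2 ∈ K := hg.hK hlam K_one zero_le_one le_rfl
    have l1 : (g (0, 0)).2 < (g (0, 1 / 3)).2 :=
      hg.hlt hlam K_zero K_third le_rfl (by norm_num) (by norm_num)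
    have l2 : (g (0, 1 / 3)).2 < (g (0, 2 / 3)).2 :=
      hg.hlt hlam K_third K_two_third (by norm_num) (by norm_num) (by norm_num)
    have l3 : (g (0, 2 / 3)).2 < (g (0, 1)).2 :=
      hg.hlt hlam K_two_third K_one (by norm_num) (by norm_num) le_rfl
    have u1 : (g (0, 1 / 3)).2 - (g (0, 0)).2 ≤ 1 / 9 := by
      have h := hg.hle (c := 0) (c' := 1 / 3) le_rfl (by norm_num) (by norm_num)
      have h2 := le_abs_self ((g (0, 1 / 3)).2 - (g (0, 0)).2)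
      have h3 := abs_nonneg ((g (0, 1 / 3)).1 - (g (0, 0)).1)
      have h4 : lam * (1 / 3 - 0) ≤ 1 / 9 := by linarith
      linarith
    have u3 : (g (0, 1)).2 - (g (0, 2 / 3)).2 ≤ 1 / 9 := by
      have h := hg.hle (c := 2 / 3) (c' := 1) (by norm_num) (by norm_num) le_rfl
      have h2 := le_abs_self ((g (0, 1)).2 - (g (0, 2 / 3)).2)
      have h3 := abs_nonneg ((g (0, 1)).1 - (g (0, 2 / 3)).1)
      have h4 : lam * (1 - 2 / 3) ≤ 1 / 9 := by linarith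
      linarith
    have d1 := tD_double_thmD hF k0 k1 l1.le u1
    have d3 := tD_double_thmD hF k2 k3 l3.le u3
    have m0 := hmin₀ s0 hs0 hp0
    have m2 := hmin₀ s2 hs2 hp2
    rw [e01, e00, d1] at m0
    rw [e21, e20, d3] at m2
    have m1 := hF.mono l2.le
    have z1 : F (g (0, 1 / 3)).2 = F (g (0, 2 / 3)).2 := by linarith
    obtain ⟨k, hk, j, hj1, hj2⟩ := F_gap hF k1 k2 l2 z1
    obtain ⟨hk2, hlamk, z, hz⟩ := channel hlam hlam1 hg hk hj1 hj2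
    refine ⟨⟨s0, ⟨hs0, hp0, ?_⟩, s2, ⟨hs2, hp2, ?_⟩, ?_, ?_⟩, ?_⟩
    · rw [e01, e00, d1]; linarith
    · rw [e21, e20, d3]; linarith
    · rw [e01, e00]; ring
    · rw [e21, e20]; ring
    · obtain ⟨n, rfl⟩ : ∃ n, k = n + 2 := ⟨k - 2, by omega⟩
      refine ⟨n + 1, by omega, ?_, z, j, hz, ?_, ?_⟩
      · rw [hlamk]; congr 1
      · have : lam = (1 / 3) ^ (n + 1) := by rw [hlamk]; congr 1
        rw [hj1, this, one_div_pow, show n + 2 = (n + 1) + 1 from rfl, pow_succ (3 : ℝ) (n + 1)]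
        have h3 : (3 : ℝ) ^ (n + 1) ≠ 0 := by positivity
        field_simp
      · have : lam = (1 / 3) ^ (n + 1) := by rw [hlamk]; congr 1
        rw [hj2, this, one_div_pow, show n + 2 = (n + 1) + 1 from rfl, pow_succ (3 : ℝ) (n + 1)]
        have h3 : (3 : ℝ) ^ (n + 1) ≠ 0 := by positivity
        field_simp
  -- height of minimisers
  set T : Set ℝ := {t | ∃ g, (St L lam g ∧ P g ∧ F (g (0, 1)).2 - F (g (0, 0)).2 = μ) ∧
    t = (g (0, 1)).2 - (g (0, 0)).2} with hT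
  have hTb : BddBelow T := by
    refine ⟨0, ?_⟩
    rintro t ⟨g, ⟨hg, _⟩, rfl⟩
    have := hg.ori
    linarith
  have hTne : T.Nonempty := ⟨_, g₀, ⟨hg₀.1, hg₀.2, rfl⟩, rfl⟩
  have hρ : lam ≤ sInf T := by
    have : (lam + 2 * sInf T) / 3 ≤ sInf T := by
      refine le_csInf hTne ?_
      rintro t ⟨g, ⟨hg, hPg, hgm⟩, rfl⟩
      obtain ⟨⟨s0, hs0, s2, hs2, q0, q2⟩, m, hm, hl, z, j, hz, ha, hb⟩ := key g hg hPg hgm
      have r0 := csInf_le hTb (show (s0 (0, 1)).2 - (s0 (0, 0)).2 ∈ T from ⟨s0, hs0, rfl⟩)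
      have r2 := csInf_le hTb (show (s2 (0, 1)).2 - (s2 (0, 0)).2 ∈ T from ⟨s2, hs2, rfl⟩)
      rw [q0] at r0
      rw [q2] at r2
      have : (g (0, 2 / 3)).2 - (g (0, 1 / 3)).2 = lam / 3 := by rw [ha, hb]; ring
      linarith
    linarith
  have hH : lam ≤ (g₀ (0, 1)).2 - (g₀ (0, 0)).2 :=
    hρ.trans (csInf_le hTb ⟨g₀, ⟨hg₀.1, hg₀.2, rfl⟩, rfl⟩)
  obtain ⟨-, m, hm, hl, z, j, hz, ha, hb⟩ := key g₀ hg₀.1 hg₀.2 rfl
  have hsat := sat_v hg₀.1.good (y := 0) (y' := 1) (x := 0)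
    (fun t h0 h1 => tD_mem_thmD h0 h1) (by simpa using hH) zero_le_one
  have h13 := hsat (1 / 3) (by norm_num) (by norm_num)
  have c1 : (g₀ (0, 0)).1 = lam * z := by
    rw [← hz, h13]
  have c2 : (g₀ (0, 0)).2 = lam * j := by
    have : (g₀ (0, 1 / 3)).2 = (g₀ (0, 0)).2 + lam * (1 / 3 - 0) := by rw [h13]
    rw [ha] at this
    linarith
  have c3 : (g₀ (0, 1)).2 = lam * (j + 1) := by
    have h1 := hsat 1 zero_le_one le_rfl
    have : (g₀ (0, 1)).2 = (g₀ (0, 0)).2 + lam * (1 - 0) := by rw [h1]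
    rw [this, c2]; ring
  have hμm : μ = (1 / 2) ^ m := by
    have e0 : (g₀ (0, 0)).2 = (j : ℝ) / 3 ^ m := by
      rw [c2, hl, one_div_pow]; ring
    have e1 : (g₀ (0, 1)).2 = ((j : ℝ) + 1) / 3 ^ m := by
      rw [c3, hl, one_div_pow]; ring
    rcases F_step hF m j with h | h
    · exfalso
      have k0 : (g₀ (0, 0)).2 ∈ K := hg₀.1.hK hlam K_zero le_rfl zero_le_one
      have k1 : (g₀ (0, 1 / 3)).2 ∈ K := hg₀.1.hK hlam K_third (by norm_num) (by norm_num)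
      have k3 : (g₀ (0, 1)).2 ∈ K := hg₀.1.hK hlam K_one zero_le_one le_rfl
      have l : (g₀ (0, 0)).2 < (g₀ (0, 1)).2 :=
        hg₀.1.hlt hlam K_zero K_one le_rfl zero_lt_one le_rfl
      have l1 : (g₀ (0, 0)).2 < (g₀ (0, 1 / 3)).2 :=
        hg₀.1.hlt hlam K_zero K_third le_rfl (by norm_num) (by norm_num)
      have l2 : (g₀ (0, 1 / 3)).2 < (g₀ (0, 1)).2 :=
        hg₀.1.hlt hlam K_third K_one (by norm_num) (by norm_num) le_rfl
      have hFeq : F (g₀ (0, 0)).2 = F (g₀ (0, 1)).2 := by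
        rw [e0, e1]; linarith
      obtain ⟨k, hk, i, hi1, hi2⟩ := F_gap hF k0 k3 l hFeq
      obtain ⟨n, rfl⟩ : ∃ n, k = n + 1 := ⟨k - 1, by omega⟩
      refine k1 n ⟨i, ?_, ?_⟩
      · rw [hi1] at l1
        rw [div_lt_iff₀ (by positivity)] at l1
        linarith
      · rw [hi2] at l2
        rw [lt_div_iff₀ (by positivity)] at l2
        linarith
    · rw [hμ, e0, e1, h]
  refine ⟨m, hm, hl, ?_, g₀, hg₀.1, hg₀.2, z, j, ?_⟩
  · intro g hg hPg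
    rw [← hμm]
    exact hmin₀ g hg hPg
  · intro c hc h0 h1 x
    rw [hg₀.1.str c hc h0 h1 x, hsat c h0 h1]
    ext
    · simp only [c1]; ring
    · simp only [c2]; ring

end

end Pool.Agent.Helper746.Car
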