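import Mathlib
import Pool.Agent.Helper746.CarDefs
import Pool.Agent.Helper746.CarBasA
import Pool.Agent.Helper746.CarBasB
import Pool.Agent.Helper746.CarSq
import Pool.Agent.Helper746.CarTrans
import Pool.Agent.Helper746.CarSqex
import Pool.Agent.Helper746.CarUltra
import Pool.Agent.Helper746.CarFex
import Pool.Agent.Helper746.CarStcl
import Pool.Agent.Helper746.CarThmD
import Pool.Agent.Helper746.CarNetrans
import Pool.Agent.Helper746.CarNelim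
import Pool.Agent.Helper746.CarNorml

set_option autoImplicit false

namespace Pool.Agent.Helper746.Car

open Filter Topology

noncomputable section

theorem j5723_RwI_sub_e0 (a b : ℝ) : RwI a b ⊆ Rw := by
  intro p hp
  exact ⟨hp.1, hp.2.2.2.1, hp.2.2.2.2⟩

theorem j5723_mem_Rw_e0 {c : ℝ} (hc : c ∈ K) (h0 : 0 ≤ c) (h1 : c ≤ 1) (x : ℝ) :
    ((x, c) : ℝ × ℝ) ∈ Rw := ⟨X_of_K2 x hc, h0, h1⟩

theorem j5723_cp0_e0 (q : ℝ × ℝ) : cp 0 0 0 q = q := by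
  unfold cp
  ext <;> simp

theorem j5723_lim_v_e0 {lam : ℝ} (v : ℕ → ℝ)
    (h1 : ∀ k : ℕ, lam / (1 + 1 / ((k : ℝ) + 1)) ≤ v k) (h2 : ∀ k, v k ≤ lam) :
    Tendsto v atTop (𝓝 lam) := by
  have h0 : Tendsto (fun k : ℕ => 1 / ((k : ℝ) + 1)) atTop (𝓝 0) :=
    tendsto_one_div_add_atTop_nhds_zero_nat
  have h3 : Tendsto (fun k : ℕ => 1 + 1 / ((k : ℝ) + 1)) atTop (𝓝 (1 + 0)) :=
    tendsto_const_nhds.add h0
  have h4 : Tendsto (fun k : ℕ => lam / (1 + 1 / ((k : ℝ) + 1))) atTop (𝓝 (lam / (1 + 0))) :=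
    tendsto_const_nhds.div h3 (by norm_num)
  have h5 : lam / (1 + 0) = lam := by norm_num
  rw [h5] at h4
  exact tendsto_of_tendsto_of_tendsto_of_le_of_le h4 tendsto_const_nhds h1 h2

theorem j5723_Cl_e0 (L lam : ℝ) : Cl L lam (NE lam Rw) := by
  refine ⟨?_, ?_, ?_, ?_⟩
  · intro g _ h z w
    refine NE_scale h 0 0 0 z w ?_ ?_
    · intro q hq
      have : (((((0 : ℤ) : ℝ) + q.1) / 3 ^ 0, (((0 : ℤ) : ℝ) + q.2) / 3 ^ 0) : ℝ × ℝ) = q := by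
        ext <;> simp
      rw [this]; exact hq
    · intro q _
      have : (((((0 : ℤ) : ℝ) + q.1) / 3 ^ 0, (((0 : ℤ) : ℝ) + q.2) / 3 ^ 0) : ℝ × ℝ) = q := by
        ext <;> simp
      rw [this, pow_zero, one_smul]
  · intro g _ h
    refine NE_scale h 1 0 0 0 0 ?_ ?_
    · intro q hq
      have : (((((0 : ℤ) : ℝ) + q.1) / 3 ^ 1, (((0 : ℤ) : ℝ) + q.2) / 3 ^ 1) : ℝ × ℝ)
          = (q.1 / 3, q.2 / 3) := by
        ext <;> simp
      rw [this]; exact Rw_sub0 hq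
    · intro q _
      have : (((((0 : ℤ) : ℝ) + q.1) / 3 ^ 1, (((0 : ℤ) : ℝ) + q.2) / 3 ^ 1) : ℝ × ℝ)
          = (q.1 / 3, q.2 / 3) := by
        ext <;> simp
      rw [this, pow_one]
      ext <;> simp
  · intro g _ h
    refine NE_scale h 1 0 2 0 0 ?_ ?_
    · intro q hq
      have : (((((0 : ℤ) : ℝ) + q.1) / 3 ^ 1, (((2 : ℤ) : ℝ) + q.2) / 3 ^ 1) : ℝ × ℝ)
          = (q.1 / 3, (q.2 + 2) / 3) := by
        ext
        · simp
        · simp [add_comm]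
      rw [this]; exact Rw_sub2 hq
    · intro q _
      have : (((((0 : ℤ) : ℝ) + q.1) / 3 ^ 1, (((2 : ℤ) : ℝ) + q.2) / 3 ^ 1) : ℝ × ℝ)
          = (q.1 / 3, (q.2 + 2) / 3) := by
        ext
        · simp
        · simp [add_comm]
      rw [this, pow_one]
      ext <;> simp
  · intro g G hSt hP _ hlim
    exact NE_lim g (fun k => (hSt k).good.restrict (j5723_RwI_sub_e0 _ _))
      (fun k => NE_restrict (hP k) (j5723_RwI_sub_e0 _ _)) G hlim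

theorem j5723_exists_e0 {L lam : ℝ} (hlam : 0 < lam) (hlam1 : lam ≤ 1 / 3)
    {f : ℝ × ℝ → ℝ × ℝ} (hf : Good L lam Sq f)
    (hext : ∀ ε : ℝ, 0 < ε →
      (∃ x x' y : ℝ, x < x' ∧ (∀ s, x ≤ s → s ≤ x' → ((s, y) : ℝ × ℝ) ∈ Sq) ∧
        (lam - ε) * (x' - x) ≤ n1 (f (x', y) - f (x, y))) ∨
      (∃ y y' x : ℝ, y < y' ∧ (∀ s, y ≤ s → s ≤ y' → ((x, s) : ℝ × ℝ) ∈ Sq) ∧
        (lam - ε) * (y' - y) ≤ n1 (f (x, y') - f (x, y)))) (hNE : NE lam Sq f) :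
    ∃ G, St L lam G ∧ NE lam Rw G := by
  have hpos : ∀ k : ℕ, (0 : ℝ) < 1 / ((k : ℝ) + 1) := fun k => by positivity
  have hle : ∀ k : ℕ, 1 / ((k : ℝ) + 1) ≤ 1 := fun k => by
    rw [div_le_one (by positivity)]
    have : (0 : ℝ) ≤ k := Nat.cast_nonneg k
    linarith
  have h := fun k : ℕ => near_straight hlam hlam1 (hpos k) (hle k) hf hNE hext
  choose g v hg hgNE hv1 hv2 hn hori hstr using h
  have hg' : ∀ k : ℕ, Good L lam (RwI (-(k : ℝ)) k) (g k) :=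
    fun k => (hg k).restrict (j5723_RwI_sub_e0 _ _)
  have hgNE' : ∀ k : ℕ, NE lam (RwI (-(k : ℝ)) k) (g k) :=
    fun k => NE_restrict (hgNE k) (j5723_RwI_sub_e0 _ _)
  rcases ultra g hg' hn with ⟨G, hG, hlim⟩
  have hv : Tendsto v (hyperfilter ℕ : Filter ℕ) (𝓝 lam) :=
    (j5723_lim_v_e0 v hv1 hv2).mono_left Nat.hyperfilter_le_atTop
  refine ⟨G, ⟨hG, ?_, ?_⟩, NE_lim g hg' hgNE' G hlim⟩
  · intro c hc h0 h1 x
    have hx := hlim (x, c) (j5723_mem_Rw_e0 hc h0 h1 x)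
    have h00 := hlim (0, c) (j5723_mem_Rw_e0 hc h0 h1 0)
    have e : (fun k => g k (x, c)) = fun k => ((g k (0, c)).1 + v k * x, (g k (0, c)).2) := by
      funext k
      exact hstr k c hc h0 h1 x
    rw [e] at hx
    have h1' : Tendsto (fun k => (g k (0, c)).1) (hyperfilter ℕ : Filter ℕ) (𝓝 (G (0, c)).1) :=
      (continuous_fst.tendsto _).comp h00
    have h2' : Tendsto (fun k => (g k (0, c)).2) (hyperfilter ℕ : Filter ℕ) (𝓝 (G (0, c)).2) :=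
      (continuous_snd.tendsto _).comp h00
    have h3 : Tendsto (fun k => ((g k (0, c)).1 + v k * x, (g k (0, c)).2))
        (hyperfilter ℕ : Filter ℕ) (𝓝 ((G (0, c)).1 + lam * x, (G (0, c)).2)) :=
      Tendsto.prodMk_nhds (h1'.add (hv.mul_const x)) h2'
    exact tendsto_nhds_unique hx h3
  · have h0 := hlim (0, 0) (j5723_mem_Rw_e0 K_zero le_rfl zero_le_one 0)
    have h1 := hlim (0, 1) (j5723_mem_Rw_e0 K_one zero_le_one le_rfl 0)
    have h0' : Tendsto (fun k => (g k (0, 0)).2) (hyperfilter ℕ : Filter ℕ) (𝓝 (G (0, 0)).2) :=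
      (continuous_snd.tendsto _).comp h0
    have h1' : Tendsto (fun k => (g k (0, 1)).2) (hyperfilter ℕ : Filter ℕ) (𝓝 (G (0, 1)).2) :=
      (continuous_snd.tendsto _).comp h1
    exact le_of_tendsto_of_tendsto' h0' h1' hori


theorem exact_cell {L lam : ℝ} (hlam : 0 < lam) (hlam1 : lam ≤ 1 / 3)
    {f : ℝ × ℝ → ℝ × ℝ} (hf : Good L lam Sq f)
    (hext : ∀ ε : ℝ, 0 < ε →
      (∃ x x' y : ℝ, x < x' ∧ (∀ s, x ≤ s → s ≤ x' → ((s, y) : ℝ × ℝ) ∈ Sq) ∧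
        (lam - ε) * (x' - x) ≤ n1 (f (x', y) - f (x, y))) ∨
      (∃ y y' x : ℝ, y < y' ∧ (∀ s, y ≤ s → s ≤ y' → ((x, s) : ℝ × ℝ) ∈ Sq) ∧
        (lam - ε) * (y' - y) ≤ n1 (f (x, y') - f (x, y)))) : ¬ NE lam Sq f := by
  intro hNE
  rcases exists_F with ⟨F, hF⟩
  rcases theoremD hF hlam hlam1 (j5723_Cl_e0 L lam) (j5723_exists_e0 hlam hlam1 hf hext hNE) with
    ⟨m, _, hm, _, g, hg, hgNE, z, j, hgj⟩
  have hD : ∀ q ∈ Sq, cp 0 0 0 q ∈ Rw := by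
    intro q hq
    rw [j5723_cp0_e0]
    exact ⟨hq.1, hq.2.2.2.1, hq.2.2.2.2⟩
  refine hgNE 0 0 0 hD ⟨m, hm, id, ⟨1, 1, Or.inl rfl, Or.inl rfl, Or.inl ?_⟩, z, j, ?_⟩
  · intro p
    ext <;> simp
  · have h0 := hgj 0 K_zero le_rfl zero_le_one
    have h1 := hgj 1 K_one zero_le_one le_rfl
    have key := cell_exact hlam.le hg.good 0 0 0 hD (b := lam • ((z : ℝ), (j : ℝ)))
      (by rw [j5723_cp0_e0, h0 0]; ext <;> simp [mul_add])
      (by rw [j5723_cp0_e0, h0 1]; ext <;> simp [mul_add])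
      (by rw [j5723_cp0_e0, h1 0]; ext <;> simp [mul_add])
      (by rw [j5723_cp0_e0, h1 1]; ext <;> simp [mul_add])
    intro q hq
    rw [key q hq, j5723_cp0_e0, pow_zero, div_one, id, smul_add]

end

end Pool.Agent.Helper746.Car
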