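import Mathlib
import Pool.Agent.Helper746.CarDefs
import Pool.Agent.Helper746.CarBasA
import Pool.Agent.Helper746.CarBasB

set_option autoImplicit false

namespace Pool.Agent.Helper746.Car

open Filter Topology

noncomputable section

theorem Sq_shrink {p : ℝ × ℝ} (h : p ∈ Sq) (k : ℕ) : ((1 / 3 : ℝ) ^ k) • p ∈ Sq := by
  induction k with
  | zero => simpa using h
  | succ k ih =>
    have := Sq_sub ih (a := 0) (b := 0) ⟨le_refl _, by norm_num⟩ ⟨le_refl _, by norm_num⟩ (by norm_num)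
    have e : cp 1 0 0 (((1 / 3 : ℝ) ^ k) • p) = ((1 / 3 : ℝ) ^ (k + 1)) • p := by
      ext
      · simp [cp, pow_succ]; ring
      · simp [cp, pow_succ]; ring
    rw [e] at this
    exact this

theorem Sq_iff (p : ℝ × ℝ) : p ∈ Sq ↔ (0 ≤ p.1 ∧ p.1 ≤ 1 ∧ 0 ≤ p.2 ∧ p.2 ≤ 1 ∧
        ∀ n : ℕ, ∀ i j : ℤ,
          ¬ (((3 * (i : ℝ) + 1) / 3 ^ (n + 1) < p.1 ∧ p.1 < (3 * (i : ℝ) + 2) / 3 ^ (n + 1)) ∧
             ((3 * (j : ℝ) + 1) / 3 ^ (n + 1) < p.2 ∧ p.2 < (3 * (j : ℝ) + 2) / 3 ^ (n + 1)))) := by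
  have key : ∀ (n : ℕ) (i : ℤ) (t : ℝ), ((3 * (i : ℝ) + 1) / 3 ^ (n + 1) < t ∧ t < (3 * (i : ℝ) + 2) / 3 ^ (n + 1)) ↔
      (3 * (i : ℝ) + 1 < 3 ^ (n + 1) * t ∧ 3 ^ (n + 1) * t < 3 * (i : ℝ) + 2) := by
    intro n i t
    have hp : (0 : ℝ) < 3 ^ (n + 1) := by positivity
    rw [div_lt_iff₀ hp, lt_div_iff₀ hp, mul_comm t]
  constructor
  · rintro ⟨hX, h1, h2, h3, h4⟩
    refine ⟨h1, h2, h3, h4, ?_⟩
    intro n i j hh
    rw [key, key] at hh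
    exact hX n ⟨⟨i, hh.1⟩, ⟨j, hh.2⟩⟩
  · rintro ⟨h1, h2, h3, h4, h5⟩
    refine ⟨?_, h1, h2, h3, h4⟩
    rintro n ⟨⟨i, hi⟩, ⟨j, hj⟩⟩
    apply h5 n i j
    rw [key, key]
    exact ⟨hi, hj⟩

theorem n1_le_two_norm (u : ℝ × ℝ) : n1 u ≤ 2 * ‖u‖ := by
  have h1 : |u.1| ≤ ‖u‖ := norm_fst_le u
  have h2 : |u.2| ≤ ‖u‖ := norm_snd_le u
  unfold n1
  linarith

theorem norm_le_n1 (u : ℝ × ℝ) : ‖u‖ ≤ n1 u := by
  unfold n1
  rw [Prod.norm_def]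
  apply max_le
  · rw [Real.norm_eq_abs]; linarith [abs_nonneg u.2]
  · rw [Real.norm_eq_abs]; linarith [abs_nonneg u.1]

theorem n1_zero : n1 0 = 0 := by simp [n1]

/-- extremal speed of a bi-Lipschitz map -/
theorem extremal (f : ℝ × ℝ → ℝ × ℝ) (hf : Set.MapsTo f Sq Sq) {C : ℝ} (hC : 0 < C)
    (h : ∀ p ∈ Sq, ∀ q ∈ Sq, dist p q ≤ C * dist (f p) (f q) ∧ dist (f p) (f q) ≤ C * dist p q) :
    ∃ (m : ℕ) (L lam : ℝ), 0 < lam ∧ lam ≤ 1 / 3 ∧ Good L lam Sq (fun p => ((1 / 3 : ℝ) ^ m) • f p) ∧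
      ∀ ε : ℝ, 0 < ε →
      (∃ x x' y : ℝ, x < x' ∧ (∀ s, x ≤ s → s ≤ x' → ((s, y) : ℝ × ℝ) ∈ Sq) ∧
        (lam - ε) * (x' - x) ≤ n1 (((1 / 3 : ℝ) ^ m) • f (x', y) - ((1 / 3 : ℝ) ^ m) • f (x, y))) ∨
      (∃ y y' x : ℝ, y < y' ∧ (∀ s, y ≤ s → s ≤ y' → ((x, s) : ℝ × ℝ) ∈ Sq) ∧
        (lam - ε) * (y' - y) ≤ n1 (((1 / 3 : ℝ) ^ m) • f (x, y') - ((1 / 3 : ℝ) ^ m) • f (x, y))) := by
  obtain ⟨m, hm⟩ : ∃ m : ℕ, (1 / 3 : ℝ) ^ m < 1 / (6 * C) :=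
    exists_pow_lt_of_lt_one (by positivity) (by norm_num)
  have hmp : (0 : ℝ) < (1 / 3) ^ m := by positivity
  have hmC : 2 * ((1 / 3 : ℝ) ^ m * C) ≤ 1 / 3 := by
    rw [lt_div_iff₀ (by positivity)] at hm
    linarith
  set g : ℝ × ℝ → ℝ × ℝ := fun p => ((1 / 3 : ℝ) ^ m) • f p with hg
  have hdist : ∀ p q, dist (g p) (g q) = (1 / 3 : ℝ) ^ m * dist (f p) (f q) := by
    intro p q
    rw [hg]
    simp only
    rw [dist_smul₀, Real.norm_of_nonneg hmp.le]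
  have hup : ∀ p ∈ Sq, ∀ q ∈ Sq, n1 (g p - g q) ≤ 1 / 3 * dist p q := by
    intro p hp q hq
    have h1 := n1_le_two_norm (g p - g q)
    rw [← dist_eq_norm, hdist] at h1
    have h2 := (h p hp q hq).2
    have h3 : (1 / 3 : ℝ) ^ m * dist (f p) (f q) ≤ (1 / 3 : ℝ) ^ m * (C * dist p q) :=
      mul_le_mul_of_nonneg_left h2 hmp.le
    have h4 : 2 * ((1 / 3 : ℝ) ^ m * C) * dist p q ≤ 1 / 3 * dist p q :=
      mul_le_mul_of_nonneg_right hmC dist_nonneg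
    nlinarith
  have hdx : ∀ x x' y : ℝ, dist ((x', y) : ℝ × ℝ) (x, y) = |x' - x| := by
    intro x x' y
    simp [Prod.dist_eq, Real.dist_eq]
  have hdy : ∀ x x' y : ℝ, dist ((y, x') : ℝ × ℝ) (y, x) = |x' - x| := by
    intro x x' y
    simp [Prod.dist_eq, Real.dist_eq]
  let V : Set ℝ := {r | (∃ x x' y : ℝ, x < x' ∧ (∀ s, x ≤ s → s ≤ x' → ((s, y) : ℝ × ℝ) ∈ Sq) ∧
        r = n1 (g (x', y) - g (x, y)) / (x' - x)) ∨
      (∃ y y' x : ℝ, y < y' ∧ (∀ s, y ≤ s → s ≤ y' → ((x, s) : ℝ × ℝ) ∈ Sq) ∧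
        r = n1 (g (x, y') - g (x, y)) / (y' - y))}
  have hVub : ∀ r ∈ V, r ≤ 1 / 3 := by
    rintro r (⟨x, x', y, hx, hs, rfl⟩ | ⟨y, y', x, hy, hs, rfl⟩)
    · rw [div_le_iff₀ (by linarith)]
      have := hup (x', y) (hs x' hx.le le_rfl) (x, y) (hs x le_rfl hx.le)
      rwa [hdx, abs_of_pos (by linarith)] at this
    · rw [div_le_iff₀ (by linarith)]
      have := hup (x, y') (hs y' hy.le le_rfl) (x, y) (hs y le_rfl hy.le)
      rwa [hdy, abs_of_pos (by linarith)] at this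
  have hVbdd : BddAbove V := ⟨1 / 3, hVub⟩
  have hseg0 : ∀ s : ℝ, 0 ≤ s → s ≤ 1 → ((s, 0) : ℝ × ℝ) ∈ Sq := by
    intro s h0 h1
    exact ⟨X_of_K2 s K_zero, h0, h1, le_refl _, zero_le_one⟩
  have hr0 : n1 (g (1, 0) - g (0, 0)) / (1 - 0) ∈ V :=
    Or.inl ⟨0, 1, 0, one_pos, hseg0, rfl⟩
  have hpos0 : 0 < n1 (g (1, 0) - g (0, 0)) / (1 - 0) := by
    have h1 := (h (1, 0) (hseg0 1 zero_le_one le_rfl) (0, 0) (hseg0 0 le_rfl zero_le_one)).1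
    rw [hdx] at h1
    have h2 : 0 < dist (f (1, 0)) (f (0, 0)) := by
      by_contra hcon
      have : dist (f (1, 0)) (f (0, 0)) = 0 := le_antisymm (not_lt.mp hcon) dist_nonneg
      rw [this] at h1
      norm_num at h1
    have h3 : 0 < dist (g (1, 0)) (g (0, 0)) := by
      rw [hdist]; positivity
    rw [dist_eq_norm] at h3
    have h4 := norm_le_n1 (g (1, 0) - g (0, 0))
    have : 0 < n1 (g (1, 0) - g (0, 0)) := lt_of_lt_of_le h3 h4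
    simpa using this
  set lam := sSup V with hlamdef
  have hlam0 : 0 < lam := lt_of_lt_of_le hpos0 (le_csSup hVbdd hr0)
  have hlam1 : lam ≤ 1 / 3 := csSup_le ⟨_, hr0⟩ hVub
  refine ⟨m, C * 3 ^ m, lam, hlam0, hlam1, ?_, ?_⟩
  · have h33 : (1 / 3 : ℝ) ^ m * 3 ^ m = 1 := by
      rw [← mul_pow]; norm_num
    refine ⟨?_, ?_, ?_, ?_, ?_⟩
    · intro p hp
      exact (Sq_shrink (hf hp) m).1
    · intro p hp q hq
      change dist p q ≤ C * 3 ^ m * dist (g p) (g q)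
      rw [hdist]
      have := (h p hp q hq).1
      have e : C * 3 ^ m * ((1 / 3 : ℝ) ^ m * dist (f p) (f q)) = C * dist (f p) (f q) := by
        calc C * 3 ^ m * ((1 / 3 : ℝ) ^ m * dist (f p) (f q))
            = C * dist (f p) (f q) * ((1 / 3 : ℝ) ^ m * 3 ^ m) := by ring
          _ = _ := by rw [h33, mul_one]
      rw [e]; exact this
    · intro p hp q hq
      change dist (g p) (g q) ≤ C * 3 ^ m * dist p q
      rw [hdist]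
      have h2 := (h p hp q hq).2
      have h3 : (1 / 3 : ℝ) ^ m * dist (f p) (f q) ≤ (1 / 3 : ℝ) ^ m * (C * dist p q) :=
        mul_le_mul_of_nonneg_left h2 hmp.le
      have h4 : (1 / 3 : ℝ) ^ m ≤ 3 ^ m := by
        apply pow_le_pow_left₀ (by norm_num) (by norm_num)
      have h5 : (1 / 3 : ℝ) ^ m * (C * dist p q) ≤ 3 ^ m * (C * dist p q) :=
        mul_le_mul_of_nonneg_right h4 (by positivity)
      nlinarith
    · intro x x' y hx hs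
      rcases hx.eq_or_lt with rfl | hlt
      · simp [n1]
      · have : n1 (g (x', y) - g (x, y)) / (x' - x) ≤ lam := le_csSup hVbdd (Or.inl ⟨x, x', y, hlt, hs, rfl⟩)
        rwa [div_le_iff₀ (by linarith)] at this
    · intro y y' x hy hs
      rcases hy.eq_or_lt with rfl | hlt
      · simp [n1]
      · have : n1 (g (x, y') - g (x, y)) / (y' - y) ≤ lam := le_csSup hVbdd (Or.inr ⟨y, y', x, hlt, hs, rfl⟩)
        rwa [div_le_iff₀ (by linarith)] at this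
  · intro ε hε
    obtain ⟨r, hr, hlt⟩ := exists_lt_of_lt_csSup ⟨_, hr0⟩ (show lam - ε < sSup V by linarith)
    rcases hr with ⟨x, x', y, hx, hs, rfl⟩ | ⟨y, y', x, hy, hs, rfl⟩
    · left
      refine ⟨x, x', y, hx, hs, ?_⟩
      rw [lt_div_iff₀ (by linarith)] at hlt
      exact hlt.le
    · right
      refine ⟨y, y', x, hy, hs, ?_⟩
      rw [lt_div_iff₀ (by linarith)] at hlt
      exact hlt.le

theorem IsSym.linear {A : ℝ × ℝ → ℝ × ℝ} (hA : IsSym A) : ∃ Al : (ℝ × ℝ) →ₗ[ℝ] (ℝ × ℝ), ∀ p, A p = Al p := by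
  obtain ⟨e₁, e₂, _, _, h | h⟩ := hA
  · refine ⟨(e₁ • LinearMap.fst ℝ ℝ ℝ).prod (e₂ • LinearMap.snd ℝ ℝ ℝ), fun p => ?_⟩
    rw [h p]; simp
  · refine ⟨(e₁ • LinearMap.snd ℝ ℝ ℝ).prod (e₂ • LinearMap.fst ℝ ℝ ℝ), fun p => ?_⟩
    rw [h p]; simp

end

end Pool.Agent.Helper746.Car
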