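import Mathlib
import Pool.Agent.Helper746.CarDefs
import Pool.Agent.Helper746.CarBasA
import Pool.Agent.Helper746.CarBasB
import Pool.Agent.Helper746.CarSq
import Pool.Agent.Helper746.CarTrans
import Pool.Agent.Helper746.CarSqex
import Pool.Agent.Helper746.CarCornerC

set_option autoImplicit false

namespace Pool.Agent.Helper746.Car

open Filter Topology

noncomputable section

theorem sq_of_K1_holetop {c t : ℝ} (hc : c ∈ K) (h0 : 0 ≤ c) (h1 : c ≤ 1) (t0 : 0 ≤ t) (t1 : t ≤ 1) :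
    ((c, t) : ℝ × ℝ) ∈ Sq := ⟨X_of_K1 t hc, h0, h1, t0, t1⟩

theorem sq_of_K2_holetop {c t : ℝ} (hc : c ∈ K) (h0 : 0 ≤ c) (h1 : c ≤ 1) (t0 : 0 ≤ t) (t1 : t ≤ 1) :
    ((t, c) : ℝ × ℝ) ∈ Sq := ⟨X_of_K2 t hc, t0, t1, h0, h1⟩

theorem n1_smul_holetop {lam : ℝ} (h : 0 ≤ lam) (p : ℝ × ℝ) : n1 (lam • p) = lam * n1 p := by
  simp only [n1, Prod.smul_fst, Prod.smul_snd, smul_eq_mul, abs_mul, abs_of_nonneg h]; ring

theorem line_limit_holetop {L lam : ℝ} (hl0 : 0 ≤ lam) {g : ℝ × ℝ → ℝ × ℝ}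
    (hg : Good L lam Sq g) {c ζ : ℝ} (hc : c ∈ K) (hc0 : 0 ≤ c) (hc1 : c ≤ 1) {z w : ℤ}
    (hζ0 : 0 < ζ) (hζ1 : ζ ≤ 1)
    (hlow : ∀ p ∈ Sq, p.2 < ζ → g p = lam • (p + ((z : ℝ), (w : ℝ)))) :
    g (c, ζ) = lam • (((c, ζ) : ℝ × ℝ) + ((z : ℝ), (w : ℝ))) := by
  have key : ∀ ε : ℝ, 0 < ε → ε < ζ →
      dist (g (c, ζ)) (lam • (((c, ζ) : ℝ × ℝ) + ((z : ℝ), (w : ℝ)))) ≤ (|L| + lam) * ε := by
    intro ε he hez
    have hm1 : ((c, ζ) : ℝ × ℝ) ∈ Sq := sq_of_K1_holetop hc hc0 hc1 hζ0.le hζ1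
    have hm2 : ((c, ζ - ε) : ℝ × ℝ) ∈ Sq := sq_of_K1_holetop hc hc0 hc1 (by linarith) (by linarith)
    have h1 := hg.upper _ hm1 _ hm2
    have h2 := hlow _ hm2 (by simp; exact he)
    have h3 : dist ((c, ζ) : ℝ × ℝ) ((c, ζ - ε) : ℝ × ℝ) = ε := by
      rw [Prod.dist_eq]
      simp [Real.dist_eq, abs_of_pos he, he.le]
    have h4 : dist (g (c, ζ - ε)) (lam • (((c, ζ) : ℝ × ℝ) + ((z : ℝ), (w : ℝ)))) = lam * ε := by
      rw [h2, Prod.dist_eq]
      simp only [Prod.smul_fst, Prod.smul_snd, Prod.fst_add, Prod.snd_add, smul_eq_mul, dist_self,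
        Real.dist_eq]
      have : lam * (ζ - ε + (w : ℝ)) - lam * (ζ + (w : ℝ)) = -(lam * ε) := by ring
      rw [this, abs_neg, abs_of_nonneg (by positivity)]
      exact max_eq_right (by positivity)
    have h5 := dist_triangle (g (c, ζ)) (g (c, ζ - ε))
      (lam • (((c, ζ) : ℝ × ℝ) + ((z : ℝ), (w : ℝ))))
    rw [h3] at h1
    have h6 : L * ε ≤ |L| * ε := mul_le_mul_of_nonneg_right (le_abs_self L) he.le
    rw [h4] at h5
    linarith
  have hd : dist (g (c, ζ)) (lam • (((c, ζ) : ℝ × ℝ) + ((z : ℝ), (w : ℝ)))) ≤ 0 := by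
    by_contra hcon
    push Not at hcon
    set δ := dist (g (c, ζ)) (lam • (((c, ζ) : ℝ × ℝ) + ((z : ℝ), (w : ℝ)))) with hδ
    have hB : 0 < |L| + lam + 1 := by positivity
    set ε := min (ζ / 2) (δ / (2 * (|L| + lam + 1))) with hε
    have he0 : 0 < ε := lt_min (by linarith) (by positivity)
    have he1 : ε < ζ := lt_of_le_of_lt (min_le_left _ _) (by linarith)
    have h1 := key ε he0 he1
    have h2 : ε ≤ δ / (2 * (|L| + lam + 1)) := min_le_right _ _
    have h3 : (|L| + lam) * ε ≤ (|L| + lam + 1) * ε := by nlinarith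
    have h4 : (|L| + lam + 1) * ε ≤ δ / 2 := by
      calc (|L| + lam + 1) * ε ≤ (|L| + lam + 1) * (δ / (2 * (|L| + lam + 1))) :=
            mul_le_mul_of_nonneg_left h2 hB.le
        _ = δ / 2 := by field_simp
    linarith
  exact dist_le_zero.mp hd

set_option maxHeartbeats 1000000 in
theorem hole_top {L lam : ℝ} {m : ℕ} (hm : 1 ≤ m) (hlam : lam = (1 / 3) ^ m) {g : ℝ × ℝ → ℝ × ℝ}
    (hg : Good L lam Sq g) {z w : ℤ} {ζ : ℝ} (hζ0 : 1 / 3 < ζ) (hζ1 : ζ < 2 / 3)
    (hlow : ∀ p ∈ Sq, p.2 < ζ → g p = lam • (p + ((z : ℝ), (w : ℝ)))) :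
    ∀ p ∈ Sq, p.2 ≤ 2 / 3 → g p = lam • (p + ((z : ℝ), (w : ℝ))) := by
  have hl0 : 0 < lam := by rw [hlam]; positivity
  have hl1 : lam ≤ 1 / 3 := by
    rw [hlam]
    calc ((1:ℝ) / 3) ^ m ≤ (1 / 3) ^ 1 :=
          pow_le_pow_of_le_one (by norm_num) (by norm_num) hm
      _ = 1 / 3 := by norm_num
  -- preimages
  have hpre : ∀ p ∈ Sq, ∃ u : ℝ × ℝ, u ∈ X ∧ g p = lam • (u + ((z : ℝ), (w : ℝ))) := by
    intro p hp
    refine ⟨lam⁻¹ • g p - ((z : ℝ), (w : ℝ)), ?_, ?_⟩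
    · rw [X_sub_int]
      apply X_of_lam (m := m)
      rw [← hlam, smul_smul, mul_inv_cancel₀ hl0.ne', one_smul]
      exact hg.mapsX p hp
    · rw [sub_add_cancel, smul_smul, mul_inv_cancel₀ hl0.ne', one_smul]
  have hX : ∀ u : ℝ × ℝ, ∀ p ∈ Sq, g p = lam • (u + ((z : ℝ), (w : ℝ))) → u ∈ X := by
    intro u p hp h
    have h1 : u + ((z : ℝ), (w : ℝ)) ∈ X := by
      apply X_of_lam (m := m)
      rw [← hlam, ← h]; exact hg.mapsX p hp
    rwa [X_add_int] at h1
  have hK3 : ∀ t : ℝ, 0 ≤ t → t ≤ 1 → (((1/3 : ℝ), t) : ℝ × ℝ) ∈ Sq := fun t h0 h1 =>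
    sq_of_K1_holetop K_third (by norm_num) (by norm_num) h0 h1
  have hK23 : ∀ t : ℝ, 0 ≤ t → t ≤ 1 → (((2/3 : ℝ), t) : ℝ × ℝ) ∈ Sq := fun t h0 h1 =>
    sq_of_K1_holetop K_two_third (by norm_num) (by norm_num) h0 h1
  have hR23 : ∀ t : ℝ, 0 ≤ t → t ≤ 1 → ((t, (2/3 : ℝ)) : ℝ × ℝ) ∈ Sq := fun t h0 h1 =>
    sq_of_K2_holetop K_two_third (by norm_num) (by norm_num) h0 h1
  have hR13 : ∀ t : ℝ, 0 ≤ t → t ≤ 1 → ((t, (1/3 : ℝ)) : ℝ × ℝ) ∈ Sq := fun t h0 h1 =>
    sq_of_K2_holetop K_third (by norm_num) (by norm_num) h0 h1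
  have hz1 := line_limit_holetop hl0.le hg K_third (by norm_num) (by norm_num) (by linarith) (by linarith) hlow
  have hz2 := line_limit_holetop hl0.le hg K_two_third (by norm_num) (by norm_num) (by linarith)
    (by linarith) hlow
  obtain ⟨u1, hu1X, hu1⟩ := hpre _ (hK3 (2/3) (by norm_num) (by norm_num))
  obtain ⟨u2, hu2X, hu2⟩ := hpre _ (hK23 (2/3) (by norm_num) (by norm_num))
  have hn1 : n1 (u1 - (1/3, ζ)) ≤ 2/3 - ζ := by
    have h := hg.speedV ζ (2/3) (1/3) hζ1.le (fun t h0 h1 => hK3 t (by linarith) (by linarith))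
    rw [hu1, hz1, ← smul_sub, n1_smul_holetop hl0.le] at h
    have h2 := le_of_mul_le_mul_left h hl0
    rwa [add_sub_add_right_eq_sub] at h2
  have hn2 : n1 (u2 - (2/3, ζ)) ≤ 2/3 - ζ := by
    have h := hg.speedV ζ (2/3) (2/3) hζ1.le (fun t h0 h1 => hK23 t (by linarith) (by linarith))
    rw [hu2, hz2, ← smul_sub, n1_smul_holetop hl0.le] at h
    have h2 := le_of_mul_le_mul_left h hl0
    rwa [add_sub_add_right_eq_sub] at h2
  have hn12 : n1 (u2 - u1) ≤ 1/3 := by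
    have h := hg.speedH (1/3) (2/3) (2/3) (by norm_num)
      (fun t h0 h1 => hR23 t (by linarith) (by linarith))
    rw [hu1, hu2, ← smul_sub, n1_smul_holetop hl0.le] at h
    have h2 := le_of_mul_le_mul_left h hl0
    rw [add_sub_add_right_eq_sub] at h2
    linarith
  simp only [n1, Prod.fst_sub, Prod.snd_sub] at hn1 hn2 hn12
  have a1 := abs_le.mp (le_trans (le_add_of_nonneg_right (abs_nonneg _)) hn1)
  have a2 := abs_le.mp (le_trans (le_add_of_nonneg_left (abs_nonneg _)) hn1)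
  have b1 := abs_le.mp (le_trans (le_add_of_nonneg_right (abs_nonneg _)) hn2)
  have b2 := abs_le.mp (le_trans (le_add_of_nonneg_left (abs_nonneg _)) hn2)
  have hS1 : u1 ∈ Sq := ⟨hu1X, by linarith [a1.1], by linarith [a1.2], by linarith [a2.1], by linarith [a2.2]⟩
  have hS2 : u2 ∈ Sq := ⟨hu2X, by linarith [b1.1], by linarith [b1.2], by linarith [b2.1], by linarith [b2.2]⟩
  have hc1 : ζ ≤ u1.2 := by
    by_contra hcon
    push Not at hcon
    have h1 := hlow u1 hS1 hcon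
    have h2 := hg.inj hS1 (hK3 (2/3) (by norm_num) (by norm_num)) (h1.trans hu1.symm)
    rw [h2] at hcon
    simp only [] at hcon
    linarith
  have hc2 : ζ ≤ u2.2 := by
    by_contra hcon
    push Not at hcon
    have h1 := hlow u2 hS2 hcon
    have h2 := hg.inj hS2 (hK23 (2/3) (by norm_num) (by norm_num)) (h1.trans hu2.symm)
    rw [h2] at hcon
    simp only [] at hcon
    linarith
  have hmid : ∀ t : ℝ, 1/3 < t → t < 2/3 → Mid 0 t := by
    intro t h0 h1
    rw [mid_zero_iff]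
    exact ⟨0, by push_cast; linarith, by push_cast; linarith⟩
  have ht1 : u1.2 ≤ 2/3 := by linarith [a2.2]
  have ht2 : u2.2 ≤ 2/3 := by linarith [b2.2]
  have hl1' : u1.2 < 2/3 → u1.1 ≤ 1/3 := by
    intro h
    by_contra hcon
    push Not at hcon
    exact hu1X 0 ⟨hmid _ hcon (by linarith [a1.2]), hmid _ (by linarith) h⟩
  have hl2' : u2.2 < 2/3 → 2/3 ≤ u2.1 := by
    intro h
    by_contra hcon
    push Not at hcon
    exact hu2X 0 ⟨hmid _ (by linarith [b1.1]) hcon, hmid _ (by linarith) h⟩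
  have he1 : u1.2 = 2/3 → u1.1 = 1/3 := by
    intro h
    rw [h, abs_of_pos (by linarith : (0:ℝ) < 2/3 - ζ)] at hn1
    have : |u1.1 - 1/3| ≤ 0 := by linarith
    have := abs_nonpos_iff.mp this
    linarith
  have he2 : u2.2 = 2/3 → u2.1 = 2/3 := by
    intro h
    rw [h, abs_of_pos (by linarith : (0:ℝ) < 2/3 - ζ)] at hn2
    have : |u2.1 - 2/3| ≤ 0 := by linarith
    have := abs_nonpos_iff.mp this
    linarith
  have hle1 := le_abs_self (u2.1 - u1.1)
  have hle2 := le_abs_self (u2.2 - u1.2)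
  have hle3 := neg_abs_le (u2.2 - u1.2)
  have hE1 : u1.2 = 2/3 := by
    by_contra hne
    have hlt : u1.2 < 2/3 := lt_of_le_of_ne ht1 hne
    have h1 := hl1' hlt
    by_cases hne2 : u2.2 = 2/3
    · have h2 := he2 hne2
      linarith
    · have hlt2 : u2.2 < 2/3 := lt_of_le_of_ne ht2 hne2
      have h2 := hl2' hlt2
      have e1 : u1.1 = 1/3 := by linarith [abs_nonneg (u2.2 - u1.2)]
      have e2 : u2.1 = 2/3 := by linarith [abs_nonneg (u2.2 - u1.2)]
      have e3 : |u2.2 - u1.2| ≤ 0 := by rw [e1, e2] at hle1 hn12; linarith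
      have e4 : u2.2 = u1.2 := by have := abs_nonpos_iff.mp e3; linarith
      have hs := sat_h hg (x := 1/3) (x' := 2/3) (y := 2/3)
        (fun t h0 h1 => hR23 t (by linarith) (by linarith))
        (by
          rw [hu1, hu2]
          simp only [Prod.smul_fst, Prod.fst_add, smul_eq_mul]
          rw [e1, e2]
          have : lam * (2/3 + (z:ℝ)) - lam * (1/3 + (z:ℝ)) = lam * (2/3 - 1/3) := by ring
          rw [this]; exact le_abs_self _)
        (by norm_num)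
        (by
          rw [hu1, hu2]
          simp only [Prod.smul_fst, Prod.fst_add, smul_eq_mul]
          rw [e1, e2]
          nlinarith)
        (1/2) (by norm_num) (by norm_num)
      rw [hu1] at hs
      simp only [Prod.smul_fst, Prod.smul_snd, Prod.fst_add, Prod.snd_add, smul_eq_mul] at hs
      have h5 : ((1/2, u1.2) : ℝ × ℝ) ∈ X := by
        apply hX _ _ (hR23 (1/2) (by norm_num) (by norm_num))
        rw [hs, e1]
        ext
        · simp only [Prod.smul_fst, Prod.fst_add, smul_eq_mul]; ring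
        · simp only [Prod.smul_snd, Prod.snd_add, smul_eq_mul]
      exact h5 0 ⟨hmid _ (by norm_num) (by norm_num), hmid _ (by simp only []; linarith) hlt⟩
  have hE1' := he1 hE1
  have hE2 : u2.2 = 2/3 := by
    by_contra hne2
    have hlt2 : u2.2 < 2/3 := lt_of_le_of_ne ht2 hne2
    have h2 := hl2' hlt2
    linarith
  have hE2' := he2 hE2
  have hU1 : u1 = (1/3, 2/3) := Prod.ext hE1' hE1
  have hU2 : u2 = (2/3, 2/3) := Prod.ext hE2' hE2
  rw [hU1] at hu1
  rw [hU2] at hu2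
  set b : ℝ × ℝ := lam • ((z : ℝ), (w : ℝ)) with hb
  have hlow' : ∀ p ∈ Sq, p.2 < ζ → g p = lam • p + b := by
    intro p hp h; rw [hlow p hp h, smul_add]
  rw [smul_add, ← hb] at hu1 hu2
  have v1 := sq_v hg (y := 1/3) (y' := 2/3) (x := 1/3) (b := b)
    (fun t h0 h1 => hK3 t (by linarith) (by linarith))
    (hlow' _ (hK3 (1/3) (by norm_num) (by norm_num)) (by simpa using hζ0)) hu1
  have v2 := sq_v hg (y := 1/3) (y' := 2/3) (x := 2/3) (b := b)
    (fun t h0 h1 => hK23 t (by linarith) (by linarith))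
    (hlow' _ (hK23 (1/3) (by norm_num) (by norm_num)) (by simpa using hζ0)) hu2
  have h3 := sq_h hg (x := 1/3) (x' := 2/3) (y := 2/3) (b := b)
    (fun t h0 h1 => hR23 t (by linarith) (by linarith)) hu1 hu2
  have cL := corner_cell' hl0 hl1 hg 1 0 1
    (fun q hq => Sq_sub hq (by norm_num) (by norm_num) (by norm_num)) (b := b)
    (by
      intro s s0 s1
      have : cp 1 0 1 (s, 0) = (s/3, 1/3) := by simp [cp]
      rw [this]
      exact hlow' _ (hR13 _ (by linarith) (by linarith)) (by simpa using hζ0))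
    (by
      intro s s0 s1
      have : cp 1 0 1 (1, s) = (1/3, (1+s)/3) := by simp [cp]
      rw [this]
      exact v1 _ (by linarith) (by linarith))
  have cR := corner_cell hl0 hl1 hg 1 2 1
    (fun q hq => Sq_sub hq (by norm_num) (by norm_num) (by norm_num)) (b := b)
    (by
      intro s s0 s1
      have : cp 1 2 1 (s, 0) = ((2+s)/3, 1/3) := by simp [cp]
      rw [this]
      exact hlow' _ (hR13 _ (by linarith) (by linarith)) (by simpa using hζ0))
    (by
      intro s s0 s1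
      have : cp 1 2 1 (0, s) = (2/3, (1+s)/3) := by simp [cp]
      rw [this]
      exact v2 _ (by linarith) (by linarith))
  have htop : ∀ x : ℝ, 0 ≤ x → x ≤ 1 → g (x, 2/3) = lam • ((x, 2/3) : ℝ × ℝ) + b := by
    intro x x0 x1
    by_cases hx1 : x < 1/3
    · have h := cL (3 * x, 1) (sq_of_K2_holetop K_one (by norm_num) le_rfl (by linarith) (by linarith))
      have : cp 1 0 1 (3 * x, 1) = (x, 2/3) := by
        simp only [cp]; ext <;> norm_num
      rwa [this] at h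
    by_cases hx2 : x ≤ 2/3
    · exact h3 x (by linarith) hx2
    · push Not at hx2
      have h := cR (3 * x - 2, 1) (sq_of_K2_holetop K_one (by norm_num) le_rfl (by linarith) (by linarith))
      have : cp 1 2 1 (3 * x - 2, 1) = (x, 2/3) := by
        simp only [cp]; ext <;> norm_num
      rwa [this] at h
  intro p hp hp2
  rw [smul_add, ← hb]
  by_cases hpz : p.2 < ζ
  · exact hlow' p hp hpz
  push Not at hpz
  obtain ⟨i, j, hi, hj, hij, q, hq, hpq⟩ := Sq_cover hp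
  have hp1 : p.1 = ((i : ℝ) + q.1) / 3 := by rw [hpq]; simp [cp]
  have hp2' : p.2 = ((j : ℝ) + q.2) / 3 := by rw [hpq]; simp [cp]
  obtain ⟨_, q0, q1, q2, q3⟩ := hq
  have hj' : j = 0 ∨ j = 1 ∨ j = 2 := by omega
  rcases hj' with rfl | rfl | rfl
  · exfalso
    push_cast at hp2'
    linarith
  · have hi' : i = 0 ∨ i = 2 := by omega
    rcases hi' with rfl | rfl
    · rw [hpq]; exact cL q ⟨by assumption, q0, q1, q2, q3⟩
    · rw [hpq]; exact cR q ⟨by assumption, q0, q1, q2, q3⟩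
  · have h23 : p.2 = 2/3 := by
      push_cast at hp2'
      linarith
    obtain ⟨_, p0, p1, _, _⟩ := hp
    have : p = (p.1, 2/3) := Prod.ext rfl h23
    rw [this]
    exact htop _ p0 p1

end

end Pool.Agent.Helper746.Car
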