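import Mathlib
import Pool.Agent.Helper746.CarDefs
import Pool.Agent.Helper746.CarBasA
import Pool.Agent.Helper746.CarBasB
import Pool.Agent.Helper746.CarSq
import Pool.Agent.Helper746.CarTrans
import Pool.Agent.Helper746.CarFex
import Pool.Agent.Helper746.CarFlem
import Pool.Agent.Helper746.CarHmono
import Pool.Agent.Helper746.CarThmD

set_option autoImplicit false

namespace Pool.Agent.Helper746.Car

open Filter Topology

noncomputable section

theorem lemmaA {L lam : ℝ} {m : ℕ} (hm : 1 ≤ m) (hlam : lam = (1 / 3) ^ m) {g : ℝ × ℝ → ℝ × ℝ}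
    (hg : St L lam g) {z w : ℤ} (h0 : g (0, 0) = (lam * z, lam * w)) :
    ∀ c ∈ K, 0 ≤ c → c ≤ 1 → ∀ x : ℝ, g (x, c) = lam • (((x, c) : ℝ × ℝ) + ((z : ℝ), (w : ℝ))) := by
  have hlam0 : 0 < lam := by rw [hlam]; positivity
  have hlam3 : lam ≤ 1 / 3 := by
    rw [hlam]
    calc (1 / 3 : ℝ) ^ m ≤ (1 / 3 : ℝ) ^ 1 :=
          pow_le_pow_of_le_one (by norm_num) (by norm_num) hm
      _ = 1 / 3 := pow_one _
  obtain ⟨F, hF⟩ := exists_F
  have hCl : Cl L lam (fun _ => True) :=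
    ⟨fun _ _ _ _ _ => trivial, fun _ _ _ => trivial, fun _ _ _ => trivial,
      fun _ _ _ _ _ _ => trivial⟩
  obtain ⟨m', hm', hlam', hall, _⟩ := theoremD hF hlam0 hlam3 hCl ⟨g, hg, trivial⟩
  have hmm : m' = m := by
    rw [hlam] at hlam'
    exact (pow_right_injective₀ (by norm_num : (0 : ℝ) < 1 / 3) (by norm_num) hlam').symm
  subst hmm
  have h1 := hall g hg trivial
  have hl3 : lam = 1 / 3 ^ m' := by rw [hlam]; simp
  have h3 : (0 : ℝ) < 3 ^ m' := by positivity
  have h00 : (g (0, 0)).2 = (w : ℝ) / 3 ^ m' := by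
    rw [h0, hl3]
    ring
  have hori := hg.ori
  have hle := hg.hle (c := 0) (c' := 1) le_rfl zero_le_one le_rfl
  have habs : (g (0, 1)).2 - (g (0, 0)).2 ≤ lam := by
    have e1 := abs_nonneg ((g (0, 1)).1 - (g (0, 0)).1)
    have e2 := le_abs_self ((g (0, 1)).2 - (g (0, 0)).2)
    linarith
  have hβ : (g (0, 1)).2 = ((w : ℝ) + 1) / 3 ^ m' := by
    refine F_full hF m' w ?_ ?_ ?_
    · rw [← h00]; exact hori
    · rw [h00, hl3] at habs
      rw [add_div]
      linarith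
    · rw [← h00]; exact h1
  have hsat := sat_v hg.good (y := 0) (y' := 1) (x := 0)
    (fun t ht0 ht1 => ⟨X_of_K1 t K_zero, ht0, ht1⟩)
    (by rw [hβ, h00, hl3, add_div]; linarith) zero_le_one
  intro c hc hc0 hc1 x
  rw [hg.str c hc hc0 hc1 x, hsat c hc0 hc1, h0]
  ext
  · simp
    ring
  · simp
    ring

end

end Pool.Agent.Helper746.Car
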