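import Mathlib
import Pool.Agent.Helper746.CarDefs
import Pool.Agent.Helper746.CarBasA
import Pool.Agent.Helper746.CarBasB
import Pool.Agent.Helper746.CarSq
import Pool.Agent.Helper746.CarTrans
import Pool.Agent.Helper746.CarUltra
import Pool.Agent.Helper746.CarTh
import Pool.Agent.Helper746.CarLemA

set_option autoImplicit false

namespace Pool.Agent.Helper746.Car

open Filter Topology

noncomputable section

theorem hG_mono_lim_lemG {f : ℝ → ℝ} (hf : Monotone f) {B : ℝ} (hB : ∀ x, |f x| ≤ B) (m : ℕ) (σ : ℤ)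
    (hσ : σ = 1 ∨ σ = -1) :
    ∃ l : ℝ, ∀ x : ℝ, Tendsto (fun k : ℕ => f ((σ : ℝ) * 3 ^ m * k + x)) atTop (𝓝 l) := by
  have h3 : (0 : ℝ) < 3 ^ m := by positivity
  rcases hσ with h | h
  · refine ⟨_, fun x => (tendsto_atTop_ciSup hf ⟨B, ?_⟩).comp ?_⟩
    · rintro _ ⟨y, rfl⟩
      exact (abs_le.1 (hB y)).2
    · subst h
      apply tendsto_atTop_add_const_right
      have h1 : Tendsto (fun k : ℕ => (3 ^ m : ℝ) * k) atTop atTop :=
        tendsto_natCast_atTop_atTop.const_mul_atTop h3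
      refine h1.congr fun k => ?_
      push_cast; ring
  · refine ⟨_, fun x => (tendsto_atBot_ciInf hf ⟨-B, ?_⟩).comp ?_⟩
    · rintro _ ⟨y, rfl⟩
      exact (abs_le.1 (hB y)).1
    · subst h
      apply tendsto_atBot_add_const_right
      have h1 : Tendsto (fun k : ℕ => (3 ^ m : ℝ) * k) atTop atTop :=
        tendsto_natCast_atTop_atTop.const_mul_atTop h3
      refine (tendsto_neg_atTop_atBot.comp h1).congr fun k => ?_
      simp only [Function.comp]
      push_cast; ring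

theorem hG_tail_lemG {L lam : ℝ} {m : ℕ} (hm : 1 ≤ m) (hlam : lam = (1 / 3) ^ m) {g : ℝ × ℝ → ℝ × ℝ}
    (hg : Good L lam Rw g) {z w : ℤ}
    (hbot : ∀ x : ℝ, g (x, 0) = lam • (((x, 0) : ℝ × ℝ) + ((z : ℝ), (w : ℝ))))
    (habove : ∀ p ∈ Rw, lam * w ≤ (g p).2) (σ : ℤ) (hσ : σ = 1 ∨ σ = -1) (N : ℕ) :
    ∃ k : ℕ, N ≤ k ∧
      g ((σ : ℝ) * 3 ^ m * k + 1 / 3, 1 / 3) =
        lam • ((((σ : ℝ) * 3 ^ m * k + 1 / 3, 1 / 3) : ℝ × ℝ) + ((z : ℝ), (w : ℝ))) ∧
      g ((σ : ℝ) * 3 ^ m * k + 1 / 3, 2 / 3) =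
        lam • ((((σ : ℝ) * 3 ^ m * k + 1 / 3, 2 / 3) : ℝ × ℝ) + ((z : ℝ), (w : ℝ))) := by
  have hlam0 : 0 < lam := by rw [hlam]; positivity
  have hlam3 : lam * 3 ^ m = 1 := by
    rw [hlam, ← mul_pow]; norm_num
  have memK : ∀ (c x : ℝ), c ∈ K → 0 ≤ c → c ≤ 1 → ((x, c) : ℝ × ℝ) ∈ Rw := fun c x hc h0 h1 =>
    ⟨X_of_K2 x hc, h0, h1⟩
  have mem0 : ∀ x : ℝ, ((x, 0) : ℝ × ℝ) ∈ Rw := fun x => memK 0 x K_zero le_rfl zero_le_one
  have hL : 0 ≤ L := by
    have h1 := hg.upper (0, 0) (mem0 0) (1, 0) (mem0 1)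
    have h2 : dist ((0, 0) : ℝ × ℝ) (1, 0) = 1 := by
      rw [Prod.dist_eq]; simp
    rw [h2, mul_one] at h1
    exact dist_nonneg.trans h1
  -- the integer shift
  set A : ℕ → ℤ := fun k => σ * 3 ^ m * k with hA
  have hAr : ∀ k : ℕ, ((A k : ℤ) : ℝ) = (σ : ℝ) * 3 ^ m * k := fun k => by
    simp only [hA]; push_cast; ring
  have hlamA : ∀ k : ℕ, lam * ((σ : ℝ) * 3 ^ m * k) = σ * k := fun k => by
    calc lam * ((σ : ℝ) * 3 ^ m * k) = (lam * 3 ^ m) * (σ * k) := by ring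
      _ = σ * k := by rw [hlam3, one_mul]
  set gk : ℕ → ℝ × ℝ → ℝ × ℝ := fun k q =>
    g ((σ : ℝ) * 3 ^ m * k + q.1, q.2) - (((σ * k : ℤ) : ℝ), 0) with hgk
  have hshift : ∀ (k : ℕ) (q : ℝ × ℝ), q ∈ Rw → (((σ : ℝ) * 3 ^ m * k + q.1, q.2) : ℝ × ℝ) ∈ Rw := by
    rintro k q ⟨h1, h2, h3⟩
    refine ⟨?_, h2, h3⟩
    have h4 := (X_add_int q (A k) 0).2 h1
    have h5 : q + (((A k : ℤ) : ℝ), ((0 : ℤ) : ℝ)) = (((σ : ℝ) * 3 ^ m * k + q.1, q.2) : ℝ × ℝ) := by
      rw [hAr]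
      ext
      · simp only [Prod.fst_add]; ring
      · simp
    rwa [h5] at h4
  have hgkR : ∀ k, Good L lam Rw (gk k) := by
    intro k
    refine Good.scale hg 0 ((σ : ℝ) * 3 ^ m * k) 0 (σ * k) 0 (fun q hq => ?_) (fun q _ => ?_)
    · have := hshift k q hq
      simpa using this
    · simp only [hgk]
      simp
  have hgkI : ∀ k : ℕ, Good L lam (RwI (-(k : ℝ)) k) (gk k) := fun k =>
    (hgkR k).restrict fun p hp => ⟨hp.1, hp.2.2.2.1, hp.2.2.2.2⟩
  have hgk0 : ∀ (k : ℕ) (x : ℝ), gk k (x, 0) = lam • (((x, 0) : ℝ × ℝ) + ((z : ℝ), (w : ℝ))) := by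
    intro k x
    simp only [hgk]
    rw [hbot]
    have := hlamA k
    ext
    · simp only [Prod.fst_sub, Prod.smul_fst, Prod.fst_add, smul_eq_mul]
      push_cast
      linear_combination this
    · simp
  obtain ⟨G, hG, hGl⟩ := ultra gk hgkI (C := ‖lam • (((0, 0) : ℝ × ℝ) + ((z : ℝ), (w : ℝ)))‖)
    (fun k => by rw [hgk0])
  have hhyp : (hyperfilter ℕ : Filter ℕ) ≤ atTop := Nat.hyperfilter_le_atTop
  have hG0 : ∀ x : ℝ, G (x, 0) = lam • (((x, 0) : ℝ × ℝ) + ((z : ℝ), (w : ℝ))) := by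
    intro x
    have h1 := hGl (x, 0) (mem0 x)
    simp only [hgk0] at h1
    exact tendsto_nhds_unique h1 tendsto_const_nhds
  -- straightness of G in the first coordinate
  have hG1 : ∀ c ∈ K, 0 ≤ c → c ≤ 1 → ∀ x : ℝ, (G (x, c)).1 = (G (0, c)).1 + lam * x := by
    intro c hc hc0 hc1
    have hTm : Monotone (fun x : ℝ => lam * x - (g (x, c)).1) := by
      intro x x' hxx
      have h1 := hg.speedH x x' c hxx (fun t _ _ => memK c t hc hc0 hc1)
      unfold n1 at h1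
      have h2 : (g (x', c)).1 - (g (x, c)).1 ≤ lam * (x' - x) := by
        have h3 := le_abs_self (g (x', c) - g (x, c)).1
        have h4 := abs_nonneg (g (x', c) - g (x, c)).2
        rw [Prod.fst_sub] at h3
        rw [Prod.fst_sub] at h1
        linarith
      show lam * x - (g (x, c)).1 ≤ lam * x' - (g (x', c)).1
      linarith
    have hTb : ∀ x : ℝ, |lam * x - (g (x, c)).1| ≤ |lam * z| + L := by
      intro x
      have h1 := hg.upper (x, 0) (mem0 x) (x, c) (memK c x hc hc0 hc1)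
      have h2 : dist ((x, 0) : ℝ × ℝ) (x, c) ≤ 1 := by
        rw [Prod.dist_eq]
        simp only [dist_self, Real.dist_eq, zero_sub, abs_neg]
        rw [abs_of_nonneg hc0]
        exact max_le zero_le_one hc1
      have h3 : dist (g (x, 0)).1 (g (x, c)).1 ≤ dist (g (x, 0)) (g (x, c)) := by
        rw [Prod.dist_eq (x := g (x, 0))]; exact le_max_left _ _
      have h4 : (g (x, 0)).1 = lam * x + lam * z := by
        rw [hbot]
        simp only [Prod.smul_fst, Prod.fst_add, smul_eq_mul]; ring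
      have h5 : L * dist ((x, 0) : ℝ × ℝ) (x, c) ≤ L * 1 := mul_le_mul_of_nonneg_left h2 hL
      have h6 : lam * x - (g (x, c)).1 = ((g (x, 0)).1 - (g (x, c)).1) - lam * z := by
        rw [h4]; ring
      rw [h6]
      have h7 := abs_sub ((g (x, 0)).1 - (g (x, c)).1) (lam * z)
      rw [Real.dist_eq] at h3
      linarith
    obtain ⟨l, hl⟩ := hG_mono_lim_lemG hTm hTb m σ hσ
    have h8 : ∀ x : ℝ, lam * x - (G (x, c)).1 = l := by
      intro x
      have h9 := (hl x).mono_left hhyp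
      have h10 : Tendsto (fun k => lam * x - (gk k (x, c)).1) (hyperfilter ℕ : Filter ℕ)
          (𝓝 (lam * x - (G (x, c)).1)) :=
        tendsto_const_nhds.sub ((continuous_fst.tendsto _).comp (hGl (x, c) (memK c x hc hc0 hc1)))
      have h11 : (fun k : ℕ => lam * x - (gk k (x, c)).1) =
          fun k : ℕ => lam * ((σ : ℝ) * 3 ^ m * k + x) - (g ((σ : ℝ) * 3 ^ m * k + x, c)).1 := by
        funext k
        simp only [hgk, Prod.fst_sub]
        have := hlamA k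
        push_cast
        linear_combination -this
      rw [h11] at h10
      exact tendsto_nhds_unique h10 h9
    intro x
    have h12 := h8 x
    have h13 := h8 0
    linarith
  have hG2 : ∀ c ∈ K, 0 ≤ c → c ≤ 1 → ∀ x x' : ℝ, x ≤ x' → (G (x', c)).2 = (G (x, c)).2 := by
    intro c hc hc0 hc1 x x' hxx
    have h1 := hG1 c hc hc0 hc1 x
    have h2 := hG1 c hc hc0 hc1 x'
    have hnn : 0 ≤ lam * (x' - x) := mul_nonneg hlam0.le (by linarith)
    have h3 := sat_h hG (x := x) (x' := x') (y := c) (fun t _ _ => memK c t hc hc0 hc1)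
      (by
        have e : (G (x', c)).1 - (G (x, c)).1 = lam * (x' - x) := by rw [h1, h2]; ring
        rw [e, abs_of_nonneg hnn]) hxx (by rw [h1, h2]; nlinarith) x' hxx le_rfl
    rw [h3]
  have hstr : ∀ c ∈ K, 0 ≤ c → c ≤ 1 → ∀ x : ℝ, G (x, c) = ((G (0, c)).1 + lam * x, (G (0, c)).2) := by
    intro c hc hc0 hc1 x
    ext
    · exact hG1 c hc hc0 hc1 x
    · rcases le_total 0 x with h | h
      · exact hG2 c hc hc0 hc1 0 x h
      · exact (hG2 c hc hc0 hc1 x 0 h).symm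
  have hori : (G (0, 0)).2 ≤ (G (0, 1)).2 := by
    have h1 : (G (0, 0)).2 = lam * w := by
      rw [hG0]; simp
    rw [h1]
    have h2 : Tendsto (fun k => (gk k (0, 1)).2) (hyperfilter ℕ : Filter ℕ) (𝓝 (G (0, 1)).2) :=
      (continuous_snd.tendsto _).comp (hGl (0, 1) (memK 1 0 K_one zero_le_one le_rfl))
    refine ge_of_tendsto' h2 fun k => ?_
    simp only [hgk, Prod.snd_sub, sub_zero]
    exact habove _ (hshift k (0, 1) (memK 1 0 K_one zero_le_one le_rfl))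
  have hSt : St L lam G := ⟨hG, hstr, hori⟩
  have hexact := lemmaA hm hlam hSt (z := z) (w := w) (by
    rw [hG0]
    ext <;> simp)
  -- vertical segments
  have hvert : ∀ x : ℝ, x ∈ K → G (x, 1 / 2) = lam • (((x, 1 / 2) : ℝ × ℝ) + ((z : ℝ), (w : ℝ))) := by
    intro x hx
    have h1 := hexact (1 / 3) K_third (by norm_num) (by norm_num) x
    have h2 := hexact (2 / 3) K_two_third (by norm_num) (by norm_num) x
    rw [smul_add] at h1 h2 ⊢
    exact sq_v hG (y := 1 / 3) (y' := 2 / 3)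
      (fun t ht0 ht1 => ⟨X_of_K1 t hx, by linarith, by linarith⟩) h1 h2 (1 / 2) (by norm_num) (by norm_num)
  have hev : ∀ p : ℝ × ℝ, p ∈ Rw → G p = lam • (p + ((z : ℝ), (w : ℝ))) →
      ∀ᶠ k in (hyperfilter ℕ : Filter ℕ), dist (gk k p) (lam • (p + ((z : ℝ), (w : ℝ)))) < lam / 12 := by
    intro p hp hGp
    have h1 := hGl p hp
    rw [hGp] at h1
    exact (Metric.tendsto_nhds.1 h1) _ (by positivity)
  have hevi : ∀ i : ℤ, ∀ᶠ k in (hyperfilter ℕ : Filter ℕ), ∀ p : ℝ × ℝ,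
      (p = ((i : ℝ) + 1 / 3, 1 / 2) ∨ p = ((i : ℝ) + 2 / 3, 1 / 2) ∨ p = ((i : ℝ) + 1 / 2, 1 / 3) ∨
        p = ((i : ℝ) + 1 / 2, 2 / 3)) → dist (gk k p) (lam • (p + ((z : ℝ), (w : ℝ)))) < lam / 12 := by
    intro i
    have k1 : (i : ℝ) + 1 / 3 ∈ K := by
      have := K_add_int K_third i
      rwa [add_comm] at this
    have k2 : (i : ℝ) + 2 / 3 ∈ K := by
      have := K_add_int K_two_third i
      rwa [add_comm] at this
    have e1 := hev ((i : ℝ) + 1 / 3, 1 / 2) ⟨X_of_K1 _ k1, by norm_num, by norm_num⟩ (hvert _ k1)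
    have e2 := hev ((i : ℝ) + 2 / 3, 1 / 2) ⟨X_of_K1 _ k2, by norm_num, by norm_num⟩ (hvert _ k2)
    have e3 := hev ((i : ℝ) + 1 / 2, 1 / 3) (memK _ _ K_third (by norm_num) (by norm_num))
      (hexact _ K_third (by norm_num) (by norm_num) _)
    have e4 := hev ((i : ℝ) + 1 / 2, 2 / 3) (memK _ _ K_two_third (by norm_num) (by norm_num))
      (hexact _ K_two_third (by norm_num) (by norm_num) _)
    filter_upwards [e1, e2, e3, e4] with k h1 h2 h3 h4
    rintro p (rfl | rfl | rfl | rfl)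
    · exact h1
    · exact h2
    · exact h3
    · exact h4
  have hlarge : ∀ᶠ k in (hyperfilter ℕ : Filter ℕ), N + 2 ≤ k :=
    (eventually_ge_atTop (N + 2)).filter_mono hhyp
  obtain ⟨k, hkN, ha, hb, hc⟩ := (hlarge.and ((hevi (-1)).and ((hevi 0).and (hevi 1)))).exists
  have hk2 : (2 : ℝ) ≤ k := by
    have : 2 ≤ k := by omega
    exact_mod_cast this
  have h3h := three_holes hlam (g := gk k) ((hgkI k).restrict (by
    rintro p ⟨h1, h2, h3, h4⟩
    exact ⟨h1, by linarith, by linarith, h4⟩)) z w (by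
    intro i hi p hp
    rcases hi with rfl | rfl | rfl
    · exact ha p hp
    · exact hb p hp
    · exact hc p hp)
  refine ⟨k, by omega, ?_, ?_⟩
  · have h4 := h3h (1 / 3, 1 / 3) (Or.inl rfl)
    simp only [hgk] at h4
    rw [sub_eq_iff_eq_add] at h4
    rw [h4]
    have := hlamA k
    ext
    · simp only [Prod.smul_fst, Prod.fst_add, smul_eq_mul]
      push_cast
      linear_combination -this
    · simp
  · have h4 := h3h (1 / 3, 2 / 3) (Or.inr (Or.inr (Or.inl rfl)))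
    simp only [hgk] at h4
    rw [sub_eq_iff_eq_add] at h4
    rw [h4]
    have := hlamA k
    ext
    · simp only [Prod.smul_fst, Prod.fst_add, smul_eq_mul]
      push_cast
      linear_combination -this
    · simp

theorem lemmaG {L lam : ℝ} {m : ℕ} (hm : 1 ≤ m) (hlam : lam = (1 / 3) ^ m) {g : ℝ × ℝ → ℝ × ℝ}
    (hg : Good L lam Rw g) {z w : ℤ}
    (hbot : ∀ x : ℝ, g (x, 0) = lam • (((x, 0) : ℝ × ℝ) + ((z : ℝ), (w : ℝ))))
    (habove : ∀ p ∈ Rw, lam * w ≤ (g p).2) :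
    ∀ x : ℝ, g (x, 1 / 3) = lam • (((x, 1 / 3) : ℝ × ℝ) + ((z : ℝ), (w : ℝ))) ∧
      g (x, 2 / 3) = lam • (((x, 2 / 3) : ℝ × ℝ) + ((z : ℝ), (w : ℝ))) := by
  intro x
  obtain ⟨N, hN⟩ := exists_nat_gt (|x| + 1)
  obtain ⟨k₁, hk₁, ha₁, hb₁⟩ := hG_tail_lemG hm hlam hg hbot habove (-1) (Or.inr rfl) N
  obtain ⟨k₂, hk₂, ha₂, hb₂⟩ := hG_tail_lemG hm hlam hg hbot habove 1 (Or.inl rfl) N
  have h3 : (1 : ℝ) ≤ 3 ^ m := one_le_pow₀ (by norm_num)
  have hk₁' : |x| + 1 < k₁ := lt_of_lt_of_le hN (by exact_mod_cast hk₁)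
  have hk₂' : |x| + 1 < k₂ := lt_of_lt_of_le hN (by exact_mod_cast hk₂)
  have h4 : (k₁ : ℝ) ≤ 3 ^ m * k₁ := le_mul_of_one_le_left (Nat.cast_nonneg _) h3
  have h5 : (k₂ : ℝ) ≤ 3 ^ m * k₂ := le_mul_of_one_le_left (Nat.cast_nonneg _) h3
  have hx1 := neg_abs_le x
  have hx2 := le_abs_self x
  have hlo : ((-1 : ℤ) : ℝ) * 3 ^ m * k₁ + 1 / 3 ≤ x := by
    push_cast
    linarith
  have hhi : x ≤ ((1 : ℤ) : ℝ) * 3 ^ m * k₂ + 1 / 3 := by
    push_cast
    linarith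
  rw [smul_add] at ha₁ hb₁ ha₂ hb₂ ⊢
  rw [smul_add]
  constructor
  · exact sq_h hg (fun t _ _ => ⟨X_of_K2 t K_third, by norm_num, by norm_num⟩) ha₁ ha₂ x hlo hhi
  · exact sq_h hg (fun t _ _ => ⟨X_of_K2 t K_two_third, by norm_num, by norm_num⟩) hb₁ hb₂ x hlo hhi

end

end Pool.Agent.Helper746.Car
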