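import Mathlib
import Pool.Agent.Helper746.CarDefs
import Pool.Agent.Helper746.CarBasA
import Pool.Agent.Helper746.CarBasB
import Pool.Agent.Helper746.CarSq
import Pool.Agent.Helper746.CarTrans
import Pool.Agent.Helper746.CarUltra
import Pool.Agent.Helper746.CarTh
import Pool.Agent.Helper746.CarLemG

set_option autoImplicit false

namespace Pool.Agent.Helper746.Car

open Filter Topology

noncomputable section

theorem lr_fin_const_longrow (m : ℕ) (f : ℕ → ℤ) (h0 : ∀ k, 0 ≤ f k) (h1 : ∀ k, f k < 3 ^ m) :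
    ∃ z : ℤ, ∀ᶠ k in (hyperfilter ℕ : Filter ℕ), f k = z := by
  classical
  have hfin : (Set.Ico (0 : ℤ) (3 ^ m)).Finite := Set.finite_Ico _ _
  have hU : (⋃ z ∈ Set.Ico (0 : ℤ) (3 ^ m), {k : ℕ | f k = z}) ∈ (hyperfilter ℕ) := by
    have : (⋃ z ∈ Set.Ico (0 : ℤ) (3 ^ m), {k : ℕ | f k = z}) = Set.univ := by
      apply Set.eq_univ_of_forall
      intro k
      refine Set.mem_biUnion (x := f k) ⟨h0 k, h1 k⟩ ?_
      exact rfl
    rw [this]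
    exact univ_mem
  obtain ⟨z, -, hz⟩ := (Ultrafilter.finite_biUnion_mem_iff hfin).1 hU
  exact ⟨z, hz⟩

theorem lr_ge_longrow (r : ℝ) : ∀ᶠ k : ℕ in (hyperfilter ℕ : Filter ℕ), r ≤ (k : ℝ) := by
  have h : ∀ᶠ k : ℕ in atTop, r ≤ (k : ℝ) :=
    (tendsto_natCast_atTop_atTop (R := ℝ)).eventually (eventually_ge_atTop r)
  have h2 : (hyperfilter ℕ : Filter ℕ) ≤ atTop := by
    rw [← Nat.cofinite_eq_atTop]
    exact hyperfilter_le_cofinite
  exact h2 h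

theorem lr_norm_longrow {lam : ℝ} {m : ℕ} (hlam : lam = (1 / 3) ^ m) (f : ℤ) (h0 : 0 ≤ f)
    (h1 : f < 3 ^ m) (n : ℤ) (e : n = f) : |lam * (n : ℝ)| ≤ 1 := by
  subst e
  have hl : 0 < lam := by rw [hlam]; positivity
  have h0' : (0 : ℝ) ≤ (n : ℝ) := by exact_mod_cast h0
  have h1' : (n : ℝ) ≤ 3 ^ m := by exact_mod_cast h1.le
  have h3 : lam * 3 ^ m = 1 := by
    rw [hlam, ← mul_pow]; norm_num
  rw [abs_of_nonneg (by positivity)]
  calc lam * (n : ℝ) ≤ lam * 3 ^ m := by gcongr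
    _ = 1 := h3

theorem long_row (L lam : ℝ) {m : ℕ} (hm : 1 ≤ m) (hlam : lam = (1 / 3) ^ m) :
    ∃ N : ℕ, 2 ≤ N ∧ ∀ g : ℝ × ℝ → ℝ × ℝ, Good L lam (RwI (-(N : ℝ)) N) g → ∀ z w : ℤ,
      (∀ x : ℝ, -(N : ℝ) ≤ x → x ≤ N → g (x, 0) = lam • (((x, 0) : ℝ × ℝ) + ((z : ℝ), (w : ℝ)))) →
      (∀ p ∈ RwI (-(N : ℝ)) N, lam * w ≤ (g p).2) →
      ∀ p : ℝ × ℝ, (p = (1 / 3, 1 / 3) ∨ p = (2 / 3, 1 / 3) ∨ p = (1 / 3, 2 / 3) ∨ p = (2 / 3, 2 / 3)) →
        g p = lam • (p + ((z : ℝ), (w : ℝ))) := by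
  by_contra hcon
  have hl : 0 < lam := by rw [hlam]; positivity
  have h3 : lam * 3 ^ m = 1 := by
    rw [hlam, ← mul_pow]; norm_num
  have hbad : ∀ k : ℕ, ∃ (g : ℝ × ℝ → ℝ × ℝ) (z w : ℤ) (p : ℝ × ℝ),
      Good L lam (RwI (-((k + 2 : ℕ) : ℝ)) ((k + 2 : ℕ) : ℝ)) g ∧
      (∀ x : ℝ, -((k + 2 : ℕ) : ℝ) ≤ x → x ≤ ((k + 2 : ℕ) : ℝ) →
        g (x, 0) = lam • (((x, 0) : ℝ × ℝ) + ((z : ℝ), (w : ℝ)))) ∧
      (∀ p ∈ RwI (-((k + 2 : ℕ) : ℝ)) ((k + 2 : ℕ) : ℝ), lam * w ≤ (g p).2) ∧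
      (p = (1 / 3, 1 / 3) ∨ p = (2 / 3, 1 / 3) ∨ p = (1 / 3, 2 / 3) ∨ p = (2 / 3, 2 / 3)) ∧
        g p ≠ lam • (p + ((z : ℝ), (w : ℝ))) := by
    intro k
    by_contra hk
    apply hcon
    refine ⟨k + 2, by omega, ?_⟩
    intro g hg z w h1 h2 p hp
    by_contra hne
    exact hk ⟨g, z, w, p, hg, h1, h2, hp, hne⟩
  choose g z w p hg hbot habv hp hne using hbad
  let g' : ℕ → ℝ × ℝ → ℝ × ℝ := fun k q => g k q - (((z k / 3 ^ m : ℤ) : ℝ), ((w k / 3 ^ m : ℤ) : ℝ))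
  have hg'def : ∀ k q, g' k q = g k q - (((z k / 3 ^ m : ℤ) : ℝ), ((w k / 3 ^ m : ℤ) : ℝ)) :=
    fun k q => rfl
  have hzdec : ∀ n : ℤ, lam * (n : ℝ) - ((n / 3 ^ m : ℤ) : ℝ) = lam * ((n % 3 ^ m : ℤ) : ℝ) := by
    intro n
    have h := Int.mul_ediv_add_emod n (3 ^ m)
    have h' : (3 : ℝ) ^ m * ((n / 3 ^ m : ℤ) : ℝ) + ((n % 3 ^ m : ℤ) : ℝ) = (n : ℝ) := by
      exact_mod_cast h
    rw [← h']
    have : lam * ((3 : ℝ) ^ m * ((n / 3 ^ m : ℤ) : ℝ)) = ((n / 3 ^ m : ℤ) : ℝ) := by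
      rw [← mul_assoc, h3, one_mul]
    rw [mul_add, this]
    ring
  have hgood' : ∀ k, Good L lam (RwI (-((k + 2 : ℕ) : ℝ)) ((k + 2 : ℕ) : ℝ)) (g' k) := by
    intro k
    refine Good.scale (hg k) 0 0 0 (z k / 3 ^ m) (w k / 3 ^ m) ?_ ?_
    · intro q hq
      simpa using hq
    · intro q hq
      rw [hg'def]
      simp
  have hbot' : ∀ k, ∀ x : ℝ, -((k + 2 : ℕ) : ℝ) ≤ x → x ≤ ((k + 2 : ℕ) : ℝ) →
      g' k (x, 0) = lam • (((x, 0) : ℝ × ℝ) +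
        (((z k % 3 ^ m : ℤ) : ℝ), ((w k % 3 ^ m : ℤ) : ℝ))) := by
    intro k x hx1 hx2
    rw [hg'def, hbot k x hx1 hx2]
    have e1 := hzdec (z k)
    have e2 := hzdec (w k)
    ext
    · simp only [Prod.fst_sub, Prod.smul_fst, Prod.fst_add, smul_eq_mul]
      linarith
    · simp only [Prod.snd_sub, Prod.smul_snd, Prod.snd_add, smul_eq_mul]
      linarith
  have habv' : ∀ k, ∀ q ∈ RwI (-((k + 2 : ℕ) : ℝ)) ((k + 2 : ℕ) : ℝ),
      lam * ((w k % 3 ^ m : ℤ) : ℝ) ≤ (g' k q).2 := by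
    intro k q hq
    have e := habv k q hq
    have e2 := hzdec (w k)
    rw [hg'def]
    simp only [Prod.snd_sub]
    linarith
  have h3pos : (0 : ℤ) < 3 ^ m := by positivity
  have hz0 : ∀ n : ℤ, 0 ≤ n % 3 ^ m := fun n => Int.emod_nonneg _ h3pos.ne'
  have hz1 : ∀ n : ℤ, n % 3 ^ m < 3 ^ m := fun n => Int.emod_lt_of_pos _ h3pos
  obtain ⟨Z, hZ⟩ := lr_fin_const_longrow m (fun k => z k % 3 ^ m) (fun k => hz0 _) (fun k => hz1 _)
  obtain ⟨W, hW⟩ := lr_fin_const_longrow m (fun k => w k % 3 ^ m) (fun k => hz0 _) (fun k => hz1 _)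
  have hsub : ∀ k : ℕ, RwI (-(k : ℝ)) (k : ℝ) ⊆ RwI (-((k + 2 : ℕ) : ℝ)) ((k + 2 : ℕ) : ℝ) := by
    intro k q hq
    obtain ⟨hX, ha, hb, hc, hd⟩ := hq
    refine ⟨hX, ?_, ?_, hc, hd⟩
    · push_cast; linarith
    · push_cast; linarith
  obtain ⟨G, hG, hT⟩ := ultra (L := L) (lam := lam) g' (fun k => (hgood' k).restrict (hsub k))
    (C := 1) (by
      intro k
      have hk0 : (0 : ℝ) ≤ (k : ℝ) := Nat.cast_nonneg k
      rw [hbot' k 0 (by push_cast; linarith) (by push_cast; linarith)]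
      rw [Prod.norm_def]
      apply max_le
      · have := lr_norm_longrow hlam (z k % 3 ^ m) (hz0 _) (hz1 _) _ rfl
        simpa [Real.norm_eq_abs] using this
      · have := lr_norm_longrow hlam (w k % 3 ^ m) (hz0 _) (hz1 _) _ rfl
        simpa [Real.norm_eq_abs] using this)
  have hin : ∀ q ∈ Rw, ∀ᶠ k in (hyperfilter ℕ : Filter ℕ),
      q ∈ RwI (-((k + 2 : ℕ) : ℝ)) ((k + 2 : ℕ) : ℝ) := by
    intro q hq
    obtain ⟨hX, hc, hd⟩ := hq
    filter_upwards [lr_ge_longrow |q.1|] with k hk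
    have h1 := neg_abs_le q.1
    have h2 := le_abs_self q.1
    refine ⟨hX, ?_, ?_, hc, hd⟩
    · push_cast; linarith
    · push_cast; linarith
  have hGbot : ∀ x : ℝ, G (x, 0) = lam • (((x, 0) : ℝ × ℝ) + ((Z : ℝ), (W : ℝ))) := by
    intro x
    have hx : ((x, 0) : ℝ × ℝ) ∈ Rw := ⟨X_of_K2 x K_zero, le_rfl, zero_le_one⟩
    refine tendsto_nhds_unique (hT _ hx) ?_
    refine Tendsto.congr' ?_ tendsto_const_nhds
    filter_upwards [hin _ hx, hZ, hW] with k hk hk1 hk2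
    rw [hbot' k x hk.2.1 hk.2.2.1, hk1, hk2]
  have hGabv : ∀ q ∈ Rw, lam * (W : ℝ) ≤ (G q).2 := by
    intro q hq
    have ht : Tendsto (fun k => (g' k q).2) (hyperfilter ℕ : Filter ℕ) (𝓝 (G q).2) :=
      (continuous_snd.tendsto _).comp (hT q hq)
    refine ge_of_tendsto ht ?_
    filter_upwards [hin q hq, hW] with k hk hk2
    have := habv' k q hk
    rw [hk2] at this
    exact this
  have hlines := lemmaG hm hlam hG hGbot hGabv
  have hmid : ∀ i : ℤ, ∀ q : ℝ × ℝ,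
      (q = ((i : ℝ) + 1 / 3, 1 / 2) ∨ q = ((i : ℝ) + 2 / 3, 1 / 2) ∨ q = ((i : ℝ) + 1 / 2, 1 / 3) ∨
        q = ((i : ℝ) + 1 / 2, 2 / 3)) →
      q ∈ Rw ∧ G q = lam • (q + ((Z : ℝ), (W : ℝ))) := by
    intro i q hq
    have hvert : ∀ c : ℝ, c ∈ K → (((c, 1 / 2) : ℝ × ℝ) ∈ Rw ∧
        G (c, 1 / 2) = lam • (((c, 1 / 2) : ℝ × ℝ) + ((Z : ℝ), (W : ℝ)))) := by
      intro c hc
      refine ⟨⟨X_of_K1 _ hc, by norm_num, by norm_num⟩, ?_⟩
      have := sq_v hG (y := 1 / 3) (y' := 2 / 3) (x := c)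
        (fun t ht1 ht2 => ⟨X_of_K1 _ hc, by dsimp only; linarith, by dsimp only; linarith⟩)
        (b := lam • ((Z : ℝ), (W : ℝ)))
        (by rw [(hlines c).1, smul_add]) (by rw [(hlines c).2, smul_add])
        (1 / 2) (by norm_num) (by norm_num)
      rw [this, smul_add]
    rcases hq with rfl | rfl | rfl | rfl
    · exact hvert _ (by rw [add_comm]; exact K_add_int K_third i)
    · exact hvert _ (by rw [add_comm]; exact K_add_int K_two_third i)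
    · exact ⟨⟨X_of_K2 _ K_third, by norm_num, by norm_num⟩, (hlines _).1⟩
    · exact ⟨⟨X_of_K2 _ K_two_third, by norm_num, by norm_num⟩, (hlines _).2⟩
  have hclose1 : ∀ q : ℝ × ℝ, q ∈ Rw → G q = lam • (q + ((Z : ℝ), (W : ℝ))) →
      ∀ᶠ k in (hyperfilter ℕ : Filter ℕ), dist (g' k q) (lam • (q + ((Z : ℝ), (W : ℝ)))) < lam / 12 := by
    intro q hq hGq
    have := hT q hq
    rw [Metric.tendsto_nhds] at this
    have h12 : 0 < lam / 12 := by positivity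
    have h := this _ h12
    rw [hGq] at h
    exact h
  have hclose2 : ∀ i : ℤ, ∀ᶠ k in (hyperfilter ℕ : Filter ℕ), ∀ q : ℝ × ℝ,
      (q = ((i : ℝ) + 1 / 3, 1 / 2) ∨ q = ((i : ℝ) + 2 / 3, 1 / 2) ∨ q = ((i : ℝ) + 1 / 2, 1 / 3) ∨
        q = ((i : ℝ) + 1 / 2, 2 / 3)) → dist (g' k q) (lam • (q + ((Z : ℝ), (W : ℝ)))) < lam / 12 := by
    intro i
    have a1 := hmid i ((i : ℝ) + 1 / 3, 1 / 2) (Or.inl rfl)
    have a2 := hmid i ((i : ℝ) + 2 / 3, 1 / 2) (Or.inr (Or.inl rfl))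
    have a3 := hmid i ((i : ℝ) + 1 / 2, 1 / 3) (Or.inr (Or.inr (Or.inl rfl)))
    have a4 := hmid i ((i : ℝ) + 1 / 2, 2 / 3) (Or.inr (Or.inr (Or.inr rfl)))
    filter_upwards [hclose1 _ a1.1 a1.2, hclose1 _ a2.1 a2.2, hclose1 _ a3.1 a3.2,
      hclose1 _ a4.1 a4.2] with k b1 b2 b3 b4
    rintro q (rfl | rfl | rfl | rfl)
    · exact b1
    · exact b2
    · exact b3
    · exact b4
  have hex : ∀ᶠ k in (hyperfilter ℕ : Filter ℕ), False := by
    filter_upwards [hclose2 (-1), hclose2 0, hclose2 1, hZ, hW] with k c1 c2 c3 c4 c5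
    have hres : Good L lam (RwI (-1) 2) (g' k) := by
      refine (hgood' k).restrict ?_
      intro q hq
      obtain ⟨hX, ha, hb, hc, hd⟩ := hq
      have hk0 : (0 : ℝ) ≤ (k : ℝ) := Nat.cast_nonneg k
      refine ⟨hX, ?_, ?_, hc, hd⟩
      · push_cast; linarith
      · push_cast; linarith
    have h6 := three_holes hlam hres Z W (by
      intro i hi
      rcases hi with rfl | rfl | rfl
      · exact c1
      · exact c2
      · exact c3)
    have hk : g' k (p k) = lam • (p k + ((Z : ℝ), (W : ℝ))) := by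
      apply h6
      rcases hp k with h | h | h | h
      · exact Or.inl h
      · exact Or.inr (Or.inl h)
      · exact Or.inr (Or.inr (Or.inl h))
      · exact Or.inr (Or.inr (Or.inr (Or.inl h)))
    apply hne k
    have e1 := hzdec (z k)
    have e2 := hzdec (w k)
    rw [c4] at e1
    rw [c5] at e2
    rw [hg'def] at hk
    have hk1 := congrArg Prod.fst hk
    have hk2 := congrArg Prod.snd hk
    simp only [Prod.fst_sub, Prod.smul_fst, Prod.fst_add, smul_eq_mul] at hk1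
    simp only [Prod.snd_sub, Prod.smul_snd, Prod.snd_add, smul_eq_mul] at hk2
    ext
    · simp only [Prod.smul_fst, Prod.fst_add, smul_eq_mul]
      linarith
    · simp only [Prod.smul_snd, Prod.snd_add, smul_eq_mul]
      linarith
  exact hex.exists.elim (fun _ h => h)

end

end Pool.Agent.Helper746.Car
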