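import Mathlib
import Pool.Agent.Helper746.CarDefs
import Pool.Agent.Helper746.CarBasA
import Pool.Agent.Helper746.CarBasB
import Pool.Agent.Helper746.CarBasR
import Pool.Agent.Helper746.CarSq
import Pool.Agent.Helper746.CarTrans
import Pool.Agent.Helper746.CarSqex
import Pool.Agent.Helper746.CarLongrow
import Pool.Agent.Helper746.CarCornerC

set_option autoImplicit false

namespace Pool.Agent.Helper746.Car

open Filter Topology

noncomputable section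

theorem aux_smul_pair_rowfill (c a b : ℝ) : c • ((a, b) : ℝ × ℝ) = (c * a, c * b) := rfl

theorem aux_pow_pos_rowfill (n : ℕ) : (0 : ℝ) < 3 ^ n := by positivity

theorem aux_window_mem_rowfill {n : ℕ} {i1 i2 j i0 : ℤ} {N : ℕ}
    (h1 : 0 ≤ i1) (h2 : i2 ≤ 3 ^ n) (h3 : 0 ≤ j) (h4 : j < 3 ^ n)
    (hl : i1 + N ≤ i0) (hr : i0 + N < i2)
    (hpres : ∀ i : ℤ, i1 ≤ i → i < i2 → ∀ q ∈ Sq, cp n i j q ∈ X)
    {q : ℝ × ℝ} (hq : q ∈ RwI (-(N : ℝ)) N) : cp n i0 j q ∈ Dm := by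
  obtain ⟨hqX, hq1, hq2, hq3, hq4⟩ := hq
  have h3n := aux_pow_pos_rowfill n
  have hlR : (i1 : ℝ) + N ≤ i0 := by exact_mod_cast hl
  have hrR : (i0 : ℝ) + N < i2 := by exact_mod_cast hr
  have h1R : (0 : ℝ) ≤ i1 := by exact_mod_cast h1
  have h2R : (i2 : ℝ) ≤ 3 ^ n := by exact_mod_cast h2
  have h3R : (0 : ℝ) ≤ j := by exact_mod_cast h3
  have h4R : (j : ℝ) + 1 ≤ 3 ^ n := by exact_mod_cast h4
  have hf1 : ((⌊q.1⌋ : ℤ) : ℝ) ≤ q.1 := Int.floor_le _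
  have hf2 : q.1 < (⌊q.1⌋ : ℤ) + 1 := Int.lt_floor_add_one _
  have hfl : -(N : ℤ) ≤ ⌊q.1⌋ := by
    rw [Int.le_floor]; push_cast; exact hq1
  have hfr : ⌊q.1⌋ ≤ (N : ℤ) := by
    have : ((⌊q.1⌋ : ℤ) : ℝ) ≤ N := hf1.trans hq2
    exact_mod_cast this
  refine ⟨?_, ?_, ?_, ?_, ?_⟩
  · have hmem : q - (((⌊q.1⌋ : ℤ) : ℝ), ((0 : ℤ) : ℝ)) ∈ Sq := by
      refine ⟨(X_sub_int q _ _).2 hqX, ?_, ?_, ?_, ?_⟩
      · show 0 ≤ q.1 - (⌊q.1⌋ : ℤ); linarith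
      · show q.1 - (⌊q.1⌋ : ℤ) ≤ 1; linarith
      · show 0 ≤ q.2 - ((0 : ℤ) : ℝ); push_cast; linarith
      · show q.2 - ((0 : ℤ) : ℝ) ≤ 1; push_cast; linarith
    have := hpres (i0 + ⌊q.1⌋) (by omega) (by omega) _ hmem
    have e : cp n (i0 + ⌊q.1⌋) j (q - (((⌊q.1⌋ : ℤ) : ℝ), ((0 : ℤ) : ℝ))) = cp n i0 j q := by
      unfold cp
      apply Prod.ext
      · show (((i0 + ⌊q.1⌋ : ℤ) : ℝ) + (q.1 - ((⌊q.1⌋ : ℤ) : ℝ))) / 3 ^ n = ((i0 : ℝ) + q.1) / 3 ^ n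
        push_cast; ring
      · show ((j : ℝ) + (q.2 - ((0 : ℤ) : ℝ))) / 3 ^ n = ((j : ℝ) + q.2) / 3 ^ n
        push_cast; ring
    rwa [e] at this
  · show 0 ≤ ((i0 : ℝ) + q.1) / 3 ^ n
    apply div_nonneg _ h3n.le; linarith
  · show ((i0 : ℝ) + q.1) / 3 ^ n ≤ 1
    rw [div_le_one h3n]; linarith
  · show -1 ≤ ((j : ℝ) + q.2) / 3 ^ n
    have : 0 ≤ ((j : ℝ) + q.2) / 3 ^ n := div_nonneg (by linarith) h3n.le
    linarith
  · show ((j : ℝ) + q.2) / 3 ^ n ≤ 1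
    rw [div_le_one h3n]; linarith

theorem aux_subcell_mem_rowfill {n : ℕ} {i1 i2 j : ℤ}
    (h1 : 0 ≤ i1) (h2 : i2 ≤ 3 ^ n) (h3 : 0 ≤ j) (h4 : j < 3 ^ n)
    (hpres : ∀ i : ℤ, i1 ≤ i → i < i2 → ∀ q ∈ Sq, cp n i j q ∈ X)
    {i' : ℤ} (hi1 : 3 * i1 ≤ i') (hi2 : i' < 3 * i2) {q : ℝ × ℝ} (hq : q ∈ Sq) :
    cp (n + 1) i' (3 * j) q ∈ Dm := by
  have h3n := aux_pow_pos_rowfill n
  have h3n1 := aux_pow_pos_rowfill (n + 1)
  have h1R : (0 : ℝ) ≤ i1 := by exact_mod_cast h1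
  have h2R : (i2 : ℝ) ≤ 3 ^ n := by exact_mod_cast h2
  have h3R : (0 : ℝ) ≤ j := by exact_mod_cast h3
  have h4R : (j : ℝ) + 1 ≤ 3 ^ n := by exact_mod_cast h4
  have hi1R : 3 * (i1 : ℝ) ≤ i' := by exact_mod_cast hi1
  have hi2R : (i' : ℝ) + 1 ≤ 3 * i2 := by exact_mod_cast hi2
  have hpow : (3 : ℝ) ^ (n + 1) = 3 * 3 ^ n := by ring
  obtain ⟨hqX, hq1, hq2, hq3, hq4⟩ := hq
  refine ⟨?_, ?_, ?_, ?_, ?_⟩
  · have hsub := Sq_sub (a := i' % 3) (b := 0) (q := q) ⟨hqX, hq1, hq2, hq3, hq4⟩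
      ⟨by omega, by omega⟩ ⟨le_refl _, by norm_num⟩ (by omega)
    have := hpres (i' / 3) (by omega) (by omega) _ hsub
    rw [cp_cp] at this
    have e1 : (3 : ℤ) ^ 1 * (i' / 3) + i' % 3 = i' := by omega
    have e2 : (3 : ℤ) ^ 1 * j + 0 = 3 * j := by ring
    rwa [e1, e2] at this
  · show 0 ≤ ((i' : ℝ) + q.1) / 3 ^ (n + 1)
    apply div_nonneg _ h3n1.le; linarith
  · show ((i' : ℝ) + q.1) / 3 ^ (n + 1) ≤ 1
    rw [div_le_one h3n1, hpow]; linarith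
  · show -1 ≤ (((3 * j : ℤ) : ℝ) + q.2) / 3 ^ (n + 1)
    have : 0 ≤ (((3 * j : ℤ) : ℝ) + q.2) / 3 ^ (n + 1) := div_nonneg (by push_cast; linarith) h3n1.le
    linarith
  · show (((3 * j : ℤ) : ℝ) + q.2) / 3 ^ (n + 1) ≤ 1
    rw [div_le_one h3n1, hpow]; push_cast; linarith

theorem row_fill (L lam : ℝ) {m : ℕ} (hm : 1 ≤ m) (hlam : lam = (1 / 3) ^ m) :
    ∃ N' : ℕ, ∀ g : ℝ × ℝ → ℝ × ℝ, Good L lam Dm g → ∀ z w : ℤ, ∀ (n : ℕ) (i1 i2 j : ℤ),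
      0 ≤ i1 → i2 ≤ 3 ^ n → 0 ≤ j → j < 3 ^ n → (N' : ℤ) ≤ i2 - i1 →
      (∀ i : ℤ, i1 ≤ i → i < i2 → ∀ q ∈ Sq, cp n i j q ∈ X) →
      (∀ p ∈ Dm, 3 ^ n * p.2 < (j : ℝ) → g p = lam • (p + ((z : ℝ), (w : ℝ)))) →
      (∀ x : ℝ, (i1 : ℝ) ≤ 3 ^ n * x → 3 ^ n * x ≤ (i2 : ℝ) →
        g (x, (j : ℝ) / 3 ^ n) = lam • (((x, (j : ℝ) / 3 ^ n) : ℝ × ℝ) + ((z : ℝ), (w : ℝ)))) →
      ∀ p ∈ X, (i1 : ℝ) ≤ 3 ^ n * p.1 → 3 ^ n * p.1 ≤ (i2 : ℝ) → (j : ℝ) ≤ 3 ^ n * p.2 →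
        3 ^ (n + 1) * p.2 ≤ 3 * (j : ℝ) + 1 → g p = lam • (p + ((z : ℝ), (w : ℝ))) := by
  have hlam0 : 0 < lam := by rw [hlam]; positivity
  have hlam1 : lam ≤ 1 / 3 := by
    rw [hlam]
    calc (1 / 3 : ℝ) ^ m ≤ (1 / 3) ^ 1 := pow_le_pow_of_le_one (by norm_num) (by norm_num) hm
      _ = 1 / 3 := by norm_num
  obtain ⟨N, hN2, hrow⟩ := long_row L lam hm hlam
  obtain ⟨R, hR⟩ := exists_nat_ge (L / lam + 1)
  refine ⟨2 * N + 2 * R + 4, ?_⟩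
  intro g hg z w n i1 i2 j h1 h2 h3 h4 h5 hpres hbelow hline
  have h3n := aux_pow_pos_rowfill n
  have h3n1 := aux_pow_pos_rowfill (n + 1)
  have hpow : (3 : ℝ) ^ (n + 1) = 3 * 3 ^ n := by ring
  push_cast at h5
  obtain ⟨i0, hi0⟩ : ∃ i0 : ℤ, i0 = (i1 + i2) / 2 := ⟨_, rfl⟩
  have hl : i1 + R + N ≤ i0 := by omega
  have hr : i0 + N + R < i2 := by omega
  have h1R : (0 : ℝ) ≤ i1 := by exact_mod_cast h1
  have h2R : (i2 : ℝ) ≤ 3 ^ n := by exact_mod_cast h2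
  have h3R : (0 : ℝ) ≤ j := by exact_mod_cast h3
  have h4R : (j : ℝ) + 1 ≤ 3 ^ n := by exact_mod_cast h4
  have hlR : (i1 : ℝ) + R + N ≤ i0 := by exact_mod_cast hl
  have hrR : (i0 : ℝ) + N + R < i2 := by exact_mod_cast hr
  have hR0 : (0 : ℝ) ≤ R := Nat.cast_nonneg _
  have hN0 : (0 : ℝ) ≤ N := Nat.cast_nonneg _
  have hdom : ∀ q ∈ RwI (-(N : ℝ)) N, cp n i0 j q ∈ Dm := fun q hq =>
    aux_window_mem_rowfill h1 h2 h3 h4 (by omega) (by omega) hpres hq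
  -- the window
  have hgood' : Good L lam (RwI (-(N : ℝ)) N) (fun q => (3 : ℝ) ^ n • g (cp n i0 j q)) := by
    refine hg.scale n (i0 : ℝ) (j : ℝ) 0 0 (fun q hq => hdom q hq) (fun q hq => ?_)
    simp only [Int.cast_zero]
    show (3 : ℝ) ^ n • g (cp n i0 j q) = (3 : ℝ) ^ n • g (cp n i0 j q) - ((0 : ℝ), (0 : ℝ))
    have : ((0 : ℝ), (0 : ℝ)) = (0 : ℝ × ℝ) := rfl
    rw [this, sub_zero]
  have hline' : ∀ x : ℝ, -(N : ℝ) ≤ x → x ≤ N →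
      (fun q => (3 : ℝ) ^ n • g (cp n i0 j q)) (x, 0) =
        lam • (((x, 0) : ℝ × ℝ) + (((i0 + 3 ^ n * z : ℤ) : ℝ), ((j + 3 ^ n * w : ℤ) : ℝ))) := by
    intro x hx1 hx2
    have e : cp n i0 j (x, 0) = (((i0 : ℝ) + x) / 3 ^ n, (j : ℝ) / 3 ^ n) := by
      unfold cp; simp
    show (3 : ℝ) ^ n • g (cp n i0 j (x, 0)) = _
    have hx : (3 : ℝ) ^ n * (((i0 : ℝ) + x) / 3 ^ n) = i0 + x := by field_simp
    rw [e, hline (((i0 : ℝ) + x) / 3 ^ n) (by rw [hx]; linarith) (by rw [hx]; linarith)]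
    apply Prod.ext
    · show (3 : ℝ) ^ n * (lam * (((i0 : ℝ) + x) / 3 ^ n + z)) = lam * (x + ((i0 + 3 ^ n * z : ℤ) : ℝ))
      push_cast; field_simp; ring
    · show (3 : ℝ) ^ n * (lam * ((j : ℝ) / 3 ^ n + w)) = lam * (0 + ((j + 3 ^ n * w : ℤ) : ℝ))
      push_cast; field_simp; ring
  have hside : ∀ p ∈ RwI (-(N : ℝ)) N, lam * ((j + 3 ^ n * w : ℤ) : ℝ) ≤
      ((fun q => (3 : ℝ) ^ n • g (cp n i0 j q)) p).2 := by
    intro q hq
    by_contra hcon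
    push Not at hcon
    have hP := hdom q hq
    obtain ⟨hqX, hq1, hq2, hq3, hq4⟩ := hq
    set P := cp n i0 j q with hPdef
    have hcon' : (3 : ℝ) ^ n * (g P).2 < lam * ((j + 3 ^ n * w : ℤ) : ℝ) := hcon
    push_cast at hcon'
    set u : ℝ × ℝ := (1 / lam * (g P).1 - z, 1 / lam * (g P).2 - w) with hu
    have hgu : lam • (u + ((z : ℝ), (w : ℝ))) = g P := by
      apply Prod.ext
      · show lam * (1 / lam * (g P).1 - z + z) = (g P).1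
        field_simp; ring
      · show lam * (1 / lam * (g P).2 - w + w) = (g P).2
        field_simp; ring
    have huX : u ∈ X := by
      rw [← X_add_int u z w]
      apply X_of_lam (m := m)
      rw [← hlam, hgu]
      exact hg.mapsX P hP
    have hu2 : (3 : ℝ) ^ n * u.2 < j := by
      show (3 : ℝ) ^ n * (1 / lam * (g P).2 - w) < j
      have : (3 : ℝ) ^ n * (g P).2 / lam < (j : ℝ) + 3 ^ n * w := by
        rw [div_lt_iff₀ hlam0]; linarith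
      have e : (3 : ℝ) ^ n * (1 / lam * (g P).2 - w) = (3 : ℝ) ^ n * (g P).2 / lam - 3 ^ n * w := by
        field_simp
      rw [e]; linarith
    -- the point on the bottom line
    have hP1 : P.1 = ((i0 : ℝ) + q.1) / 3 ^ n := rfl
    have hP2 : P.2 = ((j : ℝ) + q.2) / 3 ^ n := rfl
    have hP1' : (3 : ℝ) ^ n * P.1 = i0 + q.1 := by rw [hP1]; field_simp
    have hP2' : (3 : ℝ) ^ n * P.2 = j + q.2 := by rw [hP2]; field_simp
    have hp0 : g (P.1, (j : ℝ) / 3 ^ n) = lam • (((P.1, (j : ℝ) / 3 ^ n) : ℝ × ℝ) + ((z : ℝ), (w : ℝ))) :=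
      hline P.1 (by rw [hP1']; linarith) (by rw [hP1']; linarith)
    have hp0D : ((P.1, (j : ℝ) / 3 ^ n) : ℝ × ℝ) ∈ Dm := by
      have := hdom (q.1, 0) ⟨?_, hq1, hq2, le_refl _, zero_le_one⟩
      · have e : cp n i0 j (q.1, 0) = (P.1, (j : ℝ) / 3 ^ n) := by
          unfold cp; simp [hP1]
        rwa [e] at this
      · exact X_of_K2 q.1 K_zero
    have hdist : dist P (P.1, (j : ℝ) / 3 ^ n) ≤ 1 / 3 ^ n := by
      rw [Prod.dist_eq]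
      apply max_le
      · show dist P.1 P.1 ≤ _
        rw [dist_self]; positivity
      · show dist P.2 ((j : ℝ) / 3 ^ n) ≤ _
        rw [Real.dist_eq, hP2, show ((j : ℝ) + q.2) / 3 ^ n - (j : ℝ) / 3 ^ n = q.2 / 3 ^ n by ring,
          abs_of_nonneg (div_nonneg hq3 h3n.le)]
        gcongr
    have hL : 0 ≤ L ∨ L < 0 := le_or_gt 0 L
    have hupper := hg.upper P hP _ hp0D
    have hdg : dist (g P) (g (P.1, (j : ℝ) / 3 ^ n)) = lam * dist u (P.1, (j : ℝ) / 3 ^ n) := by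
      rw [← hgu, hp0, dist_smul₀, dist_add_right, Real.norm_eq_abs, abs_of_pos hlam0]
    have hLd : L * dist P (P.1, (j : ℝ) / 3 ^ n) ≤ lam * (R / 3 ^ n) := by
      have hRL : L ≤ lam * R := by
        have : L / lam ≤ R := by linarith
        rw [div_le_iff₀ hlam0] at this
        linarith
      rcases hL with hL | hL
      · calc L * dist P (P.1, (j : ℝ) / 3 ^ n) ≤ L * (1 / 3 ^ n) := mul_le_mul_of_nonneg_left hdist hL
          _ ≤ (lam * R) * (1 / 3 ^ n) := mul_le_mul_of_nonneg_right hRL (by positivity)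
          _ = lam * (R / 3 ^ n) := by ring
      · calc L * dist P (P.1, (j : ℝ) / 3 ^ n) ≤ 0 := mul_nonpos_of_nonpos_of_nonneg hL.le dist_nonneg
          _ ≤ lam * (R / 3 ^ n) := by positivity
    have hud : dist u (P.1, (j : ℝ) / 3 ^ n) ≤ R / 3 ^ n := by
      have := (hdg ▸ hupper).trans hLd
      exact le_of_mul_le_mul_left this hlam0
    have hu1d : |u.1 - P.1| ≤ R / 3 ^ n := by
      have : dist u.1 P.1 ≤ dist u (P.1, (j : ℝ) / 3 ^ n) := by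
        rw [Prod.dist_eq]; exact le_max_left _ _
      rw [← Real.dist_eq]; exact this.trans hud
    have hu2d : |u.2 - (j : ℝ) / 3 ^ n| ≤ R / 3 ^ n := by
      have : dist u.2 ((j : ℝ) / 3 ^ n) ≤ dist u (P.1, (j : ℝ) / 3 ^ n) := by
        rw [Prod.dist_eq]; exact le_max_right _ _
      rw [← Real.dist_eq]; exact this.trans hud
    rw [abs_le] at hu1d hu2d
    have hRn : (3 : ℝ) ^ n * (R / 3 ^ n) = R := by field_simp
    have hjn : (3 : ℝ) ^ n * ((j : ℝ) / 3 ^ n) = j := by field_simp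
    have a1 : (3 : ℝ) ^ n * u.1 ≥ (3 : ℝ) ^ n * P.1 - R := by
      have := mul_le_mul_of_nonneg_left hu1d.1 h3n.le
      rw [mul_neg, hRn, mul_sub] at this
      linarith
    have a2 : (3 : ℝ) ^ n * u.1 ≤ (3 : ℝ) ^ n * P.1 + R := by
      have := mul_le_mul_of_nonneg_left hu1d.2 h3n.le
      rw [hRn, mul_sub] at this
      linarith
    have a3 : (3 : ℝ) ^ n * u.2 ≥ j - R := by
      have := mul_le_mul_of_nonneg_left hu2d.1 h3n.le
      rw [mul_neg, hRn, mul_sub, hjn] at this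
      linarith
    rw [hP1'] at a1 a2
    have huD : u ∈ Dm := by
      refine ⟨huX, ?_, ?_, ?_, ?_⟩
      · by_contra hh; push Not at hh
        have := mul_neg_of_pos_of_neg h3n hh
        linarith
      · by_contra hh; push Not at hh
        have := mul_lt_mul_of_pos_left hh h3n
        linarith
      · by_contra hh; push Not at hh
        have := mul_lt_mul_of_pos_left hh h3n
        linarith
      · by_contra hh; push Not at hh
        have := mul_lt_mul_of_pos_left hh h3n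
        linarith
    have hgu2 : g u = g P := by
      rw [hbelow u huD hu2, hgu]
    have huP := hg.inj huD hP hgu2
    rw [huP, hP2'] at hu2
    linarith
  have hcorn := hrow _ hgood' (i0 + 3 ^ n * z) (j + 3 ^ n * w) hline' hside
  obtain ⟨b0, hb0⟩ : ∃ b0 : ℝ × ℝ, b0 = lam • (((z : ℝ), (w : ℝ)) : ℝ × ℝ) := ⟨_, rfl⟩
  have hconv : ∀ p : ℝ × ℝ, lam • (p + ((z : ℝ), (w : ℝ))) = lam • p + b0 := by
    intro p; rw [hb0, smul_add]
  have hcorn' : ∀ p : ℝ × ℝ, (p = (1 / 3, 1 / 3) ∨ p = (2 / 3, 1 / 3)) →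
      g (cp n i0 j p) = lam • cp n i0 j p + b0 := by
    intro p hp
    have hh := hcorn p (by rcases hp with h | h; exacts [Or.inl h, Or.inr (Or.inl h)])
    have hh' : (3 : ℝ) ^ n • g (cp n i0 j p) =
      lam • (p + (((i0 + 3 ^ n * z : ℤ) : ℝ), ((j + 3 ^ n * w : ℤ) : ℝ))) := hh
    rw [← hconv]
    have hx := congrArg Prod.fst hh'
    have hy := congrArg Prod.snd hh'
    have hx' : (3 : ℝ) ^ n * (g (cp n i0 j p)).1 = lam * (p.1 + ((i0 + 3 ^ n * z : ℤ) : ℝ)) := hx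
    have hy' : (3 : ℝ) ^ n * (g (cp n i0 j p)).2 = lam * (p.2 + ((j + 3 ^ n * w : ℤ) : ℝ)) := hy
    push_cast at hx' hy'
    apply Prod.ext
    · show (g (cp n i0 j p)).1 = lam * (((i0 : ℝ) + p.1) / 3 ^ n + z)
      apply mul_left_cancel₀ h3n.ne'
      rw [hx']; field_simp; ring
    · show (g (cp n i0 j p)).2 = lam * (((j : ℝ) + p.2) / 3 ^ n + w)
      apply mul_left_cancel₀ h3n.ne'
      rw [hy']; field_simp; ring
  have hlineb : ∀ x : ℝ, (i1 : ℝ) ≤ 3 ^ n * x → 3 ^ n * x ≤ (i2 : ℝ) →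
      g (x, (j : ℝ) / 3 ^ n) = lam • ((x, (j : ℝ) / 3 ^ n) : ℝ × ℝ) + b0 := by
    intro x hx1 hx2
    rw [hline x hx1 hx2, hconv]
  have hDsub : ∀ i' : ℤ, 3 * i1 ≤ i' → i' < 3 * i2 → ∀ q ∈ Sq, cp (n + 1) i' (3 * j) q ∈ Dm :=
    fun i' ha hb q hq => aux_subcell_mem_rowfill h1 h2 h3 h4 hpres ha hb hq
  have hbotcell : ∀ i' : ℤ, 3 * i1 ≤ i' → i' < 3 * i2 → ∀ s : ℝ, 0 ≤ s → s ≤ 1 →
      g (cp (n + 1) i' (3 * j) (s, 0)) = lam • cp (n + 1) i' (3 * j) (s, 0) + b0 := by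
    intro i' ha hb s hs0 hs1
    have haR : 3 * (i1 : ℝ) ≤ i' := by exact_mod_cast ha
    have hbR : (i' : ℝ) + 1 ≤ 3 * i2 := by exact_mod_cast hb
    have e : cp (n + 1) i' (3 * j) (s, 0) = (((i' : ℝ) + s) / 3 ^ (n + 1), (j : ℝ) / 3 ^ n) := by
      unfold cp
      apply Prod.ext
      · rfl
      · show (((3 * j : ℤ) : ℝ) + 0) / 3 ^ (n + 1) = (j : ℝ) / 3 ^ n
        rw [hpow]; push_cast; field_simp; ring
    have ex : (3 : ℝ) ^ n * (((i' : ℝ) + s) / 3 ^ (n + 1)) = (i' + s) / 3 := by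
      rw [hpow]; field_simp
    rw [e]
    apply hlineb
    · rw [ex, le_div_iff₀ (by norm_num)]; linarith
    · rw [ex, div_le_iff₀ (by norm_num)]; linarith
  -- exactness of the central subcell
  have hE0 : ∀ q ∈ Sq, g (cp (n + 1) (3 * i0 + 1) (3 * j) q) = lam • cp (n + 1) (3 * i0 + 1) (3 * j) q + b0 := by
    apply cell_exact hlam0.le hg (n + 1) (3 * i0 + 1) (3 * j)
      (hDsub _ (by omega) (by omega))
    · exact hbotcell _ (by omega) (by omega) 0 le_rfl zero_le_one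
    · exact hbotcell _ (by omega) (by omega) 1 zero_le_one le_rfl
    · have e : cp (n + 1) (3 * i0 + 1) (3 * j) (0, 1) = cp n i0 j (1 / 3, 1 / 3) := by
        unfold cp
        apply Prod.ext
        · show (((3 * i0 + 1 : ℤ) : ℝ) + 0) / 3 ^ (n + 1) = ((i0 : ℝ) + 1 / 3) / 3 ^ n
          rw [hpow]; push_cast; field_simp; ring
        · show (((3 * j : ℤ) : ℝ) + 1) / 3 ^ (n + 1) = ((j : ℝ) + 1 / 3) / 3 ^ n
          rw [hpow]; push_cast; field_simp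
      rw [e]; exact hcorn' _ (Or.inl rfl)
    · have e : cp (n + 1) (3 * i0 + 1) (3 * j) (1, 1) = cp n i0 j (2 / 3, 1 / 3) := by
        unfold cp
        apply Prod.ext
        · show (((3 * i0 + 1 : ℤ) : ℝ) + 1) / 3 ^ (n + 1) = ((i0 : ℝ) + 2 / 3) / 3 ^ n
          rw [hpow]; push_cast; field_simp; ring
        · show (((3 * j : ℤ) : ℝ) + 1) / 3 ^ (n + 1) = ((j : ℝ) + 1 / 3) / 3 ^ n
          rw [hpow]; push_cast; field_simp
      rw [e]; exact hcorn' _ (Or.inr rfl)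
  have hstepR : ∀ i' : ℤ, 3 * i1 ≤ i' → i' + 1 < 3 * i2 →
      (∀ q ∈ Sq, g (cp (n + 1) i' (3 * j) q) = lam • cp (n + 1) i' (3 * j) q + b0) →
      ∀ q ∈ Sq, g (cp (n + 1) (i' + 1) (3 * j) q) = lam • cp (n + 1) (i' + 1) (3 * j) q + b0 := by
    intro i' ha hb hE
    apply corner_cell hlam0 hlam1 hg (n + 1) (i' + 1) (3 * j) (hDsub _ (by omega) hb)
      (hbotcell _ (by omega) hb)
    intro s hs0 hs1
    have e : cp (n + 1) (i' + 1) (3 * j) (0, s) = cp (n + 1) i' (3 * j) (1, s) := by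
      unfold cp
      apply Prod.ext
      · show (((i' + 1 : ℤ) : ℝ) + 0) / 3 ^ (n + 1) = ((i' : ℝ) + 1) / 3 ^ (n + 1)
        push_cast; ring
      · rfl
    rw [e]
    exact hE _ ⟨X_of_K1 s K_one, zero_le_one, le_rfl, hs0, hs1⟩
  have hstepL : ∀ i' : ℤ, 3 * i1 ≤ i' - 1 → i' < 3 * i2 →
      (∀ q ∈ Sq, g (cp (n + 1) i' (3 * j) q) = lam • cp (n + 1) i' (3 * j) q + b0) →
      ∀ q ∈ Sq, g (cp (n + 1) (i' - 1) (3 * j) q) = lam • cp (n + 1) (i' - 1) (3 * j) q + b0 := by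
    intro i' ha hb hE
    apply corner_cell' hlam0 hlam1 hg (n + 1) (i' - 1) (3 * j) (hDsub _ ha (by omega))
      (hbotcell _ ha (by omega))
    intro s hs0 hs1
    have e : cp (n + 1) (i' - 1) (3 * j) (1, s) = cp (n + 1) i' (3 * j) (0, s) := by
      unfold cp
      apply Prod.ext
      · show (((i' - 1 : ℤ) : ℝ) + 1) / 3 ^ (n + 1) = ((i' : ℝ) + 0) / 3 ^ (n + 1)
        push_cast; ring
      · rfl
    rw [e]
    exact hE _ ⟨X_of_K1 s K_zero, le_rfl, zero_le_one, hs0, hs1⟩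
  have hEr : ∀ k : ℕ, 3 * i0 + 1 + (k : ℤ) < 3 * i2 →
      ∀ q ∈ Sq, g (cp (n + 1) (3 * i0 + 1 + k) (3 * j) q) = lam • cp (n + 1) (3 * i0 + 1 + k) (3 * j) q + b0 := by
    intro k
    induction k with
    | zero => intro _; simpa using hE0
    | succ k ih =>
      intro hk
      push_cast at hk ⊢
      have := hstepR (3 * i0 + 1 + k) (by omega) (by omega) (ih (by omega))
      rw [show 3 * i0 + 1 + ((k : ℤ) + 1) = 3 * i0 + 1 + k + 1 by ring]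
      exact this
  have hEl : ∀ k : ℕ, 3 * i1 ≤ 3 * i0 + 1 - (k : ℤ) →
      ∀ q ∈ Sq, g (cp (n + 1) (3 * i0 + 1 - k) (3 * j) q) = lam • cp (n + 1) (3 * i0 + 1 - k) (3 * j) q + b0 := by
    intro k
    induction k with
    | zero => intro _; simpa using hE0
    | succ k ih =>
      intro hk
      push_cast at hk ⊢
      have := hstepL (3 * i0 + 1 - k) (by omega) (by omega) (ih (by omega))
      rw [show 3 * i0 + 1 - ((k : ℤ) + 1) = 3 * i0 + 1 - k - 1 by ring]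
      exact this
  have hE : ∀ i' : ℤ, 3 * i1 ≤ i' → i' < 3 * i2 →
      ∀ q ∈ Sq, g (cp (n + 1) i' (3 * j) q) = lam • cp (n + 1) i' (3 * j) q + b0 := by
    intro i' ha hb
    rcases le_total (3 * i0 + 1) i' with h | h
    · have := hEr (i' - (3 * i0 + 1)).toNat (by omega)
      rwa [show 3 * i0 + 1 + (((i' - (3 * i0 + 1)).toNat : ℕ) : ℤ) = i' by omega] at this
    · have := hEl (3 * i0 + 1 - i').toNat (by omega)
      rwa [show 3 * i0 + 1 - (((3 * i0 + 1 - i').toNat : ℕ) : ℤ) = i' by omega] at this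
  -- final
  intro p hpX hp1 hp2 hp3 hp4
  have e3 : (3 : ℝ) ^ (n + 1) * p.1 = 3 * (3 ^ n * p.1) := by rw [hpow]; ring
  have e4 : (3 : ℝ) ^ (n + 1) * p.2 = 3 * (3 ^ n * p.2) := by rw [hpow]; ring
  obtain ⟨i', hi'⟩ : ∃ i' : ℤ, i' = min ⌊(3 : ℝ) ^ (n + 1) * p.1⌋ (3 * i2 - 1) := ⟨_, rfl⟩
  have hfl : 3 * i1 ≤ ⌊(3 : ℝ) ^ (n + 1) * p.1⌋ := by
    rw [Int.le_floor]; push_cast; rw [e3]; linarith
  have hi'1 : 3 * i1 ≤ i' := by rw [hi']; apply le_min hfl; omega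
  have hi'2 : i' < 3 * i2 := by
    have : i' ≤ 3 * i2 - 1 := by rw [hi']; exact min_le_right _ _
    omega
  have hi'3 : (i' : ℝ) ≤ (3 : ℝ) ^ (n + 1) * p.1 := by
    have : i' ≤ ⌊(3 : ℝ) ^ (n + 1) * p.1⌋ := by rw [hi']; exact min_le_left _ _
    exact (Int.cast_le.2 this).trans (Int.floor_le _)
  have hi'4 : (3 : ℝ) ^ (n + 1) * p.1 ≤ i' + 1 := by
    rcases min_choice ⌊(3 : ℝ) ^ (n + 1) * p.1⌋ (3 * i2 - 1) with h | h
    · rw [hi', h]; exact (Int.lt_floor_add_one _).le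
    · rw [hi', h]; push_cast; rw [e3]; linarith
  have hmem : ((3 : ℝ) ^ (n + 1)) • p - ((i' : ℝ), ((3 * j : ℤ) : ℝ)) ∈ Sq := by
    refine ⟨(X_sub_int _ _ _).2 (X_scale hpX (n + 1)), ?_, ?_, ?_, ?_⟩
    · show 0 ≤ (3 : ℝ) ^ (n + 1) * p.1 - i'; linarith
    · show (3 : ℝ) ^ (n + 1) * p.1 - i' ≤ 1; linarith
    · show 0 ≤ (3 : ℝ) ^ (n + 1) * p.2 - ((3 * j : ℤ) : ℝ); push_cast; rw [e4]; linarith
    · show (3 : ℝ) ^ (n + 1) * p.2 - ((3 * j : ℤ) : ℝ) ≤ 1; push_cast; linarith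
  have := hE i' hi'1 hi'2 _ hmem
  have e : cp (n + 1) i' (3 * j) (((3 : ℝ) ^ (n + 1)) • p - ((i' : ℝ), ((3 * j : ℤ) : ℝ))) = p := by
    unfold cp
    apply Prod.ext
    · show ((i' : ℝ) + ((3 : ℝ) ^ (n + 1) * p.1 - i')) / 3 ^ (n + 1) = p.1
      field_simp; ring
    · show (((3 * j : ℤ) : ℝ) + ((3 : ℝ) ^ (n + 1) * p.2 - ((3 * j : ℤ) : ℝ))) / 3 ^ (n + 1) = p.2
      field_simp; ring
  rw [e] at this
  rw [this, hconv]

end

end Pool.Agent.Helper746.Car
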