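import Mathlib
import Pool.Agent.Helper746.CarDefs
import Pool.Agent.Helper746.CarBasA
import Pool.Agent.Helper746.CarBasB
import Pool.Agent.Helper746.CarBasR
import Pool.Agent.Helper746.CarSq
import Pool.Agent.Helper746.CarTrans
import Pool.Agent.Helper746.CarRowfill
import Pool.Agent.Helper746.CarHoletop

set_option autoImplicit false

namespace Pool.Agent.Helper746.Car

open Filter Topology

noncomputable section

/-- exactness at all points of `Dm` of height less than `t` -/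
def ExB_stepup (lam : ℝ) (z w : ℤ) (g : ℝ × ℝ → ℝ × ℝ) (t : ℝ) : Prop :=
  ∀ p ∈ Dm, p.2 < t → g p = lam • (p + ((z : ℝ), (w : ℝ)))

theorem su_limit_stepup {L lam : ℝ} {g : ℝ × ℝ → ℝ × ℝ} (hg : Good L lam Dm g) {z w : ℤ} {e x : ℝ}
    (he0 : 0 < e) (he1 : e ≤ 1) (hE : ExB_stepup lam z w g e) (hx : x ∈ K) (hx0 : 0 ≤ x) (hx1 : x ≤ 1) :
    g (x, e) = lam • (((x, e) : ℝ × ℝ) + ((z : ℝ), (w : ℝ))) := by
  have hmem : ∀ y : ℝ, -1 ≤ y → y ≤ 1 → ((x, y) : ℝ × ℝ) ∈ Dm := fun y h1 h2 =>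
    ⟨X_of_K1 y hx, hx0, hx1, h1, h2⟩
  have hcont : ContinuousWithinAt g Dm (x, e) := hg.cont (x, e) (hmem e (by linarith) he1)
  have hφ : Tendsto (fun y : ℝ => ((x, y) : ℝ × ℝ)) (𝓝[<] e) (𝓝[Dm] (x, e)) := by
    apply tendsto_nhdsWithin_of_tendsto_nhds_of_eventually_within
    · have : Continuous fun y : ℝ => ((x, y) : ℝ × ℝ) := by fun_prop
      exact (this.tendsto e).mono_left nhdsWithin_le_nhds
    · have h1 : ∀ᶠ y in 𝓝[<] e, 0 < y := by
        apply Filter.Eventually.filter_mono nhdsWithin_le_nhds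
        exact lt_mem_nhds he0
      filter_upwards [h1, self_mem_nhdsWithin] with y hy1 hy2
      have hy2' : y < e := hy2
      exact hmem y (by linarith) (by linarith)
  have h1 : Tendsto (fun y : ℝ => g (x, y)) (𝓝[<] e) (𝓝 (g (x, e))) := hcont.tendsto.comp hφ
  have h2 : Tendsto (fun y : ℝ => lam • (((x, y) : ℝ × ℝ) + ((z : ℝ), (w : ℝ)))) (𝓝[<] e)
      (𝓝 (lam • (((x, e) : ℝ × ℝ) + ((z : ℝ), (w : ℝ))))) := by
    have : Continuous fun y : ℝ => lam • (((x, y) : ℝ × ℝ) + ((z : ℝ), (w : ℝ))) := by fun_prop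
    exact (this.tendsto e).mono_left nhdsWithin_le_nhds
  have h3 : (fun y : ℝ => g (x, y)) =ᶠ[𝓝[<] e]
      fun y : ℝ => lam • (((x, y) : ℝ × ℝ) + ((z : ℝ), (w : ℝ))) := by
    have h1 : ∀ᶠ y in 𝓝[<] e, 0 < y := by
      apply Filter.Eventually.filter_mono nhdsWithin_le_nhds
      exact lt_mem_nhds he0
    filter_upwards [h1, self_mem_nhdsWithin] with y hy1 hy2
    have hy2' : y < e := hy2
    exact hE (x, y) (hmem y (by linarith) (by linarith)) hy2'
  exact tendsto_nhds_unique h1 (h2.congr' h3.symm)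

theorem su_line_stepup {L lam : ℝ} {g : ℝ × ℝ → ℝ × ℝ} (hg : Good L lam Dm g) {z w : ℤ}
    (hlow : ∀ p ∈ Dm, p.2 ≤ 0 → g p = lam • (p + ((z : ℝ), (w : ℝ)))) {e : ℝ}
    (he0 : 0 ≤ e) (he1 : e ≤ 1) (hK : e ∈ K) (hE : ExB_stepup lam z w g e) {x : ℝ} (hx0 : 0 ≤ x)
    (hx1 : x ≤ 1) :
    g (x, e) = lam • (((x, e) : ℝ × ℝ) + ((z : ℝ), (w : ℝ))) := by
  have hmem : ∀ t : ℝ, 0 ≤ t → t ≤ 1 → ((t, e) : ℝ × ℝ) ∈ Dm := fun t h1 h2 =>
    ⟨X_of_K2 t hK, h1, h2, by show -1 ≤ e; linarith, he1⟩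
  rcases he0.lt_or_eq with he | he
  · have h1 := su_limit_stepup hg he he1 hE K_zero le_rfl zero_le_one
    have h2 := su_limit_stepup hg he he1 hE K_one zero_le_one le_rfl
    have h3 := sq_h hg (x := 0) (x' := 1) (y := e) (b := lam • ((z : ℝ), (w : ℝ))) hmem
      (by rw [h1, smul_add]) (by rw [h2, smul_add]) x hx0 hx1
    rw [h3, smul_add]
  · exact hlow (x, e) (hmem x hx0 hx1) (by show e ≤ 0; linarith)

theorem su_not_RowK_stepup (n : ℕ) (j : ℤ) : ¬ RowK (n + 1) (3 * j + 1) := by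
  intro h
  apply h n (Nat.lt_succ_self n) (1 / 2) (by norm_num) (by norm_num)
  refine ⟨j, ?_, ?_⟩
  · have h3 : (3 : ℝ) ^ (n + 1) ≠ 0 := by positivity
    push_cast
    rw [mul_div_cancel₀ _ h3]
    linarith
  · have h3 : (3 : ℝ) ^ (n + 1) ≠ 0 := by positivity
    push_cast
    rw [mul_div_cancel₀ _ h3]
    linarith

theorem su_RowK_pow_stepup (s : ℕ) : RowK s 0 := by
  induction s with
  | zero => exact RowK_zero 0
  | succ s ih =>
    have := RowK_succ ih (d := 0) (Or.inl rfl)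
    simpa using this

/-- points of `Dm` of height in the row `j` of level `n` -/
theorem su_cell_stepup {n : ℕ} {j : ℤ} {p : ℝ × ℝ} (hp : p ∈ Dm) (h1 : (j : ℝ) ≤ 3 ^ n * p.2)
    (h2 : 3 ^ n * p.2 ≤ (j : ℝ) + 1) : ∃ i : ℤ, 0 ≤ i ∧ i < 3 ^ n ∧ ∃ q ∈ Sq, p = cp n i j q ∧
      q.2 = 3 ^ n * p.2 - j := by
  obtain ⟨hX, hx0, hx1, hy0, hy1⟩ := hp
  have h3 : (0 : ℝ) < 3 ^ n := by positivity
  have hi : ∃ i : ℤ, 0 ≤ i ∧ i < 3 ^ n ∧ (i : ℝ) ≤ 3 ^ n * p.1 ∧ 3 ^ n * p.1 ≤ (i : ℝ) + 1 := by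
    by_cases hx : p.1 < 1
    · refine ⟨⌊(3 : ℝ) ^ n * p.1⌋, ?_, ?_, Int.floor_le _, (Int.lt_floor_add_one _).le⟩
      · exact Int.floor_nonneg.2 (by positivity)
      · rw [Int.floor_lt]
        push_cast
        nlinarith
    · have hx' : p.1 = 1 := le_antisymm hx1 (not_lt.1 hx)
      refine ⟨3 ^ n - 1, ?_, by omega, ?_, ?_⟩
      · have : (0 : ℤ) < 3 ^ n := by positivity
        omega
      · push_cast
        rw [hx']
        linarith
      · push_cast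
        rw [hx']
        linarith
  obtain ⟨i, hi0, hi1, hi2, hi3⟩ := hi
  refine ⟨i, hi0, hi1, (3 ^ n * p.1 - i, 3 ^ n * p.2 - j), ?_, ?_, rfl⟩
  · refine ⟨?_, by show 0 ≤ 3 ^ n * p.1 - i; linarith, by show 3 ^ n * p.1 - i ≤ 1; linarith,
      by show 0 ≤ 3 ^ n * p.2 - j; linarith, by show 3 ^ n * p.2 - j ≤ 1; linarith⟩
    have h4 := (X_sub_int (((3 : ℝ) ^ n) • p) i j).2 (X_scale hX n)
    exact h4
  · unfold cp
    ext
    · show p.1 = ((i : ℝ) + (3 ^ n * p.1 - i)) / 3 ^ n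
      field_simp
      ring
    · show p.2 = ((j : ℝ) + (3 ^ n * p.2 - j)) / 3 ^ n
      field_simp
      ring

theorem su_cp_mem_stepup {n : ℕ} {i j : ℤ} (hj : RowK n j) (hj0 : 0 ≤ j) (hj1 : j < 3 ^ n) (hi0 : 0 ≤ i)
    (hi1 : i < 3 ^ n) {q : ℝ × ℝ} (hq : q ∈ Sq) : cp n i j q ∈ Dm := by
  obtain ⟨hX, hx0, hx1, hy0, hy1⟩ := hq
  have h3 : (0 : ℝ) < 3 ^ n := by positivity
  have a1 : (0 : ℝ) ≤ i := by exact_mod_cast hi0
  have a2 : (i : ℝ) + 1 ≤ 3 ^ n := by exact_mod_cast hi1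
  have a3 : (0 : ℝ) ≤ j := by exact_mod_cast hj0
  have a4 : (j : ℝ) + 1 ≤ 3 ^ n := by exact_mod_cast hj1
  refine ⟨RowK_X hj i hX hy0 hy1, ?_, ?_, ?_, ?_⟩
  · show 0 ≤ ((i : ℝ) + q.1) / 3 ^ n
    positivity
  · show ((i : ℝ) + q.1) / 3 ^ n ≤ 1
    rw [div_le_one h3]
    linarith
  · show -1 ≤ ((j : ℝ) + q.2) / 3 ^ n
    have : 0 ≤ ((j : ℝ) + q.2) / 3 ^ n := by positivity
    linarith
  · show ((j : ℝ) + q.2) / 3 ^ n ≤ 1
    rw [div_le_one h3]
    linarith

/-- case I -/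
theorem su_caseI_stepup {L lam : ℝ} {m : ℕ} (hm : 1 ≤ m) (hlam : lam = (1 / 3) ^ m) {g : ℝ × ℝ → ℝ × ℝ}
    (hg : Good L lam Dm g) {z w : ℤ} (hlow : ∀ p ∈ Dm, p.2 ≤ 0 → g p = lam • (p + ((z : ℝ), (w : ℝ))))
    {η : ℝ} (h0 : 0 ≤ η) (h1 : η < 1) (hE : ExB_stepup lam z w g η)
    (hall : ∀ n, RowK n ⌊(3 : ℝ) ^ n * η⌋) : ∃ η' > η, ExB_stepup lam z w g η' := by
  obtain ⟨N', hN'⟩ := row_fill L lam hm hlam
  -- choice of n
  have hn : ∃ n : ℕ, (N' : ℤ) ≤ 3 ^ n ∧ (3 : ℝ) ^ n * η - ⌊(3 : ℝ) ^ n * η⌋ < 1 / 3 := by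
    by_contra hcon
    push Not at hcon
    have hbig : ∀ n, N' ≤ n → (N' : ℤ) ≤ 3 ^ n := by
      intro n hn
      have h2 : n < 3 ^ n := Nat.lt_pow_self (by norm_num)
      have h3 : N' ≤ 3 ^ n := by omega
      exact_mod_cast h3
    have hstep : ∀ n, N' ≤ n → 1 - ((3 : ℝ) ^ (n + 1) * η - ⌊(3 : ℝ) ^ (n + 1) * η⌋) =
        3 * (1 - ((3 : ℝ) ^ n * η - ⌊(3 : ℝ) ^ n * η⌋)) := by
      intro n hn
      have h2 := hcon n (hbig n hn)
      have h3 := Int.lt_floor_add_one ((3 : ℝ) ^ n * η)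
      have h4 : (2 : ℝ) / 3 ≤ (3 : ℝ) ^ n * η - ⌊(3 : ℝ) ^ n * η⌋ := by
        by_contra hlt
        push Not at hlt
        have h5 : ⌊(3 : ℝ) ^ (n + 1) * η⌋ = 3 * ⌊(3 : ℝ) ^ n * η⌋ + 1 := by
          rw [Int.floor_eq_iff]
          push_cast
          rw [pow_succ]
          constructor <;> linarith
        have h6 := hall (n + 1)
        rw [h5] at h6
        exact su_not_RowK_stepup n _ h6
      have h5 : ⌊(3 : ℝ) ^ (n + 1) * η⌋ = 3 * ⌊(3 : ℝ) ^ n * η⌋ + 2 := by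
        rw [Int.floor_eq_iff]
        push_cast
        rw [pow_succ]
        constructor <;> linarith
      rw [h5]
      push_cast
      rw [pow_succ]
      ring
    have hiter : ∀ k : ℕ, 1 - ((3 : ℝ) ^ (N' + k) * η - ⌊(3 : ℝ) ^ (N' + k) * η⌋) =
        3 ^ k * (1 - ((3 : ℝ) ^ N' * η - ⌊(3 : ℝ) ^ N' * η⌋)) := by
      intro k
      induction k with
      | zero => simp
      | succ k ih =>
        rw [← add_assoc, hstep (N' + k) (by omega), ih, pow_succ]
        ring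
    have hpos : 0 < 1 - ((3 : ℝ) ^ N' * η - ⌊(3 : ℝ) ^ N' * η⌋) := by
      have := Int.lt_floor_add_one ((3 : ℝ) ^ N' * η)
      linarith
    obtain ⟨k, hk⟩ := pow_unbounded_of_one_lt
      (1 / (1 - ((3 : ℝ) ^ N' * η - ⌊(3 : ℝ) ^ N' * η⌋))) (show (1 : ℝ) < 3 by norm_num)
    rw [div_lt_iff₀ hpos] at hk
    have h5 := hiter k
    have h6 := Int.floor_le ((3 : ℝ) ^ (N' + k) * η)
    linarith
  obtain ⟨n, hn1, hn2⟩ := hn
  set j := ⌊(3 : ℝ) ^ n * η⌋ with hj
  have h3 : (0 : ℝ) < 3 ^ n := by positivity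
  have hj1 : (j : ℝ) ≤ 3 ^ n * η := Int.floor_le _
  have hj0 : 0 ≤ j := Int.floor_nonneg.2 (by positivity)
  have hjlt : j < 3 ^ n := by
    rw [hj, Int.floor_lt]
    push_cast
    nlinarith
  have hRow := hall n
  have hjR : (0 : ℝ) ≤ j := by exact_mod_cast hj0
  have heK : (j : ℝ) / 3 ^ n ∈ K := by
    have := RowK_K hRow K_zero le_rfl zero_le_one
    rwa [add_zero] at this
  have heη : (j : ℝ) / 3 ^ n ≤ η := by
    rw [div_le_iff₀ h3]
    linarith
  have hEe : ExB_stepup lam z w g ((j : ℝ) / 3 ^ n) := fun p hp hlt => hE p hp (lt_of_lt_of_le hlt heη)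
  refine ⟨(3 * (j : ℝ) + 1) / 3 ^ (n + 1), ?_, ?_⟩
  · show η < (3 * (j : ℝ) + 1) / 3 ^ (n + 1)
    rw [lt_div_iff₀ (by positivity), pow_succ]
    linarith
  · intro p hp hlt
    by_cases hpj : 3 ^ n * p.2 < (j : ℝ)
    · apply hE p hp
      have : 3 ^ n * p.2 < 3 ^ n * η := by linarith
      exact lt_of_mul_lt_mul_left this h3.le
    · push Not at hpj
      refine hN' g hg z w n 0 (3 ^ n) j le_rfl le_rfl hj0 hjlt (by simpa using hn1) ?_ ?_ ?_ p hp.1
        ?_ ?_ hpj ?_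
      · intro i _ _ q hq
        exact RowK_X hRow i hq.1 hq.2.2.2.1 hq.2.2.2.2
      · intro p hp hlt
        apply hE p hp
        have : 3 ^ n * p.2 < 3 ^ n * η := by linarith
        exact lt_of_mul_lt_mul_left this h3.le
      · intro x hx0 hx1
        push_cast at hx0 hx1
        have b1 : 0 ≤ x := by
          by_contra h
          push Not at h
          nlinarith
        have b2 : x ≤ 1 := by
          by_contra h
          push Not at h
          nlinarith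
        exact su_line_stepup hg hlow (by positivity) (by linarith) heK hEe b1 b2
      · push_cast
        have := hp.2.1
        positivity
      · push_cast
        have := hp.2.2.1
        nlinarith
      · rw [lt_div_iff₀ (by positivity)] at hlt
        linarith

/-- case IIb -/
theorem su_caseIIb_stepup {L lam : ℝ} {m : ℕ} (hm : 1 ≤ m) (hlam : lam = (1 / 3) ^ m) {g : ℝ × ℝ → ℝ × ℝ}
    (hg : Good L lam Dm g) {z w : ℤ}
    {η : ℝ} (hE : ExB_stepup lam z w g η)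
    {n : ℕ} {j : ℤ} (hj0 : 0 ≤ j) (hj1 : j < 3 ^ n) (hRow : RowK n j)
    (hζ0 : (j : ℝ) + 1 / 3 < 3 ^ n * η) (hζ1 : 3 ^ n * η < (j : ℝ) + 2 / 3) :
    ∃ η' > η, ExB_stepup lam z w g η' := by
  have h3 : (0 : ℝ) < 3 ^ n := by positivity
  refine ⟨(3 * (j : ℝ) + 2) / 3 ^ (n + 1), ?_, ?_⟩
  · show η < (3 * (j : ℝ) + 2) / 3 ^ (n + 1)
    rw [lt_div_iff₀ (by positivity), pow_succ]
    linarith
  · intro p hp hlt
    rw [lt_div_iff₀ (by positivity), pow_succ] at hlt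
    by_cases hpj : 3 ^ n * p.2 < (j : ℝ)
    · apply hE p hp
      have : 3 ^ n * p.2 < 3 ^ n * η := by linarith
      exact lt_of_mul_lt_mul_left this h3.le
    · push Not at hpj
      obtain ⟨i, hi0, hi1, q, hq, hpq, hq2⟩ := su_cell_stepup hp hpj (by linarith)
      -- the rescaled map
      have hgood : Good L lam Sq (fun q => (3 : ℝ) ^ n •
          g (((i : ℝ) + q.1) / 3 ^ n, ((j : ℝ) + q.2) / 3 ^ n) - (((0 : ℤ) : ℝ), ((0 : ℤ) : ℝ))) := by
        apply hg.scale n (i : ℝ) (j : ℝ) 0 0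
        · intro q hq
          exact su_cp_mem_stepup hRow hj0 hj1 hi0 hi1 hq
        · intro q _
          rfl
      have hex : ∀ q ∈ Sq, cp n i j q ∈ Dm → g (cp n i j q) =
          lam • (cp n i j q + ((z : ℝ), (w : ℝ))) → ((3 : ℝ) ^ n •
          g (((i : ℝ) + q.1) / 3 ^ n, ((j : ℝ) + q.2) / 3 ^ n) - (((0 : ℤ) : ℝ), ((0 : ℤ) : ℝ))) =
          lam • (q + (((i + 3 ^ n * z : ℤ) : ℝ), ((j + 3 ^ n * w : ℤ) : ℝ))) := by
        intro q _ _ h
        have h' : g (((i : ℝ) + q.1) / 3 ^ n, ((j : ℝ) + q.2) / 3 ^ n) =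
          lam • ((((i : ℝ) + q.1) / 3 ^ n, ((j : ℝ) + q.2) / 3 ^ n) + ((z : ℝ), (w : ℝ))) := h
        rw [h']
        ext
        · simp only [Prod.fst_sub, Prod.smul_fst, Prod.fst_add, smul_eq_mul]
          push_cast
          field_simp
          ring
        · simp only [Prod.snd_sub, Prod.smul_snd, Prod.snd_add, smul_eq_mul]
          push_cast
          field_simp
          ring
      have htop := hole_top hm hlam hgood (z := i + 3 ^ n * z) (w := j + 3 ^ n * w)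
        (ζ := 3 ^ n * η - j) (by linarith) (by linarith) (by
          intro q hq hlt
          have hmem := su_cp_mem_stepup hRow hj0 hj1 hi0 hi1 hq
          apply hex q hq hmem
          apply hE _ hmem
          show ((j : ℝ) + q.2) / 3 ^ n < η
          rw [div_lt_iff₀ h3]
          linarith) q hq (by rw [hq2]; linarith)
      -- back
      have h5 : (3 : ℝ) ^ n • g (cp n i j q) =
          (3 : ℝ) ^ n • (lam • (cp n i j q + ((z : ℝ), (w : ℝ)))) := by
        have h6 : (3 : ℝ) ^ n • g (cp n i j q) = lam • (q + (((i + 3 ^ n * z : ℤ) : ℝ),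
          ((j + 3 ^ n * w : ℤ) : ℝ))) := by
          rw [← htop]
          show _ = (3 : ℝ) ^ n • g (cp n i j q) - _
          rw [Int.cast_zero, Prod.mk_zero_zero, sub_zero]
        rw [h6]
        unfold cp
        ext
        · simp only [Prod.smul_fst, Prod.fst_add, smul_eq_mul]
          push_cast
          field_simp
          ring
        · simp only [Prod.smul_snd, Prod.snd_add, smul_eq_mul]
          push_cast
          field_simp
          ring
      rw [hpq]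
      exact smul_right_injective _ h3.ne' h5

/-- case IIa -/
theorem su_caseIIa_stepup {L lam : ℝ} {m : ℕ} (hm : 1 ≤ m) (hlam : lam = (1 / 3) ^ m) {g : ℝ × ℝ → ℝ × ℝ}
    (hg : Good L lam Dm g) {z w : ℤ} (hlow : ∀ p ∈ Dm, p.2 ≤ 0 → g p = lam • (p + ((z : ℝ), (w : ℝ))))
    {η : ℝ} (h0 : 0 ≤ η) (h1 : η < 1) (hE : ExB_stepup lam z w g η)
    {n : ℕ} {j : ℤ} (hj0 : 0 ≤ j) (hj1 : j < 3 ^ n) (hRow : RowK n j)
    (hζ : 3 ^ n * η = (j : ℝ) + 1 / 3) :
    ∃ η' > η, ExB_stepup lam z w g η' := by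
  obtain ⟨N', hN'⟩ := row_fill L lam hm hlam
  have h3 : (0 : ℝ) < 3 ^ n := by positivity
  have hηK : η ∈ K := by
    have := RowK_K hRow K_third (by norm_num) (by norm_num)
    rw [← hζ, mul_div_cancel_left₀ _ h3.ne'] at this
    exact this
  have hs : ∃ s : ℕ, (N' : ℤ) ≤ 3 ^ s := by
    refine ⟨N', ?_⟩
    have h2 : N' < 3 ^ N' := Nat.lt_pow_self (by norm_num)
    exact_mod_cast h2.le
  obtain ⟨s, hs⟩ := hs
  have h3s : (0 : ℝ) < 3 ^ s := by positivity
  have h3sZ : (0 : ℤ) < 3 ^ s := by positivity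
  have h3nZ : (0 : ℤ) < 3 ^ n := by positivity
  have hj' : (((3 ^ s * (3 * j + 1) : ℤ)) : ℝ) = 3 ^ (n + 1 + s) * η := by
    push_cast
    rw [pow_add, pow_add]
    linear_combination (-3 * 3 ^ s : ℝ) * hζ
  have h3' : (0 : ℝ) < 3 ^ (n + 1 + s) := by positivity
  refine ⟨(3 * (((3 ^ s * (3 * j + 1) : ℤ)) : ℝ) + 1) / 3 ^ (n + 1 + s + 1), ?_, ?_⟩
  · show η < _
    rw [lt_div_iff₀ (by positivity), hj', pow_succ]
    linarith
  · intro p hp hlt
    rw [lt_div_iff₀ (by positivity)] at hlt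
    by_cases hpη : p.2 < η
    · exact hE p hp hpη
    push Not at hpη
    by_cases hpeq : p.2 = η
    · have h5 := su_line_stepup hg hlow h0 h1.le hηK hE hp.2.1 hp.2.2.1
      have h6 : p = (p.1, η) := Prod.ext rfl hpeq
      rw [h6]
      exact h5
    have hpη' : η < p.2 := lt_of_le_of_ne hpη (Ne.symm hpeq)
    -- p.2 is Mid n
    have hpow1 : (1 : ℝ) ≤ 3 ^ s := one_le_pow₀ (by norm_num)
    have hub : 3 ^ (n + 1) * p.2 < 3 * (j : ℝ) + 2 := by
      have h7 : 3 ^ s * (3 * (3 ^ (n + 1) * p.2)) < 3 ^ s * (3 * (3 * (j : ℝ) + 2)) := by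
        have hp1 : (3 : ℝ) ^ (n + 1 + s + 1) = 3 ^ (n + 1) * 3 ^ s * 3 := by
          rw [pow_succ, pow_add _ (n + 1) s]
        have hp2 : (3 : ℝ) ^ (n + 1 + s) = 3 ^ (n + 1) * 3 ^ s := by rw [pow_add _ (n + 1) s]
        rw [hj', hp1, hp2] at hlt
        have h8 : (3 : ℝ) ^ (n + 1) * η = 3 * j + 1 := by
          rw [pow_succ]
          linear_combination 3 * hζ
        have h9 : (3 : ℝ) * (3 ^ (n + 1) * 3 ^ s * η) = 3 * 3 ^ s * (3 * j + 1) := by
          rw [← h8]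
          ring
        rw [h9] at hlt
        linarith
      have h8 := lt_of_mul_lt_mul_left h7 h3s.le
      linarith
    have hlb : 3 * (j : ℝ) + 1 < 3 ^ (n + 1) * p.2 := by
      have h8 : (3 : ℝ) ^ (n + 1) * η = 3 * j + 1 := by
        rw [pow_succ]
        linear_combination 3 * hζ
      rw [← h8]
      exact mul_lt_mul_of_pos_left hpη' (by positivity)
    have hmid : Mid n p.2 := ⟨j, hlb, hub⟩
    have hnmid : ¬ Mid n p.1 := fun h => hp.1 n ⟨h, hmid⟩
    -- the column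
    have hcol : ∃ i a : ℤ, 0 ≤ i ∧ i < 3 ^ n ∧ (a = 0 ∨ a = 2) ∧
        (3 * (i : ℝ) + a) ≤ 3 ^ (n + 1) * p.1 ∧ 3 ^ (n + 1) * p.1 ≤ 3 * (i : ℝ) + a + 1 := by
      obtain ⟨i, hi0, hi1, q, hq, hpq, -⟩ := su_cell_stepup (n := n) (j := j) hp
        (by rw [pow_succ] at hlb; linarith) (by rw [pow_succ] at hub; linarith)
      have hq1 : 3 ^ n * p.1 = (i : ℝ) + q.1 := by
        rw [hpq]
        show 3 ^ n * (((i : ℝ) + q.1) / 3 ^ n) = _
        field_simp
      have hq1' : 3 ^ (n + 1) * p.1 = 3 * (i : ℝ) + 3 * q.1 := by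
        rw [pow_succ]
        linear_combination 3 * hq1
      have hqa := hq.2.1
      have hqb := hq.2.2.1
      by_cases hc : 3 ^ (n + 1) * p.1 ≤ 3 * (i : ℝ) + 1
      · refine ⟨i, 0, hi0, hi1, Or.inl rfl, ?_, ?_⟩
        · push_cast
          linarith
        · push_cast
          linarith
      · push Not at hc
        have hc2 : 3 * (i : ℝ) + 2 ≤ 3 ^ (n + 1) * p.1 := by
          by_contra h
          push Not at h
          exact hnmid ⟨i, hc, h⟩
        refine ⟨i, 2, hi0, hi1, Or.inr rfl, ?_, ?_⟩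
        · push_cast
          linarith
        · push_cast
          linarith
    obtain ⟨i, a, hi0, hi1, ha, hc1, hc2⟩ := hcol
    have ha0 : 0 ≤ a := by rcases ha with h | h <;> omega
    have ha2 : a ≤ 2 := by rcases ha with h | h <;> omega
    have ha1 : ¬ (a = 1 ∧ (1 : ℤ) = 1) := by
      rintro ⟨h, -⟩
      rcases ha with h' | h' <;> omega
    have hI0 : 0 ≤ 3 * i + a := by omega
    have hI1 : 3 * i + a + 1 ≤ 3 ^ (n + 1) := by
      rw [pow_succ]
      omega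
    refine hN' g hg z w (n + 1 + s) (3 ^ s * (3 * i + a)) (3 ^ s * (3 * i + a + 1))
      (3 ^ s * (3 * j + 1)) ?_ ?_ ?_ ?_ ?_ ?_ ?_ ?_ p hp.1 ?_ ?_ ?_ ?_
    · positivity
    · rw [pow_add _ (n + 1) s, mul_comm ((3 : ℤ) ^ (n + 1))]
      exact mul_le_mul_of_nonneg_left hI1 h3sZ.le
    · positivity
    · rw [pow_add _ (n + 1) s, mul_comm ((3 : ℤ) ^ (n + 1))]
      apply mul_lt_mul_of_pos_left _ h3sZ
      rw [pow_succ]
      omega
    · have : (3 : ℤ) ^ s * (3 * i + a + 1) - 3 ^ s * (3 * i + a) = 3 ^ s := by ring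
      rw [this]
      exact hs
    · intro I hI hI' q hq
      -- I = 3^s (3 i + a) + r
      obtain ⟨r, hr⟩ : ∃ r : ℤ, I = 3 ^ s * (3 * i + a) + r := ⟨I - 3 ^ s * (3 * i + a), by ring⟩
      have hr0 : 0 ≤ r := by linarith
      have hr1 : r < 3 ^ s := by
        have : (3 : ℤ) ^ s * (3 * i + a + 1) = 3 ^ s * (3 * i + a) + 3 ^ s := by ring
        linarith
      have h6 : cp s r 0 q ∈ Sq := by
        have h7 := su_cp_mem_stepup (su_RowK_pow_stepup s) le_rfl h3sZ hr0 hr1 hq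
        refine ⟨h7.1, h7.2.1, h7.2.2.1, ?_, h7.2.2.2.2⟩
        show 0 ≤ (((0 : ℤ) : ℝ) + q.2) / 3 ^ s
        have := hq.2.2.2.1
        push_cast
        positivity
      have h7 : cp 1 a 1 (cp s r 0 q) ∈ Sq := Sq_sub h6 ⟨ha0, ha2⟩ ⟨by norm_num, by norm_num⟩ ha1
      have h8 : cp n i j (cp 1 a 1 (cp s r 0 q)) ∈ X :=
        RowK_X hRow i h7.1 h7.2.2.2.1 h7.2.2.2.2
      rw [cp_cp, cp_cp] at h8
      have e1 : (3 : ℤ) ^ s * (3 ^ 1 * i + a) + r = I := by rw [hr]; ring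
      have e2 : (3 : ℤ) ^ s * (3 ^ 1 * j + 1) + 0 = 3 ^ s * (3 * j + 1) := by ring
      rw [e1, e2] at h8
      exact h8
    · intro p hp hlt
      apply hE p hp
      rw [hj'] at hlt
      exact lt_of_mul_lt_mul_left hlt h3'.le
    · intro x hx0 hx1
      have e3 : (((3 ^ s * (3 * j + 1) : ℤ)) : ℝ) / 3 ^ (n + 1 + s) = η := by
        rw [hj', mul_div_cancel_left₀ _ h3'.ne']
      rw [e3]
      have hx0' : 0 ≤ x := by
        have : (0 : ℝ) ≤ ((3 ^ s * (3 * i + a) : ℤ) : ℝ) := by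
          have : (0 : ℤ) ≤ 3 ^ s * (3 * i + a) := by positivity
          exact_mod_cast this
        by_contra h
        push Not at h
        nlinarith
      have hx1' : x ≤ 1 := by
        have h9 : ((3 ^ s * (3 * i + a + 1) : ℤ) : ℝ) ≤ 3 ^ (n + 1 + s) := by
          have : (3 : ℤ) ^ s * (3 * i + a + 1) ≤ 3 ^ (n + 1 + s) := by
            rw [pow_add _ (n + 1) s, mul_comm ((3 : ℤ) ^ (n + 1))]
            exact mul_le_mul_of_nonneg_left hI1 h3sZ.le
          exact_mod_cast this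
        by_contra h
        push Not at h
        nlinarith
      exact su_line_stepup hg hlow h0 h1.le hηK hE hx0' hx1'
    · push_cast
      rw [pow_add]
      calc (3 : ℝ) ^ s * (3 * i + a) ≤ 3 ^ s * (3 ^ (n + 1) * p.1) :=
            mul_le_mul_of_nonneg_left hc1 h3s.le
        _ = 3 ^ (n + 1) * 3 ^ s * p.1 := by ring
    · push_cast
      rw [pow_add]
      calc (3 : ℝ) ^ (n + 1) * 3 ^ s * p.1 = 3 ^ s * (3 ^ (n + 1) * p.1) := by ring
        _ ≤ 3 ^ s * (3 * i + a + 1) := mul_le_mul_of_nonneg_left hc2 h3s.le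
    · rw [hj']
      exact mul_le_mul_of_nonneg_left hpη h3'.le
    · linarith

/-- one step -/
theorem su_step_stepup {L lam : ℝ} {m : ℕ} (hm : 1 ≤ m) (hlam : lam = (1 / 3) ^ m) {g : ℝ × ℝ → ℝ × ℝ}
    (hg : Good L lam Dm g) {z w : ℤ} (hlow : ∀ p ∈ Dm, p.2 ≤ 0 → g p = lam • (p + ((z : ℝ), (w : ℝ))))
    {η : ℝ} (h0 : 0 ≤ η) (h1 : η < 1) (hE : ExB_stepup lam z w g η) : ∃ η' > η, ExB_stepup lam z w g η' := by
  classical
  by_cases hall : ∀ n, RowK n ⌊(3 : ℝ) ^ n * η⌋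
  · exact su_caseI_stepup hm hlam hg hlow h0 h1 hE hall
  · push Not at hall
    have hfind := Nat.find_spec hall
    have hmin := fun k (hk : k < Nat.find hall) => Nat.find_min hall hk
    rcases Nat.eq_zero_or_pos (Nat.find hall) with hz | hz
    · rw [hz] at hfind
      exact absurd (RowK_zero _) hfind
    · obtain ⟨n, hn⟩ := Nat.exists_eq_succ_of_ne_zero hz.ne'
      rw [hn] at hfind
      have hRow : RowK n ⌊(3 : ℝ) ^ n * η⌋ := by
        have := hmin n (by omega)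
        push Not at this
        exact this
      set j := ⌊(3 : ℝ) ^ n * η⌋ with hj
      have h3 : (0 : ℝ) < 3 ^ n := by positivity
      have hj1 : (j : ℝ) ≤ 3 ^ n * η := Int.floor_le _
      have hj2 : 3 ^ n * η < (j : ℝ) + 1 := Int.lt_floor_add_one _
      have hj0 : 0 ≤ j := Int.floor_nonneg.2 (by positivity)
      have hjlt : j < 3 ^ n := by
        rw [hj, Int.floor_lt]
        push_cast
        nlinarith
      have hge : (j : ℝ) + 1 / 3 ≤ 3 ^ n * η := by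
        by_contra hlt
        push Not at hlt
        have h5 : ⌊(3 : ℝ) ^ (n + 1) * η⌋ = 3 * j + 0 := by
          rw [Int.floor_eq_iff]
          push_cast
          rw [pow_succ]
          constructor <;> linarith
        apply hfind
        show RowK (n + 1) ⌊(3 : ℝ) ^ (n + 1) * η⌋
        rw [h5]
        exact RowK_succ hRow (Or.inl rfl)
      have hlt : 3 ^ n * η < (j : ℝ) + 2 / 3 := by
        by_contra hle
        push Not at hle
        have h5 : ⌊(3 : ℝ) ^ (n + 1) * η⌋ = 3 * j + 2 := by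
          rw [Int.floor_eq_iff]
          push_cast
          rw [pow_succ]
          constructor <;> linarith
        apply hfind
        show RowK (n + 1) ⌊(3 : ℝ) ^ (n + 1) * η⌋
        rw [h5]
        exact RowK_succ hRow (Or.inr rfl)
      rcases hge.lt_or_eq with h | h
      · exact su_caseIIb_stepup hm hlam hg hE hj0 hjlt hRow h hlt
      · exact su_caseIIa_stepup hm hlam hg hlow h0 h1 hE hj0 hjlt hRow h.symm

theorem step_up {L lam : ℝ} {m : ℕ} (hm : 1 ≤ m) (hlam : lam = (1 / 3) ^ m) {g : ℝ × ℝ → ℝ × ℝ}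
    (hg : Good L lam Dm g) {z w : ℤ} (hlow : ∀ p ∈ Dm, p.2 ≤ 0 → g p = lam • (p + ((z : ℝ), (w : ℝ)))) :
    ∀ p ∈ Dm, g p = lam • (p + ((z : ℝ), (w : ℝ))) := by
  set S : Set ℝ := {t | 0 ≤ t ∧ t ≤ 1 ∧ ExB_stepup lam z w g t} with hS
  have hS0 : (0 : ℝ) ∈ S := ⟨le_rfl, zero_le_one, fun p hp hlt => hlow p hp hlt.le⟩
  have hbdd : BddAbove S := ⟨1, fun t ht => ht.2.1⟩
  have hη0 : 0 ≤ sSup S := le_csSup hbdd hS0
  have hη1 : sSup S ≤ 1 := csSup_le ⟨0, hS0⟩ (fun t ht => ht.2.1)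
  have hEη : ExB_stepup lam z w g (sSup S) := by
    intro p hp hlt
    obtain ⟨t, ht, hpt⟩ := exists_lt_of_lt_csSup ⟨0, hS0⟩ hlt
    exact ht.2.2 p hp hpt
  have hE1 : ExB_stepup lam z w g 1 := by
    rcases hη1.lt_or_eq with h | h
    · exfalso
      obtain ⟨η', hη', hE'⟩ := su_step_stepup hm hlam hg hlow hη0 h hEη
      have hmem : min η' 1 ∈ S := by
        refine ⟨le_min (by linarith) zero_le_one, min_le_right _ _, ?_⟩
        intro p hp hlt
        exact hE' p hp (lt_of_lt_of_le hlt (min_le_left _ _))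
      have h2 := le_csSup hbdd hmem
      have h3 : sSup S < min η' 1 := lt_min hη' h
      linarith
    · rwa [h] at hEη
  intro p hp
  rcases hp.2.2.2.2.lt_or_eq with h | h
  · exact hE1 p hp h
  · have h5 := su_line_stepup hg hlow zero_le_one le_rfl K_one hE1 hp.2.1 hp.2.2.1
    have h6 : p = (p.1, 1) := Prod.ext rfl h
    rw [h6]
    exact h5

end

end Pool.Agent.Helper746.Car
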