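import Mathlib
import Pool.Agent.Helper746.CarDefs
import Pool.Agent.Helper746.CarBasA
import Pool.Agent.Helper746.CarBasB
import Pool.Agent.Helper746.CarSq
import Pool.Agent.Helper746.CarTrans
import Pool.Agent.Helper746.CarStepup

set_option autoImplicit false

namespace Pool.Agent.Helper746.Car

open Filter Topology

noncomputable section

theorem glu_lin_glue {A : ℝ × ℝ → ℝ × ℝ} (hA : IsSym A) (c : ℝ) (p q : ℝ × ℝ) :
    A (c • p + q) = c • A p + A q := by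
  obtain ⟨e₁, e₂, -, -, h | h⟩ := hA
  · rw [h, h, h]
    ext <;> simp <;> ring
  · rw [h, h, h]
    ext <;> simp <;> ring

theorem glu_smul_glue {A : ℝ × ℝ → ℝ × ℝ} (hA : IsSym A) (c : ℝ) (p : ℝ × ℝ) :
    A (c • p) = c • A p := by
  obtain ⟨e₁, e₂, -, -, h | h⟩ := hA
  · rw [h, h]
    ext <;> simp <;> ring
  · rw [h, h]
    ext <;> simp <;> ring

theorem glu_add_glue {A : ℝ × ℝ → ℝ × ℝ} (hA : IsSym A) (p q : ℝ × ℝ) :
    A (p + q) = A p + A q := by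
  have h := glu_lin_glue hA 1 p q
  rwa [one_smul, one_smul] at h

theorem glu_int_glue {A : ℝ × ℝ → ℝ × ℝ} (hA : IsSym A) (z w : ℤ) :
    ∃ z' w' : ℤ, A ((z : ℝ), (w : ℝ)) = ((z' : ℝ), (w' : ℝ)) := by
  obtain ⟨e₁, e₂, h1, h2, h | h⟩ := hA
  · rcases h1 with h1 | h1 <;> rcases h2 with h2 | h2
    · exact ⟨z, w, by rw [h, h1, h2]; simp⟩
    · exact ⟨z, -w, by rw [h, h1, h2]; simp⟩
    · exact ⟨-z, w, by rw [h, h1, h2]; simp⟩
    · exact ⟨-z, -w, by rw [h, h1, h2]; simp⟩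
  · rcases h1 with h1 | h1 <;> rcases h2 with h2 | h2
    · exact ⟨w, z, by rw [h, h1, h2]; simp⟩
    · exact ⟨w, -z, by rw [h, h1, h2]; simp⟩
    · exact ⟨-w, z, by rw [h, h1, h2]; simp⟩
    · exact ⟨-w, -z, by rw [h, h1, h2]; simp⟩

theorem glu_inv_glue {A : ℝ × ℝ → ℝ × ℝ} (hA : IsSym A) :
    ∃ B : ℝ × ℝ → ℝ × ℝ, IsSym B ∧ (∀ p, B (A p) = p) ∧ ∀ p, A (B p) = p := by
  obtain ⟨e₁, e₂, h1, h2, h | h⟩ := hA
  · have q1 : e₁ * e₁ = 1 := by rcases h1 with h1 | h1 <;> rw [h1] <;> norm_num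
    have q2 : e₂ * e₂ = 1 := by rcases h2 with h2 | h2 <;> rw [h2] <;> norm_num
    refine ⟨A, ⟨e₁, e₂, h1, h2, Or.inl h⟩, fun p => ?_, fun p => ?_⟩ <;>
    · rw [h, h]
      ext
      · simp only
        rw [← mul_assoc, q1, one_mul]
      · simp only
        rw [← mul_assoc, q2, one_mul]
  · have q1 : e₁ * e₁ = 1 := by rcases h1 with h1 | h1 <;> rw [h1] <;> norm_num
    have q2 : e₂ * e₂ = 1 := by rcases h2 with h2 | h2 <;> rw [h2] <;> norm_num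
    refine ⟨fun p => (e₂ * p.2, e₁ * p.1), ⟨e₂, e₁, h2, h1, Or.inr fun p => rfl⟩,
      fun p => ?_, fun p => ?_⟩
    · rw [h]
      ext
      · simp only
        rw [← mul_assoc, q2, one_mul]
      · simp only
        rw [← mul_assoc, q1, one_mul]
    · rw [h]
      ext
      · simp only
        rw [← mul_assoc, q1, one_mul]
      · simp only
        rw [← mul_assoc, q2, one_mul]

theorem glu_cp_glue (n : ℕ) (i j : ℤ) (q : ℝ × ℝ) :
    cp n i j q = ((3 : ℝ) ^ n)⁻¹ • (q + ((i : ℝ), (j : ℝ))) := by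
  unfold cp
  ext
  · simp
    ring
  · simp
    ring

theorem glu_step_glue {L lam : ℝ} {m : ℕ} (hm : 1 ≤ m) (hlam : lam = (1 / 3) ^ m) {g : ℝ × ℝ → ℝ × ℝ}
    (hg : Good L lam Sq g) (n : ℕ) (u v : ℤ) {A : ℝ × ℝ → ℝ × ℝ} (hA : IsSym A) (z1 z2 : ℤ)
    (hD : ∀ q ∈ Dm, ((3 : ℝ) ^ n)⁻¹ • (A q + ((z1 : ℝ), (z2 : ℝ))) ∈ Sq)
    (hlow : ∀ q ∈ Dm, q.2 ≤ 0 → g (((3 : ℝ) ^ n)⁻¹ • (A q + ((z1 : ℝ), (z2 : ℝ)))) =
      lam • (((3 : ℝ) ^ n)⁻¹ • (A q + ((z1 : ℝ), (z2 : ℝ)))) + (lam / 3 ^ n) • ((u : ℝ), (v : ℝ))) :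
    ∀ q ∈ Dm, g (((3 : ℝ) ^ n)⁻¹ • (A q + ((z1 : ℝ), (z2 : ℝ)))) =
      lam • (((3 : ℝ) ^ n)⁻¹ • (A q + ((z1 : ℝ), (z2 : ℝ)))) + (lam / 3 ^ n) • ((u : ℝ), (v : ℝ)) := by
  obtain ⟨B, hB, hBA, hAB⟩ := glu_inv_glue hA
  have h3 : (3 : ℝ) ^ n ≠ 0 := by positivity
  have hgood : Good L lam Dm
      (fun q => (3 : ℝ) ^ n • B (g (((3 : ℝ) ^ n)⁻¹ • (A q + ((z1 : ℝ), (z2 : ℝ)))))) := by
    refine hg.trans n hA hB ((z1 : ℝ), (z2 : ℝ)) 0 0 hD ?_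
    intro q _
    rw [Int.cast_zero, ← Prod.zero_eq_mk, sub_zero]
  obtain ⟨z', w', hzw⟩ := glu_int_glue hB (z1 + u) (z2 + v)
  have hzw' : ((z' : ℝ), (w' : ℝ)) = B ((z1 : ℝ), (z2 : ℝ)) + B ((u : ℝ), (v : ℝ)) := by
    rw [← glu_add_glue hB, ← hzw]
    congr 1
    ext <;> simp
  have hst := step_up hm hlam hgood (z := z') (w := w') (by
    intro p hp hp2
    rw [hlow p hp hp2, hzw', glu_lin_glue hB, glu_smul_glue hB, glu_smul_glue hB, glu_add_glue hB, hBA,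
      div_eq_mul_inv]
    have e1 : (3 : ℝ) ^ n • (lam • ((3 : ℝ) ^ n)⁻¹ • (p + B ((z1 : ℝ), (z2 : ℝ))) +
        (lam * ((3 : ℝ) ^ n)⁻¹) • B ((u : ℝ), (v : ℝ))) =
        ((3 : ℝ) ^ n * ((3 : ℝ) ^ n)⁻¹) • (lam • (p + (B ((z1 : ℝ), (z2 : ℝ)) +
          B ((u : ℝ), (v : ℝ))))) := by module
    rw [e1, mul_inv_cancel₀ h3, one_smul])
  intro q hq
  have h1 := hst q hq
  have h2 : B (g (((3 : ℝ) ^ n)⁻¹ • (A q + ((z1 : ℝ), (z2 : ℝ))))) =
      ((3 : ℝ) ^ n)⁻¹ • (lam • (q + ((z' : ℝ), (w' : ℝ)))) := by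
    rw [← h1, smul_smul, inv_mul_cancel₀ h3, one_smul]
  have h4 := congrArg A h2
  rw [hAB] at h4
  rw [h4, glu_smul_glue hA, glu_smul_glue hA, glu_add_glue hA, hzw', glu_add_glue hA, hAB, hAB, div_eq_mul_inv]
  module

/-- the affine formula on a cell -/
def GluFE_glue (lam : ℝ) (g : ℝ × ℝ → ℝ × ℝ) (n : ℕ) (u v : ℤ) (N : ℕ) (a b : ℤ) : Prop :=
  ∀ q ∈ Sq, g (cp N a b q) = lam • cp N a b q + (lam / 3 ^ n) • ((u : ℝ), (v : ℝ))

theorem glu_adj_glue {L lam : ℝ} {m : ℕ} (hm : 1 ≤ m) (hlam : lam = (1 / 3) ^ m) {g : ℝ × ℝ → ℝ × ℝ}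
    (hg : Good L lam Sq g) (n : ℕ) (u v : ℤ) {A : ℝ × ℝ → ℝ × ℝ} (hA : IsSym A)
    (z1 z2 i j i' j' : ℤ)
    (H1 : ∀ q ∈ Dm, q.2 ≤ 0 → ∃ q' ∈ Sq, A q + ((z1 : ℝ), (z2 : ℝ)) = q' + ((i : ℝ), (j : ℝ)))
    (H2 : ∀ q ∈ Dm, 0 ≤ q.2 → ∃ q' ∈ Sq, A q + ((z1 : ℝ), (z2 : ℝ)) = q' + ((i' : ℝ), (j' : ℝ)))
    (H3 : ∀ q' ∈ Sq, ∃ q ∈ Dm, A q + ((z1 : ℝ), (z2 : ℝ)) = q' + ((i' : ℝ), (j' : ℝ)))
    (hP : ∀ q ∈ Sq, cp n i j q ∈ Sq) (hP' : ∀ q ∈ Sq, cp n i' j' q ∈ Sq)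
    (hFE : GluFE_glue lam g n u v n i j) : GluFE_glue lam g n u v n i' j' := by
  have hst := glu_step_glue hm hlam hg n u v hA z1 z2 (by
    intro q hq
    rcases le_total q.2 0 with h | h
    · obtain ⟨q', hq', e⟩ := H1 q hq h
      rw [e, ← glu_cp_glue]
      exact hP q' hq'
    · obtain ⟨q', hq', e⟩ := H2 q hq h
      rw [e, ← glu_cp_glue]
      exact hP' q' hq') (by
    intro q hq h
    obtain ⟨q', hq', e⟩ := H1 q hq h
    rw [e, ← glu_cp_glue]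
    exact hFE q' hq')
  intro q' hq'
  obtain ⟨q, hq, e⟩ := H3 q' hq'
  have h1 := hst q hq
  rw [e, ← glu_cp_glue] at h1
  exact h1

theorem glu_sym_id_glue : IsSym (fun p : ℝ × ℝ => (p.1, p.2)) :=
  ⟨1, 1, Or.inl rfl, Or.inl rfl, Or.inl fun p => by simp⟩

theorem glu_sym_fl_glue : IsSym (fun p : ℝ × ℝ => (p.1, -p.2)) :=
  ⟨1, -1, Or.inl rfl, Or.inr rfl, Or.inl fun p => by simp⟩

theorem glu_sym_sw_glue : IsSym (fun p : ℝ × ℝ => (p.2, p.1)) :=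
  ⟨1, 1, Or.inl rfl, Or.inl rfl, Or.inr fun p => by simp⟩

theorem glu_sym_ro_glue : IsSym (fun p : ℝ × ℝ => (-p.2, p.1)) :=
  ⟨-1, 1, Or.inr rfl, Or.inl rfl, Or.inr fun p => by simp⟩

theorem glu_up_glue {L lam : ℝ} {m : ℕ} (hm : 1 ≤ m) (hlam : lam = (1 / 3) ^ m) {g : ℝ × ℝ → ℝ × ℝ}
    (hg : Good L lam Sq g) (n : ℕ) (u v : ℤ) (i j i' j' : ℤ) (hi : i' = i) (hj : j' = j + 1)
    (hP : ∀ q ∈ Sq, cp n i j q ∈ Sq) (hP' : ∀ q ∈ Sq, cp n i' j' q ∈ Sq)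
    (hFE : GluFE_glue lam g n u v n i j) : GluFE_glue lam g n u v n i' j' := by
  subst hi hj
  refine glu_adj_glue hm hlam hg n u v glu_sym_id_glue i' (j + 1) i' j i' (j + 1) ?_ ?_ ?_ hP hP' hFE
  · intro q hq h
    obtain ⟨hX, h1, h2, h3, h4⟩ := hq
    refine ⟨q + (((0 : ℤ) : ℝ), ((1 : ℤ) : ℝ)), ⟨(X_add_int q 0 1).2 hX, ?_, ?_, ?_, ?_⟩, ?_⟩
    · simpa using h1
    · simpa using h2
    · simp; linarith
    · simp; linarith
    · ext <;> simp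
      ring
  · intro q hq h
    obtain ⟨hX, h1, h2, h3, h4⟩ := hq
    exact ⟨q, ⟨hX, h1, h2, h, h4⟩, rfl⟩
  · intro q hq
    obtain ⟨hX, h1, h2, h3, h4⟩ := hq
    exact ⟨q, ⟨hX, h1, h2, by linarith, h4⟩, rfl⟩

theorem glu_down_glue {L lam : ℝ} {m : ℕ} (hm : 1 ≤ m) (hlam : lam = (1 / 3) ^ m) {g : ℝ × ℝ → ℝ × ℝ}
    (hg : Good L lam Sq g) (n : ℕ) (u v : ℤ) (i j i' j' : ℤ) (hi : i' = i) (hj : j' = j - 1)
    (hP : ∀ q ∈ Sq, cp n i j q ∈ Sq) (hP' : ∀ q ∈ Sq, cp n i' j' q ∈ Sq)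
    (hFE : GluFE_glue lam g n u v n i j) : GluFE_glue lam g n u v n i' j' := by
  subst hi hj
  refine glu_adj_glue hm hlam hg n u v glu_sym_fl_glue i' j i' j i' (j - 1) ?_ ?_ ?_ hP hP' hFE
  · intro q hq h
    obtain ⟨hX, h1, h2, h3, h4⟩ := hq
    exact ⟨(q.1, -q.2), ⟨(X_sym glu_sym_fl_glue q).2 hX, h1, h2, by simpa using h,
      by simp only; linarith⟩, rfl⟩
  · intro q hq h
    obtain ⟨hX, h1, h2, h3, h4⟩ := hq
    refine ⟨(q.1, -q.2) + (((0 : ℤ) : ℝ), ((1 : ℤ) : ℝ)),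
      ⟨(X_add_int _ 0 1).2 ((X_sym glu_sym_fl_glue q).2 hX), ?_, ?_, ?_, ?_⟩, ?_⟩
    · simpa using h1
    · simpa using h2
    · simp; linarith
    · simp; linarith
    · ext <;> simp
  · intro q hq
    obtain ⟨hX, h1, h2, h3, h4⟩ := hq
    refine ⟨(q.1, -q.2) + (((0 : ℤ) : ℝ), ((1 : ℤ) : ℝ)),
      ⟨(X_add_int _ 0 1).2 ((X_sym glu_sym_fl_glue q).2 hX), ?_, ?_, ?_, ?_⟩, ?_⟩
    · simpa using h1
    · simpa using h2
    · simp; linarith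
    · simp; linarith
    · ext <;> simp
      ring

theorem glu_right_glue {L lam : ℝ} {m : ℕ} (hm : 1 ≤ m) (hlam : lam = (1 / 3) ^ m) {g : ℝ × ℝ → ℝ × ℝ}
    (hg : Good L lam Sq g) (n : ℕ) (u v : ℤ) (i j i' j' : ℤ) (hi : i' = i + 1) (hj : j' = j)
    (hP : ∀ q ∈ Sq, cp n i j q ∈ Sq) (hP' : ∀ q ∈ Sq, cp n i' j' q ∈ Sq)
    (hFE : GluFE_glue lam g n u v n i j) : GluFE_glue lam g n u v n i' j' := by
  subst hi hj
  refine glu_adj_glue hm hlam hg n u v glu_sym_sw_glue (i + 1) j' i j' (i + 1) j' ?_ ?_ ?_ hP hP' hFE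
  · intro q hq h
    obtain ⟨hX, h1, h2, h3, h4⟩ := hq
    refine ⟨(q.2, q.1) + (((1 : ℤ) : ℝ), ((0 : ℤ) : ℝ)),
      ⟨(X_add_int _ 1 0).2 ((X_sym glu_sym_sw_glue q).2 hX), ?_, ?_, ?_, ?_⟩, ?_⟩
    · simp; linarith
    · simp; linarith
    · simpa using h1
    · simpa using h2
    · ext <;> simp
      ring
  · intro q hq h
    obtain ⟨hX, h1, h2, h3, h4⟩ := hq
    exact ⟨(q.2, q.1), ⟨(X_sym glu_sym_sw_glue q).2 hX, h, h4, h1, h2⟩, rfl⟩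
  · intro q hq
    obtain ⟨hX, h1, h2, h3, h4⟩ := hq
    exact ⟨(q.2, q.1), ⟨(X_sym glu_sym_sw_glue q).2 hX, h3, h4, by simp only; linarith, h2⟩, rfl⟩

theorem glu_left_glue {L lam : ℝ} {m : ℕ} (hm : 1 ≤ m) (hlam : lam = (1 / 3) ^ m) {g : ℝ × ℝ → ℝ × ℝ}
    (hg : Good L lam Sq g) (n : ℕ) (u v : ℤ) (i j i' j' : ℤ) (hi : i' = i - 1) (hj : j' = j)
    (hP : ∀ q ∈ Sq, cp n i j q ∈ Sq) (hP' : ∀ q ∈ Sq, cp n i' j' q ∈ Sq)
    (hFE : GluFE_glue lam g n u v n i j) : GluFE_glue lam g n u v n i' j' := by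
  subst hi hj
  refine glu_adj_glue hm hlam hg n u v glu_sym_ro_glue i j' i j' (i - 1) j' ?_ ?_ ?_ hP hP' hFE
  · intro q hq h
    obtain ⟨hX, h1, h2, h3, h4⟩ := hq
    exact ⟨(-q.2, q.1), ⟨(X_sym glu_sym_ro_glue q).2 hX, by simpa using h, by simp only; linarith,
      h1, h2⟩, rfl⟩
  · intro q hq h
    obtain ⟨hX, h1, h2, h3, h4⟩ := hq
    refine ⟨(-q.2, q.1) + (((1 : ℤ) : ℝ), ((0 : ℤ) : ℝ)),
      ⟨(X_add_int _ 1 0).2 ((X_sym glu_sym_ro_glue q).2 hX), ?_, ?_, ?_, ?_⟩, ?_⟩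
    · simp; linarith
    · simp; linarith
    · simpa using h1
    · simpa using h2
    · ext <;> simp
  · intro q hq
    obtain ⟨hX, h1, h2, h3, h4⟩ := hq
    have hs : IsSym (fun p : ℝ × ℝ => (p.2, -p.1)) :=
      ⟨1, -1, Or.inl rfl, Or.inr rfl, Or.inr fun p => by simp⟩
    refine ⟨(q.2, -q.1) + (((0 : ℤ) : ℝ), ((1 : ℤ) : ℝ)),
      ⟨(X_add_int _ 0 1).2 ((X_sym hs q).2 hX), ?_, ?_, ?_, ?_⟩, ?_⟩
    · simpa using h3
    · simpa using h4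
    · simp; linarith
    · simp; linarith
    · ext <;> simp
      ring

theorem glu_zero_mem_glue : ((0 : ℝ), (0 : ℝ)) ∈ Sq :=
  ⟨X_of_K1 0 K_zero, le_rfl, zero_le_one, le_rfl, zero_le_one⟩

theorem glu_one_mem_glue : ((1 : ℝ), (1 : ℝ)) ∈ Sq :=
  ⟨X_of_K1 1 K_one, zero_le_one, le_rfl, zero_le_one, le_rfl⟩

theorem glu_third_mem_glue : ((1 / 3 : ℝ), (1 / 3 : ℝ)) ∈ Sq :=
  ⟨X_of_K1 (1 / 3) K_third, by norm_num, by norm_num, by norm_num, by norm_num⟩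

/-- corner subcells are present -/
theorem glu_corner_glue (k : ℕ) : ∀ (c d : ℤ), (c = 0 ∨ c = 3 ^ k - 1) → (d = 0 ∨ d = 3 ^ k - 1) →
    ∀ q ∈ Sq, cp k c d q ∈ Sq := by
  induction k with
  | zero =>
    intro c d hc hd q hq
    have hc0 : c = 0 := by rcases hc with h | h <;> simpa using h
    have hd0 : d = 0 := by rcases hd with h | h <;> simpa using h
    have e : cp 0 c d q = q := by
      rw [hc0, hd0]
      unfold cp
      ext <;> simp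
    rw [e]
    exact hq
  | succ k ih =>
    intro c d hc hd q hq
    have key : ∀ c : ℤ, (c = 0 ∨ c = 3 ^ (k + 1) - 1) → ∃ α c' : ℤ, (α = 0 ∨ α = 2) ∧
        (c' = 0 ∨ c' = 3 ^ k - 1) ∧ c = 3 ^ k * α + c' := by
      intro c hc
      rcases hc with h | h
      · exact ⟨0, 0, Or.inl rfl, Or.inl rfl, by rw [h]; ring⟩
      · exact ⟨2, 3 ^ k - 1, Or.inr rfl, Or.inr rfl, by rw [h]; ring⟩
    obtain ⟨α, c', hα, hc', e1⟩ := key c hc
    obtain ⟨β, d', hβ, hd', e2⟩ := key d hd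
    have h1 := ih c' d' hc' hd' q hq
    have h2 : cp 1 α β (cp k c' d' q) ∈ Sq := by
      refine Sq_sub h1 ?_ ?_ ?_
      · rcases hα with h | h <;> rw [h] <;> norm_num
      · rcases hβ with h | h <;> rw [h] <;> norm_num
      · rcases hα with h | h <;> rw [h] <;> norm_num
    rw [cp_cp 1 k, ← e1, ← e2, Nat.add_comm 1 k] at h2
    exact h2

theorem glu_block_glue {L lam : ℝ} {m : ℕ} (hm : 1 ≤ m) (hlam : lam = (1 / 3) ^ m) {g : ℝ × ℝ → ℝ × ℝ}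
    (hg : Good L lam Sq g) (n : ℕ) (u v : ℤ) : ∀ (k N : ℕ), N + k = n → ∀ a b : ℤ,
    (∀ q ∈ Sq, cp N a b q ∈ Sq) → ∀ c d : ℤ, 0 ≤ c → c < 3 ^ k → 0 ≤ d → d < 3 ^ k →
    (∀ q ∈ Sq, cp n (3 ^ k * a + c) (3 ^ k * b + d) q ∈ Sq) →
    GluFE_glue lam g n u v n (3 ^ k * a + c) (3 ^ k * b + d) → GluFE_glue lam g n u v N a b := by
  intro k
  induction k with
  | zero =>
    intro N hN a b hP c d hc0 hc1 hd0 hd1 hP' hFE
    have e1 : c = 0 := by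
      have : c < 1 := by simpa using hc1
      omega
    have e2 : d = 0 := by
      have : d < 1 := by simpa using hd1
      omega
    have e3 : N = n := by omega
    rw [e1, e2, add_zero, add_zero, pow_zero, one_mul, one_mul] at hFE
    rw [e3]
    exact hFE
  | succ k ih =>
    intro N hN a b hP c d hc0 hc1 hd0 hd1 hP' hFE
    have h3k : (0 : ℤ) < 3 ^ k := by positivity
    -- presence of subcells
    have hsub : ∀ α β : ℤ, (0 ≤ α ∧ α ≤ 2) → (0 ≤ β ∧ β ≤ 2) → ¬ (α = 1 ∧ β = 1) →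
        ∀ q ∈ Sq, cp (N + 1) (3 * a + α) (3 * b + β) q ∈ Sq := by
      intro α β hα hβ hαβ q hq
      have h1 := hP _ (Sq_sub hq hα hβ hαβ)
      rw [cp_cp N 1, pow_one] at h1
      exact h1
    -- level n subcells of level N+1 cells
    have hcell : ∀ (α β c d : ℤ) (q : ℝ × ℝ),
        cp (N + 1) (3 * a + α) (3 * b + β) (cp k c d q) =
          cp n (3 ^ k * (3 * a + α) + c) (3 ^ k * (3 * b + β) + d) q := by
      intro α β c d q
      rw [cp_cp (N + 1) k]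
      congr 1
      omega
    have hIH : ∀ α β : ℤ, (0 ≤ α ∧ α ≤ 2) → (0 ≤ β ∧ β ≤ 2) → ¬ (α = 1 ∧ β = 1) →
        ∀ c d : ℤ, 0 ≤ c → c < 3 ^ k → 0 ≤ d → d < 3 ^ k →
        (∀ q ∈ Sq, cp n (3 ^ k * (3 * a + α) + c) (3 ^ k * (3 * b + β) + d) q ∈ Sq) →
        GluFE_glue lam g n u v n (3 ^ k * (3 * a + α) + c) (3 ^ k * (3 * b + β) + d) →
        GluFE_glue lam g n u v (N + 1) (3 * a + α) (3 * b + β) := by
      intro α β hα hβ hαβ c d hc0 hc1 hd0 hd1 hP' hFE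
      exact ih (N + 1) (by omega) _ _ (hsub α β hα hβ hαβ) c d hc0 hc1 hd0 hd1 hP' hFE
    -- corners
    have hcor : ∀ α β : ℤ, (0 ≤ α ∧ α ≤ 2) → (0 ≤ β ∧ β ≤ 2) → ¬ (α = 1 ∧ β = 1) →
        ∀ c d : ℤ, (c = 0 ∨ c = 3 ^ k - 1) → (d = 0 ∨ d = 3 ^ k - 1) →
        ∀ q ∈ Sq, cp n (3 ^ k * (3 * a + α) + c) (3 ^ k * (3 * b + β) + d) q ∈ Sq := by
      intro α β hα hβ hαβ c d hc hd q hq
      rw [← hcell]
      exact hsub α β hα hβ hαβ _ (glu_corner_glue k c d hc hd q hq)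
    have hcorFE : ∀ α β : ℤ, GluFE_glue lam g n u v (N + 1) (3 * a + α) (3 * b + β) →
        ∀ c d : ℤ, (c = 0 ∨ c = 3 ^ k - 1) → (d = 0 ∨ d = 3 ^ k - 1) →
        GluFE_glue lam g n u v n (3 ^ k * (3 * a + α) + c) (3 ^ k * (3 * b + β) + d) := by
      intro α β h c d hc hd q hq
      rw [← hcell]
      exact h _ (glu_corner_glue k c d hc hd q hq)
    have hz : ∀ c : ℤ, (c = 0 ∨ c = 3 ^ k - 1) → 0 ≤ c ∧ c < 3 ^ k := by
      intro c hc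
      rcases hc with h | h <;> omega
    -- crossings
    have hR : ∀ α β : ℤ, (0 ≤ α ∧ α + 1 ≤ 2) → (β = 0 ∨ β = 2) →
        GluFE_glue lam g n u v (N + 1) (3 * a + α) (3 * b + β) →
        GluFE_glue lam g n u v (N + 1) (3 * a + (α + 1)) (3 * b + β) := by
      intro α β hα hβ h
      have v1 : 0 ≤ α ∧ α ≤ 2 := by omega
      have v2 : 0 ≤ β ∧ β ≤ 2 := by omega
      have v3 : 0 ≤ α + 1 ∧ α + 1 ≤ 2 := by omega
      have v4 : ¬ (α = 1 ∧ β = 1) := by omega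
      have v5 : ¬ (α + 1 = 1 ∧ β = 1) := by omega
      have c1 := hcor α β v1 v2 v4 (3 ^ k - 1) 0 (Or.inr rfl) (Or.inl rfl)
      have c2 := hcor (α + 1) β v3 v2 v5 0 0 (Or.inl rfl) (Or.inl rfl)
      have f1 := hcorFE α β h (3 ^ k - 1) 0 (Or.inr rfl) (Or.inl rfl)
      have f2 := glu_right_glue hm hlam hg n u v _ _ _ _
        (show 3 ^ k * (3 * a + (α + 1)) + 0 = 3 ^ k * (3 * a + α) + (3 ^ k - 1) + 1 by ring)
        (rfl : 3 ^ k * (3 * b + β) + 0 = 3 ^ k * (3 * b + β) + 0) c1 c2 f1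
      exact hIH (α + 1) β v3 v2 v5 0 0 le_rfl h3k le_rfl h3k c2 f2
    have hL : ∀ α β : ℤ, (0 ≤ α ∧ α + 1 ≤ 2) → (β = 0 ∨ β = 2) →
        GluFE_glue lam g n u v (N + 1) (3 * a + (α + 1)) (3 * b + β) →
        GluFE_glue lam g n u v (N + 1) (3 * a + α) (3 * b + β) := by
      intro α β hα hβ h
      have v1 : 0 ≤ α ∧ α ≤ 2 := by omega
      have v2 : 0 ≤ β ∧ β ≤ 2 := by omega
      have v3 : 0 ≤ α + 1 ∧ α + 1 ≤ 2 := by omega
      have v4 : ¬ (α = 1 ∧ β = 1) := by omega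
      have v5 : ¬ (α + 1 = 1 ∧ β = 1) := by omega
      have c1 := hcor α β v1 v2 v4 (3 ^ k - 1) 0 (Or.inr rfl) (Or.inl rfl)
      have c2 := hcor (α + 1) β v3 v2 v5 0 0 (Or.inl rfl) (Or.inl rfl)
      have f1 := hcorFE (α + 1) β h 0 0 (Or.inl rfl) (Or.inl rfl)
      have f2 := glu_left_glue hm hlam hg n u v _ _ _ _
        (show 3 ^ k * (3 * a + α) + (3 ^ k - 1) = 3 ^ k * (3 * a + (α + 1)) + 0 - 1 by ring)
        (rfl : 3 ^ k * (3 * b + β) + 0 = 3 ^ k * (3 * b + β) + 0) c2 c1 f1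
      exact hIH α β v1 v2 v4 (3 ^ k - 1) 0 (hz _ (Or.inr rfl)).1 (hz _ (Or.inr rfl)).2 le_rfl h3k
        c1 f2
    have hU : ∀ α β : ℤ, (α = 0 ∨ α = 2) → (0 ≤ β ∧ β + 1 ≤ 2) →
        GluFE_glue lam g n u v (N + 1) (3 * a + α) (3 * b + β) →
        GluFE_glue lam g n u v (N + 1) (3 * a + α) (3 * b + (β + 1)) := by
      intro α β hα hβ h
      have v1 : 0 ≤ α ∧ α ≤ 2 := by omega
      have v2 : 0 ≤ β ∧ β ≤ 2 := by omega
      have v3 : 0 ≤ β + 1 ∧ β + 1 ≤ 2 := by omega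
      have v4 : ¬ (α = 1 ∧ β = 1) := by omega
      have v5 : ¬ (α = 1 ∧ β + 1 = 1) := by omega
      have c1 := hcor α β v1 v2 v4 0 (3 ^ k - 1) (Or.inl rfl) (Or.inr rfl)
      have c2 := hcor α (β + 1) v1 v3 v5 0 0 (Or.inl rfl) (Or.inl rfl)
      have f1 := hcorFE α β h 0 (3 ^ k - 1) (Or.inl rfl) (Or.inr rfl)
      have f2 := glu_up_glue hm hlam hg n u v _ _ _ _
        (rfl : 3 ^ k * (3 * a + α) + 0 = 3 ^ k * (3 * a + α) + 0)
        (show 3 ^ k * (3 * b + (β + 1)) + 0 = 3 ^ k * (3 * b + β) + (3 ^ k - 1) + 1 by ring)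
        c1 c2 f1
      exact hIH α (β + 1) v1 v3 v5 0 0 le_rfl h3k le_rfl h3k c2 f2
    have hDn : ∀ α β : ℤ, (α = 0 ∨ α = 2) → (0 ≤ β ∧ β + 1 ≤ 2) →
        GluFE_glue lam g n u v (N + 1) (3 * a + α) (3 * b + (β + 1)) →
        GluFE_glue lam g n u v (N + 1) (3 * a + α) (3 * b + β) := by
      intro α β hα hβ h
      have v1 : 0 ≤ α ∧ α ≤ 2 := by omega
      have v2 : 0 ≤ β ∧ β ≤ 2 := by omega
      have v3 : 0 ≤ β + 1 ∧ β + 1 ≤ 2 := by omega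
      have v4 : ¬ (α = 1 ∧ β = 1) := by omega
      have v5 : ¬ (α = 1 ∧ β + 1 = 1) := by omega
      have c1 := hcor α β v1 v2 v4 0 (3 ^ k - 1) (Or.inl rfl) (Or.inr rfl)
      have c2 := hcor α (β + 1) v1 v3 v5 0 0 (Or.inl rfl) (Or.inl rfl)
      have f1 := hcorFE α (β + 1) h 0 0 (Or.inl rfl) (Or.inl rfl)
      have f2 := glu_down_glue hm hlam hg n u v _ _ _ _
        (rfl : 3 ^ k * (3 * a + α) + 0 = 3 ^ k * (3 * a + α) + 0)
        (show 3 ^ k * (3 * b + β) + (3 ^ k - 1) = 3 ^ k * (3 * b + (β + 1)) + 0 - 1 by ring)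
        c2 c1 f1
      exact hIH α β v1 v2 v4 0 (3 ^ k - 1) le_rfl h3k (hz _ (Or.inr rfl)).1 (hz _ (Or.inr rfl)).2
        c1 f2
    -- the initial cell
    have hex : ∀ c : ℤ, 0 ≤ c → c < 3 ^ (k + 1) → ∃ α c' : ℤ, (0 ≤ α ∧ α ≤ 2) ∧ 0 ≤ c' ∧ c' < 3 ^ k ∧
        c = 3 ^ k * α + c' := by
      intro c h0 h1
      refine ⟨c / 3 ^ k, c % 3 ^ k, ⟨Int.ediv_nonneg h0 h3k.le, ?_⟩, Int.emod_nonneg _ h3k.ne',
        Int.emod_lt_of_pos _ h3k, (Int.mul_ediv_add_emod c (3 ^ k)).symm⟩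
      have h2 : c / 3 ^ k < 3 := by
        apply Int.ediv_lt_of_lt_mul h3k
        rw [pow_succ] at h1
        linarith
      omega
    obtain ⟨c1, c0, hc1r, hc00, hc0l, hce⟩ := hex c hc0 hc1
    obtain ⟨d1, d0, hd1r, hd00, hd0l, hde⟩ := hex d hd0 hd1
    have ec : 3 ^ (k + 1) * a + c = 3 ^ k * (3 * a + c1) + c0 := by rw [hce]; ring
    have ed : 3 ^ (k + 1) * b + d = 3 ^ k * (3 * b + d1) + d0 := by rw [hde]; ring
    rw [ec, ed] at hP' hFE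
    have hne : ¬ (c1 = 1 ∧ d1 = 1) := by
      rintro ⟨h1, h2⟩
      have h3 := (hP' _ glu_third_mem_glue).1 N
      apply h3
      have hmid : ∀ (x y : ℤ), 0 ≤ y → y < 3 ^ k →
          Mid N ((((3 ^ k * (3 * x + 1) + y : ℤ) : ℝ) + 1 / 3) / 3 ^ n) := by
        intro x y hy0 hy1
        refine ⟨x, ?_⟩
        have hpow : (3 : ℝ) ^ n = 3 ^ (N + 1) * 3 ^ k := by
          rw [← pow_add]
          congr 1
          omega
        have e : (3 : ℝ) ^ (N + 1) * ((((3 ^ k * (3 * x + 1) + y : ℤ) : ℝ) + 1 / 3) / 3 ^ n) =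
            3 * x + 1 + ((y : ℝ) + 1 / 3) / 3 ^ k := by
          rw [hpow]
          push_cast
          field_simp
          ring
        rw [e]
        have hk0 : (0 : ℝ) < 3 ^ k := by positivity
        have hy0' : (0 : ℝ) ≤ y := by exact_mod_cast hy0
        have hy1' : (y : ℝ) + 1 ≤ 3 ^ k := by exact_mod_cast hy1
        constructor
        · have : 0 < ((y : ℝ) + 1 / 3) / 3 ^ k := by positivity
          linarith
        · have : ((y : ℝ) + 1 / 3) / 3 ^ k < 1 := by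
            rw [div_lt_one hk0]
            linarith
          linarith
      rw [h1, h2]
      exact ⟨hmid a c0 hc00 hc0l, hmid b d0 hd00 hd0l⟩
    have hstart := hIH c1 d1 hc1r hd1r hne c0 d0 hc00 hc0l hd00 hd0l hP' hFE
    -- all cells equivalent
    have h00 : GluFE_glue lam g n u v (N + 1) (3 * a + 0) (3 * b + 0) := by
      have t10 := hL 0 0 (by norm_num) (Or.inl rfl)
      have t20 := hL 1 0 (by norm_num) (Or.inl rfl)
      have t01 := hDn 0 0 (Or.inl rfl) (by norm_num)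
      have t02 := hDn 0 1 (Or.inl rfl) (by norm_num)
      have t12 := hL 0 2 (by norm_num) (Or.inr rfl)
      have t22 := hL 1 2 (by norm_num) (Or.inr rfl)
      have t21 := hDn 2 0 (Or.inr rfl) (by norm_num)
      norm_num at t10 t20 t01 t02 t12 t22 t21
      obtain ⟨g1, g2⟩ := hc1r
      obtain ⟨g3, g4⟩ := hd1r
      interval_cases c1 <;> interval_cases d1 <;> (try simp only [add_zero] at hstart) <;>
        (try simp only [add_zero])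
      · exact hstart
      · exact t01 hstart
      · exact t01 (t02 hstart)
      · exact t10 hstart
      · exact absurd ⟨rfl, rfl⟩ hne
      · exact t01 (t02 (t12 hstart))
      · exact t10 (t20 hstart)
      · exact t10 (t20 (t21 hstart))
      · exact t01 (t02 (t12 (t22 hstart)))
    have h10 := hR 0 0 (by norm_num) (Or.inl rfl) h00
    have h20 := hR (0 + 1) 0 (by norm_num) (Or.inl rfl) h10
    have h01 := hU 0 0 (Or.inl rfl) (by norm_num) h00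
    have h02 := hU 0 (0 + 1) (Or.inl rfl) (by norm_num) h01
    have h21 := hU (0 + 1 + 1) 0 (Or.inr rfl) (by norm_num) h20
    have h22 := hU (0 + 1 + 1) (0 + 1) (Or.inr rfl) (by norm_num) h21
    have h12 := hR 0 (0 + 1 + 1) (by norm_num) (Or.inr rfl) h02
    norm_num at h00 h10 h20 h01 h02 h21 h22 h12
    intro q hq
    obtain ⟨α, β, hα, hβ, hαβ, q', hq', e⟩ := Sq_cover hq
    have hF : GluFE_glue lam g n u v (N + 1) (3 * a + α) (3 * b + β) := by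
      obtain ⟨g1, g2⟩ := hα
      obtain ⟨g3, g4⟩ := hβ
      interval_cases α <;> interval_cases β <;> (try simp only [add_zero])
      · exact h00
      · exact h01
      · exact h02
      · exact h10
      · exact absurd ⟨rfl, rfl⟩ hαβ
      · exact h12
      · exact h20
      · exact h21
      · exact h22
    have e2 : cp N a b q = cp (N + 1) (3 * a + α) (3 * b + β) q' := by
      rw [e, cp_cp N 1, pow_one]
    rw [e2]
    exact hF q' hq'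

theorem glue {L lam : ℝ} (h0 : 0 < lam) (h1 : lam ≤ 1 / 3) {f : ℝ × ℝ → ℝ × ℝ} (hf : Good L lam Sq f)
    (n : ℕ) (i j : ℤ) (hcell : ∀ q ∈ Sq, cp n i j q ∈ Sq) (hex : Exact lam f n i j) :
    ∃ A : ℝ × ℝ → ℝ × ℝ, IsSym A ∧ ∃ b : ℝ × ℝ, ∀ p ∈ Sq, f p = lam • A p + b := by
  obtain ⟨m, hlam, A, hA, z, w, hzw⟩ := hex
  have hm : 1 ≤ m := by
    rcases Nat.eq_zero_or_pos m with h | h
    · rw [h, pow_zero] at hlam
      rw [hlam] at h1
      norm_num at h1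
    · exact h
  obtain ⟨B, hB, hBA, hAB⟩ := glu_inv_glue hA
  have hg : Good L lam Sq (fun p => B (f p)) := by
    refine hf.trans 0 glu_sym_id_glue hB (0, 0) 0 0 ?_ ?_
    · intro q hq
      have h00 : ((0 : ℝ), (0 : ℝ)) = 0 := rfl
      simpa [h00] using hq
    · intro q _
      have h00 : ((0 : ℝ), (0 : ℝ)) = 0 := rfl
      simp [h00]
  obtain ⟨z0, w0, hz0⟩ := glu_int_glue hB z w
  have hFE : GluFE_glue lam (fun p => B (f p)) n (z0 - i) (w0 - j) n (3 ^ n * 0 + i) (3 ^ n * 0 + j) := by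
    intro q hq
    rw [mul_zero, zero_add, zero_add]
    simp only
    rw [hzw q hq, glu_smul_glue hB, glu_add_glue hB, hBA, hz0, glu_cp_glue, div_eq_mul_inv]
    have e : (((z0 - i : ℤ) : ℝ), ((w0 - j : ℤ) : ℝ)) =
        ((z0 : ℝ), (w0 : ℝ)) - ((i : ℝ), (j : ℝ)) := by
      ext <;> simp
    rw [e]
    module
  have hi0 : 0 ≤ i := by
    have h2 := (hcell _ glu_zero_mem_glue).2.1
    unfold cp at h2
    simp only [add_zero] at h2
    have h3 : (0 : ℝ) < 3 ^ n := by positivity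
    have h4 : (0 : ℝ) ≤ i := by
      by_contra hcon
      have := div_neg_of_neg_of_pos (not_le.1 hcon) h3
      linarith
    exact_mod_cast h4
  have hj0 : 0 ≤ j := by
    have h2 := (hcell _ glu_zero_mem_glue).2.2.2.1
    unfold cp at h2
    simp only [add_zero] at h2
    have h3 : (0 : ℝ) < 3 ^ n := by positivity
    have h4 : (0 : ℝ) ≤ j := by
      by_contra hcon
      have := div_neg_of_neg_of_pos (not_le.1 hcon) h3
      linarith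
    exact_mod_cast h4
  have hi1 : i < 3 ^ n := by
    have h2 := (hcell _ glu_one_mem_glue).2.2.1
    unfold cp at h2
    simp only at h2
    have h3 : (0 : ℝ) < 3 ^ n := by positivity
    rw [div_le_one h3] at h2
    have h4 : i + 1 ≤ 3 ^ n := by exact_mod_cast h2
    omega
  have hj1 : j < 3 ^ n := by
    have h2 := (hcell _ glu_one_mem_glue).2.2.2.2
    unfold cp at h2
    simp only at h2
    have h3 : (0 : ℝ) < 3 ^ n := by positivity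
    rw [div_le_one h3] at h2
    have h4 : j + 1 ≤ 3 ^ n := by exact_mod_cast h2
    omega
  have hc0 : ∀ q : ℝ × ℝ, cp 0 0 0 q = q := by
    intro q
    unfold cp
    ext <;> simp
  have hfin := glu_block_glue hm hlam hg n (z0 - i) (w0 - j) n 0 (by omega) 0 0
    (fun q hq => by rw [hc0]; exact hq) i j hi0 hi1 hj0 hj1
    (by rw [mul_zero, zero_add, zero_add]; exact hcell) hFE
  refine ⟨A, hA, A ((lam / 3 ^ n) • (((z0 - i : ℤ) : ℝ), ((w0 - j : ℤ) : ℝ))), fun p hp => ?_⟩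
  have h2 := hfin p hp
  rw [hc0] at h2
  simp only at h2
  have h3 := congrArg A h2
  rw [hAB, glu_lin_glue hA] at h3
  exact h3

end

end Pool.Agent.Helper746.Car
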