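import Pool.Agent.Helper746.StepC

set_option autoImplicit false

namespace Pool.Agent.Helper746

/-- half side length of the squares of generation `k` -/
noncomputable def rho (k : ℕ) : ℝ := (1 / 1000) ^ k

lemma rho_pos (k : ℕ) : 0 < rho k := by unfold rho; positivity
lemma rho_succ (k : ℕ) : rho k = 1000 * rho (k + 1) := by unfold rho; rw [pow_succ]; ring
lemma rho_zero : rho 0 = 1 := by unfold rho; simp
lemma rho_anti {m n : ℕ} (h : m ≤ n) : rho n ≤ rho m := by
  unfold rho; exact pow_le_pow_of_le_one (by norm_num) (by norm_num) h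
lemma rho_mul (k : ℕ) : rho k * 1000 ^ k = 1 := by
  unfold rho; rw [← mul_pow]; norm_num

/-- centre coordinate of the square with index `i` -/
noncomputable def ctr (k i : ℕ) : ℝ := -1 + (2 * i + 1) * rho k

/-- the distinguished digits -/
def dig (i j : ℕ) : Prop := i % 1000 = 749 ∧ j % 1000 = 624

instance (i j : ℕ) : Decidable (dig i j) := by unfold dig; infer_instance

/-- the initial state -/
noncomputable def st0 : St where
  ph := Ph.U
  b1 := 0
  b2 := 0
  r := 1
  a := WithLp.toLp 2 ![1 / 10 ^ 3, 1 / 10 ^ 6, 0]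
  b := WithLp.toLp 2 ![1 / 10 ^ 3, 0, 0]
  c := WithLp.toLp 2 ![0, 0, -1 / 10 ^ 9]
  f := WithLp.toLp 2 ![0, 100000, 0]
  u := WithLp.toLp 2 ![0, 1, 0]
  s1 := 1 / 10 ^ 3
  s2 := 1 / 10 ^ 6
  s3 := 1 / 10 ^ 9
  t1 := 0
  t2 := 0

lemma norm_le_of_sq {x : E} {y : ℝ} (hy : 0 ≤ y) (h : dt x x ≤ y ^ 2) : ‖x‖ ≤ y := by
  rw [dt_self] at h; exact le_of_sq_le' hy h
lemma le_norm_of_sq {x : E} {y : ℝ} (h : y ^ 2 ≤ dt x x) : y ≤ ‖x‖ := by
  rw [dt_self] at h; exact le_of_sq_le' (norm_nonneg _) h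

lemma st0_inv : Inv st0 := by
  have hK := KH_ge
  have ef : ‖st0.f‖ = 100000 := by
    apply le_antisymm
    · apply norm_le_of_sq (by norm_num); simp [dt, st0]; norm_num
    · apply le_norm_of_sq; simp [dt, st0]; norm_num
  have eb : ‖st0.b‖ ≤ 11 / 10 * st0.s1 := by
    apply norm_le_of_sq (by norm_num [st0]); simp [dt, st0]; norm_num
  have ea : ‖st0.a‖ ≤ 11 / 10 * st0.s1 := by
    apply norm_le_of_sq (by norm_num [st0]); simp [dt, st0]; norm_num
  have eS : dt (cr st0.a st0.b) (cr st0.a st0.b) = (st0.s1 * st0.s2) ^ 2 := by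
    simp [dt, st0]; norm_num
  have range : ∀ x y : ℝ, |x| ≤ st0.r → |y| ≤ st0.r →
      99998 ≤ ‖st0.f + x • st0.a + y • st0.b‖ ∧ ‖st0.f + x • st0.a + y • st0.b‖ ≤ 100002 := by
    intro x y hx hy
    have h1 := norm_comb_le st0.a st0.b x y _ _ ea eb hx hy
    have h2 : ‖x • st0.a + y • st0.b‖ ≤ 1 := h1.trans (by norm_num [st0])
    rw [add_assoc]
    have h3 := norm_add_le st0.f (x • st0.a + y • st0.b)
    have h4 := norm_sub_le (st0.f + (x • st0.a + y • st0.b)) (x • st0.a + y • st0.b)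
    rw [add_sub_cancel_right] at h4
    constructor <;> linarith
  change InvU st0
  refine
    { hu := ?_, hr := by norm_num [st0], hs3 := by norm_num [st0], h1r := by norm_num [st0],
      h12 := by norm_num [st0], h12' := ?_, h23 := by norm_num [st0], h23' := ?_,
      lo := fun x y hx hy => (range x y hx hy).1,
      hi := fun x y hx hy => (range x y hx hy).2, ha := ?_, ha' := ea, hb := ?_, hb' := eb,
      hS := ?_, hT := ?_, hc := ?_, hSu := ?_, hau := ?_, hbu := ?_, hf := ?_ }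
  · apply le_antisymm
    · apply norm_le_of_sq (by norm_num); simp [dt, st0]
    · apply le_norm_of_sq; simp [dt, st0]
  · change (1 / 10 ^ 3 : ℝ) ≤ KH * (1 / 10 ^ 6); linarith
  · change (1 / 10 ^ 6 : ℝ) ≤ KH * (1 / 10 ^ 9); linarith
  · apply le_norm_of_sq; simp [dt, st0]; norm_num
  · apply le_norm_of_sq; simp [dt, st0]; norm_num
  · apply le_norm_of_sq; rw [eS]; norm_num [st0]
  · simp [T, dt, st0]; norm_num
  · apply norm_le_of_sq (by norm_num [st0]); simp [dt, st0]; norm_num
  · have : dt (cr st0.a st0.b) st0.u = 0 := by simp [dt, st0]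
    rw [this, abs_zero]; positivity
  · have e : dt st0.a st0.u = 1 / 10 ^ 6 := by simp [dt, st0]
    have : 1 / 10 ^ 3 ≤ ‖st0.a‖ := by
      apply le_norm_of_sq; simp [dt, st0]; norm_num
    rw [e, abs_of_pos (by norm_num)]
    linarith
  · have : dt st0.b st0.u = 0 := by simp [dt, st0]
    rw [this, abs_zero]; positivity
  · rw [ef]
    apply ext3 <;> simp [st0]

/-- the state attached to the square `(i, j)` of generation `k` -/
noncomputable def rc : ℕ → ℕ → ℕ → St
  | 0, _, _ => st0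
  | k + 1, i, j => if dig i j then
      (rc k (i / 1000) (j / 1000)).child (ctr (k + 1) i) (ctr (k + 1) j) (rho (k + 1))
    else rc k (i / 1000) (j / 1000)

lemma child_b1 (σ : St) (c1 c2 r' : ℝ) : (σ.child c1 c2 r').b1 = c1 := by
  cases hp : σ.ph
  · rw [child_U hp]
  · by_cases hA : |c1 - σ.b1| + |c2 - σ.b2| < σ.r
    · rw [child_O1 hp _ _ _ hA]
    · rw [child_O2 hp _ _ _ hA]
  · rw [child_C hp]
lemma child_b2 (σ : St) (c1 c2 r' : ℝ) : (σ.child c1 c2 r').b2 = c2 := by
  cases hp : σ.ph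
  · rw [child_U hp]
  · by_cases hA : |c1 - σ.b1| + |c2 - σ.b2| < σ.r
    · rw [child_O1 hp _ _ _ hA]
    · rw [child_O2 hp _ _ _ hA]
  · rw [child_C hp]
lemma child_r (σ : St) (c1 c2 r' : ℝ) : (σ.child c1 c2 r').r = r' := by
  cases hp : σ.ph
  · rw [child_U hp]
  · by_cases hA : |c1 - σ.b1| + |c2 - σ.b2| < σ.r
    · rw [child_O1 hp _ _ _ hA]
    · rw [child_O2 hp _ _ _ hA]
  · rw [child_C hp]

/-- arithmetic position of a square inside the cell of its state -/
structure LocAt (σ : St) (k i j : ℕ) : Prop where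
  h : ∃ n m N : ℤ, ctr k i = σ.b1 + n * rho k ∧ ctr k j = σ.b2 + m * rho k ∧
    σ.r = N * rho k ∧ |n| + 1 ≤ N ∧ |m| + 1 ≤ N

lemma ctr_succ (k i : ℕ) :
    ctr (k + 1) i = ctr k (i / 1000) + (2 * (i % 1000 : ℕ) - 999) * rho (k + 1) := by
  unfold ctr
  have h : (i : ℝ) = 1000 * (i / 1000 : ℕ) + (i % 1000 : ℕ) := by
    exact_mod_cast (Nat.div_add_mod i 1000).symm
  rw [rho_succ k]
  conv_lhs => rw [h]
  ring

lemma loc_pos {σ : St} {k i j : ℕ} (h : LocAt σ k (i / 1000) (j / 1000)) (hd : dig i j) :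
    Pos σ (ctr (k + 1) i - σ.b1) (ctr (k + 1) j - σ.b2) (rho (k + 1)) := by
  obtain ⟨n, m, N, h1, h2, h3, h4, h5⟩ := h.h
  have hr := rho_pos (k + 1)
  have e1 : ctr (k + 1) i - σ.b1 = ((1000 * n + 499 : ℤ) : ℝ) * rho (k + 1) := by
    rw [ctr_succ, h1, hd.1, rho_succ k]; push_cast; ring
  have e2 : ctr (k + 1) j - σ.b2 = ((1000 * m + 249 : ℤ) : ℝ) * rho (k + 1) := by
    rw [ctr_succ, h2, hd.2, rho_succ k]; push_cast; ring
  have e3 : σ.r = ((1000 * N : ℤ) : ℝ) * rho (k + 1) := by
    rw [h3, rho_succ k]; push_cast; ring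
  have a1 : |((1000 * n + 499 : ℤ) : ℝ) * rho (k + 1)| =
      ((|1000 * n + 499| : ℤ) : ℝ) * rho (k + 1) := by
    rw [abs_mul, abs_of_pos hr]; push_cast; ring
  have a2 : |((1000 * m + 249 : ℤ) : ℝ) * rho (k + 1)| =
      ((|1000 * m + 249| : ℤ) : ℝ) * rho (k + 1) := by
    rw [abs_mul, abs_of_pos hr]; push_cast; ring
  have key : ∀ A B : ℤ, A ≤ B → (A : ℝ) * rho (k + 1) ≤ (B : ℝ) * rho (k + 1) := by
    intro A B hAB
    exact mul_le_mul_of_nonneg_right (by exact_mod_cast hAB) hr.le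
  have hn := abs_cases n
  have hm := abs_cases m
  have hn' := abs_cases (1000 * n + 499)
  have hm' := abs_cases (1000 * m + 249)
  rw [e1, e2]
  constructor
  · exact hr
  · rw [e3]
    have := key 1 N (by have := abs_nonneg n; omega)
    push_cast at this ⊢
    linarith
  · rw [a1]
    have := key 100 (|1000 * n + 499|) (by omega)
    push_cast at this ⊢; linarith
  · rw [a2]
    have := key 100 (|1000 * m + 249|) (by omega)
    push_cast at this ⊢; linarith
  · rw [a1, e3]
    have := key (|1000 * n + 499| + 100) (1000 * N) (by omega)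
    push_cast at this ⊢; linarith
  · rw [a2, e3]
    have := key (|1000 * m + 249| + 100) (1000 * N) (by omega)
    push_cast at this ⊢; linarith
  · rw [a1, a2]
    have h : |1000 * n + 499| + 100 ≤ |1000 * m + 249| ∨
        |1000 * m + 249| + 100 ≤ |1000 * n + 499| := by omega
    rcases h with h | h
    · left; have := key _ _ h; push_cast at this ⊢; linarith
    · right; have := key _ _ h; push_cast at this ⊢; linarith
  · rw [a1, a2, e3]
    have h : |1000 * n + 499| + |1000 * m + 249| + 100 ≤ 1000 * N ∨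
        1000 * N + 100 ≤ |1000 * n + 499| + |1000 * m + 249| := by omega
    rcases h with h | h
    · left; have := key _ _ h; push_cast at this ⊢; linarith
    · right; have := key _ _ h; push_cast at this ⊢; linarith

lemma loc_succ {σ : St} {k i j : ℕ} (h : LocAt σ k (i / 1000) (j / 1000)) :
    LocAt σ (k + 1) i j := by
  obtain ⟨n, m, N, h1, h2, h3, h4, h5⟩ := h.h
  have hi : i % 1000 < 1000 := Nat.mod_lt _ (by norm_num)
  have hj : j % 1000 < 1000 := Nat.mod_lt _ (by norm_num)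
  have e1 := ctr_succ k i
  have e2 := ctr_succ k j
  generalize i % 1000 = p at *
  generalize j % 1000 = q at *
  refine ⟨1000 * n + (2 * p - 999), 1000 * m + (2 * q - 999),
    1000 * N, ?_, ?_, ?_, ?_, ?_⟩
  · rw [e1, h1, rho_succ k]; push_cast; ring
  · rw [e2, h2, rho_succ k]; push_cast; ring
  · rw [h3, rho_succ k]; push_cast; ring
  · have hn := abs_cases n
    have hn' := abs_cases (1000 * n + (2 * (p : ℤ) - 999))
    omega
  · have hn := abs_cases m
    have hn' := abs_cases (1000 * m + (2 * (q : ℤ) - 999))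
    omega

lemma div_lt_pow {k i : ℕ} (h : i < 1000 ^ (k + 1)) : i / 1000 < 1000 ^ k := by
  rw [pow_succ] at h
  exact Nat.div_lt_of_lt_mul (by linarith)

lemma rc_loc : ∀ k i j : ℕ, i < 1000 ^ k → j < 1000 ^ k → LocAt (rc k i j) k i j
  | 0, i, j, hi, hj => by
    have hi0 : i = 0 := by simpa using hi
    have hj0 : j = 0 := by simpa using hj
    subst hi0 hj0
    exact ⟨0, 0, 1, by simp [ctr, rc, st0, rho_zero], by simp [ctr, rc, st0, rho_zero],
      by simp [rc, st0, rho_zero], by simp, by simp⟩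
  | k + 1, i, j, hi, hj => by
    have ih := rc_loc k (i / 1000) (j / 1000) (div_lt_pow hi) (div_lt_pow hj)
    rw [rc]
    split_ifs with hd
    · exact ⟨0, 0, 1, by simp [child_b1], by simp [child_b2], by simp [child_r],
        by simp, by simp⟩
    · exact loc_succ ih

lemma rc_inv : ∀ k i j : ℕ, i < 1000 ^ k → j < 1000 ^ k → Inv (rc k i j)
  | 0, i, j, hi, hj => st0_inv
  | k + 1, i, j, hi, hj => by
    have ih := rc_inv k (i / 1000) (j / 1000) (div_lt_pow hi) (div_lt_pow hj)
    have il := rc_loc k (i / 1000) (j / 1000) (div_lt_pow hi) (div_lt_pow hj)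
    rw [rc]
    split_ifs with hd
    · exact ih.child (loc_pos il hd)
    · exact ih

lemma rc_dig {k i j : ℕ} (hd : dig i j) : rc (k + 1) i j =
    (rc k (i / 1000) (j / 1000)).child (ctr (k + 1) i) (ctr (k + 1) j) (rho (k + 1)) := by
  rw [rc, if_pos hd]
lemma rc_not_dig {k i j : ℕ} (hd : ¬ dig i j) :
    rc (k + 1) i j = rc k (i / 1000) (j / 1000) := by
  rw [rc, if_neg hd]

/-- active squares -/
def act (k i j : ℕ) : Prop := k = 0 ∨ dig i j

lemma act_cell {k i j : ℕ} (hi : i < 1000 ^ k) (hj : j < 1000 ^ k) (h : act k i j) :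
    (rc k i j).b1 = ctr k i ∧ (rc k i j).b2 = ctr k j ∧ (rc k i j).r = rho k := by
  rcases k with _ | k
  · have hi0 : i = 0 := by simpa using hi
    have hj0 : j = 0 := by simpa using hj
    subst hi0 hj0
    exact ⟨by simp [ctr, rc, st0, rho_zero], by simp [ctr, rc, st0, rho_zero],
      by simp [rc, st0, rho_zero]⟩
  · have hd : dig i j := by rcases h with h | h; · omega
                            · exact h
    rw [rc_dig hd]
    exact ⟨child_b1 _ _ _ _, child_b2 _ _ _ _, child_r _ _ _ _⟩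

end Pool.Agent.Helper746
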