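import Pool.Agent.Helper746.StepU

set_option autoImplicit false

namespace Pool.Agent.Helper746

lemma norm_comb_le (a b : E) (x y A r : ℝ) (ha : ‖a‖ ≤ A) (hb : ‖b‖ ≤ A) (hx : |x| ≤ r)
    (hy : |y| ≤ r) : ‖x • a + y • b‖ ≤ 2 * (A * r) := by
  have hA : 0 ≤ A := (norm_nonneg _).trans ha
  have hr : 0 ≤ r := (abs_nonneg _).trans hx
  calc ‖x • a + y • b‖ ≤ ‖x • a‖ + ‖y • b‖ := norm_add_le _ _
    _ = |x| * ‖a‖ + |y| * ‖b‖ := by rw [norm_smul, norm_smul]; rfl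
    _ ≤ r * A + r * A := by gcongr
    _ = _ := by ring

lemma g_one {σ : St} (h : ‖σ.f‖ < 100000) : σ.g = 1 := by unfold St.g; rw [if_pos h]
lemma g_neg {σ : St} (h : ¬ ‖σ.f‖ < 100000) : σ.g = -1 := by unfold St.g; rw [if_neg h]

/-- a push keeps the boundary values in a spherical shell -/
lemma range_push {σ : St} (hB : Base σ) (ha : ‖σ.a‖ ≤ 13 / 10 * σ.s1)
    (hb : ‖σ.b‖ ≤ 13 / 10 * σ.s1) {x y : ℝ} (hx : |x| ≤ σ.r) (hy : |y| ≤ σ.r) (V : E) (t : ℝ)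
    (ht : 0 ≤ t) (htV : t * ‖V‖ ≤ 115 / 100)
    (h1 : σ.g = 1 → 0 ≤ dt (σ.f + x • σ.a + y • σ.b) V)
    (h2 : σ.g = -1 → t * ‖V‖ ^ 2 ≤ -2 * dt (σ.f + x • σ.a + y • σ.b) V) :
    99998 ≤ ‖σ.f + x • σ.a + y • σ.b + t • V‖ ∧ ‖σ.f + x • σ.a + y • σ.b + t • V‖ ≤ 100002 := by
  have hlo := hB.lo x y hx hy
  have hhi := hB.hi x y hx hy
  have hd : ‖x • σ.a + y • σ.b‖ ≤ 1 / 100 := by
    have := norm_comb_le σ.a σ.b x y _ _ ha hb hx hy
    have := hB.h1r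
    nlinarith
  set P := σ.f + x • σ.a + y • σ.b with hP
  have hPf : P = σ.f + (x • σ.a + y • σ.b) := by rw [hP, add_assoc]
  have e1 : ‖P‖ ≤ ‖σ.f‖ + 1 / 100 := by
    rw [hPf]; exact (norm_add_le _ _).trans (by linarith)
  have e2 : ‖σ.f‖ - 1 / 100 ≤ ‖P‖ := by
    have : ‖σ.f‖ ≤ ‖P‖ + ‖x • σ.a + y • σ.b‖ := by
      have := norm_sub_le P (x • σ.a + y • σ.b)
      rwa [hPf, add_sub_cancel_right, ← hPf] at this
    linarith
  have htn : ‖t • V‖ ≤ 115 / 100 := by rw [norm_smul, Real.norm_of_nonneg ht]; exact htV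
  have e3 : ‖P + t • V‖ ≤ ‖P‖ + 115 / 100 := (norm_add_le _ _).trans (by linarith)
  have e4 : ‖P‖ - 115 / 100 ≤ ‖P + t • V‖ := by
    have : ‖P‖ ≤ ‖P + t • V‖ + ‖t • V‖ := by
      have := norm_sub_le (P + t • V) (t • V)
      rwa [add_sub_cancel_right] at this
    linarith
  have e5 : ‖P + t • V‖ ^ 2 = ‖P‖ ^ 2 + t * (2 * dt P V + t * ‖V‖ ^ 2) := by
    rw [norm_add_sq', norm_smul, dt_smul_right, Real.norm_of_nonneg ht]; ring
  by_cases hf : ‖σ.f‖ < 100000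
  · have h1' := h1 (g_one hf)
    refine ⟨?_, by linarith⟩
    refine hlo.trans (le_of_sq_le' (norm_nonneg _) ?_)
    rw [e5]
    have : 0 ≤ t * (2 * dt P V + t * ‖V‖ ^ 2) := by positivity
    linarith
  · have h2' := h2 (g_neg hf)
    refine ⟨by push Not at hf; linarith, ?_⟩
    refine (le_of_sq_le' (norm_nonneg _) ?_ : ‖P + t • V‖ ≤ ‖P‖).trans hhi
    rw [e5]
    nlinarith

/-- the choice of the face of the square hat -/
noncomputable def m1 (X Y : ℝ) : ℝ := if |Y| < |X| then sgn X else 0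
/-- the choice of the face of the square hat -/
noncomputable def m2 (X Y : ℝ) : ℝ := if |Y| < |X| then 0 else sgn Y

lemma IsE_m (X Y : ℝ) : IsE (m1 X Y) (m2 X Y) := by
  unfold m1 m2 IsE; split_ifs
  · left; exact ⟨sgn_or X, rfl⟩
  · right; exact ⟨rfl, sgn_or Y⟩

lemma m_mul (X Y : ℝ) : m1 X Y * X + m2 X Y * Y = max |X| |Y| := by
  unfold m1 m2; split_ifs with h
  · rw [sgn_mul_self, max_eq_left h.le]; ring
  · rw [sgn_mul_self, max_eq_right (not_lt.1 h)]; ring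

lemma sgn_mul_near {X x r' : ℝ} (hX : r' ≤ |X|) (hx : |x| ≤ r') :
    0 ≤ sgn X * (X + x) := by
  have h1 := abs_le.1 hx
  unfold sgn; split_ifs with h
  · rw [abs_of_pos h] at hX; linarith
  · rw [abs_of_nonpos (not_lt.1 h)] at hX; linarith

lemma IsE.mul_le {n1 n2 : ℝ} (h : IsE n1 n2) {x y r : ℝ} (hx : |x| ≤ r) (hy : |y| ≤ r) :
    n1 * x + n2 * y ≤ r := by
  have h1 := abs_le.1 hx
  have h2 := abs_le.1 hy
  rcases h with ⟨h | h, h'⟩ | ⟨h, h' | h'⟩ <;> rw [h, h'] <;> linarith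

lemma Pos.near {σ : St} {X Y r' : ℝ} (h : Pos σ X Y r') {x y : ℝ} (hx : |x| ≤ r')
    (hy : |y| ≤ r') : |X + x| ≤ σ.r ∧ |Y + y| ≤ σ.r := by
  have := h.hr'
  constructor
  · exact (abs_add_le _ _).trans (by linarith [h.hX'])
  · exact (abs_add_le _ _).trans (by linarith [h.hY'])

lemma Pos.m_nonneg {σ : St} {X Y r' : ℝ} (h : Pos σ X Y r') {x y : ℝ} (hx : |x| ≤ r')
    (hy : |y| ≤ r') : 0 ≤ m1 X Y * (X + x) + m2 X Y * (Y + y) := by
  have := h.hr'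
  unfold m1 m2; split_ifs
  · have := sgn_mul_near (X := X) (x := x) (r' := r') (by linarith [h.hX]) hx
    linarith
  · have := sgn_mul_near (X := Y) (x := y) (r' := r') (by linarith [h.hY]) hy
    linarith

lemma Pos.sr {σ : St} (hB : Base σ) {X Y r' : ℝ} (h : Pos σ X Y r') : σ.s * r' ≤ 1 / 1000 := by
  have h1 := hB.s_r
  have h2 := hB.s_pos
  have h3 := h.h0
  have : σ.s * r' ≤ σ.s * (σ.r / 1000) := mul_le_mul_of_nonneg_left h3 h2.le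
  linarith

lemma U_dtPV {σ : St} (h : InvU σ) (hp : σ.ph = Ph.U) {x y : ℝ} (hx : |x| ≤ σ.r)
    (hy : |y| ≤ σ.r) :
    (σ.g = 1 → 0 ≤ dt (σ.f + x • σ.a + y • σ.b) σ.V) ∧
    (σ.g = -1 → dt (σ.f + x • σ.a + y • σ.b) σ.V ≤ -1000 * σ.s) := by
  have hs := h.s_pos
  have hf0 := h.lo 0 0 (by simpa using h.hr.le) (by simpa using h.hr.le)
  simp only [zero_smul, add_zero] at hf0
  have hd : ‖x • σ.a + y • σ.b‖ ≤ 1 / 100 := by
    have := norm_comb_le σ.a σ.b x y _ _ h.ha' h.hb' hx hy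
    have := h.h1r
    nlinarith
  have h1 : |dt (x • σ.a + y • σ.b) σ.V| ≤ 1 / 100 * (1141 / 1000 * σ.s) :=
    (abs_dt_le _ _).trans (mul_le_mul hd (U_Vhi h hp) (norm_nonneg _) (by norm_num))
  have h2 := abs_le.1 h1
  have h3 : dt σ.f σ.V = ‖σ.f‖ * (σ.s * (σ.g - 1 / 2 * dt σ.N σ.u)) := by
    conv_lhs => rw [h.hf]
    rw [dt_smul_left, U_dtu h hp]
  have h4 := abs_le.1 (abs_N_u h.Spos h.hSu)
  rw [add_assoc, dt_add_left, h3]
  constructor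
  · intro hg; rw [hg]
    have : 99998 * (σ.s * (9 / 10)) ≤ ‖σ.f‖ * (σ.s * (1 - 1 / 2 * dt σ.N σ.u)) := by
      apply mul_le_mul hf0 _ (by positivity) (norm_nonneg _)
      apply mul_le_mul_of_nonneg_left _ hs.le
      linarith [h4.2]
    linarith [h2.1]
  · intro hg; rw [hg]
    have : 99998 * (σ.s * (9 / 10)) ≤ ‖σ.f‖ * (σ.s * (1 + 1 / 2 * dt σ.N σ.u)) := by
      apply mul_le_mul hf0 _ (by positivity) (norm_nonneg _)
      apply mul_le_mul_of_nonneg_left _ hs.le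
      linarith [h4.1]
    have e : ‖σ.f‖ * (σ.s * (-1 - 1 / 2 * dt σ.N σ.u)) =
      - (‖σ.f‖ * (σ.s * (1 + 1 / 2 * dt σ.N σ.u))) := by ring
    rw [e]
    linarith [h2.2]

/-- values on the bottom plane and slightly above after a push of phase `U` -/
lemma U_range {σ : St} (h : InvU σ) (hp : σ.ph = Ph.U) {x y : ℝ} (hx : |x| ≤ σ.r)
    (hy : |y| ≤ σ.r) (t : ℝ) (ht : 0 ≤ t) (ht' : t ≤ σ.r) :
    99998 ≤ ‖σ.f + x • σ.a + y • σ.b + t • σ.V‖ ∧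
      ‖σ.f + x • σ.a + y • σ.b + t • σ.V‖ ≤ 100002 := by
  have hs := h.s_pos
  have hts : t * σ.s ≤ 1 := le_trans (mul_le_mul_of_nonneg_right ht' hs.le)
    (by linarith [h.s_r])
  have hV := U_Vhi h hp
  obtain ⟨h1, h2⟩ := U_dtPV h hp hx hy
  apply range_push h.toBase (h.ha'.trans (by linarith [h.hs1]))
    (h.hb'.trans (by linarith [h.hs1])) hx hy _ t ht _ h1
  · intro hg
    have h3 := h2 hg
    have h4 : t * ‖σ.V‖ ^ 2 ≤ t * (1141 / 1000 * σ.s) ^ 2 := by gcongr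
    nlinarith [mul_le_mul_of_nonneg_right hts hs.le]
  · have : t * ‖σ.V‖ ≤ t * (1141 / 1000 * σ.s) := by gcongr
    linarith

lemma child_U {σ : St} (hp : σ.ph = Ph.U) (c1 c2 r' : ℝ) : σ.child c1 c2 r' =
    { ph := Ph.O, b1 := c1, b2 := c2, r := r',
      a := σ.a - m1 (c1 - σ.b1) (c2 - σ.b2) • σ.V,
      b := σ.b - m2 (c1 - σ.b1) (c2 - σ.b2) • σ.V, c := σ.c - (1 : ℝ) • σ.V,
      f := σ.f + (c1 - σ.b1) • σ.a + (c2 - σ.b2) • σ.b +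
        (σ.r - m1 (c1 - σ.b1) (c2 - σ.b2) * (c1 - σ.b1) -
          m2 (c1 - σ.b1) (c2 - σ.b2) * (c2 - σ.b2)) • σ.V, u := σ.u,
      s1 := σ.s, s2 := σ.s1, s3 := σ.s2,
      t1 := m1 (c1 - σ.b1) (c2 - σ.b2), t2 := m2 (c1 - σ.b1) (c2 - σ.b2) } := by
  unfold St.child
  rw [hp]; rfl

lemma push_w (a b V : E) (n1 n2 q1 q2 : ℝ) :
    q2 • (a - n1 • V) - q1 • (b - n2 • V) =
      (q1 * n2 - q2 * n1) • V + (q2 • a - q1 • b) := by
  module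

theorem inv_child_U {σ : St} (h : InvU σ) (hp : σ.ph = Ph.U) {c1 c2 r' : ℝ}
    (hpos : Pos σ (c1 - σ.b1) (c2 - σ.b2) r') : InvO (σ.child c1 c2 r') := by
  rw [child_U hp]
  set X := c1 - σ.b1
  set Y := c2 - σ.b2
  set n1 := m1 X Y with hn1
  set n2 := m2 X Y with hn2
  have hn : IsE n1 n2 := IsE_m X Y
  have hw := WU_of h hn
  have hs := h.s_pos
  have hs1 := h.hs1
  have hs2 := h.hs2
  have hs3 := h.hs3
  have hsge := h.s_ge
  have hVlo := U_Vlo h hp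
  have hVhi := U_Vhi h hp
  have hsr := Pos.sr h.toBase hpos
  have hrr := h.s_r
  have hS' : cr (σ.a - n1 • σ.V) (σ.b - n2 • σ.V) =
      cr σ.a σ.b + cr σ.V (n2 • σ.a - n1 • σ.b) := cr_push _ _ _ _ _
  have hr' := hpos.hr'
  have key : ∀ x y : ℝ, |x| ≤ r' → |y| ≤ r' →
      99998 ≤ ‖σ.f + X • σ.a + Y • σ.b + (σ.r - n1 * X - n2 * Y) • σ.V +
        x • (σ.a - n1 • σ.V) + y • (σ.b - n2 • σ.V)‖ ∧
      ‖σ.f + X • σ.a + Y • σ.b + (σ.r - n1 * X - n2 * Y) • σ.V +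
        x • (σ.a - n1 • σ.V) + y • (σ.b - n2 • σ.V)‖ ≤ 100002 := by
    intro x y hx hy
    obtain ⟨hx1, hy1⟩ := hpos.near hx hy
    have e : σ.f + X • σ.a + Y • σ.b + (σ.r - n1 * X - n2 * Y) • σ.V +
        x • (σ.a - n1 • σ.V) + y • (σ.b - n2 • σ.V) =
        σ.f + (X + x) • σ.a + (Y + y) • σ.b + (σ.r - (n1 * (X + x) + n2 * (Y + y))) • σ.V := by
      module
    rw [e]
    apply U_range h hp hx1 hy1
    · have := hn.mul_le hx1 hy1; linarith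
    · have := hpos.m_nonneg hx hy; linarith
  have hq : ∀ q1 q2 : ℝ, IsS q1 → IsS q2 → |q1 * n2 - q2 * n1| = 1 := by
    intro q1 q2 h1 h2
    rcases hn with ⟨h | h, h'⟩ | ⟨h, h' | h'⟩ <;> rcases h1 with h1 | h1 <;>
      rcases h2 with h2 | h2 <;> rw [h, h', h1, h2] <;> norm_num
  have hrest : ∀ q1 q2 : ℝ, IsS q1 → IsS q2 → ‖q2 • σ.a - q1 • σ.b‖ ≤ 22 / 10000 * σ.s := by
    intro q1 q2 h1 h2
    have e1 : |q1| ≤ 1 := by rcases h1 with h1 | h1 <;> simp [h1]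
    have e2 : |q2| ≤ 1 := by rcases h2 with h1 | h1 <;> simp [h1]
    calc ‖q2 • σ.a - q1 • σ.b‖ ≤ ‖q2 • σ.a‖ + ‖q1 • σ.b‖ := norm_sub_le _ _
      _ = |q2| * ‖σ.a‖ + |q1| * ‖σ.b‖ := by rw [norm_smul, norm_smul]; rfl
      _ ≤ 1 * (11 / 10 * σ.s1) + 1 * (11 / 10 * σ.s1) := by
          have := h.ha'; have := h.hb'; gcongr
      _ ≤ _ := by linarith
  refine
    { hu := h.hu, hr := hr', hs3 := hs2, h1r := hsr, h12 := hsge, h12' := h.s_le, h23 := h.h12,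
      h23' := h.h12', lo := fun x y hx hy => (key x y hx hy).1,
      hi := fun x y hx hy => (key x y hx hy).2, ha' := ?_, hb' := ?_, ht := hn, ha0 := ?_,
      hb0 := ?_, hw := ?_, hw' := ?_, hTw := ?_, hS := ?_, hT := ?_, hSu := ?_, hc := ?_,
      hf := ?_ }
  · change ‖σ.a - n1 • σ.V‖ ≤ 13 / 10 * σ.s
    calc ‖σ.a - n1 • σ.V‖ ≤ ‖σ.a‖ + ‖n1 • σ.V‖ := norm_sub_le _ _
      _ = ‖σ.a‖ + |n1| * ‖σ.V‖ := by rw [norm_smul]; rfl
      _ ≤ 11 / 10 * σ.s1 + 1 * (1141 / 1000 * σ.s) := by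
        have := h.ha'; have := hn.abs1; gcongr
      _ ≤ _ := by linarith
  · change ‖σ.b - n2 • σ.V‖ ≤ 13 / 10 * σ.s
    calc ‖σ.b - n2 • σ.V‖ ≤ ‖σ.b‖ + ‖n2 • σ.V‖ := norm_sub_le _ _
      _ = ‖σ.b‖ + |n2| * ‖σ.V‖ := by rw [norm_smul]; rfl
      _ ≤ 11 / 10 * σ.s1 + 1 * (1141 / 1000 * σ.s) := by
        have := h.hb'; have := hn.abs2; gcongr
      _ ≤ _ := by linarith
  · intro h0
    change n1 = 0 at h0
    change ‖σ.a - n1 • σ.V‖ ≤ 11 / 10 * σ.s1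
    rw [h0]; simpa using h.ha'
  · intro h0
    change n2 = 0 at h0
    change ‖σ.b - n2 • σ.V‖ ≤ 11 / 10 * σ.s1
    rw [h0]; simpa using h.hb'
  · intro q1 q2 h1 h2
    change 108 / 100 * σ.s ≤ ‖q2 • (σ.a - n1 • σ.V) - q1 • (σ.b - n2 • σ.V)‖
    rw [push_w]
    have e1 : ‖(q1 * n2 - q2 * n1) • σ.V‖ = ‖σ.V‖ := by
      rw [norm_smul, Real.norm_eq_abs, hq q1 q2 h1 h2, one_mul]
    have e2 := norm_sub_le ((q1 * n2 - q2 * n1) • σ.V + (q2 • σ.a - q1 • σ.b))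
      (q2 • σ.a - q1 • σ.b)
    rw [add_sub_cancel_right, e1] at e2
    have := hrest q1 q2 h1 h2
    linarith
  · intro q1 q2 h1 h2
    change ‖q2 • (σ.a - n1 • σ.V) - q1 • (σ.b - n2 • σ.V)‖ ≤ 116 / 100 * σ.s
    rw [push_w]
    have e1 : ‖(q1 * n2 - q2 * n1) • σ.V‖ = ‖σ.V‖ := by
      rw [norm_smul, Real.norm_eq_abs, hq q1 q2 h1 h2, one_mul]
    have e2 := norm_add_le ((q1 * n2 - q2 * n1) • σ.V) (q2 • σ.a - q1 • σ.b)
    rw [e1] at e2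
    have := hrest q1 q2 h1 h2
    linarith
  · intro q1 q2 h1 h2
    change |T (cr (σ.a - n1 • σ.V) (σ.b - n2 • σ.V))
      (q2 • (σ.a - n1 • σ.V) - q1 • (σ.b - n2 • σ.V)) σ.u| ≤
      18 / 1000 * (‖cr (σ.a - n1 • σ.V) (σ.b - n2 • σ.V)‖ * σ.s)
    rw [push_w, hS']
    set S' := cr σ.a σ.b + cr σ.V (n2 • σ.a - n1 • σ.b) with hS''
    rw [T_add_mid, T_smul_mid]
    have e1 := U_TS'V h hp hw
    rw [← hS''] at e1
    have e2 : |(q1 * n2 - q2 * n1) * T S' σ.V σ.u| = |T S' σ.V σ.u| := by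
      rw [abs_mul, hq q1 q2 h1 h2, one_mul]
    have e3 : |T S' (q2 • σ.a - q1 • σ.b) σ.u| ≤ ‖S'‖ * (22 / 10000 * σ.s) := by
      have := abs_T_le S' (q2 • σ.a - q1 • σ.b) σ.u
      rw [h.hu, mul_one] at this
      exact this.trans (mul_le_mul_of_nonneg_left (hrest q1 q2 h1 h2) (norm_nonneg _))
    have e4 := abs_add_le ((q1 * n2 - q2 * n1) * T S' σ.V σ.u) (T S' (q2 • σ.a - q1 • σ.b) σ.u)
    have e5 : 0 ≤ ‖S'‖ * σ.s := by positivity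
    rw [e2] at e4
    linarith
  · change 86 / 100 * (σ.s * σ.s1) ≤ ‖cr (σ.a - n1 • σ.V) (σ.b - n2 • σ.V)‖
    rw [hS']
    have := U_S'lo h hp hw
    have e5 : 0 ≤ σ.s * σ.s1 := by positivity
    linarith
  · change 2 / 10 * (σ.s * σ.s1 * σ.s2) ≤
      T (σ.a - n1 • σ.V) (σ.b - n2 • σ.V) (σ.c - (1 : ℝ) • σ.V)
    have := U_det h hp hn
    have e5 : 0 ≤ σ.s * σ.s1 * σ.s2 := by positivity
    linarith
  · change |dt (cr (σ.a - n1 • σ.V) (σ.b - n2 • σ.V)) σ.u| ≤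
      5 / 10 * ‖cr (σ.a - n1 • σ.V) (σ.b - n2 • σ.V)‖
    rw [hS']
    exact U_S'u h hp hw
  · change ‖σ.c - (1 : ℝ) • σ.V - n1 • (σ.a - n1 • σ.V) - n2 • (σ.b - n2 • σ.V)‖ ≤
      12 / 10 * σ.s1
    have e : σ.c - (1 : ℝ) • σ.V - n1 • (σ.a - n1 • σ.V) - n2 • (σ.b - n2 • σ.V) =
        σ.c - (n1 • σ.a + n2 • σ.b) + (n1 ^ 2 + n2 ^ 2 - 1) • σ.V := by module
    rw [e, hn.sq, sub_self, zero_smul, add_zero]
    have e2 : ‖n1 • σ.a + n2 • σ.b‖ ≤ 11 / 10 * σ.s1 := by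
      have := h.ha'; have := h.hb'
      rcases hn with ⟨h | h, h'⟩ | ⟨h, h' | h'⟩ <;> rw [h, h'] <;> simpa
    have e3 := norm_sub_le σ.c (n1 • σ.a + n2 • σ.b)
    have := h.hc
    have := h.h12
    have := h.h23
    linarith
  · change ‖σ.f + X • σ.a + Y • σ.b + (σ.r - n1 * X - n2 * Y) • σ.V - (100000 : ℝ) • σ.u‖ ≤
      4 - 4 * (σ.s * r')
    have e0 : σ.f + X • σ.a + Y • σ.b + (σ.r - n1 * X - n2 * Y) • σ.V - (100000 : ℝ) • σ.u =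
        (‖σ.f‖ - 100000) • σ.u + (X • σ.a + Y • σ.b) + (σ.r - (n1 * X + n2 * Y)) • σ.V := by
      conv_lhs => rw [h.hf]
      module
    rw [e0]
    have hlo := h.lo 0 0 (by simpa using h.hr.le) (by simpa using h.hr.le)
    have hhi := h.hi 0 0 (by simpa using h.hr.le) (by simpa using h.hr.le)
    simp only [zero_smul, add_zero] at hlo hhi
    obtain ⟨hX, hY⟩ := hpos.near (x := 0) (y := 0) (by simpa using hr'.le) (by simpa using hr'.le)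
    rw [add_zero] at hX hY
    have e1 : ‖(‖σ.f‖ - 100000) • σ.u‖ ≤ 2 := by
      rw [norm_smul, h.hu, mul_one, Real.norm_eq_abs, abs_le]; constructor <;> linarith
    have e2 := norm_comb_le σ.a σ.b X Y _ _ h.ha' h.hb' hX hY
    have e3 : ‖(σ.r - (n1 * X + n2 * Y)) • σ.V‖ ≤ 1141 / 1000 := by
      have a1 := hn.mul_le hX hY
      have a2 := hpos.m_nonneg (x := 0) (y := 0) (by simpa using hr'.le) (by simpa using hr'.le)
      rw [add_zero, add_zero] at a2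
      rw [norm_smul, Real.norm_of_nonneg (by linarith)]
      calc (σ.r - (n1 * X + n2 * Y)) * ‖σ.V‖ ≤ σ.r * (1141 / 1000 * σ.s) := by
            apply mul_le_mul _ hVhi (norm_nonneg _) h.hr.le
            linarith
        _ ≤ _ := by linarith
    have e4 := norm_add₃_le (a := (‖σ.f‖ - 100000) • σ.u) (b := X • σ.a + Y • σ.b)
      (c := (σ.r - (n1 * X + n2 * Y)) • σ.V)
    have := h.h1r
    linarith

end Pool.Agent.Helper746
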