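import Pool.Agent.Helper746.Vec

set_option autoImplicit false

namespace Pool.Agent.Helper746

lemma exists_NN : ∃ N : ℕ, 1 ≤ N ∧ (2 : ℝ) ≤ (1 + 1 / (4 * 1000 ^ 8)) ^ (N - 1) := by
  obtain ⟨n, hn⟩ := pow_unbounded_of_one_lt (2 : ℝ) (y := 1 + 1 / (4 * 1000 ^ 8)) (by norm_num)
  exact ⟨n + 1, by omega, by simpa using hn.le⟩

/-- a huge natural number governing the admissible jump ratio -/
noncomputable def NN : ℕ := exists_NN.choose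
lemma NN_pos : 1 ≤ NN := exists_NN.choose_spec.1
lemma NN_spec : (2 : ℝ) ≤ (1 + 1 / (4 * 1000 ^ 8)) ^ (NN - 1) := exists_NN.choose_spec.2

/-- the maximal ratio of two consecutive scales -/
noncomputable def KH : ℝ := (1000 ^ 4 : ℝ) ^ NN

lemma KH_ge : 1000 ≤ KH := by
  unfold KH
  calc (1000 : ℝ) ≤ (1000 ^ 4 : ℝ) ^ 1 := by norm_num
    _ ≤ _ := pow_le_pow_right₀ (by norm_num) NN_pos

lemma KH_pos : 0 < KH := by linarith [KH_ge]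

/-- the phase of a state -/
inductive Ph | U | O | C
  deriving DecidableEq

/-- a state: an affine map attached to a cell, with scale information -/
structure St where
  ph : Ph
  b1 : ℝ
  b2 : ℝ
  r : ℝ
  a : E
  b : E
  c : E
  f : E
  u : E
  s1 : ℝ
  s2 : ℝ
  s3 : ℝ
  t1 : ℝ
  t2 : ℝ

/-- the sign, with value `1` or `-1` -/
noncomputable def sgn (x : ℝ) : ℝ := if 0 < x then 1 else -1

lemma sgn_or (x : ℝ) : sgn x = 1 ∨ sgn x = -1 := by unfold sgn; split_ifs <;> simp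

lemma sgn_mul_self (x : ℝ) : sgn x * x = |x| := by
  unfold sgn; split_ifs with h
  · rw [abs_of_pos h]; ring
  · rw [abs_of_nonpos (not_lt.1 h)]; ring

/-- size of the next push -/
noncomputable def St.s (σ : St) : ℝ := min (1 / σ.r) (KH * σ.s1)

/-- radial direction of the next push -/
noncomputable def St.g (σ : St) : ℝ := if ‖σ.f‖ < 100000 then 1 else -1

/-- unit normal -/
noncomputable def St.N (σ : St) : E := ‖cr σ.a σ.b‖⁻¹ • cr σ.a σ.b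

/-- the push vector -/
noncomputable def St.V (σ : St) : E :=
  match σ.ph with
  | Ph.U => σ.s • (σ.g • σ.u - (1 / 2 : ℝ) • σ.N)
  | Ph.O => σ.s • ((σ.g * (1 / 100) + dt σ.N σ.u) • σ.u - σ.N)
  | Ph.C => (1 / 2 : ℝ) • (σ.c - σ.t1 • σ.a - σ.t2 • σ.b) - σ.c

/-- the hat function in relative coordinates -/
noncomputable def St.hat (σ : St) (x y z : ℝ) : ℝ :=
  match σ.ph with
  | Ph.U => max 0 (σ.r - max |x| |y| - z)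
  | Ph.O => max 0 (σ.r - |x| - |y| - 8 * z)
  | Ph.C => min z (max 0 (σ.r - max |x| |y| - 10 * z))

/-- the affine map of the state -/
noncomputable def St.L (σ : St) (p : E) : E :=
  σ.f + (p 0 - σ.b1) • σ.a + (p 1 - σ.b2) • σ.b + p 2 • σ.c

/-- the push of the state -/
noncomputable def St.D (σ : St) (p : E) : E :=
  σ.hat (p 0 - σ.b1) (p 1 - σ.b2) (p 2) • σ.V

/-- the state of a child cell with centre `(c1, c2)` and half-width `r'` -/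
noncomputable def St.child (σ : St) (c1 c2 r' : ℝ) : St :=
  let X := c1 - σ.b1
  let Y := c2 - σ.b2
  match σ.ph with
  | Ph.U =>
      let n1 := if |Y| < |X| then sgn X else 0
      let n2 := if |Y| < |X| then 0 else sgn Y
      { ph := Ph.O, b1 := c1, b2 := c2, r := r',
        a := σ.a - n1 • σ.V, b := σ.b - n2 • σ.V, c := σ.c - (1 : ℝ) • σ.V,
        f := σ.f + X • σ.a + Y • σ.b + (σ.r - n1 * X - n2 * Y) • σ.V, u := σ.u,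
        s1 := σ.s, s2 := σ.s1, s3 := σ.s2, t1 := n1, t2 := n2 }
  | Ph.O =>
      if |X| + |Y| < σ.r then
        let n1 := sgn X
        let n2 := sgn Y
        { ph := Ph.C, b1 := c1, b2 := c2, r := r',
          a := σ.a - n1 • σ.V, b := σ.b - n2 • σ.V, c := σ.c - (8 : ℝ) • σ.V,
          f := σ.f + X • σ.a + Y • σ.b + (σ.r - n1 * X - n2 * Y) • σ.V, u := σ.u,
          s1 := σ.s, s2 := σ.s1, s3 := σ.s2,
          t1 := σ.t1 + σ.t2 ^ 2 * n1 * (8 - n2 * σ.t2),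
          t2 := σ.t2 + σ.t1 ^ 2 * n2 * (8 - n1 * σ.t1) }
      else { σ with b1 := c1, b2 := c2, r := r', f := σ.f + X • σ.a + Y • σ.b }
  | Ph.C =>
      let f' := σ.f + X • σ.a + Y • σ.b
      { ph := Ph.U, b1 := c1, b2 := c2, r := r',
        a := σ.a, b := σ.b, c := σ.c + σ.V, f := f', u := ‖f'‖⁻¹ • f',
        s1 := σ.s1, s2 := σ.s2, s3 := σ.s3, t1 := 0, t2 := 0 }

/-- a matrix with controlled distortion -/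
def Good (a b c : E) : Prop := (‖a‖ + ‖b‖ + ‖c‖) ^ 3 ≤ (10 ^ 8 * KH ^ 3) * T a b c

/-- common part of the invariants -/
structure Base (σ : St) : Prop where
  hu : ‖σ.u‖ = 1
  hr : 0 < σ.r
  hs3 : 0 < σ.s3
  h1r : σ.s1 * σ.r ≤ 1 / 1000
  h12 : 1000 * σ.s2 ≤ σ.s1
  h12' : σ.s1 ≤ KH * σ.s2
  h23 : 1000 * σ.s3 ≤ σ.s2
  h23' : σ.s2 ≤ KH * σ.s3
  lo : ∀ x y : ℝ, |x| ≤ σ.r → |y| ≤ σ.r → 99998 ≤ ‖σ.f + x • σ.a + y • σ.b‖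
  hi : ∀ x y : ℝ, |x| ≤ σ.r → |y| ≤ σ.r → ‖σ.f + x • σ.a + y • σ.b‖ ≤ 100002

/-- a unit coordinate vector of the plane -/
def IsE (n1 n2 : ℝ) : Prop := ((n1 = 1 ∨ n1 = -1) ∧ n2 = 0) ∨ (n1 = 0 ∧ (n2 = 1 ∨ n2 = -1))

/-- a sign -/
def IsS (n : ℝ) : Prop := n = 1 ∨ n = -1

structure InvU (σ : St) : Prop extends Base σ where
  ha : 8 / 10 * σ.s1 ≤ ‖σ.a‖
  ha' : ‖σ.a‖ ≤ 11 / 10 * σ.s1
  hb : 8 / 10 * σ.s1 ≤ ‖σ.b‖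
  hb' : ‖σ.b‖ ≤ 11 / 10 * σ.s1
  hS : 6 / 10 * (σ.s1 * σ.s2) ≤ ‖cr σ.a σ.b‖
  hT : σ.s1 * σ.s2 * σ.s3 ≤ T σ.a σ.b σ.c
  hc : ‖σ.c‖ ≤ 6 * σ.s3
  hSu : |dt (cr σ.a σ.b) σ.u| ≤ 5 / 100 * ‖cr σ.a σ.b‖
  hau : |dt σ.a σ.u| ≤ 3 / 100 * ‖σ.a‖
  hbu : |dt σ.b σ.u| ≤ 3 / 100 * ‖σ.b‖
  hf : σ.f = ‖σ.f‖ • σ.u

structure InvO (σ : St) : Prop extends Base σ where
  ha' : ‖σ.a‖ ≤ 13 / 10 * σ.s1
  hb' : ‖σ.b‖ ≤ 13 / 10 * σ.s1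
  ht : IsE σ.t1 σ.t2
  ha0 : σ.t1 = 0 → ‖σ.a‖ ≤ 11 / 10 * σ.s2
  hb0 : σ.t2 = 0 → ‖σ.b‖ ≤ 11 / 10 * σ.s2
  hw : ∀ n1 n2, IsS n1 → IsS n2 → 108 / 100 * σ.s1 ≤ ‖n2 • σ.a - n1 • σ.b‖
  hw' : ∀ n1 n2, IsS n1 → IsS n2 → ‖n2 • σ.a - n1 • σ.b‖ ≤ 116 / 100 * σ.s1
  hTw : ∀ n1 n2, IsS n1 → IsS n2 →
    |T (cr σ.a σ.b) (n2 • σ.a - n1 • σ.b) σ.u| ≤ 18 / 1000 * (‖cr σ.a σ.b‖ * σ.s1)
  hS : 86 / 100 * (σ.s1 * σ.s2) ≤ ‖cr σ.a σ.b‖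
  hT : 2 / 10 * (σ.s1 * σ.s2 * σ.s3) ≤ T σ.a σ.b σ.c
  hSu : |dt (cr σ.a σ.b) σ.u| ≤ 5 / 10 * ‖cr σ.a σ.b‖
  hc : ‖σ.c - σ.t1 • σ.a - σ.t2 • σ.b‖ ≤ 12 / 10 * σ.s2
  hf : ‖σ.f - (100000 : ℝ) • σ.u‖ ≤ 4 - 4 * (σ.s1 * σ.r)

structure InvC (σ : St) : Prop extends Base σ where
  ha : 8 / 10 * σ.s1 ≤ ‖σ.a‖
  ha' : ‖σ.a‖ ≤ 11 / 10 * σ.s1
  hb : 8 / 10 * σ.s1 ≤ ‖σ.b‖
  hb' : ‖σ.b‖ ≤ 11 / 10 * σ.s1
  hS : 7 / 10 * (σ.s1 * σ.s2) ≤ ‖cr σ.a σ.b‖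
  hT : 2 * (σ.s1 * σ.s2 * σ.s3) ≤ T σ.a σ.b σ.c
  hSu : |dt (cr σ.a σ.b) σ.u| ≤ 25 / 1000 * ‖cr σ.a σ.b‖
  hau : |dt σ.a σ.u| ≤ 14 / 1000 * ‖σ.a‖
  hbu : |dt σ.b σ.u| ≤ 14 / 1000 * ‖σ.b‖
  hc : ‖σ.c - σ.t1 • σ.a - σ.t2 • σ.b‖ ≤ 112 / 10 * σ.s3
  ht1 : |σ.t1| ≤ 9
  ht2 : |σ.t2| ≤ 9
  hf : ‖σ.f - (100000 : ℝ) • σ.u‖ ≤ 6

/-- the full invariant -/
def Inv (σ : St) : Prop :=
  match σ.ph with
  | Ph.U => InvU σ
  | Ph.O => InvO σ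
  | Ph.C => InvC σ

/-- admissible position of a child cell: `r'` is small compared with the distance to all the
lines where the hat function fails to be affine -/
structure Pos (σ : St) (X Y r' : ℝ) : Prop where
  hr' : 0 < r'
  h0 : r' ≤ σ.r / 1000
  hX : 100 * r' ≤ |X|
  hY : 100 * r' ≤ |Y|
  hX' : |X| + 100 * r' ≤ σ.r
  hY' : |Y| + 100 * r' ≤ σ.r
  hD : |X| + 100 * r' ≤ |Y| ∨ |Y| + 100 * r' ≤ |X|
  hA : |X| + |Y| + 100 * r' ≤ σ.r ∨ σ.r + 100 * r' ≤ |X| + |Y|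

lemma Base.hs2 {σ : St} (h : Base σ) : 0 < σ.s2 := by linarith [h.hs3, h.h23]
lemma Base.hs1 {σ : St} (h : Base σ) : 0 < σ.s1 := by linarith [h.hs2, h.h12]

lemma Base.s_pos {σ : St} (h : Base σ) : 0 < σ.s := by
  unfold St.s
  exact lt_min (by have := h.hr; positivity) (mul_pos KH_pos h.hs1)

lemma Base.s_le {σ : St} (h : Base σ) : σ.s ≤ KH * σ.s1 := min_le_right _ _

lemma Base.s_r {σ : St} (h : Base σ) : σ.s * σ.r ≤ 1 := by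
  have := min_le_left (1 / σ.r) (KH * σ.s1)
  have h2 : σ.s ≤ 1 / σ.r := this
  rwa [le_div_iff₀ h.hr] at h2

lemma Base.s_ge {σ : St} (h : Base σ) : 1000 * σ.s1 ≤ σ.s := by
  unfold St.s
  refine le_min ?_ ?_
  · rw [le_div_iff₀ h.hr]; nlinarith [h.h1r]
  · exact mul_le_mul_of_nonneg_right KH_ge h.hs1.le

lemma g_or (σ : St) : σ.g = 1 ∨ σ.g = -1 := by unfold St.g; split_ifs <;> simp

end Pool.Agent.Helper746
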