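import Mathlib

set_option autoImplicit false
open MeasureTheory Filter Topology

namespace Pool.Agent.Helper746.Dir

abbrev E := EuclideanSpace ℝ (Fin 3)

lemma dir_qmp : Measure.QuasiMeasurePreserving (fun y : E => ((y 0, y 1) : ℝ × ℝ))
    volume volume := by
  have h1 : MeasurePreserving (fun y : E => (y.ofLp : Fin 3 → ℝ)) volume volume :=
    PiLp.volume_preserving_ofLp (Fin 3)
  have h2 := volume_preserving_piFinSuccAbove (fun _ : Fin 3 => ℝ) (2 : Fin 3)
  have h3 : Measure.QuasiMeasurePreserving (Prod.snd : ℝ × (Fin 2 → ℝ) → (Fin 2 → ℝ))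
      (volume.prod volume) volume := Measure.quasiMeasurePreserving_snd
  have h4 := volume_preserving_finTwoArrow ℝ
  have h5 := h4.quasiMeasurePreserving.comp (h3.comp (h2.quasiMeasurePreserving.comp
    h1.quasiMeasurePreserving))
  exact h5

/-- inverse chart -/
noncomputable def dirPhi (y : E) : E :=
  !₂[y 2 * (2 * y 0) / (1 + y 0 ^ 2 + y 1 ^ 2), y 2 * (2 * y 1) / (1 + y 0 ^ 2 + y 1 ^ 2),
    y 2 * (1 - y 0 ^ 2 - y 1 ^ 2) / (1 + y 0 ^ 2 + y 1 ^ 2)]

lemma dirPhi_diff : Differentiable ℝ dirPhi := by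
  have hc : ∀ i : Fin 3, Differentiable ℝ (fun y : E => y i) := fun i =>
    (EuclideanSpace.proj (𝕜 := ℝ) i : E →L[ℝ] ℝ).differentiable
  have hc0 := hc 0
  have hc1 := hc 1
  have hc2 := hc 2
  have hd : ∀ y : E, (1 + y 0 ^ 2 + y 1 ^ 2) ≠ 0 := fun y => by positivity
  have hden : Differentiable ℝ (fun y : E => (1 + y 0 ^ 2 + y 1 ^ 2)⁻¹) := by
    have h1 : Differentiable ℝ (fun y : E => 1 + y 0 ^ 2 + y 1 ^ 2) := by fun_prop
    exact h1.inv hd
  unfold dirPhi
  rw [differentiable_euclidean]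
  intro i
  fin_cases i
  · simp only [div_eq_mul_inv]
    exact (by fun_prop : Differentiable ℝ (fun y : E => y 2 * (2 * y 0))).mul hden
  · simp only [div_eq_mul_inv]
    exact (by fun_prop : Differentiable ℝ (fun y : E => y 2 * (2 * y 1))).mul hden
  · simp only [div_eq_mul_inv]
    exact (by fun_prop : Differentiable ℝ (fun y : E => y 2 * (1 - y 0 ^ 2 - y 1 ^ 2))).mul hden

/-- Target: stereographic projection of directions preserves null sets. -/
theorem dir_ae (P : ℝ → ℝ → Prop)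
    (h : ∀ᵐ p : ℝ × ℝ ∂volume, |p.1| < 1 → |p.2| < 1 → P p.1 p.2) :
    ∀ᵐ x : E ∂volume, 0 < x 2 → P (x 0 / (‖x‖ + x 2)) (x 1 / (‖x‖ + x 2)) := by
  have hN : ∀ᵐ y : E ∂volume, |y 0| < 1 → |y 1| < 1 → P (y 0) (y 1) :=
    dir_qmp.ae h
  rw [ae_iff] at hN ⊢
  have himg := addHaar_image_eq_zero_of_differentiableOn_of_addHaar_eq_zero (volume : Measure E)
    (dirPhi_diff.differentiableOn) hN
  refine measure_mono_null ?_ himg
  intro x hx
  simp only [Set.mem_ofPred_eq, not_forall] at hx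
  obtain ⟨hx2, hP⟩ := hx
  have hnorm : ‖x‖ ^ 2 = x 0 ^ 2 + x 1 ^ 2 + x 2 ^ 2 := by
    rw [EuclideanSpace.norm_sq_eq]
    simp [Fin.sum_univ_three]
  have hnn : 0 ≤ ‖x‖ := norm_nonneg x
  set r := ‖x‖ with hr
  have hs : 0 < r + x 2 := by linarith
  have hr0 : 0 < r := by
    rcases hnn.eq_or_lt with h0 | h0
    · rw [← h0] at hnorm
      nlinarith [sq_nonneg (x 0), sq_nonneg (x 1), sq_nonneg (x 2)]
    · exact h0
  have h0 : |x 0| < r + x 2 := by
    have : |x 0| ≤ r := by
      apply abs_le_of_sq_le_sq _ hnn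
      nlinarith [sq_nonneg (x 1), sq_nonneg (x 2)]
    linarith
  have h1 : |x 1| < r + x 2 := by
    have : |x 1| ≤ r := by
      apply abs_le_of_sq_le_sq _ hnn
      nlinarith [sq_nonneg (x 0), sq_nonneg (x 2)]
    linarith
  refine ⟨!₂[x 0 / (r + x 2), x 1 / (r + x 2), r], ?_, ?_⟩
  · simp only [Set.mem_ofPred_eq, not_forall]
    refine ⟨?_, ?_, ?_⟩
    · simp only [Matrix.cons_val_zero]
      rw [abs_div, abs_of_pos hs, div_lt_one hs]
      exact h0
    · simp only [Matrix.cons_val_one, Matrix.cons_val_zero]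
      rw [abs_div, abs_of_pos hs, div_lt_one hs]
      exact h1
    · simpa using hP
  · have hden : 1 + (x 0 / (r + x 2)) ^ 2 + (x 1 / (r + x 2)) ^ 2 = 2 * r / (r + x 2) := by
      field_simp
      nlinarith
    have hnum : 1 - (x 0 / (r + x 2)) ^ 2 - (x 1 / (r + x 2)) ^ 2 = 2 * x 2 / (r + x 2) := by
      field_simp
      nlinarith
    ext i
    unfold dirPhi
    fin_cases i
    · simp only [Matrix.cons_val_zero, Matrix.cons_val_one, Matrix.cons_val,
        Fin.zero_eta, Fin.isValue]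
      rw [hden]
      field_simp
    · simp only [Matrix.cons_val_zero, Matrix.cons_val_one, Matrix.cons_val,
        Fin.mk_one, Fin.isValue]
      rw [hden]
      field_simp
    · simp only [Matrix.cons_val_zero, Matrix.cons_val_one, Matrix.cons_val,
        Fin.reduceFinMk, Fin.isValue]
      rw [hden, hnum]
      field_simp

end Pool.Agent.Helper746.Dir
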