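import Pool.Agent.Helper746.EpMatch

set_option autoImplicit false
open MeasureTheory Filter Topology

namespace Pool.Agent.Helper746.Ep

/-- band coordinate -/
noncomputable def zt (x : E) : ℝ := x 2 * lt x / Real.log 3

lemma log3_pos : 0 < Real.log 3 := Real.log_pos (by norm_num)

/-- basic data at an off-axis point of the domain -/
lemma Om_basic {x : E} (hx : x ∈ Om) (hr : rr x ≠ 0) :
    0 < rr x ∧ 100 < tt x ∧ 1 ≤ lt x ∧ 0 < zt x := by
  have h0 : 0 < rr x := lt_of_le_of_ne (rr_nonneg x) (Ne.symm hr)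
  have h1 : 100 < tt x := by
    unfold tt
    have := Real.log_lt_log h0 hx.1
    rw [Real.log_exp] at this
    linarith
  have h2 : 1 ≤ lt x := by
    unfold lt
    rw [Real.le_log_iff_exp_le (by linarith)]
    have := Real.exp_one_lt_d9
    linarith
  refine ⟨h0, h1, h2, ?_⟩
  unfold zt
  exact div_pos (mul_pos hx.2.1 (by linarith)) log3_pos

lemma zt_cont {x : E} (hr : rr x ≠ 0) (ht : tt x ≠ 0) : ContinuousAt zt x := by
  have h := (((LLat.coord 2 x).mul (LLat.lt hr ht)).div (LLat.const (Real.log 3) x) log3_pos.ne')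
  exact h.continuousAt

/-- the candidate map in band `i`, rotated -/
noncomputable def ph (i : ℕ) (y : E) : E := (rot ^ i) (gk i y)

lemma ll_ph {x : E} (i : ℕ) (hr : rr x ≠ 0) (ht : tt x ≠ 0) : LLat (ph i) x := by
  have h : LLat (fun v : E => (rot ^ i) v) (gk i x) :=
    LLat.of_lip (rot ^ i).lipschitz _
  exact h.comp (ll_gk i hr ht)

lemma ph_match {p : E} (j : ℕ) (ht : 0 < tt p) (hz : zt p = j + 1) : ph j p = ph (j + 1) p := by
  have h1 : p 2 * lt p = (j + 1) * Real.log 3 := by
    unfold zt at hz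
    rw [div_eq_iff log3_pos.ne'] at hz
    exact hz
  unfold ph
  rw [gk_match j ht h1, pow_succ]
  rfl

/-- the map is locally Lipschitz off the axis -/
theorem F_ll {x : E} (hx : x ∈ Om) (hr : rr x ≠ 0) : LLat F x := by
  obtain ⟨h0, h1, h2, h3⟩ := Om_basic hx hr
  have ht : tt x ≠ 0 := by linarith
  have hF : F =ᶠ[𝓝 x] fun y => ph (kk y) y := by
    filter_upwards [(LLat.rr x).continuousAt.eventually_ne hr] with y hy
    unfold F ph
    rw [if_neg hy]
  refine LLat.of_eq ?_ hF
  have hc := zt_cont hr ht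
  have hfl : (kk x : ℝ) ≤ zt x := Nat.floor_le h3.le
  have hfl2 : zt x < kk x + 1 := Nat.lt_floor_add_one _
  rcases hfl.lt_or_eq with hlt | heq
  · have he : ∀ᶠ y in 𝓝 x, kk y = kk x := by
      filter_upwards [continuousAt_const.eventually_lt hc hlt,
        hc.eventually_lt (continuousAt_const (y := (kk x : ℝ) + 1)) hfl2] with y hy1 hy2
      show ⌊zt y⌋₊ = kk x
      rw [Nat.floor_eq_iff (le_trans (Nat.cast_nonneg _) hy1.le)]
      exact ⟨hy1.le, hy2⟩
    apply LLat.of_eq (ll_ph (kk x) hr ht)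
    filter_upwards [he] with y hy
    rw [hy]
  · -- the band number is at least one
    obtain ⟨j, hj⟩ : ∃ j, kk x = j + 1 := by
      rcases Nat.eq_zero_or_pos (kk x) with h | h
      · rw [h] at heq; norm_num at heq; linarith
      · exact ⟨kk x - 1, by omega⟩
    have hzx : zt x = j + 1 := by rw [← heq, hj]; push_cast; ring
    -- neighbourhood
    have e1 : ∀ᶠ y in 𝓝 x, (j : ℝ) < zt y :=
      continuousAt_const.eventually_lt hc (by rw [hzx]; linarith)
    have e2 : ∀ᶠ y in 𝓝 x, zt y < j + 2 :=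
      hc.eventually_lt continuousAt_const (by rw [hzx]; linarith)
    have e3 : ∀ᶠ y in 𝓝 x, 0 < tt y :=
      continuousAt_const.eventually_lt (LLat.tt hr).continuousAt (by linarith)
    have e4 := (LLat.rr x).continuousAt.eventually_ne hr
    obtain ⟨δ, hδ, hb⟩ := Metric.eventually_nhds_iff_ball.1 (((e1.and e2).and e3).and e4)
    apply LLat.glue kk ph x j (j + 1) (ll_ph j hr ht) (ll_ph (j + 1) hr ht) hδ
    · intro y hy
      obtain ⟨⟨⟨a1, a2⟩, a3⟩, a4⟩ := hb y hy
      have hpos : 0 ≤ zt y := le_trans (Nat.cast_nonneg _) a1.le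
      rcases lt_or_ge (zt y) (j + 1) with h | h
      · left
        show ⌊zt y⌋₊ = j
        rw [Nat.floor_eq_iff hpos]
        exact ⟨a1.le, h⟩
      · right
        show ⌊zt y⌋₊ = j + 1
        rw [Nat.floor_eq_iff hpos]
        push_cast
        exact ⟨h, by linarith⟩
    · intro y hy z hz hyj hzj
      have hsub : segment ℝ y z ⊆ Metric.ball x δ := (convex_ball x δ).segment_subset hy hz
      have cs : ContinuousOn (fun p => zt p - (j + 1)) (segment ℝ z y) := by
        intro p hp
        rw [segment_symm] at hp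
        obtain ⟨⟨⟨a1, a2⟩, a3⟩, a4⟩ := hb p (hsub hp)
        exact ((zt_cont a4 a3.ne').sub continuousAt_const).continuousWithinAt
      have hy1 : zt y < j + 1 := by
        have := Nat.lt_floor_add_one (zt y)
        have e : ⌊zt y⌋₊ = j := hyj
        rw [e] at this
        exact this
      have hz1 : (j : ℝ) + 1 ≤ zt z := by
        obtain ⟨⟨⟨a1, a2⟩, a3⟩, a4⟩ := hb z hz
        have := Nat.floor_le (le_trans (Nat.cast_nonneg _) a1.le : 0 ≤ zt z)
        have e : ⌊zt z⌋₊ = j + 1 := hzj
        rw [e] at this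
        push_cast at this
        exact this
      obtain ⟨p, hp, hp0⟩ := seg_zero cs (by linarith) (by linarith)
      rw [segment_symm] at hp
      obtain ⟨⟨⟨a1, a2⟩, a3⟩, a4⟩ := hb p (hsub hp)
      exact ⟨p, hp, ph_match j a3 (by linarith)⟩

end Pool.Agent.Helper746.Ep
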