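import Pool.Agent.Helper746.EpTri

set_option autoImplicit false
open MeasureTheory Filter Topology

namespace Pool.Agent.Helper746.Ep


/-- the sign of a coordinate -/
noncomputable def sg (v : ℝ) : ℝ := if 0 ≤ v then 1 else -1

lemma sg_IsS (v : ℝ) : IsS (sg v) := by
  unfold sg; split_ifs
  · exact Or.inl rfl
  · exact Or.inr rfl

lemma abs_sg (v : ℝ) : |v| = sg v * v := by
  unfold sg; split_ifs with h
  · rw [abs_of_nonneg h, one_mul]
  · rw [abs_of_neg (not_le.1 h)]; ring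

lemma abs_ev (x : E) (i : Fin 3) (h : x i ≠ 0) :
    (fun y : E => |y i|) =ᶠ[𝓝 x] fun y => sg (x i) * y i := by
  have hc : Continuous (fun y : E => y i) := by fun_prop
  rcases lt_or_gt_of_ne h with h | h
  · filter_upwards [hc.continuousAt.eventually (gt_mem_nhds h)] with y hy
    unfold sg
    rw [if_neg (not_le.2 h), abs_of_neg hy]; ring
  · filter_upwards [hc.continuousAt.eventually (lt_mem_nhds h)] with y hy
    unfold sg
    rw [if_pos h.le, abs_of_pos hy]; ring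

lemma rr_gr (x : E) (h0 : x 0 ≠ 0) (h1 : x 1 ≠ 0) : Gr rr x (sg (x 0)) (sg (x 1)) 0 := by
  have hg := (Gr.c0 (x := x)).cmul (sg (x 0)) |>.add ((Gr.c1 (x := x)).cmul (sg (x 1)))
  have h2 := Gr.congr hg (a' := sg (x 0)) (b' := sg (x 1)) (c' := 0) (by ring) (by ring) (by ring)
  refine h2.of_eq ?_
  filter_upwards [abs_ev x 0 h0, abs_ev x 1 h1] with y hy0 hy1
  unfold rr
  rw [hy0, hy1]

lemma rr_pos (x : E) (h0 : x 0 ≠ 0) : 0 < rr x := by
  unfold rr
  have := abs_pos.2 h0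
  have := abs_nonneg (x 1)
  linarith

lemma tt_gt (x : E) (h0 : x 0 ≠ 0) (hr : rr x < Real.exp (-100)) : 100 < tt x := by
  unfold tt
  have h := Real.log_lt_log (rr_pos x h0) hr
  rw [Real.log_exp] at h
  linarith

lemma lt_ge (x : E) (h0 : x 0 ≠ 0) (hr : rr x < Real.exp (-100)) : 1 ≤ lt x := by
  unfold lt
  have h := tt_gt x h0 hr
  rw [Real.le_log_iff_exp_le (by linarith)]
  have := Real.exp_one_lt_d9
  linarith

lemma tt_gr (x : E) (h0 : x 0 ≠ 0) (h1 : x 1 ≠ 0) :
    Gr tt x (-sg (x 0) / rr x) (-sg (x 1) / rr x) 0 := by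
  have hr := rr_pos x h0
  have hg := ((rr_gr x h0 h1).log hr.ne').cmul (-1)
  have h2 := Gr.congr hg (a' := -sg (x 0) / rr x) (b' := -sg (x 1) / rr x) (c' := 0)
    (by ring) (by ring) (by ring)
  refine h2.of_eq (Eventually.of_forall fun y => ?_)
  simp only [tt]; ring

lemma lt_gr (x : E) (h0 : x 0 ≠ 0) (h1 : x 1 ≠ 0) (hr : rr x < Real.exp (-100)) :
    Gr lt x (-sg (x 0) / (rr x * tt x)) (-sg (x 1) / (rr x * tt x)) 0 := by
  have ht := tt_gt x h0 hr
  have hrp := rr_pos x h0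
  have hg := (tt_gr x h0 h1).log (by linarith : tt x ≠ 0)
  exact Gr.congr hg (by rw [div_div]) (by rw [div_div]) (by ring)

/-- the two exponentials -/
noncomputable def uu (k : ℕ) (x : E) : ℝ := Real.exp ((1 + x 2) * lt x) / 3 ^ k
noncomputable def ss (k : ℕ) (x : E) : ℝ := Real.exp ((1 + 2 * x 2) * lt x) / 9 ^ k

lemma uu_gr (k : ℕ) (x : E) (h0 : x 0 ≠ 0) (h1 : x 1 ≠ 0) (hr : rr x < Real.exp (-100)) :
    Gr (uu k) x (-(uu k x * (1 + x 2) * sg (x 0) / (rr x * tt x)))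
      (-(uu k x * (1 + x 2) * sg (x 1) / (rr x * tt x))) (uu k x * lt x) := by
  have hg := ((((Gr.const (x := x) 1).add (Gr.c2 (x := x))).mul (lt_gr x h0 h1 hr)).exp).cmul
    (1 / 3 ^ k)
  have h2 := Gr.congr hg (a' := -(uu k x * (1 + x 2) * sg (x 0) / (rr x * tt x)))
    (b' := -(uu k x * (1 + x 2) * sg (x 1) / (rr x * tt x))) (c' := uu k x * lt x)
    (by simp only [uu]; ring) (by simp only [uu]; ring) (by simp only [uu]; ring)
  refine h2.of_eq (Eventually.of_forall fun y => ?_)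
  simp only [uu]; ring

lemma ss_gr (k : ℕ) (x : E) (h0 : x 0 ≠ 0) (h1 : x 1 ≠ 0) (hr : rr x < Real.exp (-100)) :
    Gr (ss k) x (-(ss k x * (1 + 2 * x 2) * sg (x 0) / (rr x * tt x)))
      (-(ss k x * (1 + 2 * x 2) * sg (x 1) / (rr x * tt x))) (2 * ss k x * lt x) := by
  have hg := ((((Gr.const (x := x) 1).add ((Gr.c2 (x := x)).cmul 2)).mul (lt_gr x h0 h1 hr)).exp).cmul
    (1 / 9 ^ k)
  have h2 := Gr.congr hg (a' := -(ss k x * (1 + 2 * x 2) * sg (x 0) / (rr x * tt x)))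
    (b' := -(ss k x * (1 + 2 * x 2) * sg (x 1) / (rr x * tt x))) (c' := 2 * ss k x * lt x)
    (by simp only [ss]; ring) (by simp only [ss]; ring) (by simp only [ss]; ring)
  refine h2.of_eq (Eventually.of_forall fun y => ?_)
  simp only [ss]; ring

lemma pp_gr (x : E) (h0 : x 0 ≠ 0) (h1 : x 1 ≠ 0) :
    Gr (fun y => y 0 / rr y) x (|x 1| / rr x ^ 2) (-(x 0 * sg (x 1)) / rr x ^ 2) 0 := by
  have hg := (Gr.c0 (x := x)).div (rr_gr x h0 h1) (rr_pos x h0).ne'
  refine Gr.congr hg ?_ ?_ ?_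
  · congr 1
    have := abs_sg (x 0)
    unfold rr
    linarith
  · congr 1; ring
  · simp

/-- the derivative of `PA` -/
noncomputable def DA (k : ℕ) (x : E) : E →L[ℝ] E :=
  linM (v3 (-(uu k x * (1 + x 2) * sg (x 0) / (rr x * tt x))) (|x 1| / rr x ^ 2)
      (-(ss k x * (1 + 2 * x 2) * sg (x 0) / (rr x * tt x))))
    (v3 (-(uu k x * (1 + x 2) * sg (x 1) / (rr x * tt x))) (-(x 0 * sg (x 1)) / rr x ^ 2)
      (-(ss k x * (1 + 2 * x 2) * sg (x 1) / (rr x * tt x))))
    (v3 (uu k x * lt x) 0 (2 * ss k x * lt x))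

lemma DA_deriv (k : ℕ) (x : E) (h0 : x 0 ≠ 0) (h1 : x 1 ≠ 0) (hr : rr x < Real.exp (-100)) :
    HasFDerivAt (PA k) (DA k x) x :=
  hasFDerivAt_v3 (uu_gr k x h0 h1 hr) (pp_gr x h0 h1) (ss_gr k x h0 h1 hr)

lemma DA_det (k : ℕ) (x : E) (h0 : x 0 ≠ 0) (hr : rr x < Real.exp (-100)) :
    (DA k x).det = uu k x * ss k x * lt x * sg (x 1) / (tt x * rr x ^ 2) := by
  have ht := tt_gt x h0 hr
  have hrp := rr_pos x h0
  have ht0 : tt x ≠ 0 := by linarith
  unfold DA
  rw [linM_det]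
  simp only [T, v3_0, v3_1, v3_2]
  have e : rr x = |x 1| + x 0 * sg (x 0) := by
    have := abs_sg (x 0)
    unfold rr
    linarith
  field_simp
  rw [e]
  ring

lemma uu_pos (k : ℕ) (x : E) : 0 < uu k x := by unfold uu; positivity
lemma ss_pos (k : ℕ) (x : E) : 0 < ss k x := by unfold ss; positivity

lemma sb_eq (x : E) : sb x = sg (x 1) := rfl

/-- TARGET 1 -/
theorem PA_good (k : ℕ) (x : E) (h0 : x 0 ≠ 0) (h1 : x 1 ≠ 0) (hr : rr x < Real.exp (-100))
    (hz0 : 0 < x 2) (hz1 : x 2 < 1) (hk0 : k * Real.log 3 ≤ x 2 * lt x)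
    (hk1 : x 2 * lt x ≤ (k + 1) * Real.log 3) :
    ∃ A : E →L[ℝ] E, HasFDerivAt (PA k) A x ∧ ‖A‖ ≤ 1000 / rr x ∧
      tt x * lt x / rr x ^ 2 ≤ sb x * A.det := by
  have ht := tt_gt x h0 hr
  have hL := lt_ge x h0 hr
  have hrp := rr_pos x h0
  have ht0 : 0 < tt x := by linarith
  have hexpL : Real.exp (lt x) = tt x := Real.exp_log ht0
  obtain ⟨X, hX⟩ : ∃ X, X = Real.exp (x 2 * lt x) / 3 ^ k := ⟨_, rfl⟩
  have h3k : Real.exp (k * Real.log 3) = 3 ^ k := by
    rw [Real.exp_nat_mul, Real.exp_log (by norm_num)]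
  have h3k1 : Real.exp ((k + 1) * Real.log 3) = 3 ^ k * 3 := by
    have := Real.exp_nat_mul (Real.log 3) (k + 1)
    rw [Real.exp_log (by norm_num)] at this
    push_cast at this
    rw [this, pow_succ]
  have hX1 : 1 ≤ X := by
    rw [hX, one_le_div (by positivity), ← h3k]
    exact Real.exp_le_exp.2 hk0
  have hX3 : X ≤ 3 := by
    rw [hX, div_le_iff₀ (by positivity), mul_comm (3 : ℝ) (3 ^ k), ← h3k1]
    exact Real.exp_le_exp.2 hk1
  have hu : uu k x = tt x * X := by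
    unfold uu
    have : (1 + x 2) * lt x = lt x + x 2 * lt x := by ring
    rw [this, Real.exp_add, hexpL, hX]; ring
  have hs : ss k x = tt x * X ^ 2 := by
    unfold ss
    have : (1 + 2 * x 2) * lt x = lt x + (x 2 * lt x + x 2 * lt x) := by ring
    rw [this, Real.exp_add, Real.exp_add, hexpL, hX]
    have h9 : (9 : ℝ) ^ k = 3 ^ k * 3 ^ k := by rw [← mul_pow]; norm_num
    rw [h9]; field_simp
  refine ⟨DA k x, DA_deriv k x h0 h1 hr, ?_, ?_⟩
  · -- norm
    have hx0 : |x 0| ≤ rr x := by unfold rr; have := abs_nonneg (x 1); linarith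
    have hx1 : |x 1| ≤ rr x := by unfold rr; have := abs_nonneg (x 0); linarith
    have hX2 : X ^ 2 ≤ 9 := by nlinarith
    have hsg : ∀ v, |sg v| = 1 := fun v => (sg_IsS v).abs
    have g1 : ∀ v, |-(uu k x * (1 + x 2) * sg v / (rr x * tt x))| ≤ 6 / rr x := by
      intro v
      rw [abs_neg, abs_div, abs_mul, hsg, mul_one, abs_of_pos (mul_pos hrp ht0), hu,
        abs_of_nonneg (by positivity)]
      rw [div_le_div_iff₀ (by positivity) hrp]
      have : X * (1 + x 2) ≤ 6 := by nlinarith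
      have h2 : tt x * X * (1 + x 2) * rr x = (X * (1 + x 2)) * (rr x * tt x) := by ring
      rw [h2]
      exact mul_le_mul_of_nonneg_right this (by positivity)
    have g2 : ∀ v, |-(ss k x * (1 + 2 * x 2) * sg v / (rr x * tt x))| ≤ 27 / rr x := by
      intro v
      rw [abs_neg, abs_div, abs_mul, hsg, mul_one, abs_of_pos (mul_pos hrp ht0), hs,
        abs_of_nonneg (by positivity)]
      rw [div_le_div_iff₀ (by positivity) hrp]
      have : X ^ 2 * (1 + 2 * x 2) ≤ 27 := by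
        have h4 : X ^ 2 * (1 + 2 * x 2) ≤ 9 * 3 :=
          mul_le_mul hX2 (by linarith) (by linarith) (by norm_num)
        linarith
      have h2 : tt x * X ^ 2 * (1 + 2 * x 2) * rr x = (X ^ 2 * (1 + 2 * x 2)) * (rr x * tt x) := by
        ring
      rw [h2]
      exact mul_le_mul_of_nonneg_right this (by positivity)
    have g3 : |(|x 1| / rr x ^ 2)| ≤ 1 / rr x := by
      rw [abs_of_nonneg (by positivity), div_le_div_iff₀ (by positivity) hrp]
      nlinarith
    have g4 : |(-(x 0 * sg (x 1)) / rr x ^ 2)| ≤ 1 / rr x := by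
      rw [abs_div, abs_neg, abs_mul, hsg, mul_one, abs_of_pos (by positivity : 0 < rr x ^ 2),
        div_le_div_iff₀ (by positivity) hrp]
      nlinarith
    have htL : tt x * lt x ≤ 2 / rr x := by
      have h5 : lt x ≤ tt x := by
        unfold lt
        have := Real.log_le_sub_one_of_pos ht0
        linarith
      have h6 : tt x ^ 2 ≤ 2 * Real.exp (tt x) := by
        have := Real.quadratic_le_exp_of_nonneg ht0.le
        linarith
      have h7 : Real.exp (tt x) = 1 / rr x := by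
        unfold tt
        rw [Real.exp_neg, Real.exp_log hrp, one_div]
      rw [h7] at h6
      have h8 : tt x * lt x ≤ tt x ^ 2 := by nlinarith
      have h9 : 2 * (1 / rr x) = 2 / rr x := by ring
      linarith
    have htL0 : 0 ≤ tt x * lt x := by positivity
    have g5 : |uu k x * lt x| ≤ 6 / rr x := by
      rw [hu, abs_of_nonneg (by positivity)]
      have h10 : tt x * X * lt x = X * (tt x * lt x) := by ring
      rw [h10]
      have h11 : X * (tt x * lt x) ≤ 3 * (2 / rr x) := mul_le_mul hX3 htL htL0 (by norm_num)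
      have h12 : 3 * (2 / rr x) = 6 / rr x := by ring
      linarith
    have g6 : |2 * ss k x * lt x| ≤ 36 / rr x := by
      rw [hs, abs_of_nonneg (by positivity)]
      have h10 : 2 * (tt x * X ^ 2) * lt x = 2 * (X ^ 2 * (tt x * lt x)) := by ring
      rw [h10]
      have h11 : X ^ 2 * (tt x * lt x) ≤ 9 * (2 / rr x) := mul_le_mul hX2 htL htL0 (by norm_num)
      have h12 : 2 * (9 * (2 / rr x)) = 36 / rr x := by ring
      linarith
    unfold DA
    refine (linM_norm _ _ _).trans ?_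
    have n1 := norm_v3_le (-(uu k x * (1 + x 2) * sg (x 0) / (rr x * tt x))) (|x 1| / rr x ^ 2)
      (-(ss k x * (1 + 2 * x 2) * sg (x 0) / (rr x * tt x)))
    have n2 := norm_v3_le (-(uu k x * (1 + x 2) * sg (x 1) / (rr x * tt x)))
      (-(x 0 * sg (x 1)) / rr x ^ 2) (-(ss k x * (1 + 2 * x 2) * sg (x 1) / (rr x * tt x)))
    have n3 := norm_v3_le (uu k x * lt x) 0 (2 * ss k x * lt x)
    rw [abs_zero] at n3
    have a1 := g1 (x 0)
    have a2 := g1 (x 1)
    have a3 := g2 (x 0)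
    have a4 := g2 (x 1)
    have hinv : 0 < 1 / rr x := by positivity
    have c1 : 6 / rr x = 6 * (1 / rr x) := by ring
    have c2 : 27 / rr x = 27 * (1 / rr x) := by ring
    have c3 : 36 / rr x = 36 * (1 / rr x) := by ring
    have c4 : 1000 / rr x = 1000 * (1 / rr x) := by ring
    rw [c1] at a1 a2 g5
    rw [c2] at a3 a4
    rw [c3] at g6
    rw [c4]
    linarith
  · rw [sb_eq, DA_det k x h0 hr]
    have hsq := (sg_IsS (x 1)).sq
    have e : sg (x 1) * (uu k x * ss k x * lt x * sg (x 1) / (tt x * rr x ^ 2)) =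
        uu k x * ss k x * lt x / (tt x * rr x ^ 2) := by
      have : sg (x 1) * (uu k x * ss k x * lt x * sg (x 1) / (tt x * rr x ^ 2)) =
        (sg (x 1)) ^ 2 * (uu k x * ss k x * lt x / (tt x * rr x ^ 2)) := by ring
      rw [this, hsq, one_mul]
    rw [e, hu, hs]
    have e2 : tt x * X * (tt x * X ^ 2) * lt x / (tt x * rr x ^ 2) =
        X ^ 3 * (tt x * lt x / rr x ^ 2) := by field_simp
    rw [e2]
    have h1X : 1 ≤ X ^ 3 := one_le_pow₀ hX1
    have : 0 ≤ tt x * lt x / rr x ^ 2 := by positivity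
    nlinarith

/-- TARGET 2 -/
theorem PA_nondeg (k : ℕ) (x : E) (h0 : x 0 ≠ 0) (h1 : x 1 ≠ 0) (hr : rr x < Real.exp (-100)) :
    ∃ A : E →L[ℝ] E, HasFDerivAt (PA k) A x ∧ A.det ≠ 0 := by
  refine ⟨DA k x, DA_deriv k x h0 h1 hr, ?_⟩
  rw [DA_det k x h0 hr]
  have ht := tt_gt x h0 hr
  have hL := lt_ge x h0 hr
  have hrp := rr_pos x h0
  have ht0 : 0 < tt x := by linarith
  have hu := uu_pos k x
  have hs := ss_pos k x
  have hsg : sg (x 1) ≠ 0 := by
    rcases sg_IsS (x 1) with h | h <;> rw [h] <;> norm_num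
  have h2 : uu k x * ss k x * lt x ≠ 0 := by positivity
  exact div_ne_zero (mul_ne_zero h2 hsg) (by positivity)

end Pool.Agent.Helper746.Ep
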