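import Pool.Agent.Helper746.EpTri

set_option autoImplicit false
open MeasureTheory Filter Topology

namespace Pool.Agent.Helper746.Ep


lemma N_loc (u v : ℝ) (h : |u| ≠ |v|) : ∃ n1 n2 : ℝ,
    ((IsS n1 ∧ n2 = 0) ∨ (n1 = 0 ∧ IsS n2)) ∧ N u v = n1 * u + n2 * v ∧
    ∀ᶠ q : ℝ × ℝ in 𝓝 (u, v), N q.1 q.2 = n1 * q.1 + n2 * q.2 := by
  have main : ∀ n1 n2 : ℝ, (∀ᶠ q : ℝ × ℝ in 𝓝 (u, v), N q.1 q.2 = n1 * q.1 + n2 * q.2) →
      N u v = n1 * u + n2 * v := fun n1 n2 hh => hh.self_of_nhds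
  have cabs1 : Continuous (fun q : ℝ × ℝ => |q.1|) := continuous_fst.abs
  have cabs2 : Continuous (fun q : ℝ × ℝ => |q.2|) := continuous_snd.abs
  rcases lt_or_gt_of_ne h with hlt | hlt
  · -- |u| < |v|
    have e1 : ∀ᶠ q : ℝ × ℝ in 𝓝 (u, v), |q.1| < |q.2| :=
      cabs1.continuousAt.eventually_lt cabs2.continuousAt hlt
    have hv : v ≠ 0 := by
      rintro rfl
      rw [abs_zero] at hlt
      exact absurd hlt (not_lt.2 (abs_nonneg _))
    rcases lt_or_gt_of_ne hv with hv | hv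
    · have e2 : ∀ᶠ q : ℝ × ℝ in 𝓝 (u, v), q.2 < 0 :=
        continuous_snd.continuousAt.eventually_lt continuousAt_const hv
      have e3 : ∀ᶠ q : ℝ × ℝ in 𝓝 (u, v), N q.1 q.2 = 0 * q.1 + (-1) * q.2 := by
        filter_upwards [e1, e2] with q h1 h2
        unfold N
        rw [max_eq_right h1.le, abs_of_neg h2]; ring
      exact ⟨0, -1, Or.inr ⟨rfl, Or.inr rfl⟩, main _ _ e3, e3⟩
    · have e2 : ∀ᶠ q : ℝ × ℝ in 𝓝 (u, v), 0 < q.2 :=
        continuousAt_const.eventually_lt continuous_snd.continuousAt hv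
      have e3 : ∀ᶠ q : ℝ × ℝ in 𝓝 (u, v), N q.1 q.2 = 0 * q.1 + 1 * q.2 := by
        filter_upwards [e1, e2] with q h1 h2
        unfold N
        rw [max_eq_right h1.le, abs_of_pos h2]; ring
      exact ⟨0, 1, Or.inr ⟨rfl, Or.inl rfl⟩, main _ _ e3, e3⟩
  · have e1 : ∀ᶠ q : ℝ × ℝ in 𝓝 (u, v), |q.2| < |q.1| :=
      cabs2.continuousAt.eventually_lt cabs1.continuousAt hlt
    have hu : u ≠ 0 := by
      rintro rfl
      rw [abs_zero] at hlt
      exact absurd hlt (not_lt.2 (abs_nonneg _))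
    rcases lt_or_gt_of_ne hu with hu | hu
    · have e2 : ∀ᶠ q : ℝ × ℝ in 𝓝 (u, v), q.1 < 0 :=
        continuous_fst.continuousAt.eventually_lt continuousAt_const hu
      have e3 : ∀ᶠ q : ℝ × ℝ in 𝓝 (u, v), N q.1 q.2 = (-1) * q.1 + 0 * q.2 := by
        filter_upwards [e1, e2] with q h1 h2
        unfold N
        rw [max_eq_left h1.le, abs_of_neg h2]; ring
      exact ⟨-1, 0, Or.inl ⟨Or.inr rfl, rfl⟩, main _ _ e3, e3⟩
    · have e2 : ∀ᶠ q : ℝ × ℝ in 𝓝 (u, v), 0 < q.1 :=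
        continuousAt_const.eventually_lt continuous_fst.continuousAt hu
      have e3 : ∀ᶠ q : ℝ × ℝ in 𝓝 (u, v), N q.1 q.2 = 1 * q.1 + 0 * q.2 := by
        filter_upwards [e1, e2] with q h1 h2
        unfold N
        rw [max_eq_left h1.le, abs_of_pos h2]; ring
      exact ⟨1, 0, Or.inl ⟨Or.inl rfl, rfl⟩, main _ _ e3, e3⟩

lemma Gr.contAt {f : E → ℝ} {x : E} {a b c : ℝ} (h : Gr f x a b c) : ContinuousAt f x :=
  HasFDerivAt.continuousAt h

lemma Gr.Nd {f g : E → ℝ} {x : E} {a b c a' b' c' : ℝ} (hf : Gr f x a b c) (hg : Gr g x a' b' c')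
    (h : |f x| ≠ |g x|) : ∃ n1 n2 : ℝ,
    ((IsS n1 ∧ n2 = 0) ∨ (n1 = 0 ∧ IsS n2)) ∧ N (f x) (g x) = n1 * f x + n2 * g x ∧
    Gr (fun y => N (f y) (g y)) x (n1 * a + n2 * a') (n1 * b + n2 * b') (n1 * c + n2 * c') := by
  obtain ⟨n1, n2, h1, h2, h3⟩ := N_loc (f x) (g x) h
  refine ⟨n1, n2, h1, h2, ?_⟩
  apply Gr.of_eq ((hf.cmul n1).add (hg.cmul n2))
  exact (hf.contAt.prodMk hg.contAt).eventually h3

/-- local form of the triangle sine -/
lemma tw_loc (P : E) (hc : cw (P 2) ≠ 0) : IsS (ep (P 2)) ∧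
    Gr (fun Q : E => tw (Q 2)) P 0 0 (ep (P 2)) := by
  obtain ⟨k, s, hs, h1, h2⟩ := tri (P 2)
  obtain ⟨h3, h4⟩ := h2 _ h1
  have h5 : |P 2 - 2 * k| < 1 := by
    apply lt_of_le_of_ne h1
    intro h6
    apply hc
    rw [h4, h6]; ring
  have h6 : ep (P 2) = s := by
    unfold ep
    rw [h4]
    rcases hs with hs | hs
    · rw [hs, if_pos (by linarith)]
    · rw [hs, if_neg (by linarith)]
  rw [h6]
  refine ⟨hs, ?_⟩
  have h7 : Gr (fun Q : E => s * (Q 2 - 2 * k)) P 0 0 s := by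
    have := (Gr.c2 (x := P)).sub (Gr.const (x := P) (2 * (k : ℝ)))
    have h8 := this.cmul s
    apply Gr.congr h8 <;> ring
  apply Gr.of_eq h7
  have h9 : ∀ᶠ Q : E in 𝓝 P, |Q 2 - 2 * k| < 1 := by
    have hc2 : ContinuousAt (fun Q : E => |Q 2 - 2 * (k : ℝ)|) P :=
      ((Gr.c2 (x := P)).contAt.sub continuousAt_const).abs
    exact hc2.eventually_lt continuousAt_const h5
  filter_upwards [h9] with Q hQ
  exact (h2 _ hQ.le).1

lemma kap_bd : 0 < Real.pi / (2 * Real.log 3) ∧ Real.pi / (2 * Real.log 3) ≤ 1.58 := by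
  have h1 : 1 < Real.log 3 := by
    rw [Real.lt_log_iff_exp_lt (by norm_num)]
    have := Real.exp_one_lt_d9
    linarith
  have h2 := Real.pi_pos
  have h3 := Real.pi_lt_d2
  refine ⟨by positivity, ?_⟩
  rw [div_le_iff₀ (by linarith)]
  nlinarith

lemma sel_abs {v1 v2 X Y B : ℝ} (h : (IsS v1 ∧ v2 = 0) ∨ (v1 = 0 ∧ IsS v2)) (hX : |X| ≤ B)
    (hY : |Y| ≤ B) : |v1 * X + v2 * Y| ≤ B := by
  rcases h with ⟨h1, h2⟩ | ⟨h1, h2⟩
  · rw [h2, zero_mul, add_zero, abs_mul, h1.abs, one_mul]; exact hX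
  · rw [h1, zero_mul, zero_add, abs_mul, h2.abs, one_mul]; exact hY

lemma quot_bd {M D D' n : ℝ} (hM : 0 ≤ M) (hD : 0 < D) (hn : |n| ≤ 1) {B : ℝ} (hD' : |D'| ≤ B)
    {X : ℝ} (hX : |X| ≤ D) : |(n * D - M * D') / D ^ 2 * X| ≤ 1 + M / D * B := by
  have hB : 0 ≤ B := (abs_nonneg _).trans hD'
  have h1 : |n * D - M * D'| ≤ D + M * B := by
    calc |n * D - M * D'| ≤ |n * D| + |M * D'| := abs_sub _ _
      _ = |n| * D + M * |D'| := by rw [abs_mul, abs_mul, abs_of_pos hD, abs_of_nonneg hM]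
      _ ≤ 1 * D + M * B := by gcongr
      _ = _ := by ring
  rw [abs_mul, abs_div, abs_of_pos (by positivity : 0 < D ^ 2)]
  calc |n * D - M * D'| / D ^ 2 * |X| ≤ (D + M * B) / D ^ 2 * D := by gcongr
    _ = 1 + M / D * B := by field_simp

/-- TARGET -/
theorem PB_good (P : E) (h0 : 1 ≤ P 0) (h2 : 100 ≤ P 2) (hp : |P 1| ≤ 1) (hc : cw (P 2) ≠ 0)
    (h1 : |P 1| ≠ |tw (P 2)|)
    (h3 : |rX (al P) (P 1) (tw (P 2))| ≠ |rY (al P) (P 1) (tw (P 2))|) :
    ∃ A : E →L[ℝ] E, HasFDerivAt PB A P ∧ ‖A‖ ≤ 200 ∧ 1 / 4 ≤ ep (P 2) * A.det := by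
  obtain ⟨hsg, hy⟩ := tw_loc P hc
  obtain ⟨hk0, hk1⟩ := kap_bd
  have hP0 : P 0 ≠ 0 := by linarith
  have hP2 : P 2 ≠ 0 := by linarith
  have gp : Gr (fun Q : E => Q 1) P 0 1 0 := Gr.c1
  -- the angle
  set om := Real.pi / (2 * Real.log 3) / P 2 with hom
  set om0 := -(Real.pi / (2 * Real.log 3) / P 0) with hom0
  have ga : Gr al P om0 0 om := by
    have h4 := ((Gr.c2 (x := P)).log hP2).sub ((Gr.c0 (x := P)).log hP0)
    have h5 := h4.cmul (Real.pi / (2 * Real.log 3))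
    apply Gr.congr h5
    · rw [hom0]; ring
    · ring
    · rw [hom]; ring
  have hom1 : |om| ≤ 0.0158 := by
    rw [hom, abs_of_nonneg (by positivity), div_le_iff₀ (by linarith)]
    linarith
  have hom2 : |om0| ≤ 1.58 := by
    rw [hom0, abs_neg, abs_of_nonneg (by positivity), div_le_iff₀ (by linarith)]
    linarith
  set C := Real.cos (al P) with hC
  set S := Real.sin (al P) with hS
  set sg := ep (P 2) with hsgd
  set p := P 1 with hpd
  set y := tw (P 2) with hyd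
  set X := rX (al P) p y with hX
  set Y := rY (al P) p y with hY
  have hCS : C ^ 2 + S ^ 2 = 1 := by rw [hC, hS]; exact Real.cos_sq_add_sin_sq _
  have hXe : X = C * p - S * y := rfl
  have hYe : Y = S * p + C * y := rfl
  have gX : Gr (fun Q : E => rX (al Q) (Q 1) (tw (Q 2))) P (-Y * om0) C (-S * sg - Y * om) := by
    have h4 := (ga.cos.mul gp).sub (ga.sin.mul hy)
    apply Gr.congr h4
    · rw [hYe]; simp only [← hC, ← hS, ← hpd, ← hyd]; ring
    · simp only [← hC, ← hS, ← hpd, ← hyd]; ring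
    · rw [hYe]; simp only [← hC, ← hS, ← hpd, ← hyd]; ring
  have gY : Gr (fun Q : E => rY (al Q) (Q 1) (tw (Q 2))) P (X * om0) S (C * sg + X * om) := by
    have h4 := (ga.sin.mul gp).add (ga.cos.mul hy)
    apply Gr.congr h4
    · rw [hXe]; simp only [← hC, ← hS, ← hpd, ← hyd]; ring
    · simp only [← hC, ← hS, ← hpd, ← hyd]; ring
    · rw [hXe]; simp only [← hC, ← hS, ← hpd, ← hyd]; ring
  obtain ⟨n1, n2, hn, hM, gM⟩ := gp.Nd hy h1
  obtain ⟨v1, v2, hv, hD, gD⟩ := gX.Nd gY h3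
  simp only [← hpd, ← hyd] at hM
  have hD' : N X Y = v1 * X + v2 * Y := hD
  have hyb : |y| ≤ 1 := tw_bd _
  set M := N p y with hMd
  set D := N X Y with hDd
  have hMpos : 0 < M := by
    have : 0 ≤ M := (abs_nonneg p).trans (le_max_left _ _)
    apply lt_of_le_of_ne this
    intro h5
    apply h1
    have h6 : |p| ≤ 0 := h5 ▸ le_max_left _ _
    have h7 : |y| ≤ 0 := h5 ▸ le_max_right _ _
    have := abs_nonneg p
    have := abs_nonneg y
    linarith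
  have hDpos : 0 < D := by
    have : 0 ≤ D := (abs_nonneg X).trans (le_max_left _ _)
    apply lt_of_le_of_ne this
    intro h5
    apply h3
    have h6 : |X| ≤ 0 := h5 ▸ le_max_left _ _
    have h7 : |Y| ≤ 0 := h5 ▸ le_max_right _ _
    have := abs_nonneg X
    have := abs_nonneg Y
    linarith
  have hXD : |X| ≤ D := le_max_left _ _
  have hYD : |Y| ≤ D := le_max_right _ _
  have hpM : |p| ≤ M := le_max_left _ _
  have hyM : |y| ≤ M := le_max_right _ _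
  have hM1 : M ≤ 1 := max_le hp hyb
  have gm := gM.div gD hDpos.ne'
  have gq1 := gm.mul gX
  have gq2 := gm.mul gY
  have hder := hasFDerivAt_v3 (Gr.c0 (x := P)) gq1 gq2
  have hXY : X ^ 2 + Y ^ 2 = p ^ 2 + y ^ 2 := by
    rw [hXe, hYe]; linear_combination (p ^ 2 + y ^ 2) * hCS
  have hpsq : p ^ 2 ≤ M ^ 2 := by
    rw [← sq_abs p]; gcongr
  have hysq : y ^ 2 ≤ M ^ 2 := by
    rw [← sq_abs y]; gcongr
  have hXsq : X ^ 2 ≤ D ^ 2 := by
    rw [← sq_abs X]; gcongr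
  have hYsq : Y ^ 2 ≤ D ^ 2 := by
    rw [← sq_abs Y]; gcongr
  have hDsq : D ^ 2 ≤ X ^ 2 + Y ^ 2 := by
    rw [hD']
    rcases hv with ⟨h5, h6⟩ | ⟨h5, h6⟩
    · rw [h6]
      have := h5.sq
      have h7 : (v1 * X + 0 * Y) ^ 2 = v1 ^ 2 * X ^ 2 := by ring
      rw [h7, this]; nlinarith [sq_nonneg Y]
    · rw [h5]
      have := h6.sq
      have h7 : (0 * X + v2 * Y) ^ 2 = v2 ^ 2 * Y ^ 2 := by ring
      rw [h7, this]; nlinarith [sq_nonneg X]
  have hMsq : M ^ 2 ≤ p ^ 2 + y ^ 2 := by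
    rw [hM]
    rcases hn with ⟨h5, h6⟩ | ⟨h5, h6⟩
    · rw [h6]
      have := h5.sq
      have h7 : (n1 * p + 0 * y) ^ 2 = n1 ^ 2 * p ^ 2 := by ring
      rw [h7, this]; nlinarith [sq_nonneg y]
    · rw [h5]
      have := h6.sq
      have h7 : (0 * p + n2 * y) ^ 2 = n2 ^ 2 * y ^ 2 := by ring
      rw [h7, this]; nlinarith [sq_nonneg p]
  have hmpos : 0 < M / D := div_pos hMpos hDpos
  have hm1 : M / D ≤ 1.5 := by
    rw [div_le_iff₀ hDpos]
    have h : M ^ 2 ≤ (1.5 * D) ^ 2 := by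
      have h5 : (1.5 * D) ^ 2 = 2.25 * D ^ 2 := by ring
      rw [h5]
      linarith [sq_nonneg D]
    exact (sq_le_sq₀ hMpos.le (by positivity)).1 h
  have hm2 : 1 / 2 ≤ (M / D) ^ 2 := by
    rw [div_pow, le_div_iff₀ (by positivity)]
    linarith
  have hD15 : D ≤ 1.5 := by
    have h5 : M ^ 2 ≤ 1 := pow_le_one₀ hMpos.le hM1
    have h : D ^ 2 ≤ 1.5 ^ 2 := by
      norm_num
      linarith
    exact (sq_le_sq₀ hDpos.le (by norm_num)).1 h
  have hCb : |C| ≤ 1 := Real.abs_cos_le_one _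
  have hSb : |S| ≤ 1 := Real.abs_sin_le_one _
  have hsgb : |sg| = 1 := hsg.abs
  have hn1 : |n1 * 1 + n2 * 0| ≤ 1 := by
    rcases hn with ⟨h5, h6⟩ | ⟨h5, h6⟩
    · rw [h6, mul_zero, add_zero, mul_one, h5.abs]
    · rw [h5]; simp
  have hn2 : |n1 * 0 + n2 * sg| ≤ 1 := by
    rcases hn with ⟨h5, h6⟩ | ⟨h5, h6⟩
    · rw [h6]; simp
    · rw [h5, zero_mul, zero_add, abs_mul, h6.abs, hsgb, one_mul]
  have hn0 : |n1 * 0 + n2 * 0| ≤ 1 := by simp
  have bX0 : |(-Y * om0)| ≤ 1.58 * D := by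
    rw [abs_mul, abs_neg, mul_comm]
    gcongr
  have bY0 : |X * om0| ≤ 1.58 * D := by
    rw [abs_mul, mul_comm]
    gcongr
  have bX2 : |(-S * sg - Y * om)| ≤ 1.1 := by
    calc |(-S * sg - Y * om)| ≤ |(-S * sg)| + |Y * om| := abs_sub _ _
      _ = |S| * |sg| + |Y| * |om| := by rw [abs_mul, abs_mul, abs_neg]
      _ ≤ 1 * 1 + 1.5 * 0.0158 := by
        rw [hsgb]
        have : |Y| ≤ 1.5 := hYD.trans hD15
        gcongr
      _ ≤ 1.1 := by norm_num
  have bY2 : |(C * sg + X * om)| ≤ 1.1 := by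
    calc |(C * sg + X * om)| ≤ |(C * sg)| + |X * om| := abs_add_le _ _
      _ = |C| * |sg| + |X| * |om| := by rw [abs_mul, abs_mul]
      _ ≤ 1 * 1 + 1.5 * 0.0158 := by
        rw [hsgb]
        have : |X| ≤ 1.5 := hXD.trans hD15
        gcongr
      _ ≤ 1.1 := by norm_num
  have D0 : |v1 * (-Y * om0) + v2 * (X * om0)| ≤ 1.58 * D := sel_abs hv bX0 bY0
  have D1 : |v1 * C + v2 * S| ≤ 1 := sel_abs hv hCb hSb
  have D2 : |v1 * (-S * sg - Y * om) + v2 * (C * sg + X * om)| ≤ 1.1 := sel_abs hv bX2 bY2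
  set m := M / D with hm
  set m0 := ((n1 * 0 + n2 * 0) * D - M * (v1 * (-Y * om0) + v2 * (X * om0))) / D ^ 2 with hm0
  set m1 := ((n1 * 1 + n2 * 0) * D - M * (v1 * C + v2 * S)) / D ^ 2 with hmm1
  set m2 := ((n1 * 0 + n2 * sg) * D - M * (v1 * (-S * sg - Y * om) + v2 * (C * sg + X * om))) /
    D ^ 2 with hmm2
  have hder' : HasFDerivAt PB (linM (v3 1 (m0 * X + m * (-Y * om0)) (m0 * Y + m * (X * om0)))
      (v3 0 (m1 * X + m * C) (m1 * Y + m * S))
      (v3 0 (m2 * X + m * (-S * sg - Y * om)) (m2 * Y + m * (C * sg + X * om)))) P := hder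
  have q0X : |m0 * X| ≤ 1 + m * (1.58 * D) := quot_bd hMpos.le hDpos hn0 D0 hXD
  have q0Y : |m0 * Y| ≤ 1 + m * (1.58 * D) := quot_bd hMpos.le hDpos hn0 D0 hYD
  have q1X : |m1 * X| ≤ 1 + m * 1 := quot_bd hMpos.le hDpos hn1 D1 hXD
  have q1Y : |m1 * Y| ≤ 1 + m * 1 := quot_bd hMpos.le hDpos hn1 D1 hYD
  have q2X : |m2 * X| ≤ 1 + m * 1.1 := quot_bd hMpos.le hDpos hn2 D2 hXD
  have q2Y : |m2 * Y| ≤ 1 + m * 1.1 := quot_bd hMpos.le hDpos hn2 D2 hYD
  have hmD : m * D ≤ 2.25 := by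
    have : m * D = M := by rw [hm]; field_simp
    rw [this]; linarith
  have ab : ∀ {u w B1 B2 : ℝ}, |u| ≤ B1 → |w| ≤ B2 → |u + m * w| ≤ B1 + m * B2 := by
    intro u w B1 B2 hu hw
    calc |u + m * w| ≤ |u| + |m * w| := abs_add_le _ _
      _ = |u| + m * |w| := by rw [abs_mul, abs_of_pos hmpos]
      _ ≤ _ := by gcongr
  have e01 := ab q0X bX0
  have e02 := ab q0Y bY0
  have e11 := ab q1X hCb
  have e12 := ab q1Y hSb
  have e21 := ab q2X bX2
  have e22 := ab q2Y bY2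
  refine ⟨_, hder', ?_, ?_⟩
  · refine (linM_norm _ _ _).trans ?_
    have f0 := norm_v3_le 1 (m0 * X + m * (-Y * om0)) (m0 * Y + m * (X * om0))
    have f1 := norm_v3_le 0 (m1 * X + m * C) (m1 * Y + m * S)
    have f2 := norm_v3_le 0 (m2 * X + m * (-S * sg - Y * om)) (m2 * Y + m * (C * sg + X * om))
    rw [abs_one] at f0
    rw [abs_zero] at f1 f2
    linarith
  · rw [linM_det]
    have hA : m1 * (sg * p) + m2 * y = -(M * y * om * (v2 * X - v1 * Y)) / D ^ 2 := by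
      rw [hmm1, hmm2, div_mul_eq_mul_div, div_mul_eq_mul_div, ← add_div]
      congr 1
      linear_combination (-sg * D) * hM + (M * sg) * hD' + (M * sg * v1) * hXe + (M * sg * v2) * hYe
    have hW1 : C * (C * sg + X * om) - S * (-S * sg - Y * om) = sg + om * p := by
      rw [hXe, hYe]; linear_combination (sg + om * p) * hCS
    have hW2 : X * (C * sg + X * om) - Y * (-S * sg - Y * om) = sg * p + om * (X ^ 2 + Y ^ 2) := by
      have : C * X + S * Y = p := by rw [hXe, hYe]; linear_combination p * hCS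
      linear_combination sg * this
    have hW3 : C * Y - S * X = y := by
      rw [hXe, hYe]; linear_combination y * hCS
    have hdet : T (v3 1 (m0 * X + m * (-Y * om0)) (m0 * Y + m * (X * om0)))
        (v3 0 (m1 * X + m * C) (m1 * Y + m * S))
        (v3 0 (m2 * X + m * (-S * sg - Y * om)) (m2 * Y + m * (C * sg + X * om))) =
        sg * m ^ 2 + om * (m * (m1 * (X ^ 2 + Y ^ 2) - M * y * (v2 * X - v1 * Y) / D ^ 2 + m * p)) := by
      have h9 : T (v3 1 (m0 * X + m * (-Y * om0)) (m0 * Y + m * (X * om0)))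
        (v3 0 (m1 * X + m * C) (m1 * Y + m * S))
        (v3 0 (m2 * X + m * (-S * sg - Y * om)) (m2 * Y + m * (C * sg + X * om))) =
        m * m1 * (X * (C * sg + X * om) - Y * (-S * sg - Y * om)) + m * m2 * (C * Y - S * X) +
        m ^ 2 * (C * (C * sg + X * om) - S * (-S * sg - Y * om)) := by
        simp only [T, v3_0, v3_1, v3_2]; ring
      rw [h9, hW1, hW2, hW3]
      have h10 : -(M * y * om * (v2 * X - v1 * Y)) / D ^ 2 =
        - om * (M * y * (v2 * X - v1 * Y) / D ^ 2) := by ring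
      rw [h10] at hA
      linear_combination m * hA
    rw [hdet]
    have hsq := hsg.sq
    have e1 : sg * (sg * m ^ 2 + om * (m * (m1 * (X ^ 2 + Y ^ 2) - M * y * (v2 * X - v1 * Y) / D ^ 2 +
        m * p))) = m ^ 2 + sg * om * (m * (m1 * (X ^ 2 + Y ^ 2) - M * y * (v2 * X - v1 * Y) / D ^ 2 +
        m * p)) := by
      linear_combination m ^ 2 * hsq
    rw [e1]
    -- bounds
    have hm1b : |m1 * (X ^ 2 + Y ^ 2)| ≤ 5 := by
      have g1 : |(n1 * 1 + n2 * 0) * D - M * (v1 * C + v2 * S)| ≤ D + M := by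
        calc |(n1 * 1 + n2 * 0) * D - M * (v1 * C + v2 * S)| ≤
            |(n1 * 1 + n2 * 0) * D| + |M * (v1 * C + v2 * S)| := abs_sub _ _
          _ = |n1 * 1 + n2 * 0| * D + M * |v1 * C + v2 * S| := by
            rw [abs_mul, abs_mul, abs_of_pos hDpos, abs_of_pos hMpos]
          _ ≤ 1 * D + M * 1 := by gcongr
          _ = _ := by ring
      rw [hmm1, div_mul_eq_mul_div, abs_div, abs_mul, abs_of_pos (by positivity : 0 < D ^ 2),
        abs_of_nonneg (by positivity : 0 ≤ X ^ 2 + Y ^ 2), div_le_iff₀ (by positivity)]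
      calc |(n1 * 1 + n2 * 0) * D - M * (v1 * C + v2 * S)| * (X ^ 2 + Y ^ 2)
          ≤ (D + M) * (D ^ 2 + D ^ 2) := by gcongr
        _ ≤ 2.5 * (D ^ 2 + D ^ 2) := by gcongr; linarith
        _ = 5 * D ^ 2 := by ring
    have hsel : |v2 * X - v1 * Y| ≤ D := by
      rcases hv with ⟨h5, h6⟩ | ⟨h5, h6⟩
      · rw [h6, zero_mul, zero_sub, abs_neg, abs_mul, h5.abs, one_mul]; exact hYD
      · rw [h5, zero_mul, sub_zero, abs_mul, h6.abs, one_mul]; exact hXD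
    have hb2 : |M * y * (v2 * X - v1 * Y) / D ^ 2| ≤ 1.5 := by
      rw [abs_div, abs_mul, abs_mul, abs_of_pos (by positivity : 0 < D ^ 2), abs_of_pos hMpos,
        div_le_iff₀ (by positivity)]
      have h11 : M ≤ 1.5 * D := by
        rw [hm] at hm1
        rwa [div_le_iff₀ hDpos] at hm1
      calc M * |y| * |v2 * X - v1 * Y| ≤ (1.5 * D) * 1 * D := by gcongr
        _ = _ := by ring
    have hb3 : |m * p| ≤ 1.5 := by
      rw [abs_mul, abs_of_pos hmpos]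
      calc m * |p| ≤ 1.5 * 1 := by gcongr
        _ = _ := by ring
    have hb4 : |m1 * (X ^ 2 + Y ^ 2) - M * y * (v2 * X - v1 * Y) / D ^ 2 + m * p| ≤ 8 := by
      calc _ ≤ |m1 * (X ^ 2 + Y ^ 2) - M * y * (v2 * X - v1 * Y) / D ^ 2| + |m * p| := abs_add_le _ _
        _ ≤ |m1 * (X ^ 2 + Y ^ 2)| + |M * y * (v2 * X - v1 * Y) / D ^ 2| + |m * p| := by
          gcongr; exact abs_sub _ _
        _ ≤ 5 + 1.5 + 1.5 := by gcongr
        _ = 8 := by norm_num
    have hb5 : |sg * om * (m * (m1 * (X ^ 2 + Y ^ 2) - M * y * (v2 * X - v1 * Y) / D ^ 2 +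
        m * p))| ≤ 0.2 := by
      rw [abs_mul, abs_mul, abs_mul, hsgb, one_mul, abs_of_pos hmpos]
      have h12 : |om| * (m * |m1 * (X ^ 2 + Y ^ 2) - M * y * (v2 * X - v1 * Y) / D ^ 2 + m * p|) ≤
          0.0158 * (1.5 * 8) := by gcongr
      refine h12.trans ?_
      norm_num
    have := (abs_le.1 hb5).1
    linarith

end Pool.Agent.Helper746.Ep
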