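import Pool.Agent.Helper746.EpNull
import Pool.Agent.Helper746.EpPA
import Pool.Agent.Helper746.EpPB
import Pool.Agent.Helper746.EpF

set_option autoImplicit false
open MeasureTheory Filter Topology

namespace Pool.Agent.Helper746.Ep

/-- points avoiding all rational planes -/
def Gen (y : E) : Prop := ∀ α β γ δ : ℚ, (α ≠ 0 ∨ β ≠ 0 ∨ γ ≠ 0) →
  (α : ℝ) * y 0 + β * y 1 + γ * y 2 ≠ δ

lemma plane_null (f : E →ₗ[ℝ] ℝ) (hf : ∃ v, f v ≠ 0) (δ : ℝ) :
    (volume : Measure E) {p : E | f p = δ} = 0 := by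
  by_cases hne : ∃ p₀, f p₀ = δ
  · obtain ⟨p₀, hp₀⟩ := hne
    have hs : (AffineSubspace.mk' p₀ (LinearMap.ker f)) ≠ ⊤ := by
      intro h
      obtain ⟨v, hv⟩ := hf
      have : p₀ + v ∈ AffineSubspace.mk' p₀ (LinearMap.ker f) := by rw [h]; trivial
      rw [AffineSubspace.mem_mk'] at this
      simp at this
      exact hv this
    have := Measure.addHaar_affineSubspace (volume : Measure E) _ hs
    convert this using 2
    ext p
    simp only [Set.mem_ofPred_eq, SetLike.mem_coe, AffineSubspace.mem_mk', LinearMap.mem_ker,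
      vsub_eq_sub, map_sub, hp₀, sub_eq_zero]
  · push Not at hne
    have : {p : E | f p = δ} = ∅ := by ext p; simp [hne p]
    rw [this, measure_empty]

/-- a linear form -/
noncomputable def lf (a b c : ℝ) : E →ₗ[ℝ] ℝ where
  toFun p := a * p 0 + b * p 1 + c * p 2
  map_add' x y := by simp; ring
  map_smul' r x := by simp; ring

lemma lf_null (a b c δ : ℝ) (h : a ≠ 0 ∨ b ≠ 0 ∨ c ≠ 0) :
    (volume : Measure E) {p : E | a * p 0 + b * p 1 + c * p 2 = δ} = 0 := by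
  apply plane_null (lf a b c)
  refine ⟨v3 a b c, ?_⟩
  change a * a + b * b + c * c ≠ 0
  have h0 : (0 : ℝ) < a * a + b * b + c * c := by
    rcases h with h | h | h
    · have := mul_self_pos.2 h; nlinarith [mul_self_nonneg b, mul_self_nonneg c]
    · have := mul_self_pos.2 h; nlinarith [mul_self_nonneg a, mul_self_nonneg c]
    · have := mul_self_pos.2 h; nlinarith [mul_self_nonneg a, mul_self_nonneg b]
  exact h0.ne'

lemma ae_gen : ∀ᵐ y : E ∂volume, Gen y := by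
  unfold Gen
  rw [ae_all_iff]; intro α
  rw [ae_all_iff]; intro β
  rw [ae_all_iff]; intro γ
  rw [ae_all_iff]; intro δ
  by_cases h : α ≠ 0 ∨ β ≠ 0 ∨ γ ≠ 0
  · simp only [h, forall_const]
    rw [ae_iff]
    have := lf_null (α : ℝ) β γ δ (by
      rcases h with h | h | h
      · left; exact_mod_cast h
      · right; left; exact_mod_cast h
      · right; right; exact_mod_cast h)
    convert this using 2
    ext p
    simp
  · simp [h]

/-- pulling back an almost everywhere statement by a nondegenerate map -/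
lemma ae_pull (f : E → E) (p : E → Prop) (D : E → Prop) (hp : ∀ᵐ y ∂(volume : Measure E), p y)
    (hD : ∀ x, D x → ∃ A : E →L[ℝ] E, HasFDerivAt f A x ∧ A.det ≠ 0) :
    ∀ᵐ x ∂(volume : Measure E), D x → p (f x) := by
  rw [ae_iff] at hp ⊢
  apply null_preimage f _ _ hp
  intro x hx
  simp only [Set.mem_ofPred_eq, Classical.not_imp] at hx
  exact ⟨hx.2, hD x hx.1⟩

/-- admissible points for the first stage -/
def DomA (x : E) : Prop := x 0 ≠ 0 ∧ x 1 ≠ 0 ∧ rr x < Real.exp (-100)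

lemma ae_PA_pull (k : ℕ) (p : E → Prop) (hp : ∀ᵐ y ∂(volume : Measure E), p y) :
    ∀ᵐ x ∂(volume : Measure E), DomA x → p (PA k x) :=
  ae_pull (PA k) p DomA hp (fun x hx => PA_nondeg k x hx.1 hx.2.1 hx.2.2)

lemma Gen.ne {y : E} (hG : Gen y) (α β γ δ : ℚ) (h : α ≠ 0 ∨ β ≠ 0 ∨ γ ≠ 0) :
    (α : ℝ) * y 0 + β * y 1 + γ * y 2 ≠ δ := hG α β γ δ h

/-- generic points have generic triangle data -/
lemma Gen.cw2 {P : E} (hG : Gen P) : cw (P 2) ≠ 0 ∧ tw (P 2) ≠ 0 ∧ |P 1| ≠ |tw (P 2)| := by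
  obtain ⟨k, s, hs, hk, h⟩ := tri (P 2)
  have h1 := h (P 2) hk
  have hs0 : s ≠ 0 := by rcases hs with e | e <;> rw [e] <;> norm_num
  refine ⟨?_, ?_, ?_⟩
  · rw [h1.2]
    refine mul_ne_zero hs0 ?_
    intro h0
    rcases abs_choice (P 2 - 2 * (k : ℝ)) with ha | ha
    · apply hG.ne 0 0 1 (2 * k + 1) (by norm_num)
      rw [ha] at h0; push_cast; linarith
    · apply hG.ne 0 0 1 (2 * k - 1) (by norm_num)
      rw [ha] at h0; push_cast; linarith
  · rw [h1.1]
    refine mul_ne_zero hs0 ?_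
    intro h0
    apply hG.ne 0 0 1 (2 * k) (by norm_num)
    push_cast; linarith
  · rw [h1.1, abs_mul, hs.abs, one_mul]
    intro h0
    rcases abs_eq_abs.1 h0 with h2 | h2
    · apply hG.ne 0 1 (-1) (-(2 * k)) (by norm_num)
      push_cast; linarith
    · apply hG.ne 0 1 1 (2 * k) (by norm_num)
      push_cast; linarith

/-- triangle data for the last stage -/
lemma Gen.cells {Q : E} (hG : Gen Q) (k : ℕ) : cw (3 ^ k * Q 1) ≠ 0 ∧ cw (3 ^ (k + 1) * Q 2) ≠ 0 ∧
    |cw (3 ^ k * Q 1)| ≠ |cw (3 ^ (k + 1) * Q 2)| := by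
  obtain ⟨a, s, hs, ha, h⟩ := tri (3 ^ k * Q 1)
  obtain ⟨b, s', hs', hb, h'⟩ := tri (3 ^ (k + 1) * Q 2)
  have h1 := (h _ ha).2
  have h2 := (h' _ hb).2
  have hs0 : s ≠ 0 := by rcases hs with e | e <;> rw [e] <;> norm_num
  have hs0' : s' ≠ 0 := by rcases hs' with e | e <;> rw [e] <;> norm_num
  have p1 : (3 ^ k : ℚ) ≠ 0 := by positivity
  have p2 : (3 ^ (k + 1) : ℚ) ≠ 0 := by positivity
  refine ⟨?_, ?_, ?_⟩
  · rw [h1]
    refine mul_ne_zero hs0 ?_
    intro h0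
    rcases abs_choice (3 ^ k * Q 1 - 2 * (a : ℝ)) with hc | hc
    · apply hG.ne 0 (3 ^ k) 0 (2 * a + 1) (Or.inr (Or.inl p1))
      rw [hc] at h0; push_cast; linarith
    · apply hG.ne 0 (3 ^ k) 0 (2 * a - 1) (Or.inr (Or.inl p1))
      rw [hc] at h0; push_cast; linarith
  · rw [h2]
    refine mul_ne_zero hs0' ?_
    intro h0
    rcases abs_choice (3 ^ (k + 1) * Q 2 - 2 * (b : ℝ)) with hc | hc
    · apply hG.ne 0 0 (3 ^ (k + 1)) (2 * b + 1) (Or.inr (Or.inr p2))
      rw [hc] at h0; push_cast; linarith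
    · apply hG.ne 0 0 (3 ^ (k + 1)) (2 * b - 1) (Or.inr (Or.inr p2))
      rw [hc] at h0; push_cast; linarith
  · have g1 : 0 ≤ 1 - |3 ^ k * Q 1 - 2 * (a : ℝ)| := by linarith
    have g2 : 0 ≤ 1 - |3 ^ (k + 1) * Q 2 - 2 * (b : ℝ)| := by linarith
    rw [h1, h2, abs_mul, abs_mul, hs.abs, hs'.abs, one_mul, one_mul, abs_of_nonneg g1,
      abs_of_nonneg g2]
    intro h0
    have h3 : |3 ^ k * Q 1 - 2 * (a : ℝ)| = |3 ^ (k + 1) * Q 2 - 2 * (b : ℝ)| := by linarith
    rcases abs_eq_abs.1 h3 with h4 | h4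
    · apply hG.ne 0 (3 ^ k) (-3 ^ (k + 1)) (2 * a - 2 * b) (Or.inr (Or.inl p1))
      push_cast; linarith
    · apply hG.ne 0 (3 ^ k) (3 ^ (k + 1)) (2 * a + 2 * b) (Or.inr (Or.inl p1))
      push_cast; linarith

lemma al_gr {P : E} (h0 : 0 < P 0) (h2 : 0 < P 2) :
    Gr al P (-(Real.pi / (2 * Real.log 3)) / P 0) 0 (Real.pi / (2 * Real.log 3) / P 2) := by
  unfold al
  have h := ((Gr.c2 (x := P)).log h2.ne').sub ((Gr.c0 (x := P)).log h0.ne')
  have h' := h.cmul (Real.pi / (2 * Real.log 3))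
  apply h'.congr <;> ring

lemma tw_gr {P : E} (hc : cw (P 2) ≠ 0) : ∃ s : ℝ, IsS s ∧ Gr (fun p => tw (p 2)) P 0 0 s := by
  obtain ⟨k, s, hs, hk, h⟩ := tri (P 2)
  refine ⟨s, hs, ?_⟩
  have h1 : |P 2 - 2 * (k : ℝ)| < 1 := by
    apply lt_of_le_of_ne hk
    intro h0
    apply hc
    rw [(h _ hk).2, h0]; ring
  have hg : Gr (fun p : E => s * (p 2 - 2 * k)) P 0 0 s := by
    have := ((Gr.c2 (x := P)).sub (Gr.const (2 * (k : ℝ)))).cmul s
    apply this.congr <;> ring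
  apply hg.of_eq
  have hcont : ContinuousAt (fun p : E => |p 2 - 2 * (k : ℝ)|) P := by fun_prop
  filter_upwards [hcont.eventually_lt continuousAt_const h1] with p hp
  exact (h _ hp.le).1

/-- the rotated point is off the diagonals almost everywhere -/
lemma ae_XY : ∀ᵐ P ∂(volume : Measure E), (0 < P 0 ∧ 0 < P 2) →
    |rX (al P) (P 1) (tw (P 2))| ≠ |rY (al P) (P 1) (tw (P 2))| := by
  have hplane : ∀ᵐ y ∂(volume : Measure E), y 1 ≠ 0 := by
    filter_upwards [ae_gen] with y hy h0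
    apply hy.ne 0 1 0 0 (by norm_num)
    push_cast; linarith
  have key : ∀ σ : ℝ, IsS σ → ∀ᵐ P ∂(volume : Measure E), ((0 < P 0 ∧ 0 < P 2) ∧ Gen P ∧
      Real.cos (al P) - σ * Real.sin (al P) ≠ 0) →
      rX (al P) (P 1) (tw (P 2)) - σ * rY (al P) (P 1) (tw (P 2)) ≠ 0 := by
    intro σ hσ
    have := ae_pull (fun P => v3 (P 0) (rX (al P) (P 1) (tw (P 2)) - σ * rY (al P) (P 1) (tw (P 2)))
      (P 2)) (fun y => y 1 ≠ 0) (fun P => ((0 < P 0 ∧ 0 < P 2) ∧ Gen P ∧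
      Real.cos (al P) - σ * Real.sin (al P) ≠ 0)) hplane ?_
    · simpa using this
    · rintro P ⟨⟨h0, h2⟩, hG, hcs⟩
      obtain ⟨s, hs, ht⟩ := tw_gr hG.cw2.1
      have ha := al_gr h0 h2
      have hX := ((ha.cos.mul (Gr.c1 (x := P))).sub (ha.sin.mul ht))
      have hY := ((ha.sin.mul (Gr.c1 (x := P))).add (ha.cos.mul ht))
      have h := hasFDerivAt_v3 (Gr.c0 (x := P)) (hX.sub (hY.cmul σ)) (Gr.c2 (x := P))
      refine ⟨_, h, ?_⟩
      rw [linM_det]
      unfold T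
      simp only [v3_0, v3_1, v3_2]
      intro h'
      apply hcs
      linear_combination h'
  filter_upwards [key 1 (Or.inl rfl), key (-1) (Or.inr rfl), ae_gen] with P h1 h2 hG hpos
  intro habs
  have hy := hG.cw2.2.1
  have hcs := Real.cos_sq_add_sin_sq (al P)
  rcases abs_eq_abs.1 habs with h | h
  · -- X = Y
    by_cases hc : Real.cos (al P) - 1 * Real.sin (al P) = 0
    · unfold rX rY at h
      have e : Real.cos (al P) = Real.sin (al P) := by linarith
      rw [e] at h hcs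
      have hS : Real.sin (al P) ≠ 0 := by
        intro h0; rw [h0] at hcs; norm_num at hcs
      apply hy
      have : Real.sin (al P) * tw (P 2) = 0 := by linarith
      exact (mul_eq_zero.1 this).resolve_left hS
    · apply h1 ⟨hpos, hG, hc⟩
      rw [h]; ring
  · by_cases hc : Real.cos (al P) - -1 * Real.sin (al P) = 0
    · unfold rX rY at h
      have e : Real.cos (al P) = -Real.sin (al P) := by linarith
      rw [e] at h hcs
      have hS : Real.sin (al P) ≠ 0 := by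
        intro h0; rw [h0] at hcs; norm_num at hcs
      apply hy
      have : Real.sin (al P) * tw (P 2) = 0 := by linarith
      exact (mul_eq_zero.1 this).resolve_left hS
    · apply h2 ⟨hpos, hG, hc⟩
      rw [h]; ring

/-- domain of the second stage -/
def DB (P : E) : Prop := 1 ≤ P 0 ∧ 100 ≤ P 2 ∧ |P 1| ≤ 1 ∧ cw (P 2) ≠ 0 ∧ |P 1| ≠ |tw (P 2)| ∧
  |rX (al P) (P 1) (tw (P 2))| ≠ |rY (al P) (P 1) (tw (P 2))|

lemma ae_PB : ∀ᵐ P ∂(volume : Measure E), DB P → Gen (PB P) := by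
  apply ae_pull PB Gen DB ae_gen
  rintro P ⟨h0, h2, hp, hc, h1, h3⟩
  obtain ⟨A, hA, hn, hd⟩ := PB_good P h0 h2 hp hc h1 h3
  refine ⟨A, hA, ?_⟩
  intro h
  rw [h, mul_zero] at hd
  norm_num at hd

/-- the good points of the first stage, in band `k` -/
def GoodP (k : ℕ) (x : E) : Prop := Gen (PA k x) ∧
  |rX (al (PA k x)) (PA k x 1) (tw (PA k x 2))| ≠ |rY (al (PA k x)) (PA k x 1) (tw (PA k x 2))| ∧
  (DB (PA k x) → Gen (PB (PA k x)))

lemma ae_all_good : ∀ᵐ x ∂(volume : Measure E), Gen x ∧ (DomA x → ∀ k, GoodP k x) := by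
  have h : ∀ᵐ x ∂(volume : Measure E), ∀ k, DomA x → GoodP k x := by
    rw [ae_all_iff]
    intro k
    filter_upwards [ae_PA_pull k Gen ae_gen, ae_PA_pull k _ ae_XY, ae_PA_pull k _ ae_PB]
      with x h1 h2 h3 hD
    exact ⟨h1 hD, h2 hD ⟨PA0_pos k x, PA2_pos k x⟩, h3 hD⟩
  filter_upwards [h, ae_gen] with x hx hG
  exact ⟨hG, fun hD k => hx k hD⟩

end Pool.Agent.Helper746.Ep
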