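import Mathlib

set_option autoImplicit false
open MeasureTheory Filter Topology

namespace Pool.Agent.Helper746.Ep

/-- Euclidean three-space. -/
abbrev E := EuclideanSpace ℝ (Fin 3)

lemma ext3 {a b : E} (h0 : a 0 = b 0) (h1 : a 1 = b 1) (h2 : a 2 = b 2) : a = b := by
  ext i; fin_cases i <;> assumption

/-- the vector with the given coordinates -/
noncomputable def v3 (a b c : ℝ) : E := WithLp.toLp 2 ![a, b, c]

@[simp] lemma v3_0 (a b c : ℝ) : v3 a b c 0 = a := rfl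
@[simp] lemma v3_1 (a b c : ℝ) : v3 a b c 1 = b := rfl
@[simp] lemma v3_2 (a b c : ℝ) : v3 a b c 2 = c := rfl

lemma abs_coord (x : E) (i : Fin 3) : |x i| ≤ ‖x‖ := by
  have := PiLp.norm_apply_le x i
  simpa using this

lemma norm_v3_le (a b c : ℝ) : ‖v3 a b c‖ ≤ |a| + |b| + |c| := by
  have h : ‖v3 a b c‖ ^ 2 = a ^ 2 + b ^ 2 + c ^ 2 := by
    rw [EuclideanSpace.real_norm_sq_eq]; simp [Fin.sum_univ_three]
  have h1 : ‖v3 a b c‖ ^ 2 ≤ (|a| + |b| + |c|) ^ 2 := by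
    rw [h, ← sq_abs a, ← sq_abs b, ← sq_abs c]
    nlinarith [abs_nonneg a, abs_nonneg b, abs_nonneg c, mul_nonneg (abs_nonneg a) (abs_nonneg b),
      mul_nonneg (abs_nonneg a) (abs_nonneg c), mul_nonneg (abs_nonneg b) (abs_nonneg c)]
  exact (sq_le_sq₀ (norm_nonneg _) (by positivity)).1 h1

/-- the linear map with columns `a, b, c` -/
noncomputable def linM (a b c : E) : E →L[ℝ] E :=
  (EuclideanSpace.proj 0 : E →L[ℝ] ℝ).smulRight a + (EuclideanSpace.proj 1 : E →L[ℝ] ℝ).smulRight b +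
    (EuclideanSpace.proj 2 : E →L[ℝ] ℝ).smulRight c

lemma linM_apply (a b c p : E) : linM a b c p = p 0 • a + p 1 • b + p 2 • c := by
  simp [linM]

lemma linM_norm (a b c : E) : ‖linM a b c‖ ≤ ‖a‖ + ‖b‖ + ‖c‖ := by
  apply ContinuousLinearMap.opNorm_le_bound _ (by positivity)
  intro p
  rw [linM_apply]
  calc ‖p 0 • a + p 1 • b + p 2 • c‖ ≤ ‖p 0 • a‖ + ‖p 1 • b‖ + ‖p 2 • c‖ := norm_add₃_le
    _ = |p 0| * ‖a‖ + |p 1| * ‖b‖ + |p 2| * ‖c‖ := by
        rw [norm_smul, norm_smul, norm_smul]; rfl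
    _ ≤ ‖p‖ * ‖a‖ + ‖p‖ * ‖b‖ + ‖p‖ * ‖c‖ := by
        have := abs_coord p 0; have := abs_coord p 1; have := abs_coord p 2
        gcongr
    _ = _ := by ring

/-- the determinant with columns `a, b, c` -/
noncomputable def T (a b c : E) : ℝ :=
  (a 1 * b 2 - a 2 * b 1) * c 0 + (a 2 * b 0 - a 0 * b 2) * c 1 + (a 0 * b 1 - a 1 * b 0) * c 2

lemma linM_det (a b c : E) : ContinuousLinearMap.det (linM a b c) = T a b c := by
  unfold ContinuousLinearMap.det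
  rw [← LinearMap.det_toMatrix (EuclideanSpace.basisFun (Fin 3) ℝ).toBasis]
  rw [Matrix.det_fin_three]
  simp only [LinearMap.toMatrix_apply, OrthonormalBasis.coe_toBasis,
    EuclideanSpace.basisFun_apply, OrthonormalBasis.coe_toBasis_repr_apply,
    EuclideanSpace.basisFun_repr, ContinuousLinearMap.coe_coe, linM_apply]
  simp [T]
  ring

lemma det_comp' (A B : E →L[ℝ] E) :
    ContinuousLinearMap.det (A.comp B) = ContinuousLinearMap.det A * ContinuousLinearMap.det B := by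
  unfold ContinuousLinearMap.det
  rw [← LinearMap.det_comp]; rfl

/-- `f` has gradient `(a, b, c)` at `x` -/
def Gr (f : E → ℝ) (x : E) (a b c : ℝ) : Prop :=
  HasFDerivAt f (a • (EuclideanSpace.proj 0 : E →L[ℝ] ℝ) + b • (EuclideanSpace.proj 1 : E →L[ℝ] ℝ) +
    c • (EuclideanSpace.proj 2 : E →L[ℝ] ℝ)) x

namespace Gr

variable {f g : E → ℝ} {x : E} {a b c a' b' c' : ℝ}

lemma congr (h : Gr f x a b c) (ha : a = a') (hb : b = b') (hc : c = c') : Gr f x a' b' c' := by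
  subst ha hb hc; exact h

lemma of_eq (h : Gr f x a b c) (he : g =ᶠ[𝓝 x] f) : Gr g x a b c :=
  HasFDerivAt.congr_of_eventuallyEq h he

lemma c0 : Gr (fun y => y 0) x 1 0 0 := by
  have h : HasFDerivAt (fun y : E => y 0) (EuclideanSpace.proj 0 : E →L[ℝ] ℝ) x :=
    (EuclideanSpace.proj 0 : E →L[ℝ] ℝ).hasFDerivAt
  unfold Gr; simpa using h
lemma c1 : Gr (fun y => y 1) x 0 1 0 := by
  have h : HasFDerivAt (fun y : E => y 1) (EuclideanSpace.proj 1 : E →L[ℝ] ℝ) x :=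
    (EuclideanSpace.proj 1 : E →L[ℝ] ℝ).hasFDerivAt
  unfold Gr; simpa using h
lemma c2 : Gr (fun y => y 2) x 0 0 1 := by
  have h : HasFDerivAt (fun y : E => y 2) (EuclideanSpace.proj 2 : E →L[ℝ] ℝ) x :=
    (EuclideanSpace.proj 2 : E →L[ℝ] ℝ).hasFDerivAt
  unfold Gr; simpa using h
lemma const (r : ℝ) : Gr (fun _ => r) x 0 0 0 := by
  unfold Gr; simpa using hasFDerivAt_const r x

lemma add (hf : Gr f x a b c) (hg : Gr g x a' b' c') :
    Gr (fun y => f y + g y) x (a + a') (b + b') (c + c') := by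
  have h := HasFDerivAt.add hf hg
  unfold Gr
  have e : (a + a') • (EuclideanSpace.proj 0 : E →L[ℝ] ℝ) + (b + b') • (EuclideanSpace.proj 1 : E →L[ℝ] ℝ) +
    (c + c') • (EuclideanSpace.proj 2 : E →L[ℝ] ℝ) = (a • (EuclideanSpace.proj 0 : E →L[ℝ] ℝ) +
      b • (EuclideanSpace.proj 1 : E →L[ℝ] ℝ) + c • (EuclideanSpace.proj 2 : E →L[ℝ] ℝ)) +
      (a' • (EuclideanSpace.proj 0 : E →L[ℝ] ℝ) +
      b' • (EuclideanSpace.proj 1 : E →L[ℝ] ℝ) + c' • (EuclideanSpace.proj 2 : E →L[ℝ] ℝ)) := by module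
  rw [e]
  exact h

lemma sub (hf : Gr f x a b c) (hg : Gr g x a' b' c') :
    Gr (fun y => f y - g y) x (a - a') (b - b') (c - c') := by
  have h := HasFDerivAt.sub hf hg
  unfold Gr
  have e : (a - a') • (EuclideanSpace.proj 0 : E →L[ℝ] ℝ) + (b - b') • (EuclideanSpace.proj 1 : E →L[ℝ] ℝ) +
    (c - c') • (EuclideanSpace.proj 2 : E →L[ℝ] ℝ) = (a • (EuclideanSpace.proj 0 : E →L[ℝ] ℝ) +
      b • (EuclideanSpace.proj 1 : E →L[ℝ] ℝ) + c • (EuclideanSpace.proj 2 : E →L[ℝ] ℝ)) -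
      (a' • (EuclideanSpace.proj 0 : E →L[ℝ] ℝ) +
      b' • (EuclideanSpace.proj 1 : E →L[ℝ] ℝ) + c' • (EuclideanSpace.proj 2 : E →L[ℝ] ℝ)) := by module
  rw [e]
  exact h

lemma mul (hf : Gr f x a b c) (hg : Gr g x a' b' c') :
    Gr (fun y => f y * g y) x (a * g x + f x * a') (b * g x + f x * b') (c * g x + f x * c') := by
  have h := HasFDerivAt.mul hf hg
  unfold Gr
  have e : (a * g x + f x * a') • (EuclideanSpace.proj 0 : E →L[ℝ] ℝ) +
    (b * g x + f x * b') • (EuclideanSpace.proj 1 : E →L[ℝ] ℝ) +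
    (c * g x + f x * c') • (EuclideanSpace.proj 2 : E →L[ℝ] ℝ) =
      f x • (a' • (EuclideanSpace.proj 0 : E →L[ℝ] ℝ) +
      b' • (EuclideanSpace.proj 1 : E →L[ℝ] ℝ) + c' • (EuclideanSpace.proj 2 : E →L[ℝ] ℝ)) +
      g x • (a • (EuclideanSpace.proj 0 : E →L[ℝ] ℝ) +
      b • (EuclideanSpace.proj 1 : E →L[ℝ] ℝ) + c • (EuclideanSpace.proj 2 : E →L[ℝ] ℝ)) := by module
  rw [e]
  exact h

lemma comp {h : ℝ → ℝ} {h' : ℝ} (hf : Gr f x a b c) (hh : HasDerivAt h h' (f x)) :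
    Gr (fun y => h (f y)) x (h' * a) (h' * b) (h' * c) := by
  have h1 := HasDerivAt.comp_hasFDerivAt x hh hf
  unfold Gr
  have e : (h' * a) • (EuclideanSpace.proj 0 : E →L[ℝ] ℝ) + (h' * b) • (EuclideanSpace.proj 1 : E →L[ℝ] ℝ) +
    (h' * c) • (EuclideanSpace.proj 2 : E →L[ℝ] ℝ) = h' • (a • (EuclideanSpace.proj 0 : E →L[ℝ] ℝ) +
      b • (EuclideanSpace.proj 1 : E →L[ℝ] ℝ) + c • (EuclideanSpace.proj 2 : E →L[ℝ] ℝ)) := by module
  rw [e]
  exact h1

lemma cmul (r : ℝ) (hf : Gr f x a b c) : Gr (fun y => r * f y) x (r * a) (r * b) (r * c) := by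
  have := (Gr.const (x := x) r).mul hf
  simpa using this

lemma div (hf : Gr f x a b c) (hg : Gr g x a' b' c') (h0 : g x ≠ 0) :
    Gr (fun y => f y / g y) x ((a * g x - f x * a') / g x ^ 2) ((b * g x - f x * b') / g x ^ 2)
      ((c * g x - f x * c') / g x ^ 2) := by
  have h1 := hf.mul (hg.comp (hasDerivAt_inv h0))
  apply Gr.congr h1 <;> (field_simp; ring)

lemma log (hf : Gr f x a b c) (h0 : f x ≠ 0) :
    Gr (fun y => Real.log (f y)) x (a / f x) (b / f x) (c / f x) := by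
  have := hf.comp (Real.hasDerivAt_log h0)
  apply Gr.congr this <;> (field_simp)

lemma exp (hf : Gr f x a b c) :
    Gr (fun y => Real.exp (f y)) x (Real.exp (f x) * a) (Real.exp (f x) * b)
      (Real.exp (f x) * c) := hf.comp (Real.hasDerivAt_exp _)

lemma cos (hf : Gr f x a b c) :
    Gr (fun y => Real.cos (f y)) x (-Real.sin (f x) * a) (-Real.sin (f x) * b)
      (-Real.sin (f x) * c) := hf.comp (Real.hasDerivAt_cos _)

lemma sin (hf : Gr f x a b c) :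
    Gr (fun y => Real.sin (f y)) x (Real.cos (f x) * a) (Real.cos (f x) * b)
      (Real.cos (f x) * c) := hf.comp (Real.hasDerivAt_sin _)

end Gr

/-- assembling a map from its three components -/
lemma hasFDerivAt_v3 {f g h : E → ℝ} {x : E} {a b c a' b' c' a'' b'' c'' : ℝ}
    (hf : Gr f x a b c) (hg : Gr g x a' b' c') (hh : Gr h x a'' b'' c'') :
    HasFDerivAt (fun y => v3 (f y) (g y) (h y))
      (linM (v3 a a' a'') (v3 b b' b'') (v3 c c' c'')) x := by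
  rw [← hasFDerivWithinAt_univ, hasFDerivWithinAt_euclidean]
  intro i
  rw [hasFDerivWithinAt_univ]
  fin_cases i
  · have : (PiLp.proj 2 (fun _ : Fin 3 => ℝ) 0 : E →L[ℝ] ℝ) ∘L
        (linM (v3 a a' a'') (v3 b b' b'') (v3 c c' c'')) =
        a • (EuclideanSpace.proj 0 : E →L[ℝ] ℝ) + b • (EuclideanSpace.proj 1 : E →L[ℝ] ℝ) +
        c • (EuclideanSpace.proj 2 : E →L[ℝ] ℝ) := by
      ext p; simp [linM_apply]; ring
    exact this ▸ hf
  · have : (PiLp.proj 2 (fun _ : Fin 3 => ℝ) 1 : E →L[ℝ] ℝ) ∘L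
        (linM (v3 a a' a'') (v3 b b' b'') (v3 c c' c'')) =
        a' • (EuclideanSpace.proj 0 : E →L[ℝ] ℝ) + b' • (EuclideanSpace.proj 1 : E →L[ℝ] ℝ) +
        c' • (EuclideanSpace.proj 2 : E →L[ℝ] ℝ) := by
      ext p; simp [linM_apply]; ring
    exact this ▸ hg
  · have : (PiLp.proj 2 (fun _ : Fin 3 => ℝ) 2 : E →L[ℝ] ℝ) ∘L
        (linM (v3 a a' a'') (v3 b b' b'') (v3 c c' c'')) =
        a'' • (EuclideanSpace.proj 0 : E →L[ℝ] ℝ) + b'' • (EuclideanSpace.proj 1 : E →L[ℝ] ℝ) +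
        c'' • (EuclideanSpace.proj 2 : E →L[ℝ] ℝ) := by
      ext p; simp [linM_apply]; ring
    exact this ▸ hh

end Pool.Agent.Helper746.Ep
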