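import Pool.Agent.Helper746.EpTri

set_option autoImplicit false
open MeasureTheory Filter Topology

namespace Pool.Agent.Helper746.Ep

lemma integ_log100 : (1:ℝ) ≤ Real.log 100 := by
  rw [Real.le_log_iff_exp_le (by norm_num)]
  have := Real.exp_one_lt_d9
  linarith

lemma integ_summ : Summable (fun n : ℕ => 1 / (((n:ℝ) + 100) * Real.log ((n:ℝ) + 100) ^ 2)) := by
  have hl2 : 0 < Real.log 2 := Real.log_pos (by norm_num)
  have hl100 := integ_log100
  have hlog : ∀ n : ℕ, 1 ≤ Real.log ((n:ℝ) + 100) := by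
    intro n
    refine hl100.trans (Real.log_le_log (by norm_num) ?_)
    have : (0:ℝ) ≤ n := Nat.cast_nonneg n
    linarith
  rw [← summable_condensed_iff_of_nonneg]
  · have hs : Summable (fun k : ℕ => 4 / (Real.log 2) ^ 2 * (1 / ((k:ℝ) + 1) ^ 2)) := by
      apply Summable.mul_left
      have h2 := (summable_nat_add_iff 1).2 (Real.summable_one_div_nat_pow.2 (by norm_num : 1 < 2))
      refine h2.congr ?_
      intro k
      push_cast
      rfl
    refine Summable.of_nonneg_of_le ?_ ?_ hs
    · intro k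
      have := hlog (2 ^ k)
      positivity
    · intro k
      have h1 := hlog (2 ^ k)
      push_cast at h1 ⊢
      have hk : (0:ℝ) ≤ k := Nat.cast_nonneg k
      have h2k : (0:ℝ) < 2 ^ k := by positivity
      have h2 : (k:ℝ) * Real.log 2 ≤ Real.log (2 ^ k + 100) := by
        rw [← Real.log_pow]
        exact Real.log_le_log h2k (by linarith)
      have h3 : Real.log 2 ≤ 1 := by
        have := Real.log_two_lt_d9
        linarith
      have h4 : ((k:ℝ) + 1) * Real.log 2 / 2 ≤ Real.log (2 ^ k + 100) := by nlinarith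
      have h5 : (2:ℝ) ^ k * (1 / ((2 ^ k + 100) * Real.log (2 ^ k + 100) ^ 2)) ≤
          1 / Real.log (2 ^ k + 100) ^ 2 := by
        have h6 : (2:ℝ) ^ k / (2 ^ k + 100) ≤ 1 := by
          rw [div_le_one (by linarith)]; linarith
        have h7 : (0:ℝ) ≤ 1 / Real.log (2 ^ k + 100) ^ 2 := by positivity
        calc (2:ℝ) ^ k * (1 / ((2 ^ k + 100) * Real.log (2 ^ k + 100) ^ 2))
            = (2:ℝ) ^ k / (2 ^ k + 100) * (1 / Real.log (2 ^ k + 100) ^ 2) := by
              field_simp
          _ ≤ 1 * (1 / Real.log (2 ^ k + 100) ^ 2) := mul_le_mul_of_nonneg_right h6 h7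
          _ = _ := one_mul _
      refine h5.trans ?_
      have h8 : (((k:ℝ) + 1) * Real.log 2 / 2) ^ 2 ≤ Real.log (2 ^ k + 100) ^ 2 :=
        pow_le_pow_left₀ (by positivity) h4 2
      have h9 : 4 / (Real.log 2) ^ 2 * (1 / ((k:ℝ) + 1) ^ 2) = 1 / (((k:ℝ) + 1) * Real.log 2 / 2) ^ 2 := by
        field_simp
        ring
      rw [h9]
      exact one_div_le_one_div_of_le (by positivity) h8
  · intro n
    have := hlog n
    positivity
  · intro m n _ hmn
    have h1 := hlog m
    have h2 := hlog n
    have hmn' : (m:ℝ) ≤ n := Nat.cast_le.2 hmn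
    have hm0 : (0:ℝ) ≤ m := Nat.cast_nonneg m
    apply one_div_le_one_div_of_le (by positivity)
    have h3 : Real.log ((m:ℝ) + 100) ≤ Real.log ((n:ℝ) + 100) := Real.log_le_log (by linarith) (by linarith)
    have h4 : Real.log ((m:ℝ) + 100) ^ 2 ≤ Real.log ((n:ℝ) + 100) ^ 2 := pow_le_pow_left₀ (by linarith) h3 2
    exact mul_le_mul (by linarith) h4 (by positivity) (by linarith)

lemma integ_meas_rr : Measurable rr := by
  unfold rr
  have h0 : Measurable (fun x : E => x 0) := (continuous_apply 0).measurable.comp (PiLp.continuous_ofLp 2 _).measurable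
  have h1 : Measurable (fun x : E => x 1) := (continuous_apply 1).measurable.comp (PiLp.continuous_ofLp 2 _).measurable
  exact h0.abs.add h1.abs

lemma integ_meas_x2 : Measurable (fun x : E => x 2) :=
  (continuous_apply 2).measurable.comp (PiLp.continuous_ofLp 2 _).measurable

lemma integ_meas_f (C : ℝ) : Measurable (fun x : E => (C / (rr x * tt x * lt x)) ^ 2 *
      Real.log (Real.exp 1 + C / (rr x * tt x * lt x))) := by
  have h1 := integ_meas_rr
  have h2 : Measurable tt := by unfold tt; fun_prop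
  have h3 : Measurable lt := by unfold lt; fun_prop
  fun_prop

/-- layers -/
def Ly (j : ℕ) : Set E := {x | Real.exp (-((j:ℝ) + 100) - 1) ≤ rr x ∧ rr x < Real.exp (-((j:ℝ) + 100)) ∧
  0 < x 2 ∧ x 2 < 1}

lemma integ_vol (a : ℝ) (ha : 0 < a) : volume {x : E | rr x < a ∧ 0 < x 2 ∧ x 2 < 1} ≤ ENNReal.ofReal (4 * a ^ 2) := by
  have hsub : {x : E | rr x < a ∧ 0 < x 2 ∧ x 2 < 1} ⊆
      WithLp.ofLp ⁻¹' (Set.univ.pi fun i : Fin 3 => Set.Ioo ((![-a, -a, 0] : Fin 3 → ℝ) i) ((![a, a, 1] : Fin 3 → ℝ) i)) := by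
    intro x hx
    obtain ⟨h1, h2, h3⟩ := hx
    unfold rr at h1
    have h4 : |x 0| < a := by
      have := abs_nonneg (x 1)
      linarith
    have h5 : |x 1| < a := by
      have := abs_nonneg (x 0)
      linarith
    rw [abs_lt] at h4 h5
    rw [Set.mem_preimage, Set.mem_univ_pi]
    intro i
    fin_cases i
    · exact ⟨h4.1, h4.2⟩
    · exact ⟨h5.1, h5.2⟩
    · exact ⟨h2, h3⟩
  refine (measure_mono hsub).trans ?_
  rw [(PiLp.volume_preserving_ofLp (Fin 3)).measure_preimage (MeasurableSet.univ_pi fun i => measurableSet_Ioo).nullMeasurableSet,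
    Real.volume_pi_Ioo, Fin.prod_univ_three]
  simp only [Matrix.cons_val_zero, Matrix.cons_val_one, Matrix.cons_val_two, Matrix.head_cons, Matrix.tail_cons]
  rw [← ENNReal.ofReal_mul (by linarith), ← ENNReal.ofReal_mul (by nlinarith)]
  apply ENNReal.ofReal_le_ofReal
  nlinarith

lemma integ_volLy (j : ℕ) : volume (Ly j) ≤ ENNReal.ofReal (4 * Real.exp (-((j:ℝ) + 100)) ^ 2) := by
  refine (measure_mono ?_).trans (integ_vol _ (Real.exp_pos _))
  intro x hx
  exact ⟨hx.2.1, hx.2.2⟩

lemma integ_bound (C : ℝ) (hC : 0 < C) (j : ℕ) (x : E) (hx : x ∈ Ly j) :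
    ‖(C / (rr x * tt x * lt x)) ^ 2 * Real.log (Real.exp 1 + C / (rr x * tt x * lt x))‖ ≤
      C ^ 2 * (Real.log (Real.exp 1 + C) + 1) * Real.exp 2 / Real.exp (-((j:ℝ) + 100)) ^ 2 *
      (1 / (((j:ℝ) + 100) * Real.log ((j:ℝ) + 100) ^ 2)) := by
  obtain ⟨h1, h2, -, -⟩ := hx
  have hj : (0:ℝ) ≤ j := Nat.cast_nonneg j
  set n : ℝ := (j:ℝ) + 100 with hn
  have hn100 : 100 ≤ n := by linarith
  have hr0 : 0 < rr x := lt_of_lt_of_le (Real.exp_pos _) h1
  have ht1 : n ≤ tt x := by
    unfold tt
    have := Real.log_le_log hr0 h2.le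
    rw [Real.log_exp] at this
    linarith
  have hL : 1 ≤ Real.log n := integ_log100.trans (Real.log_le_log (by norm_num) hn100)
  have hl1 : Real.log n ≤ lt x := by
    unfold lt
    exact Real.log_le_log (by linarith) ht1
  set r := rr x with hr
  set t := tt x with ht
  set l := lt x with hl
  have hr1 : r < 1 := by
    refine h2.trans_le ?_
    rw [Real.exp_le_one_iff]
    linarith
  have ht0 : 0 < t := by linarith
  have hl0 : 0 < l := by linarith
  set u := C / (r * t * l) with hu
  have hu0 : 0 < u := by positivity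
  have htl : 1 ≤ t * l := by nlinarith
  have hur : u ≤ C / r := by
    rw [hu]
    apply div_le_div_of_nonneg_left hC.le hr0
    rw [mul_assoc]
    nlinarith
  have he1 : 1 ≤ Real.exp 1 := Real.one_le_exp (by norm_num)
  have hlogC : 0 ≤ Real.log (Real.exp 1 + C) := Real.log_nonneg (by linarith)
  have hlogu : Real.log (Real.exp 1 + u) ≤ (Real.log (Real.exp 1 + C) + 1) * t := by
    have h3 : Real.exp 1 + u ≤ (Real.exp 1 + C) / r := by
      rw [add_div]
      have : Real.exp 1 ≤ Real.exp 1 / r := by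
        rw [le_div_iff₀ hr0]
        nlinarith
      linarith
    have h4 : Real.log (Real.exp 1 + u) ≤ Real.log (Real.exp 1 + C) + t := by
      refine (Real.log_le_log (by positivity) h3).trans ?_
      rw [Real.log_div (by positivity) hr0.ne']
      rw [ht]
      unfold tt
      linarith
    nlinarith
  have hlogu0 : 0 ≤ Real.log (Real.exp 1 + u) := Real.log_nonneg (by linarith)
  rw [Real.norm_of_nonneg (by positivity)]
  set K := Real.log (Real.exp 1 + C) + 1 with hK
  have hK0 : 0 < K := by linarith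
  have hE : Real.exp (-n) ^ 2 / Real.exp 2 ≤ r ^ 2 := by
    have h5 : Real.exp (-n - 1) ^ 2 ≤ r ^ 2 := pow_le_pow_left₀ (Real.exp_pos _).le h1 2
    refine le_trans (le_of_eq ?_) h5
    rw [← Real.exp_nat_mul, ← Real.exp_nat_mul, ← Real.exp_sub]
    congr 1
    push_cast
    ring
  calc u ^ 2 * Real.log (Real.exp 1 + u) ≤ u ^ 2 * (K * t) := mul_le_mul_of_nonneg_left hlogu (by positivity)
    _ = C ^ 2 * K * (1 / r ^ 2) * (1 / (t * l ^ 2)) := by
        rw [hu]; field_simp
    _ ≤ C ^ 2 * K * (1 / (Real.exp (-n) ^ 2 / Real.exp 2)) * (1 / (n * Real.log n ^ 2)) := by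
        apply mul_le_mul
        · apply mul_le_mul_of_nonneg_left _ (by positivity)
          exact one_div_le_one_div_of_le (by positivity) hE
        · apply one_div_le_one_div_of_le (by positivity)
          exact mul_le_mul ht1 (pow_le_pow_left₀ (by linarith) hl1 2) (by positivity) ht0.le
        · positivity
        · positivity
    _ = _ := by
        field_simp

/-- TARGET -/
theorem integ (C : ℝ) (hC : 0 < C) :
    IntegrableOn (fun x : E => (C / (rr x * tt x * lt x)) ^ 2 *
      Real.log (Real.exp 1 + C / (rr x * tt x * lt x))) Om volume := by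
  set f : E → ℝ := fun x : E => (C / (rr x * tt x * lt x)) ^ 2 *
      Real.log (Real.exp 1 + C / (rr x * tt x * lt x)) with hf
  have hfm : Measurable f := integ_meas_f C
  have hfin : ∀ j, volume (Ly j) < ⊤ := fun j => (integ_volLy j).trans_lt ENNReal.ofReal_lt_top
  have hmLy : ∀ j, MeasurableSet (Ly j) := by
    intro j
    unfold Ly
    have h1 := integ_meas_rr
    have h2 := integ_meas_x2
    exact (measurableSet_le measurable_const h1).inter ((measurableSet_lt h1 measurable_const).inter
      ((measurableSet_lt measurable_const h2).inter (measurableSet_lt h2 measurable_const)))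
  have hL : IntegrableOn f (⋃ j, Ly j) volume := by
    apply integrableOn_iUnion_of_summable_integral_norm
    · intro j
      refine Measure.integrableOn_of_bounded (hfin j).ne hfm.aestronglyMeasurable
        (M := C ^ 2 * (Real.log (Real.exp 1 + C) + 1) * Real.exp 2 / Real.exp (-((j:ℝ) + 100)) ^ 2 *
      (1 / (((j:ℝ) + 100) * Real.log ((j:ℝ) + 100) ^ 2))) ?_
      exact (ae_restrict_iff' (hmLy j)).2 (Filter.Eventually.of_forall fun x hx => integ_bound C hC j x hx)
    · refine Summable.of_nonneg_of_le (fun j => integral_nonneg fun x => norm_nonneg _) ?_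
        (integ_summ.mul_left (C ^ 2 * (Real.log (Real.exp 1 + C) + 1) * Real.exp 2 * 4))
      intro j
      have h1 := norm_setIntegral_le_of_norm_le_const (μ := volume) (f := fun x => ‖f x‖) (hfin j)
        (C := C ^ 2 * (Real.log (Real.exp 1 + C) + 1) * Real.exp 2 / Real.exp (-((j:ℝ) + 100)) ^ 2 *
      (1 / (((j:ℝ) + 100) * Real.log ((j:ℝ) + 100) ^ 2))) (fun x hx => by
          rw [norm_norm]
          exact integ_bound C hC j x hx)
      have h2 : (volume (Ly j)).toReal ≤ 4 * Real.exp (-((j:ℝ) + 100)) ^ 2 :=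
        ENNReal.toReal_le_of_le_ofReal (by positivity) (integ_volLy j)
      have h3 : ∫ x in Ly j, ‖f x‖ ≤ ‖∫ x in Ly j, ‖f x‖‖ := le_abs_self _
      refine h3.trans (h1.trans ?_)
      have he1 : 1 ≤ Real.exp 1 := Real.one_le_exp (by norm_num)
      have hlogC : 0 ≤ Real.log (Real.exp 1 + C) := Real.log_nonneg (by linarith)
      have hj : (0:ℝ) ≤ j := Nat.cast_nonneg j
      have hL : 1 ≤ Real.log ((j:ℝ) + 100) := integ_log100.trans (Real.log_le_log (by norm_num) (by linarith))
      refine (mul_le_mul_of_nonneg_left h2 (by positivity)).trans (le_of_eq ?_)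
      field_simp
  have hZ : IntegrableOn f {x : E | rr x = 0} volume := by
    have hmZ : MeasurableSet {x : E | rr x = 0} := integ_meas_rr (measurableSet_singleton 0)
    refine (integrableOn_zero (ε' := ℝ)).congr_fun ?_ hmZ
    intro x hx
    have hx' : rr x = 0 := hx
    simp only [hf]
    rw [hx']
    simp
  refine (hL.union hZ).mono_set ?_
  intro x hx
  obtain ⟨h1, h2, h3⟩ := hx
  by_cases h0 : rr x = 0
  · exact Or.inr h0
  · left
    have hr0 : 0 < rr x := by
      refine lt_of_le_of_ne ?_ (Ne.symm h0)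
      unfold rr
      positivity
    have ht : 100 < -Real.log (rr x) := by
      have := Real.log_lt_log hr0 h1
      rw [Real.log_exp] at this
      linarith
    -- j = ⌈-log r⌉ - 101
    set s := -Real.log (rr x) with hs
    obtain ⟨k, hk⟩ : ∃ k : ℕ, ⌈s⌉₊ = k + 101 := by
      have : 100 < ⌈s⌉₊ := by
        rw [Nat.lt_ceil]
        exact_mod_cast ht
      exact ⟨⌈s⌉₊ - 101, by omega⟩
    rw [Set.mem_iUnion]
    have hs1 : s ≤ (k:ℝ) + 101 := by
      have := Nat.le_ceil s
      rw [hk] at this
      push_cast at this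
      exact this
    have hs2 : (k:ℝ) + 100 < s := by
      have := Nat.ceil_lt_add_one (show (0:ℝ) ≤ s by linarith)
      rw [hk] at this
      push_cast at this
      linarith
    refine ⟨k, ?_, ?_, h2, h3⟩
    · rw [← Real.le_log_iff_exp_le hr0]
      linarith
    · rw [← Real.log_lt_iff_lt_exp hr0]
      linarith

end Pool.Agent.Helper746.Ep
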