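import Pool.Agent.Helper746.EpTri

set_option autoImplicit false
open MeasureTheory Filter Topology

namespace Pool.Agent.Helper746.Ep

theorem seg_lip (U : Set E) (hU : IsOpen U) (Z : Set E) (hZ : IsClosed Z)
    (f : E → E) (C : ℝ) (hC : 0 ≤ C)
    (hloc : ∀ x ∈ U, x ∉ Z → ∃ K : NNReal, ∃ t ∈ 𝓝 x, LipschitzOnWith K f t)
    (hae : ∀ᵐ x ∂(volume : Measure E), x ∈ U → ∃ A : E →L[ℝ] E, HasFDerivAt f A x ∧ ‖A‖ ≤ C)
    (x y : E) (hseg : segment ℝ x y ⊆ U ∩ Zᶜ) : ‖f x - f y‖ ≤ C * ‖x - y‖ := by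
  have hWo : IsOpen (U ∩ Zᶜ) := hU.inter hZ.isOpen_compl
  have hcs : IsCompact (segment ℝ x y) := by
    rw [segment_eq_image_lineMap]
    exact isCompact_Icc.image (by fun_prop)
  obtain ⟨δ, hδ, hsub⟩ := hcs.exists_cthickening_subset_open hWo hseg
  have hK1 : IsCompact (Metric.cthickening δ (segment ℝ x y)) := hcs.cthickening
  have hLL : LocallyLipschitzOn (Metric.cthickening δ (segment ℝ x y)) f := by
    intro z hz
    obtain ⟨K, t, ht, hK⟩ := hloc z (hsub hz).1 (hsub hz).2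
    exact ⟨K, t, mem_nhdsWithin_of_mem_nhds ht, hK⟩
  obtain ⟨L, hL⟩ := hLL.exists_lipschitzOnWith_of_compact hK1
  -- Fubini
  set N : Set E := {z | ¬ (z ∈ U → ∃ A : E →L[ℝ] E, HasFDerivAt f A z ∧ ‖A‖ ≤ C)} with hN
  have hN0 : volume N = 0 := hae
  set N' := toMeasurable volume N with hN'
  have hN'm : MeasurableSet N' := measurableSet_toMeasurable _ _
  have hN'0 : volume N' = 0 := by rw [hN', measure_toMeasurable]; exact hN0
  have hmeas : MeasurableSet {p : ℝ × E | x + p.1 • (y - x) + p.2 ∉ N'} := by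
    have : Measurable (fun p : ℝ × E => x + p.1 • (y - x) + p.2) := by fun_prop
    exact (this hN'm).compl
  have h1 : ∀ᵐ s ∂(volume : Measure ℝ), ∀ᵐ h ∂(volume : Measure E), x + s • (y - x) + h ∉ N' := by
    refine Eventually.of_forall fun s => ?_
    have : volume ((fun h : E => (x + s • (y - x)) + h) ⁻¹' N') = 0 := by
      rw [measure_preimage_add]; exact hN'0
    rw [ae_iff]
    have e : {a | ¬ (x + s • (y - x) + a ∉ N')} = (fun h : E => (x + s • (y - x)) + h) ⁻¹' N' := by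
      ext a; simp
    rw [e]; exact this
  have h2 : ∀ᵐ h ∂(volume : Measure E), ∀ᵐ s ∂(volume : Measure ℝ), x + s • (y - x) + h ∉ N' :=
    (Measure.ae_ae_comm (p := fun (s : ℝ) (h : E) => x + s • (y - x) + h ∉ N') hmeas).mp h1
  have hgood : ∀ h : E, (∀ᵐ s ∂(volume : Measure ℝ), x + s • (y - x) + h ∉ N') → ‖h‖ ≤ δ →
      ‖f (x + h) - f (y + h)‖ ≤ C * ‖x - y‖ := by
    intro h hs hh
    have hmem : ∀ s ∈ Set.Icc (0:ℝ) 1, x + s • (y - x) + h ∈ Metric.cthickening δ (segment ℝ x y) := by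
      intro s hs
      apply Metric.mem_cthickening_of_dist_le _ (x + s • (y - x)) δ
      · rw [segment_eq_image']
        exact ⟨s, hs, rfl⟩
      · simpa [dist_eq_norm] using hh
    set e : E := f (y + h) - f (x + h) with he
    set φ : ℝ → ℝ := fun s => inner ℝ e (f (x + s • (y - x) + h)) with hφ
    have hlip : LipschitzOnWith (‖e‖₊ * (L * ‖y - x‖₊)) φ (Set.uIcc (0:ℝ) 1) := by
      rw [Set.uIcc_of_le zero_le_one]
      apply LipschitzOnWith.of_dist_le_mul
      intro s hs t ht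
      have hd := hL.dist_le_mul _ (hmem s hs) _ (hmem t ht)
      have e1 : φ s - φ t = inner ℝ e (f (x + s • (y - x) + h) - f (x + t • (y - x) + h)) := by
        rw [inner_sub_right]
      rw [Real.dist_eq, e1]
      refine (abs_real_inner_le_norm _ _).trans ?_
      rw [dist_eq_norm, dist_eq_norm] at hd
      have e2 : (x + s • (y - x) + h) - (x + t • (y - x) + h) = (s - t) • (y - x) := by
        module
      rw [e2, norm_smul] at hd
      calc ‖e‖ * ‖f (x + s • (y - x) + h) - f (x + t • (y - x) + h)‖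
          ≤ ‖e‖ * (L * (‖s - t‖ * ‖y - x‖)) := mul_le_mul_of_nonneg_left hd (norm_nonneg _)
        _ = _ := by
          rw [Real.dist_eq, ← Real.norm_eq_abs]
          push_cast
          ring
    have hac := hlip.absolutelyContinuousOnInterval
    have hftc := hac.integral_deriv_eq_sub
    have hbd : ‖∫ (s : ℝ) in (0:ℝ)..1, deriv φ s‖ ≤ (‖e‖ * (C * ‖y - x‖)) * |1 - 0| := by
      apply intervalIntegral.norm_integral_le_of_norm_le_const_ae
      filter_upwards [hs] with s hs hs01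
      rw [Set.uIoc_of_le zero_le_one] at hs01
      have hsN : x + s • (y - x) + h ∉ N := fun hc => hs (subset_toMeasurable _ _ hc)
      have hsN2 : x + s • (y - x) + h ∈ U → ∃ A : E →L[ℝ] E,
          HasFDerivAt f A (x + s • (y - x) + h) ∧ ‖A‖ ≤ C := by
        by_contra hcon
        exact hsN hcon
      obtain ⟨A, hA, hAC⟩ := hsN2 (hsub (hmem s ⟨hs01.1.le, hs01.2⟩)).1
      have hd1 : HasDerivAt (fun s : ℝ => x + s • (y - x) + h) (y - x) s := by
        have := ((hasDerivAt_id s).smul_const (y - x)).const_add x |>.add_const h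
        simpa using this
      have hd2 : HasDerivAt (fun s : ℝ => f (x + s • (y - x) + h)) (A (y - x)) s :=
        hA.comp_hasDerivAt s hd1
      have hd3 : HasDerivAt φ (inner ℝ e (A (y - x))) s := by
        have := (hasDerivAt_const s e).inner ℝ hd2
        simpa using this
      rw [hd3.deriv]
      refine (abs_real_inner_le_norm _ _).trans ?_
      apply mul_le_mul_of_nonneg_left _ (norm_nonneg _)
      exact (A.le_opNorm _).trans (mul_le_mul_of_nonneg_right hAC (norm_nonneg _))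
    rw [hftc] at hbd
    have e3 : φ 1 - φ 0 = ‖e‖ * ‖e‖ := by
      simp only [hφ]
      rw [← inner_sub_right]
      have : f (x + (1:ℝ) • (y - x) + h) - f (x + (0:ℝ) • (y - x) + h) = e := by
        rw [he]; congr 2 <;> module
      rw [this, real_inner_self_eq_norm_mul_norm]
    rw [e3, Real.norm_eq_abs, abs_of_nonneg (by positivity)] at hbd
    have hfin : ‖e‖ ≤ C * ‖y - x‖ := by
      rcases (norm_nonneg e).eq_or_lt with h0 | h0
      · rw [← h0]; positivity
      · have : ‖e‖ * ‖e‖ ≤ ‖e‖ * (C * ‖y - x‖) := by simpa using hbd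
        exact le_of_mul_le_mul_left this h0
    rw [norm_sub_rev, norm_sub_rev x y]
    exact hfin
  -- density
  by_contra hcon
  push Not at hcon
  have hxU := hsub (Metric.self_subset_cthickening _ (left_mem_segment ℝ x y))
  have hyU := hsub (Metric.self_subset_cthickening _ (right_mem_segment ℝ x y))
  have hfx : ContinuousAt f x := by
    obtain ⟨K, t, ht, hK⟩ := hloc x hxU.1 hxU.2
    exact hK.continuousOn.continuousAt ht
  have hfy : ContinuousAt f y := by
    obtain ⟨K, t, ht, hK⟩ := hloc y hyU.1 hyU.2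
    exact hK.continuousOn.continuousAt ht
  have hcont : ContinuousAt (fun h : E => ‖f (x + h) - f (y + h)‖) 0 := by
    have c1 : ContinuousAt (fun h : E => f (x + h)) 0 := by
      apply ContinuousAt.comp (f := fun h : E => x + h) (g := f)
      · simpa using hfx
      · fun_prop
    have c2 : ContinuousAt (fun h : E => f (y + h)) 0 := by
      apply ContinuousAt.comp (f := fun h : E => y + h) (g := f)
      · simpa using hfy
      · fun_prop
    exact (c1.sub c2).norm
  have hev : ∀ᶠ h in 𝓝 (0 : E), C * ‖x - y‖ < ‖f (x + h) - f (y + h)‖ := by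
    apply hcont.eventually (lt_mem_nhds _)
    simpa using hcon
  have hev2 : ∀ᶠ h in 𝓝 (0 : E), ‖h‖ ≤ δ := by
    have := Metric.closedBall_mem_nhds (0 : E) hδ
    filter_upwards [this] with h hh
    simpa using hh
  obtain ⟨h, hh1, hh2⟩ := (Measure.dense_of_ae h2).inter_nhds_nonempty (hev.and hev2)
  have := hgood h hh1 hh2.2
  linarith [hh2.1]

/-- TARGET -/
theorem lip_axis (U : Set E) (hU : IsOpen U) (hc : Convex ℝ U) (Z : Set E) (hZ : IsClosed Z)
    (f : E → E) (C : ℝ) (hC : 0 ≤ C)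
    (hloc : ∀ x ∈ U, x ∉ Z → ∃ K : NNReal, ∃ t ∈ 𝓝 x, LipschitzOnWith K f t)
    (hae : ∀ᵐ x ∂(volume : Measure E), x ∈ U → ∃ A : E →L[ℝ] E, HasFDerivAt f A x ∧ ‖A‖ ≤ C)
    (hax : ∀ x ∈ U, ∀ c ∈ U, c ∈ Z → ‖f x‖ ≤ C * ‖x - c‖) :
    ∀ x ∈ U, ∀ y ∈ U, ‖f x - f y‖ ≤ C * ‖x - y‖ := by
  intro x hx y hy
  by_cases hseg : ∃ c ∈ segment ℝ x y, c ∈ Z
  · obtain ⟨c, hcs, hcZ⟩ := hseg
    have hcU : c ∈ U := hc.segment_subset hx hy hcs
    have h1 := hax x hx c hcU hcZ
    have h2 := hax y hy c hcU hcZ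
    have h3 := dist_add_dist_of_mem_segment hcs
    rw [dist_eq_norm, dist_eq_norm, dist_eq_norm] at h3
    calc ‖f x - f y‖ ≤ ‖f x‖ + ‖f y‖ := norm_sub_le _ _
      _ ≤ C * ‖x - c‖ + C * ‖y - c‖ := add_le_add h1 h2
      _ = C * ‖x - y‖ := by rw [← h3, norm_sub_rev y c]; ring
  · push Not at hseg
    apply seg_lip U hU Z hZ f C hC hloc hae x y
    intro c hcs
    exact ⟨hc.segment_subset hx hy hcs, hseg c hcs⟩

end Pool.Agent.Helper746.Ep
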