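import Mathlib

set_option autoImplicit false
open MeasureTheory Filter Topology

namespace Pool.Agent.Helper746.SineSob

abbrev E := EuclideanSpace ℝ (Fin 3)

theorem weak_deriv_all (f : E → E) (hfm : AEStronglyMeasurable (fderiv ℝ f) (volume : Measure E))
    (hlip : ∀ r : ℝ, 0 ≤ r → ∃ C : NNReal, LipschitzOnWith C f (Metric.closedBall (0 : E) r))
    (hdiff : ∀ᵐ x ∂(volume : Measure E), DifferentiableAt ℝ f x)
    (φ : E → ℝ) (hφ : ContDiff ℝ 1 φ) (hc : HasCompactSupport φ)
    (v : E) : ∫ x, (fderiv ℝ φ x v) • f x = - ∫ x, φ x • (fderiv ℝ f x v) := by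
  obtain ⟨r, hr, hsr⟩ : ∃ r : ℝ, 0 ≤ r ∧ tsupport φ ⊆ Metric.ball (0 : E) r := by
    obtain ⟨r0, hr0⟩ := hc.isCompact.isBounded.subset_ball (0 : E)
    exact ⟨max r0 0, le_max_right _ _, hr0.trans (Metric.ball_subset_ball (le_max_left _ _))⟩
  obtain ⟨C, hC⟩ := hlip r hr
  have hφ0 : ∀ x, x ∉ Metric.closedBall (0 : E) r → φ x = 0 := by
    intro x hx
    apply image_eq_zero_of_notMem_tsupport
    intro h
    exact hx (Metric.ball_subset_closedBall (hsr h))
  have hφ1 : ∀ x, x ∉ Metric.closedBall (0 : E) r → fderiv ℝ φ x = 0 := by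
    intro x hx
    apply image_eq_zero_of_notMem_tsupport (f := fderiv ℝ φ)
    intro h
    exact hx (Metric.ball_subset_closedBall (hsr (tsupport_fderiv_subset ℝ h)))
  have hcont : Continuous fun x => fderiv ℝ φ x v := (hφ.continuous_fderiv (by norm_num)).clm_apply continuous_const
  have hi1 : Integrable (fun x => (fderiv ℝ φ x v) • f x) (volume : Measure E) := by
    have : IntegrableOn (fun x => (fderiv ℝ φ x v) • f x) (Metric.closedBall (0 : E) r) (volume : Measure E) := by
      apply ContinuousOn.integrableOn_compact (isCompact_closedBall _ _)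
      exact hcont.continuousOn.smul hC.continuousOn
    apply this.integrable_of_forall_notMem_eq_zero
    intro x hx
    simp [hφ1 x hx]
  have hbd : ∀ x ∈ tsupport φ, ‖fderiv ℝ f x‖ ≤ C := by
    intro x hx
    exact norm_fderiv_le_of_lipschitzOn ℝ (Metric.closedBall_mem_nhds_of_mem (hsr hx)) hC
  have hi2 : Integrable (fun x => φ x • (fderiv ℝ f x v)) (volume : Measure E) := by
    obtain ⟨Mφ, hMφ⟩ := hc.exists_bound_of_continuous hφ.continuous
    have : IntegrableOn (fun x => φ x • (fderiv ℝ f x v)) (Metric.closedBall (0 : E) r) (volume : Measure E) := by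
      apply Measure.integrableOn_of_bounded (M := Mφ * (C * ‖v‖)) measure_closedBall_lt_top.ne
      · apply hφ.continuous.aestronglyMeasurable.smul
        exact (ContinuousLinearMap.apply ℝ E v).continuous.comp_aestronglyMeasurable hfm
      · apply Eventually.of_forall
        intro x
        by_cases hx : x ∈ tsupport φ
        · rw [norm_smul]
          have h1 := hMφ x
          have h2 := (fderiv ℝ f x).le_opNorm v
          have h3 := hbd x hx
          have h4 : 0 ≤ Mφ := le_trans (norm_nonneg _) h1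
          gcongr
          exact h2.trans (by gcongr)
        · rw [image_eq_zero_of_notMem_tsupport hx]
          have h1 := hMφ x
          have h4 : 0 ≤ Mφ := le_trans (norm_nonneg _) h1
          simp only [zero_smul, norm_zero]
          positivity
    apply this.integrable_of_forall_notMem_eq_zero
    intro x hx
    simp [hφ0 x hx]
  ext i
  have hp1 : (∫ x, (fderiv ℝ φ x v) • f x) i = ∫ x, (fderiv ℝ φ x v) * f x i := by
    have := ContinuousLinearMap.integral_comp_comm (EuclideanSpace.proj (𝕜 := ℝ) i) hi1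
    simpa using this.symm
  have hp2 : (∫ x, φ x • (fderiv ℝ f x v)) i = ∫ x, φ x * (fderiv ℝ f x v) i := by
    have := ContinuousLinearMap.integral_comp_comm (EuclideanSpace.proj (𝕜 := ℝ) i) hi2
    simpa using this.symm
  rw [PiLp.neg_apply, hp1, hp2]
  have hli : LipschitzOnWith C (fun x => f x i) (Metric.closedBall (0 : E) r) := by
    apply LipschitzOnWith.of_dist_le_mul
    intro x hx y hy
    refine le_trans ?_ (hC.dist_le_mul x hx y hy)
    rw [dist_eq_norm, dist_eq_norm]
    simpa using PiLp.norm_apply_le (f x - f y) i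
  obtain ⟨g, hg, hgf⟩ := hli.extend_real
  obtain ⟨D, hD⟩ := ContDiff.lipschitzWith_of_hasCompactSupport hc hφ (by norm_num)
  have key := hg.integral_lineDeriv_mul_eq (μ := (volume : Measure E)) hD hc v
  have k1 : ∫ x, lineDeriv ℝ φ x (-v) * g x = - ∫ x, (fderiv ℝ φ x v) * f x i := by
    rw [← integral_neg]
    congr 1
    funext x
    rw [((hφ.differentiable (by norm_num)) x).lineDeriv_eq_fderiv]
    by_cases hx : x ∈ Metric.closedBall (0 : E) r
    · have hgx : f x i = g x := hgf hx
      rw [hgx]; simp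
    · rw [hφ1 x hx]; simp
  have k2 : ∫ x, lineDeriv ℝ g x v * φ x = ∫ x, φ x * (fderiv ℝ f x v) i := by
    apply integral_congr_ae
    filter_upwards [hdiff] with x hx
    by_cases hxs : x ∈ tsupport φ
    · have hxr := hsr hxs
      have hd := hx.hasFDerivAt
      have hd1 : HasFDerivAt (fun x => f x i) ((EuclideanSpace.proj (𝕜 := ℝ) i).comp (fderiv ℝ f x)) x :=
        (EuclideanSpace.proj (𝕜 := ℝ) i).hasFDerivAt.comp x hd
      have hd2 : HasFDerivAt g ((EuclideanSpace.proj (𝕜 := ℝ) i).comp (fderiv ℝ f x)) x := by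
        apply hd1.congr_of_eventuallyEq
        filter_upwards [Metric.closedBall_mem_nhds_of_mem hxr] with y hy
        exact (hgf hy).symm
      rw [hd2.differentiableAt.lineDeriv_eq_fderiv, hd2.fderiv]
      simp [mul_comm]
    · rw [image_eq_zero_of_notMem_tsupport hxs]; simp
  rw [k1, k2] at key
  linarith


/-- Target: a map of `ℝ³` that is Lipschitz on balls and satisfies the distortion inequality at a.e. point
is quasiregular in the Sobolev sense.  (Adapt `weak_deriv` above, same proof, from the
unit ball to the whole space: the support of the test function lies in some ball; take `g := fderiv ℝ f`.) -/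
theorem sob (f : E → E) (K : ℝ) (hK : 1 ≤ K)
    (hlip : ∀ r : ℝ, 0 ≤ r → ∃ C : NNReal, LipschitzOnWith C f (Metric.closedBall (0 : E) r))
    (hgood : ∀ᵐ x ∂(volume : Measure E),
      ∃ A : E →L[ℝ] E, HasFDerivAt f A x ∧ ‖A‖ ^ 3 ≤ K * ContinuousLinearMap.det A) :
    (Continuous f ∧ ∃ K : ℝ, 1 ≤ K ∧
      ∃ g : E → (E →L[ℝ] E),
        MeasureTheory.AEStronglyMeasurable g MeasureTheory.volume ∧
        MeasureTheory.LocallyIntegrable (fun x => ‖g x‖ ^ 3) MeasureTheory.volume ∧
        (∀ φ : E → ℝ, ContDiff ℝ 1 φ → HasCompactSupport φ → ∀ v : E,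
            ∫ x, (fderiv ℝ φ x v) • f x = - ∫ x, φ x • g x v) ∧
        (∀ᵐ x ∂MeasureTheory.volume, ‖g x‖ ^ 3 ≤ K * LinearMap.det (g x).toLinearMap)) := by
  have hcont : Continuous f := by
    rw [continuous_iff_continuousAt]
    intro x
    obtain ⟨C, hC⟩ := hlip (‖x‖ + 1) (by positivity)
    have hmem : Metric.closedBall (0 : E) (‖x‖ + 1) ∈ 𝓝 x := by
      apply Metric.closedBall_mem_nhds_of_mem
      rw [mem_ball_zero_iff]; linarith
    exact hC.continuousOn.continuousAt hmem
  have hmeas : AEStronglyMeasurable (fderiv ℝ f) (volume : Measure E) :=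
    (measurable_fderiv ℝ f).aestronglyMeasurable
  have hdiff : ∀ᵐ x ∂(volume : Measure E), DifferentiableAt ℝ f x := by
    filter_upwards [hgood] with x hx
    obtain ⟨A, hA, _⟩ := hx
    exact hA.differentiableAt
  refine ⟨hcont, K, hK, fderiv ℝ f, hmeas, ?_, ?_, ?_⟩
  · intro x
    obtain ⟨C, hC⟩ := hlip (‖x‖ + 1) (by positivity)
    refine ⟨Metric.ball (0 : E) (‖x‖ + 1), Metric.isOpen_ball.mem_nhds (by
      rw [mem_ball_zero_iff]; linarith), ?_⟩
    apply Measure.integrableOn_of_bounded (M := (C : ℝ) ^ 3) measure_ball_lt_top.ne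
    · rw [ae_restrict_iff' Metric.isOpen_ball.measurableSet]
      apply Eventually.of_forall
      intro y hy
      have h1 : ‖fderiv ℝ f y‖ ≤ C :=
        norm_fderiv_le_of_lipschitzOn ℝ (Metric.closedBall_mem_nhds_of_mem hy) hC
      rw [Real.norm_of_nonneg (by positivity)]
      gcongr
    · exact hmeas.norm.pow 3
  · intro φ hφ hc v
    exact weak_deriv_all f hmeas hlip hdiff φ hφ hc v
  · filter_upwards [hgood] with x hx
    obtain ⟨A, hA, h⟩ := hx
    rw [hA.fderiv]
    exact h

end Pool.Agent.Helper746.SineSob
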