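import Pool.Agent.Helper746.EpGood
import Pool.Agent.Helper746.EpLip
import Pool.Agent.Helper746.EpInt
import Pool.Agent.Helper746.SineSob

set_option autoImplicit false
open MeasureTheory Filter Topology

namespace Pool.Agent.Helper746.Ep

lemma rr_continuous : Continuous rr := by
  unfold rr
  fun_prop

lemma Om_open : IsOpen Om := by
  have h1 : IsOpen {x : E | rr x < Real.exp (-100)} := isOpen_lt rr_continuous continuous_const
  have h2 : IsOpen {x : E | 0 < x 2} := isOpen_lt continuous_const (by fun_prop)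
  have h3 : IsOpen {x : E | x 2 < 1} := isOpen_lt (by fun_prop) continuous_const
  exact h1.inter (h2.inter h3)

lemma rr_convex (x y : E) (a b : ℝ) (ha : 0 ≤ a) (hb : 0 ≤ b) :
    rr (a • x + b • y) ≤ a * rr x + b * rr y := by
  unfold rr
  simp only [PiLp.add_apply, PiLp.smul_apply, smul_eq_mul]
  have h0 := abs_add_le (a * x 0) (b * y 0)
  have h1 := abs_add_le (a * x 1) (b * y 1)
  rw [abs_mul, abs_mul, abs_of_nonneg ha, abs_of_nonneg hb] at h0 h1
  linarith

lemma Om_convex : Convex ℝ Om := by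
  intro x hx y hy a b ha hb hab
  obtain ⟨x1, x2, x3⟩ := hx
  obtain ⟨y1, y2, y3⟩ := hy
  have hcase : 0 < a ∨ 0 < b := by
    by_contra h
    push Not at h
    linarith
  refine ⟨?_, ?_, ?_⟩
  · refine lt_of_le_of_lt (rr_convex x y a b ha hb) ?_
    have e : Real.exp (-100) = a * Real.exp (-100) + b * Real.exp (-100) := by
      rw [← add_mul, hab, one_mul]
    rw [e]
    rcases hcase with h | h
    · have := mul_lt_mul_of_pos_left x1 h
      have := mul_le_mul_of_nonneg_left y1.le hb
      linarith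
    · have := mul_lt_mul_of_pos_left y1 h
      have := mul_le_mul_of_nonneg_left x1.le ha
      linarith
  · simp only [PiLp.add_apply, PiLp.smul_apply, smul_eq_mul]
    rcases hcase with h | h
    · have := mul_pos h x2
      have := mul_nonneg hb y2.le
      linarith
    · have := mul_pos h y2
      have := mul_nonneg ha x2.le
      linarith
  · simp only [PiLp.add_apply, PiLp.smul_apply, smul_eq_mul]
    rcases hcase with h | h
    · have := mul_lt_mul_of_pos_left x3 h
      have := mul_le_mul_of_nonneg_left y3.le hb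
      linarith
    · have := mul_lt_mul_of_pos_left y3 h
      have := mul_le_mul_of_nonneg_left x3.le ha
      linarith

/-- points of the axis -/
noncomputable def ax (s : ℝ) : E := v3 0 0 s

lemma ax_mem {s : ℝ} (h0 : 0 < s) (h1 : s < 1) : ax s ∈ Om := by
  refine ⟨?_, h0, h1⟩
  unfold rr ax
  simp
  exact Real.exp_pos _

lemma F_ax (s : ℝ) : F (ax s) = 0 := by
  unfold F
  rw [if_pos]
  unfold rr ax
  simp

lemma norm_gk_le {x : E} (hx : x ∈ Om) (hr : rr x ≠ 0) : ‖F x‖ ≤ 3 * rr x := by
  obtain ⟨b0, b1, b2, b3⟩ := Om_basic hx hr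
  unfold F
  rw [if_neg hr, norm_rot_pow]
  obtain ⟨k, hk⟩ : ∃ k, k = kk x := ⟨_, rfl⟩
  rw [← hk]
  have hfl : (k : ℝ) ≤ zt x := by rw [hk]; exact Nat.floor_le b3.le
  have hzt : zt x * Real.log 3 = x 2 * lt x := by
    unfold zt; field_simp [log3_pos.ne']
  have hk0 : k * Real.log 3 ≤ x 2 * lt x := by
    rw [← hzt]; exact mul_le_mul_of_nonneg_right hfl log3_pos.le
  obtain ⟨bb0, bb2⟩ := band_bounds b1 hk0
  unfold gk
  have hS : IsS (sb x * ep (PA k x 2)) := (IsS_sb x).mul (ep_isS _)
  rw [norm_fl hS]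
  unfold PC
  refine (norm_v3_le _ _ _).trans ?_
  have h3k : (1 : ℝ) ≤ 3 ^ k := one_le_pow₀ (by norm_num)
  have he : Real.exp (-3 ^ k * PB (PA k x) 0) ≤ rr x := by
    rw [rr_eq_exp b0]
    apply Real.exp_le_exp.2
    have h1 : PB (PA k x) 0 = PA k x 0 := rfl
    rw [h1]
    have : 1 * tt x ≤ 3 ^ k * PA k x 0 := mul_le_mul h3k bb0 (by linarith) (by positivity)
    linarith
  have hep := Real.exp_pos (-3 ^ k * PB (PA k x) 0)
  rw [abs_mul, abs_mul, abs_mul, abs_of_pos hep, abs_neg]
  have t1 := tw_bd (3 ^ k * PB (PA k x) 1)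
  have t2 := tw_bd (3 ^ (k + 1) * PB (PA k x) 2)
  have t3 := (mu_abs_right (cw (3 ^ k * PB (PA k x) 1)) (cw (3 ^ (k + 1) * PB (PA k x) 2))).trans (cw_bd _)
  have m1 := mul_le_mul_of_nonneg_left t1 hep.le
  have m2 := mul_le_mul_of_nonneg_left t2 hep.le
  have m3 := mul_le_mul_of_nonneg_left t3 hep.le
  linarith

lemma rr_zero_iff (x : E) : rr x = 0 ↔ x 0 = 0 ∧ x 1 = 0 := by
  unfold rr
  constructor
  · intro h
    have h0 := abs_nonneg (x 0)
    have h1 := abs_nonneg (x 1)
    exact ⟨abs_eq_zero.1 (by linarith), abs_eq_zero.1 (by linarith)⟩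
  · rintro ⟨h0, h1⟩
    rw [h0, h1]; simp

theorem F_lip : ∀ x ∈ Om, ∀ y ∈ Om, ‖F x - F y‖ ≤ 4 * 10 ^ 6 * ‖x - y‖ := by
  apply lip_axis Om Om_open Om_convex {x | rr x = 0} (isClosed_eq rr_continuous continuous_const)
    F (4 * 10 ^ 6) (by norm_num)
  · intro x hx hZ
    exact F_ll hx hZ
  · filter_upwards [F_good] with x hx hO
    obtain ⟨A, h1, h2, h3, h4⟩ := hx hO
    exact ⟨A, h1, h3⟩
  · intro x hx c hc hZ
    by_cases hr : rr x = 0
    · have : F x = 0 := by unfold F; rw [if_pos hr]
      rw [this, norm_zero]; positivity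
    · have h := norm_gk_le hx hr
      obtain ⟨c0, c1⟩ := (rr_zero_iff c).1 hZ
      have e0 := abs_coord (x - c) 0
      have e1 := abs_coord (x - c) 1
      simp only [PiLp.sub_apply, c0, c1, sub_zero] at e0 e1
      have : rr x ≤ 2 * ‖x - c‖ := by unfold rr; linarith
      have hn := norm_nonneg (x - c)
      linarith

lemma F_lipOn : LipschitzOnWith (Real.toNNReal (4 * 10 ^ 6)) F Om := by
  apply LipschitzOnWith.of_dist_le_mul
  intro x hx y hy
  rw [dist_eq_norm, dist_eq_norm, Real.coe_toNNReal _ (by norm_num)]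
  exact F_lip x hx y hy

lemma Om_bdd : Om ⊆ Metric.closedBall (0 : E) 3 := by
  intro x hx
  rw [mem_closedBall_zero_iff]
  have h : x = v3 (x 0) (x 1) (x 2) := by apply ext3 <;> simp
  rw [h]
  refine (norm_v3_le _ _ _).trans ?_
  obtain ⟨h1, h2, h3⟩ := hx
  have he : Real.exp (-100) ≤ 1 := Real.exp_le_one_iff.2 (by norm_num)
  rw [abs_of_pos h2]
  unfold rr at h1
  linarith

lemma Om_finite : volume Om < ⊤ :=
  lt_of_le_of_lt (measure_mono Om_bdd) measure_closedBall_lt_top

lemma weakF (φ : E → ℝ) (hφ : ContDiff ℝ 1 φ) (hc : HasCompactSupport φ) (hs : tsupport φ ⊆ Om)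
    (v : E) : ∫ x in Om, (fderiv ℝ φ x v) • F x = - ∫ x in Om, φ x • fderiv ℝ F x v := by
  obtain ⟨g, hg, hgF⟩ := F_lipOn.extend_finite_dimension
  have hw := SineSob.weak_deriv_all g (measurable_fderiv ℝ g).aestronglyMeasurable
    (fun r _ => ⟨_, hg.lipschitzOnWith⟩) hg.ae_differentiableAt φ hφ hc v
  have e1 : ∫ x in Om, (fderiv ℝ φ x v) • F x = ∫ x, (fderiv ℝ φ x v) • g x := by
    have a1 : ∫ x in Om, (fderiv ℝ φ x v) • g x = ∫ x, (fderiv ℝ φ x v) • g x := by
      apply setIntegral_eq_integral_of_forall_compl_eq_zero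
      intro x hx
      have : fderiv ℝ φ x = 0 := by
        apply image_eq_zero_of_notMem_tsupport (f := fderiv ℝ φ)
        intro h
        exact hx (hs (tsupport_fderiv_subset ℝ h))
      rw [this]; simp
    rw [← a1]
    apply setIntegral_congr_fun Om_open.measurableSet
    intro x hx
    simp only
    rw [hgF hx]
  have e2 : ∫ x in Om, φ x • fderiv ℝ F x v = ∫ x, φ x • fderiv ℝ g x v := by
    have a2 : ∫ x in Om, φ x • fderiv ℝ g x v = ∫ x, φ x • fderiv ℝ g x v := by
      apply setIntegral_eq_integral_of_forall_compl_eq_zero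
      intro x hx
      rw [image_eq_zero_of_notMem_tsupport (fun h => hx (hs h)), zero_smul]
    rw [← a2]
    apply setIntegral_congr_fun Om_open.measurableSet
    intro x hx
    simp only
    have : F =ᶠ[𝓝 x] g := by
      filter_upwards [Om_open.mem_nhds hx] with y hy
      exact hgF hy
    rw [this.fderiv_eq]
  rw [e1, e2, hw]

/-- the distortion bound -/
noncomputable def kap (x : E) : ℝ := 2 * (4 * 10 ^ 6) ^ 3 / (rr x * tt x * lt x)

lemma integrable_dist (J K : E → ℝ) (hJ : ∀ x, J x = LinearMap.det (fderiv ℝ F x).toLinearMap)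
    (hK : ∀ x, K x = if 0 < J x then ‖fderiv ℝ F x‖ ^ 3 / J x else 1) :
    Integrable (fun x => K x ^ 2 * Real.log (Real.exp 1 + K x)) (volume.restrict Om) := by
  have hm : Measurable (fderiv ℝ F) := measurable_fderiv ℝ F
  have hJm : Measurable J := by
    have e : J = fun x => ContinuousLinearMap.det (fderiv ℝ F x) := by funext x; exact hJ x
    rw [e]
    exact ContinuousLinearMap.continuous_det.measurable.comp hm
  have hKm : Measurable K := by
    have e : K = fun x => if 0 < J x then ‖fderiv ℝ F x‖ ^ 3 / J x else 1 := by funext x; exact hK x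
    rw [e]
    exact Measurable.ite (measurableSet_lt measurable_const hJm) ((hm.norm.pow_const 3).div hJm)
      measurable_const
  have hi := integ (2 * (4 * 10 ^ 6) ^ 3) (by norm_num)
  refine Integrable.mono' hi ?_ ?_
  · exact ((hKm.pow_const 2).mul (Real.measurable_log.comp (measurable_const.add hKm))).aestronglyMeasurable
  · rw [ae_restrict_iff' Om_open.measurableSet]
    filter_upwards [F_good] with x hx hO
    obtain ⟨A, h1, h2, h3, h4⟩ := hx hO
    have hJx : J x = A.det := by rw [hJ, h1.fderiv]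
    have hK0 : K x = ‖A‖ ^ 3 / A.det := by
      rw [hK, hJx, if_pos h2, h1.fderiv]
    have hKn : 0 ≤ K x := by rw [hK0]; positivity
    have hKle : K x ≤ 2 * (4 * 10 ^ 6) ^ 3 / (rr x * tt x * lt x) := by
      rw [hK0, div_le_iff₀ h2]; exact h4
    have he : 1 ≤ Real.exp 1 := by have := Real.add_one_le_exp 1; linarith
    have hlog : Real.log (Real.exp 1 + K x) ≤
        Real.log (Real.exp 1 + 2 * (4 * 10 ^ 6) ^ 3 / (rr x * tt x * lt x)) :=
      Real.log_le_log (by linarith) (by linarith)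
    have hlog0 : 0 ≤ Real.log (Real.exp 1 + K x) := Real.log_nonneg (by linarith)
    rw [Real.norm_of_nonneg (by positivity)]
    exact mul_le_mul (pow_le_pow_left₀ hKn hKle 2) hlog hlog0 (by positivity)

lemma F_meas : AEStronglyMeasurable F (volume.restrict Om) :=
  F_lipOn.continuousOn.aestronglyMeasurable Om_open.measurableSet

lemma restrict_finite : IsFiniteMeasure (volume.restrict Om : Measure E) :=
  ⟨by rw [Measure.restrict_apply_univ]; exact Om_finite⟩

lemma F_bdd (x : E) (hx : x ∈ Om) : ‖F x‖ ≤ 3 := by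
  by_cases hr : rr x = 0
  · have : F x = 0 := by unfold F; rw [if_pos hr]
    rw [this, norm_zero]; norm_num
  · have h := norm_gk_le hx hr
    have he : Real.exp (-100) ≤ 1 := Real.exp_le_one_iff.2 (by norm_num)
    have := hx.1
    linarith

lemma F_memLp : MemLp F ((3 : ℕ) : ENNReal) (volume.restrict Om) := by
  haveI := restrict_finite
  apply MemLp.of_bound F_meas 3
  rw [ae_restrict_iff' Om_open.measurableSet]
  exact Eventually.of_forall F_bdd

lemma DF_memLp : MemLp (fderiv ℝ F) ((3 : ℕ) : ENNReal) (volume.restrict Om) := by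
  haveI := restrict_finite
  apply MemLp.of_bound (measurable_fderiv ℝ F).aestronglyMeasurable (4 * 10 ^ 6)
  rw [ae_restrict_iff' Om_open.measurableSet]
  filter_upwards [F_good] with x hx hO
  obtain ⟨A, h1, h2, h3, h4⟩ := hx hO
  rw [h1.fderiv]; exact h3

lemma F_det_ae : ∀ᵐ x ∂(volume.restrict Om), 0 ≤ LinearMap.det (fderiv ℝ F x).toLinearMap ∧
    (LinearMap.det (fderiv ℝ F x).toLinearMap = 0 → fderiv ℝ F x = 0) := by
  rw [ae_restrict_iff' Om_open.measurableSet]
  filter_upwards [F_good] with x hx hO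
  obtain ⟨A, h1, h2, h3, h4⟩ := hx hO
  rw [h1.fderiv]
  have h2' : 0 < LinearMap.det A.toLinearMap := h2
  exact ⟨h2'.le, fun h => absurd h h2'.ne'⟩

lemma F_not_discrete : ¬ ∀ x ∈ Om, ∃ ε > 0, ∀ z ∈ Om, F z = F x → dist z x < ε → z = x := by
  intro h
  obtain ⟨ε, hε, hz⟩ := h (ax (1 / 2)) (ax_mem (by norm_num) (by norm_num))
  have hδ : 0 < min (ε / 2) (1 / 4) := lt_min (by linarith) (by norm_num)
  have hδ1 := min_le_left (ε / 2) (1 / 4 : ℝ)
  have hδ2 := min_le_right (ε / 2) (1 / 4 : ℝ)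
  set δ := min (ε / 2) (1 / 4 : ℝ)
  have h1 := hz (ax (1 / 2 + δ)) (ax_mem (by linarith) (by linarith)) (by rw [F_ax, F_ax]) (by
    rw [dist_eq_norm]
    have e : ax (1 / 2 + δ) - ax (1 / 2) = v3 0 0 δ := by
      unfold ax
      apply ext3 <;> simp
    rw [e]
    refine lt_of_le_of_lt (norm_v3_le _ _ _) ?_
    rw [abs_zero, abs_of_pos hδ]
    linarith)
  have h2 := congrArg (fun v : E => v 2) h1
  simp only [ax, v3_2] at h2
  linarith

lemma F_nonconst : ¬ ∃ c : E, ∀ x ∈ Om, F x = c := by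
  rintro ⟨c, hc⟩
  have hc0 : c = 0 := by
    rw [← hc _ (ax_mem (s := 1 / 2) (by norm_num) (by norm_num)), F_ax]
  -- then the derivative vanishes everywhere in the domain
  have hpos : 0 < volume Om := Om_open.measure_pos volume ⟨_, ax_mem (s := 1 / 2) (by norm_num) (by norm_num)⟩
  have hz : ∀ x ∈ Om, HasFDerivAt F (0 : E →L[ℝ] E) x := by
    intro x hx
    apply (hasFDerivAt_const (0 : E) x).congr_of_eventuallyEq
    filter_upwards [Om_open.mem_nhds hx] with y hy
    rw [hc y hy, hc0]
  have hnull : volume Om = 0 := by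
    have : ∀ᵐ x ∂(volume : Measure E), x ∉ Om := by
      filter_upwards [F_good] with x hx hO
      obtain ⟨A, h1, h2, h3, h4⟩ := hx hO
      have hA : A = 0 := h1.unique (hz x hO)
      rw [hA] at h2
      have hd : ContinuousLinearMap.det (0 : E →L[ℝ] E) = 0 := by
        have := linM_det 0 0 0
        have e : linM 0 0 0 = 0 := by
          apply ContinuousLinearMap.ext; intro v; rw [linM_apply]; simp
        rw [e] at this
        rw [this]; unfold T; simp
      rw [hd] at h2
      exact lt_irrefl _ h2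
    rwa [ae_iff, show {a : E | ¬ a ∉ Om} = Om by ext; simp] at this
  rw [hnull] at hpos
  exact lt_irrefl _ hpos

end Pool.Agent.Helper746.Ep
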