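import Pool.Agent.Helper746.EpTri

set_option autoImplicit false
open MeasureTheory Filter Topology

namespace Pool.Agent.Helper746.Ep

theorem rot_aux1 (M W X M' W' X' δ : ℝ) (hM' : 0 ≤ M') (hW : 0 ≤ W) (hW' : 0 ≤ W')
    (hX : |X| ≤ W) (hX' : |X'| ≤ W') (hMW : M ≤ 2 * W) (hMW' : M' ≤ 2 * W')
    (hMM : |M - M'| ≤ δ) (hWW : |W - W'| ≤ δ) (hXX : |X - X'| ≤ δ) (hle : M' ≤ M) :
    |M / W * X - M' / W' * X'| ≤ 5 * δ := by
  have hδ : 0 ≤ δ := le_trans (abs_nonneg _) hMM
  have hM : 0 ≤ M := le_trans hM' hle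
  rcases hW.eq_or_lt with h0 | hWpos
  · have hM0 : M = 0 := by linarith
    have hM0' : M' = 0 := by linarith
    rw [hM0, hM0']
    simp
    exact hδ
  · rcases hW'.eq_or_lt with h0 | hWpos'
    · have hM0' : M' = 0 := by linarith
      rw [hM0'] at hMM ⊢
      simp only [zero_div, zero_mul, sub_zero] at hMM ⊢
      have h1 : |M / W * X| = M * (|X| / W) := by
        rw [abs_mul, abs_div, abs_of_nonneg hM, abs_of_pos hWpos]; ring
      have h2 : |X| / W ≤ 1 := (div_le_one hWpos).mpr hX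
      rw [h1]
      have h3 : M * (|X| / W) ≤ M * 1 := mul_le_mul_of_nonneg_left h2 hM
      rw [abs_of_nonneg hM] at hMM
      linarith
    · have e : M / W * X - M' / W' * X' =
          (M - M') * (X / W) + (M' / W) * (X - X') + (M' / W) * (X' / W') * (W' - W) := by
        field_simp
        ring
      rw [e]
      have hXW : |X / W| ≤ 1 := by
        rw [abs_div, abs_of_pos hWpos]; exact (div_le_one hWpos).mpr hX
      have hXW' : |X' / W'| ≤ 1 := by
        rw [abs_div, abs_of_pos hWpos']; exact (div_le_one hWpos').mpr hX'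
      have hMd : |M' / W| ≤ 2 := by
        rw [abs_div, abs_of_pos hWpos, abs_of_nonneg hM', div_le_iff₀ hWpos]; linarith
      have hWW2 : |W' - W| ≤ δ := by rw [abs_sub_comm]; exact hWW
      have t1 : |(M - M') * (X / W)| ≤ δ * 1 := by
        rw [abs_mul]; exact mul_le_mul hMM hXW (abs_nonneg _) hδ
      have t2 : |(M' / W) * (X - X')| ≤ 2 * δ := by
        rw [abs_mul]; exact mul_le_mul hMd hXX (abs_nonneg _) (by norm_num)
      have t3 : |(M' / W) * (X' / W') * (W' - W)| ≤ (2 * 1) * δ := by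
        rw [abs_mul, abs_mul]
        exact mul_le_mul (mul_le_mul hMd hXW' (abs_nonneg _) (by norm_num)) hWW2 (abs_nonneg _)
          (by norm_num)
      have := abs_add_le ((M - M') * (X / W) + (M' / W) * (X - X')) ((M' / W) * (X' / W') * (W' - W))
      have := abs_add_le ((M - M') * (X / W)) ((M' / W) * (X - X'))
      linarith

theorem rot_aux (M W X M' W' X' δ : ℝ) (hM : 0 ≤ M) (hM' : 0 ≤ M') (hW : 0 ≤ W) (hW' : 0 ≤ W')
    (hX : |X| ≤ W) (hX' : |X'| ≤ W') (hMW : M ≤ 2 * W) (hMW' : M' ≤ 2 * W')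
    (hMM : |M - M'| ≤ δ) (hWW : |W - W'| ≤ δ) (hXX : |X - X'| ≤ δ) :
    |M / W * X - M' / W' * X'| ≤ 5 * δ := by
  rcases le_total M' M with h | h
  · exact rot_aux1 M W X M' W' X' δ hM' hW hW' hX hX' hMW hMW' hMM hWW hXX h
  · rw [abs_sub_comm]
    exact rot_aux1 M' W' X' M W X δ hM hW' hW hX' hX hMW' hMW
      (by rw [abs_sub_comm]; exact hMM) (by rw [abs_sub_comm]; exact hWW)
      (by rw [abs_sub_comm]; exact hXX) h

theorem N_nonneg (a b : ℝ) : 0 ≤ N a b := le_max_of_le_left (abs_nonneg _)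

theorem N_le (a p y : ℝ) : N p y ≤ 2 * N (rX a p y) (rY a p y) := by
  have e1 : p = Real.cos a * rX a p y + Real.sin a * rY a p y := by
    have := Real.sin_sq_add_cos_sq a
    unfold rX rY
    linear_combination (-p) * this
  have e2 : y = Real.cos a * rY a p y - Real.sin a * rX a p y := by
    have := Real.sin_sq_add_cos_sq a
    unfold rX rY
    linear_combination (-y) * this
  have hx : |rX a p y| ≤ N (rX a p y) (rY a p y) := le_max_left _ _
  have hy : |rY a p y| ≤ N (rX a p y) (rY a p y) := le_max_right _ _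
  have hc := Real.abs_cos_le_one a
  have hs := Real.abs_sin_le_one a
  have c1 : |Real.cos a * rX a p y| ≤ 1 * N (rX a p y) (rY a p y) := by
    rw [abs_mul]; exact mul_le_mul hc hx (abs_nonneg _) (by norm_num)
  have c2 : |Real.sin a * rY a p y| ≤ 1 * N (rX a p y) (rY a p y) := by
    rw [abs_mul]; exact mul_le_mul hs hy (abs_nonneg _) (by norm_num)
  have c3 : |Real.cos a * rY a p y| ≤ 1 * N (rX a p y) (rY a p y) := by
    rw [abs_mul]; exact mul_le_mul hc hy (abs_nonneg _) (by norm_num)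
  have c4 : |Real.sin a * rX a p y| ≤ 1 * N (rX a p y) (rY a p y) := by
    rw [abs_mul]; exact mul_le_mul hs hx (abs_nonneg _) (by norm_num)
  refine max_le ?_ ?_
  · have h := abs_add_le (Real.cos a * rX a p y) (Real.sin a * rY a p y)
    rw [← e1] at h
    linarith
  · have h := abs_sub (Real.cos a * rY a p y) (Real.sin a * rX a p y)
    rw [← e2] at h
    linarith

theorem N_diff (a b a' b' δ : ℝ) (h1 : |a - a'| ≤ δ) (h2 : |b - b'| ≤ δ) :
    |N a b - N a' b'| ≤ δ := by
  have h := abs_max_sub_max_le_max |a| |b| |a'| |b'|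
  have k1 := abs_abs_sub_abs_le a a'
  have k2 := abs_abs_sub_abs_le b b'
  unfold N
  exact h.trans (max_le (k1.trans h1) (k2.trans h2))

theorem cos_lip (a a' : ℝ) : |Real.cos a - Real.cos a'| ≤ |a - a'| := by
  have h := Real.cos_sub_cos a a'
  rw [h, abs_mul, abs_mul]
  have h1 := Real.abs_sin_le_one ((a + a') / 2)
  have h2 : |Real.sin ((a - a') / 2)| ≤ |(a - a') / 2| := Real.abs_sin_le_abs
  have h3 : |(a - a') / 2| = |a - a'| / 2 := by rw [abs_div]; norm_num
  have h4 : |(-2 : ℝ)| = 2 := by norm_num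
  rw [h4]
  rw [h3] at h2
  have := mul_le_mul h1 h2 (abs_nonneg _) (by norm_num)
  nlinarith [this]

theorem sin_lip (a a' : ℝ) : |Real.sin a - Real.sin a'| ≤ |a - a'| := by
  have h := Real.sin_sub_sin a a'
  rw [h, abs_mul, abs_mul]
  have h1 := Real.abs_cos_le_one ((a + a') / 2)
  have h2 : |Real.sin ((a - a') / 2)| ≤ |(a - a') / 2| := Real.abs_sin_le_abs
  have h3 : |(a - a') / 2| = |a - a'| / 2 := by rw [abs_div]; norm_num
  have h4 : |(2 : ℝ)| = 2 := by norm_num
  rw [h4]
  rw [h3] at h2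
  have := mul_le_mul h1 h2 (abs_nonneg _) (by norm_num)
  nlinarith [this]

theorem prod_lip (c c' p p' D : ℝ) (hc : |c - c'| ≤ D) (hp : |p| ≤ 1) (hc' : |c'| ≤ 1) :
    |c * p - c' * p'| ≤ D + |p - p'| := by
  have e : c * p - c' * p' = (c - c') * p + c' * (p - p') := by ring
  rw [e]
  have h1 : |(c - c') * p| ≤ D * 1 := by
    rw [abs_mul]; exact mul_le_mul hc hp (abs_nonneg _) (le_trans (abs_nonneg _) hc)
  have h2 : |c' * (p - p')| ≤ 1 * |p - p'| := by
    rw [abs_mul]; exact mul_le_mul_of_nonneg_right hc' (abs_nonneg _)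
  have := abs_add_le ((c - c') * p) (c' * (p - p'))
  linarith

/-- TARGET -/
theorem rot_lip : ∃ C : ℝ, 0 ≤ C ∧ ∀ a p y a' p' y' : ℝ, |p| ≤ 1 → |y| ≤ 1 → |p'| ≤ 1 → |y'| ≤ 1 →
    |mm a p y * rX a p y - mm a' p' y' * rX a' p' y'| ≤ C * (|a - a'| + |p - p'| + |y - y'|) ∧
    |mm a p y * rY a p y - mm a' p' y' * rY a' p' y'| ≤ C * (|a - a'| + |p - p'| + |y - y'|) := by
  refine ⟨10, by norm_num, ?_⟩
  intro a p y a' p' y' hp hy hp' hy'
  set δ := 2 * (|a - a'| + |p - p'| + |y - y'|) with hδ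
  have na := abs_nonneg (a - a')
  have np := abs_nonneg (p - p')
  have ny := abs_nonneg (y - y')
  have hX : |rX a p y - rX a' p' y'| ≤ δ := by
    have h1 := prod_lip (Real.cos a) (Real.cos a') p p' _ (cos_lip a a') hp (Real.abs_cos_le_one _)
    have h2 := prod_lip (Real.sin a) (Real.sin a') y y' _ (sin_lip a a') hy (Real.abs_sin_le_one _)
    have e : rX a p y - rX a' p' y' = (Real.cos a * p - Real.cos a' * p') -
      (Real.sin a * y - Real.sin a' * y') := by unfold rX; ring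
    rw [e]
    have := abs_sub (Real.cos a * p - Real.cos a' * p') (Real.sin a * y - Real.sin a' * y')
    rw [hδ]; linarith
  have hY : |rY a p y - rY a' p' y'| ≤ δ := by
    have h1 := prod_lip (Real.sin a) (Real.sin a') p p' _ (sin_lip a a') hp (Real.abs_sin_le_one _)
    have h2 := prod_lip (Real.cos a) (Real.cos a') y y' _ (cos_lip a a') hy (Real.abs_cos_le_one _)
    have e : rY a p y - rY a' p' y' = (Real.sin a * p - Real.sin a' * p') +
      (Real.cos a * y - Real.cos a' * y') := by unfold rY; ring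
    rw [e]
    have := abs_add_le (Real.sin a * p - Real.sin a' * p') (Real.cos a * y - Real.cos a' * y')
    rw [hδ]; linarith
  have hM : |N p y - N p' y'| ≤ δ := N_diff _ _ _ _ _ (by rw [hδ]; linarith) (by rw [hδ]; linarith)
  have hW : |N (rX a p y) (rY a p y) - N (rX a' p' y') (rY a' p' y')| ≤ δ :=
    N_diff _ _ _ _ _ hX hY
  have key1 := rot_aux (N p y) (N (rX a p y) (rY a p y)) (rX a p y)
    (N p' y') (N (rX a' p' y') (rY a' p' y')) (rX a' p' y') δ (N_nonneg _ _) (N_nonneg _ _)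
    (N_nonneg _ _) (N_nonneg _ _) (le_max_left _ _) (le_max_left _ _) (N_le _ _ _) (N_le _ _ _)
    hM hW hX
  have key2 := rot_aux (N p y) (N (rX a p y) (rY a p y)) (rY a p y)
    (N p' y') (N (rX a' p' y') (rY a' p' y')) (rY a' p' y') δ (N_nonneg _ _) (N_nonneg _ _)
    (N_nonneg _ _) (N_nonneg _ _) (le_max_right _ _) (le_max_right _ _) (N_le _ _ _) (N_le _ _ _)
    hM hW hY
  unfold mm
  refine ⟨?_, ?_⟩
  · rw [hδ] at key1; linarith
  · rw [hδ] at key2; linarith

end Pool.Agent.Helper746.Ep
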