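import Pool.Agent.Helper746.EpLL
import Pool.Agent.Helper746.EpRot

set_option autoImplicit false
open MeasureTheory Filter Topology

namespace Pool.Agent.Helper746.Ep

/-! ### periodicity of the triangle functions -/

lemma cw_add4 (x : ℝ) (j : ℤ) : cw (x - 4 * j) = cw x := by
  rcases tri x with ⟨k, s, hs, hk, h⟩
  have h4 : ∀ y : ℝ, ∀ i : ℤ, d4 (y - 4 * i) = d4 y := by
    intro y i
    apply le_antisymm
    · have := d4_le (y - 4 * i) (round (y / 4) - i)
      unfold d4 at this ⊢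
      push_cast at this
      rwa [show y - 4 * (i : ℝ) - 4 * ((round (y / 4) : ℝ) - i) = y - 4 * (round (y / 4) : ℝ) by ring] at this
    · have := d4_le y (round ((y - 4 * i) / 4) + i)
      unfold d4 at this ⊢
      push_cast at this
      rwa [show y - 4 * ((round ((y - 4 * (i : ℝ)) / 4) : ℝ) + i) =
        y - 4 * (i : ℝ) - 4 * (round ((y - 4 * (i : ℝ)) / 4) : ℝ) by ring] at this
  unfold cw
  rw [h4]

lemma tw_add4 (x : ℝ) (j : ℤ) : tw (x - 4 * j) = tw x := by
  unfold tw
  rw [show x - 4 * (j : ℝ) - 1 = x - 1 - 4 * (j : ℝ) by ring, cw_add4]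

lemma cell (x : ℝ) : ∃ j : ℤ, |x - 4 * j| ≤ 1 ∨ |x - (4 * j + 2)| ≤ 1 := by
  have hx : |x - 2 * (round (x / 2) : ℤ)| ≤ 1 := by
    have h := abs_sub_round (x / 2)
    have e1 : x - 2 * (round (x / 2) : ℤ) = 2 * (x / 2 - (round (x / 2) : ℤ)) := by ring
    rw [e1, abs_mul, abs_of_pos (by norm_num : (0 : ℝ) < 2)]
    linarith
  rcases Int.even_or_odd' (round (x / 2)) with ⟨j, hj | hj⟩
  · refine ⟨j, Or.inl ?_⟩
    rw [hj] at hx; push_cast at hx
    rwa [show x - 2 * (2 * (j : ℝ)) = x - 4 * j by ring] at hx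
  · refine ⟨j, Or.inr ?_⟩
    rw [hj] at hx; push_cast at hx
    rwa [show x - 2 * (2 * (j : ℝ) + 1) = x - (4 * j + 2) by ring] at hx

lemma cw_add2 (x : ℝ) : cw (x - 2) = - cw x := by
  obtain ⟨j, h | h⟩ := cell x
  · have h1 := (tri_even h).2
    have h2 := (tri_odd (x := x - 2) (j := j - 1) (by
      push_cast; rwa [show x - 2 - (4 * ((j : ℝ) - 1) + 2) = x - 4 * j by ring])).2
    push_cast at h2
    rw [h1, h2, show x - 2 - (4 * ((j : ℝ) - 1) + 2) = x - 4 * j by ring]
  · have h1 := (tri_odd h).2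
    have h2 := (tri_even (x := x - 2) (j := j) (by
      rwa [show x - 2 - 4 * (j : ℝ) = x - (4 * j + 2) by ring])).2
    rw [h1, h2, show x - 2 - 4 * (j : ℝ) = x - (4 * j + 2) by ring]; ring

lemma tw_add2 (x : ℝ) : tw (x - 2) = - tw x := by
  unfold tw
  rw [show x - 2 - 1 = x - 1 - 2 by ring, cw_add2]

lemma cw_neg (x : ℝ) : cw (-x) = cw x := by
  obtain ⟨j, h | h⟩ := cell x
  · have h1 := (tri_even h).2
    have h2 := (tri_even (x := -x) (j := -j) (by
      push_cast
      rw [show -x - 4 * (-(j : ℝ)) = -(x - 4 * j) by ring, abs_neg]; exact h)).2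
    push_cast at h2
    rw [h1, h2, show -x - 4 * (-(j : ℝ)) = -(x - 4 * j) by ring, abs_neg]
  · have h1 := (tri_odd h).2
    have h2 := (tri_odd (x := -x) (j := -j - 1) (by
      push_cast
      rw [show -x - (4 * (-(j : ℝ) - 1) + 2) = -(x - (4 * j + 2)) by ring, abs_neg]; exact h)).2
    push_cast at h2
    rw [h1, h2, show -x - (4 * (-(j : ℝ) - 1) + 2) = -(x - (4 * j + 2)) by ring, abs_neg]

lemma tw_neg (x : ℝ) : tw (-x) = - tw x := by
  obtain ⟨j, h | h⟩ := cell x
  · have h1 := (tri_even h).1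
    have h2 := (tri_even (x := -x) (j := -j) (by
      push_cast
      rw [show -x - 4 * (-(j : ℝ)) = -(x - 4 * j) by ring, abs_neg]; exact h)).1
    push_cast at h2
    rw [h1, h2]; ring
  · have h1 := (tri_odd h).1
    have h2 := (tri_odd (x := -x) (j := -j - 1) (by
      push_cast
      rw [show -x - (4 * (-(j : ℝ) - 1) + 2) = -(x - (4 * j + 2)) by ring, abs_neg]; exact h)).1
    push_cast at h2
    rw [h1, h2]; ring

/-- the key functional equation of the triangle sine: `m` odd -/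
lemma tw_mul (m : ℕ) (hm : Odd m) (y : ℝ) : tw (m * tw y) = tw (m * y) := by
  obtain ⟨i, hi⟩ := hm
  obtain ⟨j, h | h⟩ := cell y
  · rw [(tri_even h).1, show (m : ℝ) * (y - 4 * j) = m * y - 4 * ((m * j : ℤ) : ℝ) by
      push_cast; ring, tw_add4]
  · rw [(tri_odd h).1]
    have e : (m : ℝ) * -(y - (4 * j + 2)) = -(m * y - 4 * ((m * j + i : ℤ) : ℝ) - 2) := by
      rw [hi]; push_cast; ring
    rw [e, tw_neg, tw_add2, tw_add4, neg_neg]

lemma cw_odd (n : ℤ) (hn : Odd n) : cw n = 0 := by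
  obtain ⟨i, hi⟩ := hn
  rcases Int.even_or_odd' i with ⟨j, hj | hj⟩
  · have h := (tri_even (x := (n : ℝ)) (j := j) (by
      rw [hi, hj]; push_cast; rw [show (2 * (2 * (j : ℝ)) + 1 - 4 * j) = 1 by ring]; simp)).2
    rw [h, hi, hj]; push_cast; rw [show (2 * (2 * (j : ℝ)) + 1 - 4 * j) = 1 by ring]; simp
  · have h := (tri_odd (x := (n : ℝ)) (j := j) (by
      rw [hi, hj]; push_cast; rw [show (2 * (2 * (j : ℝ) + 1) + 1 - (4 * j + 2)) = 1 by ring]; simp)).2
    rw [h, hi, hj]; push_cast; rw [show (2 * (2 * (j : ℝ) + 1) + 1 - (4 * j + 2)) = 1 by ring]; simp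

lemma cw_mul (m : ℕ) (hm : Odd m) (y : ℝ) : ep y * cw (m * tw y) = cw (m * y) := by
  obtain ⟨i, hi⟩ := hm
  obtain ⟨j, h | h⟩ := cell y
  · have h1 := tri_even h
    have h2 : ep y = 1 := by unfold ep; rw [if_pos (by rw [h1.2]; linarith)]
    rw [h1.1, h2, show (m : ℝ) * (y - 4 * j) = m * y - 4 * ((m * j : ℤ) : ℝ) by
      push_cast; ring, cw_add4, one_mul]
  · have h1 := tri_odd h
    have e : (m : ℝ) * -(y - (4 * j + 2)) = -(m * y - 4 * ((m * j + i : ℤ) : ℝ) - 2) := by
      rw [hi]; push_cast; ring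
    have e2 : cw (m * tw y) = - cw (m * y) := by
      rw [h1.1, e, cw_neg, cw_add2, cw_add4]
    rw [e2]
    by_cases h0 : 0 ≤ cw y
    · -- boundary case: both sides vanish
      have h3 : |y - (4 * j + 2)| = 1 := by
        rw [h1.2] at h0; linarith
      have h4 : cw (m * y) = 0 := by
        rcases abs_choice (y - (4 * (j : ℝ) + 2)) with ha | ha
        · have hy : (m : ℝ) * y = ((m * (4 * j + 3) : ℤ) : ℝ) := by
            have : y = 4 * j + 3 := by rw [ha] at h3; linarith
            rw [this]; push_cast; ring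
          rw [hy]
          apply cw_odd
          apply Odd.mul
          · rw [hi]; exact ⟨i, by push_cast; ring⟩
          · exact ⟨2 * j + 1, by ring⟩
        · have hy : (m : ℝ) * y = ((m * (4 * j + 1) : ℤ) : ℝ) := by
            have : y = 4 * j + 1 := by rw [ha] at h3; linarith
            rw [this]; push_cast; ring
          rw [hy]
          apply cw_odd
          apply Odd.mul
          · rw [hi]; exact ⟨i, by push_cast; ring⟩
          · exact ⟨2 * j, by ring⟩
      rw [h4]; simp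
    · have h2 : ep y = -1 := by unfold ep; rw [if_neg h0]
      rw [h2]; ring

lemma abs_tw_of_cw {x : ℝ} (h : cw x = 0) : |tw x| = 1 := by
  obtain ⟨k, s, hs, hk, ht⟩ := tri x
  have h1 := ht x hk
  rw [h1.1, abs_mul, hs.abs, one_mul]
  have h2 := h1.2
  rw [h] at h2
  rcases hs with e | e <;> rw [e] at h2 <;> linarith

lemma cw_pow_of_abs {q : ℝ} (j : ℕ) (h : |q| = 1) : cw (3 ^ j * q) = 0 := by
  have ho : Odd ((3 : ℤ) ^ j) := Odd.pow (by decide)
  rcases abs_choice q with ha | ha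
  · have : q = 1 := by rw [ha] at h; exact h
    rw [this]
    have := cw_odd _ ho
    push_cast at this
    rw [mul_one]; exact this
  · have : q = -1 := by rw [ha] at h; linarith
    rw [this]
    have := cw_odd _ ho
    push_cast at this
    rw [show (3 : ℝ) ^ j * -1 = -(3 ^ j) by ring, cw_neg]; exact this

/-! ### the square rotation preserves the maximum norm -/

lemma N_mul (m a b : ℝ) (hm : 0 ≤ m) : N (m * a) (m * b) = m * N a b := by
  unfold N; rw [abs_mul, abs_mul, abs_of_nonneg hm, mul_max_of_nonneg _ _ hm]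

lemma rot_zero {a p y : ℝ} (h : N (rX a p y) (rY a p y) = 0) : p = 0 ∧ y = 0 := by
  unfold N at h
  have h1 : |rX a p y| ≤ 0 := h ▸ le_max_left _ _
  have h2 : |rY a p y| ≤ 0 := h ▸ le_max_right _ _
  have h1' := abs_nonpos_iff.1 h1
  have h2' := abs_nonpos_iff.1 h2
  unfold rX at h1'
  unfold rY at h2'
  have hcs := Real.cos_sq_add_sin_sq a
  constructor
  · have : p * (Real.cos a ^ 2 + Real.sin a ^ 2) = 0 := by
      linear_combination Real.cos a * h1' + Real.sin a * h2'
    rwa [hcs, mul_one] at this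
  · have : y * (Real.cos a ^ 2 + Real.sin a ^ 2) = 0 := by
      linear_combination -Real.sin a * h1' + Real.cos a * h2'
    rwa [hcs, mul_one] at this

lemma N_rot (a p y : ℝ) : N (mm a p y * rX a p y) (mm a p y * rY a p y) = N p y := by
  by_cases h : N (rX a p y) (rY a p y) = 0
  · obtain ⟨h1, h2⟩ := rot_zero h
    subst h1 h2
    simp [mm, N, rX, rY]
  · have hm : 0 ≤ mm a p y := div_nonneg (N_nonneg _ _) (N_nonneg _ _)
    rw [N_mul _ _ _ hm]
    unfold mm
    field_simp

lemma mu_rot_zero {a p y : ℝ} (k : ℕ) (h : N p y = 1) :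
    mu (cw (3 ^ k * (mm a p y * rX a p y))) (cw (3 ^ (k + 1) * (mm a p y * rY a p y))) = 0 := by
  have h1 := N_rot a p y
  rw [h] at h1
  unfold N at h1
  rcases max_choice |mm a p y * rX a p y| |mm a p y * rY a p y| with hc | hc
  · rw [hc] at h1
    rw [cw_pow_of_abs k h1, mu_zero_left]
  · rw [hc] at h1
    rw [cw_pow_of_abs (k + 1) h1, mu_zero_right]

lemma rr_nonneg (x : E) : 0 ≤ rr x := by unfold rr; positivity

lemma abs_p_le (x : E) : |x 0 / rr x| ≤ 1 := by
  rw [abs_div, abs_of_nonneg (rr_nonneg x)]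
  by_cases h : rr x = 0
  · rw [h, div_zero]; norm_num
  · rw [div_le_one (lt_of_le_of_ne (rr_nonneg x) (Ne.symm h))]
    unfold rr
    linarith [abs_nonneg (x 1)]

/-- third coordinate of `PC k (PB (PA k x))` without the sign -/
noncomputable def h3 (k : ℕ) (x : E) : ℝ := PC k (PB (PA k x)) 2

lemma h3_zero_left {k : ℕ} {x : E} (hr : rr x ≠ 0) (h : x 1 = 0) : h3 k x = 0 := by
  have hp : |x 0 / rr x| = 1 := by
    unfold rr at hr ⊢
    rw [h, abs_zero, add_zero] at hr ⊢
    rw [abs_div, abs_abs, div_self hr]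
  have hN : N (x 0 / rr x) (tw (PA k x 2)) = 1 := by
    unfold N
    rw [hp, max_eq_left (tw_bd _)]
  unfold h3 PC PB
  simp only [v3_2, v3_1]
  rw [mu_rot_zero k (a := al (PA k x)) (p := PA k x 1) (y := tw (PA k x 2))]
  · simp
  · exact hN

lemma h3_zero_right {k : ℕ} {x : E} (h : cw (PA k x 2) = 0) : h3 k x = 0 := by
  have hy := abs_tw_of_cw h
  have hN : N (x 0 / rr x) (tw (PA k x 2)) = 1 := by
    unfold N
    rw [hy, max_eq_right (abs_p_le x)]
  unfold h3 PC PB
  simp only [v3_2, v3_1]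
  rw [mu_rot_zero k (a := al (PA k x)) (p := PA k x 1) (y := tw (PA k x 2))]
  · simp
  · exact hN

end Pool.Agent.Helper746.Ep
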