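import Pool.Agent.Helper746.EpTri

set_option autoImplicit false
open MeasureTheory Filter Topology

namespace Pool.Agent.Helper746.Ep



lemma nbhd_sign {A : E → ℝ} {Q : E} (hA : ContinuousAt A Q) (h0 : A Q ≠ 0) :
    ∃ n : ℝ, IsS n ∧ ∀ᶠ y in 𝓝 Q, |A y| = n * A y := by
  rcases lt_or_gt_of_ne h0 with h | h
  · refine ⟨-1, Or.inr rfl, ?_⟩
    filter_upwards [hA.eventually_lt_const h] with y hy
    rw [abs_of_neg hy]; ring
  · refine ⟨1, Or.inl rfl, ?_⟩
    filter_upwards [hA.eventually_const_lt h] with y hy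
    rw [abs_of_pos hy]; ring

/-- TARGET -/
theorem PC_good (k : ℕ) (Q : E) (h1 : cw (3 ^ k * Q 1) ≠ 0) (h2 : cw (3 ^ (k + 1) * Q 2) ≠ 0)
    (h3 : |cw (3 ^ k * Q 1)| ≠ |cw (3 ^ (k + 1) * Q 2)|) :
    ∃ A : E →L[ℝ] E, HasFDerivAt (PC k) A Q ∧ ‖A‖ ≤ 20 * 3 ^ k * Real.exp (-3 ^ k * Q 0) ∧
      A.det = 3 * (3 ^ k * Real.exp (-3 ^ k * Q 0)) ^ 3 := by
  obtain ⟨j1, s1, hs1, ha1, ht1⟩ := tri (3 ^ k * Q 1)
  obtain ⟨j2, s2, hs2, ha2, ht2⟩ := tri (3 ^ (k + 1) * Q 2)
  set m : ℝ := 3 ^ k with hm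
  have hm0 : 0 < m := by positivity
  have hm3 : (3 : ℝ) ^ (k + 1) = 3 * m := by rw [pow_succ, hm]; ring
  rw [hm3] at h2 h3 ha2
  set A : E → ℝ := fun y => m * y 1 - 2 * j1 with hA
  set B : E → ℝ := fun y => 3 * m * y 2 - 2 * j2 with hB
  have cA : Continuous A := by
    have : Continuous fun y : E => y 1 := (EuclideanSpace.proj 1 : E →L[ℝ] ℝ).continuous
    exact (continuous_const.mul this).sub continuous_const
  have cB : Continuous B := by
    have : Continuous fun y : E => y 2 := (EuclideanSpace.proj 2 : E →L[ℝ] ℝ).continuous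
    exact (continuous_const.mul this).sub continuous_const
  have hs1ne : s1 ≠ 0 := by intro h; have := hs1.sq; rw [h] at this; norm_num at this
  have hs2ne : s2 ≠ 0 := by intro h; have := hs2.sq; rw [h] at this; norm_num at this
  have e1 : cw (m * Q 1) = s1 * (1 - |A Q|) := (ht1 _ ha1).2
  have e2 : cw (3 * m * Q 2) = s2 * (1 - |B Q|) := (ht2 _ ha2).2
  have hA1 : |A Q| < 1 := by
    rcases lt_or_eq_of_le (show |A Q| ≤ 1 from ha1) with h | h
    · exact h
    · exfalso; apply h1; rw [e1, h]; ring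
  have hB1 : |B Q| < 1 := by
    rcases lt_or_eq_of_le (show |B Q| ≤ 1 from ha2) with h | h
    · exact h
    · exfalso; apply h2; rw [e2, h]; ring
  have hne : |A Q| ≠ |B Q| := by
    intro h
    apply h3
    rw [e1, e2, abs_mul, abs_mul, hs1.abs, hs2.abs, h]
  have evA : ∀ᶠ y in 𝓝 Q, |A y| < 1 := cA.abs.continuousAt.eventually_lt_const hA1
  have evB : ∀ᶠ y in 𝓝 Q, |B y| < 1 := cB.abs.continuousAt.eventually_lt_const hB1
  have key : ∃ n1 n2 : ℝ, |n1| ≤ 1 ∧ |n2| ≤ 1 ∧ |1 - n1 * A Q - n2 * B Q| ≤ 1 ∧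
      ∀ᶠ y in 𝓝 Q, mu (cw (m * y 1)) (cw (3 * m * y 2)) = s1 * s2 * (1 - n1 * A y - n2 * B y) := by
    have hmu : ∀ y, |A y| < 1 → |B y| < 1 → mu (cw (m * y 1)) (cw (3 * m * y 2)) =
        s1 * s2 * min (1 - |A y|) (1 - |B y|) := by
      intro y hy1 hy2
      rw [(ht1 _ hy1.le).2, (ht2 _ hy2.le).2, mu_sign_left hs1, mu_sign_right hs2]
      change s1 * (s2 * mu (1 - |A y|) (1 - |B y|)) = _
      rw [mu_pos (by linarith) (by linarith)]
      ring
    rcases lt_or_gt_of_ne hne with h | h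
    · have hB0 : B Q ≠ 0 := by
        intro h0; rw [h0, abs_zero] at h; linarith [abs_nonneg (A Q)]
      obtain ⟨n, hn, hev⟩ := nbhd_sign cB.continuousAt hB0
      have hQ := hev.self_of_nhds
      refine ⟨0, n, by simp, hn.abs.le, ?_, ?_⟩
      · rw [zero_mul, sub_zero, ← hQ, abs_of_nonneg (by linarith)]; linarith [abs_nonneg (B Q)]
      · have hlt : ∀ᶠ y in 𝓝 Q, |A y| < |B y| :=
          (cA.abs.continuousAt).eventually_lt (cB.abs.continuousAt) h
        filter_upwards [evA, evB, hev, hlt] with y y1 y2 y3 y4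
        rw [hmu y y1 y2, min_eq_right (by linarith), y3]
        ring
    · have hA0 : A Q ≠ 0 := by
        intro h0; rw [h0, abs_zero] at h; linarith [abs_nonneg (B Q)]
      obtain ⟨n, hn, hev⟩ := nbhd_sign cA.continuousAt hA0
      have hQ := hev.self_of_nhds
      refine ⟨n, 0, hn.abs.le, by simp, ?_, ?_⟩
      · rw [zero_mul, sub_zero, ← hQ, abs_of_nonneg (by linarith)]; linarith [abs_nonneg (A Q)]
      · have hlt : ∀ᶠ y in 𝓝 Q, |B y| < |A y| :=
          (cB.abs.continuousAt).eventually_lt (cA.abs.continuousAt) h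
        filter_upwards [evA, evB, hev, hlt] with y y1 y2 y3 y4
        rw [hmu y y1 y2, min_eq_left (by linarith), y3]
        ring
  obtain ⟨n1, n2, hn1, hn2, hW, hmu⟩ := key
  set e : ℝ := Real.exp (-m * Q 0) with he
  have he0 : 0 < e := Real.exp_pos _
  have gE : Gr (fun y => Real.exp (-m * y 0)) Q (e * (-m)) 0 0 := by
    have := (Gr.c0 (x := Q)).cmul (-m) |>.exp
    exact this.congr (by simp [he]) (by simp) (by simp)
  have gA : Gr A Q 0 m 0 := by
    have := ((Gr.c1 (x := Q)).cmul m).sub (Gr.const (2 * (j1 : ℝ)))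
    exact this.congr (by simp) (by simp) (by simp)
  have gB : Gr B Q 0 0 (3 * m) := by
    have := ((Gr.c2 (x := Q)).cmul (3 * m)).sub (Gr.const (2 * (j2 : ℝ)))
    exact this.congr (by simp) (by simp) (by simp)
  have g1 : Gr (fun y => Real.exp (-m * y 0) * (s1 * A y)) Q (-(m * e * s1 * A Q)) (m * e * s1) 0 := by
    have := gE.mul (gA.cmul s1)
    exact this.congr (by ring) (by rw [he]; ring) (by ring)
  have g2 : Gr (fun y => Real.exp (-m * y 0) * (s2 * B y)) Q (-(m * e * s2 * B Q)) 0 (3 * m * e * s2) := by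
    have := gE.mul (gB.cmul s2)
    exact this.congr (by ring) (by ring) (by rw [he]; ring)
  have g3 : Gr (fun y => Real.exp (-m * y 0) * -(s1 * s2 * (1 - n1 * A y - n2 * B y))) Q
      (m * e * (s1 * s2 * (1 - n1 * A Q - n2 * B Q))) (m * e * (s1 * s2 * n1)) (3 * m * e * (s1 * s2 * n2)) := by
    have := gE.mul ((((Gr.const (x := Q) 1).sub (gA.cmul n1)).sub (gB.cmul n2)).cmul (-(s1 * s2)))
    refine (this.congr (by ring) (by rw [he]; ring) (by rw [he]; ring)).of_eq ?_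
    filter_upwards with y
    ring
  have hD := hasFDerivAt_v3 g1 g2 g3
  have hs12 : |s1 * s2| = 1 := by rw [abs_mul, hs1.abs, hs2.abs]; norm_num
  refine ⟨_, HasFDerivAt.congr_of_eventuallyEq hD ?_, ?_, ?_⟩
  · filter_upwards [evA, evB, hmu] with y y1 y2 y3
    have t1 : tw (m * y 1) = s1 * A y := (ht1 _ y1.le).1
    have t2 : tw (3 * m * y 2) = s2 * B y := (ht2 _ y2.le).1
    unfold PC
    rw [hm3, ← hm, t1, t2, y3]
  · refine (linM_norm _ _ _).trans ?_
    have hme : 0 < m * e := mul_pos hm0 he0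
    have b1 : ‖v3 (-(m * e * s1 * A Q)) (-(m * e * s2 * B Q))
        (m * e * (s1 * s2 * (1 - n1 * A Q - n2 * B Q)))‖ ≤ 3 * (m * e) := by
      refine (norm_v3_le _ _ _).trans ?_
      rw [abs_neg, abs_neg, abs_mul, abs_mul (m * e) s1, abs_mul (m * e * s2), abs_mul (m * e) s2,
        abs_mul (m * e), abs_mul (s1 * s2), hs12, hs1.abs, hs2.abs, abs_of_pos hme]
      nlinarith
    have b2 : ‖v3 (m * e * s1) 0 (m * e * (s1 * s2 * n1))‖ ≤ 2 * (m * e) := by
      refine (norm_v3_le _ _ _).trans ?_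
      rw [abs_zero, abs_mul (m * e) s1, abs_mul (m * e), abs_mul (s1 * s2), hs12, hs1.abs,
        abs_of_pos hme]
      nlinarith
    have b3 : ‖v3 0 (3 * m * e * s2) (3 * m * e * (s1 * s2 * n2))‖ ≤ 6 * (m * e) := by
      refine (norm_v3_le _ _ _).trans ?_
      have h3me : 0 < 3 * m * e := by positivity
      rw [abs_zero, abs_mul (3 * m * e) s2, abs_mul (3 * m * e), abs_mul (s1 * s2), hs12, hs2.abs,
        abs_of_pos h3me]
      nlinarith
    nlinarith
  · rw [linM_det]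
    unfold T
    simp only [v3_0, v3_1, v3_2]
    have q1 := hs1.sq
    have q2 := hs2.sq
    have : ∀ W a b : ℝ, W = 1 - n1 * a - n2 * b →
        (-(m * e * s2 * b) * (m * e * (s1 * s2 * n1)) - m * e * (s1 * s2 * W) * 0) * 0 +
        (m * e * (s1 * s2 * W) * (m * e * s1) - -(m * e * s1 * a) * (m * e * (s1 * s2 * n1))) *
          (3 * m * e * s2) +
        (-(m * e * s1 * a) * 0 - -(m * e * s2 * b) * (m * e * s1)) * (3 * m * e * (s1 * s2 * n2)) =
        3 * (m * e) ^ 3 := by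
      intro W a b hWab
      have : (-(m * e * s2 * b) * (m * e * (s1 * s2 * n1)) - m * e * (s1 * s2 * W) * 0) * 0 +
        (m * e * (s1 * s2 * W) * (m * e * s1) - -(m * e * s1 * a) * (m * e * (s1 * s2 * n1))) *
          (3 * m * e * s2) +
        (-(m * e * s1 * a) * 0 - -(m * e * s2 * b) * (m * e * s1)) * (3 * m * e * (s1 * s2 * n2)) =
        3 * (m * e) ^ 3 * (s1 ^ 2 * s2 ^ 2 * (W + n1 * a + n2 * b)) := by ring
      rw [this, q1, q2, hWab]; ring
    exact this _ _ _ rfl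

end Pool.Agent.Helper746.Ep
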