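import Pool.Agent.Helper746.EpBad
import Pool.Agent.Helper746.EpPC

set_option autoImplicit false
open MeasureTheory Filter Topology

namespace Pool.Agent.Helper746.Ep

/-- the flip as a linear map -/
noncomputable def flL (s : ℝ) : E →L[ℝ] E := linM (v3 1 0 0) (v3 0 1 0) (v3 0 0 s)

lemma flL_apply (s : ℝ) (v : E) : flL s v = fl s v := by
  unfold flL fl
  rw [linM_apply]
  apply ext3 <;> simp
  ring

lemma flL_det (s : ℝ) : (flL s).det = s := by
  unfold flL; rw [linM_det]; unfold T; simp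

lemma norm_sq_coord (v : E) : ‖v‖ ^ 2 = v 0 ^ 2 + v 1 ^ 2 + v 2 ^ 2 := by
  rw [EuclideanSpace.real_norm_sq_eq]; simp [Fin.sum_univ_three]

lemma norm_fl {s : ℝ} (hs : IsS s) (v : E) : ‖fl s v‖ = ‖v‖ := by
  have h : ‖fl s v‖ ^ 2 = ‖v‖ ^ 2 := by
    rw [norm_sq_coord, norm_sq_coord]
    unfold fl
    simp only [v3_0, v3_1, v3_2]
    rw [mul_pow, hs.sq, one_mul]
  exact (sq_eq_sq₀ (norm_nonneg _) (norm_nonneg _)).1 h

lemma flL_norm {s : ℝ} (hs : IsS s) : ‖flL s‖ ≤ 1 := by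
  apply ContinuousLinearMap.opNorm_le_bound _ zero_le_one
  intro v
  rw [flL_apply, norm_fl hs, one_mul]

lemma norm_rot (v : E) : ‖rot v‖ = ‖v‖ := by
  have h : ‖rot v‖ ^ 2 = ‖v‖ ^ 2 := by
    rw [rot_apply, norm_sq_coord, norm_sq_coord]
    simp only [v3_0, v3_1, v3_2]
    ring
  exact (sq_eq_sq₀ (norm_nonneg _) (norm_nonneg _)).1 h

lemma norm_rot_pow (k : ℕ) (v : E) : ‖(rot ^ k) v‖ = ‖v‖ := by
  induction k generalizing v with
  | zero => rfl
  | succ n ih =>
    rw [pow_succ]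
    change ‖(rot ^ n) (rot v)‖ = ‖v‖
    rw [ih, norm_rot]

lemma rot_pow_norm (k : ℕ) : ‖rot ^ k‖ ≤ 1 := by
  apply ContinuousLinearMap.opNorm_le_bound _ zero_le_one
  intro v
  rw [norm_rot_pow, one_mul]

lemma rot_pow_det (k : ℕ) : (rot ^ k : E →L[ℝ] E).det = 1 := by
  induction k with
  | zero =>
    change LinearMap.det (LinearMap.id : E →ₗ[ℝ] E) = 1
    exact LinearMap.det_id
  | succ n ih =>
    rw [pow_succ]
    have : (rot ^ n * rot : E →L[ℝ] E) = (rot ^ n).comp rot := rfl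
    rw [this, det_comp', ih, one_mul]
    unfold rot; rw [linM_det]; unfold T; simp

lemma IsS_sb (x : E) : IsS (sb x) := sb_or x

/-- the sign functions are locally constant at generic points -/
lemma sb_loc {x : E} (h : x 1 ≠ 0) : ∀ᶠ y in 𝓝 x, sb y = sb x := by
  have hc : ContinuousAt (fun p : E => p 1) x := by fun_prop
  rcases lt_or_gt_of_ne h with h0 | h0
  · filter_upwards [hc.eventually_lt continuousAt_const h0] with y hy
    unfold sb; rw [if_neg (not_le.2 hy), if_neg (not_le.2 h0)]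
  · filter_upwards [continuousAt_const.eventually_lt hc h0] with y hy
    unfold sb; rw [if_pos hy.le, if_pos h0.le]

lemma ep_loc {g : E → ℝ} {x : E} (hg : ContinuousAt g x) (h : cw (g x) ≠ 0) :
    ∀ᶠ y in 𝓝 x, ep (g y) = ep (g x) := by
  have h1 : LLat (fun r : ℝ => cw r) (g x) := by
    apply LLat.of_lip (K := 1)
    apply LipschitzWith.of_dist_le_mul
    intro a b
    rw [Real.dist_eq, Real.dist_eq, NNReal.coe_one, one_mul]
    exact cw_lip a b
  have hc : ContinuousAt (fun y => cw (g y)) x := ContinuousAt.comp (f := g) h1.continuousAt hg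
  rcases lt_or_gt_of_ne h with h0 | h0
  · filter_upwards [hc.eventually_lt continuousAt_const h0] with y hy
    unfold ep; rw [if_neg (not_le.2 hy), if_neg (not_le.2 h0)]
  · filter_upwards [continuousAt_const.eventually_lt hc h0] with y hy
    unfold ep; rw [if_pos hy.le, if_pos h0.le]

/-- lower bounds in band `k` -/
lemma band_bounds {x : E} {k : ℕ} (ht : 100 < tt x) (hk : k * Real.log 3 ≤ x 2 * lt x) :
    tt x ≤ PA k x 0 ∧ tt x ≤ PA k x 2 := by
  have ht0 : 0 < tt x := by linarith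
  have e3 : (3 : ℝ) ^ k ≤ Real.exp (x 2 * lt x) := by
    calc (3 : ℝ) ^ k = Real.exp (k * Real.log 3) := by
          rw [Real.exp_nat_mul, Real.exp_log (by norm_num)]
      _ ≤ _ := Real.exp_le_exp.2 hk
  constructor
  · unfold PA
    rw [v3_0, show (1 + x 2) * lt x = lt x + x 2 * lt x by ring, Real.exp_add, exp_lt ht0,
      le_div_iff₀ (by positivity)]
    exact mul_le_mul_of_nonneg_left e3 ht0.le
  · unfold PA
    rw [v3_2, show (1 + 2 * x 2) * lt x = lt x + (x 2 * lt x + x 2 * lt x) by ring, Real.exp_add,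
      Real.exp_add, exp_lt ht0, le_div_iff₀ (by positivity)]
    apply mul_le_mul_of_nonneg_left _ ht0.le
    have h9 : (9 : ℝ) ^ k = 3 ^ k * 3 ^ k := by rw [← mul_pow]; norm_num
    rw [h9]
    exact mul_le_mul e3 e3 (by positivity) (Real.exp_pos _).le

lemma rr_eq_exp {x : E} (h : 0 < rr x) : rr x = Real.exp (-tt x) := by
  unfold tt; rw [neg_neg, Real.exp_log h]

/-- `X exp(-X t) ≤ exp(-t)` for `X, t ≥ 1` -/
lemma exp_est {X t : ℝ} (hX : 1 ≤ X) (ht : 1 ≤ t) : X * Real.exp (-X * t) ≤ Real.exp (-t) := by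
  have h1 : X ≤ Real.exp ((X - 1) * t) := by
    have := Real.add_one_le_exp ((X - 1) * t)
    nlinarith
  calc X * Real.exp (-X * t) ≤ Real.exp ((X - 1) * t) * Real.exp (-X * t) :=
        mul_le_mul_of_nonneg_right h1 (Real.exp_pos _).le
    _ = Real.exp (-t) := by rw [← Real.exp_add]; ring_nf

theorem F_good : ∀ᵐ x ∂(volume : Measure E), x ∈ Om →
    ∃ A : E →L[ℝ] E, HasFDerivAt F A x ∧ 0 < A.det ∧ ‖A‖ ≤ 4 * 10 ^ 6 ∧
      ‖A‖ ^ 3 ≤ (2 * (4 * 10 ^ 6) ^ 3 / (rr x * tt x * lt x)) * A.det := by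
  filter_upwards [ae_all_good] with x hx hOm
  obtain ⟨hG, hall⟩ := hx
  have h0 : x 0 ≠ 0 := by
    intro h; apply hG.ne 1 0 0 0 (by norm_num); push_cast; linarith
  have h1 : x 1 ≠ 0 := by
    intro h; apply hG.ne 0 1 0 0 (by norm_num); push_cast; linarith
  have hr : rr x ≠ 0 := (rr_pos x h0).ne'
  obtain ⟨b0, b1, b2, b3⟩ := Om_basic hOm hr
  have hD : DomA x := ⟨h0, h1, hOm.1⟩
  have ht : tt x ≠ 0 := by linarith
  -- the band
  obtain ⟨k, hk⟩ : ∃ k, k = kk x := ⟨_, rfl⟩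
  have hfl : (k : ℝ) ≤ zt x := by rw [hk]; exact Nat.floor_le b3.le
  have hfl2 : zt x < k + 1 := by rw [hk]; exact Nat.lt_floor_add_one _
  have hzt : zt x * Real.log 3 = x 2 * lt x := by
    unfold zt; field_simp [log3_pos.ne']
  have hk0 : k * Real.log 3 ≤ x 2 * lt x := by
    rw [← hzt]; exact mul_le_mul_of_nonneg_right hfl log3_pos.le
  have hk1 : x 2 * lt x ≤ (k + 1) * Real.log 3 := by
    rw [← hzt]; exact mul_le_mul_of_nonneg_right hfl2.le log3_pos.le
  obtain ⟨bb0, bb2⟩ := band_bounds b1 hk0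
  -- the band is not critical
  have hne : (k : ℝ) ≠ zt x := by
    intro he
    obtain ⟨g1, -, -⟩ := hall hD 0
    have e : x 2 * lt x = k * Real.log 3 := by rw [← hzt, he]
    have e2 := exp_band (x := x) (by linarith) k e
    apply g1.ne (3 ^ k) 0 (-1) 0 (by norm_num)
    unfold PA
    simp only [v3_0, v3_1, v3_2]
    rw [e2.1, e2.2]
    push_cast
    have h9 : (9 : ℝ) ^ k = 3 ^ k * 3 ^ k := by rw [← mul_pow]; norm_num
    rw [h9]; ring
  have hlt : (k : ℝ) < zt x := lt_of_le_of_ne hfl hne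
  obtain ⟨g1, g2, g3⟩ := hall hD k
  obtain ⟨c1, c2, c3⟩ := g1.cw2
  -- the three stages
  obtain ⟨AA, hAA, nA, dA⟩ := PA_good k x h0 h1 hOm.1 hOm.2.1 hOm.2.2 hk0 hk1
  have hp : |PA k x 1| ≤ 1 := abs_p_le x
  have hDB : DB (PA k x) := ⟨by linarith, by linarith, hp, c1, c3, g2⟩
  obtain ⟨AB, hAB, nB, dB⟩ := PB_good (PA k x) (by linarith) (by linarith) hp c1 c3 g2
  obtain ⟨q1, q2, q3⟩ := (g3 hDB).cells k
  obtain ⟨AC, hAC, nC, dC⟩ := PC_good k (PB (PA k x)) q1 q2 q3
  obtain ⟨S, hS⟩ : ∃ S, S = sb x * ep (PA k x 2) := ⟨_, rfl⟩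
  have hSS : IsS S := by rw [hS]; exact (IsS_sb x).mul (ep_isS _)
  -- local formula
  have hloc : F =ᶠ[𝓝 x] fun y => (rot ^ k) (flL S (PC k (PB (PA k y)))) := by
    have hc := zt_cont hr ht
    have e1 : ∀ᶠ y in 𝓝 x, kk y = k := by
      filter_upwards [continuousAt_const.eventually_lt hc hlt,
        hc.eventually_lt (continuousAt_const (y := (k : ℝ) + 1)) hfl2] with y hy1 hy2
      show ⌊zt y⌋₊ = k
      rw [Nat.floor_eq_iff (le_trans (Nat.cast_nonneg _) hy1.le)]
      exact ⟨hy1.le, hy2⟩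
    filter_upwards [e1, (LLat.rr x).continuousAt.eventually_ne hr, sb_loc h1,
      ep_loc (ll_PAi k hr ht 2).continuousAt c1] with y y1 y2 y3 y4
    unfold F
    rw [if_neg y2, y1, flL_apply]
    unfold gk
    rw [y3, y4, ← hS]
  have hd : HasFDerivAt (fun y => (rot ^ k) (flL S (PC k (PB (PA k y)))))
      ((rot ^ k).comp ((flL S).comp (AC.comp (AB.comp AA)))) x := by
    have s1 := hAB.comp x hAA
    have s2 := HasFDerivAt.comp (f := fun y => PB (PA k y)) x hAC s1
    have s3 := HasFDerivAt.comp (f := fun y => PC k (PB (PA k y))) x (flL S).hasFDerivAt s2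
    have s4 := HasFDerivAt.comp (f := fun y => flL S (PC k (PB (PA k y)))) x
      (rot ^ k).hasFDerivAt s3
    exact s4
  have hF := hd.congr_of_eventuallyEq hloc
  -- notation
  obtain ⟨Y, hY⟩ : ∃ Y, Y = (3 : ℝ) ^ k * Real.exp (-3 ^ k * PB (PA k x) 0) := ⟨_, rfl⟩
  have hY0 : 0 < Y := by rw [hY]; positivity
  have hQ0 : PB (PA k x) 0 = PA k x 0 := rfl
  have hYr : Y ≤ rr x := by
    have h3k : (1 : ℝ) ≤ 3 ^ k := one_le_pow₀ (by norm_num)
    calc Y ≤ 3 ^ k * Real.exp (-3 ^ k * tt x) := by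
          rw [hY, hQ0]
          apply mul_le_mul_of_nonneg_left _ (by positivity)
          apply Real.exp_le_exp.2
          have : (3 : ℝ) ^ k * tt x ≤ 3 ^ k * PA k x 0 := mul_le_mul_of_nonneg_left bb0 (by positivity)
          linarith
      _ ≤ Real.exp (-tt x) := exp_est h3k (by linarith)
      _ = rr x := (rr_eq_exp b0).symm
  have nC' : ‖AC‖ ≤ 20 * Y := by rw [hY]; linarith
  have dC' : AC.det = 3 * Y ^ 3 := by rw [hY]; exact dC
  have hnorm : ‖(rot ^ k).comp ((flL S).comp (AC.comp (AB.comp AA)))‖ ≤ 4 * 10 ^ 6 * Y / rr x := by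
    calc _ ≤ ‖rot ^ k‖ * (‖flL S‖ * (‖AC‖ * (‖AB‖ * ‖AA‖))) := by
          refine (ContinuousLinearMap.opNorm_comp_le _ _).trans ?_
          gcongr
          refine (ContinuousLinearMap.opNorm_comp_le _ _).trans ?_
          gcongr
          refine (ContinuousLinearMap.opNorm_comp_le _ _).trans ?_
          gcongr
          exact ContinuousLinearMap.opNorm_comp_le _ _
      _ ≤ 1 * (1 * ((20 * Y) * (200 * (1000 / rr x)))) := by
          have := rot_pow_norm k
          have := flL_norm hSS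
          gcongr
      _ = _ := by ring
  have hdet : ContinuousLinearMap.det ((rot ^ k).comp ((flL S).comp (AC.comp (AB.comp AA)))) =
      3 * Y ^ 3 * ((ep (PA k x 2) * AB.det) * (sb x * AA.det)) := by
    rw [det_comp', det_comp', det_comp', det_comp', rot_pow_det, flL_det, dC', hS]
    ring
  have htl : 0 < tt x * lt x := mul_pos (by linarith) (by linarith)
  have hpos : 0 < tt x * lt x / rr x ^ 2 := div_pos htl (pow_pos b0 2)
  have hdet2 : 3 / 4 * Y ^ 3 * (tt x * lt x / rr x ^ 2) ≤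
      ContinuousLinearMap.det ((rot ^ k).comp ((flL S).comp (AC.comp (AB.comp AA)))) := by
    rw [hdet]
    have hm : 1 / 4 * (tt x * lt x / rr x ^ 2) ≤ (ep (PA k x 2) * AB.det) * (sb x * AA.det) :=
      mul_le_mul dB dA hpos.le (by linarith)
    have : 3 * Y ^ 3 * (1 / 4 * (tt x * lt x / rr x ^ 2)) ≤
        3 * Y ^ 3 * ((ep (PA k x 2) * AB.det) * (sb x * AA.det)) :=
      mul_le_mul_of_nonneg_left hm (by positivity)
    linarith
  refine ⟨_, hF, ?_, ?_, ?_⟩
  · exact lt_of_lt_of_le (by positivity) hdet2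
  · refine hnorm.trans ?_
    rw [div_le_iff₀ b0]
    have : (4 * 10 ^ 6 : ℝ) * Y ≤ 4 * 10 ^ 6 * rr x := mul_le_mul_of_nonneg_left hYr (by norm_num)
    exact this
  · have hc3 : ‖(rot ^ k).comp ((flL S).comp (AC.comp (AB.comp AA)))‖ ^ 3 ≤
        (4 * 10 ^ 6 * Y / rr x) ^ 3 := pow_le_pow_left₀ (norm_nonneg _) hnorm 3
    refine hc3.trans ?_
    have hK : 0 ≤ 2 * (4 * 10 ^ 6) ^ 3 / (rr x * tt x * lt x) := by
      have : 0 < rr x * tt x * lt x := by rw [mul_assoc]; exact mul_pos b0 htl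
      positivity
    refine le_trans ?_ (mul_le_mul_of_nonneg_left hdet2 hK)
    have hl : 0 < lt x := by linarith
    have ht' : 0 < tt x := by linarith
    have e : 2 * (4 * 10 ^ 6) ^ 3 / (rr x * tt x * lt x) * (3 / 4 * Y ^ 3 * (tt x * lt x / rr x ^ 2)) =
        3 / 2 * (4 * 10 ^ 6 * Y / rr x) ^ 3 := by
      field_simp
      ring
    rw [e]
    have : 0 ≤ (4 * 10 ^ 6 * Y / rr x) ^ 3 := by positivity
    linarith

end Pool.Agent.Helper746.Ep
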