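import Pool.Agent.Helper746.EpTri

set_option autoImplicit false
open MeasureTheory Filter Topology

namespace Pool.Agent.Helper746.Ep

namespace LLat

variable {X Y Z : Type*} [PseudoEMetricSpace X] [PseudoEMetricSpace Y] [PseudoEMetricSpace Z]

lemma continuousAt {f : X → Y} {x : X} (h : LLat f x) : ContinuousAt f x := by
  obtain ⟨K, t, ht, hK⟩ := h
  exact hK.continuousOn.continuousAt ht

lemma comp {g : Y → Z} {f : X → Y} {x : X} (hg : LLat g (f x)) (hf : LLat f x) :
    LLat (fun y => g (f y)) x := by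
  have hc := hf.continuousAt
  obtain ⟨K, t, ht, hK⟩ := hg
  obtain ⟨K', t', ht', hK'⟩ := hf
  refine ⟨K * K', t' ∩ f ⁻¹' t, inter_mem ht' (hc ht), ?_⟩
  exact hK.comp (hK'.mono Set.inter_subset_left) (fun y hy => hy.2)

lemma of_lip {f : X → Y} {K : NNReal} (h : LipschitzWith K f) (x : X) : LLat f x :=
  ⟨K, Set.univ, univ_mem, h.lipschitzOnWith⟩

lemma const (c : Y) (x : X) : LLat (fun _ : X => c) x :=
  of_lip (K := 0) (LipschitzWith.const c) x

lemma prodMk {f : X → Y} {g : X → Z} {x : X} (hf : LLat f x) (hg : LLat g x) :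
    LLat (fun y => (f y, g y)) x := by
  obtain ⟨K, t, ht, hK⟩ := hf
  obtain ⟨K', t', ht', hK'⟩ := hg
  exact ⟨max K K', t ∩ t', inter_mem ht ht',
    (hK.mono Set.inter_subset_left).prodMk (hK'.mono Set.inter_subset_right)⟩

lemma of_eq {f g : X → Y} {x : X} (hf : LLat f x) (h : g =ᶠ[𝓝 x] f) : LLat g x := by
  obtain ⟨K, t, ht, hK⟩ := hf
  refine ⟨K, t ∩ {y | g y = f y}, inter_mem ht h, ?_⟩
  intro y hy z hz
  rw [hy.2, hz.2]
  exact hK hy.1 hz.1

end LLat

section
variable {H H' : Type*} [NormedAddCommGroup H] [NormedSpace ℝ H] [NormedAddCommGroup H']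
  [NormedSpace ℝ H']

lemma LLat.of_contDiffAt {f : H → H'} {x : H} (h : ContDiffAt ℝ 1 f x) : LLat f x := by
  obtain ⟨K, t, ht, hK⟩ := h.exists_lipschitzOnWith
  exact ⟨K, t, ht, hK⟩

end

namespace LLat
variable {X : Type*} [PseudoEMetricSpace X] {f g : X → ℝ} {x : X}

lemma add (hf : LLat f x) (hg : LLat g x) : LLat (fun y => f y + g y) x := by
  have h : LLat (fun p : ℝ × ℝ => p.1 + p.2) (f x, g x) :=
    LLat.of_contDiffAt (by fun_prop)
  exact LLat.comp (f := fun y => (f y, g y)) h (hf.prodMk hg)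

lemma sub (hf : LLat f x) (hg : LLat g x) : LLat (fun y => f y - g y) x := by
  have h : LLat (fun p : ℝ × ℝ => p.1 - p.2) (f x, g x) :=
    LLat.of_contDiffAt (by fun_prop)
  exact LLat.comp (f := fun y => (f y, g y)) h (hf.prodMk hg)

lemma mul (hf : LLat f x) (hg : LLat g x) : LLat (fun y => f y * g y) x := by
  have h : LLat (fun p : ℝ × ℝ => p.1 * p.2) (f x, g x) :=
    LLat.of_contDiffAt (by fun_prop)
  exact LLat.comp (f := fun y => (f y, g y)) h (hf.prodMk hg)

lemma div (hf : LLat f x) (hg : LLat g x) (h0 : g x ≠ 0) : LLat (fun y => f y / g y) x := by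
  have h : LLat (fun p : ℝ × ℝ => p.1 / p.2) (f x, g x) :=
    LLat.of_contDiffAt (contDiffAt_fst.div contDiffAt_snd h0)
  exact LLat.comp (f := fun y => (f y, g y)) h (hf.prodMk hg)

lemma cmul (c : ℝ) (hf : LLat f x) : LLat (fun y => c * f y) x := (LLat.const c x).mul hf
lemma neg (hf : LLat f x) : LLat (fun y => - f y) x := by
  have := hf.cmul (-1)
  simpa using this

lemma abs (hf : LLat f x) : LLat (fun y => |f y|) x := by
  have h : LLat (fun p : ℝ => |p|) (f x) := by
    apply LLat.of_lip (K := 1)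
    apply LipschitzWith.of_dist_le_mul
    intro a b
    rw [Real.dist_eq, Real.dist_eq, NNReal.coe_one, one_mul]
    exact abs_abs_sub_abs_le a b
  exact h.comp hf

lemma tw (hf : LLat f x) : LLat (fun y => Ep.tw (f y)) x := by
  have h : LLat (fun p : ℝ => Ep.tw p) (f x) := by
    apply LLat.of_lip (K := 1)
    apply LipschitzWith.of_dist_le_mul
    intro a b
    rw [Real.dist_eq, Real.dist_eq, NNReal.coe_one, one_mul]
    exact tw_lip a b
  exact h.comp hf

lemma cw (hf : LLat f x) : LLat (fun y => Ep.cw (f y)) x := by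
  have h : LLat (fun p : ℝ => Ep.cw p) (f x) := by
    apply LLat.of_lip (K := 1)
    apply LipschitzWith.of_dist_le_mul
    intro a b
    rw [Real.dist_eq, Real.dist_eq, NNReal.coe_one, one_mul]
    exact cw_lip a b
  exact h.comp hf

lemma exp (hf : LLat f x) : LLat (fun y => Real.exp (f y)) x := by
  have h : LLat (fun p : ℝ => Real.exp p) (f x) := LLat.of_contDiffAt (by fun_prop)
  exact h.comp hf

lemma log (hf : LLat f x) (h0 : f x ≠ 0) : LLat (fun y => Real.log (f y)) x := by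
  have h : LLat (fun p : ℝ => Real.log p) (f x) :=
    LLat.of_contDiffAt ((contDiffAt_id).log h0)
  exact h.comp hf

lemma mu (hf : LLat f x) (hg : LLat g x) : LLat (fun y => Ep.mu (f y) (g y)) x := by
  unfold Ep.mu
  exact ((hf.add hg).abs.sub (hf.sub hg).abs).div (LLat.const 2 x) (by norm_num)

end LLat

lemma LLat.coord (i : Fin 3) (x : E) : LLat (fun y : E => y i) x :=
  LLat.of_contDiffAt (by fun_prop)

lemma LLat.v3 {f g h : E → ℝ} {x : E} (hf : LLat f x) (hg : LLat g x) (hh : LLat h x) :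
    LLat (fun y => v3 (f y) (g y) (h y)) x := by
  have h1 : LLat (fun p : (ℝ × ℝ) × ℝ => Ep.v3 p.1.1 p.1.2 p.2) ((f x, g x), h x) := by
    apply LLat.of_contDiffAt
    unfold Ep.v3
    rw [contDiffAt_euclidean]
    intro i
    fin_cases i <;> simp <;> fun_prop
  exact LLat.comp (f := fun y => ((f y, g y), h y)) h1 ((hf.prodMk hg).prodMk hh)

lemma LLat.rr (x : E) : LLat Ep.rr x := by
  unfold Ep.rr
  exact (LLat.coord 0 x).abs.add (LLat.coord 1 x).abs

lemma LLat.tt {x : E} (h : Ep.rr x ≠ 0) : LLat Ep.tt x := by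
  unfold Ep.tt
  exact ((LLat.rr x).log h).neg

lemma LLat.lt {x : E} (h : Ep.rr x ≠ 0) (h' : Ep.tt x ≠ 0) : LLat Ep.lt x := by
  unfold Ep.lt
  exact (LLat.tt h).log h'

lemma LLat.PA {x : E} (k : ℕ) (h : Ep.rr x ≠ 0) (h' : Ep.tt x ≠ 0) : LLat (Ep.PA k) x := by
  unfold Ep.PA
  have h1 := LLat.lt h h'
  have hz := LLat.coord 2 x
  have hc : ∀ c : ℝ, LLat (fun _ : E => c) x := fun c => LLat.const c x
  apply LLat.v3
  · exact (((hc 1).add hz).mul h1).exp.div (hc _) (by positivity)
  · exact (LLat.coord 0 x).div (LLat.rr x) h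
  · exact (((hc 1).add ((hc 2).mul hz)).mul h1).exp.div (hc _) (by positivity)

end Pool.Agent.Helper746.Ep
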