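import Pool.Agent.Helper746.EpGlue

set_option autoImplicit false
open MeasureTheory Filter Topology

namespace Pool.Agent.Helper746.Ep

/-- gluing two local formulas along a set that every connecting segment has to cross -/
lemma LLat.glue {ι H : Type*} [PseudoMetricSpace H] (S : E → ι) (φ : ι → E → H) (x : E) (i j : ι)
    (hi : LLat (φ i) x) (hj : LLat (φ j) x) {δ : ℝ} (hδ : 0 < δ)
    (hS : ∀ y ∈ Metric.ball x δ, S y = i ∨ S y = j)
    (hc : ∀ y ∈ Metric.ball x δ, ∀ z ∈ Metric.ball x δ, S y = i → S z = j →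
      ∃ p ∈ segment ℝ y z, φ i p = φ j p) : LLat (fun y => φ (S y) y) x := by
  obtain ⟨K, t, ht, hK⟩ := hi
  obtain ⟨K', t', ht', hK'⟩ := hj
  obtain ⟨ε, hε, hb⟩ := Metric.mem_nhds_iff.1 (inter_mem ht ht')
  have hKi : ∀ y ∈ Metric.ball x ε, ∀ z ∈ Metric.ball x ε, dist (φ i y) (φ i z) ≤ max K K' * dist y z := by
    intro y hy z hz
    refine (hK.dist_le_mul y (hb hy).1 z (hb hz).1).trans ?_
    exact mul_le_mul_of_nonneg_right (by exact_mod_cast le_max_left _ _) dist_nonneg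
  have hKj : ∀ y ∈ Metric.ball x ε, ∀ z ∈ Metric.ball x ε, dist (φ j y) (φ j z) ≤ max K K' * dist y z := by
    intro y hy z hz
    refine (hK'.dist_le_mul y (hb hy).2 z (hb hz).2).trans ?_
    exact mul_le_mul_of_nonneg_right (by exact_mod_cast le_max_right _ _) dist_nonneg
  have key : ∀ y ∈ Metric.ball x (min δ ε), ∀ z ∈ Metric.ball x (min δ ε), S y = i → S z = j →
      dist (φ (S y) y) (φ (S z) z) ≤ max K K' * dist y z := by
    intro y hy z hz h1 h2
    have hy1 := Metric.ball_subset_ball (min_le_left δ ε) hy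
    have hz1 := Metric.ball_subset_ball (min_le_left δ ε) hz
    have hy2 := Metric.ball_subset_ball (min_le_right δ ε) hy
    have hz2 := Metric.ball_subset_ball (min_le_right δ ε) hz
    obtain ⟨p, hp, he⟩ := hc y hy1 z hz1 h1 h2
    have hpb : p ∈ Metric.ball x ε := (convex_ball x ε).segment_subset hy2 hz2 hp
    rw [h1, h2]
    calc dist (φ i y) (φ j z) ≤ dist (φ i y) (φ i p) + dist (φ i p) (φ j z) := dist_triangle _ _ _
      _ = dist (φ i y) (φ i p) + dist (φ j p) (φ j z) := by rw [he]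
      _ ≤ max K K' * dist y p + max K K' * dist p z := add_le_add (hKi y hy2 p hpb) (hKj p hpb z hz2)
      _ = max K K' * (dist y p + dist p z) := by ring
      _ = max K K' * dist y z := by rw [dist_add_dist_of_mem_segment hp]
  refine ⟨max K K', Metric.ball x (min δ ε), Metric.ball_mem_nhds _ (lt_min hδ hε), ?_⟩
  apply LipschitzOnWith.of_dist_le_mul
  intro y hy z hz
  have hy1 := Metric.ball_subset_ball (min_le_left δ ε) hy
  have hz1 := Metric.ball_subset_ball (min_le_left δ ε) hz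
  have hy2 := Metric.ball_subset_ball (min_le_right δ ε) hy
  have hz2 := Metric.ball_subset_ball (min_le_right δ ε) hz
  rcases hS y hy1 with h1 | h1 <;> rcases hS z hz1 with h2 | h2
  · rw [h1, h2]; exact_mod_cast hKi y hy2 z hz2
  · exact_mod_cast key y hy z hz h1 h2
  · have := key z hz y hy h2 h1
    rw [dist_comm, dist_comm z y] at this
    exact_mod_cast this
  · rw [h1, h2]; exact_mod_cast hKj y hy2 z hz2

lemma seg_zero {g : E → ℝ} {y z : E} (hg : ContinuousOn g (segment ℝ y z))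
    (h : 0 ≤ g y) (h' : g z ≤ 0) : ∃ p ∈ segment ℝ y z, g p = 0 := by
  have hc : IsPreconnected (segment ℝ y z) := (convex_segment y z).isPreconnected
  have := hc.intermediate_value (right_mem_segment ℝ y z) (left_mem_segment ℝ y z) hg
  obtain ⟨p, hp, hp'⟩ := this ⟨h', h⟩
  exact ⟨p, hp, hp'⟩

lemma LL_rotX {a p y : E → ℝ} {x : E} (ha : LLat a x) (hp : LLat p x) (hy : LLat y x)
    (hp1 : ∀ z, |p z| ≤ 1) (hy1 : ∀ z, |y z| ≤ 1) :
    LLat (fun z => mm (a z) (p z) (y z) * rX (a z) (p z) (y z)) x ∧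
    LLat (fun z => mm (a z) (p z) (y z) * rY (a z) (p z) (y z)) x := by
  obtain ⟨C, hC, h⟩ := rot_lip
  obtain ⟨K1, t1, ht1, h1⟩ := ha
  obtain ⟨K2, t2, ht2, h2⟩ := hp
  obtain ⟨K3, t3, ht3, h3⟩ := hy
  have hb : ∀ u ∈ t1 ∩ (t2 ∩ t3), ∀ v ∈ t1 ∩ (t2 ∩ t3),
      C * (|a u - a v| + |p u - p v| + |y u - y v|) ≤ (C.toNNReal * (K1 + K2 + K3) : NNReal) * dist u v := by
    intro u hu v hv
    have e1 := h1.dist_le_mul u hu.1 v hv.1
    have e2 := h2.dist_le_mul u hu.2.1 v hv.2.1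
    have e3 := h3.dist_le_mul u hu.2.2 v hv.2.2
    rw [Real.dist_eq] at e1 e2 e3
    push_cast
    rw [Real.coe_toNNReal C hC, mul_assoc]
    apply mul_le_mul_of_nonneg_left _ hC
    linarith
  refine ⟨⟨C.toNNReal * (K1 + K2 + K3), _, inter_mem ht1 (inter_mem ht2 ht3),
      LipschitzOnWith.of_dist_le_mul fun u hu v hv => ?_⟩,
    ⟨C.toNNReal * (K1 + K2 + K3), _, inter_mem ht1 (inter_mem ht2 ht3),
      LipschitzOnWith.of_dist_le_mul fun u hu v hv => ?_⟩⟩
  · rw [Real.dist_eq]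
    exact (h _ _ _ _ _ _ (hp1 u) (hy1 u) (hp1 v) (hy1 v)).1.trans (hb u hu v hv)
  · rw [Real.dist_eq]
    exact (h _ _ _ _ _ _ (hp1 u) (hy1 u) (hp1 v) (hy1 v)).2.trans (hb u hu v hv)

section
variable {x : E} (k : ℕ)

lemma PA0_pos (x : E) : 0 < PA k x 0 := by unfold PA; simp only [v3_0]; positivity
lemma PA2_pos (x : E) : 0 < PA k x 2 := by unfold PA; simp only [v3_2]; positivity

lemma ll_PAi (hr : Ep.rr x ≠ 0) (ht : Ep.tt x ≠ 0) (i : Fin 3) : LLat (fun y => PA k y i) x :=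
  LLat.comp (f := PA k) (LLat.coord i _) (LLat.PA k hr ht)

lemma ll_alPA (hr : Ep.rr x ≠ 0) (ht : Ep.tt x ≠ 0) : LLat (fun y => al (PA k y)) x := by
  unfold al
  exact (((ll_PAi k hr ht 2).log (PA2_pos k x).ne').sub
    ((ll_PAi k hr ht 0).log (PA0_pos k x).ne')).cmul _

lemma ll_q (hr : Ep.rr x ≠ 0) (ht : Ep.tt x ≠ 0) :
    LLat (fun y => PB (PA k y) 1) x ∧ LLat (fun y => PB (PA k y) 2) x := by
  have h := LL_rotX (ll_alPA k hr ht) (ll_PAi k hr ht 1) ((ll_PAi k hr ht 2).tw)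
    (fun z => abs_p_le z) (fun z => tw_bd _)
  exact h

lemma ll_c012 (hr : Ep.rr x ≠ 0) (ht : Ep.tt x ≠ 0) :
    LLat (fun y => PC k (PB (PA k y)) 0) x ∧ LLat (fun y => PC k (PB (PA k y)) 1) x ∧
      LLat (h3 k) x := by
  obtain ⟨h1, h2⟩ := ll_q k hr ht
  have h0 : LLat (fun y => PB (PA k y) 0) x := ll_PAi k hr ht 0
  have he : LLat (fun y => Real.exp (-3 ^ k * PB (PA k y) 0)) x := (h0.cmul _).exp
  exact ⟨he.mul (h1.cmul _).tw, he.mul (h2.cmul _).tw,
    he.mul (((h1.cmul _).cw).mu ((h2.cmul _).cw)).neg⟩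

end

lemma good_nhds {x : E} (hr : rr x ≠ 0) (ht : tt x ≠ 0) :
    ∃ δ > 0, ∀ y ∈ Metric.ball x δ, rr y ≠ 0 ∧ tt y ≠ 0 := by
  have h1 := (LLat.rr x).continuousAt.eventually_ne hr
  have h2 := (LLat.tt hr).continuousAt.eventually_ne ht
  obtain ⟨δ, hδ, h⟩ := Metric.eventually_nhds_iff_ball.1 (h1.and h2)
  exact ⟨δ, hδ, h⟩

lemma sgn_cases (S : ℝ) (h : S = 1 ∨ S = -1) : S = 1 ∨ S = -1 := h

lemma sb_or (x : E) : sb x = 1 ∨ sb x = -1 := by unfold sb; split_ifs <;> simp
lemma ep_or (y : ℝ) : ep y = 1 ∨ ep y = -1 := by unfold ep; split_ifs <;> simp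

/-- the band map is locally Lipschitz off the axis -/
lemma ll_gk {x : E} (k : ℕ) (hr : Ep.rr x ≠ 0) (ht : Ep.tt x ≠ 0) : LLat (Ep.gk k) x := by
  obtain ⟨h0, h1, h2⟩ := ll_c012 k hr ht
  have h3' : LLat (fun y => (sb y * ep (Ep.PA k y 2)) * h3 k y) x := by
    obtain ⟨δ, hδ, hb⟩ := good_nhds hr ht
    have hall : ∀ y, sb y * ep (Ep.PA k y 2) = 1 ∨ sb y * ep (Ep.PA k y 2) = -1 := by
      intro y
      rcases sb_or y with h | h <;> rcases ep_or (Ep.PA k y 2) with h' | h' <;> rw [h, h'] <;> simp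
    have := LLat.glue (fun y => sb y * ep (Ep.PA k y 2)) (fun s y => s * h3 k y) x 1 (-1)
      (h2.cmul 1) (h2.cmul (-1)) hδ (fun y _ => hall y) ?_
    · exact this
    · intro y hy z hz hy1 hz1
      have hsub : segment ℝ y z ⊆ Metric.ball x δ := (convex_ball x δ).segment_subset hy hz
      have c1 : ContinuousOn (fun p : E => p 1) (segment ℝ y z) := by fun_prop
      have c2 : ContinuousOn (fun p : E => Ep.cw (Ep.PA k p 2)) (segment ℝ y z) := by
        intro p hp
        have h := hb p (hsub hp)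
        exact (((ll_PAi k h.1 h.2 2).cw).continuousAt).continuousWithinAt
      -- a zero of one of the two functions suffices
      have hz1' : ∀ p ∈ segment ℝ y z, (p 1 = 0 ∨ Ep.cw (Ep.PA k p 2) = 0) →
          (1 : ℝ) * h3 k p = -1 * h3 k p := by
        intro p hp h
        have h0 : h3 k p = 0 := by
          rcases h with h | h
          · exact h3_zero_left (hb p (hsub hp)).1 h
          · exact h3_zero_right h
        rw [h0]; ring
      by_cases hb1 : sb y = sb z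
      · -- then the cell signs differ
        have he : ep (Ep.PA k y 2) ≠ ep (Ep.PA k z 2) := by
          intro h
          simp only at hy1 hz1
          rw [hb1, h, hz1] at hy1
          norm_num at hy1
        unfold ep at he
        by_cases e1 : 0 ≤ Ep.cw (Ep.PA k y 2)
        · by_cases e2 : 0 ≤ Ep.cw (Ep.PA k z 2)
          · simp [e1, e2] at he
          · obtain ⟨p, hp, hp0⟩ := seg_zero c2 e1 (not_le.1 e2).le
            exact ⟨p, hp, hz1' p hp (Or.inr hp0)⟩
        · by_cases e2 : 0 ≤ Ep.cw (Ep.PA k z 2)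
          · rw [segment_symm] at c2
            obtain ⟨p, hp, hp0⟩ := seg_zero c2 e2 (not_le.1 e1).le
            rw [segment_symm] at hp
            exact ⟨p, hp, hz1' p hp (Or.inr hp0)⟩
          · simp [e1, e2] at he
      · unfold sb at hb1
        by_cases e1 : 0 ≤ y 1
        · by_cases e2 : 0 ≤ z 1
          · simp [e1, e2] at hb1
          · obtain ⟨p, hp, hp0⟩ := seg_zero c1 e1 (not_le.1 e2).le
            exact ⟨p, hp, hz1' p hp (Or.inl hp0)⟩
        · by_cases e2 : 0 ≤ z 1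
          · rw [segment_symm] at c1
            obtain ⟨p, hp, hp0⟩ := seg_zero c1 e2 (not_le.1 e1).le
            rw [segment_symm] at hp
            exact ⟨p, hp, hz1' p hp (Or.inl hp0)⟩
          · simp [e1, e2] at hb1
  exact LLat.v3 h0 h1 h3'

end Pool.Agent.Helper746.Ep
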