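import Pool.Agent.Helper746.EpLoc

set_option autoImplicit false
open MeasureTheory Filter Topology

namespace Pool.Agent.Helper746.Ep

lemma rot_apply (v : E) : rot v = v3 (-(v 1)) (v 0) (v 2) := by
  unfold rot
  rw [linM_apply]
  apply ext3 <;> simp

lemma odd_pow3 (j : ℕ) : Odd (3 ^ j : ℕ) := Odd.pow (by decide)

lemma tw_mul3 (j : ℕ) (y : ℝ) : tw (3 ^ j * tw y) = tw (3 ^ j * y) := by
  have := tw_mul (3 ^ j) (odd_pow3 j) y
  push_cast at this
  exact this
lemma cw_mul3 (j : ℕ) (y : ℝ) : ep y * cw (3 ^ j * tw y) = cw (3 ^ j * y) := by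
  have := cw_mul (3 ^ j) (odd_pow3 j) y
  push_cast at this
  exact this

lemma ep_isS (y : ℝ) : IsS (ep y) := ep_or y

lemma exp_lt {x : E} (ht : 0 < tt x) : Real.exp (lt x) = tt x := by
  unfold lt; exact Real.exp_log ht

lemma exp_band {x : E} (ht : 0 < tt x) (j : ℕ) (hz : x 2 * lt x = j * Real.log 3) :
    Real.exp ((1 + x 2) * lt x) = tt x * 3 ^ j ∧ Real.exp ((1 + 2 * x 2) * lt x) = tt x * 9 ^ j := by
  have e3 : Real.exp (x 2 * lt x) = 3 ^ j := by
    rw [hz, Real.exp_nat_mul, Real.exp_log (by norm_num)]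
  constructor
  · rw [show (1 + x 2) * lt x = lt x + x 2 * lt x by ring, Real.exp_add, exp_lt ht, e3]
  · rw [show (1 + 2 * x 2) * lt x = lt x + x 2 * lt x + x 2 * lt x by ring, Real.exp_add,
      Real.exp_add, exp_lt ht, e3, show (9 : ℝ) = 3 * 3 by norm_num, mul_pow]
    ring

lemma rot_id (p y : ℝ) : mm 0 p y * rX 0 p y = p ∧ mm 0 p y * rY 0 p y = y := by
  have hX : rX 0 p y = p := by unfold rX; simp
  have hY : rY 0 p y = y := by unfold rY; simp
  by_cases h : N p y = 0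
  · have h' : N (rX 0 p y) (rY 0 p y) = 0 := by rw [hX, hY]; exact h
    obtain ⟨h1, h2⟩ := rot_zero h'
    subst h1 h2
    simp [rX, rY]
  · have hm : mm 0 p y = 1 := by unfold mm; rw [hX, hY]; exact div_self h
    rw [hm, hX, hY]; simp

lemma rot_quarter (p y : ℝ) : mm (Real.pi / 2) p y * rX (Real.pi / 2) p y = -y ∧
    mm (Real.pi / 2) p y * rY (Real.pi / 2) p y = p := by
  have hX : rX (Real.pi / 2) p y = -y := by unfold rX; simp
  have hY : rY (Real.pi / 2) p y = p := by unfold rY; simp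
  by_cases h : N p y = 0
  · have h' : N (rX (Real.pi / 2) p y) (rY (Real.pi / 2) p y) = 0 := by
      rw [hX, hY]; unfold N at h ⊢; rw [abs_neg, max_comm]; exact h
    obtain ⟨h1, h2⟩ := rot_zero h'
    subst h1 h2
    simp [rX, rY]
  · have hm : mm (Real.pi / 2) p y = 1 := by
      unfold mm; rw [hX, hY]
      have e : N (-y) p = N p y := by unfold N; rw [abs_neg, max_comm]
      rw [e]; exact div_self h
    rw [hm, hX, hY]; simp

/-- matching of two consecutive bands -/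
lemma gk_match {x : E} (k : ℕ) (ht : 0 < tt x) (hz : x 2 * lt x = (k + 1) * Real.log 3) :
    gk k x = rot (gk (k + 1) x) := by
  have hl3 : 0 < Real.log 3 := Real.log_pos (by norm_num)
  obtain ⟨e1, e2⟩ := exp_band ht (k + 1) (by push_cast; exact hz)
  have a0 : PA k x 0 = 3 * tt x := by
    unfold PA; rw [v3_0, e1]; field_simp; ring
  have a2 : PA k x 2 = 9 * tt x := by
    unfold PA; rw [v3_2, e2]; field_simp; ring
  have b0 : PA (k + 1) x 0 = tt x := by
    unfold PA; rw [v3_0, e1]; field_simp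
  have b2 : PA (k + 1) x 2 = tt x := by
    unfold PA; rw [v3_2, e2]; field_simp
  have p1 : PA k x 1 = x 0 / rr x := rfl
  have p2 : PA (k + 1) x 1 = x 0 / rr x := rfl
  have al1 : al (PA k x) = Real.pi / 2 := by
    unfold al
    rw [a0, a2, ← Real.log_div (by positivity) (by positivity)]
    rw [show 9 * tt x / (3 * tt x) = 3 by field_simp; norm_num]
    field_simp
  have al2 : al (PA (k + 1) x) = 0 := by
    unfold al
    rw [b0, b2]; simp
  set p := x 0 / rr x with hp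
  have q1 : PB (PA k x) = v3 (3 * tt x) (-tw (9 * tt x)) p := by
    unfold PB
    rw [al1, a0, a2, p1]
    rw [(rot_quarter _ _).1, (rot_quarter _ _).2]
  have q2 : PB (PA (k + 1) x) = v3 (tt x) p (tw (tt x)) := by
    unfold PB
    rw [al2, b0, b2, p2]
    rw [(rot_id _ _).1, (rot_id _ _).2]
  have ee : (-3 ^ k : ℝ) * (3 * tt x) = -3 ^ (k + 1) * tt x := by rw [pow_succ]; ring
  have t1 : tw (3 ^ k * -tw (9 * tt x)) = - tw (3 ^ (k + 2) * tt x) := by
    rw [mul_neg, tw_neg, tw_mul3]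
    congr 2
    rw [pow_add]; ring
  have t2 : tw (3 ^ (k + 1 + 1) * tw (tt x)) = tw (3 ^ (k + 2) * tt x) := tw_mul3 _ _
  have c1 : ep (9 * tt x) * cw (3 ^ k * -tw (9 * tt x)) = cw (3 ^ (k + 2) * tt x) := by
    rw [mul_neg, cw_neg, cw_mul3]
    congr 1
    rw [pow_add]; ring
  have c2 : ep (tt x) * cw (3 ^ (k + 1 + 1) * tw (tt x)) = cw (3 ^ (k + 2) * tt x) := cw_mul3 _ _
  have m1 : ep (9 * tt x) * mu (cw (3 ^ k * -tw (9 * tt x))) (cw (3 ^ (k + 1) * p)) =
      mu (cw (3 ^ (k + 2) * tt x)) (cw (3 ^ (k + 1) * p)) := by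
    rw [← mu_sign_left (ep_isS _), c1]
  have m2 : ep (tt x) * mu (cw (3 ^ (k + 1) * p)) (cw (3 ^ (k + 1 + 1) * tw (tt x))) =
      mu (cw (3 ^ (k + 2) * tt x)) (cw (3 ^ (k + 1) * p)) := by
    rw [← mu_sign_right (ep_isS _), c2, mu_comm]
  unfold gk
  rw [rot_apply, q1, q2, a2, b2]
  unfold PC fl
  simp only [v3_0, v3_1, v3_2]
  rw [ee, t1, t2]
  apply ext3
  · simp only [v3_0]; ring
  · simp only [v3_1]
  · simp only [v3_2]
    have := congrArg (fun r => sb x * Real.exp (-3 ^ (k + 1) * tt x) * -r) (m1.trans m2.symm)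
    linear_combination this

end Pool.Agent.Helper746.Ep
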