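import Pool.Agent.Helper746.EpTri

set_option autoImplicit false
open MeasureTheory Filter Topology

namespace Pool.Agent.Helper746.Ep

/-- TARGET -/
theorem null_preimage (f : E → E) (s N : Set E) (hN : volume N = 0)
    (h : ∀ x ∈ s, f x ∈ N ∧ ∃ A : E →L[ℝ] E, HasFDerivAt f A x ∧ A.det ≠ 0) :
    volume s = 0 := by
  classical
  rcases s.eq_empty_or_nonempty with hs | hs
  · rw [hs]; exact measure_empty
  let f' : E → E →L[ℝ] E := fun x => if hx : x ∈ s then Classical.choose (h x hx).2 else 0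
  have hf' : ∀ x (hx : x ∈ s), HasFDerivAt f (f' x) x ∧ (f' x).det ≠ 0 := by
    intro x hx
    have h1 := Classical.choose_spec (h x hx).2
    simp only [f', dif_pos hx]
    exact h1
  have hδ : ∀ A : E →L[ℝ] E, A.det ≠ 0 → ∃ δ : NNReal, δ ≠ 0 ∧ ∃ m : NNReal, m ≠ 0 ∧
      ∀ (t : Set E) (g : E → E), ApproximatesLinearOn g A t δ →
        (m : ENNReal) * volume t ≤ volume (g '' t) := by
    intro A hA
    have hpos : (0 : ENNReal) < ENNReal.ofReal |A.det| := ENNReal.ofReal_pos.2 (abs_pos.2 hA)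
    obtain ⟨m, hm0, hm⟩ := ENNReal.lt_iff_exists_nnreal_btwn.1 hpos
    have h1 := mul_le_addHaar_image_of_lt_det (volume : Measure E) A hm
    obtain ⟨δ, h2, h3⟩ := (h1.and self_mem_nhdsWithin).exists
    refine ⟨δ, ?_, m, ?_, h2⟩
    · exact ne_of_gt h3
    · intro h4
      rw [h4] at hm0
      simp at hm0
  let r : (E →L[ℝ] E) → NNReal := fun A => if hA : A.det ≠ 0 then Classical.choose (hδ A hA) else 1
  have hr : ∀ A, r A ≠ 0 := by
    intro A
    by_cases hA : A.det ≠ 0
    · simp only [r, dif_pos hA]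
      exact (Classical.choose_spec (hδ A hA)).1
    · simp only [r, dif_neg hA]; exact one_ne_zero
  have hr2 : ∀ A : E →L[ℝ] E, A.det ≠ 0 → ∃ m : NNReal, m ≠ 0 ∧
      ∀ (t : Set E) (g : E → E), ApproximatesLinearOn g A t (r A) →
        (m : ENNReal) * volume t ≤ volume (g '' t) := by
    intro A hA
    simp only [r, dif_pos hA]
    exact (Classical.choose_spec (hδ A hA)).2
  obtain ⟨t, A, -, ht2, ht3, ht4⟩ := exists_closed_cover_approximatesLinearOn_of_hasFDerivWithinAt
    f s f' (fun x hx => (hf' x hx).1.hasFDerivWithinAt) r hr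
  have hnull : ∀ n, volume (s ∩ t n) = 0 := by
    intro n
    obtain ⟨y, hy, hAy⟩ := ht4 hs n
    obtain ⟨m, hm0, hm⟩ := hr2 (A n) (by rw [hAy]; exact (hf' y hy).2)
    have h1 := hm _ f (ht3 n)
    have h2 : volume (f '' (s ∩ t n)) = 0 := by
      refine measure_mono_null ?_ hN
      rintro _ ⟨x, hx, rfl⟩
      exact (h x hx.1).1
    rw [h2] at h1
    have h3 := le_antisymm h1 zero_le
    rcases mul_eq_zero.1 h3 with h4 | h4
    · exact absurd (ENNReal.coe_eq_zero.1 h4) hm0
    · exact h4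
  have h5 : s ⊆ ⋃ n, (s ∩ t n) := by
    rw [← Set.inter_iUnion]
    exact Set.subset_inter le_rfl ht2
  exact measure_mono_null h5 (measure_iUnion_null hnull)

end Pool.Agent.Helper746.Ep
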