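import Pool.Agent.Helper746.EpBase

set_option autoImplicit false
open MeasureTheory Filter Topology

namespace Pool.Agent.Helper746.Ep

/-- a sign -/
def IsS (n : ℝ) : Prop := n = 1 ∨ n = -1
lemma IsS.sq {n : ℝ} (h : IsS n) : n ^ 2 = 1 := by rcases h with h | h <;> rw [h] <;> norm_num
lemma IsS.abs {n : ℝ} (h : IsS n) : |n| = 1 := by rcases h with h | h <;> rw [h] <;> norm_num
lemma IsS.mul {n m : ℝ} (h : IsS n) (h' : IsS m) : IsS (n * m) := by
  rcases h with h | h <;> rcases h' with h' | h' <;> rw [h, h'] <;> simp [IsS]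

/-- distance to the lattice `4ℤ` -/
noncomputable def d4 (x : ℝ) : ℝ := |x - 4 * (round (x / 4) : ℤ)|

lemma d4_le (x : ℝ) (j : ℤ) : d4 x ≤ |x - 4 * j| := by
  have h := round_le (x / 4) j
  unfold d4
  have e1 : x - 4 * (round (x / 4) : ℤ) = 4 * (x / 4 - (round (x / 4) : ℤ)) := by ring
  have e2 : x - 4 * j = 4 * (x / 4 - j) := by ring
  rw [e1, e2, abs_mul, abs_mul]
  gcongr

lemma d4_eq {x : ℝ} {j : ℤ} (h : |x - 4 * j| ≤ 2) : d4 x = |x - 4 * j| := by
  apply le_antisymm (d4_le x j)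
  by_cases hj : round (x / 4) = j
  · unfold d4; rw [hj]
  · unfold d4
    have h1 : (1 : ℝ) ≤ |(round (x / 4) : ℝ) - j| := by
      have : (1 : ℤ) ≤ |round (x / 4) - j| := Int.one_le_abs (sub_ne_zero.2 hj)
      exact_mod_cast this
    have h2 : |(4 : ℝ) * ((round (x / 4) : ℝ) - j)| ≤
        |x - 4 * j| + |x - 4 * (round (x / 4) : ℤ)| := by
      have := abs_sub (x - 4 * (j : ℝ)) (x - 4 * (round (x / 4) : ℤ))
      have e : x - 4 * (j : ℝ) - (x - 4 * (round (x / 4) : ℤ)) =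
        4 * ((round (x / 4) : ℝ) - j) := by ring
      rwa [e] at this
    rw [abs_mul, abs_of_pos (by norm_num : (0 : ℝ) < 4)] at h2
    linarith

lemma d4_lip (x y : ℝ) : |d4 x - d4 y| ≤ |x - y| := by
  have key : ∀ x y : ℝ, d4 x - d4 y ≤ |x - y| := by
    intro x y
    have h1 := d4_le x (round (y / 4))
    have h2 := abs_sub_le x y (4 * (round (y / 4) : ℤ))
    unfold d4 at *
    linarith
  rw [abs_le]
  have := key y x
  rw [abs_sub_comm] at this
  exact ⟨by linarith, key x y⟩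

lemma d4_bd (x : ℝ) : 0 ≤ d4 x ∧ d4 x ≤ 2 := by
  refine ⟨abs_nonneg _, ?_⟩
  unfold d4
  have h := abs_sub_round (x / 4)
  have e1 : x - 4 * (round (x / 4) : ℤ) = 4 * (x / 4 - (round (x / 4) : ℤ)) := by ring
  rw [e1, abs_mul, abs_of_pos (by norm_num : (0 : ℝ) < 4)]
  linarith

/-- triangle cosine: period `4`, `cw 0 = 1`, `cw (±1) = 0` -/
noncomputable def cw (x : ℝ) : ℝ := 1 - d4 x
/-- triangle sine: period `4`, `tw x = x` for `|x| ≤ 1` -/
noncomputable def tw (x : ℝ) : ℝ := cw (x - 1)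

lemma cw_bd (x : ℝ) : |cw x| ≤ 1 := by
  have := d4_bd x; unfold cw; rw [abs_le]; constructor <;> linarith
lemma tw_bd (x : ℝ) : |tw x| ≤ 1 := cw_bd _
lemma cw_lip (x y : ℝ) : |cw x - cw y| ≤ |x - y| := by
  have := d4_lip x y
  unfold cw
  rw [show 1 - d4 x - (1 - d4 y) = -(d4 x - d4 y) by ring, abs_neg]; exact this
lemma tw_lip (x y : ℝ) : |tw x - tw y| ≤ |x - y| := by
  have := cw_lip (x - 1) (y - 1)
  rw [show x - 1 - (y - 1) = x - y by ring] at this; exact this

lemma tri_even {x : ℝ} {j : ℤ} (h : |x - 4 * j| ≤ 1) :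
    tw x = x - 4 * j ∧ cw x = 1 - |x - 4 * j| := by
  obtain ⟨h1, h2⟩ := abs_le.1 h
  constructor
  · unfold tw cw
    rw [d4_eq (j := j) (by rw [abs_le]; constructor <;> linarith), abs_of_nonpos (by linarith)]
    ring
  · unfold cw
    rw [d4_eq (j := j) (by linarith)]

lemma tri_odd {x : ℝ} {j : ℤ} (h : |x - (4 * j + 2)| ≤ 1) :
    tw x = -(x - (4 * j + 2)) ∧ cw x = -(1 - |x - (4 * j + 2)|) := by
  obtain ⟨h1, h2⟩ := abs_le.1 h
  constructor
  · unfold tw cw
    rw [d4_eq (j := j) (by rw [abs_le]; constructor <;> linarith), abs_of_nonneg (by linarith)]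
    ring
  · unfold cw
    rcases le_total x (4 * j + 2) with hx | hx
    · rw [d4_eq (j := j) (by rw [abs_le]; constructor <;> linarith), abs_of_nonneg (by linarith),
        abs_of_nonpos (by linarith)]
      ring
    · rw [d4_eq (j := j + 1) (by push_cast; rw [abs_le]; constructor <;> linarith)]
      push_cast
      rw [abs_of_nonpos (by linarith), abs_of_nonneg (by linarith)]
      ring

/-- in every cell the triangle functions are given by one sign -/
lemma tri (x : ℝ) : ∃ (k : ℤ) (s : ℝ), IsS s ∧ |x - 2 * k| ≤ 1 ∧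
    ∀ y : ℝ, |y - 2 * k| ≤ 1 → tw y = s * (y - 2 * k) ∧ cw y = s * (1 - |y - 2 * k|) := by
  have hx : |x - 2 * (round (x / 2) : ℤ)| ≤ 1 := by
    have h := abs_sub_round (x / 2)
    have e1 : x - 2 * (round (x / 2) : ℤ) = 2 * (x / 2 - (round (x / 2) : ℤ)) := by ring
    rw [e1, abs_mul, abs_of_pos (by norm_num : (0 : ℝ) < 2)]
    linarith
  rcases Int.even_or_odd' (round (x / 2)) with ⟨j, hj | hj⟩
  · refine ⟨2 * j, 1, Or.inl rfl, by rw [← hj]; exact hx, fun y hy => ?_⟩
    have e : (2 : ℝ) * ((2 * j : ℤ) : ℝ) = 4 * j := by push_cast; ring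
    rw [e] at hy ⊢
    obtain ⟨h1, h2⟩ := tri_even hy
    exact ⟨by rw [h1]; ring, by rw [h2]; ring⟩
  · refine ⟨2 * j + 1, -1, Or.inr rfl, by rw [← hj]; exact hx, fun y hy => ?_⟩
    have e : (2 : ℝ) * ((2 * j + 1 : ℤ) : ℝ) = 4 * j + 2 := by push_cast; ring
    rw [e] at hy ⊢
    obtain ⟨h1, h2⟩ := tri_odd hy
    exact ⟨by rw [h1]; ring, by rw [h2]; ring⟩

/-- signed minimum -/
noncomputable def mu (u v : ℝ) : ℝ := (|u + v| - |u - v|) / 2

lemma mu_pos {u v : ℝ} (hu : 0 ≤ u) (hv : 0 ≤ v) : mu u v = min u v := by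
  unfold mu
  rw [abs_of_nonneg (by linarith)]
  rcases le_total u v with h | h
  · rw [min_eq_left h, abs_of_nonpos (by linarith)]; ring
  · rw [min_eq_right h, abs_of_nonneg (by linarith)]; ring

lemma mu_neg_left (u v : ℝ) : mu (-u) v = - mu u v := by
  unfold mu
  have e1 : |-u + v| = |u - v| := by rw [← abs_neg]; congr 1; ring
  have e2 : |-u - v| = |u + v| := by rw [← abs_neg]; congr 1; ring
  rw [e1, e2]; ring_nf
lemma mu_neg_right (u v : ℝ) : mu u (-v) = - mu u v := by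
  unfold mu
  have e2 : u - -v = u + v := by ring
  rw [e2, ← sub_eq_add_neg]; ring_nf
lemma mu_sign_left {s : ℝ} (hs : IsS s) (u v : ℝ) : mu (s * u) v = s * mu u v := by
  rcases hs with h | h <;> rw [h]
  · rw [one_mul, one_mul]
  · rw [neg_one_mul, neg_one_mul, mu_neg_left]
lemma mu_sign_right {s : ℝ} (hs : IsS s) (u v : ℝ) : mu u (s * v) = s * mu u v := by
  rcases hs with h | h <;> rw [h]
  · rw [one_mul, one_mul]
  · rw [neg_one_mul, neg_one_mul, mu_neg_right]
lemma mu_comm (u v : ℝ) : mu u v = mu v u := by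
  unfold mu; rw [add_comm u v, abs_sub_comm u v]
lemma mu_zero_left (v : ℝ) : mu 0 v = 0 := by unfold mu; simp
lemma mu_zero_right (u : ℝ) : mu u 0 = 0 := by unfold mu; simp
lemma mu_abs_right (u v : ℝ) : |mu u v| ≤ |v| := by
  unfold mu
  rw [abs_div, abs_of_pos (by norm_num : (0 : ℝ) < 2), div_le_iff₀ (by norm_num)]
  have h1 := abs_abs_sub_abs_le (u + v) (u - v)
  have e : u + v - (u - v) = v * 2 := by ring
  rw [e, abs_mul, abs_of_pos (by norm_num : (0 : ℝ) < 2)] at h1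
  exact h1

/-- maximum norm on the plane -/
noncomputable def N (a b : ℝ) : ℝ := max |a| |b|

/-! ### the map -/

/-- `ℓ¹` distance to the axis -/
noncomputable def rr (x : E) : ℝ := |x 0| + |x 1|
/-- `t = log (1 / r)` -/
noncomputable def tt (x : E) : ℝ := -Real.log (rr x)
/-- `log t` -/
noncomputable def lt (x : E) : ℝ := Real.log (tt x)

/-- first stage: `(t^(1+z) / 3^k, x₀ / r, t^(1+2z) / 9^k)` -/
noncomputable def PA (k : ℕ) (x : E) : E :=
  v3 (Real.exp ((1 + x 2) * lt x) / 3 ^ k) (x 0 / rr x) (Real.exp ((1 + 2 * x 2) * lt x) / 9 ^ k)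

/-- rotation angle -/
noncomputable def al (P : E) : ℝ := Real.pi / (2 * Real.log 3) * (Real.log (P 2) - Real.log (P 0))

/-- the homotopy: rotation of the square `[-1,1]²` along concentric squares -/
noncomputable def rX (a p y : ℝ) : ℝ := Real.cos a * p - Real.sin a * y
noncomputable def rY (a p y : ℝ) : ℝ := Real.sin a * p + Real.cos a * y
noncomputable def mm (a p y : ℝ) : ℝ := N p y / N (rX a p y) (rY a p y)

/-- second stage -/
noncomputable def PB (P : E) : E :=
  v3 (P 0) (mm (al P) (P 1) (tw (P 2)) * rX (al P) (P 1) (tw (P 2)))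
    (mm (al P) (P 1) (tw (P 2)) * rY (al P) (P 1) (tw (P 2)))

/-- third stage: the Zorich type map -/
noncomputable def PC (k : ℕ) (Q : E) : E :=
  v3 (Real.exp (-3 ^ k * Q 0) * tw (3 ^ k * Q 1)) (Real.exp (-3 ^ k * Q 0) * tw (3 ^ (k + 1) * Q 2))
    (Real.exp (-3 ^ k * Q 0) * -mu (cw (3 ^ k * Q 1)) (cw (3 ^ (k + 1) * Q 2)))

/-- flip of the third coordinate -/
noncomputable def fl (s : ℝ) (v : E) : E := v3 (v 0) (v 1) (s * v 2)

/-- sign of the cell -/
noncomputable def ep (y : ℝ) : ℝ := if 0 ≤ cw y then 1 else -1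
/-- sign of `x 1` -/
noncomputable def sb (x : E) : ℝ := if 0 ≤ x 1 then 1 else -1

/-- the map in band `k` -/
noncomputable def gk (k : ℕ) (x : E) : E := fl (sb x * ep (PA k x 2)) (PC k (PB (PA k x)))

/-- rotation by a quarter turn in the first two coordinates -/
noncomputable def rot : E →L[ℝ] E := linM (v3 0 1 0) (v3 (-1) 0 0) (v3 0 0 1)

/-- the band number -/
noncomputable def kk (x : E) : ℕ := ⌊x 2 * lt x / Real.log 3⌋₊

/-- the counterexample -/
noncomputable def F (x : E) : E := if rr x = 0 then 0 else (rot ^ kk x) (gk (kk x) x)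

/-- the domain -/
def Om : Set E := {x | rr x < Real.exp (-100) ∧ 0 < x 2 ∧ x 2 < 1}

/-- locally Lipschitz at a point -/
def LLat {X Y : Type*} [PseudoEMetricSpace X] [PseudoEMetricSpace Y] (f : X → Y) (x : X) : Prop :=
  ∃ K : NNReal, ∃ t ∈ 𝓝 x, LipschitzOnWith K f t

end Pool.Agent.Helper746.Ep
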