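import Mathlib

set_option autoImplicit false
open MeasureTheory Filter Topology

namespace Pool.Agent.Helper746.Transfer

abbrev E := EuclideanSpace ℝ (Fin 3)

/-- the south pole `-e_3` -/
noncomputable def pole : E := -EuclideanSpace.single 2 1

/-- inversion centred at the south pole with radius `√2`; it maps the unit ball onto `{x 2 > 0}` -/
noncomputable def J (x : E) : E := EuclideanGeometry.inversion pole (Real.sqrt 2) x

/-- `F` conjugated to the unit ball, followed by the inversion in the unit sphere about `p` -/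
noncomputable def fball (F : E → E) (p : E) (x : E) : E := EuclideanGeometry.inversion p 1 (F (J x))

theorem pole_dist_sq (x : E) : dist x pole ^ 2 = ‖x‖ ^ 2 + 1 + 2 * x 2 := by
  rw [dist_eq_norm, EuclideanSpace.real_norm_sq_eq, EuclideanSpace.real_norm_sq_eq]
  simp [Fin.sum_univ_three, pole, PiLp.single_apply]
  ring

theorem pole_dist_ge (x : E) : 1 - ‖x‖ ≤ dist x pole := by
  have h1 : ‖pole‖ = 1 := by simp [pole]
  have h2 : dist pole 0 ≤ dist pole x + dist x 0 := dist_triangle _ _ _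
  rw [dist_zero_right, dist_zero_right, h1, dist_comm pole x] at h2
  linarith

theorem ne_pole {x : E} (hx : ‖x‖ < 1) : x ≠ pole := by
  rintro rfl
  have h1 : ‖pole‖ = 1 := by simp [pole]
  linarith

theorem J_coord (x : E) (i : Fin 3) (hx : x ≠ pole) : J x i = 2 / (‖x‖ ^ 2 + 1 + 2 * x 2) * (x i - pole i) + pole i := by
  have h0 : dist x pole ≠ 0 := dist_ne_zero.2 hx
  rw [J, EuclideanGeometry.inversion, ← pole_dist_sq]
  simp [div_pow]

theorem J_apply (x : E) (hx : ‖x‖ < 1) :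
    J x = WithLp.toLp 2 ![2 * x 0 / (‖x‖ ^ 2 + 1 + 2 * x 2), 2 * x 1 / (‖x‖ ^ 2 + 1 + 2 * x 2),
      (1 - ‖x‖ ^ 2) / (‖x‖ ^ 2 + 1 + 2 * x 2)] := by
  have h0 : (‖x‖ ^ 2 + 1 + 2 * x 2) ≠ 0 := by
    rw [← pole_dist_sq]
    exact pow_ne_zero _ (dist_ne_zero.2 (ne_pole hx))
  ext i
  rw [J_coord x i (ne_pole hx)]
  fin_cases i
  · simp [pole]; ring
  · simp [pole]; ring
  · simp [pole]; field_simp; ring


theorem J_two_ge {x : E} {r : ℝ} (hr : r < 1) (hx : ‖x‖ ≤ r) : (1 - r ^ 2) / 4 ≤ (J x) 2 := by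
  have hx1 : ‖x‖ < 1 := by linarith
  have h0 : 0 ≤ ‖x‖ := norm_nonneg x
  have hd : 0 < ‖x‖ ^ 2 + 1 + 2 * x 2 := by
    rw [← pole_dist_sq]
    exact pow_pos (dist_pos.2 (ne_pole hx1)) _
  have hx2 : |x 2| ≤ ‖x‖ := by simpa using EuclideanSpace.norm_eq x ▸ PiLp.norm_apply_le x 2
  have hx3 : x 2 ≤ ‖x‖ := le_trans (le_abs_self _) hx2
  rw [J_apply x hx1]
  simp only [Matrix.cons_val]
  rw [div_le_div_iff₀ (by norm_num) hd]
  have h1 : ‖x‖ ^ 2 ≤ r ^ 2 := pow_le_pow_left₀ h0 hx 2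
  have h2 : ‖x‖ ^ 2 + 1 + 2 * x 2 ≤ 4 := by nlinarith
  have h3 : 0 ≤ 1 - r ^ 2 := by nlinarith
  nlinarith

theorem J_two_pos {x : E} (hx : ‖x‖ < 1) : 0 < (J x) 2 := by
  have h := J_two_ge hx le_rfl
  have h0 : 0 ≤ ‖x‖ := norm_nonneg x
  nlinarith

theorem J_lip {r : ℝ} (hr : r < 1) : ∃ C : NNReal, LipschitzOnWith C J (Metric.closedBall (0 : E) r) := by
  refine ⟨(2 / (1 - r) ^ 2).toNNReal, LipschitzOnWith.of_dist_le_mul fun x hx y hy => ?_⟩
  rw [mem_closedBall_zero_iff] at hx hy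
  have hx1 : ‖x‖ < 1 := by linarith
  have hy1 : ‖y‖ < 1 := by linarith
  rw [Real.coe_toNNReal _ (by positivity)]
  unfold J
  rw [EuclideanGeometry.dist_inversion_inversion (ne_pole hx1) (ne_pole hy1)]
  rw [Real.sq_sqrt (by norm_num)]
  apply mul_le_mul_of_nonneg_right _ dist_nonneg
  have h1 := pole_dist_ge x
  have h2 := pole_dist_ge y
  apply div_le_div_of_nonneg_left (by norm_num) (pow_pos (by linarith) 2)
  nlinarith

theorem inv_lip (p : E) : LipschitzOnWith 1 (EuclideanGeometry.inversion p 1) {z : E | 1 ≤ dist z p} := by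
  apply LipschitzOnWith.of_dist_le_mul
  intro x hx y hy
  simp only [Set.mem_ofPred_eq] at hx hy
  have hx1 : x ≠ p := by rintro rfl; simp at hx; linarith
  have hy1 : y ≠ p := by rintro rfl; simp at hy; linarith
  rw [EuclideanGeometry.dist_inversion_inversion hx1 hy1]
  apply mul_le_mul_of_nonneg_right _ dist_nonneg
  simp only [one_pow, NNReal.coe_one]
  rw [div_le_one (by positivity)]
  nlinarith

theorem fball_lip (F : E → E) (p : E)
    (hLip : ∀ ε : ℝ, 0 < ε → ∃ C : NNReal, LipschitzOnWith C F {y : E | ε ≤ y 2})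
    (hfar : ∀ y : E, 0 < y 2 → 1 ≤ dist (F y) p) {r : ℝ} (hr0 : 0 ≤ r) (hr : r < 1) :
    ∃ C : NNReal, LipschitzOnWith C (fball F p) (Metric.closedBall (0 : E) r) := by
  obtain ⟨C1, h1⟩ := J_lip hr
  obtain ⟨C2, h2⟩ := hLip ((1 - r ^ 2) / 4) (by nlinarith)
  have h12 : LipschitzOnWith (C2 * C1) (F ∘ J) (Metric.closedBall (0 : E) r) := by
    apply h2.comp h1
    intro x hx
    rw [mem_closedBall_zero_iff] at hx
    exact J_two_ge hr hx
  refine ⟨1 * (C2 * C1), ?_⟩
  apply (inv_lip p).comp h12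
  intro x hx
  rw [mem_closedBall_zero_iff] at hx
  exact hfar _ (J_two_pos (by linarith))

theorem fball_deriv (F : E → E) (p : E) (K : ℝ) {x : E} (hx : ‖x‖ < 1)
    (hfar : ∀ y : E, 0 < y 2 → 1 ≤ dist (F y) p)
    (hA : ∃ A : E →L[ℝ] E, HasFDerivAt F A (J x) ∧ ‖A‖ ^ 3 ≤ K * ContinuousLinearMap.det A) :
    DifferentiableAt ℝ (fball F p) x ∧ ‖fderiv ℝ (fball F p) x‖ ^ 3 ≤ K * ContinuousLinearMap.det (fderiv ℝ (fball F p) x) := by
  obtain ⟨A, hA, hK⟩ := hA
  have hfp := hfar (J x) (J_two_pos hx)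
  have hFp : F (J x) ≠ p := by intro h; rw [h, dist_self] at hfp; linarith
  have d1 : HasFDerivAt J _ x := EuclideanGeometry.hasFDerivAt_inversion (R := Real.sqrt 2) (ne_pole hx)
  have d2 := EuclideanGeometry.hasFDerivAt_inversion (R := 1) hFp
  have d3 := d2.comp x (hA.comp x d1)
  have e1 : (EuclideanGeometry.inversion p 1 ∘ F ∘ J) = fball F p := rfl
  rw [e1] at d3
  refine ⟨d3.differentiableAt, ?_⟩
  rw [d3.fderiv]
  set c1 : ℝ := (Real.sqrt 2 / dist x pole) ^ 2 with hc1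
  set c2 : ℝ := (1 / dist (F (J x)) p) ^ 2 with hc2
  have hc1p : 0 < c1 := by
    have := dist_pos.2 (ne_pole hx)
    positivity
  have hc2p : 0 < c2 := by
    have := dist_pos.2 hFp
    positivity
  have hrank : ∀ v : E, v ≠ 0 → LinearMap.det ((ℝ ∙ v)ᗮ.reflection.toLinearMap : E →ₗ[ℝ] E) = -1 := by
    intro v hv
    rw [Submodule.det_reflection, Submodule.orthogonal_orthogonal, finrank_span_singleton hv, pow_one]
  have hdet : ContinuousLinearMap.det
      ((c2 • ((ℝ ∙ (F (J x) - p))ᗮ.reflection : E →L[ℝ] E)).comp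
      (A.comp (c1 • ((ℝ ∙ (x - pole))ᗮ.reflection : E →L[ℝ] E)))) = (c2 * c1) ^ 3 * ContinuousLinearMap.det A := by
    have r1 := hrank _ (sub_ne_zero.2 hFp)
    have r2 := hrank _ (sub_ne_zero.2 (ne_pole hx))
    have : ((c2 • ((ℝ ∙ (F (J x) - p))ᗮ.reflection : E →L[ℝ] E)).comp
      (A.comp (c1 • ((ℝ ∙ (x - pole))ᗮ.reflection : E →L[ℝ] E))) : E →ₗ[ℝ] E) =
      (c2 * c1) • (((ℝ ∙ (F (J x) - p))ᗮ.reflection.toLinearMap : E →ₗ[ℝ] E) ∘ₗ (A : E →ₗ[ℝ] E) ∘ₗ
        ((ℝ ∙ (x - pole))ᗮ.reflection.toLinearMap : E →ₗ[ℝ] E)) := by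
      ext v i
      simp [mul_assoc, mul_comm]
    unfold ContinuousLinearMap.det
    rw [this, LinearMap.det_smul, LinearMap.det_comp, LinearMap.det_comp, r1, r2]
    simp
  rw [hdet]
  have hnorm : ‖((c2 • ((ℝ ∙ (F (J x) - p))ᗮ.reflection : E →L[ℝ] E)).comp
      (A.comp (c1 • ((ℝ ∙ (x - pole))ᗮ.reflection : E →L[ℝ] E))))‖ ≤ (c2 * c1) * ‖A‖ := by
    apply ContinuousLinearMap.opNorm_le_bound _ (by positivity)
    intro v
    simp only [ContinuousLinearMap.comp_apply, _root_.smul_apply, map_smul, norm_smul]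
    have n1 : ‖((ℝ ∙ (F (J x) - p))ᗮ.reflection : E →L[ℝ] E) (A (((ℝ ∙ (x - pole))ᗮ.reflection : E →L[ℝ] E) v))‖ = ‖A (((ℝ ∙ (x - pole))ᗮ.reflection : E →L[ℝ] E) v)‖ := by
      exact LinearIsometryEquiv.norm_map _ _
    have n2 : ‖(((ℝ ∙ (x - pole))ᗮ.reflection : E →L[ℝ] E) v)‖ = ‖v‖ := LinearIsometryEquiv.norm_map _ _
    have n3 := A.le_opNorm (((ℝ ∙ (x - pole))ᗮ.reflection : E →L[ℝ] E) v)
    rw [n2] at n3
    rw [n1]
    rw [Real.norm_of_nonneg hc1p.le, Real.norm_of_nonneg hc2p.le]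
    calc c1 * (c2 * ‖A (((ℝ ∙ (x - pole))ᗮ.reflection : E →L[ℝ] E) v)‖) ≤ c1 * (c2 * (‖A‖ * ‖v‖)) := by gcongr
      _ = c2 * c1 * ‖A‖ * ‖v‖ := by ring
  calc _ ≤ ((c2 * c1) * ‖A‖) ^ 3 := by gcongr
    _ = (c2 * c1) ^ 3 * ‖A‖ ^ 3 := by ring
    _ ≤ (c2 * c1) ^ 3 * (K * ContinuousLinearMap.det A) := by gcongr
    _ = K * ((c2 * c1) ^ 3 * ContinuousLinearMap.det A) := by ring


theorem weak_deriv (f : E → E) (hfm : AEStronglyMeasurable (fderiv ℝ f) (volume : Measure E))
    (hlip : ∀ r : ℝ, 0 ≤ r → r < 1 → ∃ C : NNReal, LipschitzOnWith C f (Metric.closedBall (0 : E) r))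
    (hdiff : ∀ᵐ x ∂(volume : Measure E), ‖x‖ < 1 → DifferentiableAt ℝ f x)
    (φ : E → ℝ) (hφ : ContDiff ℝ 1 φ) (hc : HasCompactSupport φ) (hs : tsupport φ ⊆ Metric.ball (0 : E) 1)
    (v : E) : ∫ x, (fderiv ℝ φ x v) • f x = - ∫ x, φ x • (fderiv ℝ f x v) := by
  obtain ⟨r0, hr0, hsr0⟩ := exists_lt_subset_ball (isClosed_tsupport φ) hs
  -- radius between 0 and 1
  obtain ⟨r, hr, hr1, hsr⟩ : ∃ r : ℝ, 0 ≤ r ∧ r < 1 ∧ tsupport φ ⊆ Metric.ball (0 : E) r :=
    ⟨max r0 0, le_max_right _ _, max_lt hr0 one_pos, hsr0.trans (Metric.ball_subset_ball (le_max_left _ _))⟩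
  obtain ⟨C, hC⟩ := hlip r hr hr1
  have hφ0 : ∀ x, x ∉ Metric.closedBall (0 : E) r → φ x = 0 := by
    intro x hx
    apply image_eq_zero_of_notMem_tsupport
    intro h
    exact hx (Metric.ball_subset_closedBall (hsr h))
  have hφ1 : ∀ x, x ∉ Metric.closedBall (0 : E) r → fderiv ℝ φ x = 0 := by
    intro x hx
    apply image_eq_zero_of_notMem_tsupport (f := fderiv ℝ φ)
    intro h
    exact hx (Metric.ball_subset_closedBall (hsr (tsupport_fderiv_subset ℝ h)))
  have hcont : Continuous fun x => fderiv ℝ φ x v := (hφ.continuous_fderiv (by norm_num)).clm_apply continuous_const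
  have hi1 : Integrable (fun x => (fderiv ℝ φ x v) • f x) (volume : Measure E) := by
    have : IntegrableOn (fun x => (fderiv ℝ φ x v) • f x) (Metric.closedBall (0 : E) r) (volume : Measure E) := by
      apply ContinuousOn.integrableOn_compact (isCompact_closedBall _ _)
      exact hcont.continuousOn.smul hC.continuousOn
    apply this.integrable_of_forall_notMem_eq_zero
    intro x hx
    simp [hφ1 x hx]
  have hbd : ∀ x ∈ tsupport φ, ‖fderiv ℝ f x‖ ≤ C := by
    intro x hx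
    exact norm_fderiv_le_of_lipschitzOn ℝ (Metric.closedBall_mem_nhds_of_mem (hsr hx)) hC
  have hi2 : Integrable (fun x => φ x • (fderiv ℝ f x v)) (volume : Measure E) := by
    obtain ⟨Mφ, hMφ⟩ := hc.exists_bound_of_continuous hφ.continuous
    have : IntegrableOn (fun x => φ x • (fderiv ℝ f x v)) (Metric.closedBall (0 : E) r) (volume : Measure E) := by
      apply Measure.integrableOn_of_bounded (M := Mφ * (C * ‖v‖)) measure_closedBall_lt_top.ne
      · apply hφ.continuous.aestronglyMeasurable.smul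
        exact (ContinuousLinearMap.apply ℝ E v).continuous.comp_aestronglyMeasurable hfm
      · apply Eventually.of_forall
        intro x
        by_cases hx : x ∈ tsupport φ
        · rw [norm_smul]
          have h1 := hMφ x
          have h2 := (fderiv ℝ f x).le_opNorm v
          have h3 := hbd x hx
          have h4 : 0 ≤ Mφ := le_trans (norm_nonneg _) h1
          gcongr
          exact h2.trans (by gcongr)
        · rw [image_eq_zero_of_notMem_tsupport hx]
          have h1 := hMφ x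
          have h4 : 0 ≤ Mφ := le_trans (norm_nonneg _) h1
          simp only [zero_smul, norm_zero]
          positivity
    apply this.integrable_of_forall_notMem_eq_zero
    intro x hx
    simp [hφ0 x hx]
  ext i
  have hp1 : (∫ x, (fderiv ℝ φ x v) • f x) i = ∫ x, (fderiv ℝ φ x v) * f x i := by
    have := ContinuousLinearMap.integral_comp_comm (EuclideanSpace.proj (𝕜 := ℝ) i) hi1
    simpa using this.symm
  have hp2 : (∫ x, φ x • (fderiv ℝ f x v)) i = ∫ x, φ x * (fderiv ℝ f x v) i := by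
    have := ContinuousLinearMap.integral_comp_comm (EuclideanSpace.proj (𝕜 := ℝ) i) hi2
    simpa using this.symm
  rw [PiLp.neg_apply, hp1, hp2]
  have hli : LipschitzOnWith C (fun x => f x i) (Metric.closedBall (0 : E) r) := by
    apply LipschitzOnWith.of_dist_le_mul
    intro x hx y hy
    refine le_trans ?_ (hC.dist_le_mul x hx y hy)
    rw [dist_eq_norm, dist_eq_norm]
    simpa using PiLp.norm_apply_le (f x - f y) i
  obtain ⟨g, hg, hgf⟩ := hli.extend_real
  obtain ⟨D, hD⟩ := ContDiff.lipschitzWith_of_hasCompactSupport hc hφ (by norm_num)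
  have key := hg.integral_lineDeriv_mul_eq (μ := (volume : Measure E)) hD hc v
  have k1 : ∫ x, lineDeriv ℝ φ x (-v) * g x = - ∫ x, (fderiv ℝ φ x v) * f x i := by
    rw [← integral_neg]
    congr 1
    funext x
    rw [((hφ.differentiable (by norm_num)) x).lineDeriv_eq_fderiv]
    by_cases hx : x ∈ Metric.closedBall (0 : E) r
    · have hgx : f x i = g x := hgf hx
      rw [hgx]; simp
    · rw [hφ1 x hx]; simp
  have k2 : ∫ x, lineDeriv ℝ g x v * φ x = ∫ x, φ x * (fderiv ℝ f x v) i := by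
    apply integral_congr_ae
    filter_upwards [hdiff] with x hx
    by_cases hxs : x ∈ tsupport φ
    · have hxr := hsr hxs
      have hx1 : ‖x‖ < 1 := by
        rw [mem_ball_zero_iff] at hxr
        linarith
      have hd := (hx hx1).hasFDerivAt
      have hd1 : HasFDerivAt (fun x => f x i) ((EuclideanSpace.proj (𝕜 := ℝ) i).comp (fderiv ℝ f x)) x :=
        (EuclideanSpace.proj (𝕜 := ℝ) i).hasFDerivAt.comp x hd
      have hd2 : HasFDerivAt g ((EuclideanSpace.proj (𝕜 := ℝ) i).comp (fderiv ℝ f x)) x := by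
        apply hd1.congr_of_eventuallyEq
        filter_upwards [Metric.closedBall_mem_nhds_of_mem hxr] with y hy
        exact (hgf hy).symm
      rw [hd2.differentiableAt.lineDeriv_eq_fderiv, hd2.fderiv]
      simp [mul_comm]
    · rw [image_eq_zero_of_notMem_tsupport hxs]; simp
  rw [k1, k2] at key
  linarith

/-- Target. -/
theorem transfer (F : E → E) (p : E) (K : ℝ) (hK : 1 ≤ K)
    (hLip : ∀ ε : ℝ, 0 < ε → ∃ C : NNReal, LipschitzOnWith C F {y : E | ε ≤ y 2})
    (hgood : ∀ᵐ y : E ∂volume, 0 < y 2 →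
      ∃ A : E →L[ℝ] E, HasFDerivAt F A y ∧ ‖A‖ ^ 3 ≤ K * ContinuousLinearMap.det A)
    (hfar : ∀ y : E, 0 < y 2 → 1 ≤ dist (F y) p) :
    ContinuousOn (fball F p) (Metric.ball (0 : E) 1) ∧
    (∃ M : ℝ, ∀ x ∈ Metric.ball (0 : E) 1, ‖fball F p x‖ ≤ M) ∧
    (∃ Df : E → (E →L[ℝ] E),
      AEStronglyMeasurable Df (volume : Measure E) ∧
      (∀ K : Set E, IsCompact K → K ⊆ Metric.ball (0 : E) 1 →
          IntegrableOn (fun x => ‖Df x‖ ^ 3) K volume) ∧
      (∀ φ : E → ℝ, ContDiff ℝ 1 φ → HasCompactSupport φ →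
          tsupport φ ⊆ Metric.ball (0 : E) 1 →
          ∀ v : E, ∫ x, (fderiv ℝ φ x v) • fball F p x = - ∫ x, φ x • (Df x v)) ∧
      (∃ K : ℝ, 1 ≤ K ∧
          ∀ᵐ x ∂(volume.restrict (Metric.ball (0 : E) 1)),
            ‖Df x‖ ^ 3 ≤ K * ContinuousLinearMap.det (Df x))) := by
  have hlip : ∀ r : ℝ, 0 ≤ r → r < 1 → ∃ C : NNReal, LipschitzOnWith C (fball F p) (Metric.closedBall (0 : E) r) :=
    fun r hr0 hr => fball_lip F p hLip hfar hr0 hr
  have hfm : AEStronglyMeasurable (fderiv ℝ (fball F p)) (volume : Measure E) :=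
    (measurable_fderiv ℝ (fball F p)).aestronglyMeasurable
  have hae : ∀ᵐ x ∂(volume : Measure E), ‖x‖ < 1 → (DifferentiableAt ℝ (fball F p) x ∧
      ‖fderiv ℝ (fball F p) x‖ ^ 3 ≤ K * ContinuousLinearMap.det (fderiv ℝ (fball F p) x)) := by
    set N : Set E := {y : E | ¬ (0 < y 2 →
      ∃ A : E →L[ℝ] E, HasFDerivAt F A y ∧ ‖A‖ ^ 3 ≤ K * ContinuousLinearMap.det A)} with hN
    have hN0 : volume N = 0 := ae_iff.1 hgood
    have hNp : ∀ y ∈ N, y ≠ pole := by
      rintro y hy rfl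
      rw [hN, Set.mem_ofPred_eq] at hy
      push Not at hy
      have := hy.1
      simp [pole] at this
      linarith
    have hJN : volume (J '' N) = 0 := by
      apply addHaar_image_eq_zero_of_differentiableOn_of_addHaar_eq_zero _ _ hN0
      intro y hy
      exact (EuclideanGeometry.hasFDerivAt_inversion (hNp y hy)).differentiableAt.differentiableWithinAt
    have : ∀ᵐ x ∂(volume : Measure E), x ∉ J '' N := by
      rw [ae_iff]
      have e : {a : E | ¬ a ∉ J '' N} = J '' N := by ext a; simp only [not_not]; rfl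
      rw [e]
      exact hJN
    filter_upwards [this] with x hx hx1
    apply fball_deriv F p K hx1 hfar
    by_contra hcon
    apply hx
    refine ⟨J x, ?_, EuclideanGeometry.inversion_inversion pole (by positivity) x⟩
    rw [hN, Set.mem_ofPred_eq]
    intro h
    exact hcon (h (J_two_pos hx1))
  refine ⟨?_, ?_, fderiv ℝ (fball F p), hfm, ?_, ?_, ?_⟩
  · intro x hx
    rw [mem_ball_zero_iff] at hx
    obtain ⟨C, hC⟩ := hlip ((1 + ‖x‖) / 2) (by positivity) (by linarith)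
    have : Metric.closedBall (0 : E) ((1 + ‖x‖) / 2) ∈ 𝓝 x :=
      Metric.closedBall_mem_nhds_of_mem (by rw [mem_ball_zero_iff]; linarith)
    exact (hC.continuousOn.continuousAt this).continuousWithinAt
  · refine ⟨1 + ‖p‖, fun x hx => ?_⟩
    rw [mem_ball_zero_iff] at hx
    have h1 := hfar _ (J_two_pos hx)
    have h2 : dist (fball F p x) p = 1 ^ 2 / dist (F (J x)) p := EuclideanGeometry.dist_inversion_center _ _ _
    have h3 : dist (fball F p x) p ≤ 1 := by
      rw [h2, div_le_one (by linarith)]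
      simpa using h1
    have h4 : dist (fball F p x) 0 ≤ dist (fball F p x) p + dist p 0 := dist_triangle _ _ _
    rw [dist_zero_right, dist_zero_right] at h4
    linarith
  · intro S hS hSb
    obtain ⟨r0, hr0, hsr0⟩ := exists_lt_subset_ball hS.isClosed hSb
    obtain ⟨r, hr, hr1, hsr⟩ : ∃ r : ℝ, 0 ≤ r ∧ r < 1 ∧ S ⊆ Metric.ball (0 : E) r :=
      ⟨max r0 0, le_max_right _ _, max_lt hr0 one_pos, hsr0.trans (Metric.ball_subset_ball (le_max_left _ _))⟩
    obtain ⟨C, hC⟩ := hlip r hr hr1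
    refine Measure.integrableOn_of_bounded (M := (C : ℝ) ^ 3) hS.measure_lt_top.ne ?_ ?_
    · exact (hfm.norm.pow 3)
    · filter_upwards [ae_restrict_mem hS.measurableSet] with x hx
      rw [norm_pow, norm_norm]
      have := norm_fderiv_le_of_lipschitzOn ℝ (Metric.closedBall_mem_nhds_of_mem (hsr hx)) hC
      gcongr
  · intro φ hφ hc hs v
    exact weak_deriv (fball F p) hfm hlip (hae.mono fun x hx h => (hx h).1) φ hφ hc hs v
  · refine ⟨K, hK, ?_⟩
    filter_upwards [ae_restrict_of_ae hae, ae_restrict_mem measurableSet_ball] with x hx hxb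
    rw [mem_ball_zero_iff] at hxb
    exact (hx hxb).2

end Pool.Agent.Helper746.Transfer
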