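import Pool.Agent.Helper746.Osc
import Pool.Agent.Helper746.Dir
import Pool.Agent.Helper746.Transfer

set_option autoImplicit false
open MeasureTheory Filter Topology

namespace Pool.Agent.Helper746

/-- the counterexample on the unit ball -/
noncomputable def ff : E → E := Transfer.fball FF p0

lemma ff_dist {a b : E} (ha : 0 < (Transfer.J a) 2) (hb : 0 < (Transfer.J b) 2)
    (h : 4 / 10 ≤ ‖FF (Transfer.J a) - FF (Transfer.J b)‖) (ha' : ‖FF (Transfer.J a)‖ ≤ 100003)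
    (hb' : ‖FF (Transfer.J b)‖ ≤ 100003) : 2 / 10 ^ 13 < dist (ff a) (ff b) := by
  unfold ff Transfer.fball
  have h1 := FF_far _ ha
  have h2 := FF_far _ hb
  have n1 : FF (Transfer.J a) ≠ p0 := by intro hh; rw [hh, dist_self] at h1; linarith
  have n2 : FF (Transfer.J b) ≠ p0 := by intro hh; rw [hh, dist_self] at h2; linarith
  rw [EuclideanGeometry.dist_inversion_inversion n1 n2, dist_eq_norm (FF (Transfer.J a))
    (FF (Transfer.J b))]
  have hp : ‖p0‖ ≤ 1000000 := by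
    apply norm_le_of_sq (by norm_num); simp [dt, p0]; norm_num
  have u1 : dist (FF (Transfer.J a)) p0 ≤ 1100003 := by
    rw [dist_eq_norm]; exact (norm_sub_le _ _).trans (by linarith)
  have u2 : dist (FF (Transfer.J b)) p0 ≤ 1100003 := by
    rw [dist_eq_norm]; exact (norm_sub_le _ _).trans (by linarith)
  have u3 : dist (FF (Transfer.J a)) p0 * dist (FF (Transfer.J b)) p0 ≤ 1100003 * 1100003 :=
    mul_le_mul u1 u2 dist_nonneg (by norm_num)
  have u4 : 0 < dist (FF (Transfer.J a)) p0 * dist (FF (Transfer.J b)) p0 := by positivity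
  have u5 : (1 : ℝ) / (1100003 * 1100003) ≤
      1 ^ 2 / (dist (FF (Transfer.J a)) p0 * dist (FF (Transfer.J b)) p0) := by
    rw [one_pow]; exact one_div_le_one_div_of_le u4 u3
  calc (2 : ℝ) / 10 ^ 13 < 1 / (1100003 * 1100003) * (4 / 10) := by norm_num
    _ ≤ _ := mul_le_mul u5 h (by norm_num) (by positivity)

theorem no_limit {x : E} (hx : 0 < x 2)
    (hS : ∀ n : ℕ, ∃ k, n ≤ k ∧ SS k (Meas.idx k (x 0 / (‖x‖ + x 2)))
      (Meas.idx k (x 1 / (‖x‖ + x 2)))) :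
    ¬ ∃ L : E, Tendsto (fun r : ℝ => ff (r • (‖x‖⁻¹ • x))) (𝓝[Set.Iio 1] 1) (𝓝 L) := by
  rintro ⟨L, hL⟩
  have hx0 : x ≠ 0 := by rintro rfl; simp at hx
  have hn : 0 < ‖x‖ := norm_pos_iff.2 hx0
  obtain ⟨w, hw⟩ : ∃ w : E, w = ‖x‖⁻¹ • x := ⟨_, rfl⟩
  rw [← hw] at hL
  have hw1 : ‖w‖ = 1 := by rw [hw, norm_smul, norm_inv, norm_norm, inv_mul_cancel₀ hn.ne']
  have hwi : ∀ i, w i = x i / ‖x‖ := by intro i; rw [hw]; simp [div_eq_inv_mul]
  have hw2 : 0 < w 2 := by rw [hwi]; positivity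
  have habs : ∀ i, |w i| ≤ 1 := by
    intro i
    have := PiLp.norm_apply_le w i
    rwa [hw1, Real.norm_eq_abs] at this
  have hw2' : w 2 ≤ 1 := (le_abs_self _).trans (habs 2)
  have hxi : ∀ i, x i / (‖x‖ + x 2) = w i / (1 + w 2) := by
    intro i; rw [hwi, hwi]; field_simp
  rw [hxi 0, hxi 1] at hS
  -- the projected point
  have hb : ∀ i, i ≠ 2 → |w i / (1 + w 2)| < 1 := by
    intro i _
    rw [abs_div, abs_of_pos (show 0 < 1 + w 2 by linarith), div_lt_one (by linarith)]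
    linarith [habs i]
  obtain ⟨x0, hx0'⟩ : ∃ t, t = w 0 / (1 + w 2) := ⟨_, rfl⟩
  obtain ⟨x1, hx1'⟩ : ∃ t, t = w 1 / (1 + w 2) := ⟨_, rfl⟩
  have hb0 := abs_lt.1 (hb 0 (by decide))
  have hb1 := abs_lt.1 (hb 1 (by decide))
  rw [← hx0'] at hS hb0
  rw [← hx1'] at hS hb1
  -- the radial coordinate
  obtain ⟨z, hz⟩ : ∃ z : ℝ → ℝ, z = fun r => (1 - r ^ 2) / (r ^ 2 + 1 + 2 * (r * w 2)) := ⟨_, rfl⟩
  have hD : ∀ r : ℝ, 0 ≤ r → 0 < r ^ 2 + 1 + 2 * (r * w 2) := by intro r hr; positivity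
  have hJ : ∀ r : ℝ, 0 ≤ r → r < 1 →
      (Transfer.J (r • w)) 2 = z r ∧
      (Transfer.J (r • w)) 0 = 2 * (r * w 0) / (r ^ 2 + 1 + 2 * (r * w 2)) ∧
      (Transfer.J (r • w)) 1 = 2 * (r * w 1) / (r ^ 2 + 1 + 2 * (r * w 2)) := by
    intro r h0 h1
    have hr : ‖r • w‖ = r := by rw [norm_smul, hw1, mul_one, Real.norm_of_nonneg h0]
    rw [Transfer.J_apply _ (by rw [hr]; exact h1), hr, hz]
    simp
  have hnear : ∀ (r t : ℝ), 0 ≤ r → r < 1 → |t| ≤ 1 →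
      |2 * (r * t) / (r ^ 2 + 1 + 2 * (r * w 2)) - t / (1 + w 2)| ≤ 4 * (z r) ^ 2 := by
    intro r t h0 h1 ht
    have hD' := hD r h0
    have e : 2 * (r * t) / (r ^ 2 + 1 + 2 * (r * w 2)) - t / (1 + w 2) =
        - (t * ((1 - r) ^ 2 / ((r ^ 2 + 1 + 2 * (r * w 2)) * (1 + w 2)))) := by
      have : 1 + w 2 ≠ 0 := by linarith
      field_simp
      ring
    rw [e, abs_neg, abs_mul]
    have hz' : z r = (1 - r) * ((1 + r) / (r ^ 2 + 1 + 2 * (r * w 2))) := by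
      rw [hz]; simp only []; ring
    have hD4 : r ^ 2 + 1 + 2 * (r * w 2) ≤ 4 := by nlinarith
    have a1 : (1 - r) ^ 2 / ((r ^ 2 + 1 + 2 * (r * w 2)) * (1 + w 2)) ≤
        (1 - r) ^ 2 / (r ^ 2 + 1 + 2 * (r * w 2)) := by
      apply div_le_div_of_nonneg_left (sq_nonneg _) hD'
      nlinarith
    have a2 : (1 - r) ^ 2 / (r ^ 2 + 1 + 2 * (r * w 2)) ≤ 4 * (z r) ^ 2 := by
      rw [hz', mul_pow, div_pow]
      rw [div_le_iff₀ hD']
      have : 4 * ((1 - r) ^ 2 * ((1 + r) ^ 2 / (r ^ 2 + 1 + 2 * (r * w 2)) ^ 2)) *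
          (r ^ 2 + 1 + 2 * (r * w 2)) =
          (1 - r) ^ 2 * (4 * (1 + r) ^ 2 / (r ^ 2 + 1 + 2 * (r * w 2))) := by
        field_simp
      rw [this]
      have h3 : 1 ≤ 4 * (1 + r) ^ 2 / (r ^ 2 + 1 + 2 * (r * w 2)) := by
        rw [le_div_iff₀ hD']; nlinarith
      nlinarith [sq_nonneg (1 - r)]
    have a3 : 0 ≤ (1 - r) ^ 2 / ((r ^ 2 + 1 + 2 * (r * w 2)) * (1 + w 2)) := by
      have : 0 < 1 + w 2 := by linarith
      positivity
    rw [abs_of_nonneg a3]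
    calc |t| * ((1 - r) ^ 2 / ((r ^ 2 + 1 + 2 * (r * w 2)) * (1 + w 2))) ≤
        1 * ((1 - r) ^ 2 / ((r ^ 2 + 1 + 2 * (r * w 2)) * (1 + w 2))) := by gcongr
      _ ≤ _ := by linarith
  -- use the limit
  rw [Metric.tendsto_nhdsWithin_nhds] at hL
  obtain ⟨δ, hδ, hL⟩ := hL (1 / 10 ^ 13) (by norm_num)
  obtain ⟨r0, hr0, hr0', hr0''⟩ : ∃ r0 : ℝ, 0 ≤ r0 ∧ r0 < 1 ∧ 1 - δ < r0 := by
    refine ⟨max 0 (1 - δ / 2), le_max_left _ _, max_lt (by norm_num) (by linarith), ?_⟩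
    exact lt_max_of_lt_right (by linarith)
  have hz0 : 0 < z r0 := by
    rw [hz]; have := hD r0 hr0
    simp only []
    apply div_pos _ this
    nlinarith
  have hz1 : z 1 = 0 := by rw [hz]; simp
  have hzc : ContinuousOn z (Set.Icc r0 1) := by
    rw [hz]
    apply ContinuousOn.div (by fun_prop) (by fun_prop)
    intro r hr
    exact (hD r (hr0.trans hr.1)).ne'
  obtain ⟨n, hn'⟩ : ∃ n : ℕ, 400 * rho n < z r0 := by
    obtain ⟨n, hn⟩ := exists_pow_lt_of_lt_one (show 0 < z r0 / 400 by positivity)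
      (show (1 / 1000 : ℝ) < 1 by norm_num)
    exact ⟨n, by unfold rho; linarith⟩
  obtain ⟨k, hk, hSk⟩ := hS (max n 2)
  have hkn : 400 * rho k < z r0 := by
    have := rho_anti ((le_max_left n 2).trans hk); linarith
  have hk2 : rho k ≤ 1 / 1000000 := by
    have := rho_anti ((le_max_right n 2).trans hk)
    have e : rho 2 = 1 / 1000000 := by unfold rho; norm_num
    linarith
  have hrk := rho_pos k
  obtain ⟨hi, oi⟩ := idx_over (k := k) hb0.1.le hb0.2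
  obtain ⟨hj, oj⟩ := idx_over (k := k) hb1.1.le hb1.2
  have hpt : ∀ v : ℝ, 0 < v → v ≤ 400 * rho k → ∃ r : ℝ, 0 ≤ r ∧ r < 1 ∧ 1 - δ < r ∧
      (Transfer.J (r • w)) 2 = v ∧
      |(Transfer.J (r • w)) 0 - ctr k (Meas.idx k x0)| ≤ 25 / 10 * rho k ∧
      |(Transfer.J (r • w)) 1 - ctr k (Meas.idx k x1)| ≤ 25 / 10 * rho k := by
    intro v hv hv'
    have hmem : v ∈ Set.Icc (z 1) (z r0) := ⟨by rw [hz1]; exact hv.le, by linarith⟩
    obtain ⟨r, hr, hrv⟩ := intermediate_value_Icc' hr0'.le hzc hmem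
    have hr1 : r < 1 := by
      rcases lt_or_eq_of_le hr.2 with h | h
      · exact h
      · rw [h, hz1] at hrv; linarith
    have hrr0 : 0 ≤ r := hr0.trans hr.1
    obtain ⟨j2, j0, j1⟩ := hJ r hrr0 hr1
    have hq : 4 * (z r) ^ 2 ≤ rho k := by
      rw [hrv]
      have : v ^ 2 ≤ (400 * rho k) ^ 2 := pow_le_pow_left₀ hv.le hv' 2
      nlinarith
    refine ⟨r, hrr0, hr1, by linarith [hr.1], by rw [j2, hrv], ?_, ?_⟩
    · have h1 := hnear r (w 0) hrr0 hr1 (habs 0)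
      rw [← j0, ← hx0'] at h1
      have h2 := abs_add_le ((Transfer.J (r • w)) 0 - x0) (x0 - ctr k (Meas.idx k x0))
      rw [sub_add_sub_cancel] at h2
      linarith
    · have h1 := hnear r (w 1) hrr0 hr1 (habs 1)
      rw [← j1, ← hx1'] at h1
      have h2 := abs_add_le ((Transfer.J (r • w)) 1 - x1) (x1 - ctr k (Meas.idx k x1))
      rw [sub_add_sub_cancel] at h2
      linarith
  obtain ⟨r1, a0, a1, a2, a3, a4, a5⟩ := hpt (400 * rho k) (by positivity) le_rfl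
  obtain ⟨r2, b0, b1, b2, b3, b4, b5⟩ := hpt (20 * rho k) (by positivity) (by linarith)
  obtain ⟨o1, o2, o3⟩ := osc hi hj hSk a4 a5 a3 b4 b5 b3
  have hd := ff_dist (a := r2 • w) (b := r1 • w) (by rw [b3]; positivity)
    (by rw [a3]; positivity) o1 o3 o2
  have l1 := hL (show r1 ∈ Set.Iio (1 : ℝ) from a1)
    (by rw [Real.dist_eq, abs_of_nonpos (by linarith)]; linarith)
  have l2 := hL (show r2 ∈ Set.Iio (1 : ℝ) from b1)
    (by rw [Real.dist_eq, abs_of_nonpos (by linarith)]; linarith)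
  have l3 := dist_triangle_right (ff (r2 • w)) (ff (r1 • w)) L
  have : (2 : ℝ) / 10 ^ 13 = 1 / 10 ^ 13 + 1 / 10 ^ 13 := by norm_num
  linarith

theorem ae_no_limit : ∀ᵐ x : E ∂volume, 0 < x 2 →
    ¬ ∃ L : E, Tendsto (fun r : ℝ => ff (r • (‖x‖⁻¹ • x))) (𝓝[Set.Iio 1] 1) (𝓝 L) := by
  have h := Dir.dir_ae (fun s t => ∀ n : ℕ, ∃ k, n ≤ k ∧ SS k (Meas.idx k s) (Meas.idx k t))
    ae_success
  filter_upwards [h] with x hx hx2
  exact no_limit hx2 (hx hx2)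

end Pool.Agent.Helper746
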