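import Pool.Agent.Helper746.GoodAt

set_option autoImplicit false
open MeasureTheory Filter Topology

namespace Pool.Agent.Helper746

/-- Lipschitz maps with an unspecified constant -/
def Lp {H : Type*} [NormedAddCommGroup H] (f : E → H) : Prop :=
  ∃ C : ℝ, ∀ x y : E, ‖f x - f y‖ ≤ C * ‖x - y‖

section
variable {H : Type*} [NormedAddCommGroup H] [NormedSpace ℝ H]

lemma Lp.const (v : H) : Lp (fun _ : E => v) := ⟨0, fun x y => by simp⟩

lemma Lp.add {f g : E → H} (hf : Lp f) (hg : Lp g) : Lp (fun p => f p + g p) := by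
  obtain ⟨C, hC⟩ := hf
  obtain ⟨D, hD⟩ := hg
  refine ⟨C + D, fun x y => ?_⟩
  have e : f x + g x - (f y + g y) = (f x - f y) + (g x - g y) := by abel
  rw [e, add_mul]
  exact (norm_add_le _ _).trans (add_le_add (hC x y) (hD x y))

lemma Lp.smul {f : E → ℝ} (hf : Lp f) (v : H) : Lp (fun p => f p • v) := by
  obtain ⟨C, hC⟩ := hf
  refine ⟨C * ‖v‖, fun x y => ?_⟩
  rw [← sub_smul, norm_smul]
  calc ‖f x - f y‖ * ‖v‖ ≤ (C * ‖x - y‖) * ‖v‖ :=
        mul_le_mul_of_nonneg_right (hC x y) (norm_nonneg _)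
    _ = _ := by ring

lemma Lp.sum {ι : Type*} (s : Finset ι) (f : ι → E → H) (hf : ∀ i ∈ s, Lp (f i)) :
    Lp (fun p => ∑ i ∈ s, f i p) := by
  classical
  induction s using Finset.induction_on with
  | empty => simpa using Lp.const (0 : H)
  | insert a s ha ih =>
    simp only [Finset.sum_insert ha]
    exact (hf a (Finset.mem_insert_self a s)).add
      (ih fun i hi => hf i (Finset.mem_insert_of_mem hi))
end

lemma Lp.mulc {f : E → ℝ} (hf : Lp f) (c : ℝ) : Lp (fun p => c * f p) := by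
  have := hf.smul c
  simpa [mul_comm] using this

lemma Lp.sub {f g : E → ℝ} (hf : Lp f) (hg : Lp g) : Lp (fun p => f p - g p) := by
  have := hf.add (hg.mulc (-1))
  simpa [sub_eq_add_neg] using this

lemma Lp.abs {f : E → ℝ} (hf : Lp f) : Lp (fun p => |f p|) := by
  obtain ⟨C, hC⟩ := hf
  exact ⟨C, fun x y => (abs_abs_sub_abs_le _ _).trans (hC x y)⟩

lemma Lp.max {f g : E → ℝ} (hf : Lp f) (hg : Lp g) : Lp (fun p => max (f p) (g p)) := by
  obtain ⟨C, hC⟩ := hf
  obtain ⟨D, hD⟩ := hg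
  refine ⟨C + D, fun x y => ?_⟩
  have h1 := abs_max_sub_max_le_max (f x) (g x) (f y) (g y)
  have h2 := hC x y
  have h3 := hD x y
  rw [Real.norm_eq_abs] at *
  rw [add_mul]
  refine h1.trans (max_le ?_ ?_)
  · linarith [abs_nonneg (g x - g y)]
  · linarith [abs_nonneg (f x - f y)]

lemma Lp.min {f g : E → ℝ} (hf : Lp f) (hg : Lp g) : Lp (fun p => min (f p) (g p)) := by
  obtain ⟨C, hC⟩ := hf
  obtain ⟨D, hD⟩ := hg
  refine ⟨C + D, fun x y => ?_⟩
  have h1 := abs_min_sub_min_le_max (f x) (g x) (f y) (g y)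
  have h2 := hC x y
  have h3 := hD x y
  rw [Real.norm_eq_abs] at *
  rw [add_mul]
  refine h1.trans (max_le ?_ ?_)
  · linarith [abs_nonneg (g x - g y)]
  · linarith [abs_nonneg (f x - f y)]

lemma Lp.coord (i : Fin 3) : Lp (fun p : E => p i) := by
  refine ⟨1, fun x y => ?_⟩
  have := PiLp.norm_apply_le (x - y) i
  simpa using this

lemma Lp_D (σ : St) : Lp σ.D := by
  unfold St.D
  apply Lp.smul
  have hx : Lp (fun p : E => |p 0 - σ.b1|) := ((Lp.coord 0).sub (Lp.const _)).abs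
  have hy : Lp (fun p : E => |p 1 - σ.b2|) := ((Lp.coord 1).sub (Lp.const _)).abs
  unfold St.hat
  cases σ.ph
  · exact (Lp.const _).max (((Lp.const _).sub (hx.max hy)).sub (Lp.coord 2))
  · exact (Lp.const _).max ((((Lp.const _).sub hx).sub hy).sub ((Lp.coord 2).mulc 8))
  · exact (Lp.coord 2).min ((Lp.const _).max (((Lp.const _).sub (hx.max hy)).sub
      ((Lp.coord 2).mulc 10)))

lemma Lp_Fp (n : ℕ) : Lp (Fp n) := by
  unfold Fp
  apply Lp.add
  · unfold St.L
    exact (((Lp.const _).add (((Lp.coord 0).sub (Lp.const _)).smul _)).add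
      (((Lp.coord 1).sub (Lp.const _)).smul _)).add ((Lp.coord 2).smul _)
  · apply Lp.sum
    intro m _
    unfold G
    apply Lp.sum
    intro i _
    apply Lp.sum
    intro j _
    unfold Dl
    split_ifs
    · exact Lp_D _
    · exact Lp.const _

theorem FF_lip (ε : ℝ) (hε : 0 < ε) : ∃ C : NNReal, LipschitzOnWith C FF {y : E | ε ≤ y 2} := by
  obtain ⟨C, hC⟩ := Lp_Fp ⌈1 / ε⌉₊
  refine ⟨C.toNNReal, LipschitzOnWith.of_dist_le_mul fun x hx y hy => ?_⟩
  have h := rho_ceil hε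
  rw [FF_eq (h.trans hx), FF_eq (h.trans hy), dist_eq_norm, dist_eq_norm]
  refine (hC x y).trans (mul_le_mul_of_nonneg_right (Real.le_coe_toNNReal C) (norm_nonneg _))

/-! ### Boundedness -/

lemma InP.bounds {σ : St} {p : E} (h : InP σ p) (hz : 0 ≤ p 2) :
    |p 0 - σ.b1| ≤ σ.r ∧ |p 1 - σ.b2| ≤ σ.r ∧ p 2 ≤ σ.r := by
  unfold InP at h
  have h1 := le_max_left |p 0 - σ.b1| |p 1 - σ.b2|
  have h2 := le_max_right |p 0 - σ.b1| |p 1 - σ.b2|
  have h3 := abs_nonneg (p 0 - σ.b1)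
  exact ⟨by linarith, by linarith, by linarith⟩

lemma hat_bounds {σ : St} {x y z : ℝ} (hz : 0 ≤ z) (hr : 0 ≤ σ.r) :
    0 ≤ σ.hat x y z ∧ σ.hat x y z ≤ σ.r := by
  unfold St.hat
  have h1 := abs_nonneg x
  have h2 := abs_nonneg y
  have h3 : 0 ≤ max |x| |y| := le_max_of_le_left h1
  cases σ.ph
  · exact ⟨le_max_left _ _, max_le hr (by linarith)⟩
  · exact ⟨le_max_left _ _, max_le hr (by linarith)⟩
  · exact ⟨le_min hz (le_max_left _ _), min_le_of_right_le (max_le hr (by linarith))⟩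

lemma LD_bound {σ : St} (hI : Inv σ) {p : E} (hz : 0 ≤ p 2) (hP : InP σ p) :
    ‖σ.L p + σ.D p‖ ≤ 100003 := by
  obtain ⟨hx, hy, hz'⟩ := hP.bounds hz
  have hB := hI.base
  obtain ⟨hh0, hh1⟩ := hat_bounds (σ := σ) (x := p 0 - σ.b1) (y := p 1 - σ.b2) hz hB.hr.le
  have h1r := hB.h1r
  have hs1 := hB.hs1
  have hr := hB.hr
  unfold St.L St.D
  set t := σ.hat (p 0 - σ.b1) (p 1 - σ.b2) (p 2) with ht
  set x := p 0 - σ.b1
  set y := p 1 - σ.b2
  have e : σ.f + x • σ.a + y • σ.b + p 2 • σ.c + t • σ.V =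
      (σ.f + x • σ.a + y • σ.b + t • σ.V) + p 2 • σ.c := by abel
  rw [e]
  have hc : ∀ k : ℝ, ‖σ.c‖ ≤ k * σ.s1 → 0 ≤ k → ‖p 2 • σ.c‖ ≤ k / 1000 := by
    intro k hk hk0
    rw [norm_smul, Real.norm_of_nonneg hz]
    calc p 2 * ‖σ.c‖ ≤ σ.r * (k * σ.s1) := mul_le_mul hz' hk (norm_nonneg _) hr.le
      _ = k * (σ.s1 * σ.r) := by ring
      _ ≤ k * (1 / 1000) := mul_le_mul_of_nonneg_left h1r hk0
      _ = _ := by ring
  have hs3 := hB.hs3
  have h12 := hB.h12
  have h23 := hB.h23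
  cases hp : σ.ph
  · have h := hI.invU hp
    have h1 := (U_range h hp hx hy t hh0 hh1).2
    have h2 := hc 6 (h.hc.trans (by linarith)) (by norm_num)
    exact (norm_add_le _ _).trans (by linarith)
  · have h := hI.invO hp
    have h1 := (O_range h hp hx hy t hh0 hh1).2
    have h2 := hc (14 / 10) h.norm_c (by norm_num)
    exact (norm_add_le _ _).trans (by linarith)
  · have h := hI.invC hp
    have h1 := h.hi x y hx hy
    have h2 := hc 20 h.norm_c (by norm_num)
    have h3 : ‖t • σ.V‖ ≤ 20 / 1000 := by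
      rw [norm_smul, Real.norm_of_nonneg hh0]
      calc t * ‖σ.V‖ ≤ σ.r * (20 * σ.s1) := mul_le_mul hh1 (h.norm_V hp) (norm_nonneg _) hr.le
        _ = 20 * (σ.s1 * σ.r) := by ring
        _ ≤ 20 * (1 / 1000) := mul_le_mul_of_nonneg_left h1r (by norm_num)
        _ = _ := by ring
    have h4 := norm_add_le (σ.f + x • σ.a + y • σ.b) (t • σ.V)
    exact (norm_add_le _ _).trans (by linarith)

open Meas in
/-- every point of the square lies over a square of generation `k` -/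
lemma exists_over (k : ℕ) {p : E} (h0 : |p 0| ≤ 1) (h1 : |p 1| ≤ 1) :
    ∃ i j, i < 1000 ^ k ∧ j < 1000 ^ k ∧ Over k i j p := by
  have key : ∀ t : ℝ, |t| ≤ 1 → ∃ i, i < 1000 ^ k ∧ |t - ctr k i| ≤ rho k := by
    intro t ht
    obtain ⟨ha, hb⟩ := abs_le.1 ht
    rcases lt_or_eq_of_le hb with hb | hb
    · obtain ⟨h1, h2⟩ := idx_over (k := k) ha hb
      exact ⟨_, h1, h2⟩
    · refine ⟨1000 ^ k - 1, Nat.sub_lt (by positivity) (by norm_num), ?_⟩
      have hm := rho_mul k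
      have h0 := rho_pos k
      unfold ctr
      have e : ((1000 ^ k - 1 : ℕ) : ℝ) = 1000 ^ k - 1 := by
        rw [Nat.cast_sub (Nat.one_le_pow _ _ (by norm_num))]; push_cast; ring
      rw [e, hb, abs_le]
      constructor <;> nlinarith
  obtain ⟨i, hi, oi⟩ := key _ h0
  obtain ⟨j, hj, oj⟩ := key _ h1
  exact ⟨i, j, hi, hj, oi, oj⟩

lemma G_eq_zero_of_notP {p : E} (hz : 0 ≤ p 2) (hP : ¬ InP st0 p) (k : ℕ) : G k p = 0 := by
  by_cases hout : 1 ≤ max |p 0| |p 1|
  · exact G_outside hz hout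
  · push Not at hout
    obtain ⟨h0, h1⟩ := max_lt_iff.1 hout
    obtain ⟨i, j, hi, hj, ho⟩ := exists_over k h0.le h1.le
    rw [G_over hi hj hz ho]
    unfold Dl
    split_ifs with ha
    · apply D_out hz
      by_contra hc
      push Not at hc
      exact hP (InP_zero k i j hi hj p hc.le)
    · rfl

lemma Fp_bound {p : E} (hz : 0 ≤ p 2) (hP : InP st0 p) : ∀ k : ℕ, ‖Fp (k + 1) p‖ ≤ 100003
  | 0 => by
    obtain ⟨h1, h2, -⟩ := hP.bounds hz
    have e1 : |p 0| ≤ 1 := by simpa [st0] using h1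
    have e2 : |p 1| ≤ 1 := by simpa [st0] using h2
    obtain ⟨i, j, hi, hj, ho⟩ := exists_over 0 e1 e2
    have hP' : InP (rc 0 i j) p := hP
    rw [Fp_eq 0 i j hi hj p hz ho hP']
    exact LD_bound (rc_inv 0 i j hi hj) hz hP'
  | k + 1 => by
    have ih := Fp_bound hz hP k
    obtain ⟨h1, h2, -⟩ := hP.bounds hz
    have e1 : |p 0| ≤ 1 := by simpa [st0] using h1
    have e2 : |p 1| ≤ 1 := by simpa [st0] using h2
    obtain ⟨i, j, hi, hj, ho⟩ := exists_over (k + 1) e1 e2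
    by_cases hQ : InP (rc (k + 1) i j) p
    · rw [Fp_eq (k + 1) i j hi hj p hz ho hQ]
      exact LD_bound (rc_inv (k + 1) i j hi hj) hz hQ
    · rw [Fp_succ]
      have : G (k + 1) p = 0 := by
        rw [G_over hi hj hz ho]
        unfold Dl
        split_ifs with ha
        · apply D_out hz
          unfold InP at hQ
          exact (not_le.1 hQ).le
        · rfl
      rw [this, add_zero]; exact ih

/-- centre of the second inversion -/
noncomputable def p0 : E := WithLp.toLp 2 ![0, 0, 1000000]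

theorem FF_far (y : E) (hz : 0 < y 2) : 1 ≤ dist (FF y) p0 := by
  rw [dist_eq_norm]
  by_cases hP : InP st0 y
  · have h1 : ‖FF y‖ ≤ 100003 := by
      have h := rho_ceil hz
      rw [FF_eq ((rho_anti (Nat.le_succ _)).trans h)]
      exact Fp_bound hz.le hP _
    have h2 : 1000000 ≤ ‖p0‖ := by
      apply le_norm_of_sq; simp [dt, p0]; norm_num
    have h3 : ‖p0‖ ≤ ‖FF y‖ + ‖FF y - p0‖ := by
      have := norm_sub_le (FF y) (FF y - p0)
      simpa using this
    linarith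
  · have h1 : FF y = st0.L y := by
      unfold FF Fp
      rw [Finset.sum_eq_zero (fun m _ => G_eq_zero_of_notP hz.le hP m), add_zero]
    have h2 := PiLp.norm_apply_le (FF y - p0) 2
    have h3 : (FF y - p0) 2 ≤ -1000000 := by
      rw [h1]
      simp [St.L, st0, p0]
      nlinarith
    rw [Real.norm_eq_abs, abs_of_nonpos (by linarith)] at h2
    linarith

end Pool.Agent.Helper746
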