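import Mathlib

set_option autoImplicit false
open MeasureTheory Filter Topology

namespace Pool.Agent.Helper746.Meas

/-- index of the generation `k` square (side `2 / 1000 ^ k`) of `(-1, 1)` containing `t` -/
noncomputable def idx (k : ℕ) (t : ℝ) : ℕ := ⌊(t + 1) / 2 * 1000 ^ k⌋₊

/-- interval of generation k -/
def J (k i : ℕ) : Set ℝ := Set.Ico (-1 + 2 * (i:ℝ) / 1000 ^ k) (-1 + 2 * ((i:ℝ) + 1) / 1000 ^ k)

theorem mem_J_iff {k i : ℕ} {t : ℝ} : t ∈ J k i ↔ -1 ≤ t ∧ idx k t = i := by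
  unfold J idx
  have hp : (0:ℝ) < 1000 ^ k := by positivity
  have hi : (0:ℝ) ≤ i := Nat.cast_nonneg i
  rw [Set.mem_Ico]
  constructor
  · rintro ⟨h1, h2⟩
    have h1' : 2 * (i:ℝ) / 1000 ^ k ≤ t + 1 := by linarith
    have h2' : t + 1 < 2 * ((i:ℝ) + 1) / 1000 ^ k := by linarith
    rw [div_le_iff₀ hp] at h1'
    rw [lt_div_iff₀ hp] at h2'
    have h0 : 0 ≤ t + 1 := by
      by_contra h
      push Not at h
      nlinarith
    refine ⟨by linarith, ?_⟩
    rw [Nat.floor_eq_iff (by positivity)]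
    constructor
    · linarith
    · linarith
  · rintro ⟨h0, h⟩
    rw [Nat.floor_eq_iff (mul_nonneg (by linarith) hp.le)] at h
    obtain ⟨h1, h2⟩ := h
    have h1' : 2 * (i:ℝ) / 1000 ^ k ≤ t + 1 := by
      rw [div_le_iff₀ hp]; linarith
    have h2' : t + 1 < 2 * ((i:ℝ) + 1) / 1000 ^ k := by
      rw [lt_div_iff₀ hp]; linarith
    constructor
    · linarith
    · linarith

theorem idx_div (k m : ℕ) (t : ℝ) : idx (k + m) t / 1000 ^ m = idx k t := by
  unfold idx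
  have := Nat.floor_div_natCast ((t + 1) / 2 * 1000 ^ (k + m)) (1000 ^ m)
  rw [← this]
  congr 1
  push_cast
  rw [pow_add]
  have : (1000:ℝ) ^ m ≠ 0 := by positivity
  field_simp

theorem idx_lt {k : ℕ} {t : ℝ} (h1 : -1 ≤ t) (h2 : t < 1) : idx k t < 1000 ^ k := by
  unfold idx
  have hp : (0:ℝ) < 1000 ^ k := by positivity
  rw [Nat.floor_lt (mul_nonneg (by linarith) hp.le)]
  push_cast
  have : (t + 1) / 2 < 1 := by linarith
  nlinarith

/-- the square -/
def Q (k i j : ℕ) : Set (ℝ × ℝ) := J k i ×ˢ J k j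

theorem vol_Q (k i j : ℕ) : volume (Q k i j) = ENNReal.ofReal (4 / (1000 ^ k) ^ 2) := by
  unfold Q J
  rw [Measure.volume_eq_prod, Measure.prod_prod, Real.volume_Ico, Real.volume_Ico, ← ENNReal.ofReal_mul']
  · congr 1
    have : (1000:ℝ) ^ k ≠ 0 := by positivity
    field_simp
    ring
  · have : (0:ℝ) < 1000 ^ k := by positivity
    have e : (-1 + 2 * ((j:ℝ) + 1) / 1000 ^ k) - (-1 + 2 * (j:ℝ) / 1000 ^ k) = 2 / 1000 ^ k := by
      field_simp; ring
    rw [e]; positivity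

/-- no success in the next 4 n generations -/
def NS (S : ℕ → ℕ → ℕ → Prop) (k i j n : ℕ) : Set (ℝ × ℝ) :=
  {p | p ∈ Q k i j ∧ ∀ l, k < l → l ≤ k + 4 * n → ¬ S l (idx l p.1) (idx l p.2)}

open Finset in
theorem union_bound {A : ℕ} (P : ℕ × ℕ → Set (ℝ × ℝ)) (x : ℕ × ℕ) (hx : x ∈ range A ×ˢ range A)
    {c₁ c₂ : ℝ} (hc₁ : 0 ≤ c₁) (hc₂ : 0 ≤ c₂) (h1 : ∀ y ∈ range A ×ˢ range A, volume (P y) ≤ ENNReal.ofReal c₁)
    (h2 : volume (P x) ≤ ENNReal.ofReal c₂) :
    volume (⋃ y ∈ range A ×ˢ range A, P y) ≤ ENNReal.ofReal (c₂ + ((A:ℝ) ^ 2 - 1) * c₁) := by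
  refine (measure_biUnion_finset_le _ _).trans ?_
  rw [← Finset.add_sum_erase _ _ hx]
  have h3 : ∑ y ∈ (range A ×ˢ range A).erase x, volume (P y) ≤ (((range A ×ˢ range A).erase x).card) • ENNReal.ofReal c₁ :=
    Finset.sum_le_card_nsmul _ _ _ (fun y hy => h1 y (Finset.mem_of_mem_erase hy))
  have hA : 1 ≤ A := by
    have := (Finset.mem_product.mp hx).1
    have := Finset.mem_range.mp this
    omega
  have hcard : ((((range A ×ˢ range A).erase x).card : ℕ) : ℝ) = (A:ℝ) ^ 2 - 1 := by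
    rw [Finset.card_erase_of_mem hx, Finset.card_product, Finset.card_range]
    have : 1 ≤ A * A := Nat.mul_pos hA hA
    rw [Nat.cast_sub this]
    push_cast; ring
  have hc0 : 0 ≤ ((A:ℝ) ^ 2 - 1) := by rw [← hcard]; exact Nat.cast_nonneg _
  rw [ENNReal.ofReal_add hc₂ (mul_nonneg hc0 hc₁)]
  apply add_le_add h2
  refine h3.trans (le_of_eq ?_)
  rw [← hcard, nsmul_eq_mul, ENNReal.ofReal_mul (Nat.cast_nonneg _), ENNReal.ofReal_natCast]


theorem D_four (D : ℕ → ℕ → ℕ → ℝ)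
    (hD2 : ∀ k i j, i < 1000 ^ (k + 1) → j < 1000 ^ (k + 1) →
      D (k + 1) i j ≤ 1000 * D k (i / 1000) (j / 1000)) (k I J : ℕ) (hI : I < 1000 ^ (k + 4))
    (hJ : J < 1000 ^ (k + 4)) : D (k + 4) I J ≤ 1000 ^ 4 * D k (I / 1000 ^ 4) (J / 1000 ^ 4) := by
  have step : ∀ (m x : ℕ), x < 1000 ^ (m + 1) → x / 1000 < 1000 ^ m := by
    intro m x hx
    rw [Nat.div_lt_iff_lt_mul (by norm_num)]
    rw [pow_succ] at hx
    exact hx
  have h1 := hD2 (k + 3) I J hI hJ
  have h2 := hD2 (k + 2) (I / 1000) (J / 1000) (step _ _ hI) (step _ _ hJ)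
  have h3 := hD2 (k + 1) (I / 1000 / 1000) (J / 1000 / 1000) (step _ _ (step _ _ hI)) (step _ _ (step _ _ hJ))
  have h4 := hD2 k (I / 1000 / 1000 / 1000) (J / 1000 / 1000 / 1000) (step _ _ (step _ _ (step _ _ hI)))
    (step _ _ (step _ _ (step _ _ hJ)))
  have e : ∀ x : ℕ, x / 1000 / 1000 / 1000 / 1000 = x / 1000 ^ 4 := by
    intro x
    rw [Nat.div_div_eq_div_mul, Nat.div_div_eq_div_mul, Nat.div_div_eq_div_mul]
    congr 1
  rw [e, e] at h4
  linarith

theorem claim (N : ℕ) (hN : 1 ≤ N)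
    (hN2 : (2 : ℝ) ≤ (1 + 1 / (4 * 1000 ^ 8)) ^ (N - 1))
    (D : ℕ → ℕ → ℕ → ℝ) (S : ℕ → ℕ → ℕ → Prop)
    (hD1 : ∀ k i j, i < 1000 ^ k → j < 1000 ^ k → 1 ≤ D k i j)
    (hD4 : ∀ k I J, I < 1000 ^ (k + 4) → J < 1000 ^ (k + 4) →
      D (k + 4) I J ≤ 1000 ^ 4 * D k (I / 1000 ^ 4) (J / 1000 ^ 4))
    (A α β : ℕ) (hA : A = 1000 ^ 4) (hα : α < A) (hβ : β < A)
    (hD3 : ∀ k i j, i < 1000 ^ k → j < 1000 ^ k →
      (∃ m, 1 ≤ m ∧ m ≤ 4 ∧ S (k + m) ((A * i + α) / 1000 ^ (4 - m))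
        ((A * j + β) / 1000 ^ (4 - m))) ∨
      D (k + 4) (A * i + α) (A * j + β) * (1000 ^ 4) ^ N ≤ 1000 ^ 4 * D k i j) (n : ℕ) :
    ∀ k i j L : ℕ, i < 1000 ^ k → j < 1000 ^ k → D k i j ≤ (1000 ^ 4) ^ L →
      volume (NS S k i j n) ≤ ENNReal.ofReal (4 / (1000 ^ k) ^ 2 * (1 - 1 / (4 * 1000 ^ 8)) ^ n * (1 + 1 / (4 * 1000 ^ 8)) ^ L) := by
  set y : ℝ := 1 + 1 / (4 * 1000 ^ 8) with hy
  set lam : ℝ := 1 - 1 / (4 * 1000 ^ 8) with hlam
  have hy1 : 1 ≤ y := by rw [hy]; norm_num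
  have hlam0 : 0 < lam := by rw [hlam]; norm_num
  induction n with
  | zero =>
    intro k i j L hi hj hD
    have h1 : NS S k i j 0 ⊆ Q k i j := fun p hp => hp.1
    refine (measure_mono h1).trans ?_
    rw [vol_Q, pow_zero, mul_one]
    apply ENNReal.ofReal_le_ofReal
    have : 1 ≤ y ^ L := one_le_pow₀ hy1
    have h4 : (0:ℝ) ≤ 4 / (1000 ^ k) ^ 2 := by positivity
    exact le_mul_of_one_le_right h4 this
  | succ n ih =>
    intro k i j L hi hj hD
    -- the pieces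
    set P : ℕ × ℕ → Set (ℝ × ℝ) := fun x => NS S k i j (n + 1) ∩ Q (k + 4) (A * i + x.1) (A * j + x.2) with hP
    have hcover : NS S k i j (n + 1) ⊆ ⋃ x ∈ Finset.range A ×ˢ Finset.range A, P x := by
      intro p hp
      have hp1 : p.1 ∈ J k i := hp.1.1
      have hp2 : p.2 ∈ J k j := hp.1.2
      rw [mem_J_iff] at hp1 hp2
      have e1 := idx_div k 4 p.1
      have e2 := idx_div k 4 p.2
      rw [hp1.2, ← hA] at e1
      rw [hp2.2, ← hA] at e2
      have m1 := Nat.div_add_mod (idx (k + 4) p.1) A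
      have m2 := Nat.div_add_mod (idx (k + 4) p.2) A
      rw [e1] at m1
      rw [e2] at m2
      have hA0 : 0 < A := by rw [hA]; positivity
      rw [Set.mem_iUnion₂]
      refine ⟨(idx (k + 4) p.1 % A, idx (k + 4) p.2 % A), ?_, hp, ?_, ?_⟩
      · rw [Finset.mem_product, Finset.mem_range, Finset.mem_range]
        exact ⟨Nat.mod_lt _ hA0, Nat.mod_lt _ hA0⟩
      · rw [mem_J_iff]
        exact ⟨hp1.1, m1.symm⟩
      · rw [mem_J_iff]
        exact ⟨hp2.1, m2.symm⟩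
    have hsub : ∀ x : ℕ × ℕ, P x ⊆ NS S (k + 4) (A * i + x.1) (A * j + x.2) n := by
      intro x p hp
      refine ⟨hp.2, ?_⟩
      intro l hl1 hl2
      exact hp.1.2 l (by omega) (by omega)
    have hlt : ∀ (i x : ℕ), i < 1000 ^ k → x < A → A * i + x < 1000 ^ (k + 4) := by
      intro i x hi hx
      have : 1000 ^ (k + 4) = A * 1000 ^ k := by rw [hA, pow_add]; ring
      rw [this]
      calc A * i + x < A * i + A := by omega
        _ = A * (i + 1) := by ring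
        _ ≤ A * 1000 ^ k := Nat.mul_le_mul_left _ (by omega)
    have hA0 : 0 < A := by rw [hA]; positivity
    have hdiv : ∀ (i x : ℕ), x < A → (A * i + x) / 1000 ^ 4 = i := by
      intro i x hx
      rw [← hA, Nat.mul_add_div hA0, Nat.div_eq_of_lt hx, add_zero]
    have hDgen : ∀ a b : ℕ, a < A → b < A → D (k + 4) (A * i + a) (A * j + b) ≤ 1000 ^ 4 * D k i j := by
      intro a b ha hb
      have := hD4 k (A * i + a) (A * j + b) (hlt _ _ hi ha) (hlt _ _ hj hb)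
      rwa [hdiv _ _ ha, hdiv _ _ hb] at this
    have hwk : (4:ℝ) / (1000 ^ (k + 4)) ^ 2 = 4 / (1000 ^ k) ^ 2 * (1 / 1000 ^ 8) := by
      rw [pow_add]
      have : (1000:ℝ) ^ k ≠ 0 := by positivity
      field_simp
    have hmul : (1000:ℝ) ^ 4 * D k i j ≤ (1000 ^ 4) ^ (L + 1) := by
      rw [pow_succ, mul_comm]
      exact mul_le_mul_of_nonneg_right hD (by positivity)
    set W : ℝ := 4 / (1000 ^ k) ^ 2 with hW
    have hW0 : 0 < W := by positivity
    set c₁ : ℝ := W * (1 / 1000 ^ 8) * lam ^ n * y ^ (L + 1) with hc₁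
    set c₂ : ℝ := W * (1 / 1000 ^ 8) * lam ^ n * y ^ L / 2 with hc₂
    have hc₁0 : 0 ≤ c₁ := by positivity
    have hc₂0 : 0 ≤ c₂ := by positivity
    have hgen : ∀ x ∈ Finset.range A ×ˢ Finset.range A, volume (P x) ≤ ENNReal.ofReal c₁ := by
      rintro ⟨a, b⟩ hab
      rw [Finset.mem_product, Finset.mem_range, Finset.mem_range] at hab
      refine (measure_mono (hsub (a, b))).trans ?_
      have := ih (k + 4) (A * i + a) (A * j + b) (L + 1) (hlt _ _ hi hab.1) (hlt _ _ hj hab.2) (by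
        exact (hDgen a b hab.1 hab.2).trans hmul)
      rwa [hwk] at this
    have hspec : volume (P (α, β)) ≤ ENNReal.ofReal c₂ := by
      rcases hD3 k i j hi hj with ⟨m, hm1, hm2, hS⟩ | hD'
      · have : P (α, β) = ∅ := by
          rw [Set.eq_empty_iff_forall_notMem]
          intro p hp
          have hp1 : p.1 ∈ J (k + 4) (A * i + α) := hp.2.1
          have hp2 : p.2 ∈ J (k + 4) (A * j + β) := hp.2.2
          rw [mem_J_iff] at hp1 hp2
          have e1 := idx_div (k + m) (4 - m) p.1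
          have e2 := idx_div (k + m) (4 - m) p.2
          rw [show k + m + (4 - m) = k + 4 by omega] at e1 e2
          rw [hp1.2] at e1
          rw [hp2.2] at e2
          rw [e1, e2] at hS
          exact hp.1.2 (k + m) (by omega) (by omega) hS
        rw [this, measure_empty]
        exact zero_le
      · have hD1' := hD1 (k + 4) (A * i + α) (A * j + β) (hlt _ _ hi hα) (hlt _ _ hj hβ)
        have hb : D (k + 4) (A * i + α) (A * j + β) * (1000 ^ 4) ^ N ≤ (1000 ^ 4) ^ (L + 1) := by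
          exact hD'.trans hmul
        have hNL : N ≤ L + 1 := by
          by_contra h
          push Not at h
          have h1 : ((1000:ℝ) ^ 4) ^ (L + 1) < (1000 ^ 4) ^ N := pow_lt_pow_right₀ (by norm_num) h
          have h2 : (0:ℝ) < (1000 ^ 4) ^ N := by positivity
          nlinarith
        have hb2 : D (k + 4) (A * i + α) (A * j + β) ≤ (1000 ^ 4) ^ (L + 1 - N) := by
          have h2 : (0:ℝ) < (1000 ^ 4) ^ N := by positivity
          rw [← mul_le_mul_iff_left₀ h2, ← pow_add, Nat.sub_add_cancel hNL]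
          exact hb
        refine (measure_mono (hsub (α, β))).trans ?_
        have := ih (k + 4) (A * i + α) (A * j + β) (L + 1 - N) (hlt _ _ hi hα) (hlt _ _ hj hβ) hb2
        rw [hwk] at this
        refine this.trans (ENNReal.ofReal_le_ofReal ?_)
        have hy' : y ^ (L + 1 - N) ≤ y ^ L / 2 := by
          have h3 : y ^ L = y ^ (L + 1 - N) * y ^ (N - 1) := by
            rw [← pow_add]; congr 1; omega
          have h4 : 0 < y ^ (L + 1 - N) := by positivity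
          have h5 : y ^ (L + 1 - N) * 2 ≤ y ^ (L + 1 - N) * y ^ (N - 1) :=
            mul_le_mul_of_nonneg_left hN2 h4.le
          have h6 : y ^ (L + 1 - N) * 2 ≤ y ^ L := by
            calc y ^ (L + 1 - N) * 2 ≤ y ^ (L + 1 - N) * y ^ (N - 1) := h5
              _ = y ^ L := h3.symm
          exact (le_div_iff₀ (by norm_num : (0:ℝ) < 2)).mpr h6
        calc W * (1 / 1000 ^ 8) * lam ^ n * y ^ (L + 1 - N) ≤ W * (1 / 1000 ^ 8) * lam ^ n * (y ^ L / 2) := by gcongr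
          _ = c₂ := by rw [hc₂]; ring
    have hx : (α, β) ∈ Finset.range A ×ˢ Finset.range A := by
      rw [Finset.mem_product, Finset.mem_range, Finset.mem_range]; exact ⟨hα, hβ⟩
    refine (measure_mono hcover).trans ((union_bound P (α, β) hx hc₁0 hc₂0 hgen hspec).trans ?_)
    apply ENNReal.ofReal_le_ofReal
    have hAR : (A:ℝ) ^ 2 = 1000 ^ 8 := by rw [hA]; push_cast; norm_num
    rw [hAR, hc₁, hc₂]
    have hkey : (1 - 1 / 1000 ^ 8) * y + (1 / 1000 ^ 8) / 2 ≤ lam := by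
      rw [hy, hlam]; norm_num
    have hB : 0 < W * lam ^ n * y ^ L := by positivity
    calc W * (1 / 1000 ^ 8) * lam ^ n * y ^ L / 2 + (1000 ^ 8 - 1) * (W * (1 / 1000 ^ 8) * lam ^ n * y ^ (L + 1)) =
        (W * lam ^ n * y ^ L) * ((1 - 1 / 1000 ^ 8) * y + (1 / 1000 ^ 8) / 2) := by
          rw [pow_succ y L]; ring
      _ ≤ (W * lam ^ n * y ^ L) * lam := by gcongr
      _ = W * lam ^ (n + 1) * y ^ L := by rw [pow_succ lam n]; ring

/-- Target: a supermartingale argument for a cascade of `1000`-adic squares.  `D k i j` is a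
potential of the square `(i, j)` of generation `k`, `S k i j` says that the square is successful.
In four generations the potential grows by at most `1000 ^ 4`; for the one special descendant
four generations below either one of the four descendants on the way is successful or the potential
is divided by the huge number `(1000 ^ 4) ^ (N - 1)`.  Then almost every point lies in infinitely
many successful squares. -/
theorem ae_frequently (N : ℕ) (hN : 1 ≤ N)
    (hN2 : (2 : ℝ) ≤ (1 + 1 / (4 * 1000 ^ 8)) ^ (N - 1))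
    (D : ℕ → ℕ → ℕ → ℝ) (S : ℕ → ℕ → ℕ → Prop)
    (hD1 : ∀ k i j, i < 1000 ^ k → j < 1000 ^ k → 1 ≤ D k i j)
    (hD2 : ∀ k i j, i < 1000 ^ (k + 1) → j < 1000 ^ (k + 1) →
      D (k + 1) i j ≤ 1000 * D k (i / 1000) (j / 1000))
    (hD3 : ∀ k i j, i < 1000 ^ k → j < 1000 ^ k →
      (∃ m, 1 ≤ m ∧ m ≤ 4 ∧ S (k + m) ((1000 ^ 4 * i + 749749749749) / 1000 ^ (4 - m))
        ((1000 ^ 4 * j + 624624624624) / 1000 ^ (4 - m))) ∨
      D (k + 4) (1000 ^ 4 * i + 749749749749) (1000 ^ 4 * j + 624624624624) *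
        (1000 ^ 4) ^ N ≤ 1000 ^ 4 * D k i j) :
    ∀ᵐ p : ℝ × ℝ ∂volume, |p.1| < 1 → |p.2| < 1 →
      ∀ n : ℕ, ∃ k, n ≤ k ∧ S k (idx k p.1) (idx k p.2) := by
  have hcl := fun n => claim N hN hN2 D S hD1 (D_four D hD2) (1000 ^ 4) 749749749749 624624624624 rfl
    (by norm_num) (by norm_num) hD3 n
  have hnull : ∀ k i j : ℕ, i < 1000 ^ k → j < 1000 ^ k →
      volume {p : ℝ × ℝ | p ∈ Q k i j ∧ ∀ l, k < l → ¬ S l (idx l p.1) (idx l p.2)} = 0 := by
    intro k i j hi hj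
    obtain ⟨L, hL⟩ := pow_unbounded_of_one_lt (D k i j) (by norm_num : (1:ℝ) < 1000 ^ 4)
    have hle : ∀ n : ℕ, volume {p : ℝ × ℝ | p ∈ Q k i j ∧ ∀ l, k < l → ¬ S l (idx l p.1) (idx l p.2)} ≤
        ENNReal.ofReal (4 / (1000 ^ k) ^ 2 * (1 - 1 / (4 * 1000 ^ 8)) ^ n * (1 + 1 / (4 * 1000 ^ 8)) ^ L) := by
      intro n
      refine (measure_mono ?_).trans (hcl n k i j L hi hj hL.le)
      intro p hp
      exact ⟨hp.1, fun l h1 _ => hp.2 l h1⟩
    have ht : Tendsto (fun n : ℕ => ENNReal.ofReal (4 / (1000 ^ k) ^ 2 * (1 - 1 / (4 * 1000 ^ 8)) ^ n * (1 + 1 / (4 * 1000 ^ 8)) ^ L))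
        atTop (𝓝 (ENNReal.ofReal (4 / (1000 ^ k) ^ 2 * 0 * (1 + 1 / (4 * 1000 ^ 8)) ^ L))) := by
      apply ENNReal.tendsto_ofReal
      apply Tendsto.mul_const
      apply Tendsto.const_mul
      exact tendsto_pow_atTop_nhds_zero_of_lt_one (by norm_num) (by norm_num)
    have h0 := ge_of_tendsto' ht hle
    rw [mul_zero, zero_mul, ENNReal.ofReal_zero] at h0
    exact le_antisymm h0 zero_le
  rw [ae_iff]
  refine measure_mono_null (t := ⋃ n : ℕ, ⋃ i : ℕ, ⋃ j : ℕ, ⋃ (_ : i < 1000 ^ n), ⋃ (_ : j < 1000 ^ n),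
    {p : ℝ × ℝ | p ∈ Q n i j ∧ ∀ l, n < l → ¬ S l (idx l p.1) (idx l p.2)}) ?_ ?_
  · intro p hp
    simp only [Set.mem_ofPred_eq, Classical.not_imp, not_forall, not_exists, not_and] at hp
    obtain ⟨h1, h2, n, hn⟩ := hp
    simp only [Set.mem_iUnion]
    rw [abs_lt] at h1 h2
    refine ⟨n, idx n p.1, idx n p.2, idx_lt h1.1.le h1.2, idx_lt h2.1.le h2.2, ⟨?_, ?_⟩, ?_⟩
    · exact mem_J_iff.mpr ⟨h1.1.le, rfl⟩
    · exact mem_J_iff.mpr ⟨h2.1.le, rfl⟩
    · intro l hl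
      exact hn l hl.le
  · simp only [measure_iUnion_null_iff]
    intro n i j hi hj
    exact hnull n i j hi hj

end Pool.Agent.Helper746.Meas
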