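import Pool.Agent.Helper746.Map
import Pool.Agent.Helper746.Meas

set_option autoImplicit false
open MeasureTheory Filter Topology

namespace Pool.Agent.Helper746

/-- `F` is affine near `y` with a good matrix -/
def GoodAt (F : E → E) (y : E) : Prop :=
  ∃ a b c q : E, Good a b c ∧ F =ᶠ[𝓝 y] fun p => q + p 0 • a + p 1 • b + p 2 • c

/-- points avoiding all rational planes -/
def Gen (y : E) : Prop := ∀ α β γ δ : ℚ, (α ≠ 0 ∨ β ≠ 0 ∨ γ ≠ 0) →
  (α : ℝ) * y 0 + β * y 1 + γ * y 2 ≠ δ

lemma plane_null (f : E →ₗ[ℝ] ℝ) (hf : ∃ v, f v ≠ 0) (δ : ℝ) :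
    (volume : Measure E) {p : E | f p = δ} = 0 := by
  by_cases hne : ∃ p₀, f p₀ = δ
  · obtain ⟨p₀, hp₀⟩ := hne
    have hs : (AffineSubspace.mk' p₀ (LinearMap.ker f)) ≠ ⊤ := by
      intro h
      obtain ⟨v, hv⟩ := hf
      have : p₀ + v ∈ AffineSubspace.mk' p₀ (LinearMap.ker f) := by rw [h]; trivial
      rw [AffineSubspace.mem_mk'] at this
      simp at this
      exact hv this
    have := Measure.addHaar_affineSubspace (volume : Measure E) _ hs
    convert this using 2
    ext p
    simp only [Set.mem_ofPred_eq, SetLike.mem_coe, AffineSubspace.mem_mk', LinearMap.mem_ker,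
      vsub_eq_sub, map_sub, hp₀, sub_eq_zero]
  · push Not at hne
    have : {p : E | f p = δ} = ∅ := by ext p; simp [hne p]
    rw [this, measure_empty]

/-- dot product as a linear map -/
noncomputable def dtl (v : E) : E →ₗ[ℝ] ℝ where
  toFun p := dt v p
  map_add' x y := dt_add_right x y v
  map_smul' r x := by simp

lemma ae_gen : ∀ᵐ y : E ∂volume, Gen y := by
  unfold Gen
  rw [ae_all_iff]; intro α
  rw [ae_all_iff]; intro β
  rw [ae_all_iff]; intro γ
  rw [ae_all_iff]; intro δ
  by_cases h : α ≠ 0 ∨ β ≠ 0 ∨ γ ≠ 0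
  · simp only [h, forall_const]
    rw [ae_iff]
    have hv : ∃ v, dtl (WithLp.toLp 2 ![(α : ℝ), β, γ]) v ≠ 0 := by
      refine ⟨WithLp.toLp 2 ![(α : ℝ), β, γ], ?_⟩
      change dt _ _ ≠ 0
      simp only [dt]
      have h0 : (0 : ℝ) < α ^ 2 + β ^ 2 + γ ^ 2 := by
        rcases h with h | h | h
        · have : (α : ℝ) ≠ 0 := by exact_mod_cast h
          positivity
        · have : (β : ℝ) ≠ 0 := by exact_mod_cast h
          positivity
        · have : (γ : ℝ) ≠ 0 := by exact_mod_cast h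
          positivity
      simp
      nlinarith
    have := plane_null _ hv (δ : ℝ)
    convert this using 2
    ext p
    simp [dtl, dt]
  · simp [h]

lemma Gen.rel {y : E} (hG : Gen y) {b1 b2 r : ℝ} {B1 B2 R : ℚ} (h1 : b1 = B1) (h2 : b2 = B2)
    (h3 : r = R) (e1 e2 c d : ℚ) (h : e1 ≠ 0 ∨ e2 ≠ 0 ∨ c ≠ 0) :
    (e1 : ℝ) * (y 0 - b1) + e2 * (y 1 - b2) + c * y 2 ≠ d * r := by
  intro he
  apply hG e1 e2 c (d * R + e1 * B1 + e2 * B2) h
  push_cast
  rw [h1, h2, h3] at he
  linarith

/-- the cell of the state has rational data -/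
def RatSt (σ : St) : Prop := ∃ B1 B2 R : ℚ, σ.b1 = B1 ∧ σ.b2 = B2 ∧ σ.r = R

lemma ctr_rat (k i : ℕ) : ∃ B : ℚ, ctr k i = B :=
  ⟨-1 + (2 * i + 1) * (1 / 1000) ^ k, by unfold ctr rho; push_cast; ring⟩

lemma rho_rat (k : ℕ) : ∃ B : ℚ, rho k = B :=
  ⟨(1 / 1000) ^ k, by unfold rho; push_cast; ring⟩

lemma ratSt {k i j : ℕ} (hi : i < 1000 ^ k) (hj : j < 1000 ^ k) (h : act k i j) :
    RatSt (rc k i j) := by
  obtain ⟨h1, h2, h3⟩ := act_cell hi hj h
  obtain ⟨B1, e1⟩ := ctr_rat k i
  obtain ⟨B2, e2⟩ := ctr_rat k j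
  obtain ⟨R, e3⟩ := rho_rat k
  exact ⟨B1, B2, R, by rw [h1, e1], by rw [h2, e2], by rw [h3, e3]⟩

lemma ev_sgn0 {b : ℝ} {y : E} (h : y 0 - b ≠ 0) :
    ∀ᶠ p in 𝓝 y, |p 0 - b| = sgn (y 0 - b) * (p 0 - b) := by
  have hc : ContinuousAt (fun p : E => p 0 - b) y := by fun_prop
  rcases lt_or_gt_of_ne h with h0 | h0
  · filter_upwards [hc.eventually_lt continuousAt_const h0] with p hp
    have : sgn (y 0 - b) = -1 := by unfold sgn; rw [if_neg (by linarith)]
    rw [this, abs_of_neg hp]; ring
  · filter_upwards [continuousAt_const.eventually_lt hc h0] with p hp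
    have : sgn (y 0 - b) = 1 := by unfold sgn; rw [if_pos h0]
    rw [this, abs_of_pos hp]; ring

lemma ev_sgn1 {b : ℝ} {y : E} (h : y 1 - b ≠ 0) :
    ∀ᶠ p in 𝓝 y, |p 1 - b| = sgn (y 1 - b) * (p 1 - b) := by
  have hc : ContinuousAt (fun p : E => p 1 - b) y := by fun_prop
  rcases lt_or_gt_of_ne h with h0 | h0
  · filter_upwards [hc.eventually_lt continuousAt_const h0] with p hp
    have : sgn (y 1 - b) = -1 := by unfold sgn; rw [if_neg (by linarith)]
    rw [this, abs_of_neg hp]; ring
  · filter_upwards [continuousAt_const.eventually_lt hc h0] with p hp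
    have : sgn (y 1 - b) = 1 := by unfold sgn; rw [if_pos h0]
    rw [this, abs_of_pos hp]; ring

lemma ev_max {b1 b2 : ℝ} {y : E} (h0 : y 0 - b1 ≠ 0) (h1 : y 1 - b2 ≠ 0)
    (h : |y 0 - b1| ≠ |y 1 - b2|) :
    ∀ᶠ p in 𝓝 y, max |p 0 - b1| |p 1 - b2| =
      m1 (y 0 - b1) (y 1 - b2) * (p 0 - b1) + m2 (y 0 - b1) (y 1 - b2) * (p 1 - b2) := by
  have c0 : ContinuousAt (fun p : E => |p 0 - b1|) y := by fun_prop
  have c1 : ContinuousAt (fun p : E => |p 1 - b2|) y := by fun_prop
  rcases lt_or_gt_of_ne h with hl | hl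
  · filter_upwards [c0.eventually_lt c1 hl, ev_sgn1 h1] with p hp hq
    unfold m1 m2
    rw [if_neg (by linarith), if_neg (by linarith), max_eq_right hp.le, hq]; ring
  · filter_upwards [c1.eventually_lt c0 hl, ev_sgn0 h0] with p hp hq
    unfold m1 m2
    rw [if_pos hl, if_pos hl, max_eq_left hp.le, hq]; ring

lemma goodAt_of_hat {σ : St} {y : E} {n1 n2 n3 h0 : ℝ}
    (hG : Good (σ.a - n1 • σ.V) (σ.b - n2 • σ.V) (σ.c - n3 • σ.V))
    (he : ∀ᶠ p in 𝓝 y, σ.hat (p 0 - σ.b1) (p 1 - σ.b2) (p 2) =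
      h0 - n1 * (p 0 - σ.b1) - n2 * (p 1 - σ.b2) - n3 * p 2) :
    GoodAt (fun p => σ.L p + σ.D p) y := by
  refine ⟨_, _, _, σ.f - σ.b1 • σ.a - σ.b2 • σ.b + (h0 + n1 * σ.b1 + n2 * σ.b2) • σ.V, hG, ?_⟩
  filter_upwards [he] with p hp
  unfold St.L St.D
  rw [hp]
  module

lemma goodAt_LD {σ : St} (hI : Inv σ) (hR : RatSt σ) {y : E} (hG : Gen y) (hz : 0 < y 2)
    (hin : max |y 0 - σ.b1| |y 1 - σ.b2| + y 2 < σ.r) :
    GoodAt (fun p => σ.L p + σ.D p) y := by
  obtain ⟨B1, B2, R, e1, e2, e3⟩ := hR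
  have hx : y 0 - σ.b1 ≠ 0 := by
    have := hG.rel e1 e2 e3 1 0 0 0 (by norm_num); intro h; apply this; simp [h]
  have hy : y 1 - σ.b2 ≠ 0 := by
    have := hG.rel e1 e2 e3 0 1 0 0 (by norm_num); intro h; apply this; simp [h]
  have hxy : |y 0 - σ.b1| ≠ |y 1 - σ.b2| := by
    intro h
    rcases abs_eq_abs.1 h with h | h
    · apply hG.rel e1 e2 e3 1 (-1) 0 0 (by norm_num); push_cast; rw [h]; ring
    · apply hG.rel e1 e2 e3 1 1 0 0 (by norm_num); push_cast; rw [h]; ring
  have hmaxne : ∀ c : ℚ, max |y 0 - σ.b1| |y 1 - σ.b2| + c * y 2 ≠ σ.r := by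
    intro c h
    rcases max_choice |y 0 - σ.b1| |y 1 - σ.b2| with hm | hm <;> rw [hm] at h
    · rcases abs_choice (y 0 - σ.b1) with ha | ha <;> rw [ha] at h
      · apply hG.rel e1 e2 e3 1 0 c 1 (by norm_num); push_cast; linarith
      · apply hG.rel e1 e2 e3 (-1) 0 c 1 (by norm_num); push_cast; linarith
    · rcases abs_choice (y 1 - σ.b2) with ha | ha <;> rw [ha] at h
      · apply hG.rel e1 e2 e3 0 1 c 1 (by norm_num); push_cast; linarith
      · apply hG.rel e1 e2 e3 0 (-1) c 1 (by norm_num); push_cast; linarith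
  have hsumne : |y 0 - σ.b1| + |y 1 - σ.b2| + 8 * y 2 ≠ σ.r := by
    intro h
    rcases abs_choice (y 0 - σ.b1) with ha | ha <;> rcases abs_choice (y 1 - σ.b2) with hb | hb <;>
      rw [ha, hb] at h
    · apply hG.rel e1 e2 e3 1 1 8 1 (by norm_num); push_cast; linarith
    · apply hG.rel e1 e2 e3 1 (-1) 8 1 (by norm_num); push_cast; linarith
    · apply hG.rel e1 e2 e3 (-1) 1 8 1 (by norm_num); push_cast; linarith
    · apply hG.rel e1 e2 e3 (-1) (-1) 8 1 (by norm_num); push_cast; linarith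
  have em := ev_max hx hy hxy
  have cz : ContinuousAt (fun p : E => p 2) y := by fun_prop
  have ez : ∀ᶠ p in 𝓝 y, 0 < p 2 := continuousAt_const.eventually_lt cz hz
  cases hp : σ.ph
  · have hU := hI.invU hp
    have cc : ContinuousAt (fun p : E => max |p 0 - σ.b1| |p 1 - σ.b2| + p 2) y := by fun_prop
    have ein := cc.eventually_lt (continuousAt_const (y := σ.r)) hin
    apply goodAt_of_hat (n1 := m1 (y 0 - σ.b1) (y 1 - σ.b2)) (n2 := m2 (y 0 - σ.b1) (y 1 - σ.b2))
      (n3 := 1) (h0 := σ.r) (good_U hU hp (IsE_m _ _))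
    filter_upwards [em, ein] with p h1 h2
    unfold St.hat; rw [hp]
    simp only []
    rw [max_eq_right (by linarith), h1]; ring
  · have hO := hI.invO hp
    have cc : ContinuousAt (fun p : E => |p 0 - σ.b1| + |p 1 - σ.b2| + 8 * p 2) y := by fun_prop
    rcases lt_or_gt_of_ne hsumne with hl | hl
    · have ein := cc.eventually_lt (continuousAt_const (y := σ.r)) hl
      apply goodAt_of_hat (n1 := sgn (y 0 - σ.b1)) (n2 := sgn (y 1 - σ.b2))
        (n3 := 8) (h0 := σ.r) (good_O1 hO hp (isS_sgn _) (isS_sgn _))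
      filter_upwards [ev_sgn0 hx, ev_sgn1 hy, ein] with p h1 h2 h3
      unfold St.hat; rw [hp]
      simp only []
      rw [max_eq_right (by linarith), h1, h2]
    · have ein := (continuousAt_const (y := σ.r)).eventually_lt cc hl
      apply goodAt_of_hat (n1 := 0) (n2 := 0) (n3 := 0) (h0 := 0) (by simpa using good_O2 hO)
      filter_upwards [ein] with p h3
      unfold St.hat; rw [hp]
      simp only []
      rw [max_eq_left (by linarith)]; ring
  · have hC := hI.invC hp
    have c10 : ContinuousAt (fun p : E => max |p 0 - σ.b1| |p 1 - σ.b2| + 10 * p 2) y := by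
      fun_prop
    have c11 : ContinuousAt (fun p : E => max |p 0 - σ.b1| |p 1 - σ.b2| + 11 * p 2) y := by
      fun_prop
    have n10 : max |y 0 - σ.b1| |y 1 - σ.b2| + 10 * y 2 ≠ σ.r := by
      have := hmaxne 10; push_cast at this; exact this
    have n11 : max |y 0 - σ.b1| |y 1 - σ.b2| + 11 * y 2 ≠ σ.r := by
      have := hmaxne 11; push_cast at this; exact this
    rcases lt_or_gt_of_ne n10 with hl | hl
    · have e10 := c10.eventually_lt (continuousAt_const (y := σ.r)) hl
      rcases lt_or_gt_of_ne n11 with hk | hk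
      · have e11 := c11.eventually_lt (continuousAt_const (y := σ.r)) hk
        apply goodAt_of_hat (n1 := 0) (n2 := 0) (n3 := -1) (h0 := 0)
          (by simpa using good_C2 hC hp)
        filter_upwards [e10, e11, ez] with p h1 h2 h3
        unfold St.hat; rw [hp]
        simp only []
        rw [max_eq_right (by linarith), min_eq_left (by linarith)]; ring
      · have e11 := (continuousAt_const (y := σ.r)).eventually_lt c11 hk
        apply goodAt_of_hat (n1 := m1 (y 0 - σ.b1) (y 1 - σ.b2))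
          (n2 := m2 (y 0 - σ.b1) (y 1 - σ.b2))
          (n3 := 10) (h0 := σ.r) (good_C3 hC hp (IsE_m _ _))
        filter_upwards [e10, e11, ez, em] with p h1 h2 h3 h4
        unfold St.hat; rw [hp]
        simp only []
        rw [max_eq_right (by linarith), min_eq_right (by linarith), h4]; ring
    · have e10 := (continuousAt_const (y := σ.r)).eventually_lt c10 hl
      apply goodAt_of_hat (n1 := 0) (n2 := 0) (n3 := 0) (h0 := 0) (by simpa using good_C1 hC)
      filter_upwards [e10, ez] with p h1 h3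
      unfold St.hat; rw [hp]
      simp only []
      rw [max_eq_left (by linarith), min_eq_right (by linarith)]; ring

lemma GoodAt.congr {F F' : E → E} {y : E} (h : GoodAt F y) (he : F' =ᶠ[𝓝 y] F) :
    GoodAt F' y := by
  obtain ⟨a, b, c, q, hg, hq⟩ := h
  exact ⟨a, b, c, q, hg, he.trans hq⟩

open Meas in
lemma idx_over {k : ℕ} {t : ℝ} (h1 : -1 ≤ t) (h2 : t < 1) :
    idx k t < 1000 ^ k ∧ |t - ctr k (idx k t)| ≤ rho k := by
  refine ⟨idx_lt h1 h2, ?_⟩
  have h3 : (0 : ℝ) ≤ (t + 1) / 2 * 1000 ^ k := by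
    have : 0 ≤ t + 1 := by linarith
    positivity
  have h4 := Nat.floor_le h3
  have h5 := Nat.lt_floor_add_one ((t + 1) / 2 * 1000 ^ k)
  have h0 := rho_pos k
  have hm := rho_mul k
  change ((idx k t : ℕ) : ℝ) ≤ _ at h4
  change _ < ((idx k t : ℕ) : ℝ) + 1 at h5
  have h6 := mul_le_mul_of_nonneg_right h4 h0.le
  have h7 := mul_lt_mul_of_pos_right h5 h0
  have h8 : (t + 1) / 2 * 1000 ^ k * rho k = (t + 1) / 2 := by rw [mul_assoc, mul_comm _ (rho k), hm, mul_one]
  rw [h8] at h6 h7
  unfold ctr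
  rw [abs_le]
  constructor <;> nlinarith

lemma goodAt_Fp {y : E} (hG : Gen y) (hz : 0 < y 2) : ∀ n : ℕ, GoodAt (Fp n) y
  | 0 => by
    have h0 := (st0_inv.invU (σ := st0) rfl)
    refine ⟨st0.a, st0.b, st0.c, st0.f - st0.b1 • st0.a - st0.b2 • st0.b, ?_, ?_⟩
    · apply good_of _ _ _ 4 1 st0.s1 st0.s2 st0.s3 (by norm_num) h0.hs3 h0.h12' h0.h23' h0.hs2
        h0.hs1 _ (by simpa using h0.hT) (by norm_num)
      have := h0.ha'
      have := h0.hb'
      have := h0.hc
      have := h0.h12
      have := h0.h23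
      have := h0.hs3
      linarith
    · filter_upwards with p
      unfold Fp St.L
      simp only [Finset.range_zero, Finset.sum_empty, add_zero]
      module
  | n + 1 => by
    have ih := goodAt_Fp hG hz n
    have cz : ContinuousAt (fun p : E => p 2) y := by fun_prop
    have ez : ∀ᶠ p in 𝓝 y, 0 < p 2 := continuousAt_const.eventually_lt cz hz
    have hsame : (∀ᶠ p in 𝓝 y, G n p = 0) → GoodAt (Fp (n + 1)) y := by
      intro h
      apply ih.congr
      filter_upwards [h] with p hp
      rw [Fp_succ, hp, add_zero]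
    have hne0 : |y 0| ≠ 1 := by
      intro h
      rcases abs_choice (y 0) with ha | ha <;> rw [ha] at h
      · apply hG 1 0 0 1 (by norm_num); push_cast; linarith
      · apply hG (-1) 0 0 1 (by norm_num); push_cast; linarith
    have hne1 : |y 1| ≠ 1 := by
      intro h
      rcases abs_choice (y 1) with ha | ha <;> rw [ha] at h
      · apply hG 0 1 0 1 (by norm_num); push_cast; linarith
      · apply hG 0 (-1) 0 1 (by norm_num); push_cast; linarith
    have c0 : ContinuousAt (fun p : E => |p 0|) y := by fun_prop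
    have c1 : ContinuousAt (fun p : E => |p 1|) y := by fun_prop
    by_cases hout : 1 < |y 0| ∨ 1 < |y 1|
    · apply hsame
      rcases hout with ho | ho
      · filter_upwards [ez, (continuousAt_const (y := (1 : ℝ))).eventually_lt c0 ho] with p h1 h2
        exact G_outside h1.le (le_max_of_le_left h2.le)
      · filter_upwards [ez, (continuousAt_const (y := (1 : ℝ))).eventually_lt c1 ho] with p h1 h2
        exact G_outside h1.le (le_max_of_le_right h2.le)
    · push Not at hout
      have l0 := abs_lt.1 (lt_of_le_of_ne hout.1 hne0)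
      have l1 := abs_lt.1 (lt_of_le_of_ne hout.2 hne1)
      obtain ⟨hi, oi⟩ := idx_over (k := n) l0.1.le l0.2
      obtain ⟨hj, oj⟩ := idx_over (k := n) l1.1.le l1.2
      set i := Meas.idx n (y 0)
      set j := Meas.idx n (y 1)
      obtain ⟨B1, e1⟩ := ctr_rat n i
      obtain ⟨B2, e2⟩ := ctr_rat n j
      obtain ⟨R, e3⟩ := rho_rat n
      have oi' : |y 0 - ctr n i| < rho n := by
        apply lt_of_le_of_ne oi
        intro h
        rcases abs_choice (y 0 - ctr n i) with ha | ha <;> rw [ha] at h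
        · apply hG.rel e1 e2 e3 1 0 0 1 (by norm_num); push_cast; linarith
        · apply hG.rel e1 e2 e3 (-1) 0 0 1 (by norm_num); push_cast; linarith
      have oj' : |y 1 - ctr n j| < rho n := by
        apply lt_of_le_of_ne oj
        intro h
        rcases abs_choice (y 1 - ctr n j) with ha | ha <;> rw [ha] at h
        · apply hG.rel e1 e2 e3 0 1 0 1 (by norm_num); push_cast; linarith
        · apply hG.rel e1 e2 e3 0 (-1) 0 1 (by norm_num); push_cast; linarith
      have k0 : ContinuousAt (fun p : E => |p 0 - ctr n i|) y := by fun_prop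
      have k1 : ContinuousAt (fun p : E => |p 1 - ctr n j|) y := by fun_prop
      have eo : ∀ᶠ p in 𝓝 y, Over n i j p := by
        filter_upwards [k0.eventually_lt (continuousAt_const (y := rho n)) oi',
          k1.eventually_lt (continuousAt_const (y := rho n)) oj'] with p h1 h2
        exact ⟨h1.le, h2.le⟩
      by_cases ha : act n i j
      · obtain ⟨hb1, hb2, hr⟩ := act_cell hi hj ha
        have hne : max |y 0 - ctr n i| |y 1 - ctr n j| + y 2 ≠ rho n := by
          intro h
          rcases max_choice |y 0 - ctr n i| |y 1 - ctr n j| with hm | hm <;> rw [hm] at h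
          · rcases abs_choice (y 0 - ctr n i) with ha | ha <;> rw [ha] at h
            · apply hG.rel e1 e2 e3 1 0 1 1 (by norm_num); push_cast; linarith
            · apply hG.rel e1 e2 e3 (-1) 0 1 1 (by norm_num); push_cast; linarith
          · rcases abs_choice (y 1 - ctr n j) with ha | ha <;> rw [ha] at h
            · apply hG.rel e1 e2 e3 0 1 1 1 (by norm_num); push_cast; linarith
            · apply hG.rel e1 e2 e3 0 (-1) 1 1 (by norm_num); push_cast; linarith
        have cm : ContinuousAt (fun p : E => max |p 0 - ctr n i| |p 1 - ctr n j| + p 2) y := by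
          fun_prop
        rcases lt_or_gt_of_ne hne with hl | hl
        · have := goodAt_LD (rc_inv n i j hi hj) (ratSt hi hj ha) hG hz
            (by rw [hb1, hb2, hr]; exact hl)
          apply this.congr
          filter_upwards [eo, ez, cm.eventually_lt (continuousAt_const (y := rho n)) hl]
            with p h1 h2 h3
          exact Fp_eq n i j hi hj p h2.le h1 (by unfold InP; rw [hb1, hb2, hr]; exact h3.le)
        · apply hsame
          filter_upwards [eo, ez, (continuousAt_const (y := rho n)).eventually_lt cm hl]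
            with p h1 h2 h3
          rw [G_over hi hj h2.le h1]
          exact Dl_zero_of hi hj h2.le h3.le
      · apply hsame
        filter_upwards [eo, ez] with p h1 h2
        rw [G_over hi hj h2.le h1]
        unfold Dl; rw [if_neg ha]

/-- the linear map with columns `a, b, c` -/
noncomputable def linM (a b c : E) : E →L[ℝ] E :=
  (EuclideanSpace.proj 0 : E →L[ℝ] ℝ).smulRight a + (EuclideanSpace.proj 1 : E →L[ℝ] ℝ).smulRight b +
    (EuclideanSpace.proj 2 : E →L[ℝ] ℝ).smulRight c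

lemma linM_apply (a b c p : E) : linM a b c p = p 0 • a + p 1 • b + p 2 • c := by
  simp [linM]

lemma linM_norm (a b c : E) : ‖linM a b c‖ ≤ ‖a‖ + ‖b‖ + ‖c‖ := by
  apply ContinuousLinearMap.opNorm_le_bound _ (by positivity)
  intro p
  rw [linM_apply]
  have h : ∀ i, |p i| ≤ ‖p‖ := fun i => by
    have := PiLp.norm_apply_le p i
    simpa using this
  calc ‖p 0 • a + p 1 • b + p 2 • c‖ ≤ ‖p 0 • a‖ + ‖p 1 • b‖ + ‖p 2 • c‖ := norm_add₃_le
    _ = |p 0| * ‖a‖ + |p 1| * ‖b‖ + |p 2| * ‖c‖ := by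
        rw [norm_smul, norm_smul, norm_smul]; rfl
    _ ≤ ‖p‖ * ‖a‖ + ‖p‖ * ‖b‖ + ‖p‖ * ‖c‖ := by
        have := h 0; have := h 1; have := h 2
        gcongr
    _ = _ := by ring

lemma linM_det (a b c : E) : ContinuousLinearMap.det (linM a b c) = T a b c := by
  unfold ContinuousLinearMap.det
  rw [← LinearMap.det_toMatrix (EuclideanSpace.basisFun (Fin 3) ℝ).toBasis]
  rw [Matrix.det_fin_three]
  simp only [LinearMap.toMatrix_apply, OrthonormalBasis.coe_toBasis,
    EuclideanSpace.basisFun_apply, OrthonormalBasis.coe_toBasis_repr_apply,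
    EuclideanSpace.basisFun_repr, ContinuousLinearMap.coe_coe, linM_apply]
  simp [T, dt]
  ring

lemma GoodAt.deriv {F : E → E} {y : E} (h : GoodAt F y) :
    ∃ A : E →L[ℝ] E, HasFDerivAt F A y ∧
      ‖A‖ ^ 3 ≤ (10 ^ 8 * KH ^ 3) * ContinuousLinearMap.det A := by
  obtain ⟨a, b, c, q, hg, he⟩ := h
  refine ⟨linM a b c, ?_, ?_⟩
  · have h1 : HasFDerivAt (fun p : E => q + linM a b c p) (linM a b c) y :=
      ((linM a b c).hasFDerivAt).const_add q
    apply h1.congr_of_eventuallyEq
    filter_upwards [he] with p hp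
    rw [hp, linM_apply]; module
  · rw [linM_det]
    unfold Good at hg
    exact (pow_le_pow_left₀ (norm_nonneg _) (linM_norm a b c) 3).trans hg

/-- the map on the half space is quasiregular -/
theorem FF_good : ∀ᵐ y : E ∂volume, 0 < y 2 →
    ∃ A : E →L[ℝ] E, HasFDerivAt FF A y ∧
      ‖A‖ ^ 3 ≤ (10 ^ 8 * KH ^ 3) * ContinuousLinearMap.det A := by
  filter_upwards [ae_gen] with y hG hz
  have h1 : rho ⌈2 / y 2⌉₊ < y 2 := by
    have h := rho_ceil (z := y 2 / 2) (by linarith)
    have e : 1 / (y 2 / 2) = 2 / y 2 := by field_simp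
    rw [e] at h
    linarith
  apply GoodAt.deriv
  apply (goodAt_Fp hG hz ⌈2 / y 2⌉₊).congr
  have cz : ContinuousAt (fun p : E => p 2) y := by fun_prop
  filter_upwards [continuousAt_const.eventually_lt cz h1] with p hp
  exact FF_eq hp.le

end Pool.Agent.Helper746
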