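import Pool.Agent.Helper746.Cells

set_option autoImplicit false

namespace Pool.Agent.Helper746

/-- the closed pyramid over the cell of a state -/
def InP (σ : St) (p : E) : Prop := max |p 0 - σ.b1| |p 1 - σ.b2| + p 2 ≤ σ.r

lemma hat_out {σ : St} {x y z : ℝ} (hz : 0 ≤ z) (h : σ.r ≤ max |x| |y| + z) :
    σ.hat x y z = 0 := by
  unfold St.hat
  cases σ.ph
  · exact max_eq_left (by linarith)
  · have h1 : max |x| |y| ≤ |x| + |y| :=
      max_le (by linarith [abs_nonneg y]) (by linarith [abs_nonneg x])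
    exact max_eq_left (by linarith)
  · have : max 0 (σ.r - max |x| |y| - 10 * z) = 0 := max_eq_left (by linarith)
    simp only [this]
    exact min_eq_right hz

lemma D_out {σ : St} {p : E} (hz : 0 ≤ p 2) (h : σ.r ≤ max |p 0 - σ.b1| |p 1 - σ.b2| + p 2) :
    σ.D p = 0 := by
  unfold St.D; rw [hat_out hz h, zero_smul]

lemma abs_near_sgn {X x r' : ℝ} (hX : r' ≤ |X|) (hx : |x| ≤ r') : |X + x| = sgn X * (X + x) := by
  have h := sgn_mul_near hX hx
  rcases sgn_or X with e | e <;> rw [e] at h ⊢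
  · rw [one_mul] at h ⊢; exact abs_of_nonneg h
  · rw [neg_one_mul] at h ⊢; exact abs_of_nonpos (by linarith)

lemma max_near {X Y x y r' : ℝ} (hX : r' ≤ |X|) (hY : r' ≤ |Y|) (hx : |x| ≤ r') (hy : |y| ≤ r')
    (hD : |X| + 100 * r' ≤ |Y| ∨ |Y| + 100 * r' ≤ |X|) (hr' : 0 < r') :
    max |X + x| |Y + y| = m1 X Y * (X + x) + m2 X Y * (Y + y) := by
  unfold m1 m2
  have a1 := abs_add_le X x
  have a2 := abs_add_le Y y
  have a3 : |X| ≤ |X + x| + |x| := by
    have := abs_sub (X + x) x; rwa [add_sub_cancel_right] at this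
  have a4 : |Y| ≤ |Y + y| + |y| := by
    have := abs_sub (Y + y) y; rwa [add_sub_cancel_right] at this
  rcases hD with hD | hD
  · rw [if_neg (by linarith), if_neg (by linarith), max_eq_right (by linarith),
      abs_near_sgn hY hy]; ring
  · rw [if_pos (by linarith), if_pos (by linarith), max_eq_left (by linarith),
      abs_near_sgn hX hx]; ring

/-- the map of the child state is the map of the parent plus its push -/
lemma child_L {σ : St} {c1 c2 r' : ℝ} (hpos : Pos σ (c1 - σ.b1) (c2 - σ.b2) r') {p : E}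
    (h0 : |p 0 - c1| ≤ r') (h1 : |p 1 - c2| ≤ r') (h2 : 0 ≤ p 2) (h2' : p 2 ≤ r') :
    (σ.child c1 c2 r').L p = σ.L p + σ.D p := by
  have hr' := hpos.hr'
  have hX : r' ≤ |c1 - σ.b1| := by linarith [hpos.hX]
  have hY : r' ≤ |c2 - σ.b2| := by linarith [hpos.hY]
  have ex : p 0 - σ.b1 = (c1 - σ.b1) + (p 0 - c1) := by ring
  have ey : p 1 - σ.b2 = (c2 - σ.b2) + (p 1 - c2) := by ring
  have hmax := max_near hX hY h0 h1 hpos.hD hr'
  have hm : max |c1 - σ.b1 + (p 0 - c1)| |c2 - σ.b2 + (p 1 - c2)| + 100 * r' ≤ σ.r + r' := by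
    have a1 := abs_add_le (c1 - σ.b1) (p 0 - c1)
    have a2 := abs_add_le (c2 - σ.b2) (p 1 - c2)
    have := hpos.hX'
    have := hpos.hY'
    have : max |c1 - σ.b1 + (p 0 - c1)| |c2 - σ.b2 + (p 1 - c2)| ≤ σ.r + r' - 100 * r' :=
      max_le (by linarith) (by linarith)
    linarith
  cases hp : σ.ph
  · rw [child_U hp]
    unfold St.L St.D St.hat
    rw [hp]
    simp only []
    rw [ex, ey, hmax]
    rw [hmax] at hm
    rw [max_eq_right (by linarith)]
    set X := c1 - σ.b1
    set Y := c2 - σ.b2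
    module
  · by_cases hA : |c1 - σ.b1| + |c2 - σ.b2| < σ.r
    · rw [child_O1 hp _ _ _ hA]
      have hA' : |c1 - σ.b1| + |c2 - σ.b2| + 100 * r' ≤ σ.r := by
        rcases hpos.hA with h | h
        · exact h
        · linarith
      unfold St.L St.D St.hat
      rw [hp]
      simp only []
      have b1 := abs_add_le (c1 - σ.b1) (p 0 - c1)
      have b2 := abs_add_le (c2 - σ.b2) (p 1 - c2)
      rw [ex, ey]
      rw [max_eq_right (by linarith), abs_near_sgn hX h0, abs_near_sgn hY h1]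
      set X := c1 - σ.b1
      set Y := c2 - σ.b2
      module
    · rw [child_O2 hp _ _ _ hA]
      have hA' : σ.r + 100 * r' ≤ |c1 - σ.b1| + |c2 - σ.b2| := by
        rcases hpos.hA with h | h
        · linarith
        · exact h
      unfold St.L St.D St.hat
      rw [hp]
      simp only []
      have b1 : |c1 - σ.b1| ≤ |c1 - σ.b1 + (p 0 - c1)| + |p 0 - c1| := by
        have := abs_sub (c1 - σ.b1 + (p 0 - c1)) (p 0 - c1)
        rwa [add_sub_cancel_right] at this
      have b2 : |c2 - σ.b2| ≤ |c2 - σ.b2 + (p 1 - c2)| + |p 1 - c2| := by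
        have := abs_sub (c2 - σ.b2 + (p 1 - c2)) (p 1 - c2)
        rwa [add_sub_cancel_right] at this
      rw [ex, ey]
      rw [max_eq_left (by linarith)]
      set X := c1 - σ.b1
      set Y := c2 - σ.b2
      module
  · rw [child_C hp]
    unfold St.L St.D St.hat
    rw [hp]
    simp only []
    rw [ex, ey]
    have e : min (p 2) (max 0 (σ.r - max |c1 - σ.b1 + (p 0 - c1)| |c2 - σ.b2 + (p 1 - c2)| -
        10 * p 2)) = p 2 := by
      apply min_eq_left
      apply le_max_of_le_right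
      linarith
    rw [e]
    set X := c1 - σ.b1
    set Y := c2 - σ.b2
    module

/-- the push attached to a square -/
noncomputable def Dl (k i j : ℕ) (p : E) : E :=
  open Classical in if act k i j then (rc k i j).D p else 0

/-- all pushes of generation `k` -/
noncomputable def G (k : ℕ) (p : E) : E :=
  ∑ i ∈ Finset.range (1000 ^ k), ∑ j ∈ Finset.range (1000 ^ k), Dl k i j p

/-- the partial sums of the construction -/
noncomputable def Fp (n : ℕ) (p : E) : E := st0.L p + ∑ m ∈ Finset.range n, G m p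

lemma Fp_succ (n : ℕ) (p : E) : Fp (n + 1) p = Fp n p + G n p := by
  unfold Fp; rw [Finset.sum_range_succ, add_assoc]

/-- the map on the upper half space -/
noncomputable def FF (p : E) : E := Fp ⌈1 / p 2⌉₊ p

lemma Dl_zero_of {k i j : ℕ} (hi : i < 1000 ^ k) (hj : j < 1000 ^ k) {p : E} (hz : 0 ≤ p 2)
    (h : rho k ≤ max |p 0 - ctr k i| |p 1 - ctr k j| + p 2) : Dl k i j p = 0 := by
  unfold Dl; split_ifs with ha
  · obtain ⟨h1, h2, h3⟩ := act_cell hi hj ha
    exact D_out hz (by rw [h1, h2, h3]; exact h)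
  · rfl

lemma G_high {k : ℕ} {p : E} (hz : rho k ≤ p 2) : G k p = 0 := by
  unfold G
  apply Finset.sum_eq_zero; intro i hi
  apply Finset.sum_eq_zero; intro j hj
  rw [Finset.mem_range] at hi hj
  have h0 := rho_pos k
  apply Dl_zero_of hi hj (by linarith)
  have : 0 ≤ max |p 0 - ctr k i| |p 1 - ctr k j| := le_max_of_le_left (abs_nonneg _)
  linarith

/-- the closed square of generation `k` contains the projection of `p` -/
def Over (k i j : ℕ) (p : E) : Prop := |p 0 - ctr k i| ≤ rho k ∧ |p 1 - ctr k j| ≤ rho k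

lemma ctr_far {k i i' : ℕ} (h : i ≠ i') {t : ℝ} (ht : |t - ctr k i| ≤ rho k) :
    rho k ≤ |t - ctr k i'| := by
  have h0 := rho_pos k
  unfold ctr at *
  rcases Nat.lt_or_gt_of_ne h with hlt | hlt
  · have h1 : (i : ℝ) + 1 ≤ i' := by exact_mod_cast hlt
    have h2 := (abs_le.1 ht).2
    rw [abs_of_nonpos (by nlinarith)]
    nlinarith
  · have h1 : (i' : ℝ) + 1 ≤ i := by exact_mod_cast hlt
    have h2 := (abs_le.1 ht).1
    rw [abs_of_nonneg (by nlinarith)]
    nlinarith

lemma G_over {k i j : ℕ} (hi : i < 1000 ^ k) (hj : j < 1000 ^ k) {p : E} (hz : 0 ≤ p 2)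
    (h : Over k i j p) : G k p = Dl k i j p := by
  unfold G
  rw [Finset.sum_eq_single i, Finset.sum_eq_single j]
  · intro j' hj' hne
    rw [Finset.mem_range] at hj'
    apply Dl_zero_of hi hj' hz
    have := ctr_far hne.symm h.2
    linarith [le_max_right |p 0 - ctr k i| |p 1 - ctr k j'|]
  · intro hj'; exact absurd (Finset.mem_range.2 hj) hj'
  · intro i' hi' hne
    rw [Finset.mem_range] at hi'
    apply Finset.sum_eq_zero; intro j' hj'
    rw [Finset.mem_range] at hj'
    apply Dl_zero_of hi' hj' hz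
    have := ctr_far hne.symm h.1
    linarith [le_max_left |p 0 - ctr k i'| |p 1 - ctr k j'|]
  · intro hi'; exact absurd (Finset.mem_range.2 hi) hi'

lemma ctr_range {k i : ℕ} (hi : i < 1000 ^ k) : |ctr k i| + rho k ≤ 1 := by
  have h0 := rho_pos k
  have h1 := rho_mul k
  have h2 : (i : ℝ) + 1 ≤ 1000 ^ k := by exact_mod_cast hi
  have h3 : (0 : ℝ) ≤ i := Nat.cast_nonneg i
  unfold ctr
  have h4 : ((i : ℝ) + 1) * rho k ≤ 1 := by
    calc ((i : ℝ) + 1) * rho k ≤ 1000 ^ k * rho k := mul_le_mul_of_nonneg_right h2 h0.le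
      _ = 1 := by linarith
  have h5 : 0 ≤ (i : ℝ) * rho k := by positivity
  have : |-1 + (2 * (i : ℝ) + 1) * rho k| ≤ 1 - rho k := by
    rw [abs_le]; constructor <;> linarith
  linarith

lemma G_outside {k : ℕ} {p : E} (hz : 0 ≤ p 2) (h : 1 ≤ max |p 0| |p 1|) : G k p = 0 := by
  unfold G
  apply Finset.sum_eq_zero; intro i hi
  apply Finset.sum_eq_zero; intro j hj
  rw [Finset.mem_range] at hi hj
  apply Dl_zero_of hi hj hz
  have h1 := ctr_range hi
  have h2 := ctr_range hj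
  have h3 : |p 0| ≤ |p 0 - ctr k i| + |ctr k i| := by
    have := abs_add_le (p 0 - ctr k i) (ctr k i); rwa [sub_add_cancel] at this
  have h4 : |p 1| ≤ |p 1 - ctr k j| + |ctr k j| := by
    have := abs_add_le (p 1 - ctr k j) (ctr k j); rwa [sub_add_cancel] at this
  rcases le_max_iff.1 h with h | h
  · linarith [le_max_left |p 0 - ctr k i| |p 1 - ctr k j|]
  · linarith [le_max_right |p 0 - ctr k i| |p 1 - ctr k j|]

lemma Over.parent {k i j : ℕ} {p : E} (h : Over (k + 1) i j p) :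
    Over k (i / 1000) (j / 1000) p := by
  have hr := rho_pos (k + 1)
  have key : ∀ (i : ℕ) (t : ℝ), |t - ctr (k + 1) i| ≤ rho (k + 1) →
      |t - ctr k (i / 1000)| ≤ rho k := by
    intro i t ht
    rw [ctr_succ] at ht
    have hi : i % 1000 < 1000 := Nat.mod_lt _ (by norm_num)
    have hi1 : ((i % 1000 : ℕ) : ℝ) + 1 ≤ 1000 := by exact_mod_cast hi
    have hi2 : (0 : ℝ) ≤ ((i % 1000 : ℕ) : ℝ) := Nat.cast_nonneg _
    rw [rho_succ k]
    rw [abs_le] at ht ⊢
    constructor <;> nlinarith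
  exact ⟨key i _ h.1, key j _ h.2⟩

lemma InP_parent {σ : St} {c1 c2 r' : ℝ} (hpos : Pos σ (c1 - σ.b1) (c2 - σ.b2) r') {p : E}
    (h : InP (σ.child c1 c2 r') p) : InP σ p := by
  unfold InP at *
  rw [child_b1, child_b2, child_r] at h
  have := hpos.hr'
  have h1 : |p 0 - σ.b1| ≤ |p 0 - c1| + |c1 - σ.b1| := by
    have := abs_add_le (p 0 - c1) (c1 - σ.b1)
    rwa [sub_add_sub_cancel] at this
  have h2 : |p 1 - σ.b2| ≤ |p 1 - c2| + |c2 - σ.b2| := by
    have := abs_add_le (p 1 - c2) (c2 - σ.b2)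
    rwa [sub_add_sub_cancel] at this
  have h3 := le_max_left |p 0 - c1| |p 1 - c2|
  have h4 := le_max_right |p 0 - c1| |p 1 - c2|
  have : max |p 0 - σ.b1| |p 1 - σ.b2| ≤ σ.r - p 2 :=
    max_le (by linarith [hpos.hX']) (by linarith [hpos.hY'])
  linarith

/-- nestedness of the pyramids -/
lemma InP_zero : ∀ (k i j : ℕ), i < 1000 ^ k → j < 1000 ^ k → ∀ p : E,
    InP (rc k i j) p → InP st0 p
  | 0, i, j, hi, hj, p, h => h
  | k + 1, i, j, hi, hj, p, h => by
    apply InP_zero k (i / 1000) (j / 1000) (div_lt_pow hi) (div_lt_pow hj) p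
    by_cases hd : dig i j
    · rw [rc_dig hd] at h
      exact InP_parent (loc_pos (rc_loc k _ _ (div_lt_pow hi) (div_lt_pow hj)) hd) h
    · rwa [rc_not_dig hd] at h

/-- the key structural fact -/
lemma Fp_eq : ∀ (k i j : ℕ), i < 1000 ^ k → j < 1000 ^ k → ∀ p : E, 0 ≤ p 2 →
    Over k i j p → InP (rc k i j) p → Fp (k + 1) p = (rc k i j).L p + (rc k i j).D p
  | 0, i, j, hi, hj, p, hz, ho, h => by
    rw [Fp_succ, G_over hi hj hz ho]
    unfold Fp Dl
    rw [if_pos (show act 0 i j from Or.inl rfl)]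
    simp [rc]
  | k + 1, i, j, hi, hj, p, hz, ho, h => by
    have hi' := div_lt_pow hi
    have hj' := div_lt_pow hj
    have hloc := rc_loc k _ _ hi' hj'
    rw [Fp_succ, G_over hi hj hz ho]
    by_cases hd : dig i j
    · rw [rc_dig hd] at h
      have hpos := loc_pos hloc hd
      have hP := InP_parent hpos h
      rw [Fp_eq k _ _ hi' hj' p hz ho.parent hP]
      unfold Dl
      rw [if_pos (show act (k + 1) i j from Or.inr hd), rc_dig hd]
      have hh : p 2 ≤ rho (k + 1) := by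
        unfold InP at h
        rw [child_r] at h
        have : 0 ≤ max |p 0 - ((rc k (i / 1000) (j / 1000)).child (ctr (k + 1) i)
          (ctr (k + 1) j) (rho (k + 1))).b1| |p 1 - ((rc k (i / 1000) (j / 1000)).child
          (ctr (k + 1) i) (ctr (k + 1) j) (rho (k + 1))).b2| :=
          le_max_of_le_left (abs_nonneg _)
        linarith
      rw [child_L hpos ho.1 ho.2 hz hh]
    · rw [rc_not_dig hd] at h ⊢
      rw [Fp_eq k _ _ hi' hj' p hz ho.parent h]
      unfold Dl
      rw [if_neg (by unfold act; push Not; exact ⟨by omega, hd⟩), add_zero]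

lemma Fp_stable {m n : ℕ} (hmn : m ≤ n) {p : E} (h : rho m ≤ p 2) : Fp n p = Fp m p := by
  induction n, hmn using Nat.le_induction with
  | base => rfl
  | succ n hn ih =>
    rw [Fp_succ, ih, G_high ((rho_anti hn).trans h), add_zero]

lemma rho_ceil {z : ℝ} (hz : 0 < z) : rho ⌈1 / z⌉₊ ≤ z := by
  have h1 : 1 / z ≤ ⌈1 / z⌉₊ := Nat.le_ceil _
  have h2 : ((⌈1 / z⌉₊ : ℕ) : ℝ) ≤ 1000 ^ ⌈1 / z⌉₊ := by
    have : ⌈1 / z⌉₊ < 1000 ^ ⌈1 / z⌉₊ := Nat.lt_pow_self (by norm_num)
    exact_mod_cast this.le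
  have h3 := rho_mul ⌈1 / z⌉₊
  have h4 := rho_pos ⌈1 / z⌉₊
  have h5 : 1 ≤ (1000 ^ ⌈1 / z⌉₊ : ℝ) * z := by
    have : 1 ≤ (⌈1 / z⌉₊ : ℝ) * z := by rwa [div_le_iff₀ hz] at h1
    nlinarith
  nlinarith

lemma FF_eq {m : ℕ} {p : E} (h : rho m ≤ p 2) : FF p = Fp m p := by
  have hz : 0 < p 2 := lt_of_lt_of_le (rho_pos m) h
  unfold FF
  rcases le_total m ⌈1 / p 2⌉₊ with h1 | h1
  · exact Fp_stable h1 h
  · exact (Fp_stable h1 (rho_ceil hz)).symm

end Pool.Agent.Helper746
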