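import Pool.Agent.Helper746.Glob

set_option autoImplicit false
open MeasureTheory Filter Topology

namespace Pool.Agent.Helper746

/-- successful squares -/
def SS (k i j : ℕ) : Prop := ∃ m, k = m + 1 ∧ dig i j ∧ act m (i / 1000) (j / 1000) ∧
  (rc m (i / 1000) (j / 1000)).ph = Ph.U ∧ 1 / rho m ≤ KH * (rc m (i / 1000) (j / 1000)).s1

/-- the potential -/
noncomputable def DD (k i j : ℕ) : ℝ := 1 / (rho k * (rc k i j).s1)

lemma rho_le_r {k i j : ℕ} (hi : i < 1000 ^ k) (hj : j < 1000 ^ k) : rho k ≤ (rc k i j).r := by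
  obtain ⟨n, m, N, -, -, h3, h4, -⟩ := (rc_loc k i j hi hj).h
  have h1 : (1 : ℝ) ≤ N := by
    have : 1 ≤ N := by have := abs_nonneg n; omega
    exact_mod_cast this
  rw [h3]
  nlinarith [rho_pos k]

lemma DD_one {k i j : ℕ} (hi : i < 1000 ^ k) (hj : j < 1000 ^ k) : 1 ≤ DD k i j := by
  have hB := (rc_inv k i j hi hj).base
  have h1 := rho_le_r hi hj
  have hs1 := hB.hs1
  have hr := rho_pos k
  unfold DD
  rw [le_div_iff₀ (by positivity)]
  nlinarith [hB.h1r]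

lemma child_s1 {σ : St} (hB : Base σ) (c1 c2 r' : ℝ) : σ.s1 ≤ (σ.child c1 c2 r').s1 := by
  have h := hB.s_ge
  have hs := hB.hs1
  cases hp : σ.ph
  · rw [child_U hp]; simp only []; linarith
  · by_cases hA : |c1 - σ.b1| + |c2 - σ.b2| < σ.r
    · rw [child_O1 hp _ _ _ hA]; simp only []; linarith
    · rw [child_O2 hp _ _ _ hA]
  · rw [child_C hp]

lemma s1_mono {k i j : ℕ} (hi : i < 1000 ^ (k + 1)) (hj : j < 1000 ^ (k + 1)) :
    (rc k (i / 1000) (j / 1000)).s1 ≤ (rc (k + 1) i j).s1 := by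
  by_cases hd : dig i j
  · rw [rc_dig hd]
    exact child_s1 (rc_inv k _ _ (div_lt_pow hi) (div_lt_pow hj)).base _ _ _
  · rw [rc_not_dig hd]

lemma DD_succ {k i j : ℕ} (hi : i < 1000 ^ (k + 1)) (hj : j < 1000 ^ (k + 1)) :
    DD (k + 1) i j ≤ 1000 * DD k (i / 1000) (j / 1000) := by
  have h1 := s1_mono hi hj
  have hs := (rc_inv k _ _ (div_lt_pow hi) (div_lt_pow hj)).base.hs1
  have hr := rho_pos (k + 1)
  unfold DD
  rw [rho_succ k]
  have e : 1000 * (1 / (1000 * rho (k + 1) * (rc k (i / 1000) (j / 1000)).s1)) =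
      1 / (rho (k + 1) * (rc k (i / 1000) (j / 1000)).s1) := by
    field_simp
  rw [e]
  apply one_div_le_one_div_of_le (by positivity)
  exact mul_le_mul_of_nonneg_left h1 hr.le

/-- one step along the distinguished descendant -/
lemma ctr_next (k i : ℕ) (d : ℕ) (hd : i % 1000 = d) :
    ctr (k + 1) i - ctr k (i / 1000) = (2 * d - 999) * rho (k + 1) := by
  rw [ctr_succ, hd]; ring

lemma ph_C_to_U {σ : St} (hp : σ.ph = Ph.C) (c1 c2 r' : ℝ) : (σ.child c1 c2 r').ph = Ph.U := by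
  rw [child_C hp]
lemma ph_U_to_O {σ : St} (hp : σ.ph = Ph.U) (c1 c2 r' : ℝ) : (σ.child c1 c2 r').ph = Ph.O := by
  rw [child_U hp]
lemma ph_O_to {σ : St} (hp : σ.ph = Ph.O) (c1 c2 r' : ℝ) :
    (σ.child c1 c2 r').ph = Ph.C ∨ (σ.child c1 c2 r').ph = Ph.O := by
  by_cases hA : |c1 - σ.b1| + |c2 - σ.b2| < σ.r
  · left; rw [child_O1 hp _ _ _ hA]
  · right; rw [child_O2 hp _ _ _ hA]; exact hp

/-- in a fresh cell the phase `O` is followed by the phase `C` -/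
lemma ph_O_fresh {k i j : ℕ} (hi : i < 1000 ^ (k + 1)) (hj : j < 1000 ^ (k + 1))
    (hd : dig i j) (ha : act k (i / 1000) (j / 1000))
    (hp : (rc k (i / 1000) (j / 1000)).ph = Ph.O) : (rc (k + 1) i j).ph = Ph.C := by
  obtain ⟨h1, h2, h3⟩ := act_cell (div_lt_pow hi) (div_lt_pow hj) ha
  rw [rc_dig hd]
  have hr := rho_pos (k + 1)
  have e1 : ctr (k + 1) i - ctr k (i / 1000) = 499 * rho (k + 1) := by
    rw [ctr_next k i 749 hd.1]; norm_num
  have e2 : ctr (k + 1) j - ctr k (j / 1000) = 249 * rho (k + 1) := by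
    rw [ctr_next k j 624 hd.2]; norm_num
  rw [child_O1 hp]
  rw [h1, h2, h3, e1, e2, abs_of_pos (by positivity), abs_of_pos (by positivity), rho_succ k]
  linarith

lemma step_success {m I J : ℕ} (hI : I < 1000 ^ (m + 1)) (hJ : J < 1000 ^ (m + 1))
    (hd : dig I J) (ha : act m (I / 1000) (J / 1000))
    (hp : (rc m (I / 1000) (J / 1000)).ph = Ph.U) :
    SS (m + 1) I J ∨ KH * (rc m (I / 1000) (J / 1000)).s1 ≤ (rc (m + 1) I J).s1 := by
  by_cases hc : 1 / rho m ≤ KH * (rc m (I / 1000) (J / 1000)).s1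
  · left; exact ⟨m, rfl, hd, ha, hp, hc⟩
  · right
    obtain ⟨h1, h2, h3⟩ := act_cell (div_lt_pow hI) (div_lt_pow hJ) ha
    rw [rc_dig hd, child_U hp]
    simp only [St.s, h3]
    rw [min_eq_right (not_le.1 hc).le]

lemma DD_jump {k i j I J : ℕ} (h : KH * (rc k i j).s1 ≤ (rc (k + 4) I J).s1)
    (hs : 0 < (rc k i j).s1) :
    DD (k + 4) I J * (1000 ^ 4) ^ NN ≤ 1000 ^ 4 * DD k i j := by
  have hr := rho_pos (k + 4)
  have hK := KH_pos
  have e : rho k = 1000 ^ 4 * rho (k + 4) := by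
    rw [rho_succ k, rho_succ (k + 1), rho_succ (k + 2), rho_succ (k + 3)]; ring
  unfold DD
  change _ * KH ≤ _
  have h1 : 1 / (rho (k + 4) * (rc (k + 4) I J).s1) ≤
      1 / (rho (k + 4) * (KH * (rc k i j).s1)) := by
    apply one_div_le_one_div_of_le (by positivity)
    exact mul_le_mul_of_nonneg_left h hr.le
  calc 1 / (rho (k + 4) * (rc (k + 4) I J).s1) * KH ≤
      1 / (rho (k + 4) * (KH * (rc k i j).s1)) * KH := mul_le_mul_of_nonneg_right h1 hK.le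
    _ = 1000 ^ 4 * (1 / (rho k * (rc k i j).s1)) := by rw [e]; field_simp

lemma DD_four {k i j : ℕ} (hi : i < 1000 ^ k) (hj : j < 1000 ^ k) :
    (∃ m, 1 ≤ m ∧ m ≤ 4 ∧ SS (k + m) ((1000 ^ 4 * i + 749749749749) / 1000 ^ (4 - m))
        ((1000 ^ 4 * j + 624624624624) / 1000 ^ (4 - m))) ∨
      DD (k + 4) (1000 ^ 4 * i + 749749749749) (1000 ^ 4 * j + 624624624624) *
        (1000 ^ 4) ^ NN ≤ 1000 ^ 4 * DD k i j := by
  obtain ⟨i1, hi1⟩ : ∃ i1, i1 = 1000 * i + 749 := ⟨_, rfl⟩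
  obtain ⟨i2, hi2⟩ : ∃ i2, i2 = 1000 * i1 + 749 := ⟨_, rfl⟩
  obtain ⟨i3, hi3⟩ : ∃ i3, i3 = 1000 * i2 + 749 := ⟨_, rfl⟩
  obtain ⟨i4, hi4⟩ : ∃ i4, i4 = 1000 * i3 + 749 := ⟨_, rfl⟩
  obtain ⟨j1, hj1⟩ : ∃ j1, j1 = 1000 * j + 624 := ⟨_, rfl⟩
  obtain ⟨j2, hj2⟩ : ∃ j2, j2 = 1000 * j1 + 624 := ⟨_, rfl⟩
  obtain ⟨j3, hj3⟩ : ∃ j3, j3 = 1000 * j2 + 624 := ⟨_, rfl⟩
  obtain ⟨j4, hj4⟩ : ∃ j4, j4 = 1000 * j3 + 624 := ⟨_, rfl⟩
  have eI : 1000 ^ 4 * i + 749749749749 = i4 := by omega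
  have eJ : 1000 ^ 4 * j + 624624624624 = j4 := by omega
  rw [eI, eJ]
  have q1 : i4 / 1000 ^ (4 - 1) = i1 := by norm_num; omega
  have q2 : i4 / 1000 ^ (4 - 2) = i2 := by norm_num; omega
  have q3 : i4 / 1000 ^ (4 - 3) = i3 := by norm_num; omega
  have q4 : i4 / 1000 ^ (4 - 4) = i4 := by norm_num
  have p1 : j4 / 1000 ^ (4 - 1) = j1 := by norm_num; omega
  have p2 : j4 / 1000 ^ (4 - 2) = j2 := by norm_num; omega
  have p3 : j4 / 1000 ^ (4 - 3) = j3 := by norm_num; omega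
  have p4 : j4 / 1000 ^ (4 - 4) = j4 := by norm_num
  have a1 : i1 / 1000 = i := by omega
  have a2 : i2 / 1000 = i1 := by omega
  have a3 : i3 / 1000 = i2 := by omega
  have a4 : i4 / 1000 = i3 := by omega
  have b1 : j1 / 1000 = j := by omega
  have b2 : j2 / 1000 = j1 := by omega
  have b3 : j3 / 1000 = j2 := by omega
  have b4 : j4 / 1000 = j3 := by omega
  have d1 : dig i1 j1 := by unfold dig; omega
  have d2 : dig i2 j2 := by unfold dig; omega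
  have d3 : dig i3 j3 := by unfold dig; omega
  have d4 : dig i4 j4 := by unfold dig; omega
  have bd : ∀ (n x y d : ℕ), x < 1000 ^ n → y = 1000 * x + d → d < 1000 → y < 1000 ^ (n + 1) := by
    intro n x y d hx hy hd
    rw [pow_succ]
    have : x + 1 ≤ 1000 ^ n := hx
    calc y < 1000 * (x + 1) := by omega
      _ ≤ 1000 * 1000 ^ n := Nat.mul_le_mul_left _ this
      _ = _ := by ring
  have li1 := bd k i i1 749 hi hi1 (by norm_num)
  have li2 := bd (k + 1) i1 i2 749 li1 hi2 (by norm_num)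
  have li3 := bd (k + 2) i2 i3 749 li2 hi3 (by norm_num)
  have li4 := bd (k + 3) i3 i4 749 li3 hi4 (by norm_num)
  have lj1 := bd k j j1 624 hj hj1 (by norm_num)
  have lj2 := bd (k + 1) j1 j2 624 lj1 hj2 (by norm_num)
  have lj3 := bd (k + 2) j2 j3 624 lj2 hj3 (by norm_num)
  have lj4 := bd (k + 3) j3 j4 624 lj3 hj4 (by norm_num)
  have m1 := s1_mono li1 lj1
  have m2 := s1_mono li2 lj2
  have m3 := s1_mono li3 lj3
  have m4 := s1_mono li4 lj4
  rw [a1, b1] at m1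
  rw [a2, b2] at m2
  rw [a3, b3] at m3
  rw [a4, b4] at m4
  have hs := (rc_inv k i j hi hj).base.hs1
  have hK := KH_pos
  -- the phase U occurs among the next three states
  have c1 : (rc (k + 1) i1 j1).ph = Ph.U →
      (SS (k + 2) i2 j2 ∨ KH * (rc k i j).s1 ≤ (rc (k + 4) i4 j4).s1) := by
    intro hp
    rcases step_success (m := k + 1) li2 lj2 d2 (by rw [a2, b2]; exact Or.inr d1)
      (by rw [a2, b2]; exact hp) with h | h
    · exact Or.inl h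
    · right
      rw [a2, b2] at h
      calc KH * (rc k i j).s1 ≤ KH * (rc (k + 1) i1 j1).s1 := by gcongr
        _ ≤ (rc (k + 2) i2 j2).s1 := h
        _ ≤ (rc (k + 3) i3 j3).s1 := m3
        _ ≤ _ := m4
  have c2 : (rc (k + 2) i2 j2).ph = Ph.U →
      (SS (k + 3) i3 j3 ∨ KH * (rc k i j).s1 ≤ (rc (k + 4) i4 j4).s1) := by
    intro hp
    rcases step_success (m := k + 2) li3 lj3 d3 (by rw [a3, b3]; exact Or.inr d2)
      (by rw [a3, b3]; exact hp) with h | h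
    · exact Or.inl h
    · right
      rw [a3, b3] at h
      calc KH * (rc k i j).s1 ≤ KH * (rc (k + 2) i2 j2).s1 := by
            have := m1.trans m2; gcongr
        _ ≤ (rc (k + 3) i3 j3).s1 := h
        _ ≤ _ := m4
  have c3 : (rc (k + 3) i3 j3).ph = Ph.U →
      (SS (k + 4) i4 j4 ∨ KH * (rc k i j).s1 ≤ (rc (k + 4) i4 j4).s1) := by
    intro hp
    rcases step_success (m := k + 3) li4 lj4 d4 (by rw [a4, b4]; exact Or.inr d3)
      (by rw [a4, b4]; exact hp) with h | h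
    · exact Or.inl h
    · right
      rw [a4, b4] at h
      calc KH * (rc k i j).s1 ≤ KH * (rc (k + 3) i3 j3).s1 := by
            have := (m1.trans m2).trans m3; gcongr
        _ ≤ _ := h
  have fin1 : (SS (k + 2) i2 j2 ∨ KH * (rc k i j).s1 ≤ (rc (k + 4) i4 j4).s1) →
      (∃ m, 1 ≤ m ∧ m ≤ 4 ∧ SS (k + m) (i4 / 1000 ^ (4 - m)) (j4 / 1000 ^ (4 - m))) ∨
      DD (k + 4) i4 j4 * (1000 ^ 4) ^ NN ≤ 1000 ^ 4 * DD k i j := by
    rintro (h | h)
    · left; exact ⟨2, by norm_num, by norm_num, by rw [q2, p2]; exact h⟩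
    · right; exact DD_jump h hs
  have fin2 : (SS (k + 3) i3 j3 ∨ KH * (rc k i j).s1 ≤ (rc (k + 4) i4 j4).s1) →
      (∃ m, 1 ≤ m ∧ m ≤ 4 ∧ SS (k + m) (i4 / 1000 ^ (4 - m)) (j4 / 1000 ^ (4 - m))) ∨
      DD (k + 4) i4 j4 * (1000 ^ 4) ^ NN ≤ 1000 ^ 4 * DD k i j := by
    rintro (h | h)
    · left; exact ⟨3, by norm_num, by norm_num, by rw [q3, p3]; exact h⟩
    · right; exact DD_jump h hs
  have fin3 : (SS (k + 4) i4 j4 ∨ KH * (rc k i j).s1 ≤ (rc (k + 4) i4 j4).s1) →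
      (∃ m, 1 ≤ m ∧ m ≤ 4 ∧ SS (k + m) (i4 / 1000 ^ (4 - m)) (j4 / 1000 ^ (4 - m))) ∨
      DD (k + 4) i4 j4 * (1000 ^ 4) ^ NN ≤ 1000 ^ 4 * DD k i j := by
    rintro (h | h)
    · left; exact ⟨4, by norm_num, by norm_num, by rw [q4, p4]; exact h⟩
    · right; exact DD_jump h hs
  have r1 := rc_dig (k := k) d1
  have r2 := rc_dig (k := k + 1) d2
  have r3 := rc_dig (k := k + 2) d3
  rw [a1, b1] at r1
  rw [a2, b2] at r2
  rw [a3, b3] at r3
  have fromO : (rc (k + 1) i1 j1).ph = Ph.O →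
      (∃ m, 1 ≤ m ∧ m ≤ 4 ∧ SS (k + m) (i4 / 1000 ^ (4 - m)) (j4 / 1000 ^ (4 - m))) ∨
      DD (k + 4) i4 j4 * (1000 ^ 4) ^ NN ≤ 1000 ^ 4 * DD k i j := by
    intro h1
    have h2 : (rc (k + 2) i2 j2).ph = Ph.C :=
      ph_O_fresh (k := k + 1) li2 lj2 d2 (by rw [a2, b2]; exact Or.inr d1)
        (by rw [a2, b2]; exact h1)
    have h3 : (rc (k + 3) i3 j3).ph = Ph.U := by rw [r3]; exact ph_C_to_U h2 _ _ _
    exact fin3 (c3 h3)
  cases hp : (rc k i j).ph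
  · apply fromO; rw [r1]; exact ph_U_to_O hp _ _ _
  · rcases ph_O_to hp (ctr (k + 1) i1) (ctr (k + 1) j1) (rho (k + 1)) with h | h
    · rw [← r1] at h
      have h2 : (rc (k + 2) i2 j2).ph = Ph.U := by rw [r2]; exact ph_C_to_U h _ _ _
      exact fin2 (c2 h2)
    · rw [← r1] at h
      exact fromO h
  · have h1 : (rc (k + 1) i1 j1).ph = Ph.U := by rw [r1]; exact ph_C_to_U hp _ _ _
    exact fin1 (c1 h1)

/-- almost every point lies in infinitely many successful squares -/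
theorem ae_success : ∀ᵐ p : ℝ × ℝ ∂volume, |p.1| < 1 → |p.2| < 1 →
      ∀ n : ℕ, ∃ k, n ≤ k ∧ SS k (Meas.idx k p.1) (Meas.idx k p.2) :=
  Meas.ae_frequently NN NN_pos NN_spec DD SS (fun _ _ _ hi hj => DD_one hi hj)
    (fun _ _ _ hi hj => DD_succ hi hj) (fun _ _ _ hi hj => DD_four hi hj)

/-- value of the map on the relevant segment over a successful square -/
lemma osc_val {m i j : ℕ} (hi : i < 1000 ^ (m + 1)) (hj : j < 1000 ^ (m + 1)) (hd : dig i j)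
    (ha : act m (i / 1000) (j / 1000)) (hp : (rc m (i / 1000) (j / 1000)).ph = Ph.U)
    {p : E} (h0 : |p 0 - ctr (m + 1) i| ≤ 25 / 10 * rho (m + 1))
    (h1 : |p 1 - ctr (m + 1) j| ≤ 25 / 10 * rho (m + 1))
    (h2 : 20 * rho (m + 1) ≤ p 2) (h2' : p 2 ≤ 400 * rho (m + 1)) :
    FF p = (rc m (i / 1000) (j / 1000)).L p +
        (rho m - (p 0 - ctr m (i / 1000)) - p 2) • (rc m (i / 1000) (j / 1000)).V ∧
      ‖FF p‖ ≤ 100003 := by
  have hr := rho_pos (m + 1)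
  have hrs := rho_succ m
  have hi' := div_lt_pow hi
  have hj' := div_lt_pow hj
  obtain ⟨hb1, hb2, hb3⟩ := act_cell hi' hj' ha
  have e1 : ctr (m + 1) i - ctr m (i / 1000) = 499 * rho (m + 1) := by
    rw [ctr_next m i 749 hd.1]; norm_num
  have e2 : ctr (m + 1) j - ctr m (j / 1000) = 249 * rho (m + 1) := by
    rw [ctr_next m j 624 hd.2]; norm_num
  obtain ⟨a1, a2⟩ := abs_le.1 h0
  obtain ⟨a3, a4⟩ := abs_le.1 h1
  have f0 : |p 0 - ctr m (i / 1000)| = p 0 - ctr m (i / 1000) := abs_of_nonneg (by linarith)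
  have f1 : |p 1 - ctr m (j / 1000)| = p 1 - ctr m (j / 1000) := abs_of_nonneg (by linarith)
  have fm : max |p 0 - ctr m (i / 1000)| |p 1 - ctr m (j / 1000)| = p 0 - ctr m (i / 1000) := by
    rw [f0, f1]; exact max_eq_left (by linarith)
  have hover : Over m (i / 1000) (j / 1000) p := ⟨by rw [f0]; linarith, by rw [f1]; linarith⟩
  have hz : 0 ≤ p 2 := by linarith
  have hin : InP (rc m (i / 1000) (j / 1000)) p := by
    unfold InP; rw [hb1, hb2, hb3, fm]; linarith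
  have hF : FF p = (rc m (i / 1000) (j / 1000)).L p + (rc m (i / 1000) (j / 1000)).D p := by
    rw [FF_eq (m := m + 1) (by linarith), Fp_eq m _ _ hi' hj' p hz hover hin]
  constructor
  · rw [hF]
    congr 1
    unfold St.D St.hat
    rw [hp, hb1, hb2, hb3]
    simp only []
    rw [fm, max_eq_right (by linarith)]
  · rw [hF]; exact LD_bound (rc_inv m _ _ hi' hj') hz hin

theorem osc {k i j : ℕ} (hi : i < 1000 ^ k) (hj : j < 1000 ^ k) (hS : SS k i j) {p q : E}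
    (hp0 : |p 0 - ctr k i| ≤ 25 / 10 * rho k) (hp1 : |p 1 - ctr k j| ≤ 25 / 10 * rho k)
    (hp2 : p 2 = 400 * rho k) (hq0 : |q 0 - ctr k i| ≤ 25 / 10 * rho k)
    (hq1 : |q 1 - ctr k j| ≤ 25 / 10 * rho k) (hq2 : q 2 = 20 * rho k) :
    4 / 10 ≤ ‖FF q - FF p‖ ∧ ‖FF p‖ ≤ 100003 ∧ ‖FF q‖ ≤ 100003 := by
  obtain ⟨m, rfl, hd, ha, hp, hcap⟩ := hS
  have hr := rho_pos (m + 1)
  have hrs := rho_succ m
  obtain ⟨ep, bp⟩ := osc_val hi hj hd ha hp hp0 hp1 (by linarith) (by linarith)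
  obtain ⟨eq, bq⟩ := osc_val hi hj hd ha hp hq0 hq1 (by linarith) (by linarith)
  refine ⟨?_, bp, bq⟩
  have hi' := div_lt_pow hi
  have hj' := div_lt_pow hj
  obtain ⟨hb1, hb2, hb3⟩ := act_cell hi' hj' ha
  have hI := (rc_inv m _ _ hi' hj').invU hp
  set σ := rc m (i / 1000) (j / 1000) with hσ
  have hs : σ.s = 1 / rho m := by unfold St.s; rw [hb3, min_eq_left hcap]
  have hV := U_Vlo hI hp
  have hs1 := hI.hs1
  have h1r := hI.h1r
  rw [hb3] at h1r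
  obtain ⟨a1, a2⟩ := abs_le.1 hp0
  obtain ⟨a3, a4⟩ := abs_le.1 hp1
  obtain ⟨a5, a6⟩ := abs_le.1 hq0
  obtain ⟨a7, a8⟩ := abs_le.1 hq1
  have e : FF q - FF p = ((q 0 - p 0) • σ.a + (q 1 - p 1) • σ.b) + (q 2 - p 2) • σ.c +
      (380 * rho (m + 1) - (q 0 - p 0)) • σ.V := by
    rw [ep, eq]
    unfold St.L
    have : (380 * rho (m + 1) : ℝ) = p 2 - q 2 := by rw [hp2, hq2]; ring
    rw [this]
    module
  have n1 : ‖(q 0 - p 0) • σ.a + (q 1 - p 1) • σ.b‖ ≤ 2 * (11 / 10 * σ.s1 * (5 * rho (m + 1))) := by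
    apply norm_comb_le _ _ _ _ _ _ hI.ha' hI.hb'
    · rw [abs_le]; constructor <;> linarith
    · rw [abs_le]; constructor <;> linarith
  have n2 : ‖(q 2 - p 2) • σ.c‖ ≤ 380 * rho (m + 1) * (6 * σ.s3) := by
    rw [norm_smul, hq2, hp2, Real.norm_eq_abs]
    have : |20 * rho (m + 1) - 400 * rho (m + 1)| = 380 * rho (m + 1) := by
      rw [abs_of_nonpos (by linarith)]; ring
    rw [this]
    exact mul_le_mul_of_nonneg_left hI.hc (by positivity)
  have n3 : 375 * rho (m + 1) * (1095 / 1000 * σ.s) ≤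
      ‖(380 * rho (m + 1) - (q 0 - p 0)) • σ.V‖ := by
    rw [norm_smul, Real.norm_of_nonneg (by linarith)]
    apply mul_le_mul (by linarith) hV (by have := hI.s_pos; positivity) (by linarith)
  have n4 : 375 * rho (m + 1) * (1095 / 1000 * σ.s) = 375 / 1000 * (1095 / 1000) := by
    rw [hs, hrs]; field_simp
  rw [n4] at n3
  have hs3 : 380 * rho (m + 1) * (6 * σ.s3) ≤ rho (m + 1) * σ.s1 := by
    have h12 := hI.h12
    have h23 := hI.h23
    have hs3 := hI.hs3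
    have : 380 * (6 * σ.s3) ≤ σ.s1 := by linarith
    nlinarith
  have hsm : rho (m + 1) * σ.s1 ≤ 1 / 1000000 := by
    rw [hrs] at h1r; linarith
  rw [e]
  have t1 := norm_add_le ((q 0 - p 0) • σ.a + (q 1 - p 1) • σ.b) ((q 2 - p 2) • σ.c)
  have t2 : ‖(380 * rho (m + 1) - (q 0 - p 0)) • σ.V‖ ≤
      ‖((q 0 - p 0) • σ.a + (q 1 - p 1) • σ.b) + (q 2 - p 2) • σ.c +
      (380 * rho (m + 1) - (q 0 - p 0)) • σ.V‖ +
      ‖((q 0 - p 0) • σ.a + (q 1 - p 1) • σ.b) + (q 2 - p 2) • σ.c‖ := by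
    have := norm_sub_le (((q 0 - p 0) • σ.a + (q 1 - p 1) • σ.b) + (q 2 - p 2) • σ.c +
      (380 * rho (m + 1) - (q 0 - p 0)) • σ.V)
      (((q 0 - p 0) • σ.a + (q 1 - p 1) • σ.b) + (q 2 - p 2) • σ.c)
    rwa [add_sub_cancel_left] at this
  nlinarith

end Pool.Agent.Helper746
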