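import Mathlib

set_option autoImplicit false

namespace Pool.Agent.Helper746.Qc

open Set Metric MeasureTheory Filter Topology
open scoped ENNReal NNReal

noncomputable section

/-- Euclidean `n`-space. -/
abbrev Eu (n : ℕ) := EuclideanSpace ℝ (Fin n)

/-- Volume of the unit ball. -/
def vb (n : ℕ) : ℝ≥0∞ := volume (ball (0 : Eu n) 1)

/-- `f` is `K`-round at `x` on all sufficiently small spheres. -/
def Rnd {n : ℕ} (K : ℝ) (f : Eu n → Eu n) (x : Eu n) : Prop :=
  ∃ δ₀ : ℝ, 0 < δ₀ ∧ ∀ ξ ξ' : Eu n, dist ξ x = dist ξ' x → 0 < dist ξ x → dist ξ x < δ₀ →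
    dist (f ξ) (f x) ≤ K * dist (f ξ') (f x)

/-- The working hypothesis on `f`: a continuous injective open map which is `H`-round at every point
and `K`-round at almost every point. -/
structure QC {n : ℕ} (H K : ℝ) (f : Eu n → Eu n) : Prop where
  cont : Continuous f
  inj : Function.Injective f
  opn : IsOpenMap f
  rnd : ∀ x, Rnd H f x
  rndae : ∀ᵐ x : Eu n, Rnd K f x

/-- `mm f x d` is the minimum of `|f ζ - f x|` over the sphere `|ζ - x| = d`. -/
def mm {n : ℕ} (f : Eu n → Eu n) (x : Eu n) (d : ℝ) : ℝ :=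
  sInf ((fun ζ => dist (f ζ) (f x)) '' sphere x d)

/-- clamped logarithm: `0` for `t ≤ a`, `log (b/a)` for `t ≥ b`, `log (t/a)` in between. -/
def cl (a b t : ℝ) : ℝ := max 0 (min (Real.log (b / a)) (Real.log (t / a)))

/-- closed tube of radius `r` around the segment `[x, x+v]`. -/
def Tube {n : ℕ} (v x : Eu n) (r : ℝ) : Set (Eu n) :=
  {z | ∃ s ∈ Icc (0 : ℝ) 1, dist z (x + s • v) ≤ r}

/-- The upper gradient inequality along segments (for each direction `v`, almost every starting point). -/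
def UG {n : ℕ} (w : Eu n → ℝ) (ℓ : Eu n → ℝ≥0∞) : Prop :=
  ∀ v : Eu n, ∀ᵐ x : Eu n,
    ENNReal.ofReal |w (x + v) - w x| ≤ (∫⁻ s in Icc (0 : ℝ) 1, ℓ (x + s • v)) * ENNReal.ofReal ‖v‖

end

end Pool.Agent.Helper746.Qc
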