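import Mathlib
import Pool.Agent.Helper746.QcDefs

set_option autoImplicit false

namespace Pool.Agent.Helper746.Qc

open Set Metric MeasureTheory Filter Topology
open scoped ENNReal NNReal

noncomputable section

/-- Local working hypothesis: on the open set `G` (of finite volume, with image of finite volume) the map `f`
is a homeomorphism onto its open image, `H`-round at every point and `K`-round at almost every point. -/
structure QCOn {n : ℕ} (H K : ℝ) (f : Eu n → Eu n) (G : Set (Eu n)) : Prop where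
  isOpen : IsOpen G
  cont : ContinuousOn f G
  inj : InjOn f G
  opn : ∀ U : Set (Eu n), U ⊆ G → IsOpen U → IsOpen (f '' U)
  rnd : ∀ x ∈ G, Rnd H f x
  rndae : ∀ᵐ x : Eu n, x ∈ G → Rnd K f x
  finG : volume G ≠ ⊤
  finfG : volume (f '' G) ≠ ⊤

/-- The upper gradient inequality along segments contained in `Ω`. -/
def UGOn {n : ℕ} (w : Eu n → ℝ) (ℓ : Eu n → ℝ≥0∞) (Ω : Set (Eu n)) : Prop :=
  ∀ v : Eu n, ∀ᵐ x : Eu n, (∀ s ∈ Icc (0 : ℝ) 1, x + s • v ∈ Ω) →
    ENNReal.ofReal |w (x + v) - w x| ≤ (∫⁻ s in Icc (0 : ℝ) 1, ℓ (x + s • v)) * ENNReal.ofReal ‖v‖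

/-- `σ` bounds the pointwise Lipschitz constant of `u`. -/
def LocBd {n : ℕ} (u : Eu n → ℝ) (σ : Eu n → ℝ≥0∞) : Prop :=
  ∀ y : Eu n, ∀ c : ℝ, σ y < ENNReal.ofReal c →
    ∃ δ : ℝ, 0 < δ ∧ ∀ y' : Eu n, dist y' y < δ → |u y' - u y| ≤ c * dist y' y

end

end Pool.Agent.Helper746.Qc
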