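import Mathlib
import Pool.Agent.Helper746.QcLDefs

set_option autoImplicit false

namespace Pool.Agent.Helper746.Qc

open Set Metric MeasureTheory Filter Topology
open scoped ENNReal NNReal

noncomputable section

/-- `f` restricted to each ball of radius `1/4` centred in the closed ball of radius `A` satisfies `QCOn`. -/
def LN {n : ℕ} (H K A : ℝ) (f : Eu n → Eu n) : Prop :=
  ∀ x : Eu n, ‖x‖ ≤ A → QCOn H K f (ball x (1 / 4))

/-- weak quasisymmetry with constant `C` at scales up to `1/80`. -/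
def WQS {n : ℕ} (C A : ℝ) (f : Eu n → Eu n) : Prop :=
  ∀ x : Eu n, ‖x‖ ≤ A → ∀ a b : Eu n, dist a x ≤ 1 / 80 → dist b x = dist a x →
    dist (f a) (f x) ≤ C * dist (f b) (f x)

/-- `f` is a continuous, locally injective and open map on the ball of radius `A`. -/
def LH {n : ℕ} (A : ℝ) (f : Eu n → Eu n) : Prop :=
  ContinuousOn f (ball 0 A) ∧
  (∀ x ∈ ball (0 : Eu n) A, ∃ δ : ℝ, 0 < δ ∧ ball x δ ⊆ ball 0 A ∧ InjOn f (ball x δ)) ∧
  ∀ U : Set (Eu n), U ⊆ ball 0 A → IsOpen U → IsOpen (f '' U)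

/-- local class on the unit ball. -/
structure LQ {n : ℕ} (K : ℝ) (f : Eu n → Eu n) : Prop where
  cont : ContinuousOn f (ball 0 1)
  linj : ∀ x ∈ ball (0 : Eu n) 1, ∃ δ : ℝ, 0 < δ ∧ InjOn f (ball x δ)
  rnd : ∀ x ∈ ball (0 : Eu n) 1, ∃ H : ℝ, 1 ≤ H ∧ ∃ δ : ℝ, 0 < δ ∧ ∀ z : Eu n, dist z x < δ → Rnd H f z
  rndae : ∀ᵐ x : Eu n, x ∈ ball (0 : Eu n) 1 → Rnd K f x

end

end Pool.Agent.Helper746.Qc
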