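import Mathlib
import Pool.Agent.Helper746.QcDefs

set_option autoImplicit false

namespace Pool.Agent.Helper746.Qc

open Set Metric MeasureTheory Filter Topology
open scoped ENNReal NNReal

noncomputable section

theorem vb_pos (n : ℕ) : 0 < vb n := by
  exact measure_ball_pos _ _ one_pos

theorem vb_lt_top (n : ℕ) : vb n < ⊤ := by
  exact measure_ball_lt_top

theorem volume_ball_eq {n : ℕ} (x : Eu n) {r : ℝ} (hr : 0 ≤ r) (hn : 1 ≤ n) :
    volume (ball x r) = ENNReal.ofReal (r ^ n) * vb n := by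
  haveI : Nonempty (Fin n) := ⟨⟨0, hn⟩⟩
  have h := Measure.addHaar_ball (volume : Measure (Eu n)) x hr
  rw [finrank_euclideanSpace_fin] at h
  exact h

theorem volume_closedBall_eq {n : ℕ} (x : Eu n) {r : ℝ} (hr : 0 ≤ r) (hn : 1 ≤ n) :
    volume (closedBall x r) = ENNReal.ofReal (r ^ n) * vb n := by
  haveI : Nonempty (Fin n) := ⟨⟨0, hn⟩⟩
  have h := Measure.addHaar_closedBall (volume : Measure (Eu n)) x hr
  rw [finrank_euclideanSpace_fin] at h
  exact h

end

end Pool.Agent.Helper746.Qc
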