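import Mathlib
import Pool.Agent.Helper746.QcDefs
import Pool.Agent.Helper746.QcLDefs
import Pool.Agent.Helper746.QcNDefs
import Pool.Agent.Helper746.QcVol

set_option autoImplicit false

namespace Pool.Agent.Helper746.Qc

open Set Metric MeasureTheory Filter Topology
open scoped ENNReal NNReal

noncomputable section

theorem alg2_real_10422_alg2 {n N : ℕ} (hn : 3 ≤ n) {T K D lam cq v : ℝ}
    (hT : 0 < T) (hK : 1 ≤ K)
    (hD : 0 < D) (hlam : 0 < lam) (hcq : 0 < cq) (hv : vb n = ENNReal.ofReal v) (hv0 : 0 < v)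
    (hN : 1 ≤ N)
    (h : ENNReal.ofReal ((T / (12 * (3 * D))) ^ n * lam ^ 2) * (ENNReal.ofReal (cq ^ n) * vb n / N) ≤
      ENNReal.ofReal (4 * (3 * D) ^ 2) * (ENNReal.ofReal (K ^ n * (n * T)) * vb n)) :
    (T / (12 * (3 * D))) ^ n * lam ^ 2 * (cq ^ n * v / N) ≤
      4 * (3 * D) ^ 2 * (K ^ n * (n * T) * v) := by
  have hN' : (0 : ℝ) < N := by exact_mod_cast hN
  have hNe : (N : ℝ≥0∞) = ENNReal.ofReal (N : ℝ) := (ENNReal.ofReal_natCast N).symm
  rw [hv, hNe, ← ENNReal.ofReal_mul (by positivity), ← ENNReal.ofReal_div_of_pos hN',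
    ← ENNReal.ofReal_mul (by positivity), ← ENNReal.ofReal_mul (by positivity),
    ← ENNReal.ofReal_mul (by positivity)] at h
  have hnn : (0 : ℝ) ≤ 4 * (3 * D) ^ 2 * (K ^ n * (n * T) * v) := by positivity
  exact (ENNReal.ofReal_le_ofReal_iff hnn).1 h

theorem alg2 {n N : ℕ} (hn : 3 ≤ n) (hN : 1 ≤ N) {T K D lam cq B : ℝ} (hT : 0 < T) (hK : 1 ≤ K)
    (hD : 0 < D) (hlam : 0 < lam) (hcq : 0 < cq) (hB : 1 ≤ B) (h1 : D ≤ B * lam) (h2 : D ≤ B * cq)
    (h : ENNReal.ofReal ((T / (12 * (3 * D))) ^ n * lam ^ 2) * (ENNReal.ofReal (cq ^ n) * vb n / N) ≤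
      ENNReal.ofReal (4 * (3 * D) ^ 2) * (ENNReal.ofReal (K ^ n * (n * T)) * vb n)) :
    T ≤ (36 * K * B) ^ 2 * (36 * B ^ 2 * N) * 2 := by
  have hN' : (1 : ℝ) ≤ N := by exact_mod_cast hN
  have hN0 : (0 : ℝ) < N := by linarith
  have hv : vb n = ENNReal.ofReal (vb n).toReal := (ENNReal.ofReal_toReal (vb_lt_top n).ne).symm
  have hv0 : 0 < (vb n).toReal := ENNReal.toReal_pos (vb_pos n).ne' (vb_lt_top n).ne
  have h3 := alg2_real_10422_alg2 hn hT hK hD hlam hcq hv hv0 hN h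
  generalize (vb n).toReal = v at hv0 h3
  obtain ⟨k, rfl⟩ : ∃ k, n = k + 1 := ⟨n - 1, by omega⟩
  have hk : 2 ≤ k := by omega
  -- the real inequality
  have h4 : T ^ (k + 1) * (lam ^ 2 * cq ^ (k + 1) * v) ≤
      (36 * B ^ 2 * N) * (k + 1) * T * (36 * K * B) ^ (k + 1) * (lam ^ 2 * cq ^ (k + 1) * v) := by
    have e1 : T ^ (k + 1) * (lam ^ 2 * cq ^ (k + 1) * v) =
        ((T / (12 * (3 * D))) ^ (k + 1) * lam ^ 2 * (cq ^ (k + 1) * v / N)) *
          (N * (36 * D) ^ (k + 1)) := by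
      have e2 : T ^ (k + 1) = (T / (12 * (3 * D))) ^ (k + 1) * (36 * D) ^ (k + 1) := by
        rw [← mul_pow]
        congr 1
        field_simp
        ring
      rw [e2]
      field_simp
    rw [e1]
    have hDl : D ^ 2 ≤ (B * lam) ^ 2 := pow_le_pow_left₀ hD.le h1 2
    have hDc : D ^ (k + 1) ≤ (B * cq) ^ (k + 1) := pow_le_pow_left₀ hD.le h2 _
    calc ((T / (12 * (3 * D))) ^ (k + 1) * lam ^ 2 * (cq ^ (k + 1) * v / N)) *
          (N * (36 * D) ^ (k + 1))
        ≤ (4 * (3 * D) ^ 2 * (K ^ (k + 1) * (((k + 1 : ℕ) : ℝ) * T) * v)) *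
          (N * (36 * D) ^ (k + 1)) := by
          apply mul_le_mul_of_nonneg_right h3 (by positivity)
      _ = (36 * K ^ (k + 1) * ((k : ℝ) + 1) * T * v * N * 36 ^ (k + 1)) *
          (D ^ 2 * D ^ (k + 1)) := by
          push_cast
          rw [mul_pow 36 D]
          ring
      _ ≤ (36 * K ^ (k + 1) * ((k : ℝ) + 1) * T * v * N * 36 ^ (k + 1)) *
          ((B * lam) ^ 2 * (B * cq) ^ (k + 1)) := by
          apply mul_le_mul_of_nonneg_left _ (by positivity)
          exact mul_le_mul hDl hDc (by positivity) (by positivity)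
      _ = _ := by
          rw [mul_pow B cq, mul_pow (36 * K) B, mul_pow 36 K]
          ring
  have h5 : T ^ (k + 1) ≤ (36 * B ^ 2 * N) * (k + 1) * T * (36 * K * B) ^ (k + 1) :=
    le_of_mul_le_mul_right h4 (by positivity)
  have h6 : T ^ k ≤ (36 * B ^ 2 * N) * (k + 1) * (36 * K * B) ^ (k + 1) := by
    have : T ^ k * T ≤ ((36 * B ^ 2 * N) * (k + 1) * (36 * K * B) ^ (k + 1)) * T := by
      calc T ^ k * T = T ^ (k + 1) := by ring
        _ ≤ _ := h5
        _ = _ := by ring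
    exact le_of_mul_le_mul_right this hT
  by_contra hcon
  push Not at hcon
  set a := 36 * K * B with ha
  set b := 36 * B ^ 2 * N with hb
  have hKB : 1 ≤ K * B := one_le_mul_of_one_le_of_one_le hK hB
  have ha1 : 1 ≤ a := by rw [ha, mul_assoc]; linarith
  have hb1 : 1 ≤ b := by
    have h8 : 1 ≤ B ^ 2 := one_le_pow₀ hB
    have : 1 ≤ B ^ 2 * N := one_le_mul_of_one_le_of_one_le h8 hN'
    rw [hb, mul_assoc]; linarith
  have h7 : (a ^ 2 * b * 2) ^ k < T ^ k := pow_lt_pow_left₀ hcon (by positivity) (by omega)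
  have h8 : b * (k + 1) * a ^ (k + 1) ≤ (a ^ 2 * b * 2) ^ k := by
    have i1 : a ^ (k + 1) ≤ (a ^ 2) ^ k := by
      rw [← pow_mul]
      exact pow_le_pow_right₀ ha1 (by omega)
    have i2 : b ≤ b ^ k := le_self_pow₀ hb1 (by omega)
    have i3 : (k : ℝ) + 1 ≤ 2 ^ k := by
      have : k + 1 ≤ 2 ^ k := Nat.lt_two_pow_self
      exact_mod_cast this
    calc b * (k + 1) * a ^ (k + 1) ≤ b ^ k * 2 ^ k * (a ^ 2) ^ k := by
          apply mul_le_mul _ i1 (by positivity) (by positivity)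
          exact mul_le_mul i2 i3 (by positivity) (by positivity)
      _ = (a ^ 2 * b * 2) ^ k := by
          rw [mul_pow (a ^ 2 * b) 2 k, mul_pow (a ^ 2) b k, mul_assoc, mul_comm,
            mul_assoc, mul_comm ((2 : ℝ) ^ k)]
          first
            | done
            | (clear_value a b; ring)
  linarith

end

end Pool.Agent.Helper746.Qc
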