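import Mathlib
import Pool.Agent.Helper746.QcDefs

set_option autoImplicit false

namespace Pool.Agent.Helper746.Qc

open Set Metric MeasureTheory Filter Topology
open scoped ENNReal NNReal

noncomputable section

theorem ring_algebra {n : ℕ} (hn : 2 ≤ n) {K c T Y₁ Y₂ : ℝ} (hK : 1 ≤ K) (hc : 0 < c) (hc1 : c ≤ 1)
    (hT : 0 < T) (hY₁ : 0 ≤ Y₁) (hY₂ : 0 ≤ Y₂)
    (h : T ≤ K * ((n : ℝ) * T) ^ ((1 : ℝ) / n) * (24 / c + 6 + (1 + Y₁) ^ (((n : ℝ) - 1) / n) +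
      (1 + Y₂) ^ (((n : ℝ) - 1) / n))) :
    T ≤ 2 * (2 * K * (24 / c + 6)) ^ 2 + 32 * K ^ 2 * (1 + Y₁ + Y₂) := by
  have hn2 : (2 : ℝ) ≤ n := by exact_mod_cast hn
  have hn0 : (0 : ℝ) < n := by linarith
  have hn1 : (0 : ℝ) < (n : ℝ) - 1 := by linarith
  obtain ⟨p, hp⟩ : ∃ p : ℝ, p = ((n : ℝ) - 1) / n := ⟨_, rfl⟩
  obtain ⟨q, hq⟩ : ∃ q : ℝ, q = (n : ℝ) / ((n : ℝ) - 1) := ⟨_, rfl⟩
  have hp0 : 0 < p := by rw [hp]; positivity
  have hq0 : 0 < q := by rw [hq]; positivity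
  have hpq : p * q = 1 := by rw [hp, hq]; field_simp
  have hq1 : 1 ≤ q := by rw [hq, le_div_iff₀ hn1]; linarith
  have hq2 : q ≤ 2 := by rw [hq, div_le_iff₀ hn1]; linarith
  rw [← hp] at h
  have hA : (30 : ℝ) ≤ 24 / c + 6 := by
    have : 24 ≤ 24 / c := by rw [le_div_iff₀ hc]; linarith
    linarith
  obtain ⟨A, hAdef⟩ : ∃ A : ℝ, A = 24 / c + 6 := ⟨_, rfl⟩
  rw [← hAdef] at h hA ⊢
  obtain ⟨B, hB⟩ : ∃ B : ℝ, B = (1 + Y₁ + Y₂) ^ p := ⟨_, rfl⟩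
  have hB0 : 0 ≤ B := by rw [hB]; positivity
  have hB1 : (1 + Y₁) ^ p ≤ B := by
    rw [hB]; exact Real.rpow_le_rpow (by linarith) (by linarith) hp0.le
  have hB2 : (1 + Y₂) ^ p ≤ B := by
    rw [hB]; exact Real.rpow_le_rpow (by linarith) (by linarith) hp0.le
  have hn3 : (n : ℝ) ^ ((1 : ℝ) / n) ≤ 2 := by
    have h1 : (n : ℝ) ≤ 2 ^ n := by
      exact_mod_cast (Nat.lt_two_pow_self (n := n)).le
    calc (n : ℝ) ^ ((1 : ℝ) / n) ≤ ((2 : ℝ) ^ n) ^ ((1 : ℝ) / n) :=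
          Real.rpow_le_rpow hn0.le h1 (by positivity)
      _ = 2 := by
        rw [← Real.rpow_natCast, ← Real.rpow_mul (by norm_num), mul_one_div_cancel hn0.ne',
          Real.rpow_one]
  have hT1 : T = T ^ ((1 : ℝ) / n) * T ^ p := by
    rw [← Real.rpow_add hT, hp, ← add_div]
    rw [show (1 : ℝ) + ((n : ℝ) - 1) = n by ring, div_self hn0.ne', Real.rpow_one]
  have hTn : 0 < T ^ ((1 : ℝ) / n) := Real.rpow_pos_of_pos hT _
  have h2 : T ^ ((1 : ℝ) / n) * T ^ p ≤ T ^ ((1 : ℝ) / n) * (2 * K * A + 4 * K * B) := by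
    rw [← hT1]
    refine h.trans ?_
    rw [Real.mul_rpow hn0.le hT.le]
    have e1 : K * ((n : ℝ) ^ ((1 : ℝ) / n) * T ^ ((1 : ℝ) / n)) ≤ K * (2 * T ^ ((1 : ℝ) / n)) :=
      mul_le_mul_of_nonneg_left (mul_le_mul_of_nonneg_right hn3 hTn.le) (by linarith)
    have e2 : A + (1 + Y₁) ^ p + (1 + Y₂) ^ p ≤ A + 2 * B := by linarith
    calc K * ((n : ℝ) ^ ((1 : ℝ) / n) * T ^ ((1 : ℝ) / n)) * (A + (1 + Y₁) ^ p + (1 + Y₂) ^ p) ≤
        K * (2 * T ^ ((1 : ℝ) / n)) * (A + 2 * B) := by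
          apply mul_le_mul e1 e2 (by positivity) (by positivity)
      _ = _ := by ring
  have h3 : T ^ p ≤ 2 * K * A + 4 * K * B := le_of_mul_le_mul_left h2 hTn
  have hP0 : 0 ≤ 2 * K * A := by positivity
  have hP0' : 0 ≤ 4 * K * B := by positivity
  have h4 : T ≤ (2 * K * A + 4 * K * B) ^ q := by
    calc T = (T ^ p) ^ q := by rw [← Real.rpow_mul hT.le, hpq, Real.rpow_one]
      _ ≤ _ := Real.rpow_le_rpow (by positivity) h3 hq0.le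
  have h5 : (2 * K * A + 4 * K * B) ^ q ≤ 2 ^ (q - 1) * ((2 * K * A) ^ q + (4 * K * B) ^ q) := by
    have := NNReal.rpow_add_le_mul_rpow_add_rpow ⟨2 * K * A, hP0⟩ ⟨4 * K * B, hP0'⟩ hq1
    exact_mod_cast this
  have h6 : (2 : ℝ) ^ (q - 1) ≤ 2 := by
    calc (2 : ℝ) ^ (q - 1) ≤ 2 ^ (1 : ℝ) :=
          Real.rpow_le_rpow_of_exponent_le (by norm_num) (by linarith)
      _ = 2 := Real.rpow_one 2
  have h7 : (2 * K * A) ^ q ≤ (2 * K * A) ^ 2 := by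
    rw [← Real.rpow_two]
    exact Real.rpow_le_rpow_of_exponent_le (by nlinarith) hq2
  have h8 : (4 * K * B) ^ q ≤ 16 * K ^ 2 * (1 + Y₁ + Y₂) := by
    rw [Real.mul_rpow (by positivity) hB0]
    have e1 : B ^ q = 1 + Y₁ + Y₂ := by
      rw [hB, ← Real.rpow_mul (by positivity), hpq, Real.rpow_one]
    have e2 : (4 * K) ^ q ≤ (4 * K) ^ 2 := by
      rw [← Real.rpow_two]
      exact Real.rpow_le_rpow_of_exponent_le (by linarith) hq2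
    rw [e1]
    calc (4 * K) ^ q * (1 + Y₁ + Y₂) ≤ (4 * K) ^ 2 * (1 + Y₁ + Y₂) :=
          mul_le_mul_of_nonneg_right e2 (by positivity)
      _ = _ := by ring
  have h9 : 0 ≤ (2 * K * A) ^ q + (4 * K * B) ^ q := by positivity
  have h10 : 2 ^ (q - 1) * ((2 * K * A) ^ q + (4 * K * B) ^ q) ≤
      2 * ((2 * K * A) ^ q + (4 * K * B) ^ q) := mul_le_mul_of_nonneg_right h6 h9
  linarith

end

end Pool.Agent.Helper746.Qc
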