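import Mathlib
import Pool.Agent.Helper746.QcDefs
import Pool.Agent.Helper746.QcLDefs
import Pool.Agent.Helper746.QcNDefs
import Pool.Agent.Helper746.QcVol

set_option autoImplicit false

namespace Pool.Agent.Helper746.Qc

open Set Metric MeasureTheory Filter Topology
open scoped ENNReal NNReal

noncomputable section

theorem apex_line_cover_apex {n : ℕ} (M : ℕ) (a u y₀ : Eu n) {D ρ : ℝ} (hD : 0 < D) (hρ : 0 < ρ)
    (hM : 2 * (M : ℝ) * ρ = 4 * D + 4 * ρ) (hM0 : 0 < M) :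
    ∃ c : ℕ → Eu n, ∀ v : Eu n, dist v y₀ ≤ D → ∀ t : ℝ, dist v (a + t • u) < ρ →
      ∃ k, k < M ∧ dist v (c k) ≤ 2 * ρ := by
  by_cases h : ∃ v₀ : Eu n, ∃ t₀ : ℝ, dist v₀ y₀ ≤ D ∧ dist v₀ (a + t₀ • u) < ρ
  · obtain ⟨v₀, t₀, h1, h2⟩ := h
    by_cases hu : u = 0
    · refine ⟨fun _ => a, fun v hv t ht => ⟨0, hM0, ?_⟩⟩
      rw [hu, smul_zero, add_zero] at ht
      linarith
    · have hun : 0 < ‖u‖ := norm_pos_iff.2 hu
      refine ⟨fun k => (a + t₀ • u) + ((-(2 * D + 2 * ρ) + (2 * (k : ℝ) + 1) * ρ)) • (‖u‖⁻¹ • u),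
        fun v hv t ht => ?_⟩
      set s : ℝ := (t - t₀) * ‖u‖ with hs
      have hsabs : |s| < 2 * D + 2 * ρ := by
        have e1 : |s| = dist (a + t • u) (a + t₀ • u) := by
          rw [dist_add_left, dist_eq_norm, ← sub_smul, norm_smul, hs, abs_mul, abs_norm,
            Real.norm_eq_abs]
        rw [e1]
        have e2 : dist (a + t • u) (a + t₀ • u) ≤ dist (a + t • u) v + dist v v₀ + dist v₀ (a + t₀ • u) :=
          dist_triangle4 _ _ _ _
        have e3 : dist v v₀ ≤ D + D := by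
          have := dist_triangle v y₀ v₀
          rw [dist_comm y₀ v₀] at this
          linarith
        rw [dist_comm (a + t • u) v] at e2
        linarith
      have hs2 := abs_lt.1 hsabs
      have hx0 : 0 ≤ (s + 2 * D + 2 * ρ) / (2 * ρ) := by
        apply div_nonneg
        · linarith [hs2.1]
        · linarith
      refine ⟨⌊(s + 2 * D + 2 * ρ) / (2 * ρ)⌋₊, ?_, ?_⟩
      · rw [Nat.floor_lt hx0, div_lt_iff₀ (by linarith)]
        have : (M : ℝ) * (2 * ρ) = 4 * D + 4 * ρ := by linarith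
        rw [this]
        linarith [hs2.2]
      · set k : ℕ := ⌊(s + 2 * D + 2 * ρ) / (2 * ρ)⌋₊ with hk
        have hk1 : (k : ℝ) ≤ (s + 2 * D + 2 * ρ) / (2 * ρ) := Nat.floor_le hx0
        have hk2 : (s + 2 * D + 2 * ρ) / (2 * ρ) < (k : ℝ) + 1 := Nat.lt_floor_add_one _
        rw [le_div_iff₀ (by linarith)] at hk1
        rw [div_lt_iff₀ (by linarith)] at hk2
        have e4 : dist (a + t • u) ((a + t₀ • u) + ((-(2 * D + 2 * ρ) + (2 * (k : ℝ) + 1) * ρ)) • (‖u‖⁻¹ • u))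
            = |s - (-(2 * D + 2 * ρ) + (2 * (k : ℝ) + 1) * ρ)| := by
          have e5 : t • u = t₀ • u + s • (‖u‖⁻¹ • u) := by
            rw [hs, smul_smul, mul_assoc, mul_inv_cancel₀ hun.ne', mul_one, ← add_smul]
            congr 1
            ring
          rw [e5, ← add_assoc, dist_add_left, dist_eq_norm, ← sub_smul, norm_smul, norm_smul,
            norm_inv, norm_norm, inv_mul_cancel₀ hun.ne', mul_one, Real.norm_eq_abs]
        have e6 : |s - (-(2 * D + 2 * ρ) + (2 * (k : ℝ) + 1) * ρ)| ≤ ρ := by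
          rw [abs_le]
          constructor
          · nlinarith [hk1]
          · nlinarith [hk2]
        have e7 := dist_triangle v (a + t • u)
          ((a + t₀ • u) + ((-(2 * D + 2 * ρ) + (2 * (k : ℝ) + 1) * ρ)) • (‖u‖⁻¹ • u))
        rw [e4] at e7
        linarith
  · refine ⟨fun _ => a, fun v hv t ht => ?_⟩
    exact absurd ⟨v, t, hv, ht⟩ h

theorem apex {n : ℕ} (hn : 3 ≤ n) (N : ℕ) (hN : 1 ≤ N) (a u : ℕ → Eu n) (y₀ : Eu n) {D : ℝ} (hD : 0 < D) :
    ∃ v : Eu n, dist v y₀ ≤ D ∧ ∀ i, i < N → ∀ t : ℝ, D / (8 * N + 8) ≤ dist v (a i + t • u i) := by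
  classical
  by_contra hcon
  push Not at hcon
  set ρ : ℝ := D / (8 * N + 8) with hρdef
  have hN1 : (1 : ℝ) ≤ N := by exact_mod_cast hN
  have hρ : 0 < ρ := by
    rw [hρdef]; positivity
  have hDρ : D = (8 * N + 8) * ρ := by
    rw [hρdef]; field_simp
  have hM : 2 * ((16 * N + 18 : ℕ) : ℝ) * ρ = 4 * D + 4 * ρ := by
    rw [hDρ]; push_cast; ring
  have hcov : ∀ i, ∃ c : ℕ → Eu n, ∀ v : Eu n, dist v y₀ ≤ D → ∀ t : ℝ, dist v (a i + t • u i) < ρ →
      ∃ k, k < (16 * N + 18) ∧ dist v (c k) ≤ 2 * ρ := fun i =>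
    apex_line_cover_apex (16 * N + 18) (a i) (u i) y₀ hD hρ hM (by omega)
  choose c hc using hcov
  have hsub : closedBall y₀ D ⊆ ⋃ i ∈ Finset.range N, ⋃ k ∈ Finset.range (16 * N + 18),
      closedBall (c i k) (2 * ρ) := by
    intro v hv
    rw [mem_closedBall] at hv
    obtain ⟨i, hi, t, ht⟩ := hcon v hv
    obtain ⟨k, hk, hk2⟩ := hc i v hv t ht
    simp only [mem_iUnion, Finset.mem_range, mem_closedBall]
    exact ⟨i, hi, k, hk, hk2⟩
  have h1 : volume (closedBall y₀ D) ≤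
      ∑ i ∈ Finset.range N, ∑ k ∈ Finset.range (16 * N + 18), volume (closedBall (c i k) (2 * ρ)) := by
    refine (measure_mono hsub).trans ((measure_biUnion_finset_le _ _).trans ?_)
    exact Finset.sum_le_sum fun i _ => measure_biUnion_finset_le _ _
  have h2 : ∑ i ∈ Finset.range N, ∑ k ∈ Finset.range (16 * N + 18), volume (closedBall (c i k) (2 * ρ))
      = ENNReal.ofReal ((N * (16 * N + 18) : ℝ) * (2 * ρ) ^ n) * vb n := by
    have : ∀ i k, volume (closedBall (c i k) (2 * ρ)) = ENNReal.ofReal ((2 * ρ) ^ n) * vb n :=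
      fun i k => volume_closedBall_eq _ (by positivity) (by omega)
    simp only [this, Finset.sum_const, Finset.card_range, nsmul_eq_mul]
    rw [ENNReal.ofReal_mul (by positivity), ENNReal.ofReal_mul (by positivity), ENNReal.ofReal_natCast,
      ENNReal.ofReal_add (by positivity) (by norm_num), ENNReal.ofReal_mul (by norm_num),
      ENNReal.ofReal_natCast]
    push_cast
    simp only [ENNReal.ofReal_ofNat]
    ring
  rw [h2, volume_closedBall_eq _ hD.le (by omega)] at h1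
  have hb0 : vb n ≠ 0 := (vb_pos n).ne'
  have hbt : vb n ≠ ⊤ := (vb_lt_top n).ne
  rw [ENNReal.mul_le_mul_iff_left hb0 hbt, ENNReal.ofReal_le_ofReal_iff (by positivity)] at h1
  have h3 : (2 * ρ) ^ n = D ^ n / (4 * N + 4) ^ n := by
    rw [← div_pow]
    congr 1
    rw [hρdef]
    field_simp
    ring
  rw [h3] at h1
  have h4 : (N * (16 * N + 18) : ℝ) < (4 * N + 4) ^ n := by
    have h5 : ((4 * N + 4 : ℝ)) ^ 3 ≤ (4 * N + 4) ^ n :=
      pow_le_pow_right₀ (by linarith) hn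
    refine lt_of_lt_of_le ?_ h5
    nlinarith [hN1, mul_pos (by linarith : (0 : ℝ) < N) (by linarith : (0 : ℝ) < N),
      pow_pos (by linarith : (0 : ℝ) < (N : ℝ)) 3]
  have h6 : 0 < D ^ n := by positivity
  have h7 : 0 < ((4 * N + 4 : ℝ)) ^ n := by positivity
  have h8 : (N * (16 * N + 18) : ℝ) * (D ^ n / (4 * N + 4) ^ n) < D ^ n := by
    rw [← mul_div_assoc, div_lt_iff₀ h7, mul_comm (D ^ n)]
    exact mul_lt_mul_of_pos_right h4 h6
  linarith

end

end Pool.Agent.Helper746.Qc
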