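import Mathlib
import Pool.Agent.Helper746.QcDefs
import Pool.Agent.Helper746.QcLDefs
import Pool.Agent.Helper746.QcNDefs
import Pool.Agent.Helper746.QcLmm

set_option autoImplicit false

namespace Pool.Agent.Helper746.Qc

open Set Metric MeasureTheory Filter Topology
open scoped ENNReal NNReal

noncomputable section

theorem inv_cont_66_beta {n : ℕ} {H K : ℝ} {f : Eu n → Eu n} {G : Set (Eu n)} (hf : QCOn H K f G) :
    ContinuousOn (Function.invFunOn f G) (f '' G) := by
  rw [_root_.continuousOn_iff]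
  rintro _ ⟨a, ha, rfl⟩ U hU haU
  have h1 : Function.invFunOn f G (f a) = a := by
    have h2 : ∃ b ∈ G, f b = f a := ⟨a, ha, rfl⟩
    exact hf.inj (Function.invFunOn_mem h2) ha (Function.invFunOn_eq h2)
  rw [h1] at haU
  refine ⟨f '' (U ∩ G), hf.opn _ inter_subset_right (hU.inter hf.isOpen), ⟨a, ⟨haU, ha⟩, rfl⟩, ?_⟩
  rintro _ ⟨⟨z, hz, rfl⟩, _⟩
  have h2 : ∃ b ∈ G, f b = f z := ⟨z, hz.2, rfl⟩
  have h3 : Function.invFunOn f G (f z) = z :=
    hf.inj (Function.invFunOn_mem h2) hz.2 (Function.invFunOn_eq h2)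
  rw [mem_preimage, h3]
  exact hz.1

theorem beta_piece_66_beta {n : ℕ} (hn : 2 ≤ n) {H K : ℝ} {f : Eu n → Eu n} {x y q : Eu n}
    (hf : QCOn H K f (ball x (1 / 4)))
    (hxy : dist (f y) (f x) ≤ mm f x (1 / 80) / 10) (hq : ‖q‖ ≤ mm f x (1 / 80) / 20) :
    ∃ b : ℝ → Eu n, ContinuousOn b (Icc 0 1) ∧ ∀ t ∈ Icc (0 : ℝ) 1, b t ∈ ball x (1 / 80) ∧
      f (b t) = (1 - t) • f x + t • f y + q := by
  have hcl : closedBall x (1 / 80) ⊆ ball x (1 / 4) := closedBall_subset_ball (by norm_num)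
  have hmm := mm_pos_on (by omega) hf (show (0 : ℝ) < 1 / 80 by norm_num) hcl
  have hsub := ball_mm_subset_on (by omega) hf (show (0 : ℝ) < 1 / 80 by norm_num) hcl
  have hbb : ball x (1 / 80) ⊆ ball x (1 / 4) := ball_subset_ball (by norm_num)
  let P : ℝ → Eu n := fun t => (1 - t) • f x + t • f y + q
  have hP : ∀ t ∈ Icc (0 : ℝ) 1, P t ∈ f '' ball x (1 / 80) := by
    intro t ht
    apply hsub
    rw [mem_ball, dist_eq_norm]
    have h1 : P t - f x = t • (f y - f x) + q := by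
      simp only [P]
      module
    rw [h1]
    have h2 : ‖t • (f y - f x)‖ ≤ mm f x (1 / 80) / 10 := by
      rw [norm_smul, ← dist_eq_norm, Real.norm_eq_abs, abs_of_nonneg ht.1]
      calc t * dist (f y) (f x) ≤ 1 * dist (f y) (f x) := by
            apply mul_le_mul_of_nonneg_right ht.2 dist_nonneg
        _ ≤ _ := by rw [one_mul]; exact hxy
    calc ‖t • (f y - f x) + q‖ ≤ ‖t • (f y - f x)‖ + ‖q‖ := norm_add_le _ _
      _ ≤ mm f x (1 / 80) / 10 + mm f x (1 / 80) / 20 := add_le_add h2 hq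
      _ < mm f x (1 / 80) := by linarith
  refine ⟨fun t => Function.invFunOn f (ball x (1 / 4)) (P t), ?_, ?_⟩
  · refine (inv_cont_66_beta hf).comp ?_ ?_
    · apply Continuous.continuousOn
      simp only [P]
      fun_prop
    · intro t ht
      exact image_mono hbb (hP t ht)
  · intro t ht
    obtain ⟨ζ, hζ, hζ2⟩ := hP t ht
    have h2 : ∃ b ∈ ball x (1 / 4), f b = P t := ⟨ζ, hbb hζ, hζ2⟩
    have h3 : Function.invFunOn f (ball x (1 / 4)) (P t) = ζ :=
      hf.inj (Function.invFunOn_mem h2) (hbb hζ) ((Function.invFunOn_eq h2).trans hζ2.symm)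
    simp only
    rw [h3]
    exact ⟨hζ, hζ2⟩

theorem beta_glue_66_beta {n : ℕ} (N : ℕ) (b : ℕ → ℝ → Eu n)
    (hb : ∀ i, i < N → ContinuousOn (b i) (Icc 0 1))
    (hag : ∀ i, i + 1 < N → b i 1 = b (i + 1) 0) (k : ℕ) (hk : 1 ≤ k) (hkN : k ≤ N) :
    ∃ β : ℝ → Eu n, ContinuousOn β (Icc 0 (k : ℝ)) ∧
      ∀ i : ℕ, i < k → ∀ t ∈ Icc (0 : ℝ) 1, β (i + t) = b i t := by
  induction k, hk using Nat.le_induction with
  | base =>
    refine ⟨b 0, by simpa using hb 0 (by omega), ?_⟩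
    intro i hi t ht
    have : i = 0 := by omega
    subst this
    simp
  | succ k hk ih =>
    obtain ⟨β, hβ, hβ2⟩ := ih (by omega)
    have hglue : β k = b k 0 := by
      have h1 := hβ2 (k - 1) (by omega) 1 ⟨zero_le_one, le_rfl⟩
      have h2 : (((k - 1 : ℕ) : ℝ) + 1) = k := by
        rw [Nat.cast_sub hk]; simp
      rw [h2] at h1
      rw [h1]
      have h3 := hag (k - 1) (by omega)
      rw [h3]
      congr 1
      omega
    refine ⟨fun τ => if τ ≤ k then β τ else b k (τ - k), ?_, ?_⟩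
    · have hIcc : Icc (0 : ℝ) ((k + 1 : ℕ) : ℝ) = Icc 0 (k : ℝ) ∪ Icc (k : ℝ) ((k + 1 : ℕ) : ℝ) := by
        rw [Icc_union_Icc_eq_Icc (by positivity) (by push_cast; linarith)]
      rw [hIcc]
      apply ContinuousOn.union_of_isClosed _ _ isClosed_Icc isClosed_Icc
      · refine hβ.congr fun τ hτ => ?_
        simp only [hτ.2, if_true]
      · have h1 : ContinuousOn (fun τ : ℝ => b k (τ - k)) (Icc (k : ℝ) ((k + 1 : ℕ) : ℝ)) := by
          refine (hb k (by omega)).comp (by fun_prop) ?_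
          intro τ hτ
          have := hτ.2
          push_cast at this
          exact ⟨by linarith [hτ.1], by linarith⟩
        refine h1.congr fun τ hτ => ?_
        by_cases h2 : τ ≤ k
        · have h3 : τ = k := le_antisymm h2 hτ.1
          subst h3
          simp only [le_refl, if_true, sub_self]
          exact hglue
        · simp only [h2, if_false]
    · intro i hi t ht
      by_cases hik : i < k
      · have h1 : (i : ℝ) + t ≤ k := by
          have : (i : ℝ) + 1 ≤ k := by exact_mod_cast hik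
          linarith [ht.2]
        simp only [h1, if_true]
        exact hβ2 i hik t ht
      · have : i = k := by omega
        subst this
        by_cases h0 : t = 0
        · subst h0
          simp only [add_zero, le_refl, if_true]
          exact hglue
        · have h1 : ¬ ((i : ℝ) + t ≤ i) := by
            have := lt_of_le_of_ne ht.1 (Ne.symm h0)
            linarith
          simp only [h1, if_false]
          congr 1
          ring

theorem beta_path {n : ℕ} (hn : 2 ≤ n) {H K A : ℝ} {f : Eu n → Eu n} (hf : LN H K A f) (hA : 3 ≤ A)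
    {N : ℕ} (hN : 1 ≤ N) {x : ℕ → Eu n} (hx : ∀ i, i ≤ N → ‖x i‖ ≤ 2)
    (hstep : ∀ i, i < N → dist (x (i + 1)) (x i) < 1 / 80 ∧
      dist (f (x (i + 1))) (f (x i)) ≤ mm f (x i) (1 / 80) / 10)
    (q : Eu n) (hq : ∀ i, i ≤ N → ‖q‖ ≤ mm f (x i) (1 / 80) / 20) :
    ∃ β : ℝ → Eu n, ContinuousOn β (Icc 0 (N : ℝ)) ∧
      ∀ i : ℕ, i < N → ∀ t ∈ Icc (0 : ℝ) 1, β (i + t) ∈ ball (x i) (1 / 80) ∧
        f (β (i + t)) = (1 - t) • f (x i) + t • f (x (i + 1)) + q := by
  have hQ : ∀ i, i ≤ N → QCOn H K f (ball (x i) (1 / 4)) := fun i hi =>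
    hf (x i) ((hx i hi).trans (by linarith))
  have hpc : ∀ i : ℕ, ∃ b : ℝ → Eu n, i < N → ContinuousOn b (Icc 0 1) ∧ ∀ t ∈ Icc (0 : ℝ) 1,
      b t ∈ ball (x i) (1 / 80) ∧ f (b t) = (1 - t) • f (x i) + t • f (x (i + 1)) + q := by
    intro i
    by_cases hi : i < N
    · obtain ⟨b, hb⟩ := beta_piece_66_beta hn (hQ i hi.le) (hstep i hi).2 (hq i hi.le)
      exact ⟨b, fun _ => hb⟩
    · exact ⟨fun _ => 0, fun h => absurd h hi⟩
  choose b hb using hpc
  obtain ⟨β, hβ, hβ2⟩ := beta_glue_66_beta N b (fun i hi => (hb i hi).1) (by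
    intro i hi
    have hi' : i < N := by omega
    have h1 := (hb i hi').2 1 ⟨zero_le_one, le_rfl⟩
    have h2 := (hb (i + 1) hi).2 0 ⟨le_rfl, zero_le_one⟩
    have h3 : b i 1 ∈ ball (x i) (1 / 4) := ball_subset_ball (by norm_num) h1.1
    have h4 : b (i + 1) 0 ∈ ball (x i) (1 / 4) := by
      have h5 := mem_ball.1 h2.1
      have h6 := (hstep i hi').1
      rw [mem_ball]
      calc dist (b (i + 1) 0) (x i) ≤ dist (b (i + 1) 0) (x (i + 1)) + dist (x (i + 1)) (x i) :=
            dist_triangle _ _ _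
        _ < 1 / 4 := by linarith
    apply (hQ i hi'.le).inj h3 h4
    rw [h1.2, h2.2]
    simp) N hN le_rfl
  refine ⟨β, hβ, fun i hi t ht => ?_⟩
  rw [hβ2 i hi t ht]
  exact (hb i hi).2 t ht

end

end Pool.Agent.Helper746.Qc
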