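import Mathlib
import Pool.Agent.Helper746.QcDefs
import Pool.Agent.Helper746.QcLDefs
import Pool.Agent.Helper746.QcNDefs

set_option autoImplicit false

namespace Pool.Agent.Helper746.Qc

open Set Metric MeasureTheory Filter Topology
open scoped ENNReal NNReal

noncomputable section

/-- injectivity radius (capped) -/
def bl_s_blowup {n : ℕ} (f : Eu n → Eu n) (x : Eu n) : ℝ :=
  sSup {s : ℝ | 0 < s ∧ s ≤ 1 / 4 ∧ InjOn f (ball x s)}

theorem bl_bdd_blowup {n : ℕ} (f : Eu n → Eu n) (x : Eu n) :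
    BddAbove {s : ℝ | 0 < s ∧ s ≤ 1 / 4 ∧ InjOn f (ball x s)} :=
  ⟨1 / 4, fun _ hs => hs.2.1⟩

theorem bl_ne_blowup {n : ℕ} {K : ℝ} {f : Eu n → Eu n} (hf : LQ K f) {x : Eu n}
    (hx : x ∈ ball (0 : Eu n) 1) :
    {s : ℝ | 0 < s ∧ s ≤ 1 / 4 ∧ InjOn f (ball x s)}.Nonempty := by
  obtain ⟨δ, hδ, hinj⟩ := hf.linj x hx
  exact ⟨min δ (1 / 4), lt_min hδ (by norm_num), min_le_right _ _,
    hinj.mono (ball_subset_ball (min_le_left _ _))⟩

theorem bl_pos_blowup {n : ℕ} {K : ℝ} {f : Eu n → Eu n} (hf : LQ K f) {x : Eu n}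
    (hx : x ∈ ball (0 : Eu n) 1) : 0 < bl_s_blowup f x := by
  obtain ⟨s, hs⟩ := bl_ne_blowup hf hx
  exact lt_of_lt_of_le hs.1 (le_csSup (bl_bdd_blowup f x) hs)

theorem bl_le_blowup {n : ℕ} {K : ℝ} {f : Eu n → Eu n} (hf : LQ K f) {x : Eu n}
    (hx : x ∈ ball (0 : Eu n) 1) : bl_s_blowup f x ≤ 1 / 4 :=
  csSup_le (bl_ne_blowup hf hx) fun _ hs => hs.2.1

theorem bl_inj_blowup {n : ℕ} {K : ℝ} {f : Eu n → Eu n} (hf : LQ K f) {x : Eu n}
    (hx : x ∈ ball (0 : Eu n) 1) : InjOn f (ball x (bl_s_blowup f x)) := by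
  intro p hp q hq hpq
  have h1 : max (dist p x) (dist q x) < bl_s_blowup f x := max_lt hp hq
  obtain ⟨s, hs, hlt⟩ := exists_lt_of_lt_csSup (bl_ne_blowup hf hx) h1
  exact hs.2.2 (mem_ball.2 ((le_max_left _ _).trans_lt hlt))
    (mem_ball.2 ((le_max_right _ _).trans_lt hlt)) hpq

theorem bl_ge_blowup {n : ℕ} {f : Eu n → Eu n} {x : Eu n} {s : ℝ} (h0 : 0 < s) (h1 : s ≤ 1 / 4)
    (h2 : InjOn f (ball x s)) : s ≤ bl_s_blowup f x :=
  le_csSup (bl_bdd_blowup f x) ⟨h0, h1, h2⟩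

theorem bl_lip_blowup {n : ℕ} {K : ℝ} {f : Eu n → Eu n} (hf : LQ K f) {x y : Eu n}
    (hx : x ∈ ball (0 : Eu n) 1) (hy : y ∈ ball (0 : Eu n) 1) :
    bl_s_blowup f x ≤ bl_s_blowup f y + dist x y := by
  by_cases h : bl_s_blowup f x - dist x y ≤ 0
  · have := bl_pos_blowup hf hy
    linarith
  · push Not at h
    have h1 : bl_s_blowup f x - dist x y ≤ bl_s_blowup f y := by
      apply bl_ge_blowup h
      · have := bl_le_blowup hf hx
        have := dist_nonneg (x := x) (y := y)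
        linarith
      · apply (bl_inj_blowup hf hx).mono
        apply ball_subset_ball'
        rw [dist_comm y x]
        linarith
    linarith

theorem bl_rnd_mono_blowup {n : ℕ} {H H' : ℝ} {f : Eu n → Eu n} {x : Eu n} (hH : H ≤ H')
    (h : Rnd H f x) : Rnd H' f x := by
  obtain ⟨δ, hδ, h1⟩ := h
  refine ⟨δ, hδ, fun ξ ξ' a b c => (h1 ξ ξ' a b c).trans ?_⟩
  exact mul_le_mul_of_nonneg_right hH dist_nonneg

theorem bl_unif_blowup {n : ℕ} {K : ℝ} {f : Eu n → Eu n} (hf : LQ K f) :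
    ∃ H : ℝ, 1 ≤ H ∧ ∀ y ∈ closedBall (0 : Eu n) (3 / 4), Rnd H f y := by
  refine (isCompact_closedBall (0 : Eu n) (3 / 4)).induction_on
    (p := fun S => ∃ H : ℝ, 1 ≤ H ∧ ∀ y ∈ S, Rnd H f y) ?_ ?_ ?_ ?_
  · exact ⟨1, le_rfl, fun y hy => absurd hy (Set.notMem_empty y)⟩
  · rintro s t hst ⟨H, hH, h⟩
    exact ⟨H, hH, fun y hy => h y (hst hy)⟩
  · rintro s t ⟨H, hH, h⟩ ⟨H', hH', h'⟩
    refine ⟨max H H', hH.trans (le_max_left _ _), ?_⟩
    rintro y (hy | hy)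
    · exact bl_rnd_mono_blowup (le_max_left _ _) (h y hy)
    · exact bl_rnd_mono_blowup (le_max_right _ _) (h' y hy)
  · intro x hx
    have hx1 : x ∈ ball (0 : Eu n) 1 := closedBall_subset_ball (by norm_num) hx
    obtain ⟨H, hH, δ, hδ, h⟩ := hf.rnd x hx1
    exact ⟨ball x δ, mem_nhdsWithin_of_mem_nhds (ball_mem_nhds x hδ), H, hH, fun y hy => h y hy⟩

theorem bl_rnd_comp_blowup {n : ℕ} {H : ℝ} {f : Eu n → Eu n} (x₀ z : Eu n) {s : ℝ} (hs : 0 < s)
    (h : Rnd H f (x₀ + s • z)) : Rnd H (fun z => f (x₀ + s • z)) z := by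
  obtain ⟨δ, hδ, h1⟩ := h
  have hd : ∀ ξ : Eu n, dist (x₀ + s • ξ) (x₀ + s • z) = s * dist ξ z := by
    intro ξ
    rw [dist_add_left, dist_smul₀, Real.norm_of_nonneg hs.le]
  refine ⟨δ / s, by positivity, fun ξ ξ' a b c => ?_⟩
  apply h1
  · rw [hd, hd, a]
  · rw [hd]; positivity
  · rw [hd]
    rw [lt_div_iff₀ hs] at c
    linarith

theorem bl_ae_blowup {n : ℕ} {N : Set (Eu n)} (hN : volume N = 0) (x₀ : Eu n) {s : ℝ} (hs : 0 < s) :
    volume ((fun z : Eu n => x₀ + s • z) ⁻¹' N) = 0 := by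
  have e : (fun z : Eu n => x₀ + s • z) ⁻¹' N = (fun z : Eu n => s • z) ⁻¹' ((fun y => x₀ + y) ⁻¹' N) := rfl
  rw [e, Measure.addHaar_preimage_smul volume hs.ne', measure_preimage_add, hN, mul_zero]

theorem blowup {n : ℕ} (hn : 2 ≤ n) {K : ℝ} {f : Eu n → Eu n} (hf : LQ K f)
    (iod : ∀ (g : Eu n → Eu n) (x : Eu n) (r : ℝ), 0 < r → ContinuousOn g (closedBall x r) →
      InjOn g (closedBall x r) → g '' closedBall x r ∈ 𝓝 (g x))
    {ρ₀ : ℝ} (hρ0 : 0 < ρ₀)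
    (hρ1 : ρ₀ < 1 / 64) (hni : ¬ InjOn f (ball 0 ρ₀)) :
    ∃ H : ℝ, 1 ≤ H ∧ ∃ g : Eu n → Eu n, LN H K (1 / (16 * ρ₀)) g ∧
      ∃ p q : Eu n, ‖p‖ ≤ 2 ∧ ‖q‖ ≤ 2 ∧ p ≠ q ∧ g p = g q := by
  obtain ⟨H, hH, hHr⟩ := bl_unif_blowup hf
  have hsub1 : closedBall (0 : Eu n) (1 / 2) ⊆ ball 0 1 := closedBall_subset_ball (by norm_num)
  have h01 : (0 : Eu n) ∈ closedBall (0 : Eu n) (1 / 2) := mem_closedBall_self (by norm_num)
  have hcs : ContinuousOn (bl_s_blowup f) (closedBall (0 : Eu n) (1 / 2)) :=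
    (LipschitzOnWith.of_le_add fun x hx y hy => bl_lip_blowup hf (hsub1 hx) (hsub1 hy)).continuousOn
  have hcψ : ContinuousOn (fun x : Eu n => (1 / 2 - ‖x‖) / bl_s_blowup f x)
      (closedBall (0 : Eu n) (1 / 2)) :=
    (continuous_const.sub continuous_norm).continuousOn.div hcs
      (fun x hx => (bl_pos_blowup hf (hsub1 hx)).ne')
  obtain ⟨x₀, hx₀, hmax⟩ := (isCompact_closedBall (0 : Eu n) (1 / 2)).exists_isMaxOn ⟨0, h01⟩ hcψ
  rw [isMaxOn_iff] at hmax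
  have hs0 : bl_s_blowup f 0 ≤ ρ₀ := by
    by_contra hcon
    push Not at hcon
    exact hni ((bl_inj_blowup hf (hsub1 h01)).mono (ball_subset_ball hcon.le))
  have hs0pos := bl_pos_blowup hf (hsub1 h01)
  have hspos := bl_pos_blowup hf (hsub1 hx₀)
  set s := bl_s_blowup f x₀ with hs
  set δ := 1 / 2 - ‖x₀‖ with hδ
  have hψ0 := hmax 0 h01
  rw [norm_zero, sub_zero, div_le_div_iff₀ hs0pos hspos] at hψ0
  -- s / 2 ≤ δ * s(0) ≤ δ * ρ₀
  have hδ0 : 0 ≤ δ := by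
    rw [hδ]; rw [mem_closedBall_zero_iff] at hx₀; linarith
  have hsδ : s ≤ 2 * ρ₀ * δ := by
    have := mul_le_mul_of_nonneg_left hs0 hδ0
    linarith
  have hδpos : 0 < δ := by
    rcases hδ0.lt_or_eq with h | h
    · exact h
    · rw [← h] at hsδ
      linarith
  have hδle : δ ≤ 1 / 2 := by
    have := norm_nonneg x₀
    rw [hδ]; linarith
  have hsρ : s ≤ ρ₀ := by nlinarith
  have hx₀n : ‖x₀‖ = 1 / 2 - δ := by rw [hδ]; ring
  -- lower bound for s near x₀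
  have hlow : ∀ z : Eu n, dist z x₀ ≤ δ / 2 → z ∈ closedBall (0 : Eu n) (1 / 2) ∧ s / 2 ≤ bl_s_blowup f z := by
    intro z hz
    have hzn : ‖z‖ ≤ 1 / 2 - δ / 2 := by
      have : ‖z‖ ≤ ‖z - x₀‖ + ‖x₀‖ := by
        simpa using norm_add_le (z - x₀) x₀
      rw [← dist_eq_norm, hx₀n] at this
      linarith
    have hzm : z ∈ closedBall (0 : Eu n) (1 / 2) := by
      rw [mem_closedBall_zero_iff]; linarith
    refine ⟨hzm, ?_⟩
    have h1 := hmax z hzm
    have hszpos := bl_pos_blowup hf (hsub1 hzm)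
    rw [div_le_div_iff₀ hszpos hspos] at h1
    -- (1/2 - ‖z‖) * s ≤ δ * s(z)
    have h2 : δ / 2 * s ≤ δ * bl_s_blowup f z := by
      refine le_trans ?_ h1
      apply mul_le_mul_of_nonneg_right _ hspos.le
      linarith
    have h3 : δ * (s / 2) ≤ δ * bl_s_blowup f z := by linarith
    exact le_of_mul_le_mul_left h3 hδpos
  have hTd : ∀ a b : Eu n, dist (x₀ + s • a) (x₀ + s • b) = s * dist a b := by
    intro a b
    rw [dist_add_left, dist_smul₀, Real.norm_of_nonneg hspos.le]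
  refine ⟨H, hH, fun z => f (x₀ + s • z), ?_, ?_⟩
  · intro x hx
    -- the centre
    have hc1 : dist (x₀ + s • x) x₀ ≤ δ / 8 := by
      rw [dist_eq_norm, add_sub_cancel_left, norm_smul, Real.norm_of_nonneg hspos.le]
      calc s * ‖x‖ ≤ (2 * ρ₀ * δ) * (1 / (16 * ρ₀)) :=
            mul_le_mul hsδ hx (norm_nonneg _) (by positivity)
        _ = δ / 8 := by field_simp; ring
    obtain ⟨hcm, hcs2⟩ := hlow (x₀ + s • x) (hc1.trans (by linarith))
    have hmapball : ∀ z ∈ ball x (1 / 4), x₀ + s • z ∈ ball (x₀ + s • x) (bl_s_blowup f (x₀ + s • x)) := by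
      intro z hz
      rw [mem_ball, hTd]
      rw [mem_ball] at hz
      nlinarith
    have hmap34 : ∀ z ∈ ball x (1 / 4), x₀ + s • z ∈ closedBall (0 : Eu n) (3 / 4) := by
      intro z hz
      rw [mem_closedBall_zero_iff]
      have h1 : ‖x₀ + s • z‖ ≤ dist (x₀ + s • z) (x₀ + s • x) + ‖x₀ + s • x‖ := by
        rw [dist_eq_norm]
        have h2 := norm_add_le (x₀ + s • z - (x₀ + s • x)) (x₀ + s • x)
        rwa [sub_add_cancel] at h2
      rw [hTd] at h1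
      rw [mem_ball] at hz
      rw [mem_closedBall_zero_iff] at hcm
      nlinarith
    have hsub34 : closedBall (0 : Eu n) (3 / 4) ⊆ ball 0 1 := closedBall_subset_ball (by norm_num)
    have hcont : ContinuousOn (fun z => f (x₀ + s • z)) (ball x (1 / 4)) := by
      apply hf.cont.comp (by fun_prop)
      intro z hz
      exact hsub34 (hmap34 z hz)
    have hinj : InjOn (fun z => f (x₀ + s • z)) (ball x (1 / 4)) := by
      intro p hp q hq hpq
      have h1 := bl_inj_blowup hf (hsub1 hcm) (hmapball p hp) (hmapball q hq) hpq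
      have h2 : dist (x₀ + s • p) (x₀ + s • q) = 0 := by rw [h1, dist_self]
      rw [hTd] at h2
      rcases mul_eq_zero.1 h2 with h | h
      · exact absurd h hspos.ne'
      · exact dist_eq_zero.1 h
    refine ⟨isOpen_ball, hcont, hinj, ?_, ?_, ?_, measure_ball_lt_top.ne, ?_⟩
    · intro U hU hUo
      rw [isOpen_iff_mem_nhds]
      rintro _ ⟨u, hu, rfl⟩
      obtain ⟨r, hr, hrU⟩ := Metric.nhds_basis_closedBall.mem_iff.1 (hUo.mem_nhds hu)
      have h1 := iod (fun z => f (x₀ + s • z)) u r hr (hcont.mono (hrU.trans hU))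
        (hinj.mono (hrU.trans hU))
      exact mem_of_superset h1 (image_mono hrU)
    · intro z hz
      exact bl_rnd_comp_blowup x₀ z hspos (hHr _ (hmap34 z hz))
    · have hnull := bl_ae_blowup (ae_iff.1 hf.rndae) x₀ hspos
      rw [ae_iff]
      refine measure_mono_null ?_ hnull
      intro z hz
      simp only [Set.mem_ofPred_eq, Classical.not_imp] at hz
      simp only [mem_preimage, Set.mem_ofPred_eq, Classical.not_imp]
      refine ⟨hsub34 (hmap34 z hz.1), fun h => hz.2 (bl_rnd_comp_blowup x₀ z hspos h)⟩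
    · have hsubim : (fun z => f (x₀ + s • z)) '' ball x (1 / 4) ⊆ f '' closedBall (0 : Eu n) (3 / 4) := by
        rintro _ ⟨z, hz, rfl⟩
        exact ⟨_, hmap34 z hz, rfl⟩
      have hcomp : IsCompact (f '' closedBall (0 : Eu n) (3 / 4)) :=
        (isCompact_closedBall _ _).image_of_continuousOn (hf.cont.mono hsub34)
      exact ((measure_mono hsubim).trans_lt hcomp.measure_lt_top).ne
  · have hnot : ¬ InjOn f (ball x₀ (2 * s)) := by
      intro h
      have := bl_ge_blowup (f := f) (x := x₀) (s := 2 * s) (by linarith) (by linarith) h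
      rw [← hs] at this
      linarith
    rw [InjOn] at hnot
    push Not at hnot
    obtain ⟨P, hP, Q, hQ, hPQ, hne⟩ := hnot
    have hT : ∀ P : Eu n, x₀ + s • (s⁻¹ • (P - x₀)) = P := by
      intro P
      rw [smul_smul, mul_inv_cancel₀ hspos.ne', one_smul, add_sub_cancel]
    have hnorm : ∀ P ∈ ball x₀ (2 * s), ‖s⁻¹ • (P - x₀)‖ ≤ 2 := by
      intro P hP
      rw [norm_smul, norm_inv, Real.norm_of_nonneg hspos.le, ← dist_eq_norm, inv_mul_le_iff₀ hspos]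
      rw [mem_ball] at hP
      linarith
    refine ⟨s⁻¹ • (P - x₀), s⁻¹ • (Q - x₀), hnorm P hP, hnorm Q hQ, ?_, ?_⟩
    · intro h
      apply hne
      rw [← hT P, ← hT Q, h]
    · simp only [hT]
      exact hPQ

end

end Pool.Agent.Helper746.Qc
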