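import Mathlib
import Pool.Agent.Helper746.QcDefs

set_option autoImplicit false

namespace Pool.Agent.Helper746.Qc

open Set Metric MeasureTheory Filter Topology
open scoped ENNReal NNReal

noncomputable section

lemma sph_ne_mmspec {n : ℕ} (hn : 1 ≤ n) (x : Eu n) {d : ℝ} (hd : 0 ≤ d) : (sphere x d).Nonempty := by
  refine ⟨EuclideanSpace.single ⟨0, hn⟩ d + x, ?_⟩
  rw [mem_sphere, dist_eq_norm, add_sub_cancel_right, EuclideanSpace.norm_single,
    Real.norm_eq_abs, abs_of_nonneg hd]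

/-- the minimum over the sphere is attained -/
theorem mm_spec {n : ℕ} (hn : 1 ≤ n) {f : Eu n → Eu n} (hc : Continuous f) (x : Eu n) {d : ℝ} (hd : 0 ≤ d) :
    ∃ ξ : Eu n, dist ξ x = d ∧ dist (f ξ) (f x) = mm f x d ∧
      ∀ ζ : Eu n, dist ζ x = d → mm f x d ≤ dist (f ζ) (f x) := by
  obtain ⟨ξ, hξ, hmin⟩ := (isCompact_sphere x d).exists_isMinOn (sph_ne_mmspec hn x hd)
    (f := fun ζ => dist (f ζ) (f x)) ((hc.dist continuous_const).continuousOn)
  have hmin' : ∀ ζ ∈ sphere x d, dist (f ξ) (f x) ≤ dist (f ζ) (f x) := fun ζ hζ => hmin hζ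
  have hl : IsLeast ((fun ζ => dist (f ζ) (f x)) '' sphere x d) (dist (f ξ) (f x)) := by
    refine ⟨⟨ξ, hξ, rfl⟩, ?_⟩
    rintro _ ⟨ζ, hζ, rfl⟩
    exact hmin' ζ hζ
  have he : mm f x d = dist (f ξ) (f x) := hl.csInf_eq
  exact ⟨ξ, hξ, he.symm, fun ζ hζ => he ▸ hmin' ζ hζ⟩

theorem mm_pos {n : ℕ} (hn : 1 ≤ n) {f : Eu n → Eu n} (hc : Continuous f) (hi : Function.Injective f)
    (x : Eu n) {d : ℝ} (hd : 0 < d) : 0 < mm f x d := by
  obtain ⟨ξ, h1, h2, -⟩ := mm_spec hn hc x hd.le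
  rw [← h2]
  refine dist_pos.2 (fun h => ?_)
  have := hi h
  rw [this, dist_self] at h1
  exact hd.ne h1

theorem ball_mm_subset {n : ℕ} (hn : 1 ≤ n) {f : Eu n → Eu n} (hc : Continuous f) (hi : Function.Injective f)
    (ho : IsOpenMap f) (x : Eu n) {d : ℝ} (hd : 0 < d) :
    ball (f x) (mm f x d) ⊆ f '' ball x d := by
  obtain ⟨ξ, h1, h2, h3⟩ := mm_spec hn hc x hd.le
  have hS : IsPreconnected (ball (f x) (mm f x d)) := (convex_ball _ _).isPreconnected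
  have hU1 : IsOpen (f '' ball x d) := ho _ isOpen_ball
  have hU2 : IsOpen (f '' closedBall x d)ᶜ :=
    ((isCompact_closedBall x d).image hc).isClosed.isOpen_compl
  refine hS.subset_left_of_subset_union hU1 hU2 ?_ ?_ ?_
  · rw [Set.disjoint_left]
    rintro _ ⟨z, hz, rfl⟩ hz'
    exact hz' ⟨z, ball_subset_closedBall hz, rfl⟩
  · intro y hy
    by_cases hyc : y ∈ f '' closedBall x d
    · left
      obtain ⟨z, hz, rfl⟩ := hyc
      refine ⟨z, ?_, rfl⟩
      rw [mem_closedBall] at hz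
      rw [mem_ball]
      refine lt_of_le_of_ne hz (fun h => ?_)
      exact absurd (mem_ball.1 hy) (not_lt.2 (h3 z h))
    · right
      exact hyc
  · exact ⟨f x, mem_ball_self (mm_pos hn hc hi x hd), ⟨x, mem_ball_self hd, rfl⟩⟩

theorem mm_le_of_le {n : ℕ} (hn : 1 ≤ n) {f : Eu n → Eu n} (hc : Continuous f) (hi : Function.Injective f)
    (ho : IsOpenMap f) (x ζ : Eu n) {d : ℝ} (hd : 0 < d) (hζ : d ≤ dist ζ x) :
    mm f x d ≤ dist (f ζ) (f x) := by
  by_contra h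
  push Not at h
  obtain ⟨z, hz, hzz⟩ := ball_mm_subset hn hc hi ho x hd (mem_ball.2 h)
  have := hi hzz
  rw [this] at hz
  exact absurd (mem_ball.1 hz) (not_lt.2 hζ)

theorem mm_mono {n : ℕ} (hn : 1 ≤ n) {f : Eu n → Eu n} (hc : Continuous f) (hi : Function.Injective f)
    (ho : IsOpenMap f) (x : Eu n) {d d' : ℝ} (hd : 0 < d) (hdd : d ≤ d') :
    mm f x d ≤ mm f x d' := by
  obtain ⟨ξ, h1, h2, -⟩ := mm_spec hn hc x (hd.le.trans hdd)
  rw [← h2]
  exact mm_le_of_le hn hc hi ho x ξ hd (h1 ▸ hdd)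

end

end Pool.Agent.Helper746.Qc
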