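import Mathlib
import Pool.Agent.Helper746.QcDefs
import Pool.Agent.Helper746.QcMmspec

set_option autoImplicit false

namespace Pool.Agent.Helper746.Qc

open Set Metric MeasureTheory Filter Topology
open scoped ENNReal NNReal

noncomputable section

theorem rnd_sand {n : ℕ} (hn : 1 ≤ n) {f : Eu n → Eu n} (hc : Continuous f) (hi : Function.Injective f)
    (ho : IsOpenMap f) {K : ℝ} (hK : 1 ≤ K) {x : Eu n} (hx : Rnd K f x) :
    ∃ δ₀ : ℝ, 0 < δ₀ ∧ ∀ x' : Eu n, x' ≠ x → dist x' x < δ₀ →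
      ball (f x) (dist (f x') (f x) / K) ⊆ f '' ball x (dist x' x) ∧
      f '' closedBall x (dist x' x) ⊆ closedBall (f x) (K * dist (f x') (f x)) := by
  obtain ⟨δ₀, hδ, hR⟩ := hx
  have hK0 : 0 < K := by linarith
  refine ⟨δ₀, hδ, fun x' hx' hd => ⟨?_, ?_⟩⟩
  · have ht : 0 < dist x' x := dist_pos.2 hx'
    obtain ⟨ξ, h1, h2, h3⟩ := mm_spec hn hc x ht.le
    have h4 : dist (f x') (f x) ≤ K * mm f x (dist x' x) := by
      rw [← h2]; exact hR x' ξ h1.symm ht hd
    refine (ball_subset_ball ?_).trans (ball_mm_subset hn hc hi ho x ht)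
    rw [div_le_iff₀ hK0, mul_comm]
    exact h4
  · have ht : 0 < dist x' x := dist_pos.2 hx'
    rintro _ ⟨y, hy, rfl⟩
    rw [mem_closedBall] at hy ⊢
    by_cases hyx : y = x
    · subst hyx
      rw [dist_self]
      positivity
    · have hs : 0 < dist y x := dist_pos.2 hyx
      obtain ⟨ξ, h1, h2, h3⟩ := mm_spec hn hc x hs.le
      obtain ⟨ζ, g1, g2, g3⟩ := mm_spec hn hc x ht.le
      have h4 : dist (f y) (f x) ≤ K * mm f x (dist y x) := by
        rw [← h2]; exact hR y ξ h1.symm hs (lt_of_le_of_lt hy hd)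
      have h5 : mm f x (dist y x) ≤ mm f x (dist x' x) := mm_mono hn hc hi ho x hs hy
      have h6 : mm f x (dist x' x) ≤ dist (f x') (f x) := g3 x' rfl
      exact h4.trans (mul_le_mul_of_nonneg_left (h5.trans h6) hK0.le)

end

end Pool.Agent.Helper746.Qc
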