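import Mathlib
import Pool.Agent.Helper746.QcDefs
import Pool.Agent.Helper746.QcMmspec
import Pool.Agent.Helper746.QcSand
import Pool.Agent.Helper746.QcVol

set_option autoImplicit false

namespace Pool.Agent.Helper746.Qc

open Set Metric MeasureTheory Filter Topology
open scoped ENNReal NNReal

noncomputable section

theorem growth_at_8002_densg {n : ℕ} (hn : 1 ≤ n) {L : ℝ} (hL : 1 ≤ L) {f : Eu n → Eu n}
    (hc : Continuous f) (hi : Function.Injective f) (ho : IsOpenMap f)
    (x : Eu n) {R : ℝ} {ζ : Eu n} (hζ : ζ ∈ ball x R) (hrnd : Rnd L f ζ) :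
    ∃ δ : ℝ, 0 < δ ∧ ∀ z' : Eu n, dist z' (f ζ) < δ → z' ∈ f '' ball x R ∧
      ENNReal.ofReal (dist (Function.invFun f z') ζ ^ n) * vb n ≤
        (Measure.map f (volume.restrict (ball x R))) (closedBall (f ζ) (L * dist z' (f ζ))) := by
  obtain ⟨δ₀, hδ₀, hs⟩ := rnd_sand hn hc hi ho hL hrnd
  rw [mem_ball] at hζ
  set δ1 := min δ₀ (R - dist ζ x) with hδ1
  have hδ1pos : 0 < δ1 := lt_min hδ₀ (by linarith)
  have hVo : IsOpen (f '' ball ζ δ1) := ho _ isOpen_ball
  have hVm : f ζ ∈ f '' ball ζ δ1 := ⟨ζ, mem_ball_self hδ1pos, rfl⟩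
  obtain ⟨δ, hδ, hsub⟩ := Metric.isOpen_iff.mp hVo _ hVm
  refine ⟨δ, hδ, fun z' hz' => ?_⟩
  obtain ⟨ζ', hζ', rfl⟩ := hsub (mem_ball.mpr hz')
  rw [mem_ball] at hζ'
  have h1 : dist ζ' ζ < δ₀ := lt_of_lt_of_le hζ' (min_le_left _ _)
  have h2 : dist ζ' ζ < R - dist ζ x := lt_of_lt_of_le hζ' (min_le_right _ _)
  have hg : Function.invFun f (f ζ') = ζ' := Function.leftInverse_invFun hi ζ'
  refine ⟨⟨ζ', ?_, rfl⟩, ?_⟩
  · rw [mem_ball]
    have := dist_triangle ζ' ζ x
    linarith
  · rw [hg]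
    by_cases hne : ζ' = ζ
    · subst hne
      rw [dist_self, zero_pow (by omega), ENNReal.ofReal_zero, zero_mul]
      exact zero_le
    · have h3 := (hs ζ' hne h1).2
      rw [Measure.map_apply hc.measurable measurableSet_closedBall,
        Measure.restrict_apply (hc.measurable measurableSet_closedBall),
        ← volume_closedBall_eq ζ dist_nonneg hn]
      apply measure_mono
      intro y hy
      refine ⟨h3 ⟨y, hy, rfl⟩, ?_⟩
      rw [mem_closedBall] at hy
      rw [mem_ball]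
      have := dist_triangle y ζ x
      linarith

theorem growth_g {n : ℕ} (hn : 1 ≤ n) {H K : ℝ} (hH : 1 ≤ H) {f : Eu n → Eu n} (hf : QC H K f)
    (x : Eu n) {R : ℝ} (hR : 0 < R) {z : Eu n} (hz : z ∈ f '' ball x R) :
    ∃ δ : ℝ, 0 < δ ∧ ∀ z' : Eu n, dist z' z < δ → z' ∈ f '' ball x R ∧
      ENNReal.ofReal (dist (Function.invFun f z') (Function.invFun f z) ^ n) * vb n ≤
        (Measure.map f (volume.restrict (ball x R))) (closedBall z (H * dist z' z)) := by
  obtain ⟨ζ, hζ, rfl⟩ := hz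
  have hg : Function.invFun f (f ζ) = ζ := Function.leftInverse_invFun hf.inj ζ
  rw [hg]
  exact growth_at_8002_densg hn hH hf.cont hf.inj hf.opn x hζ (hf.rnd ζ)

theorem dens_g {n : ℕ} (hn : 1 ≤ n) {H K : ℝ} (hH : 1 ≤ H) (hK : 1 ≤ K) {f : Eu n → Eu n} (hf : QC H K f)
    (x : Eu n) {R : ℝ} (hR : 0 < R) :
    ∀ᵐ z : Eu n, z ∈ f '' ball x R → ∀ c : ℝ, 0 ≤ c →
      ENNReal.ofReal (K ^ n) * (Measure.map f (volume.restrict (ball x R))).rnDeriv volume z
        < ENNReal.ofReal (c ^ n) →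
      ∃ δ : ℝ, 0 < δ ∧ ∀ z' : Eu n, dist z' z < δ →
        dist (Function.invFun f z') (Function.invFun f z) ≤ c * dist z' z := by
  have hfinU : IsFiniteMeasure ((volume : Measure (Eu n)).restrict (ball x R)) := by
    constructor
    rw [Measure.restrict_apply MeasurableSet.univ, Set.univ_inter]
    exact measure_ball_lt_top
  have hfin : IsFiniteMeasure (Measure.map f (volume.restrict (ball x R))) := inferInstance
  set μ : Measure (Eu n) := Measure.map f (volume.restrict (ball x R)) with hμ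
  have hemb : MeasurableEmbedding f := hf.cont.measurableEmbedding hf.inj
  have htend := Besicovitch.ae_tendsto_rnDeriv μ (volume : Measure (Eu n))
  let N : Set (Eu n) := {y | ¬ Rnd K f y}
  have hN : volume N = 0 := hf.rndae
  let N1 : Set (Eu n) := toMeasurable volume N
  have hN1 : volume N1 = 0 := by rw [measure_toMeasurable]; exact hN
  have hN1m : MeasurableSet (f '' N1) := hemb.measurableSet_image.mpr (measurableSet_toMeasurable _ _)
  have hμN : μ (f '' N1) = 0 := by
    rw [hμ, Measure.map_apply hf.cont.measurable hN1m, Set.preimage_image_eq _ hf.inj]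
    exact le_antisymm ((Measure.restrict_apply_le _ _).trans hN1.le) zero_le
  have hD0 : ∀ᵐ z : Eu n, z ∈ f '' N1 → μ.rnDeriv volume z = 0 := by
    have h1 : ∫⁻ z in f '' N1, μ.rnDeriv volume z ∂volume = 0 :=
      le_antisymm ((Measure.setLIntegral_rnDeriv_le _).trans hμN.le) zero_le
    rw [lintegral_eq_zero_iff (Measure.measurable_rnDeriv _ _)] at h1
    rw [Filter.EventuallyEq, ae_restrict_iff' hN1m] at h1
    exact h1
  filter_upwards [htend, hD0] with z hz1 hz2 hz c hc hlt
  obtain ⟨ζ, hζ, rfl⟩ := hz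
  have hg : Function.invFun f (f ζ) = ζ := Function.leftInverse_invFun hf.inj ζ
  obtain ⟨L, hL1, hLr, hLlt⟩ : ∃ L : ℝ, 1 ≤ L ∧ Rnd L f ζ ∧
      ENNReal.ofReal (L ^ n) * μ.rnDeriv volume (f ζ) < ENNReal.ofReal (c ^ n) := by
    by_cases hr : Rnd K f ζ
    · exact ⟨K, hK, hr, hlt⟩
    · refine ⟨H, hH, hf.rnd ζ, ?_⟩
      rw [hz2 ⟨ζ, subset_toMeasurable _ _ hr, rfl⟩, mul_zero]
      exact lt_of_le_of_lt zero_le hlt
  have hLpos : 0 < L := by linarith
  obtain ⟨δ, hδ, hgr⟩ := growth_at_8002_densg hn hL1 hf.cont hf.inj hf.opn x hζ hLr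
  have h1 : Tendsto (fun r => ENNReal.ofReal (L ^ n) *
      (μ (closedBall (f ζ) r) / volume (closedBall (f ζ) r))) (𝓝[>] 0)
      (𝓝 (ENNReal.ofReal (L ^ n) * μ.rnDeriv volume (f ζ))) :=
    ENNReal.Tendsto.const_mul hz1 (Or.inr ENNReal.ofReal_ne_top)
  have h2 := h1.eventually_lt_const hLlt
  rw [eventually_nhdsWithin_iff, Metric.eventually_nhds_iff] at h2
  obtain ⟨ε, hε, h3⟩ := h2
  refine ⟨min δ (ε / L), lt_min hδ (by positivity), fun z' hz' => ?_⟩
  rw [hg]
  by_cases hs0 : dist z' (f ζ) = 0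
  · have h4 : z' = f ζ := dist_eq_zero.mp hs0
    rw [h4, hg, dist_self, dist_self, mul_zero]
  · have hspos : 0 < dist z' (f ζ) := lt_of_le_of_ne dist_nonneg (Ne.symm hs0)
    set s := dist z' (f ζ) with hs
    have hsε : L * s < ε := by
      have := lt_of_lt_of_le hz' (min_le_right _ _)
      rw [lt_div_iff₀ hLpos] at this
      linarith
    have h5 := h3 (y := L * s) (by
      rw [Real.dist_eq, sub_zero, abs_of_pos (by positivity)]; exact hsε) (by
      exact (by positivity : (0:ℝ) < L * s))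
    have h6 := (hgr z' (lt_of_lt_of_le hz' (min_le_left _ _))).2
    have hvol : volume (closedBall (f ζ) (L * s)) =
        ENNReal.ofReal (L ^ n) * (ENNReal.ofReal (s ^ n) * vb n) := by
      rw [volume_closedBall_eq _ (by positivity) hn, mul_pow, ENNReal.ofReal_mul (by positivity),
        mul_assoc]
    have hvb0 : vb n ≠ 0 := (vb_pos n).ne'
    have hvbt : vb n ≠ ⊤ := (vb_lt_top n).ne
    have hv0 : volume (closedBall (f ζ) (L * s)) ≠ 0 :=
      (measure_closedBall_pos volume _ (by positivity)).ne'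
    have hvt : volume (closedBall (f ζ) (L * s)) ≠ ⊤ := measure_closedBall_lt_top.ne
    have h7 : μ (closedBall (f ζ) (L * s)) ≤
        ENNReal.ofReal (c ^ n) * (ENNReal.ofReal (s ^ n) * vb n) := by
      calc μ (closedBall (f ζ) (L * s))
          = μ (closedBall (f ζ) (L * s)) / volume (closedBall (f ζ) (L * s)) *
            volume (closedBall (f ζ) (L * s)) := (ENNReal.div_mul_cancel hv0 hvt).symm
        _ = (ENNReal.ofReal (L ^ n) * (μ (closedBall (f ζ) (L * s)) /
            volume (closedBall (f ζ) (L * s)))) * (ENNReal.ofReal (s ^ n) * vb n) := by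
            conv_lhs => rw [hvol]
            rw [hvol]; ring
        _ ≤ _ := by gcongr
    have h8 := h6.trans h7
    rw [← mul_assoc, ENNReal.mul_le_mul_iff_left hvb0 hvbt, ← ENNReal.ofReal_mul (by positivity),
      ← mul_pow] at h8
    rw [ENNReal.ofReal_le_ofReal_iff (by positivity)] at h8
    exact (pow_le_pow_iff_left₀ dist_nonneg (by positivity) (by omega)).mp h8

end

end Pool.Agent.Helper746.Qc
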