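import Mathlib
import Pool.Agent.Helper746.QcDefs

set_option autoImplicit false

namespace Pool.Agent.Helper746.Qc

open Set Metric MeasureTheory Filter Topology
open scoped ENNReal NNReal

noncomputable section

theorem pow_sum_le'_cover {ι : Type*} (S : Finset ι) (f : ι → ℝ) (m : ℕ) (hf : ∀ i ∈ S, 0 ≤ f i) :
    (∑ i ∈ S, f i) ^ (m + 1) ≤ (S.card : ℝ) ^ m * ∑ i ∈ S, f i ^ (m + 1) := by
  rcases S.eq_empty_or_nonempty with rfl | hne
  · simp
  · have hc : (0:ℝ) < S.card := by exact_mod_cast hne.card_pos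
    have h1 := pow_sum_div_card_le_sum_pow hf m
    rw [div_le_iff₀ (pow_pos hc m)] at h1
    rw [mul_comm]
    exact h1

open Classical in
theorem overlap_sum_cover {n : ℕ} (μ : Measure (Eu n)) (S : Finset ℤ) (B : ℤ → Set (Eu n))
    (hB : ∀ i ∈ S, MeasurableSet (B i)) (T : Set (Eu n)) (hBT : ∀ i ∈ S, B i ⊆ T) (M : ℕ)
    (hM : ∀ z, (S.filter (fun i => z ∈ B i)).card ≤ M) : ∑ i ∈ S, μ (B i) ≤ M * μ T := by
  have h1 : ∑ i ∈ S, μ (B i) = ∫⁻ z, ∑ i ∈ S, (B i).indicator 1 z ∂μ := by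
    rw [lintegral_finsetSum S (fun i hi => measurable_one.indicator (hB i hi))]
    exact Finset.sum_congr rfl fun i hi => (lintegral_indicator_one (hB i hi)).symm
  set U : Set (Eu n) := ⋃ i ∈ S, B i with hU
  have hUm : MeasurableSet U := Finset.measurableSet_biUnion S hB
  have hUT : U ⊆ T := by
    intro z hz
    simp only [hU, mem_iUnion] at hz
    obtain ⟨i, hi, hz⟩ := hz
    exact hBT i hi hz
  have h2 : ∀ z, ∑ i ∈ S, (B i).indicator (1 : Eu n → ℝ≥0∞) z ≤ U.indicator (fun _ => (M : ℝ≥0∞)) z := by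
    intro z
    have h3 : ∑ i ∈ S, (B i).indicator (1 : Eu n → ℝ≥0∞) z = ((S.filter (fun i => z ∈ B i)).card : ℝ≥0∞) := by
      rw [Finset.card_filter]
      push_cast
      apply Finset.sum_congr rfl
      intro i _
      by_cases h : z ∈ B i <;> simp [h]
    rw [h3]
    by_cases hz : z ∈ U
    · rw [indicator_of_mem hz]
      exact_mod_cast hM z
    · rw [indicator_of_notMem hz]
      have : S.filter (fun i => z ∈ B i) = ∅ := by
        apply Finset.filter_eq_empty_iff.2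
        intro i hi hzi
        exact hz (mem_biUnion (show i ∈ (S : Set ℤ) from hi) hzi)
      rw [this]
      simp
  rw [h1]
  calc ∫⁻ z, ∑ i ∈ S, (B i).indicator 1 z ∂μ ≤ ∫⁻ z, U.indicator (fun _ => (M : ℝ≥0∞)) z ∂μ :=
        lintegral_mono h2
    _ = M * μ U := by rw [lintegral_indicator_const hUm]
    _ ≤ M * μ T := by gcongr

theorem line_step_cover {m : ℕ} (μ : Measure (Eu (m + 1))) (w : Eu (m + 1) → ℝ) (C H : ℝ) (hC : 0 < C)
    (hH : 1 ≤ H) (v x : Eu (m + 1)) (hv : v ≠ 0) (Λ : ℝ≥0)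
    (hΛ : ∀ ρ : ℝ, 0 < ρ → ∃ r : ℝ, 0 < r ∧ r < ρ ∧ μ (Tube v x r) ≤ Λ * ENNReal.ofReal (r ^ m))
    (δ : ℝ) (hδ : 0 < δ) (A : Set ℝ) (hA : A ⊆ Icc (0 : ℝ) 1)
    (hG : ∀ s ∈ A, ∀ z' : Eu (m + 1), dist z' (x + s • v) < δ →
      ENNReal.ofReal (|w z' - w (x + s • v)| ^ (m + 1)) ≤
        ENNReal.ofReal C * μ (closedBall (x + s • v) (H * dist z' (x + s • v))))
    (O : Set ℝ) (η : ℝ) (hη : 0 < η) (hO : ∀ s ∈ A, ball s η ⊆ O) (M : ℕ)
    (hM : M = 2 * (⌈2 * H⌉₊ + 1) + 1) :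
    (volume ((fun s : ℝ => w (x + s • v)) '' A)) ^ (m + 1) ≤
      ENNReal.ofReal (2 ^ (m + 1) * C * M * (H * ‖v‖) ^ m) * Λ * (volume O) ^ m := by
  classical
  have hL : 0 < ‖v‖ := norm_pos_iff.2 hv
  have hH0 : 0 < H := by linarith
  have hHL : 0 < H * ‖v‖ := mul_pos hH0 hL
  obtain ⟨r, hr0, hr1, hr2⟩ := hΛ (min (η * (H * ‖v‖)) (δ * H)) (lt_min (by positivity) (by positivity))
  have hr3 : r < η * (H * ‖v‖) := lt_of_lt_of_le hr1 (min_le_left _ _)
  have hr4 : r < δ * H := lt_of_lt_of_le hr1 (min_le_right _ _)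
  set ρ : ℝ := r / (H * ‖v‖) with hρ
  have hρ0 : 0 < ρ := div_pos hr0 hHL
  have hρη : ρ < η := by rw [hρ, div_lt_iff₀ hHL]; exact hr3
  have hρr : ρ * (H * ‖v‖) = r := by rw [hρ]; field_simp
  have hρL : ρ * ‖v‖ < δ := by
    have : ρ * ‖v‖ * H < δ * H := by
      calc ρ * ‖v‖ * H = r := by rw [← hρr]; ring
        _ < δ * H := hr4
    exact lt_of_mul_lt_mul_right this hH0.le
  have hdist : ∀ s s' : ℝ, dist (x + s • v) (x + s' • v) = |s - s'| * ‖v‖ := by
    intro s s'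
    rw [dist_eq_norm]
    have : x + s • v - (x + s' • v) = (s - s') • v := by rw [sub_smul]; abel
    rw [this, norm_smul, Real.norm_eq_abs]
  -- cells
  set S : Finset ℤ := (Finset.Icc 0 ⌊1 / ρ⌋).filter (fun i => ∃ s ∈ A, ⌊s / ρ⌋ = i) with hS
  have hSmem : ∀ s ∈ A, ⌊s / ρ⌋ ∈ S := by
    intro s hs
    have h01 := hA hs
    rw [hS, Finset.mem_filter, Finset.mem_Icc]
    refine ⟨⟨Int.floor_nonneg.2 (div_nonneg h01.1 hρ0.le), ?_⟩, s, hs, rfl⟩
    apply Int.floor_le_floor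
    gcongr
    exact h01.2
  have hex : ∀ i : ℤ, ∃ s : ℝ, i ∈ S → (s ∈ A ∧ ⌊s / ρ⌋ = i) := by
    intro i
    by_cases hi : i ∈ S
    · obtain ⟨s, hs, hsi⟩ := (Finset.mem_filter.1 hi).2
      exact ⟨s, fun _ => ⟨hs, hsi⟩⟩
    · exact ⟨0, fun h => absurd h hi⟩
  choose t ht using hex
  have hcell : ∀ s : ℝ, (⌊s / ρ⌋ : ℝ) * ρ ≤ s ∧ s < ((⌊s / ρ⌋ : ℝ) + 1) * ρ := by
    intro s
    constructor
    · rw [← le_div_iff₀ hρ0]; exact Int.floor_le _
    · rw [← div_lt_iff₀ hρ0]; exact Int.lt_floor_add_one _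
  have hclose : ∀ s s' : ℝ, ⌊s / ρ⌋ = ⌊s' / ρ⌋ → |s - s'| < ρ := by
    intro s s' h
    have h1 := hcell s
    have h2 := hcell s'
    rw [h] at h1
    rw [abs_lt]
    constructor <;> nlinarith
  -- measure of the union of cells
  have hp : ENNReal.ofReal (S.card * ρ) ≤ volume O := by
    have h1 : volume (⋃ i ∈ S, Ico ((i : ℝ) * ρ) (((i : ℝ) + 1) * ρ)) = ∑ i ∈ S, volume (Ico ((i : ℝ) * ρ) (((i : ℝ) + 1) * ρ)) := by
      apply measure_biUnion_finset
      · intro i _ k _ hik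
        rw [Function.onFun, Set.disjoint_left]
        intro y hy1 hy2
        apply hik
        have e : ∀ l : ℤ, y ∈ Ico ((l : ℝ) * ρ) (((l : ℝ) + 1) * ρ) → ⌊y / ρ⌋ = l := by
          intro l hl
          rw [Int.floor_eq_iff]
          exact ⟨by rw [le_div_iff₀ hρ0]; exact hl.1, by rw [div_lt_iff₀ hρ0]; exact hl.2⟩
        rw [← e i hy1, e k hy2]
      · intro i _
        exact measurableSet_Ico
    have h2 : (⋃ i ∈ S, Ico ((i : ℝ) * ρ) (((i : ℝ) + 1) * ρ)) ⊆ O := by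
      intro y hy
      simp only [mem_iUnion] at hy
      obtain ⟨i, hi, hy⟩ := hy
      obtain ⟨htA, hti⟩ := ht i hi
      apply hO (t i) htA
      rw [mem_ball, Real.dist_eq]
      refine lt_trans (hclose y (t i) ?_) hρη
      rw [hti, Int.floor_eq_iff]
      exact ⟨by rw [le_div_iff₀ hρ0]; exact hy.1, by rw [div_lt_iff₀ hρ0]; exact hy.2⟩
    have h3 : ∑ i ∈ S, volume (Ico ((i : ℝ) * ρ) (((i : ℝ) + 1) * ρ)) = ENNReal.ofReal (S.card * ρ) := by
      have : ∀ i ∈ S, volume (Ico ((i : ℝ) * ρ) (((i : ℝ) + 1) * ρ)) = ENNReal.ofReal ρ := by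
        intro i _
        rw [Real.volume_Ico]
        congr 1
        ring
      rw [Finset.sum_congr rfl this, Finset.sum_const, nsmul_eq_mul,
        ENNReal.ofReal_mul (by positivity), ENNReal.ofReal_natCast]
    rw [← h3, ← h1]
    exact measure_mono h2
  -- the balls
  set B : ℤ → Set (Eu (m + 1)) := fun i => closedBall (x + t i • v) r with hB
  have hBT : ∀ i ∈ S, B i ⊆ Tube v x r := by
    intro i hi z hz
    exact ⟨t i, hA (ht i hi).1, mem_closedBall.1 hz⟩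
  have hTfin : μ (Tube v x r) < ⊤ := lt_of_le_of_lt hr2 (ENNReal.mul_lt_top ENNReal.coe_lt_top ENNReal.ofReal_lt_top)
  have hBfin : ∀ i ∈ S, μ (B i) < ⊤ := fun i hi => lt_of_le_of_lt (measure_mono (hBT i hi)) hTfin
  have hover : ∑ i ∈ S, μ (B i) ≤ M * μ (Tube v x r) := by
    apply overlap_sum_cover μ S B (fun i _ => measurableSet_closedBall) _ hBT
    intro z
    rcases (S.filter (fun i => z ∈ B i)).eq_empty_or_nonempty with h0 | ⟨k, hk⟩
    · rw [h0]; simp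
    · obtain ⟨hkS, hkz⟩ := Finset.mem_filter.1 hk
      have hsub : S.filter (fun i => z ∈ B i) ⊆ Finset.Icc (k - ((⌈2 * H⌉₊ + 1 : ℕ) : ℤ)) (k + ((⌈2 * H⌉₊ + 1 : ℕ) : ℤ)) := by
        intro i hi
        obtain ⟨hiS, hiz⟩ := Finset.mem_filter.1 hi
        have h1 : |t i - t k| * ‖v‖ ≤ 2 * r := by
          rw [← hdist]
          calc dist (x + t i • v) (x + t k • v) ≤ dist z (x + t i • v) + dist z (x + t k • v) :=
                dist_triangle_left _ _ _
            _ ≤ r + r := add_le_add (mem_closedBall.1 hiz) (mem_closedBall.1 hkz)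
            _ = 2 * r := by ring
        have h2 : |t i - t k| ≤ 2 * H * ρ := by
          rw [← hρr] at h1
          have : |t i - t k| * ‖v‖ ≤ (2 * H * ρ) * ‖v‖ := by linarith
          exact le_of_mul_le_mul_right this hL
        have h3 := hcell (t i)
        have h4 := hcell (t k)
        rw [(ht i hiS).2] at h3
        rw [(ht k hkS).2] at h4
        have h5 := abs_le.1 h2
        have h6 : 2 * H ≤ (⌈2 * H⌉₊ : ℝ) := Nat.le_ceil _
        rw [Finset.mem_Icc]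
        have h7 : ((i : ℝ) - k) * ρ < (2 * H + 1) * ρ := by nlinarith [h3.1, h4.2, h5.2]
        have h8 : ((k : ℝ) - i) * ρ < (2 * H + 1) * ρ := by nlinarith [h3.2, h4.1, h5.1]
        have h9 := lt_of_mul_lt_mul_right h7 hρ0.le
        have h10 := lt_of_mul_lt_mul_right h8 hρ0.le
        constructor
        · have : (k : ℝ) - ((⌈2 * H⌉₊ : ℝ) + 1) ≤ i := by linarith
          exact_mod_cast this
        · have : (i : ℝ) ≤ k + ((⌈2 * H⌉₊ : ℝ) + 1) := by linarith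
          exact_mod_cast this
      refine (Finset.card_le_card hsub).trans ?_
      rw [Int.card_Icc, hM]
      omega
  -- radii of the image intervals
  set e : ℤ → ℝ := fun i => (C * (μ (B i)).toReal) ^ ((1 : ℝ) / ((m + 1 : ℕ) : ℝ)) with he
  have he0 : ∀ i, 0 ≤ e i := fun i => Real.rpow_nonneg (by positivity) _
  have hepow : ∀ i, e i ^ (m + 1) = C * (μ (B i)).toReal := by
    intro i
    rw [he]
    simp only
    rw [← Real.rpow_natCast, ← Real.rpow_mul (by positivity), one_div,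
      inv_mul_cancel₀ (by positivity), Real.rpow_one]
  have himg : (fun s : ℝ => w (x + s • v)) '' A ⊆ ⋃ i ∈ S, Icc (w (x + t i • v) - e i) (w (x + t i • v) + e i) := by
    rintro _ ⟨s, hs, rfl⟩
    have hi := hSmem s hs
    obtain ⟨htA, hti⟩ := ht _ hi
    refine mem_biUnion (show ⌊s / ρ⌋ ∈ (S : Set ℤ) from hi) ?_
    have hc := hclose s (t ⌊s / ρ⌋) hti.symm
    have hd : dist (x + s • v) (x + t ⌊s / ρ⌋ • v) < δ := by
      rw [hdist]
      exact lt_of_le_of_lt (mul_le_mul_of_nonneg_right hc.le hL.le) hρL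
    have hg := hG _ htA _ hd
    have hsub : closedBall (x + t ⌊s / ρ⌋ • v) (H * dist (x + s • v) (x + t ⌊s / ρ⌋ • v)) ⊆ B ⌊s / ρ⌋ := by
      apply closedBall_subset_closedBall
      rw [hdist, ← hρr]
      have : |s - t ⌊s / ρ⌋| * (H * ‖v‖) ≤ ρ * (H * ‖v‖) := mul_le_mul_of_nonneg_right hc.le hHL.le
      linarith
    have hg2 : ENNReal.ofReal (|w (x + s • v) - w (x + t ⌊s / ρ⌋ • v)| ^ (m + 1)) ≤
        ENNReal.ofReal (C * (μ (B ⌊s / ρ⌋)).toReal) := by
      rw [ENNReal.ofReal_mul hC.le, ENNReal.ofReal_toReal (hBfin _ hi).ne]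
      exact hg.trans (by gcongr)
    have hg3 := (ENNReal.ofReal_le_ofReal_iff (by positivity)).1 hg2
    rw [← hepow] at hg3
    have hg4 := le_of_pow_le_pow_left₀ (Nat.succ_ne_zero m) (he0 _) hg3
    have hg5 := abs_le.1 hg4
    exact ⟨by linarith [hg5.1], by linarith [hg5.2]⟩
  have hvol : volume ((fun s : ℝ => w (x + s • v)) '' A) ≤ ENNReal.ofReal (∑ i ∈ S, 2 * e i) := by
    calc volume ((fun s : ℝ => w (x + s • v)) '' A)
        ≤ volume (⋃ i ∈ S, Icc (w (x + t i • v) - e i) (w (x + t i • v) + e i)) := measure_mono himg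
      _ ≤ ∑ i ∈ S, volume (Icc (w (x + t i • v) - e i) (w (x + t i • v) + e i)) :=
          measure_biUnion_finset_le _ _
      _ = ENNReal.ofReal (∑ i ∈ S, 2 * e i) := by
          rw [ENNReal.ofReal_sum_of_nonneg (fun i _ => by have := he0 i; positivity)]
          apply Finset.sum_congr rfl
          intro i _
          rw [Real.volume_Icc]
          congr 1
          ring
  have hpow : (∑ i ∈ S, 2 * e i) ^ (m + 1) ≤ (2 ^ (m + 1) * C * (S.card : ℝ) ^ m) * ∑ i ∈ S, (μ (B i)).toReal := by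
    refine (pow_sum_le'_cover S (fun i => 2 * e i) m (fun i _ => by have := he0 i; positivity)).trans (le_of_eq ?_)
    rw [Finset.mul_sum, Finset.mul_sum]
    apply Finset.sum_congr rfl
    intro i _
    rw [mul_pow, hepow]
    ring
  have hsumfin : ENNReal.ofReal (∑ i ∈ S, (μ (B i)).toReal) = ∑ i ∈ S, μ (B i) := by
    rw [ENNReal.ofReal_sum_of_nonneg (fun i _ => ENNReal.toReal_nonneg)]
    exact Finset.sum_congr rfl fun i hi => ENNReal.ofReal_toReal (hBfin i hi).ne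
  calc (volume ((fun s : ℝ => w (x + s • v)) '' A)) ^ (m + 1)
      ≤ (ENNReal.ofReal (∑ i ∈ S, 2 * e i)) ^ (m + 1) := by gcongr
    _ = ENNReal.ofReal ((∑ i ∈ S, 2 * e i) ^ (m + 1)) := by
        rw [ENNReal.ofReal_pow (Finset.sum_nonneg fun i _ => by have := he0 i; positivity)]
    _ ≤ ENNReal.ofReal ((2 ^ (m + 1) * C * (S.card : ℝ) ^ m) * ∑ i ∈ S, (μ (B i)).toReal) :=
        ENNReal.ofReal_le_ofReal hpow
    _ = ENNReal.ofReal (2 ^ (m + 1) * C * (S.card : ℝ) ^ m) * ∑ i ∈ S, μ (B i) := by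
        rw [ENNReal.ofReal_mul (by positivity), hsumfin]
    _ ≤ ENNReal.ofReal (2 ^ (m + 1) * C * (S.card : ℝ) ^ m) * (M * (Λ * ENNReal.ofReal (r ^ m))) := by
        gcongr
        exact hover.trans (by gcongr)
    _ = ENNReal.ofReal (2 ^ (m + 1) * C * M * (H * ‖v‖) ^ m) * Λ * (ENNReal.ofReal (S.card * ρ)) ^ m := by
        rw [← ENNReal.ofReal_pow (by positivity)]
        have e1 : ENNReal.ofReal (2 ^ (m + 1) * C * (S.card : ℝ) ^ m) * (M * (Λ * ENNReal.ofReal (r ^ m)))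
            = (ENNReal.ofReal (2 ^ (m + 1) * C * (S.card : ℝ) ^ m) * ENNReal.ofReal (M : ℝ) * ENNReal.ofReal (r ^ m)) * Λ := by
          rw [ENNReal.ofReal_natCast]
          ring
        have e2 : ENNReal.ofReal (2 ^ (m + 1) * C * M * (H * ‖v‖) ^ m) * Λ * ENNReal.ofReal ((S.card * ρ) ^ m)
            = (ENNReal.ofReal (2 ^ (m + 1) * C * M * (H * ‖v‖) ^ m) * ENNReal.ofReal ((S.card * ρ) ^ m)) * Λ := by
          ring
        rw [e1, e2, ← ENNReal.ofReal_mul (by positivity), ← ENNReal.ofReal_mul (by positivity),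
          ← ENNReal.ofReal_mul (by positivity)]
        congr 2
        rw [← hρr, mul_pow, mul_pow, mul_pow]
        ring
    _ ≤ _ := by gcongr

theorem line_cover {n : ℕ} (hn : 2 ≤ n) (μ : Measure (Eu n)) (w : Eu n → ℝ) (C H : ℝ) (hC : 0 < C)
    (hH : 1 ≤ H) (v x : Eu n) (hv : v ≠ 0) (Λ : ℝ≥0)
    (hΛ : ∀ ρ : ℝ, 0 < ρ → ∃ r : ℝ, 0 < r ∧ r < ρ ∧ μ (Tube v x r) ≤ Λ * ENNReal.ofReal (r ^ (n - 1)))
    (δ : ℝ) (hδ : 0 < δ) (A : Set ℝ) (hA : A ⊆ Icc (0 : ℝ) 1)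
    (hG : ∀ s ∈ A, ∀ z' : Eu n, dist z' (x + s • v) < δ →
      ENNReal.ofReal (|w z' - w (x + s • v)| ^ n) ≤
        ENNReal.ofReal C * μ (closedBall (x + s • v) (H * dist z' (x + s • v)))) :
    ∃ C' : ℝ≥0, ∀ O : Set ℝ, IsOpen O → A ⊆ O →
      (volume ((fun s : ℝ => w (x + s • v)) '' A)) ^ n ≤ C' * (volume O) ^ (n - 1) := by
  obtain ⟨m, rfl⟩ : ∃ m, n = m + 1 := ⟨n - 1, by omega⟩
  simp only [Nat.add_sub_cancel] at hΛ ⊢
  set M : ℕ := 2 * (⌈2 * H⌉₊ + 1) + 1 with hM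
  refine ⟨Real.toNNReal (2 ^ (m + 1) * C * M * (H * ‖v‖) ^ m) * Λ, ?_⟩
  intro O hO hAO
  have hcoe : (((Real.toNNReal (2 ^ (m + 1) * C * M * (H * ‖v‖) ^ m) * Λ : ℝ≥0)) : ℝ≥0∞)
      = ENNReal.ofReal (2 ^ (m + 1) * C * M * (H * ‖v‖) ^ m) * Λ := by
    rw [ENNReal.coe_mul]; rfl
  rw [hcoe]
  let Aj : ℕ → Set ℝ := fun j => {s | s ∈ A ∧ ball s (1 / ((j : ℝ) + 1)) ⊆ O}
  have hmono : Monotone Aj := by
    intro i j hij s hs
    refine ⟨hs.1, (ball_subset_ball ?_).trans hs.2⟩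
    apply one_div_le_one_div_of_le (by positivity)
    have : (i : ℝ) ≤ j := by exact_mod_cast hij
    linarith
  have hunion : A = ⋃ j, Aj j := by
    ext s
    rw [mem_iUnion]
    constructor
    · intro hs
      obtain ⟨ε, hε, hεO⟩ := Metric.isOpen_iff.1 hO s (hAO hs)
      obtain ⟨j, hj⟩ := exists_nat_one_div_lt hε
      exact ⟨j, hs, (ball_subset_ball hj.le).trans hεO⟩
    · rintro ⟨j, hj⟩
      exact hj.1
  have himg : (fun s : ℝ => w (x + s • v)) '' A = ⋃ j, (fun s : ℝ => w (x + s • v)) '' (Aj j) := by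
    conv_lhs => rw [hunion]
    exact image_iUnion
  have hmono2 : Monotone (fun j => (fun s : ℝ => w (x + s • v)) '' (Aj j)) :=
    fun i j hij => image_mono (hmono hij)
  have htend := tendsto_measure_iUnion_atTop (μ := (volume : Measure ℝ)) hmono2
  rw [← himg] at htend
  have htend2 := (ENNReal.continuous_pow (m + 1)).tendsto _ |>.comp htend
  refine le_of_tendsto' htend2 (fun j => ?_)
  exact line_step_cover μ w C H hC hH v x hv Λ hΛ δ hδ (Aj j) (fun s hs => hA hs.1)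
    (fun s hs => hG s hs.1) O (1 / ((j : ℝ) + 1)) (by positivity) (fun s hs => hs.2) M hM

end

end Pool.Agent.Helper746.Qc
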