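import Mathlib
import Pool.Agent.Helper746.QcDefs
import Pool.Agent.Helper746.QcCover

set_option autoImplicit false

namespace Pool.Agent.Helper746.Qc

open Set Metric MeasureTheory Filter Topology
open scoped ENNReal NNReal

noncomputable section

theorem line_null {n : ℕ} (hn : 2 ≤ n) (μ : Measure (Eu n)) (w : Eu n → ℝ) (C H : ℝ) (hC : 0 < C)
    (hH : 1 ≤ H) (v x : Eu n) (Λ : ℝ≥0)
    (hΛ : ∀ ρ : ℝ, 0 < ρ → ∃ r : ℝ, 0 < r ∧ r < ρ ∧ μ (Tube v x r) ≤ Λ * ENNReal.ofReal (r ^ (n - 1)))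
    (hG : ∀ s ∈ Icc (0 : ℝ) 1, ∃ δ : ℝ, 0 < δ ∧ ∀ z' : Eu n, dist z' (x + s • v) < δ →
      ENNReal.ofReal (|w z' - w (x + s • v)| ^ n) ≤
        ENNReal.ofReal C * μ (closedBall (x + s • v) (H * dist z' (x + s • v)))) :
    ∀ N : Set ℝ, N ⊆ Icc (0 : ℝ) 1 → volume N = 0 →
      volume ((fun s : ℝ => w (x + s • v)) '' N) = 0 := by
  intro N hN hN0
  by_cases hv : v = 0
  · subst hv
    have hsub : ((fun s : ℝ => w (x + s • (0 : Eu n))) '' N) ⊆ {w x} := by
      rintro _ ⟨s, _, rfl⟩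
      simp
    exact measure_mono_null hsub (by simp)
  · set h : ℝ → ℝ := fun s => w (x + s • v) with hh
    set A : ℕ → Set ℝ := fun k => {s | s ∈ N ∧ ∀ z' : Eu n, dist z' (x + s • v) < 1 / ((k : ℝ) + 1) →
      ENNReal.ofReal (|w z' - w (x + s • v)| ^ n) ≤
        ENNReal.ofReal C * μ (closedBall (x + s • v) (H * dist z' (x + s • v)))} with hA
    have hNA : N = ⋃ k, A k := by
      ext s
      rw [mem_iUnion]
      constructor
      · intro hs
        obtain ⟨δ, hδ, hδ'⟩ := hG s (hN hs)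
        obtain ⟨k, hk⟩ := exists_nat_one_div_lt hδ
        exact ⟨k, hs, fun z' hz' => hδ' z' (hz'.trans hk)⟩
      · rintro ⟨k, hk⟩
        exact hk.1
    have hk0 : ∀ k, volume (h '' A k) = 0 := by
      intro k
      obtain ⟨C', hC'⟩ := line_cover hn μ w C H hC hH v x hv Λ hΛ (1 / ((k : ℝ) + 1)) (by positivity) (A k)
        (fun s hs => hN hs.1) (fun s hs => hs.2)
      have hle : ∀ m : ℕ, (volume (h '' A k)) ^ n ≤ C' * ((m : ℝ≥0∞)⁻¹) ^ (n - 1) := by
        intro m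
        obtain ⟨U, hU1, hU2, hU3⟩ := Set.exists_isOpen_le_add (A k) volume
          (show ((m : ℝ≥0∞)⁻¹) ≠ 0 from ENNReal.inv_ne_zero.2 (ENNReal.natCast_ne_top m))
        have h0 : volume (A k) = 0 := measure_mono_null (fun s hs => hs.1) hN0
        rw [h0, zero_add] at hU3
        refine (hC' U hU2 hU1).trans ?_
        gcongr
      have hlim : Tendsto (fun m : ℕ => (C' : ℝ≥0∞) * ((m : ℝ≥0∞)⁻¹) ^ (n - 1)) atTop (𝓝 0) := by
        have h1 : Tendsto (fun m : ℕ => ((m : ℝ≥0∞)⁻¹) ^ (n - 1)) atTop (𝓝 ((0:ℝ≥0∞) ^ (n - 1))) :=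
          ((ENNReal.continuous_pow (n - 1)).tendsto 0).comp ENNReal.tendsto_inv_nat_nhds_zero
        rw [zero_pow (by omega)] at h1
        have h2 := ENNReal.Tendsto.const_mul (a := (C' : ℝ≥0∞)) h1 (Or.inr ENNReal.coe_ne_top)
        simpa using h2
      have hz : (volume (h '' A k)) ^ n ≤ 0 := ge_of_tendsto' hlim hle
      exact eq_zero_of_pow_eq_zero (le_antisymm hz zero_le)
    rw [hNA, image_iUnion]
    exact measure_iUnion_null hk0

end

end Pool.Agent.Helper746.Qc
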