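import Mathlib
import Pool.Agent.Helper746.QcDefs

set_option autoImplicit false

namespace Pool.Agent.Helper746.Qc

open Set Metric MeasureTheory Filter Topology
open scoped ENNReal NNReal

noncomputable section

theorem vol_image_le_of_lip_lusin (h : ℝ → ℝ) (S : Set ℝ) (c η : ℝ) (hη : 0 < η)
    (hS : ∀ s ∈ S, ∀ s' ∈ S, |s' - s| < η → |h s' - h s| ≤ c * |s' - s|) :
    volume (h '' S) ≤ ENNReal.ofReal c * volume S := by
  set J : ℤ → Set ℝ := fun k => Ico ((k : ℝ) * (η / 2)) (((k : ℝ) + 1) * (η / 2)) with hJ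
  have hη2 : 0 < η / 2 := by positivity
  have hcov : (⋃ k, J k) = univ := by
    refine eq_univ_of_forall fun x => mem_iUnion.2 ⟨⌊x / (η / 2)⌋, ?_⟩
    constructor
    · have := Int.floor_le (x / (η / 2))
      rwa [le_div_iff₀ hη2] at this
    · have := Int.lt_floor_add_one (x / (η / 2))
      rwa [div_lt_iff₀ hη2] at this
  have hdisj : Pairwise (Function.onFun Disjoint J) := by
    intro k l hkl
    rw [Function.onFun, Set.disjoint_left]
    rintro x ⟨h1, h2⟩ ⟨h3, h4⟩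
    apply hkl
    have e1 : (k : ℝ) < l + 1 := lt_of_mul_lt_mul_right (h1.trans_lt h4) hη2.le
    have e2 : (l : ℝ) < k + 1 := lt_of_mul_lt_mul_right (h3.trans_lt h2) hη2.le
    have e1' : k < l + 1 := by exact_mod_cast e1
    have e2' : l < k + 1 := by exact_mod_cast e2
    omega
  have hsum : ∑' k, volume (J k ∩ S) = volume S := by
    have h1 : (volume.restrict S) (⋃ k, J k) = ∑' k, (volume.restrict S) (J k) :=
      measure_iUnion hdisj fun k => measurableSet_Ico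
    rw [hcov, Measure.restrict_apply_univ] at h1
    rw [h1]
    exact tsum_congr fun k => (Measure.restrict_apply measurableSet_Ico).symm
  have hcell : ∀ k, volume (h '' (J k ∩ S)) ≤ ENNReal.ofReal c * volume (J k ∩ S) := by
    intro k
    have hL : LipschitzOnWith (Real.toNNReal c) h (J k ∩ S) := by
      refine LipschitzOnWith.of_dist_le_mul ?_
      rintro x ⟨hx1, hx2⟩ y ⟨hy1, hy2⟩
      rw [Real.dist_eq, Real.dist_eq]
      have hlt : |x - y| < η := by
        rw [abs_lt]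
        have e1 := hx1.1; have e2 := hx1.2; have e3 := hy1.1; have e4 := hy1.2
        constructor <;> nlinarith
      refine (hS y hy2 x hx2 hlt).trans ?_
      exact mul_le_mul_of_nonneg_right (Real.le_coe_toNNReal c) (abs_nonneg _)
    have := hL.hausdorffMeasure_image_le (d := 1) zero_le_one
    rw [hausdorffMeasure_real, ENNReal.rpow_one] at this
    exact this
  have himg : h '' S = ⋃ k, h '' (J k ∩ S) := by
    rw [← image_iUnion, ← iUnion_inter, hcov, univ_inter]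
  calc volume (h '' S) = volume (⋃ k, h '' (J k ∩ S)) := by rw [himg]
    _ ≤ ∑' k, volume (h '' (J k ∩ S)) := measure_iUnion_le _
    _ ≤ ∑' k, ENNReal.ofReal c * volume (J k ∩ S) := ENNReal.tsum_le_tsum hcell
    _ = ENNReal.ofReal c * volume S := by rw [ENNReal.tsum_mul_left, hsum]

theorem lusin_le {h : ℝ → ℝ} (hc : ContinuousOn h (Icc (0 : ℝ) 1))
    (hN : ∀ N : Set ℝ, N ⊆ Icc (0 : ℝ) 1 → volume N = 0 → volume (h '' N) = 0)
    {ℓ : ℝ → ℝ≥0∞} (hℓ : Measurable ℓ)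
    (hL : ∀ᵐ s ∂(volume.restrict (Icc (0 : ℝ) 1)), ∀ c : ℝ, ℓ s < ENNReal.ofReal c →
      ∃ δ : ℝ, 0 < δ ∧ ∀ s' ∈ Icc (0 : ℝ) 1, |s' - s| < δ → |h s' - h s| ≤ c * |s' - s|) :
    ENNReal.ofReal |h 1 - h 0| ≤ ∫⁻ s in Icc (0 : ℝ) 1, ℓ s := by
  by_cases htop : ∫⁻ s in Icc (0 : ℝ) 1, ℓ s = ⊤
  · rw [htop]; exact le_top
  have hfin : ∀ᵐ s ∂(volume.restrict (Icc (0 : ℝ) 1)), ℓ s < ⊤ := ae_lt_top hℓ htop
  have hae : ∀ᵐ s ∂(volume : Measure ℝ), s ∈ Icc (0 : ℝ) 1 → (ℓ s < ⊤ ∧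
      ∀ c : ℝ, ℓ s < ENNReal.ofReal c →
      ∃ δ : ℝ, 0 < δ ∧ ∀ s' ∈ Icc (0 : ℝ) 1, |s' - s| < δ → |h s' - h s| ≤ c * |s' - s|) :=
    (ae_restrict_iff' measurableSet_Icc).1 (hfin.and hL)
  set N0 : Set ℝ := {s | s ∈ Icc (0 : ℝ) 1 ∧ ¬ (ℓ s < ⊤ ∧
      ∀ c : ℝ, ℓ s < ENNReal.ofReal c →
      ∃ δ : ℝ, 0 < δ ∧ ∀ s' ∈ Icc (0 : ℝ) 1, |s' - s| < δ → |h s' - h s| ≤ c * |s' - s|)} with hN0
  have hN0v : volume N0 = 0 := by
    refine measure_mono_null ?_ (ae_iff.1 hae)
    rintro s ⟨h1, h2⟩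
    exact fun h3 => h2 (h3 h1)
  have hN0i : volume (h '' N0) = 0 := hN N0 (fun s hs => hs.1) hN0v
  have hmain : ∀ ε : ℝ, 0 < ε → volume (h '' Icc (0 : ℝ) 1) ≤
      (∫⁻ s in Icc (0 : ℝ) 1, ℓ s) + ENNReal.ofReal ε := by
    intro ε hε
    set B : ℕ → Set ℝ := fun i => {s | s ∈ Icc (0 : ℝ) 1 ∧ ENNReal.ofReal ((i : ℝ) * ε) ≤ ℓ s ∧
      ℓ s < ENNReal.ofReal (((i : ℝ) + 1) * ε)} with hB
    have hBm : ∀ i, MeasurableSet (B i) := fun i =>
      measurableSet_Icc.inter ((measurableSet_le measurable_const hℓ).inter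
        (measurableSet_lt hℓ measurable_const))
    have hBd : Pairwise (Function.onFun Disjoint B) := by
      intro k l hkl
      rw [Function.onFun, Set.disjoint_left]
      rintro x ⟨_, h1, h2⟩ ⟨_, h3, h4⟩
      apply hkl
      have e1 := h1.trans_lt h4
      have e2 := h3.trans_lt h2
      rw [ENNReal.ofReal_lt_ofReal_iff (by positivity)] at e1 e2
      have e1' := lt_of_mul_lt_mul_right e1 hε.le
      have e2' := lt_of_mul_lt_mul_right e2 hε.le
      have f1 : k < l + 1 := by exact_mod_cast e1'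
      have f2 : l < k + 1 := by exact_mod_cast e2'
      omega
    set A : ℕ → ℕ → Set ℝ := fun i m => {s | s ∈ B i \ N0 ∧ ∀ s' ∈ Icc (0 : ℝ) 1,
      |s' - s| < 1 / ((m : ℝ) + 1) → |h s' - h s| ≤ (((i : ℝ) + 1) * ε) * |s' - s|} with hA
    have hAmono : ∀ i, Monotone (A i) := by
      intro i m m' hm s hs
      refine ⟨hs.1, fun s' hs' hlt => hs.2 s' hs' (hlt.trans_le ?_)⟩
      have : (m : ℝ) ≤ m' := by exact_mod_cast hm
      gcongr
    have hAU : ∀ i, B i \ N0 ⊆ ⋃ m, A i m := by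
      intro i s hs
      have h1 : ¬ (s ∈ Icc (0 : ℝ) 1 ∧ ¬ _) := hs.2
      have h2 := not_not.1 (fun h3 => h1 ⟨hs.1.1, h3⟩)
      obtain ⟨δ, hδ, hd⟩ := h2.2 _ hs.1.2.2
      obtain ⟨m, hm⟩ := exists_nat_one_div_lt hδ
      exact mem_iUnion.2 ⟨m, hs, fun s' hs' hlt => hd s' hs' (hlt.trans hm)⟩
    have hAi : ∀ i, volume (h '' (B i \ N0)) ≤
        ENNReal.ofReal (((i : ℝ) + 1) * ε) * volume (B i) := by
      intro i
      have h1 : volume (h '' (B i \ N0)) ≤ volume (⋃ m, h '' (A i m)) := by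
        rw [← image_iUnion]
        exact measure_mono (image_mono (hAU i))
      refine h1.trans ?_
      have hmono : Monotone fun m => h '' (A i m) := fun m m' hm => image_mono (hAmono i hm)
      rw [hmono.measure_iUnion]
      refine iSup_le fun m => ?_
      refine (vol_image_le_of_lip_lusin h (A i m) (((i : ℝ) + 1) * ε) (1 / ((m : ℝ) + 1))
        (by positivity) fun s hs s' hs' hlt => hs.2 s' hs'.1.1.1 hlt).trans ?_
      gcongr
      exact fun s hs => hs.1.1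
    have hcov : h '' Icc (0 : ℝ) 1 ⊆ h '' N0 ∪ ⋃ i, h '' (B i \ N0) := by
      rintro _ ⟨s, hs, rfl⟩
      by_cases hs0 : s ∈ N0
      · exact Or.inl ⟨s, hs0, rfl⟩
      · right
        have h1 : ¬ (s ∈ Icc (0 : ℝ) 1 ∧ ¬ _) := hs0
        have h2 := not_not.1 (fun h3 => h1 ⟨hs, h3⟩)
        have hlt := h2.1
        refine mem_iUnion.2 ⟨⌊(ℓ s).toReal / ε⌋₊, s, ⟨⟨hs, ?_, ?_⟩, hs0⟩, rfl⟩
        · rw [ENNReal.ofReal_le_iff_le_toReal hlt.ne]
          have := Nat.floor_le (div_nonneg (ENNReal.toReal_nonneg (a := ℓ s)) hε.le)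
          rwa [le_div_iff₀ hε] at this
        · rw [ENNReal.lt_ofReal_iff_toReal_lt hlt.ne]
          have := Nat.lt_floor_add_one ((ℓ s).toReal / ε)
          rwa [div_lt_iff₀ hε] at this
    have hterm : ∀ i : ℕ, ENNReal.ofReal (((i : ℝ) + 1) * ε) * volume (B i) ≤
        ∫⁻ s in B i, (ℓ s + ENNReal.ofReal ε) := by
      intro i
      rw [← setLIntegral_const]
      refine setLIntegral_mono (hℓ.add_const _) fun s hs => ?_
      rw [add_mul, one_mul, ENNReal.ofReal_add (by positivity) hε.le]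
      gcongr
      exact hs.2.1
    calc volume (h '' Icc (0 : ℝ) 1)
        ≤ volume (h '' N0) + volume (⋃ i, h '' (B i \ N0)) :=
          (measure_mono hcov).trans (measure_union_le _ _)
      _ ≤ 0 + ∑' i, volume (h '' (B i \ N0)) := by
          rw [hN0i]; gcongr; exact measure_iUnion_le _
      _ ≤ 0 + ∑' i, ∫⁻ s in B i, (ℓ s + ENNReal.ofReal ε) := by
          gcongr with i
          exact (hAi i).trans (hterm i)
      _ = ∫⁻ s in ⋃ i, B i, (ℓ s + ENNReal.ofReal ε) := by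
          rw [zero_add, lintegral_iUnion hBm hBd]
      _ ≤ ∫⁻ s in Icc (0 : ℝ) 1, (ℓ s + ENNReal.ofReal ε) := by
          refine lintegral_mono_set ?_
          exact iUnion_subset fun i s hs => hs.1
      _ = (∫⁻ s in Icc (0 : ℝ) 1, ℓ s) + ENNReal.ofReal ε := by
          rw [lintegral_add_right _ measurable_const, setLIntegral_const, Real.volume_Icc]
          simp
  have hivt : ENNReal.ofReal |h 1 - h 0| ≤ volume (h '' Icc (0 : ℝ) 1) := by
    have h1 : uIcc (h 0) (h 1) ⊆ h '' uIcc 0 1 :=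
      intermediate_value_uIcc (by rwa [uIcc_of_le zero_le_one])
    rw [uIcc_of_le (zero_le_one : (0 : ℝ) ≤ 1)] at h1
    rw [← Real.volume_interval]
    exact measure_mono h1
  refine ENNReal.le_of_forall_pos_le_add fun ε hε _ => ?_
  refine hivt.trans ((hmain ε (by exact_mod_cast hε)).trans ?_)
  rw [ENNReal.ofReal_coe_nnreal]

end

end Pool.Agent.Helper746.Qc
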