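import Mathlib
import Pool.Agent.Helper746.QcDefs
import Pool.Agent.Helper746.QcVol

set_option autoImplicit false

namespace Pool.Agent.Helper746.Qc

open Set Metric MeasureTheory Filter Topology
open scoped ENNReal NNReal

noncomputable section

theorem mem_tube_iff_tube {n : ℕ} (v x z : Eu n) (r : ℝ) :
    z ∈ Tube v x r ↔ infDist (z - x) ((fun s : ℝ => s • v) '' Icc 0 1) ≤ r := by
  have hd : ∀ s : ℝ, dist z (x + s • v) = dist (z - x) (s • v) := by
    intro s
    rw [dist_eq_norm, dist_eq_norm]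
    congr 1
    abel
  constructor
  · rintro ⟨s, hs, h⟩
    rw [hd] at h
    have hm : s • v ∈ (fun s : ℝ => s • v) '' Icc (0 : ℝ) 1 := ⟨s, hs, rfl⟩
    exact (infDist_le_dist_of_mem hm).trans h
  · intro h
    have hc : IsCompact ((fun s : ℝ => s • v) '' Icc (0 : ℝ) 1) :=
      isCompact_Icc.image (by fun_prop)
    have hne : ((fun s : ℝ => s • v) '' Icc (0 : ℝ) 1).Nonempty :=
      ⟨_, 0, ⟨le_refl _, zero_le_one⟩, rfl⟩
    obtain ⟨y, ⟨s, hs, rfl⟩, hy⟩ := hc.exists_infDist_eq_dist hne (z - x)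
    refine ⟨s, hs, ?_⟩
    rw [hd, ← hy]
    exact h

theorem tube_isClosed {n : ℕ} (v x : Eu n) (r : ℝ) : IsClosed (Tube v x r) := by
  have h : Tube v x r = {z | infDist (z - x) ((fun s : ℝ => s • v) '' Icc 0 1) ≤ r} := by
    ext z
    exact mem_tube_iff_tube v x z r
  rw [h]
  exact isClosed_le ((continuous_infDist_pt _).comp (by fun_prop)) continuous_const

theorem tube_meas_tube {n : ℕ} (v : Eu n) (r : ℝ) :
    MeasurableSet {p : Eu n × Eu n | p.2 ∈ Tube v p.1 r} := by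
  have h : {p : Eu n × Eu n | p.2 ∈ Tube v p.1 r}
      = {p | infDist (p.2 - p.1) ((fun s : ℝ => s • v) '' Icc 0 1) ≤ r} := by
    ext p
    exact mem_tube_iff_tube v p.1 p.2 r
  rw [h]
  exact (isClosed_le ((continuous_infDist_pt _).comp (by fun_prop)) continuous_const).measurableSet

theorem tube_vol_tube {n : ℕ} (hn : 1 ≤ n) (v z : Eu n) {r : ℝ} (hr : 0 < r) (hr1 : r ≤ 1) :
    volume {x | z ∈ Tube v x r} ≤
      ENNReal.ofReal (2 ^ n * (‖v‖ + 2)) * vb n * ENNReal.ofReal (r ^ (n - 1)) := by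
  set N : ℕ := ⌊‖v‖ / r⌋₊ + 1 with hN
  have hN1 : ‖v‖ / r < N := by
    rw [hN]; push_cast; exact Nat.lt_floor_add_one _
  have hN2 : (N : ℝ) ≤ ‖v‖ / r + 1 := by
    rw [hN]; push_cast
    have := Nat.floor_le (show 0 ≤ ‖v‖ / r by positivity)
    linarith
  have hN0 : (0 : ℝ) < N := by rw [hN]; positivity
  have hsub : {x | z ∈ Tube v x r} ⊆
      ⋃ i ∈ Finset.range (N + 1), closedBall (z - ((i : ℝ) / N) • v) (2 * r) := by
    rintro x ⟨s, hs, hx⟩
    have hsN : 0 ≤ s * N := mul_nonneg hs.1 hN0.le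
    have f1 := Nat.floor_le hsN
    have f2 := Nat.lt_floor_add_one (s * N)
    refine mem_iUnion₂.2 ⟨⌊s * N⌋₊, ?_, ?_⟩
    · rw [Finset.mem_range]
      have : (⌊s * N⌋₊ : ℝ) < (N : ℝ) + 1 := by
        have : s * N ≤ 1 * N := mul_le_mul_of_nonneg_right hs.2 hN0.le
        linarith
      exact_mod_cast this
    · rw [mem_closedBall, dist_eq_norm]
      set i := ⌊s * N⌋₊ with hi
      have e : x - (z - ((i : ℝ) / N) • v) = -(z - (x + s • v)) - (s - (i : ℝ) / N) • v := by
        rw [sub_smul]; abel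
      rw [e]
      have h1 : ‖-(z - (x + s • v))‖ ≤ r := by rw [norm_neg, ← dist_eq_norm]; exact hx
      have h2 : ‖(s - (i : ℝ) / N) • v‖ ≤ r := by
        rw [norm_smul, Real.norm_eq_abs]
        have h3 : |s - (i : ℝ) / N| ≤ 1 / N := by
          rw [abs_le]
          constructor
          · have : (i : ℝ) / N ≤ s := by rw [div_le_iff₀ hN0]; exact f1
            have : (0 : ℝ) ≤ 1 / N := by positivity
            linarith
          · have : s - (i : ℝ) / N = (s * N - i) / N := by field_simp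
            rw [this]
            gcongr
            linarith
        calc |s - (i : ℝ) / N| * ‖v‖ ≤ 1 / N * ‖v‖ := by gcongr
          _ = ‖v‖ / N := by ring
          _ ≤ r := by
              rw [div_le_iff₀ hN0]
              rw [div_lt_iff₀ hr] at hN1
              linarith
      calc _ ≤ r + r := norm_sub_le_of_le h1 h2
        _ = 2 * r := by ring
  refine (measure_mono hsub).trans ((measure_biUnion_finset_le _ _).trans ?_)
  have hv : ∀ i ∈ Finset.range (N + 1), volume (closedBall (z - ((i : ℝ) / N) • v) (2 * r))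
      = ENNReal.ofReal ((2 * r) ^ n) * vb n := fun i _ =>
    volume_closedBall_eq _ (by positivity) hn
  rw [Finset.sum_congr rfl hv, Finset.sum_const, Finset.card_range, nsmul_eq_mul]
  have e1 : ((N + 1 : ℕ) : ℝ≥0∞) = ENNReal.ofReal ((N + 1 : ℕ) : ℝ) := by
    rw [ENNReal.ofReal_natCast]
  rw [e1, ← mul_assoc, ← ENNReal.ofReal_mul (by positivity), mul_assoc _ (vb n), mul_comm (vb n),
    ← mul_assoc, ← ENNReal.ofReal_mul (by positivity)]
  refine mul_le_mul_left (ENNReal.ofReal_le_ofReal ?_) _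
  obtain ⟨k, rfl⟩ : ∃ k, n = k + 1 := ⟨n - 1, by omega⟩
  rw [Nat.add_sub_cancel]
  push_cast
  have h5 : ((N : ℝ) + 1) * r ≤ ‖v‖ + 2 := by
    have : (N : ℝ) * r ≤ ‖v‖ + r := by
      calc (N : ℝ) * r ≤ (‖v‖ / r + 1) * r := by gcongr
        _ = ‖v‖ + r := by field_simp
    linarith
  calc ((N : ℝ) + 1) * (2 * r) ^ (k + 1) = 2 ^ (k + 1) * (((N : ℝ) + 1) * r) * r ^ k := by ring
    _ ≤ 2 ^ (k + 1) * (‖v‖ + 2) * r ^ k := by gcongr

theorem tube_int_tube {n : ℕ} (hn : 1 ≤ n) (μ : Measure (Eu n)) [IsLocallyFiniteMeasure μ] (v : Eu n)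
    (R : ℝ) {r : ℝ} (hr : 0 < r) (hr1 : r ≤ 1) :
    ∫⁻ x in closedBall (0 : Eu n) R, μ (Tube v x r) ≤
      (ENNReal.ofReal (2 ^ n * (‖v‖ + 2)) * vb n * ENNReal.ofReal (r ^ (n - 1))) *
        μ (closedBall 0 (R + ‖v‖ + 1)) := by
  set c : ℝ≥0∞ := ENNReal.ofReal (2 ^ n * (‖v‖ + 2)) * vb n * ENNReal.ofReal (r ^ (n - 1)) with hc
  set E : Set (Eu n × Eu n) := {p | p.2 ∈ Tube v p.1 r} ∩ (closedBall 0 R) ×ˢ univ with hE
  have hEm : MeasurableSet E :=
    (tube_meas_tube v r).inter (isClosed_closedBall.measurableSet.prod MeasurableSet.univ)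
  have h1 : ∫⁻ x in closedBall (0 : Eu n) R, μ (Tube v x r) = (volume.prod μ) E := by
    rw [Measure.prod_apply hEm, ← lintegral_indicator isClosed_closedBall.measurableSet]
    refine lintegral_congr (fun x => ?_)
    by_cases hx : x ∈ closedBall (0 : Eu n) R
    · rw [indicator_of_mem hx]
      congr 1
      ext z
      simp only [hE, mem_preimage, mem_inter_iff, mem_prod, mem_univ, and_true]
      exact ⟨fun h => ⟨h, hx⟩, fun h => h.1⟩
    · rw [indicator_of_notMem hx]
      have : Prod.mk x ⁻¹' E = ∅ := by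
        ext z
        simp only [hE, mem_preimage, mem_inter_iff, mem_prod, mem_univ, and_true,
          mem_empty_iff_false, iff_false, not_and]
        exact fun _ h => hx h
      rw [this, measure_empty]
  rw [h1, Measure.prod_apply_symm hEm]
  have h2 : ∀ z, volume ((fun x => (x, z)) ⁻¹' E) ≤
      (closedBall (0 : Eu n) (R + ‖v‖ + 1)).indicator (fun _ => c) z := by
    intro z
    by_cases hz : z ∈ closedBall (0 : Eu n) (R + ‖v‖ + 1)
    · rw [indicator_of_mem hz]
      refine (measure_mono ?_).trans (tube_vol_tube hn v z hr hr1)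
      intro x hx
      exact hx.1
    · rw [indicator_of_notMem hz]
      have : (fun x => (x, z)) ⁻¹' E = ∅ := by
        ext x
        simp only [mem_preimage, mem_empty_iff_false, iff_false]
        rintro ⟨⟨s, hs, hx⟩, hxR, -⟩
        apply hz
        rw [mem_closedBall_zero_iff] at hxR ⊢
        simp only at hx hxR
        have e : z = (z - (x + s • v)) + (x + s • v) := by abel
        rw [e]
        have a1 : ‖z - (x + s • v)‖ ≤ 1 := by rw [← dist_eq_norm]; exact hx.trans hr1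
        have a2 : ‖s • v‖ ≤ ‖v‖ := by
          rw [norm_smul, Real.norm_of_nonneg hs.1]
          exact mul_le_of_le_one_left (norm_nonneg _) hs.2
        calc _ ≤ 1 + (R + ‖v‖) := norm_add_le_of_le a1 (norm_add_le_of_le hxR a2)
          _ = R + ‖v‖ + 1 := by ring
      rw [this, measure_empty]
  refine (lintegral_mono h2).trans ?_
  rw [lintegral_indicator isClosed_closedBall.measurableSet, lintegral_const, Measure.restrict_apply_univ]

theorem tube_liminf {n : ℕ} (hn : 1 ≤ n) (μ : Measure (Eu n)) [IsLocallyFiniteMeasure μ] (v : Eu n) :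
    ∀ᵐ x : Eu n, ∃ Λ : ℝ≥0, ∀ ρ : ℝ, 0 < ρ → ∃ r : ℝ, 0 < r ∧ r < ρ ∧
      μ (Tube v x r) ≤ Λ * ENNReal.ofReal (r ^ (n - 1)) := by
  let ri : ℕ → ℝ := fun i => 1 / ((i : ℝ) + 1)
  have hri0 : ∀ i, 0 < ri i := fun i => by positivity
  have hri1 : ∀ i, ri i ≤ 1 := fun i => by
    show 1 / ((i : ℝ) + 1) ≤ 1
    rw [div_le_one (by positivity)]
    have : (0 : ℝ) ≤ i := Nat.cast_nonneg i
    linarith
  let Φ : ℕ → Eu n → ℝ≥0∞ := fun i x => μ (Tube v x (ri i)) / ENNReal.ofReal (ri i ^ (n - 1))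
  have hΦm : ∀ i, Measurable (Φ i) := by
    intro i
    have h1 : Measurable (fun x => μ (Prod.mk x ⁻¹' {p : Eu n × Eu n | p.2 ∈ Tube v p.1 (ri i)})) :=
      measurable_measure_prodMk_left (tube_meas_tube v (ri i))
    exact h1.div_const _
  have hpos : ∀ i, ENNReal.ofReal (ri i ^ (n - 1)) ≠ 0 := by
    intro i
    rw [ne_eq, ENNReal.ofReal_eq_zero, not_le]
    have := hri0 i
    positivity
  have hball : ∀ R : ℕ, ∀ᵐ x : Eu n, x ∈ closedBall (0 : Eu n) (R : ℝ) →
      liminf (fun i => Φ i x) atTop < ⊤ := by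
    intro R
    have hm : Measurable (fun x => liminf (fun i => Φ i x) atTop) := Measurable.liminf hΦm
    have hint : ∀ i, ∫⁻ x in closedBall (0 : Eu n) (R : ℝ), Φ i x ≤
        (ENNReal.ofReal (2 ^ n * (‖v‖ + 2)) * vb n) * μ (closedBall 0 ((R : ℝ) + ‖v‖ + 1)) := by
      intro i
      have h1 := tube_int_tube hn μ v (R : ℝ) (hri0 i) (hri1 i)
      have h2 : ∫⁻ x in closedBall (0 : Eu n) (R : ℝ), Φ i x
          = (∫⁻ x in closedBall (0 : Eu n) (R : ℝ), μ (Tube v x (ri i))) /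
            ENNReal.ofReal (ri i ^ (n - 1)) := by
        simp only [Φ, div_eq_mul_inv]
        rw [lintegral_mul_const' _ _ (ENNReal.inv_ne_top.2 (hpos i))]
      rw [h2]
      refine ENNReal.div_le_of_le_mul ?_
      refine h1.trans (le_of_eq ?_)
      ring
    have hfin : (ENNReal.ofReal (2 ^ n * (‖v‖ + 2)) * vb n) * μ (closedBall 0 ((R : ℝ) + ‖v‖ + 1)) < ⊤ :=
      ENNReal.mul_lt_top (ENNReal.mul_lt_top ENNReal.ofReal_lt_top (vb_lt_top n))
        (isCompact_closedBall _ _).measure_lt_top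
    have hF : ∫⁻ x in closedBall (0 : Eu n) (R : ℝ), liminf (fun i => Φ i x) atTop < ⊤ := by
      refine lt_of_le_of_lt (lintegral_liminf_le hΦm) (lt_of_le_of_lt ?_ hfin)
      refine liminf_le_of_le ?_ ?_
      · isBoundedDefault
      · intro b hb
        obtain ⟨i, hi⟩ := hb.exists
        exact hi.trans (hint i)
    have := ae_lt_top hm hF.ne
    rwa [ae_restrict_iff' isClosed_closedBall.measurableSet] at this
  filter_upwards [ae_all_iff.2 hball] with x hx
  obtain ⟨R, hR⟩ := exists_nat_ge ‖x‖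
  have hlt := hx R (by rw [mem_closedBall_zero_iff]; exact hR)
  obtain ⟨Λ, hΛ, -⟩ := ENNReal.lt_iff_exists_nnreal_btwn.1 hlt
  refine ⟨Λ, fun ρ hρ => ?_⟩
  have hfr : ∃ᶠ i in atTop, Φ i x < Λ := frequently_lt_of_liminf_lt (by isBoundedDefault) hΛ
  have hev : ∀ᶠ i in atTop, ri i < ρ :=
    (tendsto_one_div_add_atTop_nhds_zero_nat (𝕜 := ℝ)).eventually (gt_mem_nhds hρ)
  obtain ⟨i, hi1, hi2⟩ := (hfr.and_eventually hev).exists
  refine ⟨ri i, hri0 i, hi2, ?_⟩
  have h3 : μ (Tube v x (ri i)) / ENNReal.ofReal (ri i ^ (n - 1)) ≤ Λ := hi1.le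
  rwa [ENNReal.div_le_iff (hpos i) ENNReal.ofReal_ne_top] at h3

end

end Pool.Agent.Helper746.Qc
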