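import Mathlib
import Pool.Agent.Helper746.QcDefs
import Pool.Agent.Helper746.QcVol
import Pool.Agent.Helper746.QcTube
import Pool.Agent.Helper746.QcLinenull
import Pool.Agent.Helper746.QcLusin

set_option autoImplicit false

namespace Pool.Agent.Helper746.Qc

open Set Metric MeasureTheory Filter Topology
open scoped ENNReal NNReal

noncomputable section

theorem upper_gradient {n : ℕ} (hn : 2 ≤ n) (μ : Measure (Eu n)) [IsLocallyFiniteMeasure μ]
    (Ω : Set (Eu n)) (hΩ : IsOpen Ω) (w : Eu n → ℝ) (hw : ContinuousOn w Ω) (C H : ℝ) (hC : 0 < C) (hH : 1 ≤ H)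
    (hG : ∀ z ∈ Ω, ∃ δ : ℝ, 0 < δ ∧ ∀ z' : Eu n, dist z' z < δ →
      ENNReal.ofReal (|w z' - w z| ^ n) ≤ ENNReal.ofReal C * μ (closedBall z (H * dist z' z)))
    (ℓ : Eu n → ℝ≥0∞) (hℓ : Measurable ℓ)
    (hL : ∀ᵐ z : Eu n, z ∈ Ω → ∀ c : ℝ, ℓ z < ENNReal.ofReal c →
      ∃ δ : ℝ, 0 < δ ∧ ∀ z' : Eu n, dist z' z < δ → |w z' - w z| ≤ c * dist z' z)
    (v : Eu n) :
    ∀ᵐ x : Eu n, (∀ s ∈ Icc (0 : ℝ) 1, x + s • v ∈ Ω) →
      ENNReal.ofReal |w (x + v) - w x| ≤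
        (∫⁻ s in Icc (0 : ℝ) 1, ℓ (x + s • v)) * ENNReal.ofReal ‖v‖ := by
  rcases eq_or_ne v 0 with hv | hv
  · subst hv
    refine Filter.Eventually.of_forall fun x _ => ?_
    simp
  have hv0 : 0 < ‖v‖ := norm_pos_iff.mpr hv
  have h1 := tube_liminf (by omega) μ v
  have h2 : ∀ᵐ x : Eu n, ∀ᵐ s ∂(volume.restrict (Icc (0 : ℝ) 1)),
      x + s • v ∈ Ω → ∀ c : ℝ, ℓ (x + s • v) < ENNReal.ofReal c →
      ∃ δ : ℝ, 0 < δ ∧ ∀ z' : Eu n, dist z' (x + s • v) < δ →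
        |w z' - w (x + s • v)| ≤ c * dist z' (x + s • v) := by
    obtain ⟨T, hT1, hT2, hT3⟩ := exists_measurable_superset_of_null (ae_iff.mp hL)
    have hmap : Measurable (fun p : Eu n × ℝ => p.1 + p.2 • v) := by
      have : Continuous (fun p : Eu n × ℝ => p.1 + p.2 • v) := by fun_prop
      exact this.measurable
    have hS : MeasurableSet ((fun p : Eu n × ℝ => p.1 + p.2 • v) ⁻¹' T) := hmap hT2
    have hnull : ((volume : Measure (Eu n)).prod (volume.restrict (Icc (0 : ℝ) 1)))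
        ((fun p : Eu n × ℝ => p.1 + p.2 • v) ⁻¹' T) = 0 := by
      rw [Measure.prod_apply_symm hS]
      have e : ∀ s : ℝ, (volume : Measure (Eu n))
          ((fun x => (x, s)) ⁻¹' ((fun p : Eu n × ℝ => p.1 + p.2 • v) ⁻¹' T)) = 0 := by
        intro s
        have e2 : (fun x : Eu n => (x, s)) ⁻¹' ((fun p : Eu n × ℝ => p.1 + p.2 • v) ⁻¹' T) =
          (fun x => x + s • v) ⁻¹' T := rfl
        rw [e2, measure_preimage_add_right, hT3]
      simp only [e, lintegral_zero]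
    rw [Measure.measure_prod_null hS] at hnull
    filter_upwards [hnull] with x hx
    have hx' : (volume.restrict (Icc (0 : ℝ) 1)) {s : ℝ | x + s • v ∈ T} = 0 := hx
    have hx2 : ∀ᵐ s ∂(volume.restrict (Icc (0 : ℝ) 1)), ¬ (x + s • v ∈ T) := by
      rw [ae_iff]
      simpa using hx'
    filter_upwards [hx2] with s hs
    by_contra hcon
    exact hs (hT1 hcon)
  filter_upwards [h1, h2] with x hΛ0 hx hseg
  obtain ⟨Λ, hΛ⟩ := hΛ0
  have hcont : Continuous (fun s : ℝ => x + s • v) := by fun_prop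
  have hc : ContinuousOn (fun s : ℝ => w (x + s • v)) (Icc (0 : ℝ) 1) :=
    hw.comp hcont.continuousOn (fun s hs => hseg s hs)
  have hN := line_null hn μ w C H hC hH v x Λ hΛ (fun s hs => hG _ (hseg s hs))
  have hm0 : Measurable (fun s : ℝ => ℓ (x + s • v)) := hℓ.comp hcont.measurable
  have hm : Measurable (fun s : ℝ => ℓ (x + s • v) * ENNReal.ofReal ‖v‖) := hm0.mul_const _
  have hL1 : ∀ᵐ s ∂(volume.restrict (Icc (0 : ℝ) 1)), ∀ c : ℝ,
      ℓ (x + s • v) * ENNReal.ofReal ‖v‖ < ENNReal.ofReal c →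
      ∃ δ : ℝ, 0 < δ ∧ ∀ s' ∈ Icc (0 : ℝ) 1, |s' - s| < δ →
        |w (x + s' • v) - w (x + s • v)| ≤ c * |s' - s| := by
    filter_upwards [hx, ae_restrict_mem measurableSet_Icc] with s hs hsI c hlt
    have hlt' : ℓ (x + s • v) < ENNReal.ofReal (c / ‖v‖) := by
      rw [ENNReal.ofReal_div_of_pos hv0, ENNReal.lt_div_iff_mul_lt
        (Or.inl (ENNReal.ofReal_pos.mpr hv0).ne') (Or.inl ENNReal.ofReal_ne_top)]
      exact hlt
    obtain ⟨δ, hδ, hδ2⟩ := hs (hseg s hsI) _ hlt'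
    refine ⟨δ / ‖v‖, div_pos hδ hv0, fun s' _ hs' => ?_⟩
    have hd : dist (x + s' • v) (x + s • v) = |s' - s| * ‖v‖ := by
      rw [dist_add_left, dist_eq_norm, ← sub_smul, norm_smul, Real.norm_eq_abs]
    rw [lt_div_iff₀ hv0] at hs'
    have h3 := hδ2 (x + s' • v) (by rw [hd]; exact hs')
    rw [hd] at h3
    refine h3.trans (le_of_eq ?_)
    field_simp
  have hfin := lusin_le hc hN hm hL1
  rw [lintegral_mul_const _ hm0] at hfin
  simpa using hfin

end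

end Pool.Agent.Helper746.Qc
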