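import Mathlib
import Pool.Agent.Helper746.QcDefs
import Pool.Agent.Helper746.QcVol
import Pool.Agent.Helper746.QcUg
import Pool.Agent.Helper746.QcDensg

set_option autoImplicit false

namespace Pool.Agent.Helper746.Qc

open Set Metric MeasureTheory Filter Topology
open scoped ENNReal NNReal

noncomputable section

theorem g_contAt_invug {n : ℕ} {H K : ℝ} {f : Eu n → Eu n} (hf : QC H K f) (z : Eu n) :
    ContinuousAt (Function.invFun f) (f z) := by
  intro U hU
  rw [Function.leftInverse_invFun hf.inj z] at hU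
  rw [Filter.mem_map]
  filter_upwards [hf.opn.image_mem_nhds hU] with y hy
  obtain ⟨u, hu, rfl⟩ := hy
  show Function.invFun f (f u) ∈ U
  rw [Function.leftInverse_invFun hf.inj u]
  exact hu

theorem inv_ug {n : ℕ} (hn : 2 ≤ n) {H K : ℝ} (hH : 1 ≤ H) (hK : 1 ≤ K) {f : Eu n → Eu n} (hf : QC H K f)
    (x : Eu n) {R : ℝ} (hR : 0 < R) :
    ∃ ℓ : Eu n → ℝ≥0∞, Measurable ℓ ∧
      (∀ v : Eu n, ∀ᵐ p : Eu n, (∀ s ∈ Icc (0 : ℝ) 1, p + s • v ∈ f '' ball x R) →
        ∀ ζ ζ' : Eu n, f ζ = p → f ζ' = p + v →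
          ENNReal.ofReal |dist ζ' x - dist ζ x| ≤
            (∫⁻ s in Icc (0 : ℝ) 1, ℓ (p + s • v)) * ENNReal.ofReal ‖v‖) ∧
      (∀ A : Set (Eu n), MeasurableSet A →
        ∫⁻ y in A, ℓ y ^ n ≤ ENNReal.ofReal (K ^ n) * volume (f ⁻¹' A)) := by
  have hn0 : (n : ℝ) ≠ 0 := by
    have : (n : ℝ) ≥ 2 := by exact_mod_cast hn
    linarith
  have hK0 : 0 ≤ K := by linarith
  haveI hfin : IsFiniteMeasure ((volume : Measure (Eu n)).restrict (ball x R)) :=
    ⟨by rw [Measure.restrict_apply_univ]; exact measure_ball_lt_top⟩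
  set μ : Measure (Eu n) := Measure.map f (volume.restrict (ball x R)) with hμ
  haveI hfin2 : IsFiniteMeasure μ := Measure.isFiniteMeasure_map _ _
  set D : Eu n → ℝ≥0∞ := μ.rnDeriv volume with hD
  have hDm : Measurable D := Measure.measurable_rnDeriv _ _
  have hpow : ∀ y, (ENNReal.ofReal K * (D y) ^ ((1 : ℝ) / n)) ^ n = ENNReal.ofReal (K ^ n) * D y := by
    intro y
    rw [mul_pow, ← ENNReal.ofReal_pow hK0, ← ENNReal.rpow_natCast, ← ENNReal.rpow_mul,
      one_div_mul_cancel hn0, ENNReal.rpow_one]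
  have hm : Measurable (fun y => ENNReal.ofReal K * (D y) ^ ((1 : ℝ) / n)) := by fun_prop
  refine ⟨fun y => ENNReal.ofReal K * (D y) ^ ((1 : ℝ) / n), hm, ?_, ?_⟩
  · intro v
    have hΩ : IsOpen (f '' ball x R) := hf.opn _ isOpen_ball
    have hvb0 : vb n ≠ 0 := (vb_pos n).ne'
    have hvbt : vb n ≠ ⊤ := (vb_lt_top n).ne
    have hvbr : 0 < (vb n).toReal := ENNReal.toReal_pos hvb0 hvbt
    have hCeq : ENNReal.ofReal ((vb n).toReal⁻¹) = (vb n)⁻¹ := by
      rw [ENNReal.ofReal_inv_of_pos hvbr, ENNReal.ofReal_toReal hvbt]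
    have key := upper_gradient hn μ (f '' ball x R) hΩ (fun y => dist (Function.invFun f y) x)
      (by
        rintro y ⟨z, hz, rfl⟩
        have h1 := g_contAt_invug hf z
        have h2 : ContinuousAt (fun y => dist (Function.invFun f y) x) (f z) :=
          h1.dist continuousAt_const
        exact h2.continuousWithinAt)
      ((vb n).toReal⁻¹) H (inv_pos.2 hvbr) hH
      (by
        intro z hz
        obtain ⟨δ, hδ, h1⟩ := growth_g (by omega) hH hf x hR hz
        refine ⟨δ, hδ, fun z' hz' => ?_⟩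
        have h2 := (h1 z' hz').2
        have h3 : |dist (Function.invFun f z') x - dist (Function.invFun f z) x| ≤
            dist (Function.invFun f z') (Function.invFun f z) := abs_dist_sub_le _ _ _
        have h4 : ENNReal.ofReal (|dist (Function.invFun f z') x - dist (Function.invFun f z) x| ^ n) ≤
            ENNReal.ofReal (dist (Function.invFun f z') (Function.invFun f z) ^ n) :=
          ENNReal.ofReal_le_ofReal (pow_le_pow_left₀ (abs_nonneg _) h3 n)
        refine h4.trans ?_
        rw [hCeq]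
        calc ENNReal.ofReal (dist (Function.invFun f z') (Function.invFun f z) ^ n)
            = (vb n)⁻¹ * (ENNReal.ofReal (dist (Function.invFun f z') (Function.invFun f z) ^ n)
                * vb n) := by
              rw [mul_comm (ENNReal.ofReal _) (vb n), ← mul_assoc, ENNReal.inv_mul_cancel hvb0 hvbt,
                one_mul]
          _ ≤ _ := by gcongr)
      (fun y => ENNReal.ofReal K * (D y) ^ ((1 : ℝ) / n)) hm
      (by
        filter_upwards [dens_g (by omega) hH hK hf x hR] with z hz hzΩ c hc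
        have hc0 : 0 < c := by
          by_contra hcon
          rw [ENNReal.ofReal_of_nonpos (not_lt.1 hcon)] at hc
          exact not_lt_bot hc
        have h1 := ENNReal.pow_lt_pow_left (show n ≠ 0 by omega) hc
        rw [hpow, ← ENNReal.ofReal_pow hc0.le] at h1
        obtain ⟨δ, hδ, h2⟩ := hz hzΩ c hc0.le h1
        exact ⟨δ, hδ, fun z' hz' => (abs_dist_sub_le _ _ _).trans (h2 z' hz')⟩)
      v
    filter_upwards [key] with p hp hseg ζ ζ' hζ hζ'
    have h1 := hp hseg
    have e1 : Function.invFun f p = ζ := by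
      rw [← hζ]; exact Function.leftInverse_invFun hf.inj ζ
    have e2 : Function.invFun f (p + v) = ζ' := by
      rw [← hζ']; exact Function.leftInverse_invFun hf.inj ζ'
    rw [e1, e2] at h1
    exact h1
  · intro A hA
    simp_rw [hpow]
    rw [lintegral_const_mul _ hDm]
    gcongr
    refine (Measure.setLIntegral_rnDeriv_le A).trans ?_
    rw [hμ, Measure.map_apply hf.cont.measurable hA]
    exact Measure.restrict_apply_le _ _

end

end Pool.Agent.Helper746.Qc
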