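import Mathlib
import Pool.Agent.Helper746.QcDefs

set_option autoImplicit false

namespace Pool.Agent.Helper746.Qc

open Set Metric MeasureTheory Filter Topology
open scoped ENNReal NNReal

noncomputable section

theorem cl_nonneg (a b t : ℝ) : 0 ≤ cl a b t := le_max_left _ _

theorem aux_pos_clog {a b : ℝ} (ha : 0 < a) (hab : a < b) : 0 < Real.log (b / a) :=
  Real.log_pos ((one_lt_div ha).mpr hab)

theorem cl_le {a b : ℝ} (ha : 0 < a) (hab : a < b) (t : ℝ) : cl a b t ≤ Real.log (b / a) :=
  max_le (aux_pos_clog ha hab).le (min_le_left _ _)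

theorem cl_of_le {a b t : ℝ} (ha : 0 < a) (hab : a < b) (ht0 : 0 ≤ t) (ht : t ≤ a) : cl a b t = 0 := by
  have h1 : Real.log (t / a) ≤ 0 :=
    Real.log_nonpos (div_nonneg ht0 ha.le) ((div_le_one ha).mpr ht)
  exact max_eq_left ((min_le_right _ _).trans h1)

theorem cl_of_ge {a b t : ℝ} (ha : 0 < a) (hab : a < b) (ht : b ≤ t) : cl a b t = Real.log (b / a) := by
  have h1 : Real.log (b / a) ≤ Real.log (t / a) :=
    Real.log_le_log (div_pos (ha.trans hab) ha) (div_le_div_of_nonneg_right ht ha.le)
  unfold cl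
  rw [min_eq_left h1, max_eq_right (aux_pos_clog ha hab).le]

theorem cl_eq_clog {a b t : ℝ} (ha : 0 < a) (hab : a < b) (ht : 0 ≤ t) :
    cl a b t = Real.log (max a (min b t)) - Real.log a := by
  rcases le_total t a with h | h
  · rw [cl_of_le ha hab ht h, max_eq_left ((min_le_right _ _).trans h), sub_self]
  · rcases le_total b t with h2 | h2
    · rw [cl_of_ge ha hab h2, min_eq_left h2, max_eq_right hab.le,
        Real.log_div (ha.trans hab).ne' ha.ne']
    · have htp : 0 < t := lt_of_lt_of_le ha h
      have h1 : Real.log (t / a) ≤ Real.log (b / a) :=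
        Real.log_le_log (div_pos htp ha) (div_le_div_of_nonneg_right h2 ha.le)
      have h0 : 0 ≤ Real.log (t / a) := Real.log_nonneg ((one_le_div ha).mpr h)
      unfold cl
      rw [min_eq_right h1, max_eq_right h0, min_eq_right h2, max_eq_right h,
        Real.log_div htp.ne' ha.ne']

theorem log_aux1_clog {m x y : ℝ} (hm : 0 < m) (hx : m ≤ x) (hxy : x ≤ y) :
    Real.log y - Real.log x ≤ (y - x) / m := by
  have hxp : 0 < x := lt_of_lt_of_le hm hx
  have hyp : 0 < y := lt_of_lt_of_le hxp hxy
  rw [← Real.log_div hyp.ne' hxp.ne']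
  have h1 := Real.log_le_sub_one_of_pos (div_pos hyp hxp)
  have h2 : y / x - 1 = (y - x) / x := by field_simp
  rw [h2] at h1
  exact h1.trans (div_le_div_of_nonneg_left (sub_nonneg.mpr hxy) hm hx)

theorem log_aux_clog {m x y : ℝ} (hm : 0 < m) (hx : m ≤ x) (hy : m ≤ y) :
    |Real.log y - Real.log x| ≤ |y - x| / m := by
  rcases le_total x y with h | h
  · rw [abs_of_nonneg (sub_nonneg.mpr h),
      abs_of_nonneg (sub_nonneg.mpr (Real.log_le_log (lt_of_lt_of_le hm hx) h))]
    exact log_aux1_clog hm hx h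
  · rw [abs_sub_comm, abs_sub_comm y x, abs_of_nonneg (sub_nonneg.mpr h),
      abs_of_nonneg (sub_nonneg.mpr (Real.log_le_log (lt_of_lt_of_le hm hy) h))]
    exact log_aux1_clog hm hy h

theorem P_lip_clog {a b : ℝ} (t t' : ℝ) :
    |max a (min b t') - max a (min b t)| ≤ |t' - t| := by
  have h1 : |min b t' - min b t| ≤ |t' - t| := by
    rw [abs_le]
    constructor
    · simp only [min_def]
      split_ifs <;> cases abs_cases (t' - t) <;> linarith
    · simp only [min_def]
      split_ifs <;> cases abs_cases (t' - t) <;> linarith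
  have h2 : |max a (min b t') - max a (min b t)| ≤ |min b t' - min b t| := by
    generalize min b t' = u
    generalize min b t = v
    rw [abs_le]
    constructor
    · simp only [max_def]
      split_ifs <;> cases abs_cases (u - v) <;> linarith
    · simp only [max_def]
      split_ifs <;> cases abs_cases (u - v) <;> linarith
  exact h2.trans h1

theorem cl_lip {a b t t' : ℝ} (ha : 0 < a) (hab : a < b) (ht : 0 ≤ t) (ht' : 0 ≤ t') :
    |cl a b t' - cl a b t| ≤ (1 / a) * |t' - t| := by
  rw [cl_eq_clog ha hab ht, cl_eq_clog ha hab ht', sub_sub_sub_cancel_right]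
  refine (log_aux_clog ha (le_max_left _ _) (le_max_left _ _)).trans ?_
  rw [div_eq_inv_mul, one_div]
  exact mul_le_mul_of_nonneg_left (P_lip_clog t t') (inv_nonneg.mpr ha.le)

theorem cl_local {a b t : ℝ} (ha : 0 < a) (hab : a < b) (ht : 0 ≤ t) (c : ℝ)
    (hc : (if a ≤ t ∧ t ≤ b then 1 / t else 0) < c) :
    ∃ δ : ℝ, 0 < δ ∧ ∀ t' : ℝ, 0 ≤ t' → |t' - t| < δ → |cl a b t' - cl a b t| ≤ c * |t' - t| := by
  by_cases h : a ≤ t ∧ t ≤ b
  · rw [if_pos h] at hc
    have htp : 0 < t := lt_of_lt_of_le ha h.1
    have hcp : 0 < c := lt_trans (one_div_pos.mpr htp) hc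
    have hct : 1 / c < t := by
      rw [div_lt_iff₀ htp] at hc
      rw [div_lt_iff₀ hcp]
      linarith
    refine ⟨t - 1 / c, sub_pos.mpr hct, fun t' ht' hd => ?_⟩
    rw [cl_eq_clog ha hab ht, cl_eq_clog ha hab ht', sub_sub_sub_cancel_right]
    have hP : max a (min b t) = t := by rw [min_eq_right h.2, max_eq_right h.1]
    have hlip := P_lip_clog (a := a) (b := b) t t'
    have h1 : 1 / c ≤ max a (min b t) := by rw [hP]; exact hct.le
    have h2 : 1 / c ≤ max a (min b t') := by
      have := (abs_le.mp hlip).1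
      rw [hP] at this
      linarith
    refine (log_aux_clog (one_div_pos.mpr hcp) h1 h2).trans ?_
    rw [div_div_eq_mul_div, div_one, mul_comm]
    exact mul_le_mul_of_nonneg_left hlip hcp.le
  · rw [if_neg h] at hc
    rw [not_and_or, not_le, not_le] at h
    rcases h with h | h
    · refine ⟨a - t, sub_pos.mpr h, fun t' ht' hd => ?_⟩
      have : t' ≤ a := by
        have := (abs_lt.mp hd).2
        linarith
      rw [cl_of_le ha hab ht h.le, cl_of_le ha hab ht' this, sub_self, abs_zero]
      exact mul_nonneg hc.le (abs_nonneg _)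
    · refine ⟨t - b, sub_pos.mpr h, fun t' ht' hd => ?_⟩
      have : b ≤ t' := by
        have := (abs_lt.mp hd).1
        linarith
      rw [cl_of_ge ha hab h.le, cl_of_ge ha hab this, sub_self, abs_zero]
      exact mul_nonneg hc.le (abs_nonneg _)

theorem cl_continuous {a b : ℝ} (ha : 0 < a) (hab : a < b) : ContinuousOn (cl a b) (Ici 0) := by
  have h : Continuous fun t : ℝ => Real.log (max a (min b t)) - Real.log a := by
    refine Continuous.sub ?_ continuous_const
    exact (continuous_const.max (continuous_const.min continuous_id)).log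
      (fun t => (lt_of_lt_of_le ha (le_max_left _ _)).ne')
  exact h.continuousOn.congr (fun t ht => cl_eq_clog ha hab ht)

end

end Pool.Agent.Helper746.Qc
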