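import Mathlib
import Pool.Agent.Helper746.QcDefs
import Pool.Agent.Helper746.QcMmspec
import Pool.Agent.Helper746.QcSand
import Pool.Agent.Helper746.QcVol

set_option autoImplicit false

namespace Pool.Agent.Helper746.Qc

open Set Metric MeasureTheory Filter Topology
open scoped ENNReal NNReal

noncomputable section

theorem me_8001_densf {n : ℕ} {f : Eu n → Eu n} (hc : Continuous f) (hi : Function.Injective f) :
    MeasurableEmbedding f := hc.measurableEmbedding hi

theorem comap_locallyFinite {n : ℕ} {f : Eu n → Eu n} (hc : Continuous f) (hi : Function.Injective f) :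
    IsLocallyFiniteMeasure ((volume : Measure (Eu n)).comap f) := by
  refine ⟨fun z => ⟨closedBall z 1, closedBall_mem_nhds z one_pos, ?_⟩⟩
  rw [(me_8001_densf hc hi).comap_apply]
  exact ((isCompact_closedBall z 1).image hc).measure_lt_top

theorem comap_apply_eq {n : ℕ} {f : Eu n → Eu n} (hc : Continuous f) (hi : Function.Injective f)
    {A : Set (Eu n)} (hA : MeasurableSet A) :
    (volume : Measure (Eu n)).comap f A = volume (f '' A) :=
  (me_8001_densf hc hi).comap_apply _ _

theorem growth_gen_8001_densf {n : ℕ} (hn : 1 ≤ n) {H K L : ℝ} (hL : 1 ≤ L) {f : Eu n → Eu n}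
    (hf : QC H K f) (z : Eu n) (hz : Rnd L f z) :
    ∃ δ : ℝ, 0 < δ ∧ ∀ z' : Eu n, dist z' z < δ →
      ENNReal.ofReal (dist (f z') (f z) ^ n) * vb n ≤
        ENNReal.ofReal (L ^ n) * (volume : Measure (Eu n)).comap f (closedBall z (dist z' z)) := by
  obtain ⟨δ, hδ, h⟩ := rnd_sand hn hf.cont hf.inj hf.opn hL hz
  refine ⟨δ, hδ, fun z' hz' => ?_⟩
  by_cases hzz : z' = z
  · rw [hzz, dist_self, zero_pow (by omega), ENNReal.ofReal_zero, zero_mul]
    exact zero_le
  · have h1 := (h z' hzz hz').1
    have hL0 : 0 < L := by linarith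
    rw [(me_8001_densf hf.cont hf.inj).comap_apply]
    have h2 : volume (ball (f z) (dist (f z') (f z) / L)) ≤
        volume (f '' closedBall z (dist z' z)) :=
      measure_mono (h1.trans (image_mono ball_subset_closedBall))
    rw [volume_ball_eq _ (by positivity) hn] at h2
    have e : ENNReal.ofReal (dist (f z') (f z) ^ n) * vb n =
        ENNReal.ofReal (L ^ n) * (ENNReal.ofReal ((dist (f z') (f z) / L) ^ n) * vb n) := by
      rw [← mul_assoc, ← ENNReal.ofReal_mul (by positivity), ← mul_pow]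
      congr 3
      field_simp
    rw [e]
    gcongr

theorem growth_f {n : ℕ} (hn : 1 ≤ n) {H K : ℝ} (hH : 1 ≤ H) {f : Eu n → Eu n} (hf : QC H K f) (z : Eu n) :
    ∃ δ : ℝ, 0 < δ ∧ ∀ z' : Eu n, dist z' z < δ →
      ENNReal.ofReal (dist (f z') (f z) ^ n) * vb n ≤
        ENNReal.ofReal (H ^ n) * (volume : Measure (Eu n)).comap f (closedBall z (dist z' z)) :=
  growth_gen_8001_densf hn hH hf z (hf.rnd z)

theorem dens_f {n : ℕ} (hn : 1 ≤ n) {H K : ℝ} (hK : 1 ≤ K) {f : Eu n → Eu n} (hf : QC H K f) :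
    ∀ᵐ z : Eu n, ∀ c : ℝ, 0 ≤ c →
      ENNReal.ofReal (K ^ n) * ((volume : Measure (Eu n)).comap f).rnDeriv volume z < ENNReal.ofReal (c ^ n) →
      ∃ δ : ℝ, 0 < δ ∧ ∀ z' : Eu n, dist z' z < δ → dist (f z') (f z) ≤ c * dist z' z := by
  have := comap_locallyFinite hf.cont hf.inj
  filter_upwards [hf.rndae, Besicovitch.ae_tendsto_rnDeriv
    ((volume : Measure (Eu n)).comap f) (volume : Measure (Eu n))] with z hz hB c hc hlt
  have hT : Tendsto (fun r => ENNReal.ofReal (K ^ n) *
      (((volume : Measure (Eu n)).comap f) (closedBall z r) / volume (closedBall z r)))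
      (𝓝[>] 0) (𝓝 (ENNReal.ofReal (K ^ n) * ((volume : Measure (Eu n)).comap f).rnDeriv volume z)) :=
    ENNReal.Tendsto.const_mul hB (Or.inr ENNReal.ofReal_ne_top)
  have hev := hT.eventually (gt_mem_nhds hlt)
  obtain ⟨δ1, hδ1, h1⟩ := mem_nhdsGT_iff_exists_Ioo_subset.1 hev
  obtain ⟨δ2, hδ2, h2⟩ := growth_gen_8001_densf hn hK hf z hz
  refine ⟨min δ1 δ2, lt_min hδ1 hδ2, fun z' hz' => ?_⟩
  by_cases hzz : z' = z
  · rw [hzz, dist_self, dist_self, mul_zero]
  · have ht : 0 < dist z' z := dist_pos.2 hzz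
    have h3 := h1 ⟨ht, lt_of_lt_of_le hz' (min_le_left _ _)⟩
    have h4 := h2 z' (lt_of_lt_of_le hz' (min_le_right _ _))
    simp only [mem_ofPred_eq] at h3
    set B := closedBall z (dist z' z) with hBdef
    have hvol : volume B = ENNReal.ofReal (dist z' z ^ n) * vb n :=
      volume_closedBall_eq z ht.le hn
    have hv0 : volume B ≠ 0 := by
      rw [hvol]
      exact mul_ne_zero (by
        rw [Ne, ENNReal.ofReal_eq_zero, not_le]; positivity) (vb_pos n).ne'
    have hvT : volume B ≠ ⊤ := by
      rw [hvol]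
      exact ENNReal.mul_ne_top ENNReal.ofReal_ne_top (vb_lt_top n).ne
    have h5 : ENNReal.ofReal (K ^ n) * ((volume : Measure (Eu n)).comap f) B ≤
        ENNReal.ofReal (c ^ n) * volume B := by
      have e : ENNReal.ofReal (K ^ n) * ((volume : Measure (Eu n)).comap f) B =
          (ENNReal.ofReal (K ^ n) * (((volume : Measure (Eu n)).comap f) B / volume B)) *
            volume B := by
        rw [mul_assoc, ENNReal.div_mul_cancel hv0 hvT]
      rw [e]
      gcongr
    have h6 := h4.trans h5
    rw [hvol, ← mul_assoc] at h6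
    have h7 := (ENNReal.mul_le_mul_iff_left (vb_pos n).ne' (vb_lt_top n).ne).1 h6
    rw [← ENNReal.ofReal_mul (by positivity), ← mul_pow] at h7
    have h8 := (ENNReal.ofReal_le_ofReal_iff (by positivity)).1 h7
    exact le_of_pow_le_pow_left₀ (by omega) (by positivity) h8

theorem energy_f {n : ℕ} {f : Eu n → Eu n} (hc : Continuous f) (hi : Function.Injective f)
    {h : Eu n → ℝ≥0∞} (hh : Measurable h) :
    ∫⁻ z, h (f z) * ((volume : Measure (Eu n)).comap f).rnDeriv volume z ≤ ∫⁻ y, h y := by
  have hme := me_8001_densf hc hi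
  have e1 : ∫⁻ z, h (f z) * ((volume : Measure (Eu n)).comap f).rnDeriv volume z =
      ∫⁻ z, h (f z) ∂((volume : Measure (Eu n)).withDensity
        (((volume : Measure (Eu n)).comap f).rnDeriv volume)) := by
    have h2 := lintegral_withDensity_eq_lintegral_mul (volume : Measure (Eu n))
      (Measure.measurable_rnDeriv ((volume : Measure (Eu n)).comap f) volume)
      (hh.comp hc.measurable)
    refine Eq.trans ?_ h2.symm
    congr 1
    funext z
    simp only [Pi.mul_apply, Function.comp]
    rw [mul_comm]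
  rw [e1]
  calc ∫⁻ z, h (f z) ∂((volume : Measure (Eu n)).withDensity
        (((volume : Measure (Eu n)).comap f).rnDeriv volume))
      ≤ ∫⁻ z, h (f z) ∂((volume : Measure (Eu n)).comap f) :=
        lintegral_mono' (Measure.withDensity_rnDeriv_le _ _) le_rfl
    _ = ∫⁻ y, h y ∂(((volume : Measure (Eu n)).comap f).map f) := by
        rw [hme.lintegral_map]
    _ = ∫⁻ y in range f, h y := by rw [hme.map_comap]
    _ ≤ ∫⁻ y, h y := setLIntegral_le_lintegral _ _

end

end Pool.Agent.Helper746.Qc
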