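import Mathlib
import Pool.Agent.Helper746.QcDefs
import Pool.Agent.Helper746.QcVol

set_option autoImplicit false

namespace Pool.Agent.Helper746.Qc

open Set Metric MeasureTheory Filter Topology
open scoped ENNReal NNReal

noncomputable section

theorem aux7997_radial_polar {n : ℕ} (hn : 1 ≤ n) (f : ℝ → ℝ) (hf : ∀ t, 0 ≤ f t)
    (hint : IntegrableOn (fun y : ℝ => y ^ (n - 1) * f y) (Ioi 0)) :
    ∫⁻ x : Eu n, ENNReal.ofReal (f ‖x‖) =
      ENNReal.ofReal (n * ∫ y in Ioi (0 : ℝ), y ^ (n - 1) * f y) * vb n := by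
  have hdim : Module.finrank ℝ (Eu n) = n := finrank_euclideanSpace_fin
  haveI : Nontrivial (Eu n) := by
    apply Module.nontrivial_of_finrank_pos (R := ℝ)
    rw [hdim]; omega
  have hI : Integrable (fun x : Eu n => f ‖x‖) volume := by
    rw [integrable_fun_norm_addHaar (volume : Measure (Eu n)) (f := f), hdim]
    simpa only [smul_eq_mul] using hint
  rw [← ofReal_integral_eq_lintegral_ofReal hI (ae_of_all _ fun x => hf _)]
  rw [integral_fun_norm_addHaar (volume : Measure (Eu n)) f, hdim]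
  simp only [smul_eq_mul, nsmul_eq_mul]
  have hv : (volume : Measure (Eu n)).real (ball (0 : Eu n) 1) = (vb n).toReal := rfl
  rw [hv]
  set J := ∫ y in Ioi (0 : ℝ), y ^ (n - 1) * f y with hJ
  have hJ0 : 0 ≤ J := by
    rw [hJ]
    apply setIntegral_nonneg measurableSet_Ioi
    intro y hy
    exact mul_nonneg (pow_nonneg (le_of_lt hy) _) (hf y)
  have : (n : ℝ) * ((vb n).toReal * J) = (n * J) * (vb n).toReal := by ring
  rw [this, ENNReal.ofReal_mul (by positivity), ENNReal.ofReal_toReal (vb_lt_top n).ne]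

theorem aux7997_powid_polar {n : ℕ} (hn : 1 ≤ n) {t : ℝ} (ht : 0 < t) :
    t ^ (n - 1) * (t⁻¹) ^ n = t⁻¹ := by
  obtain ⟨m, rfl⟩ : ∃ m, n = m + 1 := ⟨n - 1, by omega⟩
  simp only [Nat.add_sub_cancel]
  rw [pow_succ, ← mul_assoc, ← mul_pow, mul_inv_cancel₀ ht.ne', one_pow, one_mul]

theorem aux7997_loginv_polar {a b : ℝ} (ha : 0 < a) (hab : a ≤ b) :
    ∫ y in Ioc a b, y⁻¹ = Real.log (b / a) := by
  rw [← intervalIntegral.integral_of_le hab]
  rw [integral_inv_of_pos ha (lt_of_lt_of_le ha hab)]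

theorem aux7997_invint_polar {a b : ℝ} (ha : 0 < a) (hab : a ≤ b) :
    IntegrableOn (fun y : ℝ => y⁻¹) (Icc a b) := by
  apply ContinuousOn.integrableOn_Icc
  apply ContinuousOn.inv₀ continuousOn_id
  intro x hx
  exact (lt_of_lt_of_le ha hx.1).ne'

theorem lintegral_ring {n : ℕ} (hn : 1 ≤ n) (p : Eu n) {a b : ℝ} (ha : 0 < a) (hab : a < b) :
    ∫⁻ y : Eu n, (if a ≤ dist y p ∧ dist y p ≤ b then ENNReal.ofReal (1 / dist y p) else 0) ^ n ≤
      ENNReal.ofReal (n * Real.log (b / a)) * vb n := by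
  set f : ℝ → ℝ := (Icc a b).indicator (fun t => (t⁻¹) ^ n) with hfdef
  have hf : ∀ t, 0 ≤ f t := by
    intro t
    rw [hfdef]
    apply indicator_nonneg
    intro x hx
    have : 0 < x := lt_of_lt_of_le ha hx.1
    positivity
  have hprod : ∀ y : ℝ, y ^ (n - 1) * f y = (Icc a b).indicator (fun t => t⁻¹) y := by
    intro y
    by_cases hy : y ∈ Icc a b
    · rw [hfdef, indicator_of_mem hy, indicator_of_mem hy]
      exact aux7997_powid_polar hn (lt_of_lt_of_le ha hy.1)
    · rw [hfdef, indicator_of_notMem hy, indicator_of_notMem hy, mul_zero]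
  have hint : IntegrableOn (fun y : ℝ => y ^ (n - 1) * f y) (Ioi 0) := by
    simp only [hprod]
    have h1 : Integrable ((Icc a b).indicator (fun t : ℝ => t⁻¹)) volume :=
      (integrable_indicator_iff measurableSet_Icc).2 (aux7997_invint_polar ha hab.le)
    exact h1.integrableOn
  have hval : ∫ y in Ioi (0 : ℝ), y ^ (n - 1) * f y = Real.log (b / a) := by
    simp only [hprod]
    rw [setIntegral_indicator measurableSet_Icc]
    have : Ioi (0 : ℝ) ∩ Icc a b = Icc a b := by
      apply inter_eq_right.2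
      intro x hx
      exact lt_of_lt_of_le ha hx.1
    rw [this, integral_Icc_eq_integral_Ioc, aux7997_loginv_polar ha hab.le]
  have hrad := aux7997_radial_polar hn f hf hint
  rw [hval] at hrad
  have htr : ∫⁻ y : Eu n, (if a ≤ dist y p ∧ dist y p ≤ b then ENNReal.ofReal (1 / dist y p) else 0) ^ n
      = ∫⁻ y : Eu n, ENNReal.ofReal (f ‖y - p‖) := by
    apply lintegral_congr
    intro y
    rw [dist_eq_norm]
    by_cases hy : a ≤ ‖y - p‖ ∧ ‖y - p‖ ≤ b
    · rw [if_pos hy, hfdef, indicator_of_mem (show ‖y - p‖ ∈ Icc a b from hy),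
        ENNReal.ofReal_pow (by positivity), one_div]
    · rw [if_neg hy, hfdef, indicator_of_notMem (show ‖y - p‖ ∉ Icc a b from hy)]
      rw [zero_pow (by omega), ENNReal.ofReal_zero]
  rw [htr]
  rw [lintegral_sub_right_eq_self (fun y : Eu n => ENNReal.ofReal (f ‖y‖)) p, hrad]

theorem lintegral_max {n : ℕ} (hn : 1 ≤ n) {s R : ℝ} (hs : 0 < s) (hsR : s ≤ R) :
    ∫⁻ y in ball (0 : Eu n) R, ENNReal.ofReal ((max s ‖y‖)⁻¹ ^ n) ≤
      ENNReal.ofReal (1 + n * Real.log (R / s)) * vb n := by
  set f : ℝ → ℝ := (Iio R).indicator (fun t => ((max s t)⁻¹) ^ n) with hfdef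
  have hmax : ∀ t : ℝ, 0 < max s t := fun t => lt_max_of_lt_left hs
  have hf : ∀ t, 0 ≤ f t := by
    intro t
    rw [hfdef]
    apply indicator_nonneg
    intro x _
    have := hmax x
    positivity
  have hcont : Continuous (fun t : ℝ => t ^ (n - 1) * ((max s t)⁻¹) ^ n) := by
    apply (continuous_id.pow _).mul
    apply Continuous.pow
    apply Continuous.inv₀ (by fun_prop)
    intro t
    exact (hmax t).ne'
  have hprod : ∀ y : ℝ, y ^ (n - 1) * f y =
      (Iio R).indicator (fun t => t ^ (n - 1) * ((max s t)⁻¹) ^ n) y := by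
    intro y
    by_cases hy : y ∈ Iio R
    · rw [hfdef, indicator_of_mem hy, indicator_of_mem hy]
    · rw [hfdef, indicator_of_notMem hy, indicator_of_notMem hy, mul_zero]
  have hinter : Ioi (0 : ℝ) ∩ Iio R = Ioo 0 R := rfl
  have hint : IntegrableOn (fun y : ℝ => y ^ (n - 1) * f y) (Ioi 0) := by
    simp only [hprod]
    rw [integrableOn_indicator_iff measurableSet_Iio, inter_comm, hinter]
    exact (hcont.integrableOn_Icc (a := 0) (b := R)).mono_set Ioo_subset_Icc_self
  have hval : ∫ y in Ioi (0 : ℝ), y ^ (n - 1) * f y = 1 / n + Real.log (R / s) := by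
    simp only [hprod]
    rw [setIntegral_indicator measurableSet_Iio, hinter, ← integral_Ioc_eq_integral_Ioo,
      ← intervalIntegral.integral_of_le (hs.le.trans hsR)]
    rw [← intervalIntegral.integral_add_adjacent_intervals
      (hcont.intervalIntegrable 0 s) (hcont.intervalIntegrable s R)]
    congr 1
    · have : ∫ t in (0 : ℝ)..s, t ^ (n - 1) * ((max s t)⁻¹) ^ n =
          ∫ t in (0 : ℝ)..s, t ^ (n - 1) * (s⁻¹) ^ n := by
        apply intervalIntegral.integral_congr
        intro t ht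
        rw [uIcc_of_le hs.le] at ht
        simp only [max_eq_left ht.2]
      rw [this, intervalIntegral.integral_mul_const, integral_pow]
      obtain ⟨m, rfl⟩ : ∃ m, n = m + 1 := ⟨n - 1, by omega⟩
      simp only [Nat.add_sub_cancel]
      have hs' : s ≠ 0 := hs.ne'
      have hm : ((m : ℝ) + 1) ≠ 0 := by positivity
      push_cast
      rw [zero_pow (by omega), sub_zero, inv_pow]
      field_simp
    · have : ∫ t in s..R, t ^ (n - 1) * ((max s t)⁻¹) ^ n = ∫ t in s..R, t⁻¹ := by
        apply intervalIntegral.integral_congr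
        intro t ht
        rw [uIcc_of_le hsR] at ht
        simp only [max_eq_right ht.1]
        exact aux7997_powid_polar hn (lt_of_lt_of_le hs ht.1)
      rw [this, integral_inv_of_pos hs (lt_of_lt_of_le hs hsR)]
  have hrad := aux7997_radial_polar hn f hf hint
  rw [hval] at hrad
  have htr : ∫⁻ y in ball (0 : Eu n) R, ENNReal.ofReal ((max s ‖y‖)⁻¹ ^ n)
      = ∫⁻ y : Eu n, ENNReal.ofReal (f ‖y‖) := by
    rw [← lintegral_indicator measurableSet_ball]
    apply lintegral_congr
    intro y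
    by_cases hy : ‖y‖ < R
    · rw [indicator_of_mem (by simpa using hy), hfdef,
        indicator_of_mem (show ‖y‖ ∈ Iio R from hy)]
    · rw [indicator_of_notMem (by simpa using hy), hfdef,
        indicator_of_notMem (show ‖y‖ ∉ Iio R from hy), ENNReal.ofReal_zero]
  rw [htr, hrad]
  apply le_of_eq
  congr 2
  have hn' : (n : ℝ) ≠ 0 := by
    have : 0 < n := by omega
    positivity
  field_simp

end

end Pool.Agent.Helper746.Qc
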