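import Mathlib
import Pool.Agent.Helper746.QcDefs
import Pool.Agent.Helper746.QcVol
import Pool.Agent.Helper746.QcUg
import Pool.Agent.Helper746.QcClog
import Pool.Agent.Helper746.QcPolar
import Pool.Agent.Helper746.QcDensf

set_option autoImplicit false

namespace Pool.Agent.Helper746.Qc

open Set Metric MeasureTheory Filter Topology
open scoped ENNReal NNReal

noncomputable section

theorem choose_two_ringug {u s c : ℝ} (hu : 0 < u) (hs : 0 ≤ s) (h : u * s < c) :
    ∃ c1 c2 : ℝ, u < c1 ∧ s < c2 ∧ c1 * c2 ≤ c := by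
  have hpos : 0 < u + s + 1 := by linarith
  have hd : 0 < (c - u * s) / (u + s + 1) := div_pos (by linarith) hpos
  set η := min 1 ((c - u * s) / (u + s + 1)) with hη
  have hη0 : 0 < η := lt_min one_pos hd
  have hη1 : η ≤ 1 := min_le_left _ _
  have hη2 : η * (u + s + 1) ≤ c - u * s := by
    have := min_le_right 1 ((c - u * s) / (u + s + 1))
    rw [← hη, le_div_iff₀ hpos] at this
    exact this
  refine ⟨u + η, s + η, by linarith, by linarith, ?_⟩
  have : (u + η) * (s + η) = u * s + η * (u + s + η) := by ring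
  rw [this]
  have h3 : η * (u + s + η) ≤ η * (u + s + 1) := by gcongr
  linarith

theorem ring_ug {n : ℕ} (hn : 2 ≤ n) {H K : ℝ} (hH : 1 ≤ H) (hK : 1 ≤ K) {f : Eu n → Eu n} (hf : QC H K f)
    (p : Eu n) {a b : ℝ} (ha : 0 < a) (hab : a < b) :
    ∃ ℓ : Eu n → ℝ≥0∞, Measurable ℓ ∧ UG (fun x => cl a b (dist (f x) p)) ℓ ∧
      ∫⁻ x, ℓ x ^ n ≤ ENNReal.ofReal (K ^ n * (n * Real.log (b / a))) * vb n := by
  have hn1 : 1 ≤ n := by omega
  have hn0 : n ≠ 0 := by omega
  have hc := hf.cont
  have hi := hf.inj
  haveI : IsLocallyFiniteMeasure ((volume : Measure (Eu n)).comap f) := comap_locallyFinite hc hi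
  set μ : Measure (Eu n) := (volume : Measure (Eu n)).comap f with hμ
  set D : Eu n → ℝ≥0∞ := μ.rnDeriv volume with hD
  have hDm : Measurable D := Measure.measurable_rnDeriv _ _
  have hDt : ∀ᵐ z : Eu n, D z < ⊤ := Measure.rnDeriv_lt_top μ volume
  set σ : Eu n → ℝ≥0∞ := fun y =>
    if a ≤ dist y p ∧ dist y p ≤ b then ENNReal.ofReal (1 / dist y p) else 0 with hσ
  have hdm : Measurable fun y : Eu n => dist y p := (continuous_id.dist continuous_const).measurable
  have hσm : Measurable σ := by
    refine Measurable.ite ?_ ?_ measurable_const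
    · exact (measurableSet_le measurable_const hdm).inter (measurableSet_le hdm measurable_const)
    · exact (measurable_const.div hdm).ennreal_ofReal
  set ℓ : Eu n → ℝ≥0∞ := fun z => σ (f z) * (ENNReal.ofReal K * D z ^ ((1 : ℝ) / n)) with hℓ
  have hℓm : Measurable ℓ :=
    (hσm.comp hc.measurable).mul (measurable_const.mul (hDm.pow_const _))
  refine ⟨ℓ, hℓm, ?_, ?_⟩
  · -- the upper gradient inequality
    intro v
    set w : Eu n → ℝ := fun x => cl a b (dist (f x) p) with hw
    have hwc : ContinuousOn w univ := by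
      have : Continuous w := (cl_continuous ha hab).comp_continuous (hc.dist continuous_const)
        (fun x => dist_nonneg)
      exact this.continuousOn
    set V : ℝ := (vb n).toReal with hV
    have hVpos : 0 < V := ENNReal.toReal_pos (vb_pos n).ne' (vb_lt_top n).ne
    have hVo : vb n = ENNReal.ofReal V := (ENNReal.ofReal_toReal (vb_lt_top n).ne).symm
    have hCpos : 0 < (1 / a) ^ n / V * H ^ n := by positivity
    have hdist : ∀ z z' : Eu n, |dist (f z') p - dist (f z) p| ≤ dist (f z') (f z) :=
      fun z z' => abs_dist_sub_le _ _ _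
    have hG : ∀ z ∈ (univ : Set (Eu n)), ∃ δ : ℝ, 0 < δ ∧ ∀ z' : Eu n, dist z' z < δ →
        ENNReal.ofReal (|w z' - w z| ^ n) ≤
          ENNReal.ofReal ((1 / a) ^ n / V * H ^ n) * μ (closedBall z (H * dist z' z)) := by
      intro z _
      obtain ⟨δ, hδ, hg⟩ := growth_f hn1 hH hf z
      refine ⟨δ, hδ, fun z' hz' => ?_⟩
      have h1 := hg z' hz'
      have h2 : |w z' - w z| ≤ (1 / a) * dist (f z') (f z) :=
        (cl_lip ha hab dist_nonneg dist_nonneg).trans
          (mul_le_mul_of_nonneg_left (hdist z z') (by positivity))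
      have h3 : |w z' - w z| ^ n ≤ (1 / a) ^ n / V * (dist (f z') (f z) ^ n * V) := by
        calc |w z' - w z| ^ n ≤ ((1 / a) * dist (f z') (f z)) ^ n :=
              pow_le_pow_left₀ (abs_nonneg _) h2 _
          _ = (1 / a) ^ n / V * (dist (f z') (f z) ^ n * V) := by
              rw [mul_pow]; field_simp
      have hmono : μ (closedBall z (dist z' z)) ≤ μ (closedBall z (H * dist z' z)) := by
        apply measure_mono
        apply closedBall_subset_closedBall
        have := dist_nonneg (x := z') (y := z)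
        nlinarith
      calc ENNReal.ofReal (|w z' - w z| ^ n)
          ≤ ENNReal.ofReal ((1 / a) ^ n / V * (dist (f z') (f z) ^ n * V)) :=
            ENNReal.ofReal_le_ofReal h3
        _ = ENNReal.ofReal ((1 / a) ^ n / V) * (ENNReal.ofReal (dist (f z') (f z) ^ n) * vb n) := by
            rw [hVo, ← ENNReal.ofReal_mul (by positivity), ← ENNReal.ofReal_mul (by positivity)]
        _ ≤ ENNReal.ofReal ((1 / a) ^ n / V) *
              (ENNReal.ofReal (H ^ n) * μ (closedBall z (dist z' z))) := by gcongr
        _ ≤ ENNReal.ofReal ((1 / a) ^ n / V) *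
              (ENNReal.ofReal (H ^ n) * μ (closedBall z (H * dist z' z))) := by gcongr
        _ = ENNReal.ofReal ((1 / a) ^ n / V * H ^ n) * μ (closedBall z (H * dist z' z)) := by
            rw [← mul_assoc, ← ENNReal.ofReal_mul (by positivity)]
    have hL : ∀ᵐ z : Eu n, z ∈ (univ : Set (Eu n)) → ∀ c : ℝ, ℓ z < ENNReal.ofReal c →
        ∃ δ : ℝ, 0 < δ ∧ ∀ z' : Eu n, dist z' z < δ → |w z' - w z| ≤ c * dist z' z := by
      filter_upwards [dens_f hn1 hK hf, hDt] with z hz hzD _ c hcl
      have hcpos : 0 < c := by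
        by_contra hneg
        rw [ENNReal.ofReal_of_nonpos (not_lt.1 hneg)] at hcl
        exact not_lt_zero hcl
      set t : ℝ := dist (f z) p with ht
      have ht0 : 0 ≤ t := dist_nonneg
      have hcont := Metric.continuous_iff.1 hc z
      by_cases h : a ≤ t ∧ t ≤ b
      · have htpos : 0 < t := lt_of_lt_of_le ha h.1
        set q : ℝ := (D z).toReal ^ ((1 : ℝ) / n) with hq
        have hq0 : 0 ≤ q := Real.rpow_nonneg ENNReal.toReal_nonneg _
        have hDq : D z ^ ((1 : ℝ) / n) = ENNReal.ofReal q := by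
          rw [hq, ← ENNReal.ofReal_rpow_of_nonneg ENNReal.toReal_nonneg (by positivity),
            ENNReal.ofReal_toReal hzD.ne]
        have hqn : q ^ n = (D z).toReal := by
          rw [hq, ← Real.rpow_natCast, ← Real.rpow_mul ENNReal.toReal_nonneg]
          have : (1 : ℝ) / n * n = 1 := by
            have : (n : ℝ) ≠ 0 := by exact_mod_cast hn0
            field_simp
          rw [this, Real.rpow_one]
        have hDn : D z = ENNReal.ofReal (q ^ n) := by
          rw [hqn, ENNReal.ofReal_toReal hzD.ne]
        have hℓz : ℓ z = ENNReal.ofReal (1 / t * (K * q)) := by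
          have : σ (f z) = ENNReal.ofReal (1 / t) := by
            rw [hσ]; exact if_pos h
          rw [hℓ]
          show σ (f z) * (ENNReal.ofReal K * D z ^ ((1 : ℝ) / n)) = _
          rw [this, hDq, ← ENNReal.ofReal_mul (by linarith), ← ENNReal.ofReal_mul (by positivity)]
        rw [hℓz, ENNReal.ofReal_lt_ofReal_iff hcpos] at hcl
        obtain ⟨c1, c2, hc1, hc2, hc12⟩ := choose_two_ringug (by positivity) (by positivity) hcl
        have hKq : 0 ≤ K * q := by positivity
        have hc20 : 0 ≤ c2 := by linarith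
        have hc10 : 0 ≤ c1 := by
          have : 0 < 1 / t := by positivity
          linarith
        obtain ⟨δ1, hδ1, h1⟩ := cl_local ha hab ht0 c1 (by rw [if_pos h]; exact hc1)
        obtain ⟨δ2, hδ2, h2⟩ := hz c2 hc20 (by
          have e1 : ENNReal.ofReal (K ^ n) * D z = ENNReal.ofReal ((K * q) ^ n) := by
            rw [hDn, ← ENNReal.ofReal_mul (by positivity), mul_pow]
          have e2 : (K * q) ^ n < c2 ^ n := pow_lt_pow_left₀ hc2 hKq hn0
          show ENNReal.ofReal (K ^ n) * D z < _
          rw [e1, ENNReal.ofReal_lt_ofReal_iff (lt_of_le_of_lt (by positivity) e2)]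
          exact e2)
        obtain ⟨δ3, hδ3, h3⟩ := hcont δ1 hδ1
        refine ⟨min δ2 δ3, lt_min hδ2 hδ3, fun z' hz' => ?_⟩
        have hz2 : dist z' z < δ2 := lt_of_lt_of_le hz' (min_le_left _ _)
        have hz3 : dist z' z < δ3 := lt_of_lt_of_le hz' (min_le_right _ _)
        have e3 := hdist z z'
        have e4 := h3 z' hz3
        have e5 := h1 (dist (f z') p) dist_nonneg (lt_of_le_of_lt e3 e4)
        have e6 := h2 z' hz2
        calc |w z' - w z| ≤ c1 * |dist (f z') p - t| := e5
          _ ≤ c1 * dist (f z') (f z) := mul_le_mul_of_nonneg_left e3 hc10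
          _ ≤ c1 * (c2 * dist z' z) := mul_le_mul_of_nonneg_left e6 hc10
          _ = c1 * c2 * dist z' z := by ring
          _ ≤ c * dist z' z := mul_le_mul_of_nonneg_right hc12 dist_nonneg
      · rcases lt_or_ge t a with hta | hta
        · obtain ⟨δ3, hδ3, h3⟩ := hcont (a - t) (by linarith)
          refine ⟨δ3, hδ3, fun z' hz' => ?_⟩
          have e3 := hdist z z'
          have e4 := h3 z' hz'
          have e5 := (abs_le.1 e3).2
          have e6 : dist (f z') p ≤ a := by linarith
          have e7 : w z' = 0 := cl_of_le ha hab dist_nonneg e6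
          have e8 : w z = 0 := cl_of_le ha hab ht0 hta.le
          rw [e7, e8, sub_zero, abs_zero]
          positivity
        · have htb : b < t := by
            by_contra hcon
            exact h ⟨hta, not_lt.1 hcon⟩
          obtain ⟨δ3, hδ3, h3⟩ := hcont (t - b) (by linarith)
          refine ⟨δ3, hδ3, fun z' hz' => ?_⟩
          have e3 := hdist z z'
          have e4 := h3 z' hz'
          have e5 := (abs_le.1 e3).1
          have e6 : b ≤ dist (f z') p := by linarith
          have e7 : w z' = Real.log (b / a) := cl_of_ge ha hab e6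
          have e8 : w z = Real.log (b / a) := cl_of_ge ha hab htb.le
          rw [e7, e8, sub_self, abs_zero]
          positivity
    have key := upper_gradient hn μ univ isOpen_univ w hwc ((1 / a) ^ n / V * H ^ n) H hCpos hH
      hG ℓ hℓm hL v
    filter_upwards [key] with x hx
    exact hx (fun s _ => mem_univ _)
  · -- the energy
    have h1 : ∀ z, ℓ z ^ n = ENNReal.ofReal (K ^ n) * (σ (f z) ^ n * D z) := by
      intro z
      have e1 : (D z ^ ((1 : ℝ) / n)) ^ n = D z := by
        rw [← ENNReal.rpow_natCast, ← ENNReal.rpow_mul]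
        have : (1 : ℝ) / n * n = 1 := by
          have : (n : ℝ) ≠ 0 := by exact_mod_cast hn0
          field_simp
        rw [this, ENNReal.rpow_one]
      rw [hℓ]
      show (σ (f z) * (ENNReal.ofReal K * D z ^ ((1 : ℝ) / n))) ^ n = _
      rw [mul_pow, mul_pow, e1, ENNReal.ofReal_pow (by linarith)]
      ring
    calc ∫⁻ x, ℓ x ^ n = ∫⁻ x, ENNReal.ofReal (K ^ n) * (σ (f x) ^ n * D x) := by
          simp only [h1]
      _ = ENNReal.ofReal (K ^ n) * ∫⁻ x, σ (f x) ^ n * D x :=
          lintegral_const_mul' _ _ ENNReal.ofReal_ne_top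
      _ ≤ ENNReal.ofReal (K ^ n) * ∫⁻ y, σ y ^ n := by
          refine mul_le_mul_right ?_ _
          exact energy_f hc hi (h := fun y => σ y ^ n) (hσm.pow_const n)
      _ ≤ ENNReal.ofReal (K ^ n) * (ENNReal.ofReal (n * Real.log (b / a)) * vb n) := by
          gcongr
          exact lintegral_ring hn1 p ha hab
      _ = ENNReal.ofReal (K ^ n * (n * Real.log (b / a))) * vb n := by
          rw [← mul_assoc, ← ENNReal.ofReal_mul (by positivity)]

end

end Pool.Agent.Helper746.Qc
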