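import Mathlib
import Pool.Agent.Helper746.QcDefs
import Pool.Agent.Helper746.QcVol
import Pool.Agent.Helper746.QcPolar

set_option autoImplicit false

namespace Pool.Agent.Helper746.Qc

open Set Metric MeasureTheory Filter Topology
open scoped ENNReal NNReal

noncomputable section

/-- antiderivative -/
theorem rt_deriv_radial {n : ℕ} (hn : 1 ≤ n) {a b t : ℝ} (h : a + t * b ≠ 0) :
    HasDerivAt (fun t : ℝ => -((a + t * b) ^ n)⁻¹ / n) (b * ((a + t * b)⁻¹) ^ (n + 1)) t := by
  have h1 : HasDerivAt (fun t : ℝ => a + t * b) b t := by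
    have := ((hasDerivAt_id t).mul_const b).const_add a
    simpa using this
  have h2 : HasDerivAt (fun t : ℝ => -((a + t * b) ^ n)⁻¹ / n)
      (-(-((n:ℝ) * (a + t * b) ^ (n - 1) * b) / ((a + t * b) ^ n) ^ 2) / n) t :=
    ((h1.pow n).inv (pow_ne_zero n h)).neg.div_const (n : ℝ)
  refine h2.congr_deriv ?_
  have hn0 : (n : ℝ) ≠ 0 := by positivity
  obtain ⟨k, rfl⟩ : ∃ k, n = k + 1 := ⟨n - 1, by omega⟩
  rw [Nat.add_sub_cancel, inv_pow]
  generalize a + t * b = X at h
  field_simp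
  ring

theorem rt_inner_radial {n : ℕ} (hn : 1 ≤ n) {s R ρ : ℝ} (hs : 0 < s) (hsR : s < R) :
    ∫⁻ t in Icc (0:ℝ) 1, (if ρ < s + t * (R - s) then
      ENNReal.ofReal ((R - s) * ((s + t * (R - s))⁻¹) ^ (n + 1)) else 0) ≤
    if ρ < R then ENNReal.ofReal (((max s ρ)⁻¹) ^ n / n) else 0 := by
  have hb : 0 < R - s := by linarith
  have hn0 : (0:ℝ) < n := by exact_mod_cast hn
  split_ifs with hρ
  · set t0 : ℝ := (max s ρ - s) / (R - s) with ht0
    have ht00 : 0 ≤ t0 := div_nonneg (by linarith [le_max_left s ρ]) hb.le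
    have ht01 : t0 ≤ 1 := by
      rw [ht0, div_le_one hb]
      have : max s ρ ≤ R := max_le hsR.le hρ.le
      linarith
    have hl0 : s + t0 * (R - s) = max s ρ := by
      rw [ht0, div_mul_cancel₀ _ hb.ne']; ring
    have hpos : ∀ t : ℝ, 0 ≤ t → 0 < s + t * (R - s) := fun t ht => by positivity
    calc ∫⁻ t in Icc (0:ℝ) 1, (if ρ < s + t * (R - s) then
          ENNReal.ofReal ((R - s) * ((s + t * (R - s))⁻¹) ^ (n + 1)) else 0)
        ≤ ∫⁻ t in Icc (0:ℝ) 1, (Icc t0 1).indicator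
            (fun t => ENNReal.ofReal ((R - s) * ((s + t * (R - s))⁻¹) ^ (n + 1))) t := by
          refine setLIntegral_mono' measurableSet_Icc fun t ht => ?_
          split_ifs with h
          · rw [indicator_of_mem]
            refine ⟨?_, ht.2⟩
            rw [ht0, div_le_iff₀ hb]
            rcases max_cases s ρ with ⟨h1, _⟩ | ⟨h1, _⟩
            · rw [h1, sub_self]
              exact mul_nonneg ht.1 hb.le
            · rw [h1]; linarith
          · exact bot_le
      _ ≤ ∫⁻ t, (Icc t0 1).indicator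
            (fun t => ENNReal.ofReal ((R - s) * ((s + t * (R - s))⁻¹) ^ (n + 1))) t :=
          setLIntegral_le_lintegral _ _
      _ = ∫⁻ t in Icc t0 1, ENNReal.ofReal ((R - s) * ((s + t * (R - s))⁻¹) ^ (n + 1)) :=
          lintegral_indicator measurableSet_Icc _
      _ = ENNReal.ofReal (∫ t in Icc t0 1, (R - s) * ((s + t * (R - s))⁻¹) ^ (n + 1)) := by
          rw [ofReal_integral_eq_lintegral_ofReal]
          · refine ContinuousOn.integrableOn_Icc ?_
            refine continuousOn_const.mul (ContinuousOn.pow (ContinuousOn.inv₀ (by fun_prop) ?_) _)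
            intro t ht
            exact (hpos t (ht00.trans ht.1)).ne'
          · rw [EventuallyLE, ae_restrict_iff' measurableSet_Icc]
            refine Eventually.of_forall fun t ht => ?_
            have := hpos t (ht00.trans ht.1)
            show 0 ≤ _
            positivity
      _ ≤ ENNReal.ofReal (((max s ρ)⁻¹) ^ n / n) := by
          refine ENNReal.ofReal_le_ofReal ?_
          rw [integral_Icc_eq_integral_Ioc, ← intervalIntegral.integral_of_le ht01,
            intervalIntegral.integral_eq_sub_of_hasDerivAt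
              (f := fun t : ℝ => -((s + t * (R - s)) ^ n)⁻¹ / n)]
          · rw [hl0]
            have e1 : s + 1 * (R - s) = R := by ring
            have e2 : 0 ≤ (R ^ n)⁻¹ / (n:ℝ) := by
              have : 0 < R := by linarith
              positivity
            rw [e1, inv_pow, neg_div, neg_div]
            linarith
          · intro t ht
            rw [uIcc_of_le ht01] at ht
            exact rt_deriv_radial hn (hpos t (ht00.trans ht.1)).ne'
          · refine ContinuousOn.intervalIntegrable ?_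
            rw [uIcc_of_le ht01]
            refine continuousOn_const.mul (ContinuousOn.pow (ContinuousOn.inv₀ (by fun_prop) ?_) _)
            intro t ht
            exact (hpos t (ht00.trans ht.1)).ne'
  · rw [nonpos_iff_eq_zero, lintegral_eq_zero_of_ae_eq_zero]
    rw [EventuallyEq, ae_restrict_iff' measurableSet_Icc]
    refine Eventually.of_forall fun t ht => ?_
    rw [if_neg]
    · rfl
    · push Not at hρ ⊢
      have : t * (R - s) ≤ 1 * (R - s) := mul_le_mul_of_nonneg_right ht.2 hb.le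
      linarith

/-- scaling -/
theorem rt_scale_radial {n : ℕ} (g : Eu n → ℝ≥0∞) (hg : Measurable g) {c : ℝ} (hc : 0 < c) :
    ∫⁻ x, g (c • x) = ENNReal.ofReal ((c ^ n)⁻¹) * ∫⁻ y, g y := by
  have h1 := Measure.map_addHaar_smul (volume : Measure (Eu n)) hc.ne'
  rw [finrank_euclideanSpace, Fintype.card_fin, abs_of_pos (by positivity)] at h1
  have h2 : ∫⁻ y, g y ∂(Measure.map (fun x : Eu n => c • x) volume) = ∫⁻ x, g (c • x) :=
    lintegral_map hg (measurable_const_smul c)
  rw [← h2]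
  have h3 : Measure.map (fun x : Eu n => c • x) volume =
      ENNReal.ofReal ((c ^ n)⁻¹) • (volume : Measure (Eu n)) := h1
  rw [h3, lintegral_smul_measure, smul_eq_mul]

theorem rt_A_radial {n : ℕ} (hn : 1 ≤ n) {ℓ : Eu n → ℝ≥0∞} (hℓ : Measurable ℓ) {s R : ℝ} (hs : 0 < s)
    (hsR : s < R) (z : Eu n) :
    ∫⁻ x in ball (0 : Eu n) 1, (∫⁻ t in Icc (0:ℝ) 1, ℓ (z + (s + t * (R - s)) • x)) *
      ENNReal.ofReal ((R - s) * ‖x‖) ≤
    ∫⁻ y in ball (0 : Eu n) R, ℓ (z + y) * ENNReal.ofReal (‖y‖ * (((max s ‖y‖)⁻¹) ^ n / n)) := by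
  have hb : 0 < R - s := by linarith
  have hpos : ∀ t : ℝ, 0 ≤ t → 0 < s + t * (R - s) := fun t ht => by positivity
  have m0 : Measurable (fun p : Eu n × ℝ => ℓ (z + (s + p.2 * (R - s)) • p.1)) :=
    hℓ.comp (by fun_prop)
  have m1 : Measurable (fun p : Eu n × ℝ => ℓ (z + (s + p.2 * (R - s)) • p.1) *
      ENNReal.ofReal ((R - s) * ‖p.1‖)) := m0.mul (by fun_prop)
  calc ∫⁻ x in ball (0 : Eu n) 1, (∫⁻ t in Icc (0:ℝ) 1, ℓ (z + (s + t * (R - s)) • x)) *
      ENNReal.ofReal ((R - s) * ‖x‖)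
      = ∫⁻ x in ball (0 : Eu n) 1, ∫⁻ t in Icc (0:ℝ) 1, ℓ (z + (s + t * (R - s)) • x) *
      ENNReal.ofReal ((R - s) * ‖x‖) := by
        refine lintegral_congr fun x => ?_
        rw [lintegral_mul_const]
        exact m0.comp (by fun_prop : Measurable (fun t : ℝ => (x, t)))
    _ = ∫⁻ t in Icc (0:ℝ) 1, ∫⁻ x in ball (0 : Eu n) 1, ℓ (z + (s + t * (R - s)) • x) *
      ENNReal.ofReal ((R - s) * ‖x‖) := by
        rw [lintegral_lintegral_swap]
        exact m1.aemeasurable
    _ = ∫⁻ t in Icc (0:ℝ) 1, ∫⁻ y : Eu n, (ℓ (z + y) * ENNReal.ofReal ‖y‖) *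
          (if ‖y‖ < s + t * (R - s) then
            ENNReal.ofReal ((R - s) * ((s + t * (R - s))⁻¹) ^ (n + 1)) else 0) := by
        refine setLIntegral_congr_fun measurableSet_Icc fun t ht => ?_
        have hl := hpos t ht.1
        set lam : ℝ := s + t * (R - s) with hlam
        have hg : Measurable (fun y : Eu n => (ball (0 : Eu n) lam).indicator
            (fun y => ℓ (z + y) * ENNReal.ofReal ((R - s) * (‖y‖ / lam))) y) := by
          refine Measurable.indicator ?_ measurableSet_ball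
          exact (hℓ.comp (by fun_prop)).mul (by fun_prop)
        have h1 := rt_scale_radial (fun y : Eu n => (ball (0 : Eu n) lam).indicator
            (fun y => ℓ (z + y) * ENNReal.ofReal ((R - s) * (‖y‖ / lam))) y) hg hl
        rw [← lintegral_indicator measurableSet_ball]
        have h2 : ∀ x : Eu n, (ball (0 : Eu n) 1).indicator (fun x => ℓ (z + lam • x) *
            ENNReal.ofReal ((R - s) * ‖x‖)) x = (ball (0 : Eu n) lam).indicator
            (fun y => ℓ (z + y) * ENNReal.ofReal ((R - s) * (‖y‖ / lam))) (lam • x) := by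
          intro x
          have h3 : lam • x ∈ ball (0 : Eu n) lam ↔ x ∈ ball (0 : Eu n) 1 := by
            rw [mem_ball_zero_iff, mem_ball_zero_iff, norm_smul, Real.norm_of_nonneg hl.le]
            constructor
            · intro h; nlinarith
            · intro h; nlinarith
          by_cases hx : x ∈ ball (0 : Eu n) 1
          · rw [indicator_of_mem hx, indicator_of_mem (h3.2 hx), norm_smul,
              Real.norm_of_nonneg hl.le, mul_div_cancel_left₀ _ hl.ne']
          · rw [indicator_of_notMem hx, indicator_of_notMem (fun h => hx (h3.1 h))]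
        rw [lintegral_congr h2, h1, ← lintegral_const_mul _ hg]
        refine lintegral_congr fun y => ?_
        by_cases hy : y ∈ ball (0 : Eu n) lam
        · rw [indicator_of_mem hy, if_pos (mem_ball_zero_iff.1 hy)]
          rw [mul_left_comm, mul_assoc, ← ENNReal.ofReal_mul (by positivity),
            ← ENNReal.ofReal_mul (by positivity)]
          congr 2
          rw [inv_pow, pow_succ lam n]
          field_simp
        · rw [indicator_of_notMem hy, if_neg (fun h => hy (mem_ball_zero_iff.2 h)), mul_zero, mul_zero]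
    _ = ∫⁻ y : Eu n, ∫⁻ t in Icc (0:ℝ) 1, (ℓ (z + y) * ENNReal.ofReal ‖y‖) *
          (if ‖y‖ < s + t * (R - s) then
            ENNReal.ofReal ((R - s) * ((s + t * (R - s))⁻¹) ^ (n + 1)) else 0) := by
        rw [lintegral_lintegral_swap]
        refine Measurable.aemeasurable ?_
        refine Measurable.mul ((hℓ.comp (by fun_prop)).mul (by fun_prop)) ?_
        refine Measurable.ite ?_ (by fun_prop) measurable_const
        exact measurableSet_lt (by fun_prop) (by fun_prop)
    _ ≤ ∫⁻ y : Eu n, (ℓ (z + y) * ENNReal.ofReal ‖y‖) *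
          (if ‖y‖ < R then ENNReal.ofReal (((max s ‖y‖)⁻¹) ^ n / n) else 0) := by
        refine lintegral_mono fun y => ?_
        simp only []
        rw [lintegral_const_mul]
        · gcongr
          exact rt_inner_radial hn hs hsR
        · refine Measurable.ite ?_ (by fun_prop) measurable_const
          exact measurableSet_lt (by fun_prop) (by fun_prop)
    _ = ∫⁻ y in ball (0 : Eu n) R, ℓ (z + y) * ENNReal.ofReal (‖y‖ * (((max s ‖y‖)⁻¹) ^ n / n)) := by
        rw [← lintegral_indicator measurableSet_ball]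
        refine lintegral_congr fun y => ?_
        by_cases hy : y ∈ ball (0 : Eu n) R
        · rw [indicator_of_mem hy, if_pos (mem_ball_zero_iff.1 hy), mul_assoc,
            ← ENNReal.ofReal_mul (norm_nonneg _)]
        · rw [indicator_of_notMem hy, if_neg (fun h => hy (mem_ball_zero_iff.2 h)), mul_zero]

theorem rt_B_radial {n : ℕ} (hn : 2 ≤ n) {ℓ : Eu n → ℝ≥0∞} (hℓ : Measurable ℓ) {Q : ℝ} (hQ : 0 ≤ Q)
    (hE : ∫⁻ x, ℓ x ^ n ≤ ENNReal.ofReal (Q ^ n) * vb n) {s R : ℝ} (hs : 0 < s) (hsR : s ≤ R)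
    (z : Eu n) :
    ∫⁻ y in ball (0 : Eu n) R, ℓ (z + y) * ENNReal.ofReal (‖y‖ * (((max s ‖y‖)⁻¹) ^ n / n)) ≤
      ENNReal.ofReal (Q * (1 + Real.log (R / s)) ^ (((n : ℝ) - 1) / n)) * vb n := by
  have hn0 : (0:ℝ) < n := by positivity
  have hn1 : (1:ℝ) < n := by exact_mod_cast hn
  have hL : 0 ≤ Real.log (R / s) := Real.log_nonneg (by rwa [le_div_iff₀ hs, one_mul])
  set L := Real.log (R / s) with hLdef
  set q : ℝ := n / ((n:ℝ) - 1) with hq
  have hpq : (n : ℝ).HolderConjugate q := Real.HolderConjugate.conjExponent hn1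
  have hq0 : 0 < q := by
    rw [hq]; exact div_pos hn0 (by linarith)
  have hq1 : 1 / q = ((n:ℝ) - 1) / n := by rw [hq, one_div_div]
  have mg : Measurable (fun y : Eu n => ENNReal.ofReal (((max s ‖y‖)⁻¹) ^ (n - 1))) := by fun_prop
  have mf : Measurable (fun y : Eu n => ℓ (z + y)) := hℓ.comp (by fun_prop)
  have step1 : ∫⁻ y in ball (0 : Eu n) R, ℓ (z + y) *
      ENNReal.ofReal (‖y‖ * (((max s ‖y‖)⁻¹) ^ n / n)) ≤
      ENNReal.ofReal (1 / n) * ∫⁻ y in ball (0 : Eu n) R, ℓ (z + y) *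
        ENNReal.ofReal (((max s ‖y‖)⁻¹) ^ (n - 1)) := by
    have mfg : Measurable (fun y : Eu n => ℓ (z + y) * ENNReal.ofReal (((max s ‖y‖)⁻¹) ^ (n - 1))) :=
      mf.mul mg
    rw [← lintegral_const_mul _ mfg]
    refine lintegral_mono fun y => ?_
    simp only []
    rw [mul_left_comm, ← ENNReal.ofReal_mul (by positivity)]
    refine mul_le_mul' le_rfl (ENNReal.ofReal_le_ofReal ?_)
    have hM : 0 < max s ‖y‖ := lt_max_of_lt_left hs
    have h1 : ((max s ‖y‖)⁻¹) ^ n = (max s ‖y‖)⁻¹ * ((max s ‖y‖)⁻¹) ^ (n - 1) := by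
      rw [← pow_succ']
      congr 1
      omega
    rw [h1]
    have h2 : ‖y‖ * (max s ‖y‖)⁻¹ ≤ 1 := by
      rw [← div_eq_mul_inv, div_le_one hM]
      exact le_max_right _ _
    have h3 : 0 ≤ ((max s ‖y‖)⁻¹) ^ (n - 1) / n := by positivity
    calc ‖y‖ * ((max s ‖y‖)⁻¹ * ((max s ‖y‖)⁻¹) ^ (n - 1) / n)
        = (‖y‖ * (max s ‖y‖)⁻¹) * (((max s ‖y‖)⁻¹) ^ (n - 1) / n) := by ring
      _ ≤ 1 * (((max s ‖y‖)⁻¹) ^ (n - 1) / n) := mul_le_mul_of_nonneg_right h2 h3
      _ = 1 / n * ((max s ‖y‖)⁻¹) ^ (n - 1) := by ring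
  have step2 := ENNReal.lintegral_mul_le_Lp_mul_Lq (volume.restrict (ball (0 : Eu n) R)) hpq
    mf.aemeasurable mg.aemeasurable
  have step3 : ∫⁻ y in ball (0 : Eu n) R, ℓ (z + y) ^ (n:ℝ) ≤ ENNReal.ofReal (Q ^ n) * vb n := by
    refine le_trans (setLIntegral_le_lintegral _ _) ?_
    have h1 : ∫⁻ y : Eu n, ℓ (z + y) ^ (n:ℝ) = ∫⁻ y : Eu n, ℓ y ^ (n:ℝ) :=
      lintegral_add_left_eq_self (fun y => ℓ y ^ (n:ℝ)) z
    rw [h1]
    simpa only [ENNReal.rpow_natCast] using hE
  have step4 : ∫⁻ y in ball (0 : Eu n) R, (ENNReal.ofReal (((max s ‖y‖)⁻¹) ^ (n - 1))) ^ q ≤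
      ENNReal.ofReal (1 + n * L) * vb n := by
    refine le_trans (le_of_eq ?_) (lintegral_max (by omega) hs hsR)
    refine lintegral_congr fun y => ?_
    have hM : 0 < max s ‖y‖ := lt_max_of_lt_left hs
    rw [ENNReal.ofReal_rpow_of_nonneg (by positivity) hq0.le]
    congr 1
    rw [← Real.rpow_natCast, ← Real.rpow_mul (by positivity), ← Real.rpow_natCast]
    congr 1
    rw [hq, Nat.cast_sub (by omega), Nat.cast_one]
    have : (n:ℝ) - 1 ≠ 0 := by linarith
    field_simp
  have hvb0 := (vb_pos n).ne'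
  have hvb1 := (vb_lt_top n).ne
  have hsum : 1 / (n:ℝ) + 1 / q = 1 := by
    rw [hq1]; field_simp; ring
  calc ∫⁻ y in ball (0 : Eu n) R, ℓ (z + y) * ENNReal.ofReal (‖y‖ * (((max s ‖y‖)⁻¹) ^ n / n))
      ≤ ENNReal.ofReal (1 / n) * ∫⁻ y in ball (0 : Eu n) R, ℓ (z + y) *
        ENNReal.ofReal (((max s ‖y‖)⁻¹) ^ (n - 1)) := step1
    _ ≤ ENNReal.ofReal (1 / n) * ((∫⁻ y in ball (0 : Eu n) R, ℓ (z + y) ^ (n:ℝ)) ^ (1 / (n:ℝ)) *
          (∫⁻ y in ball (0 : Eu n) R, (ENNReal.ofReal (((max s ‖y‖)⁻¹) ^ (n - 1))) ^ q) ^ (1 / q)) := by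
        gcongr
        exact step2
    _ ≤ ENNReal.ofReal (1 / n) * ((ENNReal.ofReal (Q ^ n) * vb n) ^ (1 / (n:ℝ)) *
          (ENNReal.ofReal (1 + n * L) * vb n) ^ (1 / q)) := by
        gcongr
    _ = ENNReal.ofReal (1 / n) * ((ENNReal.ofReal Q * vb n ^ (1 / (n:ℝ))) *
          (ENNReal.ofReal ((1 + n * L) ^ (1 / q)) * vb n ^ (1 / q))) := by
        rw [ENNReal.mul_rpow_of_nonneg _ _ (by positivity), ENNReal.mul_rpow_of_nonneg _ _ (by positivity),
          ENNReal.ofReal_rpow_of_nonneg (by positivity) (by positivity),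
          ENNReal.ofReal_rpow_of_nonneg (by positivity) (by positivity), one_div (n:ℝ),
          Real.pow_rpow_inv_natCast hQ (by omega)]
    _ = ENNReal.ofReal (1 / n * (Q * (1 + n * L) ^ (1 / q))) * vb n := by
        rw [ENNReal.ofReal_mul (by positivity), ENNReal.ofReal_mul hQ]
        have h5 : vb n ^ (1 / (n:ℝ)) * vb n ^ (1 / q) = vb n := by
          rw [← ENNReal.rpow_add _ _ hvb0 hvb1, hsum, ENNReal.rpow_one]
        calc ENNReal.ofReal (1 / n) * ((ENNReal.ofReal Q * vb n ^ (1 / (n:ℝ))) *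
          (ENNReal.ofReal ((1 + n * L) ^ (1 / q)) * vb n ^ (1 / q)))
            = ENNReal.ofReal (1 / n) * (ENNReal.ofReal Q * ENNReal.ofReal ((1 + n * L) ^ (1 / q))) *
              (vb n ^ (1 / (n:ℝ)) * vb n ^ (1 / q)) := by ring
          _ = _ := by rw [h5]
    _ ≤ ENNReal.ofReal (Q * (1 + L) ^ (((n : ℝ) - 1) / n)) * vb n := by
        refine mul_le_mul' (ENNReal.ofReal_le_ofReal ?_) le_rfl
        rw [hq1]
        have he0 : 0 ≤ ((n : ℝ) - 1) / n := div_nonneg (by linarith) hn0.le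
        have he1 : ((n : ℝ) - 1) / n ≤ 1 := by
          rw [div_le_one hn0]; linarith
        have h6 : (1 + n * L) ^ (((n : ℝ) - 1) / n) ≤ n * (1 + L) ^ (((n : ℝ) - 1) / n) := by
          calc (1 + n * L) ^ (((n : ℝ) - 1) / n) ≤ (n * (1 + L)) ^ (((n : ℝ) - 1) / n) := by
                refine Real.rpow_le_rpow (by positivity) ?_ he0
                linarith
            _ = (n:ℝ) ^ (((n : ℝ) - 1) / n) * (1 + L) ^ (((n : ℝ) - 1) / n) :=
                Real.mul_rpow hn0.le (by linarith)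
            _ ≤ n * (1 + L) ^ (((n : ℝ) - 1) / n) := by
                refine mul_le_mul_of_nonneg_right ?_ (by positivity)
                calc (n:ℝ) ^ (((n : ℝ) - 1) / n) ≤ (n:ℝ) ^ (1:ℝ) :=
                      Real.rpow_le_rpow_of_exponent_le hn1.le he1
                  _ = n := Real.rpow_one _
        calc 1 / (n:ℝ) * (Q * (1 + n * L) ^ (((n : ℝ) - 1) / n))
            ≤ 1 / (n:ℝ) * (Q * (n * (1 + L) ^ (((n : ℝ) - 1) / n))) := by gcongr
          _ = Q * (1 + L) ^ (((n : ℝ) - 1) / n) := by field_simp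

theorem radial_transport {n : ℕ} (hn : 2 ≤ n) {w : Eu n → ℝ} (hw : Continuous w) {ℓ : Eu n → ℝ≥0∞}
    (hℓ : Measurable ℓ) (hug : UG w ℓ) {Q : ℝ} (hQ : 0 ≤ Q)
    (hE : ∫⁻ x, ℓ x ^ n ≤ ENNReal.ofReal (Q ^ n) * vb n) {s R : ℝ} (hs : 0 < s) (hsR : s ≤ R) :
    ∀ᵐ z : Eu n, ∫⁻ x in ball (0 : Eu n) 1, ENNReal.ofReal |w (z + R • x) - w (z + s • x)| ≤
      ENNReal.ofReal (Q * (1 + Real.log (R / s)) ^ (((n : ℝ) - 1) / n)) * vb n := by
  rcases hsR.eq_or_lt with rfl | hlt
  · refine Eventually.of_forall fun z => ?_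
    simp
  · have h1 : ∀ᵐ x : Eu n, ∀ᵐ z : Eu n, ENNReal.ofReal |w (z + R • x) - w (z + s • x)| ≤
        (∫⁻ t in Icc (0:ℝ) 1, ℓ (z + (s + t * (R - s)) • x)) * ENNReal.ofReal ((R - s) * ‖x‖) := by
      refine Eventually.of_forall fun x => ?_
      have h2 := (quasiMeasurePreserving_add_right (volume : Measure (Eu n)) (s • x)).ae
        (hug ((R - s) • x))
      filter_upwards [h2] with z hz
      have e1 : z + s • x + (R - s) • x = z + R • x := by module
      have e2 : ∀ t : ℝ, z + s • x + t • (R - s) • x = z + (s + t * (R - s)) • x := fun t => by module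
      simp only [e1, e2, norm_smul, Real.norm_of_nonneg (by linarith : (0:ℝ) ≤ R - s)] at hz
      exact hz
    have hmeas : MeasurableSet {p : Eu n × Eu n | ENNReal.ofReal |w (p.2 + R • p.1) - w (p.2 + s • p.1)| ≤
        (∫⁻ t in Icc (0:ℝ) 1, ℓ (p.2 + (s + t * (R - s)) • p.1)) * ENNReal.ofReal ((R - s) * ‖p.1‖)} := by
      refine measurableSet_le ?_ ?_
      · refine Measurable.ennreal_ofReal ?_
        exact (by fun_prop : Continuous (fun p : Eu n × Eu n =>
          |w (p.2 + R • p.1) - w (p.2 + s • p.1)|)).measurable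
      · refine Measurable.mul ?_ (by fun_prop)
        have h3 : Measurable (fun r : (Eu n × Eu n) × ℝ => ℓ (r.1.2 + (s + r.2 * (R - s)) • r.1.1)) :=
          hℓ.comp (by fun_prop)
        exact h3.lintegral_prod_right'
    have h4 := (Measure.ae_ae_comm (p := fun x z : Eu n =>
      ENNReal.ofReal |w (z + R • x) - w (z + s • x)| ≤
        (∫⁻ t in Icc (0:ℝ) 1, ℓ (z + (s + t * (R - s)) • x)) * ENNReal.ofReal ((R - s) * ‖x‖)) hmeas).1 h1
    filter_upwards [h4] with z hz
    calc ∫⁻ x in ball (0 : Eu n) 1, ENNReal.ofReal |w (z + R • x) - w (z + s • x)|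
        ≤ ∫⁻ x in ball (0 : Eu n) 1, (∫⁻ t in Icc (0:ℝ) 1, ℓ (z + (s + t * (R - s)) • x)) *
          ENNReal.ofReal ((R - s) * ‖x‖) := lintegral_mono_ae (ae_restrict_of_ae hz)
      _ ≤ _ := rt_A_radial (by omega) hℓ hs hlt z
      _ ≤ _ := rt_B_radial hn hℓ hQ hE hs hsR z

end

end Pool.Agent.Helper746.Qc
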