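import Mathlib
import Pool.Agent.Helper746.QcDefs
import Pool.Agent.Helper746.QcVol
import Pool.Agent.Helper746.QcClog
import Pool.Agent.Helper746.QcTransport
import Pool.Agent.Helper746.QcAlgebra
import Pool.Agent.Helper746.QcRingug

set_option autoImplicit false

namespace Pool.Agent.Helper746.Qc

open Set Metric MeasureTheory Filter Topology
open scoped ENNReal NNReal

noncomputable section

theorem ring_ineq {n : ℕ} (hn : 2 ≤ n) {H K : ℝ} (hH : 1 ≤ H) (hK : 1 ≤ K) {f : Eu n → Eu n} (hf : QC H K f)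
    (p : Eu n) {a b : ℝ} (ha : 0 < a) (hab : a < b)
    {x₁ x₂ : Eu n} {d₁ d₂ R c : ℝ} (hd₁ : 0 < d₁) (hd₂ : 0 < d₂) (hd₁R : d₁ ≤ R) (hd₂R : d₂ ≤ R)
    (hx : dist x₁ x₂ ≤ R) (hc : 0 < c) (hc1 : c ≤ 1)
    {V₁ V₂ : Set (Eu n)} (hV₁ : MeasurableSet V₁) (hV₂ : MeasurableSet V₂)
    (hV₁s : V₁ ⊆ closedBall x₁ (2 * d₁)) (hV₂s : V₂ ⊆ closedBall x₂ (2 * d₂))
    (hV₁v : ENNReal.ofReal ((c * d₁) ^ n) * vb n ≤ volume V₁)
    (hV₂v : ENNReal.ofReal ((c * d₂) ^ n) * vb n ≤ volume V₂)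
    (hf₁ : ∀ x ∈ V₁, dist (f x) p ≤ a) (hf₂ : ∀ x ∈ V₂, b ≤ dist (f x) p) :
    Real.log (b / a) ≤ 2 * (2 * K * (24 / c + 6)) ^ 2 +
      32 * K ^ 2 * (1 + Real.log (R / d₁) + Real.log (R / d₂)) := by
  obtain ⟨ℓ, hℓ, hug, hE⟩ := ring_ug hn hH hK hf p ha hab
  have hT : 0 < Real.log (b / a) := Real.log_pos ((one_lt_div ha).2 hab)
  set T : ℝ := Real.log (b / a) with hTdef
  have hn0 : n ≠ 0 := by omega
  have hnT : 0 ≤ (n : ℝ) * T := mul_nonneg (Nat.cast_nonneg n) hT.le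
  have hQ : 0 ≤ K * ((n : ℝ) * T) ^ ((1 : ℝ) / n) :=
    mul_nonneg (by linarith) (Real.rpow_nonneg hnT _)
  have hQn : (K * ((n : ℝ) * T) ^ ((1 : ℝ) / n)) ^ n = K ^ n * (n * T) := by
    rw [mul_pow, one_div, Real.rpow_inv_natCast_pow hnT hn0]
  have hw : Continuous fun x => cl a b (dist (f x) p) :=
    (cl_continuous ha hab).comp_continuous (hf.cont.dist continuous_const) fun x => dist_nonneg
  have htr := transport hn hw hℓ hug hQ (by rw [hQn]; exact hE) hT.le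
    (fun x => ⟨cl_nonneg a b _, cl_le ha hab _⟩) hd₁ hd₂ hd₁R hd₂R hx hc hc1 hV₁ hV₂ hV₁s hV₂s
    hV₁v hV₂v (fun x hx => cl_of_le ha hab dist_nonneg (hf₁ x hx))
    (fun x hx => cl_of_ge ha hab (hf₂ x hx))
  have hY₁ : 0 ≤ Real.log (R / d₁) := Real.log_nonneg ((one_le_div hd₁).2 hd₁R)
  have hY₂ : 0 ≤ Real.log (R / d₂) := Real.log_nonneg ((one_le_div hd₂).2 hd₂R)
  exact ring_algebra hn hK hc hc1 hT hY₁ hY₂ htr

end

end Pool.Agent.Helper746.Qc
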