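import Mathlib
import Pool.Agent.Helper746.QcDefs
import Pool.Agent.Helper746.QcMmspec
import Pool.Agent.Helper746.QcVol
import Pool.Agent.Helper746.QcRingineq

set_option autoImplicit false

namespace Pool.Agent.Helper746.Qc

open Set Metric MeasureTheory Filter Topology
open scoped ENNReal NNReal

noncomputable section

theorem nic_a_bound_term {n : ℕ} (hn1 : 1 ≤ n) {H K : ℝ} (hH : 1 ≤ H) {f : Eu n → Eu n}
    (hf : QC H K f) (y : Eu n) {δ₀ : ℝ}
    (hδ : ∀ ξ ξ' : Eu n, dist ξ y = dist ξ' y → 0 < dist ξ y → dist ξ y < δ₀ →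
      dist (f ξ) (f y) ≤ H * dist (f ξ') (f y)) {s M : ℝ} (hs : s < δ₀)
    (hM : mm f y s ≤ M) (hM0 : 0 ≤ M) (x' : Eu n) (hx' : dist x' y < s) :
    dist (f x') (f y) ≤ H * M := by
  by_cases h0 : dist x' y = 0
  · have : x' = y := dist_eq_zero.1 h0
    rw [this, dist_self]
    positivity
  · have hpos : 0 < dist x' y := lt_of_le_of_ne dist_nonneg (Ne.symm h0)
    obtain ⟨ξ', h1, h2, _⟩ := mm_spec hn1 hf.cont y (d := dist x' y) hpos.le
    have h3 := hδ x' ξ' h1.symm hpos (by linarith)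
    rw [h2] at h3
    have h4 := mm_mono hn1 hf.cont hf.inj hf.opn y hpos hx'.le
    exact h3.trans (mul_le_mul_of_nonneg_left (h4.trans hM) (by linarith))

/-- Termination: an infinite chain is impossible. -/
theorem no_infinite_chain {n : ℕ} (hn : 2 ≤ n) {H K : ℝ} (hH : 1 ≤ H) (hK : 1 ≤ K) {f : Eu n → Eu n}
    (hf : QC H K f) {η : ℝ} (hη : 0 < η) (hηK : 64 * K ^ 2 * Real.log 8 < Real.log (1 / η))
    (x ξ : ℕ → Eu n) (d r : ℕ → ℝ) (hd0 : 0 < d 0)
    (hd : ∀ j, d (j + 1) = d j / 8) (hr : ∀ j, r (j + 1) < η * r j) (hrpos : ∀ j, 0 < r j)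
    (hξ : ∀ j, dist (ξ j) (x j) = d j) (hfξ : ∀ j, dist (f (ξ j)) (f (x j)) = r j)
    (hx : ∀ j, x (j + 1) = x j ∨ x (j + 1) = ξ j) : False := by
  have hn1 : 1 ≤ n := by omega
  have hlog8 : 0 < Real.log 8 := Real.log_pos (by norm_num)
  have hK2 : 1 ≤ K ^ 2 := one_le_pow₀ hK
  have hη8 : η < 1 / 8 := by
    by_contra hcon
    rw [not_lt] at hcon
    have h1 : 1 / η ≤ 8 := by
      rw [div_le_iff₀ hη]; linarith
    have h2 : Real.log (1 / η) ≤ Real.log 8 := Real.log_le_log (by positivity) h1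
    nlinarith
  have hdj : ∀ j, d j = d 0 * (1 / 8) ^ j := by
    intro j
    induction j with
    | zero => simp
    | succ j ih => rw [hd, ih, pow_succ]; ring
  have hrj : ∀ j, r j ≤ r 0 * η ^ j := by
    intro j
    induction j with
    | zero => simp
    | succ j ih =>
      have h1 := (hr j).le
      have h2 : η * r j ≤ η * (r 0 * η ^ j) := mul_le_mul_of_nonneg_left ih hη.le
      calc r (j + 1) ≤ η * (r 0 * η ^ j) := h1.trans h2
        _ = r 0 * η ^ (j + 1) := by rw [pow_succ]; ring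
  have hdpos : ∀ j, 0 < d j := by
    intro j
    rw [hdj]
    positivity
  have hx1 : ∀ j, dist (x j) (x (j + 1)) ≤ d 0 * (1 / 8) ^ j := by
    intro j
    rw [← hdj]
    rcases hx j with h | h
    · rw [h, dist_self]; exact (hdpos j).le
    · rw [h, dist_comm, hξ]
  have hf1 : ∀ j, dist (f (x j)) (f (x (j + 1))) ≤ r 0 * η ^ j := by
    intro j
    rcases hx j with h | h
    · rw [h, dist_self]; have := hrpos 0; positivity
    · rw [h, dist_comm, hfξ]; exact hrj j
  obtain ⟨y, hy⟩ := cauchySeq_tendsto_of_complete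
    (cauchySeq_of_le_geometric (1 / 8) (d 0) (by norm_num) hx1)
  have hfy : Tendsto (fun j => f (x j)) atTop (𝓝 (f y)) := (hf.cont.tendsto y).comp hy
  have hr0 : 0 < r 0 := hrpos 0
  have hfx : ∀ j, dist (f (x j)) (f y) ≤ 2 * (r 0 * η ^ j) := by
    intro j
    have h1 := dist_le_of_le_geometric_of_tendsto η (r 0) (by linarith) hf1 hfy j
    refine h1.trans ?_
    rw [div_le_iff₀ (by linarith)]
    have h2 : 0 < r 0 * η ^ j := by positivity
    nlinarith
  have hmm : ∀ j, mm f y (d j / 2) ≤ 3 * (r 0 * η ^ j) := by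
    intro j
    have h2 : 0 < r 0 * η ^ j := by positivity
    have htri : d j ≤ dist (ξ j) y + dist (x j) y := by
      rw [← hξ j]
      exact dist_triangle_right _ _ _
    by_cases hc : d j / 2 ≤ dist (x j) y
    · have h3 := mm_le_of_le hn1 hf.cont hf.inj hf.opn y (x j) (half_pos (hdpos j)) hc
      linarith [hfx j]
    · rw [not_le] at hc
      have h3 := mm_le_of_le hn1 hf.cont hf.inj hf.opn y (ξ j) (half_pos (hdpos j))
        (by linarith)
      have h4 := dist_triangle (f (ξ j)) (f (x j)) (f y)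
      rw [hfξ] at h4
      linarith [hfx j, hrj j]
  obtain ⟨δ₀, hδ₀, hδ⟩ := hf.rnd y
  set b := mm f y 1 with hb
  have hbpos : 0 < b := mm_pos hn1 hf.cont hf.inj y one_pos
  -- unit vector
  obtain ⟨e, he⟩ : ∃ e : Eu n, ‖e‖ = 1 :=
    ⟨EuclideanSpace.single ⟨0, by omega⟩ (1 : ℝ), by simp⟩
  set x₂ : Eu n := y + (2 : ℝ) • e with hx₂
  have hdx₂ : dist y x₂ = 2 := by
    rw [hx₂, dist_self_add_right, norm_smul, he]
    simp
  set A : ℝ := Real.log (1 / η) - 32 * K ^ 2 * Real.log 8 with hA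
  have hApos : 0 < A := by
    rw [hA]
    nlinarith
  set C₁ : ℝ := 2 * (2 * K * (24 / (1 / 4) + 6)) ^ 2 +
      32 * K ^ 2 * (1 + Real.log (4 / d 0) + Real.log (2 / (1 / 2))) -
      (Real.log b - Real.log (3 * H * r 0)) with hC₁
  -- choose a large index
  have hHpos : 0 < H := by linarith
  have hη1 : η < 1 := by linarith
  have t1 : Tendsto (fun j : ℕ => d 0 * (1 / 8 : ℝ) ^ j) atTop (𝓝 0) := by
    have := (tendsto_pow_atTop_nhds_zero_of_lt_one (r := (1 / 8 : ℝ)) (by norm_num)
      (by norm_num)).const_mul (d 0)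
    rwa [mul_zero] at this
  have t2 : Tendsto (fun j : ℕ => H * (3 * (r 0 * η ^ j))) atTop (𝓝 0) := by
    have := ((tendsto_pow_atTop_nhds_zero_of_lt_one hη.le hη1).const_mul (H * (3 * r 0)))
    rw [mul_zero] at this
    refine this.congr (fun j => ?_)
    ring
  have t3 : Tendsto (fun j : ℕ => (j : ℝ) * A) atTop atTop :=
    tendsto_natCast_atTop_atTop.atTop_mul_const hApos
  have ev := ((t1.eventually (gt_mem_nhds (show (0:ℝ) < 2 * δ₀ by positivity))).and
    (t1.eventually (gt_mem_nhds (show (0:ℝ) < 4 by norm_num)))).and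
    ((t2.eventually (gt_mem_nhds hbpos)).and (t3.eventually (eventually_gt_atTop C₁)))
  obtain ⟨j, ⟨hj1, hj2⟩, hj3, hj4⟩ := ev.exists
  have hηj : 0 < η ^ j := by positivity
  have haj : 0 < H * (3 * (r 0 * η ^ j)) := by positivity
  have h8 : (0 : ℝ) < (1 / 8) ^ j := by positivity
  have key := ring_ineq hn hH hK hf (f y) (a := H * (3 * (r 0 * η ^ j))) (b := b) haj hj3
    (x₁ := y) (x₂ := x₂) (d₁ := d j / 2) (d₂ := 1 / 2) (R := 2) (c := 1 / 4)
    (half_pos (hdpos j)) (by norm_num) (by rw [hdj]; linarith) (by norm_num) (by rw [hdx₂])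
    (by norm_num) (by norm_num) (V₁ := ball y (d j / 2)) (V₂ := ball x₂ (1 / 2))
    measurableSet_ball measurableSet_ball
    (ball_subset_closedBall.trans (closedBall_subset_closedBall (by linarith [hdpos j])))
    (ball_subset_closedBall.trans (closedBall_subset_closedBall (by norm_num)))
    (by
      rw [volume_ball_eq y (half_pos (hdpos j)).le hn1]
      refine mul_le_mul_left (ENNReal.ofReal_le_ofReal ?_) _
      exact pow_le_pow_left₀ (by have := hdpos j; positivity) (by linarith [hdpos j]) _)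
    (by
      rw [volume_ball_eq x₂ (by norm_num) hn1]
      refine mul_le_mul_left (ENNReal.ofReal_le_ofReal ?_) _
      exact pow_le_pow_left₀ (by norm_num) (by norm_num) _)
    (fun x' hx' => nic_a_bound_term hn1 hH hf y hδ (s := d j / 2) (by rw [hdj]; linarith) (hmm j)
      (by positivity) x' (mem_ball.1 hx'))
    (fun x' hx' => mm_le_of_le hn1 hf.cont hf.inj hf.opn y x' one_pos (by
      have h1 := mem_ball.1 hx'
      have h2 := dist_triangle_left y x₂ x'
      rw [hdx₂] at h2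
      linarith))
  have l1 : Real.log (b / (H * (3 * (r 0 * η ^ j)))) =
      Real.log b - Real.log (3 * H * r 0) + j * Real.log (1 / η) := by
    rw [Real.log_div hbpos.ne' haj.ne', show H * (3 * (r 0 * η ^ j)) = (3 * H * r 0) * η ^ j by ring,
      Real.log_mul (by positivity) hηj.ne', Real.log_pow, one_div, Real.log_inv]
    ring
  have l2 : Real.log (2 / (d j / 2)) = Real.log (4 / d 0) + j * Real.log 8 := by
    rw [hdj, show 2 / (d 0 * (1 / 8) ^ j / 2) = (4 / d 0) * 8 ^ j by
      have h88 : ((1 : ℝ) / 8) ^ j * 8 ^ j = 1 := by rw [← mul_pow]; norm_num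
      field_simp
      linear_combination (-4) * h88]
    rw [Real.log_mul (by positivity) (by positivity), Real.log_pow]
  rw [l1, l2] at key
  have : (j : ℝ) * A ≤ C₁ := by
    rw [hA, hC₁]
    nlinarith
  linarith

end

end Pool.Agent.Helper746.Qc
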