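import Mathlib
import Pool.Agent.Helper746.QcDefs
import Pool.Agent.Helper746.QcMmspec
import Pool.Agent.Helper746.QcFat
import Pool.Agent.Helper746.QcTerm

set_option autoImplicit false

namespace Pool.Agent.Helper746.Qc

open Set Metric MeasureTheory Filter Topology
open scoped ENNReal NNReal

noncomputable section

/-- starting from `(x₀,d₀)` one finds a fat piece at some scale `8^{-J} d₀`. -/
theorem chain {n : ℕ} (hn : 2 ≤ n) {H K : ℝ} (hH : 1 ≤ H) (hK : 1 ≤ K) {f : Eu n → Eu n}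
    (hf : QC H K f) {η : ℝ} (hη : 0 < η) (hη8 : η ≤ 1 / 8)
    (hηK : 64 * K ^ 2 * Real.log 8 < Real.log (1 / η)) (x₀ : Eu n) {d₀ : ℝ} (hd₀ : 0 < d₀) :
    ∃ (J : ℕ) (x : Eu n) (r : ℝ) (V : Set (Eu n)),
      dist x x₀ ≤ 8 / 7 * d₀ ∧ dist (f x) (f x₀) ≤ 8 / 7 * mm f x₀ d₀ ∧
      0 < r ∧ r ≤ η ^ J * mm f x₀ d₀ ∧ MeasurableSet V ∧
      V ⊆ closedBall x (2 * (d₀ / 8 ^ J)) ∧ (∀ x' ∈ V, dist (f x') (f x) ≤ 2 * r) ∧
      ENNReal.ofReal ((3 * η / (8 * K) * (d₀ / 8 ^ J)) ^ n) * vb n ≤ volume V := by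
  classical
  have hn1 : 1 ≤ n := le_trans (by norm_num) hn
  obtain ⟨d, hd_def⟩ : ∃ d : ℕ → ℝ, ∀ j, d j = d₀ / 8 ^ j := ⟨fun j => d₀ / 8 ^ j, fun j => rfl⟩
  have hdpos : ∀ j, 0 < d j := by
    intro j
    rw [hd_def]
    positivity
  have hdsucc : ∀ j, d (j + 1) = d j / 8 := by
    intro j
    rw [hd_def, hd_def, pow_succ, div_div]
  have hsp : ∀ (x : Eu n) (j : ℕ), ∃ ξ : Eu n, dist ξ x = d j ∧ dist (f ξ) (f x) = mm f x (d j) ∧
      ∀ ζ : Eu n, dist ζ x = d j → mm f x (d j) ≤ dist (f ζ) (f x) := fun x j =>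
    mm_spec hn1 hf.cont x (hdpos j).le
  choose ξ hξ1 hξ2 hξ3 using hsp
  obtain ⟨step, hstep⟩ : ∃ step : ℕ → Eu n → Eu n, ∀ j x,
      step j x = if mm f x (d (j + 1)) < η * mm f x (d j) then x else ξ x j :=
    ⟨fun j x => if mm f x (d (j + 1)) < η * mm f x (d j) then x else ξ x j, fun j x => rfl⟩
  have hstep_or : ∀ j x, step j x = x ∨ step j x = ξ x j := by
    intro j x
    rw [hstep]
    split_ifs
    · exact Or.inl rfl
    · exact Or.inr rfl
  obtain ⟨X, hX0, hXs⟩ : ∃ X : ℕ → Eu n, X 0 = x₀ ∧ ∀ j, X (j + 1) = step j (X j) :=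
    ⟨fun j => Nat.rec x₀ (fun j x => step j x) j, rfl, fun j => rfl⟩
  obtain ⟨G, hG⟩ : ∃ G : ℕ → Prop, ∀ j, G j ↔ (η * mm f (X j) (d j) ≤ mm f (X j) (d (j + 1)) ∧
      η * mm f (X j) (d j) ≤ mm f (ξ (X j) j) (d (j + 1))) := ⟨_, fun j => Iff.rfl⟩
  have hnG : ∀ j, ¬ G j → mm f (X (j + 1)) (d (j + 1)) < η * mm f (X j) (d j) := by
    intro j hj
    rw [hG, not_and_or, not_le, not_le] at hj
    rw [hXs, hstep]
    split_ifs with h
    · exact h
    · rcases hj with hj | hj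
      · exact absurd hj h
      · exact hj
  have hmpos : ∀ j, 0 < mm f (X j) (d j) := fun j => mm_pos hn1 hf.cont hf.inj _ (hdpos j)
  have hex : ∃ j, G j := by
    by_contra hcon
    push Not at hcon
    refine no_infinite_chain hn hH hK hf hη hηK X (fun j => ξ (X j) j) d
      (fun j => mm f (X j) (d j)) (hdpos 0) hdsucc (fun j => hnG j (hcon j)) hmpos
      (fun j => hξ1 _ _) (fun j => hξ2 _ _) (fun j => ?_)
    rw [hXs]
    exact hstep_or j (X j)
  have hm0 : 0 < mm f x₀ d₀ := mm_pos hn1 hf.cont hf.inj _ hd₀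
  have hd0 : d 0 = d₀ := by rw [hd_def]; simp
  -- the induction
  have hind : ∀ i, i ≤ Nat.find hex → dist (X i) x₀ ≤ 8 / 7 * (d₀ - d₀ / 8 ^ i) ∧
      dist (f (X i)) (f x₀) ≤ 8 / 7 * (mm f x₀ d₀ - mm f x₀ d₀ / 8 ^ i) ∧
      mm f (X i) (d i) ≤ η ^ i * mm f x₀ d₀ := by
    intro i
    induction i with
    | zero =>
      intro _
      refine ⟨?_, ?_, ?_⟩
      · rw [hX0]; simp
      · rw [hX0]; simp
      · rw [hX0, hd0]; simp
    | succ i ih =>
      intro hi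
      obtain ⟨h1, h2, h3⟩ := ih (by omega)
      have hng : ¬ G i := Nat.find_min hex (by omega)
      have hlt := hnG i hng
      have hdist : dist (X (i + 1)) (X i) ≤ d₀ / 8 ^ i := by
        rw [hXs, ← hd_def]
        rcases hstep_or i (X i) with h | h
        · rw [h, dist_self]; exact (hdpos i).le
        · rw [h, hξ1]
      have hfdist : dist (f (X (i + 1))) (f (X i)) ≤ mm f (X i) (d i) := by
        rw [hXs]
        rcases hstep_or i (X i) with h | h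
        · rw [h, dist_self]; exact (hmpos i).le
        · rw [h, hξ2]
      have hη8i : η ^ i ≤ 1 / 8 ^ i := by
        have := pow_le_pow_left₀ hη.le hη8 i
        rwa [one_div_pow] at this
      have hfd2 : mm f (X i) (d i) ≤ mm f x₀ d₀ / 8 ^ i := by
        refine h3.trans ?_
        calc η ^ i * mm f x₀ d₀ ≤ 1 / 8 ^ i * mm f x₀ d₀ :=
              mul_le_mul_of_nonneg_right hη8i hm0.le
          _ = mm f x₀ d₀ / 8 ^ i := by ring
      refine ⟨?_, ?_, ?_⟩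
      · have ht := dist_triangle (X (i + 1)) (X i) x₀
        have he : d₀ / 8 ^ (i + 1) = (d₀ / 8 ^ i) / 8 := by rw [pow_succ, div_div]
        rw [he]
        linarith
      · have ht := dist_triangle (f (X (i + 1))) (f (X i)) (f x₀)
        have he : mm f x₀ d₀ / 8 ^ (i + 1) = (mm f x₀ d₀ / 8 ^ i) / 8 := by rw [pow_succ, div_div]
        rw [he]
        linarith
      · calc mm f (X (i + 1)) (d (i + 1)) ≤ η * mm f (X i) (d i) := hlt.le
          _ ≤ η * (η ^ i * mm f x₀ d₀) := mul_le_mul_of_nonneg_left h3 hη.le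
          _ = η ^ (i + 1) * mm f x₀ d₀ := by ring
  obtain ⟨J, hJ⟩ : ∃ J, J = Nat.find hex := ⟨_, rfl⟩
  have hGJ : G J := by rw [hJ]; exact Nat.find_spec hex
  obtain ⟨h1, h2, h3⟩ := hind J hJ.le
  rw [hG] at hGJ
  obtain ⟨hg1, hg2⟩ := hGJ
  obtain ⟨V, hV1, hV2, hV3, hV4⟩ := fat hn hH hK hf hη hη8 (x := X J) (ξ := ξ (X J) J) (d := d J)
    (r := mm f (X J) (d J)) (hdpos J) (hξ1 _ _) (hξ2 _ _) (hξ3 _ _)
    (by
      intro ζ hζ
      rw [← hdsucc] at hζ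
      exact hg1.trans (hξ3 _ _ ζ hζ))
    (by
      intro ζ hζ
      rw [← hdsucc] at hζ
      exact hg2.trans (hξ3 _ _ ζ hζ))
  rw [hd_def] at hV2 hV4
  refine ⟨J, X J, mm f (X J) (d J), V, ?_, ?_, hmpos J, h3, hV1, hV2, hV3, hV4⟩
  · have : 0 < d₀ / 8 ^ J := by positivity
    linarith
  · have : 0 < mm f x₀ d₀ / 8 ^ J := by positivity
    linarith

end

end Pool.Agent.Helper746.Qc
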