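import Mathlib
import Pool.Agent.Helper746.QcDefs
import Pool.Agent.Helper746.QcLDefs
import Pool.Agent.Helper746.QcNDefs
import Pool.Agent.Helper746.QcLmm

set_option autoImplicit false

namespace Pool.Agent.Helper746.Qc

open Set Metric MeasureTheory Filter Topology
open scoped ENNReal NNReal

noncomputable section

theorem rnd_sand_on {n : ℕ} (hn : 1 ≤ n) {H K : ℝ} {f : Eu n → Eu n} {G : Set (Eu n)}
    (hf : QCOn H K f G) {K' : ℝ} (hK' : 1 ≤ K') {x : Eu n} (hxG : x ∈ G) (hx : Rnd K' f x) :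
    ∃ δ₀ : ℝ, 0 < δ₀ ∧ closedBall x δ₀ ⊆ G ∧ ∀ x' : Eu n, x' ≠ x → dist x' x < δ₀ →
      ball (f x) (dist (f x') (f x) / K') ⊆ f '' ball x (dist x' x) ∧
      f '' closedBall x (dist x' x) ⊆ closedBall (f x) (K' * dist (f x') (f x)) := by
  obtain ⟨δ₁, hδ1, hR⟩ := hx
  obtain ⟨δ₂, hδ2, hG2⟩ := Metric.isOpen_iff.1 hf.isOpen x hxG
  have hK0 : 0 < K' := by linarith
  have hδ : 0 < min δ₁ (δ₂ / 2) := lt_min hδ1 (by linarith)
  have hGc : closedBall x (min δ₁ (δ₂ / 2)) ⊆ G := by
    refine (closedBall_subset_ball ?_).trans hG2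
    exact lt_of_le_of_lt (min_le_right _ _) (by linarith)
  refine ⟨min δ₁ (δ₂ / 2), hδ, hGc, fun x' hx' hd => ⟨?_, ?_⟩⟩
  · have ht : 0 < dist x' x := dist_pos.2 hx'
    have hG' : closedBall x (dist x' x) ⊆ G := (closedBall_subset_closedBall hd.le).trans hGc
    obtain ⟨ξ, h1, h2, h3⟩ := mm_spec_on hn x ht.le
      (hf.cont.mono (sphere_subset_closedBall.trans hG'))
    have h4 : dist (f x') (f x) ≤ K' * mm f x (dist x' x) := by
      rw [← h2]; exact hR x' ξ h1.symm ht (lt_of_lt_of_le hd (min_le_left _ _))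
    refine (ball_subset_ball ?_).trans (ball_mm_subset_on hn hf ht hG')
    rw [div_le_iff₀ hK0, mul_comm]
    exact h4
  · have ht : 0 < dist x' x := dist_pos.2 hx'
    have hG' : closedBall x (dist x' x) ⊆ G := (closedBall_subset_closedBall hd.le).trans hGc
    rintro _ ⟨y, hy, rfl⟩
    rw [mem_closedBall] at hy ⊢
    by_cases hyx : y = x
    · subst hyx
      rw [dist_self]
      positivity
    · have hs : 0 < dist y x := dist_pos.2 hyx
      have hG'' : closedBall x (dist y x) ⊆ G := (closedBall_subset_closedBall hy).trans hG'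
      obtain ⟨ξ, h1, h2, h3⟩ := mm_spec_on hn x hs.le
        (hf.cont.mono (sphere_subset_closedBall.trans hG''))
      obtain ⟨ζ, g1, g2, g3⟩ := mm_spec_on hn x ht.le
        (hf.cont.mono (sphere_subset_closedBall.trans hG'))
      have h4 : dist (f y) (f x) ≤ K' * mm f x (dist y x) := by
        rw [← h2]
        exact hR y ξ h1.symm hs (lt_of_le_of_lt hy (lt_of_lt_of_le hd (min_le_left _ _)))
      have h5 : mm f x (dist y x) ≤ mm f x (dist x' x) := mm_mono_on hn hf hs hy hG'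
      have h6 : mm f x (dist x' x) ≤ dist (f x') (f x) := g3 x' rfl
      exact h4.trans (mul_le_mul_of_nonneg_left (h5.trans h6) hK0.le)

end

end Pool.Agent.Helper746.Qc
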