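import Mathlib
import Pool.Agent.Helper746.QcDefs
import Pool.Agent.Helper746.QcLDefs
import Pool.Agent.Helper746.QcNDefs
import Pool.Agent.Helper746.QcVol
import Pool.Agent.Helper746.QcUg
import Pool.Agent.Helper746.QcClog

set_option autoImplicit false

namespace Pool.Agent.Helper746.Qc

open Set Metric MeasureTheory Filter Topology
open scoped ENNReal NNReal

noncomputable section

theorem choose_two_pair_pair {u s c : ℝ} (hu : 0 ≤ u) (hs : 0 ≤ s) (h : u * s < c) :
    ∃ c1 c2 : ℝ, u < c1 ∧ s < c2 ∧ c1 * c2 ≤ c := by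
  have hpos : 0 < u + s + 1 := by linarith
  have hd : 0 < (c - u * s) / (u + s + 1) := div_pos (by linarith) hpos
  set η := min 1 ((c - u * s) / (u + s + 1)) with hη
  have hη0 : 0 < η := lt_min one_pos hd
  have hη1 : η ≤ 1 := min_le_left _ _
  have hη2 : η * (u + s + 1) ≤ c - u * s := by
    have := min_le_right 1 ((c - u * s) / (u + s + 1))
    rw [← hη, le_div_iff₀ hpos] at this
    exact this
  refine ⟨u + η, s + η, by linarith, by linarith, ?_⟩
  have : (u + η) * (s + η) = u * s + η * (u + s + η) := by ring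
  rw [this]
  have h3 : η * (u + s + η) ≤ η * (u + s + 1) := by gcongr
  linarith

/-- Abstract upper gradient theorem for a homeomorphism `φ` of the open set `Ω` onto the open set `φ '' Ω`,
with inverse `ψ`; the measure `A ↦ volume (φ '' (A ∩ Ω))` is `map ψ (volume.restrict (φ '' Ω))`. -/
theorem pair_ug {n : ℕ} (hn : 2 ≤ n) {C H K : ℝ} (hC : 0 < C) (hH : 1 ≤ H) (hK : 1 ≤ K)
    {φ ψ : Eu n → Eu n} {Ω : Set (Eu n)} (hΩ : IsOpen Ω) (hφ : ContinuousOn φ Ω)
    (hψ : ∀ z ∈ Ω, ψ (φ z) = z) (ho : IsOpen (φ '' Ω)) (hψc : ContinuousOn ψ (φ '' Ω))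
    (hfin : volume (φ '' Ω) ≠ ⊤)
    (hG : ∀ z ∈ Ω, ∃ δ : ℝ, 0 < δ ∧ ∀ z' : Eu n, dist z' z < δ →
      ENNReal.ofReal (dist (φ z') (φ z) ^ n) ≤
        ENNReal.ofReal C * (Measure.map ψ (volume.restrict (φ '' Ω))) (closedBall z (H * dist z' z)))
    (hD : ∀ᵐ z : Eu n, z ∈ Ω → ∀ c : ℝ, 0 ≤ c →
      ENNReal.ofReal (K ^ n) * (Measure.map ψ (volume.restrict (φ '' Ω))).rnDeriv volume z
        < ENNReal.ofReal (c ^ n) →
      ∃ δ : ℝ, 0 < δ ∧ ∀ z' : Eu n, dist z' z < δ → dist (φ z') (φ z) ≤ c * dist z' z)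
    {u : Eu n → ℝ} {L : ℝ≥0} (hu : LipschitzWith L u) {σ : Eu n → ℝ≥0∞} (hσ : Measurable σ)
    (hb : LocBd u σ) :
    ∃ ℓ : Eu n → ℝ≥0∞, Measurable ℓ ∧ UGOn (fun z => u (φ z)) ℓ Ω ∧
      ∀ A : Set (Eu n), MeasurableSet A → A ⊆ Ω →
        ∫⁻ z in A, ℓ z ^ n ≤ ENNReal.ofReal (K ^ n) * ∫⁻ y in φ '' A, σ y ^ n := by
  classical
  have hn1 : 1 ≤ n := by omega
  have hn0 : n ≠ 0 := by omega
  have hnR : (n : ℝ) ≠ 0 := by exact_mod_cast hn0
  have hψm : AEMeasurable ψ (volume.restrict (φ '' Ω)) := hψc.aemeasurable ho.measurableSet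
  haveI : IsFiniteMeasure (volume.restrict (φ '' Ω) : Measure (Eu n)) :=
    ⟨by rw [Measure.restrict_apply_univ]; exact lt_top_iff_ne_top.mpr hfin⟩
  set ν : Measure (Eu n) := Measure.map ψ (volume.restrict (φ '' Ω)) with hν
  haveI : IsFiniteMeasure ν := by rw [hν]; infer_instance
  set D : Eu n → ℝ≥0∞ := ν.rnDeriv volume with hDdef
  have hDm : Measurable D := Measure.measurable_rnDeriv _ _
  have hDt : ∀ᵐ z : Eu n, D z < ⊤ := Measure.rnDeriv_lt_top ν volume
  set φ' : Eu n → Eu n := Ω.piecewise φ (fun _ => 0) with hφ'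
  have hφ'm : Measurable φ' := hφ.measurable_piecewise continuousOn_const hΩ.measurableSet
  have hφ'e : ∀ z ∈ Ω, φ' z = φ z := fun z hz => Set.piecewise_eq_of_mem _ _ _ hz
  set ℓ : Eu n → ℝ≥0∞ := Ω.indicator (fun z => σ (φ' z) * (ENNReal.ofReal K * D z ^ ((1 : ℝ) / n))) with hℓ
  have hℓm : Measurable ℓ :=
    ((hσ.comp hφ'm).mul (measurable_const.mul (hDm.pow_const _))).indicator hΩ.measurableSet
  have hℓe : ∀ z ∈ Ω, ℓ z = σ (φ z) * (ENNReal.ofReal K * D z ^ ((1 : ℝ) / n)) := by
    intro z hz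
    rw [hℓ, Set.indicator_of_mem hz, hφ'e z hz]
  refine ⟨ℓ, hℓm, ?_, ?_⟩
  · -- the upper gradient inequality
    intro v
    have hwc : ContinuousOn (fun z => u (φ z)) Ω := hu.continuous.comp_continuousOn hφ
    have hLn : (0 : ℝ) ≤ (L : ℝ) ^ n := by positivity
    have hCpos : 0 < (L : ℝ) ^ n * C + 1 := by positivity
    have hG' : ∀ z ∈ Ω, ∃ δ : ℝ, 0 < δ ∧ ∀ z' : Eu n, dist z' z < δ →
        ENNReal.ofReal (|u (φ z') - u (φ z)| ^ n) ≤
          ENNReal.ofReal ((L : ℝ) ^ n * C + 1) * ν (closedBall z (H * dist z' z)) := by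
      intro z hz
      obtain ⟨δ, hδ, hg⟩ := hG z hz
      refine ⟨δ, hδ, fun z' hz' => ?_⟩
      have h1 := hg z' hz'
      have h2 : |u (φ z') - u (φ z)| ≤ L * dist (φ z') (φ z) := by
        have := hu.dist_le_mul (φ z') (φ z)
        rwa [Real.dist_eq] at this
      have h3 : |u (φ z') - u (φ z)| ^ n ≤ (L : ℝ) ^ n * dist (φ z') (φ z) ^ n := by
        rw [← mul_pow]
        exact pow_le_pow_left₀ (abs_nonneg _) h2 _
      calc ENNReal.ofReal (|u (φ z') - u (φ z)| ^ n)
          ≤ ENNReal.ofReal ((L : ℝ) ^ n * dist (φ z') (φ z) ^ n) := ENNReal.ofReal_le_ofReal h3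
        _ = ENNReal.ofReal ((L : ℝ) ^ n) * ENNReal.ofReal (dist (φ z') (φ z) ^ n) :=
            ENNReal.ofReal_mul hLn
        _ ≤ ENNReal.ofReal ((L : ℝ) ^ n) * (ENNReal.ofReal C * ν (closedBall z (H * dist z' z))) := by
            gcongr
        _ = ENNReal.ofReal ((L : ℝ) ^ n * C) * ν (closedBall z (H * dist z' z)) := by
            rw [← mul_assoc, ← ENNReal.ofReal_mul hLn]
        _ ≤ ENNReal.ofReal ((L : ℝ) ^ n * C + 1) * ν (closedBall z (H * dist z' z)) := by
            gcongr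
            linarith
    have hL : ∀ᵐ z : Eu n, z ∈ Ω → ∀ c : ℝ, ℓ z < ENNReal.ofReal c →
        ∃ δ : ℝ, 0 < δ ∧ ∀ z' : Eu n, dist z' z < δ → |u (φ z') - u (φ z)| ≤ c * dist z' z := by
      filter_upwards [hD, hDt] with z hz hzD hzΩ c hcl
      have hz := hz hzΩ
      have hcpos : 0 < c := by
        by_contra hneg
        rw [ENNReal.ofReal_of_nonpos (not_lt.1 hneg)] at hcl
        exact not_lt_zero hcl
      set q : ℝ := (D z).toReal ^ ((1 : ℝ) / n) with hq
      have hq0 : 0 ≤ q := Real.rpow_nonneg ENNReal.toReal_nonneg _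
      have hDq : D z ^ ((1 : ℝ) / n) = ENNReal.ofReal q := by
        rw [hq, ← ENNReal.ofReal_rpow_of_nonneg ENNReal.toReal_nonneg (by positivity),
          ENNReal.ofReal_toReal hzD.ne]
      have hqn : q ^ n = (D z).toReal := by
        rw [hq, ← Real.rpow_natCast, ← Real.rpow_mul ENNReal.toReal_nonneg]
        have : (1 : ℝ) / n * n = 1 := by
          field_simp
        rw [this, Real.rpow_one]
      have hDn : D z = ENNReal.ofReal (q ^ n) := by
        rw [hqn, ENNReal.ofReal_toReal hzD.ne]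
      have hKq : 0 ≤ K * q := by positivity
      have hℓz : ℓ z = σ (φ z) * ENNReal.ofReal (K * q) := by
        rw [hℓe z hzΩ, hDq, ← ENNReal.ofReal_mul (by linarith)]
      have hlip : ∀ z', |u (φ z') - u (φ z)| ≤ L * dist (φ z') (φ z) := by
        intro z'
        have := hu.dist_le_mul (φ z') (φ z)
        rwa [Real.dist_eq] at this
      have hDle : ∀ c2 : ℝ, K * q < c2 →
          ENNReal.ofReal (K ^ n) * D z < ENNReal.ofReal (c2 ^ n) := by
        intro c2 hc2
        have e1 : ENNReal.ofReal (K ^ n) * D z = ENNReal.ofReal ((K * q) ^ n) := by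
          rw [hDn, ← ENNReal.ofReal_mul (by positivity), mul_pow]
        have e2 : (K * q) ^ n < c2 ^ n := pow_lt_pow_left₀ hc2 hKq hn0
        rw [e1, ENNReal.ofReal_lt_ofReal_iff (lt_of_le_of_lt (by positivity) e2)]
        exact e2
      by_cases hs : σ (φ z) = ⊤
      · -- then `K q = 0`
        have hKq0 : K * q = 0 := by
          by_contra hne
          have : ENNReal.ofReal (K * q) ≠ 0 := by
            rw [Ne, ENNReal.ofReal_eq_zero, not_le]
            exact lt_of_le_of_ne hKq (Ne.symm hne)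
          rw [hℓz, hs, ENNReal.top_mul this] at hcl
          exact not_top_lt hcl
        set c2 : ℝ := c / (L + 1) with hc2
        have hc2pos : 0 < c2 := by positivity
        obtain ⟨δ2, hδ2, h2⟩ := hz c2 hc2pos.le (hDle c2 (by rw [hKq0]; exact hc2pos))
        refine ⟨δ2, hδ2, fun z' hz' => ?_⟩
        have e6 := h2 z' hz'
        have hL0 : (0:ℝ) ≤ L := L.2
        calc |u (φ z') - u (φ z)| ≤ L * dist (φ z') (φ z) := hlip z'
          _ ≤ L * (c2 * dist z' z) := mul_le_mul_of_nonneg_left e6 hL0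
          _ = (L * c2) * dist z' z := by ring
          _ ≤ c * dist z' z := by
              refine mul_le_mul_of_nonneg_right ?_ dist_nonneg
              rw [hc2, mul_div_assoc', div_le_iff₀ (by positivity)]
              nlinarith
      · set t : ℝ := (σ (φ z)).toReal with ht
        have ht0 : 0 ≤ t := ENNReal.toReal_nonneg
        have hst : σ (φ z) = ENNReal.ofReal t := (ENNReal.ofReal_toReal hs).symm
        rw [hℓz, hst, ← ENNReal.ofReal_mul ht0, ENNReal.ofReal_lt_ofReal_iff hcpos] at hcl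
        obtain ⟨c1, c2, hc1, hc2, hc12⟩ := choose_two_pair_pair ht0 hKq hcl
        have hc20 : 0 ≤ c2 := by linarith
        have hc10 : 0 < c1 := by linarith
        obtain ⟨δ1, hδ1, h1⟩ := hb (φ z) c1 (by
          rw [hst, ENNReal.ofReal_lt_ofReal_iff hc10]; exact hc1)
        obtain ⟨δ2, hδ2, h2⟩ := hz c2 hc20 (hDle c2 hc2)
        have hcont : ContinuousAt φ z := hφ.continuousAt (hΩ.mem_nhds hzΩ)
        obtain ⟨δ3, hδ3, h3⟩ := Metric.continuousAt_iff.1 hcont δ1 hδ1
        refine ⟨min δ2 δ3, lt_min hδ2 hδ3, fun z' hz' => ?_⟩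
        have hz2 : dist z' z < δ2 := lt_of_lt_of_le hz' (min_le_left _ _)
        have hz3 : dist z' z < δ3 := lt_of_lt_of_le hz' (min_le_right _ _)
        have e5 := h1 (φ z') (h3 hz3)
        have e6 := h2 z' hz2
        calc |u (φ z') - u (φ z)| ≤ c1 * dist (φ z') (φ z) := e5
          _ ≤ c1 * (c2 * dist z' z) := mul_le_mul_of_nonneg_left e6 hc10.le
          _ = c1 * c2 * dist z' z := by ring
          _ ≤ c * dist z' z := mul_le_mul_of_nonneg_right hc12 dist_nonneg
    exact upper_gradient hn ν Ω hΩ (fun z => u (φ z)) hwc ((L : ℝ) ^ n * C + 1) H hCpos hH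
      hG' ℓ hℓm hL v
  · -- the energy
    intro A hA hAΩ
    have h1 : ∀ z ∈ A, ℓ z ^ n = ENNReal.ofReal (K ^ n) * (σ (φ' z) ^ n * D z) := by
      intro z hz
      have e1 : (D z ^ ((1 : ℝ) / n)) ^ n = D z := by
        rw [← ENNReal.rpow_natCast, ← ENNReal.rpow_mul]
        have : (1 : ℝ) / n * n = 1 := by
          field_simp
        rw [this, ENNReal.rpow_one]
      rw [hℓe z (hAΩ hz), hφ'e z (hAΩ hz), mul_pow, mul_pow, e1, ENNReal.ofReal_pow (by linarith)]
      ring
    have hgm : Measurable (fun z => σ (φ' z) ^ n) := (hσ.comp hφ'm).pow_const n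
    calc ∫⁻ z in A, ℓ z ^ n = ∫⁻ z in A, ENNReal.ofReal (K ^ n) * (σ (φ' z) ^ n * D z) :=
          setLIntegral_congr_fun hA h1
      _ = ENNReal.ofReal (K ^ n) * ∫⁻ z in A, σ (φ' z) ^ n * D z :=
          lintegral_const_mul' _ _ ENNReal.ofReal_ne_top
      _ ≤ ENNReal.ofReal (K ^ n) * ∫⁻ y in φ '' A, σ y ^ n := by
          refine mul_le_mul_right ?_ _
          calc ∫⁻ z in A, σ (φ' z) ^ n * D z
              = ∫⁻ z, D z * (A.indicator (fun z => σ (φ' z) ^ n)) z := by
                rw [← lintegral_indicator hA]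
                refine lintegral_congr fun z => ?_
                by_cases hz : z ∈ A
                · rw [Set.indicator_of_mem hz, Set.indicator_of_mem hz, mul_comm]
                · rw [Set.indicator_of_notMem hz, Set.indicator_of_notMem hz, mul_zero]
            _ = ∫⁻ z, (A.indicator (fun z => σ (φ' z) ^ n)) z ∂(volume.withDensity D) := by
                rw [lintegral_withDensity_eq_lintegral_mul _ hDm (hgm.indicator hA)]
                rfl
            _ ≤ ∫⁻ z, (A.indicator (fun z => σ (φ' z) ^ n)) z ∂ν :=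
                lintegral_mono' (Measure.withDensity_rnDeriv_le ν volume) le_rfl
            _ = ∫⁻ y in φ '' Ω, (A.indicator (fun z => σ (φ' z) ^ n)) (ψ y) := by
                rw [hν, lintegral_map' (hgm.indicator hA).aemeasurable hψm]
            _ ≤ ∫⁻ y in φ '' Ω, (φ '' A).indicator (fun y => σ y ^ n) y := by
                refine setLIntegral_mono' ho.measurableSet ?_
                rintro y ⟨z, hz, rfl⟩
                rw [hψ z hz]
                by_cases hzA : z ∈ A
                · rw [Set.indicator_of_mem hzA, Set.indicator_of_mem (Set.mem_image_of_mem φ hzA),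
                    hφ'e z hz]
                · rw [Set.indicator_of_notMem hzA]
                  exact zero_le
            _ ≤ ∫⁻ y, (φ '' A).indicator (fun y => σ y ^ n) y := setLIntegral_le_lintegral _ _
            _ ≤ ∫⁻ y in φ '' A, σ y ^ n := lintegral_indicator_le _ _

end

end Pool.Agent.Helper746.Qc
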