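import Mathlib
import Pool.Agent.Helper746.QcDefs
import Pool.Agent.Helper746.QcLDefs
import Pool.Agent.Helper746.QcNDefs
import Pool.Agent.Helper746.QcLmm
import Pool.Agent.Helper746.QcLsand
import Pool.Agent.Helper746.QcVol
import Pool.Agent.Helper746.QcPair

set_option autoImplicit false

namespace Pool.Agent.Helper746.Qc

open Set Metric MeasureTheory Filter Topology
open scoped ENNReal NNReal

noncomputable section

theorem growth_at_9631_lg {n : ℕ} (hn : 1 ≤ n) {H K : ℝ} {L : ℝ} (hL : 1 ≤ L) {f : Eu n → Eu n}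
    {G : Set (Eu n)} (hf : QCOn H K f G) {g : Eu n → Eu n} (hg : ∀ x ∈ G, g (f x) = x)
    {ζ : Eu n} (hζ : ζ ∈ G) (hrnd : Rnd L f ζ) :
    ∃ δ : ℝ, 0 < δ ∧ ∀ z' : Eu n, dist z' (f ζ) < δ →
      ENNReal.ofReal (dist (g z') ζ ^ n) * vb n ≤
        (Measure.map f (volume.restrict G)) (closedBall (f ζ) (L * dist z' (f ζ))) := by
  obtain ⟨δ₀, hδ₀, hsG, hs⟩ := rnd_sand_on hn hf hL hζ hrnd
  have hbG : ball ζ δ₀ ⊆ G := ball_subset_closedBall.trans hsG
  have hVo : IsOpen (f '' ball ζ δ₀) := hf.opn _ hbG isOpen_ball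
  have hVm : f ζ ∈ f '' ball ζ δ₀ := ⟨ζ, mem_ball_self hδ₀, rfl⟩
  obtain ⟨δ, hδ, hsub⟩ := Metric.isOpen_iff.mp hVo _ hVm
  refine ⟨δ, hδ, fun z' hz' => ?_⟩
  obtain ⟨ζ', hζ', rfl⟩ := hsub (mem_ball.mpr hz')
  have hζ'G : ζ' ∈ G := hbG hζ'
  rw [mem_ball] at hζ'
  have hgf : g (f ζ') = ζ' := hg _ hζ'G
  rw [hgf]
  by_cases hne : ζ' = ζ
  · subst hne
    rw [dist_self, zero_pow (by omega), ENNReal.ofReal_zero, zero_mul]
    exact zero_le
  · have h3 := (hs ζ' hne hζ').2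
    have hae : AEMeasurable f (volume.restrict G) := hf.cont.aemeasurable hf.isOpen.measurableSet
    rw [Measure.map_apply_of_aemeasurable hae measurableSet_closedBall,
      Measure.restrict_apply' hf.isOpen.measurableSet,
      ← volume_closedBall_eq ζ dist_nonneg hn]
    apply measure_mono
    intro y hy
    refine ⟨h3 ⟨y, hy, rfl⟩, ?_⟩
    apply hsG
    rw [mem_closedBall] at hy ⊢
    exact hy.trans hζ'.le

theorem dens_9631_lg {n : ℕ} (hn : 1 ≤ n) {H K : ℝ} (hH : 1 ≤ H) (hK : 1 ≤ K) {f : Eu n → Eu n}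
    {G : Set (Eu n)} (hf : QCOn H K f G) {g : Eu n → Eu n} (hg : ∀ x ∈ G, g (f x) = x) :
    ∀ᵐ z : Eu n, z ∈ f '' G → ∀ c : ℝ, 0 ≤ c →
      ENNReal.ofReal (K ^ n) * (Measure.map f (volume.restrict G)).rnDeriv volume z
        < ENNReal.ofReal (c ^ n) →
      ∃ δ : ℝ, 0 < δ ∧ ∀ z' : Eu n, dist z' z < δ →
        dist (g z') (g z) ≤ c * dist z' z := by
  have hGm : MeasurableSet G := hf.isOpen.measurableSet
  have hae : AEMeasurable f (volume.restrict G) := hf.cont.aemeasurable hGm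
  have hfinU : IsFiniteMeasure ((volume : Measure (Eu n)).restrict G) := by
    constructor
    rw [Measure.restrict_apply MeasurableSet.univ, Set.univ_inter]
    exact lt_top_iff_ne_top.mpr hf.finG
  have hfin : IsFiniteMeasure (Measure.map f (volume.restrict G)) := inferInstance
  set μ : Measure (Eu n) := Measure.map f (volume.restrict G) with hμ
  have htend := Besicovitch.ae_tendsto_rnDeriv μ (volume : Measure (Eu n))
  let N : Set (Eu n) := {y | ¬ (y ∈ G → Rnd K f y)}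
  have hN : volume N = 0 := hf.rndae
  let N1 : Set (Eu n) := toMeasurable volume N ∩ G
  have hN1 : volume N1 = 0 := by
    apply le_antisymm _ zero_le
    calc volume N1 ≤ volume (toMeasurable volume N) := measure_mono Set.inter_subset_left
      _ = 0 := by rw [measure_toMeasurable]; exact hN
  have hN1G : N1 ⊆ G := Set.inter_subset_right
  have hN1m0 : MeasurableSet N1 := (measurableSet_toMeasurable _ _).inter hGm
  have hN1m : MeasurableSet (f '' N1) :=
    hN1m0.image_of_continuousOn_injOn (hf.cont.mono hN1G) (hf.inj.mono hN1G)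
  have hμN : μ (f '' N1) = 0 := by
    rw [hμ, Measure.map_apply_of_aemeasurable hae hN1m, Measure.restrict_apply' hGm]
    have : f ⁻¹' (f '' N1) ∩ G ⊆ N1 := by
      rintro y ⟨⟨x, hx, hxy⟩, hy⟩
      have := hf.inj (hN1G hx) hy hxy
      rw [← this]; exact hx
    exact le_antisymm ((measure_mono this).trans hN1.le) zero_le
  have hD0 : ∀ᵐ z : Eu n, z ∈ f '' N1 → μ.rnDeriv volume z = 0 := by
    have h1 : ∫⁻ z in f '' N1, μ.rnDeriv volume z ∂volume = 0 :=
      le_antisymm ((Measure.setLIntegral_rnDeriv_le _).trans hμN.le) zero_le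
    rw [lintegral_eq_zero_iff (Measure.measurable_rnDeriv _ _)] at h1
    rw [Filter.EventuallyEq, ae_restrict_iff' hN1m] at h1
    exact h1
  filter_upwards [htend, hD0] with z hz1 hz2 hz c hc hlt
  obtain ⟨ζ, hζ, rfl⟩ := hz
  have hgg : g (f ζ) = ζ := hg ζ hζ
  obtain ⟨L, hL1, hLr, hLlt⟩ : ∃ L : ℝ, 1 ≤ L ∧ Rnd L f ζ ∧
      ENNReal.ofReal (L ^ n) * μ.rnDeriv volume (f ζ) < ENNReal.ofReal (c ^ n) := by
    by_cases hr : Rnd K f ζ
    · exact ⟨K, hK, hr, hlt⟩
    · refine ⟨H, hH, hf.rnd ζ hζ, ?_⟩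
      have hmem : ζ ∈ N1 := ⟨subset_toMeasurable _ _ (by
        show ¬ (ζ ∈ G → Rnd K f ζ)
        intro h; exact hr (h hζ)), hζ⟩
      rw [hz2 ⟨ζ, hmem, rfl⟩, mul_zero]
      exact lt_of_le_of_lt zero_le hlt
  have hLpos : 0 < L := by linarith
  obtain ⟨δ, hδ, hgr⟩ := growth_at_9631_lg hn hL1 hf hg hζ hLr
  have h1 : Tendsto (fun r => ENNReal.ofReal (L ^ n) *
      (μ (closedBall (f ζ) r) / volume (closedBall (f ζ) r))) (𝓝[>] 0)
      (𝓝 (ENNReal.ofReal (L ^ n) * μ.rnDeriv volume (f ζ))) :=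
    ENNReal.Tendsto.const_mul hz1 (Or.inr ENNReal.ofReal_ne_top)
  have h2 := h1.eventually_lt_const hLlt
  rw [eventually_nhdsWithin_iff, Metric.eventually_nhds_iff] at h2
  obtain ⟨ε, hε, h3⟩ := h2
  refine ⟨min δ (ε / L), lt_min hδ (by positivity), fun z' hz' => ?_⟩
  rw [hgg]
  by_cases hs0 : dist z' (f ζ) = 0
  · have h4 : z' = f ζ := dist_eq_zero.mp hs0
    rw [h4, hgg, dist_self, dist_self, mul_zero]
  · have hspos : 0 < dist z' (f ζ) := lt_of_le_of_ne dist_nonneg (Ne.symm hs0)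
    set s := dist z' (f ζ) with hs
    have hsε : L * s < ε := by
      have := lt_of_lt_of_le hz' (min_le_right _ _)
      rw [lt_div_iff₀ hLpos] at this
      linarith
    have h5 := h3 (y := L * s) (by
      rw [Real.dist_eq, sub_zero, abs_of_pos (by positivity)]; exact hsε) (by
      exact (by positivity : (0:ℝ) < L * s))
    have h6 := hgr z' (lt_of_lt_of_le hz' (min_le_left _ _))
    have hvol : volume (closedBall (f ζ) (L * s)) =
        ENNReal.ofReal (L ^ n) * (ENNReal.ofReal (s ^ n) * vb n) := by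
      rw [volume_closedBall_eq _ (by positivity) hn, mul_pow, ENNReal.ofReal_mul (by positivity),
        mul_assoc]
    have hvb0 : vb n ≠ 0 := (vb_pos n).ne'
    have hvbt : vb n ≠ ⊤ := (vb_lt_top n).ne
    have hv0 : volume (closedBall (f ζ) (L * s)) ≠ 0 :=
      (measure_closedBall_pos volume _ (by positivity)).ne'
    have hvt : volume (closedBall (f ζ) (L * s)) ≠ ⊤ := measure_closedBall_lt_top.ne
    have h7 : μ (closedBall (f ζ) (L * s)) ≤
        ENNReal.ofReal (c ^ n) * (ENNReal.ofReal (s ^ n) * vb n) := by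
      calc μ (closedBall (f ζ) (L * s))
          = μ (closedBall (f ζ) (L * s)) / volume (closedBall (f ζ) (L * s)) *
            volume (closedBall (f ζ) (L * s)) := (ENNReal.div_mul_cancel hv0 hvt).symm
        _ = (ENNReal.ofReal (L ^ n) * (μ (closedBall (f ζ) (L * s)) /
            volume (closedBall (f ζ) (L * s)))) * (ENNReal.ofReal (s ^ n) * vb n) := by
            conv_lhs => rw [hvol]
            rw [hvol]; ring
        _ ≤ _ := by gcongr
    have h8 := h6.trans h7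
    rw [← mul_assoc, ENNReal.mul_le_mul_iff_left hvb0 hvbt, ← ENNReal.ofReal_mul (by positivity),
      ← mul_pow] at h8
    rw [ENNReal.ofReal_le_ofReal_iff (by positivity)] at h8
    exact (pow_le_pow_iff_left₀ dist_nonneg (by positivity) (by omega)).mp h8


theorem inv_ug_on {n : ℕ} (hn : 2 ≤ n) {H K : ℝ} (hH : 1 ≤ H) (hK : 1 ≤ K) {f : Eu n → Eu n}
    {G : Set (Eu n)} (hf : QCOn H K f G) {g : Eu n → Eu n} (hg : ∀ x ∈ G, g (f x) = x)
    {u : Eu n → ℝ} {L : ℝ≥0} (hu : LipschitzWith L u) {σ : Eu n → ℝ≥0∞} (hσ : Measurable σ)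
    (hb : LocBd u σ) :
    ∃ ℓ : Eu n → ℝ≥0∞, Measurable ℓ ∧ UGOn (fun y => u (g y)) ℓ (f '' G) ∧
      ∀ A : Set (Eu n), MeasurableSet A → A ⊆ f '' G →
        ∫⁻ y in A, ℓ y ^ n ≤ ENNReal.ofReal (K ^ n) * ∫⁻ x in (f ⁻¹' A) ∩ G, σ x ^ n := by
  have hn1 : 1 ≤ n := by omega
  have himg : g '' (f '' G) = G := by
    ext x
    constructor
    · rintro ⟨_, ⟨y, hy, rfl⟩, rfl⟩
      rw [hg y hy]; exact hy
    · intro hx
      exact ⟨f x, ⟨x, hx, rfl⟩, hg x hx⟩
  have hvb0 : vb n ≠ 0 := (vb_pos n).ne'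
  have hvbt : vb n ≠ ⊤ := (vb_lt_top n).ne
  have hvr : 0 < (vb n).toReal := ENNReal.toReal_pos hvb0 hvbt
  have hΩ : IsOpen (f '' G) := hf.opn G (Subset.refl _) hf.isOpen
  have hgc : ContinuousOn g (f '' G) := by
    rw [_root_.continuousOn_iff']
    intro t ht
    refine ⟨f '' (t ∩ G), hf.opn _ Set.inter_subset_right (ht.inter hf.isOpen), ?_⟩
    ext z
    constructor
    · rintro ⟨hz, ⟨x, hx, rfl⟩⟩
      refine ⟨⟨x, ⟨?_, hx⟩, rfl⟩, ⟨x, hx, rfl⟩⟩
      have : g (f x) ∈ t := hz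
      rwa [hg x hx] at this
    · rintro ⟨⟨x, ⟨hxt, hx⟩, rfl⟩, h2⟩
      refine ⟨?_, h2⟩
      show g (f x) ∈ t
      rw [hg x hx]; exact hxt
  obtain ⟨ℓ, h1, h2, h3⟩ := pair_ug (C := (vb n).toReal⁻¹) (H := H) (K := K) (φ := g) (ψ := f)
    (Ω := f '' G) hn (by positivity) hH hK hΩ hgc
    (by
      rintro z ⟨x, hx, rfl⟩
      rw [hg x hx])
    (by rw [himg]; exact hf.isOpen)
    (by rw [himg]; exact hf.cont)
    (by rw [himg]; exact hf.finG)
    (by
      rw [himg]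
      rintro z ⟨ζ, hζ, rfl⟩
      obtain ⟨δ, hδ, hgr⟩ := growth_at_9631_lg hn1 hH hf hg hζ (hf.rnd ζ hζ)
      refine ⟨δ, hδ, fun z' hz' => ?_⟩
      have h := hgr z' hz'
      rw [hg ζ hζ]
      calc ENNReal.ofReal (dist (g z') ζ ^ n)
          = ENNReal.ofReal ((vb n).toReal⁻¹) * (ENNReal.ofReal (dist (g z') ζ ^ n) * vb n) := by
            rw [mul_comm (ENNReal.ofReal (dist (g z') ζ ^ n)), ← mul_assoc,
              ENNReal.ofReal_inv_of_pos hvr, ENNReal.ofReal_toReal hvbt,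
              ENNReal.inv_mul_cancel hvb0 hvbt, one_mul]
        _ ≤ _ := by gcongr)
    (by rw [himg]; exact dens_9631_lg hn1 hH hK hf hg)
    hu hσ hb
  refine ⟨ℓ, h1, h2, fun A hA hAG => ?_⟩
  have h4 := h3 A hA hAG
  have h5 : g '' A = f ⁻¹' A ∩ G := by
    ext x
    constructor
    · rintro ⟨z, hz, rfl⟩
      obtain ⟨y, hy, rfl⟩ := hAG hz
      rw [hg y hy]
      exact ⟨hz, hy⟩
    · rintro ⟨hx1, hx2⟩
      exact ⟨f x, hx1, hg x hx2⟩
  rwa [h5] at h4

end

end Pool.Agent.Helper746.Qc
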