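import Mathlib
import Pool.Agent.Helper746.QcDefs
import Pool.Agent.Helper746.QcLDefs
import Pool.Agent.Helper746.QcNDefs

set_option autoImplicit false

namespace Pool.Agent.Helper746.Qc

open Set Metric MeasureTheory Filter Topology
open scoped ENNReal NNReal

noncomputable section

theorem LH_of_LN {n : ℕ} {H K A : ℝ} {f : Eu n → Eu n} (hf : LN H K A f) : LH A f := by
  have hb : ∀ x ∈ ball (0 : Eu n) A, QCOn H K f (ball x (1 / 4)) := by
    intro x hx
    exact hf x (by simpa using (mem_ball_zero_iff.mp hx).le)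
  refine ⟨?_, ?_, ?_⟩
  · intro x hx
    exact (((hb x hx).cont x (mem_ball_self (by norm_num))).continuousAt
      (ball_mem_nhds x (by norm_num))).continuousWithinAt
  · intro x hx
    have h0 : 0 < A - ‖x‖ := by have := mem_ball_zero_iff.mp hx; linarith
    refine ⟨min (1 / 4) (A - ‖x‖), lt_min (by norm_num) h0, ?_, ?_⟩
    · intro y hy
      have h1 : dist y x < A - ‖x‖ := lt_of_lt_of_le (mem_ball.mp hy) (min_le_right _ _)
      rw [mem_ball_zero_iff]
      have h2 : ‖y‖ ≤ ‖y - x‖ + ‖x‖ := by simpa using norm_add_le (y - x) x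
      rw [dist_eq_norm] at h1
      linarith
    · exact (hb x hx).inj.mono (ball_subset_ball (min_le_left _ _))
  · intro U hU hUo
    have h1 : f '' U = ⋃ x ∈ U, f '' (U ∩ ball x (1 / 4)) := by
      ext y
      simp only [mem_image, mem_iUnion, mem_inter_iff, exists_prop]
      constructor
      · rintro ⟨x, hx, rfl⟩
        exact ⟨x, hx, x, ⟨hx, mem_ball_self (by norm_num)⟩, rfl⟩
      · rintro ⟨x, hx, z, ⟨hz, -⟩, rfl⟩
        exact ⟨z, hz, rfl⟩
    rw [h1]
    refine isOpen_biUnion fun x hx => ?_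
    exact (hb x (hU hx)).opn _ inter_subset_right (hUo.inter isOpen_ball)

end

end Pool.Agent.Helper746.Qc
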