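import Mathlib
import Pool.Agent.Helper746.QcDefs
import Pool.Agent.Helper746.QcLDefs
import Pool.Agent.Helper746.QcNDefs

set_option autoImplicit false

namespace Pool.Agent.Helper746.Qc

open Set Metric MeasureTheory Filter Topology
open scoped ENNReal NNReal

noncomputable section

theorem unique_lift {n : ℕ} {A : ℝ} {f : Eu n → Eu n} (hf : LH A f) {X : Type} [TopologicalSpace X]
    {S : Set X} (hS : IsPreconnected S) {α α' : X → Eu n} (hα : ContinuousOn α S) (hα' : ContinuousOn α' S)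
    (hαA : ∀ x ∈ S, α x ∈ ball (0 : Eu n) A) (hαA' : ∀ x ∈ S, α' x ∈ ball (0 : Eu n) A)
    (he : ∀ x ∈ S, f (α x) = f (α' x)) {x₀ : X} (hx₀ : x₀ ∈ S) (h0 : α x₀ = α' x₀) :
    ∀ x ∈ S, α x = α' x := by
  haveI : PreconnectedSpace S := isPreconnected_iff_preconnectedSpace.1 hS
  have c1 : Continuous (S.restrict α) := continuousOn_iff_continuous_restrict.1 hα
  have c2 : Continuous (S.restrict α') := continuousOn_iff_continuous_restrict.1 hα'
  have hcl : IsClopen {x : S | S.restrict α x = S.restrict α' x} := by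
    refine ⟨isClosed_eq c1 c2, ?_⟩
    rw [isOpen_iff_mem_nhds]
    intro x hx
    have hx' : α x = α' x := hx
    obtain ⟨δ, hδ, _, hinj⟩ := hf.2.1 (α x) (hαA x x.2)
    have h1 : S.restrict α ⁻¹' ball (α x) δ ∈ 𝓝 x :=
      c1.continuousAt.preimage_mem_nhds (ball_mem_nhds _ hδ)
    have h2 : S.restrict α' ⁻¹' ball (α x) δ ∈ 𝓝 x := by
      refine c2.continuousAt.preimage_mem_nhds ?_
      have : S.restrict α' x = α x := hx'.symm
      rw [this]
      exact ball_mem_nhds _ hδ
    filter_upwards [h1, h2] with z hz1 hz2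
    exact hinj hz1 hz2 (he z z.2)
  have huniv := hcl.eq_univ ⟨⟨x₀, hx₀⟩, h0⟩
  intro x hx
  have : (⟨x, hx⟩ : S) ∈ {x : S | S.restrict α x = S.restrict α' x} := by
    rw [huniv]; exact mem_univ _
  exact this

end

end Pool.Agent.Helper746.Qc
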