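import Mathlib
import Pool.Agent.Helper746.QcDefs
import Pool.Agent.Helper746.QcLDefs
import Pool.Agent.Helper746.QcNDefs
import Pool.Agent.Helper746.QcUlift

set_option autoImplicit false

namespace Pool.Agent.Helper746.Qc

open Set Metric MeasureTheory Filter Topology
open scoped ENNReal NNReal

noncomputable section

theorem lh_isLocalHomeo_liftdom {n : ℕ} {A : ℝ} {f : Eu n → Eu n} (hf : LH A f) :
    IsLocalHomeomorph (fun x : ball (0 : Eu n) A => f x) := by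
  rw [isLocalHomeomorph_iff_isOpenEmbedding_restrict]
  intro x
  obtain ⟨δ, hδ, hsub, hinj⟩ := hf.2.1 x.1 x.2
  refine ⟨Subtype.val ⁻¹' ball x.1 δ, (isOpen_ball.preimage continuous_subtype_val).mem_nhds
    (by simpa using hδ), ?_⟩
  have hc : Continuous (fun y : ball (0 : Eu n) A => f y) := by
    have := hf.1
    rwa [continuousOn_iff_continuous_domRestrict] at this
  apply Topology.IsOpenEmbedding.of_continuous_injective_isOpenMap
  · exact hc.comp continuous_subtype_val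
  · intro a b hab
    apply Subtype.ext
    apply Subtype.ext
    exact hinj a.2 b.2 hab
  · intro U hU
    obtain ⟨U', hU', rfl⟩ := isOpen_induced_iff.1 hU
    obtain ⟨U'', hU'', rfl⟩ := isOpen_induced_iff.1 hU'
    have : (Set.domRestrict (Subtype.val ⁻¹' ball x.1 δ) (fun y : ball (0 : Eu n) A => f y)) ''
        (Subtype.val ⁻¹' (Subtype.val ⁻¹' U'')) = f '' (ball x.1 δ ∩ U'') := by
      ext y
      constructor
      · rintro ⟨a, ha, rfl⟩
        exact ⟨a.1.1, ⟨a.2, ha⟩, rfl⟩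
      · rintro ⟨a, ⟨ha1, ha2⟩, rfl⟩
        exact ⟨⟨⟨a, hsub ha1⟩, ha1⟩, ha2, rfl⟩
    rw [this]
    exact hf.2.2 _ (fun a ha => hsub ha.1) (isOpen_ball.inter hU'')

/-- local extension of a lift -/
theorem lift_nhd_liftdom {n : ℕ} {A : ℝ} {f : Eu n → Eu n} (hf : LH A f) {Z : Set (Eu n)}
    (hZ : IsOpen Z) {π β : Eu n → Eu n} (hπ : Continuous π) (hβ : ContinuousOn β Z)
    (hβA : ∀ z ∈ Z, β z ∈ ball (0 : Eu n) A) (hβf : ∀ z ∈ Z, f (β z) = π z)
    {z₀ : Eu n} (hz₀ : z₀ ∈ Z) {α₀ : ℝ → Eu n} (hα : ContinuousOn α₀ (Icc 0 1)) (hα0 : α₀ 0 = β z₀)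
    (hαf : ∀ s ∈ Icc (0 : ℝ) 1, α₀ s ∈ ball (0 : Eu n) A ∧ f (α₀ s) = (1 - s) • π z₀ + s • z₀) :
    ∃ N ∈ 𝓝 z₀, N ⊆ Z ∧ ∃ G : ℝ → Eu n → Eu n, (∀ z ∈ N, ContinuousOn (fun s => G s z) (Icc 0 1) ∧
      G 0 z = β z ∧ (∀ s ∈ Icc (0 : ℝ) 1, G s z ∈ ball (0 : Eu n) A ∧
        f (G s z) = (1 - s) • π z + s • z)) ∧ ContinuousOn (fun z => G 1 z) N := by
  classical
  set B := ball (0 : Eu n) A with hB
  have hfB : IsOpen (f '' B) := hf.2.2 _ subset_rfl isOpen_ball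
  set F : ℝ → Eu n → Eu n := fun s z => (1 - s) • π z + s • z with hF
  have hFc : Continuous (fun q : ℝ × Eu n => F q.1 q.2) := by
    simp only [hF]
    fun_prop
  have hopen : IsOpen ((fun q : ℝ × Eu n => F q.1 q.2) ⁻¹' (f '' B)) := hfB.preimage hFc
  have hsub0 : (Icc (0 : ℝ) 1) ×ˢ ({z₀} : Set (Eu n)) ⊆ (fun q : ℝ × Eu n => F q.1 q.2) ⁻¹' (f '' B) := by
    rintro ⟨s, z⟩ ⟨hs, hz⟩
    rw [mem_singleton_iff] at hz
    simp only at hs hz
    subst hz
    exact ⟨α₀ s, (hαf s hs).1, (hαf s hs).2⟩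
  obtain ⟨u, v, -, hv, hu, hz₀v, huv⟩ := generalized_tube_lemma isCompact_Icc isCompact_singleton
    hopen hsub0
  set V : Set (Eu n) := v ∩ Z with hV
  have hVo : IsOpen V := hv.inter hZ
  have hz₀V : z₀ ∈ V := ⟨hz₀v rfl, hz₀⟩
  have hVf : ∀ z ∈ V, ∀ s ∈ Icc (0 : ℝ) 1, ∃ y ∈ B, f y = F s z := by
    intro z hz s hs
    exact huv (show (s, z) ∈ u ×ˢ v from ⟨hu hs, hz.1⟩)
  let p : B → Eu n := fun x => f x
  let Fm : C(unitInterval × V, Eu n) := ⟨fun q => F q.1.1 q.2.1, by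
    exact hFc.comp ((continuous_subtype_val.comp continuous_fst).prodMk
      (continuous_subtype_val.comp continuous_snd))⟩
  have hchoose : ∀ q : unitInterval × V, ∃ y : B, f y = F q.1.1 q.2.1 := by
    intro q
    obtain ⟨y, hy, hy'⟩ := hVf q.2.1 q.2.2 q.1.1 q.1.2
    exact ⟨⟨y, hy⟩, hy'⟩
  let g : unitInterval × V → B := fun q =>
    if q.2.1 = z₀ then ⟨α₀ q.1.1, (hαf q.1.1 q.1.2).1⟩
    else if q.1.1 = 0 then ⟨β q.2.1, hβA _ q.2.2.2⟩ else (hchoose q).choose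
  have hg0 : ∀ z : V, g (0, z) = ⟨β z.1, hβA _ z.2.2⟩ := by
    intro z
    by_cases h : z.1 = z₀
    · simp only [g, if_pos h]
      apply Subtype.ext
      simp [hα0, h]
    · simp only [g, if_neg h]
      simp
  have hgz : ∀ s : unitInterval, g (s, ⟨z₀, hz₀V⟩) = ⟨α₀ s.1, (hαf s.1 s.2).1⟩ := by
    intro s
    simp only [g, if_true]
  have hglift : p ∘ g = Fm := by
    funext q
    change f (g q).1 = F q.1.1 q.2.1
    by_cases h : q.2.1 = z₀
    · simp only [g, if_pos h]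
      rw [(hαf q.1.1 q.1.2).2]
      simp only [hF, h]
    · by_cases h' : q.1.1 = 0
      · simp only [g, if_neg h, if_pos h']
        rw [hβf _ q.2.2.2]
        simp [hF, h']
      · simp only [g, if_neg h, if_neg h']
        exact (hchoose q).choose_spec
  have hcont0 : Continuous (fun z : V => g (0, z)) := by
    have : (fun z : V => g (0, z)) = fun z : V => (⟨β z.1, hβA _ z.2.2⟩ : B) := by
      funext z; exact hg0 z
    rw [this]
    apply Continuous.subtype_mk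
    have h1 : ContinuousOn β V := hβ.mono (fun z hz => hz.2)
    rwa [continuousOn_iff_continuous_domRestrict] at h1
  have hconta : Continuous (fun s : unitInterval => g (s, ⟨z₀, hz₀V⟩)) := by
    have : (fun s : unitInterval => g (s, ⟨z₀, hz₀V⟩)) = fun s : unitInterval =>
        (⟨α₀ s.1, (hαf s.1 s.2).1⟩ : B) := by
      funext s; exact hgz s
    rw [this]
    apply Continuous.subtype_mk
    have h1 := hα
    rwa [continuousOn_iff_continuous_domRestrict] at h1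
  obtain ⟨N', hN', g', hg'c, hg'l, hg'0, hg'a⟩ := (lh_isLocalHomeo_liftdom hf).exists_lift_nhds (f := Fm)
    (g := g) hglift hcont0 ⟨z₀, hz₀V⟩ hconta
  have hN : Subtype.val '' N' ∈ 𝓝 z₀ := by
    have := (hVo.isOpenEmbedding_subtypeVal.map_nhds_eq ⟨z₀, hz₀V⟩)
    rw [← this]
    exact Filter.image_mem_map hN'
  refine ⟨Subtype.val '' N', hN, ?_, fun s z => if hz : z ∈ V then
      (g' (Set.projIcc 0 1 zero_le_one s, ⟨z, hz⟩)).1 else 0, ?_, ?_⟩
  · rintro z ⟨z', hz', rfl⟩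
    exact z'.2.2
  · rintro z ⟨z', hz', rfl⟩
    have hzV : z'.1 ∈ V := z'.2
    refine ⟨?_, ?_, ?_⟩
    · simp only [dif_pos hzV]
      have h1 : Continuous (fun s : ℝ => g' (Set.projIcc 0 1 zero_le_one s, z')) := by
        have h2 := hg'c.comp_continuous (f := fun s : ℝ => ((Set.projIcc 0 1 zero_le_one s : unitInterval), z'))
          (by fun_prop) (fun s => ⟨mem_univ _, hz'⟩)
        exact h2
      exact (continuous_subtype_val.comp h1).continuousOn
    · simp only [dif_pos hzV]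
      have h1 : (Set.projIcc (0:ℝ) 1 zero_le_one 0 : unitInterval) = 0 := by
        rw [Set.projIcc_left]; rfl
      rw [h1, hg'0 ⟨z'.1, hzV⟩, hg0]
    · intro s hs
      simp only [dif_pos hzV]
      refine ⟨Subtype.coe_prop _, ?_⟩
      have h1 := congrFun hg'l (Set.projIcc 0 1 zero_le_one s, z')
      have h2 : (Set.projIcc (0:ℝ) 1 zero_le_one s : unitInterval) = ⟨s, hs⟩ := Set.projIcc_of_mem _ hs
      have h3 : f (g' (Set.projIcc 0 1 zero_le_one s, z')).1 = F s z'.1 := by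
        have : Fm (Set.projIcc 0 1 zero_le_one s, z') = F s z'.1 := by
          rw [h2]; rfl
        rw [← this, ← h1]; rfl
      exact h3
  · rintro z ⟨z', hz', rfl⟩
    have h0 : 𝓝[Subtype.val '' N'] (z'.1 : Eu n) = Filter.map Subtype.val (𝓝[N'] z') := by
      rw [Topology.IsEmbedding.subtypeVal.map_nhdsWithin_eq]
    unfold ContinuousWithinAt
    rw [h0, Filter.tendsto_map'_iff]
    have h1 : ContinuousOn (fun w : V => (g' (Set.projIcc 0 1 zero_le_one 1, w)).1) N' := by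
      apply continuous_subtype_val.comp_continuousOn
      exact hg'c.comp (by fun_prop) (fun w hw => ⟨mem_univ _, hw⟩)
    have h2 := h1 z' hz'
    unfold ContinuousWithinAt at h2
    have h3 : ((fun z : Eu n => if hz : z ∈ V then
      (g' (Set.projIcc 0 1 zero_le_one 1, ⟨z, hz⟩)).1 else 0) ∘ Subtype.val) =
      (fun w : V => (g' (Set.projIcc 0 1 zero_le_one 1, w)).1) := by
      funext w
      simp only [Function.comp, dif_pos w.2]
    rw [← h3] at h2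
    exact h2

/-- maximal domain of the lifts of the segments `[π z, z]` starting at `β z`. -/
theorem lift_domain {n : ℕ} (hn : 1 ≤ n) {A : ℝ} {f : Eu n → Eu n} (hf : LH A f) {Z : Set (Eu n)}
    (hZ : IsOpen Z) {π β : Eu n → Eu n} (hπ : Continuous π) (hβ : ContinuousOn β Z)
    (hβA : ∀ z ∈ Z, β z ∈ ball (0 : Eu n) A) (hβf : ∀ z ∈ Z, f (β z) = π z) :
    ∃ (O : Set (Eu n)) (h : Eu n → Eu n), IsOpen O ∧ O ⊆ Z ∧ ContinuousOn h O ∧
      (∀ z ∈ O, h z ∈ ball (0 : Eu n) A ∧ f (h z) = z) ∧ IsOpen (h '' O) ∧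
      (∀ z ∈ Z, ∀ α : ℝ → Eu n, ContinuousOn α (Icc 0 1) → α 0 = β z →
        (∀ s ∈ Icc (0 : ℝ) 1, α s ∈ ball (0 : Eu n) A ∧ f (α s) = (1 - s) • π z + s • z) →
        z ∈ O ∧ h z = α 1) := by
  classical
  set P : Eu n → (ℝ → Eu n) → Prop := fun z α => ContinuousOn α (Icc 0 1) ∧ α 0 = β z ∧
    ∀ s ∈ Icc (0 : ℝ) 1, α s ∈ ball (0 : Eu n) A ∧ f (α s) = (1 - s) • π z + s • z with hP
  have huniq : ∀ z α α', P z α → P z α' → ∀ s ∈ Icc (0 : ℝ) 1, α s = α' s := by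
    intro z α α' h1 h2
    exact unique_lift hf isPreconnected_Icc h1.1 h2.1 (fun x hx => (h1.2.2 x hx).1)
      (fun x hx => (h2.2.2 x hx).1) (fun x hx => by rw [(h1.2.2 x hx).2, (h2.2.2 x hx).2])
      (x₀ := 0) (by simp) (by rw [h1.2.1, h2.2.1])
  set O : Set (Eu n) := {z | z ∈ Z ∧ ∃ α, P z α} with hO
  set h : Eu n → Eu n := fun z => if hz : ∃ α, P z α then hz.choose 1 else 0 with hh
  have hval : ∀ z α, P z α → h z = α 1 := by
    intro z α hα
    have hz : ∃ α, P z α := ⟨α, hα⟩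
    simp only [hh, dif_pos hz]
    exact huniq z _ _ hz.choose_spec hα 1 (by simp)
  have hloc : ∀ z ∈ O, O ∈ 𝓝 z ∧ ContinuousAt h z := by
    rintro z₀ ⟨hz₀, α₀, hα₀⟩
    obtain ⟨N, hN, hNZ, G, hG, hGc⟩ := lift_nhd_liftdom hf hZ hπ hβ hβA hβf hz₀ hα₀.1 hα₀.2.1 hα₀.2.2
    refine ⟨Filter.mem_of_superset hN (fun z hz => ⟨hNZ hz, _, hG z hz⟩), ?_⟩
    have h1 : ∀ z ∈ N, h z = G 1 z := fun z hz => hval z _ (hG z hz)
    have h2 : ContinuousAt (fun z => G 1 z) z₀ := hGc.continuousAt hN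
    exact h2.congr (Filter.eventually_of_mem hN (fun z hz => (h1 z hz).symm))
  have hOo : IsOpen O := isOpen_iff_mem_nhds.2 (fun z hz => (hloc z hz).1)
  have hhf : ∀ z ∈ O, h z ∈ ball (0 : Eu n) A ∧ f (h z) = z := by
    rintro z ⟨hz, α, hα⟩
    rw [hval z α hα]
    have := hα.2.2 1 (by simp)
    refine ⟨this.1, ?_⟩
    rw [this.2]
    simp
  refine ⟨O, h, hOo, fun z hz => hz.1, fun z hz => (hloc z hz).2.continuousWithinAt, hhf, ?_, ?_⟩
  · rw [isOpen_iff_mem_nhds]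
    rintro _ ⟨z₀, hz₀, rfl⟩
    obtain ⟨δ, hδ, hsub, hinj⟩ := hf.2.1 (h z₀) (hhf z₀ hz₀).1
    have hW : {z | z ∈ O ∧ h z ∈ ball (h z₀) δ} ∈ 𝓝 z₀ := by
      have h1 := (hloc z₀ hz₀).2.eventually (isOpen_ball.mem_nhds (mem_ball_self hδ))
      filter_upwards [(hloc z₀ hz₀).1, h1] with z hz hz'
      exact ⟨hz, hz'⟩
    have hfc : ContinuousAt f (h z₀) := hf.1.continuousAt (isOpen_ball.mem_nhds (hhf z₀ hz₀).1)
    have hW' : ∀ᶠ y in 𝓝 (h z₀), f y ∈ {z | z ∈ O ∧ h z ∈ ball (h z₀) δ} := by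
      apply hfc.eventually
      rw [(hhf z₀ hz₀).2]
      exact hW
    filter_upwards [hW', isOpen_ball.mem_nhds (mem_ball_self hδ)] with y hy hy'
    refine ⟨f y, hy.1, ?_⟩
    apply hinj hy.2 hy'
    exact (hhf _ hy.1).2
  · intro z hz α hα hα0 hαf
    exact ⟨⟨hz, α, hα, hα0, hαf⟩, hval z α ⟨hα, hα0, hαf⟩⟩

end

end Pool.Agent.Helper746.Qc
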