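import Mathlib
import Pool.Agent.Helper746.QcDefs
import Pool.Agent.Helper746.QcLDefs
import Pool.Agent.Helper746.QcNDefs

set_option autoImplicit false

namespace Pool.Agent.Helper746.Qc

open Set Metric MeasureTheory Filter Topology
open scoped ENNReal NNReal

noncomputable section

theorem tri {n : ℕ} {y y' v : Eu n} {l h D θ : ℝ} (hl : 0 < l) (hh : 0 < h) (hθ : 0 < θ) (hθ2 : θ ≤ 1 / 2)
    (hy : l ≤ dist y y') (hv : ∀ t : ℝ, h ≤ dist v (y + t • (y' - y)))
    (hD1 : dist v y ≤ D) (hD2 : dist v y' ≤ D) (w : Eu n)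
    (hw : ∃ a b : ℝ, w = a • (y' - y) + b • (v - y)) (hwn : ‖w‖ ≤ min (θ * h) (l * h / (8 * D))) :
    ∃ t ∈ Icc (0 : ℝ) 1, ∃ s ∈ Icc (0 : ℝ) (2 * θ),
      (1 - θ) • ((1 / 2 : ℝ) • (y + y')) + θ • v + w = (1 - s) • ((1 - t) • y + t • y') + s • v := by
  obtain ⟨a, b, hab⟩ := hw
  have hw1 : ‖w‖ ≤ θ * h := hwn.trans (min_le_left _ _)
  have hw2 : ‖w‖ ≤ l * h / (8 * D) := hwn.trans (min_le_right _ _)
  have hhD : h ≤ D := by
    have h1 := hv 0
    rw [zero_smul, add_zero] at h1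
    exact h1.trans hD1
  have hD : 0 < D := hh.trans_le hhD
  have he : l ≤ ‖y' - y‖ := by rwa [← dist_eq_norm, dist_comm]
  have hb1 : h * |b| ≤ ‖w‖ := by
    by_cases hb : b = 0
    · rw [hb, abs_zero, mul_zero]; exact norm_nonneg _
    · have h1 := hv (-(a / b))
      have h2 : w = b • (v - (y + (-(a / b)) • (y' - y))) := by
        rw [hab]
        have h3 : a = b * (a / b) := by field_simp
        conv_lhs => rw [h3]
        module
      rw [h2, norm_smul, Real.norm_eq_abs, mul_comm]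
      apply mul_le_mul_of_nonneg_left _ (abs_nonneg _)
      rwa [dist_eq_norm] at h1
  have hbθ : |b| ≤ θ := by
    have : h * |b| ≤ h * θ := by linarith
    exact le_of_mul_le_mul_left this hh
  have key : ∀ (c : ℝ) (g : Eu n), ‖g‖ ≤ D → w = c • (y' - y) + b • g → |c| ≤ 1 / 4 := by
    intro c g hg hwc
    have h1 : |c| * ‖y' - y‖ ≤ ‖w‖ + |b| * D := by
      calc |c| * ‖y' - y‖ = ‖c • (y' - y)‖ := by rw [norm_smul, Real.norm_eq_abs]
        _ = ‖w - b • g‖ := by rw [hwc, add_sub_cancel_right]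
        _ ≤ ‖w‖ + ‖b • g‖ := norm_sub_le _ _
        _ ≤ ‖w‖ + |b| * D := by
          rw [norm_smul, Real.norm_eq_abs]
          linarith [mul_le_mul_of_nonneg_left hg (abs_nonneg b)]
    have h2 : |c| * l ≤ |c| * ‖y' - y‖ := mul_le_mul_of_nonneg_left he (abs_nonneg _)
    have h3 : h * (|b| * D) ≤ ‖w‖ * D := by
      rw [← mul_assoc]
      exact mul_le_mul_of_nonneg_right hb1 hD.le
    have h4 : ‖w‖ * (8 * D) ≤ l * h := by rwa [le_div_iff₀ (by positivity)] at hw2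
    have h5 : h * (|c| * l) ≤ h * ‖w‖ + ‖w‖ * D := by
      have := mul_le_mul_of_nonneg_left (h2.trans h1) hh.le
      rw [mul_add] at this
      linarith
    have h6 : h * ‖w‖ ≤ D * ‖w‖ := mul_le_mul_of_nonneg_right hhD (norm_nonneg _)
    have h7 : (h * l) * |c| ≤ (h * l) * (1 / 4) := by
      linarith
    exact le_of_mul_le_mul_left h7 (mul_pos hh hl)
  have ha : |a| ≤ 1 / 4 := key a (v - y) (by rwa [← dist_eq_norm]) hab
  have hab2 : |a + b| ≤ 1 / 4 := key (a + b) (v - y') (by rwa [← dist_eq_norm]) (by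
    rw [hab]; module)
  rw [abs_le] at hbθ ha hab2
  have hs0 : 0 ≤ θ + b := by linarith [hbθ.1]
  have hs1 : θ + b ≤ 2 * θ := by linarith [hbθ.2]
  have hτ0 : 0 ≤ (1 - θ) / 2 + a := by linarith [ha.1]
  have hτ1 : (1 - θ) / 2 + a ≤ 1 - (θ + b) := by linarith [hab2.2]
  have main : ∀ t : ℝ, (1 - (θ + b)) * t = (1 - θ) / 2 + a →
      (1 - θ) • ((1 / 2 : ℝ) • (y + y')) + θ • v + w =
        (1 - (θ + b)) • ((1 - t) • y + t • y') + (θ + b) • v := by
    intro t ht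
    have e1 : (1 - (θ + b)) • ((1 - t) • y + t • y') =
        ((1 - (θ + b)) - (1 - (θ + b)) * t) • y + ((1 - (θ + b)) * t) • y' := by
      module
    rw [e1, ht, hab]
    module
  rcases eq_or_lt_of_le (show 0 ≤ 1 - (θ + b) by linarith) with h0 | h0
  · refine ⟨0, ⟨le_rfl, zero_le_one⟩, θ + b, ⟨hs0, hs1⟩, main 0 ?_⟩
    rw [mul_zero]
    linarith
  · refine ⟨((1 - θ) / 2 + a) / (1 - (θ + b)), ⟨div_nonneg hτ0 h0.le, (div_le_one h0).2 hτ1⟩,
      θ + b, ⟨hs0, hs1⟩, main _ ?_⟩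
    field_simp

end

end Pool.Agent.Helper746.Qc
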