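import Mathlib
import Pool.Agent.Helper746.QcDefs
import Pool.Agent.Helper746.QcLDefs
import Pool.Agent.Helper746.QcNDefs
import Pool.Agent.Helper746.QcLmm
import Pool.Agent.Helper746.QcVol
import Pool.Agent.Helper746.QcClog
import Pool.Agent.Helper746.QcPolar
import Pool.Agent.Helper746.QcLg
import Pool.Agent.Helper746.QcLhln
import Pool.Agent.Helper746.QcUlift
import Pool.Agent.Helper746.QcTri
import Pool.Agent.Helper746.QcLiftdom
import Pool.Agent.Helper746.QcSlice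

set_option autoImplicit false

namespace Pool.Agent.Helper746.Qc

open Set Metric MeasureTheory Filter Topology
open scoped ENNReal NNReal

noncomputable section

/-- point of the triangle -/
def tp10406_edge {n : ℕ} (y y' v : Eu n) (t s : ℝ) : Eu n := (1 - s) • ((1 - t) • y + t • y') + s • v

theorem tp_eq10406_edge {n : ℕ} (y y' v : Eu n) (t s : ℝ) :
    tp10406_edge y y' v t s = y + ((1 - s) * t) • (y' - y) + s • (v - y) := by
  unfold tp10406_edge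
  module

/-- second coordinate of a convex combination -/
def cs10406_edge (s₀ s r : ℝ) : ℝ := (1 - r) * s₀ + r * s

/-- first coordinate of a convex combination -/
def ct10406_edge (t₀ s₀ t s r : ℝ) : ℝ :=
  ((1 - r) * ((1 - s₀) * t₀) + r * ((1 - s) * t)) / (1 - cs10406_edge s₀ s r)

theorem cs_mem10406_edge {s₀ s s₁ r : ℝ} (h0 : s₀ ∈ Icc (0 : ℝ) s₁) (h : s ∈ Icc (0 : ℝ) s₁)
    (hr : r ∈ Icc (0 : ℝ) 1) : cs10406_edge s₀ s r ∈ Icc (0 : ℝ) s₁ := by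
  unfold cs10406_edge
  obtain ⟨h01, h02⟩ := h0
  obtain ⟨h1, h2⟩ := h
  obtain ⟨r1, r2⟩ := hr
  constructor
  · have := mul_nonneg (sub_nonneg.mpr r2) h01
    have := mul_nonneg r1 h1
    linarith
  · have h3 : (1 - r) * s₀ ≤ (1 - r) * s₁ := mul_le_mul_of_nonneg_left h02 (sub_nonneg.mpr r2)
    have h4 : r * s ≤ r * s₁ := mul_le_mul_of_nonneg_left h2 r1
    linarith

theorem ct_mem10406_edge {t₀ t s₀ s s₁ r : ℝ} (ht0 : t₀ ∈ Icc (0 : ℝ) 1) (ht : t ∈ Icc (0 : ℝ) 1)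
    (h0 : s₀ ∈ Icc (0 : ℝ) s₁) (h : s ∈ Icc (0 : ℝ) s₁) (hs₁ : s₁ < 1)
    (hr : r ∈ Icc (0 : ℝ) 1) : ct10406_edge t₀ s₀ t s r ∈ Icc (0 : ℝ) 1 := by
  have hc := cs_mem10406_edge h0 h hr
  have hpos : 0 < 1 - cs10406_edge s₀ s r := by linarith [hc.2]
  obtain ⟨h01, h02⟩ := h0
  obtain ⟨h1, h2⟩ := h
  obtain ⟨r1, r2⟩ := hr
  obtain ⟨a1, a2⟩ := ht0
  obtain ⟨b1, b2⟩ := ht
  have hA : 0 ≤ (1 - r) * (1 - s₀) := mul_nonneg (by linarith) (by linarith)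
  have hB : 0 ≤ r * (1 - s) := mul_nonneg (by linarith) (by linarith)
  unfold ct10406_edge
  constructor
  · refine div_nonneg ?_ hpos.le
    have := mul_nonneg hA a1
    have := mul_nonneg hB b1
    nlinarith
  · rw [div_le_one hpos]
    unfold cs10406_edge
    have := mul_le_mul_of_nonneg_left a2 hA
    have := mul_le_mul_of_nonneg_left b2 hB
    nlinarith

theorem tp_conv10406_edge {n : ℕ} (y y' v : Eu n) {t₀ t s₀ s s₁ r : ℝ}
    (h0 : s₀ ∈ Icc (0 : ℝ) s₁) (h : s ∈ Icc (0 : ℝ) s₁) (hs₁ : s₁ < 1)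
    (hr : r ∈ Icc (0 : ℝ) 1) :
    tp10406_edge y y' v (ct10406_edge t₀ s₀ t s r) (cs10406_edge s₀ s r) =
      (1 - r) • tp10406_edge y y' v t₀ s₀ + r • tp10406_edge y y' v t s := by
  have hc := cs_mem10406_edge h0 h hr
  have hpos : 0 < 1 - cs10406_edge s₀ s r := by linarith [hc.2]
  have h1 : (1 - cs10406_edge s₀ s r) * ct10406_edge t₀ s₀ t s r =
      (1 - r) * ((1 - s₀) * t₀) + r * ((1 - s) * t) := by
    unfold ct10406_edge
    rw [mul_div_cancel₀ _ hpos.ne']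
  rw [tp_eq10406_edge, tp_eq10406_edge, tp_eq10406_edge, h1]
  unfold cs10406_edge
  module

theorem cs_cont10406_edge (s₀ s : ℝ) : Continuous (cs10406_edge s₀ s) := by
  unfold cs10406_edge
  fun_prop

theorem ct_cont10406_edge {t₀ t s₀ s s₁ : ℝ} (h0 : s₀ ∈ Icc (0 : ℝ) s₁) (h : s ∈ Icc (0 : ℝ) s₁)
    (hs₁ : s₁ < 1) : ContinuousOn (ct10406_edge t₀ s₀ t s) (Icc 0 1) := by
  unfold ct10406_edge
  refine ContinuousOn.div (Continuous.continuousOn (by fun_prop))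
    ((continuous_const.sub (cs_cont10406_edge s₀ s)).continuousOn) ?_
  intro r hr
  have hc := cs_mem10406_edge h0 h hr
  have hpos : 0 < 1 - cs10406_edge s₀ s r := by linarith [hc.2]
  exact hpos.ne'

theorem ct_zero10406_edge {t₀ t s₀ s : ℝ} (hs₀ : s₀ < 1) : ct10406_edge t₀ s₀ t s 0 = t₀ := by
  unfold ct10406_edge cs10406_edge
  have : (1 - s₀) ≠ 0 := by linarith
  simp
  field_simp

theorem ct_one10406_edge {t₀ t s₀ s : ℝ} (hs : s < 1) : ct10406_edge t₀ s₀ t s 1 = t := by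
  unfold ct10406_edge cs10406_edge
  have : (1 - s) ≠ 0 := by linarith
  simp
  field_simp

theorem cs_zero10406_edge (s₀ s : ℝ) : cs10406_edge s₀ s 0 = s₀ := by unfold cs10406_edge; ring

theorem cs_one10406_edge (s₀ s : ℝ) : cs10406_edge s₀ s 1 = s := by unfold cs10406_edge; ring

/-- orthonormal frame of the plane -/
theorem frame10406_edge {n : ℕ} {y y' v : Eu n} {l h : ℝ} (hl : 0 < l) (hh : 0 < h)
    (hyl : l ≤ dist y y') (hv : ∀ t : ℝ, h ≤ dist v (y + t • (y' - y))) :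
    ∃ e₁ e₂ : Eu n, ‖e₁‖ = 1 ∧ ‖e₂‖ = 1 ∧ inner ℝ e₁ e₂ = 0 ∧
      (∀ α β : ℝ, ∃ a b : ℝ, α • e₁ + β • e₂ = a • (y' - y) + b • (v - y)) ∧
      (∀ a b : ℝ, ∃ α β : ℝ, a • (y' - y) + b • (v - y) = α • e₁ + β • e₂) := by
  have he : 0 < ‖y' - y‖ := by
    rw [dist_comm, dist_eq_norm] at hyl
    linarith
  set e₁ : Eu n := ‖y' - y‖⁻¹ • (y' - y) with he₁
  set c : ℝ := inner ℝ e₁ (v - y) with hc
  set g' : Eu n := (v - y) - c • e₁ with hg'
  have hg'n : 0 < ‖g'‖ := by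
    have h1 := hv (c * ‖y' - y‖⁻¹)
    rw [dist_eq_norm] at h1
    have h2 : v - (y + (c * ‖y' - y‖⁻¹) • (y' - y)) = g' := by
      rw [hg', he₁, smul_smul]
      abel
    rw [h2] at h1
    linarith
  have hn1 : ‖e₁‖ = 1 := by
    rw [he₁, norm_smul, norm_inv, norm_norm, inv_mul_cancel₀ he.ne']
  have hortho : inner ℝ e₁ g' = 0 := by
    rw [hg', inner_sub_right, inner_smul_right, real_inner_self_eq_norm_sq, hn1, ← hc]
    ring
  refine ⟨e₁, ‖g'‖⁻¹ • g', hn1, ?_, ?_, ?_, ?_⟩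
  · rw [norm_smul, norm_inv, norm_norm, inv_mul_cancel₀ hg'n.ne']
  · rw [inner_smul_right, hortho, mul_zero]
  · intro α β
    refine ⟨α * ‖y' - y‖⁻¹ - β * ‖g'‖⁻¹ * c * ‖y' - y‖⁻¹, β * ‖g'‖⁻¹, ?_⟩
    rw [hg', he₁]
    module
  · intro a b
    refine ⟨a * ‖y' - y‖ + b * c, b * ‖g'‖, ?_⟩
    have h1 : (b * ‖g'‖) • (‖g'‖⁻¹ • g') = b • g' := by
      rw [smul_smul, mul_assoc, mul_inv_cancel₀ hg'n.ne', mul_one]
    have h2 : (a * ‖y' - y‖ + b * c) • e₁ = a • (y' - y) + (b * c) • e₁ := by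
      rw [add_smul]
      congr 1
      rw [he₁, smul_smul, mul_assoc, mul_inv_cancel₀ he.ne', mul_one]
    rw [h1, h2, hg']
    module

/-- projection to the plane -/
def pr10406_edge {n : ℕ} (e₁ e₂ q : Eu n) : Eu n := (inner ℝ e₁ q : ℝ) • e₁ + (inner ℝ e₂ q : ℝ) • e₂

theorem pr_norm10406_edge {n : ℕ} {e₁ e₂ : Eu n} (h1 : ‖e₁‖ = 1) (h2 : ‖e₂‖ = 1)
    (h12 : inner ℝ e₁ e₂ = 0) (q : Eu n) :
    ‖pr10406_edge e₁ e₂ q‖ ≤ ‖q‖ ∧ ‖q - pr10406_edge e₁ e₂ q‖ ≤ ‖q‖ := by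
  have h21 : inner ℝ e₂ e₁ = (0 : ℝ) := by rw [real_inner_comm]; exact h12
  have hp : ‖pr10406_edge e₁ e₂ q‖ ^ 2 = (inner ℝ e₁ q : ℝ) ^ 2 + (inner ℝ e₂ q : ℝ) ^ 2 := by
    unfold pr10406_edge
    rw [← real_inner_self_eq_norm_sq, inner_add_left, inner_add_right, inner_add_right,
      inner_smul_left, inner_smul_left, inner_smul_left, inner_smul_left, inner_smul_right,
      inner_smul_right, inner_smul_right, inner_smul_right, h12, h21, real_inner_self_eq_norm_sq,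
      real_inner_self_eq_norm_sq, h1, h2]
    simp
    ring
  have hqp : (inner ℝ q (pr10406_edge e₁ e₂ q) : ℝ) = (inner ℝ e₁ q : ℝ) ^ 2 + (inner ℝ e₂ q : ℝ) ^ 2 := by
    unfold pr10406_edge
    rw [inner_add_right, inner_smul_right, inner_smul_right, real_inner_comm e₁ q,
      real_inner_comm e₂ q]
    ring
  have hd : ‖q - pr10406_edge e₁ e₂ q‖ ^ 2 = ‖q‖ ^ 2 - ‖pr10406_edge e₁ e₂ q‖ ^ 2 := by
    rw [norm_sub_sq_real, hqp, hp]
    ring
  have hq := norm_nonneg q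
  constructor
  · refine le_of_sq_le_sq ?_ hq
    have := sq_nonneg ‖q - pr10406_edge e₁ e₂ q‖
    linarith
  · refine le_of_sq_le_sq ?_ hq
    have := sq_nonneg ‖pr10406_edge e₁ e₂ q‖
    linarith

theorem pr_add10406_edge {n : ℕ} (e₁ e₂ q q' : Eu n) :
    pr10406_edge e₁ e₂ (q + q') = pr10406_edge e₁ e₂ q + pr10406_edge e₁ e₂ q' := by
  unfold pr10406_edge
  rw [inner_add_right, inner_add_right]
  module

theorem pr_self10406_edge {n : ℕ} {e₁ e₂ : Eu n} (h1 : ‖e₁‖ = 1) (h2 : ‖e₂‖ = 1)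
    (h12 : inner ℝ e₁ e₂ = 0) (α β : ℝ) :
    pr10406_edge e₁ e₂ (α • e₁ + β • e₂) = α • e₁ + β • e₂ := by
  have h21 : inner ℝ e₂ e₁ = (0 : ℝ) := by rw [real_inner_comm]; exact h12
  unfold pr10406_edge
  rw [inner_add_right, inner_add_right, inner_smul_right, inner_smul_right, inner_smul_right,
    inner_smul_right, h12, h21, real_inner_self_eq_norm_sq, real_inner_self_eq_norm_sq, h1, h2]
  simp

theorem pr_cont10406_edge {n : ℕ} (e₁ e₂ : Eu n) : Continuous (pr10406_edge e₁ e₂) := by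
  unfold pr10406_edge
  fun_prop

/-- local inverse near the starting point -/
theorem binv10406_edge {n : ℕ} (hn : 1 ≤ n) {H K : ℝ} {f : Eu n → Eu n} {x₀ : Eu n}
    (hf : QCOn H K f (ball x₀ (1 / 4))) : 0 < mm f x₀ (1 / 80) ∧
    ∃ b : Eu n → Eu n, ContinuousOn b (ball (f x₀) (mm f x₀ (1 / 80))) ∧
      ∀ z ∈ ball (f x₀) (mm f x₀ (1 / 80)), b z ∈ ball x₀ (1 / 80) ∧ f (b z) = z := by
  have hG : closedBall x₀ (1 / 80) ⊆ ball x₀ (1 / 4) := closedBall_subset_ball (by norm_num)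
  have hm := mm_pos_on hn hf (by norm_num : (0 : ℝ) < 1 / 80) hG
  have hsub := ball_mm_subset_on hn hf (by norm_num : (0 : ℝ) < 1 / 80) hG
  refine ⟨hm, Function.invFunOn f (ball x₀ (1 / 80)), ?_, ?_⟩
  · rw [_root_.continuousOn_iff']
    intro U hU
    refine ⟨f '' (U ∩ ball x₀ (1 / 80)), hf.opn _ ?_ (hU.inter isOpen_ball), ?_⟩
    · intro x hx
      exact ball_subset_ball (by norm_num) hx.2
    · ext z
      constructor
      · rintro ⟨hz1, hz2⟩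
        have h1 := hsub hz2
        exact ⟨⟨_, ⟨hz1, Function.invFunOn_mem h1⟩, Function.invFunOn_eq h1⟩, hz2⟩
      · rintro ⟨⟨x, ⟨hx1, hx2⟩, rfl⟩, hz2⟩
        have h1 := hsub hz2
        refine ⟨?_, hz2⟩
        have h2 : Function.invFunOn f (ball x₀ (1 / 80)) (f x) = x := by
          apply hf.inj (ball_subset_ball (by norm_num) (Function.invFunOn_mem h1))
            (ball_subset_ball (by norm_num) hx2)
          exact Function.invFunOn_eq h1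
        show Function.invFunOn f (ball x₀ (1 / 80)) (f x) ∈ U
        rw [h2]
        exact hx1
  · intro z hz
    have h1 := hsub hz
    exact ⟨Function.invFunOn_mem h1, Function.invFunOn_eq h1⟩

/-- the lifted domain satisfies the working hypothesis -/
theorem qc10406_edge {n : ℕ} {H K A : ℝ} {f : Eu n → Eu n} (hf : LN H K A f)
    {O : Set (Eu n)} {g : Eu n → Eu n} (hO : ∀ z ∈ O, g z ∈ ball (0 : Eu n) A ∧ f (g z) = z)
    (hgO : IsOpen (g '' O)) (hvol : volume O ≠ ⊤) :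
    QCOn H K f (g '' O) ∧ f '' (g '' O) = O ∧ ∀ x ∈ g '' O, g (f x) = x := by
  have hLH := LH_of_LN hf
  have hsub : g '' O ⊆ ball (0 : Eu n) A := by
    rintro _ ⟨z, hz, rfl⟩
    exact (hO z hz).1
  have himg : f '' (g '' O) = O := by
    ext z
    constructor
    · rintro ⟨_, ⟨z', hz', rfl⟩, rfl⟩
      rw [(hO z' hz').2]
      exact hz'
    · intro hz
      exact ⟨g z, ⟨z, hz, rfl⟩, (hO z hz).2⟩
  have hleft : ∀ x ∈ g '' O, g (f x) = x := by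
    rintro _ ⟨z, hz, rfl⟩
    rw [(hO z hz).2]
  refine ⟨⟨hgO, hLH.1.mono hsub, ?_, fun U hU hUo => hLH.2.2 U (hU.trans hsub) hUo, ?_, ?_, ?_, ?_⟩,
    himg, hleft⟩
  · intro x hx x' hx' h
    rw [← hleft x hx, ← hleft x' hx', h]
  · intro x hx
    have h1 := hsub hx
    rw [mem_ball_zero_iff] at h1
    exact (hf x h1.le).rnd x (mem_ball_self (by norm_num))
  · have hcomp : IsCompact (closedBall (0 : Eu n) A) := isCompact_closedBall _ _
    obtain ⟨t, ht1, ht2, ht3⟩ := hcomp.finite_cover_balls (by norm_num : (0 : ℝ) < 1 / 4)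
    have h1 : ∀ᵐ x : Eu n, ∀ c ∈ t, x ∈ ball c (1 / 4) → Rnd K f x := by
      rw [ae_ball_iff ht2.countable]
      intro c hc
      exact (hf c (by simpa using ht1 hc)).rndae
    filter_upwards [h1] with x hx hxG
    have h2 := ht3 (ball_subset_closedBall (hsub hxG))
    rw [mem_iUnion₂] at h2
    obtain ⟨c, hc, hxc⟩ := h2
    exact hx c hc hxc
  · exact ((measure_mono hsub).trans_lt measure_ball_lt_top).ne
  · rw [himg]
    exact hvol

/-- energy of the logarithm of the lift -/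
theorem energy10406_edge {n : ℕ} (hn : 2 ≤ n) {H K A : ℝ} (hH : 1 ≤ H) (hK : 1 ≤ K) (hA : 6 ≤ A)
    {f : Eu n → Eu n} (hf : LN H K A f) {O : Set (Eu n)} (hOo : IsOpen O) {g : Eu n → Eu n}
    (hO : ∀ z ∈ O, g z ∈ ball (0 : Eu n) A ∧ f (g z) = z)
    (hgO : IsOpen (g '' O)) (hvol : volume O ≠ ⊤) :
    ∃ ℓ : Eu n → ℝ≥0∞, Measurable ℓ ∧ UGOn (fun z => cl 4 (A - 1) ‖g z‖) ℓ O ∧
      ∫⁻ z in O, ℓ z ^ n ≤ ENNReal.ofReal (K ^ n * (n * Real.log ((A - 1) / 4))) * vb n := by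
  obtain ⟨hqc, himg, hleft⟩ := qc10406_edge hf hO hgO hvol
  have hA1 : (4 : ℝ) < A - 1 := by linarith
  set σ : Eu n → ℝ≥0∞ := fun x =>
    if 4 ≤ dist x 0 ∧ dist x 0 ≤ A - 1 then ENNReal.ofReal (1 / dist x 0) else 0 with hσ
  have hσm : Measurable σ := by
    have hm1 : Measurable (fun x : Eu n => dist x 0) := (continuous_id.dist continuous_const).measurable
    refine Measurable.ite ?_ ?_ measurable_const
    · exact (measurableSet_le measurable_const hm1).inter (measurableSet_le hm1 measurable_const)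
    · exact (measurable_const.div hm1).ennreal_ofReal
  have hlip : LipschitzWith (1 / 4 : ℝ≥0) (fun x : Eu n => cl 4 (A - 1) ‖x‖) := by
    refine LipschitzWith.of_dist_le_mul fun x x' => ?_
    rw [Real.dist_eq]
    have h1 := cl_lip (by norm_num : (0 : ℝ) < 4) hA1 (norm_nonneg x') (norm_nonneg x)
    refine h1.trans ?_
    have h2 : |‖x‖ - ‖x'‖| ≤ dist x x' := by
      rw [dist_eq_norm]
      exact abs_norm_sub_norm_le x x'
    push_cast
    exact mul_le_mul_of_nonneg_left h2 (by norm_num)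
  have hloc : LocBd (fun x : Eu n => cl 4 (A - 1) ‖x‖) σ := by
    intro x c hc
    have hif : (if (4 : ℝ) ≤ ‖x‖ ∧ ‖x‖ ≤ A - 1 then 1 / ‖x‖ else 0) < c ∧ 0 < c := by
      have hd : dist x 0 = ‖x‖ := dist_zero_right x
      simp only [hσ, hd] at hc
      have hc0 : 0 < c := by
        by_contra hcon
        push Not at hcon
        rw [ENNReal.ofReal_of_nonpos hcon] at hc
        exact not_lt_bot hc
      refine ⟨?_, hc0⟩
      split_ifs at hc ⊢ with h1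
      · exact (ENNReal.ofReal_lt_ofReal_iff hc0).mp hc
      · exact hc0
    obtain ⟨δ, hδ, h1⟩ := cl_local (by norm_num : (0 : ℝ) < 4) hA1 (norm_nonneg x) c hif.1
    refine ⟨δ, hδ, fun x' hx' => ?_⟩
    have h2 : |‖x'‖ - ‖x‖| ≤ dist x' x := by
      rw [dist_eq_norm]
      exact abs_norm_sub_norm_le x' x
    refine (h1 ‖x'‖ (norm_nonneg _) (h2.trans_lt hx')).trans ?_
    exact mul_le_mul_of_nonneg_left h2 hif.2.le
  obtain ⟨ℓ, hℓ1, hℓ2, hℓ3⟩ := inv_ug_on hn hH hK hqc hleft hlip hσm hloc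
  rw [himg] at hℓ2 hℓ3
  refine ⟨ℓ, hℓ1, hℓ2, ?_⟩
  refine (hℓ3 O hOo.measurableSet le_rfl).trans ?_
  have h1 := lintegral_ring (show 1 ≤ n by omega) (0 : Eu n) (by norm_num : (0 : ℝ) < 4) hA1
  have hK0 : (0 : ℝ) ≤ K ^ n := by positivity
  rw [ENNReal.ofReal_mul hK0, mul_assoc]
  refine mul_le_mul_right ?_ _
  exact (lintegral_mono' Measure.restrict_le_self le_rfl).trans h1


theorem coef10406_edge {n : ℕ} {e₁ e₂ : Eu n} (h1 : ‖e₁‖ = 1) (h2 : ‖e₂‖ = 1)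
    (h12 : inner ℝ e₁ e₂ = 0) (α β : ℝ) :
    |α| ≤ ‖α • e₁ + β • e₂‖ ∧ |β| ≤ ‖α • e₁ + β • e₂‖ := by
  have h21 : inner ℝ e₂ e₁ = (0 : ℝ) := by rw [real_inner_comm]; exact h12
  constructor
  · have h := abs_real_inner_le_norm e₁ (α • e₁ + β • e₂)
    rw [inner_add_right, inner_smul_right, inner_smul_right, h12, real_inner_self_eq_norm_sq, h1] at h
    simpa using h
  · have h := abs_real_inner_le_norm e₂ (α • e₁ + β • e₂)
    rw [inner_add_right, inner_smul_right, inner_smul_right, h21, real_inner_self_eq_norm_sq, h2] at h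
    simpa using h

theorem tp_dist10406_edge {n : ℕ} {y y' v : Eu n} {D : ℝ} (hD1 : dist v y ≤ D) (hD2 : dist v y' ≤ D)
    {t s : ℝ} (ht : t ∈ Icc (0 : ℝ) 1) (hs : s ∈ Icc (0 : ℝ) 1) :
    dist (tp10406_edge y y' v t s) v ≤ D := by
  have hD0 : 0 ≤ D := dist_nonneg.trans hD1
  rw [dist_comm, dist_eq_norm] at hD1 hD2
  rw [dist_eq_norm]
  have h1 : tp10406_edge y y' v t s - v = (1 - s) • ((1 - t) • (y - v) + t • (y' - v)) := by
    unfold tp10406_edge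
    module
  have h2 : ‖(1 - t) • (y - v) + t • (y' - v)‖ ≤ D := by
    refine (norm_add_le _ _).trans ?_
    rw [norm_smul, norm_smul, Real.norm_eq_abs, Real.norm_eq_abs,
      abs_of_nonneg (sub_nonneg.mpr ht.2), abs_of_nonneg ht.1]
    have h3 := mul_le_mul_of_nonneg_left hD1 (sub_nonneg.mpr ht.2)
    have h4 := mul_le_mul_of_nonneg_left hD2 ht.1
    linarith
  rw [h1, norm_smul, Real.norm_eq_abs, abs_of_nonneg (sub_nonneg.mpr hs.2)]
  have h5 := mul_le_mul_of_nonneg_left h2 (sub_nonneg.mpr hs.2)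
  have h6 := mul_nonneg hs.1 hD0
  linarith

theorem tp_near10406_edge {n : ℕ} {y y' v : Eu n} {D m θ : ℝ} (hyy : dist y' y ≤ m / 10)
    (hD1 : dist v y ≤ D) {t s : ℝ} (ht : t ∈ Icc (0 : ℝ) 1) (hs : s ∈ Icc (0 : ℝ) 1)
    (hθs : s ≤ 2 * θ) (hθD : θ * D ≤ m / 20) : ‖tp10406_edge y y' v t s - y‖ ≤ m / 10 + m / 10 := by
  have hD0 : 0 ≤ D := dist_nonneg.trans hD1
  rw [dist_eq_norm] at hD1 hyy
  have h1 : tp10406_edge y y' v t s - y = ((1 - s) * t) • (y' - y) + s • (v - y) := by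
    rw [tp_eq10406_edge]
    abel
  rw [h1]
  refine (norm_add_le _ _).trans ?_
  have h01 : 0 ≤ (1 - s) * t := mul_nonneg (sub_nonneg.mpr hs.2) ht.1
  have h02 : (1 - s) * t ≤ 1 := by
    have := mul_le_mul_of_nonneg_left ht.2 (sub_nonneg.mpr hs.2)
    linarith [hs.1]
  rw [norm_smul, norm_smul, Real.norm_eq_abs, Real.norm_eq_abs, abs_of_nonneg h01,
    abs_of_nonneg hs.1]
  have h3 : (1 - s) * t * ‖y' - y‖ ≤ 1 * (m / 10) :=
    mul_le_mul h02 hyy (norm_nonneg _) zero_le_one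
  have h4 : s * ‖v - y‖ ≤ (2 * θ) * D := mul_le_mul hθs hD1 (norm_nonneg _) (hs.1.trans hθs)
  linarith

/-- the lifts over the triangle stay in the domain -/
theorem key10406_edge {n : ℕ} {H K A : ℝ} (hA : 6 ≤ A)
    {f : Eu n → Eu n} (hLH : LH A f) {x₀ : Eu n} (hx₀ : ‖x₀‖ ≤ 2)
    (hQ0 : QCOn H K f (ball x₀ (1 / 4)))
    {y y' v : Eu n} {m l h D θ cq : ℝ} (hmpos : 0 < m) (hyy : dist y' y ≤ m / 10)
    (hl : 0 < l) (hh : 0 < h) (hθ : 0 < θ) (hθ2 : θ ≤ 1 / 2) (hyl : l ≤ dist y y')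
    (hv : ∀ t : ℝ, h ≤ dist v (y + t • (y' - y))) (hD1 : dist v y ≤ D) (hD2 : dist v y' ≤ D)
    (hD : 0 < D)
    (hθD : θ * D ≤ m / 20) (hcqm : cq ≤ m / 20) (hcqD : cq ≤ D)
    (hcqρ : cq ≤ min (θ * h) (l * h / (8 * D)))
    {b : Eu n → Eu n} (hbc : ContinuousOn b (ball y m))
    (hb : ∀ z ∈ ball y m, b z ∈ ball x₀ (1 / 80) ∧ f (b z) = z)
    {e₁ e₂ : Eu n} (he1 : ‖e₁‖ = 1) (he2 : ‖e₂‖ = 1) (he12 : inner ℝ e₁ e₂ = 0)
    (hfr1 : ∀ α β : ℝ, ∃ a b : ℝ, α • e₁ + β • e₂ = a • (y' - y) + b • (v - y))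
    (hfr2 : ∀ a b : ℝ, ∃ α β : ℝ, a • (y' - y) + b • (v - y) = α • e₁ + β • e₂)
    {a : Eu n} (ha : a = (1 - θ) • ((1 / 2 : ℝ) • (y + y')) + θ • v)
    {Z O : Set (Eu n)} (hZ : Z = {z | ‖(z - a) - pr10406_edge e₁ e₂ (z - a)‖ < cq} ∩ ball a (4 * D))
    {g : Eu n → Eu n}
    (hlift : ∀ z ∈ Z, ∀ α : ℝ → Eu n, ContinuousOn α (Icc 0 1) →
      α 0 = b (a + ((z - a) - pr10406_edge e₁ e₂ (z - a))) →
        (∀ s ∈ Icc (0 : ℝ) 1, α s ∈ ball (0 : Eu n) A ∧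
          f (α s) = (1 - s) • (a + ((z - a) - pr10406_edge e₁ e₂ (z - a))) + s • z) →
        z ∈ O ∧ g z = α 1)
    {q : Eu n} (hq : ‖q‖ < cq) {s₁ : ℝ} (hs₁ : s₁ ∈ Ioo (0 : ℝ) 1) {Φ : ℝ → ℝ → Eu n}
    (hΦ : ContinuousOn (fun p : ℝ × ℝ => Φ p.1 p.2) (Icc 0 1 ×ˢ Icc 0 s₁))
    (hΦ0 : ∀ t ∈ Icc (0 : ℝ) 1, Φ t 0 ∈ ball x₀ (1 / 80))
    (hΦf : ∀ t ∈ Icc (0 : ℝ) 1, ∀ s ∈ Icc (0 : ℝ) s₁, Φ t s ∈ ball (0 : Eu n) A ∧
        f (Φ t s) = tp10406_edge y y' v t s + q)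
    (hΦ1 : ∃ t ∈ Icc (0 : ℝ) 1, A - 1 < ‖Φ t s₁‖) :
    2 * θ < s₁ ∧ (∀ t ∈ Icc (0 : ℝ) 1, ∀ s ∈ Icc (0 : ℝ) (2 * θ), Φ t s ∈ ball x₀ (1 / 80)) ∧
      ∀ t ∈ Icc (0 : ℝ) 1, ∀ s ∈ Icc (0 : ℝ) s₁, tp10406_edge y y' v t s + q ∈ O ∧
        g (tp10406_edge y y' v t s + q) = Φ t s := by
  have hballA : ∀ x ∈ ball x₀ (1 / 80), x ∈ ball (0 : Eu n) A ∧ ‖x‖ < 2 + 1 / 80 := by
    intro x hx
    rw [mem_ball, dist_eq_norm] at hx
    have h1 : ‖x‖ ≤ ‖x - x₀‖ + ‖x₀‖ := norm_le_norm_sub_add x x₀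
    have h2 : ‖x‖ < 2 + 1 / 80 := by linarith
    refine ⟨?_, h2⟩
    rw [mem_ball_zero_iff]
    linarith
  have hsub14 : ball x₀ (1 / 80) ⊆ ball x₀ (1 / 4) := ball_subset_ball (by norm_num)
  have htpc : ∀ t : ℝ, Continuous (fun s => tp10406_edge y y' v t s + q) := by
    intro t
    unfold tp10406_edge
    fun_prop
  have h3a : ∀ t ∈ Icc (0 : ℝ) 1, ∀ s ∈ Icc (0 : ℝ) (min s₁ (2 * θ)), Φ t s ∈ ball x₀ (1 / 80) := by
    intro t ht s hs
    have hmin1 : min s₁ (2 * θ) ≤ s₁ := min_le_left _ _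
    have hmin2 : min s₁ (2 * θ) ≤ 2 * θ := min_le_right _ _
    have hmin0 : 0 ≤ min s₁ (2 * θ) := hs.1.trans hs.2
    have hball : ∀ s ∈ Icc (0 : ℝ) (min s₁ (2 * θ)), tp10406_edge y y' v t s + q ∈ ball y m := by
      intro s hs
      rw [mem_ball, dist_eq_norm]
      have h1 := tp_near10406_edge hyy hD1 ht ⟨hs.1, (hs.2.trans hmin1).trans hs₁.2.le⟩
        (hs.2.trans hmin2) hθD
      have h2 : tp10406_edge y y' v t s + q - y = (tp10406_edge y y' v t s - y) + q := by abel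
      rw [h2]
      have h3 := norm_add_le (tp10406_edge y y' v t s - y) q
      linarith
    have hΦt : ContinuousOn (fun s => Φ t s) (Icc 0 (min s₁ (2 * θ))) := by
      refine hΦ.comp (Continuous.continuousOn (by fun_prop : Continuous fun s : ℝ => (t, s))) ?_
      intro s hs
      exact ⟨ht, hs.1, hs.2.trans hmin1⟩
    have hbt : ContinuousOn (fun s => b (tp10406_edge y y' v t s + q)) (Icc 0 (min s₁ (2 * θ))) :=
      hbc.comp (htpc t).continuousOn hball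
    have h0mem : (0 : ℝ) ∈ Icc (0 : ℝ) (min s₁ (2 * θ)) := ⟨le_rfl, hmin0⟩
    have heq := unique_lift hLH (isPreconnected_Icc : IsPreconnected (Icc (0 : ℝ) (min s₁ (2 * θ))))
      hΦt hbt (fun s hs => (hΦf t ht s ⟨hs.1, hs.2.trans hmin1⟩).1)
      (fun s hs => (hballA _ (hb _ (hball s hs)).1).1)
      (fun s hs => by
        rw [(hΦf t ht s ⟨hs.1, hs.2.trans hmin1⟩).2, (hb _ (hball s hs)).2])
      h0mem (by
        apply hQ0.inj (hsub14 (hΦ0 t ht)) (hsub14 (hb _ (hball 0 h0mem)).1)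
        rw [(hΦf t ht 0 ⟨le_rfl, hs₁.1.le⟩).2, (hb _ (hball 0 h0mem)).2]) s hs
    rw [heq]
    exact (hb _ (hball s hs)).1
  have hθs₁ : 2 * θ < s₁ := by
    by_contra hcon
    push Not at hcon
    obtain ⟨t, ht, ht1⟩ := hΦ1
    have h1 := h3a t ht s₁ ⟨hs₁.1.le, by rw [min_eq_left hcon]⟩
    have h2 := (hballA _ h1).2
    linarith
  have hmin : min s₁ (2 * θ) = 2 * θ := min_eq_right hθs₁.le
  rw [hmin] at h3a
  refine ⟨hθs₁, h3a, fun t ht s hs => ?_⟩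
  have ha2 : a = tp10406_edge y y' v (1 / 2) θ := by
    rw [ha]
    unfold tp10406_edge
    norm_num
  have hprn := pr_norm10406_edge he1 he2 he12 q
  obtain ⟨c1, c2, hc12⟩ := hfr1 (-(inner ℝ e₁ q : ℝ)) (-(inner ℝ e₂ q : ℝ))
  have hw' : -(pr10406_edge e₁ e₂ q) = c1 • (y' - y) + c2 • (v - y) := by
    rw [← hc12]
    unfold pr10406_edge
    module
  obtain ⟨t₀, ht₀, s₀, hs₀, htri⟩ := tri hl hh hθ hθ2 hyl hv hD1 hD2 (-(pr10406_edge e₁ e₂ q))
    ⟨c1, c2, hw'⟩ (by rw [norm_neg]; linarith [hprn.1])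
  rw [← ha] at htri
  have htri' : a + -(pr10406_edge e₁ e₂ q) = tp10406_edge y y' v t₀ s₀ := htri
  obtain ⟨d1, d2, hd12⟩ := hfr2 ((1 - s) * t - (1 - θ) * (1 / 2)) (s - θ)
  have hc' : tp10406_edge y y' v t s - a = d1 • e₁ + d2 • e₂ := by
    rw [← hd12, ha2, tp_eq10406_edge, tp_eq10406_edge]
    module
  have hz : (tp10406_edge y y' v t s + q - a) - pr10406_edge e₁ e₂ (tp10406_edge y y' v t s + q - a) =
      q - pr10406_edge e₁ e₂ q := by
    have h1 : tp10406_edge y y' v t s + q - a = (d1 • e₁ + d2 • e₂) + q := by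
      rw [← hc']
      abel
    rw [h1, pr_add10406_edge, pr_self10406_edge he1 he2 he12]
    abel
  have hπz : a + ((tp10406_edge y y' v t s + q - a) - pr10406_edge e₁ e₂ (tp10406_edge y y' v t s + q - a)) =
      tp10406_edge y y' v t₀ s₀ + q := by
    rw [hz, ← htri']
    abel
  have hsle : s ∈ Icc (0 : ℝ) 1 := ⟨hs.1, hs.2.trans hs₁.2.le⟩
  have hzZ : tp10406_edge y y' v t s + q ∈ Z := by
    rw [hZ]
    refine ⟨?_, ?_⟩
    · show ‖_‖ < cq
      rw [hz]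
      linarith [hprn.2]
    · rw [mem_ball]
      have h1 := tp_dist10406_edge hD1 hD2 ht hsle
      have h2 := tp_dist10406_edge hD1 hD2 (t := 1 / 2) (s := θ) ⟨by norm_num, by norm_num⟩
        ⟨hθ.le, by linarith⟩
      rw [← ha2] at h2
      have h3 : dist (tp10406_edge y y' v t s + q) a ≤ dist (tp10406_edge y y' v t s + q) (tp10406_edge y y' v t s)
          + dist (tp10406_edge y y' v t s) v + dist v a := by
        refine (dist_triangle _ v _).trans ?_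
        have := dist_triangle (tp10406_edge y y' v t s + q) (tp10406_edge y y' v t s) v
        linarith
      have h4 : dist (tp10406_edge y y' v t s + q) (tp10406_edge y y' v t s) = ‖q‖ := by
        rw [dist_eq_norm, add_sub_cancel_left]
      rw [dist_comm a v] at h2
      rw [h4] at h3
      linarith
  have hs₀1 : s₀ ∈ Icc (0 : ℝ) s₁ := ⟨hs₀.1, hs₀.2.trans hθs₁.le⟩
  have hs₀lt : s₀ < 1 := lt_of_le_of_lt hs₀1.2 hs₁.2
  have hslt : s < 1 := lt_of_le_of_lt hs.2 hs₁.2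
  have hres := hlift (tp10406_edge y y' v t s + q) hzZ
    (fun r => Φ (ct10406_edge t₀ s₀ t s r) (cs10406_edge s₀ s r)) ?_ ?_ ?_
  · refine ⟨hres.1, ?_⟩
    rw [hres.2, ct_one10406_edge hslt, cs_one10406_edge]
  · refine hΦ.comp (ContinuousOn.prodMk (ct_cont10406_edge hs₀1 hs hs₁.2)
      (cs_cont10406_edge s₀ s).continuousOn) ?_
    intro r hr
    exact ⟨ct_mem10406_edge ht₀ ht hs₀1 hs hs₁.2 hr, cs_mem10406_edge hs₀1 hs hr⟩
  · rw [ct_zero10406_edge hs₀lt, cs_zero10406_edge, hπz]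
    have hmem : tp10406_edge y y' v t₀ s₀ + q ∈ ball y m := by
      rw [mem_ball, dist_eq_norm]
      have h1 := tp_near10406_edge hyy hD1 ht₀ ⟨hs₀.1, hs₀lt.le⟩ hs₀.2 hθD
      have h2 : tp10406_edge y y' v t₀ s₀ + q - y = (tp10406_edge y y' v t₀ s₀ - y) + q := by abel
      rw [h2]
      have h3 := norm_add_le (tp10406_edge y y' v t₀ s₀ - y) q
      linarith
    apply hQ0.inj (hsub14 (h3a t₀ ht₀ s₀ hs₀)) (hsub14 (hb _ hmem).1)
    rw [(hΦf t₀ ht₀ s₀ hs₀1).2, (hb _ hmem).2]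
  · intro r hr
    have h1 := hΦf _ (ct_mem10406_edge ht₀ ht hs₀1 hs hs₁.2 hr) _ (cs_mem10406_edge hs₀1 hs hr)
    refine ⟨h1.1, ?_⟩
    rw [h1.2, tp_conv10406_edge y y' v hs₀1 hs hs₁.2 hr, hπz]
    module

/-- the key estimate for one edge `[y, y']` of the polygon, apex `v`. -/
theorem edge_est {n : ℕ} (hn : 3 ≤ n) {H K A : ℝ} (hH : 1 ≤ H) (hK : 1 ≤ K) (hA : 6 ≤ A)
    {f : Eu n → Eu n} (hf : LN H K A f) {x₀ : Eu n} (hx₀ : ‖x₀‖ ≤ 2) {y y' v : Eu n} (hy : y = f x₀)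
    {m l h D θ cq lam : ℝ} (hm : m = mm f x₀ (1 / 80)) (hyy : dist y' y ≤ m / 10)
    (hl : 0 < l) (hh : 0 < h) (hθ : 0 < θ) (hθ2 : θ ≤ 1 / 2) (hyl : l ≤ dist y y')
    (hv : ∀ t : ℝ, h ≤ dist v (y + t • (y' - y))) (hD1 : dist v y ≤ D) (hD2 : dist v y' ≤ D)
    (hθD : θ * D ≤ m / 20) (hcq : 0 < cq) (hcqm : cq ≤ m / 20) (hlam : 0 < lam)
    (hcqρ : 4 * cq ≤ min (θ * h) (l * h / (8 * D))) (hlamρ : 4 * lam ≤ min (θ * h) (l * h / (8 * D)))
    (F : Set (Eu n))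
    (hF : ∀ q ∈ F, ‖q‖ < cq ∧ ∃ s₁ ∈ Ioo (0 : ℝ) 1, ∃ Φ : ℝ → ℝ → Eu n,
      ContinuousOn (fun p : ℝ × ℝ => Φ p.1 p.2) (Icc 0 1 ×ˢ Icc 0 s₁) ∧
      (∀ t ∈ Icc (0 : ℝ) 1, Φ t 0 ∈ ball x₀ (1 / 80)) ∧
      (∀ t ∈ Icc (0 : ℝ) 1, ∀ s ∈ Icc (0 : ℝ) s₁, Φ t s ∈ ball (0 : Eu n) A ∧
        f (Φ t s) = (1 - s) • ((1 - t) • y + t • y') + s • v + q) ∧
      ∃ t ∈ Icc (0 : ℝ) 1, A - 1 < ‖Φ t s₁‖) :
    ENNReal.ofReal ((Real.log ((A - 1) / 4) / (12 * (3 * D))) ^ n * lam ^ 2) * volume F ≤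
      ENNReal.ofReal (4 * (3 * D) ^ 2) *
        (ENNReal.ofReal (K ^ n * (n * Real.log ((A - 1) / 4))) * vb n) := by
  have hn1 : 1 ≤ n := by omega
  have hn2 : 2 ≤ n := by omega
  have hLH := LH_of_LN hf
  have hQ0 : QCOn H K f (ball x₀ (1 / 4)) := hf x₀ (by linarith)
  obtain ⟨hmpos, b, hbc, hb⟩ := binv10406_edge hn1 hQ0
  rw [← hm] at hmpos
  rw [← hy, ← hm] at hbc hb
  have hhD : h ≤ D := by
    have h1 := hv 0
    rw [zero_smul, add_zero] at h1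
    exact h1.trans hD1
  have hD : 0 < D := lt_of_lt_of_le hh hhD
  have hρ1 : min (θ * h) (l * h / (8 * D)) ≤ θ * h := min_le_left _ _
  have hθhD : θ * h ≤ D / 2 := by nlinarith
  have hcqD : cq ≤ D := by linarith
  have hlamD : lam ≤ D := by linarith
  obtain ⟨e₁, e₂, he1, he2, he12, hfr1, hfr2⟩ := frame10406_edge hl hh hyl hv
  obtain ⟨a, ha⟩ : ∃ a : Eu n, a = (1 - θ) • ((1 / 2 : ℝ) • (y + y')) + θ • v := ⟨_, rfl⟩
  have ha2 : a = tp10406_edge y y' v (1 / 2) θ := by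
    rw [ha]
    unfold tp10406_edge
    norm_num
  have hay : ‖a - y‖ ≤ m / 10 := by
    have h1 : a - y = ((1 - θ) / 2) • (y' - y) + θ • (v - y) := by
      rw [ha]
      module
    rw [h1]
    refine (norm_add_le _ _).trans ?_
    have hD1' := hD1
    have hyy' := hyy
    rw [dist_eq_norm] at hD1' hyy'
    rw [norm_smul, norm_smul, Real.norm_eq_abs, Real.norm_eq_abs,
      abs_of_nonneg (by linarith : 0 ≤ (1 - θ) / 2), abs_of_nonneg hθ.le]
    have h2 : (1 - θ) / 2 * ‖y' - y‖ ≤ 1 / 2 * (m / 10) :=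
      mul_le_mul (by linarith) hyy' (norm_nonneg _) (by norm_num)
    have h3 : θ * ‖v - y‖ ≤ θ * D := mul_le_mul_of_nonneg_left hD1' hθ.le
    linarith
  obtain ⟨Z, hZ⟩ : ∃ Z : Set (Eu n),
    Z = {z | ‖(z - a) - pr10406_edge e₁ e₂ (z - a)‖ < cq} ∩ ball a (4 * D) := ⟨_, rfl⟩
  have hprc : Continuous (fun z : Eu n => (z - a) - pr10406_edge e₁ e₂ (z - a)) :=
    (continuous_id.sub continuous_const).sub
      ((pr_cont10406_edge e₁ e₂).comp (continuous_id.sub continuous_const))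
  have hZo : IsOpen Z := by
    rw [hZ]
    exact (isOpen_lt hprc.norm continuous_const).inter isOpen_ball
  have hπc : Continuous (fun z : Eu n => a + ((z - a) - pr10406_edge e₁ e₂ (z - a))) :=
    continuous_const.add hprc
  have hπball : ∀ z ∈ Z, a + ((z - a) - pr10406_edge e₁ e₂ (z - a)) ∈ ball y m := by
    intro z hz
    rw [hZ] at hz
    have h1 : ‖(z - a) - pr10406_edge e₁ e₂ (z - a)‖ < cq := hz.1
    rw [mem_ball, dist_eq_norm]
    have h2 : a + ((z - a) - pr10406_edge e₁ e₂ (z - a)) - y =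
        (a - y) + ((z - a) - pr10406_edge e₁ e₂ (z - a)) := by abel
    rw [h2]
    have h3 := norm_add_le (a - y) ((z - a) - pr10406_edge e₁ e₂ (z - a))
    linarith
  have hballA : ∀ x ∈ ball x₀ (1 / 80), x ∈ ball (0 : Eu n) A ∧ ‖x‖ < 2 + 1 / 80 := by
    intro x hx
    rw [mem_ball, dist_eq_norm] at hx
    have h1 : ‖x‖ ≤ ‖x - x₀‖ + ‖x₀‖ := norm_le_norm_sub_add x x₀
    have h2 : ‖x‖ < 2 + 1 / 80 := by linarith
    refine ⟨?_, h2⟩
    rw [mem_ball_zero_iff]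
    linarith
  obtain ⟨O, g, hOo, hOZ, hgc, hgO, hgOo, hlift⟩ := lift_domain hn1 hLH hZo hπc
    (β := fun z => b (a + ((z - a) - pr10406_edge e₁ e₂ (z - a))))
    (hbc.comp hπc.continuousOn hπball) (fun z hz => (hballA _ (hb _ (hπball z hz)).1).1)
    (fun z hz => (hb _ (hπball z hz)).2)
  have hvolO : volume O ≠ ⊤ := by
    have h1 : O ⊆ ball a (4 * D) := by
      rw [hZ] at hOZ
      exact hOZ.trans inter_subset_right
    exact ((measure_mono h1).trans_lt measure_ball_lt_top).ne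
  obtain ⟨ℓ, hℓm, hℓug, hℓint⟩ := energy10406_edge hn2 hH hK hA hf hOo hgO hgOo hvolO
  have hA1 : (4 : ℝ) < A - 1 := by linarith
  have hwc : ContinuousOn (fun z => cl 4 (A - 1) ‖g z‖) O :=
    (cl_continuous (by norm_num) hA1).comp hgc.norm (fun z _ => norm_nonneg _)
  have hT : 0 < Real.log ((A - 1) / 4) := by
    apply Real.log_pos
    rw [lt_div_iff₀ (by norm_num)]
    linarith
  have hslice := slice_est hn he1 he2 he12 hOo hwc hℓm hℓug
    (F := (fun q => a + q) '' F) (D := 3 * D) (lam := lam) (T := Real.log ((A - 1) / 4))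
    hlam (by linarith) hT ?_
  · have hvol : volume ((fun q => a + q) '' F) = volume F := by
      rw [Set.image_add_left, measure_preimage_add]
    rw [hvol] at hslice
    refine hslice.trans ?_
    exact mul_le_mul_right hℓint _
  · rintro _ ⟨q, hqF, rfl⟩
    obtain ⟨hq, s₁, hs₁, Φ, hΦ, hΦ0, hΦf, hΦ1⟩ := hF q hqF
    obtain ⟨hθs₁, hsmall, hall⟩ := key10406_edge hA hLH hx₀ hQ0 hmpos hyy hl hh hθ hθ2 hyl hv hD1 hD2 hD
      hθD hcqm hcqD (by linarith) hbc hb he1 he2 he12 hfr1 hfr2 ha hZ hlift hq hs₁ hΦ hΦ0 hΦf hΦ1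
    obtain ⟨ts, hts, htsA⟩ := hΦ1
    have hs₁mem : s₁ ∈ Icc (0 : ℝ) s₁ := ⟨hs₁.1.le, le_rfl⟩
    obtain ⟨ζ₁, ζ₂, hζ⟩ := hfr2 ((1 - s₁) * ts - (1 - θ) * (1 / 2)) (s₁ - θ)
    have hζa : tp10406_edge y y' v ts s₁ = a + (ζ₁ • e₁ + ζ₂ • e₂) := by
      rw [← hζ, ha2, tp_eq10406_edge, tp_eq10406_edge]
      module
    have hζn : ‖ζ₁ • e₁ + ζ₂ • e₂‖ ≤ 2 * D := by
      have h1 : ζ₁ • e₁ + ζ₂ • e₂ = tp10406_edge y y' v ts s₁ - a := by
        rw [hζa]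
        abel
      rw [h1, ← dist_eq_norm]
      have h2 := tp_dist10406_edge hD1 hD2 hts ⟨hs₁.1.le, hs₁.2.le⟩
      have h3 := tp_dist10406_edge hD1 hD2 (t := 1 / 2) (s := θ) ⟨by norm_num, by norm_num⟩
        ⟨hθ.le, by linarith⟩
      rw [← ha2, dist_comm a v] at h3
      have h4 := dist_triangle (tp10406_edge y y' v ts s₁) v a
      linarith
    have hcoef := coef10406_edge he1 he2 he12 ζ₁ ζ₂
    have hsq : ∀ α₁ α₂ : ℝ, |α₁| ≤ lam → |α₂| ≤ lam → ∃ t ∈ Icc (0 : ℝ) 1,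
        ∃ s ∈ Icc (0 : ℝ) (2 * θ), a + (α₁ • e₁ + α₂ • e₂) = tp10406_edge y y' v t s := by
      intro α₁ α₂ h1 h2
      obtain ⟨t, ht, s, hs, h3⟩ := tri hl hh hθ hθ2 hyl hv hD1 hD2 (α₁ • e₁ + α₂ • e₂)
        (hfr1 α₁ α₂) (by
          refine (norm_add_le _ _).trans ?_
          rw [norm_smul, norm_smul, he1, he2, Real.norm_eq_abs, Real.norm_eq_abs]
          linarith)
      rw [← ha] at h3
      exact ⟨t, ht, s, hs, h3⟩
    refine ⟨ζ₁, ζ₂, by linarith [hcoef.1], by linarith [hcoef.2], ?_, ?_, ?_⟩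
    · have h1 : a + q + ζ₁ • e₁ + ζ₂ • e₂ = tp10406_edge y y' v ts s₁ + q := by
        rw [hζa]
        abel
      rw [h1, (hall ts hts s₁ hs₁mem).2]
      exact cl_of_ge (by norm_num) hA1 htsA.le
    · intro α₁ α₂ h1 h2
      obtain ⟨t, ht, s, hs, h3⟩ := hsq α₁ α₂ h1 h2
      have h4 : a + q + α₁ • e₁ + α₂ • e₂ = tp10406_edge y y' v t s + q := by
        rw [← h3]
        abel
      rw [h4, (hall t ht s ⟨hs.1, hs.2.trans hθs₁.le⟩).2]
      have h5 := (hballA _ (hsmall t ht s hs)).2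
      exact cl_of_le (by norm_num) hA1 (norm_nonneg _) (by linarith)
    · intro α₁ α₂ r h1 h2 hr0 hr1
      obtain ⟨t, ht, s, hs, h3⟩ := hsq α₁ α₂ h1 h2
      have hs' : s ∈ Icc (0 : ℝ) s₁ := ⟨hs.1, hs.2.trans hθs₁.le⟩
      have hr : r ∈ Icc (0 : ℝ) 1 := ⟨hr0, hr1⟩
      have h4 : a + q + ((1 - r) * α₁ + r * ζ₁) • e₁ + ((1 - r) * α₂ + r * ζ₂) • e₂ =
          tp10406_edge y y' v (ct10406_edge t s ts s₁ r) (cs10406_edge s s₁ r) + q := by
        rw [tp_conv10406_edge y y' v hs' hs₁mem hs₁.2 hr, ← h3, hζa]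
        module
      rw [h4]
      exact (hall _ (ct_mem10406_edge ht hts hs' hs₁mem hs₁.2 hr) _ (cs_mem10406_edge hs' hs₁mem hr)).1

end

end Pool.Agent.Helper746.Qc
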