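import Mathlib
import Pool.Agent.Helper746.QcDefs
import Pool.Agent.Helper746.QcLDefs
import Pool.Agent.Helper746.QcNDefs
import Pool.Agent.Helper746.QcLmm

set_option autoImplicit false

namespace Pool.Agent.Helper746.Qc

open Set Metric MeasureTheory Filter Topology
open scoped ENNReal NNReal

noncomputable section

theorem fact1_834_equi {n : ℕ} (hn : 1 ≤ n) {H K A C : ℝ} {f : Eu n → Eu n} (hLN : LN H K A f)
    (hW : WQS C A f) {y a : Eu n} (hy : ‖y‖ ≤ A) {r : ℝ} (hr : r ≤ 1 / 80) (ha : dist a y = r) :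
    dist (f a) (f y) ≤ C * mm f y r := by
  have hr0 : 0 ≤ r := by rw [← ha]; exact dist_nonneg
  have hc : ContinuousOn f (sphere y r) := (hLN y hy).cont.mono (by
    intro z hz
    rw [mem_sphere] at hz
    rw [mem_ball, hz]
    linarith)
  obtain ⟨ξ, h1, h2, _⟩ := mm_spec_on hn y hr0 hc
  rw [← h2]
  exact hW y hy a ξ (by rw [ha]; exact hr) (by rw [h1, ha])

theorem fact2_834_equi {n : ℕ} (hn : 1 ≤ n) {H K A : ℝ} {f : Eu n → Eu n} (hLN : LN H K A f)
    {y a : Eu n} (hy : ‖y‖ ≤ A) {r : ℝ} (hr : r ≤ 1 / 80) (ha : dist a y = r) :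
    mm f y r ≤ dist (f a) (f y) := by
  have hr0 : 0 ≤ r := by rw [← ha]; exact dist_nonneg
  have hc : ContinuousOn f (sphere y r) := (hLN y hy).cont.mono (by
    intro z hz
    rw [mem_sphere] at hz
    rw [mem_ball, hz]
    linarith)
  obtain ⟨ξ, _, _, h3⟩ := mm_spec_on hn y hr0 hc
  exact h3 a ha

theorem ray_834_equi {n : ℕ} {H K : ℝ} {f : Eu n → Eu n} {x : Eu n} (hf : QCOn H K f (ball x (1 / 4)))
    {e : Eu n} (he : ‖e‖ = 1) {r : ℝ} (hr0 : 0 < r) (hr : r ≤ 1 / 80) :
    ∃ t : ℝ, 0 ≤ t ∧ ∃ z : Eu n, dist z x = r ∧ f z = f x + t • e ∧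
      ∀ s : ℝ, 0 ≤ s → f x + s • e ∈ f '' closedBall x r → s ≤ t := by
  have hsub : closedBall x r ⊆ ball x (1 / 4) := closedBall_subset_ball (by linarith)
  have hK : IsCompact (f '' closedBall x r) :=
    (isCompact_closedBall x r).image_of_continuousOn (hf.cont.mono hsub)
  set T : Set ℝ := {t | 0 ≤ t ∧ f x + t • e ∈ f '' closedBall x r} with hT
  have hcont : Continuous (fun t : ℝ => f x + t • e) := by fun_prop
  have hTc : IsClosed T := by
    have : T = Ici 0 ∩ (fun t : ℝ => f x + t • e) ⁻¹' (f '' closedBall x r) := rfl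
    rw [this]
    exact isClosed_Ici.inter (hK.isClosed.preimage hcont)
  obtain ⟨R, hR⟩ := hK.isBounded.subset_closedBall (f x)
  have hTle : ∀ t ∈ T, t ≤ R := by
    rintro t ⟨ht0, ht⟩
    have h1 := hR ht
    rw [mem_closedBall, dist_eq_norm, add_sub_cancel_left, norm_smul, he, mul_one,
      Real.norm_of_nonneg ht0] at h1
    exact h1
  have hTb : BddAbove T := ⟨R, hTle⟩
  have h0T : (0 : ℝ) ∈ T := ⟨le_rfl, x, mem_closedBall_self hr0.le, by simp⟩
  have hmem : sSup T ∈ T := hTc.csSup_mem ⟨0, h0T⟩ hTb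
  obtain ⟨ht0, z, hz, hfz⟩ := hmem
  refine ⟨sSup T, ht0, z, ?_, hfz, fun s hs hs' => le_csSup hTb ⟨hs, hs'⟩⟩
  rw [mem_closedBall] at hz
  refine le_antisymm hz ?_
  by_contra hcon
  push Not at hcon
  have hopen : IsOpen (f '' ball x r) :=
    hf.opn (ball x r) (ball_subset_closedBall.trans hsub) isOpen_ball
  have hin : f x + sSup T • e ∈ f '' ball x r := ⟨z, hcon, hfz⟩
  have hnhds : (fun t : ℝ => f x + t • e) ⁻¹' (f '' ball x r) ∈ 𝓝 (sSup T) :=
    hcont.continuousAt.preimage_mem_nhds (hopen.mem_nhds hin)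
  obtain ⟨ε, hε, hball⟩ := Metric.mem_nhds_iff.1 hnhds
  have h1 : sSup T + ε / 2 ∈ T := by
    refine ⟨by linarith, ?_⟩
    have h2 : sSup T + ε / 2 ∈ ball (sSup T) ε := by
      rw [mem_ball, Real.dist_eq, add_sub_cancel_left, abs_of_pos (by linarith)]
      linarith
    exact image_mono ball_subset_closedBall (hball h2)
  have h3 := le_csSup hTb h1
  linarith

theorem equicont {C : ℝ} (hC : 1 ≤ C) : ∃ τ : ℝ, 0 < τ ∧ τ ≤ 1 / 160 ∧ ∀ n : ℕ, 2 ≤ n →
    ∀ (H K A : ℝ) (f : Eu n → Eu n), LN H K A f → WQS C A f → ∀ x : Eu n, ‖x‖ + 1 ≤ A →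
      ∀ a : Eu n, dist a x ≤ τ → dist (f a) (f x) ≤ mm f x (1 / 80) / 10 := by
  obtain ⟨J, hJ⟩ := exists_nat_gt (10 * C ^ 3)
  have hC0 : 0 < C := by linarith
  refine ⟨1 / 80 / 2 ^ (J + 1), by positivity, ?_, ?_⟩
  · have : (2 : ℝ) ≤ 2 ^ (J + 1) := by
      calc (2 : ℝ) = 2 ^ 1 := by norm_num
        _ ≤ 2 ^ (J + 1) := pow_le_pow_right₀ (by norm_num) (by omega)
    rw [div_le_iff₀ (by positivity)]
    linarith
  intro n hn H K A f hLN hW x hxA a hax
  have hn1 : 1 ≤ n := by omega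
  have hxA' : ‖x‖ ≤ A := by linarith
  have hQx := hLN x hxA'
  have hm0 : 0 < mm f x (1 / 80) := mm_pos_on hn1 hQx (by norm_num)
    (closedBall_subset_ball (by norm_num))
  by_contra hcon
  push Not at hcon
  set m0 := mm f x (1 / 80) with hm0def
  set d := dist a x with hd
  have hdpos : 0 < d := by
    rcases (dist_nonneg : 0 ≤ dist a x).eq_or_lt with h | h
    · exfalso
      have : a = x := dist_eq_zero.1 h.symm
      rw [this, dist_self] at hcon
      linarith
    · exact h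
  -- the radii
  let rr : ℕ → ℝ := fun j => 1 / 80 / 2 ^ j
  have hrpos : ∀ j, 0 < rr j := fun j => by positivity
  have hrle : ∀ j, rr j ≤ 1 / 80 := fun j => by
    show 1 / 80 / 2 ^ j ≤ (1 / 80 : ℝ)
    apply div_le_self (by norm_num)
    exact one_le_pow₀ (by norm_num)
  have hrstep : ∀ j, rr j = 2 * rr (j + 1) := fun j => by
    show (1 / 80 / 2 ^ j : ℝ) = 2 * (1 / 80 / 2 ^ (j + 1))
    rw [pow_succ]
    field_simp
  have hrd : ∀ j, j ≤ J → d ≤ rr j := fun j hj => by
    have h1 : rr (J + 1) ≤ rr j := by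
      show (1 / 80 / 2 ^ (J + 1) : ℝ) ≤ 1 / 80 / 2 ^ j
      apply div_le_div_of_nonneg_left (by norm_num) (by positivity)
      exact pow_le_pow_right₀ (by norm_num) (by omega)
    exact hax.trans h1
  -- lower bound of m(r_j)
  have hmd : m0 / (10 * C) < mm f x d := by
    have h1 := fact1_834_equi hn1 hLN hW hxA' (r := d) ((hrd 0 (Nat.zero_le _)).trans (hrle 0)) hd.symm
    rw [div_lt_iff₀ (by positivity)]
    nlinarith
  have hmr : ∀ j, j ≤ J → m0 / (10 * C) < mm f x (rr j) := fun j hj => by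
    have h1 := mm_mono_on hn1 hQx hdpos (hrd j hj)
      (closedBall_subset_ball (by linarith [hrle j]))
    linarith
  -- the claim
  have hclaim : ∀ j, j < J → ∀ y z : Eu n, dist y x = rr (j + 1) → dist z x = rr j →
      m0 / (10 * C ^ 2) ≤ dist (f z) (f y) := by
    intro j hj y z hy hz
    have hyA : ‖y‖ ≤ A := by
      have h1 : ‖y‖ ≤ ‖x‖ + dist y x := by
        rw [dist_eq_norm]
        calc ‖y‖ = ‖x + (y - x)‖ := by rw [add_sub_cancel]
          _ ≤ ‖x‖ + ‖y - x‖ := norm_add_le _ _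
      have h2 := hrle (j + 1)
      linarith
    have hzy : rr (j + 1) ≤ dist z y := by
      have h1 : dist z x ≤ dist z y + dist y x := dist_triangle _ _ _
      have h2 := hrstep j
      linarith
    have hzG : z ∈ ball y (1 / 4) := by
      rw [mem_ball]
      have h1 : dist z y ≤ dist z x + dist x y := dist_triangle _ _ _
      rw [dist_comm x y] at h1
      have h2 := hrle j
      have h3 := hrle (j + 1)
      linarith
    have h1 := mm_le_of_le_on hn1 (hLN y hyA) (hrpos (j + 1))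
      (closedBall_subset_ball (by linarith [hrle (j + 1)])) hzG hzy
    have h2 := fact1_834_equi hn1 hLN hW hyA (hrle (j + 1)) (a := x) (by rw [dist_comm]; exact hy)
    have h3 := fact2_834_equi hn1 hLN hxA' (hrle (j + 1)) hy
    rw [dist_comm (f y) (f x)] at h3
    have h4 := hmr (j + 1) hj
    have h5 : m0 / (10 * C) ≤ C * mm f y (rr (j + 1)) := by linarith
    have h6 : m0 / (10 * C ^ 2) = m0 / (10 * C) / C := by
      field_simp
    rw [h6, div_le_iff₀ hC0]
    calc m0 / (10 * C) ≤ C * mm f y (rr (j + 1)) := h5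
      _ ≤ C * dist (f z) (f y) := mul_le_mul_of_nonneg_left h1 hC0.le
      _ = _ := mul_comm _ _
  -- the ray
  set e : Eu n := EuclideanSpace.single (⟨0, by omega⟩ : Fin n) (1 : ℝ) with hedef
  have he : ‖e‖ = 1 := by
    rw [hedef, EuclideanSpace.norm_single]; simp
  have hray := fun j => ray_834_equi hQx he (hrpos j) (hrle j)
  choose t ht0 z hz hfz hmax using hray
  have hstep : ∀ j, j < J → m0 / (10 * C ^ 2) ≤ t j - t (j + 1) := by
    intro j hj
    have hmono : t (j + 1) ≤ t j := by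
      apply hmax j _ (ht0 (j + 1))
      refine ⟨z (j + 1), ?_, hfz (j + 1)⟩
      rw [mem_closedBall, hz (j + 1)]
      have := hrstep j
      have := hrpos (j + 1)
      linarith
    have h1 := hclaim j hj (z (j + 1)) (z j) (hz (j + 1)) (hz j)
    rw [hfz, hfz, dist_eq_norm, add_sub_add_left_eq_sub, ← sub_smul, norm_smul, he, mul_one,
      Real.norm_of_nonneg (by linarith)] at h1
    exact h1
  have hsum : ∀ j, j ≤ J → (j : ℝ) * (m0 / (10 * C ^ 2)) ≤ t 0 - t j := by
    intro j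
    induction j with
    | zero => intro _; simp
    | succ k ih =>
      intro hk
      have h1 := ih (by omega)
      have h2 := hstep k (by omega)
      push_cast
      linarith
  have h1 := hsum J le_rfl
  have h2 : t 0 ≤ C * m0 := by
    have h3 := fact1_834_equi hn1 hLN hW hxA' (hrle 0) (hz 0)
    rw [hfz, dist_eq_norm, add_sub_cancel_left, norm_smul, he, mul_one,
      Real.norm_of_nonneg (ht0 0)] at h3
    have h4 : rr 0 = 1 / 80 := by
      show (1 / 80 / 2 ^ 0 : ℝ) = 1 / 80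
      norm_num
    rw [h4] at h3
    exact h3
  have h3 := ht0 J
  have h4 : (J : ℝ) * (m0 / (10 * C ^ 2)) ≤ C * m0 := by linarith
  have h5 : (J : ℝ) * (m0 / (10 * C ^ 2)) = (J : ℝ) * m0 / (10 * C ^ 2) := by ring
  rw [h5, div_le_iff₀ (by positivity)] at h4
  have h6 : (J : ℝ) * m0 ≤ (10 * C ^ 3) * m0 := by
    calc (J : ℝ) * m0 ≤ C * m0 * (10 * C ^ 2) := h4
      _ = _ := by ring
  have h7 := le_of_mul_le_mul_right h6 hm0
  linarith

end

end Pool.Agent.Helper746.Qc
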