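import Mathlib
import Pool.Agent.Helper746.QcDefs
import Pool.Agent.Helper746.QcLDefs
import Pool.Agent.Helper746.QcNDefs
import Pool.Agent.Helper746.QcLmm
import Pool.Agent.Helper746.QcVol
import Pool.Agent.Helper746.QcLg

set_option autoImplicit false

namespace Pool.Agent.Helper746.Qc

open Set Metric MeasureTheory Filter Topology
open scoped ENNReal NNReal

noncomputable section

theorem holder9636_fat_lfat {α : Type*} [MeasurableSpace α] (μ : Measure α) (n : ℕ) (hn : 2 ≤ n)
    (g : α → ℝ≥0∞) (hg : AEMeasurable g μ) :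
    (∫⁻ a, g a ∂μ) ^ n ≤ (∫⁻ a, g a ^ n ∂μ) * (μ Set.univ) ^ (n - 1) := by
  have hn1 : (1 : ℝ) < n := by exact_mod_cast (by omega : 1 < n)
  have hn0 : (n : ℝ) ≠ 0 := by positivity
  have hpq : (n : ℝ).HolderConjugate ((n : ℝ).conjExponent) := Real.HolderConjugate.conjExponent hn1
  have h := ENNReal.lintegral_mul_le_Lp_mul_Lq μ hpq hg (aemeasurable_const (b := (1 : ℝ≥0∞)))
  simp only [Pi.mul_apply, mul_one, ENNReal.one_rpow, lintegral_one] at h
  have h2 := pow_le_pow_left₀ zero_le h n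
  refine h2.trans (le_of_eq ?_)
  rw [mul_pow]
  congr 1
  · rw [← ENNReal.rpow_natCast, ← ENNReal.rpow_mul, one_div, inv_mul_cancel₀ hn0, ENNReal.rpow_one]
    simp
  · rw [← ENNReal.rpow_natCast, ← ENNReal.rpow_mul]
    rw [← ENNReal.rpow_natCast]
    congr 1
    have h3 : (1 : ℝ) / (n : ℝ).conjExponent = 1 - 1 / n := by
      have := hpq.inv_add_inv_eq_one
      rw [one_div, one_div]
      linarith
    rw [h3, Nat.cast_sub (by omega : 1 ≤ n)]
    field_simp
    norm_num

theorem fat_on {n : ℕ} (hn : 2 ≤ n) {H K : ℝ} (hH : 1 ≤ H) (hK : 1 ≤ K) {f : Eu n → Eu n}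
    {G : Set (Eu n)} (hf : QCOn H K f G)
    {η : ℝ} (hη : 0 < η) (hη8 : η ≤ 1 / 8) {x ξ : Eu n} {d r : ℝ} (hd : 0 < d)
    (hG : closedBall x (2 * d) ⊆ G)
    (hdx : dist ξ x = d) (hr : dist (f ξ) (f x) = r)
    (hm : ∀ ζ : Eu n, dist ζ x = d → r ≤ dist (f ζ) (f x))
    (h1 : ∀ ζ : Eu n, dist ζ x = d / 8 → η * r ≤ dist (f ζ) (f x))
    (h2 : ∀ ζ : Eu n, dist ζ ξ = d / 8 → η * r ≤ dist (f ζ) (f ξ)) :
    ∃ V : Set (Eu n), MeasurableSet V ∧ V ⊆ closedBall x (2 * d) ∧
      (∀ x' ∈ V, dist (f x') (f x) ≤ 2 * r) ∧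
      ENNReal.ofReal ((3 * η / (8 * K) * d) ^ n) * vb n ≤ volume V := by
  have hn1 : 1 ≤ n := by omega
  have hi := hf.inj
  have hd8 : 0 < d / 8 := by positivity
  have hGx : closedBall x d ⊆ G := (closedBall_subset_closedBall (by linarith)).trans hG
  have hGx8 : closedBall x (d / 8) ⊆ G := (closedBall_subset_closedBall (by linarith)).trans hG
  have hGξ : closedBall ξ (d / 8) ⊆ G := by
    refine Set.Subset.trans ?_ hG
    intro z hz
    rw [mem_closedBall] at hz ⊢
    have := dist_triangle z ξ x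
    linarith
  have hxG : x ∈ G := hGx (mem_closedBall_self hd.le)
  have hξG : ξ ∈ G := hGξ (mem_closedBall_self hd8.le)
  have hξx : ξ ≠ x := by
    intro h; rw [h, dist_self] at hdx; linarith
  have hrpos : 0 < r := by
    rw [← hr]; exact dist_pos.mpr fun h => hξx (hi hξG hxG h)
  have hmm : mm f x d = r := by
    obtain ⟨ξ0, e1, e2, e3⟩ := mm_spec_on hn1 x hd.le
      (hf.cont.mono (sphere_subset_closedBall.trans hGx))
    apply le_antisymm
    · rw [← hr]; exact e3 ξ hdx
    · rw [← e2]; exact hm ξ0 e1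
  have hmm1 : η * r ≤ mm f x (d / 8) := by
    obtain ⟨ξ0, e1, e2, e3⟩ := mm_spec_on hn1 x hd8.le
      (hf.cont.mono (sphere_subset_closedBall.trans hGx8))
    rw [← e2]; exact h1 ξ0 e1
  have hmm2 : η * r ≤ mm f ξ (d / 8) := by
    obtain ⟨ξ0, e1, e2, e3⟩ := mm_spec_on hn1 ξ hd8.le
      (hf.cont.mono (sphere_subset_closedBall.trans hGξ))
    rw [← e2]; exact h2 ξ0 e1
  set v : Eu n := f ξ - f x with hv
  have hvn : ‖v‖ = r := by rw [hv, ← dist_eq_norm, hr]
  have hfξ : f ξ = f x + v := by rw [hv]; abel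
  have hρ : 0 < η * r / 2 := by positivity
  set ρ : ℝ := η * r / 2 with hρdef
  set Cyl : Set (Eu n) := ⋃ s ∈ Icc (0 : ℝ) 1, ball (f x + s • v) ρ with hCyl
  have hCo : IsOpen Cyl := isOpen_biUnion fun s _ => isOpen_ball
  -- claim 1
  have hcl : ∀ y ∈ Cyl, y ∈ f '' ball x d ∨ y ∈ f '' ball ξ (d / 8) := by
    intro y hy
    simp only [hCyl, Set.mem_iUnion] at hy
    obtain ⟨s, hs, hys⟩ := hy
    rw [mem_ball] at hys
    by_cases hcase : s ≤ 1 - η / 2
    · left
      apply ball_mm_subset_on hn1 hf hd hGx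
      rw [hmm, mem_ball]
      have e1 : dist (f x + s • v) (f x) = s * r := by
        rw [dist_eq_norm, add_sub_cancel_left, norm_smul, hvn, Real.norm_of_nonneg hs.1]
      have e2 : s * r ≤ (1 - η / 2) * r := mul_le_mul_of_nonneg_right hcase hrpos.le
      calc dist y (f x) ≤ dist y (f x + s • v) + dist (f x + s • v) (f x) := dist_triangle _ _ _
        _ < ρ + s * r := by rw [e1]; linarith
        _ ≤ r := by rw [hρdef]; linarith
    · right
      push Not at hcase
      apply ball_mm_subset_on hn1 hf hd8 hGξ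
      apply ball_subset_ball hmm2
      rw [mem_ball]
      have e1 : dist (f x + s • v) (f ξ) = (1 - s) * r := by
        rw [hfξ, dist_eq_norm]
        have : f x + s • v - (f x + v) = -((1 - s) • v) := by rw [sub_smul, one_smul]; abel
        rw [this, norm_neg, norm_smul, hvn, Real.norm_of_nonneg (by linarith [hs.2])]
      have e2 : (1 - s) * r ≤ (η / 2) * r := mul_le_mul_of_nonneg_right (by linarith) hrpos.le
      calc dist y (f ξ) ≤ dist y (f x + s • v) + dist (f x + s • v) (f ξ) := dist_triangle _ _ _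
        _ < ρ + (1 - s) * r := by rw [e1]; linarith
        _ ≤ η * r := by rw [hρdef]; linarith
  have hsub2 : ∀ y ∈ Cyl, ∃ z, dist z x < 2 * d ∧ f z = y := by
    intro y hy
    rcases hcl y hy with ⟨z, hz, hzy⟩ | ⟨z, hz, hzy⟩
    · exact ⟨z, by rw [mem_ball] at hz; linarith, hzy⟩
    · refine ⟨z, ?_, hzy⟩
      rw [mem_ball] at hz
      have := dist_triangle z ξ x
      linarith
  have hCylG : Cyl ⊆ f '' G := by
    intro y hy
    obtain ⟨z, hz, hzy⟩ := hsub2 y hy
    exact ⟨z, hG (mem_closedBall.2 hz.le), hzy⟩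
  refine ⟨(f ⁻¹' Cyl) ∩ G, ?_, ?_, ?_, ?_⟩
  · rw [Set.inter_comm]
    exact (hf.cont.isOpen_inter_preimage hf.isOpen hCo).measurableSet
  · rintro z ⟨hz, hzG⟩
    obtain ⟨z', hz', he⟩ := hsub2 (f z) hz
    rw [← hi (hG (mem_closedBall.2 hz'.le)) hzG he]
    exact mem_closedBall.mpr hz'.le
  · rintro x' ⟨hx', -⟩
    have hy : f x' ∈ Cyl := hx'
    simp only [hCyl, Set.mem_iUnion] at hy
    obtain ⟨s, hs, hys⟩ := hy
    rw [mem_ball] at hys
    have e1 : dist (f x + s • v) (f x) = s * r := by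
      rw [dist_eq_norm, add_sub_cancel_left, norm_smul, hvn, Real.norm_of_nonneg hs.1]
    have e2 : s * r ≤ 1 * r := mul_le_mul_of_nonneg_right hs.2 hrpos.le
    have e3 : η * r ≤ 1 / 8 * r := mul_le_mul_of_nonneg_right hη8 hrpos.le
    have := dist_triangle (f x') (f x + s • v) (f x)
    rw [e1] at this
    rw [hρdef] at hys
    linarith
  -- volume
  have hginv : ∀ z ∈ G, Function.invFunOn f G (f z) = z := fun z hz =>
    hi.leftInvOn_invFunOn hz
  obtain ⟨ℓ, hℓm, hug, hvol'⟩ := inv_ug_on hn hH hK hf (g := Function.invFunOn f G) hginv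
    (u := fun z => dist z x) (L := 1) (LipschitzWith.dist_left x) (σ := fun _ => 1)
    measurable_const (by
      intro y c hc
      have hc1 : 1 ≤ c := by
        have : (1 : ℝ≥0∞) < ENNReal.ofReal c := hc
        rw [← ENNReal.ofReal_one] at this
        exact ((ENNReal.ofReal_lt_ofReal_iff_of_nonneg zero_le_one).1 this).le
      refine ⟨1, one_pos, fun y' _ => ?_⟩
      have h3 : |dist y' x - dist y x| ≤ dist y' y := abs_dist_sub_le y' y x
      have h4 : dist y' y ≤ c * dist y' y := by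
        have := dist_nonneg (x := y') (y := y)
        nlinarith
      exact h3.trans h4)
  have hvol : ∀ A : Set (Eu n), MeasurableSet A → A ⊆ f '' G →
      ∫⁻ y in A, ℓ y ^ n ≤ ENNReal.ofReal (K ^ n) * volume ((f ⁻¹' A) ∩ G) := by
    intro A hA hAG
    refine (hvol' A hA hAG).trans (le_of_eq ?_)
    simp
  set P : Set (Eu n) := ball (f x) ρ with hP
  have hPm : MeasurableSet P := measurableSet_ball
  have hVP : volume P = ENNReal.ofReal (ρ ^ n) * vb n := volume_ball_eq _ hρ.le hn1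
  have hVP0 : volume P ≠ 0 := by
    rw [hVP]
    exact mul_ne_zero (by simpa using pow_pos hρ n) (vb_pos n).ne'
  have hVPt : volume P ≠ ⊤ := by
    rw [hVP]
    exact ENNReal.mul_ne_top ENNReal.ofReal_ne_top (vb_lt_top n).ne
  -- pointwise bound
  have hpt : ∀ᵐ p : Eu n, p ∈ P → ENNReal.ofReal (3 * d / 4) ≤
      (∫⁻ s in Icc (0 : ℝ) 1, ℓ (p + s • v)) * ENNReal.ofReal r := by
    filter_upwards [hug v] with p hp hpP
    rw [hP, mem_ball] at hpP
    have hseg : ∀ s ∈ Icc (0 : ℝ) 1, p + s • v ∈ f '' G := by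
      intro s hs
      have hmem : p + s • v ∈ Cyl := by
        simp only [hCyl, Set.mem_iUnion]
        refine ⟨s, hs, ?_⟩
        rw [mem_ball, dist_add_right]
        exact hpP
      exact hCylG hmem
    have hp1 : p ∈ f '' ball x (d / 8) := by
      apply ball_mm_subset_on hn1 hf hd8 hGx8
      rw [mem_ball]
      have : ρ < η * r := by rw [hρdef]; linarith [mul_pos hη hrpos]
      linarith
    have hp2 : p + v ∈ f '' ball ξ (d / 8) := by
      apply ball_mm_subset_on hn1 hf hd8 hGξ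
      rw [mem_ball, hfξ, dist_add_right]
      have : ρ < η * r := by rw [hρdef]; linarith [mul_pos hη hrpos]
      linarith
    obtain ⟨ζ, hζ, hζp⟩ := hp1
    obtain ⟨ζ', hζ', hζp'⟩ := hp2
    have h3 := hp hseg
    have g1 : Function.invFunOn f G p = ζ := by
      rw [← hζp]
      exact hginv ζ (hGx8 (ball_subset_closedBall hζ))
    have g2 : Function.invFunOn f G (p + v) = ζ' := by
      rw [← hζp']
      exact hginv ζ' (hGξ (ball_subset_closedBall hζ'))
    rw [hvn] at h3
    simp only [g1, g2] at h3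
    refine le_trans (ENNReal.ofReal_le_ofReal ?_) h3
    rw [mem_ball] at hζ hζ'
    have t1 := dist_triangle ξ ζ' x
    rw [hdx, dist_comm ξ ζ'] at t1
    have t2 := le_abs_self (dist ζ' x - dist ζ x)
    linarith
  -- integrate
  have hmeas2 : Measurable (Function.uncurry fun (p : Eu n) (s : ℝ) => ℓ (p + s • v)) :=
    hℓm.comp (by
      have : Continuous fun q : Eu n × ℝ => q.1 + q.2 • v := by fun_prop
      exact this.measurable)
  set Fs : ℝ → ℝ≥0∞ := fun s => ∫⁻ p in P, ℓ (p + s • v) with hFs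
  have hint : ENNReal.ofReal (3 * d / 4) * volume P ≤
      (∫⁻ s in Icc (0 : ℝ) 1, Fs s) * ENNReal.ofReal r := by
    calc ENNReal.ofReal (3 * d / 4) * volume P = ∫⁻ _p in P, ENNReal.ofReal (3 * d / 4) := by
          rw [setLIntegral_const]
      _ ≤ ∫⁻ p in P, (∫⁻ s in Icc (0 : ℝ) 1, ℓ (p + s • v)) * ENNReal.ofReal r := by
          apply lintegral_mono_ae
          rw [ae_restrict_iff' hPm]
          exact hpt
      _ = (∫⁻ p in P, ∫⁻ s in Icc (0 : ℝ) 1, ℓ (p + s • v)) * ENNReal.ofReal r := by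
          rw [lintegral_mul_const']
          exact ENNReal.ofReal_ne_top
      _ = (∫⁻ s in Icc (0 : ℝ) 1, Fs s) * ENNReal.ofReal r := by
          congr 1
          exact lintegral_lintegral_swap hmeas2.aemeasurable
  have hFm : Measurable Fs := by
    have := hmeas2.comp measurable_swap
    exact Measurable.lintegral_prod_right' (ν := volume.restrict P) this
  -- bound of Fs
  have hFb : ∀ s ∈ Icc (0 : ℝ) 1, Fs s ^ n ≤
      (ENNReal.ofReal (K ^ n) * volume ((f ⁻¹' Cyl) ∩ G)) * volume P ^ (n - 1) := by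
    intro s hs
    have hb : ball (f x + s • v) ρ ⊆ Cyl := by
      intro y hy
      simp only [hCyl, Set.mem_iUnion]
      exact ⟨s, hs, hy⟩
    calc Fs s ^ n ≤ (∫⁻ p in P, ℓ (p + s • v) ^ n) * ((volume.restrict P) Set.univ) ^ (n - 1) :=
          holder9636_fat_lfat _ n hn _ (hℓm.comp (by fun_prop)).aemeasurable
      _ = (∫⁻ y in ball (f x + s • v) ρ, ℓ y ^ n) * volume P ^ (n - 1) := by
          rw [Measure.restrict_apply_univ]
          congr 1
          have hmp := measurePreserving_add_right (volume : Measure (Eu n)) (s • v)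
          have := hmp.setLIntegral_comp_preimage (s := ball (f x + s • v) ρ) measurableSet_ball
            (f := fun y => ℓ y ^ n) (hℓm.pow_const n)
          rw [← this]
          have hpre : (fun p => p + s • v) ⁻¹' ball (f x + s • v) ρ = P := by
            ext p
            simp only [hP, Set.mem_preimage, mem_ball, dist_add_right]
          rw [hpre]
      _ ≤ (∫⁻ y in Cyl, ℓ y ^ n) * volume P ^ (n - 1) := by
          gcongr
      _ ≤ _ := by
          gcongr
          exact hvol Cyl hCo.measurableSet hCylG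
  have hFi : (∫⁻ s in Icc (0 : ℝ) 1, Fs s) ^ n ≤
      (ENNReal.ofReal (K ^ n) * volume ((f ⁻¹' Cyl) ∩ G)) * volume P ^ (n - 1) := by
    calc (∫⁻ s in Icc (0 : ℝ) 1, Fs s) ^ n ≤
        (∫⁻ s in Icc (0 : ℝ) 1, Fs s ^ n) * ((volume.restrict (Icc (0 : ℝ) 1)) Set.univ) ^ (n - 1) :=
          holder9636_fat_lfat _ n hn _ hFm.aemeasurable
      _ = ∫⁻ s in Icc (0 : ℝ) 1, Fs s ^ n := by
          rw [Measure.restrict_apply_univ, Real.volume_Icc]
          simp
      _ ≤ ∫⁻ _s in Icc (0 : ℝ) 1,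
          (ENNReal.ofReal (K ^ n) * volume ((f ⁻¹' Cyl) ∩ G)) * volume P ^ (n - 1) := by
          apply lintegral_mono_ae
          rw [ae_restrict_iff' measurableSet_Icc]
          exact Filter.Eventually.of_forall hFb
      _ = _ := by
          rw [setLIntegral_const, Real.volume_Icc]
          simp
  have hfin : ENNReal.ofReal (3 * d / 4) ^ n * volume P ≤
      ENNReal.ofReal (r ^ n) * (ENNReal.ofReal (K ^ n) * volume ((f ⁻¹' Cyl) ∩ G)) := by
    have h3 := pow_le_pow_left₀ zero_le hint n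
    rw [mul_pow, mul_pow] at h3
    have h4 : ENNReal.ofReal (3 * d / 4) ^ n * volume P ^ n ≤
        ((ENNReal.ofReal (K ^ n) * volume ((f ⁻¹' Cyl) ∩ G)) * volume P ^ (n - 1)) *
          ENNReal.ofReal r ^ n := h3.trans (by gcongr)
    have h5 : volume P ^ n = volume P * volume P ^ (n - 1) := by
      rw [← pow_succ']; congr 1; omega
    have hne0 : volume P ^ (n - 1) ≠ 0 := pow_ne_zero _ hVP0
    have hnet : volume P ^ (n - 1) ≠ ⊤ := ENNReal.pow_ne_top hVPt
    rw [← ENNReal.mul_le_mul_iff_left hne0 hnet]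
    calc ENNReal.ofReal (3 * d / 4) ^ n * volume P * volume P ^ (n - 1)
        = ENNReal.ofReal (3 * d / 4) ^ n * volume P ^ n := by rw [h5]; ring
      _ ≤ _ := h4
      _ = _ := by rw [ENNReal.ofReal_pow hrpos.le]; ring
  rw [hVP, ← ENNReal.ofReal_pow (by positivity), ← mul_assoc, ← ENNReal.ofReal_mul (by positivity),
    ← mul_assoc, ← ENNReal.ofReal_mul (by positivity)] at hfin
  have hKpos : 0 < K := by linarith
  have hrk : 0 < r ^ n * K ^ n := by positivity
  have hne0 : ENNReal.ofReal (r ^ n * K ^ n) ≠ 0 := by simpa using hrk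
  rw [← ENNReal.mul_le_mul_iff_right hne0 ENNReal.ofReal_ne_top]
  refine le_trans (le_of_eq ?_) hfin
  rw [← mul_assoc, ← ENNReal.ofReal_mul hrk.le]
  congr 2
  rw [← mul_pow, ← mul_pow, ← mul_pow]
  congr 1
  rw [hρdef]
  field_simp
  ring

end

end Pool.Agent.Helper746.Qc
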