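import Mathlib
import Pool.Agent.Helper746.QcDefs
import Pool.Agent.Helper746.QcLDefs
import Pool.Agent.Helper746.QcNDefs
import Pool.Agent.Helper746.QcLmm
import Pool.Agent.Helper746.QcLsand
import Pool.Agent.Helper746.QcVol
import Pool.Agent.Helper746.QcPair

set_option autoImplicit false

namespace Pool.Agent.Helper746.Qc

open Set Metric MeasureTheory Filter Topology
open scoped ENNReal NNReal

noncomputable section

theorem lf_left_lf {n : ℕ} {H K : ℝ} {f : Eu n → Eu n} {G : Set (Eu n)} (hf : QCOn H K f G) :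
    ∀ z ∈ G, Function.invFunOn f G (f z) = z := fun _ hz => hf.inj.leftInvOn_invFunOn hz

theorem lf_cont_lf {n : ℕ} {H K : ℝ} {f : Eu n → Eu n} {G : Set (Eu n)} (hf : QCOn H K f G) :
    ContinuousOn (Function.invFunOn f G) (f '' G) := by
  rw [_root_.continuousOn_iff]
  rintro y ⟨z, hz, rfl⟩ t ht hzt
  rw [lf_left_lf hf z hz] at hzt
  refine ⟨f '' (G ∩ t), hf.opn _ inter_subset_left (hf.isOpen.inter ht), ⟨z, ⟨hz, hzt⟩, rfl⟩, ?_⟩
  rintro _ ⟨⟨w, hw, rfl⟩, _⟩
  show Function.invFunOn f G (f w) ∈ t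
  rw [lf_left_lf hf w hw.1]
  exact hw.2

theorem lf_apply_lf {n : ℕ} {H K : ℝ} {f : Eu n → Eu n} {G : Set (Eu n)} (hf : QCOn H K f G)
    {A : Set (Eu n)} (hA : MeasurableSet A) :
    (Measure.map (Function.invFunOn f G) (volume.restrict (f '' G))) A =
      volume (f '' (A ∩ G)) := by
  have ho : IsOpen (f '' G) := hf.opn G Subset.rfl hf.isOpen
  rw [Measure.map_apply_of_aemeasurable ((lf_cont_lf hf).aemeasurable ho.measurableSet) hA,
    Measure.restrict_apply' ho.measurableSet]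
  congr 1
  ext y
  constructor
  · rintro ⟨h1, z, hz, rfl⟩
    have h2 : Function.invFunOn f G (f z) ∈ A := h1
    rw [lf_left_lf hf z hz] at h2
    exact ⟨z, ⟨h2, hz⟩, rfl⟩
  · rintro ⟨z, ⟨hzA, hz⟩, rfl⟩
    refine ⟨?_, z, hz, rfl⟩
    show Function.invFunOn f G (f z) ∈ A
    rw [lf_left_lf hf z hz]
    exact hzA

theorem lf_finite_lf {n : ℕ} {H K : ℝ} {f : Eu n → Eu n} {G : Set (Eu n)} (hf : QCOn H K f G) :
    IsFiniteMeasure (Measure.map (Function.invFunOn f G) (volume.restrict (f '' G))) := by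
  refine ⟨?_⟩
  rw [lf_apply_lf hf MeasurableSet.univ, univ_inter]
  exact hf.finfG.lt_top

theorem lf_growth_lf {n : ℕ} (hn : 1 ≤ n) {H K L : ℝ} (hL : 1 ≤ L) {f : Eu n → Eu n}
    {G : Set (Eu n)} (hf : QCOn H K f G) {z : Eu n} (hzG : z ∈ G) (hz : Rnd L f z) :
    ∃ δ : ℝ, 0 < δ ∧ ∀ z' : Eu n, dist z' z < δ →
      ENNReal.ofReal (dist (f z') (f z) ^ n) * vb n ≤
        ENNReal.ofReal (L ^ n) *
          (Measure.map (Function.invFunOn f G) (volume.restrict (f '' G)))
            (closedBall z (dist z' z)) := by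
  obtain ⟨δ, hδ, hδG, h⟩ := rnd_sand_on hn hf hL hzG hz
  refine ⟨δ, hδ, fun z' hz' => ?_⟩
  by_cases hzz : z' = z
  · rw [hzz, dist_self, zero_pow (by omega), ENNReal.ofReal_zero, zero_mul]
    exact zero_le
  · have h1 := (h z' hzz hz').1
    have hL0 : 0 < L := by linarith
    rw [lf_apply_lf hf measurableSet_closedBall]
    have hsub : ball z (dist z' z) ⊆ closedBall z (dist z' z) ∩ G := by
      intro w hw
      refine ⟨ball_subset_closedBall hw, hδG ?_⟩
      rw [mem_closedBall]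
      rw [mem_ball] at hw
      linarith
    have h2 : volume (ball (f z) (dist (f z') (f z) / L)) ≤
        volume (f '' (closedBall z (dist z' z) ∩ G)) :=
      measure_mono (h1.trans (image_mono hsub))
    rw [volume_ball_eq _ (by positivity) hn] at h2
    have e : ENNReal.ofReal (dist (f z') (f z) ^ n) * vb n =
        ENNReal.ofReal (L ^ n) * (ENNReal.ofReal ((dist (f z') (f z) / L) ^ n) * vb n) := by
      rw [← mul_assoc, ← ENNReal.ofReal_mul (by positivity), ← mul_pow]
      congr 3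
      field_simp
    rw [e]
    gcongr

theorem lf_dens_lf {n : ℕ} (hn : 1 ≤ n) {H K : ℝ} (hK : 1 ≤ K) {f : Eu n → Eu n}
    {G : Set (Eu n)} (hf : QCOn H K f G) :
    ∀ᵐ z : Eu n, z ∈ G → ∀ c : ℝ, 0 ≤ c →
      ENNReal.ofReal (K ^ n) *
        (Measure.map (Function.invFunOn f G) (volume.restrict (f '' G))).rnDeriv volume z <
          ENNReal.ofReal (c ^ n) →
      ∃ δ : ℝ, 0 < δ ∧ ∀ z' : Eu n, dist z' z < δ → dist (f z') (f z) ≤ c * dist z' z := by
  have hfm := lf_finite_lf hf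
  filter_upwards [hf.rndae, Besicovitch.ae_tendsto_rnDeriv
    (Measure.map (Function.invFunOn f G) (volume.restrict (f '' G)))
    (volume : Measure (Eu n))] with z hz' hB hzG c hc hlt
  have hz := hz' hzG
  have hT : Tendsto (fun r => ENNReal.ofReal (K ^ n) *
      ((Measure.map (Function.invFunOn f G) (volume.restrict (f '' G))) (closedBall z r) /
        volume (closedBall z r)))
      (𝓝[>] 0) (𝓝 (ENNReal.ofReal (K ^ n) *
        (Measure.map (Function.invFunOn f G) (volume.restrict (f '' G))).rnDeriv volume z)) :=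
    ENNReal.Tendsto.const_mul hB (Or.inr ENNReal.ofReal_ne_top)
  have hev := hT.eventually (gt_mem_nhds hlt)
  obtain ⟨δ1, hδ1, h1⟩ := mem_nhdsGT_iff_exists_Ioo_subset.1 hev
  obtain ⟨δ2, hδ2, h2⟩ := lf_growth_lf hn hK hf hzG hz
  refine ⟨min δ1 δ2, lt_min hδ1 hδ2, fun z' hz' => ?_⟩
  by_cases hzz : z' = z
  · rw [hzz, dist_self, dist_self, mul_zero]
  · have ht : 0 < dist z' z := dist_pos.2 hzz
    have h3 := h1 ⟨ht, lt_of_lt_of_le hz' (min_le_left _ _)⟩
    have h4 := h2 z' (lt_of_lt_of_le hz' (min_le_right _ _))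
    simp only [mem_ofPred_eq] at h3
    set B := closedBall z (dist z' z) with hBdef
    have hvol : volume B = ENNReal.ofReal (dist z' z ^ n) * vb n :=
      volume_closedBall_eq z ht.le hn
    have hv0 : volume B ≠ 0 := by
      rw [hvol]
      exact mul_ne_zero (by
        rw [Ne, ENNReal.ofReal_eq_zero, not_le]; positivity) (vb_pos n).ne'
    have hvT : volume B ≠ ⊤ := by
      rw [hvol]
      exact ENNReal.mul_ne_top ENNReal.ofReal_ne_top (vb_lt_top n).ne
    have h5 : ENNReal.ofReal (K ^ n) *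
        (Measure.map (Function.invFunOn f G) (volume.restrict (f '' G))) B ≤
        ENNReal.ofReal (c ^ n) * volume B := by
      have e : ENNReal.ofReal (K ^ n) *
          (Measure.map (Function.invFunOn f G) (volume.restrict (f '' G))) B =
          (ENNReal.ofReal (K ^ n) *
            ((Measure.map (Function.invFunOn f G) (volume.restrict (f '' G))) B / volume B)) *
            volume B := by
        rw [mul_assoc, ENNReal.div_mul_cancel hv0 hvT]
      rw [e]
      gcongr
    have h6 := h4.trans h5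
    rw [hvol, ← mul_assoc] at h6
    have h7 := (ENNReal.mul_le_mul_iff_left (vb_pos n).ne' (vb_lt_top n).ne).1 h6
    rw [← ENNReal.ofReal_mul (by positivity), ← mul_pow] at h7
    have h8 := (ENNReal.ofReal_le_ofReal_iff (by positivity)).1 h7
    exact le_of_pow_le_pow_left₀ (by omega) (by positivity) h8

theorem ug_on {n : ℕ} (hn : 2 ≤ n) {H K : ℝ} (hH : 1 ≤ H) (hK : 1 ≤ K) {f : Eu n → Eu n}
    {G : Set (Eu n)} (hf : QCOn H K f G)
    {u : Eu n → ℝ} {L : ℝ≥0} (hu : LipschitzWith L u) {σ : Eu n → ℝ≥0∞} (hσ : Measurable σ)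
    (hb : LocBd u σ) :
    ∃ ℓ : Eu n → ℝ≥0∞, Measurable ℓ ∧ UGOn (fun z => u (f z)) ℓ G ∧
      ∀ A : Set (Eu n), MeasurableSet A → A ⊆ G →
        ∫⁻ z in A, ℓ z ^ n ≤ ENNReal.ofReal (K ^ n) * ∫⁻ y in f '' A, σ y ^ n := by
  have hn1 : 1 ≤ n := by omega
  have hv : 0 < (vb n).toReal := ENNReal.toReal_pos (vb_pos n).ne' (vb_lt_top n).ne
  have hH0 : 0 < H := by linarith
  have hC : 0 < H ^ n / (vb n).toReal := by positivity
  refine pair_ug hn hC hH hK hf.isOpen hf.cont (lf_left_lf hf) (hf.opn G Subset.rfl hf.isOpen)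
    (lf_cont_lf hf) hf.finfG ?_ (lf_dens_lf hn1 hK hf) hu hσ hb
  intro z hz
  obtain ⟨δ, hδ, h⟩ := lf_growth_lf hn1 hH hf hz (hf.rnd z hz)
  refine ⟨δ, hδ, fun z' hz' => ?_⟩
  have h1 := h z' hz'
  have h2 : closedBall z (dist z' z) ⊆ closedBall z (H * dist z' z) := by
    apply closedBall_subset_closedBall
    have := dist_nonneg (x := z') (y := z)
    nlinarith
  have h3 := measure_mono (μ := Measure.map (Function.invFunOn f G) (volume.restrict (f '' G))) h2
  rw [ENNReal.ofReal_div_of_pos hv, ENNReal.ofReal_toReal (vb_lt_top n).ne]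
  have h4 : ENNReal.ofReal (dist (f z') (f z) ^ n) ≤ (ENNReal.ofReal (H ^ n) *
      (Measure.map (Function.invFunOn f G) (volume.restrict (f '' G)))
        (closedBall z (H * dist z' z))) / vb n := by
    rw [ENNReal.le_div_iff_mul_le (Or.inl (vb_pos n).ne') (Or.inl (vb_lt_top n).ne)]
    exact h1.trans (by gcongr)
  refine h4.trans (le_of_eq ?_)
  rw [div_eq_mul_inv, div_eq_mul_inv]
  ring

end

end Pool.Agent.Helper746.Qc
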