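import Mathlib
import Pool.Agent.Helper746.QcDefs
import Pool.Agent.Helper746.QcLDefs
import Pool.Agent.Helper746.QcNDefs
import Pool.Agent.Helper746.QcVol

set_option autoImplicit false

namespace Pool.Agent.Helper746.Qc

open Set Metric MeasureTheory Filter Topology
open scoped ENNReal NNReal

noncomputable section

theorem ost_scale_ost_lost {n : ℕ} {ℓ : Eu n → ℝ≥0∞} (hℓ : Measurable ℓ) (c : ℝ) (hc : 1 / 2 ≤ c)
    (z : Eu n) : ∫⁻ x, ℓ (c • x + z) ^ n ≤ ENNReal.ofReal (2 ^ n) * ∫⁻ x, ℓ x ^ n := by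
  have hc0 : c ≠ 0 := by linarith [hc]
  have hh : Measurable (fun y : Eu n => ℓ (y + z) ^ n) :=
    (hℓ.comp (measurable_id.add_const z)).pow_const n
  have e1 : ∫⁻ x, ℓ (c • x + z) ^ n =
      ∫⁻ y, ℓ (y + z) ^ n ∂(Measure.map (fun x : Eu n => c • x) volume) := by
    rw [lintegral_map hh (measurable_const_smul c)]
  have e2 : ∫⁻ y, ℓ (y + z) ^ n = ∫⁻ y, ℓ y ^ n :=
    lintegral_add_right_eq_self (fun y => ℓ y ^ n) z
  rw [e1, Measure.map_addHaar_smul volume hc0, lintegral_smul_measure, e2, smul_eq_mul]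
  gcongr
  rw [finrank_euclideanSpace_fin, abs_inv, abs_pow, ← inv_pow]
  have hcp : 0 < |c| := abs_pos.2 hc0
  have hle : |c|⁻¹ ≤ 2 := by
    rw [inv_le_comm₀ hcp two_pos]
    exact le_trans (by norm_num at hc ⊢; linarith) (le_abs_self c)
  exact pow_le_pow_left₀ (inv_nonneg.2 hcp.le) hle n

theorem ost_young_ost_lost (n : ℕ) (hn : 1 ≤ n) (u : ℝ≥0∞) : (n : ℝ≥0∞) * u ≤ u ^ n + ((n - 1 : ℕ) : ℝ≥0∞) := by
  by_cases hu : u = ⊤
  · rw [hu, ENNReal.top_pow (by omega)]
    simp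
  · lift u to ℝ≥0 using hu
    have h : (n : ℝ) * (u : ℝ) ≤ (u : ℝ) ^ n + ((n - 1 : ℕ) : ℝ) := by
      have h1 := one_add_mul_le_pow (a := (u : ℝ) - 1) (by have := u.2; change (0:ℝ) ≤ (u : ℝ) at this; linarith) n
      rw [Nat.cast_sub hn]
      have h2 : (1 + ((u : ℝ) - 1)) = u := by ring
      rw [h2] at h1
      push_cast
      linarith
    have h' : (n : ℝ≥0) * u ≤ u ^ n + ((n - 1 : ℕ) : ℝ≥0) := by
      exact_mod_cast h
    exact_mod_cast h'

theorem ost_one_ost_lost {n : ℕ} (hn : 1 ≤ n) {ℓ : Eu n → ℝ≥0∞} (hℓ : Measurable ℓ)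
    {Q : ℝ} (hQ : 0 ≤ Q) (hE : ∫⁻ x, ℓ x ^ n ≤ ENNReal.ofReal (Q ^ n) * vb n)
    {A : Set (Eu n)} {α : ℝ} (hα : 0 < α)
    (hAv : ENNReal.ofReal (α ^ n) * vb n ≤ volume A)
    (hAf : volume A ≠ ⊤) (c : ℝ) (hc : 1 / 2 ≤ c) (z : Eu n) :
    ∫⁻ x in A, ℓ (c • x + z) ≤ volume A * ENNReal.ofReal (2 * Q / α) := by
  have hf : Measurable (fun x : Eu n => ℓ (c • x + z)) :=
    hℓ.comp ((measurable_const_smul c).add_const z)
  have hpow : ∫⁻ x, ℓ (c • x + z) ^ n ≤ ENNReal.ofReal (2 * Q / α) ^ n * volume A := by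
    calc ∫⁻ x, ℓ (c • x + z) ^ n ≤ ENNReal.ofReal (2 ^ n) * ∫⁻ x, ℓ x ^ n :=
          ost_scale_ost_lost hℓ c hc z
      _ ≤ ENNReal.ofReal (2 ^ n) * (ENNReal.ofReal (Q ^ n) * vb n) := by gcongr
      _ = ENNReal.ofReal (2 * Q / α) ^ n * (ENNReal.ofReal (α ^ n) * vb n) := by
          rw [← ENNReal.ofReal_pow (by positivity), ← mul_assoc, ← mul_assoc,
            ← ENNReal.ofReal_mul (by positivity), ← ENNReal.ofReal_mul (by positivity)]
          congr 2
          rw [← mul_pow, ← mul_pow]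
          congr 1
          field_simp
      _ ≤ ENNReal.ofReal (2 * Q / α) ^ n * volume A := by gcongr
  rcases hQ.eq_or_lt with hQ0 | hQ0
  · -- Q = 0
    have h0 : ∫⁻ x, ℓ (c • x + z) ^ n = 0 := by
      rw [← nonpos_iff_eq_zero]
      refine hpow.trans ?_
      rw [← hQ0]
      simp [show n ≠ 0 by omega]
    rw [lintegral_eq_zero_iff (hf.pow_const n)] at h0
    have h1 : ∫⁻ x, ℓ (c • x + z) = 0 := by
      rw [lintegral_eq_zero_iff hf]
      filter_upwards [h0] with x hx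
      exact (pow_eq_zero_iff (by omega)).1 hx
    have h2 : ∫⁻ x in A, ℓ (c • x + z) ≤ 0 := by
      rw [← h1]
      exact setLIntegral_le_lintegral _ _
    exact h2.trans zero_le
  · have ht0 : ENNReal.ofReal (2 * Q / α) ≠ 0 := by
      rw [Ne, ENNReal.ofReal_eq_zero, not_le]
      positivity
    have htt : ENNReal.ofReal (2 * Q / α) ≠ ⊤ := ENNReal.ofReal_ne_top
    set t := ENNReal.ofReal (2 * Q / α) with ht
    have hn0 : (n : ℝ≥0∞) ≠ 0 := by
      have : n ≠ 0 := by omega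
      exact_mod_cast this
    have hnt : (n : ℝ≥0∞) ≠ ⊤ := ENNReal.natCast_ne_top n
    have hu : ∫⁻ x in A, (ℓ (c • x + z) * t⁻¹) ^ n ≤ volume A := by
      have e : ∀ x, (ℓ (c • x + z) * t⁻¹) ^ n = ℓ (c • x + z) ^ n * (t⁻¹) ^ n := fun x => mul_pow _ _ _
      calc ∫⁻ x in A, (ℓ (c • x + z) * t⁻¹) ^ n = (∫⁻ x in A, ℓ (c • x + z) ^ n) * (t⁻¹) ^ n := by
            simp_rw [e]
            rw [lintegral_mul_const _ (hf.pow_const n)]
        _ ≤ (∫⁻ x, ℓ (c • x + z) ^ n) * (t⁻¹) ^ n := by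
            gcongr
            exact Measure.restrict_le_self
        _ ≤ (t ^ n * volume A) * (t⁻¹) ^ n := by gcongr
        _ = volume A := by
            rw [mul_comm (t ^ n), mul_assoc, ← mul_pow, ENNReal.mul_inv_cancel ht0 htt, one_pow,
              mul_one]
    have hmain : (n : ℝ≥0∞) * ∫⁻ x in A, (ℓ (c • x + z) * t⁻¹) ≤ (n : ℝ≥0∞) * volume A := by
      calc (n : ℝ≥0∞) * ∫⁻ x in A, (ℓ (c • x + z) * t⁻¹)
          = ∫⁻ x in A, (n : ℝ≥0∞) * (ℓ (c • x + z) * t⁻¹) := by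
            rw [lintegral_const_mul _ (hf.mul_const _)]
        _ ≤ ∫⁻ x in A, ((ℓ (c • x + z) * t⁻¹) ^ n + ((n - 1 : ℕ) : ℝ≥0∞)) :=
            lintegral_mono fun x => ost_young_ost_lost n hn _
        _ = (∫⁻ x in A, (ℓ (c • x + z) * t⁻¹) ^ n) + ((n - 1 : ℕ) : ℝ≥0∞) * volume A := by
            rw [lintegral_add_right _ measurable_const, setLIntegral_const]
        _ ≤ volume A + ((n - 1 : ℕ) : ℝ≥0∞) * volume A := by gcongr
        _ = (n : ℝ≥0∞) * volume A := by
            have : (n : ℝ≥0∞) = 1 + ((n - 1 : ℕ) : ℝ≥0∞) := by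
              have h : n = 1 + (n - 1) := by omega
              conv_lhs => rw [h]
              push_cast
              rfl
            rw [this, add_mul, one_mul]
    have h2 : ∫⁻ x in A, (ℓ (c • x + z) * t⁻¹) ≤ volume A :=
      (ENNReal.mul_le_mul_iff_right hn0 hnt).1 hmain
    calc ∫⁻ x in A, ℓ (c • x + z) = ∫⁻ x in A, t * (ℓ (c • x + z) * t⁻¹) := by
          apply lintegral_congr
          intro x
          rw [mul_comm t, mul_assoc, ENNReal.inv_mul_cancel ht0 htt, mul_one]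
      _ = t * ∫⁻ x in A, (ℓ (c • x + z) * t⁻¹) := by
          rw [lintegral_const_mul _ (hf.mul_const _)]
      _ ≤ t * volume A := by gcongr
      _ = volume A * t := mul_comm _ _

theorem ost_on_ae_lost {n : ℕ} {w : Eu n → ℝ} {ℓ : Eu n → ℝ≥0∞} {Ω : Set (Eu n)} (hΩ : IsOpen Ω)
    (hΩc : Convex ℝ Ω) (hw : ContinuousOn w Ω) (hℓ : Measurable ℓ) (hug : UGOn w ℓ Ω) :
    ∀ᵐ z : Eu n × Eu n ∂((volume : Measure (Eu n)).prod (volume : Measure (Eu n))),
      z.1 ∈ Ω → z.2 ∈ Ω → ENNReal.ofReal |w z.2 - w z.1| ≤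
        (∫⁻ s in Icc (0 : ℝ) 1, Ω.indicator ℓ (z.1 + s • (z.2 - z.1))) *
          ENNReal.ofReal ‖z.2 - z.1‖ := by
  classical
  set w' : Eu n → ℝ := Ω.piecewise w (fun _ => 0) with hw'
  have hw'm : Measurable w' :=
    hw.measurable_piecewise continuousOn_const hΩ.measurableSet
  set ℓ' : Eu n → ℝ≥0∞ := Ω.indicator ℓ with hℓ'
  have hℓ'm : Measurable ℓ' := hℓ.indicator hΩ.measurableSet
  let p : Eu n × Eu n → Prop := fun q => ENNReal.ofReal |w' (q.2 + q.1) - w' q.2| ≤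
    (∫⁻ s in Icc (0 : ℝ) 1, ℓ' (q.2 + s • q.1)) * ENNReal.ofReal ‖q.1‖
  have hm1 : Measurable (fun q : Eu n × Eu n => ENNReal.ofReal |w' (q.2 + q.1) - w' q.2|) := by
    apply Measurable.ennreal_ofReal
    have h1 : Measurable (fun q : Eu n × Eu n => w' (q.2 + q.1)) :=
      hw'm.comp (measurable_snd.add measurable_fst)
    have h2 : Measurable (fun q : Eu n × Eu n => w' q.2) := hw'm.comp measurable_snd
    exact continuous_abs.measurable.comp (h1.sub h2)
  have hm2 : Measurable (fun q : Eu n × Eu n => ∫⁻ s in Icc (0 : ℝ) 1, ℓ' (q.2 + s • q.1)) := by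
    have : Measurable (fun r : (Eu n × Eu n) × ℝ => ℓ' (r.1.2 + r.2 • r.1.1)) := by
      apply hℓ'm.comp
      have : Continuous (fun r : (Eu n × Eu n) × ℝ => r.1.2 + r.2 • r.1.1) := by fun_prop
      exact this.measurable
    exact this.lintegral_prod_right'
  have hm3 : Measurable (fun q : Eu n × Eu n => ENNReal.ofReal ‖q.1‖) :=
    (measurable_fst.norm).ennreal_ofReal
  have hmeas : MeasurableSet {q | p q} := measurableSet_le hm1 (hm2.mul hm3)
  have hmS : MeasurableSet {q : Eu n × Eu n | q.2 ∈ Ω ∧ q.2 + q.1 ∈ Ω} := by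
    refine MeasurableSet.inter ?_ ?_
    · exact measurable_snd hΩ.measurableSet
    · exact (measurable_snd.add measurable_fst) hΩ.measurableSet
  have hp : ∀ᵐ q ∂((volume : Measure (Eu n)).prod (volume : Measure (Eu n))),
      (q.2 ∈ Ω ∧ q.2 + q.1 ∈ Ω) → p q := by
    rw [ae_iff]
    have hmc : MeasurableSet {q : Eu n × Eu n | ¬ ((q.2 ∈ Ω ∧ q.2 + q.1 ∈ Ω) → p q)} := by
      have : {q : Eu n × Eu n | ¬ ((q.2 ∈ Ω ∧ q.2 + q.1 ∈ Ω) → p q)} =
          {q : Eu n × Eu n | q.2 ∈ Ω ∧ q.2 + q.1 ∈ Ω} ∩ {q | p q}ᶜ := by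
        ext q
        simp only [Set.mem_setOf_eq, Classical.not_imp, Set.mem_inter_iff, Set.mem_compl_iff]
      rw [this]
      exact hmS.inter hmeas.compl
    rw [Measure.measure_prod_null hmc]
    refine Filter.Eventually.of_forall fun v => ?_
    have hv : ∀ᵐ x : Eu n, (x ∈ Ω ∧ x + v ∈ Ω) → p (v, x) := by
      filter_upwards [hug v] with x hx hxx
      have hseg : ∀ s ∈ Icc (0 : ℝ) 1, x + s • v ∈ Ω := by
        intro s hs
        have := hΩc hxx.1 hxx.2 (sub_nonneg.mpr hs.2) hs.1 (by ring)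
        have e : (1 - s) • x + s • (x + v) = x + s • v := by
          rw [smul_add, ← add_assoc, ← add_smul]
          simp
        rwa [e] at this
      have h1 := hx hseg
      have e1 : w' (x + v) = w (x + v) := Set.piecewise_eq_of_mem _ _ _ hxx.2
      have e2 : w' x = w x := Set.piecewise_eq_of_mem _ _ _ hxx.1
      have e3 : ∫⁻ s in Icc (0 : ℝ) 1, ℓ' (x + s • v) = ∫⁻ s in Icc (0 : ℝ) 1, ℓ (x + s • v) :=
        setLIntegral_congr_fun measurableSet_Icc fun s hs => by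
          simp only [hℓ', Set.indicator_of_mem (hseg s hs)]
      show ENNReal.ofReal |w' (x + v) - w' x| ≤
        (∫⁻ s in Icc (0 : ℝ) 1, ℓ' (x + s • v)) * ENNReal.ofReal ‖v‖
      rw [e1, e2, e3]
      exact h1
    rw [ae_iff] at hv
    exact hv
  have hΦ : MeasurePreserving (fun z : Eu n × Eu n => (-z.1 + z.2, z.1))
      ((volume : Measure (Eu n)).prod (volume : Measure (Eu n)))
      ((volume : Measure (Eu n)).prod (volume : Measure (Eu n))) :=
    (Measure.measurePreserving_swap).comp (measurePreserving_prod_neg_add volume volume)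
  have := hΦ.quasiMeasurePreserving.ae hp
  filter_upwards [this] with z hz hz1 hz2
  have e1 : z.1 + (-z.1 + z.2) = z.2 := by abel
  have e2 : -z.1 + z.2 = z.2 - z.1 := by abel
  simp only [p] at hz
  rw [e1, e2] at hz
  have h3 := hz ⟨hz1, hz2⟩
  have e4 : w' z.2 = w z.2 := Set.piecewise_eq_of_mem _ _ _ hz2
  have e5 : w' z.1 = w z.1 := Set.piecewise_eq_of_mem _ _ _ hz1
  rw [e4, e5] at h3
  exact h3

theorem ost_on {n : ℕ} (hn : 1 ≤ n) {w : Eu n → ℝ} {ℓ : Eu n → ℝ≥0∞} {Ω : Set (Eu n)} (hΩ : IsOpen Ω)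
    (hΩc : Convex ℝ Ω) (hw : ContinuousOn w Ω) (hℓ : Measurable ℓ)
    (hug : UGOn w ℓ Ω) {Q : ℝ} (hQ : 0 ≤ Q) (hE : ∫⁻ x in Ω, ℓ x ^ n ≤ ENNReal.ofReal (Q ^ n) * vb n)
    {A B : Set (Eu n)} (hA : MeasurableSet A) (hB : MeasurableSet B) (hAΩ : A ⊆ Ω) (hBΩ : B ⊆ Ω)
    {D α : ℝ} (hD : 0 ≤ D) (hα : 0 < α) (hAB : ∀ x ∈ A, ∀ y ∈ B, dist x y ≤ D)
    (hAv : ENNReal.ofReal (α ^ n) * vb n ≤ volume A) (hBv : ENNReal.ofReal (α ^ n) * vb n ≤ volume B)
    (hAf : volume A ≠ ⊤) (hBf : volume B ≠ ⊤) :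
    ∫⁻ x in A, ∫⁻ y in B, ENNReal.ofReal |w y - w x| ≤
      volume A * volume B * ENNReal.ofReal (2 * D * Q / α) := by
  have hℓ0 := hℓ
  have hE' : ∫⁻ x, Ω.indicator ℓ x ^ n ≤ ENNReal.ofReal (Q ^ n) * vb n := by
    have e : ∀ x, Ω.indicator ℓ x ^ n = Ω.indicator (fun x => ℓ x ^ n) x := by
      intro x
      by_cases hx : x ∈ Ω
      · rw [Set.indicator_of_mem hx, Set.indicator_of_mem hx]
      · rw [Set.indicator_of_notMem hx, Set.indicator_of_notMem hx, zero_pow (by omega)]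
    rw [lintegral_congr e, lintegral_indicator hΩ.measurableSet]
    exact hE
  have hℓ' : Measurable (Ω.indicator ℓ) := hℓ.indicator hΩ.measurableSet
  clear hE
  have hae := Measure.ae_ae_of_ae_prod (ost_on_ae_lost hΩ hΩc hw hℓ0 hug)
  clear hug
  generalize hgen : Ω.indicator ℓ = ℓ' at hae hE' hℓ'
  clear hgen hℓ hℓ0
  rename' ℓ => ℓold
  rename' ℓ' => ℓ, hE' => hE, hℓ' => hℓ
  have hcomb : ∀ (x y : Eu n) (s : ℝ), x + s • (y - x) = (1 - s) • x + s • y := by
    intro x y s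
    rw [smul_sub, sub_smul, one_smul]
    abel
  -- step 1
  have h1 : ∫⁻ x in A, ∫⁻ y in B, ENNReal.ofReal |w y - w x| ≤
      ∫⁻ x in A, ∫⁻ y in B, (∫⁻ s in Icc (0 : ℝ) 1, ℓ (x + s • (y - x))) * ENNReal.ofReal D := by
    apply lintegral_mono_ae
    filter_upwards [ae_restrict_of_ae hae, ae_restrict_mem hA] with x hx hxA
    apply lintegral_mono_ae
    filter_upwards [ae_restrict_of_ae hx, ae_restrict_mem hB] with y hy hyB
    refine (hy (hAΩ hxA) (hBΩ hyB)).trans ?_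
    gcongr
    show ‖y - x‖ ≤ D
    rw [← dist_eq_norm, dist_comm]
    exact hAB x hxA y hyB
  refine h1.trans ?_
  have hmeas3 : Measurable (fun r : (Eu n × Eu n) × ℝ => ℓ (r.1.1 + r.2 • (r.1.2 - r.1.1))) := by
    apply hℓ.comp
    have : Continuous (fun r : (Eu n × Eu n) × ℝ => r.1.1 + r.2 • (r.1.2 - r.1.1)) := by fun_prop
    exact this.measurable
  have hg : Measurable (fun q : Eu n × Eu n => ∫⁻ s in Icc (0 : ℝ) 1, ℓ (q.1 + s • (q.2 - q.1))) :=
    hmeas3.lintegral_prod_right'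
  have h2 : ∫⁻ x in A, ∫⁻ y in B, (∫⁻ s in Icc (0 : ℝ) 1, ℓ (x + s • (y - x))) * ENNReal.ofReal D =
      (∫⁻ x in A, ∫⁻ y in B, ∫⁻ s in Icc (0 : ℝ) 1, ℓ (x + s • (y - x))) * ENNReal.ofReal D := by
    rw [← lintegral_mul_const _ (hg.lintegral_prod_right')]
    apply lintegral_congr
    intro x
    rw [lintegral_mul_const]
    exact hg.comp (measurable_const.prodMk measurable_id)
  have h3 : ∫⁻ x in A, ∫⁻ y in B, ∫⁻ s in Icc (0 : ℝ) 1, ℓ (x + s • (y - x)) =
      ∫⁻ s in Icc (0 : ℝ) 1, ∫⁻ x in A, ∫⁻ y in B, ℓ (x + s • (y - x)) := by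
    have e1 : ∀ x : Eu n, ∫⁻ y in B, ∫⁻ s in Icc (0 : ℝ) 1, ℓ (x + s • (y - x)) =
        ∫⁻ s in Icc (0 : ℝ) 1, ∫⁻ y in B, ℓ (x + s • (y - x)) := by
      intro x
      apply lintegral_lintegral_swap
      apply Measurable.aemeasurable
      apply hℓ.comp
      have : Continuous (fun r : Eu n × ℝ => x + r.2 • (r.1 - x)) := by fun_prop
      exact this.measurable
    rw [lintegral_congr e1]
    apply lintegral_lintegral_swap
    apply Measurable.aemeasurable
    have : Measurable (fun r : (Eu n × ℝ) × Eu n => ℓ (r.1.1 + r.1.2 • (r.2 - r.1.1))) := by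
      apply hℓ.comp
      have : Continuous (fun r : (Eu n × ℝ) × Eu n => r.1.1 + r.1.2 • (r.2 - r.1.1)) := by fun_prop
      exact this.measurable
    exact this.lintegral_prod_right'
  have h4 : ∀ s ∈ Icc (0 : ℝ) 1, ∫⁻ x in A, ∫⁻ y in B, ℓ (x + s • (y - x)) ≤
      volume A * volume B * ENNReal.ofReal (2 * Q / α) := by
    intro s hs
    by_cases hs2 : s ≤ 1 / 2
    · rw [lintegral_lintegral_swap]
      · calc ∫⁻ y in B, ∫⁻ x in A, ℓ (x + s • (y - x)) ≤
            ∫⁻ y in B, volume A * ENNReal.ofReal (2 * Q / α) := by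
              apply lintegral_mono
              intro y
              have := ost_one_ost_lost hn hℓ hQ hE hα hAv hAf (1 - s) (by linarith) (s • y)
              simp_rw [hcomb]
              exact this
          _ = volume A * volume B * ENNReal.ofReal (2 * Q / α) := by
              rw [setLIntegral_const]
              ring
      · apply Measurable.aemeasurable
        apply hℓ.comp
        have : Continuous (fun r : Eu n × Eu n => r.1 + s • (r.2 - r.1)) := by fun_prop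
        exact this.measurable
    · calc ∫⁻ x in A, ∫⁻ y in B, ℓ (x + s • (y - x)) ≤
            ∫⁻ x in A, volume B * ENNReal.ofReal (2 * Q / α) := by
              apply lintegral_mono
              intro x
              have := ost_one_ost_lost hn hℓ hQ hE hα hBv hBf s (by linarith) ((1 - s) • x)
              have e : ∀ y : Eu n, x + s • (y - x) = s • y + (1 - s) • x := by
                intro y
                rw [hcomb, add_comm]
              simp_rw [e]
              exact this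
          _ = volume A * volume B * ENNReal.ofReal (2 * Q / α) := by
              rw [setLIntegral_const]
              ring
  rw [h2, h3]
  have h5 : ∫⁻ s in Icc (0 : ℝ) 1, ∫⁻ x in A, ∫⁻ y in B, ℓ (x + s • (y - x)) ≤
      volume A * volume B * ENNReal.ofReal (2 * Q / α) := by
    calc ∫⁻ s in Icc (0 : ℝ) 1, ∫⁻ x in A, ∫⁻ y in B, ℓ (x + s • (y - x)) ≤
        ∫⁻ s in Icc (0 : ℝ) 1, volume A * volume B * ENNReal.ofReal (2 * Q / α) :=
          setLIntegral_mono' measurableSet_Icc h4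
      _ = volume A * volume B * ENNReal.ofReal (2 * Q / α) := by
          rw [setLIntegral_const, Real.volume_Icc]
          simp
  calc (∫⁻ s in Icc (0 : ℝ) 1, ∫⁻ x in A, ∫⁻ y in B, ℓ (x + s • (y - x))) * ENNReal.ofReal D
      ≤ (volume A * volume B * ENNReal.ofReal (2 * Q / α)) * ENNReal.ofReal D := by gcongr
    _ = volume A * volume B * ENNReal.ofReal (2 * D * Q / α) := by
        rw [mul_assoc, ← ENNReal.ofReal_mul (by positivity)]
        congr 2
        ring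

end

end Pool.Agent.Helper746.Qc
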