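import Mathlib
import Pool.Agent.Helper746.QcDefs
import Pool.Agent.Helper746.QcLDefs
import Pool.Agent.Helper746.QcNDefs
import Pool.Agent.Helper746.QcVol
import Pool.Agent.Helper746.QcLost
import Pool.Agent.Helper746.QcLradial

set_option autoImplicit false

namespace Pool.Agent.Helper746.Qc

open Set Metric MeasureTheory Filter Topology
open scoped ENNReal NNReal

noncomputable section

theorem g0_9634_ltransport {n : ℕ} {w : Eu n → ℝ} {Ω : Set (Eu n)} (hw : ContinuousOn w Ω) (hΩ : IsOpen Ω)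
    {T : ℝ} (hwT : ∀ x, 0 ≤ w x ∧ w x ≤ T) {S : Set (Eu n)} (hS : volume S ≠ ⊤) (hSΩ : S ⊆ Ω) :
    IntegrableOn w S := by
  refine IntegrableOn.of_bound hS.lt_top
    ((hw.aestronglyMeasurable hΩ.measurableSet).mono_measure (Measure.restrict_mono hSΩ le_rfl)) T ?_
  refine Filter.Eventually.of_forall fun x => ?_
  rw [Real.norm_eq_abs, abs_of_nonneg (hwT x).1]
  exact (hwT x).2

theorem g1_7999_transport_ltransport {n : ℕ} {w : Eu n → ℝ}
    {A B : Set (Eu n)} {C : ℝ} (hC : 0 ≤ C) (hiA : IntegrableOn w A) (hiB : IntegrableOn w B)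
    (hA0 : volume A ≠ 0) (hAf : volume A ≠ ⊤) (hB0 : volume B ≠ 0) (hBf : volume B ≠ ⊤)
    (h : ∫⁻ x in A, ∫⁻ y in B, ENNReal.ofReal |w y - w x| ≤
      volume A * volume B * ENNReal.ofReal C) :
    |(volume B).toReal⁻¹ * (∫ y in B, w y) - (volume A).toReal⁻¹ * (∫ x in A, w x)| ≤ C := by
  have hconst : ∀ x : Eu n, ∫ y in B, (w y - w x) = (∫ y in B, w y) - (volume B).toReal * w x := by
    intro x
    rw [integral_sub hiB (integrableOn_const hBf)]
    rw [setIntegral_const]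
    simp [Measure.real]
  have hdouble : ∫ x in A, (∫ y in B, (w y - w x)) =
      (volume A).toReal * (∫ y in B, w y) - (volume B).toReal * ∫ x in A, w x := by
    simp_rw [hconst]
    have hk : Integrable (fun _ : Eu n => ∫ y in B, w y) (volume.restrict A) :=
      integrableOn_const hAf
    rw [integral_sub hk (hiA.const_mul _)]
    rw [setIntegral_const, integral_const_mul]
    simp [Measure.real]
  have h1 : ENNReal.ofReal |(volume A).toReal * (∫ y in B, w y) - (volume B).toReal * ∫ x in A, w x| ≤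
      volume A * volume B * ENNReal.ofReal C := by
    rw [← hdouble, ← Real.enorm_eq_ofReal_abs]
    refine le_trans (enorm_integral_le_lintegral_enorm _) (le_trans ?_ h)
    refine lintegral_mono fun x => ?_
    refine le_trans (enorm_integral_le_lintegral_enorm _) ?_
    refine lintegral_mono fun y => ?_
    rw [Real.enorm_eq_ofReal_abs]
  have ha : 0 < (volume A).toReal := ENNReal.toReal_pos hA0 hAf
  have hb : 0 < (volume B).toReal := ENNReal.toReal_pos hB0 hBf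
  have h2 : |(volume A).toReal * (∫ y in B, w y) - (volume B).toReal * ∫ x in A, w x| ≤
      (volume A).toReal * (volume B).toReal * C := by
    have h3 : volume A * volume B * ENNReal.ofReal C =
        ENNReal.ofReal ((volume A).toReal * (volume B).toReal * C) := by
      rw [ENNReal.ofReal_mul (by positivity), ENNReal.ofReal_mul (by positivity),
        ENNReal.ofReal_toReal hAf, ENNReal.ofReal_toReal hBf]
    rw [h3] at h1
    exact (ENNReal.ofReal_le_ofReal_iff (by positivity)).1 h1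
  have h4 : (volume B).toReal⁻¹ * (∫ y in B, w y) - (volume A).toReal⁻¹ * (∫ x in A, w x) =
      ((volume A).toReal * (∫ y in B, w y) - (volume B).toReal * ∫ x in A, w x) /
        ((volume A).toReal * (volume B).toReal) := by
    field_simp
  rw [h4, abs_div, abs_of_pos (mul_pos ha hb), div_le_iff₀ (mul_pos ha hb)]
  linarith

open scoped Pointwise in
theorem cov_7999_transport_ltransport {n : ℕ} (w : Eu n → ℝ) (z : Eu n) {r : ℝ} (hr : 0 < r) :
    ∫ y in ball z r, w y = r ^ n * ∫ x in ball (0 : Eu n) 1, w (z + r • x) := by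
  have h1 := Measure.setIntegral_comp_smul_of_pos (μ := (volume : Measure (Eu n)))
    (fun x => w (z + x)) (ball (0 : Eu n) 1) hr
  rw [h1]
  have h2 : r • ball (0 : Eu n) 1 = ball 0 r := by
    rw [smul_unitBall_of_pos hr]
  rw [h2]
  have h3 : Module.finrank ℝ (Eu n) = n := by simp [Eu]
  rw [h3, smul_eq_mul, ← mul_assoc, mul_inv_cancel₀ (pow_ne_zero _ hr.ne'), one_mul]
  have h4 := (measurePreserving_add_left (volume : Measure (Eu n)) z).setIntegral_preimage_emb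
    (MeasurableEquiv.addLeft z).measurableEmbedding w (ball z r)
  have h5 : (fun x => z + x) ⁻¹' ball z r = ball (0 : Eu n) r := by
    ext x
    simp [mem_ball, dist_eq_norm]
  rw [h5] at h4
  exact h4.symm

theorem g2_7999_transport_ltransport {n : ℕ} (hn : 1 ≤ n) {w : Eu n → ℝ} {Ω : Set (Eu n)} (hw : ContinuousOn w Ω)
    {T : ℝ} (hwT : ∀ x, 0 ≤ w x ∧ w x ≤ T) (z : Eu n) {s R C : ℝ} (hs : 0 < s) (hR : 0 < R) (hsR : s ≤ R)
    (hzΩ : ball z R ⊆ Ω) (hC : 0 ≤ C)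
    (h : ∫⁻ x in ball (0 : Eu n) 1, ENNReal.ofReal |w (z + R • x) - w (z + s • x)| ≤
      ENNReal.ofReal C * vb n) :
    |(volume (ball z R)).toReal⁻¹ * (∫ y in ball z R, w y) -
      (volume (ball z s)).toReal⁻¹ * (∫ y in ball z s, w y)| ≤ C := by
  have hv : 0 < (vb n).toReal := ENNReal.toReal_pos (vb_pos n).ne' (vb_lt_top n).ne
  have hav : ∀ r : ℝ, 0 < r → (volume (ball z r)).toReal⁻¹ * (∫ y in ball z r, w y) =
      (vb n).toReal⁻¹ * ∫ x in ball (0 : Eu n) 1, w (z + r • x) := by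
    intro r hr
    rw [cov_7999_transport_ltransport w z hr, volume_ball_eq z hr.le hn, ENNReal.toReal_mul,
      ENNReal.toReal_ofReal (by positivity)]
    have : r ^ n ≠ 0 := pow_ne_zero _ hr.ne'
    field_simp
  rw [hav R hR, hav s hs]
  have hbf : volume (ball (0 : Eu n) 1) ≠ ⊤ := (vb_lt_top n).ne
  have hint : ∀ r : ℝ, 0 < r → r ≤ R → IntegrableOn (fun x => w (z + r • x)) (ball (0 : Eu n) 1) := by
    intro r hr0 hrR
    have hco : ContinuousOn (fun x => w (z + r • x)) (ball (0 : Eu n) 1) := by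
      refine hw.comp (by fun_prop) ?_
      intro x hx
      apply hzΩ
      rw [mem_ball_zero_iff] at hx
      rw [mem_ball, dist_eq_norm, add_sub_cancel_left, norm_smul, Real.norm_eq_abs, abs_of_pos hr0]
      nlinarith [norm_nonneg x]
    refine IntegrableOn.of_bound hbf.lt_top
      (hco.aestronglyMeasurable measurableSet_ball) T ?_
    refine Filter.Eventually.of_forall fun x => ?_
    rw [Real.norm_eq_abs, abs_of_nonneg (hwT _).1]
    exact (hwT _).2
  have h1 : ENNReal.ofReal |(∫ x in ball (0 : Eu n) 1, w (z + R • x)) -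
      ∫ x in ball (0 : Eu n) 1, w (z + s • x)| ≤ ENNReal.ofReal C * vb n := by
    rw [← integral_sub (hint R hR le_rfl) (hint s hs hsR), ← Real.enorm_eq_ofReal_abs]
    refine le_trans (enorm_integral_le_lintegral_enorm _) (le_trans ?_ h)
    refine lintegral_mono fun y => ?_
    rw [Real.enorm_eq_ofReal_abs]
  have h2 : |(∫ x in ball (0 : Eu n) 1, w (z + R • x)) -
      ∫ x in ball (0 : Eu n) 1, w (z + s • x)| ≤ C * (vb n).toReal := by
    have h3 : ENNReal.ofReal C * vb n = ENNReal.ofReal (C * (vb n).toReal) := by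
      rw [ENNReal.ofReal_mul hC, ENNReal.ofReal_toReal (vb_lt_top n).ne]
    rw [h3] at h1
    exact (ENNReal.ofReal_le_ofReal_iff (by positivity)).1 h1
  rw [← mul_sub, abs_mul, abs_of_pos (inv_pos.2 hv), inv_mul_le_iff₀ hv]
  linarith

theorem rad_7999_transport_ltransport {n : ℕ} (hn : 2 ≤ n) {w : Eu n → ℝ} {ℓ : Eu n → ℝ≥0∞} {Ω : Set (Eu n)}
    (hΩ : IsOpen Ω) (hΩc : Convex ℝ Ω) (hw : ContinuousOn w Ω)
    (hℓ : Measurable ℓ) (hug : UGOn w ℓ Ω) {Q : ℝ} (hQ : 0 ≤ Q)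
    (hE : ∫⁻ x in Ω, ℓ x ^ n ≤ ENNReal.ofReal (Q ^ n) * vb n)
    {T : ℝ} (hwT : ∀ x, 0 ≤ w x ∧ w x ≤ T) {x₁ : Eu n} {d₁ R : ℝ} (hd₁ : 0 < d₁) (hd₁R : d₁ ≤ R)
    (hb : ball x₁ (4 * R) ⊆ Ω) :
    ∃ z ∈ ball x₁ d₁, |(volume (ball z (3 * R))).toReal⁻¹ * (∫ y in ball z (3 * R), w y) -
      (volume (ball z (3 * d₁))).toReal⁻¹ * (∫ y in ball z (3 * d₁), w y)| ≤
      Q * (1 + Real.log (R / d₁)) ^ (((n : ℝ) - 1) / n) := by
  have hR : 0 < R := lt_of_lt_of_le hd₁ hd₁R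
  have h := radial_on hn hΩ hΩc hw hℓ hug hQ hE (s := 3 * d₁) (R := 3 * R) (by positivity)
    (by linarith)
  have hpos : volume (ball x₁ d₁) ≠ 0 := (measure_ball_pos volume x₁ hd₁).ne'
  obtain ⟨z, hz, hz2⟩ := Measure.exists_mem_of_measure_ne_zero_of_ae hpos (ae_restrict_of_ae h)
  refine ⟨z, hz, ?_⟩
  have hzb : ball z (3 * R) ⊆ Ω := by
    refine Subset.trans ?_ hb
    apply ball_subset_ball'
    have : dist z x₁ < d₁ := hz
    linarith
  replace hz2 := hz2 hzb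
  have he : 3 * R / (3 * d₁) = R / d₁ := by
    field_simp
  rw [he] at hz2
  have hlog : 0 ≤ Real.log (R / d₁) := Real.log_nonneg (by rw [le_div_iff₀ hd₁]; linarith)
  refine g2_7999_transport_ltransport (by omega) hw hwT z (by positivity) (by positivity) (by linarith) hzb ?_ hz2
  exact mul_nonneg hQ (Real.rpow_nonneg (by linarith) _)

theorem near_7999_transport_ltransport {n : ℕ} (hn : 2 ≤ n) {w : Eu n → ℝ} {ℓ : Eu n → ℝ≥0∞} {Ω : Set (Eu n)}
    (hΩ : IsOpen Ω) (hΩc : Convex ℝ Ω) (hw : ContinuousOn w Ω)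
    (hℓ : Measurable ℓ) (hug : UGOn w ℓ Ω) {Q : ℝ} (hQ : 0 ≤ Q)
    (hE : ∫⁻ x in Ω, ℓ x ^ n ≤ ENNReal.ofReal (Q ^ n) * vb n)
    {T : ℝ} (hwT : ∀ x, 0 ≤ w x ∧ w x ≤ T) {x₁ z : Eu n} {d₁ c : ℝ} (hd₁ : 0 < d₁)
    (hc : 0 < c) (hc1 : c ≤ 1) (hz : z ∈ ball x₁ d₁) (hb : ball x₁ (4 * d₁) ⊆ Ω)
    {V₁ : Set (Eu n)} (hV₁ : MeasurableSet V₁)
    (hV₁s : V₁ ⊆ closedBall x₁ (2 * d₁))
    (hV₁v : ENNReal.ofReal ((c * d₁) ^ n) * vb n ≤ volume V₁) {t : ℝ} (hw₁ : ∀ x ∈ V₁, w x = t) :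
    |(volume (ball z (3 * d₁))).toReal⁻¹ * (∫ y in ball z (3 * d₁), w y) - t| ≤ 12 * Q / c := by
  have hn1 : 1 ≤ n := by omega
  have hVf : volume V₁ ≠ ⊤ :=
    (lt_of_le_of_lt (measure_mono hV₁s) measure_closedBall_lt_top).ne
  have hV0 : volume V₁ ≠ 0 := by
    refine (lt_of_lt_of_le ?_ hV₁v).ne'
    refine ENNReal.mul_pos ?_ (vb_pos n).ne'
    rw [Ne, ENNReal.ofReal_eq_zero, not_le]
    positivity
  have hB0 : volume (ball z (3 * d₁)) ≠ 0 := (measure_ball_pos volume z (by positivity)).ne'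
  have hBf : volume (ball z (3 * d₁)) ≠ ⊤ := measure_ball_lt_top.ne
  have hm : (volume V₁).toReal⁻¹ * (∫ y in V₁, w y) = t := by
    have : ∫ y in V₁, w y = ∫ y in V₁, t := setIntegral_congr_fun hV₁ (fun y hy => hw₁ y hy)
    rw [this, setIntegral_const, smul_eq_mul]
    have hv : 0 < (volume V₁).toReal := ENNReal.toReal_pos hV0 hVf
    rw [Measure.real, ← mul_assoc, inv_mul_cancel₀ hv.ne', one_mul]
  have hVΩ : V₁ ⊆ Ω := hV₁s.trans ((closedBall_subset_ball (by linarith)).trans hb)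
  have hBΩ : ball z (3 * d₁) ⊆ Ω := by
    refine Subset.trans ?_ hb
    apply ball_subset_ball'
    have : dist z x₁ < d₁ := hz
    linarith
  have host := ost_on hn1 hΩ hΩc hw hℓ hug hQ hE hV₁ (measurableSet_ball (x := z) (ε := 3 * d₁)) hVΩ hBΩ
    (D := 6 * d₁) (α := c * d₁) (by positivity) (by positivity) ?_ hV₁v ?_ hVf hBf
  · have he : 2 * (6 * d₁) * Q / (c * d₁) = 12 * Q / c := by
      rw [div_eq_div_iff (by positivity) (by positivity)]
      ring
    rw [he] at host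
    have := g1_7999_transport_ltransport (by positivity) (g0_9634_ltransport hw hΩ hwT hVf hVΩ) (g0_9634_ltransport hw hΩ hwT hBf hBΩ) hV0 hVf hB0 hBf host
    rwa [hm] at this
  · intro x hx y hy
    have h1 : dist x x₁ ≤ 2 * d₁ := hV₁s hx
    have h2 : dist y z < 3 * d₁ := hy
    have h3 : dist z x₁ < d₁ := hz
    have h4 := dist_triangle x x₁ y
    have h5 := dist_triangle x₁ z y
    rw [dist_comm x₁ z, dist_comm z y] at h5
    linarith
  · rw [volume_ball_eq z (by positivity) hn1]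
    refine mul_le_mul_left ?_ _
    refine ENNReal.ofReal_le_ofReal ?_
    refine pow_le_pow_left₀ (by positivity) ?_ n
    nlinarith

/-- combined local transport inequality: `w` is `0` on `V₁` and `T` on `V₂`. -/
theorem transport_on {n : ℕ} (hn : 2 ≤ n) {w : Eu n → ℝ} {ℓ : Eu n → ℝ≥0∞} {Ω : Set (Eu n)}
    (hΩ : IsOpen Ω) (hΩc : Convex ℝ Ω) (hw : ContinuousOn w Ω) (hℓ : Measurable ℓ)
    (hug : UGOn w ℓ Ω) {Q : ℝ} (hQ : 0 ≤ Q) (hE : ∫⁻ x in Ω, ℓ x ^ n ≤ ENNReal.ofReal (Q ^ n) * vb n)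
    {T : ℝ} (hT : 0 ≤ T) (hwT : ∀ x, 0 ≤ w x ∧ w x ≤ T)
    {x₁ x₂ : Eu n} {d₁ d₂ R c : ℝ} (hd₁ : 0 < d₁) (hd₂ : 0 < d₂) (hd₁R : d₁ ≤ R) (hd₂R : d₂ ≤ R)
    (hx : dist x₁ x₂ ≤ R) (hc : 0 < c) (hc1 : c ≤ 1) (hΩb : ball x₁ (5 * R) ⊆ Ω)
    {V₁ V₂ : Set (Eu n)} (hV₁ : MeasurableSet V₁) (hV₂ : MeasurableSet V₂)
    (hV₁s : V₁ ⊆ closedBall x₁ (2 * d₁)) (hV₂s : V₂ ⊆ closedBall x₂ (2 * d₂))
    (hV₁v : ENNReal.ofReal ((c * d₁) ^ n) * vb n ≤ volume V₁)
    (hV₂v : ENNReal.ofReal ((c * d₂) ^ n) * vb n ≤ volume V₂)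
    (hw₁ : ∀ x ∈ V₁, w x = 0) (hw₂ : ∀ x ∈ V₂, w x = T) :
    T ≤ Q * (24 / c + 6 + (1 + Real.log (R / d₁)) ^ (((n : ℝ) - 1) / n) +
      (1 + Real.log (R / d₂)) ^ (((n : ℝ) - 1) / n)) := by
  have hn1 : 1 ≤ n := by omega
  have hR : 0 < R := lt_of_lt_of_le hd₁ hd₁R
  have hb1 : ball x₁ (4 * R) ⊆ Ω := (ball_subset_ball (by linarith)).trans hΩb
  have hb2 : ball x₂ (4 * R) ⊆ Ω := by
    refine Subset.trans ?_ hΩb
    apply ball_subset_ball'
    rw [dist_comm]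
    linarith
  have hb1' : ball x₁ (4 * d₁) ⊆ Ω := (ball_subset_ball (by linarith)).trans hb1
  have hb2' : ball x₂ (4 * d₂) ⊆ Ω := (ball_subset_ball (by linarith)).trans hb2
  obtain ⟨z₁, hz₁, hr₁⟩ := rad_7999_transport_ltransport hn hΩ hΩc hw hℓ hug hQ hE hwT (x₁ := x₁) hd₁ hd₁R hb1
  obtain ⟨z₂, hz₂, hr₂⟩ := rad_7999_transport_ltransport hn hΩ hΩc hw hℓ hug hQ hE hwT (x₁ := x₂) hd₂ hd₂R hb2
  have hn₁ := near_7999_transport_ltransport hn hΩ hΩc hw hℓ hug hQ hE hwT hd₁ hc hc1 hz₁ hb1' hV₁ hV₁s hV₁v hw₁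
  have hn₂ := near_7999_transport_ltransport hn hΩ hΩc hw hℓ hug hQ hE hwT hd₂ hc hc1 hz₂ hb2' hV₂ hV₂s hV₂v hw₂
  have hz1Ω : ball z₁ (3 * R) ⊆ Ω := by
    refine Subset.trans ?_ hb1
    apply ball_subset_ball'
    have : dist z₁ x₁ < d₁ := hz₁
    linarith
  have hz2Ω : ball z₂ (3 * R) ⊆ Ω := by
    refine Subset.trans ?_ hb2
    apply ball_subset_ball'
    have : dist z₂ x₂ < d₂ := hz₂
    linarith
  have hfar : |(volume (ball z₂ (3 * R))).toReal⁻¹ * (∫ y in ball z₂ (3 * R), w y) -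
      (volume (ball z₁ (3 * R))).toReal⁻¹ * (∫ y in ball z₁ (3 * R), w y)| ≤ 6 * Q := by
    have hB10 : volume (ball z₁ (3 * R)) ≠ 0 := (measure_ball_pos volume z₁ (by positivity)).ne'
    have hB1f : volume (ball z₁ (3 * R)) ≠ ⊤ := measure_ball_lt_top.ne
    have hB20 : volume (ball z₂ (3 * R)) ≠ 0 := (measure_ball_pos volume z₂ (by positivity)).ne'
    have hB2f : volume (ball z₂ (3 * R)) ≠ ⊤ := measure_ball_lt_top.ne
    have host := ost_on hn1 hΩ hΩc hw hℓ hug hQ hE (measurableSet_ball (x := z₁) (ε := 3 * R))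
      (measurableSet_ball (x := z₂) (ε := 3 * R)) hz1Ω hz2Ω
      (D := 9 * R) (α := 3 * R) (by positivity) (by positivity) ?_ ?_ ?_ hB1f hB2f
    · have he : 2 * (9 * R) * Q / (3 * R) = 6 * Q := by
        rw [div_eq_iff (by positivity)]
        ring
      rw [he] at host
      exact g1_7999_transport_ltransport (by positivity) (g0_9634_ltransport hw hΩ hwT hB1f hz1Ω) (g0_9634_ltransport hw hΩ hwT hB2f hz2Ω) hB10 hB1f hB20 hB2f host
    · intro x hx' y hy
      have h1 : dist x z₁ < 3 * R := hx'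
      have h2 : dist y z₂ < 3 * R := hy
      have h3 : dist z₁ x₁ < d₁ := hz₁
      have h3' : dist z₂ x₂ < d₂ := hz₂
      have h4 := dist_triangle x z₁ y
      have h5 := dist_triangle z₁ z₂ y
      have h6 := dist_triangle z₁ x₁ z₂
      have h7 := dist_triangle x₁ x₂ z₂
      rw [dist_comm x₂ z₂] at h7
      rw [dist_comm z₂ y] at h5
      linarith
    · rw [volume_ball_eq z₁ (by positivity) hn1]
    · rw [volume_ball_eq z₂ (by positivity) hn1]
  have e : Q * (24 / c + 6 + (1 + Real.log (R / d₁)) ^ (((n : ℝ) - 1) / n) +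
      (1 + Real.log (R / d₂)) ^ (((n : ℝ) - 1) / n)) =
      12 * Q / c + 12 * Q / c + 6 * Q + Q * (1 + Real.log (R / d₁)) ^ (((n : ℝ) - 1) / n) +
      Q * (1 + Real.log (R / d₂)) ^ (((n : ℝ) - 1) / n) := by
    ring
  rw [e]
  have a1 := (abs_le.1 hn₁)
  have a2 := (abs_le.1 hn₂)
  have a3 := (abs_le.1 hr₁)
  have a4 := (abs_le.1 hr₂)
  have a5 := (abs_le.1 hfar)
  linarith [a1.1, a1.2, a2.1, a2.2, a3.1, a3.2, a4.1, a4.2, a5.1, a5.2]

end

end Pool.Agent.Helper746.Qc
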