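import Mathlib
import Pool.Agent.Helper746.QcDefs
import Pool.Agent.Helper746.QcLDefs
import Pool.Agent.Helper746.QcNDefs
import Pool.Agent.Helper746.QcVol
import Pool.Agent.Helper746.QcClog
import Pool.Agent.Helper746.QcPolar
import Pool.Agent.Helper746.QcAlgebra
import Pool.Agent.Helper746.QcLf
import Pool.Agent.Helper746.QcLtransport

set_option autoImplicit false

namespace Pool.Agent.Helper746.Qc

open Set Metric MeasureTheory Filter Topology
open scoped ENNReal NNReal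

noncomputable section

theorem ring_ineq_on {n : ℕ} (hn : 2 ≤ n) {H K : ℝ} (hH : 1 ≤ H) (hK : 1 ≤ K) {f : Eu n → Eu n}
    {G : Set (Eu n)} (hf : QCOn H K f G)
    (p : Eu n) {a b : ℝ} (ha : 0 < a) (hab : a < b)
    {x₁ x₂ : Eu n} {d₁ d₂ R c : ℝ} (hd₁ : 0 < d₁) (hd₂ : 0 < d₂) (hd₁R : d₁ ≤ R) (hd₂R : d₂ ≤ R)
    (hx : dist x₁ x₂ ≤ R) (hc : 0 < c) (hc1 : c ≤ 1) (hG : ball x₁ (5 * R) ⊆ G)
    {V₁ V₂ : Set (Eu n)} (hV₁ : MeasurableSet V₁) (hV₂ : MeasurableSet V₂)
    (hV₁s : V₁ ⊆ closedBall x₁ (2 * d₁)) (hV₂s : V₂ ⊆ closedBall x₂ (2 * d₂))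
    (hV₁v : ENNReal.ofReal ((c * d₁) ^ n) * vb n ≤ volume V₁)
    (hV₂v : ENNReal.ofReal ((c * d₂) ^ n) * vb n ≤ volume V₂)
    (hf₁ : ∀ x ∈ V₁, dist (f x) p ≤ a) (hf₂ : ∀ x ∈ V₂, b ≤ dist (f x) p) :
    Real.log (b / a) ≤ 2 * (2 * K * (24 / c + 6)) ^ 2 +
      32 * K ^ 2 * (1 + Real.log (R / d₁) + Real.log (R / d₂)) := by
  have hn1 : 1 ≤ n := by omega
  have hn0 : n ≠ 0 := by omega
  have hT : 0 < Real.log (b / a) := Real.log_pos ((one_lt_div ha).2 hab)
  have hdist : ∀ z z' : Eu n, |dist z' p - dist z p| ≤ dist z' z :=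
    fun z z' => abs_dist_sub_le _ _ _
  set σ : Eu n → ℝ≥0∞ := fun y =>
    if a ≤ dist y p ∧ dist y p ≤ b then ENNReal.ofReal (1 / dist y p) else 0 with hσ
  have hdm : Measurable fun y : Eu n => dist y p := (continuous_id.dist continuous_const).measurable
  have hσm : Measurable σ := by
    refine Measurable.ite ?_ ?_ measurable_const
    · exact (measurableSet_le measurable_const hdm).inter (measurableSet_le hdm measurable_const)
    · exact (measurable_const.div hdm).ennreal_ofReal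
  set u : Eu n → ℝ := fun y => cl a b (dist y p) with hu
  have hulip : LipschitzWith (Real.toNNReal (1 / a)) u := by
    apply LipschitzWith.of_dist_le_mul
    intro y' y
    rw [Real.dist_eq, Real.coe_toNNReal _ (by positivity)]
    exact (cl_lip ha hab dist_nonneg dist_nonneg).trans
      (mul_le_mul_of_nonneg_left (hdist y y') (by positivity))
  have hloc : LocBd u σ := by
    intro y c' hc'
    have hcpos : 0 < c' := by
      by_contra hneg
      rw [ENNReal.ofReal_of_nonpos (not_lt.1 hneg)] at hc'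
      exact not_lt_zero hc'
    have hcl : (if a ≤ dist y p ∧ dist y p ≤ b then 1 / dist y p else 0) < c' := by
      by_cases h : a ≤ dist y p ∧ dist y p ≤ b
      · rw [if_pos h]
        have h1 : σ y = ENNReal.ofReal (1 / dist y p) := if_pos h
        rw [h1, ENNReal.ofReal_lt_ofReal_iff hcpos] at hc'
        exact hc'
      · rw [if_neg h]; exact hcpos
    obtain ⟨δ, hδ, h1⟩ := cl_local ha hab dist_nonneg c' hcl
    refine ⟨δ, hδ, fun y' hy' => ?_⟩
    have h2 := hdist y y'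
    exact (h1 (dist y' p) dist_nonneg (lt_of_le_of_lt h2 hy')).trans
      (mul_le_mul_of_nonneg_left h2 hcpos.le)
  obtain ⟨ℓ, hℓ, hug, hE⟩ := ug_on hn hH hK hf hulip hσm hloc
  have hEΩ : ∫⁻ x in ball x₁ (5 * R), ℓ x ^ n
      ≤ ENNReal.ofReal (K ^ n * (n * Real.log (b / a))) * vb n := by
    calc ∫⁻ x in ball x₁ (5 * R), ℓ x ^ n
        ≤ ENNReal.ofReal (K ^ n) * ∫⁻ y in f '' (ball x₁ (5 * R)), σ y ^ n :=
          hE _ measurableSet_ball hG
      _ ≤ ENNReal.ofReal (K ^ n) * ∫⁻ y, σ y ^ n := by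
          gcongr
          exact Measure.restrict_le_self
      _ ≤ ENNReal.ofReal (K ^ n) * (ENNReal.ofReal (n * Real.log (b / a)) * vb n) := by
          gcongr
          exact lintegral_ring hn1 p ha hab
      _ = ENNReal.ofReal (K ^ n * (n * Real.log (b / a))) * vb n := by
          rw [← mul_assoc, ← ENNReal.ofReal_mul (by positivity)]
  have hugΩ : UGOn (fun x => cl a b (dist (f x) p)) ℓ (ball x₁ (5 * R)) := by
    intro v
    filter_upwards [hug v] with x hx hs
    exact hx (fun s hs' => hG (hs s hs'))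
  set T : ℝ := Real.log (b / a) with hTdef
  have hnT : 0 ≤ (n : ℝ) * T := mul_nonneg (Nat.cast_nonneg n) hT.le
  have hQ : 0 ≤ K * ((n : ℝ) * T) ^ ((1 : ℝ) / n) :=
    mul_nonneg (by linarith) (Real.rpow_nonneg hnT _)
  have hQn : (K * ((n : ℝ) * T) ^ ((1 : ℝ) / n)) ^ n = K ^ n * (n * T) := by
    rw [mul_pow, one_div, Real.rpow_inv_natCast_pow hnT hn0]
  have hw : ContinuousOn (fun x => cl a b (dist (f x) p)) (ball x₁ (5 * R)) :=
    (cl_continuous ha hab).comp (continuous_dist.comp_continuousOn ((hf.cont.mono hG).prodMk continuousOn_const))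
      (fun x _ => dist_nonneg)
  have htr := transport_on hn isOpen_ball (convex_ball x₁ (5 * R)) hw hℓ hugΩ hQ
    (by rw [hQn]; exact hEΩ) hT.le
    (fun x => ⟨cl_nonneg a b _, cl_le ha hab _⟩) hd₁ hd₂ hd₁R hd₂R hx hc hc1 subset_rfl
    hV₁ hV₂ hV₁s hV₂s
    hV₁v hV₂v (fun x hx => cl_of_le ha hab dist_nonneg (hf₁ x hx))
    (fun x hx => cl_of_ge ha hab (hf₂ x hx))
  have hY₁ : 0 ≤ Real.log (R / d₁) := Real.log_nonneg ((one_le_div hd₁).2 hd₁R)
  have hY₂ : 0 ≤ Real.log (R / d₂) := Real.log_nonneg ((one_le_div hd₂).2 hd₂R)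
  exact ring_algebra hn hK hc hc1 hT hY₁ hY₂ htr

end

end Pool.Agent.Helper746.Qc
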