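import Mathlib
import Pool.Agent.Helper746.QcDefs
import Pool.Agent.Helper746.QcLDefs
import Pool.Agent.Helper746.QcNDefs
import Pool.Agent.Helper746.QcLmm

set_option autoImplicit false

namespace Pool.Agent.Helper746.Qc

open Set Metric MeasureTheory Filter Topology
open scoped ENNReal NNReal

noncomputable section

theorem nsq_comb_louter_louter {n : ℕ} {p q : Eu n} {M : ℝ} (hp : ‖p‖ = M) (hq : ‖q‖ = M)
    (hpq : inner ℝ p q = 0) (a b : ℝ) : ‖a • p + b • q‖ ^ 2 = (a ^ 2 + b ^ 2) * M ^ 2 := by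
  rw [norm_add_sq_real, inner_smul_left, inner_smul_right, hpq, norm_smul, norm_smul, hp, hq,
    mul_pow, mul_pow, Real.norm_eq_abs, Real.norm_eq_abs, sq_abs, sq_abs]
  simp
  ring

theorem exists_arc_louter_louter {n : ℕ} (hn : 2 ≤ n) {p₀ p : Eu n} {M : ℝ} (hM : 0 < M) (h0 : ‖p₀‖ = M)
    (hp : ‖p‖ = M) : ∃ (q : Eu n) (θ : ℝ), ‖q‖ = M ∧ inner ℝ p₀ q = 0 ∧ 0 ≤ θ ∧ θ ≤ Real.pi ∧
      p = Real.cos θ • p₀ + Real.sin θ • q := by
  set c : ℝ := inner ℝ p₀ p / M ^ 2 with hc
  have hM2 : 0 < M ^ 2 := by positivity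
  have habs : |inner ℝ p₀ p| ≤ M ^ 2 := by
    have := abs_real_inner_le_norm p₀ p
    rw [h0, hp] at this
    nlinarith
  have hc1 : c ≤ 1 := by
    rw [hc, div_le_one hM2]
    exact (le_abs_self _).trans habs
  have hc2 : -1 ≤ c := by
    rw [hc, le_div_iff₀ hM2]
    linarith [neg_abs_le (inner ℝ p₀ p)]
  have hcM : c * M ^ 2 = inner ℝ p₀ p := by rw [hc]; field_simp
  have hcos : Real.cos (Real.arccos c) = c := Real.cos_arccos hc2 hc1
  have hsin : Real.sin (Real.arccos c) ^ 2 = 1 - c ^ 2 := by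
    have := Real.sin_sq_add_cos_sq (Real.arccos c)
    rw [hcos] at this
    linarith
  have hsin0 : 0 ≤ Real.sin (Real.arccos c) :=
    Real.sin_nonneg_of_nonneg_of_le_pi (Real.arccos_nonneg _) (Real.arccos_le_pi _)
  set r : Eu n := p - c • p₀ with hr
  have hrp : inner ℝ p₀ r = 0 := by
    rw [hr, inner_sub_right, inner_smul_right, real_inner_self_eq_norm_sq, h0, hcM, sub_self]
  have hrn : ‖r‖ ^ 2 = (1 - c ^ 2) * M ^ 2 := by
    rw [hr, norm_sub_sq_real, norm_smul, inner_smul_right, real_inner_comm, ← hcM, hp, h0, mul_pow,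
      Real.norm_eq_abs, sq_abs]
    ring
  by_cases hs : Real.sin (Real.arccos c) = 0
  · -- r = 0
    have hr0 : r = 0 := by
      rw [← norm_eq_zero, ← sq_eq_zero_iff, hrn, ← hsin, hs]
      ring
    have hp0 : p₀ ≠ 0 := by
      rw [← norm_pos_iff, h0]; exact hM
    obtain ⟨v, hv, hv0⟩ : ∃ v ∈ (ℝ ∙ p₀)ᗮ, v ≠ 0 := by
      by_contra hcon
      push Not at hcon
      have hbot : (ℝ ∙ p₀)ᗮ = ⊥ := by
        rw [Submodule.eq_bot_iff]
        exact hcon
      have hfr : Module.finrank ℝ (ℝ ∙ p₀) + Module.finrank ℝ (ℝ ∙ p₀)ᗮ = Module.finrank ℝ (Eu n) :=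
        Submodule.finrank_add_finrank_orthogonal _
      rw [hbot, finrank_bot, finrank_span_singleton hp0, finrank_euclideanSpace,
        Fintype.card_fin] at hfr
      omega
    have hvn : 0 < ‖v‖ := norm_pos_iff.2 hv0
    refine ⟨(M / ‖v‖) • v, Real.arccos c, ?_, ?_, Real.arccos_nonneg _, Real.arccos_le_pi _, ?_⟩
    · rw [norm_smul, Real.norm_eq_abs, abs_of_pos (by positivity), div_mul_cancel₀ _ hvn.ne']
    · rw [inner_smul_right, (Submodule.mem_orthogonal_singleton_iff_inner_right).1 hv, mul_zero]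
    · rw [hs, hcos, zero_smul, add_zero]
      rw [hr, sub_eq_zero] at hr0
      exact hr0
  · have hspos : 0 < Real.sin (Real.arccos c) := lt_of_le_of_ne hsin0 (Ne.symm hs)
    refine ⟨(Real.sin (Real.arccos c))⁻¹ • r, Real.arccos c, ?_, ?_, Real.arccos_nonneg _,
      Real.arccos_le_pi _, ?_⟩
    · have h1 : ‖r‖ = Real.sin (Real.arccos c) * M := by
        have h2 : ‖r‖ ^ 2 = (Real.sin (Real.arccos c) * M) ^ 2 := by
          rw [hrn, mul_pow, hsin]
        exact (sq_eq_sq₀ (norm_nonneg _) (by positivity)).1 h2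
      rw [norm_smul, h1, Real.norm_eq_abs, abs_of_pos (by positivity)]
      field_simp
    · rw [inner_smul_right, hrp, mul_zero]
    · rw [smul_smul, mul_inv_cancel₀ hs, one_smul, hcos, hr]
      abel


theorem preconn_louter_louter {n : ℕ} (hn : 2 ≤ n) {ρ : ℝ} (hρ : 2 < ρ) (x₂ : Eu n) (hx₂ : ‖x₂‖ = 1) :
    IsPreconnected {x : Eu n | x ∈ ball (0 : Eu n) ρ ∧ 1 / 2 < dist x x₂} := by
  have hrank : 1 < Module.rank ℝ (Eu n) := by
    rw [← Module.finrank_eq_rank, finrank_euclideanSpace, Fintype.card_fin]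
    exact_mod_cast hn
  have hS : IsPreconnected (sphere x₂ (3 / 5 : ℝ)) := isPreconnected_sphere hrank _ _
  have hSsub : sphere x₂ (3 / 5 : ℝ) ⊆ {x : Eu n | x ∈ ball (0 : Eu n) ρ ∧ 1 / 2 < dist x x₂} := by
    intro z hz
    have hz' : dist z x₂ = 3 / 5 := hz
    refine ⟨?_, ?_⟩
    · rw [mem_ball_zero_iff]
      have h1 : ‖z‖ ≤ ‖z - x₂‖ + ‖x₂‖ := by
        have := norm_add_le (z - x₂) x₂
        rwa [sub_add_cancel] at this
      rw [← dist_eq_norm, hz', hx₂] at h1
      linarith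
    · rw [hz']; norm_num
  have hx₂G : x₂ ∈ ball (0 : Eu n) ρ := by
    rw [mem_ball_zero_iff, hx₂]; linarith
  by_cases hne : (sphere x₂ (3 / 5 : ℝ)).Nonempty
  swap
  · -- the sphere is nonempty in a nontrivial space
    exfalso
    apply hne
    refine ⟨x₂ + (3 / 5 : ℝ) • x₂, ?_⟩
    rw [mem_sphere, dist_eq_norm, add_sub_cancel_left, norm_smul, hx₂]
    norm_num
  obtain ⟨z₀, hz₀⟩ := hne
  apply isPreconnected_of_forall z₀
  intro y hy
  obtain ⟨hy1, hy2⟩ := hy
  set d : ℝ := ‖y - x₂‖ with hd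
  have hdd : 1 / 2 < d := by rw [hd, ← dist_eq_norm]; exact hy2
  have hd0 : 0 < d := by linarith
  set g : ℝ → Eu n := fun s => x₂ + s • (y - x₂) with hg
  have hgc : Continuous g := by rw [hg]; fun_prop
  have hseg : IsPreconnected (g '' uIcc 1 (3 / (5 * d))) :=
    isPreconnected_uIcc.image _ hgc.continuousOn
  have hend : g (3 / (5 * d)) ∈ sphere x₂ (3 / 5 : ℝ) := by
    rw [mem_sphere, dist_eq_norm, hg]
    show ‖x₂ + (3 / (5 * d)) • (y - x₂) - x₂‖ = 3 / 5
    rw [add_sub_cancel_left, norm_smul, ← hd, Real.norm_eq_abs, abs_of_pos (by positivity)]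
    field_simp
  refine ⟨sphere x₂ (3 / 5 : ℝ) ∪ g '' uIcc 1 (3 / (5 * d)), ?_, Or.inl hz₀, Or.inr ?_, ?_⟩
  · rintro z (hz | ⟨s, hs, rfl⟩)
    · exact hSsub hz
    · have hdist : dist (g s) x₂ = |s| * d := by
        rw [dist_eq_norm, hg]
        show ‖x₂ + s • (y - x₂) - x₂‖ = |s| * d
        rw [add_sub_cancel_left, norm_smul, Real.norm_eq_abs]
      have hpos : 0 < 3 / (5 * d) := by positivity
      rcases mem_uIcc.1 hs with ⟨h1, h2⟩ | ⟨h1, h2⟩
      · have h3 : s * d ≤ 3 / 5 := by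
          calc s * d ≤ (3 / (5 * d)) * d := by gcongr
            _ = 3 / 5 := by field_simp
        have h4 : |s| = s := abs_of_pos (by linarith)
        refine ⟨?_, ?_⟩
        · rw [mem_ball_zero_iff]
          have h5 : ‖g s‖ ≤ ‖g s - x₂‖ + ‖x₂‖ := by
            have := norm_add_le (g s - x₂) x₂
            rwa [sub_add_cancel] at this
          rw [← dist_eq_norm, hdist, hx₂, h4] at h5
          linarith
        · rw [hdist, h4]
          nlinarith
      · have hs0 : 0 < s := by linarith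
        have h4 : |s| = s := abs_of_pos hs0
        refine ⟨?_, ?_⟩
        · exact (convex_ball (0 : Eu n) ρ).add_smul_sub_mem hx₂G hy1 ⟨hs0.le, h2⟩
        · rw [hdist, h4]
          have h5 : 3 / 5 ≤ s * d := by
            calc (3 / 5 : ℝ) = (3 / (5 * d)) * d := by field_simp
              _ ≤ s * d := by gcongr
          linarith
  · refine ⟨1, left_mem_uIcc, ?_⟩
    rw [hg]
    show x₂ + (1 : ℝ) • (y - x₂) = y
    rw [one_smul]; abel
  · exact hS.union' ⟨g (3 / (5 * d)), hend, ⟨_, right_mem_uIcc, rfl⟩⟩ hseg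


theorem outer_start_on {n : ℕ} (hn : 2 ≤ n) {H K : ℝ} {f : Eu n → Eu n} {G : Set (Eu n)}
    (hf : QCOn H K f G) {ρ : ℝ} (hρ : 2 < ρ) (hGρ : G = ball 0 ρ) (h0 : f 0 = 0)
    (x₂ : Eu n) (hx₂ : ‖x₂‖ = 1) {M : ℝ} (hM : ‖f x₂‖ = M) :
    ∃ x' : Eu n, dist x' x₂ ≤ 1 / 2 ∧ ‖f x'‖ = M ∧ mm f x' (1 / 26) ≤ M / 4 := by
  by_contra hcon
  push Not at hcon
  have h0G : (0 : Eu n) ∈ G := by rw [hGρ, mem_ball_zero_iff, norm_zero]; linarith
  have hx₂G : x₂ ∈ G := by rw [hGρ, mem_ball_zero_iff, hx₂]; linarith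
  have hMpos : 0 < M := by
    rw [← hM, norm_pos_iff]
    intro h
    have : x₂ = 0 := hf.inj hx₂G h0G (by rw [h, h0])
    rw [this, norm_zero] at hx₂
    exact zero_ne_one hx₂
  have hsmall : ∀ x : Eu n, dist x x₂ < ρ - 1 → x ∈ G := by
    intro x hx
    rw [hGρ, mem_ball_zero_iff]
    have h1 : ‖x‖ ≤ ‖x - x₂‖ + ‖x₂‖ := by
      have := norm_add_le (x - x₂) x₂
      rwa [sub_add_cancel] at this
    rw [← dist_eq_norm, hx₂] at h1
    linarith
  -- step 1
  have step1 : ∀ p : Eu n, ‖p‖ = M → ∃ x, dist x x₂ ≤ 1 / 2 ∧ f x = p := by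
    intro p hp
    obtain ⟨q, θ, hq, hpq, hθ0, hθπ, hpe⟩ := exists_arc_louter_louter hn hMpos hM hp
    have key : ∀ i : ℕ, i ≤ 13 → ∃ x, dist x x₂ ≤ i / 26 ∧
        f x = Real.cos (i * (θ / 13)) • f x₂ + Real.sin (i * (θ / 13)) • q := by
      intro i
      induction i with
      | zero =>
        intro _
        refine ⟨x₂, by simp, by simp⟩
      | succ i ih =>
        intro hi13
        obtain ⟨x, hx1, hx2⟩ := ih (by omega)
        have hnx : ‖f x‖ = M := by
          have h1 : ‖f x‖ ^ 2 = M ^ 2 := by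
            rw [hx2, nsq_comb_louter_louter hM hq hpq, Real.cos_sq_add_sin_sq, one_mul]
          exact (sq_eq_sq₀ (norm_nonneg _) hMpos.le).1 h1
        have hi12 : (i : ℝ) ≤ 12 := by
          have : i ≤ 12 := by omega
          exact_mod_cast this
        have h2 := hcon x (by linarith) hnx
        set β : ℝ := ((i + 1 : ℕ) : ℝ) * (θ / 13) with hβ
        set α : ℝ := (i : ℝ) * (θ / 13) with hα
        have hβα : β - α = θ / 13 := by rw [hβ, hα]; push_cast; ring
        have hdist : dist (Real.cos β • f x₂ + Real.sin β • q) (f x) ≤ M * (θ / 13) := by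
          rw [dist_eq_norm, hx2]
          have h3 : Real.cos β • f x₂ + Real.sin β • q - (Real.cos α • f x₂ + Real.sin α • q) =
              (Real.cos β - Real.cos α) • f x₂ + (Real.sin β - Real.sin α) • q := by
            rw [sub_smul, sub_smul]; abel
          rw [h3]
          apply abs_le_of_sq_le_sq' _ (by positivity) |>.2
          rw [nsq_comb_louter_louter hM hq hpq]
          have h4 : (Real.cos β - Real.cos α) ^ 2 + (Real.sin β - Real.sin α) ^ 2 =
              2 - 2 * Real.cos (θ / 13) := by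
            rw [← hβα, Real.cos_sub]
            linarith [Real.sin_sq_add_cos_sq β, Real.sin_sq_add_cos_sq α]
          have h5 := Real.one_sub_sq_div_two_le_cos (x := θ / 13)
          rw [h4, mul_pow]
          have hM2 : 0 < M ^ 2 := by positivity
          nlinarith
        have hlt : dist (Real.cos β • f x₂ + Real.sin β • q) (f x) < mm f x (1 / 26) := by
          have h6 : M * (θ / 13) < M / 4 := by
            have := Real.pi_lt_d2
            have h7 : θ / 13 < 1 / 4 := by linarith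
            nlinarith
          linarith
        have hcb : closedBall x (1 / 26 : ℝ) ⊆ G := by
          intro z hz
          apply hsmall
          have hz' : dist z x ≤ 1 / 26 := hz
          have h9 := dist_triangle z x x₂
          linarith
        obtain ⟨y, hy1, hy2⟩ := ball_mm_subset_on (by omega) hf (x := x) (d := 1 / 26)
          (by norm_num) hcb (mem_ball.2 hlt)
        refine ⟨y, ?_, hy2⟩
        have h8 : dist y x < 1 / 26 := hy1
        have h9 := dist_triangle y x x₂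
        push_cast
        linarith
    obtain ⟨x, hx1, hx2⟩ := key 13 le_rfl
    refine ⟨x, by norm_num at hx1 ⊢; exact hx1, ?_⟩
    rw [hx2, hpe]
    have : ((13 : ℕ) : ℝ) * (θ / 13) = θ := by push_cast; ring
    rw [this]
  -- step 2
  have hX1 := preconn_louter_louter hn hρ x₂ hx₂
  have h0X : (0 : Eu n) ∈ {x : Eu n | x ∈ ball (0 : Eu n) ρ ∧ 1 / 2 < dist x x₂} := by
    refine ⟨by rw [← hGρ]; exact h0G, ?_⟩
    rw [dist_zero_left, hx₂]
    norm_num
  have hXG : {x : Eu n | x ∈ ball (0 : Eu n) ρ ∧ 1 / 2 < dist x x₂} ⊆ G := by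
    intro x hx
    rw [hGρ]
    exact hx.1
  have step2 : ∀ x : Eu n, x ∈ G → 1 / 2 < dist x x₂ → ‖f x‖ < M := by
    intro x hxG hx
    by_contra hge
    push Not at hge
    have hiv := hX1.intermediate_value h0X
      (show x ∈ {x : Eu n | x ∈ ball (0 : Eu n) ρ ∧ 1 / 2 < dist x x₂} from
        ⟨by rw [← hGρ]; exact hxG, hx⟩)
      (f := fun x => ‖f x‖) ((hf.cont.mono hXG).norm)
    have hMm : M ∈ Icc ‖f 0‖ ‖f x‖ := by
      rw [h0, norm_zero]
      exact ⟨hMpos.le, hge⟩
    obtain ⟨y, hy1, hy2⟩ := hiv hMm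
    obtain ⟨z, hz1, hz2⟩ := step1 (f y) hy2
    have hzG : z ∈ G := hsmall z (by linarith)
    have hzy : z = y := hf.inj hzG (hXG hy1) hz2
    rw [hzy] at hz1
    have hy1' : 1 / 2 < dist y x₂ := hy1.2
    linarith
  -- step 3
  have hcbG : closedBall x₂ (1 / 2 : ℝ) ⊆ G := by
    intro z hz
    have hz' : dist z x₂ ≤ 1 / 2 := hz
    exact hsmall z (by linarith)
  obtain ⟨xs, hxs1, hxs2⟩ := (isCompact_closedBall x₂ (1 / 2 : ℝ)).exists_isMaxOn
    ⟨x₂, mem_closedBall_self (by norm_num)⟩ (f := fun x => ‖f x‖) ((hf.cont.mono hcbG).norm)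
  have hxsM : M ≤ ‖f xs‖ := by
    rw [← hM]
    exact hxs2 (mem_closedBall_self (by norm_num))
  have hall : ∀ x ∈ G, ‖f x‖ ≤ ‖f xs‖ := by
    intro x hxG
    by_cases hx : dist x x₂ ≤ 1 / 2
    · exact hxs2 (mem_closedBall.2 hx)
    · push Not at hx
      exact ((step2 x hxG hx).le).trans hxsM
  have hopen := hf.opn G subset_rfl hf.isOpen
  have hcont : ContinuousAt (fun ε : ℝ => (1 + ε) • f xs) 0 := by fun_prop
  have hev := hcont.eventually_mem (s := f '' G) (by
    apply hopen.mem_nhds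
    simp only [add_zero, one_smul]
    exact mem_image_of_mem f (hcbG hxs1))
  obtain ⟨δ, hδ, hδ2⟩ := Metric.eventually_nhds_iff.1 hev
  obtain ⟨y, hyG, hy⟩ := hδ2 (y := δ / 2) (by
    rw [Real.dist_eq, sub_zero, abs_of_pos (by positivity)]; linarith)
  have h1 := hall y hyG
  rw [hy, norm_smul, Real.norm_eq_abs, abs_of_pos (by positivity)] at h1
  have h2 : 0 < ‖f xs‖ := lt_of_lt_of_le hMpos hxsM
  nlinarith

end

end Pool.Agent.Helper746.Qc
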