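import Mathlib
import Pool.Agent.Helper746.QcDefs
import Pool.Agent.Helper746.QcLDefs
import Pool.Agent.Helper746.QcNDefs

set_option autoImplicit false

namespace Pool.Agent.Helper746.Qc

open Set Metric MeasureTheory Filter Topology
open scoped ENNReal NNReal

noncomputable section

theorem scale_on {n : ℕ} {H K ρ : ℝ} {f : Eu n → Eu n} {X : Eu n}
    (hf : QCOn H K f (ball X ρ)) {r : ℝ} (hr : 0 < r) (h20 : 20 * r ≤ ρ) :
    QCOn H K (fun z => f (X + r • z) - f X) (ball 0 20) := by
  have hr0 : r ≠ 0 := hr.ne'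
  let A : Eu n ≃ₜ Eu n := (Homeomorph.smulOfNeZero r hr0).trans (Homeomorph.addLeft X)
  have hA : ∀ z, A z = X + r • z := fun z => rfl
  have hmem : ∀ z ∈ ball (0 : Eu n) 20, X + r • z ∈ ball X ρ := by
    intro z hz
    rw [mem_ball_zero_iff] at hz
    rw [mem_ball, dist_eq_norm, add_sub_cancel_left, norm_smul, Real.norm_of_nonneg hr.le]
    nlinarith
  have hdist : ∀ ξ z : Eu n, dist (X + r • ξ) (X + r • z) = r * dist ξ z := by
    intro ξ z
    rw [dist_add_left, dist_smul₀, Real.norm_of_nonneg hr.le]
  have hRnd : ∀ (C : ℝ) (z : Eu n), Rnd C f (X + r • z) →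
      Rnd C (fun z => f (X + r • z) - f X) z := by
    rintro C z ⟨δ₀, h0, h⟩
    refine ⟨δ₀ / r, div_pos h0 hr, ?_⟩
    intro ξ ξ' h1 h2 h3
    have := h (X + r • ξ) (X + r • ξ') (by rw [hdist, hdist, h1]) (by rw [hdist]; positivity)
      (by rw [hdist]; rw [lt_div_iff₀ hr] at h3; linarith)
    simpa only [dist_sub_right] using this
  have hqmp : Measure.QuasiMeasurePreserving (fun z : Eu n => X + r • z) volume volume := by
    have h1 : Measure.QuasiMeasurePreserving (fun z : Eu n => r • z) volume volume := by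
      refine ⟨measurable_const_smul r, ?_⟩
      rw [Measure.map_addHaar_smul _ hr0]
      exact Measure.smul_absolutelyContinuous
    exact (measurePreserving_add_left (volume : Measure (Eu n)) X).quasiMeasurePreserving.comp h1
  refine ⟨isOpen_ball, ?_, ?_, ?_, ?_, ?_, ?_, ?_⟩
  · exact ((hf.cont.comp A.continuous.continuousOn hmem).sub continuousOn_const)
  · intro z hz z' hz' h
    have h1 : f (X + r • z) = f (X + r • z') := by simpa using h
    have h2 := hf.inj (hmem z hz) (hmem z' hz') h1
    have h3 : r • z = r • z' := by simpa using h2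
    exact smul_right_injective _ hr0 h3
  · intro U hU hUo
    have h1 : (fun z => f (X + r • z) - f X) '' U =
        (Homeomorph.subRight (f X)) '' (f '' (A '' U)) := by
      rw [Set.image_image, Set.image_image]
      rfl
    rw [h1]
    apply (Homeomorph.subRight (f X)).isOpenMap
    apply hf.opn
    · rintro _ ⟨z, hz, rfl⟩
      exact hmem z (hU hz)
    · exact A.isOpenMap U hUo
  · intro z hz
    exact hRnd H z (hf.rnd _ (hmem z hz))
  · filter_upwards [hqmp.ae hf.rndae] with z hz hzb
    exact hRnd K z (hz (hmem z hzb))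
  · exact measure_ball_lt_top.ne
  · refine ne_top_of_le_ne_top hf.finfG ?_
    rw [← measure_preimage_add_right volume (f X) (f '' ball X ρ)]
    apply measure_mono
    rintro _ ⟨z, hz, rfl⟩
    show f (X + r • z) - f X + f X ∈ f '' ball X ρ
    rw [sub_add_cancel]
    exact ⟨_, hmem z hz, rfl⟩

end

end Pool.Agent.Helper746.Qc
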