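import Mathlib
import Pool.Agent.Helper746.QcDefs
import Pool.Agent.Helper746.QcLDefs
import Pool.Agent.Helper746.QcNDefs
import Pool.Agent.Helper746.QcScaleon
import Pool.Agent.Helper746.QcLmain

set_option autoImplicit false

namespace Pool.Agent.Helper746.Qc

open Set Metric MeasureTheory Filter Topology
open scoped ENNReal NNReal

noncomputable section

theorem local_qs {K : ℝ} (hK : 1 ≤ K) : ∃ C : ℝ, 1 ≤ C ∧ ∀ n : ℕ, 2 ≤ n → ∀ H : ℝ, 1 ≤ H →
    ∀ (f : Eu n → Eu n) (X : Eu n) (ρ : ℝ), 0 < ρ → QCOn H K f (ball X ρ) →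
      ∀ a b : Eu n, dist a X ≤ ρ / 20 → dist b X = dist a X →
        dist (f a) (f X) ≤ C * dist (f b) (f X) := by
  obtain ⟨C₀, hC₀⟩ := main_real_on hK
  refine ⟨max 1 C₀, le_max_left _ _, fun n hn H hH f X ρ hρ hf a b ha hb => ?_⟩
  rcases eq_or_lt_of_le (dist_nonneg : 0 ≤ dist a X) with h0 | hr
  · have h1 : a = X := dist_eq_zero.1 h0.symm
    have h2 : b = X := dist_eq_zero.1 (hb.trans h0.symm)
    rw [h1, h2, dist_self, mul_zero]
  · set r := dist a X with hrd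
    have hr0 : r ≠ 0 := hr.ne'
    have hg := scale_on hf hr (by linarith)
    have key : ∀ c : Eu n, dist c X = r → ‖r⁻¹ • (c - X)‖ = 1 ∧
        f (X + r • (r⁻¹ • (c - X))) - f X = f c - f X := by
      intro c hc
      refine ⟨?_, ?_⟩
      · rw [norm_smul, norm_inv, Real.norm_eq_abs, abs_of_pos hr, ← dist_eq_norm, hc, inv_mul_cancel₀ hr0]
      · rw [smul_smul, mul_inv_cancel₀ hr0, one_smul, add_sub_cancel]
    have h1 := hC₀ n hn H hH _ hg (by
      show f (X + r • (0 : Eu n)) - f X = 0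
      rw [smul_zero, add_zero, sub_self]) _ _ (key a rfl).1 (key b hb).1
    rw [(key a rfl).2, (key b hb).2, ← dist_eq_norm, ← dist_eq_norm] at h1
    refine h1.trans ?_
    exact mul_le_mul_of_nonneg_right (le_max_right _ _) dist_nonneg

theorem wqs_of_LN {K : ℝ} (hK : 1 ≤ K) : ∃ C : ℝ, 1 ≤ C ∧ ∀ n : ℕ, 2 ≤ n → ∀ H : ℝ, 1 ≤ H →
    ∀ (A : ℝ) (f : Eu n → Eu n), LN H K A f → WQS C A f := by
  obtain ⟨C, hC1, hC⟩ := local_qs hK
  refine ⟨C, hC1, fun n hn H hH A f hf x hx a b ha hb => ?_⟩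
  exact hC n hn H hH f x (1 / 4) (by norm_num) (hf x hx) a b (by linarith) hb

end

end Pool.Agent.Helper746.Qc
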