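import Mathlib
import Pool.Agent.Helper746.QcDefs
import Pool.Agent.Helper746.QcLDefs
import Pool.Agent.Helper746.QcNDefs
import Pool.Agent.Helper746.QcLmm

set_option autoImplicit false

namespace Pool.Agent.Helper746.Qc

open Set Metric MeasureTheory Filter Topology
open scoped ENNReal NNReal

noncomputable section

theorem exists_unit_eu_growth {n : ℕ} (hn : 2 ≤ n) : ∃ e : Eu n, ‖e‖ = 1 :=
  ⟨EuclideanSpace.single (⟨0, by omega⟩ : Fin n) (1 : ℝ), by simp⟩

theorem wqs_min_growth {n : ℕ} (hn : 2 ≤ n) {C H K A : ℝ} {f : Eu n → Eu n} (hf : LN H K A f)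
    (hw : WQS C A f) {x a : Eu n} (hx : ‖x‖ ≤ A) (ha : dist a x ≤ 1 / 80) :
    dist (f a) (f x) ≤ C * mm f x (dist a x) := by
  have hG : sphere x (dist a x) ⊆ ball x (1 / 4) := by
    intro z hz
    rw [mem_sphere] at hz
    rw [mem_ball, hz]
    linarith
  obtain ⟨ξ, hξ, hξ2, -⟩ := mm_spec_on (n := n) (by omega) x (d := dist a x) dist_nonneg
    ((hf x hx).cont.mono hG)
  have := hw x hx a ξ ha hξ
  rw [hξ2] at this
  exact this

theorem growth_lower {C : ℝ} (hC : 1 ≤ C) {θ : ℝ} (hθ : 0 < θ) (hθ1 : θ ≤ 1 / 80) :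
    ∃ c : ℝ, 0 < c ∧ ∀ n : ℕ, 2 ≤ n →
    ∀ (H K A : ℝ) (f : Eu n → Eu n), LN H K A f → WQS C A f → ∀ x : Eu n, ‖x‖ + 1 ≤ A →
      c * mm f x (1 / 80) ≤ mm f x θ := by
  obtain ⟨J, hJ⟩ := exists_nat_ge (1 / (80 * θ))
  have hJ0 : (0 : ℝ) < J := lt_of_lt_of_le (by positivity) hJ
  have hJ1 : 1 ≤ J := by exact_mod_cast hJ0
  have hCJ : 0 < C ^ J := by positivity
  refine ⟨1 / (J * C ^ J), by positivity, ?_⟩
  intro n hn H K A f hf hw x hx
  obtain ⟨e, he⟩ := exists_unit_eu_growth hn
  set δ : ℝ := 1 / (80 * J) with hδ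
  have hδ0 : 0 < δ := by positivity
  have hδθ : δ ≤ θ := by
    rw [hδ, div_le_iff₀ (by positivity)]
    rw [div_le_iff₀ (by positivity)] at hJ
    linarith
  have hJδ : (J : ℝ) * δ = 1 / 80 := by
    rw [hδ]; field_simp
  have hxA : ‖x‖ ≤ A := by linarith
  have hG := hf x hxA
  set y : ℕ → Eu n := fun j => x + ((j : ℝ) * δ) • e with hy
  have hy0 : y 0 = x := by simp [hy]
  have hd : ∀ j : ℕ, dist (y (j + 1)) (y j) = δ := by
    intro j
    have : y (j + 1) - y j = δ • e := by
      simp only [hy]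
      push_cast
      module
    rw [dist_eq_norm, this, norm_smul, he, mul_one, Real.norm_eq_abs, abs_of_pos hδ0]
  have hny : ∀ j : ℕ, j ≤ J → ‖y j‖ ≤ A := by
    intro j hj
    have h1 : ‖y j‖ ≤ ‖x‖ + ‖((j : ℝ) * δ) • e‖ := norm_add_le _ _
    have h2 : ‖((j : ℝ) * δ) • e‖ = (j : ℝ) * δ := by
      rw [norm_smul, he, mul_one, Real.norm_eq_abs, abs_of_nonneg (by positivity)]
    have h3 : (j : ℝ) * δ ≤ J * δ := by
      apply mul_le_mul_of_nonneg_right _ hδ0.le
      exact_mod_cast hj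
    rw [h2] at h1
    linarith
  have hcb : ∀ r : ℝ, r ≤ 1 / 80 → closedBall x r ⊆ ball x (1 / 4) := by
    intro r hr
    apply closedBall_subset_ball
    linarith
  have hmm : mm f x δ ≤ mm f x θ := mm_mono_on (by omega) hG hδ0 hδθ (hcb _ hθ1)
  have hmθ : 0 < mm f x θ := mm_pos_on (by omega) hG hθ (hcb _ hθ1)
  have key : ∀ j : ℕ, j < J → dist (f (y (j + 1))) (f (y j)) ≤ C ^ (j + 1) * mm f x θ := by
    intro j
    induction j with
    | zero =>
      intro _
      have h := wqs_min_growth hn hf hw (x := x) (a := y 1) hxA (by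
        have := hd 0
        rw [hy0] at this
        simp only [zero_add] at this
        rw [this]; linarith)
      have h2 : dist (y 1) x = δ := by
        have := hd 0
        rwa [hy0] at this
      rw [h2] at h
      simp only [zero_add, pow_one]
      rw [hy0]
      calc dist (f (y 1)) (f x) ≤ C * mm f x δ := h
        _ ≤ C * mm f x θ := by
          apply mul_le_mul_of_nonneg_left hmm; linarith
    | succ j ih =>
      intro hj
      have ih' := ih (by omega)
      have h := hw (y (j + 1)) (hny _ (by omega)) (y (j + 2)) (y j) (by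
        have := hd (j + 1)
        rw [this]; linarith) (by
        have h1 := hd (j + 1)
        have h2 := hd j
        rw [dist_comm (y j), h2]
        exact h1.symm)
      calc dist (f (y (j + 1 + 1))) (f (y (j + 1))) ≤ C * dist (f (y j)) (f (y (j + 1))) := h
        _ = C * dist (f (y (j + 1))) (f (y j)) := by rw [dist_comm]
        _ ≤ C * (C ^ (j + 1) * mm f x θ) := by
          apply mul_le_mul_of_nonneg_left ih'; linarith
        _ = C ^ (j + 1 + 1) * mm f x θ := by ring
  have hsum : dist (f (y 0)) (f (y J)) ≤ ∑ j ∈ Finset.range J, dist (f (y j)) (f (y (j + 1))) :=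
    dist_le_range_sum_dist (fun j => f (y j)) J
  have hsum2 : ∑ j ∈ Finset.range J, dist (f (y j)) (f (y (j + 1)))
      ≤ ∑ j ∈ Finset.range J, C ^ J * mm f x θ := by
    apply Finset.sum_le_sum
    intro j hj
    rw [Finset.mem_range] at hj
    rw [dist_comm]
    refine (key j hj).trans ?_
    apply mul_le_mul_of_nonneg_right _ hmθ.le
    exact pow_le_pow_right₀ hC (by omega)
  rw [Finset.sum_const, Finset.card_range, nsmul_eq_mul] at hsum2
  have hyJ : dist (y J) x = 1 / 80 := by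
    have : y J - x = ((J : ℝ) * δ) • e := by
      simp only [hy]
      module
    rw [dist_eq_norm, this, norm_smul, he, mul_one, Real.norm_eq_abs,
      abs_of_nonneg (by positivity), hJδ]
  have hfin : mm f x (1 / 80) ≤ dist (f (y J)) (f x) := by
    apply mm_le_of_le_on (by omega) hG (by norm_num) (hcb _ le_rfl) _ hyJ.ge
    rw [mem_ball, hyJ]; norm_num
  rw [div_mul_eq_mul_div, one_mul, div_le_iff₀ (by positivity)]
  rw [hy0, dist_comm] at hsum
  calc mm f x (1 / 80) ≤ (J : ℝ) * (C ^ J * mm f x θ) := hfin.trans (hsum.trans hsum2)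
    _ = mm f x θ * (J * C ^ J) := by ring

theorem mm_comp {C : ℝ} (hC : 1 ≤ C) {n : ℕ} (hn : 2 ≤ n) {H K A : ℝ} {f : Eu n → Eu n}
    (hf : LN H K A f) (hw : WQS C A f) {x x' : Eu n} (hx : ‖x‖ + 1 ≤ A) (hxx : dist x' x ≤ 1 / 80) :
    mm f x' (1 / 80) ≤ 2 * C * mm f x (1 / 80) := by
  have hxA : ‖x‖ ≤ A := by linarith
  have hG := hf x hxA
  have hcb : ∀ (z : Eu n) (r : ℝ), r ≤ 1 / 80 → closedBall z r ⊆ ball z (1 / 4) := by
    intro z r hr
    apply closedBall_subset_ball
    linarith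
  have hmx : 0 < mm f x (1 / 80) := mm_pos_on (by omega) hG (by norm_num) (hcb _ _ le_rfl)
  by_cases hne : x' = x
  · subst hne
    have : (1 : ℝ) ≤ 2 * C := by linarith
    calc mm f x' (1 / 80) = 1 * mm f x' (1 / 80) := (one_mul _).symm
      _ ≤ 2 * C * mm f x' (1 / 80) := mul_le_mul_of_nonneg_right this hmx.le
  have hs0 : 0 < dist x' x := dist_pos.mpr hne
  have hbd : ∀ a : Eu n, dist a x ≤ 1 / 80 → dist (f a) (f x) ≤ C * mm f x (1 / 80) := by
    intro a ha
    by_cases hax : a = x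
    · subst hax
      rw [dist_self]; positivity
    have h1 := wqs_min_growth hn hf hw hxA ha
    have h2 : mm f x (dist a x) ≤ mm f x (1 / 80) :=
      mm_mono_on (by omega) hG (dist_pos.mpr hax) ha (hcb _ _ le_rfl)
    exact h1.trans (mul_le_mul_of_nonneg_left h2 (by linarith))
  have hx' : ‖x'‖ ≤ A := by
    have : ‖x'‖ ≤ ‖x‖ + dist x' x := by
      rw [dist_eq_norm]
      calc ‖x'‖ = ‖x + (x' - x)‖ := by rw [add_sub_cancel]
        _ ≤ _ := norm_add_le _ _
    linarith
  have hG' := hf x' hx'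
  set s := dist x' x with hs
  set ζ : Eu n := x' + ((1 / 80) / s) • (x - x') with hζ
  have hnx : ‖x - x'‖ = s := by rw [hs, dist_comm, dist_eq_norm]
  have h1 : dist ζ x' = 1 / 80 := by
    have : ζ - x' = ((1 / 80) / s) • (x - x') := by rw [hζ]; abel
    rw [dist_eq_norm, this, norm_smul, hnx, Real.norm_eq_abs, abs_of_nonneg (by positivity)]
    field_simp
  have h2 : dist ζ x = 1 / 80 - s := by
    have : ζ - x = ((1 / 80) / s - 1) • (x - x') := by
      rw [hζ]; module
    rw [dist_eq_norm, this, norm_smul, hnx, Real.norm_eq_abs, abs_of_nonneg]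
    · field_simp
    · rw [sub_nonneg, le_div_iff₀ hs0]; linarith
  have h3 : mm f x' (1 / 80) ≤ dist (f ζ) (f x') := by
    apply mm_le_of_le_on (by omega) hG' (by norm_num) (hcb _ _ le_rfl) _ h1.ge
    rw [mem_ball, h1]; norm_num
  have h4 := hbd ζ (by rw [h2]; linarith)
  have h5 := hbd x' hxx
  have h6 : dist (f ζ) (f x') ≤ dist (f ζ) (f x) + dist (f x) (f x') := dist_triangle _ _ _
  rw [dist_comm (f x) (f x')] at h6
  linarith

end

end Pool.Agent.Helper746.Qc
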