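import Mathlib
import Pool.Agent.Helper746.QcDefs
import Pool.Agent.Helper746.QcLDefs
import Pool.Agent.Helper746.QcNDefs
import Pool.Agent.Helper746.QcLmm
import Pool.Agent.Helper746.QcEqui
import Pool.Agent.Helper746.QcGrowth

set_option autoImplicit false

namespace Pool.Agent.Helper746.Qc

open Set Metric MeasureTheory Filter Topology
open scoped ENNReal NNReal

noncomputable section

theorem poly {C : ℝ} (hC : 1 ≤ C) : ∃ N : ℕ, 1 ≤ N ∧ ∃ Λ : ℝ, 1 ≤ Λ ∧ ∀ n : ℕ, 2 ≤ n →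
    ∀ (H K A : ℝ) (f : Eu n → Eu n), LN H K A f → WQS C A f → 3 ≤ A →
    ∀ p q : Eu n, ‖p‖ ≤ 2 → ‖q‖ ≤ 2 → p ≠ q → f p = f q →
      1 / 4 ≤ dist p q ∧ ∃ x : ℕ → Eu n, x 0 = p ∧ x N = q ∧ (∀ i, i ≤ N → ‖x i‖ ≤ 2) ∧
        (∀ i, i < N → dist (x (i + 1)) (x i) < 1 / 80 ∧
          dist (f (x (i + 1))) (f (x i)) ≤ mm f (x i) (1 / 80) / 10 ∧
          mm f p (1 / 80) / Λ ≤ dist (f (x (i + 1))) (f (x i))) ∧
        (∀ i, i ≤ N → mm f p (1 / 80) / Λ ≤ mm f (x i) (1 / 80) ∧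
          mm f (x i) (1 / 80) ≤ Λ * mm f p (1 / 80)) := by
  obtain ⟨τ, hτ0, hτ1, hτ⟩ := equicont hC
  obtain ⟨N, hN⟩ := exists_nat_gt (4 / τ)
  have hNpos : (0 : ℝ) < N := lt_trans (by positivity) hN
  have hN1 : 1 ≤ N := by
    have : 0 < N := by exact_mod_cast hNpos
    omega
  have hNτ : 4 / (N : ℝ) ≤ τ := by
    rw [div_lt_iff₀ hτ0] at hN
    rw [div_le_iff₀ hNpos]
    linarith
  set θ : ℝ := min (1 / (4 * N)) (1 / 80) with hθdef
  have hθ : 0 < θ := lt_min (by positivity) (by norm_num)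
  have hθ1 : θ ≤ 1 / 80 := min_le_right _ _
  have hθ2 : θ ≤ 1 / (4 * N) := min_le_left _ _
  obtain ⟨c, hc, hgrow⟩ := growth_lower hC hθ hθ1
  have h2C : 1 ≤ 2 * C := by linarith
  have h2CN : ∀ i, i ≤ N → (2 * C) ^ i ≤ (2 * C) ^ N := fun i hi => pow_le_pow_right₀ h2C hi
  have h2CN1 : 1 ≤ (2 * C) ^ N := one_le_pow₀ h2C
  refine ⟨N, hN1, (2 * C) ^ N * max 1 (1 / c), ?_, ?_⟩
  · have : 1 ≤ max 1 (1 / c) := le_max_left _ _
    nlinarith
  intro n hn H K A f hLN hW hA p q hp hq hpq hfpq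
  set Λ : ℝ := (2 * C) ^ N * max 1 (1 / c) with hΛ
  have hΛ1 : (2 * C) ^ N ≤ Λ := by
    have : 1 ≤ max 1 (1 / c) := le_max_left _ _
    nlinarith
  have hΛ2 : (2 * C) ^ N * (1 / c) ≤ Λ :=
    mul_le_mul_of_nonneg_left (le_max_right _ _) (by positivity)
  have hΛpos : 0 < Λ := by linarith
  have hd : 1 / 4 ≤ dist p q := by
    by_contra hcon
    push Not at hcon
    apply hpq
    refine (hLN p (by linarith)).inj (mem_ball_self (by norm_num)) ?_ hfpq
    rw [mem_ball, dist_comm]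
    exact hcon
  refine ⟨hd, ?_⟩
  have hd4 : dist p q ≤ 4 := by
    rw [dist_eq_norm]
    have := norm_sub_le p q
    linarith
  let x : ℕ → Eu n := fun i => p + ((i : ℝ) / N) • (q - p)
  have hx0 : x 0 = p := by simp [x]
  have hxN : x N = q := by
    show p + ((N : ℝ) / N) • (q - p) = q
    rw [div_self hNpos.ne', one_smul]
    abel
  have hxn : ∀ i, i ≤ N → ‖x i‖ ≤ 2 := by
    intro i hi
    have hi' : (i : ℝ) / N ≤ 1 := by
      rw [div_le_one hNpos]
      exact_mod_cast hi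
    have hi0 : 0 ≤ (i : ℝ) / N := by positivity
    have e : x i = (1 - (i : ℝ) / N) • p + ((i : ℝ) / N) • q := by
      show p + ((i : ℝ) / N) • (q - p) = _
      rw [smul_sub, sub_smul, one_smul]
      abel
    rw [e]
    refine (norm_add_le _ _).trans ?_
    rw [norm_smul, norm_smul, Real.norm_of_nonneg hi0, Real.norm_of_nonneg (by linarith : 0 ≤ 1 - (i : ℝ) / N)]
    nlinarith
  have hstep : ∀ i, dist (x (i + 1)) (x i) = dist p q / N := by
    intro i
    have e : x (i + 1) - x i = (1 / (N : ℝ)) • (q - p) := by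
      show (p + (((i + 1 : ℕ) : ℝ) / N) • (q - p)) - (p + ((i : ℝ) / N) • (q - p)) = _
      rw [add_sub_add_left_eq_sub, ← sub_smul]
      congr 1
      push_cast
      ring
    rw [dist_eq_norm, e, norm_smul, Real.norm_of_nonneg (by positivity), dist_comm p q, dist_eq_norm]
    ring
  have hs1 : dist p q / N ≤ τ := by
    refine le_trans ?_ hNτ
    gcongr
  have hs2 : dist p q / N < 1 / 80 := by linarith
  have hs3 : θ ≤ dist p q / N := by
    refine hθ2.trans ?_
    rw [div_le_div_iff₀ (by positivity) hNpos]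
    nlinarith
  have hsub : ∀ (y : Eu n) (r : ℝ), r ≤ 1 / 80 → closedBall y r ⊆ ball y (1 / 4) := fun y r hr =>
    closedBall_subset_ball (by linarith)
  have hpos : ∀ i, i ≤ N → 0 < mm f (x i) (1 / 80) := by
    intro i hi
    have := hxn i hi
    exact mm_pos_on (by omega) (hLN (x i) (by linarith)) (by norm_num) (hsub _ _ le_rfl)
  have hpp : 0 < mm f p (1 / 80) := by
    have := hpos 0 (Nat.zero_le _)
    rwa [hx0] at this
  have hcomp1 : ∀ i, i + 1 ≤ N → mm f (x (i + 1)) (1 / 80) ≤ 2 * C * mm f (x i) (1 / 80) := by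
    intro i hi
    have := hxn i (by omega)
    refine mm_comp hC hn hLN hW (by linarith) ?_
    rw [hstep]
    exact hs2.le
  have hcomp2 : ∀ i, i + 1 ≤ N → mm f (x i) (1 / 80) ≤ 2 * C * mm f (x (i + 1)) (1 / 80) := by
    intro i hi
    have := hxn (i + 1) hi
    refine mm_comp hC hn hLN hW (by linarith) ?_
    rw [dist_comm, hstep]
    exact hs2.le
  have hind : ∀ i, i ≤ N → mm f (x i) (1 / 80) ≤ (2 * C) ^ i * mm f p (1 / 80) ∧
      mm f p (1 / 80) ≤ (2 * C) ^ i * mm f (x i) (1 / 80) := by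
    intro i
    induction i with
    | zero =>
      intro _
      rw [hx0]
      simp
    | succ i ih =>
      intro hi
      obtain ⟨h1, h2⟩ := ih (by omega)
      have h3 := hcomp1 i hi
      have h4 := hcomp2 i hi
      have h5 : 0 ≤ (2 * C) ^ i := by positivity
      constructor
      · calc mm f (x (i + 1)) (1 / 80) ≤ 2 * C * mm f (x i) (1 / 80) := h3
          _ ≤ 2 * C * ((2 * C) ^ i * mm f p (1 / 80)) := mul_le_mul_of_nonneg_left h1 (by linarith)
          _ = (2 * C) ^ (i + 1) * mm f p (1 / 80) := by ring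
      · calc mm f p (1 / 80) ≤ (2 * C) ^ i * mm f (x i) (1 / 80) := h2
          _ ≤ (2 * C) ^ i * (2 * C * mm f (x (i + 1)) (1 / 80)) := mul_le_mul_of_nonneg_left h4 h5
          _ = (2 * C) ^ (i + 1) * mm f (x (i + 1)) (1 / 80) := by ring
  refine ⟨x, hx0, hxN, hxn, ?_, ?_⟩
  · intro i hi
    have hni := hxn i hi.le
    refine ⟨by rw [hstep]; exact hs2, ?_, ?_⟩
    · exact hτ n hn H K A f hLN hW (x i) (by linarith) (x (i + 1)) (by rw [hstep]; exact hs1)
    · have h1 : mm f (x i) θ ≤ dist (f (x (i + 1))) (f (x i)) := by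
        refine mm_le_of_le_on (by omega) (hLN (x i) (by linarith)) hθ (hsub _ _ hθ1) ?_ ?_
        · rw [mem_ball, hstep]
          linarith
        · rw [hstep]
          exact hs3
      have h2 := hgrow n hn H K A f hLN hW (x i) (by linarith)
      have h3 := (hind i hi.le).2
      have h4 := hpos i hi.le
      rw [div_le_iff₀ hΛpos]
      have h5 : c * mm f (x i) (1 / 80) ≤ dist (f (x (i + 1))) (f (x i)) := h2.trans h1
      calc mm f p (1 / 80) ≤ (2 * C) ^ i * mm f (x i) (1 / 80) := h3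
        _ ≤ (2 * C) ^ N * mm f (x i) (1 / 80) := mul_le_mul_of_nonneg_right (h2CN i hi.le) h4.le
        _ = (c * mm f (x i) (1 / 80)) * ((2 * C) ^ N * (1 / c)) := by
          field_simp
        _ ≤ (c * mm f (x i) (1 / 80)) * Λ := mul_le_mul_of_nonneg_left hΛ2 (by positivity)
        _ ≤ dist (f (x (i + 1))) (f (x i)) * Λ := mul_le_mul_of_nonneg_right h5 hΛpos.le
  · intro i hi
    obtain ⟨h1, h2⟩ := hind i hi
    have h3 := hpos i hi
    have h4 := (h2CN i hi).trans hΛ1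
    constructor
    · rw [div_le_iff₀ hΛpos]
      calc mm f p (1 / 80) ≤ (2 * C) ^ i * mm f (x i) (1 / 80) := h2
        _ ≤ Λ * mm f (x i) (1 / 80) := mul_le_mul_of_nonneg_right h4 h3.le
        _ = mm f (x i) (1 / 80) * Λ := mul_comm _ _
    · exact h1.trans (mul_le_mul_of_nonneg_right h4 hpp.le)

end

end Pool.Agent.Helper746.Qc
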