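import Mathlib
import Pool.Agent.Helper746.QcDefs
import Pool.Agent.Helper746.QcLDefs
import Pool.Agent.Helper746.QcNDefs
import Pool.Agent.Helper746.QcUlift

set_option autoImplicit false

namespace Pool.Agent.Helper746.Qc

open Set Metric MeasureTheory Filter Topology
open scoped ENNReal NNReal

noncomputable section

/-- the homotopy to be lifted -/
def job10408_F_top {n : ℕ} (f : Eu n → Eu n) (β : ℝ → Eu n) (v : Eu n) (t s : ℝ) : Eu n :=
  (1 - s) • f (β t) + s • v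

lemma job10408_local_top {n : ℕ} {A : ℝ} {f : Eu n → Eu n} (hf : LH A f) :
    IsLocalHomeomorph (fun x : ball (0 : Eu n) A => f x.1) := by
  rw [isLocalHomeomorph_iff_isOpenEmbedding_restrict]
  intro x
  obtain ⟨δ, hδ, hsub, hinj⟩ := hf.2.1 x.1 x.2
  refine ⟨{y : ball (0 : Eu n) A | y.1 ∈ ball x.1 δ}, ?_, ?_⟩
  · exact (isOpen_ball.preimage continuous_subtype_val).mem_nhds (mem_ball_self hδ)
  · apply IsOpenEmbedding.of_continuous_injective_isOpenMap
    · have h1 : Continuous (fun x : ball (0 : Eu n) A => f x.1) :=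
        continuousOn_iff_continuous_domRestrict.1 hf.1
      exact h1.comp continuous_subtype_val
    · intro y z hyz
      have := hinj y.2 z.2 hyz
      exact Subtype.ext (Subtype.ext this)
    · intro V hV
      have hW : IsOpen (Subtype.val '' (Subtype.val '' V) : Set (Eu n)) := by
        apply (isOpen_ball.isOpenMap_subtype_val)
        exact (isOpen_ball.preimage continuous_subtype_val).isOpenMap_subtype_val _ hV
      have h2 := hf.2.2 (Subtype.val '' (Subtype.val '' V)) (by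
        rintro _ ⟨z, _, rfl⟩
        exact z.2) hW
      convert h2 using 1
      ext w
      constructor
      · rintro ⟨y, hy, rfl⟩
        exact ⟨y.1.1, ⟨y.1, ⟨y, hy, rfl⟩, rfl⟩, rfl⟩
      · rintro ⟨_, ⟨_, ⟨y, hy, rfl⟩, rfl⟩, rfl⟩
        exact ⟨y, hy, rfl⟩

/-- STEP 0 -/
lemma job10408_unif_top {n : ℕ} {A A' : ℝ} (hAA : A' < A) {f : Eu n → Eu n} (hf : LH A f) :
    ∃ δ : ℝ, 0 < δ ∧ ∃ r : ℝ, 0 < r ∧ ∀ y ∈ closedBall (0 : Eu n) A',
      ball y δ ⊆ ball 0 A ∧ InjOn f (ball y δ) ∧ ball (f y) r ⊆ f '' ball y δ := by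
  have hK : IsCompact (closedBall (0 : Eu n) A') := isCompact_closedBall _ _
  have hKA : closedBall (0 : Eu n) A' ⊆ ball 0 A := closedBall_subset_ball hAA
  choose δ' hδ' hsub' hinj' using hf.2.1
  obtain ⟨δ, hδ, hleb⟩ := lebesgue_number_lemma_of_metric hK
    (c := fun x : ball (0 : Eu n) A => ball x.1 (δ' x.1 x.2)) (fun i => isOpen_ball) (by
      intro x hx
      rw [mem_iUnion]
      exact ⟨⟨x, hKA hx⟩, mem_ball_self (hδ' _ _)⟩)
  have h1 : ∀ y ∈ closedBall (0 : Eu n) A', ball y δ ⊆ ball 0 A ∧ InjOn f (ball y δ) := by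
    intro y hy
    obtain ⟨i, hi⟩ := hleb y hy
    exact ⟨hi.trans (hsub' _ _), (hinj' _ _).mono hi⟩
  have h2 : ∃ r : ℝ, 0 < r ∧ ∀ y ∈ closedBall (0 : Eu n) A', ball (f y) r ⊆ f '' ball y δ := by
    refine hK.induction_on (p := fun S => ∃ r : ℝ, 0 < r ∧ ∀ y ∈ S, ball (f y) r ⊆ f '' ball y δ)
      ?_ ?_ ?_ ?_
    · exact ⟨1, one_pos, fun y hy => absurd hy (notMem_empty _)⟩
    · rintro s t hst ⟨r, hr, h⟩
      exact ⟨r, hr, fun y hy => h y (hst hy)⟩
    · rintro s t ⟨r, hr, h⟩ ⟨r', hr', h'⟩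
      refine ⟨min r r', lt_min hr hr', ?_⟩
      rintro y (hy | hy)
      · exact (ball_subset_ball (min_le_left _ _)).trans (h y hy)
      · exact (ball_subset_ball (min_le_right _ _)).trans (h' y hy)
    · intro y₀ hy₀
      have ho : IsOpen (f '' ball y₀ (δ / 2)) := hf.2.2 _
        ((ball_subset_ball (by linarith)).trans (h1 y₀ hy₀).1) isOpen_ball
      obtain ⟨ρ, hρ, hρs⟩ := Metric.isOpen_iff.1 ho (f y₀) ⟨y₀, mem_ball_self (by positivity), rfl⟩
      have hc : ContinuousAt f y₀ := hf.1.continuousAt (isOpen_ball.mem_nhds (hKA hy₀))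
      have hnh : {y | dist (f y) (f y₀) < ρ / 2} ∈ 𝓝 y₀ := by
        have := Metric.continuousAt_iff'.1 hc (ρ / 2) (by positivity)
        exact this
      refine ⟨{y | dist (f y) (f y₀) < ρ / 2} ∩ ball y₀ (δ / 2), mem_nhdsWithin_of_mem_nhds
        (inter_mem hnh (ball_mem_nhds _ (by positivity))), ρ / 2, by positivity, ?_⟩
      rintro y ⟨hy1, hy2⟩
      have hy1' : dist (f y) (f y₀) < ρ / 2 := hy1
      have hy2' : dist y y₀ < δ / 2 := hy2
      intro z hz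
      have hz' : dist z (f y) < ρ / 2 := hz
      have hz2 : z ∈ ball (f y₀) ρ := by
        rw [mem_ball]
        have := dist_triangle z (f y) (f y₀)
        linarith
      obtain ⟨w, hw, hwz⟩ := hρs hz2
      refine ⟨w, ?_, hwz⟩
      have hw' : dist w y₀ < δ / 2 := hw
      rw [mem_ball]
      have := dist_triangle w y₀ y
      rw [dist_comm y₀ y] at this
      linarith
  obtain ⟨r, hr, h2⟩ := h2
  exact ⟨δ, hδ, r, hr, fun y hy => ⟨(h1 y hy).1, (h1 y hy).2, h2 y hy⟩⟩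

/-- continuity of the local inverse -/
lemma job10408_inv_top {n : ℕ} {A δ : ℝ} {f : Eu n → Eu n} (hf : LH A f) {y : Eu n}
    (hy : ball y δ ⊆ ball 0 A) (hi : InjOn f (ball y δ)) :
    ContinuousOn (Function.invFunOn f (ball y δ)) (f '' ball y δ) := by
  intro z hz
  have hg : ∀ w ∈ f '' ball y δ, Function.invFunOn f (ball y δ) w ∈ ball y δ ∧
      f (Function.invFunOn f (ball y δ) w) = w := fun w hw =>
    ⟨Function.invFunOn_mem hw, Function.invFunOn_eq hw⟩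
  rw [Metric.continuousWithinAt_iff]
  intro ε hε
  have ho : IsOpen (f '' (ball y δ ∩ ball (Function.invFunOn f (ball y δ) z) ε)) :=
    hf.2.2 _ (inter_subset_left.trans hy) (isOpen_ball.inter isOpen_ball)
  obtain ⟨ρ, hρ, hρs⟩ := Metric.isOpen_iff.1 ho z
    ⟨Function.invFunOn f (ball y δ) z, ⟨(hg z hz).1, mem_ball_self hε⟩, (hg z hz).2⟩
  refine ⟨ρ, hρ, fun {w} hw hwz => ?_⟩
  obtain ⟨x, ⟨hx1, hx2⟩, hxw⟩ := hρs (mem_ball.2 hwz)
  have h3 : Function.invFunOn f (ball y δ) w = x := hi (hg w hw).1 hx1 ((hg w hw).2.trans hxw.symm)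
  rw [h3]
  exact hx2

/-- lifts of the line `s ↦ F t s` on `[0,s]` with values in `S` -/
def job10408_PL_top {n : ℕ} (f : Eu n → Eu n) (β : ℝ → Eu n) (v : Eu n) (S : Set (Eu n)) (t s : ℝ) : Prop :=
  ∃ γ : ℝ → Eu n, ContinuousOn γ (Icc 0 s) ∧ γ 0 = β t ∧
    ∀ u ∈ Icc (0 : ℝ) s, γ u ∈ S ∧ f (γ u) = job10408_F_top f β v t u

lemma job10408_ext_top {n : ℕ} {A A' L : ℝ} (hAA : A' < A)
    {f : Eu n → Eu n} (hf : LH A f) {β : ℝ → Eu n} (hβ : ContinuousOn β (Icc 0 L))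
    (hβA : ∀ t ∈ Icc (0 : ℝ) L, ‖β t‖ ≤ A') (v : Eu n) :
    ∃ ε : ℝ, 0 < ε ∧ ∀ t ∈ Icc (0 : ℝ) L, ∀ s₀ : ℝ, 0 ≤ s₀ →
      job10408_PL_top f β v (closedBall 0 A') t s₀ → ∀ s₁, s₀ ≤ s₁ → s₁ ≤ s₀ + ε →
      job10408_PL_top f β v (ball 0 A) t s₁ := by
  obtain ⟨δ, hδ, r, hr, hu⟩ := job10408_unif_top (n := n) hAA hf
  have hc : ContinuousOn (fun t => v - f (β t)) (Icc 0 L) := by
    refine continuousOn_const.sub (hf.1.comp hβ fun t ht => ?_)
    rw [mem_ball_zero_iff]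
    exact (hβA t ht).trans_lt hAA
  obtain ⟨M, hM⟩ := isCompact_Icc.exists_bound_of_continuousOn hc
  have hM0 : ∀ t ∈ Icc (0:ℝ) L, ‖v - f (β t)‖ < |M| + 1 := fun t ht => by
    have := hM t ht
    have := le_abs_self M
    linarith
  refine ⟨r / (|M| + 1), by positivity, ?_⟩
  rintro t ht s₀ hs₀ ⟨γ, hγ, hγ0, hγS⟩ s₁ h01 h1ε
  have hy := (hγS s₀ ⟨hs₀, le_rfl⟩).1
  have hfy := (hγS s₀ ⟨hs₀, le_rfl⟩).2
  obtain ⟨hu1, hu2, hu3⟩ := hu (γ s₀) hy
  set B := ball (γ s₀) δ with hB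
  set g := Function.invFunOn f B with hg
  have hFr : ∀ u ∈ Icc s₀ s₁, job10408_F_top f β v t u ∈ f '' B := by
    intro u hu'
    apply hu3
    rw [mem_ball, hfy, dist_eq_norm]
    have e : job10408_F_top f β v t u - job10408_F_top f β v t s₀ = (u - s₀) • (v - f (β t)) := by
      simp only [job10408_F_top]
      module
    rw [e, norm_smul, Real.norm_eq_abs, abs_of_nonneg (by linarith [hu'.1])]
    have h1 := hM0 t ht
    have h2 : u - s₀ ≤ r / (|M| + 1) := by linarith [hu'.2]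
    rcases eq_or_lt_of_le hu'.1 with h | h
    · rw [← h, sub_self, zero_mul]; exact hr
    · calc (u - s₀) * ‖v - f (β t)‖ < (u - s₀) * (|M| + 1) :=
          mul_lt_mul_of_pos_left h1 (by linarith)
        _ ≤ r / (|M| + 1) * (|M| + 1) := mul_le_mul_of_nonneg_right h2 (by positivity)
        _ = r := by field_simp
  have hgs : g (job10408_F_top f β v t s₀) = γ s₀ := by
    have hm : job10408_F_top f β v t s₀ ∈ f '' B := ⟨γ s₀, mem_ball_self hδ, hfy⟩
    exact hu2 (Function.invFunOn_mem hm) (mem_ball_self hδ) ((Function.invFunOn_eq hm).trans hfy.symm)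
  have hFc : Continuous (job10408_F_top f β v t) := by
    unfold job10408_F_top
    fun_prop
  refine ⟨fun u => if u ≤ s₀ then γ u else g (job10408_F_top f β v t u), ?_, ?_, ?_⟩
  · have hIcc : Icc (0:ℝ) s₁ = Icc 0 s₀ ∪ Icc s₀ s₁ := (Icc_union_Icc_eq_Icc hs₀ h01).symm
    rw [hIcc]
    apply ContinuousOn.union_of_isClosed _ _ isClosed_Icc isClosed_Icc
    · refine hγ.congr fun u hu' => ?_
      simp only [if_pos hu'.2]
    · have h3 : ContinuousOn (fun u => g (job10408_F_top f β v t u)) (Icc s₀ s₁) :=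
        (job10408_inv_top hf hu1 hu2).comp hFc.continuousOn hFr
      refine h3.congr fun u hu' => ?_
      by_cases h : u ≤ s₀
      · have : u = s₀ := le_antisymm h hu'.1
        subst this
        simp only [le_refl, if_true]
        exact hgs.symm
      · simp only [if_neg h]
  · simp only [if_pos hs₀]
    exact hγ0
  · intro u hu'
    by_cases h : u ≤ s₀
    · simp only [if_pos h]
      have := hγS u ⟨hu'.1, h⟩
      exact ⟨closedBall_subset_ball hAA this.1, this.2⟩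
    · simp only [if_neg h]
      push Not at h
      have hm := hFr u ⟨h.le, hu'.2⟩
      exact ⟨hu1 (Function.invFunOn_mem hm), Function.invFunOn_eq hm⟩

lemma job10408_joint_top {n : ℕ} {A L : ℝ} {f : Eu n → Eu n} (hf : LH A f) {β : ℝ → Eu n}
    (hβ : ContinuousOn β (Icc 0 L)) (v : Eu n) {s' : ℝ} (hs' : 0 < s')
    (hβA : ∀ t ∈ Icc (0 : ℝ) L, β t ∈ ball (0 : Eu n) A)
    (Φ : ℝ → ℝ → Eu n) (h1 : ∀ t ∈ Icc (0 : ℝ) L, ContinuousOn (Φ t) (Icc 0 s'))
    (h2 : ∀ t ∈ Icc (0 : ℝ) L, Φ t 0 = β t)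
    (h3 : ∀ t ∈ Icc (0 : ℝ) L, ∀ u ∈ Icc (0 : ℝ) s', Φ t u ∈ ball (0 : Eu n) A ∧
      f (Φ t u) = job10408_F_top f β v t u) :
    ContinuousOn (fun p : ℝ × ℝ => Φ p.1 p.2) (Icc 0 L ×ˢ Icc 0 s') := by
  have hm : ∀ u : unitInterval, (u : ℝ) * s' ∈ Icc (0 : ℝ) s' := fun u =>
    ⟨mul_nonneg u.2.1 hs'.le, mul_le_of_le_one_left hs'.le u.2.2⟩
  let g : unitInterval × (Icc (0 : ℝ) L) → ball (0 : Eu n) A :=
    fun p => ⟨Φ p.2.1 (p.1.1 * s'), (h3 p.2.1 p.2.2 _ (hm p.1)).1⟩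
  have hβr : Continuous (fun a : Icc (0 : ℝ) L => f (β a.1)) := by
    have : ContinuousOn (fun t => f (β t)) (Icc 0 L) := hf.1.comp hβ hβA
    exact continuousOn_iff_continuous_domRestrict.1 this
  let Fc : C(unitInterval × (Icc (0 : ℝ) L), Eu n) :=
    ⟨fun p => (1 - p.1.1 * s') • f (β p.2.1) + (p.1.1 * s') • v, by
      have := hβr.comp (continuous_snd (X := unitInterval) (Y := Icc (0 : ℝ) L))
      have h5 : Continuous (fun p : unitInterval × (Icc (0 : ℝ) L) => f (β p.2.1)) := this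
      have h6 : Continuous (fun p : unitInterval × (Icc (0 : ℝ) L) => (p.1 : ℝ) * s') :=
        (continuous_subtype_val.comp continuous_fst).mul continuous_const
      exact ((continuous_const.sub h6).smul h5).add (h6.smul continuous_const)⟩
  have hgc : Continuous g := by
    refine (job10408_local_top hf).continuous_lift (T2Space.isSeparatedMap _) Fc ?_ ?_ ?_
    · ext1 p
      exact (h3 p.2.1 p.2.2 _ (hm p.1)).2
    · apply Continuous.subtype_mk
      have h4 : Continuous (fun a : Icc (0 : ℝ) L => β a.1) := continuousOn_iff_continuous_domRestrict.1 hβ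
      refine h4.congr fun a => ?_
      show β a.1 = Φ a.1 ((0 : unitInterval) * s')
      rw [Set.Icc.coe_zero, zero_mul, h2 a.1 a.2]
    · intro a
      apply Continuous.subtype_mk
      have h4 : Continuous (fun u : Icc (0 : ℝ) s' => Φ a.1 u.1) :=
        continuousOn_iff_continuous_domRestrict.1 (h1 a.1 a.2)
      have h5 : Continuous (fun u : unitInterval => (⟨(u : ℝ) * s', hm u⟩ : Icc (0 : ℝ) s')) := by
        apply Continuous.subtype_mk
        fun_prop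
      exact h4.comp h5
  rw [continuousOn_iff_continuous_domRestrict]
  have hq : ∀ p : (Icc (0 : ℝ) L ×ˢ Icc (0 : ℝ) s' : Set (ℝ × ℝ)), p.1.2 / s' ∈ Icc (0 : ℝ) 1 := fun p =>
    ⟨div_nonneg p.2.2.1 hs'.le, (div_le_one hs').2 p.2.2.2⟩
  have h6 : Continuous (fun p : (Icc (0 : ℝ) L ×ˢ Icc (0 : ℝ) s' : Set (ℝ × ℝ)) =>
      ((⟨p.1.2 / s', hq p⟩, ⟨p.1.1, p.2.1⟩) : unitInterval × (Icc (0 : ℝ) L))) := by
    apply Continuous.prodMk
    · apply Continuous.subtype_mk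
      fun_prop
    · apply Continuous.subtype_mk
      fun_prop
  have h7 := (continuous_subtype_val.comp hgc).comp h6
  refine h7.congr fun p => ?_
  show Φ p.1.1 (p.1.2 / s' * s') = Φ p.1.1 p.1.2
  rw [div_mul_cancel₀ _ hs'.ne']

theorem top_lift {n : ℕ} (hn : 1 ≤ n) {A A' L : ℝ} (hA' : 0 < A') (hAA : A' < A) (hL : 0 < L)
    {f : Eu n → Eu n} (hf : LH A f) {β : ℝ → Eu n} (hβ : ContinuousOn β (Icc 0 L))
    (hβA : ∀ t ∈ Icc (0 : ℝ) L, ‖β t‖ ≤ A') (hcl : f (β 0) = f (β L)) (hne : β 0 ≠ β L) (v : Eu n) :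
    ∃ s₁ ∈ Ioo (0 : ℝ) 1, ∃ Φ : ℝ → ℝ → Eu n,
      ContinuousOn (fun p : ℝ × ℝ => Φ p.1 p.2) (Icc 0 L ×ˢ Icc 0 s₁) ∧
      (∀ t ∈ Icc (0 : ℝ) L, Φ t 0 = β t) ∧
      (∀ t ∈ Icc (0 : ℝ) L, ∀ s ∈ Icc (0 : ℝ) s₁, Φ t s ∈ ball (0 : Eu n) A ∧
        f (Φ t s) = (1 - s) • f (β t) + s • v) ∧
      ∃ t ∈ Icc (0 : ℝ) L, A' < ‖Φ t s₁‖ := by
  have hβA2 : ∀ t ∈ Icc (0 : ℝ) L, β t ∈ ball (0 : Eu n) A := fun t ht => by
    rw [mem_ball_zero_iff]; exact (hβA t ht).trans_lt hAA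
  by_contra hcon
  obtain ⟨ε, hε, hext⟩ := job10408_ext_top hAA hf hβ hβA v
  have hstep : ∀ k : ℕ, ∀ t ∈ Icc (0 : ℝ) L,
      job10408_PL_top f β v (closedBall 0 A') t (min 1 (k * ε)) := by
    intro k
    induction k with
    | zero =>
      intro t ht
      refine ⟨fun _ => β t, continuousOn_const, rfl, fun u hu => ?_⟩
      have hu0 : u = 0 := by
        have h1 := hu.1
        have h2 := hu.2
        rw [Nat.cast_zero, zero_mul, min_eq_right zero_le_one] at h2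
        exact le_antisymm h2 h1
      subst hu0
      refine ⟨by simpa using hβA t ht, ?_⟩
      simp [job10408_F_top]
    | succ k ih =>
      set s₀ : ℝ := min 1 (k * ε) with hs₀
      set s₁ : ℝ := min 1 ((k + 1 : ℕ) * ε) with hs₁
      have hk0 : 0 ≤ s₀ := le_min zero_le_one (by positivity)
      have h01 : s₀ ≤ s₁ := by
        apply min_le_min le_rfl
        push_cast
        nlinarith
      have h1ε : s₁ ≤ s₀ + ε := by
        rw [hs₁, hs₀]
        push_cast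
        rcases le_total 1 ((k : ℝ) * ε) with h | h
        · rw [min_eq_left h]
          exact (min_le_left _ _).trans (by linarith)
        · rw [min_eq_right h]
          exact (min_le_right _ _).trans (by linarith)
      have hPL : ∀ t ∈ Icc (0 : ℝ) L, job10408_PL_top f β v (ball 0 A) t s₁ := fun t ht =>
        hext t ht s₀ hk0 (ih t ht) s₁ h01 h1ε
      choose! γ hγc hγ0 hγS using hPL
      by_cases hall : ∀ t ∈ Icc (0 : ℝ) L, ∀ u ∈ Icc (0 : ℝ) s₁, ‖γ t u‖ ≤ A'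
      · intro t ht
        exact ⟨γ t, hγc t ht, hγ0 t ht, fun u hu => ⟨by simpa using hall t ht u hu, (hγS t ht u hu).2⟩⟩
      · exfalso
        push Not at hall
        obtain ⟨t₁, ht₁, u₁, hu₁, hbig⟩ := hall
        have hu₁0 : 0 < u₁ := by
          rcases eq_or_lt_of_le hu₁.1 with h | h
          · rw [← h, hγ0 t₁ ht₁] at hbig
            exact absurd (hβA t₁ ht₁) (not_le.2 hbig)
          · exact h
        have hs11 : s₁ ≤ 1 := min_le_left _ _
        -- choose s' < 1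
        obtain ⟨s', hs'0, hs'1, hs's, hs'big⟩ : ∃ s' : ℝ, 0 < s' ∧ s' < 1 ∧ s' ≤ s₁ ∧ A' < ‖γ t₁ s'‖ := by
          by_cases hu1 : u₁ < 1
          · exact ⟨u₁, hu₁0, hu1, hu₁.2, hbig⟩
          · have hcw : ContinuousWithinAt (fun u => ‖γ t₁ u‖) (Icc 0 s₁) u₁ := (hγc t₁ ht₁ u₁ hu₁).norm
            have hcw2 : ContinuousWithinAt (fun u => ‖γ t₁ u‖) (Ioo 0 u₁) u₁ :=
              hcw.mono fun x hx => ⟨hx.1.le, hx.2.le.trans hu₁.2⟩
            have hev : ∀ᶠ u in 𝓝[Ioo 0 u₁] u₁, A' < ‖γ t₁ u‖ := hcw2.eventually (lt_mem_nhds hbig)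
            have hne' : (𝓝[Ioo 0 u₁] u₁).NeBot := by
              rw [← mem_closure_iff_nhdsWithin_neBot, closure_Ioo hu₁0.ne]
              exact right_mem_Icc.2 hu₁0.le
            obtain ⟨s', h1, h2⟩ := (hev.and self_mem_nhdsWithin).exists
            exact ⟨s', h2.1, h2.2.trans_le (hu₁.2.trans hs11), h2.2.le.trans hu₁.2, h1⟩
        apply hcon
        have hsubI : Icc (0:ℝ) s' ⊆ Icc 0 s₁ := Icc_subset_Icc le_rfl hs's
        refine ⟨s', ⟨hs'0, hs'1⟩, γ, ?_, hγ0, ?_, t₁, ht₁, hs'big⟩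
        · exact job10408_joint_top hf hβ v hs'0 hβA2 γ (fun t ht => (hγc t ht).mono hsubI) hγ0
            fun t ht u hu => hγS t ht u (hsubI hu)
        · intro t ht s hs
          exact hγS t ht s (hsubI hs)
  -- conclusion
  obtain ⟨k, hk⟩ := exists_nat_gt (1 / ε)
  have hk1 : min 1 ((k : ℝ) * ε) = 1 := by
    apply min_eq_left
    rw [div_lt_iff₀ hε] at hk
    exact hk.le
  have hfin := hstep k
  rw [hk1] at hfin
  choose! γ hγc hγ0 hγS using hfin
  have hγS' : ∀ t ∈ Icc (0 : ℝ) L, ∀ u ∈ Icc (0 : ℝ) 1, γ t u ∈ ball (0 : Eu n) A ∧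
      f (γ t u) = job10408_F_top f β v t u := fun t ht u hu =>
    ⟨closedBall_subset_ball hAA (hγS t ht u hu).1, (hγS t ht u hu).2⟩
  have hj := job10408_joint_top hf hβ v one_pos hβA2 γ hγc hγ0 hγS'
  have hc1 : ContinuousOn (fun t => γ t 1) (Icc 0 L) := by
    have : ContinuousOn (fun t : ℝ => ((t, 1) : ℝ × ℝ)) (Icc 0 L) := by fun_prop
    exact hj.comp this fun t ht => ⟨ht, ⟨zero_le_one, le_rfl⟩⟩
  have h0L : (0 : ℝ) ∈ Icc (0 : ℝ) L := ⟨le_rfl, hL.le⟩
  have hLL : L ∈ Icc (0 : ℝ) L := ⟨hL.le, le_rfl⟩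
  have h11 : (1 : ℝ) ∈ Icc (0 : ℝ) 1 := ⟨zero_le_one, le_rfl⟩
  have hv : ∀ t ∈ Icc (0 : ℝ) L, f (γ t 1) = v := by
    intro t ht
    rw [(hγS' t ht 1 h11).2]
    simp [job10408_F_top]
  have hconst := unique_lift hf isPreconnected_Icc hc1 (continuousOn_const (c := γ 0 1))
    (fun t ht => (hγS' t ht 1 h11).1) (fun t ht => (hγS' 0 h0L 1 h11).1)
    (fun t ht => (hv t ht).trans (hv 0 h0L).symm) h0L rfl L hLL
  have hlines := unique_lift hf isPreconnected_Icc (hγc 0 h0L) (hγc L hLL)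
    (fun s hs => (hγS' 0 h0L s hs).1) (fun s hs => (hγS' L hLL s hs).1)
    (fun s hs => by
      rw [(hγS' 0 h0L s hs).2, (hγS' L hLL s hs).2]
      simp only [job10408_F_top, hcl]) h11 hconst.symm 0 ⟨le_rfl, zero_le_one⟩
  rw [hγ0 0 h0L, hγ0 L hLL] at hlines
  exact hne hlines

end

end Pool.Agent.Helper746.Qc
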