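import Mathlib
import Pool.Agent.Helper746.QcDefs
import Pool.Agent.Helper746.QcLDefs
import Pool.Agent.Helper746.QcNDefs
import Pool.Agent.Helper746.QcLmm
import Pool.Agent.Helper746.QcVol
import Pool.Agent.Helper746.QcLqs
import Pool.Agent.Helper746.QcPoly
import Pool.Agent.Helper746.QcApex
import Pool.Agent.Helper746.QcLhln
import Pool.Agent.Helper746.QcTop
import Pool.Agent.Helper746.QcBeta
import Pool.Agent.Helper746.QcEdge
import Pool.Agent.Helper746.QcAlg2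

set_option autoImplicit false

namespace Pool.Agent.Helper746.Qc

open Set Metric MeasureTheory Filter Topology
open scoped ENNReal NNReal

noncomputable section

theorem split10410_fnorm {N : ℕ} (hN : 1 ≤ N) {t : ℝ} (ht : t ∈ Icc (0 : ℝ) N) :
    ∃ i : ℕ, i < N ∧ ∃ s ∈ Icc (0 : ℝ) 1, t = i + s := by
  rcases ht.2.eq_or_lt with h | h
  · refine ⟨N - 1, by omega, 1, ⟨zero_le_one, le_rfl⟩, ?_⟩
    rw [h]
    push_cast [Nat.cast_sub hN]
    ring
  · refine ⟨⌊t⌋₊, ?_, t - ⌊t⌋₊, ⟨?_, ?_⟩, by ring⟩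
    · exact (Nat.floor_lt ht.1).2 h
    · linarith [Nat.floor_le ht.1]
    · linarith [Nat.lt_floor_add_one t]

theorem final_norm {K : ℝ} (hK : 1 ≤ K) : ∃ A₀ : ℝ, ∀ n : ℕ, 3 ≤ n → ∀ H : ℝ, 1 ≤ H →
    ∀ (A : ℝ) (f : Eu n → Eu n), LN H K A f → ∀ p q : Eu n, ‖p‖ ≤ 2 → ‖q‖ ≤ 2 → p ≠ q → f p = f q →
      A ≤ A₀ := by
  obtain ⟨C, hC, hW⟩ := wqs_of_LN hK
  obtain ⟨N, hN, Λ, hΛ, hpoly⟩ := poly hC
  have hN1 : (1 : ℝ) ≤ N := by exact_mod_cast hN
  have hΛ0 : 0 < Λ := by linarith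
  obtain ⟨W, hWdef⟩ : ∃ W : ℝ, W = 1 + N * Λ := ⟨_, rfl⟩
  have hNΛ : 1 ≤ N * Λ := by nlinarith
  have hW1 : 2 ≤ W := by linarith
  have hW0 : 0 < W := by linarith
  have hN8 : (0 : ℝ) < 8 * N + 8 := by positivity
  obtain ⟨θ, hθdef⟩ : ∃ θ : ℝ, θ = 1 / (20 * Λ * W) := ⟨_, rfl⟩
  have hθ0 : 0 < θ := by rw [hθdef]; positivity
  have hθ2 : θ ≤ 1 / 2 := by
    rw [hθdef]
    rw [div_le_div_iff₀ (by positivity) (by norm_num)]
    nlinarith
  obtain ⟨κ, hκdef⟩ : ∃ κ : ℝ, κ = min (1 / (20 * Λ))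
    (min (θ / (8 * N + 8)) (1 / Λ / (8 * N + 8) / (8 * W)) / 4) := ⟨_, rfl⟩
  have hκ0 : 0 < κ := by
    rw [hκdef]
    exact lt_min (by positivity) (div_pos (lt_min (by positivity) (by positivity)) (by norm_num))
  have hκ1 : κ ≤ 1 / (20 * Λ) := by rw [hκdef]; exact min_le_left _ _
  have hκ2 : 4 * κ ≤ θ / (8 * N + 8) := by
    have h1 : κ ≤ min (θ / (8 * N + 8)) (1 / Λ / (8 * N + 8) / (8 * W)) / 4 := by
      rw [hκdef]; exact min_le_right _ _
    have h2 := min_le_left (θ / (8 * N + 8)) (1 / Λ / (8 * N + 8) / (8 * W))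
    linarith
  have hκ3 : 4 * κ ≤ 1 / Λ / (8 * N + 8) / (8 * W) := by
    have h1 : κ ≤ min (θ / (8 * N + 8)) (1 / Λ / (8 * N + 8) / (8 * W)) / 4 := by
      rw [hκdef]; exact min_le_right _ _
    have h2 := min_le_right (θ / (8 * N + 8)) (1 / Λ / (8 * N + 8) / (8 * W))
    linarith
  have hκle1 : κ ≤ 1 := by
    refine hκ1.trans ?_
    rw [div_le_one (by positivity)]
    linarith
  obtain ⟨B, hBdef⟩ : ∃ B : ℝ, B = W / κ := ⟨_, rfl⟩
  have hB1 : 1 ≤ B := by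
    rw [hBdef, le_div_iff₀ hκ0]
    linarith
  obtain ⟨T₀, hT₀⟩ : ∃ T₀ : ℝ, T₀ = (36 * K * B) ^ 2 * (36 * B ^ 2 * N) * 2 := ⟨_, rfl⟩
  refine ⟨max 6 (1 + 4 * Real.exp T₀), ?_⟩
  intro n hn H hH A f hLN p q hp hq hpq hfpq
  by_cases hA6 : A ≤ 6
  · exact hA6.trans (le_max_left _ _)
  push Not at hA6
  refine le_trans ?_ (le_max_right _ _)
  have hWQS := hW n (by omega) H hH A f hLN
  obtain ⟨hdist, x, hx0, hxN, hxn, hstep, hcomp⟩ := hpoly n (by omega) H K A f hLN hWQS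
    (by linarith) p q hp hq hpq hfpq
  obtain ⟨m, hmdef⟩ : ∃ m : ℝ, m = mm f p (1 / 80) := ⟨_, rfl⟩
  have hm0 : 0 < m := by
    rw [hmdef]
    refine mm_pos_on (by omega) (hLN p (by linarith)) (by norm_num) ?_
    intro z hz
    rw [mem_closedBall] at hz
    rw [mem_ball]
    linarith
  rw [← hmdef] at hstep hcomp
  -- distances of the vertices
  have hyd : ∀ i, i ≤ N → dist (f (x i)) (f (x 0)) ≤ i * (Λ * m / 10) := by
    intro i
    induction i with
    | zero => intro _; simp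
    | succ i ih =>
      intro hi
      have h1 := ih (by omega)
      have h2 := (hstep i (by omega)).2.1
      have h3 := (hcomp i (by omega)).2
      have h4 := dist_triangle (f (x (i + 1))) (f (x i)) (f (x 0))
      push_cast
      nlinarith
  -- the apex
  obtain ⟨v, hv0, hv⟩ := apex hn N hN (fun i => f (x i)) (fun i => f (x (i + 1)) - f (x i))
    (f (x 0)) hm0
  have hvD : ∀ i, i ≤ N → dist v (f (x i)) ≤ m * W := by
    intro i hi
    have h1 := hyd i hi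
    have h2 := dist_triangle v (f (x 0)) (f (x i))
    rw [dist_comm (f (x 0)) (f (x i))] at h2
    have h3 : (i : ℝ) * (Λ * m / 10) ≤ N * (Λ * m / 10) :=
      mul_le_mul_of_nonneg_right (by exact_mod_cast hi) (by positivity)
    rw [hWdef]
    have h4 : 0 ≤ N * Λ * m := by positivity
    nlinarith
  have hD0 : 0 < m * W := by positivity
  have hcq0 : 0 < κ * m := by positivity
  have hmi : ∀ i, i ≤ N → κ * m ≤ mm f (x i) (1 / 80) / 20 := by
    intro i hi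
    have h1 := (hcomp i hi).1
    have h2 : κ * m ≤ 1 / (20 * Λ) * m := mul_le_mul_of_nonneg_right hκ1 hm0.le
    have h3 : 1 / (20 * Λ) * m = m / Λ / 20 := by field_simp
    rw [h3] at h2
    linarith
  -- the sets
  let F : ℕ → Set (Eu n) := fun i => {q' | ‖q'‖ < κ * m ∧ ∃ s₁ ∈ Ioo (0 : ℝ) 1,
    ∃ Φ : ℝ → ℝ → Eu n,
      ContinuousOn (fun p : ℝ × ℝ => Φ p.1 p.2) (Icc 0 1 ×ˢ Icc 0 s₁) ∧
      (∀ t ∈ Icc (0 : ℝ) 1, Φ t 0 ∈ ball (x i) (1 / 80)) ∧
      (∀ t ∈ Icc (0 : ℝ) 1, ∀ s ∈ Icc (0 : ℝ) s₁, Φ t s ∈ ball (0 : Eu n) A ∧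
        f (Φ t s) = (1 - s) • ((1 - t) • f (x i) + t • f (x (i + 1))) + s • v + q') ∧
      ∃ t ∈ Icc (0 : ℝ) 1, A - 1 < ‖Φ t s₁‖}
  have hcover : ball (0 : Eu n) (κ * m) ⊆ ⋃ i ∈ Finset.range N, F i := by
    intro q' hq'
    rw [mem_ball, dist_zero_right] at hq'
    obtain ⟨β, hβc, hβ⟩ := beta_path (by omega) hLN (by linarith) hN hxn
      (fun i hi => ⟨(hstep i hi).1, (hstep i hi).2.1⟩) q' (fun i hi => hq'.le.trans (hmi i hi))
    have hβA : ∀ t ∈ Icc (0 : ℝ) N, ‖β t‖ ≤ A - 1 := by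
      intro t ht
      obtain ⟨i, hi, s, hs, rfl⟩ := split10410_fnorm hN ht
      have h1 := (hβ i hi s hs).1
      rw [mem_ball, dist_eq_norm] at h1
      have h2 := hxn i hi.le
      have h3 : ‖β (i + s)‖ ≤ ‖β (i + s) - x i‖ + ‖x i‖ := by
        have := norm_add_le (β (i + s) - x i) (x i)
        rwa [sub_add_cancel] at this
      linarith
    have hβ0 := hβ 0 (by omega) 0 ⟨le_rfl, zero_le_one⟩
    have hβN := hβ (N - 1) (by omega) 1 ⟨zero_le_one, le_rfl⟩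
    have eN : ((N - 1 : ℕ) : ℝ) + 1 = N := by
      push_cast [Nat.cast_sub hN]
      ring
    have eN' : N - 1 + 1 = N := by omega
    rw [eN, eN'] at hβN
    simp only [Nat.cast_zero, add_zero, sub_zero, one_smul, zero_smul] at hβ0
    simp only [sub_self, zero_smul, zero_add, one_smul] at hβN
    have hcl : f (β 0) = f (β N) := by
      rw [hβ0.2, hβN.2, hx0, hxN, hfpq]
    have hne : β 0 ≠ β N := by
      intro h
      have h1 := hβ0.1
      have h2 := hβN.1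
      rw [← h, mem_ball] at h2
      rw [hx0, mem_ball] at h1
      have h3 := (hstep (N - 1) (by omega)).1
      rw [eN', hxN] at h3
      have h4 := dist_triangle p (β 0) q
      have h5 := dist_triangle (β 0) (x (N - 1)) q
      rw [dist_comm p (β 0)] at h4
      rw [dist_comm (x (N - 1)) q] at h5
      linarith
    obtain ⟨s₁, hs₁, Φ, hΦc, hΦ0, hΦ, t, ht, hlt⟩ := top_lift (by omega) (A' := A - 1) (A := A)
      (L := (N : ℝ)) (by linarith) (by linarith) (by linarith) (LH_of_LN hLN) hβc hβA hcl hne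
      (v + q')
    obtain ⟨i, hi, τ, hτ, rfl⟩ := split10410_fnorm hN ht
    have hmem : ∀ t ∈ Icc (0 : ℝ) 1, (i : ℝ) + t ∈ Icc (0 : ℝ) N := by
      intro t ht
      have h1 : ((i + 1 : ℕ) : ℝ) ≤ N := by exact_mod_cast hi
      push_cast at h1
      exact ⟨add_nonneg (Nat.cast_nonneg _) ht.1, by linarith [ht.2]⟩
    rw [mem_iUnion₂]
    refine ⟨i, Finset.mem_range.2 hi, hq', s₁, hs₁, fun t s => Φ (i + t) s, ?_, ?_, ?_,
      τ, hτ, hlt⟩
    · have hmap : MapsTo (fun p : ℝ × ℝ => ((i : ℝ) + p.1, p.2)) (Icc 0 1 ×ˢ Icc 0 s₁)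
          (Icc (0 : ℝ) N ×ˢ Icc 0 s₁) := fun p hp => ⟨hmem p.1 hp.1, hp.2⟩
      exact hΦc.comp (by fun_prop) hmap
    · intro t ht
      show Φ (i + t) 0 ∈ _
      rw [hΦ0 _ (hmem t ht)]
      exact (hβ i hi t ht).1
    · intro t ht s hs
      obtain ⟨h1, h2⟩ := hΦ (i + t) (hmem t ht) s hs
      refine ⟨h1, ?_⟩
      show f (Φ (i + t) s) = _
      rw [h2, (hβ i hi t ht).2]
      module
  -- the volume
  have hvol : ENNReal.ofReal ((κ * m) ^ n) * vb n ≤ ∑ i ∈ Finset.range N, volume (F i) := by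
    rw [← volume_ball_eq (0 : Eu n) hcq0.le (by omega)]
    exact (measure_mono hcover).trans (measure_biUnion_finset_le _ _)
  have hNne : (N : ℝ≥0∞) ≠ 0 := by
    have : N ≠ 0 := by omega
    exact_mod_cast this
  obtain ⟨i, hi, hvi⟩ : ∃ i ∈ Finset.range N,
      ENNReal.ofReal ((κ * m) ^ n) * vb n / N ≤ volume (F i) := by
    apply ENNReal.exists_le_of_sum_le (Finset.nonempty_range_iff.2 (by omega))
    rw [Finset.sum_const, Finset.card_range, nsmul_eq_mul,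
      ENNReal.mul_div_cancel hNne (ENNReal.natCast_ne_top N)]
    exact hvol
  have hi' : i < N := Finset.mem_range.1 hi
  have hρ : 4 * (κ * m) ≤ min (θ * (m / (8 * N + 8))) (m / Λ * (m / (8 * N + 8)) / (8 * (m * W))) := by
    apply le_min
    · calc 4 * (κ * m) = (4 * κ) * m := by ring
        _ ≤ θ / (8 * N + 8) * m := mul_le_mul_of_nonneg_right hκ2 hm0.le
        _ = _ := by ring
    · calc 4 * (κ * m) = (4 * κ) * m := by ring
        _ ≤ 1 / Λ / (8 * N + 8) / (8 * W) * m := mul_le_mul_of_nonneg_right hκ3 hm0.le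
        _ = _ := by field_simp
  have hest := edge_est hn hH hK (by linarith : (6 : ℝ) ≤ A) hLN (x₀ := x i) (hxn i hi'.le)
    (y := f (x i)) (y' := f (x (i + 1))) (v := v) rfl
    (m := mm f (x i) (1 / 80)) (l := m / Λ) (h := m / (8 * N + 8)) (D := m * W) (θ := θ)
    (cq := κ * m) (lam := κ * m) rfl (hstep i hi').2.1 (by positivity) (by positivity) hθ0 hθ2
    (by rw [dist_comm]; exact (hstep i hi').2.2) (fun t => hv i hi' t) (hvD i hi'.le)
    (hvD (i + 1) hi')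
    (by
      have h1 := (hcomp i hi'.le).1
      have h2 : θ * (m * W) = m / Λ / 20 := by
        rw [hθdef]
        field_simp
      rw [h2]
      linarith) hcq0 (hmi i hi'.le) hcq0 hρ hρ (F i) (fun q' hq' => hq')
  have hT0 : 0 < Real.log ((A - 1) / 4) := Real.log_pos (by linarith)
  have hBκ : B * (κ * m) = m * W := by
    rw [hBdef]
    field_simp
  have hT := alg2 hn hN hT0 hK hD0 hcq0 hcq0 hB1 hBκ.ge hBκ.ge
    (le_trans (mul_le_mul_right hvi _) hest)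
  rw [← hT₀] at hT
  have h4 : (A - 1) / 4 ≤ Real.exp T₀ := by
    rw [← Real.log_le_iff_le_exp (by linarith)]
    exact hT
  linarith

end

end Pool.Agent.Helper746.Qc
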