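import Mathlib
import Pool.Agent.Helper746.QcDefs
import Pool.Agent.Helper746.QcMmspec

set_option autoImplicit false

namespace Pool.Agent.Helper746.Qc

open Set Metric MeasureTheory Filter Topology
open scoped ENNReal NNReal

noncomputable section

theorem nsq_comb_outer {n : ℕ} {p q : Eu n} {M : ℝ} (hp : ‖p‖ = M) (hq : ‖q‖ = M)
    (hpq : inner ℝ p q = 0) (a b : ℝ) : ‖a • p + b • q‖ ^ 2 = (a ^ 2 + b ^ 2) * M ^ 2 := by
  rw [norm_add_sq_real, inner_smul_left, inner_smul_right, hpq, norm_smul, norm_smul, hp, hq,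
    mul_pow, mul_pow, Real.norm_eq_abs, Real.norm_eq_abs, sq_abs, sq_abs]
  simp
  ring

theorem exists_arc_outer {n : ℕ} (hn : 2 ≤ n) {p₀ p : Eu n} {M : ℝ} (hM : 0 < M) (h0 : ‖p₀‖ = M)
    (hp : ‖p‖ = M) : ∃ (q : Eu n) (θ : ℝ), ‖q‖ = M ∧ inner ℝ p₀ q = 0 ∧ 0 ≤ θ ∧ θ ≤ Real.pi ∧
      p = Real.cos θ • p₀ + Real.sin θ • q := by
  set c : ℝ := inner ℝ p₀ p / M ^ 2 with hc
  have hM2 : 0 < M ^ 2 := by positivity
  have habs : |inner ℝ p₀ p| ≤ M ^ 2 := by
    have := abs_real_inner_le_norm p₀ p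
    rw [h0, hp] at this
    nlinarith
  have hc1 : c ≤ 1 := by
    rw [hc, div_le_one hM2]
    exact (le_abs_self _).trans habs
  have hc2 : -1 ≤ c := by
    rw [hc, le_div_iff₀ hM2]
    linarith [neg_abs_le (inner ℝ p₀ p)]
  have hcM : c * M ^ 2 = inner ℝ p₀ p := by rw [hc]; field_simp
  have hcos : Real.cos (Real.arccos c) = c := Real.cos_arccos hc2 hc1
  have hsin : Real.sin (Real.arccos c) ^ 2 = 1 - c ^ 2 := by
    have := Real.sin_sq_add_cos_sq (Real.arccos c)
    rw [hcos] at this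
    linarith
  have hsin0 : 0 ≤ Real.sin (Real.arccos c) :=
    Real.sin_nonneg_of_nonneg_of_le_pi (Real.arccos_nonneg _) (Real.arccos_le_pi _)
  set r : Eu n := p - c • p₀ with hr
  have hrp : inner ℝ p₀ r = 0 := by
    rw [hr, inner_sub_right, inner_smul_right, real_inner_self_eq_norm_sq, h0, hcM, sub_self]
  have hrn : ‖r‖ ^ 2 = (1 - c ^ 2) * M ^ 2 := by
    rw [hr, norm_sub_sq_real, norm_smul, inner_smul_right, real_inner_comm, ← hcM, hp, h0, mul_pow,
      Real.norm_eq_abs, sq_abs]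
    ring
  by_cases hs : Real.sin (Real.arccos c) = 0
  · -- r = 0
    have hr0 : r = 0 := by
      rw [← norm_eq_zero, ← sq_eq_zero_iff, hrn, ← hsin, hs]
      ring
    have hp0 : p₀ ≠ 0 := by
      rw [← norm_pos_iff, h0]; exact hM
    obtain ⟨v, hv, hv0⟩ : ∃ v ∈ (ℝ ∙ p₀)ᗮ, v ≠ 0 := by
      by_contra hcon
      push Not at hcon
      have hbot : (ℝ ∙ p₀)ᗮ = ⊥ := by
        rw [Submodule.eq_bot_iff]
        exact hcon
      have hfr : Module.finrank ℝ (ℝ ∙ p₀) + Module.finrank ℝ (ℝ ∙ p₀)ᗮ = Module.finrank ℝ (Eu n) :=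
        Submodule.finrank_add_finrank_orthogonal _
      rw [hbot, finrank_bot, finrank_span_singleton hp0, finrank_euclideanSpace,
        Fintype.card_fin] at hfr
      omega
    have hvn : 0 < ‖v‖ := norm_pos_iff.2 hv0
    refine ⟨(M / ‖v‖) • v, Real.arccos c, ?_, ?_, Real.arccos_nonneg _, Real.arccos_le_pi _, ?_⟩
    · rw [norm_smul, Real.norm_eq_abs, abs_of_pos (by positivity), div_mul_cancel₀ _ hvn.ne']
    · rw [inner_smul_right, (Submodule.mem_orthogonal_singleton_iff_inner_right).1 hv, mul_zero]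
    · rw [hs, hcos, zero_smul, add_zero]
      rw [hr, sub_eq_zero] at hr0
      exact hr0
  · have hspos : 0 < Real.sin (Real.arccos c) := lt_of_le_of_ne hsin0 (Ne.symm hs)
    refine ⟨(Real.sin (Real.arccos c))⁻¹ • r, Real.arccos c, ?_, ?_, Real.arccos_nonneg _,
      Real.arccos_le_pi _, ?_⟩
    · have h1 : ‖r‖ = Real.sin (Real.arccos c) * M := by
        have h2 : ‖r‖ ^ 2 = (Real.sin (Real.arccos c) * M) ^ 2 := by
          rw [hrn, mul_pow, hsin]
        exact (sq_eq_sq₀ (norm_nonneg _) (by positivity)).1 h2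
      rw [norm_smul, h1, Real.norm_eq_abs, abs_of_pos (by positivity)]
      field_simp
    · rw [inner_smul_right, hrp, mul_zero]
    · rw [smul_smul, mul_inv_cancel₀ hs, one_smul, hcos, hr]
      abel

theorem outer_preconn_outer {n : ℕ} (hn : 2 ≤ n) (x₂ : Eu n) :
    IsPreconnected {x : Eu n | 1 / 2 < dist x x₂} := by
  have hrank : 1 < Module.rank ℝ (Eu n) := by
    rw [← Module.finrank_eq_rank, finrank_euclideanSpace, Fintype.card_fin]
    exact_mod_cast hn
  have himg : {x : Eu n | 1 / 2 < dist x x₂} =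
      (fun a : ℝ × Eu n => x₂ + a.1 • a.2) '' (Ioi (1 / 2 : ℝ) ×ˢ sphere (0 : Eu n) 1) := by
    ext x
    constructor
    · intro hx
      have hx' : 1 / 2 < dist x x₂ := hx
      have hpos : 0 < ‖x - x₂‖ := by rw [← dist_eq_norm]; linarith
      refine ⟨(dist x x₂, ‖x - x₂‖⁻¹ • (x - x₂)), ⟨hx', ?_⟩, ?_⟩
      · rw [mem_sphere_zero_iff_norm, norm_smul, norm_inv, norm_norm, inv_mul_cancel₀ hpos.ne']
      · show x₂ + dist x x₂ • (‖x - x₂‖⁻¹ • (x - x₂)) = x
        rw [dist_eq_norm, smul_smul, mul_inv_cancel₀ hpos.ne', one_smul]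
        abel
    · rintro ⟨⟨t, u⟩, ⟨ht, hu⟩, rfl⟩
      have ht' : 1 / 2 < t := ht
      have hu' : ‖u‖ = 1 := mem_sphere_zero_iff_norm.1 hu
      show 1 / 2 < dist (x₂ + t • u) x₂
      rw [dist_eq_norm, add_sub_cancel_left, norm_smul, hu', mul_one, Real.norm_eq_abs,
        abs_of_pos (by linarith)]
      exact ht'
  rw [himg]
  apply IsPreconnected.image
  · exact isPreconnected_Ioi.prod (isPreconnected_sphere hrank _ _)
  · fun_prop

theorem outer_start {n : ℕ} (hn : 2 ≤ n) {f : Eu n → Eu n} (hc : Continuous f) (hi : Function.Injective f)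
    (ho : IsOpenMap f) (h0 : f 0 = 0) (x₂ : Eu n) (hx₂ : ‖x₂‖ = 1) {M : ℝ} (hM : ‖f x₂‖ = M) :
    ∃ x' : Eu n, dist x' x₂ ≤ 1 / 2 ∧ ‖f x'‖ = M ∧ mm f x' (1 / 26) ≤ M / 4 := by
  by_contra hcon
  push Not at hcon
  have hMpos : 0 < M := by
    rw [← hM, norm_pos_iff]
    intro h
    have : x₂ = 0 := hi (by rw [h, h0])
    rw [this, norm_zero] at hx₂
    exact zero_ne_one hx₂
  -- step 1
  have step1 : ∀ p : Eu n, ‖p‖ = M → ∃ x, dist x x₂ ≤ 1 / 2 ∧ f x = p := by
    intro p hp
    obtain ⟨q, θ, hq, hpq, hθ0, hθπ, hpe⟩ := exists_arc_outer hn hMpos hM hp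
    have key : ∀ i : ℕ, i ≤ 13 → ∃ x, dist x x₂ ≤ i / 26 ∧
        f x = Real.cos (i * (θ / 13)) • f x₂ + Real.sin (i * (θ / 13)) • q := by
      intro i
      induction i with
      | zero =>
        intro _
        refine ⟨x₂, by simp, by simp⟩
      | succ i ih =>
        intro hi13
        obtain ⟨x, hx1, hx2⟩ := ih (by omega)
        have hnx : ‖f x‖ = M := by
          have h1 : ‖f x‖ ^ 2 = M ^ 2 := by
            rw [hx2, nsq_comb_outer hM hq hpq, Real.cos_sq_add_sin_sq, one_mul]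
          exact (sq_eq_sq₀ (norm_nonneg _) hMpos.le).1 h1
        have hi12 : (i : ℝ) ≤ 12 := by
          have : i ≤ 12 := by omega
          exact_mod_cast this
        have h2 := hcon x (by linarith) hnx
        set β : ℝ := ((i + 1 : ℕ) : ℝ) * (θ / 13) with hβ
        set α : ℝ := (i : ℝ) * (θ / 13) with hα
        have hβα : β - α = θ / 13 := by rw [hβ, hα]; push_cast; ring
        have hdist : dist (Real.cos β • f x₂ + Real.sin β • q) (f x) ≤ M * (θ / 13) := by
          rw [dist_eq_norm, hx2]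
          have h3 : Real.cos β • f x₂ + Real.sin β • q - (Real.cos α • f x₂ + Real.sin α • q) =
              (Real.cos β - Real.cos α) • f x₂ + (Real.sin β - Real.sin α) • q := by
            rw [sub_smul, sub_smul]; abel
          rw [h3]
          apply abs_le_of_sq_le_sq' _ (by positivity) |>.2
          rw [nsq_comb_outer hM hq hpq]
          have h4 : (Real.cos β - Real.cos α) ^ 2 + (Real.sin β - Real.sin α) ^ 2 =
              2 - 2 * Real.cos (θ / 13) := by
            rw [← hβα, Real.cos_sub]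
            linarith [Real.sin_sq_add_cos_sq β, Real.sin_sq_add_cos_sq α]
          have h5 := Real.one_sub_sq_div_two_le_cos (x := θ / 13)
          rw [h4, mul_pow]
          have hM2 : 0 < M ^ 2 := by positivity
          nlinarith
        have hlt : dist (Real.cos β • f x₂ + Real.sin β • q) (f x) < mm f x (1 / 26) := by
          have h6 : M * (θ / 13) < M / 4 := by
            have := Real.pi_lt_d2
            have h7 : θ / 13 < 1 / 4 := by linarith
            nlinarith
          linarith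
        obtain ⟨y, hy1, hy2⟩ := ball_mm_subset (by omega) hc hi ho x (d := 1 / 26) (by norm_num)
          (mem_ball.2 hlt)
        refine ⟨y, ?_, hy2⟩
        have h8 : dist y x < 1 / 26 := hy1
        have h9 := dist_triangle y x x₂
        push_cast
        linarith
    obtain ⟨x, hx1, hx2⟩ := key 13 le_rfl
    refine ⟨x, by norm_num at hx1 ⊢; exact hx1, ?_⟩
    rw [hx2, hpe]
    have : ((13 : ℕ) : ℝ) * (θ / 13) = θ := by push_cast; ring
    rw [this]
  -- step 2
  have hX1 := outer_preconn_outer hn x₂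
  have h0X : (0 : Eu n) ∈ {x : Eu n | 1 / 2 < dist x x₂} := by
    show 1 / 2 < dist (0 : Eu n) x₂
    rw [dist_zero_left, hx₂]
    norm_num
  have step2 : ∀ x : Eu n, 1 / 2 < dist x x₂ → ‖f x‖ < M := by
    intro x hx
    by_contra hge
    push Not at hge
    have hiv := hX1.intermediate_value h0X (show x ∈ {x : Eu n | 1 / 2 < dist x x₂} from hx)
      (f := fun x => ‖f x‖) (by fun_prop)
    have hMm : M ∈ Icc ‖f 0‖ ‖f x‖ := by
      rw [h0, norm_zero]
      exact ⟨hMpos.le, hge⟩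
    obtain ⟨y, hy1, hy2⟩ := hiv hMm
    obtain ⟨z, hz1, hz2⟩ := step1 (f y) hy2
    have hzy : z = y := hi hz2
    rw [hzy] at hz1
    have hy1' : 1 / 2 < dist y x₂ := hy1
    linarith
  -- step 3
  obtain ⟨xs, hxs1, hxs2⟩ := (isCompact_closedBall x₂ (1 / 2 : ℝ)).exists_isMaxOn
    ⟨x₂, mem_closedBall_self (by norm_num)⟩ (f := fun x => ‖f x‖) (by fun_prop)
  have hxsM : M ≤ ‖f xs‖ := by
    rw [← hM]
    exact hxs2 (mem_closedBall_self (by norm_num))
  have hall : ∀ x, ‖f x‖ ≤ ‖f xs‖ := by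
    intro x
    by_cases hx : dist x x₂ ≤ 1 / 2
    · exact hxs2 (mem_closedBall.2 hx)
    · push Not at hx
      exact ((step2 x hx).le).trans hxsM
  have hopen := ho.isOpen_range
  have hcont : ContinuousAt (fun ε : ℝ => (1 + ε) • f xs) 0 := by fun_prop
  have hev := hcont.eventually_mem (s := range f) (by
    apply hopen.mem_nhds
    simp)
  obtain ⟨δ, hδ, hδ2⟩ := Metric.eventually_nhds_iff.1 hev
  obtain ⟨y, hy⟩ := hδ2 (y := δ / 2) (by
    rw [Real.dist_eq, sub_zero, abs_of_pos (by positivity)]; linarith)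
  have h1 := hall y
  rw [hy, norm_smul, Real.norm_eq_abs, abs_of_pos (by positivity)] at h1
  have h2 : 0 < ‖f xs‖ := lt_of_lt_of_le hMpos hxsM
  nlinarith

end

end Pool.Agent.Helper746.Qc
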