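import Mathlib
import Pool.Agent.Helper746.QcDefs
import Pool.Agent.Helper746.QcMmspec
import Pool.Agent.Helper746.QcVol
import Pool.Agent.Helper746.QcRingineq
import Pool.Agent.Helper746.QcChain
import Pool.Agent.Helper746.QcOuter

set_option autoImplicit false

namespace Pool.Agent.Helper746.Qc

open Set Metric MeasureTheory Filter Topology
open scoped ENNReal NNReal

noncomputable section

theorem main_real {K : ℝ} (hK : 1 ≤ K) : ∃ C : ℝ, ∀ n : ℕ, 2 ≤ n → ∀ H : ℝ, 1 ≤ H →
    ∀ f : Eu n → Eu n, QC H K f → f 0 = 0 → ∀ a b : Eu n, ‖a‖ = 1 → ‖b‖ = 1 → ‖f a‖ ≤ C * ‖f b‖ := by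
  have hK0 : 0 < K := by linarith
  have hKsq : 1 ≤ K ^ 2 := one_le_pow₀ hK
  have hl8 : 0 < Real.log 8 := Real.log_pos (by norm_num)
  set B : ℝ := 64 * K ^ 2 * Real.log 8 + 1 with hB
  have hB0 : 0 < B := by positivity
  have hB8 : Real.log 8 ≤ B := by
    have : 1 * Real.log 8 ≤ 64 * K ^ 2 * Real.log 8 :=
      mul_le_mul_of_nonneg_right (by linarith) hl8.le
    linarith
  set η : ℝ := Real.exp (-B) with hη
  have hη0 : 0 < η := Real.exp_pos _
  have hη8 : η ≤ 1 / 8 := by
    calc η ≤ Real.exp (-Real.log 8) := Real.exp_le_exp.2 (by linarith)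
      _ = 1 / 8 := by rw [Real.exp_neg, Real.exp_log (by norm_num)]; norm_num
  have hη1 : η ≤ 1 := by linarith
  have hηlog : Real.log (1 / η) = B := by
    rw [one_div, Real.log_inv, hη, Real.log_exp, neg_neg]
  have hηlog' : Real.log η = -B := by rw [hη, Real.log_exp]
  set c : ℝ := 3 * η / (8 * K) with hc
  have hc0 : 0 < c := by positivity
  have hc1 : c ≤ 1 := by
    rw [hc, div_le_one (by positivity)]
    linarith
  set A1 : ℝ := 2 * (2 * K * (24 / c + 6)) ^ 2 with hA1
  have hA10 : 0 ≤ A1 := by positivity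
  set E : ℝ := Real.log 10 + 2 * A1 + 64 * K ^ 2 * (1 + Real.log 234) with hE
  refine ⟨max 100 (Real.exp E), ?_⟩
  intro n hn H hH f hf hf0 a b ha hb
  have hn1 : 1 ≤ n := by omega
  set C : ℝ := max 100 (Real.exp E) with hC
  have hC100 : 100 ≤ C := le_max_left _ _
  have hCE : Real.exp E ≤ C := le_max_right _ _
  have hC0 : 0 ≤ C := by linarith
  set M : ℝ := ‖f a‖ with hM
  set m : ℝ := mm f 0 1 with hm
  have hm0 : 0 < m := mm_pos hn1 hf.cont hf.inj 0 one_pos
  have hmb : m ≤ ‖f b‖ := by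
    have h1 := mm_le_of_le hn1 hf.cont hf.inj hf.opn 0 b one_pos (by rw [dist_zero_right, hb])
    rw [hf0, dist_zero_right] at h1
    exact h1
  have hCm : C * m ≤ C * ‖f b‖ := mul_le_mul_of_nonneg_left hmb hC0
  refine le_trans ?_ hCm
  by_cases hcase : M ≤ 100 * m
  · exact hcase.trans (mul_le_mul_of_nonneg_right hC100 hm0.le)
  push Not at hcase
  have hM0 : 0 < M := by linarith
  obtain ⟨J1, x1, r1, V1, hx1, hfx1, hr10, hr1, hV1m, hV1s, hV1f, hV1v⟩ :=
    chain hn hH hK hf hη0 hη8 (by rw [hηlog]; linarith) 0 one_pos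
  obtain ⟨x', hx'a, hfx', hmx'⟩ := outer_start hn hf.cont hf.inj hf.opn hf0 a ha hM.symm
  obtain ⟨J2, x2, r2, V2, hx2, hfx2, hr20, hr2, hV2m, hV2s, hV2f, hV2v⟩ :=
    chain hn hH hK hf hη0 hη8 (by rw [hηlog]; linarith) x' (by norm_num : (0 : ℝ) < 1 / 26)
  rw [← hm] at hfx1 hr1
  rw [hf0, dist_zero_right] at hfx1
  rw [dist_zero_right] at hx1
  have hm'0 : 0 < mm f x' (1 / 26) := mm_pos hn1 hf.cont hf.inj x' (by norm_num)
  have hηJ1 : η ^ J1 ≤ 1 := pow_le_one₀ hη0.le hη1
  have hηJ2 : η ^ J2 ≤ 1 := pow_le_one₀ hη0.le hη1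
  have hηJ10 : 0 < η ^ J1 := by positivity
  have hηJ20 : 0 < η ^ J2 := by positivity
  have hr1m : r1 ≤ m := hr1.trans (by nlinarith)
  have hr2M : r2 ≤ η ^ J2 * (M / 4) := hr2.trans (mul_le_mul_of_nonneg_left hmx' hηJ20.le)
  have hr2M' : r2 ≤ M / 4 := hr2M.trans (by nlinarith)
  have hfx2M : 5 * M / 7 ≤ ‖f x2‖ := by
    have h1 : ‖f x'‖ ≤ ‖f x2‖ + dist (f x2) (f x') := by
      rw [dist_comm, dist_eq_norm]
      have : f x' = f x2 + (f x' - f x2) := by abel
      calc ‖f x'‖ = ‖f x2 + (f x' - f x2)‖ := by rw [← this]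
        _ ≤ _ := norm_add_le _ _
    rw [hfx'] at h1
    linarith
  -- scales
  set d1 : ℝ := 1 / 8 ^ J1 with hd1
  set d2 : ℝ := 1 / 26 / 8 ^ J2 with hd2
  have h8J1 : (1 : ℝ) ≤ 8 ^ J1 := one_le_pow₀ (by norm_num)
  have h8J2 : (1 : ℝ) ≤ 8 ^ J2 := one_le_pow₀ (by norm_num)
  have hd10 : 0 < d1 := by positivity
  have hd20 : 0 < d2 := by positivity
  have hd13 : d1 ≤ 3 := by
    have : d1 ≤ 1 := by
      rw [hd1, div_le_one (by positivity)]; exact h8J1
    linarith
  have hd23 : d2 ≤ 3 := by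
    have : d2 ≤ 1 / 26 := div_le_self (by norm_num) h8J2
    linarith
  have hdist : dist x1 x2 ≤ 3 := by
    have t1 : dist x1 x2 ≤ dist x1 0 + dist 0 a + dist a x' + dist x' x2 :=
      (dist_triangle4 x1 0 a x2).trans (by linarith [dist_triangle a x' x2])
    have t2 : dist x1 0 = ‖x1‖ := dist_zero_right _
    have t3 : dist (0 : Eu n) a = 1 := by rw [dist_zero_left, ha]
    rw [dist_comm a x', dist_comm x' x2] at t1
    linarith
  have hlog1 : Real.log (3 / d1) = Real.log 3 + J1 * Real.log 8 := by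
    rw [hd1]
    have : (3 : ℝ) / (1 / 8 ^ J1) = 3 * 8 ^ J1 := by field_simp
    rw [this, Real.log_mul (by norm_num) (by positivity), Real.log_pow]
  have hlog2 : Real.log (3 / d2) = Real.log 78 + J2 * Real.log 8 := by
    rw [hd2]
    have : (3 : ℝ) / (1 / 26 / 8 ^ J2) = 78 * 8 ^ J2 := by field_simp; norm_num
    rw [this, Real.log_mul (by norm_num) (by positivity), Real.log_pow]
  have hlog234 : Real.log 3 + Real.log 78 = Real.log 234 := by
    rw [← Real.log_mul (by norm_num) (by norm_num)]; norm_num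
  have hl3 : 0 ≤ Real.log 3 := Real.log_nonneg (by norm_num)
  have hl78 : 0 ≤ Real.log 78 := Real.log_nonneg (by norm_num)
  -- norm facts
  have hV2far : ∀ x ∈ V2, M / 5 ≤ dist (f x) (f x1) := by
    intro x hx
    have h1 := hV2f x hx
    have h2 : ‖f x2‖ ≤ dist (f x2) (f x) + dist (f x) (f x1) + ‖f x1‖ := by
      have := dist_triangle4 (f x2) (f x) (f x1) 0
      rwa [dist_zero_right, dist_zero_right] at this
    rw [dist_comm (f x2) (f x)] at h2
    linarith
  have hV1far : ∀ x ∈ V1, M / 2 ≤ dist (f x) (f x2) := by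
    intro x hx
    have h1 := hV1f x hx
    have h2 : ‖f x2‖ ≤ dist (f x2) (f x) + dist (f x) (f x1) + ‖f x1‖ := by
      have := dist_triangle4 (f x2) (f x) (f x1) 0
      rwa [dist_zero_right, dist_zero_right] at this
    rw [dist_comm (f x2) (f x)] at h2
    linarith
  have hA := ring_ineq hn hH hK hf (f x1) (a := 2 * r1) (b := M / 5) (by positivity)
    (by linarith) (x₁ := x1) (x₂ := x2) (d₁ := d1) (d₂ := d2) (R := 3) (c := c) hd10 hd20
    hd13 hd23 hdist hc0 hc1 hV1m hV2m hV1s hV2s hV1v hV2v hV1f hV2far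
  have hBB : Real.log (M / 2 / (2 * r2)) ≤ A1 +
      32 * K ^ 2 * (1 + Real.log (3 / d2) + Real.log (3 / d1)) := by
    by_cases h2 : 2 * r2 < M / 2
    · exact ring_ineq hn hH hK hf (f x2) (a := 2 * r2) (b := M / 2) (by positivity) h2
        (x₁ := x2) (x₂ := x1) (d₁ := d2) (d₂ := d1) (R := 3) (c := c) hd20 hd10
        hd23 hd13 (by rw [dist_comm]; exact hdist) hc0 hc1 hV2m hV1m hV2s hV1s hV2v hV1v
        hV2f hV1far
    · push Not at h2
      have h3 : Real.log (M / 2 / (2 * r2)) ≤ 0 := by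
        refine Real.log_nonpos (by positivity) ?_
        rw [div_le_one (by positivity)]
        exact h2
      refine h3.trans ?_
      rw [hlog1, hlog2]
      positivity
  rw [← hA1, hlog1, hlog2] at hA
  rw [hlog1, hlog2] at hBB
  -- lower bounds
  have hLA : Real.log (M / m) - Real.log 10 + J1 * B ≤ Real.log (M / 5 / (2 * r1)) := by
    have h1 : M / 5 / (2 * (η ^ J1 * m)) ≤ M / 5 / (2 * r1) := by
      refine div_le_div_of_nonneg_left (by positivity) (by positivity) (by linarith)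
    have h2 := Real.log_le_log (by positivity) h1
    have h3 : Real.log (M / 5 / (2 * (η ^ J1 * m))) = Real.log (M / m) - Real.log 10 + J1 * B := by
      have h4 : M / 5 / (2 * (η ^ J1 * m)) = M / m / 10 / η ^ J1 := by
        field_simp; norm_num
      rw [h4, Real.log_div (by positivity) (by positivity),
        Real.log_div (by positivity) (by norm_num), Real.log_pow, hηlog']
      ring
    linarith
  have hLB : J2 * B ≤ Real.log (M / 2 / (2 * r2)) := by
    have h1 : M / 2 / (2 * (η ^ J2 * (M / 4))) ≤ M / 2 / (2 * r2) := by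
      refine div_le_div_of_nonneg_left (by positivity) (by positivity) (by linarith)
    have h2 := Real.log_le_log (by positivity) h1
    have h3 : Real.log (M / 2 / (2 * (η ^ J2 * (M / 4)))) = J2 * B := by
      have h4 : M / 2 / (2 * (η ^ J2 * (M / 4))) = (η ^ J2)⁻¹ := by
        field_simp; norm_num
      rw [h4, Real.log_inv, Real.log_pow, hηlog']
      ring
    linarith
  have hJ1 : (0 : ℝ) ≤ J1 := Nat.cast_nonneg _
  have hJ2 : (0 : ℝ) ≤ J2 := Nat.cast_nonneg _
  have hfin : Real.log (M / m) ≤ E := by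
    have e1 : (J1 : ℝ) * B = J1 * (64 * K ^ 2 * Real.log 8) + J1 := by rw [hB]; ring
    have e2 : (J2 : ℝ) * B = J2 * (64 * K ^ 2 * Real.log 8) + J2 := by rw [hB]; ring
    rw [hE, ← hlog234]
    nlinarith
  have h9 : M / m ≤ Real.exp E := by
    rw [← Real.log_le_iff_le_exp (by positivity)]
    exact hfin
  rw [div_le_iff₀ hm0] at h9
  exact h9.trans (mul_le_mul_of_nonneg_right hCE hm0.le)

end

end Pool.Agent.Helper746.Qc
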