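import Mathlib
import Pool.Agent.Helper746.QcDefs
import Pool.Agent.Helper746.QcLDefs
import Pool.Agent.Helper746.QcNDefs

set_option autoImplicit false

namespace Pool.Agent.Helper746.Qc

open Set Metric MeasureTheory Filter Topology
open scoped ENNReal NNReal

noncomputable section

theorem slc_vol_box_slice (a : ℝ) (ha : 0 ≤ a) :
    volume (Icc (-a) a ×ˢ Icc (-a) a : Set (ℝ × ℝ)) = ENNReal.ofReal (4 * a ^ 2) := by
  rw [Measure.volume_eq_prod, Measure.prod_prod, Real.volume_Icc,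
    ← ENNReal.ofReal_mul (by linarith)]
  congr 1
  ring

theorem slc_meas_box_slice (a : ℝ) : MeasurableSet (Icc (-a) a ×ˢ Icc (-a) a : Set (ℝ × ℝ)) :=
  measurableSet_Icc.prod measurableSet_Icc

theorem slc_scale_slice (h : ℝ × ℝ → ℝ≥0∞) (hh : Measurable h) (s : ℝ) (hs : 0 < s) (c : ℝ × ℝ) :
    ∫⁻ α, h (s • α + c) = ENNReal.ofReal ((s ^ 2)⁻¹) * ∫⁻ β, h β := by
  have h1 : Measurable (fun β : ℝ × ℝ => h (β + c)) := hh.comp (by fun_prop)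
  have h2 := Measure.map_addHaar_smul (volume : Measure (ℝ × ℝ)) hs.ne'
  have hm : Measurable (fun α : ℝ × ℝ => s • α) := by fun_prop
  have hfr : Module.finrank ℝ (ℝ × ℝ) = 2 := by simp
  calc ∫⁻ α, h (s • α + c) = ∫⁻ β, h (β + c) ∂(Measure.map (fun α : ℝ × ℝ => s • α) volume) :=
        (lintegral_map h1 hm).symm
    _ = ENNReal.ofReal ((s ^ 2)⁻¹) * ∫⁻ β, h (β + c) := by
      rw [h2, lintegral_smul_measure, hfr, abs_of_nonneg (by positivity), smul_eq_mul]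
    _ = _ := by rw [lintegral_add_right_eq_self]

theorem slc_conv_slice {D : ℝ} {α Z : ℝ × ℝ} (hα : α ∈ (Icc (-D) D ×ˢ Icc (-D) D : Set (ℝ × ℝ)))
    (hZ : Z ∈ (Icc (-D) D ×ˢ Icc (-D) D : Set (ℝ × ℝ))) {r : ℝ} (hr0 : 0 ≤ r) (hr1 : r ≤ 1) :
    (1 - r) • α + r • Z ∈ (Icc (-D) D ×ˢ Icc (-D) D : Set (ℝ × ℝ)) := by
  have hc : Convex ℝ (Icc (-D) D ×ˢ Icc (-D) D : Set (ℝ × ℝ)) :=
    (convex_Icc _ _).prod (convex_Icc _ _)
  exact hc hα hZ (by linarith) hr0 (by ring)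

theorem slc_box_mono_slice {lam D : ℝ} (h : lam ≤ D) :
    (Icc (-lam) lam ×ˢ Icc (-lam) lam : Set (ℝ × ℝ)) ⊆ Icc (-D) D ×ˢ Icc (-D) D :=
  Set.prod_mono (Icc_subset_Icc (by linarith) h) (Icc_subset_Icc (by linarith) h)

theorem slc_inner_slice {n : ℕ} (hn : 3 ≤ n) (g : ℝ × ℝ → ℝ≥0∞) (hg : Measurable g) {lam D : ℝ}
    (hlam : 0 < lam) (hlD : lam ≤ D) (Z : ℝ × ℝ)
    (hZ : Z ∈ (Icc (-D) D ×ˢ Icc (-D) D : Set (ℝ × ℝ))) (r : ℝ) (hr0 : 0 ≤ r) (hr1 : r < 1) :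
    ∫⁻ α in (Icc (-lam) lam ×ˢ Icc (-lam) lam : Set (ℝ × ℝ)), g ((1 - r) • α + r • Z) ≤
      ENNReal.ofReal ((1 - r) ^ (-(2 / (n:ℝ)))) *
        ((∫⁻ β in (Icc (-D) D ×ˢ Icc (-D) D : Set (ℝ × ℝ)), g β ^ n) ^ (1 / (n:ℝ)) *
          (ENNReal.ofReal (4 * lam ^ 2)) ^ (1 - 1 / (n:ℝ))) := by
  have hn1 : (1:ℝ) < n := by
    have : (3:ℝ) ≤ n := by exact_mod_cast hn
    linarith
  have hn0 : (0:ℝ) < n := by linarith
  have hpq := Real.HolderConjugate.conjExponent hn1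
  have hs : 0 < 1 - r := by linarith
  have hgm : Measurable (fun α : ℝ × ℝ => g ((1 - r) • α + r • Z)) := hg.comp (by fun_prop)
  have hH := ENNReal.lintegral_mul_le_Lp_mul_Lq
    (volume.restrict (Icc (-lam) lam ×ˢ Icc (-lam) lam : Set (ℝ × ℝ))) hpq
    (f := fun α : ℝ × ℝ => g ((1 - r) • α + r • Z)) (g := fun _ => 1)
    hgm.aemeasurable aemeasurable_const
  have e1 : ∫⁻ α in (Icc (-lam) lam ×ˢ Icc (-lam) lam : Set (ℝ × ℝ)),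
      ((fun α : ℝ × ℝ => g ((1 - r) • α + r • Z)) * (fun _ => 1) : ℝ × ℝ → ℝ≥0∞) α =
      ∫⁻ α in (Icc (-lam) lam ×ˢ Icc (-lam) lam : Set (ℝ × ℝ)), g ((1 - r) • α + r • Z) := by
    apply lintegral_congr
    intro α
    rw [Pi.mul_apply, mul_one]
  have e2 : ∫⁻ _ in (Icc (-lam) lam ×ˢ Icc (-lam) lam : Set (ℝ × ℝ)),
      (1:ℝ≥0∞) ^ (Real.conjExponent (n:ℝ)) = ENNReal.ofReal (4 * lam ^ 2) := by
    rw [ENNReal.one_rpow, lintegral_one, Measure.restrict_apply_univ, slc_vol_box_slice lam hlam.le]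
  have e3 : 1 / Real.conjExponent (n:ℝ) = 1 - 1 / (n:ℝ) := by
    rw [one_div, one_div, ← hpq.one_sub_inv]
  rw [e1, e2, e3] at hH
  refine hH.trans ?_
  have h4 : ∫⁻ α in (Icc (-lam) lam ×ˢ Icc (-lam) lam : Set (ℝ × ℝ)),
      (g ((1 - r) • α + r • Z)) ^ (n:ℝ) ≤ ENNReal.ofReal (((1 - r) ^ 2)⁻¹) *
        ∫⁻ β in (Icc (-D) D ×ˢ Icc (-D) D : Set (ℝ × ℝ)), g β ^ n := by
    rw [← lintegral_indicator (slc_meas_box_slice D), ← slc_scale_slice _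
      ((hg.pow_const n).indicator (slc_meas_box_slice D)) (1 - r) hs (r • Z),
      ← lintegral_indicator (slc_meas_box_slice lam)]
    apply lintegral_mono
    intro α
    beta_reduce
    by_cases hα : α ∈ (Icc (-lam) lam ×ˢ Icc (-lam) lam : Set (ℝ × ℝ))
    · rw [indicator_of_mem hα, indicator_of_mem
        (slc_conv_slice (slc_box_mono_slice hlD hα) hZ hr0 hr1.le), ENNReal.rpow_natCast]
    · rw [indicator_of_notMem hα]
      exact zero_le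
  have h5 : (((1 - r) ^ 2)⁻¹ : ℝ) ^ (1 / (n:ℝ)) = (1 - r) ^ (-(2 / (n:ℝ))) := by
    rw [← Real.rpow_natCast, ← Real.rpow_neg hs.le, ← Real.rpow_mul hs.le]
    congr 1
    push_cast
    ring
  calc (∫⁻ α in (Icc (-lam) lam ×ˢ Icc (-lam) lam : Set (ℝ × ℝ)),
        (g ((1 - r) • α + r • Z)) ^ (n:ℝ)) ^ (1 / (n:ℝ)) *
        (ENNReal.ofReal (4 * lam ^ 2)) ^ (1 - 1 / (n:ℝ))
      ≤ (ENNReal.ofReal (((1 - r) ^ 2)⁻¹) *
        ∫⁻ β in (Icc (-D) D ×ˢ Icc (-D) D : Set (ℝ × ℝ)), g β ^ n) ^ (1 / (n:ℝ)) *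
        (ENNReal.ofReal (4 * lam ^ 2)) ^ (1 - 1 / (n:ℝ)) :=
        mul_le_mul_left (ENNReal.rpow_le_rpow h4 (by positivity)) _
    _ = _ := by
      rw [ENNReal.mul_rpow_of_nonneg _ _ (by positivity),
        ENNReal.ofReal_rpow_of_pos (by positivity), h5, mul_assoc]

theorem slc_rint_slice {n : ℕ} (hn : 3 ≤ n) :
    ∫⁻ r in Icc (0:ℝ) 1, ENNReal.ofReal ((1 - r) ^ (-(2 / (n:ℝ)))) ≤ 3 := by
  have hn3 : (3:ℝ) ≤ n := by exact_mod_cast hn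
  have h23 : 2 / (n:ℝ) ≤ 2 / 3 := div_le_div_of_nonneg_left (by norm_num) (by norm_num) hn3
  have hint : IntervalIntegrable (fun x : ℝ => x ^ (-(2 / (n:ℝ)))) volume 0 1 :=
    intervalIntegral.intervalIntegrable_rpow' (by linarith)
  have hint2 : IntervalIntegrable (fun r : ℝ => (1 - r) ^ (-(2 / (n:ℝ)))) volume 0 1 := by
    have := (hint.comp_sub_left 1).symm
    simpa using this
  have hion : IntegrableOn (fun r : ℝ => (1 - r) ^ (-(2 / (n:ℝ)))) (Icc 0 1) := by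
    rw [integrableOn_Icc_iff_integrableOn_Ioc]
    exact (intervalIntegrable_iff_integrableOn_Ioc_of_le zero_le_one).1 hint2
  have hnn : 0 ≤ᵐ[volume.restrict (Icc (0:ℝ) 1)] fun r : ℝ => (1 - r) ^ (-(2 / (n:ℝ))) := by
    filter_upwards [ae_restrict_mem measurableSet_Icc] with r hr
    have hr0 : 0 ≤ 1 - r := by linarith [hr.2]
    exact Real.rpow_nonneg hr0 _
  rw [← ofReal_integral_eq_lintegral_ofReal hion hnn, integral_Icc_eq_integral_Ioc,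
    ← intervalIntegral.integral_of_le zero_le_one,
    intervalIntegral.integral_comp_sub_left (fun x : ℝ => x ^ (-(2 / (n:ℝ)))) 1,
    integral_rpow (Or.inl (by linarith)), sub_self, sub_zero,
    Real.zero_rpow (by linarith), Real.one_rpow, sub_zero]
  have h3 : (3:ℝ≥0∞) = ENNReal.ofReal 3 := by simp
  rw [h3]
  apply ENNReal.ofReal_le_ofReal
  rw [div_le_iff₀ (by linarith)]
  linarith

theorem slc_plane_slice {n : ℕ} (hn : 3 ≤ n) (g : ℝ × ℝ → ℝ≥0∞) (hg : Measurable g) {lam D : ℝ}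
    (hlam : 0 < lam) (hlD : lam ≤ D) (Z : ℝ × ℝ)
    (hZ : Z ∈ (Icc (-D) D ×ˢ Icc (-D) D : Set (ℝ × ℝ))) :
    ∫⁻ α in (Icc (-lam) lam ×ˢ Icc (-lam) lam : Set (ℝ × ℝ)),
      ∫⁻ r in Icc (0:ℝ) 1, g ((1 - r) • α + r • Z) ≤
      3 * ((∫⁻ β in (Icc (-D) D ×ˢ Icc (-D) D : Set (ℝ × ℝ)), g β ^ n) ^ (1 / (n:ℝ)) *
          (ENNReal.ofReal (4 * lam ^ 2)) ^ (1 - 1 / (n:ℝ))) := by
  have hm : Measurable (fun p : (ℝ × ℝ) × ℝ => g ((1 - p.2) • p.1 + p.2 • Z)) :=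
    hg.comp (by fun_prop)
  rw [lintegral_lintegral_swap hm.aemeasurable]
  have hne : ∀ᵐ r ∂(volume.restrict (Icc (0:ℝ) 1)), r ≠ 1 := by
    apply ae_restrict_of_ae
    have := (measure_singleton (μ := (volume : Measure ℝ)) (1:ℝ))
    exact compl_mem_ae_iff.2 this
  calc ∫⁻ r in Icc (0:ℝ) 1, ∫⁻ α in (Icc (-lam) lam ×ˢ Icc (-lam) lam : Set (ℝ × ℝ)),
        g ((1 - r) • α + r • Z)
      ≤ ∫⁻ r in Icc (0:ℝ) 1, ENNReal.ofReal ((1 - r) ^ (-(2 / (n:ℝ)))) *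
        ((∫⁻ β in (Icc (-D) D ×ˢ Icc (-D) D : Set (ℝ × ℝ)), g β ^ n) ^ (1 / (n:ℝ)) *
          (ENNReal.ofReal (4 * lam ^ 2)) ^ (1 - 1 / (n:ℝ))) := by
        apply lintegral_mono_ae
        filter_upwards [hne, ae_restrict_mem measurableSet_Icc] with r hr hr'
        exact slc_inner_slice hn g hg hlam hlD Z hZ r hr'.1 (lt_of_le_of_ne hr'.2 hr)
    _ = (∫⁻ r in Icc (0:ℝ) 1, ENNReal.ofReal ((1 - r) ^ (-(2 / (n:ℝ))))) *
        ((∫⁻ β in (Icc (-D) D ×ˢ Icc (-D) D : Set (ℝ × ℝ)), g β ^ n) ^ (1 / (n:ℝ)) *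
          (ENNReal.ofReal (4 * lam ^ 2)) ^ (1 - 1 / (n:ℝ))) := by
        rw [lintegral_mul_const _ (by fun_prop)]
    _ ≤ _ := mul_le_mul_left (slc_rint_slice hn) _

theorem slc_alg_slice {n : ℕ} (hn : 3 ≤ n) (W I A c : ℝ≥0∞) (hA0 : A ≠ 0) (hAt : A ≠ ⊤)
    (h : W * A ≤ (I ^ (1 / (n:ℝ)) * A ^ (1 - 1 / (n:ℝ))) * c) :
    W ^ n * A ≤ c ^ n * I := by
  have hn0 : (n:ℝ) ≠ 0 := by
    have : (3:ℝ) ≤ n := by exact_mod_cast hn
    linarith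
  have h1 : (W * A) ^ n ≤ ((I ^ (1 / (n:ℝ)) * A ^ (1 - 1 / (n:ℝ))) * c) ^ n :=
    pow_le_pow_left₀ zero_le h n
  have h2 : (I ^ (1 / (n:ℝ))) ^ n = I := by
    rw [← ENNReal.rpow_natCast, ← ENNReal.rpow_mul, one_div, inv_mul_cancel₀ hn0, ENNReal.rpow_one]
  have h3 : (A ^ (1 - 1 / (n:ℝ))) ^ n = A ^ (n - 1) := by
    rw [← ENNReal.rpow_natCast, ← ENNReal.rpow_mul, ← ENNReal.rpow_natCast]
    congr 1
    rw [Nat.cast_sub (by omega), sub_mul, one_div, inv_mul_cancel₀ hn0]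
    simp
  rw [mul_pow, mul_pow, mul_pow, h2, h3] at h1
  have h4 : A ^ n = A ^ (n - 1) * A := by
    rw [← pow_succ]
    congr 1
    omega
  have h5 : A ^ (n - 1) * (W ^ n * A) ≤ A ^ (n - 1) * (c ^ n * I) := by
    calc A ^ (n - 1) * (W ^ n * A) = W ^ n * A ^ n := by rw [h4]; ring
      _ ≤ I * A ^ (n - 1) * c ^ n := h1
      _ = _ := by ring
  exact (ENNReal.mul_le_mul_iff_right (pow_ne_zero _ hA0) (ENNReal.pow_ne_top hAt)).1 h5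

/-- the plane map -/
def slcP_slice {n : ℕ} (e₁ e₂ : Eu n) (β : ℝ × ℝ) : Eu n := β.1 • e₁ + β.2 • e₂

theorem slcP_cont_slice {n : ℕ} (e₁ e₂ : Eu n) : Continuous (slcP_slice e₁ e₂) := by
  unfold slcP_slice
  fun_prop

theorem slcP_lin_slice {n : ℕ} (e₁ e₂ : Eu n) (α Z : ℝ × ℝ) (r : ℝ) :
    slcP_slice e₁ e₂ α + r • slcP_slice e₁ e₂ (Z - α) = slcP_slice e₁ e₂ ((1 - r) • α + r • Z) := by
  simp only [slcP_slice, Prod.fst_sub, Prod.snd_sub, Prod.fst_add, Prod.snd_add, Prod.smul_fst,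
    Prod.smul_snd, smul_eq_mul]
  module

theorem slcP_norm_slice {n : ℕ} {e₁ e₂ : Eu n} (h1 : ‖e₁‖ = 1) (h2 : ‖e₂‖ = 1) {D lam : ℝ}
    (hlD : lam ≤ D) {α Z : ℝ × ℝ} (hα : α ∈ (Icc (-lam) lam ×ˢ Icc (-lam) lam : Set (ℝ × ℝ)))
    (hZ : Z ∈ (Icc (-D) D ×ˢ Icc (-D) D : Set (ℝ × ℝ))) :
    ‖slcP_slice e₁ e₂ (Z - α)‖ ≤ 4 * D := by
  have a1 : |Z.1 - α.1| ≤ 2 * D := by
    rw [abs_le]
    constructor <;> linarith [hZ.1.1, hZ.1.2, hα.1.1, hα.1.2]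
  have a2 : |Z.2 - α.2| ≤ 2 * D := by
    rw [abs_le]
    constructor <;> linarith [hZ.2.1, hZ.2.2, hα.2.1, hα.2.2]
  calc ‖slcP_slice e₁ e₂ (Z - α)‖ ≤ ‖(Z - α).1 • e₁‖ + ‖(Z - α).2 • e₂‖ := norm_add_le _ _
    _ = |Z.1 - α.1| + |Z.2 - α.2| := by
        rw [norm_smul, norm_smul, h1, h2, mul_one, mul_one, Real.norm_eq_abs, Real.norm_eq_abs,
          Prod.fst_sub, Prod.snd_sub]
    _ ≤ _ := by linarith

theorem slc_open_seg_slice {n : ℕ} (e₁ e₂ : Eu n) {O : Set (Eu n)} (hO : IsOpen O) (Z : ℝ × ℝ) :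
    IsOpen {x : (ℝ × ℝ) × Eu n | ∀ s ∈ Icc (0:ℝ) 1,
      x.2 + slcP_slice e₁ e₂ ((1 - s) • x.1 + s • Z) ∈ O} := by
  rw [isOpen_iff_mem_nhds]
  intro x hx
  apply isCompact_Icc.eventually_forall_of_forall_eventually
  intro s hs
  have hP := slcP_cont_slice e₁ e₂
  have hcont : Continuous (fun z : ((ℝ × ℝ) × Eu n) × ℝ =>
      z.1.2 + slcP_slice e₁ e₂ ((1 - z.2) • z.1.1 + z.2 • Z)) :=
    (continuous_snd.comp continuous_fst).add (hP.comp (by fun_prop))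
  exact hcont.continuousAt.eventually_mem (hO.mem_nhds (hx s hs))

theorem slc_generic_slice {n : ℕ} (e₁ e₂ : Eu n) {O : Set (Eu n)} (hO : IsOpen O) {w : Eu n → ℝ}
    (hwm : Measurable w) {ℓ : Eu n → ℝ≥0∞} (hℓ : Measurable ℓ) (hug : UGOn w ℓ O) (Z : ℝ × ℝ) :
    ∀ᵐ q : Eu n, ∀ᵐ α : ℝ × ℝ,
      (∀ s ∈ Icc (0:ℝ) 1, q + slcP_slice e₁ e₂ ((1 - s) • α + s • Z) ∈ O) →
      ENNReal.ofReal |w (q + slcP_slice e₁ e₂ Z) - w (q + slcP_slice e₁ e₂ α)| ≤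
        (∫⁻ s in Icc (0:ℝ) 1, ℓ (q + slcP_slice e₁ e₂ ((1 - s) • α + s • Z))) *
          ENNReal.ofReal ‖slcP_slice e₁ e₂ (Z - α)‖ := by
  have hP := slcP_cont_slice e₁ e₂
  have h1 : ∀ α : ℝ × ℝ, ∀ᵐ q : Eu n,
      (∀ s ∈ Icc (0:ℝ) 1, q + slcP_slice e₁ e₂ ((1 - s) • α + s • Z) ∈ O) →
      ENNReal.ofReal |w (q + slcP_slice e₁ e₂ Z) - w (q + slcP_slice e₁ e₂ α)| ≤
        (∫⁻ s in Icc (0:ℝ) 1, ℓ (q + slcP_slice e₁ e₂ ((1 - s) • α + s • Z))) *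
          ENNReal.ofReal ‖slcP_slice e₁ e₂ (Z - α)‖ := by
    intro α
    have h := hug (slcP_slice e₁ e₂ (Z - α))
    have h' := (measurePreserving_add_right (volume : Measure (Eu n))
      (slcP_slice e₁ e₂ α)).quasiMeasurePreserving.ae h
    filter_upwards [h'] with q hq hseg
    have e : ∀ s : ℝ, q + slcP_slice e₁ e₂ α + s • slcP_slice e₁ e₂ (Z - α) =
        q + slcP_slice e₁ e₂ ((1 - s) • α + s • Z) := by
      intro s
      rw [add_assoc, slcP_lin_slice]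
    have e1 : q + slcP_slice e₁ e₂ α + slcP_slice e₁ e₂ (Z - α) = q + slcP_slice e₁ e₂ Z := by
      have := e 1
      rwa [one_smul, sub_self, zero_smul, zero_add, one_smul] at this
    simp only [e, e1] at hq
    exact hq hseg
  have hmA := (slc_open_seg_slice e₁ e₂ hO Z).measurableSet
  have hmB : MeasurableSet {x : (ℝ × ℝ) × Eu n |
      ENNReal.ofReal |w (x.2 + slcP_slice e₁ e₂ Z) - w (x.2 + slcP_slice e₁ e₂ x.1)| ≤
        (∫⁻ s in Icc (0:ℝ) 1, ℓ (x.2 + slcP_slice e₁ e₂ ((1 - s) • x.1 + s • Z))) *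
          ENNReal.ofReal ‖slcP_slice e₁ e₂ (Z - x.1)‖} := by
    apply measurableSet_le
    · have c1 : Measurable (fun x : (ℝ × ℝ) × Eu n => w (x.2 + slcP_slice e₁ e₂ Z)) :=
        hwm.comp (by fun_prop)
      have c2 : Measurable (fun x : (ℝ × ℝ) × Eu n => w (x.2 + slcP_slice e₁ e₂ x.1)) :=
        hwm.comp (continuous_snd.add (hP.comp continuous_fst)).measurable
      exact (continuous_abs.measurable.comp (c1.sub c2)).ennreal_ofReal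
    · apply Measurable.mul
      · have c1 : Measurable (fun x : ((ℝ × ℝ) × Eu n) × ℝ =>
            ℓ (x.1.2 + slcP_slice e₁ e₂ ((1 - x.2) • x.1.1 + x.2 • Z))) :=
          hℓ.comp ((continuous_snd.comp continuous_fst).add (hP.comp (by fun_prop))).measurable
        exact c1.lintegral_prod_right'
      · exact (hP.comp (by fun_prop)).norm.measurable.ennreal_ofReal
  have hms : MeasurableSet {x : (ℝ × ℝ) × Eu n |
      (∀ s ∈ Icc (0:ℝ) 1, x.2 + slcP_slice e₁ e₂ ((1 - s) • x.1 + s • Z) ∈ O) →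
      ENNReal.ofReal |w (x.2 + slcP_slice e₁ e₂ Z) - w (x.2 + slcP_slice e₁ e₂ x.1)| ≤
        (∫⁻ s in Icc (0:ℝ) 1, ℓ (x.2 + slcP_slice e₁ e₂ ((1 - s) • x.1 + s • Z))) *
          ENNReal.ofReal ‖slcP_slice e₁ e₂ (Z - x.1)‖} := by
    have := hmA.compl.union hmB
    convert this using 1
    ext x
    simp only [mem_ofPred_eq, mem_union, mem_compl_iff, imp_iff_not_or]
  exact (Measure.ae_ae_comm hms).1 (Eventually.of_forall h1)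

theorem slc_point_slice {n : ℕ} (hn : 3 ≤ n) {e₁ e₂ : Eu n} (h1 : ‖e₁‖ = 1) (h2 : ‖e₂‖ = 1)
    {O : Set (Eu n)} (hO : IsOpen O) {w : Eu n → ℝ} (hw : ContinuousOn w O)
    {ℓ : Eu n → ℝ≥0∞} (hℓ : Measurable ℓ) {D lam T : ℝ} (hlam : 0 < lam) (hD : 0 < D)
    (hT : 0 < T) (C : Set (ℝ × ℝ)) (hC : Dense C) (q : Eu n)
    (hgen : ∀ Z ∈ C, ∀ᵐ α : ℝ × ℝ,
      (∀ s ∈ Icc (0:ℝ) 1, q + slcP_slice e₁ e₂ ((1 - s) • α + s • Z) ∈ O) →
      ENNReal.ofReal |w (q + slcP_slice e₁ e₂ Z) - w (q + slcP_slice e₁ e₂ α)| ≤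
        (∫⁻ s in Icc (0:ℝ) 1, ℓ (q + slcP_slice e₁ e₂ ((1 - s) • α + s • Z))) *
          ENNReal.ofReal ‖slcP_slice e₁ e₂ (Z - α)‖)
    (hq : ∃ ζ₁ ζ₂ : ℝ, |ζ₁| + lam ≤ D ∧ |ζ₂| + lam ≤ D ∧ w (q + ζ₁ • e₁ + ζ₂ • e₂) = T ∧
      (∀ α₁ α₂ : ℝ, |α₁| ≤ lam → |α₂| ≤ lam → w (q + α₁ • e₁ + α₂ • e₂) = 0) ∧
      (∀ α₁ α₂ r : ℝ, |α₁| ≤ lam → |α₂| ≤ lam → 0 ≤ r → r ≤ 1 →
        q + ((1 - r) * α₁ + r * ζ₁) • e₁ + ((1 - r) * α₂ + r * ζ₂) • e₂ ∈ O)) :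
    ENNReal.ofReal ((T / (12 * D)) ^ n * lam ^ 2) ≤
      ∫⁻ β in (Icc (-D) D ×ˢ Icc (-D) D : Set (ℝ × ℝ)), ℓ (q + slcP_slice e₁ e₂ β) ^ n := by
  obtain ⟨ζ₁, ζ₂, hz1, hz2, hwT, hw0, hseg⟩ := hq
  have hP := slcP_cont_slice e₁ e₂
  have hlD : lam ≤ D := by linarith [abs_nonneg ζ₁]
  have hζ1 := abs_le.1 (le_refl |ζ₁|)
  have hζ2 := abs_le.1 (le_refl |ζ₂|)
  have hPe : ∀ a b : ℝ, q + slcP_slice e₁ e₂ (a, b) = q + a • e₁ + b • e₂ := by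
    intro a b
    simp only [slcP_slice, add_assoc]
  have hev1 : ∀ᶠ Z in 𝓝 ((ζ₁, ζ₂) : ℝ × ℝ), Z ∈ (Icc (-D) D ×ˢ Icc (-D) D : Set (ℝ × ℝ)) := by
    apply prod_mem_nhds
    · exact Icc_mem_nhds (by linarith) (by linarith)
    · exact Icc_mem_nhds (by linarith) (by linarith)
  have hev2 : ∀ᶠ Z in 𝓝 ((ζ₁, ζ₂) : ℝ × ℝ), ∀ y ∈ ((Icc (-lam) lam ×ˢ Icc (-lam) lam :
      Set (ℝ × ℝ)) ×ˢ Icc (0:ℝ) 1), q + slcP_slice e₁ e₂ ((1 - y.2) • y.1 + y.2 • Z) ∈ O := by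
    apply ((isCompact_Icc.prod isCompact_Icc).prod
      isCompact_Icc).eventually_forall_of_forall_eventually
    rintro ⟨⟨a, b⟩, r⟩ ⟨hab, hr⟩
    have hcont : Continuous (fun z : (ℝ × ℝ) × ((ℝ × ℝ) × ℝ) =>
        q + slcP_slice e₁ e₂ ((1 - z.2.2) • z.2.1 + z.2.2 • z.1)) :=
      continuous_const.add (hP.comp (by fun_prop))
    apply hcont.continuousAt.eventually_mem
    apply hO.mem_nhds
    have := hseg a b r (abs_le.2 hab.1) (abs_le.2 hab.2) hr.1 hr.2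
    rw [← hPe] at this
    exact this
  set A : ℝ≥0∞ := ENNReal.ofReal (4 * lam ^ 2) with hA
  have hA0 : A ≠ 0 := by
    rw [hA]
    simp only [ne_eq, ENNReal.ofReal_eq_zero, not_le]
    positivity
  have hAt : A ≠ ⊤ := ENNReal.ofReal_ne_top
  set I : ℝ≥0∞ := ∫⁻ β in (Icc (-D) D ×ˢ Icc (-D) D : Set (ℝ × ℝ)),
    ℓ (q + slcP_slice e₁ e₂ β) ^ n with hI
  have hclaim : ∀ Z ∈ C, Z ∈ (Icc (-D) D ×ˢ Icc (-D) D : Set (ℝ × ℝ)) →
      (∀ y ∈ ((Icc (-lam) lam ×ˢ Icc (-lam) lam : Set (ℝ × ℝ)) ×ˢ Icc (0:ℝ) 1),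
        q + slcP_slice e₁ e₂ ((1 - y.2) • y.1 + y.2 • Z) ∈ O) →
      ENNReal.ofReal |w (q + slcP_slice e₁ e₂ Z)| ^ n * A ≤ ENNReal.ofReal (12 * D) ^ n * I := by
    intro Z hZC hZD hZO
    apply slc_alg_slice hn _ _ _ _ hA0 hAt
    have hgm : Measurable (fun β : ℝ × ℝ => ℓ (q + slcP_slice e₁ e₂ β)) :=
      hℓ.comp (continuous_const.add hP).measurable
    calc ENNReal.ofReal |w (q + slcP_slice e₁ e₂ Z)| * A
        = ∫⁻ _ in (Icc (-lam) lam ×ˢ Icc (-lam) lam : Set (ℝ × ℝ)),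
            ENNReal.ofReal |w (q + slcP_slice e₁ e₂ Z)| := by
          rw [setLIntegral_const, slc_vol_box_slice lam hlam.le]
      _ ≤ ∫⁻ α in (Icc (-lam) lam ×ˢ Icc (-lam) lam : Set (ℝ × ℝ)),
            (∫⁻ s in Icc (0:ℝ) 1, ℓ (q + slcP_slice e₁ e₂ ((1 - s) • α + s • Z))) *
              ENNReal.ofReal (4 * D) := by
          apply lintegral_mono_ae
          filter_upwards [ae_restrict_of_ae (hgen Z hZC), ae_restrict_mem (slc_meas_box_slice lam)]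
            with α hα hα'
          have h3 := hα (fun s hs => hZO (α, s) ⟨hα', hs⟩)
          have h4 : w (q + slcP_slice e₁ e₂ α) = 0 := by
            obtain ⟨a, b⟩ := α
            rw [hPe]
            exact hw0 a b (abs_le.2 hα'.1) (abs_le.2 hα'.2)
          rw [h4, sub_zero] at h3
          refine h3.trans ?_
          gcongr
          exact slcP_norm_slice h1 h2 hlD hα' hZD
      _ = (∫⁻ α in (Icc (-lam) lam ×ˢ Icc (-lam) lam : Set (ℝ × ℝ)),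
            ∫⁻ s in Icc (0:ℝ) 1, ℓ (q + slcP_slice e₁ e₂ ((1 - s) • α + s • Z))) *
              ENNReal.ofReal (4 * D) := by
          rw [lintegral_mul_const' _ _ ENNReal.ofReal_ne_top]
      _ ≤ (3 * (I ^ (1 / (n:ℝ)) * A ^ (1 - 1 / (n:ℝ)))) * ENNReal.ofReal (4 * D) :=
          mul_le_mul_left (slc_plane_slice hn (fun β => ℓ (q + slcP_slice e₁ e₂ β)) hgm hlam hlD Z hZD) _
      _ = (I ^ (1 / (n:ℝ)) * A ^ (1 - 1 / (n:ℝ))) * ENNReal.ofReal (12 * D) := by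
          have h3 : (3:ℝ≥0∞) = ENNReal.ofReal 3 := by simp
          have h5 : ENNReal.ofReal (12 * D) = 3 * ENNReal.ofReal (4 * D) := by
            rw [h3, ← ENNReal.ofReal_mul (by norm_num)]
            congr 1
            ring
          rw [h5]
          ring
  -- the limit
  have hmem : q + slcP_slice e₁ e₂ (ζ₁, ζ₂) ∈ O := by
    have := hseg 0 0 1 (by simpa using hlam.le) (by simpa using hlam.le) zero_le_one le_rfl
    rw [hPe]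
    simpa using this
  have hwc : ContinuousAt w (q + slcP_slice e₁ e₂ (ζ₁, ζ₂)) := hw.continuousAt (hO.mem_nhds hmem)
  have hlim : Tendsto (fun Z : ℝ × ℝ => ENNReal.ofReal |w (q + slcP_slice e₁ e₂ Z)| ^ n * A)
      (𝓝 (ζ₁, ζ₂)) (𝓝 (ENNReal.ofReal |w (q + slcP_slice e₁ e₂ (ζ₁, ζ₂))| ^ n * A)) := by
    apply ENNReal.Tendsto.mul_const _ (Or.inr hAt)
    apply ENNReal.Tendsto.pow
    apply ENNReal.tendsto_ofReal
    apply Tendsto.abs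
    have hc2 : ContinuousAt (fun Z : ℝ × ℝ => q + slcP_slice e₁ e₂ Z) (ζ₁, ζ₂) :=
      (continuous_const.add hP).continuousAt
    exact ContinuousAt.comp (f := fun Z : ℝ × ℝ => q + slcP_slice e₁ e₂ Z) hwc hc2
  have hfreq : ∃ᶠ Z in 𝓝 ((ζ₁, ζ₂) : ℝ × ℝ),
      ENNReal.ofReal |w (q + slcP_slice e₁ e₂ Z)| ^ n * A ≤ ENNReal.ofReal (12 * D) ^ n * I := by
    have h3 : ∃ᶠ Z in 𝓝 ((ζ₁, ζ₂) : ℝ × ℝ), Z ∈ C := mem_closure_iff_frequently.1 (hC _)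
    refine ((h3.and_eventually hev1).and_eventually hev2).mono ?_
    rintro Z ⟨⟨hZ1, hZ2⟩, hZ3⟩
    exact hclaim Z hZ1 hZ2 hZ3
  have hfin := le_of_tendsto_of_frequently hlim hfreq
  rw [hPe, hwT, abs_of_pos hT] at hfin
  have h12 : ENNReal.ofReal (12 * D) ^ n ≠ 0 := by
    apply pow_ne_zero
    simp only [ne_eq, ENNReal.ofReal_eq_zero, not_le]
    positivity
  have h12' : ENNReal.ofReal (12 * D) ^ n ≠ ⊤ := ENNReal.pow_ne_top ENNReal.ofReal_ne_top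
  refine (ENNReal.mul_le_mul_iff_right h12 h12').1 (le_trans ?_ hfin)
  rw [hA, ← ENNReal.ofReal_pow (by positivity), ← ENNReal.ofReal_pow hT.le,
    ← ENNReal.ofReal_mul (by positivity), ← ENNReal.ofReal_mul (by positivity)]
  apply ENNReal.ofReal_le_ofReal
  have e : (12 * D) ^ n * ((T / (12 * D)) ^ n * lam ^ 2) = T ^ n * lam ^ 2 := by
    rw [← mul_assoc, ← mul_pow, mul_div_cancel₀ _ (by positivity)]
  rw [e]
  have : 0 ≤ T ^ n := by positivity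
  nlinarith [sq_nonneg lam, mul_nonneg this (sq_nonneg lam)]

theorem slc_core_slice {n : ℕ} (hn : 3 ≤ n) {e₁ e₂ : Eu n} (h1 : ‖e₁‖ = 1) (h2 : ‖e₂‖ = 1)
    {O : Set (Eu n)} (hO : IsOpen O) {w : Eu n → ℝ} (hw : ContinuousOn w O) (hwm : Measurable w)
    {ℓ : Eu n → ℝ≥0∞} (hℓ : Measurable ℓ) (hug : UGOn w ℓ O) {F : Set (Eu n)} {D lam T : ℝ}
    (hlam : 0 < lam) (hD : 0 < D) (hT : 0 < T)
    (hF : ∀ q ∈ F, ∃ ζ₁ ζ₂ : ℝ, |ζ₁| + lam ≤ D ∧ |ζ₂| + lam ≤ D ∧ w (q + ζ₁ • e₁ + ζ₂ • e₂) = T ∧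
      (∀ α₁ α₂ : ℝ, |α₁| ≤ lam → |α₂| ≤ lam → w (q + α₁ • e₁ + α₂ • e₂) = 0) ∧
      (∀ α₁ α₂ r : ℝ, |α₁| ≤ lam → |α₂| ≤ lam → 0 ≤ r → r ≤ 1 →
        q + ((1 - r) * α₁ + r * ζ₁) • e₁ + ((1 - r) * α₂ + r * ζ₂) • e₂ ∈ O)) :
    ENNReal.ofReal ((T / (12 * D)) ^ n * lam ^ 2) * volume F ≤
      ENNReal.ofReal (4 * D ^ 2) * ∫⁻ x, ℓ x ^ n := by
  have hP := slcP_cont_slice e₁ e₂
  obtain ⟨C, hCc, hCd⟩ := TopologicalSpace.exists_countable_dense (ℝ × ℝ)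
  have hgen : ∀ᵐ q : Eu n, ∀ Z ∈ C, ∀ᵐ α : ℝ × ℝ,
      (∀ s ∈ Icc (0:ℝ) 1, q + slcP_slice e₁ e₂ ((1 - s) • α + s • Z) ∈ O) →
      ENNReal.ofReal |w (q + slcP_slice e₁ e₂ Z) - w (q + slcP_slice e₁ e₂ α)| ≤
        (∫⁻ s in Icc (0:ℝ) 1, ℓ (q + slcP_slice e₁ e₂ ((1 - s) • α + s • Z))) *
          ENNReal.ofReal ‖slcP_slice e₁ e₂ (Z - α)‖ :=
    (ae_ball_iff hCc).2 fun Z _ => slc_generic_slice e₁ e₂ hO hwm hℓ hug Z
  set I : Eu n → ℝ≥0∞ := fun q => ∫⁻ β in (Icc (-D) D ×ˢ Icc (-D) D : Set (ℝ × ℝ)),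
    ℓ (q + slcP_slice e₁ e₂ β) ^ n with hI
  have hjm : Measurable (fun p : Eu n × (ℝ × ℝ) => ℓ (p.1 + slcP_slice e₁ e₂ p.2) ^ n) :=
    (hℓ.comp (continuous_fst.add (hP.comp continuous_snd)).measurable).pow_const n
  have hIm : Measurable I := hjm.lintegral_prod_right'
  have hFE : F ≤ᵐ[volume] {q | ENNReal.ofReal ((T / (12 * D)) ^ n * lam ^ 2) ≤ I q} := by
    filter_upwards [hgen] with q hq hqF
    exact slc_point_slice hn h1 h2 hO hw hℓ hlam hD hT C hCd q hq (hF q hqF)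
  calc ENNReal.ofReal ((T / (12 * D)) ^ n * lam ^ 2) * volume F
      ≤ ENNReal.ofReal ((T / (12 * D)) ^ n * lam ^ 2) *
          volume {q | ENNReal.ofReal ((T / (12 * D)) ^ n * lam ^ 2) ≤ I q} :=
        mul_le_mul_right (measure_mono_ae hFE) _
    _ ≤ ∫⁻ q, I q := mul_meas_ge_le_lintegral hIm _
    _ = ∫⁻ β in (Icc (-D) D ×ˢ Icc (-D) D : Set (ℝ × ℝ)), ∫⁻ q, ℓ (q + slcP_slice e₁ e₂ β) ^ n := by
        rw [hI]
        exact lintegral_lintegral_swap hjm.aemeasurable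
    _ = ∫⁻ _ in (Icc (-D) D ×ˢ Icc (-D) D : Set (ℝ × ℝ)), ∫⁻ x, ℓ x ^ n := by
        apply lintegral_congr
        intro β
        exact lintegral_add_right_eq_self (fun x => ℓ x ^ n) (slcP_slice e₁ e₂ β)
    _ = _ := by
        rw [setLIntegral_const, slc_vol_box_slice D hD.le, mul_comm]

theorem slice_est {n : ℕ} (hn : 3 ≤ n) {e₁ e₂ : Eu n} (h1 : ‖e₁‖ = 1) (h2 : ‖e₂‖ = 1)
    (h12 : inner ℝ e₁ e₂ = 0) {O : Set (Eu n)} (hO : IsOpen O) {w : Eu n → ℝ} (hw : ContinuousOn w O)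
    {ℓ : Eu n → ℝ≥0∞} (hℓ : Measurable ℓ) (hug : UGOn w ℓ O) {F : Set (Eu n)} {D lam T : ℝ}
    (hlam : 0 < lam) (hD : 0 < D) (hT : 0 < T)
    (hF : ∀ q ∈ F, ∃ ζ₁ ζ₂ : ℝ, |ζ₁| + lam ≤ D ∧ |ζ₂| + lam ≤ D ∧ w (q + ζ₁ • e₁ + ζ₂ • e₂) = T ∧
      (∀ α₁ α₂ : ℝ, |α₁| ≤ lam → |α₂| ≤ lam → w (q + α₁ • e₁ + α₂ • e₂) = 0) ∧
      (∀ α₁ α₂ r : ℝ, |α₁| ≤ lam → |α₂| ≤ lam → 0 ≤ r → r ≤ 1 →
        q + ((1 - r) * α₁ + r * ζ₁) • e₁ + ((1 - r) * α₂ + r * ζ₂) • e₂ ∈ O)) :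
    ENNReal.ofReal ((T / (12 * D)) ^ n * lam ^ 2) * volume F ≤
      ENNReal.ofReal (4 * D ^ 2) * ∫⁻ x in O, ℓ x ^ n := by
  classical
  have hOm := hO.measurableSet
  have hwe : EqOn (O.indicator w) w O := fun x hx => indicator_of_mem hx w
  have hle : EqOn (O.indicator ℓ) ℓ O := fun x hx => indicator_of_mem hx ℓ
  have hw' : ContinuousOn (O.indicator w) O := hw.congr hwe
  have hwm : Measurable (O.indicator w) := by
    have h0 : ContinuousOn (0 : Eu n → ℝ) Oᶜ := continuousOn_const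
    have := hw.measurable_piecewise h0 hOm
    rwa [piecewise_eq_indicator] at this
  have hug' : UGOn (O.indicator w) (O.indicator ℓ) O := by
    intro v
    filter_upwards [hug v] with x hx hseg
    have e0 : x ∈ O := by
      have := hseg 0 ⟨le_rfl, zero_le_one⟩
      rwa [zero_smul, add_zero] at this
    have e1 : x + v ∈ O := by
      have := hseg 1 ⟨zero_le_one, le_rfl⟩
      rwa [one_smul] at this
    rw [hwe e0, hwe e1]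
    refine (hx hseg).trans (le_of_eq ?_)
    congr 1
    apply setLIntegral_congr_fun measurableSet_Icc
    intro s hs
    exact (hle (hseg s hs)).symm
  have hfin := slc_core_slice hn h1 h2 hO hw' hwm (hℓ.indicator hOm) hug' (F := F) hlam hD hT (by
    intro q hq
    obtain ⟨ζ₁, ζ₂, hz1, hz2, hwT, hw0, hseg⟩ := hF q hq
    refine ⟨ζ₁, ζ₂, hz1, hz2, ?_, ?_, hseg⟩
    · have := hseg 0 0 1 (by simpa using hlam.le) (by simpa using hlam.le) zero_le_one le_rfl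
      rw [hwe (by simpa using this)]
      exact hwT
    · intro α₁ α₂ ha1 ha2
      have := hseg α₁ α₂ 0 ha1 ha2 le_rfl zero_le_one
      rw [hwe (by simpa using this)]
      exact hw0 α₁ α₂ ha1 ha2)
  refine hfin.trans (le_of_eq ?_)
  congr 1
  rw [← lintegral_indicator hOm]
  apply lintegral_congr
  intro x
  by_cases hx : x ∈ O
  · rw [indicator_of_mem hx, indicator_of_mem hx]
  · rw [indicator_of_notMem hx, indicator_of_notMem hx, zero_pow (by omega)]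

end

end Pool.Agent.Helper746.Qc
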