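import Mathlib

set_option autoImplicit false

namespace Pool.Agent.Helper746.Rl

open Set Metric MeasureTheory Filter Topology

noncomputable section

/-- euclidean 3-space -/
abbrev V := EuclideanSpace ℝ (Fin 3)

/-- distance to the unit sphere (for points of the unit ball) -/
def ht (x : V) : ℝ := 1 - ‖x‖

/-- the scale at which `x` and `p` see each other -/
def TT (x p : V) : ℝ := max (max (ht x) (ht p)) ‖x - p‖

/-- the hyperbolic quotient of `x` and `p` -/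
def QQ (x p : V) : ℝ := TT x p ^ 2 / (ht x * ht p)

/-- the gauge function -/
def ph (γ β c : ℝ) (Q : ℝ) : ℝ := Q ^ γ + c * Q ^ β

/-- the one-sided slack of `u` at `x` -/
def ss (γ β c : ℝ) (u : V → ℝ) (x : V) : ℝ :=
  ⨆ p : {p : V // ‖p‖ < 1}, (u p - u x) / ph γ β c (QQ x p)

/-- one-sided Harnack inequality -/
def HarnackH (F : V → V) (u : V → ℝ) (CH : ℝ) : Prop :=
  ∀ y : V, ‖y‖ < 1 → ∀ M : ℝ, (∀ p : V, ‖p - y‖ < (7 / 8) * ht y → u p ≤ M) →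
    ∀ y' : V, ‖y' - y‖ ≤ ht y / 16 → ‖F y' - F y‖ ≤ CH * (M - u y)

/-- the gain property -/
def GainG (u : V → ℝ) (q : ℝ) : Prop :=
  ∀ x : V, ‖x‖ < 1 → ∀ n : ℕ, ∀ R : ℝ, 0 ≤ R → 2 * q ^ n ≤ 1 →
    ∃ x' : V, ‖x'‖ < 1 ∧ ht x' = Real.exp (-R) * ht x ∧ ‖x' - x‖ ≤ 3 * 4 ^ n * ht x ∧
      ∀ m : ℝ, (∀ p : V, ‖p‖ < 1 → Real.exp (-R) * ht x ≤ ht p →
          ‖p - x‖ ≤ 3 * 4 ^ n * ht x → u p - u x ≤ m) →
        u x - 2 * q ^ n * m ≤ u x'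

/-- chains of Harnack steps starting at `x` -/
inductive Reach (x : V) : ℕ → V → Prop
  | base : Reach x 0 x
  | step {N : ℕ} {y y' : V} : Reach x N y → ‖y'‖ < 1 → ‖y' - y‖ ≤ ht y / 16 →
      QQ x y' ≤ 9 * (17 / 16 : ℝ) ^ (N + 1) → Reach x (N + 1) y'

/-- a good step of the algorithm -/
structure GStep (F : V → V) (u : V → ℝ) (a β C : ℝ) (x : V) (b : ℝ) (x' : V) (b' : ℝ) :
    Prop where
  n1 : ‖x'‖ < 1
  b0 : 0 < b'
  b2 : b' ≤ 2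
  pot : ht x' * b' ^ (-a) ≤ Real.exp (-a) * (ht x * b ^ (-a))
  dist : TT x x' ≤ C * (ht x * b ^ (-a))
  osc : ∀ p : V, ‖p‖ < 1 → ∀ l : ℝ, 1 ≤ l → QQ x p ≤ l * QQ x x' →
    ‖F p - F x‖ ≤ C * b' * l ^ β
  gain : u x - b / 2 + b / 20 ≤ u x' - b' / 2

end

end Pool.Agent.Helper746.Rl
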