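import Pool.Agent.Helper930.BL.Defs2
import Pool.Agent.Helper746.RlDefs

set_option autoImplicit false

namespace Pool.Agent.Helper746.Rl

open MeasureTheory Metric Set Filter Topology
open scoped ENNReal NNReal ContDiff
open H930.BL

noncomputable section

/-- quasiregular map of an open subset of 3-space, in coordinates -/
structure QRM (f : E 3 → E 3) (D : E 3 → Matrix (Fin 3) (Fin 3) ℝ) (Ω : Set (E 3)) (κ : ℝ) :
    Prop where
  fd : FDMap f D Ω
  kpos : 0 < κ
  qr : ∀ᵐ x ∂(volume.restrict Ω), sn (D x) ^ 3 ≤ κ * (D x).det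

/-- a map of euclidean space in coordinates -/
def coordMap (f : V → V) : E 3 → E 3 := fun x i => f (WithLp.toLp 2 x) i

end

end Pool.Agent.Helper746.Rl
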