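import Pool.Agent.Helper930.BL.TrB
import Pool.Agent.Helper930.BL.Osc
import Pool.Agent.Helper746.RlADefs

set_option autoImplicit false

namespace Pool.Agent.Helper746.Rl

open MeasureTheory Metric Set Filter Topology
open scoped ENNReal NNReal ContDiff
open H930.BL

noncomputable section

theorem ext_iio {n : WithTop ℕ∞} (hn : n ≤ ((⊤ : ℕ∞) : WithTop ℕ∞)) {Θ : ℝ → ℝ} {b a' : ℝ} (hab : a' < b)
    (hΘ : ContDiffOn ℝ n Θ (Iio b)) :
    ∃ Θ' : ℝ → ℝ, ContDiff ℝ n Θ' ∧ ∀ s ≤ a', Θ' s = Θ s := by
  obtain ⟨b', hb1, hb2⟩ := exists_between hab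
  have hpos : 0 < b' - a' := sub_pos.2 hb1
  have hT : ContDiff ℝ n Real.smoothTransition :=
    (Real.smoothTransition.contDiff (n := (⊤ : ℕ∞))).of_le hn
  have hT' : ContDiff ℝ n (fun s : ℝ => Real.smoothTransition ((s - a') / (b' - a'))) :=
    hT.comp ((contDiff_id.sub contDiff_const).div_const _)
  have hg : ContDiff ℝ n (fun s : ℝ => s + Real.smoothTransition ((s - a') / (b' - a')) * (b' - s)) :=
    contDiff_id.add (hT'.mul (contDiff_const.sub contDiff_id))
  have hle : ∀ s : ℝ, s + Real.smoothTransition ((s - a') / (b' - a')) * (b' - s) ≤ b' := by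
    intro s
    rcases le_or_gt b' s with h | h
    · rw [Real.smoothTransition.one_of_one_le]
      · linarith
      · rw [le_div_iff₀ hpos]; linarith
    · have h1 := Real.smoothTransition.le_one ((s - a') / (b' - a'))
      nlinarith
  refine ⟨fun s => Θ (s + Real.smoothTransition ((s - a') / (b' - a')) * (b' - s)), ?_, ?_⟩
  · rw [← contDiffOn_univ]
    exact hΘ.comp hg.contDiffOn (fun s _ => lt_of_le_of_lt (hle s) hb2)
  · intro s hs
    have h1 : Real.smoothTransition ((s - a') / (b' - a')) = 0 := by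
      apply Real.smoothTransition.zero_of_nonpos
      exact div_nonpos_of_nonpos_of_nonneg (by linarith) hpos.le
    simp [h1]

end

end Pool.Agent.Helper746.Rl
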