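import Pool.Agent.Helper930.BL.TrB
import Pool.Agent.Helper930.BL.Osc
import Pool.Agent.Helper746.RlADefs

set_option autoImplicit false

namespace Pool.Agent.Helper746.Rl

open MeasureTheory Metric Set Filter Topology
open scoped ENNReal NNReal ContDiff
open H930.BL

noncomputable section

theorem qrm_int3 {f : E 3 → E 3} {D : E 3 → Matrix (Fin 3) (Fin 3) ℝ} {Ω : Set (E 3)} {κ : ℝ}
    (h : QRM f D Ω κ) {K : Set (E 3)} (hK : IsCompact K) (hKΩ : K ⊆ Ω) :
    IntegrableOn (fun x => sn (D x) ^ 3) K := by
  have hm : Measurable (fun x => sn (D x)) := by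
    unfold sn
    refine Finset.measurable_sum _ fun i _ => Finset.measurable_sum _ fun j _ => ?_
    exact continuous_abs.measurable.comp (h.fd.meas i j)
  have hi := (h.fd.det_int K hK hKΩ).const_mul κ
  refine Integrable.mono' hi (hm.pow_const 3).aestronglyMeasurable ?_
  filter_upwards [ae_restrict_of_ae_restrict_of_subset hKΩ h.qr] with x hx
  have h0 : 0 ≤ sn (D x) := by
    unfold sn
    positivity
  rw [Real.norm_eq_abs, abs_of_nonneg (pow_nonneg h0 3)]
  exact hx

end

end Pool.Agent.Helper746.Rl
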