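import Pool.Agent.Helper930.BL.TrB
import Pool.Agent.Helper930.BL.Osc
import Pool.Agent.Helper746.RlADefs
import Pool.Agent.Helper746.RlAint3

set_option autoImplicit false

namespace Pool.Agent.Helper746.Rl

open MeasureTheory Metric Set Filter Topology
open scoped ENNReal NNReal ContDiff
open H930.BL

noncomputable section

theorem qrm_moll {f : E 3 → E 3} {D : E 3 → Matrix (Fin 3) (Fin 3) ℝ} {Ω : Set (E 3)} {κ : ℝ}
    (h : QRM f D Ω κ) {K : Set (E 3)} (hK : IsCompact K) (hKΩ : K ⊆ Ω) :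
    ∃ F : ℕ → E 3 → E 3, (∀ k, ContDiff ℝ ∞ (F k)) ∧ TendstoUniformlyOn F f atTop K ∧
      (∀ᵐ x ∂(volume.restrict K), Tendsto (fun k => jac (F k) x) atTop (𝓝 (D x))) ∧
      ∃ Φ : E 3 → ℝ, IntegrableOn Φ K ∧
        ∀ᵐ x ∂(volume.restrict K), ∀ k, sn (jac (F k) x) ^ 3 ≤ Φ x := by
  have e : ∀ y : ℝ, y ^ (3:ℝ) = y ^ 3 := by
    intro y
    rw [show (3:ℝ) = ((3:ℕ):ℝ) by norm_num, Real.rpow_natCast]
  obtain ⟨F, hF1, hF2, hF3, Φ, hΦ, hb⟩ := moll (n := 3) (f := f) (D := D) (Ω := Ω) (by norm_num)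
    h.fd.isOpen h.fd.cont h.fd.meas h.fd.weak (p := 3) (by norm_num)
    (fun K hK hKΩ => by simp only [e]; exact qrm_int3 h hK hKΩ) hK hKΩ
  refine ⟨F, hF1, hF2, hF3, Φ, hΦ, ?_⟩
  simp only [e] at hb
  exact hb

end

end Pool.Agent.Helper746.Rl
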