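import Pool.Agent.Helper930.BL.TrB
import Pool.Agent.Helper930.BL.Osc
import Pool.Agent.Helper746.RlADefs
import Pool.Agent.Helper746.RlAint3
import Pool.Agent.Helper746.RlAmoll
import Pool.Agent.Helper746.RlAext

set_option autoImplicit false

namespace Pool.Agent.Helper746.Rl

open MeasureTheory Metric Set Filter Topology
open scoped ENNReal NNReal ContDiff
open H930.BL

noncomputable section

lemma theta_approx_gr_comp_aapprox {Θ' : ℝ → ℝ} (hΘ' : ContDiff ℝ 1 Θ') {u : E 3 → ℝ} {x : E 3}
    (hu : DifferentiableAt ℝ u x) : gr (fun y => Θ' (u y)) x = |deriv Θ' (u x)| * gr u x := by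
  unfold gr
  rw [Finset.mul_sum]
  refine Finset.sum_congr rfl fun j _ => ?_
  have hd : DifferentiableAt ℝ Θ' (u x) := (hΘ'.differentiable one_ne_zero) _
  have h1 : HasFDerivAt (fun y => Θ' (u y)) (deriv Θ' (u x) • fderiv ℝ u x) x :=
    hd.hasDerivAt.comp_hasFDerivAt x hu.hasFDerivAt
  unfold pd
  rw [h1.fderiv]
  simp [abs_mul]

lemma theta_approx_gr_le_sn_aapprox (F : E 3 → E 3) (i : Fin 3) (x : E 3) :
    gr (fun y => F y i) x ≤ sn (jac F x) := by
  unfold gr sn jac
  exact Finset.single_le_sum (f := fun i => ∑ j, |Matrix.of (fun i j => pd (fun y => F y i) j x) i j|)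
    (fun _ _ => Finset.sum_nonneg fun _ _ => abs_nonneg _) (Finset.mem_univ i)

theorem theta_approx {f : E 3 → E 3} {D : E 3 → Matrix (Fin 3) (Fin 3) ℝ} {Ω : Set (E 3)}
    {κ : ℝ} (h : QRM f D Ω κ) (i : Fin 3) {Θ : ℝ → ℝ} {b : ℝ}
    (hΘ : ContDiffOn ℝ 1 Θ (Iio b)) {χ : E 3 → ℝ} (hχ : ContDiff ℝ ∞ χ)
    (hχc : HasCompactSupport χ) (hχs : tsupport χ ⊆ Ω) (h0 : ∀ x, 0 ≤ χ x)
    (h1 : ∀ x, χ x ≤ 1) {a : E 3} {r : ℝ} (hr : 0 < r)
    (hb : ∀ x ∈ tsupport χ ∩ closedBall a r, f x i < b)
    (hsep : ∀ x ∈ closedBall a r, x ∈ tsupport (gr χ) → ∀ᶠ s in 𝓝 (f x i), Θ s = 0) :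
    ∃ gk : ℕ → E 3 → ℝ, (∀ k, ContDiff ℝ 1 (gk k)) ∧
      TendstoUniformlyOn gk (fun x => χ x * Θ (f x i)) atTop (closedBall a r) ∧
      ∀ δ : ℝ, 0 < δ → ∀ᶠ k in atTop, ∫ x in closedBall a r, gr (gk k) x ^ 3 ≤
        (∫ x in closedBall a r, (χ x * |deriv Θ (f x i)|) ^ 3 * sn (D x) ^ 3) + δ := by
  set K := tsupport χ ∩ closedBall a r with hK
  have hKc : IsCompact K := IsCompact.inter_right hχc isClosed_closedBall
  have hKm : MeasurableSet K := hKc.isClosed.measurableSet
  have hKΩ : K ⊆ Ω := inter_subset_left.trans hχs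
  have hKB : K ⊆ closedBall a r := inter_subset_right
  have hχ0 : ∀ x, x ∉ tsupport χ → χ x = 0 := fun x hx => image_eq_zero_of_notMem_tsupport hx
  have hfK : ContinuousOn (fun x => f x i) K :=
    (continuous_apply i).comp_continuousOn (h.fd.cont.mono hKΩ)
  obtain ⟨a0, ha0b, ha0⟩ : ∃ a0 < b, ∀ x ∈ K, f x i ≤ a0 := by
    rcases K.eq_empty_or_nonempty with he | hne
    · exact ⟨b - 1, by linarith, by rw [he]; simp⟩
    · obtain ⟨x, hx, hx2⟩ := hKc.exists_isMaxOn hne hfK
      exact ⟨f x i, hb x hx, fun y hy => hx2 hy⟩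
  obtain ⟨Θ', hΘ', hΘe⟩ := ext_iio (n := 1) (by exact_mod_cast le_top) (a' := (a0 + b) / 2)
    (by linarith) hΘ
  obtain ⟨F, hF, hFu, hFj, Φ, hΦ, hΦb⟩ := qrm_moll h hKc hKΩ
  have hcomp : ∀ k, ContDiff ℝ ∞ (fun y => F k y i) := fun k => (contDiff_pi.1 (hF k)) i
  have hcomp1 : ∀ k, ContDiff ℝ 1 (fun y => F k y i) := fun k => (hcomp k).of_le (by exact_mod_cast le_top)
  have hχ1 : ContDiff ℝ 1 χ := hχ.of_le (by exact_mod_cast le_top)
  have hFc : ∀ k, ContDiff ℝ 1 (F k) := fun k => (hF k).of_le (by exact_mod_cast le_top)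
  -- uniform closeness
  have hclose : ∀ ε > 0, ∀ᶠ k in atTop, ∀ x ∈ K, |F k x i - f x i| < ε := by
    intro ε hε
    filter_upwards [Metric.tendstoUniformlyOn_iff.1 hFu ε hε] with k hk x hx
    have h2 := hk x hx
    rw [dist_comm, dist_eq_norm] at h2
    exact (norm_le_pi_norm (F k x - f x) i).trans_lt h2
  set S := (fun x => f x i) '' K with hS
  have hSc : IsCompact S := hKc.image_of_continuousOn hfK
  have hS'c : IsCompact (cthickening 1 S) := hSc.cthickening
  have hmemS : ∀ x ∈ K, f x i ∈ cthickening 1 S := fun x hx =>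
    self_subset_cthickening S ⟨x, hx, rfl⟩
  have hmemS' : ∀ x ∈ K, ∀ t, |t - f x i| ≤ 1 → t ∈ cthickening 1 S := by
    intro x hx t ht
    exact mem_cthickening_of_dist_le t (f x i) 1 S ⟨x, hx, rfl⟩ (by rwa [Real.dist_eq])
  have hgk : ∀ k, ContDiff ℝ 1 (fun x => χ x * Θ' (F k x i)) :=
    fun k => hχ1.mul (hΘ'.comp (hcomp1 k))
  refine ⟨fun k x => χ x * Θ' (F k x i), hgk, ?_, ?_⟩
  · rw [Metric.tendstoUniformlyOn_iff]
    intro ε hε
    have huc : UniformContinuousOn Θ' (cthickening 1 S) :=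
      hS'c.uniformContinuousOn_of_continuous hΘ'.continuous.continuousOn
    obtain ⟨δ, hδ, hδ2⟩ := Metric.uniformContinuousOn_iff.1 huc ε hε
    filter_upwards [hclose (min δ 1) (by positivity)] with k hk x hx
    by_cases hxs : x ∈ tsupport χ
    · have hxK : x ∈ K := ⟨hxs, hx⟩
      have h2 := hk x hxK
      have h3 : |F k x i - f x i| < δ := h2.trans_le (min_le_left _ _)
      have h4 : |F k x i - f x i| ≤ 1 := h2.le.trans (min_le_right _ _)
      have h5 := hδ2 (f x i) (hmemS x hxK) (F k x i) (hmemS' x hxK _ h4)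
        (by rw [dist_comm, Real.dist_eq]; exact h3)
      rw [hΘe (f x i) (by linarith [ha0 x hxK])] at h5
      rw [Real.dist_eq] at h5 ⊢
      rw [← mul_sub, abs_mul, abs_of_nonneg (h0 x)]
      calc χ x * |Θ (f x i) - Θ' (F k x i)| ≤ 1 * |Θ (f x i) - Θ' (F k x i)| :=
            mul_le_mul_of_nonneg_right (h1 x) (abs_nonneg _)
        _ < ε := by rw [one_mul]; exact h5
    · simp [hχ0 x hxs, hε]
  · intro δ hδ
    -- the separation property
    set Z := closedBall a r ∩ tsupport (gr χ) with hZ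
    have htg : tsupport (gr χ) ⊆ tsupport χ := by
      apply closure_minimal _ (isClosed_tsupport χ)
      intro x hx
      by_contra h2
      exact hx (gr_eq_zero_of_notMem h2)
    have hZK : Z ⊆ K := fun x hx => ⟨htg hx.2, hx.1⟩
    have hZc : IsCompact Z := hKc.of_isClosed_subset
      (isClosed_closedBall.inter (isClosed_tsupport _)) hZK
    have hO : IsOpen {s : ℝ | ∀ᶠ t in 𝓝 s, Θ t = 0} := isOpen_setOf_eventually_nhds
    obtain ⟨m, hm, hm2⟩ := (hZc.image_of_continuousOn (hfK.mono hZK)).exists_thickening_subset_open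
      hO (by
        rintro _ ⟨x, hx, rfl⟩
        exact hsep x hx.1 hx.2)
    have hZ0 : ∀ᶠ k in atTop, ∀ x ∈ Z, Θ' (F k x i) = 0 := by
      filter_upwards [hclose (min m ((b - a0) / 2)) (by
        apply lt_min hm; linarith)] with k hk x hx
      have h2 := hk x (hZK hx)
      have h3 : |F k x i - f x i| < m := h2.trans_le (min_le_left _ _)
      have h4 : |F k x i - f x i| < (b - a0) / 2 := h2.trans_le (min_le_right _ _)
      have h5 := ha0 x (hZK hx)
      have h6 : F k x i ≤ (a0 + b) / 2 := by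
        have := (abs_lt.1 h4).2
        linarith
      rw [hΘe _ h6]
      have h7 : F k x i ∈ thickening m ((fun x => f x i) '' Z) := by
        rw [mem_thickening_iff]
        exact ⟨f x i, ⟨x, hx, rfl⟩, by rwa [Real.dist_eq]⟩
      exact (hm2 h7).self_of_nhds
    have hdc : Continuous (deriv Θ') := hΘ'.continuous_deriv le_rfl
    obtain ⟨B, hB⟩ := hS'c.exists_bound_of_continuousOn hdc.continuousOn
    have hB' : ∀ᶠ k in atTop, ∀ x ∈ K, |deriv Θ' (F k x i)| ≤ B := by
      filter_upwards [hclose 1 one_pos] with k hk x hx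
      exact hB _ (hmemS' x hx _ (hk x hx).le)
    have hIc : ∀ k, Continuous fun x => (χ x * |deriv Θ' (F k x i)|) ^ 3 * sn (jac (F k) x) ^ 3 := by
      intro k
      exact ((hχ1.continuous.mul (hdc.comp (hcomp1 k).continuous).abs).pow 3).mul
        ((continuous_sn.comp (continuous_jac (hFc k))).pow 3)
    have hle : ∀ᶠ k in atTop, ∫ x in closedBall a r, gr (fun x => χ x * Θ' (F k x i)) x ^ 3 ≤
        ∫ x in closedBall a r, (χ x * |deriv Θ' (F k x i)|) ^ 3 * sn (jac (F k) x) ^ 3 := by
      filter_upwards [hZ0] with k hk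
      apply setIntegral_mono_on _ _ isClosed_closedBall.measurableSet
      · intro x hx
        have hu : DifferentiableAt ℝ (fun y => F k y i) x := (hcomp1 k).differentiable one_ne_zero x
        have hv : DifferentiableAt ℝ (fun y => Θ' (F k y i)) x :=
          (hΘ'.comp (hcomp1 k)).differentiable one_ne_zero x
        have h3 := gr_mul_le (hχ1.differentiable one_ne_zero x) hv
        rw [theta_approx_gr_comp_aapprox hΘ' hu, abs_of_nonneg (h0 x)] at h3
        have h4 : |Θ' (F k x i)| * gr χ x = 0 := by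
          by_cases h5 : gr χ x = 0
          · rw [h5, mul_zero]
          · rw [hk x ⟨hx, subset_tsupport _ h5⟩, abs_zero, zero_mul]
        rw [h4, add_zero] at h3
        have h5 : gr (fun x => χ x * Θ' (F k x i)) x ≤
            (χ x * |deriv Θ' (F k x i)|) * sn (jac (F k) x) := by
          refine h3.trans ?_
          rw [← mul_assoc]
          apply mul_le_mul_of_nonneg_left (theta_approx_gr_le_sn_aapprox _ _ _)
          exact mul_nonneg (h0 x) (abs_nonneg _)
        rw [← mul_pow]
        exact pow_le_pow_left₀ (gr_nonneg _ _) h5 3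
      · exact ((continuous_gr (hgk k)).pow 3).continuousOn.integrableOn_compact
          (isCompact_closedBall a r)
      · exact (hIc k).continuousOn.integrableOn_compact (isCompact_closedBall a r)
    have hred : ∀ k, ∫ x in closedBall a r, (χ x * |deriv Θ' (F k x i)|) ^ 3 * sn (jac (F k) x) ^ 3
        = ∫ x in K, (χ x * |deriv Θ' (F k x i)|) ^ 3 * sn (jac (F k) x) ^ 3 := by
      intro k
      apply setIntegral_eq_of_subset_of_forall_sdiff_eq_zero isClosed_closedBall.measurableSet hKB
      intro x hx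
      have : x ∉ tsupport χ := fun h2 => hx.2 ⟨h2, hx.1⟩
      simp [hχ0 x this]
    have hred' : ∫ x in closedBall a r, (χ x * |deriv Θ (f x i)|) ^ 3 * sn (D x) ^ 3
        = ∫ x in K, (χ x * |deriv Θ (f x i)|) ^ 3 * sn (D x) ^ 3 := by
      apply setIntegral_eq_of_subset_of_forall_sdiff_eq_zero isClosed_closedBall.measurableSet hKB
      intro x hx
      have : x ∉ tsupport χ := fun h2 => hx.2 ⟨h2, hx.1⟩
      simp [hχ0 x this]
    have hlim : Tendsto (fun k => ∫ x in K, (χ x * |deriv Θ' (F k x i)|) ^ 3 * sn (jac (F k) x) ^ 3)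
        atTop (𝓝 (∫ x in K, (χ x * |deriv Θ (f x i)|) ^ 3 * sn (D x) ^ 3)) := by
      apply tendsto_integral_filter_of_dominated_convergence (fun x => B ^ 3 * Φ x)
      · exact Eventually.of_forall fun k => (hIc k).aestronglyMeasurable
      · filter_upwards [hB'] with k hk
        filter_upwards [ae_restrict_mem hKm, hΦb] with x hx hx2
        have hs := sn_nonneg (jac (F k) x)
        have h3 : 0 ≤ (χ x * |deriv Θ' (F k x i)|) ^ 3 * sn (jac (F k) x) ^ 3 := by
          have := h0 x
          positivity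
        rw [Real.norm_of_nonneg h3]
        have h4 : χ x * |deriv Θ' (F k x i)| ≤ B := by
          calc χ x * |deriv Θ' (F k x i)| ≤ 1 * |deriv Θ' (F k x i)| :=
                mul_le_mul_of_nonneg_right (h1 x) (abs_nonneg _)
            _ ≤ B := by rw [one_mul]; exact hk x hx
        apply mul_le_mul (pow_le_pow_left₀ (mul_nonneg (h0 x) (abs_nonneg _)) h4 3) (hx2 k)
          (by positivity)
        exact pow_nonneg ((mul_nonneg (h0 x) (abs_nonneg _)).trans h4) 3
      · exact hΦ.const_mul _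
      · filter_upwards [ae_restrict_mem hKm, hFj] with x hx hx2
        have h3 : Tendsto (fun k => F k x i) atTop (𝓝 (f x i)) := by
          rw [Metric.tendsto_atTop']
          intro ε hε
          obtain ⟨N, hN⟩ := eventually_atTop.1 (hclose ε hε)
          exact ⟨N, fun n hn => by rw [Real.dist_eq]; exact hN n hn.le x hx⟩
        have h4 : deriv Θ (f x i) = deriv Θ' (f x i) := by
          apply Filter.EventuallyEq.deriv_eq
          have h5 : f x i < (a0 + b) / 2 := by linarith [ha0 x hx]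
          filter_upwards [Iio_mem_nhds h5] with t ht
          exact (hΘe t (le_of_lt ht)).symm
        rw [h4]
        apply Tendsto.mul
        · apply Tendsto.pow
          apply Tendsto.mul tendsto_const_nhds
          exact ((hdc.tendsto _).comp h3).abs
        · exact ((continuous_sn.tendsto _).comp hx2).pow 3
    have hfinal := hlim.eventually (Iio_mem_nhds (lt_add_of_pos_right _ hδ))
    filter_upwards [hle, hfinal] with k hk1 hk2
    rw [hred']
    rw [hred k] at hk1
    exact hk1.trans (le_of_lt hk2)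

end

end Pool.Agent.Helper746.Rl
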