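import Pool.Agent.Helper930.BL.TrB
import Pool.Agent.Helper930.BL.Osc
import Pool.Agent.Helper746.RlADefs
import Pool.Agent.Helper746.RlAext

set_option autoImplicit false

namespace Pool.Agent.Helper746.Rl

open MeasureTheory Metric Set Filter Topology
open scoped ENNReal NNReal ContDiff
open H930.BL

noncomputable section

theorem ident_loc {f : E 3 → E 3} {D : E 3 → Matrix (Fin 3) (Fin 3) ℝ} {Ω : Set (E 3)}
    (h : FDMap f D Ω) {Ψ : ℝ → ℝ} {b : ℝ} (hΨ : ContDiffOn ℝ ∞ Ψ (Iio b)) {η : E 3 → ℝ}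
    (hη : ContDiff ℝ ∞ η) (hηc : HasCompactSupport η) (hηs : tsupport η ⊆ Ω) (i : Fin 3)
    (hb : ∀ x ∈ tsupport η, f x i < b) :
    ∫ x, η x * deriv Ψ (f x i) * (D x).det =
      - ∫ x, Ψ (f x i) * ∑ j, (D x).adjugate j i * pd η j x := by
  obtain ⟨a', ha'b, ha'⟩ : ∃ a' : ℝ, a' < b ∧ ∀ x ∈ tsupport η, f x i < a' := by
    rcases (tsupport η).eq_empty_or_nonempty with he | hne
    · refine ⟨b - 1, by linarith, ?_⟩
      intro x hx
      rw [he] at hx
      exact absurd hx (Set.notMem_empty x)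
    · have hc : ContinuousOn (fun x => f x i) (tsupport η) := by
        have h1 : ContinuousOn f (tsupport η) := h.cont.mono hηs
        exact (continuous_apply i).comp_continuousOn h1
      obtain ⟨x0, hx0, hmax⟩ := IsCompact.exists_isMaxOn hηc hne hc
      have hx0b := hb x0 hx0
      refine ⟨(f x0 i + b) / 2, by linarith, ?_⟩
      intro x hx
      have h2 : f x i ≤ f x0 i := hmax hx
      linarith
  obtain ⟨Ψ', hΨ'c, hΨ'e⟩ := ext_iio (n := ∞) le_rfl ha'b hΨ
  have hψ : ContDiff ℝ ∞ (fun y : E 3 => Ψ' (y i)) := hΨ'c.comp (contDiff_apply ℝ ℝ i)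
  have hpd : ∀ y : E 3, pd (fun y : E 3 => Ψ' (y i)) i y = deriv Ψ' (y i) := by
    intro y
    have h1 : HasDerivAt Ψ' (deriv Ψ' (y i)) (y i) :=
      ((hΨ'c.differentiable (by simp)) (y i)).hasDerivAt
    have h2 : HasFDerivAt (fun y : E 3 => y i)
        (ContinuousLinearMap.proj (R := ℝ) (φ := fun _ : Fin 3 => ℝ) i) y :=
      (ContinuousLinearMap.proj (R := ℝ) (φ := fun _ : Fin 3 => ℝ) i).hasFDerivAt
    have h3 := HasDerivAt.comp_hasFDerivAt y h1 h2
    unfold pd
    have h4 : fderiv ℝ (fun y : E 3 => Ψ' (y i)) y = _ := h3.fderiv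
    rw [h4]
    simp
  have key := h.ident η hη hηc hηs (fun y : E 3 => Ψ' (y i)) hψ i
  have hL : ∫ x, η x * deriv Ψ (f x i) * (D x).det =
      ∫ x, η x * pd (fun y : E 3 => Ψ' (y i)) i (f x) * (D x).det := by
    refine integral_congr_ae (Eventually.of_forall fun x => ?_)
    beta_reduce
    by_cases hx : x ∈ tsupport η
    · rw [hpd]
      have h5 : Ψ' =ᶠ[𝓝 (f x i)] Ψ := by
        filter_upwards [Iio_mem_nhds (ha' x hx)] with s hs
        exact hΨ'e s (le_of_lt hs)
      rw [h5.deriv_eq]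
    · rw [image_eq_zero_of_notMem_tsupport hx]
      simp
  have hR : ∫ x, Ψ (f x i) * ∑ j, (D x).adjugate j i * pd η j x =
      ∫ x, (fun y : E 3 => Ψ' (y i)) (f x) * ∑ j, (D x).adjugate j i * pd η j x := by
    refine integral_congr_ae (Eventually.of_forall fun x => ?_)
    beta_reduce
    by_cases hx : x ∈ tsupport η
    · rw [hΨ'e _ (ha' x hx).le]
    · simp [pd_eq_zero_of_notMem hx]
  rw [hL, hR]
  exact key

end

end Pool.Agent.Helper746.Rl
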