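import Pool.Agent.Helper930.BL.TrB
import Pool.Agent.Helper930.BL.Osc
import Pool.Agent.Helper746.RlADefs
import Pool.Agent.Helper746.RlAident

set_option autoImplicit false

namespace Pool.Agent.Helper746.Rl

open MeasureTheory Metric Set Filter Topology
open scoped ENNReal NNReal ContDiff
open H930.BL

noncomputable section

lemma cacc_two_acacc {p q r t s : ℝ} (h : |p| + |q| + |r| + |t| ≤ s) : |p * q - r * t| ≤ s ^ 2 := by
  have h1 : |p * q - r * t| ≤ |p| * |q| + |r| * |t| := by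
    rw [← abs_mul, ← abs_mul]; exact abs_sub _ _
  have hp := abs_nonneg p
  have hq := abs_nonneg q
  have hr := abs_nonneg r
  have ht := abs_nonneg t
  have h2 : |p| * |q| + |r| * |t| ≤ (|p| + |q| + |r| + |t|) ^ 2 := by nlinarith [mul_nonneg hp hq, mul_nonneg hr ht, mul_nonneg hp hr, mul_nonneg hp ht, mul_nonneg hq hr, mul_nonneg hq ht, sq_nonneg |p|, sq_nonneg |q|, sq_nonneg |r|, sq_nonneg |t|]
  have h3 : (|p| + |q| + |r| + |t|) ^ 2 ≤ s ^ 2 := pow_le_pow_left₀ (by positivity) h 2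
  linarith

lemma cacc_two'_acacc {p q r t s : ℝ} (h : |p| + |q| + |r| + |t| ≤ s) : |-(p * q) + r * t| ≤ s ^ 2 := by
  have : -(p * q) + r * t = -(p * q - r * t) := by ring
  rw [this, abs_neg]; exact cacc_two_acacc h

lemma cacc_adj_acacc (M : Matrix (Fin 3) (Fin 3) ℝ) (i j : Fin 3) : |M.adjugate j i| ≤ sn M ^ 2 := by
  have e : sn M = |M 0 0| + |M 0 1| + |M 0 2| + (|M 1 0| + |M 1 1| + |M 1 2|)
      + (|M 2 0| + |M 2 1| + |M 2 2|) := by
    unfold sn; simp [Fin.sum_univ_three]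
  have h00 := abs_nonneg (M 0 0)
  have h01 := abs_nonneg (M 0 1)
  have h02 := abs_nonneg (M 0 2)
  have h10 := abs_nonneg (M 1 0)
  have h11 := abs_nonneg (M 1 1)
  have h12 := abs_nonneg (M 1 2)
  have h20 := abs_nonneg (M 2 0)
  have h21 := abs_nonneg (M 2 1)
  have h22 := abs_nonneg (M 2 2)
  rw [Matrix.adjugate_fin_three]
  fin_cases i <;> fin_cases j <;> simp only [Matrix.of_apply, Matrix.cons_val', Matrix.cons_val_zero,
    Matrix.cons_val_one, Matrix.cons_val, Fin.isValue, Fin.zero_eta, Fin.mk_one, Fin.reduceFinMk] <;>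
    first
      | (apply cacc_two_acacc; linarith)
      | (apply cacc_two'_acacc; linarith)

lemma cacc_young_acacc {κ L Y W : ℝ} (hκ : 0 < κ) (hL : 0 ≤ L) (hY : 0 ≤ Y) (hW : 0 ≤ W)
    (h : Y ^ 3 ≤ W ^ 2) : 3 * Y * L ≤ W / (2 * κ) + 108 * κ ^ 2 * L ^ 3 := by
  obtain ⟨A, hA, hAW⟩ : ∃ A : ℝ, 0 ≤ A ∧ A ^ 3 = W := by
    refine ⟨W ^ ((1:ℝ)/3), Real.rpow_nonneg hW _, ?_⟩
    rw [← Real.rpow_natCast, ← Real.rpow_mul hW]
    norm_num
  have hYA : Y ≤ A ^ 2 := by
    have : Y ^ 3 ≤ (A ^ 2) ^ 3 := by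
      calc Y ^ 3 ≤ W ^ 2 := h
        _ = (A ^ 2) ^ 3 := by rw [← hAW]; ring
    exact le_of_pow_le_pow_left₀ (by norm_num) (by positivity) this
  rw [← hAW]
  have h1 : 3 * Y * L ≤ 3 * A ^ 2 * L := by nlinarith
  refine h1.trans ?_
  rcases le_total (6 * κ * L) A with h2 | h2
  · have h3 : 3 * A ^ 2 * L ≤ A ^ 3 / (2 * κ) := by
      rw [le_div_iff₀ (by positivity)]
      have := mul_le_mul_of_nonneg_left h2 (by positivity : 0 ≤ A ^ 2)
      nlinarith
    have : 0 ≤ 108 * κ ^ 2 * L ^ 3 := by positivity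
    linarith
  · have h3 : A ^ 2 ≤ (6 * κ * L) ^ 2 := pow_le_pow_left₀ hA h2 2
    have h4 : 3 * A ^ 2 * L ≤ 108 * κ ^ 2 * L ^ 3 := by
      have := mul_le_mul_of_nonneg_right h3 (by positivity : 0 ≤ 3 * L)
      nlinarith
    have : 0 ≤ A ^ 3 / (2 * κ) := by positivity
    linarith

lemma cacc_pd_acacc {η : E 3 → ℝ} (hη : ContDiff ℝ ∞ η) (j : Fin 3) (x : E 3) :
    pd (fun y => η y ^ 3) j x = 3 * η x ^ 2 * pd η j x := by
  have hd : DifferentiableAt ℝ η x := (hη.differentiable (by simp)) x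
  unfold pd
  rw [fderiv_fun_pow 3 hd]
  simp

theorem cacc {κ : ℝ} (hκ : 0 < κ) : ∃ C : ℝ, 0 < C ∧ ∀ (f : E 3 → E 3)
    (D : E 3 → Matrix (Fin 3) (Fin 3) ℝ) (Ω : Set (E 3)), QRM f D Ω κ →
    ∀ (i : Fin 3) (Ψ : ℝ → ℝ) (b : ℝ), ContDiffOn ℝ ∞ Ψ (Iio b) →
    (∀ s < b, 0 ≤ Ψ s ∧ 0 ≤ deriv Ψ s ∧ Ψ s ^ 3 ≤ deriv Ψ s ^ 2) →
    ∀ η : E 3 → ℝ, ContDiff ℝ ∞ η → HasCompactSupport η → tsupport η ⊆ Ω →
    (∀ x, 0 ≤ η x) → (∀ x ∈ tsupport η, f x i < b) →
    ∀ (a : E 3) (R L : ℝ), 0 < R → 0 ≤ L → tsupport η ⊆ closedBall a R →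
    (∀ x ∈ tsupport η, Ψ (f x i) ≠ 0 → gr η x ≤ L) →
    Integrable (fun x => η x ^ 3 * deriv Ψ (f x i) * (D x).det) ∧
      ∫ x, η x ^ 3 * deriv Ψ (f x i) * (D x).det ≤ C * (L * R) ^ 3 := by
  refine ⟨16 * (108 * κ ^ 2) + 1, by positivity, ?_⟩
  intro f D Ω h i Ψ b hΨ hP η hη hηc hηΩ hη0 hηb a R L hR hL hηR hgr
  set K := tsupport η with hK
  have hKc : IsCompact K := hηc
  have hKm : MeasurableSet K := hKc.isClosed.measurableSet
  have hfK : ContinuousOn (fun x => f x i) K := by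
    have := h.fd.cont.mono hηΩ
    exact (continuous_apply i).comp_continuousOn this
  have hcont : ContinuousOn (fun x => η x ^ 3 * deriv Ψ (f x i)) K := by
    apply ContinuousOn.mul (hη.continuous.pow 3).continuousOn
    have h1 : ContinuousOn (deriv Ψ) (Iio b) := hΨ.continuousOn_deriv_of_isOpen isOpen_Iio (by simp)
    exact h1.comp hfK fun x hx => hηb x hx
  have hint : Integrable (fun x => η x ^ 3 * deriv Ψ (f x i) * (D x).det) := by
    have h1 : IntegrableOn (fun x => η x ^ 3 * deriv Ψ (f x i) * (D x).det) K :=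
      (h.fd.det_int K hKc hηΩ).continuousOn_mul hcont hKc
    refine (integrableOn_iff_integrable_of_support_subset ?_).1 h1
    intro x hx
    apply subset_tsupport η
    intro h2
    apply hx
    simp [h2]
  refine ⟨hint, ?_⟩
  -- the identity with the third power
  have h3s : tsupport (fun y => η y ^ 3) ⊆ K := by
    apply closure_mono
    intro x hx h2
    apply hx
    simp [h2]
  have hη3 : ContDiff ℝ ∞ (fun y => η y ^ 3) := hη.pow 3
  have h3c : HasCompactSupport (fun y => η y ^ 3) := hKc.of_isClosed_subset (isClosed_tsupport _) h3s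
  have hid := ident_loc h.fd hΨ hη3 h3c (h3s.trans hηΩ) i (fun x hx => hηb x (h3s hx))
  have hvol : (volume K).toReal ≤ (2 * R) ^ 3 := by
    have h1 : volume K ≤ ENNReal.ofReal ((2 * R) ^ 3) := by
      rw [← volume_cube a hR.le]; exact measure_mono hηR
    exact ENNReal.toReal_le_of_le_ofReal (by positivity) h1
  have hvolfin : volume K ≠ ⊤ := hKc.measure_lt_top.ne
  have hbint : Integrable (fun x => (1/2) * (η x ^ 3 * deriv Ψ (f x i) * (D x).det)
      + K.indicator (fun _ => 108 * κ ^ 2 * L ^ 3) x) := by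
    refine (hint.const_mul _).add ?_
    rw [integrable_indicator_iff hKm]
    exact integrableOn_const hvolfin
  have hpos := (ae_restrict_iff' h.fd.isOpen.measurableSet).1 h.fd.pos
  have hqr := (ae_restrict_iff' h.fd.isOpen.measurableSet).1 h.qr
  have hbd : ∀ᵐ x : E 3, ‖Ψ (f x i) * ∑ j, (D x).adjugate j i * pd (fun y => η y ^ 3) j x‖ ≤
      (1/2) * (η x ^ 3 * deriv Ψ (f x i) * (D x).det)
      + K.indicator (fun _ => 108 * κ ^ 2 * L ^ 3) x := by
    filter_upwards [hpos, hqr] with x hx1 hx2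
    by_cases hxK : x ∈ K
    · have hxΩ := hηΩ hxK
      have hdet := (hx1 hxΩ).1
      have hsn := hx2 hxΩ
      have hxb := hηb x hxK
      obtain ⟨hP0, hP1, hP2⟩ := hP _ hxb
      rw [indicator_of_mem hxK]
      have he := hη0 x
      have hC0 : 0 ≤ 108 * κ ^ 2 * L ^ 3 := by positivity
      have hg0 : 0 ≤ (1/2) * (η x ^ 3 * deriv Ψ (f x i) * (D x).det) := by positivity
      by_cases hPz : Ψ (f x i) = 0
      · rw [hPz]; simp only [zero_mul, norm_zero]; linarith
      · have hgL := hgr x hxK hPz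
        have hs0 := sn_nonneg (D x)
        have hg0' := gr_nonneg η x
        have h5 : |∑ j, (D x).adjugate j i * pd (fun y => η y ^ 3) j x| ≤
            3 * η x ^ 2 * gr η x * sn (D x) ^ 2 := by
          refine (Finset.abs_sum_le_sum_abs _ _).trans ?_
          unfold gr
          rw [Finset.mul_sum, Finset.sum_mul]
          refine Finset.sum_le_sum fun j _ => ?_
          rw [cacc_pd_acacc hη, abs_mul, abs_mul, abs_of_nonneg (by positivity : 0 ≤ 3 * η x ^ 2)]
          have h6 := cacc_adj_acacc (D x) i j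
          have h7 : 0 ≤ 3 * η x ^ 2 * |pd η j x| := by positivity
          calc |(D x).adjugate j i| * (3 * η x ^ 2 * |pd η j x|)
              ≤ sn (D x) ^ 2 * (3 * η x ^ 2 * |pd η j x|) := mul_le_mul_of_nonneg_right h6 h7
            _ = _ := by ring
        rw [Real.norm_eq_abs, abs_mul, abs_of_nonneg hP0]
        have h8 : Ψ (f x i) * |∑ j, (D x).adjugate j i * pd (fun y => η y ^ 3) j x| ≤
            3 * (Ψ (f x i) * η x ^ 2 * sn (D x) ^ 2) * L := by
          calc _ ≤ Ψ (f x i) * (3 * η x ^ 2 * gr η x * sn (D x) ^ 2) :=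
                mul_le_mul_of_nonneg_left h5 hP0
            _ = 3 * (Ψ (f x i) * η x ^ 2 * sn (D x) ^ 2) * gr η x := by ring
            _ ≤ _ := mul_le_mul_of_nonneg_left hgL (by positivity)
        refine h8.trans ?_
        have h9 := cacc_young_acacc (κ := κ) (L := L) (Y := Ψ (f x i) * η x ^ 2 * sn (D x) ^ 2)
          (W := κ * (η x ^ 3 * deriv Ψ (f x i) * (D x).det)) hκ hL (by positivity) (by positivity) (by
            calc (Ψ (f x i) * η x ^ 2 * sn (D x) ^ 2) ^ 3
                = (Ψ (f x i) ^ 3) * (η x ^ 6 * (sn (D x) ^ 3) ^ 2) := by ring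
              _ ≤ (deriv Ψ (f x i) ^ 2) * (η x ^ 6 * (κ * (D x).det) ^ 2) := by
                  apply mul_le_mul hP2 _ (by positivity) (by positivity)
                  apply mul_le_mul_of_nonneg_left _ (by positivity)
                  exact pow_le_pow_left₀ (by positivity) hsn 2
              _ = _ := by ring)
        have h10 : κ * (η x ^ 3 * deriv Ψ (f x i) * (D x).det) / (2 * κ)
            = (1/2) * (η x ^ 3 * deriv Ψ (f x i) * (D x).det) := by
          field_simp
        rw [h10] at h9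
        exact h9
    · have hη0x : η x = 0 := by
        by_contra h2
        exact hxK (subset_tsupport η h2)
      have h5 : ∀ j, pd (fun y => η y ^ 3) j x = 0 := by
        intro j
        rw [cacc_pd_acacc hη, hη0x]; simp
      simp [h5, hη0x, indicator_of_notMem hxK]
  have hfin := norm_integral_le_of_norm_le hbint hbd
  rw [integral_add (hint.const_mul _), integral_const_mul, integral_indicator hKm,
    setIntegral_const] at hfin
  · have h11 : |∫ x, Ψ (f x i) * ∑ j, (D x).adjugate j i * pd (fun y => η y ^ 3) j x| =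
        |∫ x, η x ^ 3 * deriv Ψ (f x i) * (D x).det| := by
      rw [hid, abs_neg]
    rw [Real.norm_eq_abs, h11] at hfin
    have h12 := le_abs_self (∫ x, η x ^ 3 * deriv Ψ (f x i) * (D x).det)
    have h13 : volume.real K • (108 * κ ^ 2 * L ^ 3) ≤ (2 * R) ^ 3 * (108 * κ ^ 2 * L ^ 3) := by
      rw [smul_eq_mul]
      exact mul_le_mul_of_nonneg_right hvol (by positivity)
    have h14 : 0 ≤ (L * R) ^ 3 := by positivity
    have h15 : (2 * R) ^ 3 * (108 * κ ^ 2 * L ^ 3) = 8 * (108 * κ ^ 2) * (L * R) ^ 3 := by ring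
    nlinarith
  · rw [integrable_indicator_iff hKm]
    exact integrableOn_const hvolfin

end

end Pool.Agent.Helper746.Rl
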