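import Pool.Agent.Helper930.BL.TrB
import Pool.Agent.Helper930.BL.Osc
import Pool.Agent.Helper746.RlADefs

set_option autoImplicit false

namespace Pool.Agent.Helper746.Rl

open MeasureTheory Metric Set Filter Topology
open scoped ENNReal NNReal ContDiff
open H930.BL

noncomputable section

theorem single3 : ∃ C : ℝ, 0 < C ∧ ∀ g : E 3 → ℝ, ContDiff ℝ 1 g → ∀ (a : E 3) (h : ℝ),
    0 < h → ∃ s ∈ Ioo h (2 * h), ∀ y ∈ sphere a s, ∀ y' ∈ sphere a s,
      |g y - g y'| ^ 3 ≤ C * ∫ x in closedBall a (2 * h), gr g x ^ 3 := by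
  obtain ⟨C1, hC1, P⟩ := poincare_cube (n := 3) (by norm_num) (p := 3) (by norm_num)
  obtain ⟨C2, hC2, Fs⟩ := face_sup (m := 2) (by norm_num) (p := 3) (by norm_num)
  refine ⟨8 * C2 * (24 * C1 + 27), by positivity, fun g hg a h hh => ?_⟩
  obtain ⟨c, hc⟩ := P g hg a (2 * h) (by positivity)
  have hpow : ∀ t : ℝ, t ^ (3 : ℝ) = t ^ 3 := fun t => by
    rw [show (3 : ℝ) = ((3 : ℕ) : ℝ) by norm_num, Real.rpow_natCast]
  simp only [hpow] at hc
  have hv : ContDiff ℝ 1 (fun x : E 3 => fun _ : Fin 3 => g x - c) :=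
    contDiff_pi.2 fun _ => hg.sub contDiff_const
  obtain ⟨s, hs, Hs⟩ := Fs (fun x _ => g x - c) hv a h h hh le_rfl
  refine ⟨s, hs, ?_⟩
  have hneg : h ^ (-((2 : ℕ) : ℝ)) = (h ^ 2)⁻¹ := by
    rw [Real.rpow_neg hh.le, Real.rpow_natCast]
  have hone : h ^ ((3 : ℝ) - ((2 : ℕ) : ℝ)) = h := by
    rw [show ((3 : ℝ) - ((2 : ℕ) : ℝ)) = 1 by norm_num, Real.rpow_one]
  have hI1 : (∫ x in closedBall a (2 * h), ∑ _i : Fin 3, |g x - c| ^ 3)
      = 3 * ∫ x in closedBall a (2 * h), |g x - c| ^ 3 := by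
    rw [← integral_const_mul]
    congr 1
    funext x
    simp
  have hsn : ∀ x : E 3, sn (jac (fun x : E 3 => fun _ : Fin 3 => g x - c) x) = 3 * gr g x := by
    intro x
    unfold sn jac gr
    simp [pd_sub_const]
  have hI2 : (∫ x in closedBall a (2 * h),
      sn (jac (fun x : E 3 => fun _ : Fin 3 => g x - c) x) ^ 3)
      = 27 * ∫ x in closedBall a (2 * h), gr g x ^ 3 := by
    rw [← integral_const_mul]
    congr 1
    funext x
    rw [hsn]
    ring
  set I := ∫ x in closedBall a (2 * h), gr g x ^ 3 with hI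
  have hI0 : 0 ≤ I := integral_nonneg fun x => pow_nonneg (gr_nonneg g x) 3
  have key : ∀ y ∈ sphere a s, |g y - c| ^ 3 ≤ C2 * (24 * C1 + 27) * I := by
    intro y hy
    have h1 := Hs y hy 0
    simp only [hpow] at h1
    have h1' : |g y - c| ^ 3 ≤ C2 / h * (h ^ (-((2 : ℕ) : ℝ)) *
        (∫ x in closedBall a (2 * h), ∑ _i : Fin 3, |g x - c| ^ 3) +
        h ^ ((3 : ℝ) - ((2 : ℕ) : ℝ)) * ∫ x in closedBall a (2 * h),
      sn (jac (fun x : E 3 => fun _ : Fin 3 => g x - c) x) ^ 3) := h1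
    rw [hneg, hone, hI1, hI2] at h1'
    have h2 : C2 / h * ((h ^ 2)⁻¹ * (3 * ∫ x in closedBall a (2 * h), |g x - c| ^ 3) +
        h * (27 * I)) ≤ C2 / h * ((h ^ 2)⁻¹ * (3 * (C1 * (2 * h) ^ 3 * I)) + h * (27 * I)) := by
      gcongr
    refine (h1'.trans h2).trans (le_of_eq ?_)
    field_simp
    ring
  intro y hy y' hy'
  have e1 := key y hy
  have e2 := key y' hy'
  have t1 : |g y - g y'| ≤ |g y - c| + |g y' - c| := by
    have : g y - g y' = (g y - c) - (g y' - c) := by ring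
    rw [this]
    exact abs_sub _ _
  have t2 : |g y - g y'| ^ 3 ≤ (|g y - c| + |g y' - c|) ^ 3 :=
    pow_le_pow_left₀ (abs_nonneg _) t1 3
  have t3 : (|g y - c| + |g y' - c|) ^ 3 ≤ 4 * (|g y - c| ^ 3 + |g y' - c| ^ 3) := by
    have a0 := abs_nonneg (g y - c)
    have b0 := abs_nonneg (g y' - c)
    nlinarith [mul_nonneg (add_nonneg a0 b0) (sq_nonneg (|g y - c| - |g y' - c|))]
  nlinarith

end

end Pool.Agent.Helper746.Rl
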