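import Pool.Agent.Helper930.BL.TrB
import Pool.Agent.Helper930.BL.Osc
import Pool.Agent.Helper746.RlADefs
import Pool.Agent.Helper746.RlAsingle

set_option autoImplicit false

namespace Pool.Agent.Helper746.Rl

open MeasureTheory Metric Set Filter Topology
open scoped ENNReal NNReal ContDiff
open H930.BL

noncomputable section

theorem osc_lim : ∃ C : ℝ, 0 < C ∧ ∀ (g : E 3 → ℝ) (gk : ℕ → E 3 → ℝ) (a : E 3) (h X : ℝ),
    0 < h → 0 ≤ X → (∀ k, ContDiff ℝ 1 (gk k)) →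
    TendstoUniformlyOn gk g atTop (closedBall a (2 * h)) →
    (∀ δ : ℝ, 0 < δ → ∀ᶠ k in atTop,
      ∫ x in closedBall a (2 * h), gr (gk k) x ^ 3 ≤ X ^ 3 + δ) →
    ∀ ε : ℝ, 0 < ε → ∃ s ∈ Ioo h (2 * h), ∀ y ∈ sphere a s, ∀ y' ∈ sphere a s,
      |g y - g y'| ≤ C * X + ε := by
  obtain ⟨C0, hC0, h3⟩ := single3
  obtain ⟨c, hc0, hc3⟩ : ∃ c : ℝ, 0 < c ∧ c ^ 3 = C0 := by
    refine ⟨C0 ^ ((1 : ℝ) / 3), Real.rpow_pos_of_pos hC0 _, ?_⟩
    rw [← Real.rpow_natCast, ← Real.rpow_mul hC0.le]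
    norm_num
  refine ⟨c + 1, by linarith, ?_⟩
  intro g gk a h X hh hX hgk hunif hint ε hε
  obtain ⟨d, hd⟩ : ∃ d : ℝ, d = ε / (4 * (c + 1)) := ⟨_, rfl⟩
  have hd0 : 0 < d := by
    rw [hd]
    positivity
  have hcd : c * d ≤ ε / 4 := by
    have h1 : (c + 1) * d = ε / 4 := by
      rw [hd]
      field_simp
    nlinarith
  have hev1 := hint (d ^ 3) (pow_pos hd0 3)
  have hev2 := (Metric.tendstoUniformlyOn_iff.1 hunif) (ε / 4) (by linarith)
  obtain ⟨k, hk1, hk2⟩ := (hev1.and hev2).exists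
  obtain ⟨s, hs, hosc⟩ := h3 (gk k) (hgk k) a h hh
  refine ⟨s, hs, fun y hy y' hy' => ?_⟩
  have hsub : ∀ z ∈ sphere a s, z ∈ closedBall a (2 * h) := by
    intro z hz
    rw [mem_closedBall]
    rw [mem_sphere] at hz
    rw [hz]
    exact hs.2.le
  have e1 := hosc y hy y' hy'
  have e2 : C0 * ∫ x in closedBall a (2 * h), gr (gk k) x ^ 3 ≤ (c * (X + d)) ^ 3 := by
    have e3 : C0 * ∫ x in closedBall a (2 * h), gr (gk k) x ^ 3 ≤ C0 * (X ^ 3 + d ^ 3) :=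
      mul_le_mul_of_nonneg_left hk1 hC0.le
    have e4 : C0 * (X ^ 3 + d ^ 3) ≤ (c * (X + d)) ^ 3 := by
      rw [mul_pow, hc3]
      refine mul_le_mul_of_nonneg_left ?_ hC0.le
      have e5 : 0 ≤ 3 * X ^ 2 * d + 3 * X * d ^ 2 := by positivity
      nlinarith
    exact e3.trans e4
  have e6 : |gk k y - gk k y'| ≤ c * (X + d) :=
    (pow_le_pow_iff_left₀ (abs_nonneg _) (by positivity) three_ne_zero).1 (e1.trans e2)
  have f1 := hk2 y (hsub y hy)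
  have f2 := hk2 y' (hsub y' hy')
  rw [Real.dist_eq] at f1 f2
  have f3 := abs_lt.1 f1
  have f4 := abs_lt.1 f2
  have f5 := abs_le.1 e6
  have f6 : c * (X + d) ≤ (c + 1) * X + ε / 4 := by nlinarith
  rw [abs_le]
  constructor <;> linarith [f3.1, f3.2, f4.1, f4.2, f5.1, f5.2]

end

end Pool.Agent.Helper746.Rl
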