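import Pool.Agent.Helper930.BL.TrB
import Pool.Agent.Helper930.BL.Osc
import Pool.Agent.Helper746.RlADefs
import Pool.Agent.Helper746.RlAint3
import Pool.Agent.Helper746.RlAcacc
import Pool.Agent.Helper746.RlAapprox
import Pool.Agent.Helper746.RlAosclim

set_option autoImplicit false

namespace Pool.Agent.Helper746.Rl

open MeasureTheory Metric Set Filter Topology
open scoped ENNReal NNReal ContDiff
open H930.BL

noncomputable section

theorem osc_theta {κ : ℝ} (hκ : 0 < κ) : ∃ C : ℝ, 0 < C ∧ ∀ (f : E 3 → E 3)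
    (D : E 3 → Matrix (Fin 3) (Fin 3) ℝ) (Ω : Set (E 3)), QRM f D Ω κ →
    ∀ (i : Fin 3) (Ψ Θ : ℝ → ℝ) (b : ℝ), ContDiffOn ℝ ∞ Ψ (Iio b) →
    ContDiffOn ℝ 1 Θ (Iio b) →
    (∀ s < b, 0 ≤ Ψ s ∧ 0 ≤ deriv Ψ s ∧ Ψ s ^ 3 ≤ deriv Ψ s ^ 2 ∧
      |deriv Θ s| ^ 3 ≤ deriv Ψ s) →
    ∀ χ : E 3 → ℝ, ContDiff ℝ ∞ χ → HasCompactSupport χ → tsupport χ ⊆ Ω →
    (∀ x, 0 ≤ χ x) → (∀ x, χ x ≤ 1) → ∀ (a : E 3) (h : ℝ), 0 < h →
    (∀ x ∈ tsupport χ ∩ closedBall a (3 * h), f x i < b) →
    (∀ x ∈ closedBall a (3 * h), x ∈ tsupport (gr χ) →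
      ∀ᶠ s in 𝓝 (f x i), Ψ s = 0 ∧ Θ s = 0) →
    ∀ ε : ℝ, 0 < ε → ∃ s ∈ Ioo h (2 * h), ∀ y ∈ sphere a s, ∀ y' ∈ sphere a s,
      |χ y * Θ (f y i) - χ y' * Θ (f y' i)| ≤ C + ε := by
  obtain ⟨C1, hC1, hcacc⟩ := cacc hκ
  obtain ⟨C0, hC0, hcut⟩ := cutoff 3
  obtain ⟨C2, hC2, hosc⟩ := osc_lim
  have hX3nn : 0 ≤ κ * C1 * (3 * C0) ^ 3 := by positivity
  obtain ⟨X, hX, hX3⟩ : ∃ X : ℝ, 0 ≤ X ∧ X ^ 3 = κ * C1 * (3 * C0) ^ 3 := by
    refine ⟨(κ * C1 * (3 * C0) ^ 3) ^ ((1:ℝ)/3), Real.rpow_nonneg hX3nn _, ?_⟩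
    rw [← Real.rpow_natCast, ← Real.rpow_mul hX3nn]
    norm_num
  refine ⟨C2 * X + 1, by positivity, ?_⟩
  intro f D Ω hq i Ψ Θ b hΨ hΘ hP χ hχ hχc hχs h0 h1 a h hh hb hsep ε hε
  obtain ⟨η0, hη0, he0, he1, hin, hout, hgr⟩ := hcut a (2 * h) h (by positivity) hh
  have h3h : 2 * h + h = 3 * h := by ring
  rw [h3h] at hout hgr
  have hgr' : ∀ x, gr η0 x ≤ C0 / h := by
    intro x
    refine (hgr x).trans ?_
    apply indicator_le' (fun _ _ => le_rfl) (fun _ _ => by positivity)
  set η : E 3 → ℝ := fun x => χ x * η0 x with hη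
  have hηs : ContDiff ℝ ∞ η := hχ.mul hη0
  have hts : tsupport η ⊆ tsupport χ ∩ closedBall a (3 * h) := by
    apply closure_minimal _ ((isClosed_tsupport χ).inter isClosed_closedBall)
    intro x hx
    constructor
    · apply subset_tsupport χ
      intro h2
      exact hx (by simp [hη, h2])
    · by_contra h2
      exact hx (by simp [hη, hout x h2])
  have hηc : HasCompactSupport η := IsCompact.of_isClosed_subset hχc (isClosed_tsupport _)
    (hts.trans inter_subset_left)
  have hχd : Differentiable ℝ χ := hχ.differentiable (by simp)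
  have hη0d : Differentiable ℝ η0 := hη0.differentiable (by simp)
  obtain ⟨hint, hle⟩ := hcacc f D Ω hq i Ψ b hΨ (fun s hs => ⟨(hP s hs).1, (hP s hs).2.1, (hP s hs).2.2.1⟩)
    η hηs hηc (hts.trans (inter_subset_left.trans hχs)) (fun x => mul_nonneg (h0 x) (he0 x))
    (fun x hx => hb x (hts hx)) a (3 * h) (C0 / h) (by positivity) (by positivity)
    (hts.trans inter_subset_right) (by
      intro x hx hΨx
      have hx2 := (hts hx).2
      have h5 : gr χ x = 0 := by
        by_contra h6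
        exact hΨx ((hsep x hx2 (subset_tsupport _ h6)).self_of_nhds).1
      have h6 := gr_mul_le (hχd x) (hη0d x)
      rw [h5, mul_zero, add_zero, abs_of_nonneg (h0 x)] at h6
      refine h6.trans ?_
      calc χ x * gr η0 x ≤ 1 * gr η0 x := mul_le_mul_of_nonneg_right (h1 x) (gr_nonneg _ _)
        _ ≤ C0 / h := by rw [one_mul]; exact hgr' x)
  have h2h3h : closedBall a (2 * h) ⊆ closedBall a (3 * h) := closedBall_subset_closedBall (by linarith)
  obtain ⟨gk, hgk1, hgk2, hgk3⟩ := theta_approx hq i hΘ hχ hχc hχs h0 h1 (a := a) (r := 2 * h)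
    (by positivity) (fun x hx => hb x ⟨hx.1, h2h3h hx.2⟩)
    (fun x hx hx2 => (hsep x (h2h3h hx) hx2).mono fun s hs => hs.2)
  have hpos := (ae_restrict_iff' hq.fd.isOpen.measurableSet).1 hq.fd.pos
  have hqr := (ae_restrict_iff' hq.fd.isOpen.measurableSet).1 hq.qr
  have hGX : ∫ x in closedBall a (2 * h), (χ x * |deriv Θ (f x i)|) ^ 3 * sn (D x) ^ 3 ≤ X ^ 3 := by
    rw [← integral_indicator isClosed_closedBall.measurableSet]
    have h8 : ∫ x, (closedBall a (2 * h)).indicator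
        (fun x => (χ x * |deriv Θ (f x i)|) ^ 3 * sn (D x) ^ 3) x ≤
        ∫ x, κ * (η x ^ 3 * deriv Ψ (f x i) * (D x).det) := by
      apply integral_mono_of_nonneg
      · refine Eventually.of_forall fun x => ?_
        apply indicator_nonneg
        intro y _
        have h9 := h0 y
        have h10 := sn_nonneg (D y)
        positivity
      · exact hint.const_mul _
      · filter_upwards [hpos, hqr] with x hx1 hx2
        have hg0 : 0 ≤ κ * (η x ^ 3 * deriv Ψ (f x i) * (D x).det) := by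
          by_cases h9 : η x = 0
          · simp [h9]
          · have h10 := hts (subset_tsupport η h9)
            have h11 := (hP _ (hb x h10)).2.1
            have h12 := (hx1 (hχs h10.1)).1
            have h13 : 0 ≤ η x := mul_nonneg (h0 x) (he0 x)
            positivity
        by_cases hxB : x ∈ closedBall a (2 * h)
        · rw [indicator_of_mem hxB]
          have hηx : η x = χ x := by simp only [hη, hin x hxB, mul_one]
          by_cases h9 : χ x = 0
          · simp [hηx, h9]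
          · have h10 : x ∈ tsupport χ := subset_tsupport χ h9
            have hxb := hb x ⟨h10, h2h3h hxB⟩
            obtain ⟨hP0, hP1, hP2, hP3⟩ := hP _ hxb
            have h12 := (hx1 (hχs h10)).1
            have h13 := hx2 (hχs h10)
            have h14 := h0 x
            have h15 := sn_nonneg (D x)
            rw [hηx]
            calc (χ x * |deriv Θ (f x i)|) ^ 3 * sn (D x) ^ 3
                = χ x ^ 3 * (|deriv Θ (f x i)| ^ 3 * sn (D x) ^ 3) := by ring
              _ ≤ χ x ^ 3 * (deriv Ψ (f x i) * (κ * (D x).det)) := by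
                  apply mul_le_mul_of_nonneg_left _ (by positivity)
                  exact mul_le_mul hP3 h13 (by positivity) hP1
              _ = _ := by ring
        · rw [indicator_of_notMem hxB]; exact hg0
    refine h8.trans ?_
    rw [integral_const_mul, hX3]
    have h9 : C1 * (C0 / h * (3 * h)) ^ 3 = C1 * (3 * C0) ^ 3 := by
      have : C0 / h * (3 * h) = 3 * C0 := by field_simp
      rw [this]
    rw [h9] at hle
    calc _ ≤ κ * (C1 * (3 * C0) ^ 3) := mul_le_mul_of_nonneg_left hle hκ.le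
      _ = _ := by ring
  obtain ⟨s, hs, hs2⟩ := hosc (fun x => χ x * Θ (f x i)) gk a h X hh hX hgk1 hgk2 (by
    intro δ hδ
    filter_upwards [hgk3 δ hδ] with k hk
    linarith) ε hε
  exact ⟨s, hs, fun y hy y' hy' => (hs2 y hy y' hy').trans (by linarith)⟩

end

end Pool.Agent.Helper746.Rl
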