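import Pool.Agent.Helper930.BL.TrB
import Pool.Agent.Helper930.BL.Osc
import Pool.Agent.Helper746.RlADefs
import Pool.Agent.Helper746.RlAtheta

set_option autoImplicit false

namespace Pool.Agent.Helper746.Rl

open MeasureTheory Metric Set Filter Topology
open scoped ENNReal NNReal ContDiff
open H930.BL

noncomputable section

theorem hs_psi_aharn {M s : ℝ} (hs : s < M) :
    HasDerivAt (fun s : ℝ => 1 / 2 * ((M - s) ^ 2)⁻¹) (((M - s) ^ 3)⁻¹) s := by
  have h0 : M - s ≠ 0 := (sub_pos.2 hs).ne'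
  have h1 : HasDerivAt (fun s : ℝ => M - s) (-1) s := by
    simpa using (hasDerivAt_id s).const_sub M
  have h2 := ((h1.fun_pow 2).fun_inv (pow_ne_zero 2 h0)).const_mul (1 / 2 : ℝ)
  refine h2.congr_deriv ?_
  field_simp
  norm_num

theorem hs_theta_aharn {M s : ℝ} (hs : s < M) :
    HasDerivAt (fun s : ℝ => - Real.log (M - s)) ((M - s)⁻¹) s := by
  have h0 : M - s ≠ 0 := (sub_pos.2 hs).ne'
  have h1 : HasDerivAt (fun s : ℝ => M - s) (-1) s := by
    simpa using (hasDerivAt_id s).const_sub M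
  have h2 := (h1.log h0).fun_neg
  refine h2.congr_deriv ?_
  field_simp
  try norm_num

theorem harnack_sup {κ : ℝ} (hκ : 0 < κ) : ∃ C : ℝ, 1 ≤ C ∧ ∀ (f : E 3 → E 3)
    (D : E 3 → Matrix (Fin 3) (Fin 3) ℝ) (Ω : Set (E 3)), QRM f D Ω κ →
    ∀ (i : Fin 3) (z : E 3) (h M : ℝ), 0 < h → closedBall z (7 / 2 * h) ⊆ Ω →
    (∀ x ∈ closedBall z (7 / 2 * h), f x i < M) →
    ∀ x ∈ closedBall z h, M - f x i ≤ C * (M - f z i) := by
  obtain ⟨C0, hC0, hosc⟩ := osc_theta hκ
  refine ⟨Real.exp (C0 + 1), Real.one_le_exp (by linarith), ?_⟩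
  intro f D Ω hqr i z h M hh hsub hM x hx
  obtain ⟨Cc, hCc, hcut⟩ := cutoff 3
  obtain ⟨χ, hχs, hχ0, hχ1, hχeq, hχout, hχgr⟩ :=
    hcut z (13 / 4 * h) (1 / 4 * h) (by positivity) (by positivity)
  have e1 : 13 / 4 * h + 1 / 4 * h = 7 / 2 * h := by ring
  rw [e1] at hχout hχgr
  have hts : tsupport χ ⊆ closedBall z (7 / 2 * h) := by
    refine closure_minimal (fun y hy => ?_) isClosed_closedBall
    by_contra hcon
    exact hy (hχout y hcon)
  have hcs : HasCompactSupport χ :=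
    (isCompact_closedBall z (7 / 2 * h)).of_isClosed_subset (isClosed_tsupport _) hts
  have hgr0 : ∀ y ∈ ball z (13 / 4 * h), gr χ y = 0 := by
    intro y hy
    have h1 := hχgr y
    rw [indicator_of_notMem (fun hc => hc.2 (ball_subset_closedBall hy))] at h1
    exact le_antisymm h1 (gr_nonneg _ _)
  have htg : tsupport (gr χ) ⊆ (ball z (13 / 4 * h))ᶜ := by
    refine closure_minimal (fun y hy hy' => ?_) isOpen_ball.isClosed_compl
    exact hy (hgr0 y hy')
  have hΨ : ContDiffOn ℝ ∞ (fun s : ℝ => 1 / 2 * ((M - s) ^ 2)⁻¹) (Iio M) := by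
    refine contDiffOn_const.mul (ContDiffOn.inv ?_ ?_)
    · exact ((contDiff_const.sub contDiff_id).pow 2).contDiffOn
    · intro s hs
      have : (0 : ℝ) < M - s := sub_pos.2 hs
      positivity
  have hΘ : ContDiffOn ℝ 1 (fun s : ℝ => - Real.log (M - s)) (Iio M) := by
    refine ContDiffOn.neg (ContDiffOn.log ?_ ?_)
    · exact (contDiff_const.sub contDiff_id).contDiffOn
    · intro s hs
      exact (sub_pos.2 hs).ne'
  have hprop : ∀ s < M, 0 ≤ (fun s : ℝ => 1 / 2 * ((M - s) ^ 2)⁻¹) s ∧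
      0 ≤ deriv (fun s : ℝ => 1 / 2 * ((M - s) ^ 2)⁻¹) s ∧
      (fun s : ℝ => 1 / 2 * ((M - s) ^ 2)⁻¹) s ^ 3 ≤
        deriv (fun s : ℝ => 1 / 2 * ((M - s) ^ 2)⁻¹) s ^ 2 ∧
      |deriv (fun s : ℝ => - Real.log (M - s)) s| ^ 3 ≤
        deriv (fun s : ℝ => 1 / 2 * ((M - s) ^ 2)⁻¹) s := by
    intro s hs
    rw [(hs_psi_aharn hs).deriv, (hs_theta_aharn hs).deriv]
    have h0 : (0 : ℝ) < M - s := sub_pos.2 hs
    have h1 : (0 : ℝ) < (M - s)⁻¹ := inv_pos.2 h0
    refine ⟨by positivity, by positivity, ?_, ?_⟩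
    · have e2 : (1 / 2 * ((M - s) ^ 2)⁻¹) ^ 3 = 1 / 8 * ((M - s)⁻¹) ^ 6 := by
        rw [← inv_pow]; ring
      have e3 : (((M - s) ^ 3)⁻¹) ^ 2 = ((M - s)⁻¹) ^ 6 := by
        rw [← inv_pow]; ring
      show (1 / 2 * ((M - s) ^ 2)⁻¹) ^ 3 ≤ _
      rw [e2, e3]
      have : 0 < ((M - s)⁻¹) ^ 6 := by positivity
      linarith
    · rw [abs_of_pos h1, inv_pow]
  obtain ⟨s, ⟨hs1, hs2⟩, hs⟩ := hosc f D Ω hqr i _ _ M hΨ hΘ hprop χ hχs hcs (hts.trans hsub)
    hχ0 hχ1 z h hh (fun y hy => hM y (hts hy.1))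
    (fun y hy hy' => absurd (show y ∈ ball z (13 / 4 * h) from by
      rw [mem_closedBall] at hy
      rw [mem_ball]
      linarith) (htg hy')) 1 one_pos
  have hs0 : 0 < s := hh.trans hs1
  have hsc : closedBall z s ⊆ closedBall z (7 / 2 * h) := closedBall_subset_closedBall (by linarith)
  have hscΩ : closedBall z s ⊆ Ω := hsc.trans hsub
  have hcont : ContinuousOn (fun y => f y i) (sphere z s) :=
    ((continuous_apply i).comp_continuousOn hqr.fd.cont).mono
      (sphere_subset_closedBall.trans hscΩ)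
  have hne : (sphere z s).Nonempty := NormedSpace.sphere_nonempty.2 hs0.le
  obtain ⟨p, hp, hpmax⟩ := (isCompact_sphere z s).exists_isMaxOn hne hcont
  obtain ⟨q, hq, hqmin⟩ := (isCompact_sphere z s).exists_isMinOn hne hcont
  have h1 : f z i ≤ f p i := mono_max hqr.fd (by norm_num) hs0 hscΩ i (f p i)
    (fun y hy => hpmax hy) z (mem_closedBall_self hs0.le)
  have h2 : f q i ≤ f x i := mono_min hqr.fd (by norm_num) hs0 hscΩ i (f q i)
    (fun y hy => hqmin hy) x (closedBall_subset_closedBall hs1.le hx)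
  have hχs1 : ∀ y ∈ sphere z s, χ y = 1 := fun y hy => hχeq y
    (closedBall_subset_closedBall (by linarith) (sphere_subset_closedBall hy))
  have h3 := hs p hp q hq
  rw [hχs1 p hp, hχs1 q hq] at h3
  have h4 := (abs_le.1 h3).2
  have hpM : 0 < M - f p i := sub_pos.2 (hM p (hsc (sphere_subset_closedBall hp)))
  have hqM : 0 < M - f q i := sub_pos.2 (hM q (hsc (sphere_subset_closedBall hq)))
  have h5 : Real.log (M - f q i) ≤ C0 + 1 + Real.log (M - f p i) := by
    simp only [one_mul] at h4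
    linarith
  have h6 : M - f q i ≤ Real.exp (C0 + 1) * (M - f p i) := by
    have := Real.exp_le_exp.2 h5
    rwa [Real.exp_log hqM, Real.exp_add, Real.exp_log hpM] at this
  have hE : 0 < Real.exp (C0 + 1) := Real.exp_pos _
  calc M - f x i ≤ M - f q i := by linarith
    _ ≤ Real.exp (C0 + 1) * (M - f p i) := h6
    _ ≤ Real.exp (C0 + 1) * (M - f z i) := by
        apply mul_le_mul_of_nonneg_left _ hE.le
        linarith

end

end Pool.Agent.Helper746.Rl
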