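import Pool.Agent.Helper930.BL.TrB
import Pool.Agent.Helper930.BL.Osc
import Pool.Agent.Helper746.RlADefs
import Pool.Agent.Helper746.RlAint3
import Pool.Agent.Helper746.RlAcacc
import Pool.Agent.Helper746.RlAharn

set_option autoImplicit false

namespace Pool.Agent.Helper746.Rl

open MeasureTheory Metric Set Filter Topology
open scoped ENNReal NNReal ContDiff
open H930.BL

noncomputable section

theorem hePsi_deriv_aenergy (M s : ℝ) (hs : s < M) :
    deriv (fun s : ℝ => (1 / 2 : ℝ) * ((M - s) ^ 2)⁻¹) s = ((M - s) ^ 3)⁻¹ := by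
  have h0 : M - s ≠ 0 := (sub_pos.2 hs).ne'
  have h1 : HasDerivAt (fun s : ℝ => M - s) (-1) s := by
    simpa using (hasDerivAt_id s).const_sub M
  have h2 : HasDerivAt (fun s : ℝ => (M - s) ^ 2) (2 * (M - s) * (-1)) s := by
    have := h1.fun_pow 2
    simpa using this
  have h3 := (h2.fun_inv (pow_ne_zero 2 h0)).const_mul (1 / 2 : ℝ)
  rw [h3.deriv]
  field_simp

theorem harnack_energy {κ : ℝ} (hκ : 0 < κ) : ∃ C : ℝ, 0 < C ∧ ∀ (f : E 3 → E 3)
    (D : E 3 → Matrix (Fin 3) (Fin 3) ℝ) (Ω : Set (E 3)), QRM f D Ω κ →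
    ∀ (i : Fin 3) (z : E 3) (h M : ℝ), 0 < h → closedBall z (7 / 2 * h) ⊆ Ω →
    (∀ x ∈ closedBall z (7 / 2 * h), f x i < M) →
    ∫ x in closedBall z (7 / 8 * h), sn (D x) ^ 3 ≤ C * (M - f z i) ^ 3 := by
  obtain ⟨C0, hC0, hcut⟩ := cutoff 3
  obtain ⟨C1, hC1, hcacc⟩ := cacc hκ
  obtain ⟨C3, hC3, hharn⟩ := harnack_sup hκ
  refine ⟨κ * C3 ^ 3 * (C1 * (8 * C0) ^ 3), by positivity, ?_⟩
  intro f D Ω hf i z h M hh hsub hM
  have hC3' : 0 < C3 := lt_of_lt_of_le one_pos hC3
  obtain ⟨χ, hχs, hχ0, hχ1, hχe, hχz, hχg⟩ := hcut z (7 / 8 * h) (1 / 8 * h) (by positivity) (by positivity)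
  have hsum : 7 / 8 * h + 1 / 8 * h = h := by ring
  rw [hsum] at hχz hχg
  have hts : tsupport χ ⊆ closedBall z h := by
    refine closure_minimal ?_ isClosed_closedBall
    intro x hx
    by_contra hx'
    exact hx (hχz x hx')
  have hcs : HasCompactSupport χ := HasCompactSupport.intro (isCompact_closedBall z h) hχz
  have hball : closedBall z h ⊆ closedBall z (7 / 2 * h) := closedBall_subset_closedBall (by linarith)
  have hball2 : closedBall z (7 / 8 * h) ⊆ closedBall z h := closedBall_subset_closedBall (by linarith)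
  have hball3 : closedBall z (7 / 8 * h) ⊆ Ω := hball2.trans (hball.trans hsub)
  have hm : 0 < M - f z i := sub_pos.2 (hM z (mem_closedBall_self (by positivity)))
  set Ψ : ℝ → ℝ := fun s => (1 / 2 : ℝ) * ((M - s) ^ 2)⁻¹ with hΨ
  have hΨd : ∀ s < M, deriv Ψ s = ((M - s) ^ 3)⁻¹ := fun s hs => hePsi_deriv_aenergy M s hs
  have hΨc : ContDiffOn ℝ ∞ Ψ (Iio M) := by
    refine contDiffOn_const.mul (ContDiffOn.inv ?_ ?_)
    · exact ((contDiff_const.sub contDiff_id).pow 2).contDiffOn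
    · intro s hs
      have : 0 < M - s := sub_pos.2 hs
      positivity
  have hΨp : ∀ s < M, 0 ≤ Ψ s ∧ 0 ≤ deriv Ψ s ∧ Ψ s ^ 3 ≤ deriv Ψ s ^ 2 := by
    intro s hs
    have h0 : 0 < M - s := sub_pos.2 hs
    rw [hΨd s hs]
    refine ⟨by positivity, by positivity, ?_⟩
    have e1 : Ψ s ^ 3 = (1 / 8) * ((M - s) ^ 6)⁻¹ := by
      simp only [hΨ]
      field_simp
      norm_num
    have e2 : (((M - s) ^ 3)⁻¹) ^ 2 = ((M - s) ^ 6)⁻¹ := by
      rw [inv_pow, ← pow_mul]
    rw [e1, e2]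
    have : 0 < ((M - s) ^ 6)⁻¹ := by positivity
    linarith
  obtain ⟨hint, hle⟩ := hcacc f D Ω hf i Ψ M hΨc hΨp χ hχs hcs (hts.trans (hball.trans hsub)) hχ0
    (fun x hx => hM x (hball (hts hx))) z h (C0 / (1 / 8 * h)) hh (by positivity) hts
    (fun x _ _ => (hχg x).trans (indicator_le_self' (fun _ _ => by positivity) x))
  have hLR : (C0 / (1 / 8 * h) * h) = 8 * C0 := by field_simp
  rw [hLR] at hle
  have hpos := hf.fd.pos
  rw [ae_restrict_iff' hf.fd.isOpen.measurableSet] at hpos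
  have hqr := hf.qr
  rw [ae_restrict_iff' hf.fd.isOpen.measurableSet] at hqr
  have hg0 : 0 ≤ᵐ[volume] fun x => χ x ^ 3 * deriv Ψ (f x i) * (D x).det := by
    filter_upwards [hpos] with x hx
    by_cases hxs : x ∈ tsupport χ
    · have hxM : f x i < M := hM x (hball (hts hxs))
      have h1 := (hx (hsub (hball (hts hxs)))).1
      have h2 := (hΨp _ hxM).2.1
      have h3 := hχ0 x
      show 0 ≤ χ x ^ 3 * deriv Ψ (f x i) * (D x).det
      positivity
    · have : χ x = 0 := image_eq_zero_of_notMem_tsupport hxs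
      simp [this]
  have hstep1 : ∫ x in closedBall z (7 / 8 * h), χ x ^ 3 * deriv Ψ (f x i) * (D x).det ≤
      ∫ x, χ x ^ 3 * deriv Ψ (f x i) * (D x).det := setIntegral_le_integral hint hg0
  have hstep2 : ∫ x in closedBall z (7 / 8 * h), sn (D x) ^ 3 ≤
      ∫ x in closedBall z (7 / 8 * h),
        (κ * (C3 * (M - f z i)) ^ 3) * (χ x ^ 3 * deriv Ψ (f x i) * (D x).det) := by
    refine setIntegral_mono_ae_restrict ?_ (hint.integrableOn.const_mul _) ?_
    · exact qrm_int3 hf (isCompact_closedBall _ _) hball3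
    · rw [Filter.EventuallyLE, ae_restrict_iff' measurableSet_closedBall]
      filter_upwards [hpos, hqr] with x hx1 hx2 hxB
      have hxΩ := hball3 hxB
      have hxM : f x i < M := hM x (hball (hball2 hxB))
      have hd0 := (hx1 hxΩ).1
      have hq := hx2 hxΩ
      have hh1 := hharn f D Ω hf i z h M hh hsub hM x (hball2 hxB)
      have hMf : 0 < M - f x i := sub_pos.2 hxM
      show sn (D x) ^ 3 ≤ (κ * (C3 * (M - f z i)) ^ 3) * (χ x ^ 3 * deriv Ψ (f x i) * (D x).det)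
      rw [hχe x hxB, hΨd _ hxM]
      have h5 : 1 ≤ (C3 * (M - f z i)) ^ 3 * ((M - f x i) ^ 3)⁻¹ := by
        rw [← div_eq_mul_inv, one_le_div (by positivity)]
        exact pow_le_pow_left₀ hMf.le hh1 3
      calc sn (D x) ^ 3 ≤ κ * (D x).det := hq
        _ = κ * 1 * (D x).det := by ring
        _ ≤ κ * ((C3 * (M - f z i)) ^ 3 * ((M - f x i) ^ 3)⁻¹) * (D x).det := by
            gcongr
        _ = _ := by ring
  rw [integral_const_mul] at hstep2
  calc ∫ x in closedBall z (7 / 8 * h), sn (D x) ^ 3 ≤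
      (κ * (C3 * (M - f z i)) ^ 3) *
        ∫ x in closedBall z (7 / 8 * h), χ x ^ 3 * deriv Ψ (f x i) * (D x).det := hstep2
    _ ≤ (κ * (C3 * (M - f z i)) ^ 3) * (C1 * (8 * C0) ^ 3) := by
        refine mul_le_mul_of_nonneg_left (hstep1.trans hle) ?_
        positivity
    _ = _ := by ring

end

end Pool.Agent.Helper746.Rl
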