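import Pool.Agent.Helper930.BL.TrB
import Pool.Agent.Helper930.BL.Osc
import Pool.Agent.Helper746.RlADefs

set_option autoImplicit false

namespace Pool.Agent.Helper746.Rl

open MeasureTheory Metric Set Filter Topology
open scoped ENNReal NNReal ContDiff
open H930.BL

noncomputable section

lemma glue_hasDerivAt_amax (x : ℝ) : HasDerivAt expNegInvGlue ((x⁻¹) ^ 2 * expNegInvGlue x) x := by
  have h := expNegInvGlue.hasDerivAt_polynomial_eval_inv_mul 1 x
  simpa using h

lemma glue_deriv_nonneg_amax (x : ℝ) : 0 ≤ (x⁻¹) ^ 2 * expNegInvGlue x :=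
  mul_nonneg (sq_nonneg _) (expNegInvGlue.nonneg x)

lemma pd_psi_amax {n : ℕ} (θ c' : ℝ) (i : Fin n) (y : E n) :
    pd (fun y : E n => expNegInvGlue (θ * y i - c')) i y =
      (((θ * y i - c')⁻¹) ^ 2 * expNegInvGlue (θ * y i - c')) * θ := by
  have h1 : HasFDerivAt (fun y : E n => θ * y i - c')
      (θ • (ContinuousLinearMap.proj (R := ℝ) (φ := fun _ : Fin n => ℝ) i)) y := by
    have h2 : HasFDerivAt (fun y : E n => y i)
        (ContinuousLinearMap.proj (R := ℝ) (φ := fun _ : Fin n => ℝ) i) y :=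
      (ContinuousLinearMap.proj (R := ℝ) (φ := fun _ : Fin n => ℝ) i).hasFDerivAt
    exact (h2.const_mul θ).sub_const c'
  have h3 := (glue_hasDerivAt_amax (θ * y i - c')).comp_hasFDerivAt y h1
  unfold pd
  have h4 : fderiv ℝ (fun y : E n => expNegInvGlue (θ * y i - c')) y = _ := h3.fderiv
  rw [h4]
  simp

lemma exists_cut_amax {G Z : Set (E 3)} (hG : IsOpen G) (hGc : IsCompact (closure G))
    (hZ : IsClosed Z) (hZG : Z ⊆ G) :
    ∃ φ : E 3 → ℝ, ContDiff ℝ ∞ φ ∧ HasCompactSupport φ ∧ tsupport φ ⊆ G ∧ (∀ x, 0 ≤ φ x) ∧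
      ∀ x ∈ Z, φ =ᶠ[𝓝 x] fun _ => 1 := by
  obtain ⟨φ, h0, h1, hr⟩ := exists_contMDiffMap_zero_one_nhds_of_isClosed
    (modelWithCornersSelf ℝ (E 3)) (n := ⊤) hG.isClosed_compl hZ
    (disjoint_left.mpr fun x hx hxZ => hx (hZG hxZ))
  have hts : tsupport φ ⊆ G := by
    intro x hx
    by_contra hxG
    have h2 : ∀ᶠ y in 𝓝 x, φ y = 0 := (h0.filter_mono (nhds_le_nhdsSet hxG))
    exact (notMem_tsupport_iff_eventuallyEq.2 h2) hx
  refine ⟨φ, ?_, ?_, hts, fun x => (hr x).1, fun x hx => ?_⟩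
  · exact φ.contMDiff.contDiff
  · exact hGc.of_isClosed_subset (isClosed_tsupport _) (hts.trans subset_closure)
  · exact h1.filter_mono (nhds_le_nhdsSet hx)

theorem max_gen_aux_amax {f : E 3 → E 3} {D : E 3 → Matrix (Fin 3) (Fin 3) ℝ} {Ω : Set (E 3)}
    (h : FDMap f D Ω) {G : Set (E 3)} (hG : IsOpen G) (hGc : IsCompact (closure G))
    (hGΩ : closure G ⊆ Ω) (i : Fin 3) (θ : ℝ) (hθ : θ * θ = 1) (c' : ℝ)
    (hc : ∀ x ∈ frontier G, θ * f x i < c') : ∀ x ∈ closure G, θ * f x i ≤ c' := by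
  intro x0 hx0
  by_contra hcon
  push Not at hcon
  have hfr : frontier G = closure G \ G := hG.frontier_eq
  -- continuity of u = θ f_i
  have hu : ContinuousOn (fun x => θ * f x i) (closure G) := by
    have h1 : ContinuousOn f (closure G) := h.cont.mono hGΩ
    exact continuousOn_const.mul ((continuous_apply i).comp_continuousOn h1)
  have hcpt : IsCompact (closure G) := hGc
  have hinG : ∀ x ∈ closure G, c' ≤ θ * f x i → x ∈ G := by
    intro x hx hxc
    by_contra hxG
    exact absurd (hc x (hfr ▸ ⟨hx, hxG⟩)) (not_lt.2 hxc)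
  -- Z
  set Z : Set (E 3) := closure G ∩ (fun x => θ * f x i) ⁻¹' (Ici c') with hZ
  have hZclosed : IsClosed Z := hu.preimage_isClosed_of_isClosed isClosed_closure isClosed_Ici
  have hZG : Z ⊆ G := fun x hx => hinG x hx.1 hx.2
  obtain ⟨φ, hφd, hφc, hts, hφ0, hφZ⟩ := exists_cut_amax hG hGc hZclosed hZG
  have htsΩ : tsupport φ ⊆ Ω := hts.trans (subset_closure.trans hGΩ)
  -- ψ
  have hψ : ContDiff ℝ ∞ (fun y : E 3 => expNegInvGlue (θ * y i - c')) := by
    apply expNegInvGlue.contDiff.comp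
    fun_prop
  have hid := h.ident φ hφd hφc htsΩ _ hψ i
  have hrhs : (∫ x, expNegInvGlue (θ * f x i - c') * ∑ j, (D x).adjugate j i * pd φ j x) = 0 := by
    rw [integral_eq_zero_of_ae]
    refine ae_of_all _ fun x => ?_
    show expNegInvGlue (θ * f x i - c') * ∑ j, (D x).adjugate j i * pd φ j x = 0
    by_cases hxZ : x ∈ Z
    · have h1 : ∀ j, pd φ j x = 0 := by
        intro j
        have h2 : (φ : E 3 → ℝ) =ᶠ[𝓝 x] fun _ => 1 := hφZ x hxZ
        unfold pd
        rw [h2.fderiv_eq]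
        simp
      simp [h1]
    · by_cases hxs : x ∈ closure G
      · have h1 : θ * f x i < c' := by
          by_contra h2
          exact hxZ ⟨hxs, not_lt.1 h2⟩
        rw [expNegInvGlue.zero_of_nonpos (by linarith), zero_mul]
      · have h1 : ∀ j, pd φ j x = 0 := by
          intro j
          apply pd_eq_zero_of_notMem
          exact fun h2 => hxs (subset_closure (hts h2))
        simp [h1]
  rw [hrhs, neg_zero] at hid
  -- integrand
  set F : E 3 → ℝ := fun x => θ * (φ x * pd (fun y : E 3 => expNegInvGlue (θ * y i - c')) i (f x) * (D x).det)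
    with hF
  have hFint0 : ∫ x, F x = 0 := by
    rw [hF, integral_const_mul, hid, mul_zero]
  have hFeq : ∀ x, F x = (φ x * ((θ * f x i - c')⁻¹ ^ 2 * expNegInvGlue (θ * f x i - c'))) * (D x).det := by
    intro x
    simp only [hF]
    rw [pd_psi_amax]
    linear_combination (φ x * ((θ * f x i - c')⁻¹ ^ 2 * expNegInvGlue (θ * f x i - c'))) * (D x).det * hθ
  have hφz : ∀ x, x ∉ tsupport φ → φ x = 0 := fun x hx => image_eq_zero_of_notMem_tsupport hx
  have hFnn : 0 ≤ᵐ[volume] F := by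
    have h1 := (ae_restrict_iff' h.isOpen.measurableSet).1 h.pos
    filter_upwards [h1] with x hx
    show 0 ≤ F x
    rw [hFeq]
    by_cases hxK : x ∈ tsupport φ
    · have h2 := (hx (htsΩ hxK)).1
      exact mul_nonneg (mul_nonneg (hφ0 x) (glue_deriv_nonneg_amax _)) h2
    · rw [hφz x hxK]; simp
  have hFi : Integrable F := by
    have hK : IsCompact (tsupport φ) := hφc
    have h1 : IntegrableOn F (tsupport φ) := by
      have h2 := h.det_int _ hK htsΩ
      have h3 : ContinuousOn (fun x => θ * (φ x * pd (fun y : E 3 => expNegInvGlue (θ * y i - c')) i (f x)))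
          (tsupport φ) := by
        have hfc : ContinuousOn f (tsupport φ) := h.cont.mono htsΩ
        have h4 : Continuous (pd (fun y : E 3 => expNegInvGlue (θ * y i - c')) i) :=
          continuous_pd (hψ.of_le (by exact_mod_cast le_top)) i
        exact continuousOn_const.mul (hφd.continuous.continuousOn.mul (h4.comp_continuousOn hfc))
      have h5 := h2.continuousOn_mul h3 hK
      refine h5.congr_fun (fun x _ => ?_) (isClosed_tsupport _).measurableSet
      simp only [hF]
      ring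
    rw [← integrableOn_iff_integrable_of_support_subset (s := tsupport φ)]
    · exact h1
    · intro x hx
      by_contra hxK
      apply hx
      simp only [hF]
      rw [hφz x hxK]; simp
  have hF0 : F =ᵐ[volume] 0 := (integral_eq_zero_iff_of_nonneg_ae hFnn hFi).1 hFint0
  -- W
  set W : Set (E 3) := G ∩ (fun x => θ * f x i) ⁻¹' (Ioi c') with hW
  have hWo : IsOpen W :=
    (hu.mono subset_closure).isOpen_inter_preimage hG isOpen_Ioi
  have hWΩ : W ⊆ Ω := fun x hx => hGΩ (subset_closure hx.1)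
  have hW0 : ∀ᵐ x ∂(volume.restrict W), (D x).det = 0 := by
    rw [ae_restrict_iff' hWo.measurableSet]
    filter_upwards [hF0] with x hx hxW
    have h1 : F x = 0 := hx
    rw [hFeq] at h1
    have hxW2 : c' < θ * f x i := hxW.2
    have hxZ : x ∈ Z := ⟨subset_closure hxW.1, show c' ≤ θ * f x i from le_of_lt hxW2⟩
    have h2 : φ x = 1 := (hφZ x hxZ).self_of_nhds
    have h3 : 0 < θ * f x i - c' := by
      have : c' < θ * f x i := hxW.2
      linarith
    have h4 : 0 < (θ * f x i - c')⁻¹ ^ 2 * expNegInvGlue (θ * f x i - c') :=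
      mul_pos (pow_pos (inv_pos.2 h3) 2) (expNegInvGlue.pos_of_pos h3)
    rw [h2, one_mul] at h1
    exact (mul_eq_zero.1 h1).resolve_left h4.ne'
  have hloc := loc_const h hWo hWΩ hW0
  -- P
  set P : Set (E 3) := closure G ∩ (fun x => θ * f x i) ⁻¹' {θ * f x0 i} with hP
  have hPclosed : IsClosed P := hu.preimage_isClosed_of_isClosed isClosed_closure isClosed_singleton
  have hPc : IsCompact P := hcpt.of_isClosed_subset hPclosed inter_subset_left
  have hPW : P ⊆ W := by
    intro x hx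
    have h1 : θ * f x i = θ * f x0 i := hx.2
    have h2 : c' < θ * f x i := by rw [h1]; exact hcon
    exact ⟨hinG x hx.1 h2.le, h2⟩
  have hPo : IsOpen P := by
    rw [isOpen_iff_mem_nhds]
    intro x hx
    have h1 := hloc x (hPW hx)
    have h2 : W ∈ 𝓝 x := hWo.mem_nhds (hPW hx)
    filter_upwards [h1, h2] with y hy hyW
    refine ⟨subset_closure hyW.1, ?_⟩
    show θ * f y i = θ * f x0 i
    rw [hy]; exact hx.2
  have hPe := no_compact_open (by omega : 1 ≤ 3) hPc hPo
  have : x0 ∈ P := ⟨hx0, rfl⟩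
  rw [hPe] at this
  exact this

theorem max_gen {f : E 3 → E 3} {D : E 3 → Matrix (Fin 3) (Fin 3) ℝ} {Ω : Set (E 3)}
    (h : FDMap f D Ω) {G : Set (E 3)} (hG : IsOpen G) (hGc : IsCompact (closure G))
    (hGΩ : closure G ⊆ Ω) (i : Fin 3) (θ : ℝ) (hθ : θ * θ = 1) (c : ℝ)
    (hc : ∀ x ∈ frontier G, θ * f x i ≤ c) : ∀ x ∈ G, θ * f x i ≤ c := by
  intro x hx
  refine le_of_forall_gt_imp_ge_of_dense fun c' hc' => ?_
  exact max_gen_aux_amax h hG hGc hGΩ i θ hθ c' (fun y hy => lt_of_le_of_lt (hc y hy) hc') x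
    (subset_closure hx)

end

end Pool.Agent.Helper746.Rl
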