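import Pool.Agent.Helper930.BL.TrB
import Pool.Agent.Helper930.BL.Osc
import Pool.Agent.Helper746.RlADefs

set_option autoImplicit false

namespace Pool.Agent.Helper746.Rl

open MeasureTheory Metric Set Filter Topology
open scoped ENNReal NNReal ContDiff
open H930.BL

noncomputable section

theorem sc_en_cont_ashell : Continuous (fun x : E 3 => en x) := by
  unfold en
  exact Real.continuous_sqrt.comp (by fun_prop)

theorem sc_en_nonneg_ashell (x : E 3) : 0 ≤ en x := Real.sqrt_nonneg _

theorem sc_en_sq_ashell (x : E 3) : en x ^ 2 = ∑ i, x i ^ 2 :=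
  Real.sq_sqrt (Finset.sum_nonneg (fun i _ => sq_nonneg _))

theorem sc_compact_ashell (R : ℝ) : IsCompact {x : E 3 | en x ≤ R} := by
  apply Metric.isCompact_of_isClosed_isBounded
  · exact isClosed_le sc_en_cont_ashell continuous_const
  · refine (Metric.isBounded_closedBall (x := (0 : E 3)) (r := |R|)).subset ?_
    intro x hx
    rw [mem_closedBall_zero_iff, pi_norm_le_iff_of_nonneg (abs_nonneg R)]
    intro i
    rw [Real.norm_eq_abs]
    have h1 : |x i| ≤ en x := by
      unfold en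
      rw [← Real.sqrt_sq_eq_abs]
      exact Real.sqrt_le_sqrt (Finset.single_le_sum (f := fun i => x i ^ 2) (fun i _ => sq_nonneg _) (Finset.mem_univ i))
    exact h1.trans (le_trans hx (le_abs_self R))

theorem sc_gr_zero_ashell {χ : E 3 → ℝ} {c : ℝ} {x : E 3} (h : χ =ᶠ[𝓝 x] fun _ => c) : gr χ x = 0 := by
  unfold gr pd
  rw [h.fderiv_eq]
  simp

theorem shell_cut {f : E 3 → E 3} (hf : ContinuousOn f (Bn 3 1)) (i : Fin 3) {ζ : E 3}
    {ρ r S S' : ℝ} (hρ : 0 < ρ) (hρ1 : ρ < 1) (hSS : S < S')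
    (hS : ∀ x, en x = ρ → x ∈ closedBall ζ r → f x i ≤ S) :
    ∃ (ρ' : ℝ) (χ : E 3 → ℝ), 0 < ρ' ∧ ρ' < ρ ∧
      (∀ x, ρ' ≤ en x → en x ≤ ρ → x ∈ closedBall ζ r → f x i < S') ∧
      ContDiff ℝ ∞ χ ∧ HasCompactSupport χ ∧ (∀ x, 0 ≤ χ x) ∧ (∀ x, χ x ≤ 1) ∧
      (∀ x, en x ≤ ρ' → χ x = 1) ∧ tsupport χ ⊆ {x | en x ≤ ρ} ∧
      tsupport (gr χ) ⊆ {x | ρ' ≤ en x ∧ en x ≤ ρ} := by
  have hrad : ∃ ρ' : ℝ, 0 < ρ' ∧ ρ' < ρ ∧
      (∀ x, ρ' ≤ en x → en x ≤ ρ → x ∈ closedBall ζ r → f x i < S') := by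
    set C : Set (E 3) := {x | en x ≤ ρ} ∩ closedBall ζ r with hC
    have hCc : IsCompact C := (sc_compact_ashell ρ).inter_right isClosed_closedBall
    have hfC : ContinuousOn (fun x => f x i) C := by
      have h1 : ContinuousOn (fun x => f x i) (Bn 3 1) := (continuous_apply i).comp_continuousOn hf
      refine h1.mono (fun x hx => ?_)
      exact lt_of_le_of_lt hx.1 hρ1
    set A : Set (E 3) := C ∩ (fun x => f x i) ⁻¹' (Ici S') with hA
    have hAc : IsCompact A := by
      apply hCc.of_isClosed_subset _ inter_subset_left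
      exact hfC.preimage_isClosed_of_isClosed hCc.isClosed isClosed_Ici
    rcases A.eq_empty_or_nonempty with hAe | hAn
    · refine ⟨ρ / 2, by linarith, by linarith, fun x h1 h2 h3 => ?_⟩
      by_contra hc
      push Not at hc
      have : x ∈ A := ⟨⟨h2, h3⟩, hc⟩
      rw [hAe] at this
      exact this
    · obtain ⟨x0, hx0, hmax⟩ := hAc.exists_isMaxOn hAn sc_en_cont_ashell.continuousOn
      have hlt : en x0 < ρ := by
        rcases lt_or_eq_of_le (show en x0 ≤ ρ from hx0.1.1) with h | h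
        · exact h
        · exfalso
          have h1 := hS x0 h hx0.1.2
          have h2 : S' ≤ f x0 i := hx0.2
          linarith
      refine ⟨max ((en x0 + ρ) / 2) (ρ / 2), lt_max_of_lt_right (by linarith),
        max_lt (by linarith) (by linarith), fun x h1 h2 h3 => ?_⟩
      by_contra hc
      push Not at hc
      have hxA : x ∈ A := ⟨⟨h2, h3⟩, hc⟩
      have h4 : en x ≤ en x0 := hmax hxA
      have h5 := (le_max_left _ _).trans h1
      linarith
  obtain ⟨ρ', h0, h1, h2⟩ := hrad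
  set ρ3 : ℝ := ρ' + (ρ - ρ') / 3 with hρ3
  set ρ2 : ℝ := ρ' + 2 * (ρ - ρ') / 3 with hρ2
  have e1 : ρ' < ρ3 := by rw [hρ3]; linarith
  have e2 : ρ3 < ρ2 := by rw [hρ3, hρ2]; linarith
  have e3 : ρ2 < ρ := by rw [hρ2]; linarith
  have hden : 0 < ρ2 ^ 2 - ρ3 ^ 2 := by nlinarith
  set χ : E 3 → ℝ := fun x => Real.smoothTransition ((ρ2 ^ 2 - ∑ i, x i ^ 2) / (ρ2 ^ 2 - ρ3 ^ 2)) with hχ
  have hone : ∀ x, en x ≤ ρ3 → χ x = 1 := by
    intro x hx
    apply Real.smoothTransition.one_of_one_le
    rw [one_le_div hden, ← sc_en_sq_ashell]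
    have := sc_en_nonneg_ashell x
    nlinarith
  have hzero : ∀ x, ρ2 ≤ en x → χ x = 0 := by
    intro x hx
    apply Real.smoothTransition.zero_of_nonpos
    rw [div_nonpos_iff]
    right
    refine ⟨?_, hden.le⟩
    rw [← sc_en_sq_ashell]
    nlinarith
  have hsupp : Function.support χ ⊆ {x | en x ≤ ρ2} := by
    intro x hx
    by_contra hc
    simp only [mem_ofPred_eq, not_le] at hc
    exact hx (hzero x hc.le)
  have hts : tsupport χ ⊆ {x | en x ≤ ρ2} :=
    closure_minimal hsupp (isClosed_le sc_en_cont_ashell continuous_const)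
  refine ⟨ρ', χ, h0, h1, h2, ?_, ?_, ?_, ?_, ?_, ?_, ?_⟩
  · apply Real.smoothTransition.contDiff.comp
    apply ContDiff.div_const
    apply contDiff_const.sub
    apply ContDiff.sum
    intro i _
    exact (contDiff_apply ℝ ℝ i).pow 2
  · exact (sc_compact_ashell ρ2).of_isClosed_subset (isClosed_tsupport _) hts
  · intro x; exact Real.smoothTransition.nonneg _
  · intro x; exact Real.smoothTransition.le_one _
  · intro x hx; exact hone x (hx.trans e1.le)
  · exact hts.trans (fun x hx => le_trans hx e3.le)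
  · have hs : Function.support (gr χ) ⊆ {x | ρ3 ≤ en x ∧ en x ≤ ρ2} := by
      intro x hx
      by_contra hc
      apply hx
      have hcl : en x < ρ3 ∨ ρ2 < en x := by
        by_contra h
        push Not at h
        exact hc h
      rcases hcl with h | h
      · apply sc_gr_zero_ashell (c := 1)
        have : {y : E 3 | en y < ρ3} ∈ 𝓝 x := (isOpen_lt sc_en_cont_ashell continuous_const).mem_nhds h
        filter_upwards [this] with y hy
        exact hone y (le_of_lt hy)
      · apply sc_gr_zero_ashell (c := 0)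
        have : {y : E 3 | ρ2 < en y} ∈ 𝓝 x := (isOpen_lt continuous_const sc_en_cont_ashell).mem_nhds h
        filter_upwards [this] with y hy
        exact hzero y (le_of_lt hy)
    have hcl : IsClosed {x : E 3 | ρ3 ≤ en x ∧ en x ≤ ρ2} :=
      (isClosed_le continuous_const sc_en_cont_ashell).inter (isClosed_le sc_en_cont_ashell continuous_const)
    refine (closure_minimal hs hcl).trans (fun x hx => ⟨e1.le.trans hx.1, hx.2.trans e3.le⟩)

end

end Pool.Agent.Helper746.Rl
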