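import Pool.Agent.Helper930.BL.TrB
import Pool.Agent.Helper930.BL.Osc
import Pool.Agent.Helper746.RlADefs

set_option autoImplicit false

namespace Pool.Agent.Helper746.Rl

open MeasureTheory Metric Set Filter Topology
open scoped ENNReal NNReal ContDiff
open H930.BL

noncomputable section

/-- normalised tail function -/
def Ps0_tf_atailfun (σ : ℝ) : ℝ := expNegInvGlue σ / (1 - σ) ^ 2

/-- normalised integrand -/
def h0_tf_atailfun (σ : ℝ) : ℝ := expNegInvGlue σ / (1 - σ)

/-- normalised integral -/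
def Th0_tf_atailfun (σ : ℝ) : ℝ := ∫ v in (0:ℝ)..σ, h0_tf_atailfun v

theorem g_le_one_tf_atailfun (x : ℝ) : expNegInvGlue x ≤ 1 := by
  unfold expNegInvGlue
  split_ifs with h
  · exact zero_le_one
  · have : 0 < x := not_le.1 h
    rw [Real.exp_le_one_iff]
    have := inv_pos.2 this
    linarith

theorem g_diff_tf_atailfun (x : ℝ) : HasDerivAt expNegInvGlue (deriv expNegInvGlue x) x :=
  ((expNegInvGlue.contDiff (n := 1)).differentiable one_ne_zero x).hasDerivAt

theorem g'_nonneg_tf_atailfun (x : ℝ) : 0 ≤ deriv expNegInvGlue x :=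
  expNegInvGlue.monotone.deriv_nonneg

theorem g_cont_tf_atailfun : Continuous expNegInvGlue :=
  (expNegInvGlue.contDiff (n := 1)).continuous

theorem hPs0_tf_atailfun {σ : ℝ} (h : σ < 1) : HasDerivAt Ps0_tf_atailfun
    (deriv expNegInvGlue σ / (1 - σ) ^ 2 + 2 * expNegInvGlue σ / (1 - σ) ^ 3) σ := by
  have h1 : (1 - σ) ≠ 0 := by linarith
  have hd : HasDerivAt (fun x : ℝ => (1 - x) ^ 2) (-(2 * (1 - σ))) σ := by
    have := ((hasDerivAt_id σ).const_sub 1).pow 2
    refine this.congr_deriv ?_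
    simp
  have := (g_diff_tf_atailfun σ).div hd (pow_ne_zero 2 h1)
  refine this.congr_deriv ?_
  field_simp
  ring

theorem hcont_tf_atailfun : ContinuousOn h0_tf_atailfun (Iio 1) := by
  unfold h0_tf_atailfun
  refine g_cont_tf_atailfun.continuousOn.div (by fun_prop) ?_
  intro x hx
  have : x < 1 := hx
  linarith

theorem hTh0_tf_atailfun {σ : ℝ} (h : σ < 1) : HasDerivAt Th0_tf_atailfun (h0_tf_atailfun σ) σ := by
  unfold Th0_tf_atailfun
  apply intervalIntegral.integral_hasDerivAt_right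
  · apply ContinuousOn.intervalIntegrable
    refine hcont_tf_atailfun.mono ?_
    intro x hx
    rw [mem_uIcc] at hx
    rcases hx with hx | hx
    · exact lt_of_le_of_lt hx.2 h
    · exact lt_of_le_of_lt hx.2 zero_lt_one
  · exact hcont_tf_atailfun.stronglyMeasurableAtFilter isOpen_Iio σ h
  · exact hcont_tf_atailfun.continuousAt (isOpen_Iio.mem_nhds h)

theorem h0_zero_tf_atailfun {σ : ℝ} (h : σ ≤ 0) : h0_tf_atailfun σ = 0 := by
  unfold h0_tf_atailfun
  rw [expNegInvGlue.zero_of_nonpos h, zero_div]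

theorem h0_nonneg_tf_atailfun {σ : ℝ} (h : σ < 1) : 0 ≤ h0_tf_atailfun σ :=
  div_nonneg (expNegInvGlue.nonneg σ) (by linarith)

theorem Th0_zero_tf_atailfun {σ : ℝ} (h : σ ≤ 0) : Th0_tf_atailfun σ = 0 := by
  unfold Th0_tf_atailfun
  rw [intervalIntegral.integral_congr (g := fun _ => 0)]
  · simp
  · intro x hx
    rw [mem_uIcc] at hx
    apply h0_zero_tf_atailfun
    rcases hx with hx | hx
    · exact hx.2.trans h
    · exact hx.2

theorem Th0_lower_tf_atailfun {σ : ℝ} (h : σ < 1) (h2 : 1 / 2 ≤ σ) :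
    expNegInvGlue (1 / 2) * (Real.log (1 / 2) - Real.log (1 - σ)) ≤ Th0_tf_atailfun σ := by
  have hmono : MonotoneOn (fun x => Th0_tf_atailfun x + expNegInvGlue (1 / 2) * Real.log (1 - x))
      (Icc (1 / 2) σ) := by
    have hder : ∀ x ∈ Icc (1 / 2) σ, HasDerivAt
        (fun x => Th0_tf_atailfun x + expNegInvGlue (1 / 2) * Real.log (1 - x))
        (h0_tf_atailfun x + expNegInvGlue (1 / 2) * (-1 / (1 - x))) x := by
      intro x hx
      have hx1 : x < 1 := lt_of_le_of_lt hx.2 h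
      have hx2 : (1 - x) ≠ 0 := by linarith
      exact (hTh0_tf_atailfun hx1).add ((((hasDerivAt_id x).const_sub 1).log hx2).const_mul _)
    apply monotoneOn_of_deriv_nonneg (convex_Icc _ _)
    · exact fun x hx => (hder x hx).continuousAt.continuousWithinAt
    · intro x hx
      rw [interior_Icc] at hx
      exact (hder x ⟨hx.1.le, hx.2.le⟩).differentiableAt.differentiableWithinAt
    · intro x hx
      rw [interior_Icc] at hx
      rw [(hder x ⟨hx.1.le, hx.2.le⟩).deriv]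
      have hx1 : 0 < 1 - x := by linarith [hx.2]
      have hg : expNegInvGlue (1 / 2) ≤ expNegInvGlue x := expNegInvGlue.monotone hx.1.le
      unfold h0_tf_atailfun
      have : expNegInvGlue x / (1 - x) + expNegInvGlue (1 / 2) * (-1 / (1 - x))
          = (expNegInvGlue x - expNegInvGlue (1 / 2)) / (1 - x) := by ring
      rw [this]
      exact div_nonneg (by linarith) hx1.le
  have h3 := hmono (left_mem_Icc.2 h2) (right_mem_Icc.2 h2) h2
  have h4 : 0 ≤ Th0_tf_atailfun (1 / 2) := by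
    unfold Th0_tf_atailfun
    apply intervalIntegral.integral_nonneg (by norm_num)
    intro u hu
    exact h0_nonneg_tf_atailfun (by linarith [hu.2])
  simp only at h3
  have h5 : (1:ℝ) - 1 / 2 = 1 / 2 := by norm_num
  rw [h5] at h3
  linarith

theorem tail_fun (C : ℝ) : ∃ q : ℝ, 0 < q ∧ q < 1 ∧ ∀ (S m : ℝ), 0 < m →
    ∃ Ψ Θ : ℝ → ℝ, ContDiffOn ℝ ∞ Ψ (Iio (S + m)) ∧ ContDiffOn ℝ 1 Θ (Iio (S + m)) ∧
      (∀ s < S + m, 0 ≤ Ψ s ∧ 0 ≤ deriv Ψ s ∧ Ψ s ^ 3 ≤ deriv Ψ s ^ 2 ∧
        |deriv Θ s| ^ 3 ≤ deriv Ψ s) ∧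
      (∀ s ≤ S, Ψ s = 0 ∧ Θ s = 0) ∧ (∀ s < S + m, Θ s ≤ C → s ≤ S + q * m) := by
  set γ : ℝ := expNegInvGlue (1 / 2) with hγ
  have hγ0 : 0 < γ := expNegInvGlue.pos_of_pos (by norm_num)
  refine ⟨max (1 / 2) (1 - 1 / 2 * Real.exp (-(|C| / γ))), ?_, ?_, ?_⟩
  · exact lt_of_lt_of_le (by norm_num) (le_max_left _ _)
  · apply max_lt (by norm_num)
    have := Real.exp_pos (-(|C| / γ))
    linarith
  intro S m hm
  have hσ : ∀ s : ℝ, s < S + m → (s - S) / m < 1 := by
    intro s hs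
    rw [div_lt_one hm]
    linarith
  have haff : ∀ s : ℝ, HasDerivAt (fun s : ℝ => (s - S) / m) (1 / m) s := by
    intro s
    exact ((hasDerivAt_id s).sub_const S).div_const m
  set Ψ : ℝ → ℝ := fun s => (1 / m ^ 2) * Ps0_tf_atailfun ((s - S) / m) with hΨ
  set Θ : ℝ → ℝ := fun s => Th0_tf_atailfun ((s - S) / m) with hΘ
  have hΨd : ∀ s < S + m, HasDerivAt Ψ ((1 / m ^ 2) *
      ((deriv expNegInvGlue ((s - S) / m) / (1 - (s - S) / m) ^ 2
        + 2 * expNegInvGlue ((s - S) / m) / (1 - (s - S) / m) ^ 3) * (1 / m))) s := by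
    intro s hs
    exact ((hPs0_tf_atailfun (hσ s hs)).comp s (haff s)).const_mul _
  have hΘd : ∀ s < S + m, HasDerivAt Θ (h0_tf_atailfun ((s - S) / m) * (1 / m)) s := by
    intro s hs
    exact (hTh0_tf_atailfun (hσ s hs)).comp s (haff s)
  refine ⟨Ψ, Θ, ?_, ?_, ?_, ?_, ?_⟩
  · -- smooth
    have h1 : ContDiffOn ℝ ∞ (fun s : ℝ => expNegInvGlue ((s - S) / m)) (Iio (S + m)) :=
      ((expNegInvGlue.contDiff (n := ⊤)).comp (by fun_prop :
        ContDiff ℝ ∞ (fun s : ℝ => (s - S) / m))).contDiffOn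
    have h2 : ContDiffOn ℝ ∞ (fun s : ℝ => (1 - (s - S) / m) ^ 2) (Iio (S + m)) := by
      fun_prop
    have h3 := h1.div h2 (by
      intro s hs
      have := hσ s hs
      exact pow_ne_zero 2 (by linarith))
    exact contDiffOn_const.mul h3
  · rw [show (1 : ℕ∞ω) = 0 + 1 from rfl, contDiffOn_succ_iff_deriv_of_isOpen isOpen_Iio]
    refine ⟨fun s hs => (hΘd s hs).differentiableAt.differentiableWithinAt, by simp, ?_⟩
    rw [contDiffOn_zero]
    have h1 : ContinuousOn (fun s => h0_tf_atailfun ((s - S) / m) * (1 / m)) (Iio (S + m)) := by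
      refine ContinuousOn.mul ?_ continuousOn_const
      refine hcont_tf_atailfun.comp (by fun_prop) ?_
      intro s hs
      exact hσ s hs
    exact h1.congr fun s hs => (hΘd s hs).deriv
  · intro s hs
    have hs1 := hσ s hs
    rw [(hΨd s hs).deriv, (hΘd s hs).deriv]
    set σ : ℝ := (s - S) / m with hσd
    set g : ℝ := expNegInvGlue σ with hg
    set g' : ℝ := deriv expNegInvGlue σ with hg'
    have g0 : 0 ≤ g := expNegInvGlue.nonneg σ
    have g1 : g ≤ 1 := g_le_one_tf_atailfun σ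
    have g'0 : 0 ≤ g' := g'_nonneg_tf_atailfun σ
    have t0 : 0 < 1 - σ := by linarith
    have hΨv : Ψ s = (1 / m ^ 2) * (g / (1 - σ) ^ 2) := rfl
    have hA : 0 ≤ g' / (1 - σ) ^ 2 := by positivity
    have hB : 0 ≤ 2 * g / (1 - σ) ^ 3 := by positivity
    refine ⟨?_, ?_, ?_, ?_⟩
    · rw [hΨv]; positivity
    · positivity
    · rw [hΨv]
      have h1 : (1 / m ^ 2 * (g / (1 - σ) ^ 2)) ^ 3 = (1 / m ^ 6) * (g ^ 3 / (1 - σ) ^ 6) := by
        field_simp
      have h2 : (1 / m ^ 2 * ((g' / (1 - σ) ^ 2 + 2 * g / (1 - σ) ^ 3) * (1 / m))) ^ 2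
          = (1 / m ^ 6) * (g' / (1 - σ) ^ 2 + 2 * g / (1 - σ) ^ 3) ^ 2 := by
        field_simp
      rw [h1, h2]
      refine mul_le_mul_of_nonneg_left ?_ (by positivity)
      calc g ^ 3 / (1 - σ) ^ 6 ≤ (2 * g) ^ 2 / (1 - σ) ^ 6 := by
            apply div_le_div_of_nonneg_right _ (by positivity)
            nlinarith [sq_nonneg g]
        _ = (2 * g / (1 - σ) ^ 3) ^ 2 := by
            rw [div_pow]; ring
        _ ≤ _ := by
            apply pow_le_pow_left₀ hB
            linarith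
    · unfold h0_tf_atailfun
      rw [← hg]
      have h0 : 0 ≤ g / (1 - σ) * (1 / m) := by positivity
      rw [abs_of_nonneg h0]
      have h1 : (g / (1 - σ) * (1 / m)) ^ 3 = (1 / m ^ 3) * (g ^ 3 / (1 - σ) ^ 3) := by
        field_simp
      have h2 : (1 / m ^ 2 * ((g' / (1 - σ) ^ 2 + 2 * g / (1 - σ) ^ 3) * (1 / m)))
          = (1 / m ^ 3) * (g' / (1 - σ) ^ 2 + 2 * g / (1 - σ) ^ 3) := by
        field_simp
      rw [h1, h2]
      refine mul_le_mul_of_nonneg_left ?_ (by positivity)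
      calc g ^ 3 / (1 - σ) ^ 3 ≤ 2 * g / (1 - σ) ^ 3 := by
            apply div_le_div_of_nonneg_right _ (by positivity)
            nlinarith [mul_nonneg g0 (by linarith : (0:ℝ) ≤ 1 - g), mul_nonneg (mul_nonneg g0 g0) (by linarith : (0:ℝ) ≤ 1 - g)]
        _ ≤ _ := by linarith
  · intro s hs
    have h1 : (s - S) / m ≤ 0 := div_nonpos_of_nonpos_of_nonneg (by linarith) hm.le
    refine ⟨?_, Th0_zero_tf_atailfun h1⟩
    show (1 / m ^ 2) * Ps0_tf_atailfun ((s - S) / m) = 0
    unfold Ps0_tf_atailfun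
    rw [expNegInvGlue.zero_of_nonpos h1]
    simp
  · intro s hs hC
    have hs1 := hσ s hs
    by_contra hcon
    have hcon' := not_le.1 hcon
    have h1 : max (1 / 2) (1 - 1 / 2 * Real.exp (-(|C| / γ))) < (s - S) / m := by
      rw [lt_div_iff₀ hm]
      linarith
    have h2 : 1 / 2 < (s - S) / m := lt_of_le_of_lt (le_max_left _ _) h1
    have h3 : 1 - 1 / 2 * Real.exp (-(|C| / γ)) < (s - S) / m :=
      lt_of_le_of_lt (le_max_right _ _) h1
    have h4 := Th0_lower_tf_atailfun hs1 h2.le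
    have h5 : 1 - (s - S) / m < 1 / 2 * Real.exp (-(|C| / γ)) := by linarith
    have h6 : Real.log (1 - (s - S) / m) < Real.log (1 / 2) - |C| / γ := by
      have := Real.log_lt_log (by linarith) h5
      rw [Real.log_mul (by norm_num) (Real.exp_pos _).ne', Real.log_exp] at this
      linarith
    have h7 : |C| < γ * (Real.log (1 / 2) - Real.log (1 - (s - S) / m)) := by
      have h8 : |C| / γ < Real.log (1 / 2) - Real.log (1 - (s - S) / m) := by linarith
      rw [div_lt_iff₀ hγ0] at h8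
      linarith
    have h9 : C ≤ |C| := le_abs_self C
    have hC' : Th0_tf_atailfun ((s - S) / m) ≤ C := hC
    linarith

end

end Pool.Agent.Helper746.Rl
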