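import Pool.Agent.Helper930.BL.TrB
import Pool.Agent.Helper930.BL.Osc
import Pool.Agent.Helper746.RlADefs
import Pool.Agent.Helper746.RlAtheta
import Pool.Agent.Helper746.RlAtailfun
import Pool.Agent.Helper746.RlAshell
import Pool.Agent.Helper746.RlAmax

set_option autoImplicit false

namespace Pool.Agent.Helper746.Rl

open MeasureTheory Metric Set Filter Topology
open scoped ENNReal NNReal ContDiff
open H930.BL

noncomputable section

theorem tail_one {κ : ℝ} (hκ : 0 < κ) : ∃ q : ℝ, 0 < q ∧ q < 1 ∧ ∀ (f : E 3 → E 3)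
    (D : E 3 → Matrix (Fin 3) (Fin 3) ℝ), QRM f D (Bn 3 1) κ →
    ∀ (i : Fin 3) (ζ : E 3), en ζ = 1 → ∀ (ρ r S m : ℝ), 0 < ρ → ρ < 1 → 0 < r → 0 ≤ m →
    (∀ x, en x = ρ → x ∈ closedBall ζ (4 * r) → f x i ≤ S) →
    (∀ x, en x ≤ ρ → x ∈ closedBall ζ (4 * r) → f x i ≤ S + m) →
    ∀ x, en x ≤ ρ → x ∈ closedBall ζ r → f x i ≤ S + q * m := by
  obtain ⟨C0, hC0, hosc⟩ := osc_theta hκ
  obtain ⟨q, hq0, hq1, htf⟩ := tail_fun (C0 + 1)
  refine ⟨q, hq0, hq1, ?_⟩
  intro f D hQ i ζ hζ ρ r S m hρ hρ1 hr hm hS hSm x hx hxr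
  have henc : Continuous (en : E 3 → ℝ) := by
    unfold en
    fun_prop
  apply le_of_forall_pos_le_add
  intro δ hδ
  set ε := δ / 2 with hε
  have hε0 : 0 < ε := by rw [hε]; linarith
  set S' := S + ε with hS'
  set m' := m + ε with hm'
  have hm'0 : 0 < m' := by rw [hm']; linarith
  obtain ⟨Ψ, Θ, hΨ, hΘ, hprop, hzero, hT⟩ := htf S' m' hm'0
  obtain ⟨ρ', χ, hρ'0, hρ'ρ, hshell, hχs, hχc, hχ0, hχ1, hχone, hχsup, hχgr⟩ :=
    shell_cut (r := 4 * r) hQ.fd.cont i (ζ := ζ) (S := S) (S' := S') hρ hρ1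
      (by rw [hS']; linarith) hS
  have hsup1 : tsupport χ ⊆ Bn 3 1 := by
    intro z hz
    have h1 : en z ≤ ρ := hχsup hz
    exact lt_of_le_of_lt h1 hρ1
  have hball : ∀ (t : ℝ), t ≤ 4 * r → ∀ z ∈ closedBall ζ t, z ∈ closedBall ζ (4 * r) :=
    fun t ht z hz => closedBall_subset_closedBall ht hz
  obtain ⟨s, ⟨hs1, hs2⟩, hs⟩ := hosc f D (Bn 3 1) hQ i Ψ Θ (S' + m') hΨ hΘ hprop χ hχs hχc
    hsup1 hχ0 hχ1 ζ r hr (by
      rintro z ⟨hz1, hz2⟩
      have h1 : en z ≤ ρ := hχsup hz1
      have h2 := hSm z h1 (hball _ (by linarith) z hz2)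
      rw [hS', hm']
      linarith) (by
      intro z hz1 hz2
      have h1 : ρ' ≤ en z ∧ en z ≤ ρ := hχgr hz2
      have h2 := hshell z h1.1 h1.2 (hball _ (by linarith) z hz1)
      filter_upwards [Iio_mem_nhds h2] with t ht
      exact hzero t (le_of_lt ht)) 1 one_pos
  have hs0 : 0 < s := by linarith
  -- a point of the sphere outside the unit ball
  obtain ⟨y', hy's, hy'e⟩ : ∃ y' ∈ sphere ζ s, 1 ≤ en y' := by
    have hζ2 : ζ 0 ^ 2 + ζ 1 ^ 2 + ζ 2 ^ 2 = 1 := by
      have h1 : ∑ j, ζ j ^ 2 = 1 := by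
        unfold en at hζ
        exact Real.sqrt_eq_one.mp hζ
      rw [Fin.sum_univ_three] at h1
      exact h1
    obtain ⟨σ, hσ1, hσ2⟩ : ∃ σ : ℝ, σ ^ 2 = 1 ∧ 0 ≤ σ * ζ 0 := by
      rcases le_total 0 (ζ 0) with h | h
      · exact ⟨1, by norm_num, by linarith⟩
      · exact ⟨-1, by norm_num, by linarith⟩
    refine ⟨ζ + Pi.single 0 (σ * s), ?_, ?_⟩
    · rw [mem_sphere, dist_eq_norm, add_sub_cancel_left]
      have h1 : ‖(Pi.single 0 (σ * s) : E 3)‖ = ‖σ * s‖ := by
        apply le_antisymm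
        · rw [pi_norm_le_iff_of_nonneg (norm_nonneg _)]
          intro j
          by_cases hj : j = 0
          · subst hj
            simp
          · rw [Pi.single_eq_of_ne hj, norm_zero]
            exact norm_nonneg _
        · have h2 := norm_le_pi_norm (Pi.single 0 (σ * s) : E 3) 0
          simpa using h2
      rw [h1, Real.norm_eq_abs, abs_mul, abs_of_pos hs0]
      have h3 : |σ| = 1 := by
        have hσ3 : (σ - 1) * (σ + 1) = 0 := by linear_combination hσ1
        rcases mul_eq_zero.mp hσ3 with h' | h'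
        · have h : σ = 1 := by linarith
          rw [h]; norm_num
        · have h : σ = -1 := by linarith
          rw [h]; norm_num
      rw [h3, one_mul]
    · unfold en
      rw [Real.one_le_sqrt, Fin.sum_univ_three]
      simp only [Pi.add_apply, Pi.single_eq_same]
      have e1 : (Pi.single (0 : Fin 3) (σ * s) : E 3) 1 = 0 := Pi.single_eq_of_ne (by decide) _
      have e2 : (Pi.single (0 : Fin 3) (σ * s) : E 3) 2 = 0 := Pi.single_eq_of_ne (by decide) _
      rw [e1, e2, add_zero, add_zero]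
      nlinarith [mul_nonneg hσ2 hs0.le, sq_nonneg (σ * s)]
  have hχy' : χ y' = 0 := by
    apply image_eq_zero_of_notMem_tsupport
    intro h
    have h1 : en y' ≤ ρ := hχsup h
    linarith
  have hsph : ∀ y ∈ sphere ζ s, χ y * Θ (f y i) ≤ C0 + 1 := by
    intro y hy
    have h1 := hs y hy y' hy's
    rw [hχy', zero_mul, sub_zero] at h1
    exact (le_abs_self _).trans h1
  have hA : ∀ y ∈ sphere ζ s, en y ≤ ρ → f y i ≤ S' + q * m' := by
    intro y hy hye
    have hy4 : y ∈ closedBall ζ (4 * r) := hball s (by linarith) y (sphere_subset_closedBall hy)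
    rcases le_or_gt (en y) ρ' with h | h
    · have h1 := hsph y hy
      rw [hχone y h, one_mul] at h1
      have h2 := hSm y hye hy4
      exact hT (f y i) (by rw [hS', hm']; linarith) h1
    · have h1 := hshell y h.le hye hy4
      have h2 : 0 < q * m' := mul_pos hq0 hm'0
      linarith
  have hB : ∀ y ∈ closedBall ζ (4 * r), en y = ρ → f y i ≤ S' + q * m' := by
    intro y hy hye
    have h1 := hS y hye hy
    have h2 : 0 < q * m' := mul_pos hq0 hm'0
    rw [hS']
    linarith
  have hG : ∀ y ∈ ({y | en y < ρ} ∩ ball ζ s), 1 * f y i ≤ S' + q * m' := by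
    have hcl : closure ({y | en y < ρ} ∩ ball ζ s) ⊆ {y | en y ≤ ρ} ∩ closedBall ζ s := by
      apply closure_minimal
      · rintro y ⟨h1, h2⟩
        have h1' : en y < ρ := h1
        exact ⟨h1'.le, ball_subset_closedBall h2⟩
      · exact (isClosed_le henc continuous_const).inter isClosed_closedBall
    have hopen : IsOpen ({y | en y < ρ} ∩ ball ζ s) :=
      (isOpen_lt henc continuous_const).inter isOpen_ball
    refine max_gen hQ.fd hopen ?_ ?_ i 1 (by norm_num) (S' + q * m') ?_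
    · exact (isCompact_closedBall ζ s).of_isClosed_subset isClosed_closure
        (hcl.trans inter_subset_right)
    · intro y hy
      have h1 : en y ≤ ρ := (hcl hy).1
      exact lt_of_le_of_lt h1 hρ1
    · intro y hy
      rw [one_mul]
      rw [hopen.frontier_eq] at hy
      have h1 := hcl hy.1
      have h2 : en y ≤ ρ := h1.1
      have h3 : dist y ζ ≤ s := h1.2
      rcases eq_or_lt_of_le h2 with h | h
      · exact hB y (hball s (by linarith) y h3) h
      · rcases eq_or_lt_of_le h3 with h' | h'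
        · exact hA y h' h2
        · exact absurd ⟨h, h'⟩ hy.2
  have hfin : f x i ≤ S' + q * m' := by
    rcases eq_or_lt_of_le hx with h | h
    · exact hB x (hball r (by linarith) x hxr) h
    · have h1 : x ∈ ball ζ s := lt_of_le_of_lt hxr hs1
      have h2 := hG x ⟨h, h1⟩
      rw [one_mul] at h2
      exact h2
  refine hfin.trans ?_
  rw [hS', hm', hε]
  nlinarith

end

end Pool.Agent.Helper746.Rl
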