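import Pool.Agent.Helper930.BL.TrB
import Pool.Agent.Helper930.BL.Osc
import Pool.Agent.Helper746.RlADefs
import Pool.Agent.Helper746.RlAtail

set_option autoImplicit false

namespace Pool.Agent.Helper746.Rl

open MeasureTheory Metric Set Filter Topology
open scoped ENNReal NNReal ContDiff
open H930.BL

noncomputable section

theorem tail_iter {κ : ℝ} (hκ : 0 < κ) : ∃ q : ℝ, 0 < q ∧ q < 1 ∧ ∀ (f : E 3 → E 3)
    (D : E 3 → Matrix (Fin 3) (Fin 3) ℝ), QRM f D (Bn 3 1) κ →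
    ∀ (i : Fin 3) (ζ : E 3), en ζ = 1 → ∀ (n : ℕ) (ρ r S m : ℝ), 0 < ρ → ρ < 1 → 0 < r →
    0 ≤ m →
    (∀ x, en x = ρ → x ∈ closedBall ζ (4 ^ n * r) → f x i ≤ S) →
    (∀ x, en x ≤ ρ → x ∈ closedBall ζ (4 ^ n * r) → f x i ≤ S + m) →
    ∀ x, en x ≤ ρ → x ∈ closedBall ζ r → f x i ≤ S + q ^ n * m := by
  obtain ⟨q, hq0, hq1, hq⟩ := tail_one hκ
  refine ⟨q, hq0, hq1, ?_⟩
  intro f D hf i ζ hζ n ρ r S m hρ0 hρ1 hr hm
  induction n generalizing m with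
  | zero =>
    intro _ h2 x hx1 hx2
    have h3 := h2 x hx1 (by simpa using hx2)
    simpa using h3
  | succ n ih =>
    intro h1 h2 x hx1 hx2
    have h4 : (4 : ℝ) * (4 ^ n * r) = 4 ^ (n + 1) * r := by ring
    have h5 : (0 : ℝ) < 4 ^ n * r := by positivity
    have h6 := hq f D hf i ζ hζ ρ (4 ^ n * r) S m hρ0 hρ1 h5 hm
      (by rw [h4]; exact h1) (by rw [h4]; exact h2)
    have h7 : (4 : ℝ) ^ n * r ≤ 4 ^ (n + 1) * r := by
      rw [← h4]; linarith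
    have h8 := ih (q * m) (mul_nonneg hq0.le hm)
      (fun y hy1 hy2 => h1 y hy1 (closedBall_subset_closedBall h7 hy2)) h6 x hx1 hx2
    have h9 : q ^ (n + 1) * m = q ^ n * (q * m) := by ring
    rw [h9]
    exact h8

end

end Pool.Agent.Helper746.Rl
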