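import Pool.Agent.Helper930.BL.TrB
import Pool.Agent.Helper930.BL.Osc
import Pool.Agent.Helper746.RlADefs
import Pool.Agent.Helper746.RlAtailiter

set_option autoImplicit false

namespace Pool.Agent.Helper746.Rl

open MeasureTheory Metric Set Filter Topology
open scoped ENNReal NNReal ContDiff
open H930.BL

noncomputable section

theorem gq_en_again (p : E 3) : ‖(WithLp.toLp 2 p : V)‖ = en p := by
  rw [EuclideanSpace.norm_eq]
  unfold en
  congr 1
  refine Finset.sum_congr rfl fun i _ => ?_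
  rw [Real.norm_eq_abs, sq_abs]

theorem gq_en'_again (x : V) : en (WithLp.ofLp x : E 3) = ‖x‖ := by
  rw [← gq_en_again]

theorem gq_sup_again (p : E 3) : ‖p‖ ≤ en p := by
  unfold en
  rw [pi_norm_le_iff_of_nonneg (Real.sqrt_nonneg _)]
  intro i
  rw [Real.norm_eq_abs]
  apply Real.abs_le_sqrt
  exact Finset.single_le_sum (f := fun i => p i ^ 2) (fun _ _ => sq_nonneg _) (Finset.mem_univ i)

theorem gq_le_again (p : E 3) : en p ≤ 2 * ‖p‖ := by
  unfold en
  rw [Real.sqrt_le_left (by positivity)]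
  have h : ∀ i, p i ^ 2 ≤ ‖p‖ ^ 2 := by
    intro i
    rw [← sq_abs]
    have := norm_le_pi_norm p i
    rw [Real.norm_eq_abs] at this
    exact pow_le_pow_left₀ (abs_nonneg _) this 2
  calc ∑ i, p i ^ 2 ≤ ∑ _i : Fin 3, ‖p‖ ^ 2 := Finset.sum_le_sum fun i _ => h i
    _ = 3 * ‖p‖ ^ 2 := by simp
    _ ≤ (2 * ‖p‖) ^ 2 := by nlinarith [sq_nonneg ‖p‖]

theorem gq_cont_again : Continuous (en : E 3 → ℝ) := by
  unfold en
  fun_prop

theorem gq_unit_again (x : V) : ∃ e : V, ‖e‖ = 1 ∧ x = ‖x‖ • e := by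
  by_cases h : x = 0
  · refine ⟨EuclideanSpace.single 0 1, by simp, by rw [h]; simp⟩
  · have hx : ‖x‖ ≠ 0 := norm_ne_zero_iff.2 h
    refine ⟨‖x‖⁻¹ • x, ?_, ?_⟩
    · rw [norm_smul, norm_inv, norm_norm, inv_mul_cancel₀ hx]
    · rw [smul_smul, mul_inv_cancel₀ hx, one_smul]


theorem gain_of_qrm {κ : ℝ} (hκ : 0 < κ) : ∃ q : ℝ, 0 < q ∧ q < 1 ∧ ∀ (f : V → V)
    (D : E 3 → Matrix (Fin 3) (Fin 3) ℝ), QRM (coordMap f) D (Bn 3 1) κ →
    GainG (fun x => f x 0) q := by
  obtain ⟨q, hq0, hq1, hq⟩ := tail_iter hκ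
  refine ⟨q, hq0, hq1, ?_⟩
  intro f D hf x hx n R hR hqn
  obtain ⟨t, ht1⟩ : ∃ t, t = ht x := ⟨_, rfl⟩
  have htx : t = 1 - ‖x‖ := ht1
  have ht0 : 0 < t := by rw [htx]; linarith
  have ht2 : t ≤ 1 := by rw [htx]; linarith [norm_nonneg x]
  have hexp0 : 0 < Real.exp (-R) := Real.exp_pos _
  have hexp1 : Real.exp (-R) ≤ 1 := Real.exp_le_one_iff.2 (by linarith)
  have hexpt : Real.exp (-R) * t ≤ t := mul_le_of_le_one_left ht0.le hexp1
  have h4 : (1 : ℝ) ≤ 4 ^ n := one_le_pow₀ (by norm_num)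
  have hqn0 : 0 < q ^ n := pow_pos hq0 n
  rw [← ht1]
  have hm0 : ∀ m : ℝ, (∀ p : V, ‖p‖ < 1 → Real.exp (-R) * t ≤ ht p →
          ‖p - x‖ ≤ 3 * 4 ^ n * t → f p 0 - f x 0 ≤ m) → 0 ≤ m := by
    intro m hm
    have := hm x hx (by rw [← ht1]; exact hexpt) (by rw [sub_self, norm_zero]; positivity)
    linarith
  obtain ⟨ρ, hρ⟩ : ∃ ρ, ρ = 1 - Real.exp (-R) * t := ⟨_, rfl⟩
  by_cases hρ0 : ρ ≤ 0
  · have e1 : Real.exp (-R) * t = 1 := by linarith
    have e2 : t = 1 := by linarith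
    refine ⟨x, hx, ?_, ?_, ?_⟩
    · rw [e1, ← ht1, e2]
    · rw [sub_self, norm_zero]; positivity
    · intro m hm
      have := mul_nonneg hqn0.le (hm0 m hm)
      show f x 0 - 2 * q ^ n * m ≤ f x 0
      linarith
  · rw [not_le] at hρ0
    have hρ1 : ρ < 1 := by
      have := mul_pos hexp0 ht0
      linarith
    obtain ⟨e, he, hxe⟩ := gq_unit_again x
    obtain ⟨ζ, hζ⟩ : ∃ ζ : E 3, ζ = WithLp.ofLp e := ⟨_, rfl⟩
    have hζe : (WithLp.toLp 2 ζ : V) = e := by rw [hζ]
    have hζ1 : en ζ = 1 := by rw [hζ, gq_en'_again, he]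
    have hex : ‖e - x‖ = t := by
      have : e - x = (1 - ‖x‖) • e := by
        rw [sub_smul, one_smul, ← hxe]
      rw [this, norm_smul, he, mul_one, Real.norm_eq_abs, abs_of_nonneg (by linarith), htx]
    obtain ⟨A, hA⟩ : ∃ A : Set (E 3), A = {p | en p = ρ ∧ p ∈ closedBall ζ (4 ^ n * t)} := ⟨_, rfl⟩
    have hAc : IsCompact A := by
      have h1 : A = closedBall ζ (4 ^ n * t) ∩ {p | en p = ρ} := by
        rw [hA]; ext p; exact and_comm
      rw [h1]
      exact (isCompact_closedBall _ _).inter_right (isClosed_eq gq_cont_again continuous_const)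
    have hAn : A.Nonempty := by
      refine ⟨ρ • ζ, ?_⟩
      rw [hA]
      refine ⟨?_, ?_⟩
      · rw [← gq_en_again]
        have : (WithLp.toLp 2 (ρ • ζ) : V) = ρ • e := by rw [hζ]; rfl
        rw [this, norm_smul, he, mul_one, Real.norm_eq_abs, abs_of_pos hρ0]
      · rw [mem_closedBall, dist_eq_norm]
        have h1 : ρ • ζ - ζ = (-(1 - ρ)) • ζ := by
          rw [neg_smul, sub_smul, one_smul, neg_sub]
        rw [h1, norm_smul, Real.norm_eq_abs, abs_neg, abs_of_nonneg (by linarith)]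
        have h2 : ‖ζ‖ ≤ 1 := (gq_sup_again ζ).trans hζ1.le
        calc (1 - ρ) * ‖ζ‖ ≤ (1 - ρ) * 1 := mul_le_mul_of_nonneg_left h2 (by linarith)
          _ = Real.exp (-R) * t := by rw [hρ]; ring
          _ ≤ 1 * t := by rw [one_mul]; exact hexpt
          _ ≤ 4 ^ n * t := mul_le_mul_of_nonneg_right h4 ht0.le
    have hcont : ContinuousOn (fun p => coordMap f p 0) A := by
      have h1 : ContinuousOn (coordMap f) A := hf.fd.cont.mono (by
        intro p hp
        rw [hA] at hp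
        show en p < 1
        rw [hp.1]
        exact hρ1)
      exact (continuous_apply (0 : Fin 3)).comp_continuousOn h1
    obtain ⟨p', hp', hmax⟩ := hAc.exists_isMaxOn hAn hcont
    have hmax' : ∀ p ∈ A, coordMap f p 0 ≤ coordMap f p' 0 := fun p hp => hmax hp
    have hp2 := hp'
    rw [hA] at hp2
    have hdist : ∀ p : E 3, p ∈ closedBall ζ (4 ^ n * t) →
        ‖(WithLp.toLp 2 p : V) - x‖ ≤ 3 * 4 ^ n * t := by
      intro p hp
      rw [mem_closedBall, dist_eq_norm] at hp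
      have h1 : (WithLp.toLp 2 p : V) - e = WithLp.toLp 2 (p - ζ) := by rw [← hζe]; rfl
      have h2 : ‖(WithLp.toLp 2 p : V) - e‖ ≤ 2 * (4 ^ n * t) := by
        rw [h1, gq_en_again]
        exact (gq_le_again _).trans (mul_le_mul_of_nonneg_left hp (by norm_num))
      have h3 : ‖(WithLp.toLp 2 p : V) - x‖ ≤ ‖(WithLp.toLp 2 p : V) - e‖ + ‖e - x‖ :=
        norm_sub_le_norm_sub_add_norm_sub _ _ _
      have h5 : 1 * t ≤ 4 ^ n * t := mul_le_mul_of_nonneg_right h4 ht0.le
      rw [hex] at h3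
      linarith
    refine ⟨WithLp.toLp 2 p', ?_, ?_, hdist p' hp2.2, ?_⟩
    · rw [gq_en_again, hp2.1]; exact hρ1
    · show 1 - ‖(WithLp.toLp 2 p' : V)‖ = _
      rw [gq_en_again, hp2.1, hρ]; ring
    · intro m hm
      have hm1 := hm0 m hm
      have hm2 := mul_nonneg hqn0.le hm1
      show f x 0 - 2 * q ^ n * m ≤ coordMap f p' 0
      by_cases hS : f x 0 ≤ coordMap f p' 0
      · linarith
      · rw [not_le] at hS
        have key := hq (coordMap f) D hf 0 ζ hζ1 n ρ t (coordMap f p' 0)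
          (f x 0 - coordMap f p' 0 + m) hρ0 hρ1 ht0 (by linarith)
          (fun p hp1 hp3 => hmax' p (by rw [hA]; exact ⟨hp1, hp3⟩))
          (fun p hp1 hp3 => by
            have h1 := hm (WithLp.toLp 2 p) (by rw [gq_en_again]; linarith)
              (by
                show _ ≤ 1 - ‖(WithLp.toLp 2 p : V)‖
                rw [gq_en_again]; linarith) (hdist p hp3)
            have h2 : coordMap f p 0 = f (WithLp.toLp 2 p) 0 := rfl
            rw [h2]
            linarith)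
          (WithLp.ofLp x) (by rw [gq_en'_again]; linarith)
          (by
            rw [mem_closedBall, dist_eq_norm]
            refine (gq_sup_again _).trans ?_
            have h1 : (WithLp.ofLp x : E 3) - ζ = WithLp.ofLp (x - e) := by rw [hζ]; rfl
            rw [h1, gq_en'_again, norm_sub_rev, hex])
        have h1 : coordMap f (WithLp.ofLp x) 0 = f x 0 := rfl
        rw [h1] at key
        have h2 : q ^ n * (f x 0 - coordMap f p' 0) ≤ 1 / 2 * (f x 0 - coordMap f p' 0) :=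
          mul_le_mul_of_nonneg_right (by linarith) (by linarith)
        nlinarith

end

end Pool.Agent.Helper746.Rl
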