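import Pool.Agent.Helper930.BL.TrB
import Pool.Agent.Helper930.BL.Osc
import Pool.Agent.Helper746.RlADefs
import Pool.Agent.Helper746.RlAint3
import Pool.Agent.Helper746.RlAmoll
import Pool.Agent.Helper746.RlAosclim

set_option autoImplicit false

namespace Pool.Agent.Helper746.Rl

open MeasureTheory Metric Set Filter Topology
open scoped ENNReal NNReal ContDiff
open H930.BL

noncomputable section

theorem oc_gr_le_aosccomp (F : E 3 → E 3) (j : Fin 3) (x : E 3) :
    gr (fun y => F y j) x ≤ sn (jac F x) := by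
  unfold gr sn
  have h := Finset.single_le_sum (f := fun i => ∑ j', |jac F x i j'|)
    (fun _ _ => Finset.sum_nonneg fun _ _ => abs_nonneg _) (Finset.mem_univ j)
  exact h

theorem osc_comp : ∃ C : ℝ, 0 < C ∧ ∀ (f : E 3 → E 3)
    (D : E 3 → Matrix (Fin 3) (Fin 3) ℝ) (Ω : Set (E 3)) (κ : ℝ), QRM f D Ω κ →
    ∀ (z : E 3) (h X : ℝ), 0 < h → 0 ≤ X → closedBall z (2 * h) ⊆ Ω →
    ∫ x in closedBall z (2 * h), sn (D x) ^ 3 ≤ X ^ 3 →
    ∀ x ∈ closedBall z h, ∀ j, |f x j - f z j| ≤ C * X := by
  obtain ⟨C, hC, hosc⟩ := osc_lim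
  refine ⟨2 * C, by positivity, ?_⟩
  intro f D Ω κ hQ z h X hh hX hΩ hint x hx j
  obtain ⟨F, hF, hunif, hae, Φ, hΦ, hΦb⟩ := qrm_moll hQ (isCompact_closedBall z (2 * h)) hΩ
  have hF1 : ∀ k, ContDiff ℝ 1 (F k) := fun k => (hF k).of_le (by exact_mod_cast le_top)
  have hFj : ∀ k, ContDiff ℝ 1 (fun y => F k y j) := fun k => contDiff_pi.1 (hF1 k) j
  have hunif' : TendstoUniformlyOn (fun k y => F k y j) (fun y => f y j) atTop
      (closedBall z (2 * h)) :=
    (Pi.uniformContinuous_proj (fun _ : Fin 3 => ℝ) j).comp_tendstoUniformlyOn hunif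
  have hsnc : ∀ k, Continuous (fun y => sn (jac (F k) y) ^ 3) := fun k =>
    (continuous_sn.comp (continuous_jac (hF1 k))).pow 3
  have hlim : Tendsto (fun k => ∫ x in closedBall z (2 * h), sn (jac (F k) x) ^ 3) atTop
      (𝓝 (∫ x in closedBall z (2 * h), sn (D x) ^ 3)) := by
    apply tendsto_integral_of_dominated_convergence Φ
    · intro k
      exact (hsnc k).aestronglyMeasurable
    · exact hΦ
    · intro k
      filter_upwards [hΦb] with y hy
      rw [Real.norm_eq_abs, abs_of_nonneg (pow_nonneg (sn_nonneg _) 3)]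
      exact hy k
    · filter_upwards [hae] with y hy
      exact ((continuous_sn.tendsto (D y)).comp hy).pow 3
  have hev : ∀ δ : ℝ, 0 < δ → ∀ᶠ k in atTop,
      ∫ x in closedBall z (2 * h), gr (fun y => F k y j) x ^ 3 ≤ X ^ 3 + δ := by
    intro δ hδ
    have h1 : ∀ᶠ k in atTop, ∫ x in closedBall z (2 * h), sn (jac (F k) x) ^ 3
        < (∫ x in closedBall z (2 * h), sn (D x) ^ 3) + δ :=
      hlim.eventually (gt_mem_nhds (by linarith))
    filter_upwards [h1] with k hk
    have h2 : ∫ x in closedBall z (2 * h), gr (fun y => F k y j) x ^ 3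
        ≤ ∫ x in closedBall z (2 * h), sn (jac (F k) x) ^ 3 := by
      apply integral_mono_of_nonneg
      · exact Filter.Eventually.of_forall fun y => pow_nonneg (gr_nonneg _ _) 3
      · exact (hsnc k).continuousOn.integrableOn_compact (isCompact_closedBall z (2 * h))
      · exact Filter.Eventually.of_forall fun y =>
          pow_le_pow_left₀ (gr_nonneg _ _) (oc_gr_le_aosccomp (F k) j y) 3
    linarith
  apply le_of_forall_pos_le_add
  intro ε hε
  obtain ⟨s, hs, hs2⟩ := hosc (fun y => f y j) (fun k y => F k y j) z h X hh hX hFj hunif' hev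
    (ε / 2) (by positivity)
  have hs0 : 0 < s := hh.trans hs.1
  obtain ⟨y0, hy0⟩ : (sphere z s).Nonempty := NormedSpace.sphere_nonempty.mpr hs0.le
  have hsub : closedBall z s ⊆ Ω := (closedBall_subset_closedBall hs.2.le).trans hΩ
  have hmax := mono_max hQ.fd (by norm_num) hs0 hsub j (f y0 j + (C * X + ε / 2)) (by
    intro y hy
    have := (abs_le.mp (hs2 y hy y0 hy0)).2
    linarith)
  have hmin := mono_min hQ.fd (by norm_num) hs0 hsub j (f y0 j - (C * X + ε / 2)) (by
    intro y hy
    have := (abs_le.mp (hs2 y hy y0 hy0)).1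
    linarith)
  have hxs : x ∈ closedBall z s := closedBall_subset_closedBall hs.1.le hx
  have hzs : z ∈ closedBall z s := mem_closedBall_self hs0.le
  have a1 := hmax x hxs
  have a2 := hmax z hzs
  have a3 := hmin x hxs
  have a4 := hmin z hzs
  rw [abs_le]
  constructor <;> linarith

end

end Pool.Agent.Helper746.Rl
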