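import Pool.Agent.Helper930.BL.TrB
import Pool.Agent.Helper930.BL.Osc
import Pool.Agent.Helper746.RlADefs
import Pool.Agent.Helper746.RlAenergy
import Pool.Agent.Helper746.RlAosccomp

set_option autoImplicit false

namespace Pool.Agent.Helper746.Rl

open MeasureTheory Metric Set Filter Topology
open scoped ENNReal NNReal ContDiff
open H930.BL

noncomputable section

theorem harnack_full {κ : ℝ} (hκ : 0 < κ) : ∃ C : ℝ, 0 < C ∧ ∀ (f : E 3 → E 3)
    (D : E 3 → Matrix (Fin 3) (Fin 3) ℝ) (Ω : Set (E 3)), QRM f D Ω κ →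
    ∀ (i : Fin 3) (z : E 3) (h M : ℝ), 0 < h → closedBall z (7 / 2 * h) ⊆ Ω →
    (∀ x ∈ closedBall z (7 / 2 * h), f x i ≤ M) →
    ∀ x ∈ closedBall z (7 / 16 * h), ∀ j, |f x j - f z j| ≤ C * (M - f z i) := by
  obtain ⟨C1, hC1, H1⟩ := harnack_energy hκ
  obtain ⟨C2, hC2, H2⟩ := osc_comp
  have hK : 0 < C1 ^ ((1 : ℝ) / 3) := Real.rpow_pos_of_pos hC1 _
  have hK3 : (C1 ^ ((1 : ℝ) / 3)) ^ 3 = C1 := by
    rw [← Real.rpow_natCast, ← Real.rpow_mul hC1.le]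
    norm_num
  refine ⟨C2 * C1 ^ ((1 : ℝ) / 3), mul_pos hC2 hK, ?_⟩
  intro f D Ω hq i z h M hh hΩ hM x hx j
  have hz : f z i ≤ M := hM z (mem_closedBall_self (by positivity))
  have key : ∀ ε : ℝ, 0 < ε →
      |f x j - f z j| ≤ C2 * C1 ^ ((1 : ℝ) / 3) * (M + ε - f z i) := by
    intro ε hε
    have e1 := H1 f D Ω hq i z h (M + ε) hh hΩ (fun y hy => by linarith [hM y hy])
    have e0 : 0 ≤ M + ε - f z i := by linarith
    have h2 : 2 * (7 / 16 * h) = 7 / 8 * h := by ring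
    have e2 := H2 f D Ω κ hq z (7 / 16 * h) (C1 ^ ((1 : ℝ) / 3) * (M + ε - f z i))
      (by positivity) (mul_nonneg hK.le e0)
      ((closedBall_subset_closedBall (by linarith)).trans hΩ)
      (by
        rw [h2, mul_pow, hK3]
        exact e1) x hx j
    rw [mul_assoc]
    exact e2
  refine le_of_forall_pos_le_add fun δ hδ => ?_
  have hC : 0 < C2 * C1 ^ ((1 : ℝ) / 3) := mul_pos hC2 hK
  have h3 := key (δ / (C2 * C1 ^ ((1 : ℝ) / 3))) (div_pos hδ hC)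
  have h4 : C2 * C1 ^ ((1 : ℝ) / 3) * (M + δ / (C2 * C1 ^ ((1 : ℝ) / 3)) - f z i) =
      C2 * C1 ^ ((1 : ℝ) / 3) * (M - f z i) + δ := by
    field_simp
    ring
  rw [h4] at h3
  exact h3

end

end Pool.Agent.Helper746.Rl
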