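import Pool.Agent.Helper930.BL.TrB
import Pool.Agent.Helper930.BL.Osc
import Pool.Agent.Helper746.RlADefs
import Pool.Agent.Helper746.RlAharnack

set_option autoImplicit false

namespace Pool.Agent.Helper746.Rl

open MeasureTheory Metric Set Filter Topology
open scoped ENNReal NNReal ContDiff
open H930.BL

noncomputable section

theorem ah_norm_sq_aharnackH (v : V) : ‖v‖ ^ 2 = v 0 ^ 2 + v 1 ^ 2 + v 2 ^ 2 := by
  rw [EuclideanSpace.norm_eq, Real.sq_sqrt (Finset.sum_nonneg fun i _ => by positivity),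
    Fin.sum_univ_three]
  simp only [Real.norm_eq_abs, sq_abs]

theorem ah_norm_le_aharnackH (v : V) : ‖v‖ ≤ |v 0| + |v 1| + |v 2| := by
  have h0 := abs_nonneg (v 0)
  have h1 := abs_nonneg (v 1)
  have h2 := abs_nonneg (v 2)
  apply le_of_sq_le_sq _ (by positivity)
  rw [ah_norm_sq_aharnackH, ← sq_abs (v 0), ← sq_abs (v 1), ← sq_abs (v 2)]
  nlinarith [mul_nonneg h0 h1, mul_nonneg h0 h2, mul_nonneg h1 h2]

theorem ah_en_aharnackH (x : E 3) : en x = ‖(WithLp.toLp 2 x : V)‖ := by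
  unfold en
  rw [EuclideanSpace.norm_eq]
  simp only [Real.norm_eq_abs, sq_abs]

theorem harnackH_of_qrm {κ : ℝ} (hκ : 0 < κ) : ∃ C : ℝ, 0 < C ∧ ∀ (f : V → V)
    (D : E 3 → Matrix (Fin 3) (Fin 3) ℝ), QRM (coordMap f) D (Bn 3 1) κ →
    HarnackH f (fun x => f x 0) C := by
  obtain ⟨C0, hC0, H⟩ := harnack_full hκ
  refine ⟨3 * C0, by positivity, ?_⟩
  intro f D hQ y hy M hM y' hy'
  have hht : 0 < ht y := by unfold ht; linarith
  have hzy : (WithLp.toLp 2 (fun i => y i) : V) = y := rfl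
  have hball : ∀ x ∈ closedBall (fun i => y i : E 3) (7 / 2 * (ht y / 7)),
      ‖(WithLp.toLp 2 x : V) - y‖ < 7 / 8 * ht y := by
    intro x hx
    rw [mem_closedBall, dist_pi_le_iff (by positivity)] at hx
    have h0 := hx 0
    have h1 := hx 1
    have h2 := hx 2
    rw [Real.dist_eq] at h0 h1 h2
    have e : (7 / 2 : ℝ) * (ht y / 7) = ht y / 2 := by ring
    rw [e] at h0 h1 h2
    have g : ∀ t : ℝ, |t| ≤ ht y / 2 → t ^ 2 ≤ (ht y / 2) ^ 2 := fun t ht' => by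
      rw [← sq_abs t]
      exact pow_le_pow_left₀ (abs_nonneg _) ht' 2
    have hs : ‖(WithLp.toLp 2 x : V) - y‖ ^ 2 < (7 / 8 * ht y) ^ 2 := by
      rw [ah_norm_sq_aharnackH]
      have g0 : (((WithLp.toLp 2 x : V) - y) 0) ^ 2 ≤ (ht y / 2) ^ 2 := g _ h0
      have g1 : (((WithLp.toLp 2 x : V) - y) 1) ^ 2 ≤ (ht y / 2) ^ 2 := g _ h1
      have g2 : (((WithLp.toLp 2 x : V) - y) 2) ^ 2 ≤ (ht y / 2) ^ 2 := g _ h2
      have hp : 0 < ht y ^ 2 := by positivity
      nlinarith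
    exact lt_of_pow_lt_pow_left₀ 2 (by positivity) hs
  have key := H (coordMap f) D (Bn 3 1) hQ 0 (fun i => y i) (ht y / 7) M (by positivity) (by
    intro x hx
    have h1 := hball x hx
    show en x < 1
    rw [ah_en_aharnackH]
    have h2 : ‖(WithLp.toLp 2 x : V)‖ ≤ ‖(WithLp.toLp 2 x : V) - y‖ + ‖y‖ := by
      have := norm_add_le ((WithLp.toLp 2 x : V) - y) y
      rwa [sub_add_cancel] at this
    have h3 : ht y = 1 - ‖y‖ := rfl
    linarith) (fun x hx => hM _ (hball x hx)) (fun i => y' i) (by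
    rw [mem_closedBall, dist_pi_le_iff (by positivity)]
    intro i
    rw [Real.dist_eq]
    have h1 : ‖(y' - y) i‖ ≤ ‖y' - y‖ := PiLp.norm_apply_le (y' - y) i
    have h2 : |y' i - y i| ≤ ‖y' - y‖ := h1
    have e : (7 / 16 : ℝ) * (ht y / 7) = ht y / 16 := by ring
    rw [e]
    exact h2.trans hy')
  have k0 : |(f y' - f y) 0| ≤ C0 * (M - f y 0) := key 0
  have k1 : |(f y' - f y) 1| ≤ C0 * (M - f y 0) := key 1
  have k2 : |(f y' - f y) 2| ≤ C0 * (M - f y 0) := key 2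
  have h := ah_norm_le_aharnackH (f y' - f y)
  show ‖f y' - f y‖ ≤ 3 * C0 * (M - f y 0)
  linarith

end

end Pool.Agent.Helper746.Rl
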