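import Mathlib
import Pool.Agent.Helper746.RlDefs

set_option autoImplicit false

namespace Pool.Agent.Helper746.Rl

open Set Metric MeasureTheory Filter Topology

noncomputable section

theorem ph_ge_rpow {γ β c Q : ℝ} (hc : 0 < c) (hQ : 1 ≤ Q) : Q ^ γ ≤ ph γ β c Q := by
  unfold ph
  have h0 : (0:ℝ) ≤ Q := by linarith
  have : 0 ≤ c * Q ^ β := mul_nonneg hc.le (Real.rpow_nonneg h0 _)
  linarith

theorem ph_ge_c {γ β c Q : ℝ} (hc : 0 < c) (hQ : 1 ≤ Q) : c * Q ^ β ≤ ph γ β c Q := by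
  unfold ph
  have h0 : (0:ℝ) ≤ Q := by linarith
  have : 0 ≤ Q ^ γ := Real.rpow_nonneg h0 _
  linarith

theorem ph_one_le {γ β c Q : ℝ} (hγ : 0 < γ) (hc : 0 < c) (hQ : 1 ≤ Q) : 1 ≤ ph γ β c Q :=
  (Real.one_le_rpow hQ hγ.le).trans (ph_ge_rpow hc hQ)

theorem ph_le {γ β c Q : ℝ} (hγβ : γ ≤ β) (hc : 0 < c) (hQ : 1 ≤ Q) :
    ph γ β c Q ≤ (1 + c) * Q ^ β := by
  unfold ph
  have : Q ^ γ ≤ Q ^ β := Real.rpow_le_rpow_of_exponent_le hQ hγβ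
  nlinarith

theorem ph_mono {γ β c Q Q' : ℝ} (hγ : 0 < γ) (hγβ : γ ≤ β) (hc : 0 < c) (hQ : 1 ≤ Q)
    (h : Q ≤ Q') : ph γ β c Q ≤ ph γ β c Q' := by
  unfold ph
  have h0 : (0:ℝ) ≤ Q := by linarith
  have h1 : Q ^ γ ≤ Q' ^ γ := Real.rpow_le_rpow h0 h hγ.le
  have h2 : Q ^ β ≤ Q' ^ β := Real.rpow_le_rpow h0 h (hγ.le.trans hγβ)
  have h3 : c * Q ^ β ≤ c * Q' ^ β := mul_le_mul_of_nonneg_left h2 hc.le
  linarith

theorem ph_scale {γ β c Q l : ℝ} (hγ : 0 < γ) (hγβ : γ ≤ β) (hc : 0 < c) (hQ : 1 ≤ Q)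
    (hl : 1 ≤ l) : ph γ β c (l * Q) ≤ l ^ β * ph γ β c Q := by
  unfold ph
  have h0 : (0:ℝ) ≤ Q := by linarith
  have hl0 : (0:ℝ) ≤ l := by linarith
  rw [Real.mul_rpow hl0 h0, Real.mul_rpow hl0 h0]
  have h1 : l ^ γ ≤ l ^ β := Real.rpow_le_rpow_of_exponent_le hl hγβ
  have h2 : 0 ≤ Q ^ γ := Real.rpow_nonneg h0 _
  nlinarith [mul_le_mul_of_nonneg_right h1 h2]

end

end Pool.Agent.Helper746.Rl
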