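import Mathlib
import Pool.Agent.Helper746.RlDefs

set_option autoImplicit false

namespace Pool.Agent.Helper746.Rl

open Set Metric MeasureTheory Filter Topology

noncomputable section

theorem ht_pos {x : V} (hx : ‖x‖ < 1) : 0 < ht x := by
  unfold ht; linarith

theorem ht_le_one (x : V) : ht x ≤ 1 := by
  unfold ht; linarith [norm_nonneg x]

theorem abs_ht_sub_le (x y : V) : |ht x - ht y| ≤ ‖x - y‖ := by
  unfold ht
  have h : (1 - ‖x‖) - (1 - ‖y‖) = -(‖x‖ - ‖y‖) := by ring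
  rw [h, abs_neg]
  exact abs_norm_sub_norm_le x y

theorem qf_TT_x_qfacts (x p : V) : ht x ≤ TT x p := (le_max_left _ _).trans (le_max_left _ _)
theorem qf_TT_p_qfacts (x p : V) : ht p ≤ TT x p := (le_max_right _ _).trans (le_max_left _ _)
theorem qf_TT_n_qfacts (x p : V) : ‖x - p‖ ≤ TT x p := le_max_right _ _
theorem qf_TT_pos_qfacts {x : V} (hx : ‖x‖ < 1) (p : V) : 0 < TT x p := (ht_pos hx).trans_le (qf_TT_x_qfacts x p)
theorem qf_TT_le_qfacts {x p : V} {t : ℝ} (h1 : ht x ≤ t) (h2 : ht p ≤ t) (h3 : ‖x - p‖ ≤ t) :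
    TT x p ≤ t := max_le (max_le h1 h2) h3

theorem QQ_one_le {x p : V} (hx : ‖x‖ < 1) (hp : ‖p‖ < 1) : 1 ≤ QQ x p := by
  have h1 := ht_pos hx
  have h2 := ht_pos hp
  unfold QQ
  rw [one_le_div (mul_pos h1 h2), sq]
  exact mul_le_mul (qf_TT_x_qfacts x p) (qf_TT_p_qfacts x p) h2.le (qf_TT_pos_qfacts hx p).le

theorem qf_mul_qfacts {x p : V} (hx : ‖x‖ < 1) (hp : ‖p‖ < 1) : QQ x p * ht x = TT x p ^ 2 / ht p := by
  have h1 := ht_pos hx
  have h2 := ht_pos hp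
  unfold QQ
  field_simp

theorem ht_le_QQ {x p : V} (hx : ‖x‖ < 1) (hp : ‖p‖ < 1) : ht p ≤ QQ x p * ht x := by
  have h2 := ht_pos hp
  rw [qf_mul_qfacts hx hp, le_div_iff₀ h2, sq]
  exact mul_le_mul (qf_TT_p_qfacts x p) (qf_TT_p_qfacts x p) h2.le (qf_TT_pos_qfacts hx p).le

theorem TT_le_QQ {x p : V} (hx : ‖x‖ < 1) (hp : ‖p‖ < 1) : TT x p ≤ QQ x p * ht x := by
  have h2 := ht_pos hp
  rw [qf_mul_qfacts hx hp, le_div_iff₀ h2, sq]
  exact mul_le_mul le_rfl (qf_TT_p_qfacts x p) h2.le (qf_TT_pos_qfacts hx p).le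

theorem QQ_near {x y p : V} (hx : ‖x‖ < 1) (hy : ‖y‖ < 1) (hp : ‖p - y‖ < (7 / 8) * ht y) :
    ‖p‖ < 1 ∧ QQ x p ≤ 32 * QQ x y := by
  have hh := ht_pos hy
  have hx0 := ht_pos hx
  have habs := abs_le.mp (abs_ht_sub_le p y)
  have hp8 : ht y / 8 < ht p := by linarith [habs.1]
  have hp2 : ht p ≤ 2 * ht y := by linarith [habs.2]
  have hp1 : ‖p‖ < 1 := by
    have : 0 < ht p := by linarith
    unfold ht at this
    linarith
  refine ⟨hp1, ?_⟩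
  have hTpos := qf_TT_pos_qfacts hx y
  have hT : TT x p ≤ 2 * TT x y := by
    refine qf_TT_le_qfacts ?_ ?_ ?_
    · linarith [qf_TT_x_qfacts x y]
    · linarith [qf_TT_p_qfacts x y]
    · have h1 : ‖x - p‖ ≤ ‖x - y‖ + ‖p - y‖ := by
        have h2 : x - p = (x - y) - (p - y) := by abel
        rw [h2]
        exact norm_sub_le _ _
      linarith [qf_TT_n_qfacts x y, qf_TT_p_qfacts x y]
  unfold QQ
  have hT0 := qf_TT_pos_qfacts hx p
  have h3 : TT x p ^ 2 ≤ 4 * TT x y ^ 2 := by nlinarith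
  have hpp : 0 < ht p := by linarith
  rw [div_le_iff₀ (mul_pos hx0 hpp)]
  have h4 : 32 * (TT x y ^ 2 / (ht x * ht y)) * (ht x * ht p) = 32 * TT x y ^ 2 * (ht p / ht y) := by
    field_simp
  rw [h4]
  have h5 : 1 / 8 ≤ ht p / ht y := by
    rw [le_div_iff₀ hh]
    linarith
  have h6 : 32 * TT x y ^ 2 * (1 / 8) ≤ 32 * TT x y ^ 2 * (ht p / ht y) :=
    mul_le_mul_of_nonneg_left h5 (by positivity)
  linarith

theorem QQ_region {x p : V} (hx : ‖x‖ < 1) (hp : ‖p‖ < 1) {n : ℕ} {R : ℝ}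
    (h1 : Real.exp (-R) * ht x ≤ ht p) (h2 : ‖p - x‖ ≤ 3 * 4 ^ n * ht x) :
    TT x p ≤ 4 ^ (n + 1) * ht x ∧ QQ x p ≤ 16 ^ (n + 1) * Real.exp R := by
  have hx0 := ht_pos hx
  have hp0 := ht_pos hp
  have h4 : (1 : ℝ) ≤ 4 ^ n := one_le_pow₀ (by norm_num)
  have h4x : ht x ≤ 4 ^ n * ht x := by nlinarith
  have hsucc : (4 : ℝ) ^ (n + 1) * ht x = 4 * (4 ^ n * ht x) := by rw [pow_succ]; ring
  have h2' : ‖p - x‖ ≤ 3 * (4 ^ n * ht x) := by linarith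
  have habs := abs_le.mp (abs_ht_sub_le p x)
  have hT : TT x p ≤ 4 ^ (n + 1) * ht x := by
    rw [hsucc]
    refine qf_TT_le_qfacts ?_ ?_ ?_
    · linarith
    · linarith [habs.2]
    · rw [norm_sub_rev]
      linarith
  refine ⟨hT, ?_⟩
  unfold QQ
  rw [div_le_iff₀ (mul_pos hx0 hp0)]
  have hT0 := qf_TT_pos_qfacts hx p
  have h5 : TT x p ^ 2 ≤ (4 ^ (n + 1) * ht x) ^ 2 := pow_le_pow_left₀ hT0.le hT 2
  have h6 : ((4 : ℝ) ^ (n + 1) * ht x) ^ 2 = 16 ^ (n + 1) * (ht x * ht x) := by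
    rw [mul_pow, ← pow_mul, mul_comm (n + 1) 2, pow_mul]
    norm_num
    ring
  rw [h6] at h5
  refine h5.trans ?_
  have h7 : ht x ≤ Real.exp R * ht p := by
    have h8 : Real.exp R * (Real.exp (-R) * ht x) ≤ Real.exp R * ht p :=
      mul_le_mul_of_nonneg_left h1 (Real.exp_pos _).le
    rw [← mul_assoc, ← Real.exp_add, add_neg_cancel, Real.exp_zero, one_mul] at h8
    exact h8
  have h9 : (16 : ℝ) ^ (n + 1) * Real.exp R * (ht x * ht p) =
      16 ^ (n + 1) * (ht x * (Real.exp R * ht p)) := by ring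
  rw [h9]
  refine mul_le_mul_of_nonneg_left ?_ (by positivity)
  exact mul_le_mul_of_nonneg_left h7 hx0.le

end

end Pool.Agent.Helper746.Rl
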