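import Mathlib
import Pool.Agent.Helper746.RlDefs
import Pool.Agent.Helper746.RlQfacts
import Pool.Agent.Helper746.RlPhfacts

set_option autoImplicit false

namespace Pool.Agent.Helper746.Rl

open Set Metric MeasureTheory Filter Topology

noncomputable section

theorem ss_aux_bdd_sfacts {γ β c : ℝ} (hγ : 0 < γ) (hc : 0 < c) {u : V → ℝ}
    (hu : ∀ x : V, ‖x‖ < 1 → |u x| ≤ 1) {x : V} (hx : ‖x‖ < 1) :
    BddAbove (Set.range (fun p : {p : V // ‖p‖ < 1} => (u p - u x) / ph γ β c (QQ x p))) := by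
  refine ⟨2, ?_⟩
  rintro _ ⟨⟨p, hp⟩, rfl⟩
  have h1 : 1 ≤ ph γ β c (QQ x p) := ph_one_le hγ hc (QQ_one_le hx hp)
  have h2 := abs_le.1 (hu x hx)
  have h3 := abs_le.1 (hu p hp)
  show (u p - u x) / ph γ β c (QQ x p) ≤ 2
  rw [div_le_iff₀ (by linarith)]
  nlinarith

theorem ss_nonneg {γ β c : ℝ} (hγ : 0 < γ) (hγβ : γ ≤ β) (hc : 0 < c) {u : V → ℝ}
    (hu : ∀ x : V, ‖x‖ < 1 → |u x| ≤ 1) {x : V} (hx : ‖x‖ < 1) : 0 ≤ ss γ β c u x := by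
  have h := le_ciSup (ss_aux_bdd_sfacts (β := β) hγ hc hu hx) ⟨x, hx⟩
  have h0 : (u x - u x) / ph γ β c (QQ x x) = 0 := by simp
  have h' : (u x - u x) / ph γ β c (QQ x x) ≤ ss γ β c u x := h
  rw [h0] at h'
  exact h'

theorem ss_upper {γ β c : ℝ} (hγ : 0 < γ) (hγβ : γ ≤ β) (hc : 0 < c) {u : V → ℝ}
    (hu : ∀ x : V, ‖x‖ < 1 → |u x| ≤ 1) {x : V} (hx : ‖x‖ < 1) (p : V) (hp : ‖p‖ < 1) :
    u p - u x ≤ ss γ β c u x * ph γ β c (QQ x p) := by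
  have h := le_ciSup (ss_aux_bdd_sfacts (β := β) hγ hc hu hx) ⟨p, hp⟩
  have h' : (u p - u x) / ph γ β c (QQ x p) ≤ ss γ β c u x := h
  have h1 : 1 ≤ ph γ β c (QQ x p) := ph_one_le hγ hc (QQ_one_le hx hp)
  rwa [div_le_iff₀ (by linarith)] at h'

theorem ss_attain {γ β c : ℝ} (hγ : 0 < γ) (hγβ : γ ≤ β) (hc : 0 < c) {u : V → ℝ}
    (hu : ∀ x : V, ‖x‖ < 1 → |u x| ≤ 1) {x : V} (hx : ‖x‖ < 1) (hs : 0 < ss γ β c u x) :
    ∃ p : V, ‖p‖ < 1 ∧ ss γ β c u x * ph γ β c (QQ x p) / 2 ≤ u p - u x := by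
  have hlt : ss γ β c u x / 2 < ss γ β c u x := by linarith
  haveI : Nonempty {p : V // ‖p‖ < 1} := ⟨⟨x, hx⟩⟩
  have hlt' : ss γ β c u x / 2 <
      ⨆ p : {p : V // ‖p‖ < 1}, (u p - u x) / ph γ β c (QQ x p) := hlt
  obtain ⟨⟨p, hp⟩, h⟩ := exists_lt_of_lt_ciSup hlt'
  refine ⟨p, hp, ?_⟩
  have h1 : 1 ≤ ph γ β c (QQ x p) := ph_one_le hγ hc (QQ_one_le hx hp)
  have h2 : ss γ β c u x / 2 < (u p - u x) / ph γ β c (QQ x p) := h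
  rw [lt_div_iff₀ (by linarith)] at h2
  linarith

end

end Pool.Agent.Helper746.Rl
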