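import Mathlib
import Pool.Agent.Helper746.RlDefs
import Pool.Agent.Helper746.RlQfacts
import Pool.Agent.Helper746.RlPhfacts
import Pool.Agent.Helper746.RlSfacts

set_option autoImplicit false

namespace Pool.Agent.Helper746.Rl

open Set Metric MeasureTheory Filter Topology

noncomputable section

theorem child_step {F : V → V} {u : V → ℝ} {γ β c CV q : ℝ} (hγ : 0 < γ) (hγβ : γ ≤ β)
    (hc : 0 < c) (hu : ∀ x : V, ‖x‖ < 1 → |u x| ≤ 1) (hCV : 0 < CV)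
    (hV : ∀ x p : V, ‖x‖ < 1 → ‖p‖ < 1 →
      ‖F p - F x‖ ≤ CV * ss γ β c u x * ph γ β c (QQ x p))
    (hq : 0 < q) (hG : GainG u q) {N : ℕ} (hN : 2 * q ^ N ≤ 1) {Q0 : ℝ}
    (hQ0 : Q0 = 16 ^ (N + 1) * Real.exp (2 / γ)) (hcQ : c * Q0 ^ β ≤ Q0 ^ γ)
    (hk : 2 * q ^ N * (2 * Real.exp 1 * (2 * Q0 ^ γ)) ≤ 1 / 4)
    {C : ℝ} (hC1 : 3 * 4 ^ (N + 1) * 2 ^ (1 / γ) ≤ C)
    (hC2 : 4 * Real.exp 2 * CV * Q0 ^ γ ≤ C) {x : V} (hx : ‖x‖ < 1) {b : ℝ} (hb : 0 < b)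
    (hb2 : b ≤ 2) (hs : ss γ β c u x ≤ 2 * Real.exp 1 * b) :
    ∃ (x' : V) (b' : ℝ), GStep F u (1 / γ) β C x b x' b' := by
  have hR : 0 ≤ 2 / γ := by positivity
  obtain ⟨x', h1, h2, h3, h4⟩ := hG x hx N (2 / γ) hR hN
  have ht0 : 0 < ht x := ht_pos hx
  have he : 0 < Real.exp 1 := Real.exp_pos 1
  have hed : (2.7182818283 : ℝ) < Real.exp 1 := Real.exp_one_gt_d9
  have hC0 : 0 < C := lt_of_lt_of_le (by positivity) hC1
  obtain ⟨r1, r2⟩ := QQ_region (p := x') (R := 2 / γ) hx h1 h2.ge h3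
  rw [← hQ0] at r2
  have hQ1 : 1 ≤ Q0 := by
    rw [hQ0]
    exact one_le_mul_of_one_le_of_one_le (one_le_pow₀ (by norm_num)) (Real.one_le_exp hR)
  have hQγ : 0 < Q0 ^ γ := Real.rpow_pos_of_pos (by linarith) _
  have hph : ph γ β c Q0 ≤ 2 * Q0 ^ γ := by
    unfold ph; linarith
  have hs0 : 0 ≤ ss γ β c u x := ss_nonneg hγ hγβ hc hu hx
  have hbe : b / Real.exp 1 * Real.exp 1 = b := div_mul_cancel₀ _ he.ne'
  have hb' : b / Real.exp 1 ≤ 38 / 100 * b := by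
    rw [div_le_iff₀ he]
    nlinarith
  have hb'0 : 0 < b / Real.exp 1 := by positivity
  refine ⟨x', b / Real.exp 1, h1, hb'0, by linarith, ?_, ?_, ?_, ?_⟩
  · rw [h2, Real.div_rpow hb.le he.le, Real.exp_one_rpow]
    have e1 : Real.exp (-(2 / γ)) = Real.exp (-(1 / γ)) * Real.exp (-(1 / γ)) := by
      rw [← Real.exp_add]
      congr 1
      ring
    rw [e1]
    have e2 : Real.exp (-(1 / γ)) ≠ 0 := (Real.exp_pos _).ne'
    have : Real.exp (-(1 / γ)) * Real.exp (-(1 / γ)) * ht x * (b ^ (-(1 / γ)) / Real.exp (-(1 / γ))) =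
        Real.exp (-(1 / γ)) * (ht x * b ^ (-(1 / γ))) := by
      field_simp
    exact this.le
  · have k1 : 1 ≤ (2 : ℝ) ^ (1 / γ) * b ^ (-(1 / γ)) := by
      rw [Real.rpow_neg hb.le, ← div_eq_mul_inv, one_le_div (Real.rpow_pos_of_pos hb _)]
      exact Real.rpow_le_rpow hb.le hb2 (by positivity)
    have k2 : 0 < b ^ (-(1 / γ)) := Real.rpow_pos_of_pos hb _
    calc TT x x' ≤ 4 ^ (N + 1) * ht x := r1
      _ ≤ 4 ^ (N + 1) * ht x * ((2 : ℝ) ^ (1 / γ) * b ^ (-(1 / γ))) :=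
          le_mul_of_one_le_right (by positivity) k1
      _ = (4 ^ (N + 1) * (2 : ℝ) ^ (1 / γ)) * (ht x * b ^ (-(1 / γ))) := by ring
      _ ≤ C * (ht x * b ^ (-(1 / γ))) := by
          apply mul_le_mul_of_nonneg_right _ (by positivity)
          refine le_trans ?_ hC1
          have : 0 < (4 : ℝ) ^ (N + 1) * (2 : ℝ) ^ (1 / γ) := by positivity
          linarith
  · intro p hp l hl hql
    have g1 : QQ x p ≤ l * Q0 := hql.trans (mul_le_mul_of_nonneg_left r2 (by linarith))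
    have g2 : ph γ β c (QQ x p) ≤ l ^ β * (2 * Q0 ^ γ) :=
      (ph_mono hγ hγβ hc (QQ_one_le hx hp) g1).trans
        ((ph_scale hγ hγβ hc hQ1 hl).trans
          (mul_le_mul_of_nonneg_left hph (Real.rpow_nonneg (by linarith) _)))
    have g3 : 0 ≤ ph γ β c (QQ x p) := by
      have := ph_one_le (γ := γ) (β := β) hγ hc (QQ_one_le hx hp)
      linarith
    have hlβ : 0 < l ^ β := Real.rpow_pos_of_pos (by linarith) _
    have hee : Real.exp 1 * Real.exp 1 = Real.exp 2 := by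
      rw [← Real.exp_add]; norm_num
    calc ‖F p - F x‖ ≤ CV * ss γ β c u x * ph γ β c (QQ x p) := hV x p hx hp
      _ ≤ CV * (2 * Real.exp 1 * b) * (l ^ β * (2 * Q0 ^ γ)) :=
          mul_le_mul (mul_le_mul_of_nonneg_left hs hCV.le) g2 g3 (by positivity)
      _ = CV * (2 * Real.exp 1 * (b / Real.exp 1 * Real.exp 1)) * (l ^ β * (2 * Q0 ^ γ)) := by
          rw [hbe]
      _ = 4 * (Real.exp 1 * Real.exp 1) * CV * Q0 ^ γ * ((b / Real.exp 1) * l ^ β) := by ring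
      _ = 4 * Real.exp 2 * CV * Q0 ^ γ * ((b / Real.exp 1) * l ^ β) := by rw [hee]
      _ ≤ C * ((b / Real.exp 1) * l ^ β) := mul_le_mul_of_nonneg_right hC2 (by positivity)
      _ = C * (b / Real.exp 1) * l ^ β := by ring
  · have h5 := h4 (2 * Real.exp 1 * b * (2 * Q0 ^ γ)) (by
      intro p hp hp1 hp2
      obtain ⟨-, w2⟩ := QQ_region (R := 2 / γ) hx hp hp1 hp2
      rw [← hQ0] at w2
      have g2 : ph γ β c (QQ x p) ≤ 2 * Q0 ^ γ :=
        (ph_mono hγ hγβ hc (QQ_one_le hx hp) w2).trans hph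
      have g3 : 0 ≤ ph γ β c (QQ x p) := by
        have := ph_one_le (γ := γ) (β := β) hγ hc (QQ_one_le hx hp)
        linarith
      exact (ss_upper hγ hγβ hc hu hx p hp).trans (mul_le_mul hs g2 g3 (by positivity)))
    have h6 : 2 * q ^ N * (2 * Real.exp 1 * b * (2 * Q0 ^ γ)) =
        (2 * q ^ N * (2 * Real.exp 1 * (2 * Q0 ^ γ))) * b := by ring
    rw [h6] at h5
    have h7 : (2 * q ^ N * (2 * Real.exp 1 * (2 * Q0 ^ γ))) * b ≤ 1 / 4 * b :=
      mul_le_mul_of_nonneg_right hk hb.le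
    linarith

end

end Pool.Agent.Helper746.Rl
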