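import Pool.Agent.Helper930.BL.TrB
import Pool.Agent.Helper930.BL.Osc
import Pool.Agent.Helper746.RlADefs

set_option autoImplicit false

namespace Pool.Agent.Helper746.Rl

open MeasureTheory Metric Set Filter Topology
open scoped ENNReal NNReal ContDiff
open H930.BL

noncomputable section

open WithLp H930.BL.XTrB in
theorem qrm_of_frozen {f : V → V} {K : ℝ} (hK : 0 < K) {Df : V → (V →L[ℝ] V)}
    (hf : ContinuousOn f (Metric.ball (0 : V) 1))
    (hm : AEStronglyMeasurable Df (volume.restrict (Metric.ball (0 : V) 1)))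
    (hl : LocallyIntegrableOn (fun x => ‖Df x‖ ^ 3) (Metric.ball (0 : V) 1) volume)
    (hw : ∀ φ : V → ℝ, ContDiff ℝ 1 φ → HasCompactSupport φ →
      tsupport φ ⊆ Metric.ball (0 : V) 1 → ∀ v : V,
        ∫ x, (fderiv ℝ φ x v) • f x = -∫ x, φ x • (Df x v))
    (hq : ∀ᵐ x ∂(volume.restrict (Metric.ball (0 : V) 1)),
      ‖Df x‖ ^ 3 ≤ K * LinearMap.det (Df x).toLinearMap) :
    ∃ (D : E 3 → Matrix (Fin 3) (Fin 3) ℝ) (κ : ℝ), QRM (coordMap f) D (Bn 3 1) κ := by
  have hopen : IsOpen (Metric.ball (0 : V) 1) := Metric.isOpen_ball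
  have hDl : LocallyIntegrableOn Df (Metric.ball (0 : V) 1) := by
    rw [locallyIntegrableOn_iff hopen.isLocallyClosed]
    intro k hk hkc
    have h1 : IntegrableOn (fun x => ‖Df x‖ ^ 3) k := hl.integrableOn_compact_subset hk hkc
    have h2 : IntegrableOn (fun _ : V => (1 : ℝ)) k := by
      rw [integrableOn_const_iff]; right; exact hkc.measure_lt_top
    refine (h2.add h1).mono' (hm.mono_measure (Measure.restrict_mono hk le_rfl)) ?_
    filter_upwards with x
    show ‖Df x‖ ≤ 1 + ‖Df x‖ ^ 3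
    nlinarith [norm_nonneg (Df x), sq_nonneg (‖Df x‖ - 1), sq_nonneg (‖Df x‖)]
  have hfl : LocallyIntegrableOn f (Metric.ball (0 : V) 1) :=
    hf.locallyIntegrableOn measurableSet_ball
  have hW : ∀ φ : V → ℝ, ContDiff ℝ ((⊤ : ℕ∞) : WithTop ℕ∞) φ → HasCompactSupport φ →
      tsupport φ ⊆ Metric.ball 0 1 → ∀ v : V,
        ∫ x in Metric.ball (0 : V) 1, (fderiv ℝ φ x v) • f x
          = - ∫ x in Metric.ball (0 : V) 1, φ x • Df x v := by
    intro φ h1 h2 h3 v
    have h4 := hw φ (h1.of_le (by exact_mod_cast le_top)) h2 h3 v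
    rw [setIntegral_eq_integral_of_forall_compl_eq_zero,
      setIntegral_eq_integral_of_forall_compl_eq_zero]
    · exact h4
    · intro x hx
      rw [image_eq_zero_of_notMem_tsupport (fun h => hx (h3 h)), zero_smul]
    · intro x hx
      rw [fderiv_of_notMem_tsupport (𝕜 := ℝ) (fun h => hx (h3 h))]
      simp
  obtain ⟨D, hDm, hD⟩ := exists_D hDl
  have hcont : ContinuousOn (coordMap f) (Bn 3 1) := by
    have h1 : ContinuousOn (fun x : E 3 => f (toLp 2 x)) (Bn 3 1) := by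
      refine hf.comp (cont_toLp 3).continuousOn ?_
      intro x hx
      rw [← preim_ball] at hx
      exact hx
    exact (cont_ofLp 3).comp_continuousOn h1
  have hweak : ∀ φ : E 3 → ℝ, ContDiff ℝ ∞ φ → HasCompactSupport φ → tsupport φ ⊆ Bn 3 1 →
      ∀ i j, ∫ x, (coordMap f) x i * pd φ j x
        = - ∫ x, D x i j * φ x :=
    fun φ h1 h2 h3 i j => weak_tr hfl hDl hW hD h1 h2 h3 i j
  -- pointwise facts
  have hq' : ∀ᵐ x ∂(volume.restrict (Bn 3 1)), ‖Df (toLp 2 x)‖ ^ 3 ≤ K * (D x).det ∧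
      D x = mat (Df (toLp 2 x)) := by
    have h1 := (mp_restrict 3).quasiMeasurePreserving.ae hq
    filter_upwards [h1, hD] with x hx hx2
    refine ⟨?_, hx2⟩
    have h3 : LinearMap.det (Df (toLp 2 x)).toLinearMap = (mat (Df (toLp 2 x))).det :=
      mat_det _
    rw [h3, ← hx2] at hx
    exact hx
  have hent : ∀ (L : V →L[ℝ] V) (i j : Fin 3), |mat L i j| ≤ ‖L‖ := by
    intro L i j
    have h1 : |(L (EuclideanSpace.single j 1)) i| ≤ ‖L (EuclideanSpace.single j (1:ℝ))‖ := by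
      have := PiLp.norm_apply_le (L (EuclideanSpace.single j (1:ℝ))) i
      simpa using this
    have h2 : ‖L (EuclideanSpace.single j (1:ℝ))‖ ≤ ‖L‖ := by
      have := L.le_opNorm (EuclideanSpace.single j (1:ℝ))
      simpa using this
    exact h1.trans h2
  have hsn : ∀ L : V →L[ℝ] V, sn (mat L) ≤ 9 * ‖L‖ := by
    intro L
    unfold sn
    calc ∑ i, ∑ j, |mat L i j| ≤ ∑ i : Fin 3, ∑ j : Fin 3, ‖L‖ :=
          Finset.sum_le_sum fun i _ => Finset.sum_le_sum fun j _ => hent L i j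
      _ = 9 * ‖L‖ := by simp; ring
  have hpos' : ∀ᵐ x ∂(volume.restrict (Bn 3 1)), 0 ≤ (D x).det ∧ ((D x).det = 0 → D x = 0) := by
    filter_upwards [hq'] with x hx
    obtain ⟨h1, h2⟩ := hx
    have h3 : 0 ≤ ‖Df (toLp 2 x)‖ ^ 3 := by positivity
    refine ⟨nonneg_of_mul_nonneg_right (h3.trans h1) hK, fun h => ?_⟩
    rw [h, mul_zero] at h1
    have h4 : ‖Df (toLp 2 x)‖ = 0 := by
      have : ‖Df (toLp 2 x)‖ ^ 3 = 0 := le_antisymm h1 h3
      exact pow_eq_zero_iff (by norm_num) |>.1 this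
    rw [h2]
    exact mat_zero_iff _ (norm_eq_zero.1 h4)
  have hqr : ∀ᵐ x ∂(volume.restrict (Bn 3 1)), sn (D x) ^ 3 ≤ (729 * K) * (D x).det := by
    filter_upwards [hq'] with x hx
    obtain ⟨h1, h2⟩ := hx
    have h3 : sn (D x) ≤ 9 * ‖Df (toLp 2 x)‖ := by rw [h2]; exact hsn _
    calc sn (D x) ^ 3 ≤ (9 * ‖Df (toLp 2 x)‖) ^ 3 := pow_le_pow_left₀ (sn_nonneg _) h3 3
      _ = 729 * ‖Df (toLp 2 x)‖ ^ 3 := by ring
      _ ≤ 729 * (K * (D x).det) := by linarith
      _ = _ := by ring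
  have hdetm : Measurable fun x => (D x).det := meas_det hDm
  have hdet : ∀ K', IsCompact K' → K' ⊆ Bn 3 1 → IntegrableOn (fun x => (D x).det) K' := by
    intro K' hK' hKs
    have h0 : IntegrableOn (fun x => ‖Df (toLp 2 x)‖ ^ 3) K' :=
      tr_int (G := fun x => ‖Df x‖ ^ 3) hl hK' hKs
    refine (h0.const_mul 6).mono' hdetm.aestronglyMeasurable ?_
    have h1 := ae_restrict_of_ae_restrict_of_subset hKs hq'
    filter_upwards [h1] with x hx
    obtain ⟨_, h2⟩ := hx
    have h3 := Matrix.det_le (A := D x) (abv := AbsoluteValue.abs) (x := ‖Df (toLp 2 x)‖)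
      (fun i j => by rw [h2]; exact hent _ i j)
    have h4 : |(D x).det| ≤ 6 * ‖Df (toLp 2 x)‖ ^ 3 := by
      have h5 : AbsoluteValue.abs (D x).det = |(D x).det| := rfl
      rw [h5] at h3
      refine h3.trans (le_of_eq ?_)
      simp [Nat.factorial]
    exact h4
  have hkb : ∀ᵐ x ∂(volume.restrict (Bn 3 1)), 0 ≤ kd (D x) ∧ kd (D x) ≤ 1 + 729 * K := by
    filter_upwards [hpos', hqr] with x hx hx2
    refine ⟨XTrB.kd_nonneg hx.1, ?_⟩
    unfold kd
    split_ifs with h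
    · linarith [mul_pos (by norm_num : (0:ℝ) < 729) hK]
    · have h1 : 0 < (D x).det := lt_of_le_of_ne hx.1 (Ne.symm h)
      rw [div_le_iff₀ h1]
      nlinarith
  have hfin : ∀ K' : Set (E 3), IsCompact K' → IntegrableOn (fun _ : E 3 => (1 : ℝ)) K' := by
    intro K' hK'
    rw [integrableOn_const_iff]; right; exact hK'.measure_lt_top
  have hkdi : ∀ q : ℕ, ∀ K', IsCompact K' → K' ⊆ Bn 3 1 →
      IntegrableOn (fun x => kd (D x) ^ q) K' := by
    intro q K' hK' hKs
    refine Integrable.mono' ((hfin K' hK').const_mul ((1 + 729 * K) ^ q))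
      ((XTrB.meas_kd hDm).pow_const q).aestronglyMeasurable ?_
    filter_upwards [ae_restrict_of_ae_restrict_of_subset hKs hkb] with x hx
    rw [Real.norm_eq_abs, abs_of_nonneg (pow_nonneg hx.1 q), mul_one]
    exact pow_le_pow_left₀ hx.1 hx.2 q
  obtain ⟨c, hc1, hc⟩ := kd_kk_le (n := 3) (by omega)
  have hkk : ∀ᵐ x ∂(volume.restrict (Bn 3 1)), kk (D x) ≤ c * (1 + K) := by
    filter_upwards [hpos', hq'] with x hx hx2
    obtain ⟨h1, h2, h3⟩ := hc (D x) hx.1
    refine h2.trans (mul_le_mul_of_nonneg_left ?_ (by linarith))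
    have h5 : ko (D x) = if LinearMap.det
        ((Df (toLp 2 x) : V →L[ℝ] V) : V →ₗ[ℝ] V) = 0 then (1 : ℝ)
        else ‖Df (toLp 2 x)‖ ^ 3 / LinearMap.det ((Df (toLp 2 x) : V →L[ℝ] V) : V →ₗ[ℝ] V) := by
      rw [hx2.2, ← ko_mat]
    have h5' : XTrA.ko (D x) = ko (D x) := rfl
    rw [h5', h5]
    have h6 : LinearMap.det ((Df (toLp 2 x) : V →L[ℝ] V) : V →ₗ[ℝ] V) = (D x).det := by
      rw [hx2.2]; exact mat_det _
    rw [h6]
    split_ifs with h
    · linarith
    · have h7 : 0 < (D x).det := lt_of_le_of_ne hx.1 (Ne.symm h)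
      rw [div_le_iff₀ h7]
      nlinarith [hx2.1]
  have hexp : ∀ K', IsCompact K' → K' ⊆ Bn 3 1 →
      IntegrableOn (fun x => Real.exp (1 * kk (D x))) K' := by
    intro K' hK' hKs
    refine Integrable.mono' ((hfin K' hK').const_mul (Real.exp (c * (1 + K))))
      (((meas_kk hDm).const_mul 1).exp).aestronglyMeasurable ?_
    filter_upwards [ae_restrict_of_ae_restrict_of_subset hKs hkk] with x hx
    rw [Real.norm_eq_abs, abs_of_nonneg (Real.exp_pos _).le, mul_one]
    exact Real.exp_le_exp.2 (by linarith)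
  refine ⟨D, 729 * K, ?_, by positivity, hqr⟩
  exact {
    isOpen := isOpen_Bn 3 1
    cont := hcont
    meas := hDm
    weak := hweak
    pos := hpos'
    det_int := hdet
    kd_int := hkdi
    ident := fun η h1 h2 h3 ψ h4 i => gid (by omega) (isOpen_Bn 3 1) hcont hDm hweak hpos' hdet
      (l := 1) (by norm_num) hexp h1 h2 h3 h4 i }

end

end Pool.Agent.Helper746.Rl
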