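import Pool.Agent.Helper746.RlPartB
import Pool.Agent.Helper746.RlQrm
import Pool.Agent.Helper746.RlAharnackH
import Pool.Agent.Helper746.RlAgain

set_option autoImplicit false

namespace Pool.Agent.Helper746.Rl

open MeasureTheory Metric Set Filter Topology
open scoped ENNReal NNReal ContDiff
open H930.BL

noncomputable section

theorem radial_limit_pos {f : V → V}
    (hb : ∀ x ∈ Metric.ball (0 : V) 1, f x ∈ Metric.ball (0 : V) 1)
    (hf : ContinuousOn f (Metric.ball (0 : V) 1)) {K : ℝ} (hK : 0 < K)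
    {Df : V → (V →L[ℝ] V)}
    (hm : AEStronglyMeasurable Df (volume.restrict (Metric.ball (0 : V) 1)))
    (hl : LocallyIntegrableOn (fun x => ‖Df x‖ ^ 3) (Metric.ball (0 : V) 1) volume)
    (hw : ∀ φ : V → ℝ, ContDiff ℝ 1 φ → HasCompactSupport φ →
      tsupport φ ⊆ Metric.ball (0 : V) 1 → ∀ v : V,
        ∫ x, (fderiv ℝ φ x v) • f x = -∫ x, φ x • (Df x v))
    (hq : ∀ᵐ x ∂(volume.restrict (Metric.ball (0 : V) 1)),
      ‖Df x‖ ^ 3 ≤ K * LinearMap.det (Df x).toLinearMap) :
    ∃ ξ : V, ‖ξ‖ = 1 ∧ ∃ L : V, Tendsto (fun t : ℝ => f (t • ξ)) (𝓝[<] (1 : ℝ)) (𝓝 L) := by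
  obtain ⟨D, κ, hQ⟩ := qrm_of_frozen hK hf hm hl hw hq
  obtain ⟨C, hC, hH⟩ := harnackH_of_qrm hQ.kpos
  obtain ⟨q, hq0, hq1, hG⟩ := gain_of_qrm hQ.kpos
  have hcoord : ∀ v : V, |v 0| ≤ ‖v‖ := by
    intro v
    have := PiLp.norm_apply_le v 0
    simpa using this
  refine part_B (u := fun x => f x 0) hC hq0 hq1 ?_ ?_ (hH f D hQ) (hG f D hQ)
  · intro x hx
    have h1 := hb x (mem_ball_zero_iff.2 hx)
    have h2 := mem_ball_zero_iff.1 h1
    exact (hcoord _).trans h2.le
  · intro x y _ _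
    have h1 := hcoord (f x - f y)
    simpa using h1

theorem radial_limit {f : V → V}
    (hb : ∀ x ∈ Metric.ball (0 : V) 1, f x ∈ Metric.ball (0 : V) 1)
    (hf : ContinuousOn f (Metric.ball (0 : V) 1)) {K : ℝ}
    {Df : V → (V →L[ℝ] V)}
    (hm : AEStronglyMeasurable Df (volume.restrict (Metric.ball (0 : V) 1)))
    (hl : LocallyIntegrableOn (fun x => ‖Df x‖ ^ 3) (Metric.ball (0 : V) 1) volume)
    (hw : ∀ φ : V → ℝ, ContDiff ℝ 1 φ → HasCompactSupport φ →
      tsupport φ ⊆ Metric.ball (0 : V) 1 → ∀ v : V,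
        ∫ x, (fderiv ℝ φ x v) • f x = -∫ x, φ x • (Df x v))
    (hq : ∀ᵐ x ∂(volume.restrict (Metric.ball (0 : V) 1)),
      ‖Df x‖ ^ 3 ≤ K * LinearMap.det (Df x).toLinearMap) :
    ∃ ξ : V, ‖ξ‖ = 1 ∧ ∃ L : V, Tendsto (fun t : ℝ => f (t • ξ)) (𝓝[<] (1 : ℝ)) (𝓝 L) := by
  rcases lt_trichotomy K 0 with hK | hK | hK
  · -- replace `f` by `-f`
    have hdetneg : ∀ A : V →L[ℝ] V, LinearMap.det (-A).toLinearMap =
        -LinearMap.det A.toLinearMap := by
      intro A
      have h1 : (-A).toLinearMap = (-1 : ℝ) • A.toLinearMap := by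
        ext v i
        simp
      rw [h1, LinearMap.det_smul]
      simp
      norm_num
    obtain ⟨ξ, hξ, L, hL⟩ := radial_limit_pos (f := fun x => - f x) (K := -K)
      (Df := fun x => - Df x)
      (fun x hx => by
        have := hb x hx
        rw [mem_ball_zero_iff] at this ⊢
        simpa using this)
      hf.neg (by linarith) hm.neg
      (by
        refine hl.congr ?_ |> fun h => h
        filter_upwards with x
        simp)
      (by
        intro φ h1 h2 h3 v
        have h4 := hw φ h1 h2 h3 v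
        have h5 : (fun x => (fderiv ℝ φ x v) • (-f x)) = fun x => -((fderiv ℝ φ x v) • f x) := by
          funext x; rw [smul_neg]
        have h6 : (fun x => φ x • ((-Df x) v)) = fun x => -(φ x • (Df x v)) := by
          funext x; rw [ContinuousLinearMap.neg_apply, smul_neg]
        show ∫ x, (fderiv ℝ φ x v) • (-f x) = -∫ x, φ x • ((-Df x) v)
        rw [h5, h6, integral_neg, integral_neg, h4])
      (by
        filter_upwards [hq] with x hx
        rw [norm_neg, hdetneg]
        linarith)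
    refine ⟨ξ, hξ, -L, ?_⟩
    have h7 := hL.neg
    simpa using h7
  · subst hK
    refine radial_limit_pos hb hf one_pos hm hl hw ?_
    filter_upwards [hq] with x hx
    rw [zero_mul] at hx
    have h1 : ‖Df x‖ = 0 := by
      have h2 : 0 ≤ ‖Df x‖ ^ 3 := by positivity
      exact pow_eq_zero_iff (n := 3) (by norm_num) |>.1 (le_antisymm hx h2)
    have h2 : Df x = 0 := norm_eq_zero.1 h1
    rw [h2]
    simp
  · exact radial_limit_pos hb hf hK hm hl hw hq

end

end Pool.Agent.Helper746.Rl
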