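import Mathlib
import Pool.Agent.Helper746.RlDefs
import Pool.Agent.Helper746.RlQfacts

set_option autoImplicit false

namespace Pool.Agent.Helper746.Rl

open Set Metric MeasureTheory Filter Topology

noncomputable section

theorem geo_down {x p e' : V} (he' : ‖e'‖ = 1) (hx : ‖x‖ < 1) (hp : ‖p‖ < 1)
    (hpe : p = ‖p‖ • e') {T : ℝ} (hTx : ht x ≤ T) (hTp : ht p ≤ T) (hT1 : T ≤ 1)
    (hxp : ‖x - p‖ ≤ 2 * T) {n : ℕ} (hR : Reach x n ((1 - T) • e'))
    (hn : T ≤ (17 / 16 : ℝ) ^ n * ht x) :
    ∃ m : ℕ, Reach x (n + m) p ∧ (17 / 16 : ℝ) ^ m * ht p ≤ (17 / 16) * T := by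
  have hhx : 0 < ht x := ht_pos hx
  have hhp : 0 < ht p := ht_pos hp
  have hT0 : 0 < T := lt_of_lt_of_le hhp hTp
  obtain ⟨r, hr⟩ : ∃ r : ℝ, r = 17 / 16 := ⟨_, rfl⟩
  have hr0 : 0 < r := by rw [hr]; norm_num
  have hr1 : 1 < r := by rw [hr]; norm_num
  have hstep9 : ∀ (N : ℕ) (y y' : V), Reach x N y → ‖y'‖ < 1 → ‖y' - y‖ ≤ ht y / 16 →
      QQ x y' ≤ 9 * r ^ (N + 1) → Reach x (N + 1) y' := by
    intro N y y' h1 h2 h3 h4
    rw [hr] at h4
    exact Reach.step h1 h2 h3 h4
  rw [← hr] at hn
  have hmid : ∃ m : ℕ, Reach x (n + m) p ∧ r ^ m * ht p ≤ r * T := by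
    obtain ⟨tau, htau⟩ : ∃ tau : ℕ → ℝ, ∀ j, tau j = max (T / r ^ j) (ht p) :=
      ⟨fun j => max (T / r ^ j) (ht p), fun _ => rfl⟩
    have htp : ∀ j, ht p ≤ tau j := fun j => by rw [htau]; exact le_max_right _ _
    have htau0 : ∀ j, 0 < tau j := fun j => lt_of_lt_of_le hhp (htp j)
    have htT : ∀ j, tau j ≤ T := by
      intro j
      rw [htau]
      exact max_le (div_le_self hT0.le (one_le_pow₀ hr1.le)) hTp
    have hTr : ∀ j, T ≤ r ^ j * tau j := by
      intro j
      have h1 : T / r ^ j ≤ tau j := by rw [htau]; exact le_max_left _ _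
      rw [div_le_iff₀ (by positivity)] at h1
      linarith
    have hdec : ∀ j, tau (j + 1) ≤ tau j := by
      intro j
      rw [htau, htau]
      apply max_le_max _ le_rfl
      apply div_le_div_of_nonneg_left hT0.le (by positivity)
      exact pow_le_pow_right₀ hr1.le (Nat.le_succ j)
    have hgeo : ∀ j, tau j ≤ r * tau (j + 1) := by
      intro j
      rw [htau j]
      apply max_le
      · have h1 : T / r ^ (j + 1) ≤ tau (j + 1) := by rw [htau]; exact le_max_left _ _
        have h2 : T / r ^ j = r * (T / r ^ (j + 1)) := by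
          rw [pow_succ]; field_simp
        rw [h2]
        exact mul_le_mul_of_nonneg_left h1 hr0.le
      · calc ht p ≤ tau (j + 1) := htp _
          _ = 1 * tau (j + 1) := (one_mul _).symm
          _ ≤ r * tau (j + 1) := mul_le_mul_of_nonneg_right hr1.le (htau0 _).le
    have hnv : ∀ j, ‖(1 - tau j) • e'‖ = 1 - tau j := by
      intro j
      rw [norm_smul, he', mul_one, Real.norm_eq_abs, abs_of_nonneg]
      linarith [htT j]
    have hhv : ∀ j, ht ((1 - tau j) • e') = tau j := by
      intro j
      unfold ht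
      rw [hnv]
      ring
    have hpe2 : p = (1 - ht p) • e' := by
      have : 1 - ht p = ‖p‖ := by unfold ht; ring
      rw [this]
      exact hpe
    have hQ : ∀ j, QQ x ((1 - tau j) • e') ≤ 9 * r ^ (n + j) := by
      intro j
      have h1 : TT x ((1 - tau j) • e') ≤ 3 * T := by
        unfold TT
        rw [hhv]
        refine max_le (max_le (by linarith) (by linarith [htT j])) ?_
        have h2 : ‖p - (1 - tau j) • e'‖ ≤ T := by
          have h3 : p - (1 - tau j) • e' = (tau j - ht p) • e' := by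
            conv_lhs => rw [hpe2]
            rw [← sub_smul]
            congr 1
            ring
          rw [h3, norm_smul, he', mul_one, Real.norm_eq_abs, abs_of_nonneg (by linarith [htp j])]
          linarith [htT j]
        calc ‖x - (1 - tau j) • e'‖ = ‖(x - p) + (p - (1 - tau j) • e')‖ := by
              congr 1; abel
          _ ≤ ‖x - p‖ + ‖p - (1 - tau j) • e'‖ := norm_add_le _ _
          _ ≤ 3 * T := by linarith
      have h0 : 0 ≤ TT x ((1 - tau j) • e') := by
        unfold TT
        exact le_trans (norm_nonneg _) (le_max_right _ _)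
      have h2 : TT x ((1 - tau j) • e') ^ 2 ≤ (3 * T) ^ 2 := pow_le_pow_left₀ h0 h1 2
      have h4 : T * T ≤ (r ^ n * ht x) * (r ^ j * tau j) :=
        mul_le_mul hn (hTr j) hT0.le (by positivity)
      have h5 : (0:ℝ) < ht x * tau j := mul_pos hhx (htau0 j)
      unfold QQ
      rw [hhv, div_le_iff₀ h5, pow_add]
      calc TT x ((1 - tau j) • e') ^ 2 ≤ (3 * T) ^ 2 := h2
        _ = 9 * (T * T) := by ring
        _ ≤ 9 * ((r ^ n * ht x) * (r ^ j * tau j)) := by linarith
        _ = 9 * (r ^ n * r ^ j) * (ht x * tau j) := by ring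
    have htau_zero : tau 0 = T := by
      rw [htau]
      simp [hTp]
    have hreach : ∀ j, Reach x (n + j) ((1 - tau j) • e') := by
      intro j
      induction j with
      | zero => rw [htau_zero]; exact hR
      | succ j ih =>
        have h := hstep9 (n + j) _ ((1 - tau (j + 1)) • e') ih ?_ ?_ ?_
        · exact h
        · rw [hnv]; linarith [htau0 (j + 1)]
        · rw [hhv, ← sub_smul, norm_smul, he', mul_one, Real.norm_eq_abs, abs_of_nonneg]
          · have h1 := hgeo j
            rw [hr] at h1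
            linarith [htau0 (j + 1), htau0 j]
          · linarith [hdec j]
        · exact hQ (j + 1)
    have hex : ∃ m : ℕ, T ≤ r ^ m * ht p := by
      obtain ⟨m, hm⟩ := pow_unbounded_of_one_lt (T / ht p) hr1
      refine ⟨m, ?_⟩
      rw [div_lt_iff₀ hhp] at hm
      exact hm.le
    classical
    refine ⟨Nat.find hex, ?_, ?_⟩
    · have h1 := Nat.find_spec hex
      have h2 : tau (Nat.find hex) = ht p := by
        rw [htau]
        apply max_eq_right
        rw [div_le_iff₀ (by positivity)]
        linarith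
      have h3 := hreach (Nat.find hex)
      rw [h2, ← hpe2] at h3
      exact h3
    · rcases Nat.eq_zero_or_pos (Nat.find hex) with h0 | h0
      · rw [h0, pow_zero, one_mul]
        calc ht p ≤ T := hTp
          _ = 1 * T := (one_mul T).symm
          _ ≤ r * T := mul_le_mul_of_nonneg_right hr1.le hT0.le
      · obtain ⟨k, hk⟩ : ∃ k, Nat.find hex = k + 1 := ⟨Nat.find hex - 1, by omega⟩
        have h1 : ¬ (T ≤ r ^ k * ht p) := Nat.find_min hex (by omega)
        rw [hk, pow_succ]
        push Not at h1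
        calc r ^ k * r * ht p = r * (r ^ k * ht p) := by ring
          _ ≤ r * T := mul_le_mul_of_nonneg_left h1.le hr0.le
  rw [hr] at hmid
  exact hmid

end

end Pool.Agent.Helper746.Rl
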