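import Mathlib
import Pool.Agent.Helper746.RlDefs
import Pool.Agent.Helper746.RlQfacts

set_option autoImplicit false

namespace Pool.Agent.Helper746.Rl

open Set Metric MeasureTheory Filter Topology

noncomputable section

theorem geo_mid {x e e' : V} (he : ‖e‖ = 1) (he' : ‖e'‖ = 1) (hx : ‖x‖ < 1)
    (hxe : x = ‖x‖ • e) {T : ℝ} (hT : ht x ≤ T) (hT1 : T ≤ 1)
    (hd : ‖(1 - T) • e - (1 - T) • e'‖ ≤ T) {n : ℕ} (hR : Reach x n ((1 - T) • e))
    (hn : T ≤ (17 / 16 : ℝ) ^ n * ht x) : Reach x (n + 16) ((1 - T) • e') := by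
  have hhx : 0 < ht x := ht_pos hx
  have hTpos : 0 < T := lt_of_lt_of_le hhx hT
  obtain ⟨z0, hz0⟩ : ∃ z0 : V, z0 = (1 - T) • e := ⟨_, rfl⟩
  obtain ⟨z1, hz1⟩ : ∃ z1 : V, z1 = (1 - T) • e' := ⟨_, rfl⟩
  rw [← hz0, ← hz1] at hd
  rw [← hz0] at hR
  rw [← hz1]
  have nz0 : ‖z0‖ = 1 - T := by
    rw [hz0, norm_smul, he, mul_one, Real.norm_eq_abs, abs_of_nonneg (by linarith)]
  have nz1 : ‖z1‖ = 1 - T := by
    rw [hz1, norm_smul, he', mul_one, Real.norm_eq_abs, abs_of_nonneg (by linarith)]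
  obtain ⟨w, hw⟩ : ∃ w : ℕ → V, w = fun j : ℕ => z0 + ((j : ℝ) / 16) • (z1 - z0) := ⟨_, rfl⟩
  have hwj : ∀ j : ℕ, w j = z0 + ((j : ℝ) / 16) • (z1 - z0) := fun j => by rw [hw]
  have hd' : ‖z1 - z0‖ ≤ T := by rw [norm_sub_rev]; exact hd
  have hwn : ∀ j : ℕ, j ≤ 16 → ‖w j‖ ≤ 1 - T := by
    intro j hj
    have hj0 : (0 : ℝ) ≤ (j : ℝ) / 16 := by positivity
    have hj1 : (j : ℝ) / 16 ≤ 1 := by
      rw [div_le_one (by norm_num)]
      exact_mod_cast hj
    have e1 : w j = (1 - (j : ℝ) / 16) • z0 + ((j : ℝ) / 16) • z1 := by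
      rw [hwj]
      module
    rw [e1]
    refine (norm_add_le _ _).trans ?_
    rw [norm_smul, norm_smul, nz0, nz1, Real.norm_eq_abs, Real.norm_eq_abs,
      abs_of_nonneg (by linarith), abs_of_nonneg hj0]
    linarith
  have hw1 : ∀ j : ℕ, j ≤ 16 → ‖w j‖ < 1 := fun j hj => by linarith [hwn j hj]
  have hhw : ∀ j : ℕ, j ≤ 16 → T ≤ ht (w j) := by
    intro j hj
    unfold ht
    linarith [hwn j hj]
  have hstep : ∀ j : ℕ, ‖w (j + 1) - w j‖ ≤ T / 16 := by
    intro j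
    have e1 : w (j + 1) - w j = (1 / 16 : ℝ) • (z1 - z0) := by
      rw [hwj, hwj]
      push_cast
      module
    rw [e1, norm_smul, Real.norm_eq_abs, abs_of_pos (by norm_num)]
    linarith
  have hwz : ∀ j : ℕ, j ≤ 16 → ‖w j - z0‖ ≤ T := by
    intro j hj
    have hj0 : (0 : ℝ) ≤ (j : ℝ) / 16 := by positivity
    have hj1 : (j : ℝ) / 16 ≤ 1 := by
      rw [div_le_one (by norm_num)]
      exact_mod_cast hj
    rw [hwj, add_sub_cancel_left, norm_smul, Real.norm_eq_abs, abs_of_nonneg hj0]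
    have := norm_nonneg (z1 - z0)
    nlinarith
  have hxz : ‖x - z0‖ ≤ T := by
    have e1 : x - z0 = (‖x‖ - (1 - T)) • e := by
      rw [sub_smul, ← hxe, hz0]
    rw [e1, norm_smul, he, mul_one, Real.norm_eq_abs, abs_le]
    unfold ht at hT hhx
    constructor <;> linarith
  have hQ : ∀ j : ℕ, j ≤ 16 → QQ x (w j) ≤ 9 * (17 / 16 : ℝ) ^ (n + j) := by
    intro j hj
    have h1 := hhw j hj
    have h2 : ht (w j) ≤ 2 * T := by
      have h3 := abs_ht_sub_le (w j) z0
      have h4 := (abs_le.1 h3).2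
      have h5 : ht z0 = T := by unfold ht; rw [nz0]; ring
      linarith [hwz j hj]
    have h3 : ‖x - w j‖ ≤ 2 * T := by
      have e1 : x - w j = (x - z0) - (w j - z0) := by abel
      rw [e1]
      refine (norm_sub_le _ _).trans ?_
      linarith [hwz j hj]
    have h4 : TT x (w j) ≤ 2 * T := by
      unfold TT
      exact max_le (max_le (by linarith) h2) h3
    have h5 : 0 ≤ TT x (w j) := by
      unfold TT
      exact le_max_of_le_right (norm_nonneg _)
    have h6 : (1 : ℝ) ≤ (17 / 16 : ℝ) ^ j := one_le_pow₀ (by norm_num)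
    have h7 : (0 : ℝ) < (17 / 16 : ℝ) ^ n := by positivity
    unfold QQ
    rw [div_le_iff₀ (mul_pos hhx (by linarith))]
    calc TT x (w j) ^ 2 ≤ (2 * T) ^ 2 := pow_le_pow_left₀ h5 h4 2
      _ = 4 * T * T := by ring
      _ ≤ 4 * ((17 / 16 : ℝ) ^ n * ht x) * T := by gcongr
      _ ≤ (9 * (17 / 16 : ℝ) ^ n) * ht x * T := by
          have h8 : 0 ≤ (17 / 16 : ℝ) ^ n * ht x * T := by positivity
          nlinarith
      _ ≤ (9 * (17 / 16 : ℝ) ^ n * (17 / 16 : ℝ) ^ j) * ht x * ht (w j) := by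
          have h9 : 9 * (17 / 16 : ℝ) ^ n ≤ 9 * (17 / 16 : ℝ) ^ n * (17 / 16 : ℝ) ^ j :=
            le_mul_of_one_le_right (by positivity) h6
          gcongr
      _ = 9 * (17 / 16 : ℝ) ^ (n + j) * (ht x * ht (w j)) := by
          rw [pow_add]
          ring
  have hind : ∀ j : ℕ, j ≤ 16 → Reach x (n + j) (w j) := by
    intro j
    induction j with
    | zero =>
      intro _
      rw [hwj]
      simpa using hR
    | succ j ih =>
      intro hj
      have h1 := ih (by omega)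
      refine Reach.step h1 (hw1 (j + 1) hj) ?_ (hQ (j + 1) hj)
      have h2 := hhw j (by omega)
      linarith [hstep j]
  have h16 := hind 16 le_rfl
  have e16 : w 16 = z1 := by
    rw [hwj]
    push_cast
    rw [div_self (by norm_num), one_smul]
    abel
  rw [e16] at h16
  exact h16

end

end Pool.Agent.Helper746.Rl
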