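import Mathlib
import Pool.Agent.Helper746.RlDefs
import Pool.Agent.Helper746.RlQfacts

set_option autoImplicit false

namespace Pool.Agent.Helper746.Rl

open Set Metric MeasureTheory Filter Topology

noncomputable section

theorem j16948_diff_geoup {e : V} (he : ‖e‖ = 1) (a b : ℝ) :
    ‖(1 - a) • e - (1 - b) • e‖ = |b - a| := by
  rw [← sub_smul, norm_smul, he, mul_one, Real.norm_eq_abs]
  congr 1
  ring

theorem j16948_norm_geoup {e : V} (he : ‖e‖ = 1) {a : ℝ} (ha : a ≤ 1) :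
    ‖(1 - a) • e‖ = 1 - a := by
  rw [norm_smul, he, mul_one, Real.norm_eq_abs, abs_of_nonneg (by linarith)]

theorem j16948_reach_geoup {x e : V} (he : ‖e‖ = 1) (hx : ‖x‖ < 1) (hxe : x = ‖x‖ • e) {T : ℝ}
    (hT : ht x ≤ T) (hT1 : T ≤ 1) (i : ℕ) :
    Reach x i ((1 - min ((17 / 16 : ℝ) ^ i * ht x) T) • e) := by
  have hh : 0 < ht x := ht_pos hx
  have hx' : x = (1 - ht x) • e := by
    have : 1 - ht x = ‖x‖ := by unfold ht; ring
    rw [this]
    exact hxe
  induction i with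
  | zero =>
    rw [pow_zero, one_mul, min_eq_left hT, ← hx']
    exact Reach.base
  | succ i ih =>
    set τ := min ((17 / 16 : ℝ) ^ i * ht x) T with hτ
    set τ' := min ((17 / 16 : ℝ) ^ (i + 1) * ht x) T with hτ'
    have hr1 : (1 : ℝ) ≤ (17 / 16 : ℝ) ^ i := one_le_pow₀ (by norm_num)
    have hr2 : (1 : ℝ) ≤ (17 / 16 : ℝ) ^ (i + 1) := one_le_pow₀ (by norm_num)
    have e1 : (17 / 16 : ℝ) ^ (i + 1) * ht x = (17 / 16) * ((17 / 16 : ℝ) ^ i * ht x) := by ring
    have hT0 : 0 < T := lt_of_lt_of_le hh hT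
    have h1 : ht x ≤ τ := le_min (by nlinarith) hT
    have h2 : ht x ≤ τ' := le_min (by nlinarith) hT
    have h3 : τ ≤ τ' := min_le_min_right T (by rw [e1]; nlinarith)
    have h4 : τ' ≤ (17 / 16) * τ := by
      rw [hτ, mul_min_of_nonneg _ _ (by norm_num : (0 : ℝ) ≤ 17 / 16), ← e1]
      exact min_le_min_left _ (by linarith)
    have h5 : τ ≤ 1 := (min_le_right _ _).trans hT1
    have h6 : τ' ≤ 1 := (min_le_right _ _).trans hT1
    have h7 : τ' ≤ (17 / 16 : ℝ) ^ (i + 1) * ht x := min_le_left _ _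
    have n1 : ht ((1 - τ) • e) = τ := by
      unfold ht; rw [j16948_norm_geoup he h5]; ring
    have n2 : ht ((1 - τ') • e) = τ' := by
      unfold ht; rw [j16948_norm_geoup he h6]; ring
    refine Reach.step ih ?_ ?_ ?_
    · rw [j16948_norm_geoup he h6]; linarith
    · rw [j16948_diff_geoup he, n1, abs_of_nonpos (by linarith)]
      linarith
    · have h8 : ‖x - (1 - τ') • e‖ = τ' - ht x := by
        conv_lhs => rw [hx']
        rw [j16948_diff_geoup he, abs_of_nonneg (by linarith)]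
      have h9 : TT x ((1 - τ') • e) = τ' := by
        unfold TT
        rw [n2, h8, max_eq_right h2, max_eq_left (by linarith)]
      unfold QQ
      rw [h9, n2]
      have h10 : τ' ^ 2 / (ht x * τ') = τ' / ht x := by
        have : τ' ≠ 0 := by linarith
        field_simp
      rw [h10, div_le_iff₀ hh]
      nlinarith

theorem geo_up {x e : V} (he : ‖e‖ = 1) (hx : ‖x‖ < 1) (hxe : x = ‖x‖ • e) {T : ℝ}
    (hT : ht x ≤ T) (hT1 : T ≤ 1) :
    ∃ n : ℕ, Reach x n ((1 - T) • e) ∧ (17 / 16 : ℝ) ^ n * ht x ≤ (17 / 16) * T ∧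
      T ≤ (17 / 16 : ℝ) ^ n * ht x := by
  classical
  have hh : 0 < ht x := ht_pos hx
  have hT0 : 0 < T := lt_of_lt_of_le hh hT
  have hex : ∃ n : ℕ, T ≤ (17 / 16 : ℝ) ^ n * ht x := by
    obtain ⟨n, hn⟩ := pow_unbounded_of_one_lt (T / ht x) (by norm_num : (1 : ℝ) < 17 / 16)
    exact ⟨n, ((div_lt_iff₀ hh).1 hn).le⟩
  refine ⟨Nat.find hex, ?_, ?_, Nat.find_spec hex⟩
  · have h1 := j16948_reach_geoup he hx hxe hT hT1 (Nat.find hex)
    rwa [min_eq_right (Nat.find_spec hex)] at h1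
  · rcases Nat.eq_zero_or_pos (Nat.find hex) with h0 | h0
    · rw [h0, pow_zero, one_mul]; linarith
    · have h2 := Nat.find_min hex (Nat.sub_lt h0 one_pos)
      push Not at h2
      have h3 : (17 / 16 : ℝ) ^ (Nat.find hex) = (17 / 16) * (17 / 16 : ℝ) ^ (Nat.find hex - 1) := by
        rw [← pow_succ']
        congr 1
        omega
      rw [h3]
      nlinarith

end

end Pool.Agent.Helper746.Rl
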