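import Mathlib
import Pool.Agent.Helper746.RlDefs
import Pool.Agent.Helper746.RlQfacts
import Pool.Agent.Helper746.RlGeoup
import Pool.Agent.Helper746.RlGeomid
import Pool.Agent.Helper746.RlGeodown

set_option autoImplicit false

namespace Pool.Agent.Helper746.Rl

open Set Metric MeasureTheory Filter Topology

noncomputable section

theorem geo_unit_geo (x : V) : ∃ e : V, ‖e‖ = 1 ∧ x = ‖x‖ • e := by
  by_cases h : x = 0
  · refine ⟨EuclideanSpace.single 0 1, by simp, ?_⟩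
    rw [h]; simp
  · have hn : ‖x‖ ≠ 0 := norm_ne_zero_iff.2 h
    refine ⟨(1 / ‖x‖) • x, ?_, ?_⟩
    · rw [norm_smul, Real.norm_eq_abs, abs_of_nonneg (by positivity)]
      field_simp
    · rw [smul_smul, mul_one_div_cancel hn, one_smul]

theorem geo_rad_geo {e e' : V} (he : ‖e‖ = 1) (he' : ‖e'‖ = 1) {a b r T : ℝ} (hr : 0 ≤ r)
    (ha : r ≤ a) (hb : r ≤ b) (hT : 0 ≤ T) (h : ‖a • e - b • e'‖ ≤ T) :
    ‖r • e - r • e'‖ ≤ T := by
  have hc : inner ℝ e e' ≤ 1 := by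
    have := real_inner_le_norm e e'
    rwa [he, he', mul_one] at this
  have h1 : ‖a • e - b • e'‖ ^ 2 = a ^ 2 - 2 * (a * b * inner ℝ e e') + b ^ 2 := by
    rw [norm_sub_sq_real, norm_smul, norm_smul, he, he', real_inner_smul_left,
      real_inner_smul_right, Real.norm_eq_abs, Real.norm_eq_abs, mul_one, mul_one, sq_abs, sq_abs]
    ring
  have h2 : ‖r • e - r • e'‖ ^ 2 = r ^ 2 - 2 * (r * r * inner ℝ e e') + r ^ 2 := by
    rw [norm_sub_sq_real, norm_smul, norm_smul, he, he', real_inner_smul_left,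
      real_inner_smul_right, Real.norm_eq_abs, mul_one, sq_abs]
    ring
  have h3 : ‖a • e - b • e'‖ ^ 2 ≤ T ^ 2 := pow_le_pow_left₀ (norm_nonneg _) h 2
  have h4 : r * r ≤ a * b := mul_le_mul ha hb hr (hr.trans ha)
  have h5 : ‖r • e - r • e'‖ ^ 2 ≤ T ^ 2 := by
    rw [h2]
    rw [h1] at h3
    nlinarith [sq_nonneg (a - b), mul_nonneg (sub_nonneg.2 h4) (sub_nonneg.2 hc)]
  exact le_of_sq_le_sq h5 hT

theorem geo {x p : V} (hx : ‖x‖ < 1) (hp : ‖p‖ < 1) :
    ∃ N : ℕ, Reach x N p ∧ (17 / 16 : ℝ) ^ N ≤ 9 * QQ x p := by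
  obtain ⟨e, he, hxe⟩ := geo_unit_geo x
  obtain ⟨e', he', hpe⟩ := geo_unit_geo p
  have hx0 := ht_pos hx
  have hp0 := ht_pos hp
  have hxTT : ht x ≤ TT x p := (le_max_left _ _).trans (le_max_left _ _)
  have hpTT : ht p ≤ TT x p := (le_max_right _ _).trans (le_max_left _ _)
  have hdTT : ‖x - p‖ ≤ TT x p := le_max_right _ _
  set T : ℝ := min (TT x p) 1 with hTdef
  have hT1 : T ≤ 1 := min_le_right _ _
  have hTT : T ≤ TT x p := min_le_left _ _
  have hTx : ht x ≤ T := le_min hxTT (ht_le_one x)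
  have hTp : ht p ≤ T := le_min hpTT (ht_le_one p)
  have hT0 : 0 < T := hx0.trans_le hTx
  have hxp : ‖x - p‖ ≤ 2 * T := by
    rcases le_total (TT x p) 1 with h | h
    · have : T = TT x p := min_eq_left h
      rw [this]
      linarith
    · have : T = 1 := min_eq_right h
      rw [this]
      have := norm_sub_le x p
      linarith
  have hd : ‖(1 - T) • e - (1 - T) • e'‖ ≤ T := by
    rcases le_total (TT x p) 1 with h | h
    · have hTe : T = TT x p := min_eq_left h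
      have h1 : 1 - T ≤ ‖x‖ := by unfold ht at hTx; linarith
      have h2 : 1 - T ≤ ‖p‖ := by unfold ht at hTp; linarith
      refine geo_rad_geo he he' (by linarith) h1 h2 hT0.le ?_
      rw [← hxe, ← hpe, hTe]
      exact hdTT
    · have hTe : T = 1 := min_eq_right h
      rw [hTe]
      simp
  obtain ⟨n, hR1, h1, h2⟩ := geo_up he hx hxe hTx hT1
  have hR2 := geo_mid he he' hx hxe hTx hT1 hd hR1 h2
  have h2' : T ≤ (17 / 16 : ℝ) ^ (n + 16) * ht x := by
    refine h2.trans (mul_le_mul_of_nonneg_right ?_ hx0.le)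
    exact pow_le_pow_right₀ (by norm_num) (by omega)
  obtain ⟨m, hR3, h3⟩ := geo_down he' hx hp hpe hTx hTp hT1 hxp hR2 h2'
  refine ⟨n + 16 + m, hR3, ?_⟩
  unfold QQ
  rw [mul_div_assoc', le_div_iff₀ (mul_pos hx0 hp0)]
  have e1 : (17 / 16 : ℝ) ^ (n + 16 + m) * (ht x * ht p) =
      (17 / 16 : ℝ) ^ 16 * (((17 / 16 : ℝ) ^ n * ht x) * ((17 / 16 : ℝ) ^ m * ht p)) := by
    rw [pow_add, pow_add]; ring
  rw [e1]
  have h4 : ((17 / 16 : ℝ) ^ n * ht x) * ((17 / 16 : ℝ) ^ m * ht p) ≤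
      ((17 / 16) * T) * ((17 / 16) * T) :=
    mul_le_mul h1 h3 (by positivity) (by positivity)
  have h5 : T * T ≤ TT x p ^ 2 := by
    rw [sq]
    exact mul_le_mul hTT hTT hT0.le (hT0.le.trans hTT)
  calc (17 / 16 : ℝ) ^ 16 * (((17 / 16 : ℝ) ^ n * ht x) * ((17 / 16 : ℝ) ^ m * ht p))
      ≤ (17 / 16 : ℝ) ^ 16 * (((17 / 16) * T) * ((17 / 16) * T)) :=
        mul_le_mul_of_nonneg_left h4 (by positivity)
    _ = (17 / 16 : ℝ) ^ 18 * (T * T) := by ring
    _ ≤ 9 * (T * T) := mul_le_mul_of_nonneg_right (by norm_num) (by positivity)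
    _ ≤ 9 * TT x p ^ 2 := by linarith

end

end Pool.Agent.Helper746.Rl
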