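import Mathlib
import Pool.Agent.Helper746.RlDefs
import Pool.Agent.Helper746.RlQfacts
import Pool.Agent.Helper746.RlPhfacts
import Pool.Agent.Helper746.RlSfacts

set_option autoImplicit false

namespace Pool.Agent.Helper746.Rl

open Set Metric MeasureTheory Filter Topology

noncomputable section

theorem jump_step {F : V → V} {u : V → ℝ} {γ β c CV : ℝ} (hγ : 0 < γ) (hγβ : γ ≤ β)
    (hc : 0 < c) (hu : ∀ x : V, ‖x‖ < 1 → |u x| ≤ 1) (hCV : 0 < CV)
    (hV : ∀ x p : V, ‖x‖ < 1 → ‖p‖ < 1 →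
      ‖F p - F x‖ ≤ CV * ss γ β c u x * ph γ β c (QQ x p))
    {C : ℝ} (hC1 : 1 ≤ C) (hC2 : 2 * CV ≤ C) {x : V} (hx : ‖x‖ < 1) {b : ℝ} (hb : 0 < b)
    (hb2 : b ≤ 2) (hs : 2 * Real.exp 1 * b < ss γ β c u x) :
    ∃ (x' : V) (b' : ℝ), GStep F u (1 / γ) β C x b x' b' := by
  have he : (2 : ℝ) < Real.exp 1 := by
    have := Real.exp_one_gt_d9
    linarith
  have hepos : (0 : ℝ) < Real.exp 1 := Real.exp_pos 1
  have hs0 : 0 < ss γ β c u x := lt_trans (by positivity) hs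
  obtain ⟨p, hp, hatt⟩ := ss_attain hγ hγβ hc hu hx hs0
  set s := ss γ β c u x with hsdef
  set Q := QQ x p with hQdef
  have hQ1 : 1 ≤ Q := QQ_one_le hx hp
  have hQ0 : 0 < Q := by linarith
  have hph1 : 1 ≤ ph γ β c Q := ph_one_le hγ hc hQ1
  have hphg : Q ^ γ ≤ ph γ β c Q := ph_ge_rpow hc hQ1
  have hQγ : 0 < Q ^ γ := Real.rpow_pos_of_pos hQ0 γ
  have hb'low : Real.exp 1 * b * ph γ β c Q ≤ u p - u x := by
    refine le_trans ?_ hatt
    have : 2 * Real.exp 1 * b * ph γ β c Q ≤ s * ph γ β c Q :=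
      mul_le_mul_of_nonneg_right hs.le (by linarith)
    linarith
  have hb'low2 : Real.exp 1 * b * Q ^ γ ≤ u p - u x :=
    le_trans (mul_le_mul_of_nonneg_left hphg (by positivity)) hb'low
  have hlow0 : 0 < Real.exp 1 * b * Q ^ γ := by positivity
  have hb'0 : 0 < u p - u x := lt_of_lt_of_le hlow0 hb'low2
  have hb'2 : u p - u x ≤ 2 := by
    have h1 := abs_le.1 (hu p hp)
    have h2 := abs_le.1 (hu x hx)
    linarith [h1.2, h2.1]
  have hht : 0 < ht x := ht_pos hx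
  have hhtp : 0 < ht p := ht_pos hp
  have hbpow : 0 < b ^ (-(1 / γ)) := Real.rpow_pos_of_pos hb _
  refine ⟨p, u p - u x, hp, hb'0, hb'2, ?_, ?_, ?_, ?_⟩
  · have h1 : (u p - u x) ^ (-(1 / γ)) ≤ (Real.exp 1 * b * Q ^ γ) ^ (-(1 / γ)) := by
      apply Real.rpow_le_rpow_of_nonpos hlow0 hb'low2
      have : 0 < 1 / γ := by positivity
      linarith
    have h2 : (Real.exp 1 * b * Q ^ γ) ^ (-(1 / γ)) =
        Real.exp (-(1 / γ)) * b ^ (-(1 / γ)) * Q⁻¹ := by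
      rw [Real.mul_rpow (by positivity) hQγ.le, Real.mul_rpow hepos.le hb.le,
        Real.exp_one_rpow, ← Real.rpow_mul hQ0.le]
      congr 1
      have : γ * -(1 / γ) = -1 := by field_simp
      rw [this, Real.rpow_neg_one]
    have h3 : ht p ≤ Q * ht x := ht_le_QQ hx hp
    have h4 : (0 : ℝ) < (u p - u x) ^ (-(1 / γ)) := Real.rpow_pos_of_pos hb'0 _
    calc ht p * (u p - u x) ^ (-(1 / γ)) ≤ (Q * ht x) * (u p - u x) ^ (-(1 / γ)) :=
          mul_le_mul_of_nonneg_right h3 h4.le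
      _ ≤ (Q * ht x) * (Real.exp (-(1 / γ)) * b ^ (-(1 / γ)) * Q⁻¹) := by
          rw [← h2]; exact mul_le_mul_of_nonneg_left h1 (by positivity)
      _ = Real.exp (-(1 / γ)) * (ht x * b ^ (-(1 / γ))) := by
          field_simp
  · have h1 : TT x p ≤ Q * ht x := TT_le_QQ hx hp
    have h2 : Q ^ γ ≤ b⁻¹ := by
      have h3 : Real.exp 1 * b * Q ^ γ ≤ 2 := le_trans hb'low2 hb'2
      have h4 : 2 * (b * Q ^ γ) ≤ Real.exp 1 * (b * Q ^ γ) :=
        mul_le_mul_of_nonneg_right he.le (by positivity)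
      have h5 : b * Q ^ γ ≤ 1 := by nlinarith
      rw [le_inv_comm₀ hQγ hb]
      rw [le_inv_comm₀ hb hQγ]
      rw [← one_div, le_div_iff₀ hb]
      linarith
    have h3 : Q ≤ b ^ (-(1 / γ)) := by
      calc Q = (Q ^ γ) ^ (1 / γ) := by
            rw [← Real.rpow_mul hQ0.le, mul_one_div_cancel hγ.ne', Real.rpow_one]
        _ ≤ (b⁻¹) ^ (1 / γ) := Real.rpow_le_rpow hQγ.le h2 (by positivity)
        _ = b ^ (-(1 / γ)) := by rw [Real.inv_rpow hb.le, Real.rpow_neg hb.le]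
    calc TT x p ≤ Q * ht x := h1
      _ ≤ b ^ (-(1 / γ)) * ht x := mul_le_mul_of_nonneg_right h3 hht.le
      _ = 1 * (ht x * b ^ (-(1 / γ))) := by ring
      _ ≤ C * (ht x * b ^ (-(1 / γ))) := mul_le_mul_of_nonneg_right hC1 (by positivity)
  · intro p' hp' l hl hQl
    have hQ'1 : 1 ≤ QQ x p' := QQ_one_le hx hp'
    have h1 : ph γ β c (QQ x p') ≤ ph γ β c (l * Q) := ph_mono hγ hγβ hc hQ'1 hQl
    have h2 : ph γ β c (l * Q) ≤ l ^ β * ph γ β c Q := ph_scale hγ hγβ hc hQ1 hl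
    have hlβ : 0 < l ^ β := Real.rpow_pos_of_pos (by linarith) _
    calc ‖F p' - F x‖ ≤ CV * s * ph γ β c (QQ x p') := hV x p' hx hp'
      _ ≤ CV * s * (l ^ β * ph γ β c Q) :=
          mul_le_mul_of_nonneg_left (h1.trans h2) (by positivity)
      _ = CV * l ^ β * (s * ph γ β c Q) := by ring
      _ ≤ CV * l ^ β * (2 * (u p - u x)) :=
          mul_le_mul_of_nonneg_left (by linarith) (by positivity)
      _ = (2 * CV) * ((u p - u x) * l ^ β) := by ring
      _ ≤ C * ((u p - u x) * l ^ β) := mul_le_mul_of_nonneg_right hC2 (by positivity)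
      _ = C * (u p - u x) * l ^ β := by ring
  · linarith

end

end Pool.Agent.Helper746.Rl
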