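import Mathlib
import Pool.Agent.Helper746.RlDefs
import Pool.Agent.Helper746.RlQfacts

set_option autoImplicit false

namespace Pool.Agent.Helper746.Rl

open Set Metric MeasureTheory Filter Topology

noncomputable section

theorem l_conv {a C : ℝ} (ha : 0 < a) (hC : 0 < C) {x : ℕ → V} {b : ℕ → ℝ}
    (h1 : ∀ k, ‖x k‖ < 1) (hb : ∀ k, 0 < b k) (hb2 : ∀ k, b k ≤ 2)
    (hpot : ∀ k, ht (x (k + 1)) * b (k + 1) ^ (-a) ≤ Real.exp (-a) * (ht (x k) * b k ^ (-a)))
    (hdist : ∀ k, TT (x k) (x (k + 1)) ≤ C * (ht (x k) * b k ^ (-a))) :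
    Summable (fun k => TT (x k) (x (k + 1))) ∧ (∀ k, 0 < TT (x k) (x (k + 1))) ∧
      ∃ ξ : V, ‖ξ‖ = 1 ∧ ∀ k, ‖x k - ξ‖ ≤ ∑' j, TT (x (k + j)) (x (k + j + 1)) := by
  have hht : ∀ k, 0 < ht (x k) := fun k => ht_pos (h1 k)
  have hTht : ∀ k, ht (x k) ≤ TT (x k) (x (k + 1)) := fun k =>
    (le_max_left _ _).trans (le_max_left _ _)
  have hTd : ∀ k, ‖x k - x (k + 1)‖ ≤ TT (x k) (x (k + 1)) := fun k => le_max_right _ _
  have hT0 : ∀ k, 0 < TT (x k) (x (k + 1)) := fun k => (hht k).trans_le (hTht k)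
  have hPhi : ∀ k, ht (x k) * b k ^ (-a) ≤ Real.exp (-a) ^ k * (ht (x 0) * b 0 ^ (-a)) := by
    intro k
    induction k with
    | zero => simp
    | succ k ih =>
      refine (hpot k).trans ?_
      rw [pow_succ', mul_assoc]
      exact mul_le_mul_of_nonneg_left ih (Real.exp_pos _).le
  have hsum : Summable (fun k => TT (x k) (x (k + 1))) := by
    have hg : Summable (fun k : ℕ => C * (Real.exp (-a) ^ k * (ht (x 0) * b 0 ^ (-a)))) := by
      refine Summable.mul_left _ (Summable.mul_right _ ?_)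
      exact summable_geometric_of_lt_one (Real.exp_pos _).le (by simpa using ha)
    refine Summable.of_nonneg_of_le (fun k => (hT0 k).le) (fun k => ?_) hg
    exact (hdist k).trans (mul_le_mul_of_nonneg_left (hPhi k) hC.le)
  refine ⟨hsum, hT0, ?_⟩
  have hd : ∀ n, dist (x n) (x n.succ) ≤ TT (x n) (x (n + 1)) := by
    intro n
    rw [dist_eq_norm]
    exact hTd n
  obtain ⟨ξ, hξ⟩ := cauchySeq_tendsto_of_complete (cauchySeq_of_dist_le_of_summable _ hd hsum)
  refine ⟨ξ, ?_, ?_⟩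
  · have e1 : Tendsto (fun k => ht (x k)) atTop (𝓝 0) :=
      squeeze_zero (fun k => (hht k).le) hTht hsum.tendsto_atTop_zero
    have e2 : Tendsto (fun k => ht (x k)) atTop (𝓝 (1 - ‖ξ‖)) :=
      tendsto_const_nhds.sub hξ.norm
    have e3 := tendsto_nhds_unique e1 e2
    linarith
  · intro k
    have := dist_le_tsum_of_dist_le_of_tendsto _ hd hsum hξ k
    rw [dist_eq_norm] at this
    exact this

end

end Pool.Agent.Helper746.Rl
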