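import Mathlib
import Pool.Agent.Helper746.RlDefs
import Pool.Agent.Helper746.RlQfacts

set_option autoImplicit false

namespace Pool.Agent.Helper746.Rl

open Set Metric MeasureTheory Filter Topology

noncomputable section

theorem l_tail {a C δ : ℝ} (ha : 0 < a) (hC : 0 < C) (hδ : 0 < δ) (hδ1 : δ ≤ 1) :
    ∃ A : ℝ, 0 < A ∧ ∀ (x : ℕ → V) (b : ℕ → ℝ),
    (∀ k, ‖x k‖ < 1) → (∀ k, 0 < b k) →
    (∀ k, ht (x (k + 1)) * b (k + 1) ^ (-a) ≤ Real.exp (-a) * (ht (x k) * b k ^ (-a))) →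
    (∀ k, TT (x k) (x (k + 1)) ≤ C * (ht (x k) * b k ^ (-a))) →
    ∀ (m : ℕ) (τ : ℝ), 0 < τ → (∀ j, m ≤ j → TT (x j) (x (j + 1)) ≤ τ) →
      Summable (fun j => TT (x (m + j)) (x (m + j + 1))) ∧
      ∑' j, TT (x (m + j)) (x (m + j + 1)) ≤ A * τ * b m ^ (-(a * δ)) := by
  obtain ⟨r, hr⟩ : ∃ r, r = Real.exp (-(a * δ)) := ⟨_, rfl⟩
  have hr0 : 0 < r := by rw [hr]; exact Real.exp_pos _
  have hr1 : r < 1 := by
    rw [hr, Real.exp_lt_one_iff]
    have := mul_pos ha hδ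
    linarith
  have hCd : 0 < C ^ δ := Real.rpow_pos_of_pos hC δ
  refine ⟨C ^ δ / (1 - r), div_pos hCd (by linarith), ?_⟩
  intro x b hx hb hpot hdist m τ hτ hTτ
  have hht : ∀ k, 0 < ht (x k) := fun k => by
    unfold ht
    linarith [hx k]
  have hTge : ∀ k, ht (x k) ≤ TT (x k) (x (k + 1)) := fun k =>
    (le_max_left _ _).trans (le_max_left _ _)
  have hTpos : ∀ k, 0 < TT (x k) (x (k + 1)) := fun k => (hht k).trans_le (hTge k)
  have hbm : ∀ s : ℝ, 0 < b m ^ s := fun s => Real.rpow_pos_of_pos (hb m) s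
  have hea : 0 < Real.exp (-a) := Real.exp_pos _
  have hPhi : ∀ j, ht (x (m + j)) * b (m + j) ^ (-a) ≤ Real.exp (-a) ^ j * (τ * b m ^ (-a)) := by
    intro j
    induction j with
    | zero =>
      rw [pow_zero, one_mul, Nat.add_zero]
      exact mul_le_mul_of_nonneg_right ((hTge m).trans (hTτ m le_rfl)) (hbm _).le
    | succ j ih =>
      calc ht (x (m + (j + 1))) * b (m + (j + 1)) ^ (-a)
          ≤ Real.exp (-a) * (ht (x (m + j)) * b (m + j) ^ (-a)) := hpot (m + j)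
        _ ≤ Real.exp (-a) * (Real.exp (-a) ^ j * (τ * b m ^ (-a))) := mul_le_mul_of_nonneg_left ih hea.le
        _ = Real.exp (-a) ^ (j + 1) * (τ * b m ^ (-a)) := by ring
  have hbound : ∀ j, TT (x (m + j)) (x (m + j + 1)) ≤ (C ^ δ * τ * b m ^ (-(a * δ))) * r ^ j := by
    intro j
    have h1 : TT (x (m + j)) (x (m + j + 1)) ≤ C * (Real.exp (-a) ^ j * (τ * b m ^ (-a))) :=
      (hdist (m + j)).trans (mul_le_mul_of_nonneg_left (hPhi j) hC.le)
    have h2 : TT (x (m + j)) (x (m + j + 1)) ≤ τ := hTτ (m + j) (by omega)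
    have hT := hTpos (m + j)
    obtain ⟨t, ht'⟩ : ∃ t, t = TT (x (m + j)) (x (m + j + 1)) := ⟨_, rfl⟩
    rw [← ht'] at h1 h2 hT ⊢
    have e1 : t = t ^ (1 - δ) * t ^ δ := by
      rw [← Real.rpow_add hT, sub_add_cancel, Real.rpow_one]
    have h3 : t ^ (1 - δ) ≤ τ ^ (1 - δ) := Real.rpow_le_rpow hT.le h2 (by linarith)
    have h4 : t ^ δ ≤ (C * (Real.exp (-a) ^ j * (τ * b m ^ (-a)))) ^ δ := Real.rpow_le_rpow hT.le h1 hδ.le
    have e2 : (C * (Real.exp (-a) ^ j * (τ * b m ^ (-a)))) ^ δ =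
        C ^ δ * (r ^ j * (τ ^ δ * b m ^ (-(a * δ)))) := by
      rw [Real.mul_rpow hC.le (by have := hbm (-a); positivity),
        Real.mul_rpow (by positivity) (by have := hbm (-a); positivity),
        Real.mul_rpow hτ.le (hbm _).le]
      have e3 : (Real.exp (-a) ^ j) ^ δ = r ^ j := by
        rw [hr, ← Real.exp_nat_mul, ← Real.exp_nat_mul, ← Real.exp_mul]
        congr 1
        ring
      have e4 : (b m ^ (-a)) ^ δ = b m ^ (-(a * δ)) := by
        rw [← Real.rpow_mul (hb m).le]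
        congr 1
        ring
      rw [e3, e4]
    have e5 : τ ^ (1 - δ) * τ ^ δ = τ := by
      rw [← Real.rpow_add hτ, sub_add_cancel, Real.rpow_one]
    calc t = t ^ (1 - δ) * t ^ δ := e1
      _ ≤ τ ^ (1 - δ) * (C * (Real.exp (-a) ^ j * (τ * b m ^ (-a)))) ^ δ :=
          mul_le_mul h3 h4 (Real.rpow_nonneg hT.le _) (Real.rpow_nonneg hτ.le _)
      _ = (τ ^ (1 - δ) * τ ^ δ) * (C ^ δ * b m ^ (-(a * δ)) * r ^ j) := by rw [e2]; ring
      _ = (C ^ δ * τ * b m ^ (-(a * δ))) * r ^ j := by rw [e5]; ring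
  have hgeo : Summable (fun j : ℕ => (C ^ δ * τ * b m ^ (-(a * δ))) * r ^ j) :=
    (summable_geometric_of_lt_one hr0.le hr1).mul_left _
  have hsum : Summable (fun j => TT (x (m + j)) (x (m + j + 1))) :=
    Summable.of_nonneg_of_le (fun j => (hTpos (m + j)).le) hbound hgeo
  refine ⟨hsum, ?_⟩
  calc ∑' j, TT (x (m + j)) (x (m + j + 1)) ≤ ∑' j : ℕ, (C ^ δ * τ * b m ^ (-(a * δ))) * r ^ j :=
        hsum.tsum_le_tsum hbound hgeo
    _ = (C ^ δ * τ * b m ^ (-(a * δ))) * (1 - r)⁻¹ := by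
        rw [tsum_mul_left, tsum_geometric_of_lt_one hr0.le hr1]
    _ = C ^ δ / (1 - r) * τ * b m ^ (-(a * δ)) := by ring

end

end Pool.Agent.Helper746.Rl
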