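import Mathlib
import Pool.Agent.Helper746.RlDefs
import Pool.Agent.Helper746.RlQfacts
import Pool.Agent.Helper746.RlLconv
import Pool.Agent.Helper746.RlLtail

set_option autoImplicit false

namespace Pool.Agent.Helper746.Rl

open Set Metric MeasureTheory Filter Topology

noncomputable section

theorem l_est {F : V → V} {a β C : ℝ} (ha : 0 < a) (hβ : 0 < β) (hC : 0 < C) {x : ℕ → V}
    {b : ℕ → ℝ} (h1 : ∀ k, ‖x k‖ < 1) (hb : ∀ k, 0 < b k) (hb2 : ∀ k, b k ≤ 2)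
    (hpot : ∀ k, ht (x (k + 1)) * b (k + 1) ^ (-a) ≤ Real.exp (-a) * (ht (x k) * b k ^ (-a)))
    (hdist : ∀ k, TT (x k) (x (k + 1)) ≤ C * (ht (x k) * b k ^ (-a)))
    (hosc : ∀ k, ∀ p : V, ‖p‖ < 1 → ∀ l : ℝ, 1 ≤ l → QQ (x k) p ≤ l * QQ (x k) (x (k + 1)) →
      ‖F p - F (x k)‖ ≤ C * b (k + 1) * l ^ β)
    {ξ : V} (hξ : ‖ξ‖ = 1)
    (hconv : ∀ k, ‖x k - ξ‖ ≤ ∑' j, TT (x (k + j)) (x (k + j + 1))) :
    ∃ A : ℝ, 0 < A ∧ ∀ (k : ℕ) (y : V), ‖y‖ < 1 → ‖y - ξ‖ ≤ ht y →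
      ht y ≤ TT (x k) (x (k + 1)) → (∀ j, k < j → TT (x j) (x (j + 1)) < ht y) →
      ‖F y - F (x k)‖ ≤ A * b (k + 1) ^ (1 / 2 : ℝ) := by
  set δ : ℝ := min 1 (1 / (4 * a * β)) with hδdef
  have haβ : 0 < 4 * a * β := by positivity
  have hδ : 0 < δ := lt_min one_pos (by positivity)
  have hδ1 : δ ≤ 1 := min_le_left _ _
  have hδ2 : δ ≤ 1 / (4 * a * β) := min_le_right _ _
  have hδ3 : 2 * (a * δ * β) ≤ 1 / 2 := by
    have h := (le_div_iff₀ haβ).1 hδ2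
    nlinarith
  obtain ⟨A0, hA0, htail⟩ := l_tail ha hC hδ hδ1
  set s : ℝ := a * δ with hs
  have hs0 : 0 < s := mul_pos ha hδ
  set A1 : ℝ := 2 * 2 ^ s + A0 with hA1
  have hA1p : 0 < A1 := by positivity
  refine ⟨C * A1 ^ (2 * β) * 2 ^ (1 / 2 : ℝ), by positivity, ?_⟩
  intro k y hy hyξ hyT hlt
  have hτ : 0 < ht y := ht_pos hy
  obtain ⟨hsum, htl⟩ := htail x b h1 hb hpot hdist (k + 1) (ht y) hτ
    (fun j hj => (hlt j (by omega)).le)
  have hidx : ∀ j, k + (j + 1) = k + 1 + j := fun j => by omega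
  have hfe : (fun j => TT (x (k + (j + 1))) (x (k + (j + 1) + 1))) =
      (fun j => TT (x (k + 1 + j)) (x (k + 1 + j + 1))) := by
    funext j
    rw [hidx j]
  have hsum' : Summable (fun j => TT (x (k + j)) (x (k + j + 1))) := by
    rw [← summable_nat_add_iff 1]
    change Summable (fun j => TT (x (k + (j + 1))) (x (k + (j + 1) + 1)))
    rw [hfe]
    exact hsum
  have hts : ∑' j, TT (x (k + j)) (x (k + j + 1)) = TT (x k) (x (k + 1)) +
      ∑' j, TT (x (k + 1 + j)) (x (k + 1 + j + 1)) := by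
    rw [hsum'.tsum_eq_zero_add, ← hfe]
    rfl
  set B : ℝ := b (k + 1) with hBdef
  have hB : 0 < B := hb (k + 1)
  have hB2 : B ≤ 2 := hb2 (k + 1)
  set Λ : ℝ := A0 * B ^ (-s) with hΛdef
  have hΛ : 0 < Λ := by positivity
  set Tk : ℝ := TT (x k) (x (k + 1)) with hTk
  have hxk := ht_pos (h1 k)
  have hxk1 := ht_pos (h1 (k + 1))
  have hTk1 : ht (x k) ≤ Tk := (le_max_left _ _).trans (le_max_left _ _)
  have hTk0 : 0 < Tk := hxk.trans_le hTk1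
  have hξ1 : ‖x k - ξ‖ ≤ Tk + Λ * ht y := by
    refine (hconv k).trans ?_
    rw [hts]
    have : A0 * ht y * B ^ (-s) = Λ * ht y := by rw [hΛdef]; ring
    linarith
  have hxy : ‖x k - y‖ ≤ (2 + Λ) * Tk := by
    have h2 : ‖x k - y‖ ≤ ‖x k - ξ‖ + ‖y - ξ‖ := by
      have h3 : x k - y = (x k - ξ) - (y - ξ) := by abel
      rw [h3]
      exact norm_sub_le _ _
    have h4 : Λ * ht y ≤ Λ * Tk := mul_le_mul_of_nonneg_left hyT hΛ.le
    nlinarith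
  have hTT : TT (x k) y ≤ (2 + Λ) * Tk := by
    have h5 : Tk ≤ (2 + Λ) * Tk := by nlinarith
    unfold TT
    exact max_le (max_le (hTk1.trans h5) (hyT.trans h5)) hxy
  have hTT0 : 0 ≤ TT (x k) y := (hxk.le).trans ((le_max_left _ _).trans (le_max_left _ _))
  have hht : ht (x (k + 1)) ≤ ht y := by
    have h6 : ht (x (k + 1)) ≤ TT (x (k + 1)) (x (k + 1 + 1)) :=
      (le_max_left _ _).trans (le_max_left _ _)
    exact h6.trans (hlt (k + 1) (by omega)).le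
  have hQ : QQ (x k) y ≤ (2 + Λ) ^ 2 * QQ (x k) (x (k + 1)) := by
    unfold QQ
    rw [← hTk, ← mul_div_assoc, div_le_div_iff₀ (by positivity) (by positivity), ← mul_pow]
    have h7 : TT (x k) y ^ 2 ≤ ((2 + Λ) * Tk) ^ 2 := pow_le_pow_left₀ hTT0 hTT 2
    have h8 : ht (x k) * ht (x (k + 1)) ≤ ht (x k) * ht y :=
      mul_le_mul_of_nonneg_left hht hxk.le
    exact mul_le_mul h7 h8 (by positivity) (by positivity)
  have hl1 : (1 : ℝ) ≤ (2 + Λ) ^ 2 := by nlinarith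
  have hF := hosc k y hy ((2 + Λ) ^ 2) hl1 hQ
  refine hF.trans ?_
  rw [← hBdef]
  have h2L : 2 + Λ ≤ A1 * B ^ (-s) := by
    have h9 : (1 : ℝ) ≤ 2 ^ s * B ^ (-s) := by
      rw [Real.rpow_neg hB.le, ← div_eq_mul_inv, le_div_iff₀ (by positivity), one_mul]
      exact Real.rpow_le_rpow hB.le hB2 hs0.le
    rw [hA1, hΛdef]
    nlinarith
  have hpow1 : ((2 + Λ) ^ 2) ^ β ≤ A1 ^ (2 * β) * B ^ (-(2 * (s * β))) := by
    have h10 : ((2 + Λ) ^ 2) ^ β = (2 + Λ) ^ (2 * β) := by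
      rw [← Real.rpow_natCast (2 + Λ) 2, ← Real.rpow_mul (by positivity)]
      norm_num
    rw [h10]
    have h11 : (2 + Λ) ^ (2 * β) ≤ (A1 * B ^ (-s)) ^ (2 * β) :=
      Real.rpow_le_rpow (by positivity) h2L (by positivity)
    refine h11.trans (le_of_eq ?_)
    rw [Real.mul_rpow hA1p.le (by positivity), ← Real.rpow_mul hB.le]
    congr 2
    ring
  have hexp : B * B ^ (-(2 * (s * β))) ≤ 2 ^ (1 / 2 : ℝ) * B ^ (1 / 2 : ℝ) := by
    have h12 : B * B ^ (-(2 * (s * β))) = B ^ (1 / 2 - 2 * (s * β)) * B ^ (1 / 2 : ℝ) := by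
      nth_rewrite 1 [← Real.rpow_one B]
      rw [← Real.rpow_add hB, ← Real.rpow_add hB]
      congr 1
      ring
    rw [h12]
    refine mul_le_mul_of_nonneg_right ?_ (by positivity)
    have h13 : 0 ≤ 1 / 2 - 2 * (s * β) := by linarith
    have h14 : 0 < s * β := mul_pos hs0 hβ
    calc B ^ (1 / 2 - 2 * (s * β)) ≤ 2 ^ (1 / 2 - 2 * (s * β)) :=
          Real.rpow_le_rpow hB.le hB2 h13
      _ ≤ 2 ^ (1 / 2 : ℝ) :=
          Real.rpow_le_rpow_of_exponent_le (by norm_num) (by linarith)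
  calc C * B * ((2 + Λ) ^ 2) ^ β ≤ C * B * (A1 ^ (2 * β) * B ^ (-(2 * (s * β)))) :=
        mul_le_mul_of_nonneg_left hpow1 (by positivity)
    _ = C * A1 ^ (2 * β) * (B * B ^ (-(2 * (s * β)))) := by ring
    _ ≤ C * A1 ^ (2 * β) * (2 ^ (1 / 2 : ℝ) * B ^ (1 / 2 : ℝ)) :=
        mul_le_mul_of_nonneg_left hexp (by positivity)
    _ = C * A1 ^ (2 * β) * 2 ^ (1 / 2 : ℝ) * B ^ (1 / 2 : ℝ) := by ring

end

end Pool.Agent.Helper746.Rl
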