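import Mathlib
import Pool.Agent.Helper746.RlDefs
import Pool.Agent.Helper746.RlQfacts
import Pool.Agent.Helper746.RlLconv
import Pool.Agent.Helper746.RlLest

set_option autoImplicit false

namespace Pool.Agent.Helper746.Rl

open Set Metric MeasureTheory Filter Topology

noncomputable section

theorem lim_thm {F : V → V} {a β C : ℝ} (ha : 0 < a) (hβ : 0 < β) (hC : 0 < C) {x : ℕ → V}
    {b : ℕ → ℝ} (h1 : ∀ k, ‖x k‖ < 1) (hb : ∀ k, 0 < b k) (hb2 : ∀ k, b k ≤ 2)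
    (hs : Summable b)
    (hpot : ∀ k, ht (x (k + 1)) * b (k + 1) ^ (-a) ≤ Real.exp (-a) * (ht (x k) * b k ^ (-a)))
    (hdist : ∀ k, TT (x k) (x (k + 1)) ≤ C * (ht (x k) * b k ^ (-a)))
    (hosc : ∀ k, ∀ p : V, ‖p‖ < 1 → ∀ l : ℝ, 1 ≤ l → QQ (x k) p ≤ l * QQ (x k) (x (k + 1)) →
      ‖F p - F (x k)‖ ≤ C * b (k + 1) * l ^ β) :
    ∃ ξ : V, ‖ξ‖ = 1 ∧ ∃ L : V, Tendsto (fun r : ℝ => F (r • ξ)) (𝓝[<] 1) (𝓝 L) := by
  classical
  obtain ⟨hsT, hTpos, ξ, hξ, hconv⟩ := l_conv ha hC h1 hb hb2 hpot hdist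
  obtain ⟨A, hA, hest⟩ := l_est ha hβ hC h1 hb hb2 hpot hdist hosc hξ hconv
  refine ⟨ξ, hξ, ?_⟩
  have hd : ∀ k, dist (F (x k)) (F (x (k + 1))) ≤ C * b (k + 1) := by
    intro k
    have h2 := hosc k (x (k + 1)) (h1 _) 1 le_rfl (by rw [one_mul])
    rw [Real.one_rpow, mul_one] at h2
    rw [dist_comm, dist_eq_norm]
    exact h2
  have hsum : Summable (fun k => dist (F (x k)) (F (x (k + 1)))) := by
    refine Summable.of_nonneg_of_le (fun _ => dist_nonneg) hd ?_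
    exact ((summable_nat_add_iff 1).2 hs).mul_left C
  have hcau : CauchySeq (fun k => F (x k)) := cauchySeq_of_summable_dist hsum
  obtain ⟨L, hL⟩ := cauchySeq_tendsto_of_complete hcau
  refine ⟨L, ?_⟩
  rw [Metric.tendsto_nhds]
  intro ε hε
  have hb0 : Tendsto (fun k => A * b (k + 1) ^ (1 / 2 : ℝ)) atTop (𝓝 0) := by
    have h3 : Tendsto (fun k => b (k + 1)) atTop (𝓝 0) :=
      hs.tendsto_atTop_zero.comp (tendsto_add_atTop_nat 1)
    have h4 := (h3.rpow_const (p := (1 / 2 : ℝ)) (Or.inr (by norm_num))).const_mul A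
    rw [Real.zero_rpow (by norm_num), mul_zero] at h4
    exact h4
  have e1 : ∀ᶠ k in atTop, A * b (k + 1) ^ (1 / 2 : ℝ) < ε / 2 :=
    hb0.eventually (gt_mem_nhds (by linarith))
  have e2 : ∀ᶠ k in atTop, dist (F (x k)) L < ε / 2 :=
    (Metric.tendsto_nhds.1 hL) (ε / 2) (by linarith)
  obtain ⟨K, hK⟩ := eventually_atTop.1 (e1.and e2)
  have hlt1 : ∀ᶠ r : ℝ in 𝓝[<] 1, r < 1 := eventually_mem_nhdsWithin
  have hgt0 : ∀ᶠ r : ℝ in 𝓝[<] 1, 0 < r :=
    nhdsWithin_le_nhds (lt_mem_nhds (by norm_num : (0:ℝ) < 1))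
  have hgtT : ∀ᶠ r : ℝ in 𝓝[<] 1, 1 - TT (x K) (x (K + 1)) < r :=
    nhdsWithin_le_nhds (lt_mem_nhds (by linarith [hTpos K]))
  filter_upwards [hlt1, hgt0, hgtT] with r hr1 hr0 hrT
  have hny : ‖r • ξ‖ = r := by
    rw [norm_smul, hξ, mul_one, Real.norm_eq_abs, abs_of_pos hr0]
  have hht : ht (r • ξ) = 1 - r := by
    unfold ht
    rw [hny]
  have hnd : ‖r • ξ - ξ‖ ≤ ht (r • ξ) := by
    have h5 : r • ξ - ξ = (r - 1) • ξ := by rw [sub_smul, one_smul]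
    rw [h5, norm_smul, hξ, mul_one, hht, Real.norm_eq_abs, abs_of_neg (by linarith)]
    linarith
  have hTlim : ∀ᶠ j in atTop, TT (x j) (x (j + 1)) < ht (r • ξ) :=
    hsT.tendsto_atTop_zero.eventually (gt_mem_nhds (by rw [hht]; linarith))
  obtain ⟨N, hN⟩ := eventually_atTop.1 hTlim
  have hPK : ht (r • ξ) ≤ TT (x K) (x (K + 1)) := by rw [hht]; linarith
  have hKN : K ≤ N := by
    by_contra hcon
    push Not at hcon
    have := hN K hcon.le
    linarith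
  set k := Nat.findGreatest (fun j => ht (r • ξ) ≤ TT (x j) (x (j + 1))) N with hk
  have hkP : ht (r • ξ) ≤ TT (x k) (x (k + 1)) :=
    Nat.findGreatest_spec (P := fun j => ht (r • ξ) ≤ TT (x j) (x (j + 1))) hKN hPK
  have hkK : K ≤ k :=
    Nat.le_findGreatest (P := fun j => ht (r • ξ) ≤ TT (x j) (x (j + 1))) hKN hPK
  have hkmax : ∀ j, k < j → TT (x j) (x (j + 1)) < ht (r • ξ) := by
    intro j hj
    rcases le_or_gt j N with h6 | h6
    · have := Nat.findGreatest_is_greatest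
        (P := fun j => ht (r • ξ) ≤ TT (x j) (x (j + 1))) hj h6
      exact not_le.1 this
    · exact hN j h6.le
  have h7 := hest k (r • ξ) (by rw [hny]; exact hr1) hnd hkP hkmax
  obtain ⟨h8, h9⟩ := hK k hkK
  calc dist (F (r • ξ)) L ≤ dist (F (r • ξ)) (F (x k)) + dist (F (x k)) L := dist_triangle _ _ _
    _ < ε / 2 + ε / 2 := by
        apply add_lt_add _ h9
        rw [dist_eq_norm]
        exact lt_of_le_of_lt h7 h8
    _ = ε := by ring

end

end Pool.Agent.Helper746.Rl
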