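import Mathlib
import Pool.Agent.Helper746.RlDefs

set_option autoImplicit false

namespace Pool.Agent.Helper746.Rl

open Set Metric MeasureTheory Filter Topology

noncomputable section

theorem params_exist {CH q : ℝ} (hCH : 0 < CH) (hq : 0 < q) (hq1 : q < 1) :
    ∃ (γ β c : ℝ) (N : ℕ), 0 < γ ∧ γ ≤ β ∧ 0 < c ∧ 2 * (1 + CH) ≤ (17 / 16 : ℝ) ^ β ∧
      2 * q ^ N ≤ 1 ∧
      c * ((16 : ℝ) ^ (N + 1) * Real.exp (2 / γ)) ^ β ≤
        ((16 : ℝ) ^ (N + 1) * Real.exp (2 / γ)) ^ γ ∧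
      2 * q ^ N * (2 * Real.exp 1 * (2 * ((16 : ℝ) ^ (N + 1) * Real.exp (2 / γ)) ^ γ)) ≤ 1 / 4 := by
  have hlog16 : 0 < Real.log 16 := Real.log_pos (by norm_num)
  have hlogq : Real.log q < 0 := Real.log_neg hq hq1
  set s : ℝ := Real.exp (Real.log q / 2) with hs
  have hs0 : 0 < s := Real.exp_pos _
  have hs1 : s < 1 := by
    rw [hs]
    exact Real.exp_lt_one_iff.2 (by linarith) 
  have hsq : s ^ 2 = q := by
    rw [hs, ← Real.exp_nat_mul]
    have : ((2 : ℕ) : ℝ) * (Real.log q / 2) = Real.log q := by push_cast; ring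
    rw [this, Real.exp_log hq]
  set γ : ℝ := -Real.log q / (2 * Real.log 16) with hγ
  have hγ0 : 0 < γ := by
    rw [hγ]
    apply div_pos <;> linarith
  have h16 : (16 : ℝ) ^ γ = s⁻¹ := by
    rw [Real.rpow_def_of_pos (by norm_num), hs, ← Real.exp_neg]
    congr 1
    rw [hγ]
    field_simp
  have hQγ : ∀ N : ℕ, ((16 : ℝ) ^ (N + 1) * Real.exp (2 / γ)) ^ γ =
      (s⁻¹) ^ (N + 1) * Real.exp 2 := by
    intro N
    rw [Real.mul_rpow (by positivity) (Real.exp_pos _).le, ← Real.rpow_pow_comm (by norm_num),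
      h16, ← Real.exp_mul, div_mul_cancel₀ _ hγ0.ne']
  obtain ⟨M, hM⟩ := exists_pow_lt_of_lt_one (show (0 : ℝ) < 1 / (32 * Real.exp 3) by positivity) hs1
  have he3 : 1 ≤ Real.exp 3 := Real.one_le_exp (by norm_num)
  have hMs : s ^ M * (32 * Real.exp 3) < 1 := by
    rwa [lt_div_iff₀ (by positivity)] at hM
  have hβex : ∃ β : ℝ, γ ≤ β ∧ 2 * (1 + CH) ≤ (17 / 16 : ℝ) ^ β := by
    refine ⟨max γ (Real.log (2 * (1 + CH)) / Real.log (17 / 16)), le_max_left _ _, ?_⟩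
    have hl : 0 < Real.log (17 / 16) := Real.log_pos (by norm_num)
    have h1 : (17 / 16 : ℝ) ^ (Real.log (2 * (1 + CH)) / Real.log (17 / 16)) = 2 * (1 + CH) := by
      rw [Real.rpow_def_of_pos (by norm_num), mul_div_cancel₀ _ hl.ne', Real.exp_log (by linarith)]
    calc 2 * (1 + CH) = (17 / 16 : ℝ) ^ (Real.log (2 * (1 + CH)) / Real.log (17 / 16)) := h1.symm
      _ ≤ _ := Real.rpow_le_rpow_of_exponent_le (by norm_num) (le_max_right _ _)
  obtain ⟨β, hγβ, hβ⟩ := hβex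
  have hQpos : 0 < (16 : ℝ) ^ (M + 1 + 1) * Real.exp (2 / γ) := by positivity
  refine ⟨γ, β, ((16 : ℝ) ^ (M + 1 + 1) * Real.exp (2 / γ)) ^ γ /
    ((16 : ℝ) ^ (M + 1 + 1) * Real.exp (2 / γ)) ^ β, M + 1, hγ0, hγβ, ?_, hβ, ?_, ?_, ?_⟩
  · exact div_pos (Real.rpow_pos_of_pos hQpos _) (Real.rpow_pos_of_pos hQpos _)
  · have h1 : q ^ (M + 1) ≤ s ^ M := by
      rw [← hsq, ← pow_mul]
      exact pow_le_pow_of_le_one hs0.le hs1.le (by omega)
    have h2 : s ^ M ≤ 1 / 2 := by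
      have h3 : s ^ M * 32 ≤ s ^ M * (32 * Real.exp 3) := by
        apply mul_le_mul_of_nonneg_left _ (by positivity)
        linarith
      linarith
    linarith
  · rw [div_mul_cancel₀ _ (Real.rpow_pos_of_pos hQpos _).ne']
  · rw [hQγ]
    have e1 : q ^ (M + 1) * (s⁻¹) ^ (M + 1 + 1) = s ^ M := by
      rw [← hsq, ← pow_mul, inv_pow]
      have : s ^ (2 * (M + 1)) = s ^ M * s ^ (M + 1 + 1) := by
        rw [← pow_add]
        congr 1
        ring
      rw [this, mul_assoc, mul_inv_cancel₀ (by positivity), mul_one]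
    have e2 : Real.exp 1 * Real.exp 2 = Real.exp 3 := by
      rw [← Real.exp_add]
      norm_num
    have e3 : 2 * q ^ (M + 1) * (2 * Real.exp 1 * (2 * ((s⁻¹) ^ (M + 1 + 1) * Real.exp 2))) =
        8 * (s ^ M * Real.exp 3) := by
      rw [← e1, ← e2]
      ring
    rw [e3]
    nlinarith

end

end Pool.Agent.Helper746.Rl
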