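import Mathlib
import Pool.Agent.Helper746.RlDefs

set_option autoImplicit false

namespace Pool.Agent.Helper746.Rl

open Set Metric MeasureTheory Filter Topology

noncomputable section

theorem seq_exists {F : V → V} {u : V → ℝ} {a β C : ℝ}
    (hu : ∀ x : V, ‖x‖ < 1 → |u x| ≤ 1)
    (hstep : ∀ (x : V) (b : ℝ), ‖x‖ < 1 → 0 < b → b ≤ 2 →
      ∃ (x' : V) (b' : ℝ), GStep F u a β C x b x' b') :
    ∃ (x : ℕ → V) (b : ℕ → ℝ), (∀ k, ‖x k‖ < 1) ∧ (∀ k, 0 < b k) ∧ (∀ k, b k ≤ 2) ∧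
      Summable b ∧ ∀ k, GStep F u a β C (x k) (b k) (x (k + 1)) (b (k + 1)) := by
  classical
  have hnxt : ∀ s : {p : V × ℝ // ‖p.1‖ < 1 ∧ 0 < p.2 ∧ p.2 ≤ 2},
      ∃ s' : {p : V × ℝ // ‖p.1‖ < 1 ∧ 0 < p.2 ∧ p.2 ≤ 2},
        GStep F u a β C s.1.1 s.1.2 s'.1.1 s'.1.2 := by
    rintro ⟨⟨x, b⟩, h1, h2, h3⟩
    obtain ⟨x', b', h⟩ := hstep x b h1 h2 h3
    exact ⟨⟨(x', b'), h.n1, h.b0, h.b2⟩, h⟩
  choose nxt hn using hnxt
  let s : ℕ → {p : V × ℝ // ‖p.1‖ < 1 ∧ 0 < p.2 ∧ p.2 ≤ 2} := fun k =>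
    Nat.rec (motive := fun _ => {p : V × ℝ // ‖p.1‖ < 1 ∧ 0 < p.2 ∧ p.2 ≤ 2})
      ⟨((0 : V), (1 : ℝ)), by simp, one_pos, one_le_two⟩ (fun _ t => nxt t) k
  have hs : ∀ k, GStep F u a β C (s k).1.1 (s k).1.2 (s (k + 1)).1.1 (s (k + 1)).1.2 :=
    fun k => hn (s k)
  have hb0 : ∀ k, 0 < (s k).1.2 := fun k => (s k).2.2.1
  have hb2 : ∀ k, (s k).1.2 ≤ 2 := fun k => (s k).2.2.2
  have hx1 : ∀ k, ‖(s k).1.1‖ < 1 := fun k => (s k).2.1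
  refine ⟨fun k => (s k).1.1, fun k => (s k).1.2, hx1, hb0, hb2, ?_, hs⟩
  have hL : ∀ n, ∑ k ∈ Finset.range n, (s k).1.2 ≤
      20 * ((u (s n).1.1 - (s n).1.2 / 2) - (u (s 0).1.1 - (s 0).1.2 / 2)) := by
    intro n
    induction n with
    | zero => simp
    | succ n ih =>
      rw [Finset.sum_range_succ]
      have := (hs n).gain
      linarith
  refine summable_of_sum_range_le (c := 20 * (1 - (u (s 0).1.1 - (s 0).1.2 / 2)))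
    (fun k => (hb0 k).le) (fun n => (hL n).trans ?_)
  have h1 := hb0 n
  have h2 := (abs_le.1 (hu _ (hx1 n))).2
  linarith

end

end Pool.Agent.Helper746.Rl
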