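import Mathlib
import Pool.Agent.Helper746.RlDefs
import Pool.Agent.Helper746.RlQfacts

set_option autoImplicit false

namespace Pool.Agent.Helper746.Rl

open Set Metric MeasureTheory Filter Topology

noncomputable section

theorem v_reach {F : V → V} {u : V → ℝ} {CH β : ℝ} (hCH : 0 < CH) (hβ0 : 0 < β)
    (hβ : 2 * (1 + CH) ≤ (17 / 16 : ℝ) ^ β) (hH : HarnackH F u CH)
    (hFu : ∀ x y : V, ‖x‖ < 1 → ‖y‖ < 1 → |u x - u y| ≤ ‖F x - F y‖)
    {x : V} (hx : ‖x‖ < 1) {S : ℝ} (hS0 : 0 ≤ S)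
    (hS : ∀ p : V, ‖p‖ < 1 → u p - u x ≤ S * QQ x p ^ β) {N : ℕ} {y : V} (h : Reach x N y) :
    ‖y‖ < 1 ∧ QQ x y ≤ 9 * (17 / 16 : ℝ) ^ N ∧
      ‖F y - F x‖ ≤ (288 : ℝ) ^ β * S * ((17 / 16 : ℝ) ^ N) ^ β := by
  induction h with
  | base =>
    refine ⟨hx, ?_, ?_⟩
    · have hh := ht_pos hx
      have h1 : QQ x x = 1 := by
        unfold QQ TT
        rw [sub_self, norm_zero, max_self, max_eq_left hh.le, pow_two]
        exact div_self (mul_pos hh hh).ne'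
      rw [h1]; norm_num
    · rw [sub_self, norm_zero]; positivity
  | @step N y y' h1 h2 h3 h4 ih =>
    obtain ⟨hy, hQ, hF⟩ := ih
    refine ⟨h2, h4, ?_⟩
    have hr : (0 : ℝ) ≤ (17 / 16 : ℝ) ^ N := by positivity
    have hQ1 := QQ_one_le hx hy
    obtain ⟨D, hD⟩ : ∃ D : ℝ, D = (288 : ℝ) ^ β * S * ((17 / 16 : ℝ) ^ N) ^ β := ⟨_, rfl⟩
    have hD0 : 0 ≤ D := by rw [hD]; positivity
    rw [← hD] at hF
    have hstep := hH y hy (u x + S * (32 * QQ x y) ^ β) (by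
      intro p hp
      obtain ⟨hp1, hp2⟩ := QQ_near hx hy hp
      have h5 := hS p hp1
      have h6 : QQ x p ^ β ≤ (32 * QQ x y) ^ β :=
        Real.rpow_le_rpow (by linarith [QQ_one_le hx hp1]) hp2 hβ0.le
      have h7 : S * QQ x p ^ β ≤ S * (32 * QQ x y) ^ β := mul_le_mul_of_nonneg_left h6 hS0
      linarith) y' h3
    have h8 : (32 * QQ x y) ^ β ≤ (288 : ℝ) ^ β * ((17 / 16 : ℝ) ^ N) ^ β := by
      rw [← Real.mul_rpow (by norm_num) hr]
      exact Real.rpow_le_rpow (by linarith) (by linarith) hβ0.le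
    have h9 : S * (32 * QQ x y) ^ β ≤ D := by
      rw [hD]
      calc S * (32 * QQ x y) ^ β ≤ S * ((288 : ℝ) ^ β * ((17 / 16 : ℝ) ^ N) ^ β) :=
            mul_le_mul_of_nonneg_left h8 hS0
        _ = _ := by ring
    have h10 : u x - u y ≤ D := by
      have := (le_abs_self _).trans (hFu x y hx hy)
      rw [norm_sub_rev] at this
      linarith
    have h11 : ‖F y' - F y‖ ≤ CH * (2 * D) := by
      refine hstep.trans (mul_le_mul_of_nonneg_left ?_ hCH.le)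
      linarith
    have h12 : ‖F y' - F x‖ ≤ ‖F y' - F y‖ + ‖F y - F x‖ := by
      have : F y' - F x = (F y' - F y) + (F y - F x) := by abel
      rw [this]
      exact norm_add_le _ _
    have h13 : (288 : ℝ) ^ β * S * ((17 / 16 : ℝ) ^ (N + 1)) ^ β = (17 / 16 : ℝ) ^ β * D := by
      rw [hD, pow_succ, Real.mul_rpow hr (by norm_num)]
      ring
    rw [h13]
    calc ‖F y' - F x‖ ≤ CH * (2 * D) + D := by linarith
      _ ≤ 2 * (1 + CH) * D := by nlinarith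
      _ ≤ (17 / 16 : ℝ) ^ β * D := mul_le_mul_of_nonneg_right hβ hD0

end

end Pool.Agent.Helper746.Rl
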