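import Mathlib
import Pool.Agent.Helper746.RlDefs
import Pool.Agent.Helper746.RlQfacts
import Pool.Agent.Helper746.RlPhfacts
import Pool.Agent.Helper746.RlSfacts
import Pool.Agent.Helper746.RlGeo
import Pool.Agent.Helper746.RlVreach

set_option autoImplicit false

namespace Pool.Agent.Helper746.Rl

open Set Metric MeasureTheory Filter Topology

noncomputable section

theorem v_main {F : V → V} {u : V → ℝ} {CH γ β c : ℝ} (hCH : 0 < CH) (hγ : 0 < γ)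
    (hγβ : γ ≤ β) (hc : 0 < c)
    (hβ : 2 * (1 + CH) ≤ (17 / 16 : ℝ) ^ β) (hH : HarnackH F u CH)
    (hFu : ∀ x y : V, ‖x‖ < 1 → ‖y‖ < 1 → |u x - u y| ≤ ‖F x - F y‖)
    (hu : ∀ x : V, ‖x‖ < 1 → |u x| ≤ 1) :
    ∃ CV : ℝ, 0 < CV ∧ ∀ x p : V, ‖x‖ < 1 → ‖p‖ < 1 →
      ‖F p - F x‖ ≤ CV * ss γ β c u x * ph γ β c (QQ x p) := by
  have hβ0 : 0 < β := lt_of_lt_of_le hγ hγβ
  have h288 : (0:ℝ) < (288:ℝ) ^ β := Real.rpow_pos_of_pos (by norm_num) _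
  have h9 : (0:ℝ) < (9:ℝ) ^ β := Real.rpow_pos_of_pos (by norm_num) _
  refine ⟨288 ^ β * (1 + c) * 9 ^ β / c, by positivity, ?_⟩
  intro x p hx hp
  have hs := ss_nonneg (c := c) hγ hγβ hc hu hx
  have hS : ∀ p : V, ‖p‖ < 1 → u p - u x ≤ (ss γ β c u x * (1 + c)) * QQ x p ^ β := by
    intro p hp
    have h1 := ss_upper hγ hγβ hc hu hx p hp
    have h2 := mul_le_mul_of_nonneg_left (ph_le hγβ hc (QQ_one_le hx hp)) hs
    calc u p - u x ≤ _ := h1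
      _ ≤ _ := h2
      _ = _ := by ring
  obtain ⟨N, hR, hN⟩ := geo hx hp
  obtain ⟨_, _, h3⟩ := v_reach hCH hβ0 hβ hH hFu hx (mul_nonneg hs (by linarith)) hS hR
  have hQ1 := QQ_one_le hx hp
  have hQ0 : 0 ≤ QQ x p := by linarith
  have h4 : ((17 / 16 : ℝ) ^ N) ^ β ≤ (9 * QQ x p) ^ β :=
    Real.rpow_le_rpow (by positivity) hN hβ0.le
  rw [Real.mul_rpow (by norm_num) hQ0] at h4
  have h5 : QQ x p ^ β ≤ ph γ β c (QQ x p) / c := by
    rw [le_div_iff₀ hc]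
    have := ph_ge_c (γ := γ) (β := β) hc hQ1
    linarith
  have h6 : (0:ℝ) ≤ 288 ^ β * (ss γ β c u x * (1 + c)) :=
    mul_nonneg h288.le (mul_nonneg hs (by linarith))
  calc ‖F p - F x‖ ≤ 288 ^ β * (ss γ β c u x * (1 + c)) * ((17 / 16 : ℝ) ^ N) ^ β := h3
    _ ≤ 288 ^ β * (ss γ β c u x * (1 + c)) * (9 ^ β * QQ x p ^ β) :=
      mul_le_mul_of_nonneg_left h4 h6
    _ ≤ 288 ^ β * (ss γ β c u x * (1 + c)) * (9 ^ β * (ph γ β c (QQ x p) / c)) :=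
      mul_le_mul_of_nonneg_left (mul_le_mul_of_nonneg_left h5 h9.le) h6
    _ = _ := by ring

end

end Pool.Agent.Helper746.Rl
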