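import Mathlib
import Pool.Agent.Helper746.RlDefs
import Pool.Agent.Helper746.RlQfacts
import Pool.Agent.Helper746.RlPhfacts
import Pool.Agent.Helper746.RlSfacts
import Pool.Agent.Helper746.RlVmain
import Pool.Agent.Helper746.RlJump
import Pool.Agent.Helper746.RlChild
import Pool.Agent.Helper746.RlParams

set_option autoImplicit false

namespace Pool.Agent.Helper746.Rl

open Set Metric MeasureTheory Filter Topology

noncomputable section

theorem step_exists {F : V → V} {u : V → ℝ} {CH q : ℝ} (hCH : 0 < CH) (hq : 0 < q)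
    (hq1 : q < 1) (hu : ∀ x : V, ‖x‖ < 1 → |u x| ≤ 1)
    (hFu : ∀ x y : V, ‖x‖ < 1 → ‖y‖ < 1 → |u x - u y| ≤ ‖F x - F y‖)
    (hH : HarnackH F u CH) (hG : GainG u q) :
    ∃ a β C : ℝ, 0 < a ∧ 0 < β ∧ 0 < C ∧ ∀ (x : V) (b : ℝ), ‖x‖ < 1 → 0 < b → b ≤ 2 →
      ∃ (x' : V) (b' : ℝ), GStep F u a β C x b x' b' := by
  obtain ⟨γ, β, c, N, hγ, hγβ, hc, hβ, hN, hcQ, hk⟩ := params_exist hCH hq hq1
  obtain ⟨CV, hCV, hV⟩ := v_main hCH hγ hγβ hc hβ hH hFu hu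
  set Q0 : ℝ := (16 : ℝ) ^ (N + 1) * Real.exp (2 / γ) with hQ0
  set C : ℝ := max (max 1 (2 * CV)) (max (3 * 4 ^ (N + 1) * 2 ^ (1 / γ))
    (4 * Real.exp 2 * CV * Q0 ^ γ)) with hC
  have hC1 : 1 ≤ C := (le_max_left _ _).trans (le_max_left _ _)
  have hC2 : 2 * CV ≤ C := (le_max_right _ _).trans (le_max_left _ _)
  have hC3 : 3 * 4 ^ (N + 1) * 2 ^ (1 / γ) ≤ C := (le_max_left _ _).trans (le_max_right _ _)
  have hC4 : 4 * Real.exp 2 * CV * Q0 ^ γ ≤ C := (le_max_right _ _).trans (le_max_right _ _)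
  refine ⟨1 / γ, β, C, by positivity, lt_of_lt_of_le hγ hγβ, lt_of_lt_of_le one_pos hC1, ?_⟩
  intro x b hx hb hb2
  by_cases hs : 2 * Real.exp 1 * b < ss γ β c u x
  · exact jump_step hγ hγβ hc hu hCV hV hC1 hC2 hx hb hb2 hs
  · exact child_step hγ hγβ hc hu hCV hV hq hG hN hQ0 hcQ hk hC3 hC4 hx hb hb2 (not_lt.1 hs)

end

end Pool.Agent.Helper746.Rl
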