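import Mathlib
import Pool.Agent.Helper746.RlDefs
import Pool.Agent.Helper746.RlStepex
import Pool.Agent.Helper746.RlSeqex
import Pool.Agent.Helper746.RlLimthm

set_option autoImplicit false

namespace Pool.Agent.Helper746.Rl

open Set Metric MeasureTheory Filter Topology

noncomputable section

theorem part_B {F : V → V} {u : V → ℝ} {CH q : ℝ} (hCH : 0 < CH) (hq : 0 < q)
    (hq1 : q < 1) (hu : ∀ x : V, ‖x‖ < 1 → |u x| ≤ 1)
    (hFu : ∀ x y : V, ‖x‖ < 1 → ‖y‖ < 1 → |u x - u y| ≤ ‖F x - F y‖)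
    (hH : HarnackH F u CH) (hG : GainG u q) :
    ∃ ξ : V, ‖ξ‖ = 1 ∧ ∃ L : V, Tendsto (fun r : ℝ => F (r • ξ)) (𝓝[<] 1) (𝓝 L) := by
  obtain ⟨a, β, C, ha, hβ, hC, hstep⟩ := step_exists hCH hq hq1 hu hFu hH hG
  obtain ⟨x, b, h1, hb, hb2, hs, hg⟩ := seq_exists (F := F) (u := u) hu hstep
  exact lim_thm ha hβ hC h1 hb hb2 hs (fun k => (hg k).pot) (fun k => (hg k).dist)
    (fun k => (hg k).osc)

end

end Pool.Agent.Helper746.Rl
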