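import Pool.Agent.Helper746.Glob

set_option autoImplicit false
open MeasureTheory Filter Topology

namespace Pool.Agent.Helper746.Sine

open Pool.Agent.Helper746

/-- distance to the lattice `4ℤ` -/
noncomputable def d4 (x : ℝ) : ℝ := |x - 4 * (round (x / 4) : ℤ)|

lemma d4_le (x : ℝ) (j : ℤ) : d4 x ≤ |x - 4 * j| := by
  have h := round_le (x / 4) j
  unfold d4
  have e1 : x - 4 * (round (x / 4) : ℤ) = 4 * (x / 4 - (round (x / 4) : ℤ)) := by ring
  have e2 : x - 4 * j = 4 * (x / 4 - j) := by ring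
  rw [e1, e2, abs_mul, abs_mul]
  gcongr

lemma d4_eq {x : ℝ} {j : ℤ} (h : |x - 4 * j| ≤ 2) : d4 x = |x - 4 * j| := by
  apply le_antisymm (d4_le x j)
  by_cases hj : round (x / 4) = j
  · unfold d4; rw [hj]
  · unfold d4
    have h1 : (1 : ℝ) ≤ |(round (x / 4) : ℝ) - j| := by
      have : (1 : ℤ) ≤ |round (x / 4) - j| := Int.one_le_abs (sub_ne_zero.2 hj)
      exact_mod_cast this
    have h2 : |(4 : ℝ) * ((round (x / 4) : ℝ) - j)| ≤
        |x - 4 * j| + |x - 4 * (round (x / 4) : ℤ)| := by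
      have := abs_sub (x - 4 * (j : ℝ)) (x - 4 * (round (x / 4) : ℤ))
      have e : x - 4 * (j : ℝ) - (x - 4 * (round (x / 4) : ℤ)) =
        4 * ((round (x / 4) : ℝ) - j) := by ring
      rwa [e] at this
    rw [abs_mul, abs_of_pos (by norm_num : (0 : ℝ) < 4)] at h2
    linarith

lemma d4_lip (x y : ℝ) : |d4 x - d4 y| ≤ |x - y| := by
  have key : ∀ x y : ℝ, d4 x - d4 y ≤ |x - y| := by
    intro x y
    have h1 := d4_le x (round (y / 4))
    have h2 := abs_sub_le x y (4 * (round (y / 4) : ℤ))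
    unfold d4 at *
    linarith
  rw [abs_le]
  have := key y x
  rw [abs_sub_comm] at this
  exact ⟨by linarith, key x y⟩

lemma d4_bd (x : ℝ) : 0 ≤ d4 x ∧ d4 x ≤ 2 := by
  refine ⟨abs_nonneg _, ?_⟩
  unfold d4
  have h := abs_sub_round (x / 4)
  have e1 : x - 4 * (round (x / 4) : ℤ) = 4 * (x / 4 - (round (x / 4) : ℤ)) := by ring
  rw [e1, abs_mul, abs_of_pos (by norm_num : (0 : ℝ) < 4)]
  linarith

/-- triangle cosine -/
noncomputable def cw (x : ℝ) : ℝ := 1 - d4 x
/-- triangle sine -/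
noncomputable def tw (x : ℝ) : ℝ := cw (x - 1)

lemma cw_bd (x : ℝ) : |cw x| ≤ 1 := by
  have := d4_bd x; unfold cw; rw [abs_le]; constructor <;> linarith
lemma tw_bd (x : ℝ) : |tw x| ≤ 1 := cw_bd _

lemma tri_even {x : ℝ} {j : ℤ} (h : |x - 4 * j| ≤ 1) :
    tw x = x - 4 * j ∧ cw x = 1 - |x - 4 * j| := by
  obtain ⟨h1, h2⟩ := abs_le.1 h
  constructor
  · unfold tw cw
    rw [d4_eq (j := j) (by rw [abs_le]; constructor <;> linarith), abs_of_nonpos (by linarith)]
    ring
  · unfold cw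
    rw [d4_eq (j := j) (by linarith)]

lemma tri_odd {x : ℝ} {j : ℤ} (h : |x - (4 * j + 2)| ≤ 1) :
    tw x = -(x - (4 * j + 2)) ∧ cw x = -(1 - |x - (4 * j + 2)|) := by
  obtain ⟨h1, h2⟩ := abs_le.1 h
  constructor
  · unfold tw cw
    rw [d4_eq (j := j) (by rw [abs_le]; constructor <;> linarith), abs_of_nonneg (by linarith)]
    ring
  · unfold cw
    rcases le_total x (4 * j + 2) with hx | hx
    · rw [d4_eq (j := j) (by rw [abs_le]; constructor <;> linarith), abs_of_nonneg (by linarith),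
        abs_of_nonpos (by linarith)]
      ring
    · rw [d4_eq (j := j + 1) (by push_cast; rw [abs_le]; constructor <;> linarith)]
      push_cast
      rw [abs_of_nonpos (by linarith), abs_of_nonneg (by linarith)]
      ring

/-- in every cell the triangle functions are given by one sign -/
lemma tri (x : ℝ) : ∃ (k : ℤ) (s : ℝ), IsS s ∧ |x - 2 * k| ≤ 1 ∧
    ∀ y : ℝ, |y - 2 * k| ≤ 1 → tw y = s * (y - 2 * k) ∧ cw y = s * (1 - |y - 2 * k|) := by
  have hx : |x - 2 * (round (x / 2) : ℤ)| ≤ 1 := by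
    have h := abs_sub_round (x / 2)
    have e1 : x - 2 * (round (x / 2) : ℤ) = 2 * (x / 2 - (round (x / 2) : ℤ)) := by ring
    rw [e1, abs_mul, abs_of_pos (by norm_num : (0 : ℝ) < 2)]
    linarith
  rcases Int.even_or_odd' (round (x / 2)) with ⟨j, hj | hj⟩
  · refine ⟨2 * j, 1, Or.inl rfl, by rw [← hj]; exact hx, fun y hy => ?_⟩
    have e : (2 : ℝ) * ((2 * j : ℤ) : ℝ) = 4 * j := by push_cast; ring
    rw [e] at hy ⊢
    obtain ⟨h1, h2⟩ := tri_even hy
    exact ⟨by rw [h1]; ring, by rw [h2]; ring⟩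
  · refine ⟨2 * j + 1, -1, Or.inr rfl, by rw [← hj]; exact hx, fun y hy => ?_⟩
    have e : (2 : ℝ) * ((2 * j + 1 : ℤ) : ℝ) = 4 * j + 2 := by push_cast; ring
    rw [e] at hy ⊢
    obtain ⟨h1, h2⟩ := tri_odd hy
    exact ⟨by rw [h1]; ring, by rw [h2]; ring⟩

/-- signed minimum -/
noncomputable def mu (u v : ℝ) : ℝ := (|u + v| - |u - v|) / 2
/-- clipping -/
noncomputable def clip (t r : ℝ) : ℝ := max (-r) (min t r)
/-- the growth factor -/
noncomputable def Ex (z : ℝ) : ℝ := Real.exp (max 0 (|z| - 1))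
/-- odd growth correction -/
noncomputable def hh (z : ℝ) : ℝ := Real.exp (max 0 (z - 1)) - Real.exp (max 0 (-z - 1))
/-- signed distance to the walls -/
noncomputable def qq (p : E) : ℝ := mu (cw (p 0)) (cw (p 1))
/-- the clipping level -/
noncomputable def tt (p : E) : ℝ := max 0 (|p 2| - |qq p|)

/-- the quasiregular sine -/
noncomputable def SN (p : E) : E := WithLp.toLp 2
  ![(tw (p 0) + clip (tw (p 0)) (tt p)) * Ex (p 2),
    (tw (p 1) + clip (tw (p 1)) (tt p)) * Ex (p 2),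
    2 * mu (p 2) (qq p) + 2 * qq p * hh (p 2)]

lemma mu_pos {u v : ℝ} (hu : 0 ≤ u) (hv : 0 ≤ v) : mu u v = min u v := by
  unfold mu
  rw [abs_of_nonneg (by linarith)]
  rcases le_total u v with h | h
  · rw [min_eq_left h, abs_of_nonpos (by linarith)]; ring
  · rw [min_eq_right h, abs_of_nonneg (by linarith)]; ring

lemma mu_neg_left (u v : ℝ) : mu (-u) v = - mu u v := by
  unfold mu
  have e1 : |-u + v| = |u - v| := by rw [← abs_neg]; congr 1; ring
  have e2 : |-u - v| = |u + v| := by rw [← abs_neg]; congr 1; ring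
  rw [e1, e2]; ring_nf
lemma mu_neg_right (u v : ℝ) : mu u (-v) = - mu u v := by
  unfold mu
  have e2 : u - -v = u + v := by ring
  rw [e2, ← sub_eq_add_neg]; ring_nf
lemma mu_sign_left {s : ℝ} (hs : IsS s) (u v : ℝ) : mu (s * u) v = s * mu u v := by
  rcases hs with h | h <;> rw [h]
  · rw [one_mul, one_mul]
  · rw [neg_one_mul, neg_one_mul, mu_neg_left]
lemma mu_sign_right {s : ℝ} (hs : IsS s) (u v : ℝ) : mu u (s * v) = s * mu u v := by
  rcases hs with h | h <;> rw [h]
  · rw [one_mul, one_mul]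
  · rw [neg_one_mul, neg_one_mul, mu_neg_right]

lemma mu_small {z B : ℝ} (h : |z| ≤ B) : mu z B = z := by
  obtain ⟨h1, h2⟩ := abs_le.1 h
  unfold mu
  rw [abs_of_nonneg (by linarith), abs_of_nonpos (by linarith)]; ring
lemma mu_big {z B s : ℝ} (hs : IsS s) (hz : |z| = s * z) (hB : 0 ≤ B) (h : B ≤ |z|) :
    mu z B = s * B := by
  have e : z = s * |z| := by
    rw [hz, ← mul_assoc]
    have := hs.sq
    rw [pow_two] at this; rw [this, one_mul]
  rw [e, mu_sign_left hs, mu_pos (abs_nonneg z) hB, min_eq_right h]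

lemma clip_small {t r : ℝ} (h : |t| ≤ r) : clip t r = t := by
  obtain ⟨h1, h2⟩ := abs_le.1 h
  unfold clip; rw [min_eq_left h2, max_eq_right h1]
lemma clip_big {t r s : ℝ} (hs : IsS s) (ht : |t| = s * t) (hr : 0 ≤ r) (h : r ≤ |t|) :
    clip t r = s * r := by
  unfold clip
  rcases hs with e | e <;> rw [e] at ht ⊢
  · rw [one_mul] at ht ⊢
    rw [min_eq_right (by linarith), max_eq_right (by linarith)]
  · rw [neg_one_mul] at ht ⊢
    rw [min_eq_left (by linarith), max_eq_left (by linarith)]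
lemma clip_sign {s : ℝ} (hs : IsS s) (t : ℝ) {r : ℝ} (hr : 0 ≤ r) :
    clip (s * t) r = s * clip t r := by
  unfold clip
  rcases hs with e | e <;> rw [e]
  · rw [one_mul, one_mul]
  · rw [neg_one_mul, neg_one_mul]
    rcases le_total t (-r) with h | h
    · rw [min_eq_right (by linarith), max_eq_right (by linarith), min_eq_left (by linarith),
        max_eq_left h]; ring
    · rcases le_total t r with h' | h'
      · rw [min_eq_left (by linarith), max_eq_right (by linarith), min_eq_left h',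
          max_eq_right h]
      · rw [min_eq_left (by linarith), max_eq_left (by linarith), min_eq_right h',
          max_eq_right (by linarith)]

lemma clip_abs {t r : ℝ} (hr : 0 ≤ r) : |clip t r| ≤ |t| := by
  unfold clip
  rcases le_total t (-r) with h | h
  · rw [min_eq_left (by linarith), max_eq_left h, abs_neg, abs_of_nonneg hr]
    rw [abs_of_nonpos (by linarith)]; linarith
  · rcases le_total t r with h' | h'
    · rw [min_eq_left h', max_eq_right h]
    · rw [min_eq_right h', max_eq_right (by linarith), abs_of_nonneg hr,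
        abs_of_nonneg (by linarith)]; exact h'

lemma Ex_small {z : ℝ} (h : |z| ≤ 1) : Ex z = 1 := by
  unfold Ex; rw [max_eq_left (by linarith), Real.exp_zero]
lemma Ex_ge (z : ℝ) : 1 ≤ Ex z := by
  unfold Ex; exact Real.one_le_exp (le_max_left _ _)
lemma Ex_pos (z : ℝ) : 0 < Ex z := by linarith [Ex_ge z]
lemma Ex_big {z s : ℝ} (hz : |z| = s * z) (h : 1 ≤ |z|) : Ex z = Real.exp (s * z - 1) := by
  unfold Ex; rw [max_eq_right (by linarith), hz]
lemma hh_small {z : ℝ} (h : |z| ≤ 1) : hh z = 0 := by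
  obtain ⟨h1, h2⟩ := abs_le.1 h
  unfold hh; rw [max_eq_left (by linarith), max_eq_left (by linarith)]; ring
lemma hh_big {z s : ℝ} (hs : IsS s) (hz : |z| = s * z) (h : 1 ≤ |z|) :
    hh z = s * (Real.exp (s * z - 1) - 1) := by
  unfold hh
  rcases hs with e | e <;> rw [e] at hz ⊢
  · rw [one_mul] at hz ⊢
    rw [max_eq_right (by linarith), max_eq_left (by linarith), Real.exp_zero]; ring_nf
  · rw [neg_one_mul] at hz ⊢
    rw [max_eq_left (by linarith), max_eq_right (by linarith), Real.exp_zero]; ring_nf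
lemma abs_hh (z : ℝ) : |hh z| ≤ Ex z - 1 := by
  have key : ∀ s : ℝ, IsS s → |z| = s * z → |hh z| ≤ Ex z - 1 := by
    intro s hs hz
    rcases le_total |z| 1 with h | h
    · rw [hh_small h, Ex_small h]; simp
    · rw [hh_big hs hz h, Ex_big hz h, abs_mul, hs.abs, one_mul, abs_of_nonneg]
      have := Real.one_le_exp (show 0 ≤ s * z - 1 by linarith)
      linarith
  rcases abs_choice z with h | h
  · exact key 1 (Or.inl rfl) (by rw [h]; ring)
  · exact key (-1) (Or.inr rfl) (by rw [h]; ring)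

lemma mu_abs_right (u v : ℝ) : |mu u v| ≤ |v| := by
  unfold mu
  rw [abs_div, abs_of_pos (by norm_num : (0 : ℝ) < 2), div_le_iff₀ (by norm_num)]
  have h1 := abs_abs_sub_abs_le (u + v) (u - v)
  have e : u + v - (u - v) = v * 2 := by ring
  rw [e, abs_mul, abs_of_pos (by norm_num : (0 : ℝ) < 2)] at h1
  exact h1

lemma qq_bd (p : E) : |qq p| ≤ 1 := (mu_abs_right _ _).trans (cw_bd _)

lemma SN_norm (p : E) : ‖SN p‖ ≤ 4 * Ex (p 2) := by
  have hE := Ex_ge (p 2)
  have ht : 0 ≤ tt p := le_max_left _ _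
  have h1 : ∀ i, |(tw (p i) + clip (tw (p i)) (tt p)) * Ex (p 2)| ≤ 2 * Ex (p 2) := by
    intro i
    rw [abs_mul, abs_of_pos (Ex_pos _)]
    have := abs_add_le (tw (p i)) (clip (tw (p i)) (tt p))
    have := clip_abs (t := tw (p i)) ht
    have := tw_bd (p i)
    apply mul_le_mul_of_nonneg_right _ (Ex_pos _).le
    linarith
  have h3 : |2 * mu (p 2) (qq p) + 2 * qq p * hh (p 2)| ≤ 2 * Ex (p 2) := by
    have a1 := abs_add_le (2 * mu (p 2) (qq p)) (2 * qq p * hh (p 2))
    have a2 := (mu_abs_right (p 2) (qq p)).trans (qq_bd p)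
    have a3 := abs_hh (p 2)
    have a4 := qq_bd p
    rw [abs_mul, abs_mul (2 * qq p), abs_mul 2 (qq p), abs_of_pos (by norm_num : (0 : ℝ) < 2)] at a1
    have a5 : |qq p| * |hh (p 2)| ≤ 1 * (Ex (p 2) - 1) :=
      mul_le_mul a4 a3 (abs_nonneg _) (by norm_num)
    nlinarith
  apply norm_le_of_sq (by have := Ex_pos (p 2); positivity)
  have e : dt (SN p) (SN p) = ((tw (p 0) + clip (tw (p 0)) (tt p)) * Ex (p 2)) ^ 2 +
      ((tw (p 1) + clip (tw (p 1)) (tt p)) * Ex (p 2)) ^ 2 +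
      (2 * mu (p 2) (qq p) + 2 * qq p * hh (p 2)) ^ 2 := by
    simp [dt, SN]; ring
  rw [e, ← sq_abs, ← sq_abs ((tw (p 1) + clip (tw (p 1)) (tt p)) * Ex (p 2)),
    ← sq_abs (2 * mu (p 2) (qq p) + 2 * qq p * hh (p 2))]
  have b1 := pow_le_pow_left₀ (abs_nonneg _) (h1 0) 2
  have b2 := pow_le_pow_left₀ (abs_nonneg _) (h1 1) 2
  have b3 := pow_le_pow_left₀ (abs_nonneg _) h3 2
  nlinarith [sq_nonneg (Ex (p 2))]

end Pool.Agent.Helper746.Sine
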