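import Pool.Agent.Helper746.GoodAt

set_option autoImplicit false
open MeasureTheory Filter Topology

namespace Pool.Agent.Helper746.Sine

open Pool.Agent.Helper746

lemma pert_T_add_right (a b c c' : E) : T a b (c + c') = T a b c + T a b c' := by
  simp only [T, dt_add_right]

lemma pert_T_smul_right (r : ℝ) (a b c : E) : T a b (r • c) = r * T a b c := by
  simp only [T, dt_smul_right]

lemma pert_T_ge (a b c e₀ e₁ e₂ : E) (g : ℝ) (hg : 0 ≤ g)
    (ha : ‖a‖ ≤ 4 * g) (hb : ‖b‖ ≤ 4 * g) (hc : ‖c‖ ≤ 4 * g) (hT : 2 * g ^ 3 ≤ T a b c)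
    (h₀ : ‖e₀‖ ≤ g / 50) (h₁ : ‖e₁‖ ≤ g / 50) (h₂ : ‖e₂‖ ≤ g / 50) :
    g ^ 3 ≤ T (a + e₀) (b + e₁) (c + e₂) := by
  have bd : ∀ (x y z : E) (p q r : ℝ), 0 ≤ p → 0 ≤ q → ‖x‖ ≤ p → ‖y‖ ≤ q → ‖z‖ ≤ r →
      - (p * q * r) ≤ T x y z := by
    intro x y z p q r hp hq hx hy hz
    have h1 := abs_T_le x y z
    have h2 : ‖x‖ * ‖y‖ * ‖z‖ ≤ p * q * r := by
      gcongr
    have h3 := neg_abs_le (T x y z)
    linarith
  have hg4 : 0 ≤ 4 * g := by linarith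
  have hg50 : 0 ≤ g / 50 := by linarith
  have e1 := bd e₀ b c _ _ _ hg50 hg4 h₀ hb hc
  have e2 := bd a e₁ c _ _ _ hg4 hg50 ha h₁ hc
  have e3 := bd a b e₂ _ _ _ hg4 hg4 ha hb h₂
  have e4 := bd e₀ e₁ c _ _ _ hg50 hg50 h₀ h₁ hc
  have e5 := bd e₀ b e₂ _ _ _ hg50 hg4 h₀ hb h₂
  have e6 := bd a e₁ e₂ _ _ _ hg4 hg50 ha h₁ h₂
  have e7 := bd e₀ e₁ e₂ _ _ _ hg50 hg50 h₀ h₁ h₂
  have hexp : T (a + e₀) (b + e₁) (c + e₂) = T a b c + T e₀ b c + T a e₁ c + T a b e₂ +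
      T e₀ e₁ c + T e₀ b e₂ + T a e₁ e₂ + T e₀ e₁ e₂ := by
    simp only [T_add_left, T_add_mid, pert_T_add_right]
    ring
  rw [hexp]
  have hg3 : 0 ≤ g ^ 3 := by positivity
  nlinarith [e1, e2, e3, e4, e5, e6, e7, hT, hg3]

lemma pert_norm_deriv (x : E) (hx : x ≠ 0) :
    HasFDerivAt (fun y : E => ‖y‖) ((‖x‖⁻¹ : ℝ) • (innerSL ℝ x : E →L[ℝ] ℝ)) x := by
  have hx0 : ‖x‖ ≠ 0 := norm_ne_zero_iff.mpr hx
  have h1 := (hasStrictFDerivAt_norm_sq x).hasFDerivAt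
  have h2 := h1.sqrt (by positivity)
  have h3 : (fun y : E => √(‖y‖ ^ 2)) = fun y : E => ‖y‖ := by
    funext y
    exact Real.sqrt_sq (norm_nonneg y)
  rw [h3, Real.sqrt_sq (norm_nonneg x)] at h2
  refine h2.congr_fderiv ?_
  ext v
  simp
  field_simp

/-- Target: the perturbed map `f y = (400 + ‖y‖)⁻¹ • (200 • S y + y)` inherits the distortion inequality.
With `w = 400 + ‖x‖` the columns of `Df(x)` are `(200 / w) • (a + e₀)`, … where
`e_i = (1/200) • single i 1 - (1/(200 w)) * (x i / ‖x‖) • (200 • S x + x)` has norm `≤ g / 50`;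
by trilinearity `T (a+e₀) (b+e₁) (c+e₂) ≥ 2 g³ - (3*16/50 + 3*4/2500 + 1/125000) g³ ≥ g³`
(`T_add_left`, `T_add_mid`, `abs_T_le` in `Helper746.Vec`) and `‖Df‖ ≤ (200/w) * (3 * 4.02) g` by `linM_norm`;
`linM_det` computes the determinant; `12.06 ^ 3 ≤ 2000`. -/
theorem pert (S : E → E) (g : ℝ) (a b c x : E) (hx : x ≠ 0)
    (hS : HasFDerivAt S (linM a b c) x) (hg : 1 ≤ g) (hSx : ‖S x‖ ≤ 4 * g)
    (ha : ‖a‖ ≤ 4 * g) (hb : ‖b‖ ≤ 4 * g) (hc : ‖c‖ ≤ 4 * g) (hT : 2 * g ^ 3 ≤ T a b c) :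
    ∃ A : E →L[ℝ] E, HasFDerivAt (fun y : E => (400 + ‖y‖)⁻¹ • ((200 : ℝ) • S y + y)) A x ∧
      ‖A‖ ^ 3 ≤ 2000 * ContinuousLinearMap.det A := by
  have hx0 : 0 < ‖x‖ := norm_pos_iff.mpr hx
  set w : ℝ := 400 + ‖x‖ with hw
  have hw0 : 0 < w := by positivity
  set V : E := (200 : ℝ) • S x + x with hV
  let e : Fin 3 → E := fun i =>
    (1 / 200 : ℝ) • EuclideanSpace.single i (1 : ℝ) - (1 / (200 * w) * (x i / ‖x‖)) • V
  have hVn : ‖V‖ ≤ 800 * g + ‖x‖ := by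
    calc ‖V‖ ≤ ‖(200 : ℝ) • S x‖ + ‖x‖ := norm_add_le _ _
      _ = 200 * ‖S x‖ + ‖x‖ := by rw [norm_smul]; norm_num
      _ ≤ _ := by linarith
  have hxi : ∀ i, |x i| ≤ ‖x‖ := fun i => by
    have := PiLp.norm_apply_le x i
    simpa using this
  have he : ∀ i, ‖e i‖ ≤ g / 50 := by
    intro i
    have h1 : ‖(1 / 200 : ℝ) • EuclideanSpace.single i (1 : ℝ)‖ = 1 / 200 := by
      rw [norm_smul, PiLp.norm_single]
      norm_num
    have h2 : ‖(1 / (200 * w) * (x i / ‖x‖)) • V‖ ≤ 1 / (200 * w) * (800 * g + ‖x‖) := by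
      rw [norm_smul, Real.norm_eq_abs, abs_mul, abs_of_pos (by positivity : 0 < 1 / (200 * w)),
        abs_div, abs_of_pos hx0]
      have h3 : |x i| / ‖x‖ ≤ 1 := by
        rw [div_le_one hx0]
        exact hxi i
      have h4 : 0 ≤ |x i| / ‖x‖ := by positivity
      calc 1 / (200 * w) * (|x i| / ‖x‖) * ‖V‖ ≤ 1 / (200 * w) * 1 * (800 * g + ‖x‖) := by
            gcongr
        _ = _ := by ring
    have h5 : 1 / (200 * w) * (800 * g + ‖x‖) ≤ g / 100 + 1 / 200 := by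
      rw [div_mul_eq_mul_div, div_le_iff₀ (by positivity), hw]
      nlinarith
    calc ‖e i‖ ≤ ‖(1 / 200 : ℝ) • EuclideanSpace.single i (1 : ℝ)‖ +
          ‖(1 / (200 * w) * (x i / ‖x‖)) • V‖ := norm_sub_le _ _
      _ ≤ 1 / 200 + (g / 100 + 1 / 200) := by linarith
      _ ≤ g / 50 := by linarith
  set s : ℝ := 200 / w with hs
  have hs0 : 0 < s := by positivity
  refine ⟨linM (s • (a + e 0)) (s • (b + e 1)) (s • (c + e 2)), ?_, ?_⟩
  · have h1 : HasFDerivAt (fun y : E => 400 + ‖y‖) ((‖x‖⁻¹ : ℝ) • (innerSL ℝ x : E →L[ℝ] ℝ)) x :=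
      (pert_norm_deriv x hx).const_add 400
    have hwx : (400 + ‖x‖) ≠ 0 := by positivity
    have h2 := (hasDerivAt_inv hwx).comp_hasFDerivAt x h1
    have h3 : HasFDerivAt (fun y : E => (200 : ℝ) • S y + y)
        ((200 : ℝ) • linM a b c + ContinuousLinearMap.id ℝ E) x :=
      (hS.const_smul (200 : ℝ)).add (hasFDerivAt_id x)
    have h4 := h2.smul h3
    refine h4.congr_fderiv ?_
    apply ContinuousLinearMap.ext
    intro v
    have hinner : (inner ℝ x v : ℝ) = x 0 * v 0 + x 1 * v 1 + x 2 * v 2 := by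
      rw [← dt_eq, dt]
    have hexp : v = v 0 • EuclideanSpace.single 0 (1 : ℝ) + v 1 • EuclideanSpace.single 1 (1 : ℝ) +
        v 2 • EuclideanSpace.single 2 (1 : ℝ) := by
      apply ext3 <;> simp
    simp only [linM_apply, _root_.add_apply, _root_.smul_apply,
      ContinuousLinearMap.smulRight_apply, ContinuousLinearMap.id_apply, innerSL_apply_apply]
    rw [hinner]
    have hx0' : ‖x‖ ≠ 0 := hx0.ne'
    have hw0' : w ≠ 0 := hw0.ne'
    simp only [Function.comp_apply, ← hw, e, ← hV, hs, smul_eq_mul]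
    apply ext3
    · simp
      field_simp
      ring
    · simp
      field_simp
      ring
    · simp
      field_simp
      ring
  · rw [linM_det, T_smul_left, T_smul_mid, pert_T_smul_right]
    have hTg := pert_T_ge a b c (e 0) (e 1) (e 2) g (by linarith) ha hb hc hT (he 0) (he 1) (he 2)
    have hn := linM_norm (s • (a + e 0)) (s • (b + e 1)) (s • (c + e 2))
    have col : ∀ (p q : E), ‖p‖ ≤ 4 * g → ‖q‖ ≤ g / 50 → ‖s • (p + q)‖ ≤ s * (4.02 * g) := by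
      intro p q hp hq
      rw [norm_smul, Real.norm_eq_abs, abs_of_pos hs0]
      have := norm_add_le p q
      have h6 : ‖p + q‖ ≤ 4.02 * g := by linarith
      gcongr
    have c0 := col a (e 0) ha (he 0)
    have c1 := col b (e 1) hb (he 1)
    have c2 := col c (e 2) hc (he 2)
    have hn2 : ‖linM (s • (a + e 0)) (s • (b + e 1)) (s • (c + e 2))‖ ≤ 12.06 * (s * g) := by
      linarith
    have hsg : 0 ≤ s * g := by positivity
    calc ‖linM (s • (a + e 0)) (s • (b + e 1)) (s • (c + e 2))‖ ^ 3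
        ≤ (12.06 * (s * g)) ^ 3 := by gcongr
      _ ≤ 2000 * (s * (s * (s * g ^ 3))) := by
          have : 0 ≤ (s * g) ^ 3 := by positivity
          nlinarith
      _ ≤ _ := by gcongr

end Pool.Agent.Helper746.Sine
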