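import Pool.Agent.Helper746.SineLL
import Pool.Agent.Helper746.SinePert
import Pool.Agent.Helper746.SineSob

set_option autoImplicit false
open MeasureTheory Filter Topology

namespace Pool.Agent.Helper746.Sine

open Pool.Agent.Helper746

theorem fN_good : ∀ᵐ x : E ∂volume,
    ∃ A : E →L[ℝ] E, HasFDerivAt fN A x ∧ ‖A‖ ^ 3 ≤ 2000 * ContinuousLinearMap.det A := by
  filter_upwards [ae_SGood, ae_gen] with x hx hG
  obtain ⟨a, b, c, hd, ha, hb, hc, hT⟩ := hx
  have hx0 : x ≠ 0 := by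
    intro h
    have := hG 1 0 0 0 (by norm_num)
    apply this
    rw [h]; simp
  exact pert SN (Ex (x 2)) a b c x hx0 hd (Ex_ge _) (SN_norm x) ha hb hc hT

lemma fN_growth (y : E) : ‖fN y‖ ≤ 3 * Real.exp ‖y‖ := by
  have hy := norm_nonneg y
  have h2 : |y 2| ≤ ‖y‖ := by
    have := PiLp.norm_apply_le y 2
    simpa using this
  have hE : Ex (y 2) ≤ Real.exp ‖y‖ := by
    unfold Ex
    apply Real.exp_le_exp.2
    apply max_le hy
    linarith
  have h1 : 1 ≤ Real.exp ‖y‖ := Real.one_le_exp hy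
  have h3 : ‖(200 : ℝ) • SN y + y‖ ≤ 800 * Real.exp ‖y‖ + ‖y‖ := by
    calc ‖(200 : ℝ) • SN y + y‖ ≤ ‖(200 : ℝ) • SN y‖ + ‖y‖ := norm_add_le _ _
      _ = 200 * ‖SN y‖ + ‖y‖ := by rw [norm_smul]; norm_num
      _ ≤ _ := by have := SN_norm y; linarith
  unfold fN
  rw [norm_smul, norm_inv, Real.norm_of_nonneg (by positivity), inv_mul_le_iff₀ (by positivity)]
  nlinarith

lemma fN_ray {θ : E} (h1 : ‖θ‖ = 1) (h2 : θ 2 = 0) :
    Tendsto (fun t : ℝ => fN (t • θ)) atTop (𝓝 θ) := by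
  rw [tendsto_iff_norm_sub_tendsto_zero]
  have hlim : Tendsto (fun t : ℝ => 1200 / (400 + t)) atTop (𝓝 0) := by
    apply Tendsto.const_div_atTop
    exact tendsto_atTop_add_const_left _ _ tendsto_id
  apply squeeze_zero' (Eventually.of_forall fun t => norm_nonneg _) _ hlim
  filter_upwards [eventually_ge_atTop (0 : ℝ)] with t ht
  have hn : ‖t • θ‖ = t := by rw [norm_smul, h1, mul_one, Real.norm_of_nonneg ht]
  have hS : ‖SN (t • θ)‖ ≤ 4 := by
    have h := SN_norm (t • θ)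
    have e : (t • θ) 2 = 0 := by simp [h2]
    rw [e, Ex_small (by simp)] at h
    linarith
  unfold fN
  rw [hn]
  have e : (400 + t)⁻¹ • ((200 : ℝ) • SN (t • θ) + t • θ) - θ =
      (400 + t)⁻¹ • ((200 : ℝ) • SN (t • θ) - (400 : ℝ) • θ) := by
    have h0 : (400 + t) ≠ 0 := by positivity
    have e1 : θ = (400 + t)⁻¹ • ((400 + t) • θ) := by
      rw [smul_smul, inv_mul_cancel₀ h0, one_smul]
    nth_rewrite 3 [e1]
    rw [← smul_sub]
    congr 1
    module
  rw [e, norm_smul, norm_inv, Real.norm_of_nonneg (by positivity),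
    inv_mul_le_iff₀ (by positivity)]
  have h3 : ‖(200 : ℝ) • SN (t • θ) - (400 : ℝ) • θ‖ ≤ 1200 := by
    calc ‖(200 : ℝ) • SN (t • θ) - (400 : ℝ) • θ‖ ≤ ‖(200 : ℝ) • SN (t • θ)‖ + ‖(400 : ℝ) • θ‖ :=
          norm_sub_le _ _
      _ = 200 * ‖SN (t • θ)‖ + 400 := by rw [norm_smul, norm_smul, h1]; norm_num
      _ ≤ _ := by linarith
  have h4 : (400 + t) * (1200 / (400 + t)) = 1200 := by field_simp
  rw [h4]; exact h3

/-- the asymptotic values in the horizontal plane -/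
noncomputable def th (s : ℝ) : E := WithLp.toLp 2 ![s, Real.sqrt (1 - s ^ 2), 0]

lemma norm_th {s : ℝ} (hs : s ∈ Set.Icc (0 : ℝ) 1) : ‖th s‖ = 1 := by
  have h : ‖th s‖ ^ 2 = 1 := by
    rw [← dt_self]
    have h0 : 0 ≤ 1 - s ^ 2 := by nlinarith [hs.1, hs.2]
    simp [dt, th, Real.mul_self_sqrt h0]
    ring
  have h' := norm_nonneg (th s)
  nlinarith

theorem infinite_values : ¬ Set.Finite {a : E | ∃ γ : ℝ → E,
      Continuous γ ∧ Tendsto (fun t => ‖γ t‖) atTop atTop ∧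
      Tendsto (fun t => fN (γ t)) atTop (𝓝 a)} := by
  apply Set.infinite_of_injOn_mapsTo (s := Set.Icc (0 : ℝ) 1) (f := th)
  · intro s _ t _ h
    have : th s 0 = th t 0 := by rw [h]
    simpa [th] using this
  · intro s hs
    refine ⟨fun t => t • th s, by fun_prop, ?_, fN_ray (norm_th hs) (by simp [th])⟩
    have : (fun t : ℝ => ‖t • th s‖) = fun t => |t| := by
      funext t; rw [norm_smul, norm_th hs, mul_one]; rfl
    rw [this]
    exact tendsto_abs_atTop_atTop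
  · exact Set.Icc_infinite (by norm_num)

end Pool.Agent.Helper746.Sine
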