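import Pool.Agent.Helper746.SineDef

set_option autoImplicit false
open MeasureTheory Filter Topology

namespace Pool.Agent.Helper746.Sine

open Pool.Agent.Helper746

/-- a nondegenerate derivative with uniform control -/
def SGood (p : E) : Prop :=
  ∃ a b c : E, HasFDerivAt SN (linM a b c) p ∧ ‖a‖ ≤ 4 * Ex (p 2) ∧ ‖b‖ ≤ 4 * Ex (p 2) ∧
    ‖c‖ ≤ 4 * Ex (p 2) ∧ 2 * Ex (p 2) ^ 3 ≤ T a b c

lemma deriv_affine {a b c q p : E}
    (h : SN =ᶠ[𝓝 p] fun y => q + y 0 • a + y 1 • b + y 2 • c) : HasFDerivAt SN (linM a b c) p := by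
  have h1 : HasFDerivAt (fun y : E => q + linM a b c y) (linM a b c) p :=
    ((linM a b c).hasFDerivAt).const_add q
  apply h1.congr_of_eventuallyEq
  filter_upwards [h] with y hy
  rw [hy, linM_apply]; module

lemma deriv_exp {a b q p : E} {s : ℝ}
    (h : SN =ᶠ[𝓝 p] fun y => Real.exp (s * y 2 - 1) • (q + y 0 • a + y 1 • b)) :
    HasFDerivAt SN (linM (Real.exp (s * p 2 - 1) • a) (Real.exp (s * p 2 - 1) • b)
      ((s * Real.exp (s * p 2 - 1)) • (q + p 0 • a + p 1 • b))) p := by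
  have h1 : HasFDerivAt (fun y : E => q + linM a b 0 y) (linM a b 0) p :=
    ((linM a b 0).hasFDerivAt).const_add q
  have h2 : HasFDerivAt (fun y : E => y 2) (EuclideanSpace.proj 2 : E →L[ℝ] ℝ) p :=
    (EuclideanSpace.proj 2 : E →L[ℝ] ℝ).hasFDerivAt
  have h3 := ((h2.const_mul s).sub_const 1).exp
  have h4 := h3.smul h1
  have h5 := h4.congr_of_eventuallyEq (f₁ := SN) (by
    filter_upwards [h] with y hy
    rw [hy]
    change _ = Real.exp (s * y 2 - 1) • (q + linM a b 0 y)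
    rw [linM_apply]; module)
  have e : Real.exp (s * p 2 - 1) • linM a b 0 +
      ((Real.exp (s * p 2 - 1)) • s • (EuclideanSpace.proj 2 : E →L[ℝ] ℝ)).smulRight
        (q + linM a b 0 p) = linM (Real.exp (s * p 2 - 1) • a) (Real.exp (s * p 2 - 1) • b)
      ((s * Real.exp (s * p 2 - 1)) • (q + p 0 • a + p 1 • b)) := by
    apply ContinuousLinearMap.ext
    intro v
    simp [linM_apply]
    module
  rw [e] at h5
  exact h5

/-- the local picture around a point `p`: the data of the cell -/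
structure Loc (p : E) (k1 k2 s1 s2 σ1 σ2 s3 : ℝ) : Prop where
  hs1 : IsS s1
  hs2 : IsS s2
  hσ1 : IsS σ1
  hσ2 : IsS σ2
  hs3 : IsS s3
  tw1 : tw (p 0) = s1 * (p 0 - k1)
  cw1 : cw (p 0) = s1 * (1 - σ1 * (p 0 - k1))
  tw2 : tw (p 1) = s2 * (p 1 - k2)
  cw2 : cw (p 1) = s2 * (1 - σ2 * (p 1 - k2))
  a1 : |p 0 - k1| = σ1 * (p 0 - k1)
  a2 : |p 1 - k2| = σ2 * (p 1 - k2)
  a3 : |p 2| = s3 * p 2
  l1 : σ1 * (p 0 - k1) ≤ 1
  l2 : σ2 * (p 1 - k2) ≤ σ1 * (p 0 - k1)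

namespace Loc
variable {p : E} {k1 k2 s1 s2 σ1 σ2 s3 : ℝ}

lemma qqv (h : Loc p k1 k2 s1 s2 σ1 σ2 s3) : qq p = s1 * s2 * (1 - σ1 * (p 0 - k1)) := by
  unfold qq
  rw [h.cw1, h.cw2, mu_sign_left h.hs1, mu_sign_right h.hs2, mu_pos, min_eq_left]
  · ring
  · linarith [h.l2]
  · linarith [h.l1]
  · linarith [h.l1, h.l2]

lemma qqa (h : Loc p k1 k2 s1 s2 σ1 σ2 s3) : |qq p| = 1 - σ1 * (p 0 - k1) := by
  rw [h.qqv, abs_mul, abs_mul, h.hs1.abs, h.hs2.abs, one_mul, one_mul, abs_of_nonneg]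
  linarith [h.l1]

lemma muv_small (h : Loc p k1 k2 s1 s2 σ1 σ2 s3) (hz : |p 2| ≤ 1 - σ1 * (p 0 - k1)) :
    mu (p 2) (qq p) = s1 * s2 * p 2 := by
  rw [h.qqv, mul_assoc, mu_sign_right h.hs1, mu_sign_right h.hs2, mu_small hz]; ring

lemma muv_big (h : Loc p k1 k2 s1 s2 σ1 σ2 s3) (hz : 1 - σ1 * (p 0 - k1) ≤ |p 2|) :
    mu (p 2) (qq p) = s1 * s2 * s3 * (1 - σ1 * (p 0 - k1)) := by
  rw [h.qqv, mul_assoc, mu_sign_right h.hs1, mu_sign_right h.hs2,
    mu_big h.hs3 h.a3 (by linarith [h.l1]) hz]; ring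

lemma ttv_small (h : Loc p k1 k2 s1 s2 σ1 σ2 s3) (hz : |p 2| ≤ 1 - σ1 * (p 0 - k1)) :
    tt p = 0 := by
  unfold tt; rw [h.qqa, max_eq_left (by linarith)]

lemma ttv_big (h : Loc p k1 k2 s1 s2 σ1 σ2 s3) (hz : 1 - σ1 * (p 0 - k1) ≤ |p 2|) :
    tt p = s3 * p 2 + σ1 * (p 0 - k1) - 1 := by
  unfold tt; rw [h.qqa, max_eq_right (by linarith), h.a3]; ring

/-- below the roof -/
lemma SN_low (h : Loc p k1 k2 s1 s2 σ1 σ2 s3) (hz : |p 2| ≤ 1 - σ1 * (p 0 - k1)) :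
    SN p = WithLp.toLp 2 ![s1 * (p 0 - k1), s2 * (p 1 - k2), 2 * (s1 * s2) * p 2] := by
  have hz1 : |p 2| ≤ 1 := by have := abs_nonneg (p 0 - k1); rw [h.a1] at this; linarith
  have e : ∀ t : ℝ, clip t 0 = 0 := by
    intro t; unfold clip
    rw [neg_zero, max_eq_left (min_le_right _ _)]
  unfold SN
  rw [h.ttv_small hz, h.muv_small hz, h.tw1, h.tw2, Ex_small hz1, hh_small hz1, e, e]
  congr 1
  ext i; fin_cases i <;> simp <;> ring

/-- clipping in both directions -/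
lemma SN_mid (h : Loc p k1 k2 s1 s2 σ1 σ2 s3) (hz : 1 - σ1 * (p 0 - k1) ≤ |p 2|)
    (hz1 : |p 2| ≤ 1) (h2 : s3 * p 2 + σ1 * (p 0 - k1) - 1 ≤ σ2 * (p 1 - k2)) :
    SN p = WithLp.toLp 2 ![s1 * (2 * (p 0 - k1) + σ1 * (s3 * p 2 - 1)),
      s2 * ((p 1 - k2) + σ2 * (s3 * p 2 + σ1 * (p 0 - k1) - 1)),
      2 * (s1 * s2 * s3) * (1 - σ1 * (p 0 - k1))] := by
  have ht : 0 ≤ s3 * p 2 + σ1 * (p 0 - k1) - 1 := by rw [h.a3] at hz; linarith
  have h3 := h.a3
  have hσ := h.hσ1.sq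
  unfold SN
  rw [h.ttv_big hz, h.muv_big hz, h.tw1, h.tw2, Ex_small hz1, hh_small hz1,
    clip_sign h.hs1 _ ht, clip_sign h.hs2 _ ht, clip_big h.hσ1 h.a1 ht (by rw [h.a1]; linarith),
    clip_big h.hσ2 h.a2 ht (by rw [h.a2]; linarith)]
  congr 1
  ext i; fin_cases i
  · simp; linear_combination (s1 * (p 0 - k1)) * hσ
  · simp; ring
  · simp; ring

/-- clipping in one direction only -/
lemma SN_side (h : Loc p k1 k2 s1 s2 σ1 σ2 s3) (hz : 1 - σ1 * (p 0 - k1) ≤ |p 2|)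
    (hz1 : |p 2| ≤ 1) (h2 : σ2 * (p 1 - k2) ≤ s3 * p 2 + σ1 * (p 0 - k1) - 1) :
    SN p = WithLp.toLp 2 ![s1 * (2 * (p 0 - k1) + σ1 * (s3 * p 2 - 1)),
      2 * (s2 * (p 1 - k2)),
      2 * (s1 * s2 * s3) * (1 - σ1 * (p 0 - k1))] := by
  have ht : 0 ≤ s3 * p 2 + σ1 * (p 0 - k1) - 1 := by rw [h.a3] at hz; linarith
  have h3 := h.a3
  have hσ := h.hσ1.sq
  unfold SN
  rw [h.ttv_big hz, h.muv_big hz, h.tw1, h.tw2, Ex_small hz1, hh_small hz1,
    clip_sign h.hs1 _ ht, clip_sign h.hs2 _ ht, clip_big h.hσ1 h.a1 ht (by rw [h.a1]; linarith),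
    clip_small (t := p 1 - k2) (by rw [h.a2]; linarith)]
  congr 1
  ext i; fin_cases i
  · simp; linear_combination (s1 * (p 0 - k1)) * hσ
  · simp; ring
  · simp; ring

/-- above the roof -/
lemma SN_high (h : Loc p k1 k2 s1 s2 σ1 σ2 s3) (hz1 : 1 ≤ |p 2|) :
    SN p = Real.exp (s3 * p 2 - 1) • WithLp.toLp 2 ![2 * (s1 * (p 0 - k1)),
      2 * (s2 * (p 1 - k2)),
      2 * (s1 * s2 * s3) * (1 - σ1 * (p 0 - k1))] := by
  have hz : 1 - σ1 * (p 0 - k1) ≤ |p 2| := by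
    have := abs_nonneg (p 0 - k1); rw [h.a1] at this; linarith
  have ht : 0 ≤ s3 * p 2 + σ1 * (p 0 - k1) - 1 := by rw [h.a3] at hz; linarith
  have h3 := h.a3
  have h4 := h.l2
  unfold SN
  rw [h.ttv_big hz, h.muv_big hz, h.qqv, h.tw1, h.tw2, Ex_big h.a3 hz1, hh_big h.hs3 h.a3 hz1,
    clip_sign h.hs1 _ ht, clip_sign h.hs2 _ ht,
    clip_small (t := p 0 - k1) (by rw [h.a1]; linarith),
    clip_small (t := p 1 - k2) (by rw [h.a2]; linarith)]
  ext i; fin_cases i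
  · simp; ring
  · simp; ring
  · simp; ring

end Loc

/-- the generic point data, in the half `|p 1 - k2| < |p 0 - k1|` -/
theorem good_half {p : E} {k1 k2 s1 s2 : ℝ} (hs1 : IsS s1) (hs2 : IsS s2)
    (t1 : ∀ y : ℝ, |y - k1| ≤ 1 → tw y = s1 * (y - k1) ∧ cw y = s1 * (1 - |y - k1|))
    (t2 : ∀ y : ℝ, |y - k2| ≤ 1 → tw y = s2 * (y - k2) ∧ cw y = s2 * (1 - |y - k2|))
    (hX0 : p 0 - k1 ≠ 0) (hX1 : |p 0 - k1| < 1) (hY0 : p 1 - k2 ≠ 0)
    (hYX : |p 1 - k2| < |p 0 - k1|) (hz0 : p 2 ≠ 0) (hz1 : |p 2| ≠ 1)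
    (hb : |p 2| + |p 0 - k1| ≠ 1) (hc : |p 2| + |p 0 - k1| - 1 ≠ |p 1 - k2|) : SGood p := by
  obtain ⟨σ1, hσ1⟩ : ∃ σ, σ = sgn (p 0 - k1) := ⟨_, rfl⟩
  obtain ⟨σ2, hσ2⟩ : ∃ σ, σ = sgn (p 1 - k2) := ⟨_, rfl⟩
  obtain ⟨s3, hs3⟩ : ∃ σ, σ = sgn (p 2) := ⟨_, rfl⟩
  have i1 : IsS σ1 := by rw [hσ1]; exact isS_sgn _
  have i2 : IsS σ2 := by rw [hσ2]; exact isS_sgn _
  have i3 : IsS s3 := by rw [hs3]; exact isS_sgn _
  have e1 : ∀ᶠ y in 𝓝 p, |y 0 - k1| = σ1 * (y 0 - k1) := by rw [hσ1]; exact ev_sgn0 hX0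
  have e2 : ∀ᶠ y in 𝓝 p, |y 1 - k2| = σ2 * (y 1 - k2) := by rw [hσ2]; exact ev_sgn1 hY0
  have e3 : ∀ᶠ y in 𝓝 p, |y 2| = s3 * y 2 := by
    have hcz : ContinuousAt (fun p : E => p 2) p := by fun_prop
    rcases lt_or_gt_of_ne hz0 with h0 | h0
    · filter_upwards [hcz.eventually_lt continuousAt_const h0] with y hy
      have : s3 = -1 := by rw [hs3]; unfold sgn; rw [if_neg (by linarith)]
      rw [this, abs_of_neg hy]; ring
    · filter_upwards [continuousAt_const.eventually_lt hcz h0] with y hy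
      have : s3 = 1 := by rw [hs3]; unfold sgn; rw [if_pos h0]
      rw [this, abs_of_pos hy]; ring
  have c0 : ContinuousAt (fun p : E => |p 0 - k1|) p := by fun_prop
  have c1 : ContinuousAt (fun p : E => |p 1 - k2|) p := by fun_prop
  have c2 : ContinuousAt (fun p : E => |p 2|) p := by fun_prop
  have e4 := c0.eventually_lt (continuousAt_const (y := (1 : ℝ))) hX1
  have e5 := c1.eventually_lt c0 hYX
  have hL : ∀ᶠ y in 𝓝 p, Loc y k1 k2 s1 s2 σ1 σ2 s3 := by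
    filter_upwards [e1, e2, e3, e4, e5] with y h1 h2 h3 h4 h5
    have u1 := t1 (y 0) h4.le
    have u2 := t2 (y 1) (h5.le.trans h4.le)
    exact ⟨hs1, hs2, i1, i2, i3, u1.1, by rw [u1.2, h1], u2.1, by rw [u2.2, h2], h1, h2, h3,
      by rw [← h1]; exact h4.le, by rw [← h1, ← h2]; exact h5.le⟩
  have hLp := hL.self_of_nhds
  have qs1 := hs1.sq
  have qs2 := hs2.sq
  have qσ1 := i1.sq
  have qσ2 := i2.sq
  have qs3 := i3.sq
  have c01 : ContinuousAt (fun p : E => |p 2| + |p 0 - k1|) p := by fun_prop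
  rcases lt_or_gt_of_ne hz1 with hz | hz
  · have ez := c2.eventually_lt (continuousAt_const (y := (1 : ℝ))) hz
    have hE : Ex (p 2) = 1 := Ex_small hz.le
    unfold SGood
    rw [hE]
    rcases lt_or_gt_of_ne hb with hl | hl
    · have el := c01.eventually_lt (continuousAt_const (y := (1 : ℝ))) hl
      refine ⟨WithLp.toLp 2 ![s1, 0, 0], WithLp.toLp 2 ![0, s2, 0],
        WithLp.toLp 2 ![0, 0, 2 * (s1 * s2)], ?_, ?_, ?_, ?_, ?_⟩
      · apply deriv_affine (q := WithLp.toLp 2 ![-s1 * k1, -s2 * k2, 0])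
        filter_upwards [hL, el] with y hy h1
        rw [hy.SN_low (by rw [← hy.a1]; linarith)]
        ext i; fin_cases i <;> simp <;> ring
      · apply norm_le_of_sq (by norm_num); simp [dt]; nlinarith
      · apply norm_le_of_sq (by norm_num); simp [dt]; nlinarith
      · apply norm_le_of_sq (by norm_num); simp [dt]
        have : (2 * (s1 * s2)) * (2 * (s1 * s2)) = 4 * (s1 ^ 2 * s2 ^ 2) := by ring
        rw [this, qs1, qs2]; norm_num
      · have : T (WithLp.toLp 2 ![s1, 0, 0]) (WithLp.toLp 2 ![0, s2, 0])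
          (WithLp.toLp 2 ![0, 0, 2 * (s1 * s2)]) = 2 * (s1 ^ 2 * s2 ^ 2) := by
          simp [T, dt]; ring
        rw [this, qs1, qs2]; norm_num
    · have el := (continuousAt_const (y := (1 : ℝ))).eventually_lt c01 hl
      have cc : ContinuousAt (fun p : E => |p 2| + |p 0 - k1| - 1) p := by fun_prop
      rcases lt_or_gt_of_ne hc with hm | hm
      · have em := cc.eventually_lt c1 hm
        refine ⟨WithLp.toLp 2 ![2 * s1, s2 * σ2 * σ1, -2 * (s1 * s2 * s3 * σ1)],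
          WithLp.toLp 2 ![0, s2, 0],
          WithLp.toLp 2 ![s1 * σ1 * s3, s2 * σ2 * s3, 0], ?_, ?_, ?_, ?_, ?_⟩
        · apply deriv_affine (q := WithLp.toLp 2 ![s1 * (-2 * k1 - σ1),
            s2 * (-k2 + σ2 * (-σ1 * k1 - 1)), 2 * (s1 * s2 * s3) * (1 + σ1 * k1)])
          filter_upwards [hL, el, em, ez] with y hy h1 h2 h3
          rw [hy.a3, hy.a1] at h1 h2
          rw [hy.a2] at h2
          rw [hy.a3] at h3
          rw [hy.SN_mid (by rw [hy.a3]; linarith) (by rw [hy.a3]; linarith) (by linarith)]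
          ext i; fin_cases i <;> simp <;> ring
        · apply norm_le_of_sq (by norm_num); simp [dt]
          have : 2 * s1 * (2 * s1) + s2 * σ2 * σ1 * (s2 * σ2 * σ1) +
            2 * (s1 * s2 * s3 * σ1) * (2 * (s1 * s2 * s3 * σ1)) =
            4 * s1 ^ 2 + s2 ^ 2 * σ2 ^ 2 * σ1 ^ 2 + 4 * (s1 ^ 2 * s2 ^ 2 * s3 ^ 2 * σ1 ^ 2) := by
            ring
          rw [this, qs1, qs2, qσ1, qσ2, qs3]; norm_num
        · apply norm_le_of_sq (by norm_num); simp [dt]; nlinarith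
        · apply norm_le_of_sq (by norm_num); simp [dt]
          have : s1 * σ1 * s3 * (s1 * σ1 * s3) + s2 * σ2 * s3 * (s2 * σ2 * s3) =
            s1 ^ 2 * σ1 ^ 2 * s3 ^ 2 + s2 ^ 2 * σ2 ^ 2 * s3 ^ 2 := by ring
          rw [this, qs1, qs2, qσ1, qσ2, qs3]; norm_num
        · have : T (WithLp.toLp 2 ![2 * s1, s2 * σ2 * σ1, -2 * (s1 * s2 * s3 * σ1)])
            (WithLp.toLp 2 ![0, s2, 0]) (WithLp.toLp 2 ![s1 * σ1 * s3, s2 * σ2 * s3, 0]) =
            2 * (s1 ^ 2 * s2 ^ 2 * s3 ^ 2 * σ1 ^ 2) := by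
            simp [T, dt]; ring
          rw [this, qs1, qs2, qs3, qσ1]; norm_num
      · have em := c1.eventually_lt cc hm
        refine ⟨WithLp.toLp 2 ![2 * s1, 0, -2 * (s1 * s2 * s3 * σ1)],
          WithLp.toLp 2 ![0, 2 * s2, 0],
          WithLp.toLp 2 ![s1 * σ1 * s3, 0, 0], ?_, ?_, ?_, ?_, ?_⟩
        · apply deriv_affine (q := WithLp.toLp 2 ![s1 * (-2 * k1 - σ1),
            -2 * (s2 * k2), 2 * (s1 * s2 * s3) * (1 + σ1 * k1)])
          filter_upwards [hL, el, em, ez] with y hy h1 h2 h3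
          rw [hy.a3, hy.a1] at h1 h2
          rw [hy.a2] at h2
          rw [hy.a3] at h3
          rw [hy.SN_side (by rw [hy.a3]; linarith) (by rw [hy.a3]; linarith) (by linarith)]
          ext i; fin_cases i <;> simp <;> ring
        · apply norm_le_of_sq (by norm_num); simp [dt]
          have : 2 * s1 * (2 * s1) +
            2 * (s1 * s2 * s3 * σ1) * (2 * (s1 * s2 * s3 * σ1)) =
            4 * s1 ^ 2 + 4 * (s1 ^ 2 * s2 ^ 2 * s3 ^ 2 * σ1 ^ 2) := by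
            ring
          rw [this, qs1, qs2, qσ1, qs3]; norm_num
        · apply norm_le_of_sq (by norm_num); simp [dt]; nlinarith
        · apply norm_le_of_sq (by norm_num); simp [dt]
          have : s1 * σ1 * s3 * (s1 * σ1 * s3) =
            s1 ^ 2 * σ1 ^ 2 * s3 ^ 2 := by ring
          rw [this, qs1, qσ1, qs3]; norm_num
        · have : T (WithLp.toLp 2 ![2 * s1, 0, -2 * (s1 * s2 * s3 * σ1)])
            (WithLp.toLp 2 ![0, 2 * s2, 0]) (WithLp.toLp 2 ![s1 * σ1 * s3, 0, 0]) =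
            4 * (s1 ^ 2 * s2 ^ 2 * s3 ^ 2 * σ1 ^ 2) := by
            simp [T, dt]; ring
          rw [this, qs1, qs2, qs3, qσ1]; norm_num
  · have ez := (continuousAt_const (y := (1 : ℝ))).eventually_lt c2 hz
    have hE : Ex (p 2) = Real.exp (s3 * p 2 - 1) := Ex_big hLp.a3 hz.le
    unfold SGood
    rw [hE]
    set e := Real.exp (s3 * p 2 - 1) with he
    have he0 : 0 < e := Real.exp_pos _
    have hd : HasFDerivAt SN (linM (e • (WithLp.toLp 2 ![2 * s1, 0, -2 * (s1 * s2 * s3 * σ1)] : E))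
        (e • (WithLp.toLp 2 ![0, 2 * s2, 0] : E)) ((s3 * e) •
        ((WithLp.toLp 2 ![-2 * s1 * k1, -2 * s2 * k2, 2 * (s1 * s2 * s3) * (1 + σ1 * k1)] : E) +
          p 0 • (WithLp.toLp 2 ![2 * s1, 0, -2 * (s1 * s2 * s3 * σ1)] : E) +
          p 1 • (WithLp.toLp 2 ![0, 2 * s2, 0] : E)))) p := by
      apply deriv_exp
      filter_upwards [hL, ez] with y hy h1
      rw [hy.SN_high h1.le]
      congr 1
      ext i; fin_cases i <;> simp <;> ring
    have hc' : (WithLp.toLp 2 ![-2 * s1 * k1, -2 * s2 * k2, 2 * (s1 * s2 * s3) * (1 + σ1 * k1)] : E) +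
          p 0 • (WithLp.toLp 2 ![2 * s1, 0, -2 * (s1 * s2 * s3 * σ1)] : E) +
          p 1 • (WithLp.toLp 2 ![0, 2 * s2, 0] : E) =
          WithLp.toLp 2 ![2 * (s1 * (p 0 - k1)), 2 * (s2 * (p 1 - k2)),
            2 * (s1 * s2 * s3) * (1 - σ1 * (p 0 - k1))] := by
      ext i; fin_cases i <;> simp <;> ring
    rw [hc'] at hd
    refine ⟨_, _, _, hd, ?_, ?_, ?_, ?_⟩
    · rw [norm_smul, Real.norm_of_nonneg he0.le, mul_comm]
      apply mul_le_mul_of_nonneg_right _ he0.le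
      apply norm_le_of_sq (by norm_num); simp [dt]
      have : 2 * s1 * (2 * s1) +
        2 * (s1 * s2 * s3 * σ1) * (2 * (s1 * s2 * s3 * σ1)) =
        4 * s1 ^ 2 + 4 * (s1 ^ 2 * s2 ^ 2 * s3 ^ 2 * σ1 ^ 2) := by
        ring
      rw [this, qs1, qs2, qσ1, qs3]; norm_num
    · rw [norm_smul, Real.norm_of_nonneg he0.le, mul_comm]
      apply mul_le_mul_of_nonneg_right _ he0.le
      apply norm_le_of_sq (by norm_num); simp [dt]; nlinarith
    · rw [norm_smul, Real.norm_eq_abs, abs_mul, i3.abs, one_mul, abs_of_pos he0, mul_comm]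
      apply mul_le_mul_of_nonneg_right _ he0.le
      apply norm_le_of_sq (by norm_num)
      have hX : (p 0 - k1) ^ 2 ≤ 1 := by
        rw [← sq_abs]; exact pow_le_one₀ (abs_nonneg _) hX1.le
      have hY : (p 1 - k2) ^ 2 ≤ 1 := by
        rw [← sq_abs]; exact pow_le_one₀ (abs_nonneg _) (hYX.le.trans hX1.le)
      have hB : (1 - |p 0 - k1|) ^ 2 ≤ 1 := by
        apply pow_le_one₀ <;> linarith [abs_nonneg (p 0 - k1)]
      rw [hLp.a1] at hB
      have : dt (WithLp.toLp 2 ![2 * (s1 * (p 0 - k1)), 2 * (s2 * (p 1 - k2)),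
            2 * (s1 * s2 * s3) * (1 - σ1 * (p 0 - k1))]) (WithLp.toLp 2 ![2 * (s1 * (p 0 - k1)), 2 * (s2 * (p 1 - k2)),
            2 * (s1 * s2 * s3) * (1 - σ1 * (p 0 - k1))]) = 4 * (s1 ^ 2 * (p 0 - k1) ^ 2) +
          4 * (s2 ^ 2 * (p 1 - k2) ^ 2) +
          4 * (s1 ^ 2 * s2 ^ 2 * s3 ^ 2) * (1 - σ1 * (p 0 - k1)) ^ 2 := by
        simp [dt]; ring
      rw [this, qs1, qs2, qs3]
      linarith
    · have : T (e • (WithLp.toLp 2 ![2 * s1, 0, -2 * (s1 * s2 * s3 * σ1)] : E))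
          (e • (WithLp.toLp 2 ![0, 2 * s2, 0] : E))
          ((s3 * e) • (WithLp.toLp 2 ![2 * (s1 * (p 0 - k1)), 2 * (s2 * (p 1 - k2)),
            2 * (s1 * s2 * s3) * (1 - σ1 * (p 0 - k1))] : E)) =
          e ^ 3 * (8 * (s1 ^ 2 * s2 ^ 2 * s3 ^ 2) * (1 - σ1 * (p 0 - k1)) +
            8 * (s1 ^ 2 * s2 ^ 2 * s3 ^ 2) * σ1 * (p 0 - k1)) := by
        simp [T, dt]; ring
      rw [this, qs1, qs2, qs3]
      have h3 : 0 < e ^ 3 := by positivity
      nlinarith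

/-- exchange of the first two coordinates -/
noncomputable def sw (p : E) : E := WithLp.toLp 2 ![p 1, p 0, p 2]

@[simp] lemma sw_0 (p : E) : sw p 0 = p 1 := rfl
@[simp] lemma sw_1 (p : E) : sw p 1 = p 0 := rfl
@[simp] lemma sw_2 (p : E) : sw p 2 = p 2 := rfl

lemma mu_comm (u v : ℝ) : mu u v = mu v u := by
  unfold mu; rw [add_comm u v, abs_sub_comm u v]

lemma SN_sw (p : E) : SN (sw p) = sw (SN p) := by
  have h1 : qq (sw p) = qq p := by unfold qq; rw [sw_0, sw_1, mu_comm]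
  have h2 : tt (sw p) = tt p := by unfold tt; rw [h1, sw_2]
  unfold SN
  rw [h1, h2, sw_0, sw_1, sw_2]
  ext i; fin_cases i <;> rfl

lemma norm_sw (p : E) : ‖sw p‖ = ‖p‖ := by
  have h : ‖sw p‖ ^ 2 = ‖p‖ ^ 2 := by
    rw [← dt_self, ← dt_self]; simp only [dt, sw_0, sw_1, sw_2]; ring
  exact (sq_eq_sq₀ (norm_nonneg _) (norm_nonneg _)).1 h

/-- the swap as a linear map -/
noncomputable def swl : E →L[ℝ] E :=
  linM (WithLp.toLp 2 ![0, 1, 0]) (WithLp.toLp 2 ![1, 0, 0]) (WithLp.toLp 2 ![0, 0, 1])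

lemma swl_apply (p : E) : swl p = sw p := by
  unfold swl; rw [linM_apply]
  ext i; fin_cases i <;> simp [sw]

lemma sw_sw (p : E) : sw (sw p) = p := by
  apply ext3 <;> rfl

lemma SGood_sw {p : E} (h : SGood (sw p)) : SGood p := by
  obtain ⟨a, b, c, hd, ha, hb, hc, hT⟩ := h
  rw [sw_2] at ha hb hc hT
  refine ⟨sw b, sw a, sw c, ?_, by rwa [norm_sw], by rwa [norm_sw], by rwa [norm_sw], ?_⟩
  · have h1 : HasFDerivAt (fun y : E => swl y) swl p := swl.hasFDerivAt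
    have h1' : HasFDerivAt (fun y : E => sw y) swl p := by
      have : (fun y : E => swl y) = fun y => sw y := by funext y; exact swl_apply y
      rwa [this] at h1
    have h2 := hd.comp p h1'
    have h3 : HasFDerivAt (fun y : E => swl y) swl ((SN ∘ fun y => sw y) p) := swl.hasFDerivAt
    have h4 := h3.comp p h2
    have e : ((fun y : E => swl y) ∘ (SN ∘ fun y => sw y)) = SN := by
      funext y
      change swl (SN (sw y)) = SN y
      rw [swl_apply, SN_sw, sw_sw]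
    rw [e] at h4
    have e2 : swl.comp ((linM a b c).comp swl) = linM (sw b) (sw a) (sw c) := by
      apply ContinuousLinearMap.ext
      intro v
      change swl (linM a b c (swl v)) = _
      rw [swl_apply, swl_apply, linM_apply, linM_apply]
      apply ext3 <;> simp <;> ring
    rw [e2] at h4
    exact h4
  · have : T (sw b) (sw a) (sw c) = T a b c := by
      simp only [T, dt, cr_0, cr_1, cr_2, sw_0, sw_1, sw_2]; ring
    rw [this]; exact hT

/-- the sine is differentiable with a uniformly nondegenerate derivative almost everywhere -/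
theorem ae_SGood : ∀ᵐ p : E ∂volume, SGood p := by
  filter_upwards [ae_gen] with p hG
  obtain ⟨k1, s1, hs1, hx, t1⟩ := tri (p 0)
  obtain ⟨k2, s2, hs2, hy, t2⟩ := tri (p 1)
  have e1 : (2 * (k1 : ℝ)) = ((2 * k1 : ℚ) : ℝ) := by push_cast; ring
  have e2 : (2 * (k2 : ℝ)) = ((2 * k2 : ℚ) : ℝ) := by push_cast; ring
  have e3 : (1 : ℝ) = ((1 : ℚ) : ℝ) := by push_cast; ring
  obtain ⟨b1, hb1⟩ : ∃ b : ℝ, b = 2 * (k1 : ℝ) := ⟨_, rfl⟩
  obtain ⟨b2, hb2⟩ : ∃ b : ℝ, b = 2 * (k2 : ℝ) := ⟨_, rfl⟩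
  rw [← hb1] at e1 t1 hx
  rw [← hb2] at e2 t2 hy
  have hX0 : p 0 - b1 ≠ 0 := by
    intro h
    apply hG.rel e1 e2 e3 1 0 0 0 (by norm_num); push_cast; linarith
  have hY0 : p 1 - b2 ≠ 0 := by
    intro h
    apply hG.rel e1 e2 e3 0 1 0 0 (by norm_num); push_cast; linarith
  have hz0 : p 2 ≠ 0 := by
    intro h
    apply hG.rel e1 e2 e3 0 0 1 0 (by norm_num); push_cast; linarith
  have hX1 : |p 0 - b1| ≠ 1 := by
    intro h
    rcases abs_choice (p 0 - b1) with ha | ha <;> rw [ha] at h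
    · apply hG.rel e1 e2 e3 1 0 0 1 (by norm_num); push_cast; linarith
    · apply hG.rel e1 e2 e3 (-1) 0 0 1 (by norm_num); push_cast; linarith
  have hY1 : |p 1 - b2| ≠ 1 := by
    intro h
    rcases abs_choice (p 1 - b2) with ha | ha <;> rw [ha] at h
    · apply hG.rel e1 e2 e3 0 1 0 1 (by norm_num); push_cast; linarith
    · apply hG.rel e1 e2 e3 0 (-1) 0 1 (by norm_num); push_cast; linarith
  have hz1 : |p 2| ≠ 1 := by
    intro h
    rcases abs_choice (p 2) with ha | ha <;> rw [ha] at h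
    · apply hG.rel e1 e2 e3 0 0 1 1 (by norm_num); push_cast; linarith
    · apply hG.rel e1 e2 e3 0 0 (-1) 1 (by norm_num); push_cast; linarith
  have hXY : |p 0 - b1| ≠ |p 1 - b2| := by
    intro h
    rcases abs_eq_abs.1 h with h | h
    · apply hG.rel e1 e2 e3 1 (-1) 0 0 (by norm_num); push_cast; linarith
    · apply hG.rel e1 e2 e3 1 1 0 0 (by norm_num); push_cast; linarith
  have hzX : |p 2| + |p 0 - b1| ≠ 1 := by
    intro h
    rcases abs_choice (p 2) with ha | ha <;> rcases abs_choice (p 0 - b1) with hb | hb <;>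
      rw [ha, hb] at h
    · apply hG.rel e1 e2 e3 1 0 1 1 (by norm_num); push_cast; linarith
    · apply hG.rel e1 e2 e3 (-1) 0 1 1 (by norm_num); push_cast; linarith
    · apply hG.rel e1 e2 e3 1 0 (-1) 1 (by norm_num); push_cast; linarith
    · apply hG.rel e1 e2 e3 (-1) 0 (-1) 1 (by norm_num); push_cast; linarith
  have hzY : |p 2| + |p 1 - b2| ≠ 1 := by
    intro h
    rcases abs_choice (p 2) with ha | ha <;> rcases abs_choice (p 1 - b2) with hb | hb <;>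
      rw [ha, hb] at h
    · apply hG.rel e1 e2 e3 0 1 1 1 (by norm_num); push_cast; linarith
    · apply hG.rel e1 e2 e3 0 (-1) 1 1 (by norm_num); push_cast; linarith
    · apply hG.rel e1 e2 e3 0 1 (-1) 1 (by norm_num); push_cast; linarith
    · apply hG.rel e1 e2 e3 0 (-1) (-1) 1 (by norm_num); push_cast; linarith
  have hc : |p 2| + |p 0 - b1| - 1 ≠ |p 1 - b2| := by
    intro h
    rcases abs_choice (p 2) with ha | ha <;> rcases abs_choice (p 0 - b1) with hb | hb <;>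
      rcases abs_choice (p 1 - b2) with hc | hc <;> rw [ha, hb, hc] at h
    · apply hG.rel e1 e2 e3 1 (-1) 1 1 (by norm_num); push_cast; linarith
    · apply hG.rel e1 e2 e3 1 1 1 1 (by norm_num); push_cast; linarith
    · apply hG.rel e1 e2 e3 (-1) (-1) 1 1 (by norm_num); push_cast; linarith
    · apply hG.rel e1 e2 e3 (-1) 1 1 1 (by norm_num); push_cast; linarith
    · apply hG.rel e1 e2 e3 1 (-1) (-1) 1 (by norm_num); push_cast; linarith
    · apply hG.rel e1 e2 e3 1 1 (-1) 1 (by norm_num); push_cast; linarith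
    · apply hG.rel e1 e2 e3 (-1) (-1) (-1) 1 (by norm_num); push_cast; linarith
    · apply hG.rel e1 e2 e3 (-1) 1 (-1) 1 (by norm_num); push_cast; linarith
  have hd : |p 2| + |p 1 - b2| - 1 ≠ |p 0 - b1| := by
    intro h
    rcases abs_choice (p 2) with ha | ha <;> rcases abs_choice (p 0 - b1) with hb | hb <;>
      rcases abs_choice (p 1 - b2) with hc | hc <;> rw [ha, hb, hc] at h
    · apply hG.rel e1 e2 e3 (-1) 1 1 1 (by norm_num); push_cast; linarith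
    · apply hG.rel e1 e2 e3 (-1) (-1) 1 1 (by norm_num); push_cast; linarith
    · apply hG.rel e1 e2 e3 1 1 1 1 (by norm_num); push_cast; linarith
    · apply hG.rel e1 e2 e3 1 (-1) 1 1 (by norm_num); push_cast; linarith
    · apply hG.rel e1 e2 e3 (-1) 1 (-1) 1 (by norm_num); push_cast; linarith
    · apply hG.rel e1 e2 e3 (-1) (-1) (-1) 1 (by norm_num); push_cast; linarith
    · apply hG.rel e1 e2 e3 1 1 (-1) 1 (by norm_num); push_cast; linarith
    · apply hG.rel e1 e2 e3 1 (-1) (-1) 1 (by norm_num); push_cast; linarith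
  rcases lt_or_gt_of_ne hXY with h | h
  · apply SGood_sw
    exact good_half hs2 hs1 t2 t1 hY0 (lt_of_le_of_ne hy hY1) hX0 h hz0 hz1 hzY hd
  · exact good_half hs1 hs2 t1 t2 hX0 (lt_of_le_of_ne hx hX1) hY0 h hz0 hz1 hzX hc

end Pool.Agent.Helper746.Sine
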