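import Pool.Agent.Helper746.SineGood

set_option autoImplicit false
open MeasureTheory Filter Topology

namespace Pool.Agent.Helper746.Sine

open Pool.Agent.Helper746

/-- bounded and Lipschitz on bounded sets -/
def LL {H : Type*} [NormedAddCommGroup H] (f : E → H) : Prop :=
  ∀ r : ℝ, 0 ≤ r → ∃ C B : ℝ, 0 ≤ C ∧ 0 ≤ B ∧
    (∀ x y : E, ‖x‖ ≤ r → ‖y‖ ≤ r → ‖f x - f y‖ ≤ C * ‖x - y‖) ∧ ∀ x : E, ‖x‖ ≤ r → ‖f x‖ ≤ B

section
variable {H : Type*} [NormedAddCommGroup H]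

lemma LL_of_Lp {f : E → H} (h : Lp f) : LL f := by
  intro r hr
  obtain ⟨C, hC⟩ := h
  have hC' : ∀ x y : E, ‖f x - f y‖ ≤ |C| * ‖x - y‖ := fun x y =>
    (hC x y).trans (mul_le_mul_of_nonneg_right (le_abs_self C) (norm_nonneg _))
  refine ⟨|C|, ‖f 0‖ + |C| * r, abs_nonneg _, by positivity, fun x y _ _ => hC' x y,
    fun x hx => ?_⟩
  have h1 := hC' x 0
  rw [sub_zero] at h1
  have h2 : ‖f x‖ ≤ ‖f 0‖ + ‖f x - f 0‖ := by
    have := norm_add_le (f 0) (f x - f 0)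
    simpa using this
  have h3 : |C| * ‖x‖ ≤ |C| * r := mul_le_mul_of_nonneg_left hx (abs_nonneg _)
  linarith

lemma LL.add {f g : E → H} (hf : LL f) (hg : LL g) : LL (fun p => f p + g p) := by
  intro r hr
  obtain ⟨C, B, hC, hB, h1, h2⟩ := hf r hr
  obtain ⟨C', B', hC', hB', h1', h2'⟩ := hg r hr
  refine ⟨C + C', B + B', by positivity, by positivity, fun x y hx hy => ?_, fun x hx => ?_⟩
  · have e : f x + g x - (f y + g y) = (f x - f y) + (g x - g y) := by abel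
    rw [e, add_mul]
    exact (norm_add_le _ _).trans (add_le_add (h1 x y hx hy) (h1' x y hx hy))
  · exact (norm_add_le _ _).trans (add_le_add (h2 x hx) (h2' x hx))

lemma LL.smul [NormedSpace ℝ H] {f : E → ℝ} {g : E → H} (hf : LL f) (hg : LL g) :
    LL (fun p => f p • g p) := by
  intro r hr
  obtain ⟨C, B, hC, hB, h1, h2⟩ := hf r hr
  obtain ⟨C', B', hC', hB', h1', h2'⟩ := hg r hr
  refine ⟨B * C' + C * B', B * B', by positivity, by positivity, fun x y hx hy => ?_,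
    fun x hx => ?_⟩
  · have e : f x • g x - f y • g y = f x • (g x - g y) + (f x - f y) • g y := by module
    rw [e]
    calc ‖f x • (g x - g y) + (f x - f y) • g y‖ ≤ ‖f x • (g x - g y)‖ + ‖(f x - f y) • g y‖ :=
          norm_add_le _ _
      _ = ‖f x‖ * ‖g x - g y‖ + ‖f x - f y‖ * ‖g y‖ := by rw [norm_smul, norm_smul]
      _ ≤ B * (C' * ‖x - y‖) + (C * ‖x - y‖) * B' := by
          apply add_le_add
          · exact mul_le_mul (h2 x hx) (h1' x y hx hy) (norm_nonneg _) hB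
          · exact mul_le_mul (h1 x y hx hy) (h2' y hy) (norm_nonneg _) (by positivity)
      _ = _ := by ring
  · rw [norm_smul]
    exact mul_le_mul (h2 x hx) (h2' x hx) (norm_nonneg _) hB

end

lemma exp_lip {a b B : ℝ} (ha : a ≤ B) (hb : b ≤ B) :
    |Real.exp a - Real.exp b| ≤ Real.exp B * |a - b| := by
  have key : ∀ a b : ℝ, a ≤ B → Real.exp a - Real.exp b ≤ Real.exp B * |a - b| := by
    intro a b ha
    have h1 := Real.add_one_le_exp (b - a)
    have h2 : Real.exp b = Real.exp a * Real.exp (b - a) := by rw [← Real.exp_add]; ring_nf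
    have h3 : Real.exp a - Real.exp b ≤ Real.exp a * (a - b) := by
      rw [h2]; nlinarith [Real.exp_pos a]
    have h4 : Real.exp a * (a - b) ≤ Real.exp a * |a - b| :=
      mul_le_mul_of_nonneg_left (le_abs_self _) (Real.exp_pos a).le
    have h5 : Real.exp a * |a - b| ≤ Real.exp B * |a - b| :=
      mul_le_mul_of_nonneg_right (Real.exp_le_exp.2 ha) (abs_nonneg _)
    linarith
  rw [abs_le]
  have h1 := key a b ha
  have h2 := key b a hb
  rw [abs_sub_comm] at h2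
  exact ⟨by linarith, h1⟩

lemma LL.exp {f : E → ℝ} (hf : LL f) : LL (fun p => Real.exp (f p)) := by
  intro r hr
  obtain ⟨C, B, hC, hB, h1, h2⟩ := hf r hr
  refine ⟨Real.exp B * C, Real.exp B, by positivity, (Real.exp_pos _).le, fun x y hx hy => ?_,
    fun x hx => ?_⟩
  · rw [Real.norm_eq_abs]
    have hx' := (le_abs_self (f x)).trans (h2 x hx)
    have hy' := (le_abs_self (f y)).trans (h2 y hy)
    refine (exp_lip hx' hy').trans ?_
    have := h1 x y hx hy
    rw [Real.norm_eq_abs] at this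
    calc Real.exp B * |f x - f y| ≤ Real.exp B * (C * ‖x - y‖) :=
          mul_le_mul_of_nonneg_left this (Real.exp_pos _).le
      _ = _ := by ring
  · rw [Real.norm_of_nonneg (Real.exp_pos _).le]
    exact Real.exp_le_exp.2 ((le_abs_self (f x)).trans (h2 x hx))

lemma LL.mul {f g : E → ℝ} (hf : LL f) (hg : LL g) : LL (fun p => f p * g p) := hf.smul hg

lemma LL.mulc {f : E → ℝ} (hf : LL f) (c : ℝ) : LL (fun p => c * f p) :=
  (LL_of_Lp (Lp.const c)).mul hf

lemma LL.sub {f g : E → ℝ} (hf : LL f) (hg : LL g) : LL (fun p => f p - g p) := by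
  have := hf.add (hg.mulc (-1))
  simpa [sub_eq_add_neg] using this

lemma Lp_cw_comp {f : E → ℝ} (hf : Lp f) : Lp (fun p => cw (f p)) := by
  obtain ⟨C, hC⟩ := hf
  refine ⟨C, fun x y => ?_⟩
  have h := d4_lip (f x) (f y)
  have e : cw (f x) - cw (f y) = -(d4 (f x) - d4 (f y)) := by unfold cw; ring
  rw [e, norm_neg, Real.norm_eq_abs]
  exact h.trans (hC x y)

lemma Lp_cw (i : Fin 3) : Lp (fun p : E => cw (p i)) := Lp_cw_comp (Lp.coord i)
lemma Lp_tw (i : Fin 3) : Lp (fun p : E => tw (p i)) := by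
  have := Lp_cw_comp ((Lp.coord i).sub (Lp.const (1 : ℝ)))
  exact this

lemma Lp_mu {f g : E → ℝ} (hf : Lp f) (hg : Lp g) : Lp (fun p => mu (f p) (g p)) := by
  have := (((hf.add hg).abs).sub ((hf.sub hg).abs)).mulc (1 / 2)
  have e : (fun p => mu (f p) (g p)) = fun p => 1 / 2 * (|f p + g p| - |f p - g p|) := by
    funext p; unfold mu; ring
  rw [e]; exact this

lemma Lp_clip {f g : E → ℝ} (hf : Lp f) (hg : Lp g) : Lp (fun p => clip (f p) (g p)) := by
  have h1 : Lp (fun p => - g p) := by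
    have := hg.mulc (-1)
    simpa using this
  exact h1.max (hf.min hg)

lemma Lp_qq : Lp qq := Lp_mu (Lp_cw 0) (Lp_cw 1)
lemma Lp_tt : Lp tt := (Lp.const (0 : ℝ)).max ((Lp.coord 2).abs.sub Lp_qq.abs)

lemma LL_Ex : LL (fun p : E => Ex (p 2)) :=
  (LL_of_Lp ((Lp.const (0 : ℝ)).max ((Lp.coord 2).abs.sub (Lp.const (1 : ℝ))))).exp

lemma LL_hh : LL (fun p : E => hh (p 2)) := by
  have h1 : Lp (fun p : E => - p 2) := by
    have := (Lp.coord 2).mulc (-1)
    simpa using this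
  exact ((LL_of_Lp ((Lp.const (0 : ℝ)).max ((Lp.coord 2).sub (Lp.const (1 : ℝ))))).exp).sub
    ((LL_of_Lp ((Lp.const (0 : ℝ)).max (h1.sub (Lp.const (1 : ℝ))))).exp)

lemma LL_SN : LL SN := by
  have h : ∀ i : Fin 3, LL (fun p : E => (tw (p i) + clip (tw (p i)) (tt p)) * Ex (p 2)) :=
    fun i => (LL_of_Lp ((Lp_tw i).add (Lp_clip (Lp_tw i) Lp_tt))).mul LL_Ex
  have h3 : LL (fun p : E => 2 * mu (p 2) (qq p) + 2 * qq p * hh (p 2)) :=
    (LL_of_Lp ((Lp_mu (Lp.coord 2) Lp_qq).mulc 2)).add ((LL_of_Lp (Lp_qq.mulc 2)).mul LL_hh)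
  have hc : ∀ v : E, LL (fun _ : E => v) := fun v => LL_of_Lp (Lp.const v)
  have := (((h 0).smul (hc (WithLp.toLp 2 ![1, 0, 0]))).add
    ((h 1).smul (hc (WithLp.toLp 2 ![0, 1, 0])))).add (h3.smul (hc (WithLp.toLp 2 ![0, 0, 1])))
  have e : SN = fun p : E => ((tw (p 0) + clip (tw (p 0)) (tt p)) * Ex (p 2)) •
      (WithLp.toLp 2 ![1, 0, 0] : E) + ((tw (p 1) + clip (tw (p 1)) (tt p)) * Ex (p 2)) •
      (WithLp.toLp 2 ![0, 1, 0] : E) + (2 * mu (p 2) (qq p) + 2 * qq p * hh (p 2)) •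
      (WithLp.toLp 2 ![0, 0, 1] : E) := by
    funext p
    unfold SN
    ext i; fin_cases i <;> simp
  rw [e]
  exact this

/-- the counterexample -/
noncomputable def fN (y : E) : E := (400 + ‖y‖)⁻¹ • ((200 : ℝ) • SN y + y)

lemma LL_inv : LL (fun y : E => (400 + ‖y‖)⁻¹) := by
  apply LL_of_Lp
  refine ⟨1, fun x y => ?_⟩
  have hx : 1 ≤ 400 + ‖x‖ := by linarith [norm_nonneg x]
  have hy : 1 ≤ 400 + ‖y‖ := by linarith [norm_nonneg y]
  rw [Real.norm_eq_abs, inv_sub_inv (by linarith) (by linarith), abs_div,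
    abs_of_pos (show 0 < (400 + ‖x‖) * (400 + ‖y‖) by positivity), one_mul]
  rw [div_le_iff₀ (by positivity)]
  have e : 400 + ‖y‖ - (400 + ‖x‖) = ‖y‖ - ‖x‖ := by ring
  rw [e]
  have h1 := abs_norm_sub_norm_le y x
  rw [norm_sub_rev] at h1
  have h2 : 1 ≤ (400 + ‖x‖) * (400 + ‖y‖) := by nlinarith
  nlinarith [norm_nonneg (x - y)]

lemma LL_fN : LL fN := by
  have hid : LL (fun y : E => y) := LL_of_Lp ⟨1, fun x y => by simp⟩
  have h2 : LL (fun y : E => (200 : ℝ) • SN y) := (LL_of_Lp (Lp.const (200 : ℝ))).smul LL_SN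
  exact LL_inv.smul (h2.add hid)

theorem fN_lip (r : ℝ) (hr : 0 ≤ r) :
    ∃ C : NNReal, LipschitzOnWith C fN (Metric.closedBall (0 : E) r) := by
  obtain ⟨C, B, hC, hB, h1, h2⟩ := LL_fN r hr
  refine ⟨C.toNNReal, LipschitzOnWith.of_dist_le_mul fun x hx y hy => ?_⟩
  rw [mem_closedBall_zero_iff] at hx hy
  rw [dist_eq_norm, dist_eq_norm, Real.coe_toNNReal _ hC]
  exact h1 x y hx hy

end Pool.Agent.Helper746.Sine
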