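import Pool.Agent.Helper746.StepO

set_option autoImplicit false

namespace Pool.Agent.Helper746

section C
variable {σ : St}

lemma C_V (hp : σ.ph = Ph.C) :
    σ.V = (1 / 2 : ℝ) • (σ.c - σ.t1 • σ.a - σ.t2 • σ.b) - σ.c := by
  unfold St.V; rw [hp]

lemma C_cV (hp : σ.ph = Ph.C) :
    σ.c + σ.V = (1 / 2 : ℝ) • (σ.c - σ.t1 • σ.a - σ.t2 • σ.b) := by
  rw [C_V hp]; module

lemma C_T_low (hp : σ.ph = Ph.C) : T σ.a σ.b (σ.c + σ.V) = 1 / 2 * T σ.a σ.b σ.c := by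
  rw [C_cV hp]
  simp only [T, dt, cr_0, cr_1, cr_2, PiLp.sub_apply, PiLp.smul_apply, smul_eq_mul]
  ring

lemma C_T_up (hp : σ.ph = Ph.C) (n1 n2 : ℝ) :
    T (σ.a - n1 • σ.V) (σ.b - n2 • σ.V) (σ.c - (10 : ℝ) • σ.V) =
      (6 + 1 / 2 * (n1 * σ.t1 + n2 * σ.t2)) * T σ.a σ.b σ.c := by
  rw [C_V hp]
  simp only [T, dt, cr_0, cr_1, cr_2, PiLp.sub_apply, PiLp.smul_apply, smul_eq_mul]
  ring

lemma InvC.norm_c (h : InvC σ) : ‖σ.c‖ ≤ 20 * σ.s1 := by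
  have e : σ.c = (σ.c - σ.t1 • σ.a - σ.t2 • σ.b) + (σ.t1 • σ.a + σ.t2 • σ.b) := by module
  have h1 := norm_comb_le σ.a σ.b σ.t1 σ.t2 _ _ h.ha' h.hb' h.ht1 h.ht2
  have h2 := h.hc
  have h3 := norm_add_le (σ.c - σ.t1 • σ.a - σ.t2 • σ.b) (σ.t1 • σ.a + σ.t2 • σ.b)
  rw [← e] at h3
  have := h.h12
  have := h.h23
  have := h.hs3
  linarith

lemma InvC.norm_V (h : InvC σ) (hp : σ.ph = Ph.C) : ‖σ.V‖ ≤ 20 * σ.s1 := by
  have e : σ.V = -((1 / 2 : ℝ) • (σ.c - σ.t1 • σ.a - σ.t2 • σ.b) +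
      (σ.t1 • σ.a + σ.t2 • σ.b)) := by rw [C_V hp]; module
  have h1 := norm_comb_le σ.a σ.b σ.t1 σ.t2 _ _ h.ha' h.hb' h.ht1 h.ht2
  have h2 := h.hc
  have h3 := norm_add_le ((1 / 2 : ℝ) • (σ.c - σ.t1 • σ.a - σ.t2 • σ.b))
    (σ.t1 • σ.a + σ.t2 • σ.b)
  have h4 : ‖(1 / 2 : ℝ) • (σ.c - σ.t1 • σ.a - σ.t2 • σ.b)‖ =
      1 / 2 * ‖σ.c - σ.t1 • σ.a - σ.t2 • σ.b‖ := by
    rw [norm_smul, Real.norm_of_nonneg (by norm_num)]
  rw [e, norm_neg]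
  have := h.h12
  have := h.h23
  have := h.hs3
  linarith

lemma InvO.norm_c (h : InvO σ) : ‖σ.c‖ ≤ 14 / 10 * σ.s1 := by
  have e : σ.c = (σ.c - σ.t1 • σ.a - σ.t2 • σ.b) + (σ.t1 • σ.a + σ.t2 • σ.b) := by module
  have h1 : ‖σ.t1 • σ.a + σ.t2 • σ.b‖ ≤ 13 / 10 * σ.s1 := by
    have := h.ha'; have := h.hb'
    rcases h.ht with ⟨h | h, h'⟩ | ⟨h, h' | h'⟩ <;> rw [h, h'] <;> simpa
  have h2 := h.hc
  have h3 := norm_add_le (σ.c - σ.t1 • σ.a - σ.t2 • σ.b) (σ.t1 • σ.a + σ.t2 • σ.b)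
  rw [← e] at h3
  have := h.h12
  have := h.hs2
  linarith

lemma child_C (hp : σ.ph = Ph.C) (c1 c2 r' : ℝ) : σ.child c1 c2 r' =
    { ph := Ph.U, b1 := c1, b2 := c2, r := r',
      a := σ.a, b := σ.b, c := σ.c + σ.V,
      f := σ.f + (c1 - σ.b1) • σ.a + (c2 - σ.b2) • σ.b,
      u := ‖σ.f + (c1 - σ.b1) • σ.a + (c2 - σ.b2) • σ.b‖⁻¹ •
        (σ.f + (c1 - σ.b1) • σ.a + (c2 - σ.b2) • σ.b),
      s1 := σ.s1, s2 := σ.s2, s3 := σ.s3, t1 := 0, t2 := 0 } := by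
  unfold St.child
  rw [hp]

theorem inv_child_C (h : InvC σ) (hp : σ.ph = Ph.C) {c1 c2 r' : ℝ}
    (hpos : Pos σ (c1 - σ.b1) (c2 - σ.b2) r') : InvU (σ.child c1 c2 r') := by
  rw [child_C hp]
  set X := c1 - σ.b1
  set Y := c2 - σ.b2
  have hr' := hpos.hr'
  have hs1 := h.hs1
  have hs2 := h.hs2
  have hs3 := h.hs3
  have h1r' : σ.s1 * r' ≤ σ.s1 * σ.r / 1000 := by
    have := mul_le_mul_of_nonneg_left hpos.h0 hs1.le
    linarith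
  have h1r := h.h1r
  have h1r0 : 0 < σ.s1 * σ.r := by have := h.hr; positivity
  have key : ∀ x y : ℝ, |x| ≤ r' → |y| ≤ r' →
      99998 ≤ ‖σ.f + X • σ.a + Y • σ.b + x • σ.a + y • σ.b‖ ∧
      ‖σ.f + X • σ.a + Y • σ.b + x • σ.a + y • σ.b‖ ≤ 100002 := by
    intro x y hx hy
    obtain ⟨hx1, hy1⟩ := hpos.near hx hy
    have e : σ.f + X • σ.a + Y • σ.b + x • σ.a + y • σ.b =
        σ.f + (X + x) • σ.a + (Y + y) • σ.b := by
      module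
    rw [e]
    exact ⟨h.lo _ _ hx1 hy1, h.hi _ _ hx1 hy1⟩
  obtain ⟨hX, hY⟩ := hpos.near (x := 0) (y := 0) (by simpa using hr'.le) (by simpa using hr'.le)
  rw [add_zero] at hX hY
  set f' := σ.f + X • σ.a + Y • σ.b with hf'
  obtain ⟨hlo, hhi⟩ := key 0 0 (by simpa using hr'.le) (by simpa using hr'.le)
  simp only [zero_smul, add_zero] at hlo hhi
  have hf0 : 0 < ‖f'‖ := by linarith
  set u' := ‖f'‖⁻¹ • f' with hu'
  have hfu : f' = ‖f'‖ • u' := by rw [hu', smul_smul, mul_inv_cancel₀ hf0.ne', one_smul]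
  have hu1 : ‖u'‖ = 1 := by rw [hu', norm_smul, norm_inv, norm_norm, inv_mul_cancel₀ hf0.ne']
  have hdu : ‖u' - σ.u‖ ≤ 2 / 10000 := by
    have e1 : ‖f'‖ • (u' - σ.u) = (f' - (100000 : ℝ) • σ.u) + (100000 - ‖f'‖) • σ.u := by
      rw [smul_sub, ← hfu]; module
    have e2 : ‖f' - (100000 : ℝ) • σ.u‖ ≤ 601 / 100 := by
      have e0 : f' - (100000 : ℝ) • σ.u =
        (σ.f - (100000 : ℝ) • σ.u) + (X • σ.a + Y • σ.b) := by rw [hf']; module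
      rw [e0]
      have e1 := h.hf
      have e2 := norm_comb_le σ.a σ.b X Y _ _ h.ha' h.hb' hX hY
      have e4 := norm_add_le (σ.f - (100000 : ℝ) • σ.u) (X • σ.a + Y • σ.b)
      linarith
    have e3 : ‖(100000 - ‖f'‖) • σ.u‖ ≤ 2 := by
      rw [norm_smul, h.hu, mul_one, Real.norm_eq_abs, abs_le]; constructor <;> linarith
    have e4 := norm_add_le (f' - (100000 : ℝ) • σ.u) ((100000 - ‖f'‖) • σ.u)
    rw [← e1, norm_smul, norm_norm] at e4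
    have e5 : 99998 * ‖u' - σ.u‖ ≤ ‖f'‖ * ‖u' - σ.u‖ :=
      mul_le_mul_of_nonneg_right hlo (norm_nonneg _)
    linarith
  have hdt : ∀ (w : E) (k : ℝ), |dt w σ.u| ≤ k * ‖w‖ → |dt w u'| ≤ (k + 2 / 10000) * ‖w‖ := by
    intro w k hk
    have e1 : dt w u' = dt w σ.u + dt w (u' - σ.u) := by rw [dt_sub_right]; ring
    have e2 := abs_add_le (dt w σ.u) (dt w (u' - σ.u))
    have e3 := abs_dt_le w (u' - σ.u)
    have e4 : ‖w‖ * ‖u' - σ.u‖ ≤ ‖w‖ * (2 / 10000) :=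
      mul_le_mul_of_nonneg_left hdu (norm_nonneg _)
    rw [e1]
    linarith
  refine
    { hu := hu1, hr := hr', hs3 := h.hs3, h1r := ?_, h12 := h.h12, h12' := h.h12',
      h23 := h.h23, h23' := h.h23', lo := fun x y hx hy => (key x y hx hy).1,
      hi := fun x y hx hy => (key x y hx hy).2, ha := h.ha, ha' := h.ha', hb := h.hb,
      hb' := h.hb', hS := ?_, hT := ?_, hc := ?_, hSu := ?_, hau := ?_, hbu := ?_, hf := hfu }
  · change σ.s1 * r' ≤ 1 / 1000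
    linarith
  · change 6 / 10 * (σ.s1 * σ.s2) ≤ ‖cr σ.a σ.b‖
    have := h.hS
    have : 0 < σ.s1 * σ.s2 := by positivity
    linarith
  · change σ.s1 * σ.s2 * σ.s3 ≤ T σ.a σ.b (σ.c + σ.V)
    rw [C_T_low hp]
    have := h.hT
    linarith
  · change ‖σ.c + σ.V‖ ≤ 6 * σ.s3
    rw [C_cV hp, norm_smul, Real.norm_of_nonneg (by norm_num)]
    have := h.hc
    linarith
  · change |dt (cr σ.a σ.b) u'| ≤ 5 / 100 * ‖cr σ.a σ.b‖
    refine (hdt _ _ h.hSu).trans (mul_le_mul_of_nonneg_right (by norm_num) (norm_nonneg _))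
  · change |dt σ.a u'| ≤ 3 / 100 * ‖σ.a‖
    refine (hdt _ _ h.hau).trans (mul_le_mul_of_nonneg_right (by norm_num) (norm_nonneg _))
  · change |dt σ.b u'| ≤ 3 / 100 * ‖σ.b‖
    refine (hdt _ _ h.hbu).trans (mul_le_mul_of_nonneg_right (by norm_num) (norm_nonneg _))

end C

lemma Inv.base {σ : St} (h : Inv σ) : Base σ := by
  unfold Inv at h
  cases hp : σ.ph <;> rw [hp] at h
  · exact h.toBase
  · exact h.toBase
  · exact h.toBase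

lemma Inv.invU {σ : St} (h : Inv σ) (hp : σ.ph = Ph.U) : InvU σ := by
  unfold Inv at h; rwa [hp] at h
lemma Inv.invO {σ : St} (h : Inv σ) (hp : σ.ph = Ph.O) : InvO σ := by
  unfold Inv at h; rwa [hp] at h
lemma Inv.invC {σ : St} (h : Inv σ) (hp : σ.ph = Ph.C) : InvC σ := by
  unfold Inv at h; rwa [hp] at h

theorem Inv.child {σ : St} (h : Inv σ) {c1 c2 r' : ℝ}
    (hpos : Pos σ (c1 - σ.b1) (c2 - σ.b2) r') : Inv (σ.child c1 c2 r') := by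
  cases hp : σ.ph
  · have h2 := inv_child_U (h.invU hp) hp hpos
    unfold Inv
    have : (σ.child c1 c2 r').ph = Ph.O := by rw [child_U hp]
    rw [this]; exact h2
  · by_cases hA : |c1 - σ.b1| + |c2 - σ.b2| < σ.r
    · have h2 := inv_child_O1 (h.invO hp) hp hpos hA
      unfold Inv
      have : (σ.child c1 c2 r').ph = Ph.C := by rw [child_O1 hp _ _ _ hA]
      rw [this]; exact h2
    · have h2 := inv_child_O2 (h.invO hp) hp hpos hA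
      unfold Inv
      have : (σ.child c1 c2 r').ph = Ph.O := by rw [child_O2 hp _ _ _ hA]; exact hp
      rw [this]; exact h2
  · have h2 := inv_child_C (h.invC hp) hp hpos
    unfold Inv
    have : (σ.child c1 c2 r').ph = Ph.U := by rw [child_C hp]
    rw [this]; exact h2

/-- from norm and determinant bounds to `Good` -/
lemma good_of (a b c : E) (A B q1 q2 q3 : ℝ) (hB : 0 < B) (hq3 : 0 < q3)
    (h12 : q1 ≤ KH * q2) (h23 : q2 ≤ KH * q3) (hq2 : 0 < q2) (hq1 : 0 < q1)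
    (hn : ‖a‖ + ‖b‖ + ‖c‖ ≤ A * q1) (hT : B * (q1 * q2 * q3) ≤ T a b c)
    (hAB : A ^ 3 ≤ 10 ^ 8 * B) : Good a b c := by
  unfold Good
  have hK := KH_pos
  have h1 : (‖a‖ + ‖b‖ + ‖c‖) ^ 3 ≤ (A * q1) ^ 3 := by
    gcongr
  have h13 : q1 ≤ KH * (KH * q3) := h12.trans (mul_le_mul_of_nonneg_left h23 hK.le)
  have h2 : q1 * q1 * q1 ≤ q1 * (KH * q2) * (KH * (KH * q3)) := by
    gcongr
  have h3 : (A * q1) ^ 3 = A ^ 3 * (q1 * q1 * q1) := by ring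
  have h4 : A ^ 3 * (q1 * q1 * q1) ≤ (10 ^ 8 * B) * (q1 * (KH * q2) * (KH * (KH * q3))) := by
    apply mul_le_mul hAB h2 (by positivity) (by positivity)
  calc (‖a‖ + ‖b‖ + ‖c‖) ^ 3 ≤ (10 ^ 8 * B) * (q1 * (KH * q2) * (KH * (KH * q3))) := by
        rw [← h3] at h4; exact h1.trans h4
    _ = (10 ^ 8 * KH ^ 3) * (B * (q1 * q2 * q3)) := by ring
    _ ≤ _ := by gcongr

lemma good_U {σ : St} (h : InvU σ) (hp : σ.ph = Ph.U) {n1 n2 : ℝ} (hn : IsE n1 n2) :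
    Good (σ.a - n1 • σ.V) (σ.b - n2 • σ.V) (σ.c - (1 : ℝ) • σ.V) := by
  have hsge := h.s_ge
  have hs1 := h.hs1
  have hVhi := U_Vhi h hp
  apply good_of _ _ _ (39 / 10) (25 / 100) σ.s σ.s1 σ.s2 (by norm_num) h.hs2 h.s_le h.h12' h.hs1
    h.s_pos _ (U_det h hp hn) (by norm_num)
  have h1 : ‖σ.a - n1 • σ.V‖ ≤ 13 / 10 * σ.s := by
    calc ‖σ.a - n1 • σ.V‖ ≤ ‖σ.a‖ + ‖n1 • σ.V‖ := norm_sub_le _ _
      _ = ‖σ.a‖ + |n1| * ‖σ.V‖ := by rw [norm_smul]; rfl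
      _ ≤ 11 / 10 * σ.s1 + 1 * (1141 / 1000 * σ.s) := by
        have := h.ha'; have := hn.abs1; gcongr
      _ ≤ _ := by linarith
  have h2 : ‖σ.b - n2 • σ.V‖ ≤ 13 / 10 * σ.s := by
    calc ‖σ.b - n2 • σ.V‖ ≤ ‖σ.b‖ + ‖n2 • σ.V‖ := norm_sub_le _ _
      _ = ‖σ.b‖ + |n2| * ‖σ.V‖ := by rw [norm_smul]; rfl
      _ ≤ 11 / 10 * σ.s1 + 1 * (1141 / 1000 * σ.s) := by
        have := h.hb'; have := hn.abs2; gcongr
      _ ≤ _ := by linarith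
  have h3 : ‖σ.c - (1 : ℝ) • σ.V‖ ≤ 13 / 10 * σ.s := by
    rw [one_smul]
    have := norm_sub_le σ.c σ.V
    have := h.hc
    have := h.h23
    have := h.h12
    have := h.hs3
    linarith
  linarith

lemma good_O1 {σ : St} (h : InvO σ) (hp : σ.ph = Ph.O) {n1 n2 : ℝ} (hn1 : IsS n1)
    (hn2 : IsS n2) : Good (σ.a - n1 • σ.V) (σ.b - n2 • σ.V) (σ.c - (8 : ℝ) • σ.V) := by
  have hsge := h.s_ge
  have hs1 := h.hs1
  have hVhi := O_Vhi h hp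
  apply good_of _ _ _ 11 3 σ.s σ.s1 σ.s2 (by norm_num) h.hs2 h.s_le h.h12' h.hs1
    h.s_pos _ (O_det h hp hn1 hn2) (by norm_num)
  have h1 : ‖σ.a - n1 • σ.V‖ ≤ 13 / 10 * σ.s := by
    calc ‖σ.a - n1 • σ.V‖ ≤ ‖σ.a‖ + ‖n1 • σ.V‖ := norm_sub_le _ _
      _ = ‖σ.a‖ + |n1| * ‖σ.V‖ := by rw [norm_smul]; rfl
      _ ≤ 13 / 10 * σ.s1 + 1 * (10001 / 10000 * σ.s) := by
        have := h.ha'; have := hn1.abs; gcongr; exact this.le
      _ ≤ _ := by linarith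
  have h2 : ‖σ.b - n2 • σ.V‖ ≤ 13 / 10 * σ.s := by
    calc ‖σ.b - n2 • σ.V‖ ≤ ‖σ.b‖ + ‖n2 • σ.V‖ := norm_sub_le _ _
      _ = ‖σ.b‖ + |n2| * ‖σ.V‖ := by rw [norm_smul]; rfl
      _ ≤ 13 / 10 * σ.s1 + 1 * (10001 / 10000 * σ.s) := by
        have := h.hb'; have := hn2.abs; gcongr; exact this.le
      _ ≤ _ := by linarith
  have h3 : ‖σ.c - (8 : ℝ) • σ.V‖ ≤ 81 / 10 * σ.s := by
    have h1 := norm_sub_le σ.c ((8 : ℝ) • σ.V)
    rw [norm_smul, Real.norm_of_nonneg (by norm_num)] at h1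
    have := h.norm_c
    linarith
  linarith [h.s_pos]

lemma good_O2 {σ : St} (h : InvO σ) : Good σ.a σ.b σ.c := by
  have hs1 := h.hs1
  apply good_of _ _ _ 4 (2 / 10) σ.s1 σ.s2 σ.s3 (by norm_num) h.hs3 h.h12' h.h23' h.hs2
    h.hs1 _ h.hT (by norm_num)
  linarith [h.ha', h.hb', h.norm_c]

lemma good_C1 {σ : St} (h : InvC σ) : Good σ.a σ.b σ.c := by
  have hs1 := h.hs1
  apply good_of _ _ _ 23 2 σ.s1 σ.s2 σ.s3 (by norm_num) h.hs3 h.h12' h.h23' h.hs2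
    h.hs1 _ h.hT (by norm_num)
  linarith [h.ha', h.hb', h.norm_c]

lemma good_C2 {σ : St} (h : InvC σ) (hp : σ.ph = Ph.C) : Good σ.a σ.b (σ.c + σ.V) := by
  have hs1 := h.hs1
  have hs2 := h.hs2
  have hs3 := h.hs3
  apply good_of _ _ _ 43 1 σ.s1 σ.s2 σ.s3 (by norm_num) h.hs3 h.h12' h.h23' h.hs2
    h.hs1 _ _ (by norm_num)
  · have := norm_add_le σ.c σ.V
    linarith [h.ha', h.hb', h.norm_c, h.norm_V hp]
  · rw [C_T_low hp]; linarith [h.hT]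

lemma good_C3 {σ : St} (h : InvC σ) (hp : σ.ph = Ph.C) {n1 n2 : ℝ} (hn : IsE n1 n2) :
    Good (σ.a - n1 • σ.V) (σ.b - n2 • σ.V) (σ.c - (10 : ℝ) • σ.V) := by
  have hs1 := h.hs1
  have hs2 := h.hs2
  have hs3 := h.hs3
  have hV := h.norm_V hp
  apply good_of _ _ _ 263 3 σ.s1 σ.s2 σ.s3 (by norm_num) h.hs3 h.h12' h.h23' h.hs2
    h.hs1 _ _ (by norm_num)
  · have h1 : ‖σ.a - n1 • σ.V‖ ≤ 211 / 10 * σ.s1 := by
      calc ‖σ.a - n1 • σ.V‖ ≤ ‖σ.a‖ + ‖n1 • σ.V‖ := norm_sub_le _ _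
        _ = ‖σ.a‖ + |n1| * ‖σ.V‖ := by rw [norm_smul]; rfl
        _ ≤ 11 / 10 * σ.s1 + 1 * (20 * σ.s1) := by
          have := h.ha'; have := hn.abs1; gcongr
        _ ≤ _ := by linarith
    have h2 : ‖σ.b - n2 • σ.V‖ ≤ 211 / 10 * σ.s1 := by
      calc ‖σ.b - n2 • σ.V‖ ≤ ‖σ.b‖ + ‖n2 • σ.V‖ := norm_sub_le _ _
        _ = ‖σ.b‖ + |n2| * ‖σ.V‖ := by rw [norm_smul]; rfl
        _ ≤ 11 / 10 * σ.s1 + 1 * (20 * σ.s1) := by
          have := h.hb'; have := hn.abs2; gcongr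
        _ ≤ _ := by linarith
    have h3 : ‖σ.c - (10 : ℝ) • σ.V‖ ≤ 220 * σ.s1 := by
      have h1 := norm_sub_le σ.c ((10 : ℝ) • σ.V)
      rw [norm_smul, Real.norm_of_nonneg (by norm_num)] at h1
      have := h.norm_c
      linarith
    linarith
  · rw [C_T_up hp]
    have h1 := h.hT
    have h2 : -9 ≤ n1 * σ.t1 + n2 * σ.t2 := by
      have a1 := abs_le.1 h.ht1
      have a2 := abs_le.1 h.ht2
      rcases hn with ⟨h | h, h'⟩ | ⟨h, h' | h'⟩ <;> rw [h, h'] <;> linarith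
    have h3 : 0 < σ.s1 * σ.s2 * σ.s3 := by positivity
    nlinarith

end Pool.Agent.Helper746
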