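import Pool.Agent.Helper746.ChildU

set_option autoImplicit false

namespace Pool.Agent.Helper746

lemma IsS.sq {n : ℝ} (h : IsS n) : n ^ 2 = 1 := by rcases h with h | h <;> rw [h] <;> norm_num
lemma IsS.abs {n : ℝ} (h : IsS n) : |n| = 1 := by rcases h with h | h <;> rw [h] <;> norm_num
lemma IsS.mul_le {n : ℝ} (h : IsS n) (x : ℝ) : n * x ≤ |x| := by
  rcases h with h | h <;> rw [h]
  · rw [one_mul]; exact le_abs_self x
  · rw [neg_one_mul]; exact neg_le_abs x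
lemma isS_sgn (x : ℝ) : IsS (sgn x) := sgn_or x

section O
variable {σ : St}

lemma InvO.Spos (h : InvO σ) : 0 < ‖cr σ.a σ.b‖ :=
  lt_of_lt_of_le (by have := h.hs1; have := h.hs2; positivity) h.hS

lemma O_V (hp : σ.ph = Ph.O) :
    σ.V = σ.s • ((σ.g * (1 / 100) + dt σ.N σ.u) • σ.u - σ.N) := by
  unfold St.V; rw [hp]

lemma O_t (h : InvO σ) : |dt σ.N σ.u| ≤ 5 / 10 := abs_N_u h.Spos h.hSu

lemma O_dtu (h : InvO σ) (hp : σ.ph = Ph.O) : dt σ.u σ.V = σ.s * (σ.g * (1 / 100)) := by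
  rw [O_V hp]; simp only [dt_smul_right, dt_sub_right, dt_self, h.hu, dt_comm σ.u σ.N]; ring

lemma O_Vsq (h : InvO σ) (hp : σ.ph = Ph.O) :
    ‖σ.V‖ ^ 2 = σ.s ^ 2 * (1 + 1 / 10000 - dt σ.N σ.u ^ 2) := by
  rw [← dt_self, O_V hp]
  simp only [dt_smul_left, dt_smul_right, dt_sub_left, dt_sub_right]
  simp only [dt_self, h.hu, norm_N h.Spos, dt_comm σ.u σ.N]
  rcases g_or σ with hg | hg <;> rw [hg] <;> ring

lemma O_tsq (h : InvO σ) : dt σ.N σ.u ^ 2 ≤ 1 / 4 := by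
  have := O_t h
  rw [← sq_abs]
  nlinarith [abs_nonneg (dt σ.N σ.u)]

lemma O_Vlo (h : InvO σ) (hp : σ.ph = Ph.O) : 866 / 1000 * σ.s ≤ ‖σ.V‖ := by
  have h1 := O_Vsq h hp
  have h2 := O_tsq h
  apply le_of_sq_le' (norm_nonneg _)
  rw [h1]; nlinarith [sq_nonneg σ.s]

lemma O_Vhi (h : InvO σ) (hp : σ.ph = Ph.O) : ‖σ.V‖ ≤ 10001 / 10000 * σ.s := by
  have h1 := O_Vsq h hp
  have hs := h.s_pos
  apply le_of_sq_le' (by positivity)
  rw [h1]; nlinarith [sq_nonneg σ.s, mul_nonneg (sq_nonneg σ.s) (sq_nonneg (dt σ.N σ.u))]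

lemma O_gt (h : InvO σ) : |σ.g * dt σ.N σ.u| ≤ 5 / 10 := by
  have := O_t h
  rw [abs_mul]; rcases g_or σ with hg | hg <;> rw [hg] <;> simpa using this

lemma O_dtSV (h : InvO σ) (hp : σ.ph = Ph.O) :
    dt (cr σ.a σ.b) σ.V ≤ -(745 / 1000) * (σ.s * ‖cr σ.a σ.b‖) := by
  have hS := h.Spos
  have hs := h.s_pos
  have e1 : dt (cr σ.a σ.b) σ.u = ‖cr σ.a σ.b‖ * dt σ.N σ.u := by
    rw [dt_N]; field_simp
  have e2 : dt (cr σ.a σ.b) σ.N = ‖cr σ.a σ.b‖ := by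
    rw [dt_comm, dt_N, dt_self]; field_simp
  have h1 : dt (cr σ.a σ.b) σ.V =
      - ((σ.s * ‖cr σ.a σ.b‖) * (1 - (1 / 100) * (σ.g * dt σ.N σ.u) - dt σ.N σ.u ^ 2)) := by
    rw [O_V hp]
    simp only [dt_smul_right, dt_sub_right]
    rw [e1, e2]; ring
  rw [h1]
  have h2 := (abs_le.1 (O_gt h)).2
  have h3 := O_tsq h
  have h4 : (σ.s * ‖cr σ.a σ.b‖) * (745 / 1000) ≤
      (σ.s * ‖cr σ.a σ.b‖) * (1 - (1 / 100) * (σ.g * dt σ.N σ.u) - dt σ.N σ.u ^ 2) := by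
    apply mul_le_mul_of_nonneg_left _ (by positivity)
    linarith
  linarith

lemma O_dtNw (n1 n2 : ℝ) : dt σ.N (n2 • σ.a - n1 • σ.b) = 0 := by
  simp [N_a, N_b]

lemma O_crVw (h : InvO σ) (hp : σ.ph = Ph.O) (n1 n2 : ℝ) :
    7 / 10 * (σ.s * ‖n2 • σ.a - n1 • σ.b‖) ≤ ‖cr σ.V (n2 • σ.a - n1 • σ.b)‖ := by
  set w := n2 • σ.a - n1 • σ.b with hw
  have hNw : dt σ.N w = 0 := O_dtNw n1 n2
  have hs := h.s_pos
  apply le_of_sq_le' (norm_nonneg _)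
  have e1 : dt σ.V w = σ.s * ((σ.g * (1 / 100) + dt σ.N σ.u) * dt σ.u w) := by
    rw [O_V hp]; simp only [dt_smul_left, dt_sub_left, hNw]; ring
  rw [norm_cr_sq, e1, O_Vsq h hp]
  have h1 : dt σ.u w ^ 2 ≤ ‖w‖ ^ 2 := by
    have := abs_dt_le σ.u w
    rw [h.hu, one_mul] at this
    rw [← sq_abs (dt σ.u w)]
    exact pow_le_pow_left₀ (abs_nonneg _) this 2
  have h2 := (abs_le.1 (O_gt h)).2
  have h3 := O_tsq h
  have hg2 : σ.g ^ 2 = 1 := by rcases g_or σ with hg | hg <;> rw [hg] <;> norm_num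
  have e2 : (σ.g * (1 / 100) + dt σ.N σ.u) ^ 2 =
      1 / 10000 + 2 / 100 * (σ.g * dt σ.N σ.u) + dt σ.N σ.u ^ 2 := by
    have : (σ.g * (1 / 100) + dt σ.N σ.u) ^ 2 =
      σ.g ^ 2 * (1 / 10000) + 2 / 100 * (σ.g * dt σ.N σ.u) + dt σ.N σ.u ^ 2 := by ring
    rw [this, hg2]; ring
  have h4 : (σ.s * ((σ.g * (1 / 100) + dt σ.N σ.u) * dt σ.u w)) ^ 2 ≤
      σ.s ^ 2 * (σ.g * (1 / 100) + dt σ.N σ.u) ^ 2 * ‖w‖ ^ 2 := by
    calc (σ.s * ((σ.g * (1 / 100) + dt σ.N σ.u) * dt σ.u w)) ^ 2 =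
        σ.s ^ 2 * (σ.g * (1 / 100) + dt σ.N σ.u) ^ 2 * dt σ.u w ^ 2 := by ring
      _ ≤ _ := mul_le_mul_of_nonneg_left h1 (by positivity)
  rw [e2] at h4
  have h5 : 0 ≤ σ.s ^ 2 * ‖w‖ ^ 2 := by positivity
  nlinarith [mul_le_mul_of_nonneg_left h2 h5, mul_le_mul_of_nonneg_left h3 h5]

lemma O_Sle (h : InvO σ) : ‖cr σ.a σ.b‖ ≤ 1 / 10000 * (σ.s * σ.s1) := by
  have hs1 := h.hs1
  have hs2 := h.hs2
  have h1 := norm_cr_le σ.a σ.b
  have h2 : ‖σ.a‖ * ‖σ.b‖ ≤ (13 / 10 * σ.s1) * (11 / 10 * σ.s2) := by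
    rcases h.ht with ⟨-, h0⟩ | ⟨h0, -⟩
    · exact mul_le_mul h.ha' (h.hb0 h0) (norm_nonneg _) (by positivity)
    · rw [mul_comm]
      exact mul_le_mul h.hb' (h.ha0 h0) (norm_nonneg _) (by positivity)
  have h3 : σ.s1 * (1000 * σ.s2) ≤ σ.s1 * σ.s1 := mul_le_mul_of_nonneg_left h.h12 hs1.le
  have h4 : (1000 * σ.s1) * σ.s1 ≤ σ.s * σ.s1 := mul_le_mul_of_nonneg_right h.s_ge hs1.le
  nlinarith

lemma O_S'lo (h : InvO σ) (hp : σ.ph = Ph.O) {n1 n2 : ℝ} (hn1 : IsS n1) (hn2 : IsS n2) :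
    75 / 100 * (σ.s * σ.s1) ≤ ‖cr σ.a σ.b + cr σ.V (n2 • σ.a - n1 • σ.b)‖ := by
  have h1 := O_crVw h hp n1 n2
  have h2 := O_Sle h
  have h3 : ‖cr σ.V (n2 • σ.a - n1 • σ.b)‖ ≤
      ‖cr σ.a σ.b + cr σ.V (n2 • σ.a - n1 • σ.b)‖ + ‖cr σ.a σ.b‖ := by
    have := norm_sub_le (cr σ.a σ.b + cr σ.V (n2 • σ.a - n1 • σ.b)) (cr σ.a σ.b)
    simpa using this
  have hs := h.s_pos
  have h4 := mul_le_mul_of_nonneg_left (h.hw n1 n2 hn1 hn2) hs.le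
  have h5 := mul_pos hs h.hs1
  linarith

lemma O_S'u (h : InvO σ) (hp : σ.ph = Ph.O) {n1 n2 : ℝ} (hn1 : IsS n1) (hn2 : IsS n2) :
    |dt (cr σ.a σ.b + cr σ.V (n2 • σ.a - n1 • σ.b)) σ.u| ≤
      25 / 1000 * ‖cr σ.a σ.b + cr σ.V (n2 • σ.a - n1 • σ.b)‖ := by
  have hS := h.Spos
  have h2 := O_Sle h
  have h3 := O_S'lo h hp hn1 hn2
  have hs := h.s_pos
  set w := n2 • σ.a - n1 • σ.b with hw
  have h4 : dt (cr σ.V w) σ.u = - (σ.s * T σ.N w σ.u) := by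
    change T σ.V w σ.u = _
    rw [O_V hp, T_smul_left, T_sub_left, T_smul_left]
    have : T σ.u w σ.u = 0 := T_self_13 _ _
    rw [this]; ring
  have h5 : |T σ.N w σ.u| ≤ 18 / 1000 * σ.s1 := by
    have e : T σ.N w σ.u = ‖cr σ.a σ.b‖⁻¹ * T (cr σ.a σ.b) w σ.u := by
      unfold St.N; rw [T_smul_left]
    rw [e, abs_mul, abs_of_nonneg (by positivity), inv_mul_le_iff₀ hS]
    have := h.hTw n1 n2 hn1 hn2
    linarith
  rw [dt_add_left, h4]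
  have h7 := abs_add_le (dt (cr σ.a σ.b) σ.u) (-(σ.s * T σ.N w σ.u))
  rw [abs_neg, abs_mul, abs_of_pos hs] at h7
  have h8 := h.hSu
  have h9 := mul_le_mul_of_nonneg_left h5 hs.le
  have h10 := mul_pos hs h.hs1
  linarith

/-- determinant after the push of phase `O` -/
lemma O_det (h : InvO σ) (hp : σ.ph = Ph.O) {n1 n2 : ℝ} (hn1 : IsS n1) (hn2 : IsS n2) :
    3 * (σ.s * σ.s1 * σ.s2) ≤
      T (σ.a - n1 • σ.V) (σ.b - n2 • σ.V) (σ.c - (8 : ℝ) • σ.V) := by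
  rw [T_push]
  have hs := h.s_pos
  have hs1 := h.hs1
  have hs2 := h.hs2
  have hs3 := h.hs3
  have h1 := O_dtSV h hp
  have e : σ.c = (σ.c - σ.t1 • σ.a - σ.t2 • σ.b) + σ.t1 • σ.a + σ.t2 • σ.b := by module
  have h2 : T σ.V (n2 • σ.a - n1 • σ.b) σ.c = T σ.V (n2 • σ.a - n1 • σ.b)
      (σ.c - σ.t1 • σ.a - σ.t2 • σ.b) + (σ.t1 * n1 + σ.t2 * n2) * dt (cr σ.a σ.b) σ.V := by
    conv_lhs => rw [e]
    exact T_span _ _ _ _ _ _ _ _ _ rfl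
  rw [h2]
  have h3 : |T σ.V (n2 • σ.a - n1 • σ.b) (σ.c - σ.t1 • σ.a - σ.t2 • σ.b)| ≤
      (10001 / 10000 * σ.s) * (116 / 100 * σ.s1) * (12 / 10 * σ.s2) := by
    refine (abs_T_le _ _ _).trans ?_
    gcongr
    · exact O_Vhi h hp
    · exact h.hw' n1 n2 hn1 hn2
    · exact h.hc
  have h3' := (abs_le.1 h3).1
  have h4 : 0 ≤ T σ.a σ.b σ.c := le_trans (by positivity) h.hT
  have h5 : σ.t1 * n1 + σ.t2 * n2 ≤ 1 := by
    rcases h.ht with ⟨h1 | h1, h2⟩ | ⟨h1, h2 | h2⟩ <;> rcases hn1 with hn1 | hn1 <;>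
      rcases hn2 with hn2 | hn2 <;> rw [h1, h2, hn1, hn2] <;> norm_num
  have h6 : (8 - (σ.t1 * n1 + σ.t2 * n2)) * dt (cr σ.a σ.b) σ.V ≤
      7 * (-(745 / 1000) * (σ.s * ‖cr σ.a σ.b‖)) := by
    have hneg : dt (cr σ.a σ.b) σ.V ≤ 0 := by
      have : 0 ≤ σ.s * ‖cr σ.a σ.b‖ := by positivity
      linarith
    nlinarith
  have h7 : σ.s * (86 / 100 * (σ.s1 * σ.s2)) ≤ σ.s * ‖cr σ.a σ.b‖ :=
    mul_le_mul_of_nonneg_left h.hS hs.le
  have h8 : 0 < σ.s * σ.s1 * σ.s2 := by positivity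
  nlinarith

lemma O_dtPV (h : InvO σ) (hp : σ.ph = Ph.O) {x y : ℝ} (hx : |x| ≤ σ.r)
    (hy : |y| ≤ σ.r) :
    (σ.g = 1 → 0 ≤ dt (σ.f + x • σ.a + y • σ.b) σ.V) ∧
    (σ.g = -1 → dt (σ.f + x • σ.a + y • σ.b) σ.V ≤ -900 * σ.s) := by
  have hs := h.s_pos
  have hd : ‖x • σ.a + y • σ.b‖ ≤ 1 / 100 := by
    have := norm_comb_le σ.a σ.b x y _ _ h.ha' h.hb' hx hy
    have := h.h1r
    nlinarith
  have e : σ.f + x • σ.a + y • σ.b = (100000 : ℝ) • σ.u +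
      ((σ.f - (100000 : ℝ) • σ.u) + (x • σ.a + y • σ.b)) := by module
  have hd2 : ‖(σ.f - (100000 : ℝ) • σ.u) + (x • σ.a + y • σ.b)‖ ≤ 5 := by
    have h1 := norm_add_le (σ.f - (100000 : ℝ) • σ.u) (x • σ.a + y • σ.b)
    have h2 := h.hf
    have h3 : 0 ≤ σ.s1 * σ.r := by have := h.hs1; have := h.hr; positivity
    linarith
  have h1 : |dt ((σ.f - (100000 : ℝ) • σ.u) + (x • σ.a + y • σ.b)) σ.V| ≤
      5 * (10001 / 10000 * σ.s) :=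
    (abs_dt_le _ _).trans (mul_le_mul hd2 (O_Vhi h hp) (norm_nonneg _) (by norm_num))
  have h2 := abs_le.1 h1
  rw [e, dt_add_left, dt_smul_left, O_dtu h hp]
  constructor
  · intro hg; rw [hg]
    linarith [h2.1]
  · intro hg; rw [hg]
    linarith [h2.2]

lemma O_range (h : InvO σ) (hp : σ.ph = Ph.O) {x y : ℝ} (hx : |x| ≤ σ.r)
    (hy : |y| ≤ σ.r) (t : ℝ) (ht : 0 ≤ t) (ht' : t ≤ σ.r) :
    99998 ≤ ‖σ.f + x • σ.a + y • σ.b + t • σ.V‖ ∧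
      ‖σ.f + x • σ.a + y • σ.b + t • σ.V‖ ≤ 100002 := by
  have hs := h.s_pos
  have hts : t * σ.s ≤ 1 := le_trans (mul_le_mul_of_nonneg_right ht' hs.le)
    (by linarith [h.s_r])
  have hV := O_Vhi h hp
  obtain ⟨h1, h2⟩ := O_dtPV h hp hx hy
  apply range_push h.toBase h.ha' h.hb' hx hy _ t ht _ h1
  · intro hg
    have h3 := h2 hg
    have h4 : t * ‖σ.V‖ ^ 2 ≤ t * (10001 / 10000 * σ.s) ^ 2 := by gcongr
    nlinarith [mul_le_mul_of_nonneg_right hts hs.le]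
  · have : t * ‖σ.V‖ ≤ t * (10001 / 10000 * σ.s) := by gcongr
    linarith

lemma child_O1 (hp : σ.ph = Ph.O) (c1 c2 r' : ℝ)
    (hA : |c1 - σ.b1| + |c2 - σ.b2| < σ.r) : σ.child c1 c2 r' =
    { ph := Ph.C, b1 := c1, b2 := c2, r := r',
      a := σ.a - sgn (c1 - σ.b1) • σ.V, b := σ.b - sgn (c2 - σ.b2) • σ.V,
      c := σ.c - (8 : ℝ) • σ.V,
      f := σ.f + (c1 - σ.b1) • σ.a + (c2 - σ.b2) • σ.b +
        (σ.r - sgn (c1 - σ.b1) * (c1 - σ.b1) - sgn (c2 - σ.b2) * (c2 - σ.b2)) • σ.V, u := σ.u,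
      s1 := σ.s, s2 := σ.s1, s3 := σ.s2,
      t1 := σ.t1 + σ.t2 ^ 2 * sgn (c1 - σ.b1) * (8 - sgn (c2 - σ.b2) * σ.t2),
      t2 := σ.t2 + σ.t1 ^ 2 * sgn (c2 - σ.b2) * (8 - sgn (c1 - σ.b1) * σ.t1) } := by
  unfold St.child
  rw [hp]; simp only []; rw [if_pos hA]

lemma child_O2 (hp : σ.ph = Ph.O) (c1 c2 r' : ℝ)
    (hA : ¬ |c1 - σ.b1| + |c2 - σ.b2| < σ.r) : σ.child c1 c2 r' =
    { σ with b1 := c1, b2 := c2, r := r',
             f := σ.f + (c1 - σ.b1) • σ.a + (c2 - σ.b2) • σ.b } := by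
  unfold St.child
  rw [hp]; simp only []; rw [if_neg hA]

theorem inv_child_O1 (h : InvO σ) (hp : σ.ph = Ph.O) {c1 c2 r' : ℝ}
    (hpos : Pos σ (c1 - σ.b1) (c2 - σ.b2) r')
    (hA : |c1 - σ.b1| + |c2 - σ.b2| < σ.r) : InvC (σ.child c1 c2 r') := by
  rw [child_O1 hp _ _ _ hA]
  set X := c1 - σ.b1
  set Y := c2 - σ.b2
  set n1 := sgn X with hn1'
  set n2 := sgn Y with hn2'
  have hn1 : IsS n1 := isS_sgn X
  have hn2 : IsS n2 := isS_sgn Y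
  have hs := h.s_pos
  have hs1 := h.hs1
  have hs2 := h.hs2
  have hs3 := h.hs3
  have hsge := h.s_ge
  have hVlo := O_Vlo h hp
  have hVhi := O_Vhi h hp
  have hsr := Pos.sr h.toBase hpos
  have hrr := h.s_r
  have hS' : cr (σ.a - n1 • σ.V) (σ.b - n2 • σ.V) =
      cr σ.a σ.b + cr σ.V (n2 • σ.a - n1 • σ.b) := cr_push _ _ _ _ _
  have hr' := hpos.hr'
  have hA' : |X| + |Y| + 100 * r' ≤ σ.r := by
    rcases hpos.hA with h | h
    · exact h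
    · linarith
  have key : ∀ x y : ℝ, |x| ≤ r' → |y| ≤ r' →
      99998 ≤ ‖σ.f + X • σ.a + Y • σ.b + (σ.r - n1 * X - n2 * Y) • σ.V +
        x • (σ.a - n1 • σ.V) + y • (σ.b - n2 • σ.V)‖ ∧
      ‖σ.f + X • σ.a + Y • σ.b + (σ.r - n1 * X - n2 * Y) • σ.V +
        x • (σ.a - n1 • σ.V) + y • (σ.b - n2 • σ.V)‖ ≤ 100002 := by
    intro x y hx hy
    obtain ⟨hx1, hy1⟩ := hpos.near hx hy
    have e : σ.f + X • σ.a + Y • σ.b + (σ.r - n1 * X - n2 * Y) • σ.V +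
        x • (σ.a - n1 • σ.V) + y • (σ.b - n2 • σ.V) =
        σ.f + (X + x) • σ.a + (Y + y) • σ.b + (σ.r - (n1 * (X + x) + n2 * (Y + y))) • σ.V := by
      module
    rw [e]
    apply O_range h hp hx1 hy1
    · have h1 := hn1.mul_le (X + x)
      have h2 := hn2.mul_le (Y + y)
      have h3 := abs_add_le X x
      have h4 := abs_add_le Y y
      linarith
    · have h1 := sgn_mul_near (X := X) (x := x) (r' := r') (by linarith [hpos.hX]) hx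
      have h2 := sgn_mul_near (X := Y) (x := y) (r' := r') (by linarith [hpos.hY]) hy
      linarith
  have hacol : ∀ (a : E) (n : ℝ), IsS n → ‖a‖ ≤ 13 / 10 * σ.s1 →
      (8 / 10 * σ.s ≤ ‖a - n • σ.V‖ ∧ ‖a - n • σ.V‖ ≤ 11 / 10 * σ.s ∧
      |dt (a - n • σ.V) σ.u| ≤ 14 / 1000 * ‖a - n • σ.V‖) := by
    intro a n hn ha
    have e1 : ‖n • σ.V‖ = ‖σ.V‖ := by rw [norm_smul, Real.norm_eq_abs, hn.abs, one_mul]
    have e2 : ‖a - n • σ.V‖ ≤ ‖a‖ + ‖σ.V‖ := by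
      have := norm_sub_le a (n • σ.V); rwa [e1] at this
    have e3 : ‖σ.V‖ ≤ ‖a - n • σ.V‖ + ‖a‖ := by
      have := norm_sub_le a (a - n • σ.V)
      rw [sub_sub_cancel, e1] at this; linarith
    have e4 : |dt (a - n • σ.V) σ.u| ≤ ‖a‖ + σ.s * (1 / 100) := by
      rw [dt_sub_left, dt_smul_left, dt_comm σ.V, O_dtu h hp]
      have f1 := abs_sub (dt a σ.u) (n * (σ.s * (σ.g * (1 / 100))))
      have f2 : |n * (σ.s * (σ.g * (1 / 100)))| = σ.s * (1 / 100) := by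
        rw [abs_mul, hn.abs, abs_mul, abs_mul, abs_of_pos hs]
        have : |σ.g| = 1 := by rcases g_or σ with hg | hg <;> simp [hg]
        rw [this, abs_of_pos (by norm_num : (0 : ℝ) < 1 / 100)]; ring
      have f3 := abs_dt_le a σ.u
      rw [h.hu, mul_one] at f3
      rw [f2] at f1
      linarith
    refine ⟨by linarith, by linarith, by linarith⟩
  have hT1 : σ.t1 * σ.t2 = 0 := by
    rcases h.ht with ⟨-, h2⟩ | ⟨h1, -⟩
    · rw [h2, mul_zero]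
    · rw [h1, zero_mul]
  obtain ⟨ha1, ha2, ha3⟩ := hacol σ.a n1 hn1 h.ha'
  obtain ⟨hb1, hb2, hb3⟩ := hacol σ.b n2 hn2 h.hb'
  refine
    { hu := h.hu, hr := hr', hs3 := hs2, h1r := hsr, h12 := hsge, h12' := h.s_le, h23 := h.h12,
      h23' := h.h12', lo := fun x y hx hy => (key x y hx hy).1,
      hi := fun x y hx hy => (key x y hx hy).2, ha := ha1, ha' := ha2, hb := hb1, hb' := hb2,
      hS := ?_, hT := ?_, hSu := ?_, hau := ha3, hbu := hb3, hc := ?_, ht1 := ?_, ht2 := ?_,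
      hf := ?_ }
  · change 7 / 10 * (σ.s * σ.s1) ≤ ‖cr (σ.a - n1 • σ.V) (σ.b - n2 • σ.V)‖
    rw [hS']
    have := O_S'lo h hp hn1 hn2
    have e5 : 0 ≤ σ.s * σ.s1 := by positivity
    linarith
  · change 2 * (σ.s * σ.s1 * σ.s2) ≤
      T (σ.a - n1 • σ.V) (σ.b - n2 • σ.V) (σ.c - (8 : ℝ) • σ.V)
    have := O_det h hp hn1 hn2
    have e5 : 0 ≤ σ.s * σ.s1 * σ.s2 := by positivity
    linarith
  · change |dt (cr (σ.a - n1 • σ.V) (σ.b - n2 • σ.V)) σ.u| ≤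
      25 / 1000 * ‖cr (σ.a - n1 • σ.V) (σ.b - n2 • σ.V)‖
    rw [hS']
    exact O_S'u h hp hn1 hn2
  · change ‖σ.c - (8 : ℝ) • σ.V - (σ.t1 + σ.t2 ^ 2 * n1 * (8 - n2 * σ.t2)) • (σ.a - n1 • σ.V) -
      (σ.t2 + σ.t1 ^ 2 * n2 * (8 - n1 * σ.t1)) • (σ.b - n2 • σ.V)‖ ≤ 112 / 10 * σ.s2
    have hcc := h.hc
    rcases h.ht with ⟨h1, h2⟩ | ⟨h1, h2⟩
    · have ht1 : IsS σ.t1 := h1
      have hb := h.hb0 h2
      have e : σ.c - (8 : ℝ) • σ.V - (σ.t1 + σ.t2 ^ 2 * n1 * (8 - n2 * σ.t2)) •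
          (σ.a - n1 • σ.V) - (σ.t2 + σ.t1 ^ 2 * n2 * (8 - n1 * σ.t1)) • (σ.b - n2 • σ.V) =
          (σ.c - σ.t1 • σ.a - σ.t2 • σ.b) - (n2 * (8 - n1 * σ.t1)) • σ.b := by
        rw [ht1.sq, h2]
        have hn22 := hn2.sq
        have : (8 : ℝ) = σ.t1 * n1 + (n2 * (8 - n1 * σ.t1)) * n2 := by
          have : σ.t1 * n1 + (n2 * (8 - n1 * σ.t1)) * n2 =
            σ.t1 * n1 + n2 ^ 2 * (8 - n1 * σ.t1) := by ring
          rw [this, hn22]; ring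
        have h8 : (8 : ℝ) • σ.V = (σ.t1 * n1 + (n2 * (8 - n1 * σ.t1)) * n2) • σ.V := by
          rw [← this]
        rw [h8]
        module
      rw [e]
      have e2 := norm_sub_le (σ.c - σ.t1 • σ.a - σ.t2 • σ.b) ((n2 * (8 - n1 * σ.t1)) • σ.b)
      have e3 : ‖(n2 * (8 - n1 * σ.t1)) • σ.b‖ ≤ 9 * (11 / 10 * σ.s2) := by
        rw [norm_smul, Real.norm_eq_abs, abs_mul, hn2.abs, one_mul]
        apply mul_le_mul _ hb (norm_nonneg _) (by norm_num)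
        rcases hn1 with hh | hh <;> rcases ht1 with ht | ht <;> rw [hh, ht] <;> norm_num
      linarith
    · have ht2 : IsS σ.t2 := h2
      have ha := h.ha0 h1
      have e : σ.c - (8 : ℝ) • σ.V - (σ.t1 + σ.t2 ^ 2 * n1 * (8 - n2 * σ.t2)) •
          (σ.a - n1 • σ.V) - (σ.t2 + σ.t1 ^ 2 * n2 * (8 - n1 * σ.t1)) • (σ.b - n2 • σ.V) =
          (σ.c - σ.t1 • σ.a - σ.t2 • σ.b) - (n1 * (8 - n2 * σ.t2)) • σ.a := by
        rw [ht2.sq, h1]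
        have hn12 := hn1.sq
        have : (8 : ℝ) = σ.t2 * n2 + (n1 * (8 - n2 * σ.t2)) * n1 := by
          have : σ.t2 * n2 + (n1 * (8 - n2 * σ.t2)) * n1 =
            σ.t2 * n2 + n1 ^ 2 * (8 - n2 * σ.t2) := by ring
          rw [this, hn12]; ring
        have h8 : (8 : ℝ) • σ.V = (σ.t2 * n2 + (n1 * (8 - n2 * σ.t2)) * n1) • σ.V := by
          rw [← this]
        rw [h8]
        module
      rw [e]
      have e2 := norm_sub_le (σ.c - σ.t1 • σ.a - σ.t2 • σ.b) ((n1 * (8 - n2 * σ.t2)) • σ.a)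
      have e3 : ‖(n1 * (8 - n2 * σ.t2)) • σ.a‖ ≤ 9 * (11 / 10 * σ.s2) := by
        rw [norm_smul, Real.norm_eq_abs, abs_mul, hn1.abs, one_mul]
        apply mul_le_mul _ ha (norm_nonneg _) (by norm_num)
        rcases hn2 with hh | hh <;> rcases ht2 with ht | ht <;> rw [hh, ht] <;> norm_num
      linarith
  · change |σ.t1 + σ.t2 ^ 2 * n1 * (8 - n2 * σ.t2)| ≤ 9
    rcases h.ht with ⟨h1, h2⟩ | ⟨h1, h2⟩
    · rw [h2]
      rcases h1 with h1 | h1 <;> rw [h1] <;> norm_num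
    · rw [h1]
      rcases h2 with h2 | h2 <;> rcases hn1 with hh | hh <;> rcases hn2 with hk | hk <;>
        rw [h2, hh, hk] <;> norm_num
  · change |σ.t2 + σ.t1 ^ 2 * n2 * (8 - n1 * σ.t1)| ≤ 9
    rcases h.ht with ⟨h1, h2⟩ | ⟨h1, h2⟩
    · rw [h2]
      rcases h1 with h2 | h2 <;> rcases hn1 with hh | hh <;> rcases hn2 with hk | hk <;>
        rw [h2, hh, hk] <;> norm_num
    · rw [h1]
      rcases h2 with h1 | h1 <;> rw [h1] <;> norm_num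
  · change ‖σ.f + X • σ.a + Y • σ.b + (σ.r - n1 * X - n2 * Y) • σ.V - (100000 : ℝ) • σ.u‖ ≤ 6
    have e0 : σ.f + X • σ.a + Y • σ.b + (σ.r - n1 * X - n2 * Y) • σ.V - (100000 : ℝ) • σ.u =
        (σ.f - (100000 : ℝ) • σ.u) + (X • σ.a + Y • σ.b) + (σ.r - (n1 * X + n2 * Y)) • σ.V := by
      module
    rw [e0]
    obtain ⟨hX, hY⟩ := hpos.near (x := 0) (y := 0) (by simpa using hr'.le) (by simpa using hr'.le)
    rw [add_zero] at hX hY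
    have e1 := h.hf
    have e2 := norm_comb_le σ.a σ.b X Y _ _ h.ha' h.hb' hX hY
    have e3 : ‖(σ.r - (n1 * X + n2 * Y)) • σ.V‖ ≤ 10001 / 10000 := by
      have a1 : n1 * X = |X| := sgn_mul_self X
      have a2 : n2 * Y = |Y| := sgn_mul_self Y
      have a3 := abs_nonneg X
      have a4 := abs_nonneg Y
      rw [norm_smul, Real.norm_of_nonneg (by rw [a1, a2]; linarith)]
      calc (σ.r - (n1 * X + n2 * Y)) * ‖σ.V‖ ≤ σ.r * (10001 / 10000 * σ.s) := by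
            apply mul_le_mul _ hVhi (norm_nonneg _) h.hr.le
            rw [a1, a2]; linarith
        _ ≤ _ := by linarith
    have e4 := norm_add₃_le (a := (σ.f - (100000 : ℝ) • σ.u)) (b := X • σ.a + Y • σ.b)
      (c := (σ.r - (n1 * X + n2 * Y)) • σ.V)
    have := h.h1r
    have h3 : 0 ≤ σ.s1 * σ.r := by have := h.hr; positivity
    linarith

theorem inv_child_O2 (h : InvO σ) (hp : σ.ph = Ph.O) {c1 c2 r' : ℝ}
    (hpos : Pos σ (c1 - σ.b1) (c2 - σ.b2) r')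
    (hA : ¬ |c1 - σ.b1| + |c2 - σ.b2| < σ.r) : InvO (σ.child c1 c2 r') := by
  rw [child_O2 hp _ _ _ hA]
  set X := c1 - σ.b1
  set Y := c2 - σ.b2
  have hr' := hpos.hr'
  have hs1 := h.hs1
  have h1r' : σ.s1 * r' ≤ σ.s1 * σ.r / 1000 := by
    have := mul_le_mul_of_nonneg_left hpos.h0 hs1.le
    linarith
  have h1r := h.h1r
  have h1r0 : 0 < σ.s1 * σ.r := by have := h.hr; positivity
  have key : ∀ x y : ℝ, |x| ≤ r' → |y| ≤ r' →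
      99998 ≤ ‖σ.f + X • σ.a + Y • σ.b + x • σ.a + y • σ.b‖ ∧
      ‖σ.f + X • σ.a + Y • σ.b + x • σ.a + y • σ.b‖ ≤ 100002 := by
    intro x y hx hy
    obtain ⟨hx1, hy1⟩ := hpos.near hx hy
    have e : σ.f + X • σ.a + Y • σ.b + x • σ.a + y • σ.b =
        σ.f + (X + x) • σ.a + (Y + y) • σ.b := by
      module
    rw [e]
    exact ⟨h.lo _ _ hx1 hy1, h.hi _ _ hx1 hy1⟩
  obtain ⟨hX, hY⟩ := hpos.near (x := 0) (y := 0) (by simpa using hr'.le) (by simpa using hr'.le)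
  rw [add_zero] at hX hY
  refine
    { hu := h.hu, hr := hr', hs3 := h.hs3, h1r := ?_, h12 := h.h12, h12' := h.h12',
      h23 := h.h23, h23' := h.h23', lo := fun x y hx hy => (key x y hx hy).1,
      hi := fun x y hx hy => (key x y hx hy).2, ha' := h.ha', hb' := h.hb', ht := h.ht,
      ha0 := h.ha0, hb0 := h.hb0, hw := h.hw, hw' := h.hw', hTw := h.hTw, hS := h.hS,
      hT := h.hT, hSu := h.hSu, hc := h.hc, hf := ?_ }
  · change σ.s1 * r' ≤ 1 / 1000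
    linarith
  · change ‖σ.f + X • σ.a + Y • σ.b - (100000 : ℝ) • σ.u‖ ≤ 4 - 4 * (σ.s1 * r')
    have e0 : σ.f + X • σ.a + Y • σ.b - (100000 : ℝ) • σ.u =
        (σ.f - (100000 : ℝ) • σ.u) + (X • σ.a + Y • σ.b) := by module
    rw [e0]
    have e1 := h.hf
    have e2 := norm_comb_le σ.a σ.b X Y _ _ h.ha' h.hb' hX hY
    have e4 := norm_add_le (σ.f - (100000 : ℝ) • σ.u) (X • σ.a + Y • σ.b)
    linarith

end O

end Pool.Agent.Helper746
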