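import Pool.Agent.Helper746.Defs

set_option autoImplicit false

namespace Pool.Agent.Helper746

lemma le_of_sq_le' {x y : ℝ} (hy : 0 ≤ y) (h : x ^ 2 ≤ y ^ 2) : x ≤ y := by
  by_contra hc
  push Not at hc
  nlinarith

lemma norm_N {σ : St} (h : 0 < ‖cr σ.a σ.b‖) : ‖σ.N‖ = 1 := by
  unfold St.N
  rw [norm_smul, norm_inv, norm_norm, inv_mul_cancel₀ h.ne']

lemma dt_N (σ : St) (w : E) : dt σ.N w = ‖cr σ.a σ.b‖⁻¹ * dt (cr σ.a σ.b) w := by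
  unfold St.N; simp

lemma N_a (σ : St) : dt σ.N σ.a = 0 := by rw [dt_N]; simp
lemma N_b (σ : St) : dt σ.N σ.b = 0 := by rw [dt_N]; simp

lemma S_eq {σ : St} (h : 0 < ‖cr σ.a σ.b‖) : cr σ.a σ.b = ‖cr σ.a σ.b‖ • σ.N := by
  unfold St.N
  rw [smul_smul, mul_inv_cancel₀ h.ne', one_smul]

lemma abs_N_u {σ : St} (h : 0 < ‖cr σ.a σ.b‖) {k : ℝ}
    (hk : |dt (cr σ.a σ.b) σ.u| ≤ k * ‖cr σ.a σ.b‖) : |dt σ.N σ.u| ≤ k := by
  rw [dt_N, abs_mul, abs_of_nonneg (by positivity), inv_mul_le_iff₀ h]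
  linarith

lemma IsE.abs1 {n1 n2 : ℝ} (h : IsE n1 n2) : |n1| ≤ 1 := by
  rcases h with ⟨h | h, -⟩ | ⟨h, -⟩ <;> simp [h]
lemma IsE.abs2 {n1 n2 : ℝ} (h : IsE n1 n2) : |n2| ≤ 1 := by
  rcases h with ⟨-, h⟩ | ⟨-, h | h⟩ <;> simp [h]
lemma IsE.sq {n1 n2 : ℝ} (h : IsE n1 n2) : n1 ^ 2 + n2 ^ 2 = 1 := by
  rcases h with ⟨h | h, h'⟩ | ⟨h, h' | h'⟩ <;> simp [h, h']

section U
variable {σ : St}

lemma InvU.Spos (h : InvU σ) : 0 < ‖cr σ.a σ.b‖ :=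
  lt_of_lt_of_le (by have := h.hs1; have := h.hs2; positivity) h.hS

lemma U_V (hp : σ.ph = Ph.U) : σ.V = σ.s • (σ.g • σ.u - (1 / 2 : ℝ) • σ.N) := by
  unfold St.V; rw [hp]

lemma U_dtu (h : InvU σ) (hp : σ.ph = Ph.U) :
    dt σ.u σ.V = σ.s * (σ.g - 1 / 2 * dt σ.N σ.u) := by
  rw [U_V hp]; simp only [dt_smul_right, dt_sub_right, dt_self, h.hu, dt_comm σ.u σ.N]; ring

lemma U_Vsq (h : InvU σ) (hp : σ.ph = Ph.U) :
    ‖σ.V‖ ^ 2 = σ.s ^ 2 * (5 / 4 - σ.g * dt σ.N σ.u) := by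
  rw [← dt_self, U_V hp]
  simp only [dt_smul_left, dt_smul_right, dt_sub_left, dt_sub_right]
  simp only [dt_self, h.hu, norm_N h.Spos, dt_comm σ.u σ.N]
  rcases g_or σ with hg | hg <;> rw [hg] <;> ring

lemma U_gt (h : InvU σ) : |σ.g * dt σ.N σ.u| ≤ 5 / 100 := by
  have := abs_N_u h.Spos h.hSu
  rw [abs_mul]; rcases g_or σ with hg | hg <;> rw [hg] <;> simpa using this

lemma U_Vlo (h : InvU σ) (hp : σ.ph = Ph.U) : 1095 / 1000 * σ.s ≤ ‖σ.V‖ := by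
  have h1 := U_Vsq h hp
  have h2 := abs_le.1 (U_gt h)
  have hs := h.s_pos
  apply le_of_sq_le' (norm_nonneg _)
  rw [h1]; nlinarith [sq_nonneg σ.s]

lemma U_Vhi (h : InvU σ) (hp : σ.ph = Ph.U) : ‖σ.V‖ ≤ 1141 / 1000 * σ.s := by
  have h1 := U_Vsq h hp
  have h2 := abs_le.1 (U_gt h)
  have hs := h.s_pos
  apply le_of_sq_le' (by positivity)
  rw [h1]; nlinarith [sq_nonneg σ.s]

lemma U_dtSV (h : InvU σ) (hp : σ.ph = Ph.U) :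
    dt (cr σ.a σ.b) σ.V ≤ -(45 / 100) * (σ.s * ‖cr σ.a σ.b‖) := by
  have hS := h.Spos
  have h1 : dt (cr σ.a σ.b) σ.V = σ.s * (σ.g * dt (cr σ.a σ.b) σ.u - 1 / 2 * ‖cr σ.a σ.b‖) := by
    rw [U_V hp]
    simp only [dt_smul_right, dt_sub_right]
    have : dt (cr σ.a σ.b) σ.N = ‖cr σ.a σ.b‖ := by
      rw [dt_comm, dt_N, dt_self]; field_simp
    rw [this]
  rw [h1]
  have h2 : σ.g * dt (cr σ.a σ.b) σ.u ≤ 5 / 100 * ‖cr σ.a σ.b‖ := by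
    have := abs_le.1 h.hSu
    rcases g_or σ with hg | hg <;> rw [hg] <;> linarith
  have hs := h.s_pos
  nlinarith

/-- data of the unchanged column -/
structure WU (σ : St) (w : E) : Prop where
  hN : dt σ.N w = 0
  hS : dt (cr σ.a σ.b) w = 0
  lo : 8 / 10 * σ.s1 ≤ ‖w‖
  hi : ‖w‖ ≤ 11 / 10 * σ.s1
  hu : |dt w σ.u| ≤ 3 / 100 * ‖w‖

lemma WU_of (h : InvU σ) {n1 n2 : ℝ} (hn : IsE n1 n2) : WU σ (n2 • σ.a - n1 • σ.b) := by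
  have ha := N_a σ
  have hb := N_b σ
  rcases hn with ⟨h1, h2⟩ | ⟨h1, h2⟩
  · subst h2
    have e1 : ‖(0 : ℝ) • σ.a - n1 • σ.b‖ = ‖σ.b‖ := by rcases h1 with h1 | h1 <;> simp [h1]
    have e2 : |dt ((0 : ℝ) • σ.a - n1 • σ.b) σ.u| = |dt σ.b σ.u| := by
      rcases h1 with h1 | h1 <;> simp [h1]
    exact ⟨by simp [ha, hb], by simp, by rw [e1]; exact h.hb, by rw [e1]; exact h.hb',
      by rw [e1, e2]; exact h.hbu⟩
  · subst h1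
    have e1 : ‖n2 • σ.a - (0 : ℝ) • σ.b‖ = ‖σ.a‖ := by rcases h2 with h1 | h1 <;> simp [h1]
    have e2 : |dt (n2 • σ.a - (0 : ℝ) • σ.b) σ.u| = |dt σ.a σ.u| := by
      rcases h2 with h1 | h1 <;> simp [h1]
    exact ⟨by simp [ha, hb], by simp, by rw [e1]; exact h.ha, by rw [e1]; exact h.ha',
      by rw [e1, e2]; exact h.hau⟩

variable {w : E}

lemma U_dtVw (hp : σ.ph = Ph.U) (hw : WU σ w) : dt σ.V w = σ.s * σ.g * dt w σ.u := by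
  rw [U_V hp]; simp only [dt_smul_left, dt_sub_left, hw.hN, dt_comm σ.u w]; ring

lemma U_crVw (h : InvU σ) (hp : σ.ph = Ph.U) (hw : WU σ w) :
    109 / 100 * (σ.s * ‖w‖) ≤ ‖cr σ.V w‖ := by
  have hs := h.s_pos
  have hs1 := h.hs1
  have hw0 : 0 < ‖w‖ := lt_of_lt_of_le (by positivity) hw.lo
  apply le_of_sq_le' (norm_nonneg _)
  rw [norm_cr_sq, U_dtVw hp hw, U_Vsq h hp]
  have h2 := abs_le.1 (U_gt h)
  have h3 : (σ.g * dt w σ.u) ^ 2 ≤ (3 / 100 * ‖w‖) ^ 2 := by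
    rw [← sq_abs (σ.g * dt w σ.u), abs_mul]
    have : |σ.g| = 1 := by rcases g_or σ with hg | hg <;> simp [hg]
    rw [this, one_mul]
    exact pow_le_pow_left₀ (abs_nonneg _) hw.hu 2
  have h4 : (σ.s * σ.g * dt w σ.u) ^ 2 = σ.s ^ 2 * (σ.g * dt w σ.u) ^ 2 := by ring
  rw [h4]
  have h5 : σ.s ^ 2 * (σ.g * dt w σ.u) ^ 2 ≤ σ.s ^ 2 * (3 / 100 * ‖w‖) ^ 2 :=
    mul_le_mul_of_nonneg_left h3 (sq_nonneg _)
  have h6 : 0 < σ.s ^ 2 * ‖w‖ ^ 2 := by positivity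
  nlinarith [mul_le_mul_of_nonneg_right h2.2 h6.le]

lemma U_Sle (h : InvU σ) : ‖cr σ.a σ.b‖ ≤ 121 / 100000 * (σ.s * σ.s1) := by
  have hs1 := h.hs1
  have := norm_cr_le σ.a σ.b
  have h2 : ‖σ.a‖ * ‖σ.b‖ ≤ (11 / 10 * σ.s1) * (11 / 10 * σ.s1) :=
    mul_le_mul h.ha' h.hb' (norm_nonneg _) (by positivity)
  nlinarith [h.s_ge]

/-- the new normal -/
lemma U_S'lo (h : InvU σ) (hp : σ.ph = Ph.U) (hw : WU σ w) :
    87 / 100 * (σ.s * σ.s1) ≤ ‖cr σ.a σ.b + cr σ.V w‖ := by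
  have h1 := U_crVw h hp hw
  have h2 := U_Sle h
  have h3 : ‖cr σ.V w‖ ≤ ‖cr σ.a σ.b + cr σ.V w‖ + ‖cr σ.a σ.b‖ := by
    have := norm_sub_le (cr σ.a σ.b + cr σ.V w) (cr σ.a σ.b)
    simpa using this
  have hs := h.s_pos
  nlinarith [hw.lo, h.hs1, mul_le_mul_of_nonneg_left hw.lo hs.le, mul_pos hs h.hs1]

lemma U_S'u (h : InvU σ) (hp : σ.ph = Ph.U) (hw : WU σ w) :
    |dt (cr σ.a σ.b + cr σ.V w) σ.u| ≤ 5 / 10 * ‖cr σ.a σ.b + cr σ.V w‖ := by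
  have h1 := U_crVw h hp hw
  have h2 := U_Sle h
  have h3 : ‖cr σ.V w‖ ≤ ‖cr σ.a σ.b + cr σ.V w‖ + ‖cr σ.a σ.b‖ := by
    have := norm_sub_le (cr σ.a σ.b + cr σ.V w) (cr σ.a σ.b)
    simpa using this
  have hs := h.s_pos
  have h4 : dt (cr σ.V w) σ.u = σ.s * (- (1 / 2) * T σ.N w σ.u) := by
    change T σ.V w σ.u = _
    rw [U_V hp, T_smul_left, T_sub_left, T_smul_left, T_smul_left]
    have : T σ.u w σ.u = 0 := T_self_13 _ _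
    rw [this]; ring
  have h5 : |T σ.N w σ.u| ≤ ‖w‖ := by
    have := abs_T_le σ.N w σ.u
    rwa [norm_N h.Spos, h.hu, one_mul, mul_one] at this
  have h6 : |dt (cr σ.V w) σ.u| ≤ σ.s * (1 / 2 * ‖w‖) := by
    rw [h4, abs_mul, abs_of_pos hs, abs_mul]
    apply mul_le_mul_of_nonneg_left _ hs.le
    rw [abs_neg, abs_of_pos (by norm_num : (0 : ℝ) < 1 / 2)]
    linarith
  rw [dt_add_left]
  have h7 := abs_add_le (dt (cr σ.a σ.b) σ.u) (dt (cr σ.V w) σ.u)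
  have h8 := h.hSu
  have h9 := mul_le_mul_of_nonneg_left hw.lo hs.le
  nlinarith [mul_pos hs h.hs1]

lemma U_TS'V (h : InvU σ) (hp : σ.ph = Ph.U) (hw : WU σ w) :
    |T (cr σ.a σ.b + cr σ.V w) σ.V σ.u| ≤ 15 / 1000 * (‖cr σ.a σ.b + cr σ.V w‖ * σ.s) := by
  have hs := h.s_pos
  have hw0 : 0 < ‖w‖ := lt_of_lt_of_le (by have := h.hs1; positivity) hw.lo
  set S' := cr σ.a σ.b + cr σ.V w with hS'
  have h1 : T S' σ.V σ.u = σ.s * (- (1 / 2) * T S' σ.N σ.u) := by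
    conv_lhs => rw [U_V hp]
    rw [T_smul_mid, T_sub_mid, T_smul_mid, T_smul_mid, T_self_23]; ring
  have h2 : dt S' w = 0 := by rw [hS', dt_add_left, hw.hS, dt_cr_right]; ring
  have h3 := abs_T_ortho S' σ.N σ.u w hw.hN h2 hw0 (3 / 100) hw.hu
  rw [norm_N h.Spos, mul_one] at h3
  rw [h1, abs_mul, abs_of_pos hs, abs_mul, abs_neg, abs_of_pos (by norm_num : (0 : ℝ) < 1 / 2)]
  nlinarith

/-- determinant after the push -/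
lemma U_det (h : InvU σ) (hp : σ.ph = Ph.U) {n1 n2 : ℝ} (hn : IsE n1 n2) :
    25 / 100 * (σ.s * σ.s1 * σ.s2) ≤
      T (σ.a - n1 • σ.V) (σ.b - n2 • σ.V) (σ.c - (1 : ℝ) • σ.V) := by
  have hw := WU_of h hn
  rw [T_push]
  set w := n2 • σ.a - n1 • σ.b
  have hs := h.s_pos
  have h1 := U_dtSV h hp
  have hs1 := h.hs1
  have hs2 := h.hs2
  have hs3 := h.hs3
  have h2 : |T σ.V w σ.c| ≤ (1141 / 1000 * σ.s) * (11 / 10 * σ.s1) * (6 * σ.s3) := by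
    refine (abs_T_le _ _ _).trans ?_
    gcongr
    · exact U_Vhi h hp
    · exact hw.hi
    · exact h.hc
  have h3 := (abs_le.1 h2).1
  have h4 : 0 ≤ T σ.a σ.b σ.c := le_trans (by positivity) h.hT
  have h5 : 45 / 100 * (σ.s * (6 / 10 * (σ.s1 * σ.s2))) ≤ 45 / 100 * (σ.s * ‖cr σ.a σ.b‖) := by
    have := h.hS
    gcongr
  have h6 : (σ.s * σ.s1) * (1000 * σ.s3) ≤ (σ.s * σ.s1) * σ.s2 := by
    have := h.h23
    gcongr
  have h7 : 0 < σ.s * σ.s1 * σ.s2 := by positivity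
  nlinarith

end U

end Pool.Agent.Helper746
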