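import Mathlib

set_option autoImplicit false

namespace Pool.Agent.Helper746

/-- Euclidean three-space. -/
abbrev E := EuclideanSpace ℝ (Fin 3)

/-- the cross product -/
noncomputable def cr (a b : E) : E :=
  WithLp.toLp 2 ![a 1 * b 2 - a 2 * b 1, a 2 * b 0 - a 0 * b 2, a 0 * b 1 - a 1 * b 0]

/-- the dot product -/
noncomputable def dt (a b : E) : ℝ := a 0 * b 0 + a 1 * b 1 + a 2 * b 2

/-- the determinant with columns `a, b, c` -/
noncomputable def T (a b c : E) : ℝ := dt (cr a b) c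

@[simp] lemma cr_0 (a b : E) : cr a b 0 = a 1 * b 2 - a 2 * b 1 := rfl
@[simp] lemma cr_1 (a b : E) : cr a b 1 = a 2 * b 0 - a 0 * b 2 := rfl
@[simp] lemma cr_2 (a b : E) : cr a b 2 = a 0 * b 1 - a 1 * b 0 := rfl

lemma ext3 {a b : E} (h0 : a 0 = b 0) (h1 : a 1 = b 1) (h2 : a 2 = b 2) : a = b := by
  ext i; fin_cases i <;> assumption

lemma dt_eq (a b : E) : dt a b = inner ℝ a b := by
  simp only [dt, PiLp.inner_apply, Fin.sum_univ_three]
  simp [mul_comm]

lemma dt_comm (a b : E) : dt a b = dt b a := by unfold dt; ring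

lemma dt_self (a : E) : dt a a = ‖a‖ ^ 2 := by rw [dt_eq, real_inner_self_eq_norm_sq]

lemma abs_dt_le (a b : E) : |dt a b| ≤ ‖a‖ * ‖b‖ := by rw [dt_eq]; exact abs_real_inner_le_norm a b

@[simp] lemma dt_add_left (a b c : E) : dt (a + b) c = dt a c + dt b c := by
  simp only [dt, PiLp.add_apply]; ring
@[simp] lemma dt_sub_left (a b c : E) : dt (a - b) c = dt a c - dt b c := by
  simp only [dt, PiLp.sub_apply]; ring
@[simp] lemma dt_smul_left (r : ℝ) (a c : E) : dt (r • a) c = r * dt a c := by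
  simp only [dt, PiLp.smul_apply, smul_eq_mul]; ring
@[simp] lemma dt_neg_left (a c : E) : dt (-a) c = - dt a c := by
  simp only [dt, PiLp.neg_apply]; ring
@[simp] lemma dt_add_right (a b c : E) : dt c (a + b) = dt c a + dt c b := by
  simp only [dt, PiLp.add_apply]; ring
@[simp] lemma dt_sub_right (a b c : E) : dt c (a - b) = dt c a - dt c b := by
  simp only [dt, PiLp.sub_apply]; ring
@[simp] lemma dt_smul_right (r : ℝ) (a c : E) : dt c (r • a) = r * dt c a := by
  simp only [dt, PiLp.smul_apply, smul_eq_mul]; ring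
@[simp] lemma dt_neg_right (a c : E) : dt c (-a) = - dt c a := by
  simp only [dt, PiLp.neg_apply]; ring

lemma norm_add_sq' (a b : E) : ‖a + b‖ ^ 2 = ‖a‖ ^ 2 + 2 * dt a b + ‖b‖ ^ 2 := by
  rw [← dt_self, ← dt_self, ← dt_self]; simp only [dt_add_left, dt_add_right, dt_comm b a]; ring

@[simp] lemma dt_cr_left (a b : E) : dt (cr a b) a = 0 := by simp only [dt, cr_0, cr_1, cr_2]; ring
@[simp] lemma dt_cr_right (a b : E) : dt (cr a b) b = 0 := by simp only [dt, cr_0, cr_1, cr_2]; ring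

lemma norm_cr_sq (a b : E) : ‖cr a b‖ ^ 2 = ‖a‖ ^ 2 * ‖b‖ ^ 2 - dt a b ^ 2 := by
  rw [← dt_self, ← dt_self, ← dt_self]
  simp only [dt, cr_0, cr_1, cr_2]; ring

lemma norm_cr_le (a b : E) : ‖cr a b‖ ≤ ‖a‖ * ‖b‖ := by
  have h := norm_cr_sq a b
  have : ‖cr a b‖ ^ 2 ≤ (‖a‖ * ‖b‖) ^ 2 := by nlinarith [sq_nonneg (dt a b)]
  exact (sq_le_sq₀ (norm_nonneg _) (by positivity)).1 this

lemma abs_T_le (a b c : E) : |T a b c| ≤ ‖a‖ * ‖b‖ * ‖c‖ :=
  (abs_dt_le _ _).trans (mul_le_mul_of_nonneg_right (norm_cr_le a b) (norm_nonneg _))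

/-- columns change by multiples of `V` -/
lemma cr_push (a b V : E) (x y : ℝ) :
    cr (a - x • V) (b - y • V) = cr a b + cr V (y • a - x • b) := by
  apply ext3 <;>
  · simp only [cr_0, cr_1, cr_2, PiLp.add_apply, PiLp.sub_apply, PiLp.smul_apply, smul_eq_mul]
    ring

lemma T_push (a b c V : E) (x y q : ℝ) :
    T (a - x • V) (b - y • V) (c - q • V) =
      T a b c - q * dt (cr a b) V + T V (y • a - x • b) c := by
  simp only [T, dt, cr_0, cr_1, cr_2, PiLp.sub_apply, PiLp.smul_apply, smul_eq_mul]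
  ring

lemma T_span (V w a b r : E) (s t x y : ℝ) (hw : w = y • a - x • b) :
    T V w (r + s • a + t • b) = T V w r + (s * x + t * y) * dt (cr a b) V := by
  subst hw
  simp only [T, dt, cr_0, cr_1, cr_2, PiLp.sub_apply, PiLp.add_apply, PiLp.smul_apply, smul_eq_mul]
  ring

/-- identity used to bound `T n' n u` when `n, n'` are orthogonal to `w` -/
lemma T_ortho (n' n u w : E) (h1 : dt n w = 0) (h2 : dt n' w = 0) :
    T n' n u * ‖w‖ ^ 2 = T n' n w * dt w u := by
  have key : T n' n u * dt w w = T n' n w * dt w u + dt n' w * T w n u - dt n w * T w n' u := by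
    simp only [T, dt, cr_0, cr_1, cr_2]; ring
  rw [← dt_self, key, h1, h2]; ring

lemma abs_T_ortho (n' n u w : E) (h1 : dt n w = 0) (h2 : dt n' w = 0) (hw : 0 < ‖w‖) (k : ℝ)
    (hk : |dt w u| ≤ k * ‖w‖) :
    |T n' n u| ≤ ‖n'‖ * ‖n‖ * k := by
  have h := T_ortho n' n u w h1 h2
  have hk0 : 0 ≤ k := by
    by_contra hneg
    push Not at hneg
    have := abs_nonneg (dt w u)
    nlinarith
  have h3 : |T n' n u| * ‖w‖ ^ 2 ≤ (‖n'‖ * ‖n‖ * k) * ‖w‖ ^ 2 := by
    rw [← abs_of_nonneg (sq_nonneg ‖w‖), ← abs_mul, h, abs_mul, abs_of_nonneg (sq_nonneg ‖w‖)]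
    calc |T n' n w| * |dt w u| ≤ (‖n'‖ * ‖n‖ * ‖w‖) * (k * ‖w‖) := by
          apply mul_le_mul (abs_T_le _ _ _) hk (abs_nonneg _) (by positivity)
      _ = _ := by ring
  exact le_of_mul_le_mul_right h3 (by positivity)

lemma T_self_13 (a b : E) : T a b a = 0 := dt_cr_left a b
lemma T_self_23 (a b : E) : T a b b = 0 := dt_cr_right a b

lemma T_add_left (a a' b c : E) : T (a + a') b c = T a b c + T a' b c := by
  simp only [T, dt, cr_0, cr_1, cr_2, PiLp.add_apply]; ring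
lemma T_sub_left (a a' b c : E) : T (a - a') b c = T a b c - T a' b c := by
  simp only [T, dt, cr_0, cr_1, cr_2, PiLp.sub_apply]; ring
lemma T_smul_left (r : ℝ) (a b c : E) : T (r • a) b c = r * T a b c := by
  simp only [T, dt, cr_0, cr_1, cr_2, PiLp.smul_apply, smul_eq_mul]; ring
lemma T_add_mid (a b b' c : E) : T a (b + b') c = T a b c + T a b' c := by
  simp only [T, dt, cr_0, cr_1, cr_2, PiLp.add_apply]; ring
lemma T_sub_mid (a b b' c : E) : T a (b - b') c = T a b c - T a b' c := by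
  simp only [T, dt, cr_0, cr_1, cr_2, PiLp.sub_apply]; ring
lemma T_smul_mid (r : ℝ) (a b c : E) : T a (r • b) c = r * T a b c := by
  simp only [T, dt, cr_0, cr_1, cr_2, PiLp.smul_apply, smul_eq_mul]; ring

end Pool.Agent.Helper746
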